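import Pool.Agent.SandFin.TypDefs

/-! Upper bound: definitions. -/

set_option autoImplicit false
open scoped Classical
open Filter Topology

namespace Pool.Agent.Sand

variable {V : Type} (Δ : SimpleGraph V) [Δ.LocallyFinite]

/-- `K` reaches the cone `D` -/
def hits (K : Finset V) (D : Set V) : Prop := ∃ v ∈ iB Δ D, v ∈ K

/-- number of cones of rank `j` reached by `K` -/
noncomputable def Zc (o : V) (j : ℕ) (K : Finset V) : ℕ := ((cns Δ o j).filter (hits Δ K)).card

/-- the cone of rank `j` containing `D` -/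
def anc (o : V) (j : ℕ) (D : Set V) : Set V := ⋃₀ {C | Cone Δ o j C ∧ D ⊆ C}

/-- the set of toppling vertices of the avalanche -/
noncomputable def avs (r : ℕ) (G : Finset V) (χ : V → ℕ) (o : V) : Finset V :=
  G.filter fun v => avo Δ r G χ o v ≠ 0

/-- the `i`-th wave of the avalanche -/
noncomputable def wv (r : ℕ) (G : Finset V) (χ : V → ℕ) (o : V) (i : ℕ) : Finset V :=
  KK Δ r (G.erase o) (fire Δ r (G.erase o) (rs (G.erase o) χ) (i • ind {o})) {o}

/-- weighted coverage of the neighbourhood of the inner boundary of `D` by `K` -/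
noncomputable def Yb (r t : ℕ) (D : Set V) (K : Finset V) : ℝ :=
  ∑ v ∈ fs (iB Δ D), ∑ y ∈ fs (cb Δ v t), pk Δ r D t v y * (if y ∈ K then 1 else 0)

/-- all cones of rank `j` have boundary firing numbers `≤ q0` -/
def Qev (q0 : ℕ) (o : V) (j : ℕ) (u : V → ℕ) : Prop := ∀ D ∈ cns Δ o j, ∀ v ∈ oB Δ D, u v ≤ q0

/-- admissible finite regions for ranks from `j0` to `R` -/
structure Adm (T m : ℕ) (o : V) (j0 R : ℕ) (S U : Finset V) : Prop where
  disj : Disjoint S U
  sub : ↑U ⊆ fb Δ o j0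
  card : U.card ≤ m
  full : ∀ j, j0 ≤ j → j ≤ R → ∀ D, Cone Δ o j D →
    (∀ v ∈ D, v ∉ S) ∨ ∀ v ∈ D, Δ.dist o v ≤ j + T → v ∈ S
  few : ((cns Δ o j0).filter fun D => ∃ v ∈ D, v ∈ S).card ≤ m

end Pool.Agent.Sand
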