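import Pool.Agent.SandFin.All5
import Pool.Agent.SandFin.UpDefs

/-! LO1b: in a cone, with positive probability nothing stays unburnt and the full wave has a given size. -/

set_option autoImplicit false
set_option linter.unusedSectionVars false
open scoped Classical
open Filter Topology

namespace Pool.Agent.Sand

variable {V : Type} (Δ : SimpleGraph V) [Δ.LocallyFinite]

section O
variable {Δ} {r : ℕ} {h : ℝ} {D0 : ℕ} (H : Hyp Δ r h D0)
include H

/-- the unburnt set is empty as soon as it does not meet the inner boundary -/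
theorem lo1b_LL {o : V} {R : ℕ} {E : Set V} (hE : Cone Δ o R E) {S : Finset V} (hS : ↑S ⊆ E) {χ : V → ℕ}
    (hχ : χ ∈ rcr Δ r S) (h0 : LL Δ S χ (fs (oB Δ E)) ∩ fs (iB Δ E) = ∅) :
    LL Δ S χ (fs (oB Δ E)) = ∅ := by
  obtain ⟨b, -, -, hb⟩ := exists_bound H
  obtain ⟨hfi, hfo, -⟩ := hb o R E hE.comp
  by_contra hne
  have hne' : (LL Δ S χ (fs (oB Δ E))).Nonempty := Finset.nonempty_iff_ne_empty.mpr hne
  have hLS : LL Δ S χ (fs (oB Δ E)) ⊆ S := Finset.filter_subset _ _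
  have hself : ∀ w ∈ LL Δ S χ (fs (oB Δ E)),
      χ w ≤ nb Δ w (LL Δ S χ (fs (oB Δ E)) ∪ fs (oB Δ E)) := by
    intro w hw
    obtain ⟨-, W, hWS, hwW, hW⟩ := Finset.mem_filter.mp hw
    have hsub : W ⊆ LL Δ S χ (fs (oB Δ E)) := by
      intro x hx
      exact Finset.mem_filter.mpr ⟨hWS hx, W, hWS, hx, hW⟩
    refine (hW w hwW).trans ?_
    unfold nb
    exact Finset.card_le_card (Finset.inter_subset_inter_left (Finset.union_subset_union_left hsub))
  have hrc := (Finset.mem_filter.mp hχ).2 _ hLS hne'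
  obtain ⟨v, hv, hlt⟩ := hrc
  have h1 := hself v hv
  -- `v` has a neighbour in the outer boundary
  have h2 : ∃ w, w ∈ fs (oB Δ E) ∧ Δ.Adj v w := by
    by_contra hcon
    push Not at hcon
    have h3 : nb Δ v (LL Δ S χ (fs (oB Δ E)) ∪ fs (oB Δ E)) ≤ nb Δ v (LL Δ S χ (fs (oB Δ E))) := by
      unfold nb
      apply Finset.card_le_card
      intro w hw
      rw [Finset.mem_inter, Finset.mem_union] at hw
      rw [Finset.mem_inter]
      refine ⟨hw.1, hw.2.resolve_right fun h4 => hcon w h4 ?_⟩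
      simpa using hw.1
    omega
  obtain ⟨w, hw, hadj⟩ := h2
  rw [mem_fs hfo] at hw
  have h3 : v ∈ fs (iB Δ E) := (mem_fs hfi).mpr ⟨hS (hLS hv), w, hw.1, hadj⟩
  have h4 : v ∈ LL Δ S χ (fs (oB Δ E)) ∩ fs (iB Δ E) := Finset.mem_inter.mpr ⟨hv, h3⟩
  rw [h0] at h4
  exact absurd h4 (Finset.notMem_empty v)

theorem lo_one {o : V} {R : ℕ} {E : Set V} (hE : Cone Δ o R E) : ∃ (s : ℕ) (c : ℝ), 0 < c ∧
    ∀ᶠ G in (atTop : Filter (Finset V)),
      c ≤ pr Δ r (cut E G) (fun χ => LL Δ (cut E G) χ (fs (oB Δ E)) = ∅ ∧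
        (KK Δ r (cut E G) χ (fs (oB Δ E))).card = s) := by
  obtain ⟨b, -, -, hb⟩ := exists_bound H
  obtain ⟨hfi, hfo, -⟩ := hb o R E hE.comp
  have hn : ∀ v, v ∉ oB Δ E → ind (fs (oB Δ E)) v = 0 := by
    intro v hv
    unfold ind
    rw [if_neg]
    rwa [mem_fs hfo]
  have hcutE : ∀ G : Finset V, ((cut E G : Finset V) : Set V) ⊆ E := by
    intro G v hv
    exact (Finset.mem_filter.mp (Finset.mem_coe.mp hv)).2
  -- some state without unburnt vertices has positive probability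
  obtain ⟨σ, hσ1, hσ2⟩ : ∃ σ ∈ (stF Δ r 1 E).filter (fun σ : St V => σ.1 (fs (oB Δ E)) = ∅),
      0 < al0 Δ r 1 E σ := by
    by_contra hcon
    push Not at hcon
    obtain ⟨c, T, hc, hgood⟩ := dom_good H
    have hev : ∀ᶠ G in (atTop : Filter (Finset V)),
        c ≤ ∑ σ ∈ (stF Δ r 1 E).filter (fun σ : St V => σ.1 (fs (oB Δ E)) = ∅),
          pr Δ r (cut E G) (fun χ => st Δ r 1 E (cut E G) χ = σ) := by
      filter_upwards [eventually_ge_atTop (fs (cb Δ o (R + T)))] with G hG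
      have h1 := hgood o R E hE (cut E G) (hcutE G) (fun v hv hd => by
        refine Finset.mem_filter.mpr ⟨hG ?_, hv⟩
        rw [mem_fs (cb_finite H o (R + T))]
        exact hd)
      have hN : (0 : ℝ) < (NNr Δ r (cut E G) : ℝ) := by exact_mod_cast NN_pos H (cut E G)
      have h2 : c ≤ pr Δ r (cut E G) (Good Δ r E (cut E G)) := by
        unfold pr
        rw [le_div_iff₀ hN]
        exact h1
      refine h2.trans ((pr_mono H _ ?_).trans (pr_union H (cut E G)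
        ((stF Δ r 1 E).filter (fun σ : St V => σ.1 (fs (oB Δ E)) = ∅))
        (fun σ χ => st Δ r 1 E (cut E G) χ = σ)))
      intro χ hχ hg
      refine ⟨st Δ r 1 E (cut E G) χ, Finset.mem_filter.mpr ⟨mem_stF H hE 1 G hχ, ?_⟩, rfl⟩
      show LL Δ (cut E G) χ (fs (oB Δ E) ∩ fs (oB Δ E)) ∩ fs (iB Δ E) = ∅
      rw [Finset.inter_self, hg.1, Finset.empty_inter]
    have hlim : Tendsto (fun G : Finset V =>
        ∑ σ ∈ (stF Δ r 1 E).filter (fun σ : St V => σ.1 (fs (oB Δ E)) = ∅),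
          pr Δ r (cut E G) (fun χ => st Δ r 1 E (cut E G) χ = σ)) atTop
        (𝓝 (∑ σ ∈ (stF Δ r 1 E).filter (fun σ : St V => σ.1 (fs (oB Δ E)) = ∅), al0 Δ r 1 E σ)) :=
      tendsto_finsetSum _ fun σ _ => al0_tendsto H hE 1 σ
    have h3 : c ≤ ∑ σ ∈ (stF Δ r 1 E).filter (fun σ : St V => σ.1 (fs (oB Δ E)) = ∅), al0 Δ r 1 E σ :=
      ge_of_tendsto hlim hev
    have h4 : ∑ σ ∈ (stF Δ r 1 E).filter (fun σ : St V => σ.1 (fs (oB Δ E)) = ∅), al0 Δ r 1 E σ ≤ 0 :=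
      Finset.sum_nonpos hcon
    linarith
  have hσ3 : σ.1 (fs (oB Δ E)) = ∅ := (Finset.mem_filter.mp hσ1).2
  -- some size has positive probability
  have hsum := al_sum H hE 1 σ hn
  obtain ⟨s, hs⟩ : ∃ s, 0 < al Δ r 1 E σ (ind (fs (oB Δ E))) s := by
    by_contra hcon
    push Not at hcon
    have h1 : al0 Δ r 1 E σ ≤ 0 := hsum.nonpos hcon
    linarith
  refine ⟨s, al Δ r 1 E σ (ind (fs (oB Δ E))) s / 2, by linarith, ?_⟩
  have hten := al_tendsto H hE 1 σ hn s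
  have hhalf : al Δ r 1 E σ (ind (fs (oB Δ E))) s / 2 < al Δ r 1 E σ (ind (fs (oB Δ E))) s := by
    linarith
  filter_upwards [hten.eventually_const_le hhalf] with G hG
  refine hG.trans (pr_mono H _ ?_)
  rintro χ hχ ⟨h1, h2⟩
  refine ⟨?_, h2⟩
  apply lo1b_LL H hE (hcutE G) hχ
  have h3 : (st Δ r 1 E (cut E G) χ).1 (fs (oB Δ E)) = ∅ := by rw [h1, hσ3]
  have h4 : (st Δ r 1 E (cut E G) χ).1 (fs (oB Δ E)) =
      LL Δ (cut E G) χ (fs (oB Δ E) ∩ fs (oB Δ E)) ∩ fs (iB Δ E) := rfl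
  rw [h4, Finset.inter_self] at h3
  exact h3

end O

end Pool.Agent.Sand
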