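import Pool.Agent.SandFin.All5
import Pool.Agent.SandFin.UpDefs

/-! Task LO1c: a cone whose waves have a lower bound on a residue class. -/

set_option autoImplicit false
set_option linter.unusedSectionVars false
open scoped Classical
open Filter Topology

namespace Pool.Agent.Sand

variable {V : Type} (Δ : SimpleGraph V) [Δ.LocallyFinite]

section O
variable {Δ} {r : ℕ} {h : ℝ} {D0 : ℕ} (H : Hyp Δ r h D0)
include H

theorem LO1c_split {o : V} {R : ℕ} {E : Set V} (hE : Cone Δ o R E) (G : Finset V) (m : ℕ) :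
    pr Δ r (cut E G) (fun χ => (KK Δ r (cut E G) χ (fs (oB Δ E))).card = m) =
      ∑ σ ∈ stF Δ r 1 E, pr Δ r (cut E G) (fun χ => st Δ r 1 E (cut E G) χ = σ ∧
        sz Δ r (cut E G) χ (ind (fs (oB Δ E))) = m) := by
  unfold pr
  rw [Finset.card_eq_sum_card_fiberwise (f := fun χ => st Δ r 1 E (cut E G) χ)
    (t := stF Δ r 1 E) ?_]
  · push_cast
    rw [Finset.sum_div]
    refine Finset.sum_congr rfl fun σ _ => ?_
    congr 3
    ext χ
    simp only [Finset.mem_filter]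
    constructor
    · rintro ⟨⟨h1, h2⟩, h3⟩
      exact ⟨h1, h3, h2⟩
    · rintro ⟨h1, h3, h2⟩
      exact ⟨⟨h1, h2⟩, h3⟩
  · intro χ hχ
    simp only [Finset.coe_filter, Set.mem_setOf_eq] at hχ
    exact mem_stF H hE 1 G hχ.1

theorem LO1c_ind (S : Finset V) (P : (V → ℕ) → Prop) [DecidablePred P] :
    ex Δ r S (fun χ => if P χ then 1 else 0) = pr Δ r S P := by
  rw [← ex_ind H]
  congr 1
  funext χ
  by_cases hP : P χ
  · rw [if_pos hP, if_pos hP]
  · rw [if_neg hP, if_neg hP]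

theorem LO1c_const (S : Finset V) (a : ℝ) : ex Δ r S (fun _ => a) = a := by
  unfold ex
  have hp := NN_pos H S
  have hp' : (NNr Δ r S : ℝ) ≠ 0 := by exact_mod_cast hp.ne'
  rw [Finset.sum_const, nsmul_eq_mul]
  have e : ((rcr Δ r S).card : ℝ) = (NNr Δ r S : ℝ) := rfl
  rw [e]
  field_simp

omit H in
theorem LO1c_min (a k : ℕ) (t : ℕ) (h1 : t ≤ k) (h2 : t ≤ a) :
    (t : ℝ) ≤ (a : ℝ) + ∑ m ∈ Finset.range a, (-((a : ℝ) - m)) * (if k = m then 1 else 0) := by
  have e : ∑ m ∈ Finset.range a, (-((a : ℝ) - m)) * (if k = m then 1 else 0) =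
      if k ∈ Finset.range a then -((a : ℝ) - k) else 0 := by
    rw [← Finset.sum_ite_eq (Finset.range a) k (fun m => -((a : ℝ) - m))]
    refine Finset.sum_congr rfl fun m _ => ?_
    split_ifs <;> simp
  rw [e]
  have h1' : (t : ℝ) ≤ k := by exact_mod_cast h1
  have h2' : (t : ℝ) ≤ a := by exact_mod_cast h2
  split_ifs
  · linarith
  · linarith

/-- the truncated mean of the size of the wave is at least the Green mass -/
theorem LO1c_green {o : V} {R : ℕ} {E : Set V} (hE : Cone Δ o R E) (X : Finset V) (G : Finset V)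
    (hXG : X ⊆ cut E G) :
    ∑ x ∈ X, ∑ v ∈ fs (iB Δ E), gr Δ r ↑(cut E G) x v ≤
      (X.card : ℝ) + ∑ m ∈ Finset.range X.card, (-((X.card : ℝ) - m)) *
        pr Δ r (cut E G) (fun χ => (KK Δ r (cut E G) χ (fs (oB Δ E))).card = m) := by
  obtain ⟨b, -, -, hb⟩ := exists_bound H
  obtain ⟨hfi, hfo, -⟩ := hb o R E hE.comp
  set S := cut E G with hS
  set F := fs (oB Δ E) with hF
  have hSE : ∀ v ∈ S, v ∈ E := fun v hv => (Finset.mem_filter.1 hv).2
  have hU : Disjoint S F := by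
    rw [Finset.disjoint_left]
    intro v hv hv'
    exact ((mem_fs hfo).1 hv').1 (hSE v hv)
  have step1 : ∀ x ∈ X, ∑ v ∈ fs (iB Δ E), gr Δ r ↑S x v ≤
      pr Δ r S (fun χ => x ∈ KK Δ r S χ F) := by
    intro x _
    rw [pr_KK H hU x]
    have hsub : (fs (iB Δ E)).filter (· ∈ S) ⊆ S := by
      intro v hv
      exact (Finset.mem_filter.1 hv).2
    have e1 : ∑ v ∈ fs (iB Δ E), gr Δ r ↑S x v =
        ∑ v ∈ (fs (iB Δ E)).filter (· ∈ S), gr Δ r ↑S x v := by
      rw [Finset.sum_filter]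
      refine Finset.sum_congr rfl fun v _ => ?_
      split_ifs with hv
      · rfl
      · exact gr_zero H _ (Or.inr (by simpa using hv))
    rw [e1]
    calc ∑ v ∈ (fs (iB Δ E)).filter (· ∈ S), gr Δ r ↑S x v
        ≤ ∑ v ∈ (fs (iB Δ E)).filter (· ∈ S), gr Δ r ↑S x v * (nb Δ v F : ℝ) := by
          refine Finset.sum_le_sum fun v hv => ?_
          have hv1 := (mem_fs hfi).1 (Finset.mem_filter.1 hv).1
          obtain ⟨hvE, w, hw, hvw⟩ := hv1
          have hnb : 1 ≤ nb Δ v F := by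
            unfold nb
            refine Finset.card_pos.2 ⟨w, ?_⟩
            rw [Finset.mem_inter, SimpleGraph.mem_neighborFinset]
            exact ⟨hvw, (mem_fs hfo).2 ⟨hw, v, hvE, hvw⟩⟩
          have hnb' : (1 : ℝ) ≤ (nb Δ v F : ℝ) := by exact_mod_cast hnb
          have hg := gr_nonneg H (↑S : Set V) x v
          nlinarith
      _ ≤ ∑ v ∈ S, gr Δ r ↑S x v * (nb Δ v F : ℝ) := by
          refine Finset.sum_le_sum_of_subset_of_nonneg hsub fun v _ _ => ?_
          exact mul_nonneg (gr_nonneg H _ _ _) (Nat.cast_nonneg _)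
  have step2 : ∑ x ∈ X, pr Δ r S (fun χ => x ∈ KK Δ r S χ F) =
      ex Δ r S (fun χ => ∑ x ∈ X, if x ∈ KK Δ r S χ F then (1 : ℝ) else 0) := by
    rw [ex_sum H]
    refine Finset.sum_congr rfl fun x _ => ?_
    exact (LO1c_ind H S (fun χ => x ∈ KK Δ r S χ F)).symm
  have step3 : ex Δ r S (fun χ => ∑ x ∈ X, if x ∈ KK Δ r S χ F then (1 : ℝ) else 0) ≤
      ex Δ r S (fun χ => (X.card : ℝ) + ∑ m ∈ Finset.range X.card, (-((X.card : ℝ) - m)) *
        (if (KK Δ r S χ F).card = m then 1 else 0)) := by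
    refine ex_mono H S fun χ _ => ?_
    have e2 : ∑ x ∈ X, (if x ∈ KK Δ r S χ F then (1 : ℝ) else 0) =
        ((X.filter (· ∈ KK Δ r S χ F)).card : ℝ) := by
      rw [Finset.card_filter]
      push_cast
      rfl
    rw [e2]
    refine LO1c_min X.card (KK Δ r S χ F).card _ ?_ ?_
    · refine Finset.card_le_card fun x hx => (Finset.mem_filter.1 hx).2
    · exact Finset.card_filter_le _ _
  have step4 : ex Δ r S (fun χ => (X.card : ℝ) + ∑ m ∈ Finset.range X.card,
      (-((X.card : ℝ) - m)) * (if (KK Δ r S χ F).card = m then 1 else 0)) =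
      (X.card : ℝ) + ∑ m ∈ Finset.range X.card, (-((X.card : ℝ) - m)) *
        pr Δ r S (fun χ => (KK Δ r S χ F).card = m) := by
    rw [ex_add H, LO1c_const H, ex_sum H]
    congr 1
    refine Finset.sum_congr rfl fun m _ => ?_
    rw [ex_mul H, LO1c_ind H S (fun χ => (KK Δ r S χ F).card = m)]
  calc ∑ x ∈ X, ∑ v ∈ fs (iB Δ E), gr Δ r ↑S x v
      ≤ ∑ x ∈ X, pr Δ r S (fun χ => x ∈ KK Δ r S χ F) := Finset.sum_le_sum step1
    _ = _ := step2
    _ ≤ _ := step3
    _ = _ := step4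

theorem LO1c_hn {o : V} {R : ℕ} {E : Set V} (hE : Cone Δ o R E) :
    ∀ v, v ∉ oB Δ E → ind (fs (oB Δ E)) v = 0 := by
  obtain ⟨b, -, -, hb⟩ := exists_bound H
  obtain ⟨-, hfo, -⟩ := hb o R E hE.comp
  intro v hv
  unfold ind
  rw [if_neg]
  rwa [mem_fs hfo]

theorem LO1c_exists {o : V} {R : ℕ} {E : Set V} (hE : Cone Δ o R E) :
    ∃ σ, ¬ Summable (fun m : ℕ => (m : ℝ) * al Δ r 1 E σ (ind (fs (oB Δ E))) m) := by
  by_contra hcon
  push Not at hcon
  have hn := LO1c_hn H hE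
  set n : V → ℕ := ind (fs (oB Δ E)) with hndef
  let P : ℕ → ℝ := fun m => ∑ σ ∈ stF Δ r 1 E, al Δ r 1 E σ n m
  have hP0 : ∀ m, 0 ≤ P m := fun m => Finset.sum_nonneg fun σ _ => al_nonneg H hE 1 σ hn m
  have hP1 : HasSum P 1 := by
    have h1 : HasSum P (∑ σ ∈ stF Δ r 1 E, al0 Δ r 1 E σ) :=
      hasSum_sum fun σ _ => al_sum H hE 1 σ hn
    rwa [al0_sum H hE 1] at h1
  have hPm : Summable (fun m : ℕ => (m : ℝ) * P m) := by
    have h1 : Summable (fun m : ℕ => ∑ σ ∈ stF Δ r 1 E, (m : ℝ) * al Δ r 1 E σ n m) :=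
      summable_sum fun σ _ => hcon σ
    refine h1.congr fun m => ?_
    rw [Finset.mul_sum]
  set M : ℝ := ∑' m : ℕ, (m : ℝ) * P m with hM
  obtain ⟨X, hXE, hX⟩ := green_diverges Δ H hE (M + 1)
  set a : ℕ := X.card with ha
  have hlim : Tendsto (fun G : Finset V => (a : ℝ) + ∑ m ∈ Finset.range a, (-((a : ℝ) - m)) *
        pr Δ r (cut E G) (fun χ => (KK Δ r (cut E G) χ (fs (oB Δ E))).card = m)) atTop
      (𝓝 ((a : ℝ) + ∑ m ∈ Finset.range a, (-((a : ℝ) - m)) * P m)) := by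
    refine Tendsto.add tendsto_const_nhds (tendsto_finsetSum _ fun m _ => ?_)
    refine Tendsto.const_mul _ ?_
    have h2 : (fun G : Finset V => pr Δ r (cut E G)
        (fun χ => (KK Δ r (cut E G) χ (fs (oB Δ E))).card = m)) = fun G : Finset V =>
        ∑ σ ∈ stF Δ r 1 E, pr Δ r (cut E G) (fun χ => st Δ r 1 E (cut E G) χ = σ ∧
        sz Δ r (cut E G) χ n = m) := by
      funext G
      exact LO1c_split H hE G m
    rw [h2]
    exact tendsto_finsetSum _ fun σ _ => al_tendsto H hE 1 σ hn m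
  have hge : M + 1 ≤ (a : ℝ) + ∑ m ∈ Finset.range a, (-((a : ℝ) - m)) * P m := by
    refine ge_of_tendsto hlim ?_
    filter_upwards [eventually_ge_atTop X] with G hG
    have hXG : X ⊆ cut E G := by
      intro v hv
      exact Finset.mem_filter.2 ⟨hG hv, hXE hv⟩
    refine le_trans (hX (cut E G) hXG ?_) (LO1c_green H hE X G hXG)
    intro v hv
    exact (Finset.mem_filter.1 hv).2
  have hfin : Summable (fun m : ℕ => if m ∈ Finset.range a then ((a : ℝ) - m) * P m else 0) :=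
    summable_of_finite_support ((Finset.range a).finite_toSet.subset (by
      intro m hm
      by_contra hm'
      apply hm
      exact if_neg hm'))
  have htf : ∑' m : ℕ, (if m ∈ Finset.range a then ((a : ℝ) - m) * P m else 0) =
      ∑ m ∈ Finset.range a, ((a : ℝ) - m) * P m := by
    rw [tsum_eq_sum (s := Finset.range a)]
    · refine Finset.sum_congr rfl fun m hm => if_pos hm
    · intro m hm
      exact if_neg hm
  have hle : (a : ℝ) ≤ M + ∑ m ∈ Finset.range a, ((a : ℝ) - m) * P m := by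
    have h3 : (a : ℝ) = ∑' m : ℕ, (a : ℝ) * P m := by
      rw [tsum_mul_left, hP1.tsum_eq, mul_one]
    rw [← htf, hM, ← hPm.tsum_add hfin]
    conv_lhs => rw [h3]
    refine (hP1.summable.mul_left (a : ℝ)).tsum_le_tsum (fun m => ?_) (hPm.add hfin)
    split_ifs with hm
    · linarith
    · rw [Finset.mem_range, not_lt] at hm
      have hm' : (a : ℝ) ≤ m := by exact_mod_cast hm
      have := mul_le_mul_of_nonneg_right hm' (hP0 m)
      linarith
  have hneg : ∑ m ∈ Finset.range a, (-((a : ℝ) - m)) * P m =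
      - ∑ m ∈ Finset.range a, ((a : ℝ) - m) * P m := by
    rw [← Finset.sum_neg_distrib]
    refine Finset.sum_congr rfl fun m _ => ?_
    ring
  rw [hneg] at hge
  linarith

theorem lo_main {o : V} {R : ℕ} {E : Set V} (hE : Cone Δ o R E) :
    ∃ (g ρ : ℕ) (c : ℝ) (m₀ : ℕ), 1 ≤ g ∧ 0 < c ∧ ∀ m, m₀ ≤ m → m ≡ ρ [MOD g] →
      ∀ᶠ G in (atTop : Filter (Finset V)), c * (m : ℝ) ^ (-(3 / 2 : ℝ)) ≤
        pr Δ r (cut E G) (fun χ => (KK Δ r (cut E G) χ (fs (oB Δ E))).card = m) := by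
  obtain ⟨σ, hσ⟩ := LO1c_exists H hE
  have hn := LO1c_hn H hE
  have hq : ∀ v, ind (fs (oB Δ E)) v ≤ 1 := by
    intro v
    unfold ind
    split_ifs <;> omega
  obtain ⟨g, ρ, c, m₀, hg, hc, hm⟩ := typ_lower H hE 1 σ hn hq hσ
  refine ⟨g, ρ, c / 2, max m₀ 1, hg, by linarith, fun m hm0 hmod => ?_⟩
  have h1 := hm m (le_trans (le_max_left _ _) hm0) hmod
  have hm1 : 1 ≤ m := le_trans (le_max_right _ _) hm0
  have hpos : (0 : ℝ) < (m : ℝ) ^ (-(3 / 2 : ℝ)) :=
    Real.rpow_pos_of_pos (by exact_mod_cast hm1) _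
  have hlt : c / 2 * (m : ℝ) ^ (-(3 / 2 : ℝ)) < al Δ r 1 E σ (ind (fs (oB Δ E))) m := by
    have : 0 < c * (m : ℝ) ^ (-(3 / 2 : ℝ)) := mul_pos hc hpos
    linarith
  have ht := al_tendsto H hE 1 σ hn m
  filter_upwards [ht.eventually (lt_mem_nhds hlt)] with G hG
  refine le_trans hG.le ?_
  refine pr_mono H _ fun χ _ hχ => ?_
  exact hχ.2

end O

end Pool.Agent.Sand
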