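import Pool.Agent.SandFin.All5
import Pool.Agent.SandFin.UpDefs

/-! Task LO2a: `lo_det`. -/

set_option autoImplicit false
open scoped Classical
open Filter Topology

namespace Pool.Agent.Sand

variable {V : Type} (Δ : SimpleGraph V) [Δ.LocallyFinite]

namespace LO2a

variable {Δ}

theorem nb_le {r : ℕ} (hreg : ∀ v, Δ.degree v = r) (v : V) (W : Finset V) : nb Δ v W ≤ r := by
  rw [← hreg v]
  exact Finset.card_le_card Finset.inter_subset_left

/-- if a neighbour is missing, `nb v W < r` -/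
theorem nb_lt {r : ℕ} (hreg : ∀ v, Δ.degree v = r) {v u : V} {W : Finset V} (hvu : Δ.Adj v u)
    (hu : u ∉ W) : nb Δ v W < r := by
  rw [← hreg v]
  apply Finset.card_lt_card
  rw [Finset.ssubset_iff_of_subset Finset.inter_subset_left]
  exact ⟨u, by simpa using hvu, by simp [hu]⟩

omit [Δ.LocallyFinite] in
/-- connectedness of a set as a crossing property -/
theorem crossing {B : Set V} (hB : (Δ.induce B).Connected) {W : Set V} {x y : V} (hx : x ∈ B) (hxW : x ∈ W)
    (hy : y ∈ B) (hyW : y ∉ W) : ∃ v ∈ B, v ∈ W ∧ ∃ u ∈ B, u ∉ W ∧ Δ.Adj v u := by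
  obtain ⟨p⟩ := hB.preconnected ⟨x, hx⟩ ⟨y, hy⟩
  obtain ⟨d, -, hd1, hd2⟩ := p.exists_boundary_dart {z : B | (z : V) ∈ W} hxW hyW
  exact ⟨d.fst, d.fst.2, hd1, d.snd, d.snd.2, hd2, d.adj⟩

end LO2a

open LO2a

section O
variable {Δ} {r : ℕ} {h : ℝ} {D0 : ℕ} (H : Hyp Δ r h D0)
include H

theorem LO2a.fb_finite (o : V) (R : ℕ) : (fb Δ o R).Finite := by
  obtain ⟨T, hT⟩ := fb_bounds H
  exact (hT o R).1

theorem LO2a.oB_fb {o : V} {R : ℕ} {D : Set V} (hD : Cone Δ o R D) : oB Δ D ⊆ fb Δ o R := by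
  obtain ⟨T, hT⟩ := fb_bounds H
  intro v hv
  apply (hT o R).2.1
  have := oB_sub H hD.comp hv
  have h2 : Δ.dist o v = R := this
  show Δ.dist o v ≤ R
  omega

theorem LO2a.oB_fin {o : V} {R : ℕ} {D : Set V} (hD : Cone Δ o R D) : (oB Δ D).Finite := by
  obtain ⟨b, -, -, hb⟩ := exists_bound H
  exact (hb o R D hD.comp).2.1

omit [Δ.LocallyFinite] H in
theorem LO2a.dich (o : V) (R : ℕ) (v : V) : v ∈ fb Δ o R ∨ ∃ D, Cone Δ o R D ∧ v ∈ D := by
  by_cases hv : v ∈ fb Δ o R
  · exact Or.inl hv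
  · right
    unfold fb at hv
    simp only [Set.mem_ofPred_eq, not_forall, not_not] at hv
    obtain ⟨C, hC, hvC⟩ := hv
    exact ⟨C, hC, hvC⟩

/-- recurrence -/
theorem LO2a.recur {o : V} {R : ℕ} {G : Finset V} (hG : fs (fb Δ o R) ⊆ G) {χ : V → ℕ}
    (hχ0 : ∀ v, v ∉ G → χ v = 0) (hχ : ∀ D ∈ cns Δ o R, rs (cut D G) χ ∈ rcr Δ r (cut D G))
    (hB : ∀ v ∈ fb Δ o R, χ v = r) {E1 : Set V} (h1 : E1 ∈ cns Δ o R)
    (hL : LL Δ (cut E1 G) χ (fs (oB Δ E1)) = ∅) : χ ∈ rcr Δ r G := by
  have hrpos : 0 < r := by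
    obtain ⟨b, -, -, hb⟩ := exists_bound H
    have hE1 := (mem_cns H).1 h1
    obtain ⟨v, hv⟩ := (hb o R E1 hE1.comp).2.2.2.2.1
    obtain ⟨hv1, w, hw, hadj⟩ := hv
    rw [← H.reg v, SimpleGraph.degree_pos_iff_exists_adj]
    exact ⟨w, hadj⟩
  have hstab : ∀ v ∈ G, 1 ≤ χ v ∧ χ v ≤ r := by
    intro v hv
    rcases LO2a.dich o R v with h | ⟨D, hD, hvD⟩
    · rw [hB v h]; omega
    · have := hχ D ((mem_cns H).2 hD)
      rw [rcr, rc, Finset.mem_filter, mem_stab] at this
      have hvc : v ∈ cut D G := by simp [cut, hv, hvD]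
      have h2 := this.1.1 v hvc
      simpa [rs, hvc] using h2
  rw [rcr, rc, Finset.mem_filter, mem_stab]
  refine ⟨⟨hstab, hχ0⟩, ?_⟩
  intro W hW hne
  by_contra hcon
  push Not at hcon
  by_cases hcase : ∃ v ∈ W, v ∈ fb Δ o R
  · obtain ⟨v, hvW, hvB⟩ := hcase
    by_cases hall : ∀ u ∈ fb Δ o R, u ∈ W
    · -- `W ⊇ fb`
      have hE1 := (mem_cns H).1 h1
      obtain ⟨b, -, -, hb⟩ := exists_bound H
      obtain ⟨x, hx⟩ := (hb o R E1 hE1.comp).2.2.2.2.2.1
      have hxB := LO2a.oB_fb H hE1 hx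
      obtain ⟨hxE, y, hyE, hadj⟩ := hx
      have hyW : y ∈ W := by
        by_contra hyW
        have h2 := hcon x (hall x hxB)
        have h3 := LO2a.nb_lt H.reg hadj.symm hyW
        rw [hB x hxB] at h2
        omega
      have hyL : y ∈ LL Δ (cut E1 G) χ (fs (oB Δ E1)) := by
        rw [LL, Finset.mem_filter]
        refine ⟨by simp [cut, hW hyW, hyE], W.filter (· ∈ E1), ?_, by simp [hyW, hyE], ?_⟩
        · intro z hz
          rw [Finset.mem_filter] at hz
          simp [cut, hW hz.1, hz.2]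
        · intro z hz
          rw [Finset.mem_filter] at hz
          refine (hcon z hz.1).trans ?_
          apply Finset.card_le_card
          intro w hw
          rw [Finset.mem_inter] at hw ⊢
          refine ⟨hw.1, ?_⟩
          rw [Finset.mem_union, Finset.mem_filter]
          by_cases hwE : w ∈ E1
          · exact Or.inl ⟨hw.2, hwE⟩
          · right
            rw [mem_fs (LO2a.oB_fin H hE1)]
            exact ⟨hwE, z, hz.2, by simpa using hw.1⟩
      rw [hL] at hyL
      simp at hyL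
    · push Not at hall
      obtain ⟨u, huB, huW⟩ := hall
      obtain ⟨a, haB, haW, c, hcB, hcW, hac⟩ :=
        LO2a.crossing (fb_conn H o R) (W := (↑W : Set V)) hvB (by simpa using hvW) huB (by simpa using huW)
      have haW' : a ∈ W := by simpa using haW
      have hcW' : c ∉ W := by simpa using hcW
      have h2 := hcon a haW'
      have h3 := LO2a.nb_lt H.reg hac hcW'
      rw [hB a haB] at h2
      omega
  · push Not at hcase
    obtain ⟨v, hv⟩ := hne
    rcases LO2a.dich o R v with h | ⟨D, hD, hvD⟩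
    · exact hcase v hv h
    · have hrec := hχ D ((mem_cns H).2 hD)
      rw [rcr, rc, Finset.mem_filter] at hrec
      obtain ⟨z, hz, hz2⟩ := hrec.2 (W.filter (· ∈ D)) (by
        intro z hz
        rw [Finset.mem_filter] at hz
        simp [cut, hW hz.1, hz.2]) ⟨v, by simp [hv, hvD]⟩
      rw [Finset.mem_filter] at hz
      have hzc : z ∈ cut D G := by simp [cut, hW hz.1, hz.2]
      have h2 := hcon z hz.1
      have h3 : nb Δ z W ≤ nb Δ z (W.filter (· ∈ D)) := by
        apply Finset.card_le_card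
        intro w hw
        rw [Finset.mem_inter] at hw ⊢
        refine ⟨hw.1, ?_⟩
        rw [Finset.mem_filter]
        refine ⟨hw.2, ?_⟩
        by_contra hwD
        exact hcase w hw.2 (LO2a.oB_fb H hD ⟨hwD, z, hz.2, by simpa using hw.1⟩)
      have h4 : rs (cut D G) χ z = χ z := by simp [rs, hzc]
      rw [h4] at hz2
      omega

theorem lo_det {o : V} {R : ℕ} {o' : V} {G : Finset V} (hG : fs (fb Δ o R) ⊆ G) {χ : V → ℕ}
    (hχ0 : ∀ v, v ∉ G → χ v = 0) (hχ : ∀ D ∈ cns Δ o R, rs (cut D G) χ ∈ rcr Δ r (cut D G))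
    (hB : ∀ v ∈ fb Δ o R, χ v = r) {E0 E1 : Set V} (h0 : E0 ∈ cns Δ o R) (h1 : E1 ∈ cns Δ o R)
    (ho' : o' ∈ oB Δ E0) (hK : KK Δ r (cut E0 G) χ (fs (oB Δ E0)) = ∅)
    (hL : LL Δ (cut E1 G) χ (fs (oB Δ E1)) = ∅) (hG1 : ∀ v ∈ iB Δ E0, v ∈ G) :
    χ ∈ rcr Δ r G ∧ (avs Δ r G χ o').card = (fs (fb Δ o R)).card +
      ∑ D ∈ cns Δ o R, (KK Δ r (cut D G) χ (fs (oB Δ D))).card := by
  have hrec := LO2a.recur H hG hχ0 hχ hB h1 hL
  refine ⟨hrec, ?_⟩
  have hE0 := (mem_cns H).1 h0
  have ho'B := LO2a.oB_fb H hE0 ho'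
  have hfbG : ∀ v ∈ fb Δ o R, v ∈ G := fun v hv => hG ((mem_fs (LO2a.fb_finite H o R)).2 hv)
  have hr : ∀ v ∈ G, χ v ≤ r := by
    rw [rcr, rc, Finset.mem_filter, mem_stab] at hrec
    exact fun v hv => (hrec.1.1 v hv).2
  have hrD : ∀ D, ∀ v ∈ cut D G, χ v ≤ r := by
    intro D v hv
    exact hr v (Finset.mem_filter.1 hv).1
  have hdisj : ∀ D, Cone Δ o R D → Disjoint (cut D G) (fs (oB Δ D)) := by
    intro D hD
    rw [Finset.disjoint_left]
    intro v hv hv2
    rw [mem_fs (LO2a.oB_fin H hD)] at hv2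
    exact hv2.1 (Finset.mem_filter.1 hv).2
  -- the set of toppling vertices
  set A : Finset V := fs (fb Δ o R) ∪ (cns Δ o R).biUnion fun D => KK Δ r (cut D G) χ (fs (oB Δ D)) with hA
  have hAG : A ⊆ G := by
    intro v hv
    rw [hA, Finset.mem_union, Finset.mem_biUnion] at hv
    rcases hv with hv | ⟨D, -, hv⟩
    · exact hG hv
    · exact (Finset.mem_filter.1 (Finset.mem_filter.1 hv).1).1
  have hAfb : ∀ v ∈ fb Δ o R, v ∈ A := by
    intro v hv
    rw [hA, Finset.mem_union]
    exact Or.inl ((mem_fs (LO2a.fb_finite H o R)).2 hv)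
  have hAD : ∀ D, Cone Δ o R D → ∀ v ∈ D, (v ∈ A ↔ v ∈ KK Δ r (cut D G) χ (fs (oB Δ D))) := by
    intro D hD v hv
    rw [hA, Finset.mem_union, Finset.mem_biUnion]
    constructor
    · rintro (hv2 | ⟨D', hD', hv2⟩)
      · rw [mem_fs (LO2a.fb_finite H o R)] at hv2
        exact absurd hv (hv2 D hD)
      · have hD'c := (mem_cns H).1 hD'
        have hvD' : v ∈ D' := (Finset.mem_filter.1 (Finset.mem_filter.1 hv2).1).2
        have : D = D' := by
          by_contra hne
          exact Set.disjoint_left.1 (cone_disj H hD hD'c hne) hv hvD'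
        rw [this]
        exact hv2
    · intro hv2
      exact Or.inr ⟨D, (mem_cns H).2 hD, hv2⟩
  have hinc : ∀ v, inc Δ v (ind A) = nb Δ v A := by
    intro v
    unfold inc ind nb
    rw [Finset.sum_ite_mem, Finset.sum_const, smul_eq_mul, mul_one]
  have hinc0 : ∀ v, inc Δ v (0 : V → ℕ) = 0 := by
    intro v
    unfold inc
    simp
  have hstz : Stz Δ r G (χ + ind {o'}) 0 (ind A) := by
    refine ⟨?_, ?_⟩
    · intro v hv
      have : v ∉ A := fun h => hv (hAG h)
      simp [ind, this]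
    · intro v hv
      rw [hinc, hinc0]
      simp only [Pi.add_apply, add_zero]
      rcases LO2a.dich o R v with hvB | ⟨D, hD, hvD⟩
      · have h1 : ind A v = 1 := by simp [ind, hAfb v hvB]
        rw [h1, hB v hvB]
        by_cases hvo : v = o'
        · subst hvo
          obtain ⟨hn, y, hy, hadj⟩ := ho'
          have hyA : y ∉ A := by
            rw [hAD E0 hE0 y hy, hK]
            simp
          have := LO2a.nb_lt H.reg hadj.symm hyA
          have h2 : ind {v} v = 1 := by simp [ind]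
          rw [h2]
          omega
        · have := LO2a.nb_le H.reg v A
          have h2 : ind {o'} v = 0 := by simp [ind, hvo]
          rw [h2]
          omega
      · have hvo : v ≠ o' := by
          rintro rfl
          exact ho'B D hD hvD
        have h2 : ind {o'} v = 0 := by simp [ind, hvo]
        rw [h2]
        by_cases hvK : v ∈ A
        · have h1 : ind A v = 1 := by simp [ind, hvK]
          rw [h1]
          have := LO2a.nb_le H.reg v A
          have := hr v hv
          omega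
        · have h1 : ind A v = 0 := by simp [ind, hvK]
          rw [h1]
          have hvc : v ∈ cut D G := by simp [cut, hv, hvD]
          have h3 := KK_closed H.reg (hrD D) (hdisj D hD) hvc (fun h => hvK ((hAD D hD v hvD).2 h))
          have h4 : nb Δ v A ≤ nb Δ v (fs (oB Δ D) ∪ KK Δ r (cut D G) χ (fs (oB Δ D))) := by
            apply Finset.card_le_card
            intro w hw
            rw [Finset.mem_inter] at hw ⊢
            refine ⟨hw.1, ?_⟩
            rw [Finset.mem_union]
            by_cases hwD : w ∈ D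
            · exact Or.inr ((hAD D hD w hwD).1 hw.2)
            · left
              rw [mem_fs (LO2a.oB_fin H hD)]
              exact ⟨hwD, v, hvD, by simpa using hw.1⟩
          omega
  have hodo := odo_stz hstz
  have hle := odo_le hstz
  set w := odo Δ r G (χ + ind {o'}) 0 with hw
  have key : ∀ v ∈ G, χ v + ind {o'} v + inc Δ v w ≤ r + r * w v := by
    intro v hv
    have := hodo.2 v hv
    rw [hinc0] at this
    simpa using this
  have hnbinc : ∀ (v : V) (X : Finset V), (∀ x ∈ X, w x ≠ 0) → nb Δ v X ≤ inc Δ v w := by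
    intro v X hX
    unfold nb inc
    calc (Δ.neighborFinset v ∩ X).card = ∑ x ∈ Δ.neighborFinset v ∩ X, 1 := by simp
      _ ≤ ∑ x ∈ Δ.neighborFinset v ∩ X, w x := by
          apply Finset.sum_le_sum
          intro x hx
          have := hX x (Finset.mem_inter.1 hx).2
          omega
      _ ≤ ∑ x ∈ Δ.neighborFinset v, w x :=
          Finset.sum_le_sum_of_subset Finset.inter_subset_left
  have hwo' : w o' ≠ 0 := by
    intro h0
    have := key o' (hfbG o' ho'B)
    rw [h0, hB o' ho'B] at this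
    have h2 : ind {o'} o' = 1 := by simp [ind]
    rw [h2] at this
    omega
  have hwfb : ∀ v ∈ fb Δ o R, w v ≠ 0 := by
    intro v hv hv0
    obtain ⟨a, haB, ha0, c, hcB, hc0, hac⟩ :=
      LO2a.crossing (fb_conn H o R) (W := {x | w x = 0}) hv hv0 ho'B hwo'
    have ha0' : w a = 0 := ha0
    have hc0' : w c ≠ 0 := hc0
    have h2 := key a (hfbG a haB)
    have h3 := hnbinc a {c} (by simpa using hc0')
    have h4 : nb Δ a {c} = 1 := by
      unfold nb
      rw [Finset.inter_singleton_of_mem (by simpa using hac)]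
      simp
    rw [ha0', hB a haB] at h2
    omega
  have hwD : ∀ D, Cone Δ o R D → ∀ v ∈ KK Δ r (cut D G) χ (fs (oB Δ D)), w v ≠ 0 := by
    intro D hD v hv
    have hsub := KK_least H.reg (hrD D) (hdisj D hD) (X := (cut D G).filter (fun x => w x ≠ 0))
      (Finset.filter_subset _ _) (by
        intro x hx hx2
        have hx0 : w x = 0 := by
          by_contra h
          exact hx2 (Finset.mem_filter.2 ⟨hx, h⟩)
        have h2 := key x (Finset.mem_filter.1 hx).1
        rw [hx0] at h2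
        have h3 := hnbinc x (fs (oB Δ D) ∪ (cut D G).filter (fun x => w x ≠ 0)) (by
          intro y hy
          rw [Finset.mem_union] at hy
          rcases hy with hy | hy
          · rw [mem_fs (LO2a.oB_fin H hD)] at hy
            exact hwfb y (LO2a.oB_fb H hD hy)
          · exact (Finset.mem_filter.1 hy).2)
        omega)
    exact (Finset.mem_filter.1 (hsub hv)).2
  have hAw : ∀ v, w v ≠ 0 ↔ v ∈ A := by
    intro v
    constructor
    · intro hv
      by_contra hvA
      have h3 : w v ≤ ind A v := hle v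
      have h2 : ind A v = 0 := by simp [ind, hvA]
      rw [h2] at h3
      exact hv (Nat.le_zero.1 h3)
    · intro hv
      rw [hA, Finset.mem_union, Finset.mem_biUnion] at hv
      rcases hv with hv | ⟨D, hD, hv⟩
      · exact hwfb v ((mem_fs (LO2a.fb_finite H o R)).1 hv)
      · exact hwD D ((mem_cns H).1 hD) v hv
  have havs : avs Δ r G χ o' = A := by
    ext v
    rw [avs, Finset.mem_filter]
    unfold avo
    rw [← hw, hAw v]
    exact ⟨fun h => h.2, fun h => ⟨hAG h, h⟩⟩
  rw [havs, hA, Finset.card_union_of_disjoint, Finset.card_biUnion]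
  · intro D hD D' hD' hne
    have hdj := cone_disj H ((mem_cns H).1 hD) ((mem_cns H).1 hD') hne
    show Disjoint _ _
    rw [Finset.disjoint_left]
    intro v hv hv'
    exact Set.disjoint_left.1 hdj (Finset.mem_filter.1 (Finset.mem_filter.1 hv).1).2
      (Finset.mem_filter.1 (Finset.mem_filter.1 hv').1).2
  · rw [Finset.disjoint_left]
    intro v hv hv'
    rw [Finset.mem_biUnion] at hv'
    obtain ⟨D, hD, hv'⟩ := hv'
    rw [mem_fs (LO2a.fb_finite H o R)] at hv
    exact hv D ((mem_cns H).1 hD) (Finset.mem_filter.1 (Finset.mem_filter.1 hv').1).2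

end O

end Pool.Agent.Sand
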