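import Pool.Agent.SandFin.LO1aX
import Pool.Agent.SandFin.LO1b
import Pool.Agent.SandFin.LO1c
import Pool.Agent.SandFin.LO2a

/-! Task LO2b: `p_lower`. -/

set_option autoImplicit false
open scoped Classical
open Filter Topology

namespace Pool.Agent.Sand

variable {V : Type} (Δ : SimpleGraph V) [Δ.LocallyFinite]

namespace LO2b

variable {Δ}

theorem stz_congr {r : ℕ} {S : Finset V} {χ χ' n u : V → ℕ} (h : ∀ v ∈ S, χ v = χ' v) :
    Stz Δ r S χ n u ↔ Stz Δ r S χ' n u := by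
  unfold Stz
  constructor
  · rintro ⟨h1, h2⟩
    exact ⟨h1, fun v hv => by rw [← h v hv]; exact h2 v hv⟩
  · rintro ⟨h1, h2⟩
    exact ⟨h1, fun v hv => by rw [h v hv]; exact h2 v hv⟩

theorem odo_congr {r : ℕ} {S : Finset V} {χ χ' n : V → ℕ} (h : ∀ v ∈ S, χ v = χ' v) :
    odo Δ r S χ n = odo Δ r S χ' n := by
  funext v
  unfold odo
  simp only [stz_congr h]

theorem KK_congr {r : ℕ} {S U : Finset V} {χ χ' : V → ℕ} (h : ∀ v ∈ S, χ v = χ' v) :
    KK Δ r S χ U = KK Δ r S χ' U := by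
  unfold KK
  rw [odo_congr h]

theorem LL_congr {S U : Finset V} {χ χ' : V → ℕ} (h : ∀ v ∈ S, χ v = χ' v) :
    LL Δ S χ U = LL Δ S χ' U := by
  unfold LL
  apply Finset.filter_congr
  intro v _
  constructor
  · rintro ⟨W, hW, hvW, hw⟩
    exact ⟨W, hW, hvW, fun w hw' => by rw [← h w (hW hw')]; exact hw w hw'⟩
  · rintro ⟨W, hW, hvW, hw⟩
    exact ⟨W, hW, hvW, fun w hw' => by rw [h w (hW hw')]; exact hw w hw'⟩

end LO2b

open LO2b

section O
variable {Δ} {r : ℕ} {h : ℝ} {D0 : ℕ} (H : Hyp Δ r h D0)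
include H

theorem LO2b.fb_finite (o : V) (R : ℕ) : (fb Δ o R).Finite := by
  obtain ⟨T, hT⟩ := fb_bounds H
  exact (hT o R).1

theorem LO2b.count {b o : V} {R : ℕ} {G : Finset V} (hG : fs (fb Δ b R) ⊆ G) {E0 E1 : Set V}
    (h0 : E0 ∈ cns Δ b R) (h1 : E1 ∈ cns Δ b R) (ho' : o ∈ oB Δ E0) (kk : Set V → ℕ) (hk0 : kk E0 = 0)
    (hG1 : ∀ v ∈ iB Δ E0, v ∈ G) {n : ℕ} (hn : n = (fs (fb Δ b R)).card + ∑ D ∈ cns Δ b R, kk D) :
    ∏ D ∈ cns Δ b R, ((rcr Δ r (cut D G)).filter fun χ =>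
        (D = E1 → LL Δ (cut D G) χ (fs (oB Δ D)) = ∅) ∧
          (KK Δ r (cut D G) χ (fs (oB Δ D))).card = kk D).card ≤
      ((rcr Δ r G).filter fun χ => (avs Δ r G χ o).card = n).card := by
  rw [← Finset.card_pi]
  set F : (∀ D ∈ cns Δ b R, V → ℕ) → (V → ℕ) := fun f v =>
    if v ∈ fb Δ b R then r else ∑ D ∈ (cns Δ b R).attach, f D.1 D.2 v with hF
  have hmem : ∀ f ∈ (cns Δ b R).pi (fun D => (rcr Δ r (cut D G)).filter fun χ =>
        (D = E1 → LL Δ (cut D G) χ (fs (oB Δ D)) = ∅) ∧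
          (KK Δ r (cut D G) χ (fs (oB Δ D))).card = kk D), ∀ D (hD : D ∈ cns Δ b R),
        f D hD ∈ rcr Δ r (cut D G) ∧ (D = E1 → LL Δ (cut D G) (f D hD) (fs (oB Δ D)) = ∅) ∧
          (KK Δ r (cut D G) (f D hD) (fs (oB Δ D))).card = kk D := by
    intro f hf D hD
    rw [Finset.mem_pi] at hf
    have := hf D hD
    rw [Finset.mem_filter] at this
    exact this
  have hzero : ∀ f ∈ (cns Δ b R).pi (fun D => (rcr Δ r (cut D G)).filter fun χ =>
        (D = E1 → LL Δ (cut D G) χ (fs (oB Δ D)) = ∅) ∧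
          (KK Δ r (cut D G) χ (fs (oB Δ D))).card = kk D), ∀ D (hD : D ∈ cns Δ b R),
        ∀ v, v ∉ cut D G → f D hD v = 0 := by
    intro f hf D hD v hv
    have := (hmem f hf D hD).1
    rw [rcr, rc, Finset.mem_filter, mem_stab] at this
    exact this.1.2 v hv
  have hFD : ∀ f ∈ (cns Δ b R).pi (fun D => (rcr Δ r (cut D G)).filter fun χ =>
        (D = E1 → LL Δ (cut D G) χ (fs (oB Δ D)) = ∅) ∧
          (KK Δ r (cut D G) χ (fs (oB Δ D))).card = kk D), ∀ D (hD : D ∈ cns Δ b R),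
        ∀ v ∈ cut D G, F f v = f D hD v := by
    intro f hf D hD v hv
    have hvD : v ∈ D := (Finset.mem_filter.1 hv).2
    have hvfb : v ∉ fb Δ b R := fun hh => hh D ((mem_cns H).1 hD) hvD
    rw [hF]
    simp only [hvfb, if_false]
    rw [Finset.sum_eq_single (⟨D, hD⟩ : {x // x ∈ cns Δ b R})]
    · intro D' _ hne
      apply hzero f hf
      intro hv'
      have hvD' : v ∈ D'.1 := (Finset.mem_filter.1 hv').2
      have hne' : D'.1 ≠ D := fun hh => hne (Subtype.ext hh)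
      exact Set.disjoint_left.1 (cone_disj H ((mem_cns H).1 D'.2) ((mem_cns H).1 hD) hne') hvD' hvD
    · intro hh
      exact absurd (Finset.mem_attach _ _) hh
  apply Finset.card_le_card_of_injOn F
  · intro f hf
    have hf' := Finset.mem_coe.1 hf
    rw [Finset.mem_coe, Finset.mem_filter]
    have hχ0 : ∀ v, v ∉ G → F f v = 0 := by
      intro v hv
      have hvfb : v ∉ fb Δ b R := fun hh => hv (hG ((mem_fs (LO2b.fb_finite H b R)).2 hh))
      rw [hF]
      simp only [hvfb, if_false]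
      apply Finset.sum_eq_zero
      intro D _
      apply hzero f hf'
      intro hh
      exact hv (Finset.mem_filter.1 hh).1
    have hrs : ∀ D (hD : D ∈ cns Δ b R), rs (cut D G) (F f) = f D hD := by
      intro D hD
      funext v
      unfold rs
      by_cases hv : v ∈ cut D G
      · rw [if_pos hv]
        exact hFD f hf' D hD v hv
      · rw [if_neg hv, hzero f hf' D hD v hv]
    have hKKD : ∀ D (hD : D ∈ cns Δ b R), KK Δ r (cut D G) (F f) (fs (oB Δ D)) =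
        KK Δ r (cut D G) (f D hD) (fs (oB Δ D)) := fun D hD =>
      KK_congr (fun v hv => hFD f hf' D hD v hv)
    have hLLD : ∀ D (hD : D ∈ cns Δ b R), LL Δ (cut D G) (F f) (fs (oB Δ D)) =
        LL Δ (cut D G) (f D hD) (fs (oB Δ D)) := fun D hD =>
      LL_congr (fun v hv => hFD f hf' D hD v hv)
    have hmain := lo_det H hG (χ := F f) hχ0 (fun D hD => by
        rw [hrs D hD]; exact (hmem f hf' D hD).1) (fun v hv => by
        rw [hF]; simp only [hv, if_true]) h0 h1 ho' (by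
        rw [hKKD E0 h0, ← Finset.card_eq_zero, (hmem f hf' E0 h0).2.2, hk0]) (by
        rw [hLLD E1 h1]
        exact (hmem f hf' E1 h1).2.1 rfl) hG1
    refine ⟨hmain.1, ?_⟩
    rw [hmain.2, hn]
    congr 1
    apply Finset.sum_congr rfl
    intro D hD
    rw [hKKD D hD, (hmem f hf' D hD).2.2]
  · intro f hf f' hf' hff
    have hf1 := Finset.mem_coe.1 hf
    have hf2 := Finset.mem_coe.1 hf'
    funext D hD v
    by_cases hv : v ∈ cut D G
    · rw [← hFD f hf1 D hD v hv, ← hFD f' hf2 D hD v hv, hff]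
    · rw [hzero f hf1 D hD v hv, hzero f' hf2 D hD v hv]

theorem LO2b.bound {b o : V} {R : ℕ} {G : Finset V} (hG : fs (fb Δ b R) ⊆ G) {E0 E1 : Set V}
    (h0 : E0 ∈ cns Δ b R) (h1 : E1 ∈ cns Δ b R) (ho' : o ∈ oB Δ E0) (kk : Set V → ℕ) (hk0 : kk E0 = 0)
    (hG1 : ∀ v ∈ iB Δ E0, v ∈ G) {n : ℕ} (hn : n = (fs (fb Δ b R)).card + ∑ D ∈ cns Δ b R, kk D) :
    (∏ D ∈ cns Δ b R, pr Δ r (cut D G) (fun χ =>
        (D = E1 → LL Δ (cut D G) χ (fs (oB Δ D)) = ∅) ∧
          (KK Δ r (cut D G) χ (fs (oB Δ D))).card = kk D)) *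
      ((NNr Δ r (G \ fs (fb Δ b R)) : ℝ) / (NNr Δ r G : ℝ)) ≤
      pr Δ r G (fun χ => (avs Δ r G χ o).card = n) := by
  have hc := LO2b.count H hG h0 h1 ho' kk hk0 hG1 hn
  obtain ⟨hdec, hreg⟩ := top_dec H b R
  have hNN := glue_NN H.reg hdec (S := G) (by rw [hreg]; exact Set.subset_univ _)
  have hpos : (0 : ℝ) < (NNr Δ r G : ℝ) := by exact_mod_cast NN_pos H G
  rw [hNN]
  unfold pr
  rw [← mul_div_assoc]
  apply div_le_div_of_nonneg_right _ hpos.le
  have h3 : (∏ D ∈ cns Δ b R, ((((rcr Δ r (cut D G)).filter fun χ =>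
        (D = E1 → LL Δ (cut D G) χ (fs (oB Δ D)) = ∅) ∧
          (KK Δ r (cut D G) χ (fs (oB Δ D))).card = kk D).card : ℝ) / (NNr Δ r (cut D G) : ℝ))) *
      ((∏ D ∈ cns Δ b R, NNr Δ r (cut D G) : ℕ) : ℝ) =
      ((∏ D ∈ cns Δ b R, ((rcr Δ r (cut D G)).filter fun χ =>
        (D = E1 → LL Δ (cut D G) χ (fs (oB Δ D)) = ∅) ∧
          (KK Δ r (cut D G) χ (fs (oB Δ D))).card = kk D).card : ℕ) : ℝ) := by
    push_cast
    rw [← Finset.prod_mul_distrib]
    apply Finset.prod_congr rfl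
    intro D _
    have hp : (0 : ℝ) < (NNr Δ r (cut D G) : ℝ) := by exact_mod_cast NN_pos H (cut D G)
    field_simp
  have hc' : ((∏ D ∈ cns Δ b R, ((rcr Δ r (cut D G)).filter fun χ =>
        (D = E1 → LL Δ (cut D G) χ (fs (oB Δ D)) = ∅) ∧
          (KK Δ r (cut D G) χ (fs (oB Δ D))).card = kk D).card : ℕ) : ℝ) ≤
      (((rcr Δ r G).filter fun χ => (avs Δ r G χ o).card = n).card : ℝ) := by exact_mod_cast hc
  convert h3.le.trans hc'

theorem p_lower (o : V) : ∃ (c : ℝ) (n₀ : ℕ), 0 < c ∧ ∀ n, n₀ ≤ n → ∀ᶠ G in (atTop : Filter (Finset V)),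
    c * (n : ℝ) ^ (-(3 / 2 : ℝ)) ≤ pr Δ r G (fun χ => (avs Δ r G χ o).card = n) := by
  obtain ⟨R, hR⟩ := many_cones H 4
  have hR' : ∀ o, 4 ≤ (cns Δ o R).card := hR
  obtain ⟨bb, -, -, hbb⟩ := exists_bound H
  -- choose the base point
  obtain ⟨b, E0, h0, ho⟩ : ∃ (b : V) (E0 : Set V), E0 ∈ cns Δ b R ∧ o ∈ oB Δ E0 := by
    have hne : (cns Δ o R).Nonempty := by
      rw [← Finset.card_pos]
      have := hR' o
      omega
    obtain ⟨E, hE⟩ := hne
    have hEc := (mem_cns H).1 hE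
    obtain ⟨o', ho'⟩ := (hbb o R E hEc.comp).2.2.2.2.2.1
    obtain ⟨φ, hφ⟩ := H.trans o' o
    refine ⟨φ o, φ '' E, (mem_cns H).2 (mvf_cone φ hEc), ?_⟩
    rw [mvf_oB, ← hφ]
    exact ⟨o', ho', rfl⟩
  -- three more cones
  obtain ⟨E1, E2, E3, h1, h2, h3, h12, h13, h23⟩ : ∃ E1 E2 E3, E1 ∈ (cns Δ b R).erase E0 ∧
      E2 ∈ (cns Δ b R).erase E0 ∧ E3 ∈ (cns Δ b R).erase E0 ∧ E1 ≠ E2 ∧ E1 ≠ E3 ∧ E2 ≠ E3 := by
    have : 2 < ((cns Δ b R).erase E0).card := by
      rw [Finset.card_erase_of_mem h0]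
      have := hR' b
      omega
    obtain ⟨x, y, z, hx, hy, hz, hxy, hxz, hyz⟩ := Finset.two_lt_card_iff.1 this
    exact ⟨x, y, z, hx, hy, hz, hxy, hxz, hyz⟩
  rw [Finset.mem_erase] at h1 h2 h3
  have hE0 := (mem_cns H).1 h0
  have hE1 := (mem_cns H).1 h1.2
  have hE2 := (mem_cns H).1 h2.2
  have hE3 := (mem_cns H).1 h3.2
  obtain ⟨s1, c1, hc1, ev1⟩ := lo_one H hE1
  obtain ⟨g, ρ, c2, m0, hg, hc2, ev2⟩ := lo_main H hE2
  have h3' : ∀ s : ℕ, ∃ c : ℝ, 0 < c ∧ ∀ᶠ G in (atTop : Filter (Finset V)),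
      c ≤ pr Δ r (cut E3 G) (fun χ => (KK Δ r (cut E3 G) χ (fs (oB Δ E3))).card = s) :=
    fun s => lo_size H hE3 s
  choose c3 hc3 ev3 using h3'
  have h0' : ∀ D : Set V, ∃ c : ℝ, 0 < c ∧ (D ∈ cns Δ b R → ∀ᶠ G in (atTop : Filter (Finset V)),
      c ≤ pr Δ r (cut D G) (fun χ => (KK Δ r (cut D G) χ (fs (oB Δ D))).card = 0)) := by
    intro D
    by_cases hD : D ∈ cns Δ b R
    · obtain ⟨c, hc, ev⟩ := lo_size H ((mem_cns H).1 hD) 0
      exact ⟨c, hc, fun _ => ev⟩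
    · exact ⟨1, one_pos, fun h => absurd h hD⟩
  choose c0 hc0 ev0 using h0'
  have hgne : (Finset.range g).Nonempty := ⟨0, by simp; omega⟩
  set c3m := (Finset.range g).inf' hgne c3 with hc3m
  have hc3mpos : 0 < c3m := by
    rw [hc3m, Finset.lt_inf'_iff]
    exact fun s _ => hc3 s
  have hc3mle : ∀ s < g, c3m ≤ c3 s := fun s hs => Finset.inf'_le _ (by simpa using hs)
  -- the density of the core
  obtain ⟨hdec, hregu⟩ := top_dec H b R
  obtain ⟨hcst, hcstt⟩ := cst_tendsto H (B := fs (fb Δ b R)) (C := Set.univ) (Set.subset_univ _)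
  have hcutu : ∀ G : Finset V, cut Set.univ G = G := by
    intro G
    unfold cut
    simp
  simp only [hcutu] at hcstt
  set κ := cst Δ r (fs (fb Δ b R)) Set.univ with hκ
  have evκ : ∀ᶠ G in (atTop : Filter (Finset V)), κ / 2 ≤
      (NNr Δ r (G \ fs (fb Δ b R)) : ℝ) / (NNr Δ r G : ℝ) := by
    have := hcstt.eventually (lt_mem_nhds (show κ / 2 < κ by linarith))
    exact this.mono fun G hG => hG.le
  set cc : Set V → ℝ := fun D => if D = E1 then c1 else if D = E2 then c2 else if D = E3 then c3m else c0 D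
    with hcc
  have hccpos : ∀ D, 0 < cc D := by
    intro D
    rw [hcc]
    dsimp only
    split_ifs
    · exact hc1
    · exact hc2
    · exact hc3mpos
    · exact hc0 D
  refine ⟨κ / 2 * ∏ D ∈ cns Δ b R, cc D, (fs (fb Δ b R)).card + s1 + g + m0 + 1, ?_, ?_⟩
  · exact mul_pos (by linarith) (Finset.prod_pos fun D _ => hccpos D)
  intro n hn
  -- choose `s` and `m`
  obtain ⟨s, m, hs, hm0, hm1, hmρ, hsum⟩ : ∃ s m : ℕ, s < g ∧ m0 ≤ m ∧ 1 ≤ m ∧ m ≡ ρ [MOD g] ∧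
      (fs (fb Δ b R)).card + s1 + m + s = n := by
    set q := n - (fs (fb Δ b R)).card - s1 with hq
    have hqg : g + m0 + 1 ≤ q := by omega
    refine ⟨(q + (g - ρ % g)) % g, q - (q + (g - ρ % g)) % g, Nat.mod_lt _ (by omega), ?_, ?_, ?_, ?_⟩
    · have := Nat.mod_lt (q + (g - ρ % g)) (show g > 0 by omega)
      omega
    · have := Nat.mod_lt (q + (g - ρ % g)) (show g > 0 by omega)
      omega
    · have hlt := Nat.mod_lt (q + (g - ρ % g)) (show g > 0 by omega)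
      have hρlt := Nat.mod_lt ρ (show g > 0 by omega)
      set s := (q + (g - ρ % g)) % g with hs
      have e1 : s ≡ q + (g - ρ % g) [MOD g] := Nat.mod_modEq _ _
      have e2 : (q - s) + s ≡ ρ + s [MOD g] := by
        have : (q - s) + s = q := by omega
        rw [this]
        calc q ≡ q + g [MOD g] := by simp [Nat.ModEq]
          _ = ρ % g + (q + (g - ρ % g)) := by omega
          _ ≡ ρ + s [MOD g] := Nat.ModEq.add (Nat.mod_modEq _ _) e1.symm
      exact Nat.ModEq.add_right_cancel' _ e2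
    · have := Nat.mod_lt (q + (g - ρ % g)) (show g > 0 by omega)
      omega
  have ev2' := ev2 m hm0 hmρ
  have evall : ∀ᶠ G in (atTop : Filter (Finset V)), ∀ D ∈ cns Δ b R,
      c0 D ≤ pr Δ r (cut D G) (fun χ => (KK Δ r (cut D G) χ (fs (oB Δ D))).card = 0) := by
    rw [Filter.eventually_all_finset]
    exact fun D hD => ev0 D hD
  have hiBfin : (iB Δ E0).Finite := (hbb b R E0 hE0.comp).1
  filter_upwards [ev1, ev2', ev3 s, evall, evκ, Filter.eventually_ge_atTop (fs (fb Δ b R)),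
    Filter.eventually_ge_atTop (fs (iB Δ E0))] with G g1 g2 g3 g4 g5 g6 g7
  set kk : Set V → ℕ := fun D => (if D = E1 then s1 else 0) + (if D = E2 then m else 0) +
    (if D = E3 then s else 0) with hkk
  have hkk0 : kk E0 = 0 := by
    rw [hkk]
    dsimp only
    rw [if_neg h1.1.symm, if_neg h2.1.symm, if_neg h3.1.symm]
  have hkksum : ∑ D ∈ cns Δ b R, kk D = s1 + m + s := by
    rw [hkk]
    dsimp only
    rw [Finset.sum_add_distrib, Finset.sum_add_distrib, Finset.sum_ite_eq', Finset.sum_ite_eq',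
      Finset.sum_ite_eq', if_pos h1.2, if_pos h2.2, if_pos h3.2]
  have hbd := LO2b.bound H (G := G) (b := b) (o := o) (R := R) (n := n) g6 h0 h1.2 ho kk hkk0
    (fun v hv => g7 ((mem_fs hiBfin).2 hv)) (by rw [hkksum]; omega)
  refine le_trans ?_ hbd
  have hmn : (n : ℝ) ^ (-(3 / 2 : ℝ)) ≤ (m : ℝ) ^ (-(3 / 2 : ℝ)) := by
    apply Real.rpow_le_rpow_of_nonpos
    · exact_mod_cast hm1
    · exact_mod_cast (by omega : m ≤ n)
    · norm_num
  have hmpos : (0 : ℝ) ≤ (m : ℝ) ^ (-(3 / 2 : ℝ)) := by positivity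
  have hprod : (∏ D ∈ cns Δ b R, cc D) * (m : ℝ) ^ (-(3 / 2 : ℝ)) ≤
      ∏ D ∈ cns Δ b R, pr Δ r (cut D G) (fun χ =>
        (D = E1 → LL Δ (cut D G) χ (fs (oB Δ D)) = ∅) ∧
          (KK Δ r (cut D G) χ (fs (oB Δ D))).card = kk D) := by
    have e1 : (m : ℝ) ^ (-(3 / 2 : ℝ)) = ∏ D ∈ cns Δ b R, if D = E2 then (m : ℝ) ^ (-(3 / 2 : ℝ)) else 1 := by
      rw [Finset.prod_ite_eq', if_pos h2.2]
    rw [e1, ← Finset.prod_mul_distrib]
    apply Finset.prod_le_prod
    · intro D _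
      apply mul_nonneg (hccpos D).le
      split_ifs
      · exact hmpos
      · exact zero_le_one
    · intro D hD
      by_cases hD1 : D = E1
      · subst hD1
        rw [hcc, hkk]
        dsimp only
        rw [if_pos rfl, if_neg h12, if_pos rfl, if_neg h12, if_neg h13, mul_one, add_zero, add_zero]
        refine g1.trans (pr_mono H _ ?_)
        rintro χ - ⟨a1, a2⟩
        exact ⟨fun _ => a1, a2⟩
      by_cases hD2 : D = E2
      · subst hD2
        rw [hcc, hkk]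
        dsimp only
        rw [if_neg hD1, if_pos rfl, if_pos rfl, if_neg hD1, if_pos rfl, if_neg h23, add_zero, zero_add]
        refine g2.trans (pr_mono H _ ?_)
        rintro χ - a2
        exact ⟨fun hh => absurd hh hD1, a2⟩
      by_cases hD3 : D = E3
      · subst hD3
        rw [hcc, hkk]
        dsimp only
        rw [if_neg hD1, if_neg hD2, if_pos rfl, if_neg hD2, mul_one, if_neg hD1, if_neg hD2, if_pos rfl,
          zero_add, zero_add]
        refine (hc3mle s hs).trans (g3.trans (pr_mono H _ ?_))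
        rintro χ - a2
        exact ⟨fun hh => absurd hh hD1, a2⟩
      · rw [hcc, hkk]
        dsimp only
        rw [if_neg hD1, if_neg hD2, if_neg hD3, if_neg hD2, mul_one, if_neg hD1, if_neg hD2, if_neg hD3]
        refine (g4 D hD).trans (pr_mono H _ ?_)
        rintro χ - a2
        exact ⟨fun hh => absurd hh hD1, a2⟩
  have hprodnn : (0 : ℝ) ≤ (∏ D ∈ cns Δ b R, cc D) := Finset.prod_nonneg fun D _ => (hccpos D).le
  calc κ / 2 * (∏ D ∈ cns Δ b R, cc D) * (n : ℝ) ^ (-(3 / 2 : ℝ))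
      ≤ κ / 2 * (∏ D ∈ cns Δ b R, cc D) * (m : ℝ) ^ (-(3 / 2 : ℝ)) :=
        mul_le_mul_of_nonneg_left hmn (mul_nonneg (by linarith) hprodnn)
    _ = ((∏ D ∈ cns Δ b R, cc D) * (m : ℝ) ^ (-(3 / 2 : ℝ))) * (κ / 2) := by ring
    _ ≤ _ := mul_le_mul hprod g5 (by linarith) (Finset.prod_nonneg fun D _ => pr_nonneg H _ _)

end O

end Pool.Agent.Sand
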