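import Pool.Agent.SandFin.All5
import Pool.Agent.SandFin.UpDefs

/-! p_lim -/

set_option autoImplicit false
open scoped Classical
open Filter Topology

namespace Pool.Agent.Sand

variable {V : Type} (Δ : SimpleGraph V) [Δ.LocallyFinite]

/-! PLACEHOLDER START (avs is that of Up.lean; remove when merging) -/

/-! PLACEHOLDER END -/

section PL
variable {Δ} {r : ℕ} {h : ℝ} {D0 : ℕ}

omit [Δ.LocallyFinite] in
theorem pl_adj (hc : Δ.Connected) {o v w : V} (ha : Δ.Adj v w) : Δ.dist o w ≤ Δ.dist o v + 1 := by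
  have h1 := hc.dist_triangle (u := o) (v := v) (w := w)
  have h2 : Δ.dist v w = 1 := SimpleGraph.dist_eq_one_iff_adj.2 ha
  omega

theorem pl_inc_le {v : V} {u u' : V → ℕ} (hu : ∀ w, u w ≤ u' w) : inc Δ v u ≤ inc Δ v u' :=
  Finset.sum_le_sum fun w _ => hu w

theorem pl_inc_zero (v : V) : inc Δ v 0 = 0 := by simp [inc]

/-- the toppled set is connected through `o` -/
theorem pl_conn (hc : Δ.Connected) {S : Finset V} {χ : V → ℕ} {o : V} (hχ : ∀ v ∈ S, χ v ≤ r)
    (hs : ∃ u, Stz Δ r S (χ + ind {o}) 0 u) {v : V} (hv : avo Δ r S χ o v ≠ 0) :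
    Δ.dist o v < (avs Δ r S χ o).card := by
  obtain ⟨u0, hu0⟩ := hs
  have hst : Stz Δ r S (χ + ind {o}) 0 (avo Δ r S χ o) := odo_stz hu0
  have key : ∀ k ≤ Δ.dist o v, ∃ w ∈ avs Δ r S χ o, Δ.dist o w = k := by
    intro k hk
    by_contra hcon
    push Not at hcon
    have hz : ∀ w, Δ.dist o w = k → avo Δ r S χ o w = 0 := by
      intro w hw
      by_contra h1
      refine hcon w ?_ hw
      refine Finset.mem_filter.2 ⟨?_, h1⟩
      by_contra h2
      exact h1 (hst.1 w h2)
    have h2 : Stz Δ r S (χ + ind {o}) 0 (fun w => if Δ.dist o w < k then avo Δ r S χ o w else 0) := by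
      refine ⟨fun w hw => ?_, fun w hw => ?_⟩
      · show (if Δ.dist o w < k then avo Δ r S χ o w else 0) = 0
        rw [hst.1 w hw]; simp
      · have h3 := hst.2 w hw
        have h4 : inc Δ w (fun w => if Δ.dist o w < k then avo Δ r S χ o w else 0) ≤
            inc Δ w (avo Δ r S χ o) := by
          refine pl_inc_le fun z => ?_
          split_ifs
          · exact le_rfl
          · exact Nat.zero_le _
        show (χ + ind {o}) w + inc Δ w _ + inc Δ w 0 ≤ r + r * (if Δ.dist o w < k then avo Δ r S χ o w else 0)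
        rcases lt_trichotomy (Δ.dist o w) k with h5 | h5 | h5
        · rw [if_pos h5]; omega
        · rw [hz w h5] at h3
          rw [if_neg (by omega)]; omega
        · rw [if_neg (by omega)]
          have h6 : inc Δ w (fun w => if Δ.dist o w < k then avo Δ r S χ o w else 0) = 0 := by
            refine Finset.sum_eq_zero fun z hz' => ?_
            have h7 : Δ.Adj z w := ((Δ.mem_neighborFinset w z).1 hz').symm
            have := pl_adj hc (o := o) h7
            rw [if_neg (by omega)]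
          have h8 : w ≠ o := by
            rintro rfl
            simp at h5
          have h9 : ind {o} w = 0 := by simp [ind, h8]
          rw [h6, pl_inc_zero, Pi.add_apply, h9]
          have := hχ w hw
          omega
    have h3 := odo_le h2 v
    have h4 : (if Δ.dist o v < k then avo Δ r S χ o v else 0) = 0 := if_neg (by omega)
    have h5 : avo Δ r S χ o v ≤ (if Δ.dist o v < k then avo Δ r S χ o v else 0) := h3
    omega
  have h1 : Finset.range (Δ.dist o v + 1) ⊆ (avs Δ r S χ o).image (Δ.dist o) := by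
    intro k hk
    rw [Finset.mem_range] at hk
    obtain ⟨w, hw, hw'⟩ := key k (by omega)
    exact Finset.mem_image.2 ⟨w, hw, hw'⟩
  have h2 := Finset.card_le_card h1
  have h3 := Finset.card_image_le (s := avs Δ r S χ o) (f := Δ.dist o)
  rw [Finset.card_range] at h2
  omega

theorem pl_pr_congr {S : Finset V} {P Q : (V → ℕ) → Prop} (hPQ : ∀ χ ∈ rcr Δ r S, P χ ↔ Q χ) :
    pr Δ r S P = pr Δ r S Q := by
  unfold pr
  rw [Finset.filter_congr hPQ]

variable (H : Hyp Δ r h D0)
include H

theorem p_lim (o : V) (n : ℕ) : ∃ ℓ : ℝ, Tendsto (fun G : Finset V =>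
    pr Δ r G (fun χ => (avs Δ r G χ o).card = n)) atTop (𝓝 ℓ) := by
  obtain ⟨ℓ, hℓ⟩ := lm_cyl H Set.univ (fs (cb Δ o (n + 1))) (Set.subset_univ _)
    (fun ζ => (avs Δ r (fs (cb Δ o (n + 1))) ζ o).card = n)
  refine ⟨ℓ, hℓ.congr' ?_⟩
  filter_upwards [eventually_ge_atTop (fs (cb Δ o (n + 1)))] with G hG
  have hcut : cut Set.univ G = G := by simp [cut]
  rw [hcut]
  have hmem : ∀ v, v ∈ fs (cb Δ o (n + 1)) ↔ Δ.dist o v ≤ n + 1 := fun v => mem_fs (cb_finite H o (n + 1))
  set Λ := fs (cb Δ o (n + 1)) with hΛ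
  have hoΛ : o ∈ Λ := (hmem o).2 (by simp)
  have hoG : o ∈ G := hG hoΛ
  refine pl_pr_congr fun χ hχ => ?_
  have hst := avo_stz H hoG hχ
  have hχr : ∀ v ∈ G, χ v ≤ r := fun v hv =>
    ((mem_stab.1 (Finset.mem_filter.1 hχ).1).1 v hv).2
  have hχr' : ∀ v ∈ Λ, rs Λ χ v ≤ r := fun v hv => by
    simp only [rs, if_pos hv]; exact hχr v (hG hv)
  have h1 : Stz Δ r Λ (rs Λ χ + ind {o}) 0 (rs Λ (avo Δ r G χ o)) := by
    refine ⟨fun v hv => by simp [rs, hv], fun v hv => ?_⟩
    have h2 := hst.2 v (hG hv)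
    have h3 : inc Δ v (rs Λ (avo Δ r G χ o)) ≤ inc Δ v (avo Δ r G χ o) := by
      refine pl_inc_le fun z => ?_
      simp only [rs]
      split_ifs
      · exact le_rfl
      · exact Nat.zero_le _
    have h4 : (rs Λ χ + ind {o}) v = (χ + ind {o}) v := by simp [rs, hv]
    have h5 : rs Λ (avo Δ r G χ o) v = avo Δ r G χ o v := by simp [rs, hv]
    rw [h4, h5]
    omega
  have hle : ∀ v, avo Δ r Λ (rs Λ χ) o v ≤ avo Δ r G χ o v := by
    intro v
    refine (odo_le h1 v).trans ?_
    simp only [rs]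
    split_ifs
    · exact le_rfl
    · exact Nat.zero_le _
  have hst' : Stz Δ r Λ (rs Λ χ + ind {o}) 0 (avo Δ r Λ (rs Λ χ) o) := odo_stz h1
  -- main step
  have main : (∀ v, avo Δ r Λ (rs Λ χ) o v ≠ 0 → Δ.dist o v ≤ n) →
      avs Δ r Λ (rs Λ χ) o = avs Δ r G χ o := by
    intro hd
    have h2 : Stz Δ r G (χ + ind {o}) 0 (avo Δ r Λ (rs Λ χ) o) := by
      refine ⟨fun v hv => hst'.1 v fun hv' => hv (hG hv'), fun v hv => ?_⟩
      by_cases hvΛ : v ∈ Λ
      · have h3 := hst'.2 v hvΛ
        have h4 : (rs Λ χ + ind {o}) v = (χ + ind {o}) v := by simp [rs, hvΛ]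
        rw [h4] at h3
        exact h3
      · have h4 : inc Δ v (avo Δ r Λ (rs Λ χ) o) = 0 := by
          refine Finset.sum_eq_zero fun z hz => ?_
          by_contra h5
          have h6 := hd z h5
          have h7 : Δ.Adj z v := ((Δ.mem_neighborFinset v z).1 hz).symm
          have := pl_adj H.conn (o := o) h7
          exact hvΛ ((hmem v).2 (by omega))
        have h8 : v ≠ o := by
          rintro rfl
          exact hvΛ hoΛ
        have h9 : ind {o} v = 0 := by simp [ind, h8]
        rw [h4, pl_inc_zero, Pi.add_apply, h9]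
        have := hχr v hv
        omega
    have h3 : ∀ v, avo Δ r G χ o v = avo Δ r Λ (rs Λ χ) o v := fun v =>
      le_antisymm (odo_le h2 v) (hle v)
    ext v
    simp only [avs, Finset.mem_filter, h3]
    constructor
    · rintro ⟨h4, h5⟩; exact ⟨hG h4, h5⟩
    · rintro ⟨h4, h5⟩
      refine ⟨?_, h5⟩
      by_contra h6
      exact h5 (hst'.1 v h6)
  constructor
  · intro hn
    rw [← main ?_]
    · exact hn
    · intro v hv
      have := pl_conn H.conn hχr' ⟨_, h1⟩ hv
      rw [hn] at this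
      exact this.le
  · intro hn
    rw [main ?_]
    · exact hn
    · intro v hv
      have h5 : avo Δ r G χ o v ≠ 0 := by
        have := hle v
        omega
      have := pl_conn H.conn hχr ⟨_, hst⟩ h5
      rw [hn] at this
      exact this.le

end PL

end Pool.Agent.Sand
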