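import Pool.Agent.SandFin.All2

/-! RX: relaxation by topplings (abelian property of legal topplings). -/

set_option autoImplicit false
open scoped Classical

namespace Pool.Agent.Sand

variable {V : Type} (Δ : SimpleGraph V) [Δ.LocallyFinite]

/-! ### RX : relaxation by topplings -/

/-- toppling `v` in `G` -/
noncomputable def topple (r : ℕ) (G : Finset V) (v : V) (χ : V → ℕ) : V → ℕ :=
  fun w => if w = v then χ w - r else if w ∈ G ∧ Δ.Adj v w then χ w + 1 else χ w

/-- `l` is a legal sequence of topplings in `G` leading from `χ` to `χ'` -/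
def Leg (r : ℕ) (G : Finset V) : List V → (V → ℕ) → (V → ℕ) → Prop
  | [], χ, χ' => χ' = χ
  | v :: l, χ, χ' => v ∈ G ∧ r < χ v ∧ Leg r G l (topple Δ r G v χ) χ'

/-- relaxing `χ` in `G`: topplings are repeated until all heights are `≤ r` -/
def Relaxes (r : ℕ) (G : Finset V) (χ : V → ℕ) (l : List V) : Prop :=
  ∃ χ', Leg Δ r G l χ χ' ∧ ∀ v ∈ G, χ' v ≤ r

variable {Δ}

/-- adding one toppling at `a` adds one grain to the neighbours of `a` -/
private theorem inc_add_one (v a : V) (u u' : V → ℕ)
    (h : ∀ w, u' w = u w + if w = a then 1 else 0) :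
    inc Δ v u' = inc Δ v u + if Δ.Adj v a then 1 else 0 := by
  unfold inc
  rw [Finset.sum_congr rfl fun w _ => h w, Finset.sum_add_distrib, Finset.sum_ite_eq']
  simp [SimpleGraph.mem_neighborFinset]

private theorem inc_zero' (v : V) : inc Δ v 0 = 0 := by
  unfold inc; simp

private theorem leg_mem {r : ℕ} {G : Finset V} (l : List V) :
    ∀ χ χ' : V → ℕ, Leg Δ r G l χ χ' → ∀ v ∈ l, v ∈ G := by
  induction l with
  | nil => intro χ χ' _ v hv; simp at hv
  | cons a l ih =>
    rintro χ χ' ⟨ha, _, hl⟩ v hv
    rcases List.mem_cons.1 hv with rfl | hv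
    · exact ha
    · exact ih _ _ hl v hv

private theorem leg_count {r : ℕ} {G : Finset V} (l : List V) :
    ∀ χ χ' : V → ℕ, Leg Δ r G l χ χ' →
      ∀ v ∈ G, χ' v + r * l.count v = χ v + inc Δ v (fun w => l.count w) := by
  induction l with
  | nil =>
    intro χ χ' h v _
    have h' : χ' = χ := h
    subst h'
    have : inc Δ v (fun w => ([] : List V).count w) = 0 := by
      unfold inc; simp
    rw [this]
    simp
  | cons a l ih =>
    rintro χ χ' ⟨ha, hra, hl⟩ v hv
    have h1 := ih _ _ hl v hv
    have h2 : inc Δ v (fun w => (a :: l).count w) =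
        inc Δ v (fun w => l.count w) + if Δ.Adj v a then 1 else 0 := by
      apply inc_add_one
      intro w
      rw [List.count_cons]
      by_cases hw : w = a
      · subst hw; simp
      · have : ¬ (a = w) := fun e => hw e.symm
        simp [hw, this]
    rw [h2, List.count_cons]
    unfold topple at h1
    by_cases hva : v = a
    · subst hva
      simp only [if_true, beq_self_eq_true, SimpleGraph.irrefl, if_false] at h1 ⊢
      rw [Nat.mul_add, Nat.mul_one]
      omega
    · have hav : ¬ (a = v) := fun e => hva e.symm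
      have hb : (a == v) = false := by simp [hav]
      rw [hb]
      simp only [hva, if_false, hv, true_and] at h1 ⊢
      by_cases hadj : Δ.Adj v a
      · have hadj' := hadj.symm
        simp only [hadj, hadj', if_true] at h1 ⊢
        simp only [Bool.false_eq_true, if_false, Nat.add_zero]
        omega
      · have hadj' : ¬ Δ.Adj a v := fun e => hadj e.symm
        simp only [hadj, hadj', if_false] at h1 ⊢
        simp only [Bool.false_eq_true, if_false, Nat.add_zero]
        omega

/-- toppling an unstable vertex: a stabilising function topples it and loses one toppling there -/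
private theorem stz_topple {r : ℕ} {G : Finset V} {χ u : V → ℕ} {a : V} (ha : a ∈ G)
    (hra : r < χ a) (hu : Stz Δ r G χ 0 u) :
    1 ≤ u a ∧ Stz Δ r G (topple Δ r G a χ) 0 (fun w => u w - if w = a then 1 else 0) := by
  obtain ⟨hu0, hu1⟩ := hu
  have h1 : 1 ≤ u a := by
    by_contra hc
    have h0 : u a = 0 := by omega
    have := hu1 a ha
    rw [h0] at this
    omega
  refine ⟨h1, fun v hv => ?_, fun v hv => ?_⟩
  · have := hu0 v hv
    simp [this]
  · have h2 : inc Δ v u = inc Δ v (fun w => u w - if w = a then 1 else 0) +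
        if Δ.Adj v a then 1 else 0 := by
      apply inc_add_one
      intro w
      by_cases hw : w = a
      · subst hw; simp; omega
      · simp [hw]
    have h3 := hu1 v hv
    rw [h2] at h3
    unfold topple
    by_cases hva : v = a
    · subst hva
      simp only [if_true, SimpleGraph.irrefl, if_false] at h3 ⊢
      obtain ⟨k, hk⟩ : ∃ k, u v = k + 1 := ⟨u v - 1, by omega⟩
      rw [hk] at h3 ⊢
      rw [Nat.add_sub_cancel]
      rw [Nat.mul_add, Nat.mul_one] at h3
      omega
    · simp only [hva, if_false, hv, true_and, Nat.sub_zero]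
      by_cases hadj : Δ.Adj v a
      · have hadj' := hadj.symm
        simp only [hadj, hadj', if_true] at h3 ⊢
        omega
      · have hadj' : ¬ Δ.Adj a v := fun e => hadj e.symm
        simp only [hadj, hadj', if_false] at h3 ⊢
        omega

private theorem leg_le {r : ℕ} {G : Finset V} (l : List V) :
    ∀ χ χ' u : V → ℕ, Leg Δ r G l χ χ' → Stz Δ r G χ 0 u → ∀ v, l.count v ≤ u v := by
  induction l with
  | nil => intro χ χ' u _ _ v; simp
  | cons a l ih =>
    rintro χ χ' u ⟨ha, hra, hl⟩ hu v
    obtain ⟨h1, h2⟩ := stz_topple ha hra hu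
    have h3 := ih _ _ _ hl h2 v
    rw [List.count_cons]
    by_cases hva : v = a
    · subst hva
      simp only [if_true, beq_self_eq_true] at h3 ⊢
      omega
    · have hav : ¬ (a = v) := fun e => hva e.symm
      have hb : (a == v) = false := by simp [hav]
      rw [hb]
      simp only [hva, if_false, Nat.sub_zero] at h3
      simpa using h3

private theorem exists_relaxes {r : ℕ} {G : Finset V} (n : ℕ) :
    ∀ χ u : V → ℕ, Stz Δ r G χ 0 u → ∑ v ∈ G, u v = n → ∃ l, Relaxes Δ r G χ l := by
  induction n using Nat.strong_induction_on with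
  | _ n ih =>
    intro χ u hu hn
    by_cases hs : ∀ v ∈ G, χ v ≤ r
    · exact ⟨[], χ, rfl, hs⟩
    · push Not at hs
      obtain ⟨a, ha, hra⟩ := hs
      obtain ⟨h1, h2⟩ := stz_topple ha hra hu
      have h3 : ∑ v ∈ G, (u v - if v = a then 1 else 0) < n := by
        rw [← hn]
        apply Finset.sum_lt_sum
        · intro v _; exact Nat.sub_le _ _
        · exact ⟨a, ha, by simp; omega⟩
      obtain ⟨l, χ', hl, hst⟩ := ih _ h3 _ _ h2 rfl
      exact ⟨a :: l, χ', ⟨ha, hra, hl⟩, hst⟩

variable (Δ)

theorem relax {r : ℕ} (hreg : ∀ v, Δ.degree v = r) {G : Finset V} {χ u : V → ℕ} (hχ0 : ∀ v, v ∉ G → χ v = 0)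
    (hu : Stz Δ r G χ 0 u) : (∃ l, Relaxes Δ r G χ l) ∧
      ∀ l, Relaxes Δ r G χ l → ∀ v, l.count v = odo Δ r G χ 0 v := by
  refine ⟨exists_relaxes _ χ u hu rfl, ?_⟩
  rintro l ⟨χ', hl, hst⟩ v
  apply le_antisymm
  · exact leg_le l χ χ' _ hl (odo_stz hu) v
  · have hc : Stz Δ r G χ 0 (fun w => l.count w) := by
      refine ⟨fun w hw => ?_, fun w hw => ?_⟩
      · exact List.count_eq_zero_of_not_mem fun h => hw (leg_mem l χ χ' hl w h)
      · have h1 := leg_count l χ χ' hl w hw
        have h2 := hst w hw
        rw [inc_zero']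
        show χ w + inc Δ w (fun w => l.count w) + 0 ≤ r + r * l.count w
        omega
    exact odo_le hc v

end Pool.Agent.Sand
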