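import Pool.Agent.SandFin.GEOA

set_option autoImplicit false
open scoped Classical

namespace Pool.Agent.Sand

variable {V : Type} (Δ : SimpleGraph V) [Δ.LocallyFinite]

/-- `u` and `v` are in the same branch at `m` -/
def SB {W : Type} (T : SimpleGraph W) (m u v : W) : Prop :=
  ∃ c, T.Adj m c ∧ T.dist u m = T.dist u c + 1 ∧ T.dist v m = T.dist v c + 1

theorem SB_refl {W : Type} {T : SimpleGraph W} (hc : T.Connected) {m u : W} (h : u ≠ m) :
    SB T m u u := by
  obtain ⟨p, hp⟩ := hc.exists_walk_length_eq_dist m u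
  cases p with
  | nil => exact absurd rfl h
  | cons ha q =>
    rename_i c
    have h1 := SimpleGraph.dist_le q
    rw [SimpleGraph.Walk.length_cons] at hp
    have h2 := hc.dist_triangle (u := m) (v := c) (w := u)
    rw [SimpleGraph.dist_eq_one_iff_adj.2 ha] at h2
    have h3 : T.dist u m = T.dist u c + 1 := by
      rw [SimpleGraph.dist_comm (u := u) (v := m), SimpleGraph.dist_comm (u := u) (v := c)]
      omega
    exact ⟨c, ha, h3, h3⟩

theorem SB_trans {W : Type} {T : SimpleGraph W} (hT : T.IsTree) {m u v w : W}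
    (h1 : SB T m u v) (h2 : SB T m v w) : SB T m u w := by
  obtain ⟨c, a, b1, b2⟩ := h1
  obtain ⟨c', a', b1', b2'⟩ := h2
  have : c = c' := parent_unique hT a a' b2 b1'
  subst this
  exact ⟨c, a, b1, b2'⟩

theorem SB_adj {W : Type} {T : SimpleGraph W} (hT : T.IsTree) {m x y : W}
    (h : T.Adj x y) (hx : x ≠ m) (hy : y ≠ m) : SB T m x y := by
  have hc := hT.connected
  have key : ∀ x y, T.Adj x y → x ≠ m → T.dist m y = T.dist m x + 1 → SB T m x y := by
    intro x y h hx hd
    obtain ⟨c, a, b, _⟩ := SB_refl hc hx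
    refine ⟨c, a, b, ?_⟩
    have t1 := hc.dist_triangle (u := y) (v := x) (w := c)
    have t2 := hc.dist_triangle (u := y) (v := c) (w := m)
    rw [SimpleGraph.dist_eq_one_iff_adj.2 h.symm] at t1
    rw [SimpleGraph.dist_eq_one_iff_adj.2 a.symm] at t2
    rw [SimpleGraph.dist_comm (u := m) (v := y), SimpleGraph.dist_comm (u := m) (v := x)] at hd
    omega
  rcases hT.dist_eq_dist_add_one_of_adj m h with hd | hd
  · obtain ⟨c, a, b1, b2⟩ := key y x h.symm hy hd
    exact ⟨c, a, b2, b1⟩
  · exact key x y h hx hd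

theorem SB_of_walk {U W : Type} {T : SimpleGraph W} (hT : T.IsTree) {G : SimpleGraph U}
    (f : U → W) (m : W) (P : U → Prop)
    (hstep : ∀ u v, G.Adj u v → P u → P v → SB T m (f u) (f v)) (hne : ∀ u, P u → f u ≠ m) :
    ∀ {x y : U} (p : G.Walk x y), (∀ z ∈ p.support, P z) → SB T m (f x) (f y) := by
  intro x y p
  induction p with
  | nil =>
    intro hP
    exact SB_refl hT.connected (hne _ (hP _ (by simp)))
  | cons h q ih =>
    intro hP
    apply SB_trans hT (hstep _ _ h (hP _ (by simp)) (hP _ ?_)) (ih ?_)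
    · rw [SimpleGraph.Walk.support_cons]
      exact List.mem_cons_of_mem _ q.start_mem_support
    · intro z hz
      apply hP
      rw [SimpleGraph.Walk.support_cons]
      exact List.mem_cons_of_mem _ hz

theorem dist_of_mem_geodesic {W : Type} {T : SimpleGraph W} (hc : T.Connected) {a b m : W}
    (p : T.Walk a b) (hp : p.length = T.dist a b) (hm : m ∈ p.support) :
    T.dist a m + T.dist m b = T.dist a b := by
  have h1 := SimpleGraph.dist_le (p.takeUntil m hm)
  have h2 := SimpleGraph.dist_le (p.dropUntil m hm)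
  have h3 := hc.dist_triangle (u := a) (v := m) (w := b)
  have h4 : (p.takeUntil m hm).length + (p.dropUntil m hm).length = p.length := by
    rw [← SimpleGraph.Walk.length_append, SimpleGraph.Walk.take_spec]
  omega

theorem between_of_not_SB {W : Type} {T : SimpleGraph W} (hT : T.IsTree) {m a b : W}
    (h : ¬ SB T m a b) : T.dist a m + T.dist m b = T.dist a b := by
  obtain ⟨p, hp⟩ := hT.connected.exists_walk_length_eq_dist a b
  by_cases hm : m ∈ p.support
  · exact dist_of_mem_geodesic hT.connected p hp hm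
  · exfalso
    apply h
    apply SB_of_walk hT (G := T) (fun u => u) m (fun u => u ≠ m) _ (fun u hu => hu) p
    · intro z hz hzm
      exact hm (hzm ▸ hz)
    · intro u v huv hu hv
      exact SB_adj hT huv hu hv

theorem not_SB_of_between {W : Type} {T : SimpleGraph W} (hT : T.IsTree) {m a b : W}
    (h : T.dist a m + T.dist m b = T.dist a b) : ¬ SB T m a b := by
  rintro ⟨c, a1, b1, b2⟩
  have t1 := hT.connected.dist_triangle (u := a) (v := c) (w := b)
  rw [SimpleGraph.dist_comm (u := b) (v := m), SimpleGraph.dist_comm (u := b) (v := c)] at b2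
  omega

theorem exists_median {W : Type} {T : SimpleGraph W} (hT : T.IsTree) (a b c : W) :
    ∃ m, ¬ SB T m a b ∧ ¬ SB T m a c ∧ ¬ SB T m b c := by
  have hc := hT.connected
  have hex : ∃ n, ∃ m, T.dist a m + T.dist m b = T.dist a b ∧ T.dist m c = n :=
    ⟨_, a, by simp, rfl⟩
  obtain ⟨m, hm, hn⟩ := Nat.find_spec hex
  have hmin : ∀ e, T.dist a e + T.dist e b = T.dist a b → T.dist m c ≤ T.dist e c := by
    intro e he
    rw [hn]
    exact Nat.find_min' hex ⟨e, he, rfl⟩
  refine ⟨m, not_SB_of_between hT hm, ?_, ?_⟩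
  · rintro ⟨e, h1, h2, h3⟩
    have t1 := hc.dist_triangle (u := e) (v := m) (w := b)
    have t2 := hc.dist_triangle (u := a) (v := e) (w := b)
    rw [SimpleGraph.dist_eq_one_iff_adj.2 h1.symm] at t1
    have := hmin e (by omega)
    rw [SimpleGraph.dist_comm (u := c) (v := m), SimpleGraph.dist_comm (u := c) (v := e)] at h3
    omega
  · rintro ⟨e, h1, h2, h3⟩
    have t1 := hc.dist_triangle (u := a) (v := m) (w := e)
    have t2 := hc.dist_triangle (u := a) (v := e) (w := b)
    rw [SimpleGraph.dist_eq_one_iff_adj.2 h1] at t1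
    rw [SimpleGraph.dist_comm (u := b) (v := m), SimpleGraph.dist_comm (u := b) (v := e)] at h2
    have := hmin e (by omega)
    rw [SimpleGraph.dist_comm (u := c) (v := m), SimpleGraph.dist_comm (u := c) (v := e)] at h3
    omega

theorem bott_of_qi {W : Type} (T : SimpleGraph W) [T.LocallyFinite]
    (hT : T.IsTree) (hc : Δ.Connected) (hqi : QI Δ T) :
    ∃ D0 : ℕ, ∀ o R C, IsComp Δ (cb Δ o R) C → ∀ x ∈ C, ∀ y ∈ C,
      Δ.dist o x = R + 1 → Δ.dist o y = R + 1 → Δ.dist x y ≤ D0 := by
  obtain ⟨f, L, K, h1, h2, _⟩ := hqi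
  set J : ℕ := L * 1 + K with hJ
  set K' : ℕ := L * (J + J) + K with hK'
  refine ⟨3 * K', ?_⟩
  intro o R C hC x hx y hy hox hoy
  obtain ⟨m, m1, m2, m3⟩ := exists_median hT (f o) (f x) (f y)
  have hstep : ∀ u v, Δ.Adj u v → J < T.dist (f u) m → J < T.dist (f v) m →
      SB T m (f u) (f v) := by
    intro u v huv hu hv
    by_contra hcon
    have e1 := between_of_not_SB hT hcon
    have e2 := h1 u v
    rw [SimpleGraph.dist_eq_one_iff_adj.2 huv] at e2
    omega
  have hne : ∀ u, J < T.dist (f u) m → f u ≠ m := by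
    intro u hu he
    rw [he, SimpleGraph.dist_self] at hu
    omega
  -- a point of `C` with image near `m`
  obtain ⟨z, hz, hzm⟩ : ∃ z ∈ C, T.dist (f z) m ≤ J := by
    by_contra hcon
    push Not at hcon
    apply m3
    obtain ⟨p⟩ := hC.conn.preconnected ⟨x, hx⟩ ⟨y, hy⟩
    exact SB_of_walk hT (G := Δ.induce C) (fun u => f u.1) m (fun _ => True)
      (fun u v huv _ _ => hstep u.1 v.1 huv (hcon _ u.2) (hcon _ v.2))
      (fun u _ => hne u.1 (hcon _ u.2)) p (fun _ _ => trivial)
  have hgeo : ∀ x', ¬ SB T m (f o) (f x') → ∃ w, T.dist (f w) m ≤ J ∧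
      Δ.dist o w + Δ.dist w x' = Δ.dist o x' := by
    intro x' hx'
    obtain ⟨p, hp⟩ := hc.exists_walk_length_eq_dist o x'
    by_contra hcon
    push Not at hcon
    apply hx'
    apply SB_of_walk hT (G := Δ) f m (fun u => J < T.dist (f u) m) hstep hne p
    intro w hw
    by_contra hcon'
    exact hcon w (by omega) (dist_of_mem_geodesic hc p hp hw)
  obtain ⟨w, hw1, hw2⟩ := hgeo x m1
  obtain ⟨w', hw1', hw2'⟩ := hgeo y m2
  have near : ∀ u v, T.dist (f u) m ≤ J → T.dist (f v) m ≤ J → Δ.dist u v ≤ K' := by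
    intro u v hu hv
    refine (h2 u v).trans ?_
    rw [hK']
    have t := hT.connected.dist_triangle (u := f u) (v := m) (w := f v)
    rw [SimpleGraph.dist_comm (u := m) (v := f v)] at t
    exact Nat.add_le_add_right (Nat.mul_le_mul_left _ (by omega)) _
  have hoz : R + 1 ≤ Δ.dist o z := by
    have : z ∉ cb Δ o R := fun h => Set.disjoint_left.1 hC.disj hz h
    unfold cb at this
    rw [Set.mem_setOf_eq] at this
    omega
  have a1 := near w z hw1 hzm
  have a2 := near w' z hw1' hzm
  have a3 := near w w' hw1 hw1'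
  have b1 := hc.dist_triangle (u := o) (v := w) (w := z)
  have b2 := hc.dist_triangle (u := o) (v := w') (w := z)
  have b3 := hc.dist_triangle (u := x) (v := w) (w := y)
  have b4 := hc.dist_triangle (u := w) (v := w') (w := y)
  rw [SimpleGraph.dist_comm (u := x) (v := w)] at b3
  omega

end Pool.Agent.Sand
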