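import Pool.Agent.SandFin.Basic

/-! MP_4555f0_mp, GEO-C1: components of complements of finite sets. -/

set_option autoImplicit false
open scoped Classical

namespace Pool.Agent.Sand

variable {V : Type} (Δ : SimpleGraph V) [Δ.LocallyFinite]

section C
variable {Δ} {r : ℕ} {h : ℝ} {D0 : ℕ}

/-- a set containing one point of a connected set and closed under steps inside contains it -/
theorem c1_conn_subset {C P : Set V} (hc : (Δ.induce C).Connected) {z : V} (hz : z ∈ C)
    (hzP : z ∈ P) (hs : ∀ x ∈ C, x ∈ P → ∀ y ∈ C, Δ.Adj x y → y ∈ P) : C ⊆ P := by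
  intro x hx
  obtain ⟨p⟩ := hc.preconnected ⟨z, hz⟩ ⟨x, hx⟩
  have key : ∀ (a b : C) (p : (Δ.induce C).Walk a b), (a : V) ∈ P → (b : V) ∈ P := by
    intro a b p
    induction p with
    | nil => exact fun h => h
    | cons hadj q ih =>
      intro ha
      exact ih (hs _ (Subtype.coe_prop _) ha _ (Subtype.coe_prop _) hadj)
  exact key _ _ p hzP

/-- boundary edge of a nonempty set which is not everything -/
theorem c1_exists_edge (hc : Δ.Connected) {C : Set V} {z o : V} (hz : z ∈ C) (ho : o ∉ C) :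
    ∃ v ∈ C, ∃ w, w ∉ C ∧ Δ.Adj v w := by
  by_contra hcon
  push Not at hcon
  obtain ⟨p⟩ := hc.preconnected z o
  have key : ∀ (a b : V) (p : Δ.Walk a b), a ∈ C → b ∈ C := by
    intro a b p
    induction p with
    | nil => exact fun h => h
    | cons hadj q ih =>
      intro ha
      refine ih ?_
      by_contra hb
      exact hcon _ ha _ hb hadj
  exact ho (key _ _ p hz)

theorem c1_conn_of_closed {C : Set V} {z : V} (hz : z ∈ C)
    (hw : ∀ w ∈ C, ∃ p : Δ.Walk z w, ∀ u ∈ p.support, u ∈ C) : (Δ.induce C).Connected := by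
  apply Δ.induce_connected_of_patches z hz
  intro v hv
  obtain ⟨p, hp⟩ := hw v hv
  refine ⟨{u | u ∈ p.support}, fun u hu => hp u hu, p.start_mem_support, p.end_mem_support, ?_⟩
  exact p.connected_induce_support.preconnected _ _

variable (H : Hyp Δ r h D0)
include H

theorem c1_pred {o v : V} {n : ℕ} (hv : Δ.dist o v = n + 1) : ∃ w, Δ.Adj v w ∧ Δ.dist o w = n := by
  obtain ⟨p, hp⟩ := H.conn.exists_walk_length_eq_dist v o
  rw [SimpleGraph.dist_comm, hv] at hp
  cases p with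
  | nil => simp at hp
  | @cons _ w _ hadj q =>
    have hq : q.length = n := by simpa using hp
    refine ⟨w, hadj, ?_⟩
    have h1 : Δ.dist o w ≤ n := by
      have := Δ.dist_le q
      rw [SimpleGraph.dist_comm]; omega
    have h2 : Δ.dist o v ≤ Δ.dist o w + Δ.dist w v := H.conn.dist_triangle
    have h3 : Δ.dist w v = 1 := SimpleGraph.dist_eq_one_iff_adj.mpr hadj.symm
    omega

theorem c1_cb (o : V) (R : ℕ) : (cb Δ o R).Finite ∧ (fs (cb Δ o R)).card ≤ (r + 1) ^ R := by
  induction R with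
  | zero =>
    have h1 : cb Δ o 0 = {o} := by
      ext v
      simp only [cb, Set.mem_ofPred_eq, Nat.le_zero, Set.mem_singleton_iff]
      rw [H.conn.dist_eq_zero_iff]
      exact eq_comm
    have hf : (cb Δ o 0).Finite := by rw [h1]; exact Set.finite_singleton o
    refine ⟨hf, ?_⟩
    have h2 : fs (cb Δ o 0) = {o} := by
      ext v
      rw [mem_fs hf, h1]
      simp
    rw [h2]; simp
  | succ R ih =>
    obtain ⟨h1, h2⟩ := ih
    have h3 : cb Δ o (R + 1) ⊆ ↑((fs (cb Δ o R)).biUnion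
        (fun w => insert w (Δ.neighborFinset w))) := by
      intro v hv
      simp only [Finset.coe_biUnion, Set.mem_iUnion, Finset.mem_coe, mem_fs h1]
      by_cases hR : Δ.dist o v ≤ R
      · exact ⟨v, hR, by simp⟩
      · have hv' : Δ.dist o v ≤ R + 1 := hv
        obtain ⟨w, hw1, hw2⟩ := c1_pred H (o := o) (v := v) (n := R) (by omega)
        refine ⟨w, hw2.le, ?_⟩
        simp only [Finset.mem_insert, SimpleGraph.mem_neighborFinset]
        exact Or.inr hw1.symm
    have hf : (cb Δ o (R + 1)).Finite := (Finset.finite_toSet _).subset h3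
    refine ⟨hf, ?_⟩
    have h4 : fs (cb Δ o (R + 1)) ⊆ (fs (cb Δ o R)).biUnion
        (fun w => insert w (Δ.neighborFinset w)) := by
      intro v hv
      exact h3 ((mem_fs hf).mp hv)
    calc (fs (cb Δ o (R + 1))).card ≤ ((fs (cb Δ o R)).biUnion
          (fun w => insert w (Δ.neighborFinset w))).card := Finset.card_le_card h4
      _ ≤ ∑ w ∈ fs (cb Δ o R), (insert w (Δ.neighborFinset w)).card := Finset.card_biUnion_le
      _ ≤ ∑ w ∈ fs (cb Δ o R), (r + 1) := by
          refine Finset.sum_le_sum (fun w _ => ?_)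
          have := H.reg w
          rw [SimpleGraph.degree] at this
          exact (Finset.card_insert_le _ _).trans (by omega)
      _ = (fs (cb Δ o R)).card * (r + 1) := by simp
      _ ≤ (r + 1) ^ R * (r + 1) := Nat.mul_le_mul_right _ h2
      _ = (r + 1) ^ (R + 1) := by ring

theorem cb_finite (o : V) (R : ℕ) : (cb Δ o R).Finite := (c1_cb H o R).1

/-- every vertex outside `K` lies in a component of the complement of `K` -/
theorem exists_comp {K : Set V} {v : V} (hv : v ∉ K) : ∃ C, IsComp Δ K C ∧ v ∈ C := by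
  have hmem : v ∈ {w | ∃ p : Δ.Walk v w, ∀ u ∈ p.support, u ∉ K} :=
    ⟨SimpleGraph.Walk.nil, by simpa using hv⟩
  refine ⟨{w | ∃ p : Δ.Walk v w, ∀ u ∈ p.support, u ∉ K}, ⟨?_, ?_, ?_⟩, hmem⟩
  · rw [Set.disjoint_left]
    rintro w ⟨p, hp⟩
    exact hp w p.end_mem_support
  · rintro x ⟨p, hp⟩ y hxy hy
    by_contra hyK
    refine hy ⟨p.concat hxy, ?_⟩
    intro u hu
    rw [SimpleGraph.Walk.support_concat] at hu
    simp only [List.concat_eq_append, List.mem_append, List.mem_singleton] at hu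
    rcases hu with hu | rfl
    · exact hp u hu
    · exact hyK
  · apply c1_conn_of_closed hmem
    rintro w ⟨p, hp⟩
    refine ⟨p, fun u hu => ⟨p.takeUntil u hu, fun z hz => hp z ?_⟩⟩
    exact p.support_takeUntil_subset hu hz

theorem comp_eq_or_disj {K C C' : Set V} (h1 : IsComp Δ K C) (h2 : IsComp Δ K C') :
    C = C' ∨ Disjoint C C' := by
  by_cases hd : Disjoint C C'
  · exact Or.inr hd
  left
  rw [Set.not_disjoint_iff] at hd
  obtain ⟨z, hz1, hz2⟩ := hd
  have key : ∀ (A B : Set V), IsComp Δ K A → IsComp Δ K B → z ∈ A → z ∈ B → A ⊆ B := by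
    intro A B hA hB hzA hzB
    refine c1_conn_subset hA.conn hzA hzB (fun x _ hxB y hyA hxy => ?_)
    by_contra hy
    exact (Set.disjoint_left.mp hA.disj) hyA (hB.closed x hxB y hxy hy)
  exact Set.Subset.antisymm (key _ _ h1 h2 hz1 hz2) (key _ _ h2 h1 hz2 hz1)

/-- components of complements of finite sets: finitely many, the finite ones are small -/
theorem comp_finite_number {K : Set V} (hK : K.Finite) : {C | IsComp Δ K C}.Finite := by
  have hinf := H.inf
  obtain ⟨o⟩ : Nonempty V := inferInstance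
  let g : V → Set V := fun v =>
    if hh : ∃ C, IsComp Δ K C ∧ v ∈ C then Classical.choose hh else ∅
  have hg : ∀ C v, IsComp Δ K C → v ∈ C → g v = C := by
    intro C v hC hv
    have hh : ∃ C, IsComp Δ K C ∧ v ∈ C := ⟨C, hC, hv⟩
    have h1 := Classical.choose_spec hh
    have h2 : g v = Classical.choose hh := dif_pos hh
    rw [h2]
    rcases comp_eq_or_disj H h1.1 hC with h3 | h3
    · exact h3
    · exact absurd hv (Set.disjoint_left.mp h3 h1.2)
  have hfin : (g '' (↑((fs K).biUnion (fun k => Δ.neighborFinset k)) ∪ {o})).Finite :=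
    ((Finset.finite_toSet _).union (Set.finite_singleton o)).image g
  refine hfin.subset ?_
  intro C hC
  have hC' : IsComp Δ K C := hC
  obtain ⟨⟨z, hz⟩⟩ := hC'.conn.nonempty
  by_cases ho : o ∈ C
  · exact ⟨o, Or.inr rfl, hg C o hC' ho⟩
  · obtain ⟨v, hv, w, hw, hvw⟩ := c1_exists_edge H.conn hz ho
    refine ⟨v, Or.inl ?_, hg C v hC' hv⟩
    simp only [Finset.coe_biUnion, Set.mem_iUnion, Finset.mem_coe, mem_fs hK]
    refine ⟨w, hC'.closed v hv w hvw hw, ?_⟩
    simpa using hvw.symm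

theorem comp_small {K C : Set V} (hK : K.Finite) (hC : IsComp Δ K C) (hf : C.Finite) :
    h * ((fs C).card : ℝ) ≤ r * ((fs K).card : ℝ) := by
  refine (H.iso (fs C)).trans ?_
  have h1 : bdE Δ (fs C) ≤ r * (fs K).card := by
    unfold bdE
    calc ∑ v ∈ fs C, (Δ.neighborFinset v \ fs C).card
        ≤ ∑ v ∈ fs C, ((fs K).bipartiteAbove Δ.Adj v).card := by
          refine Finset.sum_le_sum (fun v hv => Finset.card_le_card ?_)
          intro w hw
          simp only [Finset.mem_sdiff, SimpleGraph.mem_neighborFinset, mem_fs hf] at hw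
          simp only [Finset.mem_bipartiteAbove, mem_fs hK]
          exact ⟨hC.closed v ((mem_fs hf).mp hv) w hw.1 hw.2, hw.1⟩
      _ = ∑ k ∈ fs K, ((fs C).bipartiteBelow Δ.Adj k).card :=
          Finset.sum_card_bipartiteAbove_eq_sum_card_bipartiteBelow _
      _ ≤ ∑ k ∈ fs K, r := by
          refine Finset.sum_le_sum (fun k _ => ?_)
          rw [← H.reg k, SimpleGraph.degree]
          refine Finset.card_le_card ?_
          intro w hw
          simp only [Finset.mem_bipartiteBelow] at hw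
          simpa using hw.2.symm
      _ = r * (fs K).card := by simp [mul_comm]
  exact_mod_cast h1

theorem iB_sub {o : V} {R : ℕ} {C : Set V} (hC : IsComp Δ (cb Δ o R) C) :
    iB Δ C = {v | v ∈ C ∧ Δ.dist o v = R + 1} := by
  have hout : ∀ v ∈ C, R < Δ.dist o v := by
    intro v hv
    by_contra hcon
    exact Set.disjoint_left.mp hC.disj hv (show Δ.dist o v ≤ R by omega)
  ext v
  constructor
  · rintro ⟨hv, w, hw, hvw⟩
    refine ⟨hv, ?_⟩
    have h1 : Δ.dist o w ≤ R := hC.closed v hv w hvw hw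
    have h2 : Δ.dist o v ≤ Δ.dist o w + Δ.dist w v := H.conn.dist_triangle
    have h3 : Δ.dist w v = 1 := SimpleGraph.dist_eq_one_iff_adj.mpr hvw.symm
    have := hout v hv
    omega
  · rintro ⟨hv, hd⟩
    obtain ⟨w, hw1, hw2⟩ := c1_pred H hd
    refine ⟨hv, w, ?_, hw1⟩
    intro hw
    have := hout w hw
    omega

theorem oB_sub {o : V} {R : ℕ} {C : Set V} (hC : IsComp Δ (cb Δ o R) C) :
    oB Δ C ⊆ sph Δ o R := by
  rintro w ⟨hw, v, hv, hvw⟩
  have h1 : Δ.dist o w ≤ R := hC.closed v hv w hvw hw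
  have h2 : Δ.dist o v ≤ Δ.dist o w + Δ.dist w v := H.conn.dist_triangle
  have h3 : Δ.dist w v = 1 := SimpleGraph.dist_eq_one_iff_adj.mpr hvw.symm
  have h4 : R < Δ.dist o v := by
    by_contra hcon
    exact Set.disjoint_left.mp hC.disj hv (show Δ.dist o v ≤ R by omega)
  show Δ.dist o w = R
  omega

/-- uniform bound for boundaries and for finite components -/
theorem exists_bound : ∃ b : ℕ, 1 ≤ b ∧ r ≤ b ∧ ∀ o R C, IsComp Δ (cb Δ o R) C →
    (iB Δ C).Finite ∧ (oB Δ C).Finite ∧ (fs (iB Δ C)).card ≤ b ∧ (fs (oB Δ C)).card ≤ b ∧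
    (iB Δ C).Nonempty ∧ (oB Δ C).Nonempty ∧ (C.Finite → (fs C).card ≤ b) := by
  refine ⟨(r + 1) ^ D0 + (r + 1) ^ D0 * r + ⌈(r * (((r + 1) ^ D0 * r : ℕ) : ℝ)) / h⌉₊ + r + 1,
    by omega, by omega, ?_⟩
  intro o R C hC
  obtain ⟨⟨z, hz⟩⟩ := hC.conn.nonempty
  have ho : o ∉ C := by
    intro ho
    exact Set.disjoint_left.mp hC.disj ho (show Δ.dist o o ≤ R by simp)
  obtain ⟨v, hv, w, hw, hvw⟩ := c1_exists_edge H.conn hz ho
  have hvi : v ∈ iB Δ C := ⟨hv, w, hw, hvw⟩
  have hwo : w ∈ oB Δ C := ⟨hw, v, hv, hvw⟩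
  have hsub : iB Δ C ⊆ cb Δ v D0 := by
    intro x hx
    have h1 := (iB_sub H hC) ▸ hx
    have h2 := (iB_sub H hC) ▸ hvi
    exact H.bott o R C hC v h2.1 x h1.1 h2.2 h1.2
  have hiF : (iB Δ C).Finite := (cb_finite H v D0).subset hsub
  have hiC : (fs (iB Δ C)).card ≤ (r + 1) ^ D0 := by
    refine le_trans (Finset.card_le_card ?_) (c1_cb H v D0).2
    intro x hx
    exact (mem_fs (cb_finite H v D0)).mpr (hsub ((mem_fs hiF).mp hx))
  have hosub : oB Δ C ⊆ ↑((fs (iB Δ C)).biUnion (fun k => Δ.neighborFinset k)) := by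
    rintro y ⟨hy, x, hx, hxy⟩
    simp only [Finset.coe_biUnion, Set.mem_iUnion, Finset.mem_coe, mem_fs hiF]
    exact ⟨x, ⟨hx, y, hy, hxy⟩, by simpa using hxy⟩
  have hoF : (oB Δ C).Finite := (Finset.finite_toSet _).subset hosub
  have hoC : (fs (oB Δ C)).card ≤ (r + 1) ^ D0 * r := by
    calc (fs (oB Δ C)).card ≤ ((fs (iB Δ C)).biUnion (fun k => Δ.neighborFinset k)).card :=
          Finset.card_le_card (fun y hy => hosub ((mem_fs hoF).mp hy))
      _ ≤ ∑ k ∈ fs (iB Δ C), (Δ.neighborFinset k).card := Finset.card_biUnion_le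
      _ = ∑ k ∈ fs (iB Δ C), r := Finset.sum_congr rfl (fun k _ => H.reg k)
      _ = (fs (iB Δ C)).card * r := by simp
      _ ≤ (r + 1) ^ D0 * r := Nat.mul_le_mul_right _ hiC
  refine ⟨hiF, hoF, by omega, by omega, ⟨v, hvi⟩, ⟨w, hwo⟩, ?_⟩
  intro hf
  have hcomp : IsComp Δ (oB Δ C) C := by
    refine ⟨?_, fun x hx y hxy hy => ⟨hy, x, hx, hxy⟩, hC.conn⟩
    rw [Set.disjoint_left]
    intro x hx hx'
    exact hx'.1 hx
  have h1 := comp_small H hoF hcomp hf
  have h2 : ((fs C).card : ℝ) ≤ (r * (((r + 1) ^ D0 * r : ℕ) : ℝ)) / h := by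
    rw [le_div_iff₀ H.hpos, mul_comm]
    refine h1.trans ?_
    have : ((fs (oB Δ C)).card : ℝ) ≤ (((r + 1) ^ D0 * r : ℕ) : ℝ) := by exact_mod_cast hoC
    exact mul_le_mul_of_nonneg_left this (by positivity)
  have h3 : ((fs C).card : ℝ) ≤ (⌈(r * (((r + 1) ^ D0 * r : ℕ) : ℝ)) / h⌉₊ : ℝ) :=
    h2.trans (Nat.le_ceil _)
  have h4 : (fs C).card ≤ ⌈(r * (((r + 1) ^ D0 * r : ℕ) : ℝ)) / h⌉₊ := by exact_mod_cast h3
  omega

end C

end Pool.Agent.Sand
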