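import Pool.Agent.SandFin.GEOC1

/-! GEO-C2: cones and filled balls (helper52). -/

set_option autoImplicit false
set_option linter.unusedSectionVars false
open scoped Classical

namespace Pool.Agent.Sand

variable {V : Type} (Δ : SimpleGraph V) [Δ.LocallyFinite]

section C
variable {Δ} {r : ℕ} {h : ℝ} {D0 : ℕ}

/-- induction along a connected set -/
theorem c2_ind {C : Set V} (hC : (Δ.induce C).Connected) (P : V → Prop) {x : V} (hx : x ∈ C)
    (h0 : P x) (hs : ∀ u ∈ C, ∀ w ∈ C, Δ.Adj u w → P u → P w) : ∀ y ∈ C, P y := by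
  intro y hy
  obtain ⟨p⟩ := hC.preconnected ⟨x, hx⟩ ⟨y, hy⟩
  suffices h : ∀ (a b : C) (p : (Δ.induce C).Walk a b), P a.1 → P b.1 from
    h ⟨x, hx⟩ ⟨y, hy⟩ p h0
  intro a b p
  induction p with
  | nil => exact id
  | cons hadj _ ih => intro ha; exact ih (hs _ (Subtype.prop _) _ (Subtype.prop _) hadj ha)

/-- a connected set which avoids `K` and meets a component is contained in it -/
theorem c2_sub {K C D : Set V} (hC : IsComp Δ K C) (hD : (Δ.induce D).Connected)
    (hdisj : Disjoint D K) {v : V} (hv : v ∈ D) (hvC : v ∈ C) : D ⊆ C := by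
  intro y hy
  refine c2_ind hD (· ∈ C) hv hvC ?_ y hy
  intro u _ w hw hadj huC
  by_contra hwC
  exact Set.disjoint_left.mp hdisj hw (hC.closed u huC w hadj hwC)

theorem c2_cb_mono (o : V) {R R' : ℕ} (hR : R ≤ R') : cb Δ o R ⊆ cb Δ o R' :=
  fun _ hv => le_trans hv hR

/-- `v` in a connected finite set `C` is at distance less than `|C|` from `x` in `C`. -/
theorem c2_dist_lt {C : Set V} (hC : (Δ.induce C).Connected) (hf : C.Finite) {x v : V}
    (hx : x ∈ C) (hv : v ∈ C) : Δ.dist x v < (fs C).card := by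
  have := hf.fintype
  obtain ⟨p⟩ := hC.preconnected ⟨x, hx⟩ ⟨v, hv⟩
  have h1 : p.bypass.length < Fintype.card C := (p.bypass_isPath).length_lt
  have h2 : Δ.dist x v ≤ (p.bypass.map (SimpleGraph.Embedding.induce C).toHom).length :=
    SimpleGraph.dist_le _
  rw [SimpleGraph.Walk.length_map] at h2
  have h3 : (fs C).card = Fintype.card C := by
    rw [fs, dif_pos hf, Set.Finite.card_toFinset]
  omega

include Δ in
theorem c2_exists_dist (hc : Δ.Connected) (o v : V) (k : ℕ) (hk : k ≤ Δ.dist o v) :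
    ∃ w, Δ.dist o w = k := by
  obtain ⟨p, hp⟩ := hc.exists_walk_length_eq_dist o v
  refine ⟨p.getVert k, ?_⟩
  have h1 : Δ.dist o (p.getVert k) ≤ k := by
    have := SimpleGraph.dist_le (p.take k)
    refine this.trans ?_
    rw [SimpleGraph.Walk.take_length]
    exact min_le_left _ _
  have h2 : Δ.dist (p.getVert k) v ≤ Δ.dist o v - k := by
    have := SimpleGraph.dist_le (p.drop k)
    rw [SimpleGraph.Walk.drop_length] at this
    omega
  have h3 := hc.dist_triangle (u := o) (v := p.getVert k) (w := v)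
  omega

/-- balls are connected -/
theorem c2_cb_conn (hc : Δ.Connected) (o : V) (R : ℕ) : (Δ.induce (cb Δ o R)).Connected := by
  have ho : o ∈ cb Δ o R := by simp [cb]
  apply Δ.induce_connected_of_patches o ho
  intro v hv
  obtain ⟨p, hp⟩ := hc.exists_walk_length_eq_dist o v
  refine ⟨{w | w ∈ p.support}, ?_, p.start_mem_support, p.end_mem_support, ?_⟩
  · intro w hw
    have h1 := SimpleGraph.dist_le (p.takeUntil w hw)
    have h2 := p.length_takeUntil_le_length hw
    have h3 : Δ.dist o v ≤ R := hv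
    show Δ.dist o w ≤ R
    omega
  · exact (p.connected_induce_support).preconnected _ _

variable (H : Hyp Δ r h D0)
include H

theorem cone_disj {o : V} {R : ℕ} {C C' : Set V} (h1 : Cone Δ o R C) (h2 : Cone Δ o R C')
    (hne : C ≠ C') : Disjoint C C' :=
  (comp_eq_or_disj H h1.comp h2.comp).resolve_left hne

theorem cones_finite (o : V) (R : ℕ) : {C | Cone Δ o R C}.Finite :=
  (comp_finite_number H (cb_finite H o R)).subset fun _ hC => hC.comp

theorem c2_cb_sub_fb (o : V) (R : ℕ) : cb Δ o R ⊆ fb Δ o R :=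
  fun _ hv _ hC hvC => Set.disjoint_left.mp hC.comp.disj hvC hv

/-- a vertex of the filled ball is in the ball or in a finite component -/
theorem c2_fb_cases {o : V} {R : ℕ} {v : V} (hv : v ∈ fb Δ o R) (hv' : v ∉ cb Δ o R) :
    ∃ C, IsComp Δ (cb Δ o R) C ∧ C.Finite ∧ v ∈ C := by
  obtain ⟨C, hC, hvC⟩ := exists_comp H hv'
  refine ⟨C, hC, ?_, hvC⟩
  by_contra hinf
  exact hv C ⟨hC, hinf⟩ hvC

/-- the filled ball is finite, contains the ball, is contained in a slightly larger ball -/
theorem fb_bounds : ∃ T : ℕ, ∀ o R, (fb Δ o R).Finite ∧ cb Δ o R ⊆ fb Δ o R ∧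
    fb Δ o R ⊆ cb Δ o (R + T) := by
  obtain ⟨b, hb1, _, hb⟩ := exists_bound H
  refine ⟨1 + b, ?_⟩
  intro o R
  have hsub : fb Δ o R ⊆ cb Δ o (R + (1 + b)) := by
    intro v hv
    by_cases hv' : v ∈ cb Δ o R
    · exact c2_cb_mono o (by omega) hv'
    · obtain ⟨C, hC, hf, hvC⟩ := c2_fb_cases H hv hv'
      obtain ⟨_, _, _, _, ⟨x, hx⟩, _, hcard⟩ := hb o R C hC
      rw [iB_sub H hC] at hx
      obtain ⟨hxC, hxd⟩ := hx
      have h1 := c2_dist_lt hC.conn hf hxC hvC
      have h2 := hcard hf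
      have h3 := H.conn.dist_triangle (u := o) (v := x) (w := v)
      show Δ.dist o v ≤ R + (1 + b)
      omega
  exact ⟨(cb_finite H o _).subset hsub, c2_cb_sub_fb H o R, hsub⟩

/-- a finite component of the complement of the ball is in the filled ball -/
theorem c2_comp_sub_fb {o : V} {R : ℕ} {C : Set V} (hC : IsComp Δ (cb Δ o R) C) (hf : C.Finite) :
    C ⊆ fb Δ o R := by
  intro v hv C' hC' hvC'
  rcases comp_eq_or_disj H hC hC'.comp with h1 | h1
  · exact hC'.inf (h1 ▸ hf)
  · exact Set.disjoint_left.mp h1 hv hvC'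

theorem fb_conn (o : V) (R : ℕ) : (Δ.induce (fb Δ o R)).Connected := by
  have ho : o ∈ cb Δ o R := by simp [cb]
  apply Δ.induce_connected_of_patches o (c2_cb_sub_fb H o R ho)
  intro v hv
  by_cases hv' : v ∈ cb Δ o R
  · exact ⟨cb Δ o R, c2_cb_sub_fb H o R, ho, hv', (c2_cb_conn H.conn o R).preconnected _ _⟩
  · obtain ⟨C, hC, hf, hvC⟩ := c2_fb_cases H hv hv'
    obtain ⟨b, _, _, hb⟩ := exists_bound H
    obtain ⟨_, _, _, _, ⟨x, hx⟩, _, _⟩ := hb o R C hC
    obtain ⟨hxC, w, hwC, hadj⟩ := hx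
    have hw : w ∈ cb Δ o R := hC.closed x hxC w hadj hwC
    refine ⟨cb Δ o R ∪ C, ?_, Or.inl ho, Or.inr hvC, ?_⟩
    · exact Set.union_subset (c2_cb_sub_fb H o R) (c2_comp_sub_fb H hC hf)
    · have hcn : (Δ.induce (cb Δ o R ∪ C)).Connected := by
        exact SimpleGraph.connected_induce_union (c2_cb_conn H.conn o R).preconnected
          hC.conn.preconnected hw hxC hadj.symm
      exact hcn.preconnected _ _

/-- a cone of rank `R'` meeting a cone of rank `R ≤ R'` is contained in it -/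
theorem cone_nested {o : V} {R R' : ℕ} (hR : R ≤ R') {C C' : Set V} (h1 : Cone Δ o R C)
    (h2 : Cone Δ o R' C') : C' ⊆ C ∨ Disjoint C C' := by
  by_cases hd : Disjoint C C'
  · exact Or.inr hd
  · left
    obtain ⟨v, hv, hv'⟩ := Set.not_disjoint_iff.mp hd
    exact c2_sub h1.comp h2.comp.conn (h2.comp.disj.mono_right (c2_cb_mono o hR)) hv' hv

/-- every cone of rank `R' ≥ R` is contained in a cone of rank `R` -/
theorem cone_parent {o : V} {R R' : ℕ} (hR : R ≤ R') {C' : Set V} (h2 : Cone Δ o R' C') :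
    ∃ C, Cone Δ o R C ∧ C' ⊆ C := by
  obtain ⟨v, hv⟩ := h2.inf.nonempty
  have hd : Disjoint C' (cb Δ o R) := h2.comp.disj.mono_right (c2_cb_mono o hR)
  obtain ⟨C, hC, hvC⟩ := exists_comp H (Set.disjoint_left.mp hd hv)
  have hs : C' ⊆ C := c2_sub hC h2.comp.conn hd hv hvC
  exact ⟨C, ⟨hC, h2.inf.mono hs⟩, hs⟩

theorem fb_mono (o : V) (R : ℕ) : fb Δ o R ⊆ fb Δ o (R + 1) := by
  intro v hv C' hC' hvC'
  obtain ⟨C, hC, hs⟩ := cone_parent H (Nat.le_succ R) hC'
  exact hv C hC (hs hvC')

/-- every infinite set contains infinitely many points of a cone -/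
theorem c2_exists_cone {o : V} {R : ℕ} {A : Set V} (hA : A.Infinite) :
    ∃ C, Cone Δ o R C ∧ (C ∩ A).Infinite := by
  have hf := comp_finite_number H (cb_finite H o R)
  by_contra hcon
  push Not at hcon
  apply hA
  have h1 : A ⊆ cb Δ o R ∪ ⋃ C ∈ {C | IsComp Δ (cb Δ o R) C}, (C ∩ A) := by
    intro v hv
    by_cases hv' : v ∈ cb Δ o R
    · exact Or.inl hv'
    · obtain ⟨C, hC, hvC⟩ := exists_comp H hv'
      right
      simp only [Set.mem_iUnion]
      exact ⟨C, hC, hvC, hv⟩
  refine ((cb_finite H o R).union (hf.biUnion ?_)).subset h1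
  intro C hC
  by_cases hCf : C.Finite
  · exact hCf.inter_of_left A
  · exact hcon C ⟨hC, hCf⟩

/-- every cone contains a cone of every larger rank -/
theorem cone_child {o : V} {R R' : ℕ} (hR : R ≤ R') {C : Set V} (h1 : Cone Δ o R C) :
    ∃ C', Cone Δ o R' C' ∧ C' ⊆ C := by
  obtain ⟨C', hC', hinf⟩ := c2_exists_cone H (o := o) (R := R') h1.inf
  obtain ⟨v, hv, hvC⟩ := hinf.nonempty
  refine ⟨C', hC', (cone_nested H hR h1 hC').resolve_right ?_⟩
  exact fun hd => Set.disjoint_left.mp hd hvC hv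

/-- inner boundary of a cone of rank `R + 1` inside a cone of rank `R`: its outer boundary is in the inner
boundary of the big cone -/
theorem oB_child {o : V} {R : ℕ} {C C' : Set V} (h1 : Cone Δ o R C)
    (h2 : Cone Δ o (R + 1) C') (hs : C' ⊆ C) : oB Δ C' ⊆ iB Δ C := by
  rintro w ⟨hwC', v, hv, hadj⟩
  have hw : Δ.dist o w ≤ R + 1 := h2.comp.closed v hv w hadj hwC'
  have hv2 : ¬ Δ.dist o v ≤ R + 1 := Set.disjoint_left.mp h2.comp.disj hv
  have hdw : Δ.dist w v = 1 := SimpleGraph.dist_eq_one_iff_adj.mpr hadj.symm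
  have htri := H.conn.dist_triangle (u := o) (v := w) (w := v)
  have hwd : Δ.dist o w = R + 1 := by omega
  rw [iB_sub H h1.comp]
  refine ⟨?_, hwd⟩
  by_contra hwC
  have : Δ.dist o w ≤ R := h1.comp.closed v (hs hv) w hadj hwC
  omega

/-- many cones -/
theorem many_cones (N : ℕ) : ∃ R, ∀ o, N ≤ (fs {C | Cone Δ o R C}).card := by
  obtain ⟨b, hb1, _, hb⟩ := exists_bound H
  obtain ⟨T, hT⟩ := fb_bounds H
  obtain ⟨R, hR⟩ := exists_nat_gt ((r * b * N : ℝ) / h)
  refine ⟨R, ?_⟩
  intro o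
  obtain ⟨hfin, hcb, _⟩ := hT o R
  have hcf := cones_finite H o R
  set F := fs (fb Δ o R) with hF
  set 𝒞 := fs {C | Cone Δ o R C} with h𝒞
  -- the filled ball is large
  have hcard : R + 1 ≤ F.card := by
    have hinf : Infinite V := H.inf
    obtain ⟨v, hv⟩ := (cb_finite H o R).infinite_compl.nonempty
    have hv' : R < Δ.dist o v := not_le.mp hv
    have hex : ∀ k : ℕ, k ≤ R → ∃ w, Δ.dist o w = k :=
      fun k hk => c2_exists_dist H.conn o v k (by omega)
    choose! w hw using hex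
    have h1 : (Finset.range (R + 1)).image w ⊆ F := by
      intro x hx
      obtain ⟨k, hk, rfl⟩ := Finset.mem_image.mp hx
      rw [hF, mem_fs hfin]
      apply hcb
      have hk' : k ≤ R := Nat.lt_succ_iff.mp (Finset.mem_range.mp hk)
      show Δ.dist o (w k) ≤ R
      rw [hw k hk']
      exact hk'
    have h2 := Finset.card_le_card h1
    rw [Finset.card_image_of_injOn, Finset.card_range] at h2
    · exact h2
    · intro i hi j hj hij
      have hi' : i ≤ R := Nat.lt_succ_iff.mp (Finset.mem_range.mp hi)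
      have hj' : j ≤ R := Nat.lt_succ_iff.mp (Finset.mem_range.mp hj)
      rw [← hw i hi', ← hw j hj', hij]
  -- few edges leave the filled ball
  have hbd : bdE Δ F ≤ r * (b * 𝒞.card) := by
    set B := 𝒞.biUnion (fun C => fs (oB Δ C)) with hB
    have hBc : B.card ≤ b * 𝒞.card := by
      refine Finset.card_biUnion_le.trans ?_
      rw [mul_comm, ← smul_eq_mul, ← Finset.sum_const]
      apply Finset.sum_le_sum
      intro C hC
      rw [h𝒞, mem_fs hcf] at hC
      exact (hb o R C hC.comp).2.2.2.1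
    have h1 : bdE Δ F ≤ ∑ v ∈ F, if v ∈ B then r else 0 := by
      rw [bdE]
      apply Finset.sum_le_sum
      intro v hv
      by_cases hvB : v ∈ B
      · rw [if_pos hvB, ← H.reg v, SimpleGraph.degree]
        exact Finset.card_le_card Finset.sdiff_subset
      · rw [if_neg hvB]
        apply le_of_eq
        rw [Finset.card_eq_zero, Finset.eq_empty_iff_forall_notMem]
        intro w hw
        obtain ⟨hw1, hw2⟩ := Finset.mem_sdiff.mp hw
        rw [SimpleGraph.mem_neighborFinset] at hw1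
        rw [hF, mem_fs hfin] at hw2 hv
        have : ∃ C, Cone Δ o R C ∧ w ∈ C := by
          by_contra hcon
          push Not at hcon
          exact hw2 hcon
        obtain ⟨C, hC, hwC⟩ := this
        apply hvB
        rw [hB, Finset.mem_biUnion]
        refine ⟨C, ?_, ?_⟩
        · rw [h𝒞, mem_fs hcf]
          exact hC
        · rw [mem_fs (hb o R C hC.comp).2.1]
          exact ⟨hv C hC, w, hwC, hw1.symm⟩
    refine h1.trans ?_
    rw [← Finset.sum_filter, Finset.sum_const, smul_eq_mul, mul_comm]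
    apply Nat.mul_le_mul_left
    refine le_trans (Finset.card_le_card ?_) hBc
    intro v hv
    exact (Finset.mem_filter.mp hv).2
  have hiso := H.iso F
  have hh := H.hpos
  have h1 : (bdE Δ F : ℝ) ≤ r * (b * 𝒞.card) := by exact_mod_cast hbd
  have h2 : ((R : ℝ) + 1) ≤ F.card := by exact_mod_cast hcard
  have h3 : (r * b * N : ℝ) < R * h := (div_lt_iff₀ hh).mp hR
  have h4 : (r * b * N : ℝ) < r * b * 𝒞.card := by
    nlinarith
  have h5 : (N : ℝ) < 𝒞.card := by
    by_contra hcon
    push Not at hcon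
    have : (r * b * 𝒞.card : ℝ) ≤ r * b * N := by gcongr
    linarith
  have h6 : N < 𝒞.card := by exact_mod_cast h5
  exact h6.le

end C

end Pool.Agent.Sand
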