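import Pool.Agent.SandFin.GEOC1

/-! GEO-D: finitely many cones up to automorphisms (helper52). -/

set_option autoImplicit false
set_option linter.unusedSectionVars false
open scoped Classical

namespace Pool.Agent.Sand

variable {V : Type} (Δ : SimpleGraph V) [Δ.LocallyFinite]

variable {Δ} in
theorem gd_dist_le (hc : Δ.Connected) (φ : Δ ≃g Δ) (x y : V) :
    Δ.dist (φ x) (φ y) ≤ Δ.dist x y := by
  obtain ⟨p, hp⟩ := hc.exists_walk_length_eq_dist x y
  have := SimpleGraph.dist_le (p.map φ.toHom)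
  rw [SimpleGraph.Walk.length_map, hp] at this
  exact this

variable {Δ} in
theorem gd_dist (hc : Δ.Connected) (φ : Δ ≃g Δ) (x y : V) :
    Δ.dist (φ x) (φ y) = Δ.dist x y := by
  apply le_antisymm (gd_dist_le hc φ x y)
  have := gd_dist_le hc φ.symm (φ x) (φ y)
  simpa using this

variable {Δ} in
theorem gd_cone (hc : Δ.Connected) (φ : Δ ≃g Δ) {o : V} {R : ℕ} {C : Set V} (hC : Cone Δ o R C) :
    Cone Δ (φ o) R (φ '' C) := by
  refine ⟨⟨?_, ?_, ?_⟩, ?_⟩
  · rw [Set.disjoint_left]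
    rintro _ ⟨c, hc', rfl⟩ hcb
    have h1 : Δ.dist (φ o) (φ c) ≤ R := hcb
    rw [gd_dist hc] at h1
    exact Set.disjoint_left.mp hC.comp.disj hc' h1
  · rintro _ ⟨c, hc', rfl⟩ y hadj hy
    have h1 : Δ.Adj c (φ.symm y) := by
      rw [← φ.map_adj_iff]
      simpa using hadj
    have h2 : φ.symm y ∉ C := fun h => hy ⟨_, h, by simp⟩
    have h3 : Δ.dist o (φ.symm y) ≤ R := hC.comp.closed c hc' _ h1 h2
    show Δ.dist (φ o) y ≤ R
    rw [← gd_dist hc φ] at h3
    simpa using h3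
  · let f : Δ.induce C →g Δ.induce (φ '' C) :=
      ⟨fun x => ⟨φ x.1, Set.mem_image_of_mem _ x.2⟩, by
        intro a b hab
        have : Δ.Adj a.1 b.1 := hab
        show Δ.Adj (φ a.1) (φ b.1)
        exact φ.map_adj_iff.mpr this⟩
    apply hC.comp.conn.map f
    rintro ⟨_, c, hc', rfl⟩
    exact ⟨⟨c, hc'⟩, rfl⟩
  · exact hC.inf.image φ.injective.injOn

theorem cone_types {r : ℕ} {h : ℝ} {D0 : ℕ} (H : Hyp Δ r h D0) :
    ∃ 𝓣 : Set (Set V), 𝓣.Finite ∧ ∀ o R C, Cone Δ o R C →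
      ∃ C' ∈ 𝓣, ∃ φ : Δ ≃g Δ, φ '' C' = C ∧ ∃ o' R', Cone Δ o' R' C' := by
  have hinf : Infinite V := H.inf
  obtain ⟨v0⟩ : Nonempty V := inferInstance
  refine ⟨{C' | (∃ o' R', Cone Δ o' R' C') ∧ v0 ∈ oB Δ C'}, ?_, ?_⟩
  · have hfin : (⋃ K ∈ {K | K ⊆ cb Δ v0 (D0 + 2)}, {C | IsComp Δ K C}).Finite := by
      apply Set.Finite.biUnion (cb_finite H v0 (D0 + 2)).finite_subsets
      intro K hK
      exact comp_finite_number H ((cb_finite H v0 (D0 + 2)).subset hK)
    refine hfin.subset ?_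
    rintro C' ⟨⟨o', R', hC'⟩, hv0, x0, hx0, hadj0⟩
    have key : ∀ x ∈ C', ∀ w, w ∉ C' → Δ.Adj x w → Δ.dist o' x = R' + 1 := by
      intro x hx w hw hadj
      have h1 : Δ.dist o' w ≤ R' := hC'.comp.closed x hx w hadj hw
      have h2 : ¬ Δ.dist o' x ≤ R' := Set.disjoint_left.mp hC'.comp.disj hx
      have h3 : Δ.dist w x = 1 := SimpleGraph.dist_eq_one_iff_adj.mpr hadj.symm
      have h4 := H.conn.dist_triangle (u := o') (v := w) (w := x)
      omega
    simp only [Set.mem_iUnion]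
    refine ⟨oB Δ C', ?_, ?_⟩
    · rintro w ⟨hw, x, hx, hadj⟩
      have h1 := H.bott o' R' C' hC'.comp x0 hx0 x hx (key x0 hx0 v0 hv0 hadj0)
        (key x hx w hw hadj)
      have h2 : Δ.dist v0 x0 = 1 := SimpleGraph.dist_eq_one_iff_adj.mpr hadj0.symm
      have h3 : Δ.dist x w = 1 := SimpleGraph.dist_eq_one_iff_adj.mpr hadj
      have h4 := H.conn.dist_triangle (u := v0) (v := x0) (w := x)
      have h5 := H.conn.dist_triangle (u := v0) (v := x) (w := w)
      show Δ.dist v0 w ≤ D0 + 2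
      omega
    · refine ⟨?_, ?_, hC'.comp.conn⟩
      · rw [Set.disjoint_left]
        intro x hx hx'
        exact hx'.1 hx
      · intro x hx y hadj hy
        exact ⟨hy, x, hx, hadj⟩
  · intro o R C hC
    obtain ⟨b, _, _, hb⟩ := exists_bound H
    obtain ⟨_, _, _, _, _, ⟨w, hw, x, hx, hadj⟩, _⟩ := hb o R C hC.comp
    obtain ⟨φ, hφ⟩ := H.trans v0 w
    have hsymm : φ.symm w = v0 := by rw [← hφ]; simp
    have hcone := gd_cone H.conn φ.symm hC
    refine ⟨φ.symm '' C, ⟨⟨_, _, hcone⟩, ?_, φ.symm x, Set.mem_image_of_mem _ hx, ?_⟩, φ, ?_,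
      _, _, hcone⟩
    · rintro ⟨c, hc', hcv⟩
      apply hw
      have : c = w := by
        apply φ.symm.injective
        rw [hcv, hsymm]
      exact this ▸ hc'
    · rw [← hsymm]
      exact φ.symm.map_adj_iff.mpr hadj
    · rw [Set.image_image]
      simp

end Pool.Agent.Sand
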