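import Pool.Agent.SandFin.Basic

/-! MP_4555f0_mp, task GEO-E: free sets. -/

set_option autoImplicit false
open scoped Classical

namespace Pool.Agent.Sand

/-- `Y` has no finite component -/
def Free {V : Type} (Δ : SimpleGraph V) [Δ.LocallyFinite] (Y : Set V) : Prop :=
  ∀ X : Finset V, ↑X ⊆ Y → X.Nonempty → 1 ≤ bdY Δ Y X

namespace GeoE

variable {V : Type} (Δ : SimpleGraph V) [Δ.LocallyFinite]

theorem free_iff {Y : Set V} : Free Δ Y ↔ ∀ X : Finset V, ↑X ⊆ Y → X.Nonempty →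
    ∃ x ∈ X, ∃ y, Δ.Adj x y ∧ y ∈ Y ∧ y ∉ X := by
  unfold Free
  refine forall_congr' fun X => forall_congr' fun _ => forall_congr' fun _ => ?_
  rw [Nat.one_le_iff_ne_zero, bdY, Ne, Finset.sum_eq_zero_iff]
  push Not
  constructor
  · rintro ⟨x, hx, hc⟩
    rw [Finset.card_ne_zero] at hc
    obtain ⟨y, hy⟩ := hc
    rw [Finset.mem_filter, Finset.mem_sdiff, SimpleGraph.mem_neighborFinset] at hy
    exact ⟨x, hx, y, hy.1.1, hy.2, hy.1.2⟩
  · rintro ⟨x, hx, y, h1, h2, h3⟩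
    refine ⟨x, hx, ?_⟩
    rw [Finset.card_ne_zero]
    refine ⟨y, ?_⟩
    rw [Finset.mem_filter, Finset.mem_sdiff, SimpleGraph.mem_neighborFinset]
    exact ⟨⟨h1, h3⟩, h2⟩

/-- `X` is closed under adjacency inside `Y` -/
def Cl (Y : Set V) (X : Finset V) : Prop := ∀ x ∈ X, ∀ y, Δ.Adj x y → y ∈ Y → y ∈ X

variable {Δ}

theorem not_free {Y : Set V} (h : ¬ Free Δ Y) :
    ∃ X : Finset V, ↑X ⊆ Y ∧ X.Nonempty ∧ Cl Δ Y X := by
  rw [free_iff] at h
  push Not at h
  obtain ⟨X, h1, h2, h3⟩ := h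
  exact ⟨X, h1, h2, h3⟩

theorem free_not_cl {Y : Set V} (hY : Free Δ Y) {X : Finset V} (h1 : ↑X ⊆ Y) (h2 : X.Nonempty)
    (h3 : Cl Δ Y X) : False := by
  rw [free_iff] at hY
  obtain ⟨x, hx, y, hy1, hy2, hy3⟩ := hY X h1 h2
  exact hy3 (h3 x hx y hy1 hy2)

/-- the common lemma -/
theorem inter_lemma {Y : Set V} (hY : Free Δ Y) {v v₁ : V} {X X₁ : Finset V}
    (hX : ↑X ⊆ Y \ {v}) (hX₁ : ↑X₁ ⊆ Y \ {v₁}) (hc : Cl Δ (Y \ {v}) X)
    (hc₁ : Cl Δ (Y \ {v₁}) X₁) (h : v₁ ∈ X) (hne : X₁.Nonempty) :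
    (X ∩ X₁).Nonempty ∧ Cl Δ (Y \ {v₁}) (X ∩ X₁) ∧ (X ∩ X₁).card < X.card := by
  have hv₁ : v₁ ∉ X₁ := fun hh => (hX₁ hh).2 rfl
  have hvX : v ∉ X := fun hh => (hX hh).2 rfl
  have hv₁Y : v₁ ∈ Y := (hX h).1
  -- v is not in X₁
  have hvX₁ : v ∉ X₁ := by
    intro hv
    refine free_not_cl hY (X := X ∪ X₁) ?_ ⟨v₁, by simp [h]⟩ ?_
    · intro x hx
      rw [Finset.mem_coe, Finset.mem_union] at hx
      rcases hx with hx | hx
      · exact (hX hx).1
      · exact (hX₁ hx).1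
    · intro x hx y hxy hy
      rw [Finset.mem_union] at hx ⊢
      rcases hx with hx | hx
      · by_cases hyv : y = v
        · right
          rwa [hyv]
        · left
          exact hc x hx y hxy ⟨hy, hyv⟩
      · by_cases hyv : y = v₁
        · left
          rwa [hyv]
        · right
          exact hc₁ x hx y hxy ⟨hy, hyv⟩
  refine ⟨?_, ?_, ?_⟩
  · by_contra hem
    rw [Finset.not_nonempty_iff_eq_empty] at hem
    refine free_not_cl hY (X := X₁) (fun x hx => (hX₁ hx).1) hne ?_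
    intro x hx y hxy hy
    by_cases hyv : y = v₁
    · exfalso
      subst hyv
      have hxX : x ∈ X := by
        refine hc y h x hxy.symm ⟨(hX₁ hx).1, ?_⟩
        rintro rfl
        exact hvX₁ hx
      have : x ∈ X ∩ X₁ := Finset.mem_inter.2 ⟨hxX, hx⟩
      rw [hem] at this
      simp at this
    · exact hc₁ x hx y hxy ⟨hy, hyv⟩
  · intro x hx y hxy hy
    rw [Finset.mem_inter] at hx ⊢
    have hy₁ : y ∈ X₁ := hc₁ x hx.2 y hxy hy
    refine ⟨hc x hx.1 y hxy ⟨hy.1, ?_⟩, hy₁⟩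
    rintro rfl
    exact hvX₁ hy₁
  · refine Finset.card_lt_card ⟨Finset.inter_subset_left, fun hh => ?_⟩
    exact hv₁ (Finset.mem_inter.1 (hh h)).2

/-- a connected infinite set is free -/
theorem free_of_conn {Y : Set V} (hc : (Δ.induce Y).Preconnected) (hi : Y.Infinite) :
    Free Δ Y := by
  rw [free_iff]
  intro X hX hne
  obtain ⟨x, hx⟩ := hne
  obtain ⟨z, hzY, hzX⟩ : ∃ z ∈ Y, z ∉ X := by
    by_contra hcon
    push Not at hcon
    exact hi (X.finite_toSet.subset hcon)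
  obtain ⟨p⟩ := hc ⟨x, hX hx⟩ ⟨z, hzY⟩
  obtain ⟨d, -, hd1, hd2⟩ := p.exists_boundary_dart {y | (y : V) ∈ X} hx hzX
  exact ⟨d.fst, hd1, d.snd, d.adj, d.snd.2, hd2⟩

end GeoE

open GeoE

variable {V : Type} (Δ : SimpleGraph V) [Δ.LocallyFinite]

/-- isoperimetry inside a free set with finite exit set `Q` -/
theorem iso_free {r : ℕ} {h : ℝ} {D0 : ℕ} (H : Hyp Δ r h D0) {Y : Set V} (hY : Free Δ Y)
    (Q : Finset V) (hQ : ∀ v ∈ Y, ∀ w, Δ.Adj v w → w ∉ Y → w ∈ Q) (X : Finset V) (hX : ↑X ⊆ Y) :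
    (h / (2 * (r * Q.card + 1))) * (X.card : ℝ) ≤ (bdY Δ Y X : ℝ) := by
  have hdec : bdE Δ X ≤ bdY Δ Y X + r * Q.card := by
    have h1 : bdE Δ X = bdY Δ Y X + ∑ v ∈ X, ((Δ.neighborFinset v \ X).filter (¬ · ∈ Y)).card := by
      rw [bdE, bdY, ← Finset.sum_add_distrib]
      refine Finset.sum_congr rfl fun v _ => ?_
      rw [Finset.card_filter_add_card_filter_not]
    rw [h1]
    refine Nat.add_le_add_left ?_ _
    calc ∑ v ∈ X, ((Δ.neighborFinset v \ X).filter (¬ · ∈ Y)).card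
        ≤ ∑ v ∈ X, (Finset.bipartiteAbove Δ.Adj Q v).card := by
          refine Finset.sum_le_sum fun v hv => Finset.card_le_card ?_
          intro w hw
          rw [Finset.mem_filter, Finset.mem_sdiff, SimpleGraph.mem_neighborFinset] at hw
          rw [Finset.mem_bipartiteAbove]
          exact ⟨hQ v (hX hv) w hw.1.1 hw.2, hw.1.1⟩
      _ = ∑ w ∈ Q, (Finset.bipartiteBelow Δ.Adj X w).card :=
          Finset.sum_card_bipartiteAbove_eq_sum_card_bipartiteBelow _
      _ ≤ ∑ w ∈ Q, r := by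
          refine Finset.sum_le_sum fun w hw => ?_
          rw [← H.reg w, ← SimpleGraph.card_neighborFinset_eq_degree]
          refine Finset.card_le_card ?_
          intro v hv
          rw [Finset.mem_bipartiteBelow] at hv
          rw [SimpleGraph.mem_neighborFinset]
          exact hv.2.symm
      _ = r * Q.card := by rw [Finset.sum_const, smul_eq_mul, mul_comm]
  have hiso := H.iso X
  have hh := H.hpos
  have hdec' : (bdE Δ X : ℝ) ≤ bdY Δ Y X + r * Q.card := by exact_mod_cast hdec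
  have hq : (0 : ℝ) ≤ r * Q.card := by positivity
  set q : ℝ := r * Q.card with hqdef
  have hb0 : (0 : ℝ) ≤ (bdY Δ Y X : ℝ) := by positivity
  rw [div_mul_eq_mul_div, div_le_iff₀ (by positivity)]
  rcases X.eq_empty_or_nonempty with he | hne
  · subst he
    simp only [Finset.card_empty, Nat.cast_zero, mul_zero]
    positivity
  · have hb1 : (1 : ℝ) ≤ (bdY Δ Y X : ℝ) := by exact_mod_cast hY X hX hne
    rcases le_or_gt (2 * q) (h * X.card) with hc | hc
    · nlinarith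
    · nlinarith

theorem cone_free {r : ℕ} {h : ℝ} {D0 : ℕ} (_H : Hyp Δ r h D0) {o : V} {R : ℕ} {C : Set V}
    (hC : Cone Δ o R C) : Free Δ C :=
  free_of_conn hC.comp.conn.preconnected hC.inf

theorem cb_fin {r : ℕ} {h : ℝ} {D0 : ℕ} (H : Hyp Δ r h D0) (o : V) (R : ℕ) :
    (cb Δ o R).Finite := by
  induction R with
  | zero =>
    refine (Set.finite_singleton o).subset ?_
    intro v hv
    have h0 : Δ.dist o v = 0 := Nat.le_zero.1 hv
    exact ((H.conn.dist_eq_zero_iff).1 h0).symm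
  | succ R ih =>
    refine (ih.union (ih.biUnion fun v _ => (Δ.neighborFinset v).finite_toSet)).subset ?_
    intro w hw
    rcases Nat.lt_or_ge R (Δ.dist o w) with hlt | hle
    · right
      obtain ⟨p, hp⟩ := H.conn.exists_walk_length_eq_dist w o
      rw [SimpleGraph.dist_comm] at hlt
      cases p with
      | nil => simp at hlt
      | cons hadj q =>
        rename_i x
        rw [SimpleGraph.Walk.length_cons] at hp
        have h1 : Δ.dist x o ≤ q.length := SimpleGraph.dist_le q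
        have h2 : Δ.dist o w ≤ R + 1 := hw
        rw [SimpleGraph.dist_comm] at h2
        refine Set.mem_biUnion (x := x) ?_ ?_
        · change Δ.dist o x ≤ R
          rw [SimpleGraph.dist_comm]
          omega
        · simpa using hadj.symm
    · left
      exact hle

theorem free_univ {r : ℕ} {h : ℝ} {D0 : ℕ} (H : Hyp Δ r h D0) : Free Δ (Set.univ : Set V) := by
  rw [free_iff]
  intro X _ hne
  obtain ⟨x, hx⟩ := hne
  have := H.inf
  obtain ⟨z, hz⟩ := Infinite.exists_notMem_finset X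
  obtain ⟨p⟩ := H.conn.preconnected x z
  obtain ⟨d, -, hd1, hd2⟩ := p.exists_boundary_dart {y | (y : V) ∈ X} hx hz
  exact ⟨d.fst, hd1, d.snd, d.adj, trivial, hd2⟩

/-- no cut vertex with a finite side -/
theorem free_compl_singleton {r : ℕ} {h : ℝ} {D0 : ℕ} (H : Hyp Δ r h D0) (v : V) :
    Free Δ {v}ᶜ := by
  by_contra hcon
  have hex : ∃ n : ℕ, ∃ (v : V) (X : Finset V), ↑X ⊆ (Set.univ \ {v} : Set V) ∧ X.Nonempty ∧
      Cl Δ (Set.univ \ {v}) X ∧ X.card = n := by
    obtain ⟨X, h1, h2, h3⟩ := not_free hcon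
    rw [Set.compl_eq_univ_sdiff] at h1 h3
    exact ⟨_, v, X, h1, h2, h3, rfl⟩
  obtain ⟨v, X, h1, h2, h3, h4⟩ := Nat.find_spec hex
  obtain ⟨u, hu⟩ := h2
  obtain ⟨φ, hφ⟩ := H.trans v u
  set X₁ : Finset V := X.map φ.toEquiv.toEmbedding with hX₁
  have hmem : ∀ x, x ∈ X₁ ↔ ∃ y ∈ X, φ y = x := by
    intro x
    rw [hX₁, Finset.mem_map]
    rfl
  have k1 : ↑X₁ ⊆ (Set.univ \ {u} : Set V) := by
    intro x hx
    rw [Finset.mem_coe, hmem] at hx
    obtain ⟨y, hy, rfl⟩ := hx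
    refine ⟨trivial, fun hh => ?_⟩
    rw [Set.mem_singleton_iff, ← hφ] at hh
    have := φ.injective hh
    subst this
    exact (h1 hy).2 rfl
  have k3 : Cl Δ (Set.univ \ {u}) X₁ := by
    intro x hx y hxy hy
    rw [hmem] at hx ⊢
    obtain ⟨x', hx', rfl⟩ := hx
    refine ⟨φ.symm y, h3 x' hx' _ ?_ ⟨trivial, ?_⟩, by simp⟩
    · rw [← φ.map_adj_iff]
      simpa using hxy
    · intro hh
      rw [Set.mem_singleton_iff] at hh
      apply hy.2
      rw [Set.mem_singleton_iff, ← hφ, ← hh]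
      simp
  obtain ⟨a1, a2, a3⟩ := inter_lemma (free_univ Δ H) h1 k1 h3 k3 hu
    ⟨φ u, by rw [hmem]; exact ⟨u, hu, rfl⟩⟩
  refine Nat.find_min hex (m := (X ∩ X₁).card) (by rw [← h4]; exact a3)
    ⟨u, X ∩ X₁, fun x hx => ?_, a1, a2, rfl⟩
  exact k1 (Finset.mem_inter.1 hx).2

/-- hole-free growth: in every cone there are sets `Z` of every size which can be burnt from the outer
boundary and whose complement in the cone has no finite component -/
theorem exists_Z {r : ℕ} {h : ℝ} {D0 : ℕ} (H : Hyp Δ r h D0) {o : V} {R : ℕ} {C : Set V}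
    (hC : Cone Δ o R C) (s : ℕ) : ∃ Z : Finset V, ↑Z ⊆ C ∧ Z.card = s ∧ Free Δ (C \ ↑Z) ∧
      ∀ W ⊆ Z, W.Nonempty → ∃ v ∈ W, 1 ≤ nb Δ v (fs (oB Δ C) ∪ (Z \ W)) := by
  have hoB : (oB Δ C).Finite := by
    refine (cb_fin Δ H o R).subset ?_
    intro w hw
    exact hC.comp.closed _ hw.2.choose_spec.1 w hw.2.choose_spec.2 hw.1
  have hnb : ∀ (v : V) (W : Finset V), 1 ≤ nb Δ v W ↔ ∃ w ∈ W, Δ.Adj v w := by
    intro v W
    rw [nb, Nat.one_le_iff_ne_zero, Finset.card_ne_zero]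
    constructor
    · rintro ⟨w, hw⟩
      rw [Finset.mem_inter, SimpleGraph.mem_neighborFinset] at hw
      exact ⟨w, hw.2, hw.1⟩
    · rintro ⟨w, hw1, hw2⟩
      exact ⟨w, by rw [Finset.mem_inter, SimpleGraph.mem_neighborFinset]; exact ⟨hw2, hw1⟩⟩
  induction s with
  | zero =>
    refine ⟨∅, by simp, rfl, by simpa using cone_free Δ H hC, ?_⟩
    intro W hW hne
    obtain ⟨x, hx⟩ := hne
    simpa using hW hx
  | succ s ih =>
    obtain ⟨Z, hZC, hZs, hZf, hZW⟩ := ih
    -- the candidates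
    set Y : Set V := C \ ↑Z with hYdef
    have hYinf : Y.Infinite := hC.inf.sdiff Z.finite_toSet
    have key : ∃ v ∈ Y, (∃ w, w ∉ Y ∧ Δ.Adj v w) ∧ Free Δ (Y \ {v}) := by
      by_contra hcon
      push Not at hcon
      have hex : ∃ n : ℕ, ∃ (v : V) (X : Finset V), v ∈ Y ∧ (∃ w, w ∉ Y ∧ Δ.Adj v w) ∧
          ↑X ⊆ (Y \ {v} : Set V) ∧ X.Nonempty ∧ Cl Δ (Y \ {v}) X ∧ X.card = n := by
        obtain ⟨y, hy⟩ := hYinf.nonempty
        have hYne : ∃ z, z ∉ Y := by
          refine ⟨o, fun ho => ?_⟩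
          refine Set.disjoint_left.1 hC.comp.disj ho.1 ?_
          simp [cb]
        obtain ⟨z, hz⟩ := hYne
        obtain ⟨p⟩ := H.conn.preconnected y z
        obtain ⟨d, -, hd1, hd2⟩ := p.exists_boundary_dart Y hy hz
        obtain ⟨X, h1, h2, h3⟩ := not_free (hcon d.fst hd1 ⟨d.snd, hd2, d.adj⟩)
        exact ⟨_, d.fst, X, hd1, ⟨d.snd, hd2, d.adj⟩, h1, h2, h3, rfl⟩
      obtain ⟨v, X, hvY, hvw, h1, h2, h3, h4⟩ := Nat.find_spec hex
      -- `X` meets the candidates
      have hXA : ∃ v₁ ∈ X, ∃ w, w ∉ Y ∧ Δ.Adj v₁ w := by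
        by_contra hno
        push Not at hno
        refine free_not_cl (free_compl_singleton Δ H v) (X := X) (fun x hx => (h1 hx).2) h2 ?_
        intro x hx y hxy hy
        refine h3 x hx y hxy ⟨?_, hy⟩
        by_contra hyY
        exact hno x hx y hyY hxy
      obtain ⟨v₁, hv₁X, w, hwY, hvw₁⟩ := hXA
      have hv₁Y : v₁ ∈ Y := (h1 hv₁X).1
      obtain ⟨X₁, k1, k2, k3⟩ := not_free (hcon v₁ hv₁Y ⟨w, hwY, hvw₁⟩)
      obtain ⟨a1, a2, a3⟩ := inter_lemma hZf h1 k1 h3 k3 hv₁X k2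
      refine Nat.find_min hex (m := (X ∩ X₁).card) (by rw [← h4]; exact a3)
        ⟨v₁, X ∩ X₁, hv₁Y, ⟨w, hwY, hvw₁⟩, fun x hx => ?_, a1, a2, rfl⟩
      exact k1 (Finset.mem_inter.1 hx).2
    obtain ⟨v, hvY, ⟨w, hwY, hvw⟩, hfree⟩ := key
    have hvZ : v ∉ Z := fun hh => hvY.2 hh
    refine ⟨insert v Z, ?_, ?_, ?_, ?_⟩
    · intro x hx
      rw [Finset.mem_coe, Finset.mem_insert] at hx
      rcases hx with rfl | hx
      · exact hvY.1
      · exact hZC hx
    · rw [Finset.card_insert_of_notMem hvZ, hZs]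
    · convert hfree using 1
      ext x
      simp only [hYdef, Set.mem_sdiff, Finset.coe_insert, Set.mem_insert_iff, Finset.mem_coe,
        Set.mem_singleton_iff]
      tauto
    · intro W hW hne
      by_cases hW' : (W.erase v).Nonempty
      · obtain ⟨x, hx, hx'⟩ := hZW (W.erase v) (by
          intro x hx
          rw [Finset.mem_erase] at hx
          have := hW hx.2
          rw [Finset.mem_insert] at this
          exact this.resolve_left hx.1) hW'
        refine ⟨x, (Finset.mem_erase.1 hx).2, ?_⟩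
        rw [hnb] at hx' ⊢
        obtain ⟨y, hy, hxy⟩ := hx'
        refine ⟨y, ?_, hxy⟩
        rw [Finset.mem_union, Finset.mem_sdiff] at hy ⊢
        rcases hy with hy | ⟨hy1, hy2⟩
        · left
          exact hy
        · right
          refine ⟨Finset.mem_insert_of_mem hy1, fun hh => hy2 ?_⟩
          rw [Finset.mem_erase]
          refine ⟨?_, hh⟩
          rintro rfl
          exact hvZ hy1
      · rw [Finset.not_nonempty_iff_eq_empty, Finset.erase_eq_empty_iff] at hW'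
        rcases hW' with hW' | hW'
        · subst hW'
          simp at hne
        · refine ⟨v, by rw [hW']; simp, ?_⟩
          rw [hnb]
          refine ⟨w, ?_, hvw⟩
          rw [Finset.mem_union, mem_fs hoB, Finset.mem_sdiff]
          by_cases hwC : w ∈ C
          · right
            have hwZ : w ∈ Z := by
              by_contra hwZ
              exact hwY ⟨hwC, hwZ⟩
            refine ⟨Finset.mem_insert_of_mem hwZ, ?_⟩
            rw [hW', Finset.mem_singleton]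
            rintro rfl
            exact hvZ hwZ
          · left
            exact ⟨hwC, v, hvY.1, hvw⟩

end Pool.Agent.Sand
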