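import Pool.Agent.SandFin.GEOC1
import Pool.Agent.SandFin.GEOD
import Pool.Agent.SandFin.GEOE

/-! GEO-F: a finite connected part of a cone containing its inner boundary with free complement. -/

set_option autoImplicit false
open scoped Classical

namespace Pool.Agent.Sand

variable {V : Type} (Δ : SimpleGraph V) [Δ.LocallyFinite]

theorem gf_bdY_pos (Y : Set V) (X : Finset V) :
    1 ≤ bdY Δ Y X ↔ ∃ v ∈ X, ∃ w, Δ.Adj v w ∧ w ∉ X ∧ w ∈ Y := by
  unfold bdY
  rw [Nat.one_le_iff_ne_zero, Ne, Finset.sum_eq_zero_iff]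
  push Not
  constructor
  · rintro ⟨v, hv, hne⟩
    obtain ⟨w, hw⟩ := Finset.card_ne_zero.1 hne
    rw [Finset.mem_filter, Finset.mem_sdiff, SimpleGraph.mem_neighborFinset] at hw
    exact ⟨v, hv, w, hw.1.1, hw.1.2, hw.2⟩
  · rintro ⟨v, hv, w, h1, h2, h3⟩
    refine ⟨v, hv, Finset.card_ne_zero.2 ⟨w, ?_⟩⟩
    rw [Finset.mem_filter, Finset.mem_sdiff, SimpleGraph.mem_neighborFinset]
    exact ⟨⟨h1, h2⟩, h3⟩

theorem gf_nb_pos (v : V) (W : Finset V) : 1 ≤ nb Δ v W ↔ ∃ w ∈ W, Δ.Adj v w := by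
  unfold nb
  rw [Nat.one_le_iff_ne_zero, Finset.card_ne_zero]
  constructor
  · rintro ⟨w, hw⟩
    rw [Finset.mem_inter, SimpleGraph.mem_neighborFinset] at hw
    exact ⟨w, hw.2, hw.1⟩
  · rintro ⟨w, h1, h2⟩
    exact ⟨w, by rw [Finset.mem_inter, SimpleGraph.mem_neighborFinset]; exact ⟨h2, h1⟩⟩

omit [Δ.LocallyFinite] in
/-- A set which is closed under adjacency inside a connected set `C` and meets it contains it. -/
theorem gf_closed {C A : Set V} (hconn : (Δ.induce C).Connected) {x : V} (hx : x ∈ C) (hxA : x ∈ A)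
    (hcl : ∀ a ∈ A, a ∈ C → ∀ y ∈ C, Δ.Adj a y → y ∈ A) : C ⊆ A := by
  intro y hy
  obtain ⟨p⟩ := hconn.preconnected ⟨x, hx⟩ ⟨y, hy⟩
  have key : ∀ (a b : C) (p : (Δ.induce C).Walk a b), (a : V) ∈ A → (b : V) ∈ A := by
    intro a b p
    induction p with
    | nil => exact id
    | cons h p ih =>
      intro ha
      exact ih (hcl _ ha (Subtype.coe_prop _) _ (Subtype.coe_prop _) h)
  exact key _ _ p hxA

/-- a core of a set -/
structure gf_IsCore (C : Set V) (Λ : Finset V) : Prop where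
  sub : ↑Λ ⊆ C
  ib : iB Δ C ⊆ ↑Λ
  free : Free Δ (C \ ↑Λ)
  conn : ∀ W ⊆ Λ, W.Nonempty → W ≠ Λ → ∃ v ∈ W, 1 ≤ nb Δ v (Λ \ W)

theorem gf_transport (φ : Δ ≃g Δ) {C : Set V} {Λ : Finset V} (h : gf_IsCore Δ C Λ) :
    gf_IsCore Δ (φ '' C) (Λ.image φ) := by
  have hinv : ∀ x, φ (φ.symm x) = x := fun x => φ.apply_symm_apply x
  have hinv' : ∀ x, φ.symm (φ x) = x := fun x => φ.symm_apply_apply x
  refine ⟨?_, ?_, ?_, ?_⟩
  · intro x hx
    rw [Finset.mem_coe, Finset.mem_image] at hx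
    obtain ⟨y, hy, rfl⟩ := hx
    exact ⟨y, h.sub hy, rfl⟩
  · rintro _ ⟨⟨x, hx, rfl⟩, w, hw, hadj⟩
    rw [Finset.mem_coe, Finset.mem_image]
    refine ⟨x, h.ib ⟨hx, φ.symm w, ?_, ?_⟩, rfl⟩
    · intro hc
      exact hw ⟨φ.symm w, hc, hinv w⟩
    · rw [← φ.map_adj_iff, hinv]
      exact hadj
  · intro X hX hne
    have hX' : ∀ x ∈ X, φ.symm x ∈ C ∧ φ.symm x ∉ Λ := by
      intro x hx
      obtain ⟨⟨y, hy, rfl⟩, h2⟩ := hX hx
      rw [hinv']
      refine ⟨hy, fun hyL => h2 ?_⟩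
      rw [Finset.mem_coe]
      exact Finset.mem_image_of_mem _ hyL
    have h1 := h.free (X.image φ.symm) (by
      intro x hx
      rw [Finset.mem_coe, Finset.mem_image] at hx
      obtain ⟨y, hy, rfl⟩ := hx
      exact ⟨(hX' y hy).1, fun hc => (hX' y hy).2 hc⟩) (hne.image _)
    rw [gf_bdY_pos] at h1 ⊢
    obtain ⟨v, hv, w, hadj, hwX, hwC, hwL⟩ := h1
    rw [Finset.mem_image] at hv
    obtain ⟨x, hx, rfl⟩ := hv
    refine ⟨x, hx, φ w, ?_, ?_, ⟨w, hwC, rfl⟩, ?_⟩
    · rw [← hinv x, φ.map_adj_iff]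
      exact hadj
    · intro hc
      apply hwX
      rw [Finset.mem_image]
      exact ⟨φ w, hc, hinv' w⟩
    · intro hc
      rw [Finset.mem_coe, Finset.mem_image] at hc
      obtain ⟨y, hy, hyw⟩ := hc
      have : y = w := φ.injective hyw
      subst this
      exact hwL hy
  · intro W hW hne hW2
    have h1 := h.conn (W.image φ.symm) (by
      intro x hx
      rw [Finset.mem_image] at hx
      obtain ⟨y, hy, rfl⟩ := hx
      have := hW hy
      rw [Finset.mem_image] at this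
      obtain ⟨z, hz, rfl⟩ := this
      rw [hinv']
      exact hz) (hne.image _) (by
      intro hc
      apply hW2
      rw [← hc, Finset.image_image]
      have : (φ ∘ φ.symm : V → V) = id := by
        funext x
        exact hinv x
      rw [this, Finset.image_id])
    obtain ⟨v, hv, hnb⟩ := h1
    rw [Finset.mem_image] at hv
    obtain ⟨x, hx, rfl⟩ := hv
    refine ⟨x, hx, ?_⟩
    rw [gf_nb_pos] at hnb ⊢
    obtain ⟨w, hw, hadj⟩ := hnb
    rw [Finset.mem_sdiff] at hw
    refine ⟨φ w, ?_, ?_⟩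
    · rw [Finset.mem_sdiff]
      refine ⟨Finset.mem_image_of_mem _ hw.1, fun hc => hw.2 ?_⟩
      rw [Finset.mem_image]
      exact ⟨φ w, hc, hinv' w⟩
    · rw [← hinv x, φ.map_adj_iff]
      exact hadj

omit [Δ.LocallyFinite] in
/-- a finite set of points of a connected set is contained in a finite subset which is connected
(in the sense of closed sets) -/
theorem gf_paths {C : Set V} (hconn : (Δ.induce C).Connected) {v0 : V} (hv0 : v0 ∈ C)
    (B : Finset V) (hB : ↑B ⊆ C) :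
    ∃ Λ : Finset V, ↑Λ ⊆ C ∧ B ⊆ Λ ∧ v0 ∈ Λ ∧ ∀ A : Set V, v0 ∈ A →
      (∀ a ∈ A, a ∈ Λ → ∀ y ∈ Λ, Δ.Adj a y → y ∈ A) → ↑Λ ⊆ A := by
  induction B using Finset.induction_on with
  | empty =>
    refine ⟨{v0}, ?_, ?_, ?_, ?_⟩
    · simpa using hv0
    · simp
    · simp
    · intro A hA _
      simpa using hA
  | insert b B hb ih =>
    obtain ⟨Λ, h1, h2, h3, h4⟩ := ih (fun x hx => hB (by
      rw [Finset.mem_coe] at hx ⊢
      exact Finset.mem_insert_of_mem hx))
    have hbC : b ∈ C := hB (by simp)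
    obtain ⟨p⟩ := hconn.preconnected ⟨v0, hv0⟩ ⟨b, hbC⟩
    refine ⟨Λ ∪ (p.support.map Subtype.val).toFinset, ?_, ?_, ?_, ?_⟩
    · intro x hx
      rw [Finset.mem_coe, Finset.mem_union, List.mem_toFinset, List.mem_map] at hx
      rcases hx with hx | ⟨y, _, rfl⟩
      · exact h1 hx
      · exact y.2
    · intro x hx
      rw [Finset.mem_insert] at hx
      rw [Finset.mem_union, List.mem_toFinset, List.mem_map]
      rcases hx with rfl | hx
      · right
        exact ⟨⟨x, hbC⟩, p.end_mem_support, rfl⟩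
      · left
        exact h2 hx
    · rw [Finset.mem_union]
      left
      exact h3
    · intro A hA hcl x hx
      rw [Finset.mem_coe, Finset.mem_union, List.mem_toFinset, List.mem_map] at hx
      rcases hx with hx | ⟨y, hy, rfl⟩
      · exact h4 A hA (fun a ha haL z hz hadj => hcl a ha (Finset.mem_union_left _ haL) z
          (Finset.mem_union_left _ hz) hadj) hx
      · have key : ∀ (a b : C) (q : (Δ.induce C).Walk a b), (a : V) ∈ A →
            (∀ z ∈ q.support, (z : V) ∈ Λ ∪ (p.support.map Subtype.val).toFinset) →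
            ∀ z ∈ q.support, (z : V) ∈ A := by
          intro a b q
          induction q with
          | nil =>
            intro ha _ z hz
            rw [SimpleGraph.Walk.support_nil, List.mem_singleton] at hz
            rw [hz]
            exact ha
          | cons hadj q ih =>
            intro ha hsup z hz
            rw [SimpleGraph.Walk.support_cons, List.mem_cons] at hz
            rcases hz with rfl | hz
            · exact ha
            · refine ih ?_ (fun z hz => hsup z (by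
                rw [SimpleGraph.Walk.support_cons]
                exact List.mem_cons_of_mem _ hz)) z hz
              refine hcl _ ha (hsup _ (by
                rw [SimpleGraph.Walk.support_cons]
                exact List.mem_cons_self)) _ (hsup _ (by
                rw [SimpleGraph.Walk.support_cons]
                exact List.mem_cons_of_mem _ q.start_mem_support)) hadj
        refine key _ _ p hA (fun z hz => ?_) y hy
        rw [Finset.mem_union, List.mem_toFinset, List.mem_map]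
        exact Or.inr ⟨z, hz, rfl⟩

theorem gf_core_one {r : ℕ} {h : ℝ} {D0 : ℕ} (H : Hyp Δ r h D0) {o : V} {R : ℕ} {C : Set V}
    (hC : Cone Δ o R C) : ∃ Λ : Finset V, gf_IsCore Δ C Λ := by
  obtain ⟨b, _, _, hb⟩ := exists_bound H
  obtain ⟨hiBf, hoBf, _, _, hiBne, _, _⟩ := hb o R C hC.comp
  obtain ⟨v0, hv0⟩ := hiBne
  have hv0C : v0 ∈ C := hv0.1
  have hconn := hC.comp.conn
  obtain ⟨Λ0, h1, h2, h3, h4⟩ := gf_paths Δ hconn hv0C (fs (iB Δ C)) (by
    intro x hx
    rw [Finset.mem_coe, mem_fs hiBf] at hx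
    exact hx.1)
  -- the finite set `K0`
  set K0 : Set V := oB Δ C ∪ ↑Λ0 with hK0
  have hK0f : K0.Finite := hoBf.union Λ0.finite_toSet
  have h𝓕 : {X : Set V | IsComp Δ K0 X ∧ X ⊆ C ∧ X.Finite}.Finite :=
    (comp_finite_number H hK0f).subset (fun X hX => hX.1)
  have hUf : (⋃₀ {X : Set V | IsComp Δ K0 X ∧ X ⊆ C ∧ X.Finite}).Finite :=
    Set.Finite.sUnion h𝓕 (fun X hX => hX.2.2)
  refine ⟨Λ0 ∪ hUf.toFinset, ?_, ?_, ?_, ?_⟩
  · intro x hx
    rw [Finset.mem_coe, Finset.mem_union, Set.Finite.mem_toFinset, Set.mem_sUnion] at hx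
    rcases hx with hx | ⟨X, hX, hx⟩
    · exact h1 hx
    · exact hX.2.1 hx
  · intro x hx
    rw [Finset.mem_coe, Finset.mem_union]
    left
    apply h2
    rw [mem_fs hiBf]
    exact hx
  · intro X hX hne
    rw [gf_bdY_pos]
    obtain ⟨v, hv⟩ := hne
    have hvX := hX hv
    have hvC : v ∈ C := hvX.1
    have hvL : v ∉ Λ0 := fun hc => hvX.2 (by
      rw [Finset.mem_coe, Finset.mem_union]
      exact Or.inl hc)
    have hvK0 : v ∉ K0 := by
      rintro (hc | hc)
      · exact hc.1 hvC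
      · exact hvL hc
    obtain ⟨Y, hY, hvY⟩ := exists_comp H hvK0
    have hYC : Y ⊆ C := by
      refine gf_closed Δ hY.conn hvY hvC ?_
      intro a haC haY y hyY hadj
      by_contra hyC
      exact Set.disjoint_left.1 hY.disj hyY (Or.inl ⟨hyC, a, haC, hadj⟩)
    have hYinf : ¬ Y.Finite := by
      intro hYf
      apply hvX.2
      rw [Finset.mem_coe, Finset.mem_union, Set.Finite.mem_toFinset]
      exact Or.inr ⟨Y, ⟨hY, hYC, hYf⟩, hvY⟩
    by_contra hcon
    push Not at hcon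
    apply hYinf
    refine X.finite_toSet.subset (gf_closed Δ hY.conn hvY hv ?_)
    intro a haX haY y hyY hadj
    by_contra hyX
    refine hcon a haX y hadj hyX ⟨hYC hyY, ?_⟩
    rw [Finset.mem_coe, Finset.mem_union, Set.Finite.mem_toFinset, Set.mem_sUnion]
    rintro (hc | ⟨Z, hZ, hyZ⟩)
    · exact Set.disjoint_left.1 hY.disj hyY (Or.inr hc)
    · rcases comp_eq_or_disj H hY hZ.1 with he | hd
      · exact hYinf (he ▸ hZ.2.2)
      · exact Set.disjoint_left.1 hd hyY hyZ
  · -- connectedness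
    set Λ := Λ0 ∪ hUf.toFinset with hΛ
    have main : ∀ A : Set V, v0 ∈ A →
        (∀ a ∈ A, a ∈ Λ → ∀ y ∈ Λ, Δ.Adj a y → y ∈ A) → ↑Λ ⊆ A := by
      intro A hA hcl
      have hΛ0A : ↑Λ0 ⊆ A := h4 A hA (fun a ha haL z hz hadj =>
        hcl a ha (Finset.mem_union_left _ haL) z (Finset.mem_union_left _ hz) hadj)
      intro x hx
      rw [Finset.mem_coe, hΛ, Finset.mem_union, Set.Finite.mem_toFinset, Set.mem_sUnion] at hx
      rcases hx with hx | ⟨Z, hZ, hxZ⟩
      · exact hΛ0A hx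
      · have hZΛ : ∀ z ∈ Z, z ∈ Λ := by
          intro z hz
          rw [hΛ, Finset.mem_union, Set.Finite.mem_toFinset]
          exact Or.inr ⟨Z, hZ, hz⟩
        -- `Z` is adjacent to `Λ0`
        have hadj : ∃ z ∈ Z, ∃ y ∈ Λ0, Δ.Adj z y := by
          by_contra hcon
          push Not at hcon
          apply hC.inf
          refine hZ.2.2.subset (gf_closed Δ hconn (hZ.2.1 hxZ) hxZ ?_)
          intro a haZ haC y hyC hay
          by_contra hyZ
          rcases hZ.1.closed a haZ y hay hyZ with hc | hc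
          · exact hc.1 hyC
          · exact hcon a haZ y hc hay
        obtain ⟨z, hz, y, hy, hzy⟩ := hadj
        have hzA : z ∈ A := hcl y (hΛ0A hy) (Finset.mem_union_left _ hy) z (hZΛ z hz) hzy.symm
        exact gf_closed Δ hZ.1.conn hz hzA
          (fun a ha haZ y hyZ hay => hcl a ha (hZΛ a haZ) y (hZΛ y hyZ) hay) hxZ
    have hv0Λ : v0 ∈ Λ := Finset.mem_union_left _ h3
    intro W hW hne hW2
    by_contra hcon
    push Not at hcon
    have hno : ∀ v ∈ W, ∀ w ∈ Λ, w ∉ W → ¬ Δ.Adj v w := by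
      intro v hv w hw hwW hadj
      have h5 := hcon v hv
      have h6 : 1 ≤ nb Δ v (Λ \ W) := by
        rw [gf_nb_pos]
        exact ⟨w, Finset.mem_sdiff.2 ⟨hw, hwW⟩, hadj⟩
      omega
    by_cases hv0W : v0 ∈ W
    · apply hW2
      apply Finset.Subset.antisymm hW
      intro x hx
      refine main ↑W hv0W ?_ hx
      intro a haW _ y hyΛ hay
      by_contra hyW
      exact hno a haW y hyΛ hyW hay
    · obtain ⟨w, hw⟩ := hne
      have := main {x | x ∉ W} hv0W (by
        intro a haW haΛ y hyΛ hay hyW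
        exact hno y hyW a haΛ haW hay.symm) (hW hw)
      exact this hw

theorem exists_core {r : ℕ} {h : ℝ} {D0 : ℕ} (H : Hyp Δ r h D0) :
    ∃ N1 : ℕ, ∀ o R C, Cone Δ o R C → ∃ Λ : Finset V, ↑Λ ⊆ C ∧ iB Δ C ⊆ ↑Λ ∧ Λ.card ≤ N1 ∧
      Free Δ (C \ ↑Λ) ∧ ∀ W ⊆ Λ, W.Nonempty → W ≠ Λ → ∃ v ∈ W, 1 ≤ nb Δ v (Λ \ W) := by
  obtain ⟨𝓣, hfin, hT⟩ := cone_types Δ H
  choose! core hcore using fun (C : Set V) (hC : ∃ o R, Cone Δ o R C) =>
    (gf_core_one Δ H hC.choose_spec.choose_spec)
  refine ⟨hfin.toFinset.sup (fun C => (core C).card), fun o R C hC => ?_⟩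
  obtain ⟨C', hC', φ, rfl, o', R', hcone⟩ := hT o R C hC
  have h1 := gf_transport Δ φ (hcore C' ⟨o', R', hcone⟩)
  refine ⟨(core C').image φ, h1.sub, h1.ib, ?_, h1.free, h1.conn⟩
  refine Finset.card_image_le.trans ?_
  exact Finset.le_sup (f := fun C => (core C).card) (hfin.mem_toFinset.2 hC')

end Pool.Agent.Sand
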