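import Pool.Agent.SandFin.Basic

/-! Task SPE-A : Cheeger inequality with free boundary. -/

set_option autoImplicit false
open scoped Classical

namespace Pool.Agent.Sand

variable {V : Type} (Δ : SimpleGraph V) [Δ.LocallyFinite]

namespace SPEA

/-- number of neighbours in `Y \ S` -/
noncomputable def cY (Y : Set V) (S : Finset V) (x : V) : ℕ :=
  ((Δ.neighborFinset x \ S).filter (· ∈ Y)).card

theorem degY_eq {Y : Set V} {S : Finset V} (hS : ↑S ⊆ Y) (x : V) :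
    degY Δ Y x = (Δ.neighborFinset x ∩ S).card + cY Δ Y S x := by
  unfold degY cY
  rw [← Finset.card_union_of_disjoint]
  · congr 1
    ext w
    simp only [Finset.mem_filter, Finset.mem_union, Finset.mem_inter, Finset.mem_sdiff]
    constructor
    · rintro ⟨h1, h2⟩
      by_cases hw : w ∈ S
      · exact Or.inl ⟨h1, hw⟩
      · exact Or.inr ⟨⟨h1, hw⟩, h2⟩
    · rintro (⟨h1, h2⟩ | ⟨⟨h1, h2⟩, h3⟩)
      · exact ⟨h1, hS h2⟩
      · exact ⟨h1, h3⟩
  · rw [Finset.disjoint_left]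
    intro w hw hw'
    simp only [Finset.mem_filter, Finset.mem_inter, Finset.mem_sdiff] at hw hw'
    exact hw'.1.2 hw.2

theorem swap (S : Finset V) (φ : V → V → ℝ) :
    ∑ x ∈ S, ∑ w ∈ Δ.neighborFinset x ∩ S, φ x w = ∑ x ∈ S, ∑ w ∈ Δ.neighborFinset x ∩ S, φ w x := by
  apply Finset.sum_comm'
  intro x y
  simp only [Finset.mem_inter, SimpleGraph.mem_neighborFinset]
  constructor
  · rintro ⟨h1, h2, h3⟩
    exact ⟨⟨h2.symm, h1⟩, h3⟩
  · rintro ⟨⟨h1, h2⟩, h3⟩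
    exact ⟨h2, h1.symm, h3⟩

theorem cY_erase {Y : Set V} {S : Finset V} {x0 x : V} (h0 : x0 ∈ S) (hY : x0 ∈ Y) :
    cY Δ Y (S.erase x0) x = cY Δ Y S x + (if x0 ∈ Δ.neighborFinset x then 1 else 0) := by
  unfold cY
  by_cases h : x0 ∈ Δ.neighborFinset x
  · rw [if_pos h]
    have : (Δ.neighborFinset x \ S.erase x0).filter (· ∈ Y) =
        insert x0 ((Δ.neighborFinset x \ S).filter (· ∈ Y)) := by
      ext w
      simp only [Finset.mem_filter, Finset.mem_sdiff, Finset.mem_erase, Finset.mem_insert]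
      by_cases hw : w = x0
      · subst hw; simp [h, hY]
      · simp [hw]
    rw [this, Finset.card_insert_of_notMem]
    simp [h0]
  · rw [if_neg h, add_zero]
    congr 1
    ext w
    simp only [Finset.mem_filter, Finset.mem_sdiff, Finset.mem_erase]
    constructor
    · rintro ⟨⟨h1, h2⟩, h3⟩
      refine ⟨⟨h1, fun h4 => h2 ⟨?_, h4⟩⟩, h3⟩
      rintro rfl
      exact h h1
    · rintro ⟨⟨h1, h2⟩, h3⟩
      exact ⟨⟨h1, fun h4 => h2 h4.2⟩, h3⟩

/-- coarea inequality -/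
theorem coarea (Y : Set V) (h' : ℝ)
    (hY : ∀ X : Finset V, ↑X ⊆ Y → h' * (X.card : ℝ) ≤ (bdY Δ Y X : ℝ)) :
    ∀ (n : ℕ) (S : Finset V), S.card = n → ↑S ⊆ Y → ∀ g : V → ℝ, (∀ x ∈ S, 0 ≤ g x) →
    h' * ∑ x ∈ S, g x ≤ ∑ x ∈ S, ∑ w ∈ Δ.neighborFinset x ∩ S, max (g x - g w) 0 +
      ∑ x ∈ S, (cY Δ Y S x : ℝ) * g x := by
  intro n
  induction n with
  | zero =>
    intro S hc _ g _
    rw [Finset.card_eq_zero] at hc
    subst hc
    simp
  | succ n ih =>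
    intro S hc hSY g hg
    have hne : S.Nonempty := by
      rw [← Finset.card_pos]; omega
    obtain ⟨x0, hx0, hmin⟩ := Finset.exists_min_image S g hne
    have hc' : (S.erase x0).card = n := by rw [Finset.card_erase_of_mem hx0]; omega
    have hsub : (↑(S.erase x0) : Set V) ⊆ Y := by
      intro x hx
      exact hSY (Finset.mem_of_mem_erase hx)
    have hI := ih (S.erase x0) hc' hsub (fun x => g x - g x0) (fun x hx =>
      sub_nonneg.2 (hmin x (Finset.mem_of_mem_erase hx)))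
    have hb := hY S hSY
    have hm : 0 ≤ g x0 := hg x0 hx0
    -- the edges
    have e1 : ∀ x ∈ S.erase x0, ∑ w ∈ Δ.neighborFinset x ∩ S, max (g x - g w) 0 =
        ∑ w ∈ Δ.neighborFinset x ∩ S.erase x0, max ((g x - g x0) - (g w - g x0)) 0 +
        (if x0 ∈ Δ.neighborFinset x then 1 else 0) * (g x - g x0) := by
      intro x hx
      have hxx := hmin x (Finset.mem_of_mem_erase hx)
      have e2 : ∀ w, max ((g x - g x0) - (g w - g x0)) 0 = max (g x - g w) 0 := by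
        intro w; congr 1; ring
      simp only [e2]
      by_cases h : x0 ∈ Δ.neighborFinset x
      · rw [if_pos h, one_mul]
        have : Δ.neighborFinset x ∩ S = insert x0 (Δ.neighborFinset x ∩ S.erase x0) := by
          ext w
          simp only [Finset.mem_inter, Finset.mem_erase, Finset.mem_insert]
          by_cases hw : w = x0
          · subst hw; simp [h, hx0]
          · simp [hw]
        rw [this, Finset.sum_insert (by simp), max_eq_left (by linarith)]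
        ring
      · rw [if_neg h, zero_mul, add_zero]
        apply Finset.sum_congr _ (fun _ _ => rfl)
        ext w
        simp only [Finset.mem_inter, Finset.mem_erase]
        constructor
        · rintro ⟨h1, h2⟩
          refine ⟨h1, ?_, h2⟩
          rintro rfl
          exact h h1
        · rintro ⟨h1, _, h2⟩
          exact ⟨h1, h2⟩
    have e3 : ∑ w ∈ Δ.neighborFinset x0 ∩ S, max (g x0 - g w) 0 = 0 := by
      apply Finset.sum_eq_zero
      intro w hw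
      exact max_eq_right (sub_nonpos.2 (hmin w (Finset.mem_inter.1 hw).2))
    have e4 : ∀ x, (cY Δ Y (S.erase x0) x : ℝ) * (g x - g x0) = (cY Δ Y S x : ℝ) * (g x - g x0) +
        (if x0 ∈ Δ.neighborFinset x then 1 else 0) * (g x - g x0) := by
      intro x
      rw [cY_erase Δ hx0 (hSY hx0)]
      push_cast
      ring
    have s1 : ∑ x ∈ S, ∑ w ∈ Δ.neighborFinset x ∩ S, max (g x - g w) 0 =
        ∑ x ∈ S.erase x0, ∑ w ∈ Δ.neighborFinset x ∩ S.erase x0,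
          max ((g x - g x0) - (g w - g x0)) 0 +
        ∑ x ∈ S.erase x0, (if x0 ∈ Δ.neighborFinset x then 1 else 0) * (g x - g x0) := by
      rw [← Finset.add_sum_erase S _ hx0, e3, zero_add, ← Finset.sum_add_distrib]
      exact Finset.sum_congr rfl e1
    have s2 : ∑ x ∈ S.erase x0, (cY Δ Y (S.erase x0) x : ℝ) * (g x - g x0) =
        ∑ x ∈ S, (cY Δ Y S x : ℝ) * (g x - g x0) +
        ∑ x ∈ S.erase x0, (if x0 ∈ Δ.neighborFinset x then 1 else 0) * (g x - g x0) := by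
      rw [← Finset.add_sum_erase S (fun x => (cY Δ Y S x : ℝ) * (g x - g x0)) hx0, sub_self,
        mul_zero, zero_add, ← Finset.sum_add_distrib]
      exact Finset.sum_congr rfl fun x _ => e4 x
    have s3 : ∑ x ∈ S, (cY Δ Y S x : ℝ) * g x =
        ∑ x ∈ S, (cY Δ Y S x : ℝ) * (g x - g x0) + g x0 * (bdY Δ Y S : ℝ) := by
      have : (bdY Δ Y S : ℝ) = ∑ x ∈ S, (cY Δ Y S x : ℝ) := by
        unfold bdY cY
        push_cast
        rfl
      rw [this, Finset.mul_sum, ← Finset.sum_add_distrib]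
      exact Finset.sum_congr rfl fun x _ => by ring
    have s4 : ∑ x ∈ S, g x = ∑ x ∈ S.erase x0, (g x - g x0) + g x0 * (S.card : ℝ) := by
      have h1 : ∑ x ∈ S, g x = ∑ x ∈ S, (g x - g x0) + g x0 * (S.card : ℝ) := by
        rw [Finset.sum_sub_distrib, Finset.sum_const, nsmul_eq_mul]; ring
      rw [h1, ← Finset.add_sum_erase S (fun x => g x - g x0) hx0, sub_self, zero_add]
    rw [s1, s3, s4]
    rw [s2] at hI
    have := mul_le_mul_of_nonneg_left hb hm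
    nlinarith

end SPEA

open SPEA

theorem cheeger (r : ℕ) (hreg : ∀ v, Δ.degree v = r) (Y : Set V) (h' : ℝ) (h0 : 0 ≤ h')
    (hY : ∀ X : Finset V, ↑X ⊆ Y → h' * (X.card : ℝ) ≤ (bdY Δ Y X : ℝ))
    (S : Finset V) (hS : ↑S ⊆ Y) (f : V → ℝ) :
    (h' ^ 2 / (2 * r)) * ∑ x ∈ S, f x ^ 2 ≤
      ∑ x ∈ S, (degY Δ Y x : ℝ) * f x ^ 2 - ∑ x ∈ S, ∑ w ∈ Δ.neighborFinset x ∩ S, f x * f w := by
  -- the energy
  have hdeg : ∑ x ∈ S, (degY Δ Y x : ℝ) * f x ^ 2 =
      ∑ x ∈ S, ∑ w ∈ Δ.neighborFinset x ∩ S, f x ^ 2 + ∑ x ∈ S, (cY Δ Y S x : ℝ) * f x ^ 2 := by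
    rw [← Finset.sum_add_distrib]
    refine Finset.sum_congr rfl fun x _ => ?_
    rw [degY_eq Δ hS, Finset.sum_const, nsmul_eq_mul]
    push_cast
    ring
  have hsw : ∑ x ∈ S, ∑ w ∈ Δ.neighborFinset x ∩ S, f x ^ 2 =
      ∑ x ∈ S, ∑ w ∈ Δ.neighborFinset x ∩ S, f w ^ 2 := swap Δ S fun x _ => f x ^ 2
  set E := ∑ x ∈ S, (degY Δ Y x : ℝ) * f x ^ 2 - ∑ x ∈ S, ∑ w ∈ Δ.neighborFinset x ∩ S, f x * f w
    with hE
  have hE2 : 2 * E = ∑ x ∈ S, ∑ w ∈ Δ.neighborFinset x ∩ S, (f x - f w) ^ 2 +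
      2 * ∑ x ∈ S, (cY Δ Y S x : ℝ) * f x ^ 2 := by
    have : ∑ x ∈ S, ∑ w ∈ Δ.neighborFinset x ∩ S, (f x - f w) ^ 2 =
        ∑ x ∈ S, ∑ w ∈ Δ.neighborFinset x ∩ S, f x ^ 2 +
        ∑ x ∈ S, ∑ w ∈ Δ.neighborFinset x ∩ S, f w ^ 2 -
        2 * ∑ x ∈ S, ∑ w ∈ Δ.neighborFinset x ∩ S, f x * f w := by
      rw [Finset.mul_sum, ← Finset.sum_add_distrib, ← Finset.sum_sub_distrib]
      refine Finset.sum_congr rfl fun x _ => ?_
      rw [Finset.mul_sum, ← Finset.sum_add_distrib, ← Finset.sum_sub_distrib]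
      exact Finset.sum_congr rfl fun w _ => by ring
    rw [this, ← hsw, hE, hdeg]
    ring
  have hc0 : 0 ≤ ∑ x ∈ S, (cY Δ Y S x : ℝ) * f x ^ 2 :=
    Finset.sum_nonneg fun x _ => mul_nonneg (Nat.cast_nonneg _) (sq_nonneg _)
  have hE0 : 0 ≤ E := by
    have : 0 ≤ ∑ x ∈ S, ∑ w ∈ Δ.neighborFinset x ∩ S, (f x - f w) ^ 2 :=
      Finset.sum_nonneg fun x _ => Finset.sum_nonneg fun w _ => sq_nonneg _
    linarith
  rcases eq_or_lt_of_le h0 with h0 | h0
  · rw [← h0]; simpa using hE0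
  rcases Nat.eq_zero_or_pos r with hr | hr
  · rw [hr]; simpa using hE0
  have hr' : (0 : ℝ) < r := by exact_mod_cast hr
  -- coarea for f ^ 2
  have hco := coarea Δ Y h' hY S.card S rfl hS (fun x => f x ^ 2) fun x _ => sq_nonneg _
  have hsym : 2 * ∑ x ∈ S, ∑ w ∈ Δ.neighborFinset x ∩ S, max (f x ^ 2 - f w ^ 2) 0 =
      ∑ x ∈ S, ∑ w ∈ Δ.neighborFinset x ∩ S, |f x ^ 2 - f w ^ 2| := by
    have h1 := swap Δ S fun x w => max (f x ^ 2 - f w ^ 2) 0
    have h2 : ∑ x ∈ S, ∑ w ∈ Δ.neighborFinset x ∩ S, |f x ^ 2 - f w ^ 2| =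
        ∑ x ∈ S, ∑ w ∈ Δ.neighborFinset x ∩ S, max (f x ^ 2 - f w ^ 2) 0 +
        ∑ x ∈ S, ∑ w ∈ Δ.neighborFinset x ∩ S, max (f w ^ 2 - f x ^ 2) 0 := by
      rw [← Finset.sum_add_distrib]
      refine Finset.sum_congr rfl fun x _ => ?_
      rw [← Finset.sum_add_distrib]
      refine Finset.sum_congr rfl fun w _ => ?_
      rcases le_total (f x ^ 2) (f w ^ 2) with h | h
      · rw [abs_of_nonpos (by linarith), max_eq_right (by linarith), max_eq_left (by linarith)]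
        ring
      · rw [abs_of_nonneg (by linarith), max_eq_left (by linarith), max_eq_right (by linarith)]
        ring
    rw [h2, ← h1]
    ring
  -- weighted inequality between the means
  have hpt : ∀ x w : V, h' * |f x ^ 2 - f w ^ 2| ≤
      r * (f x - f w) ^ 2 + h' ^ 2 / (4 * r) * (2 * f x ^ 2 + 2 * f w ^ 2 - (f x - f w) ^ 2) := by
    intro x w
    have e1 : |f x ^ 2 - f w ^ 2| = |f x - f w| * |f x + f w| := by
      rw [← abs_mul]; congr 1; ring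
    have e2 : 2 * f x ^ 2 + 2 * f w ^ 2 - (f x - f w) ^ 2 = |f x + f w| ^ 2 := by
      rw [sq_abs]; ring
    have e3 : (f x - f w) ^ 2 = |f x - f w| ^ 2 := (sq_abs _).symm
    rw [e1, e2, e3]
    have h3 : 0 ≤ (2 * r * |f x - f w| - h' * |f x + f w|) ^ 2 := sq_nonneg _
    rw [div_mul_eq_mul_div, ← sub_nonneg]
    have h4 : (r : ℝ) * |f x - f w| ^ 2 + h' ^ 2 * |f x + f w| ^ 2 / (4 * r) -
        h' * (|f x - f w| * |f x + f w|) =
        (2 * r * |f x - f w| - h' * |f x + f w|) ^ 2 / (4 * r) := by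
      field_simp
      ring
    rw [h4]
    positivity
  have hsum : h' * ∑ x ∈ S, ∑ w ∈ Δ.neighborFinset x ∩ S, |f x ^ 2 - f w ^ 2| ≤
      r * ∑ x ∈ S, ∑ w ∈ Δ.neighborFinset x ∩ S, (f x - f w) ^ 2 + h' ^ 2 / (4 * r) *
        (4 * ∑ x ∈ S, ∑ w ∈ Δ.neighborFinset x ∩ S, f x ^ 2) := by
    have h1 : ∑ x ∈ S, ∑ w ∈ Δ.neighborFinset x ∩ S, (r * (f x - f w) ^ 2 + h' ^ 2 / (4 * r) *
        (2 * f x ^ 2 + 2 * f w ^ 2)) =
        r * ∑ x ∈ S, ∑ w ∈ Δ.neighborFinset x ∩ S, (f x - f w) ^ 2 + h' ^ 2 / (4 * r) *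
        (4 * ∑ x ∈ S, ∑ w ∈ Δ.neighborFinset x ∩ S, f x ^ 2) := by
      have h2 : 4 * ∑ x ∈ S, ∑ w ∈ Δ.neighborFinset x ∩ S, f x ^ 2 =
          2 * ∑ x ∈ S, ∑ w ∈ Δ.neighborFinset x ∩ S, f x ^ 2 +
          2 * ∑ x ∈ S, ∑ w ∈ Δ.neighborFinset x ∩ S, f w ^ 2 := by rw [← hsw]; ring
      rw [h2]
      simp only [Finset.mul_sum, ← Finset.sum_add_distrib, mul_add]
    rw [← h1, Finset.mul_sum]
    refine Finset.sum_le_sum fun x _ => ?_
    rw [Finset.mul_sum]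
    refine Finset.sum_le_sum fun w _ => ?_
    refine (hpt x w).trans ?_
    have : 0 ≤ h' ^ 2 / (4 * r) := by positivity
    nlinarith [sq_nonneg (f x - f w)]
  -- degrees
  have hdr : ∑ x ∈ S, ∑ w ∈ Δ.neighborFinset x ∩ S, f x ^ 2 +
      ∑ x ∈ S, (cY Δ Y S x : ℝ) * f x ^ 2 ≤ r * ∑ x ∈ S, f x ^ 2 := by
    rw [← hdeg, Finset.mul_sum]
    refine Finset.sum_le_sum fun x _ => ?_
    refine mul_le_mul_of_nonneg_right ?_ (sq_nonneg _)
    have : degY Δ Y x ≤ r := by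
      rw [← hreg x]
      exact Finset.card_filter_le _ _
    exact_mod_cast this
  have hcp : h' * ∑ x ∈ S, (cY Δ Y S x : ℝ) * f x ^ 2 ≤
      (r + h' ^ 2 / (4 * r)) * ∑ x ∈ S, (cY Δ Y S x : ℝ) * f x ^ 2 := by
    refine mul_le_mul_of_nonneg_right ?_ hc0
    rw [← sub_nonneg]
    have : (r : ℝ) + h' ^ 2 / (4 * r) - h' = (2 * r - h') ^ 2 / (4 * r) := by
      field_simp
      ring
    rw [this]
    positivity
  set A := ∑ x ∈ S, ∑ w ∈ Δ.neighborFinset x ∩ S, f x ^ 2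
  set C := ∑ x ∈ S, (cY Δ Y S x : ℝ) * f x ^ 2
  set F := ∑ x ∈ S, f x ^ 2
  set Q := ∑ x ∈ S, ∑ w ∈ Δ.neighborFinset x ∩ S, (f x - f w) ^ 2
  have hk : 0 ≤ h' ^ 2 / (4 * r) := by positivity
  -- h' * (coarea)
  have f1 : h' * (h' * F) ≤ (1 / 2) * (r * Q + h' ^ 2 / (4 * r) * (4 * A)) +
      (r + h' ^ 2 / (4 * r)) * C := by
    have g1 := mul_le_mul_of_nonneg_left hco h0.le
    rw [mul_add] at g1
    have g2 : h' * ∑ x ∈ S, ∑ w ∈ Δ.neighborFinset x ∩ S, max (f x ^ 2 - f w ^ 2) 0 ≤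
        (1 / 2) * (r * Q + h' ^ 2 / (4 * r) * (4 * A)) := by
      have : h' * (2 * ∑ x ∈ S, ∑ w ∈ Δ.neighborFinset x ∩ S, max (f x ^ 2 - f w ^ 2) 0) ≤
          r * Q + h' ^ 2 / (4 * r) * (4 * A) := by rw [hsym]; exact hsum
      linarith
    linarith
  have f2 : h' ^ 2 / (4 * r) * (2 * (A + C)) ≤ h' ^ 2 / (4 * r) * (2 * (r * F)) := by
    refine mul_le_mul_of_nonneg_left ?_ hk
    linarith
  have f3 : h' ^ 2 / (4 * r) * (2 * (r * F)) = h' ^ 2 / 2 * F := by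
    field_simp
    ring
  have f4 : 0 ≤ h' ^ 2 / (4 * r) * C := mul_nonneg hk hc0
  have f5 : h' ^ 2 / 2 * F ≤ r * E := by nlinarith
  have f6 : h' ^ 2 / (2 * r) * F = (h' ^ 2 / 2 * F) / r := by
    field_simp
  rw [f6, div_le_iff₀ hr']
  linarith

end Pool.Agent.Sand
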