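import Pool.Agent.SandFin.SPEA

/-! MP_4555f0_mp, SPE-B1: heat kernel of the killed walk. -/

set_option autoImplicit false
set_option linter.unusedSectionVars false
open scoped Classical

namespace Pool.Agent.Sand

variable {V : Type} (Δ : SimpleGraph V) [Δ.LocallyFinite]

section B
variable {Δ} {r : ℕ} {h : ℝ} {D0 : ℕ} (H : Hyp Δ r h D0)
include H

theorem b1_rpos : (0 : ℝ) < r := by
  have := H.inf
  obtain ⟨o⟩ : Nonempty V := inferInstance
  have h1 := H.iso {o}
  have h2 : bdE Δ {o} ≤ r := by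
    unfold bdE
    rw [Finset.sum_singleton, ← H.reg o]
    exact Finset.card_le_card Finset.sdiff_subset
  have h3 : (bdE Δ {o} : ℝ) ≤ r := by exact_mod_cast h2
  have h4 := H.hpos
  simp only [Finset.card_singleton, Nat.cast_one, mul_one] at h1
  linarith

theorem b1_card (x : V) : ((Δ.neighborFinset x).card : ℝ) = r := by
  rw [Δ.card_neighborFinset_eq_degree, H.reg x]

theorem b1_cb_finite (o : V) (R : ℕ) : (cb Δ o R).Finite := by
  induction R with
  | zero =>
    have : cb Δ o 0 ⊆ {o} := by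
      intro v hv
      have h1 : Δ.dist o v = 0 := Nat.le_zero.mp hv
      rw [H.conn.dist_eq_zero_iff] at h1
      exact h1.symm
    exact (Set.finite_singleton o).subset this
  | succ R ih =>
    have hsub : cb Δ o (R + 1) ⊆ cb Δ o R ∪ ⋃ z ∈ cb Δ o R, (↑(Δ.neighborFinset z) : Set V) := by
      intro v hv
      by_cases hle : Δ.dist o v ≤ R
      · exact Or.inl hle
      · right
        have hv' : Δ.dist o v ≤ R + 1 := hv
        obtain ⟨p, hp⟩ := H.conn.exists_walk_length_eq_dist v o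
        cases p with
        | nil =>
          exfalso
          apply hle
          rw [SimpleGraph.dist_self]
          exact Nat.zero_le _
        | cons hadj q =>
          rename_i w
          have hq : Δ.dist w o ≤ q.length := SimpleGraph.dist_le q
          have h1 : q.length + 1 = Δ.dist v o := by
            rw [← hp, SimpleGraph.Walk.length_cons]
          rw [SimpleGraph.dist_comm] at h1
          have h2 : Δ.dist o w ≤ R := by
            rw [SimpleGraph.dist_comm]
            omega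
          refine Set.mem_biUnion (show w ∈ cb Δ o R from h2) ?_
          rw [Finset.mem_coe, SimpleGraph.mem_neighborFinset]
          exact hadj.symm
    refine Set.Finite.subset (ih.union (ih.biUnion (fun z _ => ?_))) hsub
    exact (Δ.neighborFinset z).finite_toSet

theorem b1_mem {o v : V} {R : ℕ} : v ∈ fs (cb Δ o R) ↔ Δ.dist o v ≤ R :=
  mem_fs (b1_cb_finite H o R)

/-- triangle inequality through a neighbour -/
theorem b1_dist_nb {x w y : V} (hw : w ∈ Δ.neighborFinset x) : Δ.dist x y ≤ Δ.dist w y + 1 := by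
  have hadj : Δ.Adj x w := by rwa [SimpleGraph.mem_neighborFinset] at hw
  have h1 : Δ.dist x y ≤ Δ.dist x w + Δ.dist w y := H.conn.dist_triangle
  have h2 : Δ.dist x w = 1 := SimpleGraph.dist_eq_one_iff_adj.mpr hadj
  omega

theorem b1_cb_sub {x w : V} (hw : w ∈ Δ.neighborFinset x) (k : ℕ) :
    fs (cb Δ w k) ⊆ fs (cb Δ x (k + 1)) := by
  intro y hy
  rw [b1_mem H] at hy ⊢
  have := b1_dist_nb H (y := y) hw
  omega

theorem pk_nonneg (S : Set V) (k : ℕ) (x y : V) : 0 ≤ pk Δ r S k x y := by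
  induction k generalizing x with
  | zero =>
    unfold pk
    split_ifs <;> norm_num
  | succ k ih =>
    unfold pk
    split_ifs
    · exact mul_nonneg (by positivity) (Finset.sum_nonneg (fun w _ => ih w))
    · exact le_rfl

theorem pk_mono {S S' : Set V} (hS : S ⊆ S') (k : ℕ) (x y : V) : pk Δ r S k x y ≤ pk Δ r S' k x y := by
  induction k generalizing x with
  | zero =>
    unfold pk
    by_cases h1 : x = y ∧ x ∈ S
    · rw [if_pos h1, if_pos ⟨h1.1, hS h1.2⟩]
    · rw [if_neg h1]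
      split_ifs <;> norm_num
  | succ k ih =>
    by_cases h1 : x ∈ S
    · unfold pk
      rw [if_pos h1, if_pos (hS h1)]
      exact mul_le_mul_of_nonneg_left (Finset.sum_le_sum (fun w _ => ih w)) (by positivity)
    · have h2 : pk Δ r S (k + 1) x y = 0 := by
        unfold pk
        rw [if_neg h1]
      rw [h2]
      exact pk_nonneg H S' (k + 1) x y

theorem pk_zero_of_dist (S : Set V) {k : ℕ} {x y : V} (hk : k < Δ.dist x y) : pk Δ r S k x y = 0 := by
  induction k generalizing x with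
  | zero =>
    unfold pk
    rw [if_neg]
    rintro ⟨h1, _⟩
    rw [h1, SimpleGraph.dist_self] at hk
    exact lt_irrefl _ hk
  | succ k ih =>
    unfold pk
    split_ifs
    · rw [Finset.sum_eq_zero, mul_zero]
      intro w hw
      apply ih
      have := b1_dist_nb H (y := y) hw
      omega
    · rfl

theorem pk_zero_of_not_mem (S : Set V) (k : ℕ) {x y : V} (hx : x ∉ S ∨ y ∉ S) :
    pk Δ r S k x y = 0 := by
  rcases hx with hx | hy
  · cases k with
    | zero => unfold pk; rw [if_neg]; exact fun h => hx h.2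
    | succ k => unfold pk; rw [if_neg hx]
  · induction k generalizing x with
    | zero => unfold pk; rw [if_neg]; rintro ⟨h1, h2⟩; rw [h1] at h2; exact hy h2
    | succ k ih =>
      unfold pk
      split_ifs
      · rw [Finset.sum_eq_zero, mul_zero]
        intro w _
        exact ih
      · rfl

theorem b1_pk_succ (S : Set V) (k : ℕ) {x : V} (hx : x ∈ S) (y : V) :
    pk Δ r S (k + 1) x y = (1 / (r : ℝ)) * ∑ w ∈ Δ.neighborFinset x, pk Δ r S k w y := by
  conv_lhs => unfold pk
  rw [if_pos hx]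

/-- enlarge the range of a sum against the heat kernel -/
theorem b1_sum_ext (S : Set V) (k : ℕ) (x : V) (g : V → ℝ) {F : Finset V}
    (hF : fs (cb Δ x k) ⊆ F) :
    ∑ z ∈ fs (cb Δ x k), pk Δ r S k x z * g z = ∑ z ∈ F, pk Δ r S k x z * g z := by
  apply Finset.sum_subset hF
  intro z _ hz
  rw [b1_mem H, not_le] at hz
  rw [pk_zero_of_dist H S hz, zero_mul]

/-- one step decomposition of sums against the heat kernel -/
theorem b1_sum_succ (S : Set V) (k : ℕ) {x : V} (hx : x ∈ S) (g : V → ℝ) :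
    ∑ z ∈ fs (cb Δ x (k + 1)), pk Δ r S (k + 1) x z * g z =
      (1 / (r : ℝ)) * ∑ w ∈ Δ.neighborFinset x, ∑ z ∈ fs (cb Δ w k), pk Δ r S k w z * g z := by
  have h1 : ∀ w ∈ Δ.neighborFinset x, ∑ z ∈ fs (cb Δ w k), pk Δ r S k w z * g z =
      ∑ z ∈ fs (cb Δ x (k + 1)), pk Δ r S k w z * g z :=
    fun w hw => b1_sum_ext H S k w g (b1_cb_sub H hw k)
  rw [Finset.sum_congr rfl h1, Finset.sum_comm, Finset.mul_sum]
  apply Finset.sum_congr rfl
  intro z _
  rw [b1_pk_succ H S k hx z, mul_assoc, Finset.sum_mul]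

theorem pk_add (S : Set V) (j k : ℕ) (x y : V) :
    pk Δ r S (j + k) x y = ∑ z ∈ fs (cb Δ x j), pk Δ r S j x z * pk Δ r S k z y := by
  induction j generalizing x with
  | zero =>
    rw [Nat.zero_add]
    have hx : x ∈ fs (cb Δ x 0) := by
      rw [b1_mem H, SimpleGraph.dist_self]
    rw [Finset.sum_eq_single_of_mem x hx]
    · by_cases hS : x ∈ S
      · have : pk Δ r S 0 x x = 1 := by
          unfold pk
          rw [if_pos ⟨rfl, hS⟩]
        rw [this, one_mul]
      · rw [pk_zero_of_not_mem H S k (Or.inl hS), mul_zero]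
    · intro z _ hz
      have : pk Δ r S 0 x z = 0 := by
        unfold pk
        rw [if_neg]
        exact fun h => hz h.1.symm
      rw [this, zero_mul]
  | succ j ih =>
    by_cases hS : x ∈ S
    · rw [b1_sum_succ H S j hS, Nat.add_right_comm, b1_pk_succ H S (j + k) hS]
      congr 1
      exact Finset.sum_congr rfl (fun w _ => ih w)
    · rw [pk_zero_of_not_mem H S _ (Or.inl hS)]
      symm
      apply Finset.sum_eq_zero
      intro z _
      rw [pk_zero_of_not_mem H S _ (Or.inl hS), zero_mul]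

/-- last step decomposition -/
theorem b1_pk_succ' (S : Set V) (k : ℕ) (x : V) {y : V} (hy : y ∈ S) :
    pk Δ r S (k + 1) x y = (1 / (r : ℝ)) * ∑ w ∈ Δ.neighborFinset y, pk Δ r S k x w := by
  rw [pk_add H S k 1 x y]
  have h1 : ∀ z, pk Δ r S k x z * pk Δ r S 1 z y =
      if z ∈ Δ.neighborFinset y then (1 / (r : ℝ)) * pk Δ r S k x z else 0 := by
    intro z
    by_cases hz : z ∈ S
    · have h0 : ∀ w, pk Δ r S 0 w y = if w = y then 1 else 0 := by
        intro w
        unfold pk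
        by_cases hw : w = y
        · rw [if_pos ⟨hw, hw ▸ hy⟩, if_pos hw]
        · rw [if_neg (fun h => hw h.1), if_neg hw]
      rw [show (1 : ℕ) = 0 + 1 from rfl, b1_pk_succ H S 0 hz y]
      simp only [h0]
      rw [Finset.sum_ite_eq' (Δ.neighborFinset z) y (fun _ => (1 : ℝ))]
      by_cases hzy : Δ.Adj z y
      · rw [if_pos (by rwa [SimpleGraph.mem_neighborFinset]),
          if_pos (by rw [SimpleGraph.mem_neighborFinset]; exact hzy.symm)]
        ring
      · rw [if_neg (by rwa [SimpleGraph.mem_neighborFinset]),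
          if_neg (by rw [SimpleGraph.mem_neighborFinset]; exact fun h => hzy h.symm)]
        ring
    · rw [pk_zero_of_not_mem H S k (Or.inr hz)]
      simp
  simp only [h1]
  rw [← Finset.sum_filter, Finset.mul_sum]
  apply Finset.sum_subset_zero_on_sdiff
  · intro z hz
    exact (Finset.mem_filter.mp hz).2
  · intro z hz
    rw [Finset.mem_sdiff, Finset.mem_filter, not_and'] at hz
    have h2 : z ∉ fs (cb Δ x k) := hz.2 hz.1
    rw [b1_mem H, not_le] at h2
    rw [pk_zero_of_dist H S h2, mul_zero]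
  · intro z _
    rfl

theorem pk_symm (S : Set V) (k : ℕ) (x y : V) : pk Δ r S k x y = pk Δ r S k y x := by
  induction k generalizing x y with
  | zero =>
    unfold pk
    by_cases h1 : x = y
    · rw [h1]
    · rw [if_neg (fun h => h1 h.1), if_neg (fun h => h1 h.1.symm)]
  | succ k ih =>
    by_cases hy : y ∈ S
    · rw [b1_pk_succ' H S k x hy, b1_pk_succ H S k hy x]
      congr 1
      exact Finset.sum_congr rfl (fun w _ => ih x w)
    · rw [pk_zero_of_not_mem H S _ (Or.inr hy), pk_zero_of_not_mem H S _ (Or.inl hy)]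

/-! #### exponential decay -/

/-- the quadratic form bound for a finite set -/
theorem b1_quad (S : Finset V) (f : V → ℝ) :
    ∑ x ∈ S, ∑ w ∈ Δ.neighborFinset x ∩ S, f x * f w ≤
      ((r : ℝ) - h ^ 2 / (2 * r)) * ∑ x ∈ S, f x ^ 2 := by
  have h1 := cheeger Δ r H.reg Set.univ h H.hpos.le (by
    intro X _
    have h2 : bdY Δ Set.univ X = bdE Δ X := by
      unfold bdY bdE
      simp
    rw [h2]
    exact H.iso X) S (Set.subset_univ _) f
  have h3 : ∑ x ∈ S, (degY Δ Set.univ x : ℝ) * f x ^ 2 = (r : ℝ) * ∑ x ∈ S, f x ^ 2 := by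
    rw [Finset.mul_sum]
    apply Finset.sum_congr rfl
    intro x _
    have : degY Δ Set.univ x = r := by
      unfold degY
      simp only [Set.mem_univ, Finset.filter_true]
      rw [Δ.card_neighborFinset_eq_degree, H.reg x]
    rw [this]
  rw [h3] at h1
  linarith

/-- the decay rate -/
theorem b1_exists_c : ∃ c : ℝ, 0 < c ∧ c < r ∧ ∀ (S : Finset V) (f : V → ℝ),
    ∑ x ∈ S, ∑ w ∈ Δ.neighborFinset x ∩ S, f x * f w ≤ c * ∑ x ∈ S, f x ^ 2 := by
  have hr := b1_rpos H
  have hh := H.hpos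
  refine ⟨max ((r : ℝ) - h ^ 2 / (2 * r)) (r / 2), ?_, ?_, ?_⟩
  · exact lt_max_of_lt_right (by linarith)
  · apply max_lt
    · have : 0 < h ^ 2 / (2 * r) := by positivity
      linarith
    · linarith
  · intro S f
    refine (b1_quad H S f).trans ?_
    exact mul_le_mul_of_nonneg_right (le_max_left _ _) (Finset.sum_nonneg (fun _ _ => sq_nonneg _))

omit H in
/-- symmetry of the adjacency form -/
theorem b1_form_symm (S : Finset V) (f g : V → ℝ) :
    ∑ x ∈ S, ∑ w ∈ Δ.neighborFinset x ∩ S, f x * g w =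
      ∑ x ∈ S, ∑ w ∈ Δ.neighborFinset x ∩ S, g x * f w := by
  have h1 : ∀ (f g : V → ℝ), ∑ x ∈ S, ∑ w ∈ Δ.neighborFinset x ∩ S, f x * g w =
      ∑ x ∈ S, ∑ w ∈ S, if Δ.Adj x w then f x * g w else 0 := by
    intro f g
    apply Finset.sum_congr rfl
    intro x _
    rw [← Finset.sum_filter]
    apply Finset.sum_congr _ (fun _ _ => rfl)
    ext w
    rw [Finset.mem_inter, Finset.mem_filter, SimpleGraph.mem_neighborFinset, and_comm]
  rw [h1, h1, Finset.sum_comm]
  apply Finset.sum_congr rfl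
  intro x _
  apply Finset.sum_congr rfl
  intro w _
  by_cases hxw : Δ.Adj x w
  · rw [if_pos hxw, if_pos hxw.symm, mul_comm]
  · rw [if_neg hxw, if_neg (fun h => hxw h.symm)]

omit H in
/-- a symmetric form bounded above by `c` on all vectors gives an operator norm bound -/
theorem b1_norm (S : Finset V) (c : ℝ) (hc : 0 < c)
    (hq : ∀ f : V → ℝ, ∑ x ∈ S, ∑ w ∈ Δ.neighborFinset x ∩ S, f x * f w ≤ c * ∑ x ∈ S, f x ^ 2)
    (g : V → ℝ) :
    ∑ x ∈ S, (∑ w ∈ Δ.neighborFinset x ∩ S, g w) ^ 2 ≤ c ^ 2 * ∑ x ∈ S, g x ^ 2 := by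
  -- lower bound of the form
  have hlow : ∀ f : V → ℝ, -(c * ∑ x ∈ S, f x ^ 2) ≤
      ∑ x ∈ S, ∑ w ∈ Δ.neighborFinset x ∩ S, f x * f w := by
    intro f
    have h1 := hq (fun x => |f x|)
    simp only [sq_abs] at h1
    have h2 : -(∑ x ∈ S, ∑ w ∈ Δ.neighborFinset x ∩ S, |f x| * |f w|) ≤
        ∑ x ∈ S, ∑ w ∈ Δ.neighborFinset x ∩ S, f x * f w := by
      rw [← Finset.sum_neg_distrib]
      apply Finset.sum_le_sum
      intro x _
      rw [← Finset.sum_neg_distrib]
      apply Finset.sum_le_sum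
      intro w _
      rw [← abs_mul]
      exact neg_abs_le _
    linarith
  -- polarisation
  have hpol : ∀ f g : V → ℝ, ∑ x ∈ S, ∑ w ∈ Δ.neighborFinset x ∩ S, f x * g w ≤
      c / 2 * (∑ x ∈ S, f x ^ 2 + ∑ x ∈ S, g x ^ 2) := by
    intro f g
    have h1 := hq (fun x => f x + g x)
    have h2 := hlow (fun x => f x - g x)
    have e1 : ∑ x ∈ S, ∑ w ∈ Δ.neighborFinset x ∩ S, (f x + g x) * (f w + g w) =
        ∑ x ∈ S, ∑ w ∈ Δ.neighborFinset x ∩ S, f x * f w +
        ∑ x ∈ S, ∑ w ∈ Δ.neighborFinset x ∩ S, g x * g w +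
        ∑ x ∈ S, ∑ w ∈ Δ.neighborFinset x ∩ S, f x * g w +
        ∑ x ∈ S, ∑ w ∈ Δ.neighborFinset x ∩ S, g x * f w := by
      simp only [← Finset.sum_add_distrib]
      refine Finset.sum_congr rfl (fun x _ => Finset.sum_congr rfl (fun w _ => ?_))
      ring
    have e2 : ∑ x ∈ S, ∑ w ∈ Δ.neighborFinset x ∩ S, (f x - g x) * (f w - g w) =
        ∑ x ∈ S, ∑ w ∈ Δ.neighborFinset x ∩ S, f x * f w +
        ∑ x ∈ S, ∑ w ∈ Δ.neighborFinset x ∩ S, g x * g w -
        ∑ x ∈ S, ∑ w ∈ Δ.neighborFinset x ∩ S, f x * g w -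
        ∑ x ∈ S, ∑ w ∈ Δ.neighborFinset x ∩ S, g x * f w := by
      simp only [← Finset.sum_add_distrib, ← Finset.sum_sub_distrib]
      refine Finset.sum_congr rfl (fun x _ => Finset.sum_congr rfl (fun w _ => ?_))
      ring
    have e3 : ∑ x ∈ S, (f x + g x) ^ 2 + ∑ x ∈ S, (f x - g x) ^ 2 =
        2 * (∑ x ∈ S, f x ^ 2 + ∑ x ∈ S, g x ^ 2) := by
      simp only [← Finset.sum_add_distrib, Finset.mul_sum]
      refine Finset.sum_congr rfl (fun x _ => ?_)
      ring
    have e4 := b1_form_symm (Δ := Δ) S f g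
    rw [e1] at h1
    rw [e2] at h2
    have e5 : c * ∑ x ∈ S, (f x + g x) ^ 2 + c * ∑ x ∈ S, (f x - g x) ^ 2 =
        2 * c * (∑ x ∈ S, f x ^ 2 + ∑ x ∈ S, g x ^ 2) := by
      rw [← mul_add, e3]; ring
    linarith
  have h1 := hpol (fun x => (∑ w ∈ Δ.neighborFinset x ∩ S, g w) / c) g
  have e1 : ∑ x ∈ S, ∑ w ∈ Δ.neighborFinset x ∩ S,
      (∑ w ∈ Δ.neighborFinset x ∩ S, g w) / c * g w =
      (∑ x ∈ S, (∑ w ∈ Δ.neighborFinset x ∩ S, g w) ^ 2) / c := by
    rw [Finset.sum_div]
    apply Finset.sum_congr rfl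
    intro x _
    rw [← Finset.mul_sum]
    ring
  have e2 : ∑ x ∈ S, ((∑ w ∈ Δ.neighborFinset x ∩ S, g w) / c) ^ 2 =
      (∑ x ∈ S, (∑ w ∈ Δ.neighborFinset x ∩ S, g w) ^ 2) / c ^ 2 := by
    rw [Finset.sum_div]
    apply Finset.sum_congr rfl
    intro x _
    rw [div_pow]
  rw [e1, e2] at h1
  set A := ∑ x ∈ S, (∑ w ∈ Δ.neighborFinset x ∩ S, g w) ^ 2
  set B := ∑ x ∈ S, g x ^ 2
  have h2 : A / c = A / (2 * c) + A / (2 * c) := by
    field_simp
    ring
  have h3 : c / 2 * (A / c ^ 2 + B) = A / (2 * c) + c * B / 2 := by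
    field_simp
  rw [h2, h3] at h1
  have h4 : A / (2 * c) ≤ c * B / 2 := by linarith
  rw [div_le_iff₀ (by positivity)] at h4
  nlinarith

/-- reduction to a finite set -/
theorem b1_pk_fin (S : Set V) (F : Finset V) (k : ℕ) (x y : V) (hF : fs (cb Δ x k) ⊆ F) :
    pk Δ r S k x y ≤ pk Δ r (S ∩ ↑F) k x y := by
  induction k generalizing x with
  | zero =>
    have hx : x ∈ F := hF (by rw [b1_mem H, SimpleGraph.dist_self])
    unfold pk
    by_cases h1 : x = y ∧ x ∈ S
    · rw [if_pos h1, if_pos ⟨h1.1, h1.2, hx⟩]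
    · rw [if_neg h1]
      split_ifs <;> norm_num
  | succ k ih =>
    by_cases hS : x ∈ S
    · have hx : x ∈ F := hF (by rw [b1_mem H, SimpleGraph.dist_self]; exact Nat.zero_le _)
      rw [b1_pk_succ H S k hS, b1_pk_succ H (S ∩ ↑F) k ⟨hS, hx⟩]
      apply mul_le_mul_of_nonneg_left _ (by positivity)
      apply Finset.sum_le_sum
      intro w hw
      exact ih w ((b1_cb_sub H hw k).trans hF)
    · rw [pk_zero_of_not_mem H S _ (Or.inl hS)]
      exact pk_nonneg H _ _ _ _

theorem b1_pk_sq (c : ℝ) (hc : 0 < c) (S : Finset V)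
    (hq : ∀ f : V → ℝ, ∑ x ∈ S, ∑ w ∈ Δ.neighborFinset x ∩ S, f x * f w ≤ c * ∑ x ∈ S, f x ^ 2)
    (k : ℕ) (y : V) : ∑ x ∈ S, (pk Δ r ↑S k x y) ^ 2 ≤ ((c / r) ^ 2) ^ k := by
  induction k with
  | zero =>
    rw [pow_zero]
    have h1 : ∀ x ∈ S, (pk Δ r ↑S 0 x y) ^ 2 = if x = y then 1 else 0 := by
      intro x hx
      unfold pk
      by_cases hxy : x = y
      · rw [if_pos ⟨hxy, hx⟩, if_pos hxy, one_pow]
      · rw [if_neg (fun h => hxy h.1), if_neg hxy]
        norm_num
    rw [Finset.sum_congr rfl h1, Finset.sum_ite_eq']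
    split_ifs <;> norm_num
  | succ k ih =>
    have hr := b1_rpos H
    have h1 : ∀ x ∈ S, (pk Δ r ↑S (k + 1) x y) ^ 2 =
        (1 / (r : ℝ)) ^ 2 * (∑ w ∈ Δ.neighborFinset x ∩ S, pk Δ r ↑S k w y) ^ 2 := by
      intro x hx
      rw [b1_pk_succ H ↑S k hx y, mul_pow]
      congr 2
      symm
      apply Finset.sum_subset Finset.inter_subset_left
      intro w hw hw'
      rw [Finset.mem_inter, not_and] at hw'
      exact pk_zero_of_not_mem H _ _ (Or.inl (hw' hw))
    rw [Finset.sum_congr rfl h1, ← Finset.mul_sum]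
    have h2 := b1_norm (Δ := Δ) S c hc hq (fun x => pk Δ r ↑S k x y)
    have h3 : (1 / (r : ℝ)) ^ 2 * ∑ x ∈ S, (∑ w ∈ Δ.neighborFinset x ∩ S, pk Δ r ↑S k w y) ^ 2 ≤
        (1 / (r : ℝ)) ^ 2 * (c ^ 2 * ∑ x ∈ S, (pk Δ r ↑S k x y) ^ 2) :=
      mul_le_mul_of_nonneg_left h2 (by positivity)
    refine h3.trans ?_
    have h4 : (1 / (r : ℝ)) ^ 2 * (c ^ 2 * ∑ x ∈ S, (pk Δ r ↑S k x y) ^ 2) =
        (c / r) ^ 2 * ∑ x ∈ S, (pk Δ r ↑S k x y) ^ 2 := by
      field_simp
    rw [h4, pow_succ, mul_comm]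
    exact mul_le_mul_of_nonneg_right ih (by positivity)

/-- exponential decay, uniform in `S` -/
theorem exists_rho : ∃ ρ : ℝ, 0 < ρ ∧ ρ < 1 ∧ ∀ (S : Set V) k x y, pk Δ r S k x y ≤ ρ ^ k := by
  obtain ⟨c, hc0, hcr, hq⟩ := b1_exists_c H
  have hr := b1_rpos H
  refine ⟨c / r, div_pos hc0 hr, (div_lt_one hr).mpr hcr, ?_⟩
  intro S k x y
  set F := (fs (cb Δ x k)).filter (· ∈ S) with hF
  have h1 : pk Δ r S k x y ≤ pk Δ r ↑F k x y := by
    have h2 := b1_pk_fin H S (fs (cb Δ x k)) k x y (Finset.Subset.refl _)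
    have h3 : S ∩ ↑(fs (cb Δ x k)) = (↑F : Set V) := by
      ext z
      rw [hF, Finset.coe_filter]
      simp only [Set.mem_inter_iff, Finset.mem_coe, Set.mem_ofPred_eq]
      exact and_comm
    rwa [h3] at h2
  refine h1.trans ?_
  by_cases hx : x ∈ F
  · have h2 := b1_pk_sq H c hc0 F (hq F) k y
    have h3 : (pk Δ r ↑F k x y) ^ 2 ≤ ∑ x ∈ F, (pk Δ r ↑F k x y) ^ 2 :=
      Finset.single_le_sum (f := fun x => (pk Δ r ↑F k x y) ^ 2) (fun _ _ => sq_nonneg _) hx
    have h4 : (pk Δ r ↑F k x y) ^ 2 ≤ ((c / r) ^ k) ^ 2 := by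
      refine (h3.trans h2).trans (le_of_eq ?_)
      rw [← pow_mul, ← pow_mul, mul_comm]
    exact (sq_le_sq₀ (pk_nonneg H _ _ _ _) (by positivity)).mp h4
  · rw [pk_zero_of_not_mem H _ _ (Or.inl (by exact_mod_cast hx))]
    positivity

/-! #### mass and growth -/

theorem pk_sum_le (S : Set V) (k : ℕ) (x : V) : ∑ y ∈ fs (cb Δ x k), pk Δ r S k x y ≤ 1 := by
  have key : ∀ x, ∑ y ∈ fs (cb Δ x k), pk Δ r S k x y * 1 ≤ 1 := by
    induction k with
    | zero =>
      intro x
      have h1 := pk_add H S 0 0 x x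
      have h2 : ∀ y ∈ fs (cb Δ x 0), y = x := by
        intro y hy
        rw [b1_mem H, Nat.le_zero, H.conn.dist_eq_zero_iff] at hy
        exact hy.symm
      have h3 : ∑ y ∈ fs (cb Δ x 0), pk Δ r S 0 x y * 1 ≤ ∑ y ∈ fs (cb Δ x 0), 1 := by
        apply Finset.sum_le_sum
        intro y _
        rw [mul_one]
        unfold pk
        split_ifs <;> norm_num
      have h4 : (fs (cb Δ x 0)).card ≤ 1 := by
        rw [Finset.card_le_one]
        intro a ha b hb
        rw [h2 a ha, h2 b hb]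
      have h5 : ∑ y ∈ fs (cb Δ x 0), (1 : ℝ) ≤ 1 := by
        rw [Finset.sum_const, nsmul_eq_mul, mul_one]
        exact_mod_cast h4
      exact h3.trans h5
    | succ k ih =>
      intro x
      by_cases hS : x ∈ S
      · rw [b1_sum_succ H S k hS]
        have hr := b1_rpos H
        have h1 : ∑ w ∈ Δ.neighborFinset x, ∑ z ∈ fs (cb Δ w k), pk Δ r S k w z * 1 ≤ r := by
          refine (Finset.sum_le_sum (fun w _ => ih w)).trans ?_
          rw [Finset.sum_const, nsmul_eq_mul, mul_one, b1_card H]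
        rw [one_div, inv_mul_le_iff₀ hr, mul_one]
        exact h1
      · rw [Finset.sum_eq_zero]
        · exact zero_le_one
        · intro y _
          rw [pk_zero_of_not_mem H S _ (Or.inl hS), zero_mul]
  simpa using key x

theorem pk_sum_eq (S : Set V) (k : ℕ) (x : V) (hS : cb Δ x k ⊆ S) :
    ∑ y ∈ fs (cb Δ x k), pk Δ r S k x y = 1 := by
  have key : ∀ x, cb Δ x k ⊆ S → ∑ y ∈ fs (cb Δ x k), pk Δ r S k x y * 1 = 1 := by
    clear hS
    induction k with
    | zero =>
      intro x hx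
      have hxS : x ∈ S := hx (by show Δ.dist x x ≤ 0; rw [SimpleGraph.dist_self])
      have hx : x ∈ fs (cb Δ x 0) := by
        rw [b1_mem H, SimpleGraph.dist_self]
      rw [Finset.sum_eq_single_of_mem x hx]
      · unfold pk
        rw [if_pos ⟨rfl, hxS⟩, mul_one]
      · intro z _ hz
        unfold pk
        rw [if_neg, zero_mul]
        exact fun h => hz h.1.symm
    | succ k ih =>
      intro x hx
      have hxS : x ∈ S := hx (by show Δ.dist x x ≤ k + 1; rw [SimpleGraph.dist_self]; omega)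
      rw [b1_sum_succ H S k hxS]
      have hr := b1_rpos H
      have h1 : ∑ w ∈ Δ.neighborFinset x, ∑ z ∈ fs (cb Δ w k), pk Δ r S k w z * 1 = r := by
        rw [Finset.sum_congr rfl (fun w hw => ih w ?_)]
        · rw [Finset.sum_const, nsmul_eq_mul, mul_one, b1_card H]
        · intro y hy
          apply hx
          have h2 : Δ.dist w y ≤ k := hy
          have h3 := b1_dist_nb H (y := y) hw
          show Δ.dist x y ≤ k + 1
          omega
      rw [h1]
      field_simp
  simpa using key x hS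

/-- walk inequality: a function which grows by at most one per step in mean -/
theorem pk_growth (S : Set V) (f : V → ℝ) (hf : ∀ v, 0 ≤ f v)
    (hS : ∀ x ∈ S, ∑ w ∈ Δ.neighborFinset x, f w ≤ r * (f x + 1)) (t : ℕ) (x : V) :
    ∑ y ∈ fs (cb Δ x t), pk Δ r S t x y * f y ≤ f x + t := by
  induction t generalizing x with
  | zero =>
    have hx : x ∈ fs (cb Δ x 0) := by
      rw [b1_mem H, SimpleGraph.dist_self]
    rw [Finset.sum_eq_single_of_mem x hx]
    · unfold pk
      split_ifs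
      · simp
      · simpa using hf x
    · intro z _ hz
      unfold pk
      rw [if_neg, zero_mul]
      exact fun h => hz h.1.symm
  | succ t ih =>
    by_cases hxS : x ∈ S
    · rw [b1_sum_succ H S t hxS]
      have hr := b1_rpos H
      have h1 : ∑ w ∈ Δ.neighborFinset x, ∑ z ∈ fs (cb Δ w t), pk Δ r S t w z * f z ≤
          r * (f x + 1) + r * t := by
        refine (Finset.sum_le_sum (fun w _ => ih w)).trans ?_
        rw [Finset.sum_add_distrib, Finset.sum_const, nsmul_eq_mul, b1_card H]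
        exact add_le_add (hS x hxS) le_rfl
      rw [one_div, inv_mul_le_iff₀ hr]
      refine h1.trans (le_of_eq ?_)
      push_cast
      ring
    · rw [Finset.sum_eq_zero]
      · have := hf x
        positivity
      · intro y _
        rw [pk_zero_of_not_mem H S _ (Or.inl hxS), zero_mul]

theorem pk_gr_sum : ∃ (C ρ : ℝ), 0 < C ∧ 0 < ρ ∧ ρ < 1 ∧ ∀ (S : Set V) (t : ℕ) (o : V),
    ∑ x ∈ fs (cb Δ o t), pk Δ r S t o x * gr Δ r S x o ≤ C * ρ ^ t := by
  obtain ⟨ρ, h0, h1, h2⟩ := exists_rho H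
  have hr := b1_rpos H
  have h3 : 0 < 1 - ρ := by linarith
  refine ⟨(1 / (r : ℝ)) * (1 - ρ)⁻¹, ρ, by positivity, h0, h1, ?_⟩
  intro S t o
  have hsum : ∀ x y, Summable (fun k => pk Δ r S k x y) := fun x y =>
    Summable.of_nonneg_of_le (fun k => pk_nonneg H S k x y) (fun k => h2 S k x y)
      (summable_geometric_of_lt_one h0.le h1)
  have e1 : ∑ x ∈ fs (cb Δ o t), pk Δ r S t o x * gr Δ r S x o =
      (1 / (r : ℝ)) * ∑' k, pk Δ r S (t + k) o o := by
    have e2 : ∀ k, pk Δ r S (t + k) o o =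
        ∑ x ∈ fs (cb Δ o t), pk Δ r S t o x * pk Δ r S k x o := fun k => pk_add H S t k o o
    rw [tsum_congr e2, Summable.tsum_finsetSum (fun x _ => (hsum x o).mul_left _), Finset.mul_sum]
    apply Finset.sum_congr rfl
    intro x _
    unfold gr
    rw [tsum_mul_left]
    ring
  rw [e1, mul_assoc]
  apply mul_le_mul_of_nonneg_left _ (by positivity)
  have hg : Summable (fun k : ℕ => ρ ^ t * ρ ^ k) :=
    (summable_geometric_of_lt_one h0.le h1).mul_left _
  have hs' : Summable (fun k : ℕ => pk Δ r S (t + k) o o) := by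
    have := (summable_nat_add_iff t).mpr (hsum o o)
    simpa [add_comm] using this
  have hle : ∀ k : ℕ, pk Δ r S (t + k) o o ≤ ρ ^ t * ρ ^ k := by
    intro k
    have h4 := h2 S (t + k) o o
    rwa [pow_add] at h4
  refine (hs'.tsum_le_tsum hle hg).trans (le_of_eq ?_)
  rw [tsum_mul_left, tsum_geometric_of_lt_one h0.le h1, mul_comm]

end B

end Pool.Agent.Sand
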