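import Pool.Agent.SandFin.SPEB1

/-! MP_4555f0_mp, SPE-B2: Green function of the killed walk. -/

set_option autoImplicit false
open scoped Classical

namespace Pool.Agent.Sand

variable {V : Type} (Δ : SimpleGraph V) [Δ.LocallyFinite]

section B
variable {Δ} {r : ℕ} {h : ℝ} {D0 : ℕ} (H : Hyp Δ r h D0)
include H

theorem b2_rpos : (0 : ℝ) < r := by
  have := H.inf
  obtain ⟨o⟩ : Nonempty V := inferInstance
  have h1 := H.iso {o}
  have h2 : bdE Δ {o} ≤ r := by
    unfold bdE
    rw [Finset.sum_singleton, ← H.reg o]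
    exact Finset.card_le_card Finset.sdiff_subset
  have h3 : (bdE Δ {o} : ℝ) ≤ r := by exact_mod_cast h2
  have h4 := H.hpos
  simp only [Finset.card_singleton, Nat.cast_one, mul_one] at h1
  linarith

theorem b2_summable (S : Set V) (x y : V) : Summable (fun k => pk Δ r S k x y) := by
  obtain ⟨ρ, h0, h1, h2⟩ := exists_rho H
  exact Summable.of_nonneg_of_le (fun k => pk_nonneg H S k x y) (fun k => h2 S k x y)
    (summable_geometric_of_lt_one h0.le h1)

theorem gr_nonneg (S : Set V) (x y : V) : 0 ≤ gr Δ r S x y := by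
  unfold gr
  exact mul_nonneg (by positivity) (tsum_nonneg (fun k => pk_nonneg H S k x y))

theorem gr_mono {S S' : Set V} (hS : S ⊆ S') (x y : V) : gr Δ r S x y ≤ gr Δ r S' x y := by
  unfold gr
  exact mul_le_mul_of_nonneg_left ((b2_summable H S x y).tsum_le_tsum
    (fun k => pk_mono H hS k x y) (b2_summable H S' x y)) (by positivity)

theorem gr_symm (S : Set V) (x y : V) : gr Δ r S x y = gr Δ r S y x := by
  unfold gr
  congr 1
  exact tsum_congr (fun k => pk_symm H S k x y)

theorem gr_zero (S : Set V) {x y : V} (hx : x ∉ S ∨ y ∉ S) : gr Δ r S x y = 0 := by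
  unfold gr
  rw [tsum_congr (fun k => pk_zero_of_not_mem H S k hx)]
  simp

/-- exponential decay of the Green function -/
theorem gr_decay : ∃ (C ρ : ℝ), 0 < C ∧ 0 < ρ ∧ ρ < 1 ∧ ∀ (S : Set V) x y,
    gr Δ r S x y ≤ C * ρ ^ (Δ.dist x y) := by
  obtain ⟨ρ, h0, h1, h2⟩ := exists_rho H
  have hr := b2_rpos H
  refine ⟨(1 / (r : ℝ)) * (1 - ρ)⁻¹, ρ, ?_, h0, h1, ?_⟩
  · have : 0 < 1 - ρ := by linarith
    positivity
  · intro S x y
    unfold gr
    rw [mul_assoc]
    refine mul_le_mul_of_nonneg_left ?_ (by positivity)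
    have hs := b2_summable H S x y
    rw [← hs.sum_add_tsum_nat_add (Δ.dist x y)]
    have hz : ∑ i ∈ Finset.range (Δ.dist x y), pk Δ r S i x y = 0 := by
      apply Finset.sum_eq_zero
      intro i hi
      exact pk_zero_of_dist H S (Finset.mem_range.mp hi)
    rw [hz, zero_add]
    generalize Δ.dist x y = d
    have hg : Summable (fun k : ℕ => ρ ^ d * ρ ^ k) :=
      (summable_geometric_of_lt_one h0.le h1).mul_left _
    have hs' : Summable (fun k : ℕ => pk Δ r S (k + d) x y) := (summable_nat_add_iff d).mpr hs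
    have hle : ∀ k : ℕ, pk Δ r S (k + d) x y ≤ ρ ^ d * ρ ^ k := by
      intro k
      have h3 := h2 S (k + d) x y
      rw [pow_add, mul_comm] at h3
      exact h3
    have h4 := hs'.tsum_le_tsum hle hg
    rw [tsum_mul_left, tsum_geometric_of_lt_one h0.le h1, mul_comm] at h4
    exact h4

theorem b2_succ (S : Set V) (k : ℕ) {x : V} (hx : x ∈ S) (y : V) :
    pk Δ r S (k + 1) x y = (1 / (r : ℝ)) * ∑ w ∈ Δ.neighborFinset x, pk Δ r S k w y := by
  simp [pk, hx]

theorem gr_eq (S : Set V) {x y : V} (hx : x ∈ S) (hy : y ∈ S) :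
    (r : ℝ) * gr Δ r S x y - ∑ w ∈ Δ.neighborFinset x, gr Δ r S w y = if x = y then 1 else 0 := by
  have hr := b2_rpos H
  have hs := b2_summable H S x y
  have h1 : (r : ℝ) * gr Δ r S x y = ∑' k, pk Δ r S k x y := by
    unfold gr
    field_simp
  have h2 : ∑ w ∈ Δ.neighborFinset x, gr Δ r S w y = ∑' k, pk Δ r S (k + 1) x y := by
    unfold gr
    rw [← Finset.mul_sum, ← Summable.tsum_finsetSum (fun w _ => b2_summable H S w y),
      ← tsum_mul_left]
    exact tsum_congr (fun k => (b2_succ H S k hx y).symm)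
  rw [h1, h2, hs.tsum_eq_zero_add]
  have h3 : pk Δ r S 0 x y = if x = y then 1 else 0 := by
    simp [pk, hx]
  rw [h3]
  ring

theorem b2_solve_aux (S : Finset V) (f b : V → ℝ) (hf : ∀ v, v ∉ S → f v = 0)
    (hb : ∀ x ∈ S, (r : ℝ) * f x - ∑ w ∈ Δ.neighborFinset x, f w ≤ b x) (n : ℕ) (x : V) :
    f x ≤ ∑ y ∈ S, ((1 / (r : ℝ)) * ∑ k ∈ Finset.range n, pk Δ r ↑S k x y) * b y
      + ∑ y ∈ S, pk Δ r ↑S n x y * f y := by
  have hr := b2_rpos H
  induction n generalizing x with
  | zero =>
    by_cases hx : x ∈ S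
    · simp only [Finset.range_zero, Finset.sum_empty, mul_zero, zero_mul, Finset.sum_const_zero,
        zero_add]
      rw [Finset.sum_eq_single x]
      · simp [pk, hx]
      · intro y _ hy
        simp [pk, Ne.symm hy]
      · intro h; exact absurd hx h
    · rw [hf x hx]
      simp only [Finset.range_zero, Finset.sum_empty, mul_zero, zero_mul, Finset.sum_const_zero,
        zero_add]
      apply le_of_eq
      symm
      apply Finset.sum_eq_zero
      intro y _
      rw [pk_zero_of_not_mem H (↑S) 0 (Or.inl (by simpa using hx)), zero_mul]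
  | succ n ih =>
    by_cases hx : x ∈ S
    · have hx' : x ∈ (↑S : Set V) := by simpa using hx
      have h1 := hb x hx
      have h2 : ∑ w ∈ Δ.neighborFinset x, f w ≤ ∑ w ∈ Δ.neighborFinset x,
          (∑ y ∈ S, ((1 / (r : ℝ)) * ∑ k ∈ Finset.range n, pk Δ r ↑S k w y) * b y
            + ∑ y ∈ S, pk Δ r ↑S n w y * f y) := Finset.sum_le_sum (fun w _ => ih w)
      rw [Finset.sum_add_distrib] at h2
      have h3 : ∑ w ∈ Δ.neighborFinset x, ∑ y ∈ S, pk Δ r ↑S n w y * f y
          = r * ∑ y ∈ S, pk Δ r ↑S (n + 1) x y * f y := by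
        rw [Finset.sum_comm, Finset.mul_sum]
        refine Finset.sum_congr rfl (fun y _ => ?_)
        rw [b2_succ H ↑S n hx' y, ← Finset.sum_mul]
        field_simp
      have h4 : ∑ w ∈ Δ.neighborFinset x, ∑ y ∈ S,
            ((1 / (r : ℝ)) * ∑ k ∈ Finset.range n, pk Δ r ↑S k w y) * b y
          = ∑ y ∈ S, (∑ k ∈ Finset.range n, pk Δ r ↑S (k + 1) x y) * b y := by
        rw [Finset.sum_comm]
        refine Finset.sum_congr rfl (fun y _ => ?_)
        rw [← Finset.sum_mul, ← Finset.mul_sum, Finset.sum_comm, Finset.mul_sum]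
        congr 1
        refine Finset.sum_congr rfl (fun k _ => ?_)
        rw [b2_succ H ↑S k hx' y]
      have h5 : ∑ y ∈ S, ((1 / (r : ℝ)) * ∑ k ∈ Finset.range (n + 1), pk Δ r ↑S k x y) * b y
          = (1 / (r : ℝ)) * (b x + ∑ y ∈ S, (∑ k ∈ Finset.range n, pk Δ r ↑S (k + 1) x y) * b y) := by
        have h6 : ∑ y ∈ S, pk Δ r ↑S 0 x y * b y = b x := by
          rw [Finset.sum_eq_single x]
          · simp [pk, hx]
          · intro y _ hy
            simp [pk, Ne.symm hy]
          · intro h; exact absurd hx h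
        rw [← h6, ← Finset.sum_add_distrib, Finset.mul_sum]
        refine Finset.sum_congr rfl (fun y _ => ?_)
        rw [Finset.sum_range_succ']
        ring
      rw [h3, h4] at h2
      rw [h5]
      have h7 : (r : ℝ) * f x ≤ b x + (∑ y ∈ S, (∑ k ∈ Finset.range n, pk Δ r ↑S (k + 1) x y) * b y
          + r * ∑ y ∈ S, pk Δ r ↑S (n + 1) x y * f y) := by linarith
      have h8 : f x = (1 / (r : ℝ)) * (r * f x) := by field_simp
      rw [h8]
      calc (1 / (r : ℝ)) * (r * f x) ≤ (1 / (r : ℝ)) * (b x + (∑ y ∈ S, (∑ k ∈ Finset.range n,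
              pk Δ r ↑S (k + 1) x y) * b y + r * ∑ y ∈ S, pk Δ r ↑S (n + 1) x y * f y)) :=
            mul_le_mul_of_nonneg_left h7 (by positivity)
        _ = _ := by field_simp; ring
    · have hx' : x ∉ (↑S : Set V) := by simpa using hx
      rw [hf x hx]
      apply le_of_eq
      symm
      have h1 : ∀ y ∈ S, pk Δ r ↑S (n + 1) x y * f y = 0 := fun y _ => by
        rw [pk_zero_of_not_mem H (↑S) (n + 1) (Or.inl hx'), zero_mul]
      have h2 : ∀ y ∈ S, ((1 / (r : ℝ)) * ∑ k ∈ Finset.range (n + 1), pk Δ r ↑S k x y) * b y = 0 := by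
        intro y _
        rw [Finset.sum_eq_zero (fun k _ => pk_zero_of_not_mem H (↑S) k (Or.inl hx'))]
        simp
      rw [Finset.sum_eq_zero h1, Finset.sum_eq_zero h2, add_zero]

/-- the same for subsolutions -/
theorem gr_solve_le (S : Finset V) (f b : V → ℝ) (hf : ∀ v, v ∉ S → f v = 0)
    (hb : ∀ x ∈ S, (r : ℝ) * f x - ∑ w ∈ Δ.neighborFinset x, f w ≤ b x) (x : V) :
    f x ≤ ∑ y ∈ S, gr Δ r ↑S x y * b y := by
  have hlim : Filter.Tendsto (fun n : ℕ =>
      ∑ y ∈ S, ((1 / (r : ℝ)) * ∑ k ∈ Finset.range n, pk Δ r ↑S k x y) * b y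
      + ∑ y ∈ S, pk Δ r ↑S n x y * f y) Filter.atTop
      (nhds (∑ y ∈ S, gr Δ r ↑S x y * b y + ∑ y ∈ S, 0 * f y)) := by
    refine Filter.Tendsto.add ?_ ?_
    · refine tendsto_finsetSum _ (fun y _ => ?_)
      refine Filter.Tendsto.mul_const _ ?_
      unfold gr
      exact Filter.Tendsto.const_mul _ (b2_summable H ↑S x y).hasSum.tendsto_sum_nat
    · refine tendsto_finsetSum _ (fun y _ => ?_)
      exact Filter.Tendsto.mul_const _ (b2_summable H ↑S x y).tendsto_atTop_zero
  simp only [zero_mul, Finset.sum_const_zero, add_zero] at hlim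
  exact ge_of_tendsto' hlim (fun n => b2_solve_aux H S f b hf hb n x)

/-- solution of the Dirichlet problem on a finite set -/
theorem gr_solve (S : Finset V) (f b : V → ℝ) (hf : ∀ v, v ∉ S → f v = 0)
    (hb : ∀ x ∈ S, (r : ℝ) * f x - ∑ w ∈ Δ.neighborFinset x, f w = b x) (x : V) :
    f x = ∑ y ∈ S, gr Δ r ↑S x y * b y := by
  apply le_antisymm
  · exact gr_solve_le H S f b hf (fun y hy => (hb y hy).le) x
  · have h1 := gr_solve_le H S (fun v => - f v) (fun v => - b v) (fun v hv => by rw [hf v hv, neg_zero])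
      (fun y hy => by
        have := hb y hy
        rw [Finset.sum_neg_distrib]
        linarith) x
    simp only [mul_neg, Finset.sum_neg_distrib] at h1
    linarith

theorem b2_exit_aux (S C' : Set V) (hF : (oB Δ C').Finite) {x : V} (hx : x ∉ C') (k : ℕ) :
    ∀ v ∈ C', pk Δ r S k v x = ∑ j ∈ Finset.range k, ∑ y ∈ fs (oB Δ C'),
      ∑ w ∈ (Δ.neighborFinset y).filter (· ∈ C'),
        (1 / (r : ℝ)) * (pk Δ r (S ∩ C') j v w * pk Δ r S (k - 1 - j) y x) := by
  have hr := b2_rpos H
  induction k with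
  | zero =>
    intro v hv
    have : v ≠ x := fun h => hx (h ▸ hv)
    simp [pk, this]
  | succ k ih =>
    intro v hv
    by_cases hvS : v ∈ S
    · have hvSC : v ∈ S ∩ C' := ⟨hvS, hv⟩
      rw [b2_succ H S k hvS x, Finset.sum_range_succ']
      rw [← Finset.sum_filter_add_sum_filter_not (Δ.neighborFinset v) (· ∈ C'), mul_add]
      congr 1
      · -- neighbours inside
        have h1 : ∑ u ∈ (Δ.neighborFinset v).filter (· ∈ C'), pk Δ r S k u x
            = ∑ u ∈ (Δ.neighborFinset v).filter (· ∈ C'),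
              ∑ j ∈ Finset.range k, ∑ y ∈ fs (oB Δ C'),
                ∑ w ∈ (Δ.neighborFinset y).filter (· ∈ C'),
                (1 / (r : ℝ)) * (pk Δ r (S ∩ C') j u w * pk Δ r S (k - 1 - j) y x) :=
          Finset.sum_congr rfl (fun u hu => ih u (Finset.mem_filter.mp hu).2)
        rw [h1, Finset.sum_comm, Finset.mul_sum]
        refine Finset.sum_congr rfl (fun j hj => ?_)
        rw [Finset.sum_comm, Finset.mul_sum]
        refine Finset.sum_congr rfl (fun y _ => ?_)
        rw [Finset.sum_comm, Finset.mul_sum]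
        refine Finset.sum_congr rfl (fun w _ => ?_)
        rw [b2_succ H (S ∩ C') j hvSC w]
        have h2 : ∑ u ∈ Δ.neighborFinset v, pk Δ r (S ∩ C') j u w
            = ∑ u ∈ (Δ.neighborFinset v).filter (· ∈ C'), pk Δ r (S ∩ C') j u w := by
          rw [Finset.sum_filter]
          refine Finset.sum_congr rfl (fun u _ => ?_)
          split_ifs with hu
          · rfl
          · exact pk_zero_of_not_mem H _ j (Or.inl (fun hh => hu hh.2))
        have h3 : k + 1 - 1 - (j + 1) = k - 1 - j := by omega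
        rw [h2, h3, Finset.mul_sum, Finset.mul_sum, Finset.sum_mul, Finset.mul_sum]
        refine Finset.sum_congr rfl (fun u _ => ?_)
        ring
      · -- neighbours outside
        have h3 : k + 1 - 1 - 0 = k := by omega
        rw [h3]
        have h4 : ∀ y w, pk Δ r (S ∩ C') 0 v w * pk Δ r S k y x
            = if w = v then pk Δ r S k y x else 0 := by
          intro y w
          by_cases hw : w = v
          · subst hw
            simp [pk, hvS, hv]
          · simp [pk, hw, Ne.symm hw]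
        simp only [h4]
        rw [Finset.mul_sum]
        have h5 : ∀ y ∈ fs (oB Δ C'), ∑ w ∈ (Δ.neighborFinset y).filter (· ∈ C'),
            (1 / (r : ℝ)) * (if w = v then pk Δ r S k y x else 0)
            = if y ∈ (Δ.neighborFinset v).filter (fun u => ¬ u ∈ C')
                then (1 / (r : ℝ)) * pk Δ r S k y x else 0 := by
          intro y hy
          have hy' := (mem_fs hF).mp hy
          by_cases hyv : Δ.Adj v y
          · rw [if_pos (by simp [hyv, hy'.1])]
            rw [Finset.sum_eq_single v]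
            · simp
            · intro w _ hw
              simp [hw]
            · intro hh
              exact absurd (Finset.mem_filter.mpr ⟨by simpa using hyv.symm, hv⟩) hh
          · rw [if_neg (by simp [hyv])]
            apply Finset.sum_eq_zero
            intro w hw
            have : w ≠ v := by
              rintro rfl
              have := (Finset.mem_filter.mp hw).1
              rw [SimpleGraph.mem_neighborFinset] at this
              exact hyv this.symm
            simp [this]
        rw [Finset.sum_congr rfl h5, ← Finset.sum_filter]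
        refine Finset.sum_congr ?_ (fun _ _ => rfl)
        ext u
        simp only [Finset.mem_filter, SimpleGraph.mem_neighborFinset]
        constructor
        · rintro ⟨h6, h7⟩
          exact ⟨(mem_fs hF).mpr ⟨h7, v, hv, h6⟩, h6, h7⟩
        · rintro ⟨_, h6, h7⟩
          exact ⟨h6, h7⟩
    · rw [pk_zero_of_not_mem H S (k + 1) (Or.inl hvS)]
      symm
      apply Finset.sum_eq_zero
      intro j _
      apply Finset.sum_eq_zero
      intro y _
      apply Finset.sum_eq_zero
      intro w _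
      rw [pk_zero_of_not_mem H (S ∩ C') j (Or.inl (fun hh => hvS hh.1))]
      simp

/-- last exit decomposition through the outer boundary of `C'` -/
theorem gr_exit (S C' : Set V) (hF : (oB Δ C').Finite) {v x : V} (hv : v ∈ C') (hx : x ∉ C') :
    gr Δ r S v x = ∑ y ∈ fs (oB Δ C'), ∑ w ∈ (Δ.neighborFinset y).filter (· ∈ C'),
      gr Δ r (S ∩ C') v w * gr Δ r S y x := by
  have hr := b2_rpos H
  have hnorm : ∀ (S : Set V) (a b : V), Summable (fun k => ‖pk Δ r S k a b‖) := by
    intro S a b
    refine (b2_summable H S a b).congr (fun k => ?_)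
    rw [Real.norm_of_nonneg (pk_nonneg H S k a b)]
  have hvx : v ≠ x := fun hh => hx (hh ▸ hv)
  have h0 : pk Δ r S 0 v x = 0 := by simp [pk, hvx]
  have hC : ∀ y w : V, gr Δ r (S ∩ C') v w * gr Δ r S y x
      = ∑' n, ∑ j ∈ Finset.range (n + 1), (1 / (r : ℝ)) * ((1 / (r : ℝ)) *
        (pk Δ r (S ∩ C') j v w * pk Δ r S (n - j) y x)) := by
    intro y w
    unfold gr
    have := tsum_mul_tsum_eq_tsum_sum_range_of_summable_norm (hnorm (S ∩ C') v w) (hnorm S y x)
    calc (1 / (r : ℝ)) * (∑' k, pk Δ r (S ∩ C') k v w) * ((1 / (r : ℝ)) * ∑' k, pk Δ r S k y x)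
        = (1 / (r : ℝ)) * ((1 / (r : ℝ)) * ((∑' k, pk Δ r (S ∩ C') k v w) * ∑' k, pk Δ r S k y x)) := by
          ring
      _ = _ := by
          rw [this, ← tsum_mul_left, ← tsum_mul_left]
          refine tsum_congr (fun n => ?_)
          rw [Finset.mul_sum, Finset.mul_sum]
  have hS : ∀ y w : V, Summable (fun n => ∑ j ∈ Finset.range (n + 1), (1 / (r : ℝ)) * ((1 / (r : ℝ)) *
        (pk Δ r (S ∩ C') j v w * pk Δ r S (n - j) y x))) := by
    intro y w
    have h1 := (summable_norm_sum_mul_range_of_summable_norm (hnorm (S ∩ C') v w) (hnorm S y x)).of_norm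
    have h2 := (h1.mul_left (1 / (r : ℝ))).mul_left (1 / (r : ℝ))
    refine h2.congr (fun n => ?_)
    rw [Finset.mul_sum, Finset.mul_sum]
  simp only [hC]
  rw [show (∑ y ∈ fs (oB Δ C'), ∑ w ∈ (Δ.neighborFinset y).filter (· ∈ C'),
      ∑' n, ∑ j ∈ Finset.range (n + 1), (1 / (r : ℝ)) * ((1 / (r : ℝ)) *
        (pk Δ r (S ∩ C') j v w * pk Δ r S (n - j) y x)))
      = ∑' n, ∑ y ∈ fs (oB Δ C'), ∑ w ∈ (Δ.neighborFinset y).filter (· ∈ C'),
        ∑ j ∈ Finset.range (n + 1), (1 / (r : ℝ)) * ((1 / (r : ℝ)) *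
        (pk Δ r (S ∩ C') j v w * pk Δ r S (n - j) y x)) from ?_]
  · unfold gr
    rw [(b2_summable H S v x).tsum_eq_zero_add, h0, zero_add, ← tsum_mul_left]
    refine tsum_congr (fun n => ?_)
    rw [b2_exit_aux H S C' hF hx (n + 1) v hv, Finset.sum_comm, Finset.mul_sum]
    refine Finset.sum_congr rfl (fun y _ => ?_)
    rw [Finset.sum_comm, Finset.mul_sum]
    refine Finset.sum_congr rfl (fun w _ => ?_)
    rw [Finset.mul_sum]
    refine Finset.sum_congr rfl (fun j _ => ?_)
    rw [show n + 1 - 1 - j = n - j by omega]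
  · rw [Summable.tsum_finsetSum]
    · refine Finset.sum_congr rfl (fun y _ => ?_)
      rw [Summable.tsum_finsetSum]
      exact fun w _ => hS y w
    · exact fun y _ => summable_sum (fun w _ => hS y w)

end B

end Pool.Agent.Sand
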