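import Pool.Agent.SandFin.GEOC2
import Pool.Agent.SandFin.GEOD
import Pool.Agent.SandFin.SPEB2

/-! Task SPE-C : sum of the Green function over spheres. -/

set_option autoImplicit false
open scoped Classical

namespace Pool.Agent.Sand

variable {V : Type} {Δ : SimpleGraph V} [Δ.LocallyFinite]

omit [Δ.LocallyFinite] in
theorem sc_dist_adj (hc : Δ.Connected) {x y z : V} (h : Δ.Adj y z) :
    Δ.dist x z ≤ Δ.dist x y + 1 := by
  have h1 := hc.dist_triangle (u := x) (v := y) (w := z)
  rw [SimpleGraph.dist_eq_one_iff_adj.mpr h] at h1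
  exact h1

theorem sc_step (hc : Δ.Connected) {v x : V} {n : ℕ} (h : Δ.dist v x = n + 1) :
    ∃ w, Δ.Adj w x ∧ Δ.dist v w = n := by
  obtain ⟨p, hp⟩ := hc.exists_walk_length_eq_dist x v
  rw [SimpleGraph.dist_comm, h] at hp
  cases p with
  | nil => simp at hp
  | @cons _ w _ hadj q =>
    rw [SimpleGraph.Walk.length_cons] at hp
    refine ⟨w, hadj.symm, ?_⟩
    have h1 := SimpleGraph.dist_le q
    rw [SimpleGraph.dist_comm] at h1
    have h2 := sc_dist_adj hc (x := v) hadj.symm
    omega

theorem sc_cb_card {r : ℕ} {h : ℝ} {D0 : ℕ} (H : Hyp Δ r h D0) (k : ℕ) :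
    ∃ B : ℕ, ∀ v, (fs (cb Δ v k)).card ≤ B := by
  induction k with
  | zero =>
    refine ⟨1, fun v => ?_⟩
    have h1 : fs (cb Δ v 0) ⊆ {v} := by
      intro x hx
      rw [mem_fs (cb_finite H v 0)] at hx
      have h2 : Δ.dist v x = 0 := Nat.le_zero.mp hx
      rw [H.conn.dist_eq_zero_iff] at h2
      simp [h2]
    simpa using Finset.card_le_card h1
  | succ k ih =>
    obtain ⟨B, hB⟩ := ih
    refine ⟨B * (r + 1), fun v => ?_⟩
    have h1 : fs (cb Δ v (k + 1)) ⊆
        (fs (cb Δ v k)).biUnion (fun w => insert w (Δ.neighborFinset w)) := by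
      intro x hx
      rw [mem_fs (cb_finite H v (k + 1))] at hx
      rw [Finset.mem_biUnion]
      by_cases h2 : Δ.dist v x ≤ k
      · exact ⟨x, (mem_fs (cb_finite H v k)).mpr h2, Finset.mem_insert_self _ _⟩
      · have h3 : Δ.dist v x = k + 1 := by
          have : Δ.dist v x ≤ k + 1 := hx
          omega
        obtain ⟨w, hw, hwd⟩ := sc_step H.conn h3
        refine ⟨w, (mem_fs (cb_finite H v k)).mpr hwd.le, Finset.mem_insert_of_mem ?_⟩
        simpa using hw
    refine (Finset.card_le_card h1).trans ?_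
    refine (Finset.card_biUnion_le_card_mul _ _ (r + 1) ?_).trans
      (Nat.mul_le_mul_right _ (hB v))
    intro w _
    refine (Finset.card_insert_le _ _).trans ?_
    rw [SimpleGraph.card_neighborFinset_eq_degree, H.reg w]

theorem sc_geo {r : ℕ} {h : ℝ} {D0 : ℕ} (H : Hyp Δ r h D0) {o : V} {R0 : ℕ} {C' : Set V}
    (hC : IsComp Δ (cb Δ o R0) C') (n : ℕ) : ∀ v ∈ C', Δ.dist o v = R0 + 1 + n →
    ∃ v' ∈ C', Δ.dist o v' = R0 + 1 ∧ Δ.dist v' v ≤ n := by
  induction n with
  | zero =>
    intro v hv hd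
    exact ⟨v, hv, hd, by simp⟩
  | succ n ih =>
    intro v hv hd
    obtain ⟨w, hw, hwd⟩ := sc_step H.conn (n := R0 + 1 + n) hd
    have hwC : w ∈ C' := by
      by_contra hcon
      have h1 : Δ.dist o w ≤ R0 := hC.closed v hv w hw.symm hcon
      omega
    obtain ⟨v', hv', h1, h2⟩ := ih w hwC hwd
    refine ⟨v', hv', h1, ?_⟩
    have h3 := sc_dist_adj H.conn (x := v') hw
    omega

theorem sc_sph_finite {r : ℕ} {h : ℝ} {D0 : ℕ} (H : Hyp Δ r h D0) (o : V) (R : ℕ) :
    (sph Δ o R).Finite :=
  (cb_finite H o R).subset (fun v (hv : Δ.dist o v = R) => (hv.le : Δ.dist o v ≤ R))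

variable (Δ) in
/-- Statement of `gr_sphere` in Spe.lean (verbatim). -/
theorem gr_sphere {r : ℕ} {h : ℝ} {D0 : ℕ} (H : Hyp Δ r h D0) :
    ∃ C : ℝ, ∀ (S : Finset V) (o v : V) (R : ℕ), ∑ x ∈ fs (sph Δ o R), gr Δ r ↑S v x ≤ C := by
  obtain ⟨b, hb1, -, hb⟩ := exists_bound H
  obtain ⟨C, ρ, hC, hρ0, hρ1, hdec⟩ := gr_decay H
  have hK : ∃ K : ℕ, (b : ℝ) * r * (C * ρ ^ K) ≤ 1 / 2 := by
    have h1 : Filter.Tendsto (fun K : ℕ => (b : ℝ) * r * (C * ρ ^ K)) Filter.atTop
        (nhds ((b : ℝ) * r * (C * 0))) :=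
      ((tendsto_pow_atTop_nhds_zero_of_lt_one hρ0.le hρ1).const_mul C).const_mul _
    rw [mul_zero, mul_zero] at h1
    exact (h1.eventually (ge_mem_nhds (by norm_num : (0 : ℝ) < 1 / 2))).exists
  obtain ⟨K, hK⟩ := hK
  obtain ⟨B, hB⟩ := sc_cb_card H (D0 + 2 * (K + 1))
  have hterm : ∀ (S : Set V) x y, gr Δ r S x y ≤ C := by
    intro S x y
    refine (hdec S x y).trans ?_
    have : ρ ^ Δ.dist x y ≤ 1 := pow_le_one₀ hρ0.le hρ1.le
    nlinarith
  refine ⟨2 * (C * B), ?_⟩
  intro S o v R
  have hCB : 0 ≤ C * (B : ℝ) := by positivity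
  set u : V → ℝ := fun v => ∑ x ∈ fs (sph Δ o R), gr Δ r ↑S v x with hu
  change u v ≤ _
  have hu0 : ∀ v, 0 ≤ u v := fun v => Finset.sum_nonneg fun x _ => gr_nonneg H _ _ _
  have huS : ∀ v, v ∉ S → u v = 0 := by
    intro v hv
    exact Finset.sum_eq_zero fun x _ => gr_zero H _ (Or.inl (by simpa using hv))
  by_cases hR : R ≤ K
  · -- small spheres
    have h1 : fs (sph Δ o R) ⊆ fs (cb Δ o (D0 + 2 * (K + 1))) := by
      intro x hx
      rw [mem_fs (sc_sph_finite H o R)] at hx
      rw [mem_fs (cb_finite H o _)]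
      have hx' : Δ.dist o x = R := hx
      change Δ.dist o x ≤ _
      omega
    have h2 : u v ≤ ∑ x ∈ fs (sph Δ o R), C :=
      Finset.sum_le_sum fun x _ => hterm _ _ _
    rw [Finset.sum_const, nsmul_eq_mul] at h2
    have h3 : ((fs (sph Δ o R)).card : ℝ) ≤ B := by
      exact_mod_cast (Finset.card_le_card h1).trans (hB o)
    nlinarith
  · obtain ⟨R0, rfl⟩ : ∃ R0, R = R0 + 1 + K := ⟨R - 1 - K, by omega⟩
    -- the maximum
    obtain ⟨M, hM, hMatt⟩ : ∃ M, (∀ v, u v ≤ M) ∧ (M = 0 ∨ ∃ v, u v = M) := by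
      rcases S.eq_empty_or_nonempty with rfl | hS
      · exact ⟨0, fun v => (huS v (by simp)).le, Or.inl rfl⟩
      · obtain ⟨v0, -, hv0⟩ := S.exists_max_image u hS
        refine ⟨u v0, fun v => ?_, Or.inr ⟨v0, rfl⟩⟩
        by_cases hv : v ∈ S
        · exact hv0 v hv
        · rw [huS v hv]; exact hu0 _
    refine (hM v).trans ?_
    rcases le_or_gt M 0 with hM0 | hM0
    · linarith
    · obtain ⟨v0, hv0⟩ : ∃ v, u v = M := hMatt.resolve_left hM0.ne'
      -- maximum principle
      obtain ⟨v1, hv1, hv1M⟩ : ∃ v1 ∈ sph Δ o (R0 + 1 + K), u v1 = M := by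
        by_contra hcon
        push Not at hcon
        have hstep : ∀ x y, Δ.Adj x y → u x = M → u y = M := by
          intro x y hxy hx
          have hxs : x ∉ sph Δ o (R0 + 1 + K) := fun h1 => hcon x h1 hx
          have hxS : x ∈ S := by
            by_contra h1
            rw [huS x h1] at hx
            exact hM0.ne hx
          have hharm : (r : ℝ) * u x = ∑ w ∈ Δ.neighborFinset x, u w := by
            simp only [hu]
            rw [Finset.mul_sum, Finset.sum_comm]
            refine Finset.sum_congr rfl fun z hz => ?_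
            rw [mem_fs (sc_sph_finite H o _)] at hz
            by_cases hzS : z ∈ S
            · have h1 := gr_eq H (↑S : Set V) (x := x) (y := z) (by simpa using hxS)
                (by simpa using hzS)
              rw [if_neg (by rintro rfl; exact hxs hz)] at h1
              linarith
            · rw [gr_zero H _ (Or.inr (by simpa using hzS)), mul_zero]
              symm
              exact Finset.sum_eq_zero fun w _ => gr_zero H _ (Or.inr (by simpa using hzS))
          have h2 : ∑ w ∈ Δ.neighborFinset x, (M - u w) = 0 := by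
            rw [Finset.sum_sub_distrib, ← hharm, Finset.sum_const,
              SimpleGraph.card_neighborFinset_eq_degree, H.reg x, hx, nsmul_eq_mul]
            ring
          have h3 := (Finset.sum_eq_zero_iff_of_nonneg (fun w _ => by
            have := hM w
            linarith)).mp h2 y (by simpa using hxy)
          linarith
        have hall : ∀ y, u y = M := by
          intro y
          obtain ⟨p⟩ := H.conn v0 y
          clear hcon
          induction p with
          | nil => exact hv0
          | cons hadj q ih => exact ih (hstep _ _ hadj hv0)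
        have := H.inf
        obtain ⟨y, hy⟩ := Infinite.exists_notMem_finset S
        have h1 := hall y
        rw [huS y hy] at h1
        exact hM0.ne h1
      -- the component
      have hv1' : Δ.dist o v1 = R0 + 1 + K := hv1
      have hv1K : v1 ∉ cb Δ o R0 := by
        intro h1
        have : Δ.dist o v1 ≤ R0 := h1
        omega
      obtain ⟨C', hC', hvC'⟩ := exists_comp H hv1K
      obtain ⟨-, hoBf, -, hoBc, -, -, -⟩ := hb o R0 C' hC'
      have hsplit : u v1 = ∑ x ∈ (fs (sph Δ o (R0 + 1 + K))).filter (· ∈ C'), gr Δ r ↑S v1 x +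
          ∑ x ∈ (fs (sph Δ o (R0 + 1 + K))).filter (¬ · ∈ C'), gr Δ r ↑S v1 x :=
        (Finset.sum_filter_add_sum_filter_not _ _ _).symm
      -- points inside C'
      have hin : ∑ x ∈ (fs (sph Δ o (R0 + 1 + K))).filter (· ∈ C'), gr Δ r ↑S v1 x ≤ C * B := by
        have h1 : (fs (sph Δ o (R0 + 1 + K))).filter (· ∈ C') ⊆
            fs (cb Δ v1 (D0 + 2 * (K + 1))) := by
          intro x hx
          rw [Finset.mem_filter, mem_fs (sc_sph_finite H o _)] at hx
          rw [mem_fs (cb_finite H v1 _)]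
          obtain ⟨hx1, hx2⟩ := hx
          obtain ⟨a, ha, ha1, ha2⟩ := sc_geo H hC' K v1 hvC' hv1'
          obtain ⟨a', ha', ha1', ha2'⟩ := sc_geo H hC' K x hx2 hx1
          have h2 := H.bott o R0 C' hC' a ha a' ha' ha1 ha1'
          have h3 := H.conn.dist_triangle (u := v1) (v := a) (w := x)
          have h4 := H.conn.dist_triangle (u := a) (v := a') (w := x)
          rw [SimpleGraph.dist_comm (u := v1) (v := a)] at h3
          change Δ.dist v1 x ≤ _
          omega
        refine (Finset.sum_le_sum fun x _ => hterm _ _ _).trans ?_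
        rw [Finset.sum_const, nsmul_eq_mul]
        have h3 : (((fs (sph Δ o (R0 + 1 + K))).filter (· ∈ C')).card : ℝ) ≤ B := by
          exact_mod_cast (Finset.card_le_card h1).trans (hB v1)
        nlinarith
      -- points outside C'
      have hout : ∑ x ∈ (fs (sph Δ o (R0 + 1 + K))).filter (¬ · ∈ C'), gr Δ r ↑S v1 x ≤
          1 / 2 * M := by
        have h1 : ∑ x ∈ (fs (sph Δ o (R0 + 1 + K))).filter (¬ · ∈ C'), gr Δ r ↑S v1 x =
            ∑ y ∈ fs (oB Δ C'), ∑ w ∈ (Δ.neighborFinset y).filter (· ∈ C'),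
              gr Δ r (↑S ∩ C') v1 w *
                ∑ x ∈ (fs (sph Δ o (R0 + 1 + K))).filter (¬ · ∈ C'), gr Δ r ↑S y x := by
          have h2 : ∀ x ∈ (fs (sph Δ o (R0 + 1 + K))).filter (¬ · ∈ C'), gr Δ r ↑S v1 x =
              ∑ y ∈ fs (oB Δ C'), ∑ w ∈ (Δ.neighborFinset y).filter (· ∈ C'),
                gr Δ r (↑S ∩ C') v1 w * gr Δ r ↑S y x := by
            intro x hx
            exact gr_exit H _ C' hoBf hvC' (Finset.mem_filter.mp hx).2
          rw [Finset.sum_congr rfl h2, Finset.sum_comm]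
          refine Finset.sum_congr rfl fun y _ => ?_
          rw [Finset.sum_comm]
          refine Finset.sum_congr rfl fun w _ => ?_
          rw [Finset.mul_sum]
        rw [h1]
        have h3 : ∀ y ∈ fs (oB Δ C'), ∑ w ∈ (Δ.neighborFinset y).filter (· ∈ C'),
              gr Δ r (↑S ∩ C') v1 w *
                ∑ x ∈ (fs (sph Δ o (R0 + 1 + K))).filter (¬ · ∈ C'), gr Δ r ↑S y x ≤
            r * (C * ρ ^ K * M) := by
          intro y hy
          rw [mem_fs hoBf] at hy
          have hyd : Δ.dist o y = R0 := oB_sub H hC' hy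
          have h4 : ∀ w ∈ (Δ.neighborFinset y).filter (· ∈ C'),
              gr Δ r (↑S ∩ C') v1 w *
                ∑ x ∈ (fs (sph Δ o (R0 + 1 + K))).filter (¬ · ∈ C'), gr Δ r ↑S y x ≤
              C * ρ ^ K * M := by
            intro w hw
            rw [Finset.mem_filter, SimpleGraph.mem_neighborFinset] at hw
            have h5 := sc_dist_adj H.conn (x := o) hw.1
            have h6 := H.conn.dist_triangle (u := o) (v := w) (w := v1)
            rw [SimpleGraph.dist_comm (u := w) (v := v1)] at h6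
            have h7 : K ≤ Δ.dist v1 w := by omega
            have h8 : gr Δ r (↑S ∩ C') v1 w ≤ C * ρ ^ K := by
              refine (hdec _ _ _).trans ?_
              exact mul_le_mul_of_nonneg_left (pow_le_pow_of_le_one hρ0.le hρ1.le h7) hC.le
            have h9 : ∑ x ∈ (fs (sph Δ o (R0 + 1 + K))).filter (¬ · ∈ C'), gr Δ r ↑S y x ≤ M := by
              refine le_trans ?_ (hM y)
              exact Finset.sum_le_sum_of_subset_of_nonneg (Finset.filter_subset _ _)
                (fun x _ _ => gr_nonneg H _ _ _)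
            exact mul_le_mul h8 h9 (Finset.sum_nonneg fun x _ => gr_nonneg H _ _ _)
              (by positivity)
          refine (Finset.sum_le_sum h4).trans ?_
          rw [Finset.sum_const, nsmul_eq_mul]
          refine mul_le_mul_of_nonneg_right ?_ (by positivity)
          have h10 : ((Δ.neighborFinset y).filter (· ∈ C')).card ≤ r := by
            rw [← H.reg y, ← SimpleGraph.card_neighborFinset_eq_degree]
            exact Finset.card_filter_le _ _
          exact_mod_cast h10
        refine (Finset.sum_le_sum h3).trans ?_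
        rw [Finset.sum_const, nsmul_eq_mul]
        have h11 : ((fs (oB Δ C')).card : ℝ) ≤ b := by exact_mod_cast hoBc
        have h12 : 0 ≤ (r : ℝ) * (C * ρ ^ K * M) := by positivity
        calc ((fs (oB Δ C')).card : ℝ) * (r * (C * ρ ^ K * M))
            ≤ b * (r * (C * ρ ^ K * M)) := mul_le_mul_of_nonneg_right h11 h12
          _ = (b * r * (C * ρ ^ K)) * M := by ring
          _ ≤ 1 / 2 * M := mul_le_mul_of_nonneg_right hK hM0.le
      rw [hv1M] at hsplit
      linarith

end Pool.Agent.Sand
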