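import Pool.Agent.SandFin.GEOC2
import Pool.Agent.SandFin.GEOD
import Pool.Agent.SandFin.SPEB2

/-! Task SPE-D : escape probability in cones, divergence.
Uses cb_finite, exists_bound, pk_nonneg, pk_zero_of_dist, exists_rho, gr_symm, cone_types
(replace the import of the stub by the real files). -/

set_option autoImplicit false
open scoped Classical

namespace Pool.Agent.Sand

variable {V : Type} (Δ : SimpleGraph V) [Δ.LocallyFinite]

namespace SPED

/-- probability that the walk stays in `S` up to time `t` -/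
noncomputable def sg (r : ℕ) (S : Set V) : ℕ → V → ℝ
  | 0, v => if v ∈ S then 1 else 0
  | t + 1, v => if v ∈ S then (1 / (r : ℝ)) * ∑ w ∈ Δ.neighborFinset v, sg r S t w else 0

variable {Δ}

theorem sg_nonneg (r : ℕ) (S : Set V) (t : ℕ) (v : V) : 0 ≤ sg Δ r S t v := by
  induction t generalizing v with
  | zero => unfold sg; split_ifs <;> norm_num
  | succ t ih =>
    unfold sg
    split_ifs
    · exact mul_nonneg (by positivity) (Finset.sum_nonneg fun w _ => ih w)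
    · exact le_rfl

theorem sg_zero (r : ℕ) (S : Set V) (t : ℕ) {v : V} (hv : v ∉ S) : sg Δ r S t v = 0 := by
  cases t <;> simp [sg, hv]

theorem sum_deg {r : ℕ} (hreg : ∀ v, Δ.degree v = r) (v : V) (c : ℝ) (f : V → ℝ)
    (hf : ∀ w ∈ Δ.neighborFinset v, f w ≤ c) (hr : 0 < r) :
    (1 / (r : ℝ)) * ∑ w ∈ Δ.neighborFinset v, f w ≤ c := by
  have h1 : ∑ w ∈ Δ.neighborFinset v, f w ≤ (Δ.neighborFinset v).card • c :=
    Finset.sum_le_card_nsmul _ _ _ hf
  rw [SimpleGraph.card_neighborFinset_eq_degree, hreg, nsmul_eq_mul] at h1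
  have hr' : (0 : ℝ) < r := by exact_mod_cast hr
  rw [div_mul_eq_mul_div, one_mul, div_le_iff₀ hr']
  linarith

theorem sg_le_one {r : ℕ} (hreg : ∀ v, Δ.degree v = r) (hr : 0 < r) (S : Set V) (t : ℕ) (v : V) :
    sg Δ r S t v ≤ 1 := by
  induction t generalizing v with
  | zero => unfold sg; split_ifs <;> norm_num
  | succ t ih =>
    unfold sg
    split_ifs
    · exact sum_deg hreg v 1 _ (fun w _ => ih w) hr
    · exact zero_le_one

theorem sg_anti {r : ℕ} (hreg : ∀ v, Δ.degree v = r) (hr : 0 < r) (S : Set V) (t : ℕ) (v : V) :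
    sg Δ r S (t + 1) v ≤ sg Δ r S t v := by
  induction t generalizing v with
  | zero =>
    by_cases hv : v ∈ S
    · rw [show sg Δ r S 0 v = 1 by simp [sg, hv]]
      exact sg_le_one hreg hr S 1 v
    · rw [sg_zero r S _ hv, sg_zero r S _ hv]
  | succ t ih =>
    by_cases hv : v ∈ S
    · rw [sg, if_pos hv]
      conv_rhs => rw [sg, if_pos hv]
      exact mul_le_mul_of_nonneg_left (Finset.sum_le_sum fun w _ => ih w) (by positivity)
    · rw [sg_zero r S _ hv, sg_zero r S _ hv]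

theorem sg_anti' {r : ℕ} (hreg : ∀ v, Δ.degree v = r) (hr : 0 < r) (S : Set V) (t j : ℕ) (v : V) :
    sg Δ r S (t + j) v ≤ sg Δ r S t v := by
  induction j with
  | zero => exact le_rfl
  | succ j ih => exact (sg_anti hreg hr S (t + j) v).trans ih

theorem sg_step {r : ℕ} (S : Set V) (t : ℕ) {v w : V} (hv : v ∈ S) (h : Δ.Adj v w) :
    (1 / (r : ℝ)) * sg Δ r S t w ≤ sg Δ r S (t + 1) v := by
  conv_rhs => rw [sg, if_pos hv]
  refine mul_le_mul_of_nonneg_left ?_ (by positivity)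
  exact Finset.single_le_sum (f := fun w => sg Δ r S t w) (fun w _ => sg_nonneg r S t w)
    ((Δ.mem_neighborFinset v w).2 h)

/-- along a walk in `S` -/
theorem sg_walk {r : ℕ} (S : Set V) {v x : ↥S} (p : (Δ.induce S).Walk v x) (t : ℕ) :
    (1 / (r : ℝ)) ^ p.length * sg Δ r S t x ≤ sg Δ r S (t + p.length) v := by
  induction p with
  | nil => simp
  | @cons a b c hab q ih =>
    rw [SimpleGraph.Walk.length_cons, pow_succ, ← add_assoc]
    have h1 := sg_step (r := r) S (t + q.length) (v := a) (w := b) a.2 hab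
    refine le_trans ?_ h1
    rw [mul_assoc, mul_comm (1 / (r : ℝ)) (sg Δ r S t c), ← mul_assoc, mul_comm _ (1 / (r : ℝ))]
    exact mul_le_mul_of_nonneg_left ih (by positivity)

/-- automorphisms -/
theorem sg_aut {r : ℕ} (φ : Δ ≃g Δ) (S : Set V) (t : ℕ) (v : V) :
    sg Δ r (φ '' S) t (φ v) = sg Δ r S t v := by
  have hm : ∀ v, φ v ∈ φ '' S ↔ v ∈ S := fun v => φ.injective.mem_set_image
  induction t generalizing v with
  | zero => simp only [sg, hm]
  | succ t ih =>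
    simp only [sg, hm]
    have : ∑ w ∈ Δ.neighborFinset (φ v), sg Δ r (φ '' S) t w =
        ∑ w ∈ Δ.neighborFinset v, sg Δ r S t w := by
      symm
      refine Finset.sum_bij (fun w _ => φ w) ?_ ?_ ?_ ?_
      · intro w hw
        rw [SimpleGraph.mem_neighborFinset] at hw ⊢
        exact φ.map_adj_iff.2 hw
      · intro w _ w' _ he
        exact φ.injective he
      · intro w hw
        rw [SimpleGraph.mem_neighborFinset] at hw
        refine ⟨φ.symm w, ?_, by simp⟩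
        rw [SimpleGraph.mem_neighborFinset]
        have := φ.symm.map_adj_iff.2 hw
        simpa using this
      · intro w _
        exact (ih w).symm
    rw [this]

/-- the sum of the transition probabilities -/
theorem sum_pk (hc : Δ.Connected) {r : ℕ} (S : Set V) (k : ℕ) (v : V) (X : Finset V)
    (hX : ∀ y ∈ S, Δ.dist v y ≤ k → y ∈ X) : ∑ x ∈ X, pk Δ r S k v x = sg Δ r S k v := by
  induction k generalizing v with
  | zero =>
    simp only [pk, sg]
    by_cases hv : v ∈ S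
    · have : v ∈ X := hX v hv (by simp)
      simp [hv, this]
    · simp [hv]
  | succ k ih =>
    simp only [pk, sg]
    by_cases hv : v ∈ S
    · simp only [if_pos hv]
      rw [← Finset.mul_sum, Finset.sum_comm]
      congr 1
      refine Finset.sum_congr rfl fun w hw => ih w fun y hy hd => hX y hy ?_
      rw [SimpleGraph.mem_neighborFinset] at hw
      have h1 : Δ.dist v y ≤ Δ.dist v w + Δ.dist w y := hc.dist_triangle
      have h2 : Δ.dist v w = 1 := SimpleGraph.dist_eq_one_iff_adj.2 hw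
      omega
    · simp [hv]

/-- only the ball matters -/
theorem sg_local (hc : Δ.Connected) {r : ℕ} (S S' : Set V) (k : ℕ) (v : V)
    (h : ∀ y, Δ.dist v y ≤ k → (y ∈ S ↔ y ∈ S')) : sg Δ r S k v = sg Δ r S' k v := by
  induction k generalizing v with
  | zero => simp only [sg, h v (by simp)]
  | succ k ih =>
    simp only [sg, h v (by simp)]
    congr 2
    refine Finset.sum_congr rfl fun w hw => ih w fun y hd => h y ?_
    rw [SimpleGraph.mem_neighborFinset] at hw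
    have h1 : Δ.dist v y ≤ Δ.dist v w + Δ.dist w y := hc.dist_triangle
    have h2 : Δ.dist v w = 1 := SimpleGraph.dist_eq_one_iff_adj.2 hw
    omega

theorem r_pos {r : ℕ} {h : ℝ} {D0 : ℕ} (H : Hyp Δ r h D0) : 0 < r := by
  obtain ⟨v⟩ := H.conn.nonempty
  by_contra hr
  have hr : r = 0 := by omega
  have h1 := H.iso {v}
  have h2 : bdE Δ {v} = 0 := by
    unfold bdE
    rw [Finset.sum_singleton, Finset.card_eq_zero]
    have h3 : (Δ.neighborFinset v).card = 0 := by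
      rw [SimpleGraph.card_neighborFinset_eq_degree, H.reg, hr]
    rw [Finset.card_eq_zero] at h3
    rw [h3]; simp
  rw [h2] at h1
  have := H.hpos
  simp at h1
  linarith

theorem exit_bound {r : ℕ} {h : ℝ} {D0 : ℕ} (H : Hyp Δ r h D0) (C : Set V) (F : Finset V)
    (hF : ∀ w ∈ oB Δ C, w ∈ F) (t : ℕ) (x : V) (hx : x ∈ C) :
    1 - sg Δ r C t x ≤ ∑ f ∈ F, ∑ k ∈ Finset.range (t + 1), pk Δ r Set.univ k x f := by
  have hr : 0 < r := r_pos H
  have hr' : (0 : ℝ) < r := by exact_mod_cast hr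
  induction t generalizing x with
  | zero =>
    rw [show sg Δ r C 0 x = 1 by simp [sg, hx], sub_self]
    exact Finset.sum_nonneg fun f _ => Finset.sum_nonneg fun k _ => pk_nonneg H _ _ _ _
  | succ t ih =>
    have hw : ∀ w ∈ Δ.neighborFinset x, 1 - sg Δ r C t w ≤
        ∑ f ∈ F, ∑ k ∈ Finset.range (t + 1), pk Δ r Set.univ k w f := by
      intro w hw
      by_cases hwC : w ∈ C
      · exact ih w hwC
      · rw [sg_zero r C t hwC, sub_zero]
        have hwF : w ∈ F := hF w ⟨hwC, x, hx, (Δ.mem_neighborFinset x w).1 hw⟩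
        have h1 : (1 : ℝ) = pk Δ r Set.univ 0 w w := by simp [pk]
        rw [h1]
        refine le_trans ?_ (Finset.single_le_sum (f := fun f => ∑ k ∈ Finset.range (t + 1),
          pk Δ r Set.univ k w f) (fun f _ => Finset.sum_nonneg fun k _ => pk_nonneg H _ _ _ _) hwF)
        exact Finset.single_le_sum (f := fun k => pk Δ r Set.univ k w w)
          (fun k _ => pk_nonneg H _ _ _ _) (Finset.mem_range.2 (by omega))
    have h2 : 1 - sg Δ r C (t + 1) x =
        (1 / (r : ℝ)) * ∑ w ∈ Δ.neighborFinset x, (1 - sg Δ r C t w) := by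
      rw [sg, if_pos hx, Finset.sum_sub_distrib, Finset.sum_const,
        SimpleGraph.card_neighborFinset_eq_degree, H.reg, nsmul_eq_mul]
      field_simp
    have h3 : (1 / (r : ℝ)) * ∑ w ∈ Δ.neighborFinset x,
        (∑ f ∈ F, ∑ k ∈ Finset.range (t + 1), pk Δ r Set.univ k w f) =
        ∑ f ∈ F, ∑ k ∈ Finset.range (t + 1), pk Δ r Set.univ (k + 1) x f := by
      simp only [pk, Set.mem_univ, if_true]
      simp only [← Finset.mul_sum]
      congr 1
      rw [Finset.sum_comm]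
      refine Finset.sum_congr rfl fun f _ => ?_
      rw [Finset.sum_comm]
    rw [h2]
    refine (mul_le_mul_of_nonneg_left (Finset.sum_le_sum hw) (by positivity)).trans ?_
    rw [h3]
    refine Finset.sum_le_sum fun f _ => ?_
    rw [Finset.sum_range_succ' _ (t + 1)]
    have := pk_nonneg H Set.univ 0 x f
    linarith

theorem far_sum {r : ℕ} {h : ℝ} {D0 : ℕ} (H : Hyp Δ r h D0) {ρ : ℝ} (h0 : 0 < ρ) (h1 : ρ < 1)
    (hρ : ∀ (S : Set V) k x y, pk Δ r S k x y ≤ ρ ^ k) (m n : ℕ) (x f : V)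
    (hd : n ≤ Δ.dist x f) :
    ∑ k ∈ Finset.range m, pk Δ r Set.univ k x f ≤ ρ ^ n / (1 - ρ) := by
  have e1 : ∑ k ∈ Finset.range m, pk Δ r Set.univ k x f ≤
      ∑ k ∈ Finset.range (n + m), pk Δ r Set.univ k x f := by
    refine Finset.sum_le_sum_of_subset_of_nonneg ?_ fun k _ _ => pk_nonneg H _ _ _ _
    intro k hk
    rw [Finset.mem_range] at hk ⊢
    omega
  refine e1.trans ?_
  rw [Finset.sum_range_add]
  have e2 : ∑ k ∈ Finset.range n, pk Δ r Set.univ k x f = 0 := by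
    refine Finset.sum_eq_zero fun k hk => pk_zero_of_dist H _ ?_
    rw [Finset.mem_range] at hk
    omega
  rw [e2, zero_add]
  calc ∑ k ∈ Finset.range m, pk Δ r Set.univ (n + k) x f
      ≤ ∑ k ∈ Finset.range m, ρ ^ n * ρ ^ k :=
        Finset.sum_le_sum fun k _ => by rw [← pow_add]; exact hρ _ _ _ _
    _ = ρ ^ n * ∑ k ∈ Finset.range m, ρ ^ k := by rw [Finset.mul_sum]
    _ ≤ ρ ^ n * (1 - ρ)⁻¹ := by
        refine mul_le_mul_of_nonneg_left ?_ (by positivity)
        rw [← tsum_geometric_of_lt_one h0.le h1]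
        exact (summable_geometric_of_lt_one h0.le h1).sum_le_tsum _ fun k _ => by positivity
    _ = _ := by rw [div_eq_mul_inv]

theorem cone_pos {r : ℕ} {h : ℝ} {D0 : ℕ} (H : Hyp Δ r h D0) {o : V} {R : ℕ} {C : Set V}
    (hC : Cone Δ o R C) {v : V} (hv : v ∈ C) : ∃ c : ℝ, 0 < c ∧ ∀ t, c ≤ sg Δ r C t v := by
  have hr : 0 < r := r_pos H
  have hr' : (0 : ℝ) < r := by exact_mod_cast hr
  obtain ⟨b, -, -, hb⟩ := exists_bound H
  obtain ⟨-, hfin, -⟩ := hb o R C hC.comp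
  obtain ⟨ρ, h0, h1, hρ⟩ := exists_rho H
  set F := fs (oB Δ C) with hF
  have hmemF : ∀ w, w ∈ F ↔ w ∈ oB Δ C := fun w => mem_fs hfin
  obtain ⟨n, hn⟩ : ∃ n : ℕ, (F.card : ℝ) * (ρ ^ n / (1 - ρ)) ≤ 1 / 2 := by
    have hlim : Filter.Tendsto (fun n : ℕ => (F.card : ℝ) * (ρ ^ n / (1 - ρ))) Filter.atTop
        (nhds ((F.card : ℝ) * (0 / (1 - ρ)))) :=
      ((tendsto_pow_atTop_nhds_zero_of_lt_one h0.le h1).div_const _).const_mul _
    rw [zero_div, mul_zero] at hlim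
    obtain ⟨n, hn⟩ := (hlim.eventually (gt_mem_nhds (show (0 : ℝ) < 1 / 2 by norm_num))).exists
    exact ⟨n, hn.le⟩
  obtain ⟨x, hxC, hxF⟩ : ∃ x ∈ C, ∀ f ∈ F, n ≤ Δ.dist x f := by
    have hfin2 : (⋃ f ∈ F, cb Δ f n).Finite :=
      Set.Finite.biUnion F.finite_toSet fun f _ => cb_finite H f n
    obtain ⟨x, hx1, hx2⟩ := (hC.inf.sdiff hfin2).nonempty
    refine ⟨x, hx1, fun f hf => ?_⟩
    by_contra hlt
    apply hx2
    simp only [Set.mem_iUnion]
    refine ⟨f, hf, ?_⟩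
    show Δ.dist f x ≤ n
    rw [SimpleGraph.dist_comm]
    omega
  have hx : ∀ t, 1 / 2 ≤ sg Δ r C t x := by
    intro t
    have e1 := exit_bound H C F (fun w hw => (hmemF w).2 hw) t x hxC
    have e2 : ∑ f ∈ F, ∑ k ∈ Finset.range (t + 1), pk Δ r Set.univ k x f ≤
        F.card • (ρ ^ n / (1 - ρ)) :=
      Finset.sum_le_card_nsmul _ _ _ fun f hf => far_sum H h0 h1 hρ _ _ _ _ (hxF f hf)
    rw [nsmul_eq_mul] at e2
    linarith
  obtain ⟨p⟩ := hC.comp.conn.preconnected ⟨v, hv⟩ ⟨x, hxC⟩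
  refine ⟨(1 / (r : ℝ)) ^ p.length * (1 / 2), by positivity, fun t => ?_⟩
  refine le_trans ?_ (sg_anti' H.reg hr C t p.length v)
  refine le_trans ?_ (sg_walk C p t)
  exact mul_le_mul_of_nonneg_left (hx t) (by positivity)

theorem finite_pos {ι : Type} (A : Set ι) (hA : A.Finite) (P : ι → ℝ → Prop)
    (hm : ∀ a c c', 0 < c' → c' ≤ c → P a c → P a c') (h : ∀ a ∈ A, ∃ c, 0 < c ∧ P a c) :
    ∃ c, 0 < c ∧ ∀ a ∈ A, P a c := by
  choose! c hc hP using h
  rcases hA.toFinset.eq_empty_or_nonempty with he | hne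
  · refine ⟨1, one_pos, fun a ha => ?_⟩
    have : a ∈ hA.toFinset := hA.mem_toFinset.2 ha
    rw [he] at this
    simp at this
  · obtain ⟨a0, ha0, hmin⟩ := Finset.exists_min_image hA.toFinset c hne
    refine ⟨c a0, hc a0 (hA.mem_toFinset.1 ha0), fun a ha => ?_⟩
    exact hm a (c a) (c a0) (hc a0 (hA.mem_toFinset.1 ha0)) (hmin a (hA.mem_toFinset.2 ha))
      (hP a ha)

theorem escape_sg {r : ℕ} {h : ℝ} {D0 : ℕ} (H : Hyp Δ r h D0) :
    ∃ c0 : ℝ, 0 < c0 ∧ ∀ o R C, Cone Δ o R C → ∀ v ∈ iB Δ C, ∀ t : ℕ, c0 ≤ sg Δ r C t v := by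
  obtain ⟨b, -, -, hb⟩ := exists_bound H
  obtain ⟨T, hT, hcone⟩ := cone_types Δ H
  obtain ⟨c0, hc0, hc⟩ := finite_pos T hT
    (fun C' c => ∀ o' R', Cone Δ o' R' C' → ∀ v ∈ iB Δ C', ∀ t : ℕ, c ≤ sg Δ r C' t v)
    (fun C' c c' _ hle hP o' R' hC v hv t => hle.trans (hP o' R' hC v hv t))
    (by
      intro C' _
      by_cases hC' : ∃ o' R', Cone Δ o' R' C'
      · obtain ⟨o', R', hC'⟩ := hC'
        obtain ⟨hfin, -⟩ := hb o' R' C' hC'.comp
        obtain ⟨c, hc, hP⟩ := finite_pos (iB Δ C') hfin (fun v c => ∀ t : ℕ, c ≤ sg Δ r C' t v)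
          (fun v c c' _ hle hP t => hle.trans (hP t)) (fun v hv => cone_pos H hC' hv.1)
        exact ⟨c, hc, fun _ _ _ v hv t => hP v hv t⟩
      · exact ⟨1, one_pos, fun o' R' hC => absurd ⟨o', R', hC⟩ hC'⟩)
  refine ⟨c0, hc0, ?_⟩
  intro o R C hC v hv t
  obtain ⟨C', hC'T, φ, hφ, o', R', hC'⟩ := hcone o R C hC
  obtain ⟨hvC, w, hwC, hvw⟩ := hv
  rw [← hφ] at hvC hwC
  obtain ⟨v', hv', rfl⟩ := hvC
  have hv'' : v' ∈ iB Δ C' := by
    refine ⟨hv', φ.symm w, ?_, ?_⟩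
    · intro hw
      apply hwC
      exact ⟨φ.symm w, hw, by simp⟩
    · have := φ.symm.map_adj_iff.2 hvw
      simpa using this
  rw [← hφ, sg_aut]
  exact hc C' hC'T o' R' hC' v' hv'' t

theorem pk_summable {r : ℕ} {h : ℝ} {D0 : ℕ} (H : Hyp Δ r h D0) (S : Set V) (x y : V) :
    Summable fun k => pk Δ r S k x y := by
  obtain ⟨ρ, h0, h1, hρ⟩ := exists_rho H
  exact Summable.of_nonneg_of_le (fun k => pk_nonneg H _ _ _ _) (fun k => hρ S k x y)
    (summable_geometric_of_lt_one h0.le h1)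

end SPED

open SPED

theorem escape {r : ℕ} {h : ℝ} {D0 : ℕ} (H : Hyp Δ r h D0) :
    ∃ c0 : ℝ, 0 < c0 ∧ ∀ o R C, Cone Δ o R C → ∀ v ∈ iB Δ C, ∀ t : ℕ,
      c0 ≤ ∑ x ∈ fs (cb Δ v t), pk Δ r C t v x := by
  obtain ⟨c0, hc0, hc⟩ := escape_sg H
  refine ⟨c0, hc0, fun o R C hC v hv t => ?_⟩
  rw [sum_pk H.conn C t v (fs (cb Δ v t)) fun y _ hd => (mem_fs (cb_finite H v t)).2 hd]
  exact hc o R C hC v hv t

/-- the expected total Green mass in a cone is infinite -/
theorem green_diverges {r : ℕ} {h : ℝ} {D0 : ℕ} (H : Hyp Δ r h D0) {o : V} {R : ℕ} {C : Set V}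
    (hC : Cone Δ o R C) (N : ℝ) : ∃ X : Finset V, ↑X ⊆ C ∧ ∀ S : Finset V, X ⊆ S → ↑S ⊆ C →
      N ≤ ∑ x ∈ X, ∑ v ∈ fs (iB Δ C), gr Δ r ↑S x v := by
  have hr : 0 < r := r_pos H
  have hr' : (0 : ℝ) < r := by exact_mod_cast hr
  obtain ⟨b, -, -, hb⟩ := exists_bound H
  obtain ⟨hfin, -, -, -, hne, -⟩ := hb o R C hC.comp
  obtain ⟨v0, hv0⟩ := hne
  obtain ⟨c0, hc0, hc⟩ := escape_sg H
  obtain ⟨T, hT⟩ := exists_nat_gt (N * r / c0)
  have hXfin : (cb Δ v0 T ∩ C).Finite := (cb_finite H v0 T).inter_of_left C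
  refine ⟨fs (cb Δ v0 T ∩ C), fun x hx => ((mem_fs hXfin).1 hx).2, ?_⟩
  intro S hXS hSC
  have hXmem : ∀ x, x ∈ fs (cb Δ v0 T ∩ C) ↔ x ∈ cb Δ v0 T ∩ C := fun x => mem_fs hXfin
  have key : ∀ k ∈ Finset.range T, c0 ≤ ∑ x ∈ fs (cb Δ v0 T ∩ C), pk Δ r ↑S k v0 x := by
    intro k hk
    rw [Finset.mem_range] at hk
    rw [sum_pk H.conn ↑S k v0 _ fun y hy hd => (hXmem y).2 ⟨le_trans hd hk.le, hSC hy⟩]
    rw [sg_local H.conn ↑S C k v0 fun y hd => ⟨fun hy => hSC hy, fun hy =>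
      hXS ((hXmem y).2 ⟨le_trans hd hk.le, hy⟩)⟩]
    exact hc o R C hC v0 hv0 k
  have h1 : ∀ x, (1 / (r : ℝ)) * ∑ k ∈ Finset.range T, pk Δ r ↑S k v0 x ≤
      ∑ v ∈ fs (iB Δ C), gr Δ r ↑S x v := by
    intro x
    have h2 : (1 / (r : ℝ)) * ∑ k ∈ Finset.range T, pk Δ r ↑S k v0 x ≤ gr Δ r ↑S x v0 := by
      rw [gr_symm H]
      unfold gr
      refine mul_le_mul_of_nonneg_left ?_ (by positivity)
      exact (pk_summable H _ _ _).sum_le_tsum _ fun k _ => pk_nonneg H _ _ _ _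
    refine h2.trans ?_
    exact Finset.single_le_sum (f := fun v => gr Δ r ↑S x v) (fun v _ => by
      unfold gr
      exact mul_nonneg (by positivity) (tsum_nonneg fun k => pk_nonneg H _ _ _ _))
      ((mem_fs hfin).2 hv0)
  refine le_trans ?_ (Finset.sum_le_sum fun x _ => h1 x)
  rw [← Finset.mul_sum, Finset.sum_comm]
  have h3 : T • c0 ≤ ∑ k ∈ Finset.range T, ∑ x ∈ fs (cb Δ v0 T ∩ C), pk Δ r ↑S k v0 x := by
    have := Finset.card_nsmul_le_sum (Finset.range T) _ c0 key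
    rwa [Finset.card_range] at this
  rw [nsmul_eq_mul] at h3
  have h4 : N ≤ (1 / (r : ℝ)) * (T * c0) := by
    rw [div_mul_eq_mul_div, one_mul, le_div_iff₀ hr']
    have := (div_lt_iff₀ hc0).1 hT
    linarith
  exact h4.trans (mul_le_mul_of_nonneg_left h3 (by positivity))

end Pool.Agent.Sand
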