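import Pool.Agent.SandFin.GEOA
import Pool.Agent.SandFin.GEOB
import Pool.Agent.SandFin.GEOC1
import Pool.Agent.SandFin.GEOC2
import Pool.Agent.SandFin.GEOD
import Pool.Agent.SandFin.GEOE
import Pool.Agent.SandFin.GEOF
import Pool.Agent.SandFin.SPEA
import Pool.Agent.SandFin.SPEB1
import Pool.Agent.SandFin.SPEB2
import Pool.Agent.SandFin.SPEC
import Pool.Agent.SandFin.SPED
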