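import Pool.Agent.SandFin.SPA2

/-! SP-A2, general form of `NN_dec`. -/

set_option autoImplicit false
open scoped Classical

namespace Pool.Agent.Sand

variable {V : Type} (Δ : SimpleGraph V) [Δ.LocallyFinite]

theorem a3_double (A B : Finset V) (g : V → ℝ) :
    ∑ w ∈ A, ∑ u ∈ Δ.neighborFinset w ∩ B, g u = ∑ u ∈ B, (nb Δ u A : ℝ) * g u := by
  have h1 : ∀ w, ∑ u ∈ Δ.neighborFinset w ∩ B, g u = ∑ u ∈ B, if Δ.Adj w u then g u else 0 := by
    intro w
    rw [← Finset.sum_filter]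
    apply Finset.sum_congr _ fun _ _ => rfl
    ext u
    simp [and_comm]
  rw [Finset.sum_congr rfl fun w _ => h1 w, Finset.sum_comm]
  apply Finset.sum_congr rfl
  intro u _
  rw [← Finset.sum_filter, Finset.sum_const, nsmul_eq_mul]
  congr 2
  unfold nb
  congr 1
  ext w
  simp [and_comm, Δ.adj_comm]

theorem a3_cross (A B : Finset V) (f : V → ℝ) :
    ∑ w ∈ A, ∑ u ∈ Δ.neighborFinset w ∩ B, f w * f u ≤
      (∑ w ∈ A, (nb Δ w B : ℝ) * f w ^ 2 + ∑ u ∈ B, (nb Δ u A : ℝ) * f u ^ 2) / 2 := by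
  have h1 : ∑ w ∈ A, ∑ u ∈ Δ.neighborFinset w ∩ B, f w * f u ≤
      ∑ w ∈ A, ∑ u ∈ Δ.neighborFinset w ∩ B, ((f w ^ 2) / 2 + (f u ^ 2) / 2) := by
    apply Finset.sum_le_sum
    intro w _
    apply Finset.sum_le_sum
    intro u _
    nlinarith [sq_nonneg (f w - f u)]
  have h2 : ∑ w ∈ A, ∑ u ∈ Δ.neighborFinset w ∩ B, ((f w ^ 2) / 2 + (f u ^ 2) / 2) =
      (∑ w ∈ A, (nb Δ w B : ℝ) * f w ^ 2) / 2 + (∑ u ∈ B, (nb Δ u A : ℝ) * f u ^ 2) / 2 := by
    rw [← a3_double Δ A B (fun u => f u ^ 2)]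
    simp only [Finset.sum_add_distrib, Finset.sum_const, nsmul_eq_mul, ← Finset.sum_div]
    congr 1
    rw [Finset.sum_div]
    apply Finset.sum_congr rfl
    intro w _
    unfold nb
    ring
  rw [h2] at h1
  linarith

section A
variable {Δ} {r : ℕ} {h : ℝ} {D0 : ℕ} (H : Hyp Δ r h D0)
include H

/-- lowering the degree by one inside a region `Y` with an isoperimetric inequality costs a bounded factor;
general form, `S` need not be contained in `Y` -/
theorem NN_dec' {Y : Set V} {h' : ℝ} (h0 : 0 < h')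
    (hY : ∀ X : Finset V, ↑X ⊆ Y → h' * (X.card : ℝ) ≤ (bdY Δ Y X : ℝ))
    (S : Finset V) (d : V → ℕ) (hd : ∀ v ∈ S, nb Δ v S ≤ d v)
    (hdY : ∀ v ∈ S, v ∈ Y → degY Δ Y v + nb Δ v (S.filter (· ∉ Y)) ≤ d v)
    {v : V} (hv : v ∈ S) (hvY : v ∈ Y)
    (hv' : degY Δ Y v + nb Δ v (S.filter (· ∉ Y)) + 1 ≤ d v) :
    ((h' ^ 2 / (2 * r)) / (1 + h' ^ 2 / (2 * r))) * (NN Δ S d : ℝ) ≤
      (NN Δ S (Function.update d v (d v - 1)) : ℝ) := by
  classical
  have hr := a2_r_pos H
  set κ : ℝ := h' ^ 2 / (2 * r) with hκ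
  have hκ0 : 0 < κ := by
    have : (0 : ℝ) < r := by exact_mod_cast hr
    positivity
  set S1 : Finset V := S.filter (· ∈ Y) with hS1
  set S2 : Finset V := S.filter (· ∉ Y) with hS2
  have hdisj : Disjoint S1 S2 := Finset.disjoint_filter_filter_not _ _ _
  have hun : S1 ∪ S2 = S := Finset.filter_union_filter_not_eq _ _
  have hnbS : ∀ w, nb Δ w S = nb Δ w S1 + nb Δ w S2 := by
    intro w
    unfold nb
    rw [← Finset.card_union_of_disjoint, ← Finset.inter_union_distrib_left, hun]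
    exact Finset.disjoint_of_subset_left Finset.inter_subset_right
      (Finset.disjoint_of_subset_right Finset.inter_subset_right hdisj)
  have hS1Y : (↑S1 : Set V) ⊆ Y := by
    intro w hw
    exact (Finset.mem_filter.1 (Finset.mem_coe.1 hw)).2
  have hv1 : v ∈ S1 := Finset.mem_filter.2 ⟨hv, hvY⟩
  have hnb' : ∀ w ∈ S.erase v, nb Δ w (S.erase v) ≤ d w := by
    intro w hw
    refine le_trans ?_ (hd w (Finset.mem_of_mem_erase hw))
    exact Finset.card_le_card (Finset.inter_subset_inter_left (Finset.erase_subset _ _))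
  have hdel := NN_del Δ S d hv (by
    have h1 := hnbS v
    have h2 := a2_nb_le_degY Δ hS1Y v
    omega)
  -- the matrix with lowered entry is positive semidefinite
  have hpsd : ((lapM Δ S d) - Matrix.diagonal (Pi.single (⟨v, hv⟩ : S) (1 + κ))).PosSemidef := by
    apply Matrix.PosSemidef.of_dotProduct_mulVec_nonneg
    · exact (a2_lapM_symm Δ S d).sub (Matrix.isHermitian_diagonal _)
    · intro x
      set f : V → ℝ := fun w => if hw : w ∈ S then x ⟨w, hw⟩ else 0 with hf
      have hfx : ∀ w : S, f w = x w := by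
        intro w
        rw [hf]
        simp
      rw [Matrix.sub_mulVec, dotProduct_sub, a2_quad Δ S d x f hfx]
      have h1 : star x ⬝ᵥ (Matrix.diagonal (Pi.single (⟨v, hv⟩ : S) (1 + κ))).mulVec x =
          (1 + κ) * f v ^ 2 := by
        rw [dotProduct]
        simp only [Matrix.mulVec_diagonal, Pi.star_apply, star_trivial]
        rw [Finset.sum_eq_single (⟨v, hv⟩ : S)]
        · rw [Pi.single_eq_same, ← hfx]
          ring
        · intro w _ hw
          rw [Pi.single_eq_of_ne hw]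
          ring
        · intro h
          exact absurd (Finset.mem_univ _) h
      rw [h1]
      have h2 := cheeger Δ r H.reg Y h' h0.le hY S1 hS1Y f
      -- splitting of the double sum
      have hsplit : ∀ A : Finset V, ∑ w ∈ A, ∑ u ∈ Δ.neighborFinset w ∩ S, f w * f u =
          ∑ w ∈ A, ∑ u ∈ Δ.neighborFinset w ∩ S1, f w * f u +
            ∑ w ∈ A, ∑ u ∈ Δ.neighborFinset w ∩ S2, f w * f u := by
        intro A
        rw [← Finset.sum_add_distrib]
        apply Finset.sum_congr rfl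
        intro w _
        rw [← Finset.sum_union, ← Finset.inter_union_distrib_left, hun]
        exact Finset.disjoint_of_subset_left Finset.inter_subset_right
          (Finset.disjoint_of_subset_right Finset.inter_subset_right hdisj)
      have htot : ∑ w ∈ S, ∑ u ∈ Δ.neighborFinset w ∩ S, f w * f u =
          ∑ w ∈ S1, ∑ u ∈ Δ.neighborFinset w ∩ S, f w * f u +
            ∑ w ∈ S2, ∑ u ∈ Δ.neighborFinset w ∩ S, f w * f u := by
        rw [← Finset.sum_union hdisj, hun]
      rw [hsplit S1, hsplit S2] at htot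
      have c12 := a3_cross Δ S1 S2 f
      have c21 := a3_cross Δ S2 S1 f
      have c22 := a3_cross Δ S2 S2 f
      have hd1 : ∑ w ∈ S, (d w : ℝ) * f w ^ 2 =
          ∑ w ∈ S1, (d w : ℝ) * f w ^ 2 + ∑ w ∈ S2, (d w : ℝ) * f w ^ 2 := by
        rw [← Finset.sum_union hdisj, hun]
      have e1 : ∑ w ∈ S1, (degY Δ Y w : ℝ) * f w ^ 2 + ∑ w ∈ S1, (nb Δ w S2 : ℝ) * f w ^ 2 + f v ^ 2 ≤
          ∑ w ∈ S1, (d w : ℝ) * f w ^ 2 := by
        rw [← Finset.sum_add_distrib, ← Finset.add_sum_erase S1 _ hv1,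
          ← Finset.add_sum_erase S1 (fun w => (d w : ℝ) * f w ^ 2) hv1]
        have h4 : ∑ w ∈ S1.erase v, ((degY Δ Y w : ℝ) * f w ^ 2 + (nb Δ w S2 : ℝ) * f w ^ 2) ≤
            ∑ w ∈ S1.erase v, (d w : ℝ) * f w ^ 2 := by
          apply Finset.sum_le_sum
          intro w hw
          rw [← add_mul]
          apply mul_le_mul_of_nonneg_right _ (sq_nonneg _)
          have hw1 := Finset.mem_filter.1 (Finset.mem_of_mem_erase hw)
          exact_mod_cast hdY w hw1.1 hw1.2
        have h5 : ((degY Δ Y v : ℝ) + nb Δ v S2 + 1) * f v ^ 2 ≤ (d v : ℝ) * f v ^ 2 := by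
          apply mul_le_mul_of_nonneg_right _ (sq_nonneg _)
          exact_mod_cast hv'
        nlinarith
      have e2 : ∑ w ∈ S2, (nb Δ w S1 : ℝ) * f w ^ 2 + ∑ w ∈ S2, (nb Δ w S2 : ℝ) * f w ^ 2 ≤
          ∑ w ∈ S2, (d w : ℝ) * f w ^ 2 := by
        rw [← Finset.sum_add_distrib]
        apply Finset.sum_le_sum
        intro w hw
        rw [← add_mul]
        apply mul_le_mul_of_nonneg_right _ (sq_nonneg _)
        have hw1 := Finset.mem_filter.1 hw
        have h6 := hd w hw1.1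
        rw [hnbS w] at h6
        exact_mod_cast h6
      have h6 : κ * f v ^ 2 ≤ κ * ∑ w ∈ S1, f w ^ 2 := by
        apply mul_le_mul_of_nonneg_left _ hκ0.le
        exact Finset.single_le_sum (f := fun w => f w ^ 2) (fun w _ => sq_nonneg _) hv1
      linarith
  have hdet := hpsd.det_nonneg
  rw [a2_det_sub, ← NN_det Δ S d hd, ← NN_det Δ (S.erase v) d hnb'] at hdet
  have hdel' : (NN Δ S d : ℝ) = NN Δ S (Function.update d v (d v - 1)) + NN Δ (S.erase v) d := by
    exact_mod_cast hdel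
  have h1κ : 0 < 1 + κ := by linarith
  rw [div_mul_eq_mul_div, div_le_iff₀ h1κ]
  nlinarith

end A

end Pool.Agent.Sand
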