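import Pool.Agent.SandFin.SPA1
import Pool.Agent.SandFin.All1

/-! SP-A2: comparison of numbers of recurrent configurations. -/

set_option autoImplicit false
open scoped Classical

namespace Pool.Agent.Sand

variable {V : Type} (Δ : SimpleGraph V) [Δ.LocallyFinite]

/-- the diagonal cofactor of the Laplacian matrix -/
theorem a2_det_updateRow (S : Finset V) (d : V → ℕ) (v : S) :
    ((lapM Δ S d).updateRow v (Pi.single v 1)).det = (lapM Δ (S.erase v.1) d).det := by
  classical
  set M := (lapM Δ S d).updateRow v (Pi.single v 1) with hM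
  rw [Matrix.twoBlockTriangular_det M (fun i : S => i ≠ v)]
  · have h1 : (M.toSquareBlockProp fun i => ¬ i ≠ v).det = 1 := by
      let _ : Unique {i : S // ¬ i ≠ v} :=
        ⟨⟨⟨v, by simp⟩⟩, fun i => Subtype.ext (by have := i.2; push Not at this; exact this)⟩
      have hdef : (default : {i : S // ¬ i ≠ v}) = ⟨v, by simp⟩ := Subsingleton.elim _ _
      rw [Matrix.det_unique, hdef]
      change M v v = 1
      simp [hM]
    have h2 : (M.toSquareBlockProp fun i => i ≠ v).det = (lapM Δ (S.erase v.1) d).det := by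
      let e : {i : S // i ≠ v} ≃ (S.erase v.1 : Finset V) :=
        { toFun := fun i => ⟨i.1.1, Finset.mem_erase.2 ⟨fun h => i.2 (Subtype.ext h), i.1.2⟩⟩
          invFun := fun i => ⟨⟨i.1, (Finset.mem_erase.1 i.2).2⟩,
            fun h => (Finset.mem_erase.1 i.2).1 (congrArg Subtype.val h)⟩
          left_inv := fun i => rfl
          right_inv := fun i => rfl }
      rw [← Matrix.det_submatrix_equiv_self e]
      congr 1
      ext i j
      change M i.1 j.1 = lapM Δ (S.erase v.1) d (e i) (e j)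
      rw [hM, Matrix.updateRow_ne i.2]
      unfold lapM
      by_cases h : i = j
      · subst h
        simp [e]
      · have h1 : i.1 ≠ j.1 := fun h' => h (Subtype.ext h')
        have h2 : e i ≠ e j := fun h' => h (e.injective h')
        rw [if_neg h1, if_neg h2]
        rfl
    rw [h1, h2, mul_one]
  · intro i hi j hj
    push Not at hi
    subst hi
    rw [hM, Matrix.updateRow_self, Pi.single_eq_of_ne hj]

/-- determinant after lowering one diagonal entry by a real number -/
theorem a2_det_sub (S : Finset V) (d : V → ℕ) (v : S) (c : ℝ) :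
    ((lapM Δ S d) - Matrix.diagonal (Pi.single v c)).det =
      (lapM Δ S d).det - c * (lapM Δ (S.erase v.1) d).det := by
  classical
  have h1 : (lapM Δ S d) - Matrix.diagonal (Pi.single v c) =
      (lapM Δ S d).updateRow v ((lapM Δ S d) v + (-c) • Pi.single v 1) := by
    ext i j
    by_cases hi : i = v
    · subst hi
      rw [Matrix.updateRow_self, Matrix.sub_apply, Pi.add_apply, Pi.smul_apply, Matrix.diagonal_apply]
      by_cases hj : i = j
      · subst hj
        simp
        ring
      · rw [if_neg hj, Pi.single_eq_of_ne (Ne.symm hj)]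
        simp
    · rw [Matrix.updateRow_ne hi, Matrix.sub_apply, Matrix.diagonal_apply]
      split_ifs with h
      · rw [Pi.single_eq_of_ne hi]
        simp
      · simp
  rw [h1, Matrix.det_updateRow_add, Matrix.updateRow_eq_self, Matrix.det_updateRow_smul,
    a2_det_updateRow]
  ring

/-- the quadratic form of the Laplacian matrix -/
theorem a2_quad (S : Finset V) (d : V → ℕ) (x : S → ℝ) (f : V → ℝ) (hf : ∀ v : S, f v = x v) :
    star x ⬝ᵥ (lapM Δ S d).mulVec x =
      ∑ v ∈ S, (d v : ℝ) * f v ^ 2 - ∑ v ∈ S, ∑ w ∈ Δ.neighborFinset v ∩ S, f v * f w := by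
  classical
  have h1 : ∀ v : S, (lapM Δ S d).mulVec x v =
      (d v : ℝ) * f v - ∑ w ∈ Δ.neighborFinset v ∩ S, f w := by
    intro v
    rw [Matrix.mulVec, dotProduct]
    have h2 : ∀ w : S, lapM Δ S d v w * x w = (if w = v then (d v : ℝ) * f v else 0) -
        (if Δ.Adj v w then f w else 0) := by
      intro w
      unfold lapM
      by_cases h : v = w
      · subst h
        rw [if_pos rfl, if_pos rfl, if_neg (Δ.irrefl), hf]
        ring
      · rw [if_neg h, if_neg (Ne.symm h), hf]
        split_ifs <;> ring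
    rw [Finset.sum_congr rfl fun w _ => h2 w, Finset.sum_sub_distrib]
    congr 1
    · rw [Finset.sum_ite_eq' Finset.univ v]
      simp
    · rw [Finset.sum_coe_sort S (fun w => if Δ.Adj v w then f w else 0), ← Finset.sum_filter]
      apply Finset.sum_congr _ fun _ _ => rfl
      ext w
      simp [and_comm]
  rw [dotProduct]
  have h3 : ∀ v : S, star x v * (lapM Δ S d).mulVec x v =
      (fun v : V => (d v : ℝ) * f v ^ 2 - ∑ w ∈ Δ.neighborFinset v ∩ S, f v * f w) v := by
    intro v
    rw [h1, Pi.star_apply, star_trivial, ← hf]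
    simp only
    rw [← Finset.mul_sum]
    ring
  rw [Finset.sum_congr rfl fun v _ => h3 v,
    Finset.sum_coe_sort S (fun v : V => (d v : ℝ) * f v ^ 2 -
      ∑ w ∈ Δ.neighborFinset v ∩ S, f v * f w), Finset.sum_sub_distrib]

theorem a2_lapM_symm (S : Finset V) (d : V → ℕ) : (lapM Δ S d).IsHermitian := by
  ext i j
  rw [Matrix.conjTranspose_apply, star_trivial]
  unfold lapM
  by_cases h : i = j
  · subst h
    rfl
  · rw [if_neg h, if_neg (Ne.symm h)]
    simp [Δ.adj_comm]

/-- number of recurrent configurations depends only on `d` on `S` -/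
theorem a2_NN_congr {S : Finset V} {d d' : V → ℕ} (h : ∀ v ∈ S, d v = d' v) :
    NN Δ S d = NN Δ S d' := by
  unfold NN rc
  congr 2
  ext χ
  rw [mem_stab, mem_stab]
  constructor
  · rintro ⟨h1, h2⟩
    exact ⟨fun v hv => by rw [← h v hv]; exact h1 v hv, h2⟩
  · rintro ⟨h1, h2⟩
    exact ⟨fun v hv => by rw [h v hv]; exact h1 v hv, h2⟩

theorem a2_nb_le_degY {Y : Set V} {S : Finset V} (hS : ↑S ⊆ Y) (v : V) :
    nb Δ v S ≤ degY Δ Y v := by
  unfold nb degY
  apply Finset.card_le_card
  intro w hw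
  rw [Finset.mem_inter] at hw
  exact Finset.mem_filter.2 ⟨hw.1, hS hw.2⟩

section A
variable {Δ} {r : ℕ} {h : ℝ} {D0 : ℕ} (H : Hyp Δ r h D0)
include H

theorem a2_r_pos : 1 ≤ r := by
  obtain ⟨v⟩ : Nonempty V := by
    have := H.inf
    infer_instance
  by_contra hr
  have hr0 : r = 0 := by omega
  have h1 := H.iso {v}
  have h2 : bdE Δ {v} = 0 := by
    unfold bdE
    rw [Finset.sum_singleton]
    have h3 : Δ.degree v = 0 := by rw [H.reg, hr0]
    have h4 : Δ.neighborFinset v = ∅ := by
      rw [← Finset.card_eq_zero]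
      exact h3
    rw [h4]
    simp
  rw [h2, Finset.card_singleton] at h1
  have := H.hpos
  norm_num at h1
  linarith

theorem NN_pos (S : Finset V) : 0 < NNr Δ r S := by
  apply Finset.card_pos.2
  refine ⟨fun v => if v ∈ S then r else 0, ?_⟩
  unfold rc
  rw [Finset.mem_filter, mem_stab]
  refine ⟨⟨fun v hv => ?_, fun v hv => ?_⟩, fun W hW hne => ?_⟩
  · rw [if_pos hv]
    exact ⟨a2_r_pos H, le_rfl⟩
  · rw [if_neg hv]
  · by_contra hcon
    push Not at hcon
    have h1 : bdE Δ W = 0 := by
      unfold bdE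
      apply Finset.sum_eq_zero
      intro v hv
      have h2 := hcon v hv
      simp only [if_pos (hW hv)] at h2
      unfold nb at h2
      have h3 : (Δ.neighborFinset v).card = r := by
        have := H.reg v
        exact this
      rw [Finset.card_eq_zero, Finset.sdiff_eq_empty_iff_subset]
      have h4 : Δ.neighborFinset v ∩ W = Δ.neighborFinset v :=
        Finset.eq_of_subset_of_card_le Finset.inter_subset_left (by rw [h3]; exact h2)
      exact Finset.inter_eq_left.1 h4
    have h2 := H.iso W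
    rw [h1] at h2
    have h3 : (0 : ℝ) < W.card := by exact_mod_cast Finset.card_pos.2 hne
    have := mul_pos H.hpos h3
    norm_num at h2
    linarith

theorem NN_dec {Y : Set V} {h' : ℝ} (h0 : 0 < h')
    (hY : ∀ X : Finset V, ↑X ⊆ Y → h' * (X.card : ℝ) ≤ (bdY Δ Y X : ℝ))
    (S : Finset V) (hS : ↑S ⊆ Y) (d : V → ℕ) (hd : ∀ v ∈ S, degY Δ Y v ≤ d v) {v : V} (hv : v ∈ S)
    (hv' : degY Δ Y v + 1 ≤ d v) :
    ((h' ^ 2 / (2 * r)) / (1 + h' ^ 2 / (2 * r))) * (NN Δ S d : ℝ) ≤
      (NN Δ S (Function.update d v (d v - 1)) : ℝ) := by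
  classical
  have hr := a2_r_pos H
  set κ : ℝ := h' ^ 2 / (2 * r) with hκ
  have hκ0 : 0 < κ := by
    have : (0 : ℝ) < r := by exact_mod_cast hr
    positivity
  have hnb : ∀ w ∈ S, nb Δ w S ≤ d w := fun w hw => (a2_nb_le_degY Δ hS w).trans (hd w hw)
  have hnb' : ∀ w ∈ S.erase v, nb Δ w (S.erase v) ≤ d w := by
    intro w hw
    refine le_trans ?_ (hnb w (Finset.mem_of_mem_erase hw))
    exact Finset.card_le_card (Finset.inter_subset_inter_left (Finset.erase_subset _ _))
  have hdel := NN_del Δ S d hv (lt_of_le_of_lt (a2_nb_le_degY Δ hS v) (by omega))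
  -- the matrix with lowered entry is positive semidefinite
  have hpsd : ((lapM Δ S d) - Matrix.diagonal (Pi.single (⟨v, hv⟩ : S) (1 + κ))).PosSemidef := by
    apply Matrix.PosSemidef.of_dotProduct_mulVec_nonneg
    · exact (a2_lapM_symm Δ S d).sub (Matrix.isHermitian_diagonal _)
    · intro x
      set f : V → ℝ := fun w => if hw : w ∈ S then x ⟨w, hw⟩ else 0 with hf
      have hfx : ∀ w : S, f w = x w := by
        intro w
        rw [hf]
        simp
      rw [Matrix.sub_mulVec, dotProduct_sub, a2_quad Δ S d x f hfx]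
      have h1 : star x ⬝ᵥ (Matrix.diagonal (Pi.single (⟨v, hv⟩ : S) (1 + κ))).mulVec x =
          (1 + κ) * f v ^ 2 := by
        rw [dotProduct]
        simp only [Matrix.mulVec_diagonal, Pi.star_apply, star_trivial]
        rw [Finset.sum_eq_single (⟨v, hv⟩ : S)]
        · rw [Pi.single_eq_same, ← hfx]
          ring
        · intro w _ hw
          rw [Pi.single_eq_of_ne hw]
          ring
        · intro h
          exact absurd (Finset.mem_univ _) h
      rw [h1]
      have h2 := cheeger Δ r H.reg Y h' h0.le hY S hS f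
      have h3 : ∑ w ∈ S, (degY Δ Y w : ℝ) * f w ^ 2 + f v ^ 2 ≤ ∑ w ∈ S, (d w : ℝ) * f w ^ 2 := by
        rw [← Finset.add_sum_erase S _ hv, ← Finset.add_sum_erase S (fun w => (d w : ℝ) * f w ^ 2) hv]
        have h4 : ∑ w ∈ S.erase v, (degY Δ Y w : ℝ) * f w ^ 2 ≤
            ∑ w ∈ S.erase v, (d w : ℝ) * f w ^ 2 := by
          apply Finset.sum_le_sum
          intro w hw
          apply mul_le_mul_of_nonneg_right _ (sq_nonneg _)
          exact_mod_cast hd w (Finset.mem_of_mem_erase hw)
        have h5 : ((degY Δ Y v : ℝ) + 1) * f v ^ 2 ≤ (d v : ℝ) * f v ^ 2 := by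
          apply mul_le_mul_of_nonneg_right _ (sq_nonneg _)
          exact_mod_cast hv'
        linarith
      have h6 : κ * f v ^ 2 ≤ κ * ∑ w ∈ S, f w ^ 2 := by
        apply mul_le_mul_of_nonneg_left _ hκ0.le
        exact Finset.single_le_sum (f := fun w => f w ^ 2) (fun w _ => sq_nonneg _) hv
      linarith
  have hdet := hpsd.det_nonneg
  rw [a2_det_sub, ← NN_det Δ S d hnb, ← NN_det Δ (S.erase v) d hnb'] at hdet
  have hdel' : (NN Δ S d : ℝ) = NN Δ S (Function.update d v (d v - 1)) + NN Δ (S.erase v) d := by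
    exact_mod_cast hdel
  have h1κ : 0 < 1 + κ := by linarith
  rw [div_mul_eq_mul_div, div_le_iff₀ h1κ]
  nlinarith

theorem NN_ratio (S : Finset V) {v : V} (hv : v ∈ S) :
    (NNr Δ r (S.erase v) : ℝ) = gr Δ r ↑S v v * (NNr Δ r S : ℝ) := by
  classical
  have hnb : ∀ (S : Finset V), ∀ w ∈ S, nb Δ w S ≤ r := by
    intro S w _
    have : (Δ.neighborFinset w).card = r := H.reg w
    rw [← this]
    exact Finset.card_le_card Finset.inter_subset_left
  have h1 := NN_det Δ S (fun _ => r) (hnb S)
  have h2 := NN_det Δ (S.erase v) (fun _ => r) (hnb _)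
  set A := lapM Δ S (fun _ => r) with hA
  let G : Matrix S S ℝ := fun x y => gr Δ r ↑S x y
  have hAG : A * G = 1 := by
    ext x y
    rw [Matrix.mul_apply, Matrix.one_apply]
    have h3 := gr_eq H (↑S : Set V) (x := x.1) (y := y.1) x.2 y.2
    have h4 : ∀ w : S, A x w * G w y = (if w = x then (r : ℝ) * gr Δ r ↑S x y else 0) -
        (if Δ.Adj x w then gr Δ r ↑S w y else 0) := by
      intro w
      change lapM Δ S (fun _ => r) x w * gr Δ r ↑S w y = _
      unfold lapM
      by_cases h : x = w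
      · subst h
        rw [if_pos rfl, if_pos rfl, if_neg (Δ.irrefl)]
        ring
      · rw [if_neg h, if_neg (Ne.symm h)]
        split_ifs <;> ring
    rw [Finset.sum_congr rfl fun w _ => h4 w, Finset.sum_sub_distrib,
      Finset.sum_ite_eq' Finset.univ x, if_pos (Finset.mem_univ _),
      Finset.sum_coe_sort S (fun w => if Δ.Adj x w then gr Δ r ↑S w y else 0),
      ← Finset.sum_filter]
    have h5 : ∑ w ∈ Δ.neighborFinset x, gr Δ r ↑S w y =
        ∑ w ∈ S.filter (fun w => Δ.Adj x w), gr Δ r ↑S w y := by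
      symm
      apply Finset.sum_subset
      · intro w hw
        rw [Finset.mem_filter] at hw
        rw [SimpleGraph.mem_neighborFinset]
        exact hw.2
      · intro w hw hw'
        apply gr_zero H
        left
        intro hwS
        apply hw'
        rw [Finset.mem_filter]
        rw [SimpleGraph.mem_neighborFinset] at hw
        exact ⟨hwS, hw⟩
    rw [← h5, h3]
    by_cases hxy : x = y
    · subst hxy
      rw [if_pos rfl, if_pos rfl]
    · rw [if_neg hxy, if_neg fun h => hxy (Subtype.ext h)]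
  have hinv : A⁻¹ = G := Matrix.inv_eq_right_inv hAG
  have hdet : A.det ≠ 0 := by
    intro h0
    have := congrArg Matrix.det hAG
    rw [Matrix.det_mul, h0, zero_mul, Matrix.det_one] at this
    exact zero_ne_one this
  have h6 : gr Δ r ↑S v v = A⁻¹ ⟨v, hv⟩ ⟨v, hv⟩ := by
    rw [hinv]
  rw [h6, Matrix.inv_def, Ring.inverse_eq_inv', Matrix.smul_apply, Matrix.adjugate_apply,
    a2_det_updateRow, h1, h2, smul_eq_mul]
  field_simp

theorem a2_rs_mem {S T : Finset V} (hST : S ⊆ T) {χ : V → ℕ} (hχ : χ ∈ rcr Δ r T) :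
    rs S χ ∈ rcr Δ r S := by
  unfold rcr rc at *
  rw [Finset.mem_filter, mem_stab] at *
  obtain ⟨⟨h1, h2⟩, h3⟩ := hχ
  refine ⟨⟨fun v hv => ?_, fun v hv => ?_⟩, fun W hW hne => ?_⟩
  · unfold rs
    rw [if_pos hv]
    exact h1 v (hST hv)
  · unfold rs
    rw [if_neg hv]
  · obtain ⟨v, hv, hlt⟩ := h3 W (hW.trans hST) hne
    refine ⟨v, hv, ?_⟩
    unfold rs
    rw [if_pos (hW hv)]
    exact hlt

theorem NN_union_le (S T : Finset V) (hST : Disjoint S T) :
    NNr Δ r (S ∪ T) ≤ NNr Δ r S * NNr Δ r T := by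
  unfold NNr NN
  rw [← Finset.card_product]
  apply Finset.card_le_card_of_injOn (fun χ => (rs S χ, rs T χ))
  · intro χ hχ
    rw [Finset.coe_product, Set.mem_prod]
    exact ⟨a2_rs_mem H Finset.subset_union_left hχ, a2_rs_mem H Finset.subset_union_right hχ⟩
  · intro χ hχ χ' hχ' heq
    have hχ1 := hχ
    have hχ1' := hχ'
    simp only [Finset.mem_coe, rc, Finset.mem_filter, mem_stab] at hχ1 hχ1'
    simp only [Prod.mk.injEq] at heq
    funext v
    have e1 := congrFun heq.1 v
    have e2 := congrFun heq.2 v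
    unfold rs at e1 e2
    by_cases hS : v ∈ S
    · rwa [if_pos hS, if_pos hS] at e1
    · by_cases hT : v ∈ T
      · rwa [if_pos hT, if_pos hT] at e2
      · have : v ∉ S ∪ T := by simp [hS, hT]
        rw [hχ1.1.2 v this, hχ1'.1.2 v this]

theorem a2_NN_le_pow (S : Finset V) : NNr Δ r S ≤ r ^ S.card := by
  unfold NNr NN rc
  refine (Finset.card_filter_le _ _).trans ?_
  unfold stab
  refine Finset.card_image_le.trans ?_
  rw [Finset.card_pi]
  simp

/-- lowering `d` to `degY` -/
theorem a2_lower {Y : Set V} {h' : ℝ} (h0 : 0 < h')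
    (hY : ∀ X : Finset V, ↑X ⊆ Y → h' * (X.card : ℝ) ≤ (bdY Δ Y X : ℝ))
    (S : Finset V) (hS : ↑S ⊆ Y) (n : ℕ) : ∀ (d : V → ℕ), (∀ v ∈ S, degY Δ Y v ≤ d v) →
      ∑ v ∈ S, (d v - degY Δ Y v) = n →
    ((h' ^ 2 / (2 * r)) / (1 + h' ^ 2 / (2 * r))) ^ n * (NN Δ S d : ℝ) ≤
      (NN Δ S (degY Δ Y) : ℝ) := by
  have hr := a2_r_pos H
  have hr' : (0 : ℝ) < r := by exact_mod_cast hr
  induction n with
  | zero =>
    intro d hd hn
    rw [pow_zero, one_mul, a2_NN_congr Δ (d := d) (d' := degY Δ Y)]
    intro v hv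
    have h1 := Finset.sum_eq_zero_iff.1 hn v hv
    have h2 := hd v hv
    omega
  | succ n ih =>
    intro d hd hn
    obtain ⟨v, hv, hlt⟩ : ∃ v ∈ S, degY Δ Y v < d v := by
      by_contra hcon
      push Not at hcon
      have : ∑ v ∈ S, (d v - degY Δ Y v) = 0 := by
        apply Finset.sum_eq_zero
        intro v hv
        have := hcon v hv
        omega
      omega
    have h1 := NN_dec H h0 hY S hS d hd hv hlt
    have h2 := ih (Function.update d v (d v - 1)) (by
      intro w hw
      by_cases hwv : w = v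
      · subst hwv
        rw [Function.update_self]
        omega
      · rw [Function.update_of_ne hwv]
        exact hd w hw) (by
      have e1 := Finset.add_sum_erase S (fun w => d w - degY Δ Y w) hv
      have e2 := Finset.add_sum_erase S
        (fun w => Function.update d v (d v - 1) w - degY Δ Y w) hv
      have e3 : ∑ w ∈ S.erase v, (Function.update d v (d v - 1) w - degY Δ Y w) =
          ∑ w ∈ S.erase v, (d w - degY Δ Y w) := by
        apply Finset.sum_congr rfl
        intro w hw
        rw [Function.update_of_ne (Finset.ne_of_mem_erase hw)]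
      simp only [Function.update_self] at e2
      omega)
    set c : ℝ := (h' ^ 2 / (2 * r)) / (1 + h' ^ 2 / (2 * r)) with hc
    have hc0 : 0 ≤ c := by positivity
    calc c ^ (n + 1) * (NN Δ S d : ℝ) = c ^ n * (c * (NN Δ S d : ℝ)) := by ring
      _ ≤ c ^ n * (NN Δ S (Function.update d v (d v - 1)) : ℝ) :=
        mul_le_mul_of_nonneg_left h1 (by positivity)
      _ ≤ _ := h2

/-- the number of edges from `S` to the outside of `Y` -/
theorem a2_edges {Y : Set V} {Q : Finset V}
    (hQ : ∀ v ∈ Y, ∀ w, Δ.Adj v w → w ∉ Y → w ∈ Q) (S : Finset V) (hS : ↑S ⊆ Y) :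
    ∑ v ∈ S, (r - degY Δ Y v) ≤ r * Q.card := by
  classical
  have h1 : ∀ v ∈ S, r - degY Δ Y v ≤ ∑ w ∈ Q, (if Δ.Adj v w then 1 else 0) := by
    intro v hv
    have h2 : (Δ.neighborFinset v).card = r := H.reg v
    have h3 := Finset.card_filter_add_card_filter_not (s := Δ.neighborFinset v) (fun w => w ∈ Y)
    have h4 : ((Δ.neighborFinset v).filter fun w => ¬ w ∈ Y).card ≤
        (Q.filter fun w => Δ.Adj v w).card := by
      apply Finset.card_le_card
      intro w hw
      rw [Finset.mem_filter, SimpleGraph.mem_neighborFinset] at hw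
      rw [Finset.mem_filter]
      exact ⟨hQ v (hS hv) w hw.1 hw.2, hw.1⟩
    rw [Finset.sum_boole]
    unfold degY
    simp only [Nat.cast_id]
    omega
  calc ∑ v ∈ S, (r - degY Δ Y v) ≤ ∑ v ∈ S, ∑ w ∈ Q, (if Δ.Adj v w then 1 else 0) :=
        Finset.sum_le_sum h1
    _ = ∑ w ∈ Q, ∑ v ∈ S, (if Δ.Adj v w then 1 else 0) := Finset.sum_comm
    _ ≤ ∑ w ∈ Q, r := by
        apply Finset.sum_le_sum
        intro w _
        rw [Finset.sum_boole]
        have h2 : (Δ.neighborFinset w).card = r := H.reg w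
        rw [← h2]
        simp only [Nat.cast_id]
        apply Finset.card_le_card
        intro v hv
        rw [Finset.mem_filter] at hv
        rw [SimpleGraph.mem_neighborFinset]
        exact hv.2.symm
    _ = r * Q.card := by
        rw [Finset.sum_const, smul_eq_mul, mul_comm]

/-- removing a bounded set and closing all edges to it costs a bounded factor, if the rest is free -/
theorem NN_free (q : ℕ) : ∃ c : ℝ, 0 < c ∧ ∀ (Y : Set V) (Q : Finset V), Q.card ≤ q → Free Δ Y →
    (∀ v ∈ Y, ∀ w, Δ.Adj v w → w ∉ Y → w ∈ Q) → ∀ S : Finset V, ↑S ⊆ Y ∪ ↑Q →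
      c * (NNr Δ r S : ℝ) ≤ (NN Δ (S.filter (· ∈ Y)) (degY Δ Y) : ℝ) := by
  classical
  have hr := a2_r_pos H
  have hr' : (0 : ℝ) < r := by exact_mod_cast hr
  set h' : ℝ := h / (2 * (r * q + 1)) with hh'
  have h0 : 0 < h' := by
    have := H.hpos
    positivity
  set c : ℝ := (h' ^ 2 / (2 * r)) / (1 + h' ^ 2 / (2 * r)) with hc
  have hc0 : 0 < c := by positivity
  have hc1 : c ≤ 1 := by
    rw [hc, div_le_one (by positivity)]
    linarith
  refine ⟨c ^ (r * q) * (1 / (r : ℝ) ^ q), by positivity, ?_⟩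
  intro Y Q hQq hfree hQ S hS
  have hY : ∀ X : Finset V, ↑X ⊆ Y → h' * (X.card : ℝ) ≤ (bdY Δ Y X : ℝ) := by
    intro X hX
    refine le_trans ?_ (iso_free Δ H hfree Q hQ X hX)
    apply mul_le_mul_of_nonneg_right _ (by positivity)
    rw [hh']
    apply div_le_div_of_nonneg_left H.hpos.le (by positivity)
    have : (Q.card : ℝ) ≤ q := by exact_mod_cast hQq
    have := mul_le_mul_of_nonneg_left this hr'.le
    linarith
  set S' := S.filter (· ∈ Y) with hS'
  set S'' := S.filter (fun v => ¬ v ∈ Y) with hS''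
  have hS'Y : (↑S' : Set V) ⊆ Y := by
    intro v hv
    exact (Finset.mem_filter.1 (Finset.mem_coe.1 hv)).2
  have h1 : NNr Δ r S ≤ NNr Δ r S' * NNr Δ r S'' := by
    have : S = S' ∪ S'' := (Finset.filter_union_filter_not_eq _ _).symm
    conv_lhs => rw [this]
    apply NN_union_le H
    exact Finset.disjoint_filter_filter_not _ _ _
  have h2 : NNr Δ r S'' ≤ r ^ q := by
    refine (a2_NN_le_pow H S'').trans ?_
    apply Nat.pow_le_pow_right hr
    refine le_trans (Finset.card_le_card ?_) hQq
    intro v hv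
    rw [hS'', Finset.mem_filter] at hv
    rcases hS (Finset.mem_coe.2 hv.1) with h | h
    · exact absurd h hv.2
    · exact Finset.mem_coe.1 h
  have h3 : (NNr Δ r S : ℝ) ≤ (NNr Δ r S' : ℝ) * (r : ℝ) ^ q := by
    have : NNr Δ r S ≤ NNr Δ r S' * r ^ q := h1.trans (Nat.mul_le_mul_left _ h2)
    exact_mod_cast this
  have hdeg : ∀ v ∈ S', degY Δ Y v ≤ r := by
    intro v _
    have h2 : (Δ.neighborFinset v).card = r := H.reg v
    rw [← h2]
    exact Finset.card_filter_le _ _
  have h4 := a2_lower H h0 hY S' hS'Y _ (fun _ => r) hdeg rfl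
  have h5 := a2_edges H hQ S' hS'Y
  have h6 : c ^ (r * q) ≤ c ^ (∑ v ∈ S', (r - degY Δ Y v)) :=
    pow_le_pow_of_le_one hc0.le hc1 (h5.trans (Nat.mul_le_mul_left _ hQq))
  calc c ^ (r * q) * (1 / (r : ℝ) ^ q) * (NNr Δ r S : ℝ)
      ≤ c ^ (r * q) * (1 / (r : ℝ) ^ q) * ((NNr Δ r S' : ℝ) * (r : ℝ) ^ q) :=
        mul_le_mul_of_nonneg_left h3 (by positivity)
    _ = c ^ (r * q) * (NNr Δ r S' : ℝ) := by
        field_simp
    _ ≤ c ^ (∑ v ∈ S', (r - degY Δ Y v)) * (NNr Δ r S' : ℝ) :=
        mul_le_mul_of_nonneg_right h6 (by positivity)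
    _ ≤ _ := h4

end A

end Pool.Agent.Sand
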