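import Pool.Agent.SandFin.SPB1
import Pool.Agent.SandFin.SPA2
import Pool.Agent.SandFin.All1

/-! Task SP-B2 (helper80): waves, burning, expectation of odometers. The statements at the top
(`odo_le` .. `NN_pos`) belong to SP-B1 / SP-A2 and are sorried here; remove them in the merge. -/

set_option autoImplicit false
open scoped Classical

namespace Pool.Agent.Sand

variable {V : Type} (Δ : SimpleGraph V) [Δ.LocallyFinite]

/-! ### SP-B2 -/

section B
variable {Δ} {r : ℕ}

theorem spb2_inc_ind (v : V) (U : Finset V) : inc Δ v (ind U) = nb Δ v U := by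
  unfold inc ind nb
  rw [Finset.sum_ite_mem, Finset.card_eq_sum_ones]

theorem spb2_nb_mono (v : V) {A B : Finset V} (h : A ⊆ B) : nb Δ v A ≤ nb Δ v B :=
  Finset.card_le_card (Finset.inter_subset_inter_left h)

theorem spb2_nb_union_le (v : V) (A B : Finset V) : nb Δ v (A ∪ B) ≤ nb Δ v A + nb Δ v B := by
  unfold nb
  rw [Finset.inter_union_distrib_left]
  exact Finset.card_union_le _ _

theorem spb2_nb_union (v : V) {A B : Finset V} (h : Disjoint A B) :
    nb Δ v (A ∪ B) = nb Δ v A + nb Δ v B := by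
  unfold nb
  rw [Finset.inter_union_distrib_left, Finset.card_union_of_disjoint]
  exact h.mono Finset.inter_subset_right Finset.inter_subset_right

theorem spb2_nb_self (v : V) : nb Δ v {v} = 0 := by
  unfold nb
  rw [Finset.card_eq_zero, Finset.inter_singleton_of_notMem]
  simp

theorem spb2_KK_sub (S U : Finset V) (χ : V → ℕ) : KK Δ r S χ U ⊆ S := Finset.filter_subset _ _

variable (hreg : ∀ v, Δ.degree v = r)
include hreg

theorem spb2_nb_le (v : V) (A : Finset V) : nb Δ v A ≤ r := by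
  rw [← hreg v, ← SimpleGraph.card_neighborFinset_eq_degree]
  exact Finset.card_le_card Finset.inter_subset_left

omit hreg in
theorem spb2_ind_le (U : Finset V) (v : V) : ind U v ≤ 1 := by
  unfold ind; split_ifs <;> simp

omit hreg in
theorem spb2_ind_zero {S U : Finset V} (hU : Disjoint S U) : ∀ v ∈ S, ind U v = 0 := by
  intro v hv
  unfold ind
  rw [if_neg (Finset.disjoint_left.1 hU hv)]

/-- for waves the odometer is an indicator -/
theorem odo_ind {S U : Finset V} {χ : V → ℕ} (hχ : ∀ v ∈ S, χ v ≤ r) (hU : Disjoint S U) :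
    odo Δ r S χ (ind U) = ind (KK Δ r S χ U) := by
  have h1 := odo_le_const hreg hχ (spb2_ind_le U) (spb2_ind_zero hU)
  have h2 := odo_stz (stz_const hreg hχ (spb2_ind_le U) (spb2_ind_zero hU))
  funext v
  unfold ind KK
  by_cases hv : v ∈ S
  · by_cases h0 : odo Δ r S χ (ind U) v = 0
    · rw [if_neg]
      · exact h0
      · simp [h0]
    · rw [if_pos]
      · have := h1 v
        show odo Δ r S χ (ind U) v = 1
        omega
      · simp only [Finset.mem_filter]
        exact ⟨hv, h0⟩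
  · rw [if_neg]
    · exact h2.1 v hv
    · simp [hv]

theorem spb2_stz {S U : Finset V} {χ : V → ℕ} (hχ : ∀ v ∈ S, χ v ≤ r) (hU : Disjoint S U)
    {v : V} (hv : v ∈ S) : χ v + nb Δ v (KK Δ r S χ U) + nb Δ v U ≤
      r + r * ind (KK Δ r S χ U) v := by
  have h2 := (odo_stz (stz_const hreg hχ (spb2_ind_le U) (spb2_ind_zero hU))).2 v hv
  rw [odo_ind hreg hχ hU, spb2_inc_ind, spb2_inc_ind] at h2
  exact h2

omit hreg in
theorem spb2_disj {S U : Finset V} {χ : V → ℕ} (hU : Disjoint S U) :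
    Disjoint U (KK Δ r S χ U) := (hU.mono_left (spb2_KK_sub S U χ)).symm

theorem KK_closed {S U : Finset V} {χ : V → ℕ} (hχ : ∀ v ∈ S, χ v ≤ r) (hU : Disjoint S U)
    {v : V} (hv : v ∈ S) (hK : v ∉ KK Δ r S χ U) : χ v + nb Δ v (U ∪ KK Δ r S χ U) ≤ r := by
  have h := spb2_stz hreg hχ hU hv
  have h0 : ind (KK Δ r S χ U) v = 0 := by unfold ind; rw [if_neg hK]
  rw [h0] at h
  rw [spb2_nb_union v (spb2_disj hU)]
  omega

theorem KK_least {S U : Finset V} {χ : V → ℕ} (hχ : ∀ v ∈ S, χ v ≤ r) (hU : Disjoint S U)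
    {X : Finset V} (hX : X ⊆ S) (hc : ∀ v ∈ S, v ∉ X → χ v + nb Δ v (U ∪ X) ≤ r) :
    KK Δ r S χ U ⊆ X := by
  have hUX : Disjoint U X := (hU.mono_left hX).symm
  have hst : Stz Δ r S χ (ind U) (ind X) := by
    refine ⟨fun v hv => ?_, fun v hv => ?_⟩
    · unfold ind; rw [if_neg (fun h => hv (hX h))]
    · rw [spb2_inc_ind, spb2_inc_ind]
      by_cases hvX : v ∈ X
      · have h1 : ind X v = 1 := by unfold ind; rw [if_pos hvX]
        have h2 := spb2_nb_le hreg v (U ∪ X)
        rw [spb2_nb_union v hUX] at h2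
        have h3 := hχ v hv
        rw [h1]; omega
      · have h1 : ind X v = 0 := by unfold ind; rw [if_neg hvX]
        have h2 := hc v hv hvX
        rw [spb2_nb_union v hUX] at h2
        rw [h1]; omega
  have hle := odo_le hst
  intro v hv
  by_contra hvX
  have h1 : odo Δ r S χ (ind U) v ≤ ind X v := hle v
  have h2 : ind X v = 0 := by unfold ind; rw [if_neg hvX]
  rw [h2] at h1
  have h3 := (Finset.mem_filter.1 hv).2
  omega

/-- every subset of a wave contains a vertex which topples when only the rest has toppled -/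
theorem KK_burn {S U : Finset V} {χ : V → ℕ} (hχ : ∀ v ∈ S, χ v ≤ r) (hU : Disjoint S U)
    {W : Finset V} (hW : W ⊆ KK Δ r S χ U) (hne : W.Nonempty) :
    ∃ v ∈ W, r < χ v + nb Δ v (U ∪ (KK Δ r S χ U \ W)) := by
  by_contra hcon
  push Not at hcon
  have hsub : KK Δ r S χ U ⊆ KK Δ r S χ U \ W := by
    refine KK_least hreg hχ hU (Finset.sdiff_subset.trans (spb2_KK_sub S U χ)) ?_
    intro v hv hvn
    by_cases hvW : v ∈ W
    · exact hcon v hvW
    · have hvK : v ∉ KK Δ r S χ U := fun h => hvn (Finset.mem_sdiff.2 ⟨h, hvW⟩)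
      have h1 := KK_closed hreg hχ hU hv hvK
      have h2 := spb2_nb_mono (Δ := Δ) v
        (Finset.union_subset_union_right (s := U) (Finset.sdiff_subset (s := KK Δ r S χ U) (t := W)))
      omega
  obtain ⟨w, hw⟩ := hne
  exact (Finset.mem_sdiff.1 (hsub (hW hw))).2 hw

theorem spb2_fire {S U : Finset V} {χ : V → ℕ} (hχ : ∀ v ∈ S, χ v ≤ r) (hU : Disjoint S U)
    {v : V} (hv : v ∈ S) : fire Δ r S χ (ind U) v + r * ind (KK Δ r S χ U) v =
      χ v + nb Δ v (KK Δ r S χ U) + nb Δ v U := by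
  unfold fire
  rw [if_pos hv, odo_ind hreg hχ hU, spb2_inc_ind, spb2_inc_ind]
  apply Nat.sub_add_cancel
  by_cases hvK : v ∈ KK Δ r S χ U
  · have h1 : ind (KK Δ r S χ U) v = 1 := by unfold ind; rw [if_pos hvK]
    rw [h1]
    obtain ⟨w, hw, hw2⟩ := KK_burn hreg hχ hU (Finset.singleton_subset_iff.2 hvK)
      (Finset.singleton_nonempty v)
    rw [Finset.mem_singleton] at hw
    subst hw
    have h2 := spb2_nb_union_le (Δ := Δ) w U (KK Δ r S χ U \ {w})
    have h3 := spb2_nb_mono (Δ := Δ) w (Finset.sdiff_subset (s := KK Δ r S χ U) (t := {w}))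
    omega
  · have h1 : ind (KK Δ r S χ U) v = 0 := by unfold ind; rw [if_neg hvK]
    rw [h1]; omega

omit hreg in
theorem spb2_rc_le {S : Finset V} {χ : V → ℕ} (hχ : χ ∈ rcr Δ r S) :
    ∀ v ∈ S, 1 ≤ χ v ∧ χ v ≤ r := by
  have h := (mem_stab.1 (Finset.mem_filter.1 hχ).1).1
  exact h

omit hreg in
theorem spb2_rc_rec {S : Finset V} {χ : V → ℕ} (hχ : χ ∈ rcr Δ r S) :
    ∀ W ⊆ S, W.Nonempty → ∃ v ∈ W, nb Δ v W < χ v := (Finset.mem_filter.1 hχ).2

theorem fire_rc {S U : Finset V} {χ : V → ℕ} (hχ : χ ∈ rcr Δ r S) (hU : Disjoint S U) :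
    fire Δ r S χ (ind U) ∈ rcr Δ r S := by
  have hle : ∀ v ∈ S, χ v ≤ r := fun v hv => (spb2_rc_le hχ v hv).2
  have hrec : ∀ W ⊆ S, W.Nonempty → ∃ v ∈ W, nb Δ v W < fire Δ r S χ (ind U) v := by
    intro W hW hne
    by_cases hWK : (W \ KK Δ r S χ U).Nonempty
    · obtain ⟨v, hv, hv2⟩ := spb2_rc_rec hχ _ (Finset.sdiff_subset.trans hW) hWK
      refine ⟨v, (Finset.mem_sdiff.1 hv).1, ?_⟩
      have h1 := spb2_fire hreg hle hU (hW (Finset.mem_sdiff.1 hv).1)
      have h0 : ind (KK Δ r S χ U) v = 0 := by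
        unfold ind; rw [if_neg (Finset.mem_sdiff.1 hv).2]
      rw [h0] at h1
      have h2 : nb Δ v W ≤ nb Δ v (W \ KK Δ r S χ U) + nb Δ v (KK Δ r S χ U) := by
        refine le_trans (spb2_nb_mono v ?_) (spb2_nb_union_le v _ _)
        rw [Finset.sdiff_union_self_eq_union]
        exact Finset.subset_union_left
      omega
    · rw [Finset.not_nonempty_iff_eq_empty, Finset.sdiff_eq_empty_iff_subset] at hWK
      obtain ⟨v, hv, hv2⟩ := KK_burn hreg hle hU hWK hne
      refine ⟨v, hv, ?_⟩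
      have h1 := spb2_fire hreg hle hU (hW hv)
      have h0 : ind (KK Δ r S χ U) v = 1 := by
        unfold ind; rw [if_pos (hWK hv)]
      rw [h0] at h1
      have h2 : nb Δ v (KK Δ r S χ U) = nb Δ v W + nb Δ v (KK Δ r S χ U \ W) := by
        rw [← spb2_nb_union v Finset.disjoint_sdiff, Finset.union_sdiff_of_subset hWK]
      have h3 := spb2_nb_union_le (Δ := Δ) v U (KK Δ r S χ U \ W)
      omega
  refine Finset.mem_filter.2 ⟨mem_stab.2 ⟨fun v hv => ⟨?_, ?_⟩, fun v hv => ?_⟩, hrec⟩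
  · obtain ⟨w, hw, hw2⟩ := hrec {v} (Finset.singleton_subset_iff.2 hv) (Finset.singleton_nonempty v)
    rw [Finset.mem_singleton] at hw
    subst hw
    omega
  · exact fire_stable hreg hle (spb2_ind_zero hU) ⟨1, spb2_ind_le U⟩ v
  · unfold fire; rw [if_neg hv]

/-- duality between waves and unburnt sets -/
theorem LL_fire {S U : Finset V} {χ : V → ℕ} (hχ : χ ∈ rcr Δ r S) (hU : Disjoint S U) :
    LL Δ S (fire Δ r S χ (ind U)) U = KK Δ r S χ U := by
  have hle : ∀ v ∈ S, χ v ≤ r := fun v hv => (spb2_rc_le hχ v hv).2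
  apply Finset.Subset.antisymm
  · intro v hv
    obtain ⟨hvS, W, hW, hvW, hw⟩ := Finset.mem_filter.1 hv
    by_contra hvK
    have hne : (W \ KK Δ r S χ U).Nonempty := ⟨v, Finset.mem_sdiff.2 ⟨hvW, hvK⟩⟩
    obtain ⟨x, hx, hx2⟩ := spb2_rc_rec hχ _ (Finset.sdiff_subset.trans hW) hne
    obtain ⟨hxW, hxK⟩ := Finset.mem_sdiff.1 hx
    have h1 := spb2_fire hreg hle hU (hW hxW)
    have h0 : ind (KK Δ r S χ U) x = 0 := by unfold ind; rw [if_neg hxK]
    rw [h0] at h1
    have h2 := hw x hxW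
    have h3 : nb Δ x (W ∪ U) ≤
        nb Δ x (W \ KK Δ r S χ U) + nb Δ x (KK Δ r S χ U) + nb Δ x U := by
      refine le_trans (spb2_nb_union_le x W U) ?_
      refine Nat.add_le_add_right ?_ _
      refine le_trans (spb2_nb_mono x ?_) (spb2_nb_union_le x _ _)
      rw [Finset.sdiff_union_self_eq_union]
      exact Finset.subset_union_left
    omega
  · intro v hv
    refine Finset.mem_filter.2 ⟨spb2_KK_sub S U χ hv, KK Δ r S χ U, spb2_KK_sub S U χ, hv, ?_⟩
    intro w hw
    have h1 := spb2_fire hreg hle hU (spb2_KK_sub S U χ hw)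
    have h0 : ind (KK Δ r S χ U) w = 1 := by unfold ind; rw [if_pos hw]
    rw [h0] at h1
    have h2 := hle w (spb2_KK_sub S U χ hw)
    rw [spb2_nb_union w (spb2_disj hU).symm]
    omega

theorem fire_injOn {S U : Finset V} (hU : Disjoint S U) :
    Set.InjOn (fun χ => fire Δ r S χ (ind U)) ↑(rcr Δ r S) := by
  intro χ hχ χ' hχ' heq
  have hχ1 : χ ∈ rcr Δ r S := hχ
  have hχ1' : χ' ∈ rcr Δ r S := hχ'
  have heq' : fire Δ r S χ (ind U) = fire Δ r S χ' (ind U) := heq
  have hK : KK Δ r S χ U = KK Δ r S χ' U := by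
    rw [← LL_fire hreg hχ1 hU, ← LL_fire hreg hχ1' hU, heq']
  funext v
  by_cases hv : v ∈ S
  · have h1 := spb2_fire hreg (fun v hv => (spb2_rc_le hχ1 v hv).2) hU hv
    have h2 := spb2_fire hreg (fun v hv => (spb2_rc_le hχ1' v hv).2) hU hv
    rw [← hK, ← heq'] at h2
    omega
  · have h1 := (mem_stab.1 (Finset.mem_filter.1 hχ1).1).2 v hv
    have h2 := (mem_stab.1 (Finset.mem_filter.1 hχ1').1).2 v hv
    rw [h1, h2]

theorem spb2_sum_ind {S U : Finset V} (hU : Disjoint S U) (f : (V → ℕ) → ℝ) :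
    ∑ χ ∈ rcr Δ r S, f (fire Δ r S χ (ind U)) = ∑ χ ∈ rcr Δ r S, f χ := by
  have himg : (rcr Δ r S).image (fun χ => fire Δ r S χ (ind U)) = rcr Δ r S := by
    apply Finset.eq_of_subset_of_card_le
    · intro η hη
      obtain ⟨χ, hχ, rfl⟩ := Finset.mem_image.1 hη
      exact fire_rc hreg hχ hU
    · rw [Finset.card_image_of_injOn (fire_injOn hreg hU)]
  calc ∑ χ ∈ rcr Δ r S, f (fire Δ r S χ (ind U))
      = ∑ η ∈ (rcr Δ r S).image (fun χ => fire Δ r S χ (ind U)), f η := by
        rw [Finset.sum_image (fire_injOn hreg hU)]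
    _ = _ := by rw [himg]

omit hreg in
/-- the odometer and the fired configuration depend on `n` only through the inflow on `S` -/
theorem spb2_fire_congr {S : Finset V} {n n' : V → ℕ} (h : ∀ v ∈ S, inc Δ v n = inc Δ v n')
    (χ : V → ℕ) : fire Δ r S χ n = fire Δ r S χ n' := by
  have hst : ∀ u, Stz Δ r S χ n u ↔ Stz Δ r S χ n' u := by
    intro u
    unfold Stz
    refine and_congr Iff.rfl (forall₂_congr fun v hv => ?_)
    rw [h v hv]
  have ho : odo Δ r S χ n = odo Δ r S χ n' := by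
    unfold odo
    simp only [hst]
  funext v
  unfold fire
  by_cases hv : v ∈ S
  · rw [if_pos hv, if_pos hv, ho, h v hv]
  · rw [if_neg hv, if_neg hv]

theorem spb2_sum_fin : ∀ (q : ℕ) {S : Finset V} {n : V → ℕ} (F : Finset V)
    (_ : Disjoint S F) (_ : ∀ v, v ∉ F → n v = 0) (_ : ∀ v, n v ≤ q) (f : (V → ℕ) → ℝ),
    ∑ χ ∈ rcr Δ r S, f (fire Δ r S χ n) = ∑ χ ∈ rcr Δ r S, f χ := by
  intro q
  induction q with
  | zero =>
    intro S n F hF hn0 hn f
    refine Finset.sum_congr rfl fun χ hχ => ?_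
    have hle : ∀ v ∈ S, χ v ≤ r := fun v hv => (spb2_rc_le hχ v hv).2
    have ho : ∀ v, odo Δ r S χ n v = 0 := fun v => Nat.le_zero.1
      (odo_le_const hreg hle hn (fun v hv => Nat.le_zero.1 (hn v)) v)
    congr 1
    funext v
    unfold fire
    by_cases hv : v ∈ S
    · rw [if_pos hv, ho v]
      have h1 : inc Δ v (odo Δ r S χ n) = 0 := by
        unfold inc; exact Finset.sum_eq_zero fun w _ => ho w
      have h2 : inc Δ v n = 0 := by
        unfold inc; exact Finset.sum_eq_zero fun w _ => Nat.le_zero.1 (hn w)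
      rw [h1, h2]; simp
    · rw [if_neg hv]
      exact ((mem_stab.1 (Finset.mem_filter.1 hχ).1).2 v hv).symm
  | succ q ih =>
    intro S n F hF hn0 hn f
    let U : Finset V := F.filter (fun v => q + 1 ≤ n v)
    let n1 : V → ℕ := fun v => min (n v) q
    have hU : Disjoint S U := hF.mono_right (Finset.filter_subset _ _)
    have hn1F : ∀ v, v ∉ F → n1 v = 0 := fun v hv => by simp [n1, hn0 v hv]
    have hn1S : ∀ v ∈ S, n1 v = 0 := fun v hv => hn1F v (Finset.disjoint_left.1 hF hv)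
    have hn1 : ∀ v, n1 v ≤ q := fun v => min_le_right _ _
    have hsum : n = n1 + ind U := by
      funext v
      simp only [Pi.add_apply, n1, ind, U, Finset.mem_filter]
      have h1 := hn v
      by_cases hvF : v ∈ F
      · by_cases h2 : q + 1 ≤ n v
        · rw [if_pos ⟨hvF, h2⟩]; omega
        · rw [if_neg (fun h => h2 h.2)]; omega
      · rw [if_neg (fun h => hvF h.1), hn0 v hvF]; simp
    have h1 : ∀ χ ∈ rcr Δ r S, f (fire Δ r S χ n) =
        (fun η => f (fire Δ r S η (ind U))) (fire Δ r S χ n1) := by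
      intro χ hχ
      show f (fire Δ r S χ n) = f (fire Δ r S (fire Δ r S χ n1) (ind U))
      rw [← fire_add hreg (spb2_rc_le hχ) hn1S (spb2_ind_zero hU)
        ⟨q + 1, fun v => ⟨(hn1 v).trans (Nat.le_succ q), (spb2_ind_le U v).trans (by omega)⟩⟩,
        ← hsum]
    exact (Finset.sum_congr rfl h1).trans
      ((ih F hF hn1F hn1 (fun η => f (fire Δ r S η (ind U)))).trans (spb2_sum_ind hreg hU f))

/-- firing preserves the uniform measure -/
theorem sum_fire {S : Finset V} {n : V → ℕ} (hn0 : ∀ v ∈ S, n v = 0) (hfin : ∃ q, ∀ v, n v ≤ q)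
    (f : (V → ℕ) → ℝ) :
    ∑ χ ∈ rcr Δ r S, f (fire Δ r S χ n) = ∑ χ ∈ rcr Δ r S, f χ := by
  obtain ⟨q, hq⟩ := hfin
  let F : Finset V := (S.biUnion fun v => Δ.neighborFinset v) \ S
  let n' : V → ℕ := fun v => if v ∈ F then n v else 0
  have hinc : ∀ v ∈ S, inc Δ v n = inc Δ v n' := by
    intro v hv
    unfold inc
    refine Finset.sum_congr rfl fun w hw => ?_
    by_cases hwS : w ∈ S
    · have : w ∉ F := fun h => (Finset.mem_sdiff.1 h).2 hwS
      simp only [n', if_neg this]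
      exact hn0 w hwS
    · have : w ∈ F := Finset.mem_sdiff.2 ⟨Finset.mem_biUnion.2 ⟨v, hv, hw⟩, hwS⟩
      simp only [n', if_pos this]
  rw [Finset.sum_congr rfl fun χ _ => by rw [spb2_fire_congr hinc χ]]
  refine spb2_sum_fin hreg q F Finset.disjoint_sdiff (fun v hv => by simp [n', hv]) (fun v => ?_) f
  simp only [n']
  split_ifs
  · exact hq v
  · exact Nat.zero_le _

omit hreg in
/-- a vertex never topples more often than it can -/
theorem spb2_no_over {S : Finset V} {χ n u : V → ℕ} (hu : Stz Δ r S χ n u) {x : V} (hx : x ∈ S) :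
    r * odo Δ r S χ n x ≤ χ x + inc Δ x (odo Δ r S χ n) + inc Δ x n := by
  by_contra hcon
  push Not at hcon
  have hst := odo_stz hu
  set o := odo Δ r S χ n with ho
  have hpos : 1 ≤ o x := by
    rcases Nat.eq_zero_or_pos (o x) with h | h
    · rw [h] at hcon; omega
    · exact h
  have hinc : ∀ v, inc Δ v (Function.update o x (o x - 1)) ≤ inc Δ v o := by
    intro v
    unfold inc
    refine Finset.sum_le_sum fun w _ => ?_
    by_cases hw : w = x
    · subst hw; rw [Function.update_self]; omega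
    · rw [Function.update_of_ne hw]
  have h' : Stz Δ r S χ n (Function.update o x (o x - 1)) := by
    refine ⟨fun v hv => ?_, fun v hv => ?_⟩
    · have hvx : v ≠ x := fun h => hv (h ▸ hx)
      rw [Function.update_of_ne hvx]
      exact hst.1 v hv
    · by_cases hvx : v = x
      · subst hvx
        rw [Function.update_self]
        have h1 := hinc v
        have h2 : r + r * (o v - 1) = r * o v := by
          obtain ⟨m, hm⟩ : ∃ m, o v = m + 1 := ⟨o v - 1, by omega⟩
          rw [hm]; simp only [Nat.add_sub_cancel]; ring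
        rw [h2]; omega
      · rw [Function.update_of_ne hvx]
        have h1 := hinc v
        have h2 := hst.2 v hv
        omega
  have h3 : odo Δ r S χ n x ≤ Function.update o x (o x - 1) x := odo_le h' x
  rw [Function.update_self, ← ho] at h3
  omega

end B

section B2
variable {Δ} {r : ℕ} {h : ℝ} {D0 : ℕ} (H : Hyp Δ r h D0)
include H

theorem ex_odo {S : Finset V} {n : V → ℕ} (hn0 : ∀ v ∈ S, n v = 0) (hfin : ∃ q, ∀ v, n v ≤ q)
    (x : V) : ex Δ r S (fun χ => (odo Δ r S χ n x : ℝ)) = ∑ y ∈ S, gr Δ r ↑S x y * (inc Δ y n : ℝ) := by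
  obtain ⟨q, hq⟩ := id hfin
  have hN : (0 : ℝ) < (NNr Δ r S : ℝ) := by exact_mod_cast NN_pos H S
  refine gr_solve H S (fun v => ex Δ r S (fun χ => (odo Δ r S χ n v : ℝ)))
    (fun y => (inc Δ y n : ℝ)) ?_ ?_ x
  · intro v hv
    unfold ex
    rw [Finset.sum_eq_zero, zero_div]
    intro χ hχ
    have h1 := odo_stz (stz_const H.reg (fun v hv => (spb2_rc_le hχ v hv).2) hq hn0)
    rw [h1.1 v hv]; simp
  · intro y hy
    have key : ∀ χ ∈ rcr Δ r S, (fire Δ r S χ n y : ℝ) =
        χ y + (∑ w ∈ Δ.neighborFinset y, (odo Δ r S χ n w : ℝ)) + inc Δ y n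
          - r * (odo Δ r S χ n y : ℝ) := by
      intro χ hχ
      have h1 := spb2_no_over (stz_const H.reg (fun v hv => (spb2_rc_le hχ v hv).2) hq hn0) hy
      unfold fire
      rw [if_pos hy, Nat.cast_sub h1]
      push_cast
      unfold inc
      push_cast
      ring
    have hs := sum_fire H.reg hn0 hfin (fun η => (η y : ℝ))
    rw [Finset.sum_congr rfl key] at hs
    simp only [Finset.sum_sub_distrib, Finset.sum_add_distrib, Finset.sum_const, nsmul_eq_mul] at hs
    rw [← Finset.mul_sum, Finset.sum_comm] at hs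
    have hcard : ((rcr Δ r S).card : ℝ) = (NNr Δ r S : ℝ) := rfl
    rw [hcard] at hs
    unfold ex
    rw [← Finset.sum_div, mul_div_assoc', div_sub_div_same, div_eq_iff hN.ne']
    linarith

theorem pr_KK {S U : Finset V} (hU : Disjoint S U) (x : V) :
    pr Δ r S (fun χ => x ∈ KK Δ r S χ U) = ∑ y ∈ S, gr Δ r ↑S x y * (nb Δ y U : ℝ) := by
  have h1 := ex_odo H (spb2_ind_zero hU) ⟨1, spb2_ind_le U⟩ x
  simp only [spb2_inc_ind] at h1
  rw [← h1]
  unfold pr ex
  congr 1
  rw [Finset.card_eq_sum_ones, Nat.cast_sum, Finset.sum_filter]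
  refine Finset.sum_congr rfl fun χ hχ => ?_
  show _ = ((odo Δ r S χ (ind U) x : ℕ) : ℝ)
  rw [odo_ind H.reg (fun v hv => (spb2_rc_le hχ v hv).2) hU]
  unfold ind
  split_ifs <;> simp

end B2

end Pool.Agent.Sand
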