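import Pool.Agent.SandFin.SPC

/-! Re-export of the statements on waves. -/

set_option autoImplicit false

namespace Pool.Agent.Sand

export SPD (count_wave count_L count_local)
export SPC (avo_stz avo_zero rs_erase_rc avo_off avo_le avo_waves wave_sum ex_avo)

end Pool.Agent.Sand
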