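import Pool.Agent.SandFin.All1
import Pool.Agent.SandFin.SPX
import Pool.Agent.SandFin.SPA3
import Pool.Agent.SandFin.SPB2
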