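import Pool.Agent.SandFin.All2

/-! Domination in cones: `dom_good`, `good_glue`, `dom_union`. -/

set_option autoImplicit false
open scoped Classical

namespace Pool.Agent.Sand

variable {V : Type} (Δ : SimpleGraph V) [Δ.LocallyFinite]

section T
variable {Δ} {r : ℕ} {h : ℝ} {D0 : ℕ} (H : Hyp Δ r h D0)

theorem dom_mem_rc {S : Finset V} {d χ : V → ℕ} : χ ∈ rc Δ S d ↔
    (∀ v ∈ S, 1 ≤ χ v ∧ χ v ≤ d v) ∧ (∀ v, v ∉ S → χ v = 0) ∧
      ∀ W ⊆ S, W.Nonempty → ∃ v ∈ W, nb Δ v W < χ v := by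
  unfold rc
  rw [Finset.mem_filter, mem_stab]
  tauto

theorem dom_nb_mono {v : V} {W W' : Finset V} (hW : W ⊆ W') : nb Δ v W ≤ nb Δ v W' :=
  Finset.card_le_card (Finset.inter_subset_inter_left hW)

theorem dom_nb_le {v : V} {W : Finset V} (hr : Δ.degree v = r) : nb Δ v W ≤ r := by
  rw [← hr, ← Δ.card_neighborFinset_eq_degree]
  exact Finset.card_le_card Finset.inter_subset_left

theorem dom_nb_union {v : V} {W W' : Finset V} (hd : Disjoint W W') :
    nb Δ v (W ∪ W') = nb Δ v W + nb Δ v W' := by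
  unfold nb
  rw [Finset.inter_union_distrib_left, Finset.card_union_of_disjoint]
  exact Finset.disjoint_of_subset_left Finset.inter_subset_right
    (Finset.disjoint_of_subset_right Finset.inter_subset_right hd)

theorem dom_nb_pos {v w : V} {W : Finset V} (hvw : Δ.Adj v w) (hw : w ∈ W) : 1 ≤ nb Δ v W := by
  unfold nb
  exact Finset.card_pos.mpr ⟨w, Finset.mem_inter.mpr ⟨by simpa using hvw, hw⟩⟩

theorem dom_nb_lt {v w : V} {W : Finset V} (hr : Δ.degree v = r) (hvw : Δ.Adj v w) (hw : w ∉ W) :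
    nb Δ v W < r := by
  rw [← hr, ← Δ.card_neighborFinset_eq_degree]
  refine Finset.card_lt_card ⟨Finset.inter_subset_left, fun hsub => hw ?_⟩
  exact (Finset.mem_inter.mp (hsub (by simpa using hvw))).2

include H

theorem dom_rpos : 1 ≤ r := by
  obtain ⟨v⟩ : Nonempty V := H.inf.nonempty
  have h1 := H.iso {v}
  have h2 : bdE Δ ({v} : Finset V) ≤ r := by
    unfold bdE
    rw [Finset.sum_singleton, ← H.reg v, ← Δ.card_neighborFinset_eq_degree]
    exact Finset.card_le_card Finset.sdiff_subset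
  have h3 := H.hpos
  simp only [Finset.card_singleton, Nat.cast_one, mul_one] at h1
  have h4 : (0 : ℝ) < (bdE Δ ({v} : Finset V) : ℝ) := lt_of_lt_of_le h3 h1
  have h5 : 0 < bdE Δ ({v} : Finset V) := by exact_mod_cast h4
  omega

theorem dom_out {W : Finset V} (hW : W.Nonempty) : ∃ v ∈ W, nb Δ v W < r := by
  have h1 := H.iso W
  have h3 : (0 : ℝ) < (bdE Δ W : ℝ) := by
    refine lt_of_lt_of_le (mul_pos H.hpos ?_) h1
    exact_mod_cast hW.card_pos
  have h5 : 0 < bdE Δ W := by exact_mod_cast h3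
  unfold bdE at h5
  obtain ⟨v, hv, hv'⟩ := Finset.exists_ne_zero_of_sum_ne_zero (Nat.pos_iff_ne_zero.mp h5)
  obtain ⟨w, hw⟩ := Finset.card_pos.mp (Nat.pos_of_ne_zero hv')
  rw [Finset.mem_sdiff] at hw
  exact ⟨v, hv, dom_nb_lt (H.reg v) (by simpa using hw.1) hw.2⟩

theorem dom_oB_fin {o : V} {R : ℕ} {E : Set V} (hE : Cone Δ o R E) : (oB Δ E).Finite := by
  obtain ⟨b, -, -, hb⟩ := exists_bound H
  exact (hb o R E hE.comp).2.1

theorem dom_iB_fin {o : V} {R : ℕ} {E : Set V} (hE : Cone Δ o R E) : (iB Δ E).Finite := by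
  obtain ⟨b, -, -, hb⟩ := exists_bound H
  exact (hb o R E hE.comp).1

theorem dom_iB_ne {o : V} {R : ℕ} {E : Set V} (hE : Cone Δ o R E) : (iB Δ E).Nonempty := by
  obtain ⟨b, -, -, hb⟩ := exists_bound H
  exact (hb o R E hE.comp).2.2.2.2.1

/-- the core lies in a bounded neighbourhood of the ball -/
theorem dom_core_dist {o : V} {R : ℕ} {E : Set V} (hE : Cone Δ o R E) {Λ : Finset V}
    (hΛ : iB Δ E ⊆ ↑Λ)
    (hc : ∀ W ⊆ Λ, W.Nonempty → W ≠ Λ → ∃ v ∈ W, 1 ≤ nb Δ v (Λ \ W)) {v : V} (hv : v ∈ Λ) :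
    Δ.dist o v ≤ R + Λ.card := by
  by_contra hcon
  push Not at hcon
  obtain ⟨x, hx⟩ := dom_iB_ne H hE
  have hxΛ : x ∈ Λ := hΛ hx
  have hxd : Δ.dist o x = R + 1 := by
    have := iB_sub H hE.comp
    rw [this] at hx
    exact hx.2
  -- for every i < card there is a vertex at distance R + 1 + i
  have key : ∀ i, i < Λ.card + 1 → ∃ w ∈ Λ, Δ.dist o w = R + 1 + i ∨ (i = Λ.card ∧ w = v) := by
    intro i hi
    by_cases hi' : i = Λ.card
    · exact ⟨v, hv, Or.inr ⟨hi', rfl⟩⟩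
    · have hlt : i < Λ.card := by omega
      have hW : (Λ.filter fun w => R + 1 + i < Δ.dist o w).Nonempty ∨
          ¬ (Λ.filter fun w => R + 1 + i < Δ.dist o w).Nonempty := em _
      rcases hW with hW | hW
      · have hne : (Λ.filter fun w => R + 1 + i < Δ.dist o w) ≠ Λ := by
          intro he
          have : x ∈ Λ.filter fun w => R + 1 + i < Δ.dist o w := by rw [he]; exact hxΛ
          rw [Finset.mem_filter] at this
          omega
        obtain ⟨w, hw, hw'⟩ := hc _ (Finset.filter_subset _ _) hW hne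
        unfold nb at hw'
        obtain ⟨y, hy⟩ := Finset.card_pos.mp (Nat.lt_of_lt_of_le Nat.zero_lt_one hw')
        rw [Finset.mem_inter, Finset.mem_sdiff, Finset.mem_filter] at hy
        obtain ⟨hwy, hyΛ, hy2⟩ := hy
        have hadj : Δ.Adj w y := by simpa using hwy
        rw [Finset.mem_filter] at hw
        have h1 : Δ.dist o w ≤ Δ.dist o y + 1 := by
          have := H.conn.dist_triangle (u := o) (v := y) (w := w)
          rw [SimpleGraph.dist_eq_one_iff_adj.mpr hadj.symm] at this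
          exact this
        have h2 : ¬ (R + 1 + i < Δ.dist o y) := fun h' => hy2 ⟨hyΛ, h'⟩
        exact ⟨y, hyΛ, Or.inl (by omega)⟩
      · exfalso
        apply hW
        refine ⟨v, Finset.mem_filter.mpr ⟨hv, ?_⟩⟩
        omega
  have : Nonempty V := ⟨o⟩
  choose! f hf using key
  have hinj : Set.InjOn f ↑(Finset.range (Λ.card + 1)) := by
    intro i hi j hj hij
    have hi' : i < Λ.card + 1 := by simpa using hi
    have hj' : j < Λ.card + 1 := by simpa using hj
    obtain ⟨-, h1⟩ := hf i hi'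
    obtain ⟨-, h2⟩ := hf j hj'
    rw [hij] at h1
    rcases h1 with h1 | ⟨h1, h1'⟩ <;> rcases h2 with h2 | ⟨h2, h2'⟩
    · omega
    · rw [h2'] at h1
      omega
    · rw [h1'] at h2
      omega
    · omega
  have := Finset.card_le_card_of_injOn f (s := Finset.range (Λ.card + 1)) (t := Λ)
    (fun i hi => (hf i (by simpa using hi)).1) hinj
  simp at this

/-- the good event in a cone: nothing stays unburnt, and one firing of any vertex of the outer boundary makes
the whole inner boundary topple -/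
def Good (Δ : SimpleGraph V) [Δ.LocallyFinite] (r : ℕ) (E : Set V) (S : Finset V) (χ : V → ℕ) : Prop :=
  LL Δ S χ (fs (oB Δ E)) = ∅ ∧ ∀ f ∈ fs (oB Δ E), fs (iB Δ E) ⊆ KK Δ r S χ {f}

omit H in
theorem dom_LL_empty {S U : Finset V} {χ : V → ℕ}
    (hb : ∀ W ⊆ S, W.Nonempty → ∃ w ∈ W, nb Δ w (W ∪ U) < χ w) : LL Δ S χ U = ∅ := by
  unfold LL
  rw [Finset.filter_eq_empty_iff]
  rintro v hv ⟨W, hW, hvW, hle⟩
  obtain ⟨w, hw, hlt⟩ := hb W hW ⟨v, hvW⟩
  exact absurd (hle w hw) (by omega)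

omit H in
theorem dom_of_LL_empty {S U : Finset V} {χ : V → ℕ} (hL : LL Δ S χ U = ∅) :
    ∀ W ⊆ S, W.Nonempty → ∃ w ∈ W, nb Δ w (W ∪ U) < χ w := by
  intro W hW ⟨v, hv⟩
  by_contra hcon
  push Not at hcon
  unfold LL at hL
  rw [Finset.filter_eq_empty_iff] at hL
  exact hL (hW hv) ⟨W, hW, hv, hcon⟩

/-- the good configurations built from a configuration outside the core -/
theorem dom_good_one {o : V} {R : ℕ} {E : Set V} (hE : Cone Δ o R E) {Λ S : Finset V}
    (hΛE : ↑Λ ⊆ E) (hiB : iB Δ E ⊆ ↑Λ)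
    (hc : ∀ W ⊆ Λ, W.Nonempty → W ≠ Λ → ∃ v ∈ W, 1 ≤ nb Δ v (Λ \ W))
    (hS : ↑S ⊆ E) (hΛS : Λ ⊆ S) {Y : Set V} (hY : Y = E \ ↑Λ) {η : V → ℕ}
    (hη : η ∈ rc Δ (S.filter (· ∈ Y)) (degY Δ Y)) :
    (fun v => if v ∈ Λ then r else if v ∈ S then η v + nb Δ v Λ else 0) ∈
      (rcr Δ r S).filter (Good Δ r E S) := by
  set χ : V → ℕ := fun v => if v ∈ Λ then r else if v ∈ S then η v + nb Δ v Λ else 0 with hχ
  have hSf : S.filter (· ∈ Y) = S \ Λ := by
    ext v
    simp only [Finset.mem_filter, Finset.mem_sdiff]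
    constructor
    · rintro ⟨h1, h3⟩
      rw [hY] at h3
      exact ⟨h1, fun h' => h3.2 (by exact_mod_cast h')⟩
    · rintro ⟨h1, h2⟩
      rw [hY]
      exact ⟨h1, hS h1, fun h' => h2 (by exact_mod_cast h')⟩
  rw [hSf, dom_mem_rc] at hη
  obtain ⟨hη1, hη0, hη2⟩ := hη
  have hr := dom_rpos H
  have hχΛ : ∀ v ∈ Λ, χ v = r := fun v hv => by simp [hχ, hv]
  have hχS : ∀ v ∈ S \ Λ, χ v = η v + nb Δ v Λ := fun v hv => by
    rw [Finset.mem_sdiff] at hv
    simp [hχ, hv.1, hv.2]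
  -- degree bound
  have hdeg : ∀ v, degY Δ Y v + nb Δ v Λ ≤ r := by
    intro v
    rw [← H.reg v, ← Δ.card_neighborFinset_eq_degree]
    unfold degY nb
    rw [← Finset.card_union_of_disjoint]
    · exact Finset.card_le_card (Finset.union_subset (Finset.filter_subset _ _) Finset.inter_subset_left)
    · rw [Finset.disjoint_left]
      intro w hw hw'
      rw [Finset.mem_filter, hY] at hw
      rw [Finset.mem_inter] at hw'
      exact hw.2.2 (by exact_mod_cast hw'.2)
  have hχle : ∀ v ∈ S, χ v ≤ r := by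
    intro v hv
    by_cases hvΛ : v ∈ Λ
    · rw [hχΛ v hvΛ]
    · have hv' : v ∈ S \ Λ := Finset.mem_sdiff.mpr ⟨hv, hvΛ⟩
      rw [hχS v hv']
      have := (hη1 v hv').2
      have := hdeg v
      omega
  -- outside the core every set can be burnt even if the core is unburnt
  have hburn : ∀ W ⊆ S, (W \ Λ).Nonempty → ∃ w ∈ W \ Λ, nb Δ w (W ∪ Λ) < χ w := by
    intro W hW hne
    obtain ⟨w, hw, hlt⟩ := hη2 (W \ Λ) (Finset.sdiff_subset_sdiff hW (le_refl _)) hne
    refine ⟨w, hw, ?_⟩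
    rw [hχS w (Finset.sdiff_subset_sdiff hW (le_refl _) hw)]
    have : W ∪ Λ = (W \ Λ) ∪ Λ := by simp
    rw [this, dom_nb_union Finset.sdiff_disjoint]
    omega
  have hfsoB : ∀ f, f ∈ fs (oB Δ E) ↔ f ∈ oB Δ E := fun f => mem_fs (dom_oB_fin H hE)
  have hfsiB : ∀ f, f ∈ fs (iB Δ E) ↔ f ∈ iB Δ E := fun f => mem_fs (dom_iB_fin H hE)
  rw [Finset.mem_filter]
  refine ⟨?_, ?_, ?_⟩
  · -- recurrent
    rw [dom_mem_rc]
    refine ⟨fun v hv => ⟨?_, hχle v hv⟩, fun v hv => ?_, fun W hW hne => ?_⟩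
    · by_cases hvΛ : v ∈ Λ
      · rw [hχΛ v hvΛ]; exact hr
      · have hv' : v ∈ S \ Λ := Finset.mem_sdiff.mpr ⟨hv, hvΛ⟩
        rw [hχS v hv']
        have := (hη1 v hv').1
        omega
    · have hvΛ : v ∉ Λ := fun h' => hv (hΛS h')
      simp [hχ, hv, hvΛ]
    · by_cases hWΛ : (W \ Λ).Nonempty
      · obtain ⟨w, hw, hlt⟩ := hburn W hW hWΛ
        exact ⟨w, (Finset.mem_sdiff.mp hw).1, lt_of_le_of_lt (dom_nb_mono Finset.subset_union_left) hlt⟩
      · rw [Finset.not_nonempty_iff_eq_empty, Finset.sdiff_eq_empty_iff_subset] at hWΛ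
        obtain ⟨w, hw, hlt⟩ := dom_out H hne
        exact ⟨w, hw, by rw [hχΛ w (hWΛ hw)]; exact hlt⟩
  · -- no unburnt set
    apply dom_LL_empty
    intro W hW hne
    by_cases hWΛ : (W \ Λ).Nonempty
    · obtain ⟨w, hw, hlt⟩ := hburn W hW hWΛ
      rw [Finset.mem_sdiff] at hw
      refine ⟨w, hw.1, lt_of_le_of_lt ?_ hlt⟩
      unfold nb
      apply Finset.card_le_card
      intro y hy
      rw [Finset.mem_inter, Finset.mem_union] at hy ⊢
      refine ⟨hy.1, ?_⟩
      rcases hy.2 with h1 | h1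
      · exact Or.inl h1
      · exfalso
        rw [hfsoB] at h1
        apply hw.2
        have : w ∈ iB Δ E := ⟨hS (hW hw.1), y, h1.1, by simpa using hy.1⟩
        exact_mod_cast hiB this
    · rw [Finset.not_nonempty_iff_eq_empty, Finset.sdiff_eq_empty_iff_subset] at hWΛ
      have hfree := cone_free Δ H hE W (fun v hv => hS (hW hv)) hne
      unfold bdY at hfree
      obtain ⟨w, hw, hw'⟩ := Finset.exists_ne_zero_of_sum_ne_zero (Nat.one_le_iff_ne_zero.mp hfree)
      obtain ⟨y, hy⟩ := Finset.card_pos.mp (Nat.pos_of_ne_zero hw')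
      rw [Finset.mem_filter, Finset.mem_sdiff] at hy
      refine ⟨w, hw, ?_⟩
      rw [hχΛ w (hWΛ hw)]
      refine dom_nb_lt (H.reg w) (w := y) (by simpa using hy.1.1) ?_
      rw [Finset.mem_union, hfsoB]
      rintro (h1 | h1)
      · exact hy.1.2 h1
      · exact h1.1 hy.2
  · intro f hf
    rw [hfsoB] at hf
    have hdisj : Disjoint S ({f} : Finset V) := by
      rw [Finset.disjoint_singleton_right]
      intro hfS
      exact hf.1 (hS hfS)
    have hclosed : ∀ v ∈ S, v ∉ KK Δ r S χ {f} → χ v + nb Δ v ({f} ∪ KK Δ r S χ {f}) ≤ r :=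
      fun v hv hv' => KK_closed H.reg hχle hdisj hv hv'
    obtain ⟨v0, hv0E, hv0f⟩ := hf.2
    have hv0Λ : v0 ∈ Λ := by
      have : v0 ∈ iB Δ E := ⟨hv0E, f, hf.1, hv0f⟩
      exact_mod_cast hiB this
    have hv0K : v0 ∈ KK Δ r S χ {f} := by
      by_contra hcon
      have h1 := hclosed v0 (hΛS hv0Λ) hcon
      rw [hχΛ v0 hv0Λ] at h1
      have h2 : 1 ≤ nb Δ v0 ({f} ∪ KK Δ r S χ {f}) :=
        dom_nb_pos hv0f (Finset.mem_union_left _ (Finset.mem_singleton_self f))
      omega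
    have hΛK : Λ ⊆ KK Δ r S χ {f} := by
      by_contra hcon
      have hne : (Λ \ KK Δ r S χ {f}).Nonempty := by
        rw [Finset.sdiff_nonempty]; exact hcon
      have hneq : Λ \ KK Δ r S χ {f} ≠ Λ := by
        intro he
        have : v0 ∈ Λ \ KK Δ r S χ {f} := by rw [he]; exact hv0Λ
        exact (Finset.mem_sdiff.mp this).2 hv0K
      obtain ⟨w, hw, hw'⟩ := hc _ Finset.sdiff_subset hne hneq
      rw [Finset.mem_sdiff] at hw
      have h1 := hclosed w (hΛS hw.1) hw.2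
      rw [hχΛ w hw.1] at h1
      have h2 : nb Δ w (Λ \ (Λ \ KK Δ r S χ {f})) ≤ nb Δ w ({f} ∪ KK Δ r S χ {f}) := by
        apply dom_nb_mono
        intro y hy
        rw [Finset.mem_sdiff, Finset.mem_sdiff] at hy
        rw [Finset.mem_union]
        by_contra hc'
        push Not at hc'
        exact hy.2 ⟨hy.1, hc'.2⟩
      omega
    intro v hv
    rw [hfsiB] at hv
    exact hΛK (by exact_mod_cast hiB hv)

theorem dom_good : ∃ (c : ℝ) (T : ℕ), 0 < c ∧ ∀ (o : V) (R : ℕ) (E : Set V), Cone Δ o R E →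
    ∀ S : Finset V, ↑S ⊆ E → (∀ v ∈ E, Δ.dist o v ≤ R + T → v ∈ S) →
    c * (NNr Δ r S : ℝ) ≤ (((rcr Δ r S).filter (Good Δ r E S)).card : ℝ) := by
  obtain ⟨N1, hN1⟩ := exists_core Δ H
  obtain ⟨c, hc0, hc⟩ := NN_free H N1
  refine ⟨c, N1, hc0, fun o R E hE S hS hST => ?_⟩
  obtain ⟨Λ, hΛE, hiB, hcard, hfree, hconn⟩ := hN1 o R E hE
  have hΛS : Λ ⊆ S := fun v hv =>
    hST v (hΛE hv) (le_trans (dom_core_dist H hE hiB hconn hv) (by omega))
  obtain ⟨Y, hY⟩ : ∃ Y : Set V, Y = E \ ↑Λ := ⟨_, rfl⟩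
  rw [← hY] at hfree
  have h1 := hc Y Λ hcard hfree (by
    intro v hv w hvw hw
    rw [hY] at hv hw
    by_contra hwΛ
    have hwE : w ∉ E := fun h' => hw ⟨h', by exact_mod_cast hwΛ⟩
    exact hv.2 (hiB ⟨hv.1, w, hwE, hvw⟩)) S (by
    intro v hv
    rw [hY]
    by_cases hvΛ : v ∈ Λ
    · exact Or.inr (by exact_mod_cast hvΛ)
    · exact Or.inl ⟨hS hv, by exact_mod_cast hvΛ⟩)
  refine le_trans h1 ?_
  have h2 : NN Δ (S.filter (· ∈ Y)) (degY Δ Y) ≤
      ((rcr Δ r S).filter (Good Δ r E S)).card := by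
    unfold NN
    apply Finset.card_le_card_of_injOn
      (fun η v => if v ∈ Λ then r else if v ∈ S then η v + nb Δ v Λ else 0)
    · intro η hη
      exact dom_good_one H hE hΛE hiB hconn hS hΛS hY hη
    · intro η hη η' hη' he
      have hη0 : ∀ v, v ∉ S.filter (· ∈ Y) → η v = 0 := by
        have := hη
        rw [Finset.mem_coe, dom_mem_rc] at this
        exact this.2.1
      have hη0' : ∀ v, v ∉ S.filter (· ∈ Y) → η' v = 0 := by
        have := hη'
        rw [Finset.mem_coe, dom_mem_rc] at this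
        exact this.2.1
      funext v
      by_cases hv : v ∈ S.filter (· ∈ Y)
      · have h3 := congrFun he v
        rw [Finset.mem_filter, hY] at hv
        have hvΛ : v ∉ Λ := by
          have := hv.2.2
          exact_mod_cast this
        simp only [hvΛ, if_false, hv.1, if_true] at h3
        omega
      · rw [hη0 v hv, hη0' v hv]
  exact_mod_cast h2

/-- a good configuration in the cone can be combined with anything outside -/
theorem good_glue {o : V} {R : ℕ} {E : Set V} (hE : Cone Δ o R E) (S : Finset V) {χ : V → ℕ}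
    (hχ0 : ∀ v, v ∉ S → χ v = 0)
    (h1 : rs (S.filter (· ∉ E)) χ ∈ rcr Δ r (S.filter (· ∉ E)))
    (h2 : rs (S.filter (· ∈ E)) χ ∈ rcr Δ r (S.filter (· ∈ E)))
    (h3 : LL Δ (S.filter (· ∈ E)) χ (fs (oB Δ E)) = ∅) : χ ∈ rcr Δ r S := by
  have hfsoB : ∀ f, f ∈ fs (oB Δ E) ↔ f ∈ oB Δ E := fun f => mem_fs (dom_oB_fin H hE)
  rw [dom_mem_rc] at h1 h2 ⊢
  refine ⟨fun v hv => ?_, hχ0, fun W hW hne => ?_⟩
  · by_cases hvE : v ∈ E
    · have hv' : v ∈ S.filter (· ∈ E) := Finset.mem_filter.mpr ⟨hv, hvE⟩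
      have := h2.1 v hv'
      simpa only [rs, hv', if_true] using this
    · have hv' : v ∈ S.filter (· ∉ E) := Finset.mem_filter.mpr ⟨hv, hvE⟩
      have := h1.1 v hv'
      simpa only [rs, hv', if_true] using this
  · by_cases hWE : (W.filter (· ∈ E)).Nonempty
    · have hsub : W.filter (· ∈ E) ⊆ S.filter (· ∈ E) := Finset.filter_subset_filter _ hW
      obtain ⟨w, hw, hlt⟩ := dom_of_LL_empty h3 _ hsub hWE
      rw [Finset.mem_filter] at hw
      refine ⟨w, hw.1, lt_of_le_of_lt ?_ hlt⟩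
      unfold nb
      apply Finset.card_le_card
      intro y hy
      rw [Finset.mem_inter, Finset.mem_union] at *
      refine ⟨hy.1, ?_⟩
      by_cases hyE : y ∈ E
      · exact Or.inl (Finset.mem_filter.mpr ⟨hy.2, hyE⟩)
      · exact Or.inr ((hfsoB y).mpr ⟨hyE, w, hw.2, by simpa using hy.1⟩)
    · have hWE' : W ⊆ S.filter (· ∉ E) := by
        intro w hw
        rw [Finset.mem_filter]
        refine ⟨hW hw, fun hwE => hWE ⟨w, Finset.mem_filter.mpr ⟨hw, hwE⟩⟩⟩
      obtain ⟨w, hw, hlt⟩ := h1.2.2 W hWE' hne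
      refine ⟨w, hw, ?_⟩
      have hw' := hWE' hw
      simpa only [rs, hw', if_true] using hlt

theorem dom_union : ∃ (c : ℝ) (T : ℕ), 0 < c ∧ ∀ (o : V) (R : ℕ) (E : Set V), Cone Δ o R E →
    ∀ S : Finset V, (∀ v ∈ E, Δ.dist o v ≤ R + T → v ∈ S) →
    c * ((NNr Δ r (S.filter (· ∉ E)) : ℝ) * (NNr Δ r (S.filter (· ∈ E)) : ℝ)) ≤ (NNr Δ r S : ℝ) := by
  obtain ⟨c, T, hc0, hc⟩ := dom_good H
  refine ⟨c, T, hc0, fun o R E hE S hST => ?_⟩
  set S1 := S.filter (· ∉ E) with hS1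
  set S2 := S.filter (· ∈ E) with hS2
  have hg := hc o R E hE S2 (fun v hv => (Finset.mem_filter.mp hv).2)
    (fun v hv hd => Finset.mem_filter.mpr ⟨hST v hv hd, hv⟩)
  have hcard : NNr Δ r S1 * ((rcr Δ r S2).filter (Good Δ r E S2)).card ≤ NNr Δ r S := by
    unfold NNr NN
    rw [← Finset.card_product]
    apply Finset.card_le_card_of_injOn (fun p : (V → ℕ) × (V → ℕ) => fun v => p.1 v + p.2 v)
    · rintro ⟨χ1, χ2⟩ hp
      rw [Finset.mem_coe, Finset.mem_product, Finset.mem_filter] at hp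
      obtain ⟨hp1, hp2, hgood⟩ := hp
      simp only at hp1 hp2 hgood
      have h10 : ∀ v, v ∉ S1 → χ1 v = 0 := by
        have := hp1
        rw [dom_mem_rc] at this
        exact this.2.1
      have h20 : ∀ v, v ∉ S2 → χ2 v = 0 := by
        have := hp2
        rw [dom_mem_rc] at this
        exact this.2.1
      have hr1 : rs S1 (fun v => χ1 v + χ2 v) = χ1 := by
        funext v
        by_cases hv : v ∈ S1
        · have : v ∉ S2 := fun h' => (Finset.mem_filter.mp hv).2 (Finset.mem_filter.mp h').2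
          simp [rs, hv, h20 v this]
        · simp [rs, hv, h10 v hv]
      have hr2 : rs S2 (fun v => χ1 v + χ2 v) = χ2 := by
        funext v
        by_cases hv : v ∈ S2
        · have : v ∉ S1 := fun h' => (Finset.mem_filter.mp h').2 (Finset.mem_filter.mp hv).2
          simp [rs, hv, h10 v this]
        · simp [rs, hv, h20 v hv]
      refine good_glue H hE S (χ := fun v => χ1 v + χ2 v) ?_ ?_ ?_ ?_
      · intro v hv
        have hv1 : v ∉ S1 := fun h' => hv (Finset.mem_filter.mp h').1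
        have hv2 : v ∉ S2 := fun h' => hv (Finset.mem_filter.mp h').1
        simp [h10 v hv1, h20 v hv2]
      · rw [hr1]; exact hp1
      · rw [hr2]; exact hp2
      · apply dom_LL_empty
        intro W hW hne
        obtain ⟨w, hw, hlt⟩ := dom_of_LL_empty hgood.1 W hW hne
        refine ⟨w, hw, ?_⟩
        have : w ∉ S1 := fun h' => (Finset.mem_filter.mp h').2 (Finset.mem_filter.mp (hW hw)).2
        simp only [h10 w this, zero_add]
        exact hlt
    · rintro ⟨χ1, χ2⟩ hp ⟨χ1', χ2'⟩ hp' he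
      rw [Finset.mem_coe, Finset.mem_product, Finset.mem_filter] at hp hp'
      obtain ⟨hp1, hp2, -⟩ := hp
      obtain ⟨hp1', hp2', -⟩ := hp'
      simp only at hp1 hp2 hp1' hp2' he
      rw [dom_mem_rc] at hp1 hp2 hp1' hp2'
      have e1 : χ1 = χ1' := by
        funext v
        by_cases hv : v ∈ S1
        · have hv2 : v ∉ S2 := fun h' => (Finset.mem_filter.mp hv).2 (Finset.mem_filter.mp h').2
          have := congrFun he v
          simp only [hp2.2.1 v hv2, hp2'.2.1 v hv2, add_zero] at this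
          exact this
        · rw [hp1.2.1 v hv, hp1'.2.1 v hv]
      have e2 : χ2 = χ2' := by
        funext v
        by_cases hv : v ∈ S2
        · have hv1 : v ∉ S1 := fun h' => (Finset.mem_filter.mp h').2 (Finset.mem_filter.mp hv).2
          have := congrFun he v
          simp only [hp1.2.1 v hv1, hp1'.2.1 v hv1, zero_add] at this
          exact this
        · rw [hp2.2.1 v hv, hp2'.2.1 v hv]
      rw [e1, e2]
  have hcard' : (NNr Δ r S1 : ℝ) * (((rcr Δ r S2).filter (Good Δ r E S2)).card : ℝ) ≤ (NNr Δ r S : ℝ) := by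
    exact_mod_cast hcard
  calc c * ((NNr Δ r S1 : ℝ) * (NNr Δ r S2 : ℝ)) = (NNr Δ r S1 : ℝ) * (c * (NNr Δ r S2 : ℝ)) := by ring
    _ ≤ (NNr Δ r S1 : ℝ) * (((rcr Δ r S2).filter (Good Δ r E S2)).card : ℝ) :=
        mul_le_mul_of_nonneg_left hg (Nat.cast_nonneg _)
    _ ≤ (NNr Δ r S : ℝ) := hcard'

end T

end Pool.Agent.Sand
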