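import Pool.Agent.SandFin.All2

/-! Task PR: elementary rules for `pr` and `ex`. -/

set_option autoImplicit false
set_option linter.unusedSectionVars false
open scoped Classical

namespace Pool.Agent.Sand

variable {V : Type} (Δ : SimpleGraph V) [Δ.LocallyFinite]

section T
variable {Δ} {r : ℕ} {h : ℝ} {D0 : ℕ} (H : Hyp Δ r h D0)
include H

/-! ### PR : elementary rules -/

theorem PR_pos (S : Finset V) : (0 : ℝ) < (NNr Δ r S : ℝ) := by
  exact_mod_cast NN_pos H S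

omit H in
theorem PR_card_le {S : Finset V} {P : (V → ℕ) → Prop} :
    ((rcr Δ r S).filter P).card ≤ NNr Δ r S := Finset.card_filter_le _ _

theorem pr_nonneg (S : Finset V) (P : (V → ℕ) → Prop) : 0 ≤ pr Δ r S P := by
  unfold pr
  exact div_nonneg (Nat.cast_nonneg _) (Nat.cast_nonneg _)

theorem pr_le_one (S : Finset V) (P : (V → ℕ) → Prop) : pr Δ r S P ≤ 1 := by
  unfold pr
  rw [div_le_one (PR_pos H S)]
  exact_mod_cast PR_card_le

theorem pr_mono (S : Finset V) {P Q : (V → ℕ) → Prop} (hPQ : ∀ χ ∈ rcr Δ r S, P χ → Q χ) :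
    pr Δ r S P ≤ pr Δ r S Q := by
  unfold pr
  refine div_le_div_of_nonneg_right ?_ (PR_pos H S).le
  norm_cast
  refine Finset.card_le_card ?_
  intro χ hχ
  rw [Finset.mem_filter] at hχ ⊢
  exact ⟨hχ.1, hPQ χ hχ.1 hχ.2⟩

theorem pr_compl (S : Finset V) (P : (V → ℕ) → Prop) :
    pr Δ r S (fun χ => ¬ P χ) = 1 - pr Δ r S P := by
  unfold pr
  have hpos := PR_pos H S
  rw [eq_sub_iff_add_eq, ← add_div, div_eq_one_iff_eq hpos.ne']
  have h1 := Finset.card_filter_add_card_filter_not (s := rcr Δ r S) P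
  rw [add_comm]
  have h2 : (rcr Δ r S).card = NNr Δ r S := rfl
  rw [← h2, ← h1]
  push_cast
  congr

theorem pr_union (S : Finset V) {ι : Type} (I : Finset ι) (P : ι → (V → ℕ) → Prop) :
    pr Δ r S (fun χ => ∃ i ∈ I, P i χ) ≤ ∑ i ∈ I, pr Δ r S (P i) := by
  unfold pr
  rw [← Finset.sum_div]
  refine div_le_div_of_nonneg_right ?_ (PR_pos H S).le
  norm_cast
  refine le_trans (Finset.card_le_card ?_)
    (Finset.card_biUnion_le (s := I) (t := fun i => (rcr Δ r S).filter (P i)))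
  intro χ hχ
  simp only [Finset.mem_filter] at hχ
  obtain ⟨h1, i, hi, h2⟩ := hχ
  rw [Finset.mem_biUnion]
  exact ⟨i, hi, Finset.mem_filter.2 ⟨h1, h2⟩⟩

theorem ex_ind (S : Finset V) (P : (V → ℕ) → Prop) :
    ex Δ r S (fun χ => if P χ then 1 else 0) = pr Δ r S P := by
  unfold ex pr
  rw [Finset.sum_boole]

theorem ex_mono (S : Finset V) {f g : (V → ℕ) → ℝ} (hfg : ∀ χ ∈ rcr Δ r S, f χ ≤ g χ) :
    ex Δ r S f ≤ ex Δ r S g := by
  unfold ex
  exact div_le_div_of_nonneg_right (Finset.sum_le_sum hfg) (PR_pos H S).le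

theorem ex_add (S : Finset V) (f g : (V → ℕ) → ℝ) :
    ex Δ r S (fun χ => f χ + g χ) = ex Δ r S f + ex Δ r S g := by
  unfold ex
  rw [Finset.sum_add_distrib, add_div]

theorem ex_sum (S : Finset V) {ι : Type} (I : Finset ι) (f : ι → (V → ℕ) → ℝ) :
    ex Δ r S (fun χ => ∑ i ∈ I, f i χ) = ∑ i ∈ I, ex Δ r S (f i) := by
  unfold ex
  rw [Finset.sum_comm, Finset.sum_div]

theorem ex_mul (S : Finset V) (c : ℝ) (f : (V → ℕ) → ℝ) :
    ex Δ r S (fun χ => c * f χ) = c * ex Δ r S f := by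
  unfold ex
  rw [← Finset.mul_sum, mul_div_assoc]

theorem markov (S : Finset V) (f : (V → ℕ) → ℝ) (hf : ∀ χ ∈ rcr Δ r S, 0 ≤ f χ) {t : ℝ} (ht : 0 < t) :
    pr Δ r S (fun χ => t ≤ f χ) ≤ ex Δ r S f / t := by
  rw [le_div_iff₀ ht, mul_comm, ← ex_ind H, ← ex_mul H]
  refine ex_mono H S ?_
  intro χ hχ
  by_cases hc : t ≤ f χ
  · simp [hc]
  · simpa [hc] using hf χ hχ

omit H in
/-- restriction of recurrent configurations -/
theorem PR_rs_mem {S T : Finset V} (hT : T ⊆ S) {χ : V → ℕ} (hχ : χ ∈ rcr Δ r S) :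
    rs T χ ∈ rcr Δ r T := by
  unfold rcr rc at hχ ⊢
  rw [Finset.mem_filter, mem_stab] at hχ ⊢
  obtain ⟨⟨h1, h2⟩, h3⟩ := hχ
  refine ⟨⟨?_, ?_⟩, ?_⟩
  · intro v hv
    simp only [rs, hv, if_true]
    exact h1 v (hT hv)
  · intro v hv
    simp [rs, hv]
  · intro W hW hne
    obtain ⟨v, hv, h4⟩ := h3 W (hW.trans hT) hne
    refine ⟨v, hv, ?_⟩
    simpa [rs, hW hv] using h4

omit H in
theorem PR_stab_card (Λ : Finset V) : (stab Λ (fun _ => r)).card ≤ r ^ Λ.card := by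
  unfold stab
  refine Finset.card_image_le.trans ?_
  rw [Finset.card_pi]
  simp

omit H in
/-- at most `r ^ |Λ|` configurations restrict to a given one -/
theorem PR_fibre {Λ S : Finset V} (ζ : V → ℕ) :
    ((rcr Δ r S).filter fun χ => rs (S \ Λ) χ = ζ).card ≤ r ^ (S ∩ Λ).card := by
  refine le_trans ?_ (PR_stab_card (r := r) (S ∩ Λ))
  refine Finset.card_le_card_of_injOn (fun χ => rs (S ∩ Λ) χ) ?_ ?_
  · intro χ hχ
    rw [Finset.mem_coe, Finset.mem_filter] at hχ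
    have h1 := PR_rs_mem (Finset.inter_subset_left (s₁ := S) (s₂ := Λ)) hχ.1
    exact (Finset.mem_filter.1 h1).1
  · intro χ hχ χ' hχ' heq
    rw [Finset.mem_coe, Finset.mem_filter] at hχ hχ'
    funext v
    by_cases hvS : v ∈ S
    · by_cases hvΛ : v ∈ Λ
      · have := congrFun heq v
        simpa [rs, hvS, hvΛ] using this
      · have h1 := congrFun hχ.2 v
        have h2 := congrFun hχ'.2 v
        simp only [rs, Finset.mem_sdiff, hvS, hvΛ, not_false_eq_true, and_self, if_true] at h1 h2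
        rw [h1, h2]
    · have h1 := (mem_stab.1 (Finset.mem_filter.1 hχ.1).1).2 v hvS
      have h2 := (mem_stab.1 (Finset.mem_filter.1 hχ'.1).1).2 v hvS
      rw [h1, h2]

theorem PR_ratio : ∃ C : ℝ, 1 ≤ C ∧ ∀ (Λ S : Finset V),
    (NNr Δ r (S \ Λ) : ℝ) ≤ C ^ Λ.card * (NNr Δ r S : ℝ) := by
  obtain ⟨C, ρ, hC, hρ, hρ1, hdec⟩ := gr_decay H
  refine ⟨max 1 C, le_max_left _ _, ?_⟩
  intro Λ
  induction Λ using Finset.induction_on with
  | empty => intro S; simp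
  | insert v Λ hv ih =>
    intro S
    have h1 : S \ insert v Λ = (S \ Λ).erase v := by
      ext x
      simp only [Finset.mem_sdiff, Finset.mem_insert, Finset.mem_erase, not_or]
      tauto
    rw [Finset.card_insert_of_notMem hv, h1]
    have h2 : (NNr Δ r ((S \ Λ).erase v) : ℝ) ≤ max 1 C * (NNr Δ r (S \ Λ) : ℝ) := by
      by_cases hvS : v ∈ S \ Λ
      · rw [NN_ratio H (S \ Λ) hvS]
        refine mul_le_mul_of_nonneg_right ?_ (PR_pos H _).le
        have h3 := hdec (↑(S \ Λ)) v v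
        rw [SimpleGraph.dist_self, pow_zero, mul_one] at h3
        exact h3.trans (le_max_right _ _)
      · rw [Finset.erase_eq_of_notMem hvS]
        have := (PR_pos H (S \ Λ)).le
        nlinarith [le_max_left 1 C]
    have h4 : (0 : ℝ) ≤ max 1 C := le_trans zero_le_one (le_max_left _ _)
    calc (NNr Δ r ((S \ Λ).erase v) : ℝ) ≤ max 1 C * (NNr Δ r (S \ Λ) : ℝ) := h2
      _ ≤ max 1 C * (max 1 C ^ Λ.card * (NNr Δ r S : ℝ)) := mul_le_mul_of_nonneg_left (ih S) h4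
      _ = max 1 C ^ (Λ.card + 1) * (NNr Δ r S : ℝ) := by ring

/-- removing finitely many vertices costs a bounded factor for events outside -/
theorem pr_erase (m : ℕ) : ∃ C : ℝ, 0 < C ∧ ∀ (Λ S : Finset V), Λ.card ≤ m → Λ ⊆ S →
    ∀ P : (V → ℕ) → Prop, pr Δ r S (fun χ => P (rs (S \ Λ) χ)) ≤ C * pr Δ r (S \ Λ) P := by
  obtain ⟨C, hC1, hC⟩ := PR_ratio H
  have hC0 : 0 < C := lt_of_lt_of_le one_pos hC1
  refine ⟨((r : ℝ) + 1) ^ m * C ^ m, by positivity, ?_⟩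
  intro Λ S hm hΛ P
  have hS := PR_pos H S
  have hSΛ := PR_pos H (S \ Λ)
  have hcard : ((rcr Δ r S).filter fun χ => P (rs (S \ Λ) χ)).card ≤
      r ^ Λ.card * ((rcr Δ r (S \ Λ)).filter P).card := by
    refine Finset.card_le_mul_card_image_of_maps_to (f := fun χ => rs (S \ Λ) χ) ?_ _ ?_
    · intro χ hχ
      rw [Finset.mem_filter] at hχ ⊢
      exact ⟨PR_rs_mem Finset.sdiff_subset hχ.1, hχ.2⟩
    · intro ζ _
      have h1 := PR_fibre (Δ := Δ) (r := r) (Λ := Λ) (S := S) ζ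
      rw [Finset.inter_eq_right.2 hΛ] at h1
      refine le_trans (Finset.card_le_card ?_) h1
      intro χ hχ
      rw [Finset.mem_filter, Finset.mem_filter] at hχ
      rw [Finset.mem_filter]
      exact ⟨hχ.1.1, hχ.2⟩
  have h1 : (((rcr Δ r S).filter fun χ => P (rs (S \ Λ) χ)).card : ℝ) ≤
      (r : ℝ) ^ Λ.card * (((rcr Δ r (S \ Λ)).filter P).card : ℝ) := by exact_mod_cast hcard
  unfold pr
  rw [div_le_iff₀ hS]
  set A : ℝ := (((rcr Δ r (S \ Λ)).filter P).card : ℝ) with hA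
  have hA0 : 0 ≤ A := Nat.cast_nonneg _
  have h2 : (1 : ℝ) ≤ C ^ Λ.card * (NNr Δ r S : ℝ) / (NNr Δ r (S \ Λ) : ℝ) := by
    rw [le_div_iff₀ hSΛ, one_mul]
    exact hC Λ S
  have h3 : (r : ℝ) ^ Λ.card ≤ ((r : ℝ) + 1) ^ m := by
    calc (r : ℝ) ^ Λ.card ≤ ((r : ℝ) + 1) ^ Λ.card :=
          pow_le_pow_left₀ (Nat.cast_nonneg _) (by linarith) _
      _ ≤ ((r : ℝ) + 1) ^ m := pow_le_pow_right₀ (by linarith [Nat.cast_nonneg (α := ℝ) r]) hm
  have h4 : C ^ Λ.card ≤ C ^ m := pow_le_pow_right₀ hC1 hm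
  calc (((rcr Δ r S).filter fun χ => P (rs (S \ Λ) χ)).card : ℝ)
      ≤ (r : ℝ) ^ Λ.card * A := h1
    _ ≤ ((r : ℝ) + 1) ^ m * A := mul_le_mul_of_nonneg_right h3 hA0
    _ ≤ (((r : ℝ) + 1) ^ m * A) * (C ^ Λ.card * (NNr Δ r S : ℝ) / (NNr Δ r (S \ Λ) : ℝ)) :=
        le_mul_of_one_le_right (by positivity) h2
    _ ≤ (((r : ℝ) + 1) ^ m * A) * (C ^ m * (NNr Δ r S : ℝ) / (NNr Δ r (S \ Λ) : ℝ)) := by
        gcongr
    _ = ((r : ℝ) + 1) ^ m * C ^ m * (A / (NNr Δ r (S \ Λ) : ℝ)) * (NNr Δ r S : ℝ) := by ring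

end T

end Pool.Agent.Sand
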