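import Pool.Agent.SandFin.All2

/-! TASK TW1: blocking of a wave, and the mean number of edges leaving a filled ball. -/

set_option autoImplicit false
open scoped Classical

namespace Pool.Agent.Sand

variable {V : Type} (Δ : SimpleGraph V) [Δ.LocallyFinite]

/-! ### small lemmas -/

namespace TWOne

variable {Δ}

theorem nb_mono (v : V) {W W' : Finset V} (h : W ⊆ W') : nb Δ v W ≤ nb Δ v W' :=
  Finset.card_le_card (Finset.inter_subset_inter_left h)

theorem nb_union_le (v : V) (A B : Finset V) : nb Δ v (A ∪ B) ≤ nb Δ v A + nb Δ v B := by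
  unfold nb
  rw [Finset.inter_union_distrib_left]
  exact Finset.card_union_le _ _

theorem nb_le_degree (v : V) (W : Finset V) : nb Δ v W ≤ Δ.degree v := by
  unfold nb
  rw [← SimpleGraph.card_neighborFinset_eq_degree]
  exact Finset.card_le_card Finset.inter_subset_left

theorem nb_add_disj (v : V) {A B : Finset V} (h : Disjoint A B) :
    nb Δ v A + nb Δ v B ≤ Δ.degree v := by
  have : nb Δ v A + nb Δ v B = nb Δ v (A ∪ B) := by
    unfold nb
    rw [Finset.inter_union_distrib_left, Finset.card_union_of_disjoint]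
    exact (h.mono_left Finset.inter_subset_right).mono_right Finset.inter_subset_right
  rw [this]
  exact nb_le_degree v _

theorem three_disj (v : V) {C : Set V} {A B : Finset V} (hA : ∀ x ∈ A, x ∉ C) (hB : ∀ x ∈ B, x ∉ C)
    (hAB : Disjoint A B) : degY Δ C v + nb Δ v A + nb Δ v B ≤ Δ.degree v := by
  unfold degY nb
  have h1 : Disjoint ((Δ.neighborFinset v).filter (· ∈ C)) (Δ.neighborFinset v ∩ A) := by
    rw [Finset.disjoint_left]
    intro x hx hx'
    exact hA x (Finset.mem_inter.1 hx').2 (Finset.mem_filter.1 hx).2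
  have h2 : Disjoint (((Δ.neighborFinset v).filter (· ∈ C)) ∪ (Δ.neighborFinset v ∩ A))
      (Δ.neighborFinset v ∩ B) := by
    rw [Finset.disjoint_union_left]
    constructor
    · rw [Finset.disjoint_left]
      intro x hx hx'
      exact hB x (Finset.mem_inter.1 hx').2 (Finset.mem_filter.1 hx).2
    · exact (hAB.mono_left Finset.inter_subset_right).mono_right Finset.inter_subset_right
  rw [← Finset.card_union_of_disjoint h1, ← Finset.card_union_of_disjoint h2,
    ← SimpleGraph.card_neighborFinset_eq_degree]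
  refine Finset.card_le_card ?_
  refine Finset.union_subset (Finset.union_subset ?_ ?_) ?_
  · exact Finset.filter_subset _ _
  · exact Finset.inter_subset_left
  · exact Finset.inter_subset_left

theorem sum_nb_comm (A B : Finset V) : ∑ v ∈ A, nb Δ v B = ∑ w ∈ B, nb Δ w A := by
  have h1 : ∀ (v : V) (B : Finset V), nb Δ v B = ∑ w ∈ B, if Δ.Adj v w then 1 else 0 := by
    intro v B
    unfold nb
    rw [Finset.card_eq_sum_ones, ← Finset.sum_filter]
    refine Finset.sum_congr ?_ fun _ _ => rfl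
    ext w
    simp [and_comm]
  simp only [h1]
  rw [Finset.sum_comm]
  refine Finset.sum_congr rfl fun w _ => Finset.sum_congr rfl fun v _ => ?_
  simp only [SimpleGraph.adj_comm]

theorem NN_congr (S : Finset V) {d d' : V → ℕ} (h : ∀ v ∈ S, d v = d' v) :
    NN Δ S d = NN Δ S d' := by
  have hs : stab S d = stab S d' := by
    ext χ
    rw [mem_stab, mem_stab]
    constructor
    · rintro ⟨h1, h2⟩
      exact ⟨fun v hv => ⟨(h1 v hv).1, (h v hv) ▸ (h1 v hv).2⟩, h2⟩
    · rintro ⟨h1, h2⟩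
      exact ⟨fun v hv => ⟨(h1 v hv).1, (h v hv).symm ▸ (h1 v hv).2⟩, h2⟩
  unfold NN rc
  rw [hs]

/-- lowering the degrees one unit at a time -/
theorem nn_lower {δ : ℝ} (hδ : 0 ≤ δ) (S : Finset V) (F : Set V) (d1 : V → ℕ)
    (step : ∀ d : V → ℕ, (∀ v ∈ S, d1 v ≤ d v) → (∀ v ∈ S, v ∈ F → d v = d1 v) →
      ∀ v ∈ S, v ∉ F → d1 v < d v →
        δ * (NN Δ S d : ℝ) ≤ (NN Δ S (Function.update d v (d v - 1)) : ℝ)) :
    ∀ (n : ℕ) (d : V → ℕ), (∀ v ∈ S, d1 v ≤ d v) → (∀ v ∈ S, v ∈ F → d v = d1 v) →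
      ∑ v ∈ S, (d v - d1 v) = n → δ ^ n * (NN Δ S d : ℝ) ≤ (NN Δ S d1 : ℝ) := by
  intro n
  induction n with
  | zero =>
    intro d h1 _ hn
    rw [Finset.sum_eq_zero_iff] at hn
    rw [pow_zero, one_mul, NN_congr S (fun v hv => ?_)]
    have := hn v hv
    have := h1 v hv
    omega
  | succ n ih =>
    intro d h1 h2 hn
    have hex : ∃ v ∈ S, d v - d1 v ≠ 0 := by
      by_contra hcon
      push Not at hcon
      rw [Finset.sum_eq_zero hcon] at hn
      omega
    obtain ⟨v, hv, hv1⟩ := hex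
    have hlt : d1 v < d v := by omega
    have hvF : v ∉ F := fun hvF => by
      have := h2 v hv hvF
      omega
    have h3 := step d h1 h2 v hv hvF hlt
    have h4 := ih (Function.update d v (d v - 1)) (by
        intro w hw
        by_cases hwv : w = v
        · subst hwv
          rw [Function.update_self]
          omega
        · rw [Function.update_of_ne hwv]
          exact h1 w hw) (by
        intro w hw hwF
        have hwv : w ≠ v := fun hwv => hvF (hwv ▸ hwF)
        rw [Function.update_of_ne hwv]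
        exact h2 w hw hwF) (by
        rw [← Finset.add_sum_erase _ _ hv] at hn ⊢
        rw [Function.update_self]
        have h5 : ∑ w ∈ S.erase v, (Function.update d v (d v - 1) w - d1 w) =
            ∑ w ∈ S.erase v, (d w - d1 w) := by
          refine Finset.sum_congr rfl fun w hw => ?_
          rw [Function.update_of_ne (Finset.ne_of_mem_erase hw)]
        rw [h5]
        omega)
    calc δ ^ (n + 1) * (NN Δ S d : ℝ) = δ ^ n * (δ * (NN Δ S d : ℝ)) := by rw [pow_succ]; ring
      _ ≤ δ ^ n * (NN Δ S (Function.update d v (d v - 1)) : ℝ) :=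
        mul_le_mul_of_nonneg_left h3 (pow_nonneg hδ n)
      _ ≤ _ := h4

end TWOne

open TWOne

section T
variable {Δ} {r : ℕ} {h : ℝ} {D0 : ℕ} (H : Hyp Δ r h D0)
include H

theorem TWOne.r_pos : 0 < r := by
  have hV := H.inf
  obtain ⟨v⟩ : Nonempty V := inferInstance
  have h1 := H.iso {v}
  rw [Finset.card_singleton, Nat.cast_one, mul_one] at h1
  have h2 : 0 < bdE Δ {v} := by
    have : (0 : ℝ) < (bdE Δ {v} : ℝ) := H.hpos.trans_le h1
    exact_mod_cast this
  have h3 : bdE Δ {v} ≤ r := by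
    unfold bdE
    rw [Finset.sum_singleton, ← H.reg v, ← SimpleGraph.card_neighborFinset_eq_degree]
    exact Finset.card_le_card Finset.sdiff_subset
  omega

/-- one step inside a cone -/
theorem TWOne.nn_step : ∃ δ : ℝ, 0 < δ ∧ δ < 1 ∧ ∀ (o : V) (j : ℕ) (C : Set V), Cone Δ o j C →
    ∀ (S : Finset V) (d : V → ℕ), (∀ v ∈ S, nb Δ v S ≤ d v) →
      (∀ v ∈ S, v ∈ C → degY Δ C v + nb Δ v (S.filter (· ∉ C)) ≤ d v) →
      ∀ v ∈ S, v ∈ C → degY Δ C v + nb Δ v (S.filter (· ∉ C)) + 1 ≤ d v →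
        δ * (NN Δ S d : ℝ) ≤ (NN Δ S (Function.update d v (d v - 1)) : ℝ) := by
  obtain ⟨b, hb1, -, hb⟩ := exists_bound H
  have hr : (0 : ℝ) < r := by exact_mod_cast TWOne.r_pos H
  set h' : ℝ := h / (2 * (r * b + 1)) with hh'
  have hpos := H.hpos
  have hh'pos : 0 < h' := by positivity
  have hκ : 0 < h' ^ 2 / (2 * (r : ℝ)) := by positivity
  refine ⟨(h' ^ 2 / (2 * r)) / (1 + h' ^ 2 / (2 * r)), by positivity, ?_, ?_⟩
  · rw [div_lt_one (by positivity)]
    linarith
  intro o j C hC S d h1 h2 v hv hvC h3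
  obtain ⟨-, hfin, -, hcard, -⟩ := hb o j C hC.comp
  refine NN_dec' H hh'pos (Y := C) ?_ S d h1 h2 hv hvC h3
  intro X hX
  have h4 := iso_free (Δ := Δ) H (cone_free Δ H hC) (fs (oB Δ C)) (by
    intro v hv w hvw hw
    rw [mem_fs hfin]
    exact ⟨hw, v, hv, hvw⟩) X hX
  refine le_trans ?_ h4
  refine mul_le_mul_of_nonneg_right ?_ (Nat.cast_nonneg _)
  rw [hh']
  have hcard' : ((fs (oB Δ C)).card : ℝ) ≤ b := by exact_mod_cast hcard
  refine div_le_div_of_nonneg_left hpos.le (by positivity) ?_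
  nlinarith

omit H in
/-- the wave in a subset is contained in the wave -/
theorem TWOne.KK_subset (hreg : ∀ v, Δ.degree v = r) {S U Y : Finset V} {χ : V → ℕ}
    (hχ : ∀ v ∈ S, χ v ≤ r) (hU : Disjoint S U) (hY : Y ⊆ S) :
    KK Δ r Y χ U ⊆ KK Δ r S χ U := by
  have h1 : KK Δ r Y χ U ⊆ KK Δ r S χ U ∩ Y := by
    refine KK_least hreg (fun v hv => hχ v (hY hv)) (hU.mono_left hY) Finset.inter_subset_right ?_
    intro v hv hvK
    have hvK' : v ∉ KK Δ r S χ U := fun h => hvK (Finset.mem_inter.2 ⟨h, hv⟩)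
    have h2 := KK_closed hreg hχ hU (hY hv) hvK'
    have h3 := nb_mono (Δ := Δ) v (Finset.union_subset_union (Finset.Subset.refl U)
      (Finset.inter_subset_left : KK Δ r S χ U ∩ Y ⊆ KK Δ r S χ U))
    omega
  exact h1.trans Finset.inter_subset_left

omit H in
/-- a wave contained in `Y` is the wave in `Y` -/
theorem TWOne.KK_eq_of_subset (hreg : ∀ v, Δ.degree v = r) {S U Y : Finset V} {χ : V → ℕ}
    (hχ : ∀ v ∈ S, χ v ≤ r) (hU : Disjoint S U) (hY : Y ⊆ S) (hK : KK Δ r S χ U ⊆ Y) :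
    KK Δ r Y χ U = KK Δ r S χ U := by
  refine Finset.Subset.antisymm (TWOne.KK_subset hreg hχ hU hY) ?_
  by_contra hcon
  have hne : (KK Δ r S χ U \ KK Δ r Y χ U).Nonempty := by
    rwa [Finset.sdiff_nonempty]
  obtain ⟨v, hv, hv1⟩ := KK_burn hreg hχ hU Finset.sdiff_subset hne
  rw [Finset.mem_sdiff] at hv
  have h2 := KK_closed hreg (fun v hv => hχ v (hY hv)) (hU.mono_left hY) (hK hv.1) hv.2
  rw [sdiff_sdiff_right_self, Finset.inf_eq_inter] at hv1
  have h3 := nb_mono (Δ := Δ) v (Finset.union_subset_union (Finset.Subset.refl U)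
      (Finset.inter_subset_right : KK Δ r S χ U ∩ KK Δ r Y χ U ⊆ KK Δ r Y χ U))
  omega

omit H in
/-- number of edges from `Z ∪ U` to the part of `S` outside the filled ball -/
noncomputable def outE (Δ : SimpleGraph V) [Δ.LocallyFinite] (o : V) (j : ℕ) (S Z U : Finset V) : ℕ :=
  ∑ v ∈ S.filter (· ∉ fb Δ o j), nb Δ v (Z ∪ U)

/-- blocking: the wave restricted to the filled ball does not leave it with probability `≥ δ ^ outE` -/
theorem tw_block : ∃ δ : ℝ, 0 < δ ∧ δ < 1 ∧ ∀ (o : V) (j : ℕ) (S U Z : Finset V), Disjoint S U →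
    ↑U ⊆ fb Δ o j → Z ⊆ S.filter (· ∈ fb Δ o j) →
    δ ^ (outE Δ o j S Z U) *
      (((rcr Δ r S).filter fun χ => KK Δ r (S.filter (· ∈ fb Δ o j)) χ U = Z).card : ℝ) ≤
      (((rcr Δ r S).filter fun χ => KK Δ r (S.filter (· ∈ fb Δ o j)) χ U = Z ∧ KK Δ r S χ U = Z).card : ℝ) := by
  obtain ⟨δ, hδ0, hδ1, hδ⟩ := TWOne.nn_step H
  refine ⟨δ, hδ0, hδ1, ?_⟩
  intro o j S U Z hU hUf hZ
  have hreg := H.reg
  set Y := S.filter (· ∈ fb Δ o j) with hY
  have hYS : Y ⊆ S := Finset.filter_subset _ _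
  have hZS : Z ⊆ S := hZ.trans hYS
  have e1 := count_wave hreg hU hYS hZ
  have e2 := count_wave hreg hU (Finset.Subset.refl S) hZS
  have e3 : ((rcr Δ r S).filter fun χ => KK Δ r Y χ U = Z ∧ KK Δ r S χ U = Z) =
      ((rcr Δ r S).filter fun χ => KK Δ r S χ U = Z) := by
    refine Finset.filter_congr fun χ hχ => ?_
    constructor
    · exact fun h => h.2
    · intro hK
      refine ⟨?_, hK⟩
      have hχr : ∀ v ∈ S, χ v ≤ r := by
        intro v hv
        exact ((mem_stab.1 (Finset.mem_filter.1 hχ).1).1 v hv).2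
      rw [TWOne.KK_eq_of_subset hreg hχr hU hYS (by rw [hK]; exact hZ), hK]
  rw [e3, e1, e2]
  push_cast
  -- comparison of the two counts
  set S' := S \ Z with hS'
  set d0 : V → ℕ := fun v => if v ∈ Y then r - nb Δ v (Z ∪ U) else r with hd0
  set d1 : V → ℕ := fun v => if v ∈ S then r - nb Δ v (Z ∪ U) else r with hd1
  have hS'S : S' ⊆ S := Finset.sdiff_subset
  have hd1' : ∀ v ∈ S', d1 v = r - nb Δ v (Z ∪ U) := fun v hv => if_pos (hS'S hv)
  have hZU : ∀ x ∈ Z ∪ U, x ∈ fb Δ o j := by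
    intro x hx
    rcases Finset.mem_union.1 hx with hx | hx
    · exact (Finset.mem_filter.1 (hZ hx)).2
    · exact hUf hx
  have hdisj : Disjoint S' (Z ∪ U) := by
    rw [Finset.disjoint_union_right]
    exact ⟨Finset.sdiff_disjoint, hU.mono_left hS'S⟩
  have key : δ ^ (outE Δ o j S Z U) * (NN Δ S' d0 : ℝ) ≤ (NN Δ S' d1 : ℝ) := by
    refine TWOne.nn_lower hδ0.le S' (fb Δ o j) d1 ?_ (outE Δ o j S Z U) d0 ?_ ?_ ?_
    · intro d h1 h2 v hv hvF hlt
      obtain ⟨C, hC, hvC⟩ : ∃ C, Cone Δ o j C ∧ v ∈ C := by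
        by_contra hcon
        push Not at hcon
        exact hvF hcon
      have hCf : ∀ x, x ∈ fb Δ o j → x ∉ C := fun x hx => hx C hC
      have hthree : ∀ x, degY Δ C x + nb Δ x (S'.filter (· ∉ C)) + nb Δ x (Z ∪ U) ≤ r := by
        intro x
        have := three_disj (Δ := Δ) x (C := C) (A := S'.filter (· ∉ C)) (B := Z ∪ U)
          (fun y hy => (Finset.mem_filter.1 hy).2) (fun y hy => hCf y (hZU y hy))
          (hdisj.mono_left (Finset.filter_subset _ _))
        rwa [hreg] at this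
      refine hδ o j C hC S' d ?_ ?_ v hv hvC ?_
      · intro x hx
        have h4 := nb_add_disj (Δ := Δ) x hdisj
        rw [hreg] at h4
        have h5 := h1 x hx
        rw [hd1' x hx] at h5
        omega
      · intro x hx _
        have h4 := hthree x
        have h5 := h1 x hx
        rw [hd1' x hx] at h5
        omega
      · have h4 := hthree v
        rw [hd1' v hv] at hlt
        omega
    · intro v hv
      rw [hd1' v hv, hd0]
      simp only
      split_ifs
      · exact le_refl _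
      · exact Nat.sub_le _ _
    · intro v hv hvF
      rw [hd1' v hv, hd0]
      simp only
      rw [if_pos]
      rw [hY, Finset.mem_filter]
      exact ⟨hS'S hv, hvF⟩
    · unfold outE
      rw [← Finset.sum_filter_add_sum_filter_not S' (· ∈ fb Δ o j)]
      have e4 : ∑ v ∈ S'.filter (· ∈ fb Δ o j), (d0 v - d1 v) = 0 := by
        refine Finset.sum_eq_zero fun v hv => ?_
        rw [Finset.mem_filter] at hv
        have : v ∈ Y := by
          rw [hY, Finset.mem_filter]
          exact ⟨hS'S hv.1, hv.2⟩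
        rw [hd1' v hv.1, hd0]
        simp only
        rw [if_pos this, Nat.sub_self]
      have e5 : S'.filter (¬ · ∈ fb Δ o j) = S.filter (· ∉ fb Δ o j) := by
        ext v
        simp only [hS', Finset.mem_filter, Finset.mem_sdiff]
        constructor
        · rintro ⟨⟨h1, _⟩, h2⟩
          exact ⟨h1, h2⟩
        · rintro ⟨h1, h2⟩
          exact ⟨⟨h1, fun hvZ => h2 (hZU v (Finset.mem_union_left _ hvZ))⟩, h2⟩
      rw [e4, e5, zero_add]
      refine Finset.sum_congr rfl fun v hv => ?_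
      rw [Finset.mem_filter] at hv
      have hvY : v ∉ Y := fun hvY => hv.2 (Finset.mem_filter.1 hvY).2
      rw [hd0, hd1]
      simp only
      rw [if_neg hvY, if_pos hv.1]
      have := nb_le_degree (Δ := Δ) v (Z ∪ U)
      rw [hreg] at this
      omega
  have hT : (0 : ℝ) ≤ (TT Δ r Z U : ℝ) := Nat.cast_nonneg _
  calc δ ^ (outE Δ o j S Z U) * ((TT Δ r Z U : ℝ) * (NN Δ S' d0 : ℝ))
      = (TT Δ r Z U : ℝ) * (δ ^ (outE Δ o j S Z U) * (NN Δ S' d0 : ℝ)) := by ring
    _ ≤ (TT Δ r Z U : ℝ) * (NN Δ S' d1 : ℝ) := mul_le_mul_of_nonneg_left key hT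

/-- the mean number of edges is bounded -/
theorem tw_mean (m : ℕ) : ∃ C : ℝ, 0 < C ∧ ∀ (o : V) (j : ℕ) (S U : Finset V), Disjoint S U →
    ↑U ⊆ fb Δ o j → U.card ≤ m →
    ex Δ r S (fun χ => (outE Δ o j S (KK Δ r (S.filter (· ∈ fb Δ o j)) χ U) U : ℝ)) ≤ C := by
  obtain ⟨Cs, hCs⟩ := gr_sphere Δ H
  have hreg := H.reg
  set C1 : ℝ := max Cs 0 with hC1
  have hC1' : 0 ≤ C1 := le_max_right _ _
  refine ⟨r * m + r * (C1 * (r * m)) + 1, by positivity, ?_⟩
  intro o j S U hU hUf hUm
  have hNN : (0 : ℝ) < (NNr Δ r S : ℝ) := by exact_mod_cast NN_pos H S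
  obtain ⟨T, hT⟩ := fb_bounds H
  have hsph : (sph Δ o j).Finite :=
    (cb_finite H o j).subset fun v hv => (le_of_eq hv : Δ.dist o v ≤ j)
  set Y := S.filter (· ∈ fb Δ o j) with hY
  have hYS : Y ⊆ S := Finset.filter_subset _ _
  -- pointwise bound
  have hpt : ∀ χ ∈ rcr Δ r S, (outE Δ o j S (KK Δ r Y χ U) U : ℝ) ≤
      r * m + r * ∑ w ∈ fs (sph Δ o j), if w ∈ KK Δ r S χ U then (1 : ℝ) else 0 := by
    intro χ hχ
    have hχr : ∀ v ∈ S, χ v ≤ r := by
      intro v hv
      exact ((mem_stab.1 (Finset.mem_filter.1 hχ).1).1 v hv).2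
    have hsub := TWOne.KK_subset hreg hχr hU hYS
    set A := S.filter (· ∉ fb Δ o j) with hA
    have h1 : outE Δ o j S (KK Δ r Y χ U) U ≤
        ∑ v ∈ A, nb Δ v (KK Δ r Y χ U) + ∑ v ∈ A, nb Δ v U := by
      unfold outE
      rw [← Finset.sum_add_distrib]
      exact Finset.sum_le_sum fun v _ => nb_union_le v _ _
    have h2 : ∑ v ∈ A, nb Δ v U ≤ r * m := by
      rw [sum_nb_comm]
      calc ∑ w ∈ U, nb Δ w A ≤ ∑ w ∈ U, r :=
            Finset.sum_le_sum fun w _ => (nb_le_degree w A).trans_eq (hreg w)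
        _ = U.card * r := by rw [Finset.sum_const, smul_eq_mul]
        _ ≤ r * m := by
            rw [mul_comm]
            exact Nat.mul_le_mul_left _ hUm
    have h3 : ∑ v ∈ A, nb Δ v (KK Δ r Y χ U) ≤
        r * ∑ w ∈ fs (sph Δ o j), if w ∈ KK Δ r S χ U then 1 else 0 := by
      rw [sum_nb_comm, ← Finset.sum_filter, ← Finset.card_eq_sum_ones]
      have h4 : ∑ w ∈ KK Δ r Y χ U, nb Δ w A =
          ∑ w ∈ (KK Δ r Y χ U).filter (fun w => w ∈ sph Δ o j), nb Δ w A := by
        rw [Finset.sum_filter]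
        refine Finset.sum_congr rfl fun w hw => ?_
        split_ifs with hws
        · rfl
        · -- a neighbour outside the filled ball would put `w` on the sphere
          unfold nb
          rw [Finset.card_eq_zero, Finset.eq_empty_iff_forall_notMem]
          intro v hv
          rw [Finset.mem_inter, SimpleGraph.mem_neighborFinset, hA, Finset.mem_filter] at hv
          obtain ⟨hwv, -, hvf⟩ := hv
          obtain ⟨C, hC, hvC⟩ : ∃ C, Cone Δ o j C ∧ v ∈ C := by
            by_contra hcon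
            push Not at hcon
            exact hvf hcon
          have hwY : w ∈ Y := (Finset.mem_filter.1 hw).1
          have hwf : w ∈ fb Δ o j := (Finset.mem_filter.1 hwY).2
          exact hws (oB_sub H hC.comp ⟨hwf C hC, v, hvC, hwv.symm⟩)
      rw [h4]
      calc ∑ w ∈ (KK Δ r Y χ U).filter (fun w => w ∈ sph Δ o j), nb Δ w A
          ≤ ∑ w ∈ (KK Δ r Y χ U).filter (fun w => w ∈ sph Δ o j), r :=
            Finset.sum_le_sum fun w _ => (nb_le_degree w A).trans_eq (hreg w)
        _ = ((KK Δ r Y χ U).filter (fun w => w ∈ sph Δ o j)).card * r := by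
            rw [Finset.sum_const, smul_eq_mul]
        _ ≤ _ := by
            rw [mul_comm]
            refine Nat.mul_le_mul_left _ (Finset.card_le_card ?_)
            intro w hw
            rw [Finset.mem_filter] at hw ⊢
            exact ⟨(mem_fs hsph).2 hw.2, hsub hw.1⟩
    have h5 : outE Δ o j S (KK Δ r Y χ U) U ≤
        r * m + r * ∑ w ∈ fs (sph Δ o j), if w ∈ KK Δ r S χ U then 1 else 0 := by
      omega
    exact_mod_cast h5
  -- expectation
  have hpr : ∀ w, (((rcr Δ r S).filter fun χ => w ∈ KK Δ r S χ U).card : ℝ) =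
      (∑ y ∈ S, gr Δ r ↑S w y * (nb Δ y U : ℝ)) * (NNr Δ r S : ℝ) := by
    intro w
    have := pr_KK H hU w
    unfold pr at this
    rw [div_eq_iff hNN.ne'] at this
    convert this
  have hsum : ∑ w ∈ fs (sph Δ o j), ∑ y ∈ S, gr Δ r ↑S w y * (nb Δ y U : ℝ) ≤ C1 * (r * m) := by
    rw [Finset.sum_comm]
    calc ∑ y ∈ S, ∑ w ∈ fs (sph Δ o j), gr Δ r ↑S w y * (nb Δ y U : ℝ)
        ≤ ∑ y ∈ S, C1 * (nb Δ y U : ℝ) := by
          refine Finset.sum_le_sum fun y _ => ?_
          rw [← Finset.sum_mul]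
          refine mul_le_mul_of_nonneg_right ?_ (Nat.cast_nonneg _)
          refine le_trans ?_ ((hCs S o y j).trans (le_max_left _ _))
          refine Finset.sum_le_sum fun w _ => ?_
          rw [gr_symm H]
      _ = C1 * ∑ y ∈ S, (nb Δ y U : ℝ) := by rw [Finset.mul_sum]
      _ ≤ C1 * (r * m) := by
          refine mul_le_mul_of_nonneg_left ?_ hC1'
          have h6 : ∑ y ∈ S, nb Δ y U ≤ r * m := by
            rw [sum_nb_comm]
            calc ∑ w ∈ U, nb Δ w S ≤ ∑ w ∈ U, r :=
                  Finset.sum_le_sum fun w _ => (nb_le_degree w S).trans_eq (hreg w)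
              _ = U.card * r := by rw [Finset.sum_const, smul_eq_mul]
              _ ≤ r * m := by
                  rw [mul_comm]
                  exact Nat.mul_le_mul_left _ hUm
          exact_mod_cast h6
  unfold ex
  rw [div_le_iff₀ hNN]
  calc ∑ χ ∈ rcr Δ r S, (outE Δ o j S (KK Δ r Y χ U) U : ℝ)
      ≤ ∑ χ ∈ rcr Δ r S,
        ((r : ℝ) * m + r * ∑ w ∈ fs (sph Δ o j), if w ∈ KK Δ r S χ U then (1 : ℝ) else 0) :=
        Finset.sum_le_sum hpt
    _ = (r : ℝ) * m * (NNr Δ r S : ℝ) + r * ∑ w ∈ fs (sph Δ o j),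
        (((rcr Δ r S).filter fun χ => w ∈ KK Δ r S χ U).card : ℝ) := by
        rw [Finset.sum_add_distrib, Finset.sum_const, nsmul_eq_mul, ← Finset.mul_sum,
          Finset.sum_comm]
        congr 1
        · change ((NNr Δ r S : ℕ) : ℝ) * _ = _
          ring
        · congr 1
          refine Finset.sum_congr rfl fun w _ => ?_
          rw [← Finset.sum_filter, Finset.sum_const, nsmul_eq_mul, mul_one]
    _ = ((r : ℝ) * m + r * ∑ w ∈ fs (sph Δ o j), ∑ y ∈ S, gr Δ r ↑S w y * (nb Δ y U : ℝ)) *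
        (NNr Δ r S : ℝ) := by
        rw [add_mul]
        congr 1
        rw [mul_assoc, Finset.sum_mul]
        congr 1
        exact Finset.sum_congr rfl fun w _ => hpr w
    _ ≤ (r * m + r * (C1 * (r * m)) + 1) * (NNr Δ r S : ℝ) := by
        refine mul_le_mul_of_nonneg_right ?_ hNN.le
        have := mul_le_mul_of_nonneg_left hsum (Nat.cast_nonneg r : (0 : ℝ) ≤ r)
        linarith

end T

end Pool.Agent.Sand
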