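import Pool.Agent.SandFin.PR
import Pool.Agent.SandFin.TW1

/-! Tightness of waves, uniformly in the finite region (task TW2). -/

set_option autoImplicit false
open scoped Classical

namespace Pool.Agent.Sand

variable {V : Type} (Δ : SimpleGraph V) [Δ.LocallyFinite]

section T
variable {Δ} {r : ℕ} {h : ℝ} {D0 : ℕ} (H : Hyp Δ r h D0)
include H

theorem tw2_le {S : Finset V} {χ : V → ℕ} (hχ : χ ∈ rcr Δ r S) : ∀ v ∈ S, χ v ≤ r := by
  intro v hv
  have h1 := (Finset.mem_filter.1 hχ).1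
  exact ((mem_stab.1 h1).1 v hv).2

theorem tw2_fb_mono {o : V} {j k : ℕ} (hjk : j ≤ k) : fb Δ o j ⊆ fb Δ o k := by
  induction k, hjk using Nat.le_induction with
  | base => exact subset_rfl
  | succ k _ ih => exact ih.trans (fb_mono H o k)

/-- no edge out of the filled ball: the wave stays inside -/
theorem tw2_stay {o : V} {j : ℕ} {S U : Finset V} (hSU : Disjoint S U) {χ : V → ℕ}
    (hχ : χ ∈ rcr Δ r S)
    (h0 : outE Δ o j S (KK Δ r (S.filter (· ∈ fb Δ o j)) χ U) U = 0) :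
    ↑(KK Δ r S χ U) ⊆ fb Δ o j := by
  have hle := tw2_le H hχ
  have hsub : KK Δ r S χ U ⊆ KK Δ r (S.filter (· ∈ fb Δ o j)) χ U := by
    refine KK_least H.reg hle hSU ((Finset.filter_subset _ _).trans (Finset.filter_subset _ _)) ?_
    intro v hv hvK
    by_cases hvf : v ∈ fb Δ o j
    · exact KK_closed H.reg (fun w hw => hle w (Finset.mem_filter.1 hw).1)
        (hSU.mono_left (Finset.filter_subset _ _)) (Finset.mem_filter.2 ⟨hv, hvf⟩) hvK
    · have h1 : nb Δ v (KK Δ r (S.filter (· ∈ fb Δ o j)) χ U ∪ U) = 0 := by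
        unfold outE at h0
        exact (Finset.sum_eq_zero_iff.1 h0) v (Finset.mem_filter.2 ⟨hv, hvf⟩)
      rw [Finset.union_comm] at h1
      rw [h1]
      exact hle v hv
  intro v hv
  have h1 := hsub (Finset.mem_coe.1 hv)
  exact (Finset.mem_filter.1 ((Finset.filter_subset _ _) h1)).2

/-- an edge out of the filled ball of rank `j + 1` forces the wave to leave the filled ball of rank `j` -/
theorem tw2_leave {o : V} {j : ℕ} {S U : Finset V} (hSU : Disjoint S U) (hU : ↑U ⊆ fb Δ o j)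
    {χ : V → ℕ} (hχ : χ ∈ rcr Δ r S)
    (h0 : 0 < outE Δ o (j + 1) S (KK Δ r (S.filter (· ∈ fb Δ o (j + 1))) χ U) U) :
    ¬ (↑(KK Δ r S χ U) ⊆ fb Δ o j) := by
  have hle := tw2_le H hχ
  intro hsub
  unfold outE at h0
  obtain ⟨v, hv, hv1⟩ := Finset.exists_ne_zero_of_sum_ne_zero h0.ne'
  obtain ⟨hvS, hvf⟩ := Finset.mem_filter.1 hv
  obtain ⟨w, hw⟩ := Finset.card_pos.1 (Nat.pos_of_ne_zero hv1)
  obtain ⟨hwn, hwK⟩ := Finset.mem_inter.1 hw
  have hadj : Δ.Adj v w := by simpa using hwn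
  have hKS : KK Δ r (S.filter (· ∈ fb Δ o (j + 1))) χ U ⊆ KK Δ r S χ U :=
    TWOne.KK_subset H.reg hle hSU (Finset.filter_subset _ _)
  have hwf : w ∈ fb Δ o j := by
    rcases Finset.mem_union.1 hwK with h1 | h1
    · exact hsub (Finset.mem_coe.2 (hKS h1))
    · exact hU (Finset.mem_coe.2 h1)
  have hvf' : ∃ C, Cone Δ o (j + 1) C ∧ v ∈ C := by
    by_contra hcon
    push Not at hcon
    exact hvf hcon
  obtain ⟨C, hC, hvC⟩ := hvf'
  have hwC : w ∉ C := fb_mono H o j hwf C hC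
  have hwo : w ∈ oB Δ C := ⟨hwC, v, hvC, hadj⟩
  obtain ⟨C', hC', hs⟩ := cone_parent H (Nat.le_succ j) hC
  have hwi := oB_child H hC' hC hs hwo
  exact hwf C' hC' hwi.1

/-- probability of stopping -/
theorem tw2_stop {δ : ℝ} (hδ0 : 0 < δ) (hδ1 : δ < 1)
    (hδ : ∀ (o : V) (j : ℕ) (S U Z : Finset V), Disjoint S U →
    ↑U ⊆ fb Δ o j → Z ⊆ S.filter (· ∈ fb Δ o j) →
    δ ^ (outE Δ o j S Z U) *
      (((rcr Δ r S).filter fun χ => KK Δ r (S.filter (· ∈ fb Δ o j)) χ U = Z).card : ℝ) ≤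
      (((rcr Δ r S).filter fun χ => KK Δ r (S.filter (· ∈ fb Δ o j)) χ U = Z ∧ KK Δ r S χ U = Z).card : ℝ))
    {o : V} {j : ℕ} {S U : Finset V} (hSU : Disjoint S U) (hU : ↑U ⊆ fb Δ o j) (N : ℕ) :
    δ ^ N * pr Δ r S (fun χ => 0 < outE Δ o j S (KK Δ r (S.filter (· ∈ fb Δ o j)) χ U) U ∧
        outE Δ o j S (KK Δ r (S.filter (· ∈ fb Δ o j)) χ U) U ≤ N) ≤
      pr Δ r S (fun χ => 0 < outE Δ o j S (KK Δ r (S.filter (· ∈ fb Δ o j)) χ U) U ∧
        ↑(KK Δ r S χ U) ⊆ fb Δ o j) := by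
  set Y := S.filter (· ∈ fb Δ o j) with hY
  have hpos : (0 : ℝ) < (NNr Δ r S : ℝ) := by exact_mod_cast NN_pos H S
  set 𝒵 : Finset (Finset V) := Y.powerset.filter fun Z => 0 < outE Δ o j S Z U ∧ outE Δ o j S Z U ≤ N with h𝒵
  have h1 : ((rcr Δ r S).filter fun χ => 0 < outE Δ o j S (KK Δ r Y χ U) U ∧
      outE Δ o j S (KK Δ r Y χ U) U ≤ N).card =
      ∑ Z ∈ 𝒵, ((rcr Δ r S).filter fun χ => KK Δ r Y χ U = Z).card := by
    rw [Finset.card_eq_sum_card_fiberwise (f := fun χ => KK Δ r Y χ U) (t := 𝒵)]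
    · apply Finset.sum_congr rfl
      intro Z hZ
      have hZ2 := (Finset.mem_filter.1 hZ).2
      congr 1
      ext χ
      simp only [Finset.mem_filter]
      constructor
      · rintro ⟨⟨ha, _⟩, hb⟩
        exact ⟨ha, hb⟩
      · rintro ⟨ha, hb⟩
        exact ⟨⟨ha, by rw [hb]; exact hZ2⟩, hb⟩
    · intro χ hχ
      have hχ2 := (Finset.mem_filter.1 (Finset.mem_coe.1 hχ)).2
      exact Finset.mem_coe.2 (Finset.mem_filter.2 ⟨Finset.mem_powerset.2 (Finset.filter_subset _ _), hχ2⟩)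
  have h2 : ∑ Z ∈ 𝒵, ((rcr Δ r S).filter fun χ => KK Δ r Y χ U = Z ∧ KK Δ r S χ U = Z).card ≤
      ((rcr Δ r S).filter fun χ => 0 < outE Δ o j S (KK Δ r Y χ U) U ∧
        ↑(KK Δ r S χ U) ⊆ fb Δ o j).card := by
    rw [← Finset.card_biUnion]
    · apply Finset.card_le_card
      intro χ hχ
      obtain ⟨Z, hZ, hχZ⟩ := Finset.mem_biUnion.1 hχ
      obtain ⟨ha, hb, hc⟩ := Finset.mem_filter.1 hχZ
      obtain ⟨hZ1, hZ2⟩ := Finset.mem_filter.1 hZ
      refine Finset.mem_filter.2 ⟨ha, ?_, ?_⟩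
      · rw [hb]; exact hZ2.1
      · rw [hc]
        intro v hv
        exact (Finset.mem_filter.1 ((Finset.mem_powerset.1 hZ1) (Finset.mem_coe.1 hv))).2
    · intro Z _ Z' _ hne
      rw [Function.onFun, Finset.disjoint_left]
      intro χ hχ hχ'
      exact hne ((Finset.mem_filter.1 hχ).2.1.symm.trans (Finset.mem_filter.1 hχ').2.1)
  have h3 : δ ^ N * ((∑ Z ∈ 𝒵, ((rcr Δ r S).filter fun χ => KK Δ r Y χ U = Z).card : ℕ) : ℝ) ≤
      ((∑ Z ∈ 𝒵, ((rcr Δ r S).filter fun χ => KK Δ r Y χ U = Z ∧ KK Δ r S χ U = Z).card : ℕ) : ℝ) := by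
    push_cast
    rw [Finset.mul_sum]
    apply Finset.sum_le_sum
    intro Z hZ
    obtain ⟨hZ1, hZ2⟩ := Finset.mem_filter.1 hZ
    refine le_trans ?_ (hδ o j S U Z hSU hU (Finset.mem_powerset.1 hZ1))
    exact mul_le_mul_of_nonneg_right (pow_le_pow_of_le_one hδ0.le hδ1.le hZ2.2) (Nat.cast_nonneg _)
  unfold pr
  rw [← mul_div_assoc]
  apply div_le_div_of_nonneg_right _ hpos.le
  have h2' : ((∑ Z ∈ 𝒵, ((rcr Δ r S).filter fun χ => KK Δ r Y χ U = Z ∧ KK Δ r S χ U = Z).card : ℕ) : ℝ) ≤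
      (((rcr Δ r S).filter fun χ => 0 < outE Δ o j S (KK Δ r Y χ U) U ∧
        ↑(KK Δ r S χ U) ⊆ fb Δ o j).card : ℝ) := by exact_mod_cast h2
  rw [← h1] at h3
  convert h3.trans h2' using 3 <;> congr!

theorem tw (m : ℕ) {ε : ℝ} (hε : 0 < ε) : ∃ J : ℕ, ∀ (o : V) (j : ℕ) (S U : Finset V), Disjoint S U →
    ↑U ⊆ fb Δ o j → U.card ≤ m →
    pr Δ r S (fun χ => ¬ (↑(KK Δ r S χ U) ⊆ fb Δ o (j + J))) ≤ ε := by
  obtain ⟨δ, hδ0, hδ1, hδ⟩ := tw_block H
  obtain ⟨C, hC0, hC⟩ := tw_mean H m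
  set N : ℕ := ⌈2 * C / ε⌉₊ with hN
  have hNε : 2 * C ≤ ε * (N + 1 : ℝ) := by
    have h1 : 2 * C / ε ≤ N := Nat.le_ceil _
    rw [div_le_iff₀ hε] at h1
    nlinarith
  set η : ℝ := δ ^ N / 2 with hη
  have hη0 : 0 < η := by positivity
  have hη1 : η < 1 := by
    have : δ ^ N ≤ 1 := pow_le_one₀ hδ0.le hδ1.le
    rw [hη]; linarith
  obtain ⟨J, hJ⟩ := exists_pow_lt_of_lt_one hε (by linarith : 1 - η < 1)
  refine ⟨J, fun o j S U hSU hU hUm => ?_⟩
  set X : ℕ → (V → ℕ) → ℕ := fun i χ =>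
    outE Δ o (j + i) S (KK Δ r (S.filter (· ∈ fb Δ o (j + i))) χ U) U with hX
  set q : ℕ → ℝ := fun i => pr Δ r S (fun χ => 0 < X i χ) with hq
  set g : ℕ → ℝ := fun i => pr Δ r S (fun χ => ¬ (↑(KK Δ r S χ U) ⊆ fb Δ o (j + i))) with hg
  have hUi : ∀ i, ↑U ⊆ fb Δ o (j + i) := fun i => hU.trans (tw2_fb_mono H (Nat.le_add_right j i))
  have hgq : ∀ i, g i ≤ q i := by
    intro i
    apply pr_mono H
    intro χ hχ hn
    by_contra hcon
    exact hn (tw2_stay H hSU hχ (Nat.eq_zero_of_not_pos hcon))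
  have hqg : ∀ i, q (i + 1) ≤ g i := by
    intro i
    apply pr_mono H
    intro χ hχ hn
    exact tw2_leave H hSU (hUi i) hχ hn
  have hstep : ∀ i, ε ≤ q i → g i ≤ (1 - η) * q i := by
    intro i hi
    -- Markov
    have hm : pr Δ r S (fun χ => (N + 1 : ℝ) ≤ (X i χ : ℝ)) ≤ C / (N + 1 : ℝ) := by
      refine (markov H S (fun χ => (X i χ : ℝ)) (fun χ _ => Nat.cast_nonneg _)
        (by positivity : (0 : ℝ) < N + 1)).trans ?_
      exact div_le_div_of_nonneg_right (hC o (j + i) S U hSU (hUi i) hUm) (by positivity)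
    have hm2 : C / (N + 1 : ℝ) ≤ ε / 2 := by
      rw [div_le_iff₀ (by positivity)]
      linarith
    have hsplit : q i ≤ pr Δ r S (fun χ => 0 < X i χ ∧ X i χ ≤ N) +
        pr Δ r S (fun χ => (N + 1 : ℝ) ≤ (X i χ : ℝ)) := by
      have h1 : q i ≤ pr Δ r S (fun χ => ∃ b ∈ (Finset.univ : Finset Bool),
          (fun (b : Bool) χ => if b then (0 < X i χ ∧ X i χ ≤ N) else ((N + 1 : ℝ) ≤ (X i χ : ℝ))) b χ) := by
        apply pr_mono H
        intro χ _ h0
        by_cases hN' : X i χ ≤ N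
        · exact ⟨true, Finset.mem_univ _, by simp only [if_true]; exact ⟨h0, hN'⟩⟩
        · refine ⟨false, Finset.mem_univ _, ?_⟩
          simp only [Bool.false_eq_true, if_false]
          push Not at hN'
          exact_mod_cast hN'
      refine h1.trans ((pr_union H S Finset.univ
        (fun (b : Bool) χ => if b then (0 < X i χ ∧ X i χ ≤ N) else ((N + 1 : ℝ) ≤ (X i χ : ℝ)))).trans ?_)
      rw [Fintype.sum_bool]
      simp
    have hge : q i / 2 ≤ pr Δ r S (fun χ => 0 < X i χ ∧ X i χ ≤ N) := by linarith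
    have hst := tw2_stop H hδ0 hδ1 hδ hSU (hUi i) N
    have hst2 : η * q i ≤ pr Δ r S (fun χ => 0 < X i χ ∧ ↑(KK Δ r S χ U) ⊆ fb Δ o (j + i)) := by
      refine le_trans ?_ hst
      have : η * q i = δ ^ N * (q i / 2) := by rw [hη]; ring
      rw [this]
      exact mul_le_mul_of_nonneg_left hge (by positivity)
    have hdis : g i + pr Δ r S (fun χ => 0 < X i χ ∧ ↑(KK Δ r S χ U) ⊆ fb Δ o (j + i)) ≤ q i := by
      have e1 : g i = ex Δ r S (fun χ => if ¬ (↑(KK Δ r S χ U) ⊆ fb Δ o (j + i)) then 1 else 0) := by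
        have h9 := (ex_ind H S (fun χ => ¬ (↑(KK Δ r S χ U) ⊆ fb Δ o (j + i)))).symm
        convert h9
      have e2 : q i = ex Δ r S (fun χ => if 0 < X i χ then 1 else 0) := by
        have h9 := (ex_ind H S (fun χ => 0 < X i χ)).symm
        convert h9
      rw [e1, e2, ← ex_ind H, ← ex_add H]
      apply ex_mono H
      intro χ hχ
      by_cases hk : (↑(KK Δ r S χ U) : Set V) ⊆ fb Δ o (j + i)
      · simp only [hk, not_true_eq_false, if_false, and_true, zero_add]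
        exact le_rfl
      · have h0 : 0 < X i χ := by
          by_contra hcon
          exact hk (tw2_stay H hSU hχ (Nat.eq_zero_of_not_pos hcon))
        simp [hk, h0]
    linarith
  by_contra hcon
  push Not at hcon
  have hgJ : ε < g J := hcon
  have hqanti : ∀ i, q (i + 1) ≤ q i := fun i => (hqg i).trans (hgq i)
  have hqJ : ∀ i, i ≤ J → ε < q i := by
    intro i hi
    induction hk : J - i generalizing i with
    | zero =>
      have : i = J := by omega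
      rw [this]; exact lt_of_lt_of_le hgJ (hgq J)
    | succ k ih =>
      have h1 := ih (i + 1) (by omega) (by omega)
      exact lt_of_lt_of_le h1 (hqanti i)
  have hpow : ∀ i, i ≤ J → q i ≤ (1 - η) ^ i := by
    intro i
    induction i with
    | zero =>
      intro _
      rw [pow_zero]
      exact pr_le_one H S _
    | succ i ih =>
      intro hi
      have h1 := ih (by omega)
      have h2 := hstep i (hqJ i (by omega)).le
      have h3 := hqg i
      rw [pow_succ]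
      nlinarith
  have h1 := hpow J le_rfl
  have h2 := hqJ J le_rfl
  linarith

end T

end Pool.Agent.Sand
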