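import Pool.Agent.SandFin.PR
import Pool.Agent.SandFin.TW2

/-! TW3: consequences of the tightness of waves.  (`TwStub` = the part of `Tw.lean` before TW3.) -/

set_option autoImplicit false
open scoped Classical

namespace Pool.Agent.Sand

variable {V : Type} (Δ : SimpleGraph V) [Δ.LocallyFinite]

section T
variable {Δ} {r : ℕ} {h : ℝ} {D0 : ℕ} (H : Hyp Δ r h D0)

/-- equality of probabilities from equality of sums of indicators -/
theorem TW3_pr_eq (S : Finset V) (P : (V → ℕ) → Prop) :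
    pr Δ r S P = (∑ χ ∈ rcr Δ r S, if P χ then (1 : ℝ) else 0) / (NNr Δ r S : ℝ) := by
  unfold pr
  rw [Finset.sum_boole]

theorem TW3_ind_zero {S U : Finset V} (hU : Disjoint S U) : ∀ v ∈ S, ind U v = 0 := by
  intro v hv
  unfold ind
  rw [if_neg (Finset.disjoint_left.mp hU hv)]

theorem TW3_ind_le (U : Finset V) : ∃ q, ∀ v, ind U v ≤ q := by
  refine ⟨1, fun v => ?_⟩
  unfold ind
  split_ifs <;> simp

theorem TW3_nind_zero {S U : Finset V} (hU : Disjoint S U) (k : ℕ) :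
    ∀ v ∈ S, (k • ind U) v = 0 := by
  intro v hv
  simp [TW3_ind_zero hU v hv]

theorem TW3_nind_le (U : Finset V) (k : ℕ) : ∀ v, (k • ind U) v ≤ k := by
  intro v
  simp only [Pi.smul_apply, smul_eq_mul, ind]
  split_ifs <;> simp

theorem TW3_rcr {S : Finset V} {χ : V → ℕ} (hχ : χ ∈ rcr Δ r S) : ∀ v ∈ S, 1 ≤ χ v ∧ χ v ≤ r :=
  (mem_stab.mp (Finset.mem_filter.mp hχ).1).1

/-- the unburnt set and the wave have the same law -/
theorem TW3_law (hreg : ∀ v, Δ.degree v = r) {S U : Finset V} (hU : Disjoint S U)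
    (P : Finset V → Prop) :
    pr Δ r S (fun χ => P (LL Δ S χ U)) = pr Δ r S (fun χ => P (KK Δ r S χ U)) := by
  rw [TW3_pr_eq, TW3_pr_eq]
  congr 1
  rw [← sum_fire hreg (TW3_ind_zero hU) (TW3_ind_le U) (fun χ => if P (LL Δ S χ U) then (1 : ℝ) else 0)]
  refine Finset.sum_congr rfl fun χ hχ => ?_
  rw [LL_fire hreg hχ hU]

/-- the law of a fired configuration -/
theorem TW3_law' (hreg : ∀ v, Δ.degree v = r) {S : Finset V} {n : V → ℕ}
    (hn0 : ∀ v ∈ S, n v = 0) (hfin : ∃ q, ∀ v, n v ≤ q)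
    (P : (V → ℕ) → Prop) :
    pr Δ r S (fun χ => P (fire Δ r S χ n)) = pr Δ r S P := by
  rw [TW3_pr_eq, TW3_pr_eq]
  congr 1
  exact sum_fire hreg hn0 hfin (fun χ => if P χ then (1 : ℝ) else 0)

/-- `LL` only depends on the restriction -/
theorem TW3_LL_rs (S U : Finset V) (χ : V → ℕ) : LL Δ S (rs S χ) U = LL Δ S χ U := by
  unfold LL
  refine Finset.filter_congr fun v _ => ?_
  have key : ∀ W ⊆ S, ((∀ w ∈ W, rs S χ w ≤ nb Δ w (W ∪ U)) ↔ ∀ w ∈ W, χ w ≤ nb Δ w (W ∪ U)) := by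
    intro W hW
    refine forall₂_congr fun w hw => ?_
    unfold rs
    rw [if_pos (hW hw)]
  constructor
  · rintro ⟨W, h1, h2, h3⟩
    exact ⟨W, h1, h2, (key W h1).mp h3⟩
  · rintro ⟨W, h1, h2, h3⟩
    exact ⟨W, h1, h2, (key W h1).mpr h3⟩

include H

/-- every finite set is contained in a filled ball -/
theorem TW3_exists_fb (Λ : Finset V) : ∃ (o : V) (j : ℕ), (↑Λ : Set V) ⊆ fb Δ o j := by
  obtain ⟨T, hT⟩ := fb_bounds H
  have hinf := H.inf
  obtain ⟨o⟩ : Nonempty V := inferInstance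
  refine ⟨o, Λ.sup (fun v => Δ.dist o v), fun v hv => (hT o _).2.1 ?_⟩
  exact Finset.le_sup (f := fun v => Δ.dist o v) (Finset.mem_coe.mp hv)

/-! ### TW3 : consequences -/

theorem tw_LL (m : ℕ) {ε : ℝ} (hε : 0 < ε) : ∃ J : ℕ, ∀ (o : V) (j : ℕ) (S U : Finset V), Disjoint S U →
    ↑U ⊆ fb Δ o j → U.card ≤ m →
    pr Δ r S (fun χ => ¬ (↑(LL Δ S χ U) ⊆ fb Δ o (j + J))) ≤ ε := by
  obtain ⟨J, hJ⟩ := tw H m hε
  refine ⟨J, fun o j S U hd hU hm => ?_⟩
  rw [TW3_law H.reg hd (fun K => ¬ ((↑K : Set V) ⊆ fb Δ o (j + J)))]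
  exact hJ o j S U hd hU hm

/-- the same for the unburnt set around a finite subset of `S` -/
theorem tw_LL' (Λ : Finset V) {ε : ℝ} (hε : 0 < ε) : ∃ X : Finset V, ∀ S : Finset V, Λ ⊆ S →
    pr Δ r S (fun χ => ¬ (LL Δ (S \ Λ) χ Λ ⊆ X)) ≤ ε := by
  obtain ⟨C, hC, hCe⟩ := pr_erase H Λ.card
  obtain ⟨J, hJ⟩ := tw_LL H Λ.card (ε := ε / C) (div_pos hε hC)
  obtain ⟨o, j, hΛ⟩ := TW3_exists_fb H Λ
  obtain ⟨T, hT⟩ := fb_bounds H
  refine ⟨fs (fb Δ o (j + J)), fun S hS => ?_⟩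
  have h1 := hCe Λ S le_rfl hS (fun χ => ¬ (LL Δ (S \ Λ) χ Λ ⊆ fs (fb Δ o (j + J))))
  simp only [TW3_LL_rs] at h1
  refine h1.trans ?_
  have h2 := hJ o j (S \ Λ) Λ Finset.sdiff_disjoint hΛ le_rfl
  have h3 : pr Δ r (S \ Λ) (fun χ => ¬ (LL Δ (S \ Λ) χ Λ ⊆ fs (fb Δ o (j + J)))) ≤ ε / C := by
    refine le_trans (le_of_eq ?_) h2
    congr 1
    funext χ
    refine congrArg Not (propext ?_)
    constructor
    · intro h x hx
      exact (mem_fs (hT o (j + J)).1).mp (h (Finset.mem_coe.mp hx))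
    · intro h x hx
      exact (mem_fs (hT o (j + J)).1).mpr (h (Finset.mem_coe.mpr hx))
  calc C * pr Δ r (S \ Λ) (fun χ => ¬ (LL Δ (S \ Λ) χ Λ ⊆ fs (fb Δ o (j + J))))
      ≤ C * (ε / C) := mul_le_mul_of_nonneg_left h3 hC.le
    _ = ε := by field_simp

/-- waves of `q` firings of `U` -/
theorem TW3_odo_waves {S U : Finset V} (hU : Disjoint S U) {χ : V → ℕ}
    (hχ : ∀ v ∈ S, 1 ≤ χ v ∧ χ v ≤ r) (q : ℕ) (v : V)
    (hv : odo Δ r S χ (q • ind U) v ≠ 0) :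
    ∃ k ∈ Finset.range q, v ∈ KK Δ r S (fire Δ r S χ (k • ind U)) U := by
  induction q with
  | zero =>
    exfalso
    apply hv
    have h0 : Stz Δ r S χ (0 • ind U) (0 : V → ℕ) := by
      refine ⟨fun v _ => rfl, fun v hv => ?_⟩
      have := (hχ v hv).2
      simp only [inc, zero_smul, Pi.zero_apply, Finset.sum_const_zero, add_zero, mul_zero]
      exact this
    have := odo_le h0 v
    simpa using this
  | succ q ih =>
    have hadd := odo_add H.reg (S := S) (χ := χ) (n := q • ind U) (n' := ind U) hχ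
      (TW3_nind_zero hU q) (TW3_ind_zero hU)
      ⟨q + 1, fun v => ⟨(TW3_nind_le U q v).trans (Nat.le_succ q), by
        have := TW3_nind_le U 1 v
        simp only [one_smul] at this
        omega⟩⟩
    have hind := odo_ind H.reg (S := S) (U := U) (χ := fire Δ r S χ (q • ind U))
      (fun v _ => fire_stable H.reg (fun v hv => (hχ v hv).2) (TW3_nind_zero hU q)
        ⟨q, TW3_nind_le U q⟩ v) hU
    rw [succ_nsmul, hadd, hind] at hv
    by_cases h1 : odo Δ r S χ (q • ind U) v = 0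
    · refine ⟨q, Finset.self_mem_range_succ q, ?_⟩
      by_contra hK
      apply hv
      rw [Pi.add_apply, h1, zero_add]
      exact if_neg hK
    · obtain ⟨k, hk, hk'⟩ := ih h1
      exact ⟨k, Finset.mem_range.mpr (Nat.lt_succ_of_lt (Finset.mem_range.mp hk)), hk'⟩

theorem tw_odo (U : Finset V) (q : ℕ) {ε : ℝ} (hε : 0 < ε) : ∃ X : Finset V, ∀ S : Finset V,
    Disjoint S U → ∀ n : V → ℕ, (∀ v, v ∉ U → n v = 0) → (∀ v, n v ≤ q) →
    pr Δ r S (fun χ => ∃ v, v ∉ X ∧ odo Δ r S χ n v ≠ 0) ≤ ε := by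
  have hε' : 0 < ε / (q + 1 : ℝ) := by positivity
  obtain ⟨J, hJ⟩ := tw H U.card hε'
  obtain ⟨o, j, hUfb⟩ := TW3_exists_fb H U
  obtain ⟨T, hT⟩ := fb_bounds H
  refine ⟨fs (fb Δ o (j + J)), fun S hd n hn0 hnq => ?_⟩
  have h1 : pr Δ r S (fun χ => ∃ v, v ∉ fs (fb Δ o (j + J)) ∧ odo Δ r S χ n v ≠ 0) ≤
      pr Δ r S (fun χ => ∃ k ∈ Finset.range q,
        ¬ ((↑(KK Δ r S (fire Δ r S χ (k • ind U)) U) : Set V) ⊆ fb Δ o (j + J))) := by
    refine pr_mono H S fun χ hχ => ?_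
    rintro ⟨v, hv1, hv2⟩
    have hχ' := TW3_rcr hχ
    have hmono : odo Δ r S χ n ≤ odo Δ r S χ (q • ind U) := by
      refine odo_mono H.reg (fun v hv => (hχ' v hv).2) (TW3_nind_zero hd q) le_rfl ?_
        ⟨q, TW3_nind_le U q⟩
      intro v
      by_cases hv : v ∈ U
      · simp only [Pi.smul_apply, smul_eq_mul, ind, if_pos hv, mul_one]
        exact hnq v
      · rw [hn0 v hv]
        exact Nat.zero_le _
    have hv3 : odo Δ r S χ (q • ind U) v ≠ 0 := by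
      have := hmono v
      intro h0
      rw [h0] at this
      exact hv2 (Nat.le_zero.mp this)
    obtain ⟨k, hk, hk'⟩ := TW3_odo_waves H hd hχ' q v hv3
    refine ⟨k, hk, fun hsub => hv1 ?_⟩
    exact (mem_fs (hT o (j + J)).1).mpr (hsub (Finset.mem_coe.mpr hk'))
  refine h1.trans ?_
  have h2 := pr_union H S (Finset.range q) (fun k χ =>
    ¬ ((↑(KK Δ r S (fire Δ r S χ (k • ind U)) U) : Set V) ⊆ fb Δ o (j + J)))
  refine h2.trans ?_
  have h3 : ∀ k ∈ Finset.range q, pr Δ r S (fun χ =>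
      ¬ ((↑(KK Δ r S (fire Δ r S χ (k • ind U)) U) : Set V) ⊆ fb Δ o (j + J))) ≤ ε / (q + 1 : ℝ) := by
    intro k _
    rw [TW3_law' H.reg (TW3_nind_zero hd k) ⟨k, TW3_nind_le U k⟩
      (fun χ => ¬ ((↑(KK Δ r S χ U) : Set V) ⊆ fb Δ o (j + J)))]
    exact hJ o j S U hd hUfb le_rfl
  refine (Finset.sum_le_sum h3).trans ?_
  rw [Finset.sum_const, Finset.card_range, nsmul_eq_mul]
  have hq : (0 : ℝ) ≤ q := Nat.cast_nonneg q
  rw [mul_div_assoc', div_le_iff₀ (by positivity)]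
  nlinarith

end T

end Pool.Agent.Sand
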