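import Pool.Agent.SandFin.All2
import Pool.Agent.SandFin.PR
import Pool.Agent.SandFin.TW1
import Pool.Agent.SandFin.TW2
import Pool.Agent.SandFin.TW3
import Pool.Agent.SandFin.DOM
import Pool.Agent.SandFin.DLX
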