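import Pool.Agent.SandFin.LmDefs

/-! TASK EQ: transport by automorphisms. -/

set_option autoImplicit false
open scoped Classical
open Filter Topology

namespace Pool.Agent.Sand

variable {V : Type} (Δ : SimpleGraph V) [Δ.LocallyFinite]

section E
variable {Δ} {r : ℕ}

theorem eq_mem (φ : Δ ≃g Δ) (S : Finset V) (v : V) : v ∈ mvf Δ φ S ↔ φ.symm v ∈ S := by
  unfold mvf
  rw [Finset.mem_map]
  constructor
  · rintro ⟨w, hw, rfl⟩
    have : φ.symm (φ w) = w := φ.symm_apply_apply w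
    show φ.symm (φ w) ∈ S
    rwa [this]
  · intro h
    exact ⟨φ.symm v, h, φ.apply_symm_apply v⟩

theorem eq_mem' (φ : Δ ≃g Δ) (S : Finset V) (v : V) : φ v ∈ mvf Δ φ S ↔ v ∈ S := by
  rw [eq_mem, φ.symm_apply_apply]

theorem eq_symm (φ : Δ ≃g Δ) : φ.symm.symm = φ := rfl

theorem eq_mvf_symm (φ : Δ ≃g Δ) (S : Finset V) : mvf Δ φ.symm (mvf Δ φ S) = S := by
  ext v
  rw [eq_mem, eq_mem, eq_symm, φ.symm_apply_apply]

theorem eq_mvf_symm' (φ : Δ ≃g Δ) (S : Finset V) : mvf Δ φ (mvf Δ φ.symm S) = S := by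
  ext v
  rw [eq_mem, eq_mem, eq_symm, φ.apply_symm_apply]

theorem eq_mvc_symm (φ : Δ ≃g Δ) (χ : V → ℕ) : mvc Δ φ.symm (mvc Δ φ χ) = χ := by
  funext v
  show χ (φ.symm (φ v)) = χ v
  rw [φ.symm_apply_apply]

theorem eq_mvc_symm' (φ : Δ ≃g Δ) (χ : V → ℕ) : mvc Δ φ (mvc Δ φ.symm χ) = χ := by
  funext v
  show χ (φ (φ.symm v)) = χ v
  rw [φ.apply_symm_apply]

theorem eq_mvc_app (φ : Δ ≃g Δ) (χ : V → ℕ) (v : V) : mvc Δ φ χ (φ v) = χ v := by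
  show χ (φ.symm (φ v)) = χ v
  rw [φ.symm_apply_apply]

theorem eq_mvf_mono (φ : Δ ≃g Δ) {S T : Finset V} (h : S ⊆ T) : mvf Δ φ S ⊆ mvf Δ φ T := by
  intro v hv
  rw [eq_mem] at hv ⊢
  exact h hv

theorem eq_mvf_sub (φ : Δ ≃g Δ) {S T : Finset V} (h : S ⊆ mvf Δ φ T) : mvf Δ φ.symm S ⊆ T := by
  have := eq_mvf_mono φ.symm h
  rwa [eq_mvf_symm] at this

theorem eq_mvf_nonempty (φ : Δ ≃g Δ) {S : Finset V} (h : S.Nonempty) :
    (mvf Δ φ S).Nonempty := by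
  obtain ⟨v, hv⟩ := h
  exact ⟨φ v, (eq_mem' φ S v).2 hv⟩

theorem eq_nbr (φ : Δ ≃g Δ) (v : V) : Δ.neighborFinset (φ v) = mvf Δ φ (Δ.neighborFinset v) := by
  ext w
  rw [eq_mem, SimpleGraph.mem_neighborFinset, SimpleGraph.mem_neighborFinset]
  have := φ.map_adj_iff (v := v) (w := φ.symm w)
  rw [φ.apply_symm_apply] at this
  exact this

theorem eq_mvf_inter (φ : Δ ≃g Δ) (S T : Finset V) :
    mvf Δ φ S ∩ mvf Δ φ T = mvf Δ φ (S ∩ T) := by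
  ext v
  simp only [Finset.mem_inter, eq_mem]

theorem eq_mvf_union (φ : Δ ≃g Δ) (S T : Finset V) :
    mvf Δ φ S ∪ mvf Δ φ T = mvf Δ φ (S ∪ T) := by
  ext v
  simp only [Finset.mem_union, eq_mem]

theorem eq_card (φ : Δ ≃g Δ) (S : Finset V) : (mvf Δ φ S).card = S.card := Finset.card_map _

theorem eq_nb (φ : Δ ≃g Δ) (v : V) (W : Finset V) : nb Δ (φ v) (mvf Δ φ W) = nb Δ v W := by
  unfold nb
  rw [eq_nbr, eq_mvf_inter, eq_card]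

theorem eq_nb' (φ : Δ ≃g Δ) (v : V) (W : Finset V) :
    nb Δ v (mvf Δ φ W) = nb Δ (φ.symm v) W := by
  rw [← eq_nb φ (φ.symm v), φ.apply_symm_apply]

theorem eq_inc (φ : Δ ≃g Δ) (v : V) (u : V → ℕ) : inc Δ (φ v) (mvc Δ φ u) = inc Δ v u := by
  unfold inc
  rw [eq_nbr]
  unfold mvf
  rw [Finset.sum_map]
  apply Finset.sum_congr rfl
  intro w _
  exact eq_mvc_app φ u w

theorem eq_inc' (φ : Δ ≃g Δ) (v : V) (u : V → ℕ) :
    inc Δ v (mvc Δ φ u) = inc Δ (φ.symm v) u := by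
  rw [← eq_inc φ (φ.symm v), φ.apply_symm_apply]

theorem eq_rc_mem (S : Finset V) (χ : V → ℕ) : χ ∈ rcr Δ r S ↔
    ((∀ v ∈ S, 1 ≤ χ v ∧ χ v ≤ r) ∧ ∀ v, v ∉ S → χ v = 0) ∧
      ∀ W ⊆ S, W.Nonempty → ∃ v ∈ W, nb Δ v W < χ v := by
  unfold rcr rc
  rw [Finset.mem_filter, mem_stab]

theorem eq_rc_one (φ : Δ ≃g Δ) (S : Finset V) (χ : V → ℕ) (h : χ ∈ rcr Δ r S) :
    mvc Δ φ χ ∈ rcr Δ r (mvf Δ φ S) := by
  rw [eq_rc_mem] at h ⊢
  obtain ⟨⟨h1, h2⟩, h3⟩ := h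
  refine ⟨⟨?_, ?_⟩, ?_⟩
  · intro v hv
    rw [eq_mem] at hv
    exact h1 _ hv
  · intro v hv
    rw [eq_mem] at hv
    exact h2 _ hv
  · intro W hW hne
    obtain ⟨v, hv, hlt⟩ := h3 (mvf Δ φ.symm W) (eq_mvf_sub φ hW) (eq_mvf_nonempty φ.symm hne)
    rw [eq_mem, eq_symm] at hv
    refine ⟨φ v, hv, ?_⟩
    rw [eq_nb', eq_symm] at hlt
    rwa [eq_mvc_app]

theorem mvf_rc (φ : Δ ≃g Δ) (S : Finset V) (χ : V → ℕ) :
    mvc Δ φ χ ∈ rcr Δ r (mvf Δ φ S) ↔ χ ∈ rcr Δ r S := by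
  constructor
  · intro h
    have := eq_rc_one φ.symm _ _ h
    rwa [eq_mvc_symm, eq_mvf_symm] at this
  · exact eq_rc_one φ S χ

/-- transport of configurations, as an equivalence -/
def eqE (φ : Δ ≃g Δ) : (V → ℕ) ≃ (V → ℕ) where
  toFun := mvc Δ φ
  invFun := mvc Δ φ.symm
  left_inv := eq_mvc_symm φ
  right_inv := eq_mvc_symm' φ

theorem eq_rcr_map (φ : Δ ≃g Δ) (S : Finset V) :
    rcr Δ r (mvf Δ φ S) = (rcr Δ r S).map (eqE φ).toEmbedding := by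
  ext χ
  rw [Finset.mem_map]
  constructor
  · intro h
    refine ⟨mvc Δ φ.symm χ, ?_, eq_mvc_symm' φ χ⟩
    rw [← mvf_rc φ, eq_mvc_symm']
    exact h
  · rintro ⟨χ', h, rfl⟩
    exact (mvf_rc φ S χ').2 h

theorem mvf_pr (φ : Δ ≃g Δ) (S : Finset V) (P : (V → ℕ) → Prop) :
    pr Δ r (mvf Δ φ S) P = pr Δ r S (fun χ => P (mvc Δ φ χ)) := by
  have h1 : NNr Δ r (mvf Δ φ S) = NNr Δ r S := by
    show (rcr Δ r (mvf Δ φ S)).card = (rcr Δ r S).card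
    rw [eq_rcr_map, Finset.card_map]
  unfold pr
  rw [h1, eq_rcr_map, Finset.filter_map, Finset.card_map]
  rfl

theorem eq_stz (φ : Δ ≃g Δ) (S : Finset V) (χ n u : V → ℕ) (h : Stz Δ r S χ n u) :
    Stz Δ r (mvf Δ φ S) (mvc Δ φ χ) (mvc Δ φ n) (mvc Δ φ u) := by
  obtain ⟨h1, h2⟩ := h
  refine ⟨?_, ?_⟩
  · intro v hv
    rw [eq_mem] at hv
    exact h1 _ hv
  · intro v hv
    rw [eq_mem] at hv
    rw [eq_inc', eq_inc']
    exact h2 _ hv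

theorem eq_stz' (φ : Δ ≃g Δ) (S : Finset V) (χ n u : V → ℕ)
    (h : Stz Δ r (mvf Δ φ S) (mvc Δ φ χ) (mvc Δ φ n) u) : Stz Δ r S χ n (mvc Δ φ.symm u) := by
  have := eq_stz φ.symm _ _ _ _ h
  rwa [eq_mvf_symm, eq_mvc_symm, eq_mvc_symm] at this

theorem mvf_odo (φ : Δ ≃g Δ) (S : Finset V) (χ n : V → ℕ) :
    odo Δ r (mvf Δ φ S) (mvc Δ φ χ) (mvc Δ φ n) = mvc Δ φ (odo Δ r S χ n) := by
  funext v
  show sInf _ = sInf _
  congr 1
  ext k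
  constructor
  · rintro ⟨u, hu, hk⟩
    refine ⟨mvc Δ φ.symm u, eq_stz' φ S χ n u hu, ?_⟩
    show u (φ (φ.symm v)) = k
    rw [φ.apply_symm_apply, hk]
  · rintro ⟨u, hu, hk⟩
    exact ⟨mvc Δ φ u, eq_stz φ S χ n u hu, hk⟩

theorem mvf_LL (φ : Δ ≃g Δ) (S U : Finset V) (χ : V → ℕ) :
    LL Δ (mvf Δ φ S) (mvc Δ φ χ) (mvf Δ φ U) = mvf Δ φ (LL Δ S χ U) := by
  ext v
  rw [eq_mem]
  unfold LL
  rw [Finset.mem_filter, Finset.mem_filter, eq_mem]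
  apply and_congr_right
  intro _
  constructor
  · rintro ⟨W, hW, hv, h⟩
    refine ⟨mvf Δ φ.symm W, eq_mvf_sub φ hW, ?_, ?_⟩
    · rw [eq_mem, eq_symm, φ.apply_symm_apply]
      exact hv
    · intro w hw
      rw [eq_mem, eq_symm] at hw
      have := h (φ w) hw
      rw [eq_mvc_app] at this
      refine this.trans (le_of_eq ?_)
      have e : W ∪ mvf Δ φ U = mvf Δ φ (mvf Δ φ.symm W ∪ U) := by
        rw [← eq_mvf_union, eq_mvf_symm']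
      rw [e, eq_nb]
  · rintro ⟨W, hW, hv, h⟩
    refine ⟨mvf Δ φ W, eq_mvf_mono φ hW, (eq_mem φ W v).2 hv, ?_⟩
    intro w hw
    rw [eq_mem] at hw
    rw [eq_mvf_union, eq_nb']
    exact h _ hw

theorem mvf_tendsto (φ : Δ ≃g Δ) (f : Finset V → ℝ) (ℓ : ℝ) (hf : Tendsto f atTop (𝓝 ℓ)) :
    Tendsto (fun G => f (mvf Δ φ G)) atTop (𝓝 ℓ) := by
  refine hf.comp ?_
  apply tendsto_atTop_atTop_of_monotone
  · intro S T h
    exact eq_mvf_mono φ h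
  · intro T
    exact ⟨mvf Δ φ.symm T, (eq_mvf_symm' φ T).ge⟩

theorem eq_mem_image (φ : Δ ≃g Δ) (C : Set V) (v : V) : v ∈ φ '' C ↔ φ.symm v ∈ C := by
  constructor
  · rintro ⟨w, hw, rfl⟩
    rwa [φ.symm_apply_apply]
  · intro h
    exact ⟨φ.symm v, h, φ.apply_symm_apply v⟩

theorem mvf_cut (φ : Δ ≃g Δ) (C : Set V) (G : Finset V) :
    cut (φ '' C) (mvf Δ φ G) = mvf Δ φ (cut C G) := by
  ext v
  unfold cut
  rw [Finset.mem_filter, eq_mem, eq_mem, Finset.mem_filter, eq_mem_image]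

theorem eq_adj (φ : Δ ≃g Δ) (v w : V) : Δ.Adj (φ.symm v) w ↔ Δ.Adj v (φ w) := by
  rw [← φ.map_adj_iff, φ.apply_symm_apply]

theorem mvf_oB (φ : Δ ≃g Δ) (C : Set V) : oB Δ (φ '' C) = φ '' (oB Δ C) := by
  ext v
  rw [eq_mem_image]
  unfold oB
  simp only [Set.mem_ofPred_eq, eq_mem_image]
  apply and_congr_right
  intro _
  constructor
  · rintro ⟨w, hw, h⟩
    refine ⟨φ.symm w, hw, ?_⟩
    rwa [eq_adj, φ.apply_symm_apply]
  · rintro ⟨w, hw, h⟩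
    refine ⟨φ w, by rwa [φ.symm_apply_apply], ?_⟩
    rw [Δ.adj_comm] at h ⊢
    rwa [eq_adj] at h

theorem mvf_iB (φ : Δ ≃g Δ) (C : Set V) : iB Δ (φ '' C) = φ '' (iB Δ C) := by
  ext v
  rw [eq_mem_image]
  unfold iB
  simp only [Set.mem_ofPred_eq, eq_mem_image]
  apply and_congr_right
  intro _
  constructor
  · rintro ⟨w, hw, h⟩
    refine ⟨φ.symm w, hw, ?_⟩
    rwa [eq_adj, φ.apply_symm_apply]
  · rintro ⟨w, hw, h⟩
    refine ⟨φ w, by rwa [φ.symm_apply_apply], ?_⟩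
    rwa [eq_adj] at h

theorem mvf_fs (φ : Δ ≃g Δ) (C : Set V) : fs (φ '' C) = mvf Δ φ (fs C) := by
  by_cases hC : C.Finite
  · ext v
    rw [mem_fs (hC.image φ), eq_mem, mem_fs hC, eq_mem_image]
  · have h1 : ¬ (φ '' C).Finite := fun h => hC ((Set.finite_image_iff φ.injective.injOn).1 h)
    unfold fs
    rw [dif_neg hC, dif_neg h1]
    rfl

theorem eq_dist_le (φ : Δ ≃g Δ) (x y : V) : Δ.dist (φ x) (φ y) ≤ Δ.dist x y := by
  by_cases h : Δ.Reachable x y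
  · obtain ⟨w, hw⟩ := h.exists_walk_length_eq_dist
    rw [← hw, ← SimpleGraph.Walk.length_map φ.toHom w]
    exact SimpleGraph.dist_le _
  · have h2 : ¬ Δ.Reachable (φ x) (φ y) := fun h' => h (SimpleGraph.Iso.reachable_iff.1 h')
    rw [SimpleGraph.dist_eq_zero_of_not_reachable h2]
    exact Nat.zero_le _

theorem eq_dist (φ : Δ ≃g Δ) (x y : V) : Δ.dist (φ x) (φ y) = Δ.dist x y := by
  apply le_antisymm (eq_dist_le φ x y)
  have := eq_dist_le φ.symm (φ x) (φ y)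
  rwa [φ.symm_apply_apply, φ.symm_apply_apply] at this

theorem eq_cb (φ : Δ ≃g Δ) (o : V) (R : ℕ) : cb Δ (φ o) R = φ '' cb Δ o R := by
  ext v
  rw [eq_mem_image]
  unfold cb
  simp only [Set.mem_ofPred_eq]
  rw [← eq_dist φ o (φ.symm v), φ.apply_symm_apply]

theorem mvf_cone (φ : Δ ≃g Δ) {o : V} {R : ℕ} {C : Set V} (hC : Cone Δ o R C) :
    Cone Δ (φ o) R (φ '' C) := by
  obtain ⟨⟨h1, h2, h3⟩, h4⟩ := hC
  refine ⟨⟨?_, ?_, ?_⟩, h4.image φ.injective.injOn⟩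
  · rw [eq_cb, Set.disjoint_image_iff φ.injective]
    exact h1
  · intro x hx y hxy hy
    rw [eq_mem_image] at hx hy
    rw [eq_cb, eq_mem_image]
    apply h2 _ hx _ _ hy
    rw [eq_adj, φ.apply_symm_apply]
    exact hxy
  · let f : Δ.induce C →g Δ.induce (φ '' C) :=
      { toFun := fun v => ⟨φ v.1, ⟨v.1, v.2, rfl⟩⟩
        map_rel' := fun {a b} h => φ.map_adj_iff.2 h }
    apply h3.map f
    rintro ⟨v, ⟨w, hw, rfl⟩⟩
    exact ⟨⟨w, hw⟩, rfl⟩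

end E

end Pool.Agent.Sand
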