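import Pool.Agent.SandFin.GL12

set_option autoImplicit false

namespace Pool.Agent.Sand
export GL12 (mem_fpi sum_fpi_prod gC_rs glue_rc glue_LL)
end Pool.Agent.Sand
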