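import Pool.Agent.SandFin.GL12X

/-! Task GL3: gluing of odometers. -/

set_option autoImplicit false
set_option linter.unusedSectionVars false
open scoped Classical

namespace Pool.Agent.Sand

variable {V : Type} (Δ : SimpleGraph V) [Δ.LocallyFinite]

section GL3
variable {Δ} {r : ℕ}

theorem GL3_odo_out {S : Finset V} {χ n : V → ℕ} {v : V} (hv : v ∉ S) : odo Δ r S χ n v = 0 := by
  unfold odo
  have hsub : {k | ∃ u, Stz Δ r S χ n u ∧ u v = k} ⊆ {0} := by
    rintro k ⟨u, hu, rfl⟩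
    exact hu.1 v hv
  rcases Set.subset_singleton_iff_eq.1 hsub with h | h
  · rw [h, Nat.sInf_empty]
  · rw [h, csInf_singleton]

theorem GL3_stz_congr {S : Finset V} {χ χ' n n' u : V → ℕ} (h1 : ∀ v ∈ S, χ v = χ' v)
    (h2 : ∀ v ∈ S, inc Δ v n = inc Δ v n') : Stz Δ r S χ n u ↔ Stz Δ r S χ' n' u := by
  unfold Stz
  refine and_congr Iff.rfl (forall₂_congr fun v hv => ?_)
  rw [h1 v hv, h2 v hv]

theorem GL3_odo_congr {S : Finset V} {χ χ' n n' : V → ℕ} (h1 : ∀ v ∈ S, χ v = χ' v)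
    (h2 : ∀ v ∈ S, inc Δ v n = inc Δ v n') : odo Δ r S χ n = odo Δ r S χ' n' := by
  funext v
  unfold odo
  congr 1
  ext k
  simp only [GL3_stz_congr h1 h2]

theorem GL3_inc_congr {v : V} {n n' : V → ℕ} (h : ∀ w, Δ.Adj v w → n w = n' w) :
    inc Δ v n = inc Δ v n' := by
  unfold inc
  exact Finset.sum_congr rfl fun w hw => h w ((SimpleGraph.mem_neighborFinset _ _ _).1 hw)

theorem GL3_inc_mono {v : V} {n n' : V → ℕ} (h : ∀ w, Δ.Adj v w → n w ≤ n' w) :
    inc Δ v n ≤ inc Δ v n' := by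
  unfold inc
  exact Finset.sum_le_sum fun w hw => h w ((SimpleGraph.mem_neighborFinset _ _ _).1 hw)

theorem GL3_inc_add {v : V} {n n' : V → ℕ} : inc Δ v n + inc Δ v n' = inc Δ v (fun w => n w + n' w) := by
  unfold inc
  exact Finset.sum_add_distrib.symm

theorem GL3_inc_zero {v : V} : inc Δ v 0 = 0 := by
  unfold inc
  simp

variable (hreg : ∀ v, Δ.degree v = r) {B : Finset V} {𝒟 : Finset (Set V)} (hD : Dec Δ B 𝒟) (q : ℕ)
include hD

theorem GL3_fs_oB {D : Set V} (hDD : D ∈ 𝒟) {v : V} : v ∈ fs (oB Δ D) ↔ v ∈ oB Δ D :=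
  mem_fs (hD.finO D hDD)

theorem GL3_fs_iB {D : Set V} (hDD : D ∈ 𝒟) {v : V} : v ∈ fs (iB Δ D) ↔ v ∈ iB Δ D :=
  mem_fs (hD.finI D hDD)

set_option linter.unusedVariables false in
theorem glue_in {S : Finset V} (hB : B ⊆ S) (hS : ↑S ⊆ reg B 𝒟) {χ e u : V → ℕ}
    (he : ∀ v, v ∉ B → e v = 0) (hu : Stz Δ r S (χ + e) 0 u) {D : Set V} (hDD : D ∈ 𝒟) {v : V} (hv : v ∈ D) :
    odo Δ r S (χ + e) 0 v =
      odo Δ r (cut D S) χ (rs (fs (oB Δ D)) (odo Δ r S (χ + e) 0)) v := by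
  by_cases hvS : v ∈ S
  · have hvT : v ∈ cut D S := Finset.mem_filter.2 ⟨hvS, hv⟩
    have hT : cut D S ⊆ S := Finset.filter_subset _ _
    rw [odo_restrict (n := 0) (T := cut D S) hT (fun w _ => rfl) hu v hvT]
    refine congrFun (GL3_odo_congr ?_ ?_) v
    · intro w hw
      have hwB : w ∉ B := fun hwB => hD.disj D hDD w hwB (Finset.mem_filter.1 hw).2
      simp [he w hwB]
    · intro w hw
      refine GL3_inc_congr fun x hx => ?_
      have hwD : w ∈ D := (Finset.mem_filter.1 hw).2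
      by_cases hxD : x ∈ D
      · have h1 : x ∉ fs (oB Δ D) := by
          rw [GL3_fs_oB hD hDD]
          exact fun h => h.1 hxD
        simp only [rs, if_neg h1]
        by_cases hxT : x ∈ cut D S
        · rw [if_pos hxT]
        · rw [if_neg hxT]
          have hxS : x ∉ S := fun h => hxT (Finset.mem_filter.2 ⟨h, hxD⟩)
          rw [GL3_odo_out hxS]
          rfl
      · have h1 : x ∈ fs (oB Δ D) := by
          rw [GL3_fs_oB hD hDD]
          exact ⟨hxD, w, hwD, hx⟩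
        have hxT : x ∉ cut D S := fun h => hxD (Finset.mem_filter.1 h).2
        simp only [rs, if_pos h1, if_neg hxT]
        simp
  · have hvT : v ∉ cut D S := fun h => hvS (Finset.mem_filter.1 h).1
    rw [GL3_odo_out hvS, GL3_odo_out hvT]

theorem glue_sz {S : Finset V} (hB : B ⊆ S) (hS : ↑S ⊆ reg B 𝒟) {χ e u : V → ℕ}
    (he : ∀ v, v ∉ B → e v = 0) (hu : Stz Δ r S (χ + e) 0 u) :
    (S.filter fun v => odo Δ r S (χ + e) 0 v ≠ 0).card =
      (B.filter fun v => odo Δ r S (χ + e) 0 v ≠ 0).card +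
        ∑ D ∈ 𝒟, sz Δ r (cut D S) χ (rs (fs (oB Δ D)) (odo Δ r S (χ + e) 0)) := by
  have h1 : (S.filter fun v => odo Δ r S (χ + e) 0 v ≠ 0) =
      (B.filter fun v => odo Δ r S (χ + e) 0 v ≠ 0) ∪
        𝒟.biUnion (fun D => (cut D S).filter fun v => odo Δ r (cut D S) χ
          (rs (fs (oB Δ D)) (odo Δ r S (χ + e) 0)) v ≠ 0) := by
    ext v
    simp only [Finset.mem_filter, Finset.mem_union, Finset.mem_biUnion]
    constructor
    · rintro ⟨hvS, hv0⟩
      rcases hS (Finset.mem_coe.2 hvS) with hvB | hvD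
      · exact Or.inl ⟨hvB, hv0⟩
      · right
        simp only [Set.mem_iUnion] at hvD
        obtain ⟨D, hDD, hvD⟩ := hvD
        refine ⟨D, hDD, Finset.mem_filter.2 ⟨hvS, hvD⟩, ?_⟩
        rw [← glue_in hD hB hS he hu hDD hvD]
        exact hv0
    · rintro (⟨hvB, hv0⟩ | ⟨D, hDD, hvD, hv0⟩)
      · exact ⟨hB hvB, hv0⟩
      · refine ⟨(Finset.mem_filter.1 hvD).1, ?_⟩
        rw [glue_in hD hB hS he hu hDD (Finset.mem_filter.1 hvD).2]
        exact hv0
  rw [h1, Finset.card_union_of_disjoint, Finset.card_biUnion]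
  · rfl
  · intro D hDD D' hDD' hne
    refine Finset.disjoint_left.2 ?_
    intro v hv hv'
    exact Set.disjoint_left.1 (hD.pw D hDD D' hDD' hne)
      (Finset.mem_filter.1 (Finset.mem_filter.1 hv).1).2
      (Finset.mem_filter.1 (Finset.mem_filter.1 hv').1).2
  · rw [Finset.disjoint_left]
    intro v hv hv'
    obtain ⟨D, hDD, hvD⟩ := Finset.mem_biUnion.1 hv'
    exact hD.disj D hDD v (Finset.mem_filter.1 hv).1
      (Finset.mem_filter.1 (Finset.mem_filter.1 hvD).1).2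

/-- the capped outer data vanish on the region -/
theorem GL3_cap_zero {D : Set V} (hDD : D ∈ 𝒟) {v : V} (hv : v ∈ D) (n : V → ℕ) :
    cap Δ q D n v = 0 := by
  unfold cap
  rw [if_neg]
  rw [GL3_fs_oB hD hDD]
  exact fun h => h.1 hv

omit hD in
theorem GL3_cap_le (D : Set V) (n : V → ℕ) (v : V) : cap Δ q D n v ≤ q := by
  unfold cap
  split
  · exact min_le_right _ _
  · exact Nat.zero_le _

/-- the response at a vertex outside all the regions vanishes -/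
theorem GL3_rsp_out {s : Set V → St V} {χ : V → ℕ} {S : Finset V} {w : V → ℕ} {v : V}
    (hs : s = sts Δ r q S χ) (hv : ∀ D ∈ 𝒟, v ∉ D) : rsp 𝒟 s w v = 0 := by
  subst hs
  unfold rsp
  refine Finset.sum_eq_zero fun D hDD => ?_
  simp only [sts, st, rs]
  rw [if_neg]
  rw [GL3_fs_iB hD hDD]
  exact fun h => hv D hDD h.1

/-- the response at an inner boundary vertex -/
theorem GL3_rsp_in {s : Set V → St V} {χ : V → ℕ} {S : Finset V} {w : V → ℕ} {v : V}
    (hs : s = sts Δ r q S χ) {D : Set V} (hDD : D ∈ 𝒟) (hv : v ∈ iB Δ D) :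
    rsp 𝒟 s w v = odo Δ r (cut D S) χ (cap Δ q D w) v := by
  subst hs
  unfold rsp
  rw [Finset.sum_eq_single D]
  · simp only [sts, st, rs]
    rw [if_pos]
    rwa [GL3_fs_iB hD hDD]
  · intro D' hDD' hne
    simp only [sts, st, rs]
    rw [if_neg]
    rw [GL3_fs_iB hD hDD']
    exact fun h => Set.disjoint_left.1 (hD.pw D hDD D' hDD' (Ne.symm hne)) hv.1 h.1
  · intro h
    exact absurd hDD h

include hreg in
/-- the responses are monotone -/
theorem GL3_rsp_mono {s : Set V → St V} {χ : V → ℕ} {S : Finset V}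
    (hχ : ∀ v ∈ S, χ v ≤ r) (hs : s = sts Δ r q S χ) {w w' : V → ℕ} (hw : ∀ v ∈ B, w v ≤ w' v) (v : V) :
    rsp 𝒟 s w v ≤ rsp 𝒟 s w' v := by
  subst hs
  unfold rsp
  refine Finset.sum_le_sum fun D hDD => ?_
  simp only [sts, st, rs]
  split
  · refine odo_mono hreg (fun x hx => hχ x (Finset.mem_filter.1 hx).1)
      (fun x hx => GL3_cap_zero hD q hDD (Finset.mem_filter.1 hx).2 _) le_rfl ?_
      ⟨q, fun x => GL3_cap_le q D _ x⟩ v
    intro x
    unfold cap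
    by_cases hx : x ∈ fs (oB Δ D)
    · have hxB : x ∈ B := hD.sub D hDD ((GL3_fs_oB hD hDD).1 hx)
      have h1 := hw x hxB
      simp only [if_pos hx]
      exact min_le_min_right q h1
    · simp [hx]
  · exact le_rfl

include hreg in
/-- the restriction of the odometer to the core is a stabilising function -/
theorem GL3_gStz {S : Finset V} (hB : B ⊆ S) (hS : ↑S ⊆ reg B 𝒟) {χ e u : V → ℕ}
    (hχ : ∀ v ∈ S, χ v ≤ r) (he : ∀ v, v ∉ B → e v = 0) (hu : Stz Δ r S (χ + e) 0 u) :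
    gStz Δ r B 𝒟 χ e (sts Δ r q S χ) (rs B (odo Δ r S (χ + e) 0)) := by
  refine ⟨fun v hv => by simp [rs, hv], fun v hv => ?_⟩
  have h1 := (odo_stz hu).2 v (hB hv)
  rw [GL3_inc_zero] at h1
  have h2 : inc Δ v (rs B (odo Δ r S (χ + e) 0)) +
      inc Δ v (rsp 𝒟 (sts Δ r q S χ) (rs B (odo Δ r S (χ + e) 0))) ≤
      inc Δ v (odo Δ r S (χ + e) 0) := by
    rw [GL3_inc_add]
    refine GL3_inc_mono fun w hw => ?_
    by_cases hwB : w ∈ B
    · rw [GL3_rsp_out hD q rfl (fun D hDD h => hD.disj D hDD w hwB h)]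
      simp [rs, hwB]
    · have h3 : rs B (odo Δ r S (χ + e) 0) w = 0 := by simp [rs, hwB]
      rw [h3, zero_add]
      by_cases hwD : ∃ D ∈ 𝒟, w ∈ D
      · obtain ⟨D, hDD, hwD⟩ := hwD
        have hiB : w ∈ iB Δ D := ⟨hwD, v, fun h => hD.disj D hDD v hv h, hw.symm⟩
        rw [GL3_rsp_in hD q rfl hDD hiB, glue_in hD hB hS he hu hDD hwD]
        refine odo_mono hreg (fun x hx => hχ x (Finset.mem_filter.1 hx).1) ?_ le_rfl ?_ ?_ w
        · intro x hx
          simp only [rs]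
          rw [if_neg]
          rw [GL3_fs_oB hD hDD]
          exact fun h => h.1 (Finset.mem_filter.1 hx).2
        · intro x
          unfold cap
          by_cases hx : x ∈ fs (oB Δ D)
          · have hxB : x ∈ B := hD.sub D hDD ((GL3_fs_oB hD hDD).1 hx)
            simp [rs, hx, hxB]
          · simp [rs, hx]
        · refine ⟨∑ y ∈ fs (oB Δ D), odo Δ r S (χ + e) 0 y, fun x => ?_⟩
          simp only [rs]
          split
          · rename_i hx
            exact Finset.single_le_sum (f := fun y => odo Δ r S (χ + e) 0 y) (by simp) hx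
          · exact Nat.zero_le _
      · push Not at hwD
        rw [GL3_rsp_out hD q rfl hwD]
        exact Nat.zero_le _
  have h3 : rs B (odo Δ r S (χ + e) 0) v = odo Δ r S (χ + e) 0 v := by simp [rs, hv]
  rw [h3]
  simp only [Pi.add_apply] at h1
  omega

omit hD in
theorem GL3_gw_le {ξ e w : V → ℕ} {s : Set V → St V} (hw : gStz Δ r B 𝒟 ξ e s w) (v : V) :
    gw Δ r B 𝒟 ξ e s v ≤ w v :=
  Nat.sInf_le ⟨w, hw, rfl⟩

omit hD in
theorem GL3_gw_att {ξ e w : V → ℕ} {s : Set V → St V} (hw : gStz Δ r B 𝒟 ξ e s w) (v : V) :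
    ∃ w', gStz Δ r B 𝒟 ξ e s w' ∧ w' v = gw Δ r B 𝒟 ξ e s v :=
  Nat.sInf_mem (s := {k | ∃ w, gStz Δ r B 𝒟 ξ e s w ∧ w v = k}) ⟨w v, w, hw, rfl⟩

include hreg in
theorem GL3_gw_gStz {S : Finset V} {χ e w : V → ℕ} (hχ : ∀ v ∈ S, χ v ≤ r)
    (hw : gStz Δ r B 𝒟 χ e (sts Δ r q S χ) w) :
    gStz Δ r B 𝒟 χ e (sts Δ r q S χ) (gw Δ r B 𝒟 χ e (sts Δ r q S χ)) := by
  refine ⟨fun v hv => ?_, fun v hv => ?_⟩
  · have h1 := GL3_gw_le hw v
    rw [hw.1 v hv] at h1
    omega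
  · obtain ⟨w', hw', hv'⟩ := GL3_gw_att hw v
    have h1 := hw'.2 v hv
    rw [← hv']
    have h2 : inc Δ v (gw Δ r B 𝒟 χ e (sts Δ r q S χ)) ≤ inc Δ v w' :=
      GL3_inc_mono fun x _ => GL3_gw_le hw' x
    have h3 : inc Δ v (rsp 𝒟 (sts Δ r q S χ) (gw Δ r B 𝒟 χ e (sts Δ r q S χ))) ≤
        inc Δ v (rsp 𝒟 (sts Δ r q S χ) w') :=
      GL3_inc_mono fun x _ => GL3_rsp_mono hreg hD q hχ rfl (fun y _ => GL3_gw_le hw' y) x
    omega

include hreg in
/-- extension of a stabilising function of the core -/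
theorem GL3_extend {S : Finset V} (hB : B ⊆ S) (hS : ↑S ⊆ reg B 𝒟) {χ e w : V → ℕ}
    (hχ : ∀ v ∈ S, χ v ≤ r) (he : ∀ v, v ∉ B → e v = 0)
    (hw : gStz Δ r B 𝒟 χ e (sts Δ r q S χ) w) (hq : ∀ D ∈ 𝒟, ∀ v ∈ oB Δ D, w v ≤ q) (v : V) :
    odo Δ r S (χ + e) 0 v ≤ w v + ∑ D ∈ 𝒟, odo Δ r (cut D S) χ (cap Δ q D w) v := by
  have hcap : ∀ D ∈ 𝒟, Stz Δ r (cut D S) χ (cap Δ q D w) (odo Δ r (cut D S) χ (cap Δ q D w)) := by
    intro D hDD
    exact odo_stz (stz_const hreg (q := q) (fun x hx => hχ x (Finset.mem_filter.1 hx).1)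
      (fun x => GL3_cap_le q D _ x) (fun x hx => GL3_cap_zero hD q hDD (Finset.mem_filter.1 hx).2 _))
  -- the sum has at most one nonzero term
  have hsum0 : ∀ x, (∀ D ∈ 𝒟, x ∉ D) → ∑ D ∈ 𝒟, odo Δ r (cut D S) χ (cap Δ q D w) x = 0 := by
    intro x hx
    refine Finset.sum_eq_zero fun D hDD => GL3_odo_out fun h => hx D hDD (Finset.mem_filter.1 h).2
  have hsum1 : ∀ x, ∀ D ∈ 𝒟, x ∈ D → ∑ D ∈ 𝒟, odo Δ r (cut D S) χ (cap Δ q D w) x =
      odo Δ r (cut D S) χ (cap Δ q D w) x := by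
    intro x D hDD hx
    rw [Finset.sum_eq_single D]
    · intro D' hDD' hne
      exact GL3_odo_out fun h => Set.disjoint_left.1 (hD.pw D hDD D' hDD' (Ne.symm hne)) hx
        (Finset.mem_filter.1 h).2
    · intro h
      exact absurd hDD h
  refine odo_le (u := fun v => w v + ∑ D ∈ 𝒟, odo Δ r (cut D S) χ (cap Δ q D w) v) ⟨?_, ?_⟩ v
  · intro x hx
    have h1 : w x = 0 := hw.1 x fun h => hx (hB h)
    have h2 : ∑ D ∈ 𝒟, odo Δ r (cut D S) χ (cap Δ q D w) x = 0 :=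
      Finset.sum_eq_zero fun D hDD => GL3_odo_out fun h => hx (Finset.mem_filter.1 h).1
    simp only [h1, h2]
  · intro x hx
    rw [GL3_inc_zero, add_zero]
    simp only [Pi.add_apply]
    rcases hS (Finset.mem_coe.2 hx) with hxB | hxD
    · have hxB' : x ∈ B := hxB
      have h1 := hw.2 x hxB'
      have h2 := hsum0 x (fun D hDD h => hD.disj D hDD x hxB' h)
      rw [h2, add_zero]
      have h3 : inc Δ x (fun v => w v + ∑ D ∈ 𝒟, odo Δ r (cut D S) χ (cap Δ q D w) v) ≤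
          inc Δ x w + inc Δ x (rsp 𝒟 (sts Δ r q S χ) w) := by
        rw [GL3_inc_add]
        refine GL3_inc_mono fun y hy => ?_
        by_cases hyD : ∃ D ∈ 𝒟, y ∈ D
        · obtain ⟨D, hDD, hyD⟩ := hyD
          have hiB : y ∈ iB Δ D := ⟨hyD, x, fun h => hD.disj D hDD x hxB' h, hy.symm⟩
          rw [GL3_rsp_in hD q rfl hDD hiB, hsum1 y D hDD hyD]
        · push Not at hyD
          rw [hsum0 y hyD]
          omega
      omega
    · simp only [Set.mem_iUnion] at hxD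
      obtain ⟨D, hDD, hxD⟩ := hxD
      have hxB : x ∉ B := fun h => hD.disj D hDD x h hxD
      have hxT : x ∈ cut D S := Finset.mem_filter.2 ⟨hx, hxD⟩
      have h1 := (hcap D hDD).2 x hxT
      rw [hsum1 x D hDD hxD, he x hxB, hw.1 x hxB, zero_add]
      have h3 : inc Δ x (fun v => w v + ∑ D ∈ 𝒟, odo Δ r (cut D S) χ (cap Δ q D w) v) ≤
          inc Δ x (odo Δ r (cut D S) χ (cap Δ q D w)) + inc Δ x (cap Δ q D w) := by
        rw [GL3_inc_add]
        refine GL3_inc_mono fun y hy => ?_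
        by_cases hyD : y ∈ D
        · rw [hsum1 y D hDD hyD, hw.1 y fun h => hD.disj D hDD y h hyD]
          omega
        · have hyO : y ∈ oB Δ D := ⟨hyD, x, hxD, hy⟩
          have hyB : y ∈ B := hD.sub D hDD hyO
          rw [hsum0 y (fun D' hDD' h => hD.disj D' hDD' y hyB h)]
          have h4 : cap Δ q D w y = w y := by
            unfold cap
            rw [if_pos ((GL3_fs_oB hD hDD).2 hyO)]
            exact min_eq_left (hq D hDD y hyO)
          omega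
      omega

include hreg in
theorem glue_odo' {S : Finset V} (hB : B ⊆ S) (hS : ↑S ⊆ reg B 𝒟) {χ e u : V → ℕ}
    (hχ : ∀ v ∈ S, χ v ≤ r) (he : ∀ v, v ∉ B → e v = 0) (hu : Stz Δ r S (χ + e) 0 u)
    (hq : ∀ D ∈ 𝒟, ∀ v ∈ oB Δ D, gw Δ r B 𝒟 χ e (sts Δ r q S χ) v ≤ q) :
    gw Δ r B 𝒟 χ e (sts Δ r q S χ) = rs B (odo Δ r S (χ + e) 0) := by
  have h1 := GL3_gStz hreg hD q hB hS hχ he hu
  have h2 := GL3_gw_gStz hreg hD q hχ h1
  funext v
  refine le_antisymm (GL3_gw_le h1 v) ?_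
  by_cases hv : v ∈ B
  · have h3 := GL3_extend hreg hD q hB hS hχ he h2 hq v
    have h4 : ∑ D ∈ 𝒟, odo Δ r (cut D S) χ
        (cap Δ q D (gw Δ r B 𝒟 χ e (sts Δ r q S χ))) v = 0 :=
      Finset.sum_eq_zero fun D hDD => GL3_odo_out fun h =>
        hD.disj D hDD v hv (Finset.mem_filter.1 h).2
    rw [h4, add_zero] at h3
    simpa [rs, hv] using h3
  · simp [rs, hv]

include hreg in
theorem glue_odo {S : Finset V} (hB : B ⊆ S) (hS : ↑S ⊆ reg B 𝒟) {χ e u : V → ℕ}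
    (hχ : ∀ v ∈ S, χ v ≤ r) (he : ∀ v, v ∉ B → e v = 0) (hu : Stz Δ r S (χ + e) 0 u)
    (hq : ∀ D ∈ 𝒟, ∀ v ∈ oB Δ D, odo Δ r S (χ + e) 0 v ≤ q) :
    gw Δ r B 𝒟 χ e (sts Δ r q S χ) = rs B (odo Δ r S (χ + e) 0) := by
  refine glue_odo' hreg hD q hB hS hχ he hu fun D hDD v hv => ?_
  have h1 := GL3_gw_le (GL3_gStz hreg hD q hB hS hχ he hu) v
  have h2 : v ∈ B := hD.sub D hDD hv
  simp only [rs, if_pos h2] at h1
  exact h1.trans (hq D hDD v hv)

end GL3

end Pool.Agent.Sand
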