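import Pool.Agent.SandFin.GL12X

/-! Task GL4: product counting. -/

set_option autoImplicit false
set_option linter.unusedSectionVars false
open scoped Classical
open Filter Topology

namespace Pool.Agent.Sand

variable {V : Type} (Δ : SimpleGraph V) [Δ.LocallyFinite]

section GL4
variable {Δ} {r : ℕ}

theorem GL4_LL_rs (S U : Finset V) (χ : V → ℕ) : LL Δ S (rs S χ) U = LL Δ S χ U := by
  unfold LL
  refine Finset.filter_congr fun v _ => ?_
  constructor
  · rintro ⟨W, hW, hv, h⟩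
    refine ⟨W, hW, hv, fun w hw => ?_⟩
    have := h w hw
    simpa [rs, hW hw] using this
  · rintro ⟨W, hW, hv, h⟩
    refine ⟨W, hW, hv, fun w hw => ?_⟩
    simpa [rs, hW hw] using h w hw

theorem GL4_stz_rs (S : Finset V) (χ n u : V → ℕ) :
    Stz Δ r S (rs S χ) n u ↔ Stz Δ r S χ n u := by
  unfold Stz
  refine and_congr_right fun _ => ?_
  constructor
  · intro h v hv
    have := h v hv
    simpa [rs, hv] using this
  · intro h v hv
    simpa [rs, hv] using h v hv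

theorem GL4_odo_rs (S : Finset V) (χ n : V → ℕ) : odo Δ r S (rs S χ) n = odo Δ r S χ n := by
  unfold odo
  simp only [GL4_stz_rs]

theorem GL4_st_rs (q : ℕ) (D : Set V) (S : Finset V) (χ : V → ℕ) :
    st Δ r q D S (rs S χ) = st Δ r q D S χ := by
  unfold st
  simp only [GL4_LL_rs, GL4_odo_rs]

theorem GL4_gC_congr {B : Finset V} {𝒟 : Finset (Set V)} {ξ ξ' : V → ℕ} {s s' : Set V → St V}
    (hξ : ∀ v ∈ B, ξ v = ξ' v) (hs : ∀ D ∈ 𝒟, s D = s' D) :
    gC Δ B 𝒟 ξ s ↔ gC Δ B 𝒟 ξ' s' := by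
  have h1 : ∀ W, rsL 𝒟 s W = rsL 𝒟 s' W := by
    intro W
    unfold rsL
    exact Finset.biUnion_congr rfl fun D hD => by rw [hs D hD]
  unfold gC
  refine forall_congr' fun W => ?_
  refine forall_congr' fun hW => ?_
  refine forall_congr' fun _ => ?_
  refine exists_congr fun v => ?_
  refine and_congr_right fun hv => ?_
  rw [h1, hξ v (hW hv)]

/-- combination of a configuration on the core and of configurations on the regions -/
noncomputable def GL4_comb (B : Finset V) (𝒟 : Finset (Set V)) (ξ : V → ℕ)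
    (f : ∀ D ∈ 𝒟, V → ℕ) : V → ℕ :=
  fun v => if v ∈ B then ξ v else ∑ D ∈ 𝒟.attach, f D.1 D.2 v

theorem GL4_comb_core {B : Finset V} {𝒟 : Finset (Set V)} {ξ : V → ℕ} {f : ∀ D ∈ 𝒟, V → ℕ}
    {v : V} (hv : v ∈ B) : GL4_comb B 𝒟 ξ f v = ξ v := by
  simp [GL4_comb, hv]

theorem GL4_comb_reg {B : Finset V} {𝒟 : Finset (Set V)} (hD : Dec Δ B 𝒟) {ξ : V → ℕ}
    {f : ∀ D ∈ 𝒟, V → ℕ} (hf : ∀ D hD v, v ∉ D → f D hD v = 0) {D : Set V} (hDD : D ∈ 𝒟)
    {v : V} (hv : v ∈ D) : GL4_comb B 𝒟 ξ f v = f D hDD v := by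
  have hB : v ∉ B := fun h => hD.disj D hDD v h hv
  unfold GL4_comb
  rw [if_neg hB, Finset.sum_eq_single (⟨D, hDD⟩ : {x // x ∈ 𝒟})]
  · intro D' _ hne
    refine hf _ _ _ fun h => ?_
    have hne' : D'.1 ≠ D := fun h' => hne (Subtype.ext h')
    exact Set.disjoint_left.1 (hD.pw _ D'.2 _ hDD hne') h hv
  · intro h
    exact absurd (Finset.mem_attach _ _) h

theorem GL4_comb_off {B : Finset V} {𝒟 : Finset (Set V)} {ξ : V → ℕ}
    {f : ∀ D ∈ 𝒟, V → ℕ} {v : V} (hB : v ∉ B) (hf : ∀ D hD, f D hD v = 0) :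
    GL4_comb B 𝒟 ξ f v = 0 := by
  unfold GL4_comb
  rw [if_neg hB]
  exact Finset.sum_eq_zero fun D _ => hf _ _

theorem GL4_mem_cut {D : Set V} {S : Finset V} {v : V} : v ∈ cut D S ↔ v ∈ S ∧ v ∈ D := by
  unfold cut
  rw [Finset.mem_filter]

theorem GL4_rs_comb {B : Finset V} {𝒟 : Finset (Set V)} (hD : Dec Δ B 𝒟) {ξ : V → ℕ}
    {f : ∀ D ∈ 𝒟, V → ℕ} {S : Finset V} (hf : ∀ D hD v, v ∉ cut D S → f D hD v = 0) {D : Set V}
    (hDD : D ∈ 𝒟) : rs (cut D S) (GL4_comb B 𝒟 ξ f) = f D hDD := by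
  funext v
  by_cases hv : v ∈ cut D S
  · simp only [rs, hv, if_true]
    exact GL4_comb_reg hD (fun D' hD' w hw => hf D' hD' w fun h => hw (GL4_mem_cut.1 h).2) hDD
      (GL4_mem_cut.1 hv).2
  · simp only [rs, hv, if_false]
    exact (hf D hDD v hv).symm

theorem GL4_comb_rs {B : Finset V} {𝒟 : Finset (Set V)} (hD : Dec Δ B 𝒟) {ξ χ : V → ℕ}
    {S : Finset V} (hS : ↑S ⊆ reg B 𝒟) (hχ : ∀ v, v ∉ S → χ v = 0) (h1 : ∀ v ∈ B, χ v = ξ v) :
    GL4_comb B 𝒟 ξ (fun D _ => rs (cut D S) χ) = χ := by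
  funext v
  by_cases hB : v ∈ B
  · rw [GL4_comb_core hB, h1 v hB]
  by_cases hv : v ∈ S
  · have h2 := hS hv
    rcases h2 with h2 | h2
    · exact absurd h2 hB
    · obtain ⟨D, hDD, hvD⟩ := Set.mem_iUnion₂.1 h2
      rw [GL4_comb_reg hD _ hDD hvD]
      · have : v ∈ cut D S := GL4_mem_cut.2 ⟨hv, hvD⟩
        simp [rs, this]
      · intro D' _ w hw
        have : w ∉ cut D' S := fun h => hw (GL4_mem_cut.1 h).2
        simp [rs, this]
  · rw [hχ v hv]
    refine GL4_comb_off hB fun D _ => ?_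
    have : v ∉ cut D S := fun h => hv (GL4_mem_cut.1 h).1
    simp [rs, this]

/-- restriction of recurrent configurations -/
theorem GL4_rs_mem {S T : Finset V} (hT : T ⊆ S) {χ : V → ℕ} (hχ : χ ∈ rcr Δ r S) :
    rs T χ ∈ rcr Δ r T := by
  unfold rcr rc at hχ ⊢
  rw [Finset.mem_filter, mem_stab] at hχ ⊢
  obtain ⟨⟨h1, h2⟩, h3⟩ := hχ
  refine ⟨⟨?_, ?_⟩, ?_⟩
  · intro v hv
    simp only [rs, hv, if_true]
    exact h1 v (hT hv)
  · intro v hv
    simp [rs, hv]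
  · intro W hW hne
    obtain ⟨v, hv, h4⟩ := h3 W (hW.trans hT) hne
    refine ⟨v, hv, ?_⟩
    simpa [rs, hW hv] using h4

theorem GL4_zero {S : Finset V} {χ : V → ℕ} (hχ : χ ∈ rcr Δ r S) {v : V} (hv : v ∉ S) :
    χ v = 0 := (mem_stab.1 (Finset.mem_filter.1 hχ).1).2 v hv

theorem GL4_cut_sdiff {B : Finset V} {𝒟 : Finset (Set V)} (hD : Dec Δ B 𝒟) {S : Finset V}
    {D : Set V} (hDD : D ∈ 𝒟) : cut D S ⊆ S \ B := by
  intro v hv
  have h1 := GL4_mem_cut.1 hv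
  rw [Finset.mem_sdiff]
  exact ⟨h1.1, fun h => hD.disj D hDD v h h1.2⟩

/-- gluing of recurrent configurations on the regions, without the core -/
theorem GL4_comb_mem {B : Finset V} {𝒟 : Finset (Set V)} (hD : Dec Δ B 𝒟) {S : Finset V}
    (hS : ↑S ⊆ reg B 𝒟) {χ : V → ℕ} (hχ : ∀ v, v ∉ S \ B → χ v = 0)
    (h : ∀ D ∈ 𝒟, rs (cut D S) χ ∈ rcr Δ r (cut D S)) : χ ∈ rcr Δ r (S \ B) := by
  have hreg' : ∀ v ∈ S \ B, ∃ D ∈ 𝒟, v ∈ D := by
    intro v hv
    rw [Finset.mem_sdiff] at hv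
    rcases hS hv.1 with h2 | h2
    · exact absurd h2 hv.2
    · obtain ⟨D, hDD, hvD⟩ := Set.mem_iUnion₂.1 h2
      exact ⟨D, hDD, hvD⟩
  unfold rcr rc
  rw [Finset.mem_filter, mem_stab]
  refine ⟨⟨?_, hχ⟩, ?_⟩
  · intro v hv
    obtain ⟨D, hDD, hvD⟩ := hreg' v hv
    have hvc : v ∈ cut D S := GL4_mem_cut.2 ⟨(Finset.mem_sdiff.1 hv).1, hvD⟩
    have h1 := (mem_stab.1 (Finset.mem_filter.1 (h D hDD)).1).1 v hvc
    simpa [rs, hvc] using h1
  · intro W hW hne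
    obtain ⟨v, hv⟩ := hne
    obtain ⟨D, hDD, hvD⟩ := hreg' v (hW hv)
    have hsub : W.filter (· ∈ D) ⊆ cut D S := by
      intro w hw
      rw [Finset.mem_filter] at hw
      exact GL4_mem_cut.2 ⟨(Finset.mem_sdiff.1 (hW hw.1)).1, hw.2⟩
    obtain ⟨w, hw, h1⟩ := (Finset.mem_filter.1 (h D hDD)).2 (W.filter (· ∈ D)) hsub
      ⟨v, Finset.mem_filter.2 ⟨hv, hvD⟩⟩
    have hw' := Finset.mem_filter.1 hw
    refine ⟨w, hw'.1, ?_⟩
    have h2 : rs (cut D S) χ w = χ w := by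
      have := hsub hw
      simp [rs, this]
    rw [h2] at h1
    refine lt_of_le_of_lt ?_ h1
    unfold nb
    refine Finset.card_le_card ?_
    intro y hy
    rw [Finset.mem_inter] at hy ⊢
    refine ⟨hy.1, Finset.mem_filter.2 ⟨hy.2, ?_⟩⟩
    by_contra hyD
    have hyB : y ∈ B := hD.sub D hDD ⟨hyD, w, hw'.2, (SimpleGraph.mem_neighborFinset _ _ _).1 hy.1⟩
    exact (Finset.mem_sdiff.1 (hW hy.2)).2 hyB

end GL4

section G
variable {Δ} {r : ℕ}
variable (hreg : ∀ v, Δ.degree v = r) {B : Finset V} {𝒟 : Finset (Set V)} (hD : Dec Δ B 𝒟) (q : ℕ)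
include hreg hD

/-! ### GL4 : product counting -/

/-- joint count of the configuration on the core and of arbitrary events in the regions -/
theorem glue_count {S : Finset V} (hB : B ⊆ S) (hS : ↑S ⊆ reg B 𝒟) {ξ : V → ℕ}
    (hξ : ξ ∈ stab B (fun _ => r)) (s : Set V → St V) (P : Set V → (V → ℕ) → Prop) :
    (((rcr Δ r S).filter fun χ => rs B χ = ξ ∧
        ∀ D ∈ 𝒟, st Δ r q D (cut D S) χ = s D ∧ P D (rs (cut D S) χ)).card : ℝ) =
      if gC Δ B 𝒟 ξ s then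
        ∏ D ∈ 𝒟, (((rcr Δ r (cut D S)).filter fun η => st Δ r q D (cut D S) η = s D ∧ P D η).card : ℝ)
      else 0 := by
  rw [mem_stab] at hξ
  have key : ∀ χ : V → ℕ, (∀ v ∈ B, χ v = ξ v) → (∀ D ∈ 𝒟, st Δ r q D (cut D S) χ = s D) →
      (gC Δ B 𝒟 χ (sts Δ r q S χ) ↔ gC Δ B 𝒟 ξ s) := by
    intro χ h1 h2
    exact GL4_gC_congr h1 fun D hDD => h2 D hDD
  by_cases hg : gC Δ B 𝒟 ξ s
  · rw [if_pos hg, ← Nat.cast_prod]
    congr 1
    rw [← Finset.card_pi]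
    refine Finset.card_bij' (fun χ _ => fun D _ => rs (cut D S) χ)
      (fun f _ => GL4_comb B 𝒟 ξ f) ?_ ?_ ?_ ?_
    · intro χ hχ
      rw [Finset.mem_filter] at hχ
      rw [Finset.mem_pi]
      intro D hDD
      rw [Finset.mem_filter, GL4_st_rs]
      exact ⟨GL4_rs_mem (Finset.filter_subset _ _) hχ.1, hχ.2.2 D hDD⟩
    · intro f hf
      rw [Finset.mem_pi] at hf
      have hf0 : ∀ D hDD v, v ∉ cut D S → f D hDD v = 0 := fun D hDD v hv =>
        GL4_zero (Finset.mem_filter.1 (hf D hDD)).1 hv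
      have hrs : ∀ D (hDD : D ∈ 𝒟), rs (cut D S) (GL4_comb B 𝒟 ξ f) = f D hDD :=
        fun D hDD => GL4_rs_comb hD hf0 hDD
      have hst : ∀ D ∈ 𝒟, st Δ r q D (cut D S) (GL4_comb B 𝒟 ξ f) = s D := by
        intro D hDD
        rw [← GL4_st_rs, hrs D hDD]
        exact (Finset.mem_filter.1 (hf D hDD)).2.1
      rw [Finset.mem_filter]
      refine ⟨?_, ?_, fun D hDD => ⟨hst D hDD, ?_⟩⟩
      · rw [glue_rc hreg hD q hB hS]
        · refine ⟨fun v hv => ?_, fun D hDD => ?_, ?_⟩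
          · rw [GL4_comb_core hv]
            exact hξ.1 v hv
          · rw [hrs D hDD]
            exact (Finset.mem_filter.1 (hf D hDD)).1
          · rw [key _ (fun v hv => GL4_comb_core hv) hst]
            exact hg
        · intro v hv
          refine GL4_comb_off (fun h => hv (hB h)) fun D hDD => hf0 D hDD v fun h => ?_
          exact hv (GL4_mem_cut.1 h).1
      · funext v
        by_cases hv : v ∈ B
        · simp only [rs, hv, if_true]
          exact GL4_comb_core hv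
        · simp only [rs, hv, if_false]
          exact (hξ.2 v hv).symm
      · rw [hrs D hDD]
        exact (Finset.mem_filter.1 (hf D hDD)).2.2
    · intro χ hχ
      rw [Finset.mem_filter] at hχ
      refine GL4_comb_rs hD hS (fun v hv => GL4_zero hχ.1 hv) fun v hv => ?_
      rw [← hχ.2.1]
      simp [rs, hv]
    · intro f hf
      rw [Finset.mem_pi] at hf
      funext D hDD
      exact GL4_rs_comb hD (fun D hDD v hv => GL4_zero (Finset.mem_filter.1 (hf D hDD)).1 hv) hDD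
  · rw [if_neg hg, Nat.cast_eq_zero, Finset.card_eq_zero, Finset.filter_eq_empty_iff]
    rintro χ hχ ⟨h1, h2⟩
    apply hg
    rw [← key χ (fun v hv => by rw [← h1]; simp [rs, hv]) fun D hDD => (h2 D hDD).1]
    exact ((glue_rc hreg hD q hB hS fun v hv => GL4_zero hχ hv).1 hχ).2.2

theorem glue_NN {S : Finset V} (hS : ↑S ⊆ reg B 𝒟) :
    NNr Δ r (S \ B) = ∏ D ∈ 𝒟, NNr Δ r (cut D S) := by
  unfold NNr NN
  rw [← Finset.card_pi]
  refine Finset.card_bij' (fun χ _ => fun D _ => rs (cut D S) χ)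
    (fun f _ => GL4_comb B 𝒟 0 f) ?_ ?_ ?_ ?_
  · intro χ hχ
    rw [Finset.mem_pi]
    intro D hDD
    exact GL4_rs_mem (GL4_cut_sdiff hD hDD) hχ
  · intro f hf
    rw [Finset.mem_pi] at hf
    have hf0 : ∀ D hDD v, v ∉ cut D S → f D hDD v = 0 := fun D hDD v hv =>
      GL4_zero (hf D hDD) hv
    refine GL4_comb_mem hD hS ?_ ?_
    · intro v hv
      by_cases hvB : v ∈ B
      · rw [GL4_comb_core hvB]; rfl
      · refine GL4_comb_off hvB fun D hDD => hf0 D hDD v fun h => ?_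
        exact hv (GL4_cut_sdiff hD hDD h)
    · intro D hDD
      rw [GL4_rs_comb hD hf0 hDD]
      exact hf D hDD
  · intro χ hχ
    refine GL4_comb_rs hD hS (fun v hv => ?_) fun v hv => ?_
    · exact GL4_zero hχ fun h => hv (Finset.mem_sdiff.1 h).1
    · exact GL4_zero hχ fun h => (Finset.mem_sdiff.1 h).2 hv
  · intro f hf
    rw [Finset.mem_pi] at hf
    funext D hDD
    exact GL4_rs_comb hD (fun D hDD v hv => GL4_zero (hf D hDD) hv) hDD

end G

end Pool.Agent.Sand
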