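import Pool.Agent.SandFin.LmDefs

/-! Gluing a finite core with cones: definitions. -/

set_option autoImplicit false
open scoped Classical
open Filter Topology

namespace Pool.Agent.Sand

variable {V : Type} (Δ : SimpleGraph V) [Δ.LocallyFinite]

/-- a finite core `B` and finitely many disjoint regions whose outer boundaries are in the core -/
structure Dec (B : Finset V) (𝒟 : Finset (Set V)) : Prop where
  disj : ∀ D ∈ 𝒟, ∀ v ∈ B, v ∉ D
  pw : ∀ D ∈ 𝒟, ∀ D' ∈ 𝒟, D ≠ D' → Disjoint D D'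
  finO : ∀ D ∈ 𝒟, (oB Δ D).Finite
  finI : ∀ D ∈ 𝒟, (iB Δ D).Finite
  sub : ∀ D ∈ 𝒟, oB Δ D ⊆ ↑B

/-- the whole region -/
def reg (B : Finset V) (𝒟 : Finset (Set V)) : Set V := ↑B ∪ ⋃ D ∈ 𝒟, D

/-- combined response of the regions -/
noncomputable def rsp (𝒟 : Finset (Set V)) (s : Set V → St V) (w : V → ℕ) : V → ℕ :=
  fun v => ∑ D ∈ 𝒟, (s D).2 w v

/-- combined unburnt set of the regions -/
noncomputable def rsL (𝒟 : Finset (Set V)) (s : Set V → St V) (W : Finset V) : Finset V :=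
  𝒟.biUnion fun D => (s D).1 W

/-- stabilising functions on the core, with `e v` extra grains -/
def gStz (r : ℕ) (B : Finset V) (𝒟 : Finset (Set V)) (ξ e : V → ℕ) (s : Set V → St V) (w : V → ℕ) : Prop :=
  (∀ v, v ∉ B → w v = 0) ∧ ∀ v ∈ B, ξ v + e v + inc Δ v w + inc Δ v (rsp 𝒟 s w) ≤ r + r * w v

/-- glued odometer on the core -/
noncomputable def gw (r : ℕ) (B : Finset V) (𝒟 : Finset (Set V)) (ξ e : V → ℕ) (s : Set V → St V) : V → ℕ :=
  fun v => sInf {k | ∃ w, gStz Δ r B 𝒟 ξ e s w ∧ w v = k}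

/-- glued unburnt set on the core -/
noncomputable def gL (B : Finset V) (𝒟 : Finset (Set V)) (ξ : V → ℕ) (s : Set V → St V) (U : Finset V) :
    Finset V :=
  B.filter fun v => ∃ W ⊆ B, v ∈ W ∧ ∀ w ∈ W, ξ w ≤ nb Δ w (W ∪ U ∪ rsL 𝒟 s W)

/-- compatibility -/
def gC (B : Finset V) (𝒟 : Finset (Set V)) (ξ : V → ℕ) (s : Set V → St V) : Prop :=
  ∀ W ⊆ B, W.Nonempty → ∃ v ∈ W, nb Δ v (W ∪ rsL 𝒟 s W) < ξ v

/-- the family of states of a configuration -/
noncomputable def sts (r q : ℕ) (S : Finset V) (χ : V → ℕ) : Set V → St V :=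
  fun D => st Δ r q D (cut D S) χ

/-- functions with values in given finite sets on `𝒟`, default value elsewhere -/
noncomputable def fpi {α β : Type} (𝒟 : Finset α) (F : α → Finset β) (d : β) : Finset (α → β) :=
  (𝒟.pi F).image fun f a => if h : a ∈ 𝒟 then f a h else d

/-- children of a cone -/
noncomputable def chd (Δ : SimpleGraph V) [Δ.LocallyFinite] (C : Set V) : Finset (Set V) :=
  fs {D | IsComp Δ (Cᶜ ∪ iB Δ C) D ∧ D.Infinite}

/-- core of a cone -/
noncomputable def core (Δ : SimpleGraph V) [Δ.LocallyFinite] (C : Set V) : Finset V :=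
  fs {v | v ∈ C ∧ ∀ D, IsComp Δ (Cᶜ ∪ iB Δ C) D → D.Infinite → v ∉ D}

/-- cones of rank `R` -/
noncomputable def cns (Δ : SimpleGraph V) [Δ.LocallyFinite] (o : V) (R : ℕ) : Finset (Set V) :=
  fs {D | Cone Δ o R D}

/-- `k`-th generation of descendants of a cone -/
noncomputable def gen (Δ : SimpleGraph V) [Δ.LocallyFinite] : ℕ → Set V → Finset (Set V)
  | 0, C => {C}
  | k + 1, C => (chd Δ C).biUnion (gen Δ k)

end Pool.Agent.Sand
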