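import Pool.Agent.SandFin.ST2
import Pool.Agent.SandFin.GlueDefs

/-! GL5: the decompositions of cones and of the whole graph. -/

set_option autoImplicit false
set_option linter.unusedSectionVars false
open scoped Classical
open Filter Topology

namespace Pool.Agent.Sand

variable {V : Type} (Δ : SimpleGraph V) [Δ.LocallyFinite]

section D
variable {Δ} {r : ℕ} {h : ℝ} {D0 : ℕ} (H : Hyp Δ r h D0)
include H

theorem gl5_far {o : V} {R : ℕ} {C : Set V} (hC : Cone Δ o R C) {v : V} (hv : v ∈ C) :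
    R + 1 ≤ Δ.dist o v := by
  by_contra hcon
  exact Set.disjoint_left.mp hC.comp.disj hv (show Δ.dist o v ≤ R by omega)

theorem gl5_iB {o : V} {R : ℕ} {C : Set V} (hC : Cone Δ o R C) {v : V} :
    v ∈ iB Δ C ↔ v ∈ C ∧ Δ.dist o v = R + 1 := by
  rw [iB_sub H hC.comp]; rfl

theorem gl5_comp {o : V} {R : ℕ} {C : Set V} (hC : Cone Δ o R C) {D : Set V} :
    IsComp Δ (Cᶜ ∪ iB Δ C) D ↔ IsComp Δ (cb Δ o (R + 1)) D ∧ D ⊆ C := by
  constructor
  · intro hD
    have hsub : D ⊆ C := by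
      intro v hv
      by_contra hvC
      exact Set.disjoint_left.mp hD.disj hv (Or.inl hvC)
    refine ⟨⟨?_, ?_, hD.conn⟩, hsub⟩
    · rw [Set.disjoint_left]
      intro v hv hcb
      have h1 : Δ.dist o v ≤ R + 1 := hcb
      have h2 := gl5_far H hC (hsub hv)
      exact Set.disjoint_left.mp hD.disj hv (Or.inr ((gl5_iB H hC).mpr ⟨hsub hv, by omega⟩))
    · intro x hx y hxy hy
      show Δ.dist o y ≤ R + 1
      rcases hD.closed x hx y hxy hy with h1 | h1
      · have h2 : Δ.dist o y ≤ R := hC.comp.closed x (hsub hx) y hxy h1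
        omega
      · exact ((gl5_iB H hC).mp h1).2.le
  · rintro ⟨hD, hsub⟩
    refine ⟨?_, ?_, hD.conn⟩
    · rw [Set.disjoint_left]
      rintro v hv (h1 | h1)
      · exact h1 (hsub hv)
      · exact Set.disjoint_left.mp hD.disj hv (show Δ.dist o v ≤ R + 1 from ((gl5_iB H hC).mp h1).2.le)
    · intro x hx y hxy hy
      have h1 : Δ.dist o y ≤ R + 1 := hD.closed x hx y hxy hy
      by_cases hyC : y ∈ C
      · right
        have h2 := gl5_far H hC hyC
        exact (gl5_iB H hC).mpr ⟨hyC, by omega⟩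
      · left; exact hyC

/-- the children do not depend on the base point -/
theorem mem_chd {o : V} {R : ℕ} {C : Set V} (hC : Cone Δ o R C) {D : Set V} :
    D ∈ chd Δ C ↔ Cone Δ o (R + 1) D ∧ D ⊆ C := by
  have heq : {D | IsComp Δ (Cᶜ ∪ iB Δ C) D ∧ D.Infinite} = {D | Cone Δ o (R + 1) D ∧ D ⊆ C} := by
    ext D
    simp only [Set.mem_ofPred_eq]
    rw [gl5_comp H hC]
    constructor
    · rintro ⟨⟨h1, h2⟩, h3⟩
      exact ⟨⟨h1, h3⟩, h2⟩
    · rintro ⟨⟨h1, h3⟩, h2⟩
      exact ⟨⟨h1, h2⟩, h3⟩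
  have hfin : {D | Cone Δ o (R + 1) D ∧ D ⊆ C}.Finite :=
    (cones_finite H o (R + 1)).subset (fun D hD => hD.1)
  rw [chd, heq, mem_fs hfin]
  rfl

theorem gl5_core_set {o : V} {R : ℕ} {C : Set V} (hC : Cone Δ o R C) :
    {v | v ∈ C ∧ ∀ D, IsComp Δ (Cᶜ ∪ iB Δ C) D → D.Infinite → v ∉ D} =
      {v | v ∈ C ∧ ∀ D, Cone Δ o (R + 1) D → v ∉ D} := by
  ext v
  simp only [Set.mem_ofPred_eq]
  constructor
  · rintro ⟨hv, hD⟩
    refine ⟨hv, fun D hD' hvD => ?_⟩
    rcases cone_nested H (Nat.le_succ R) hC hD' with h1 | h1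
    · exact hD D ((gl5_comp H hC).mpr ⟨hD'.comp, h1⟩) hD'.inf hvD
    · exact Set.disjoint_left.mp h1 hv hvD
  · rintro ⟨hv, hD⟩
    refine ⟨hv, fun D hD' hinf => ?_⟩
    exact hD D ⟨((gl5_comp H hC).mp hD').1, hinf⟩

theorem mem_core {o : V} {R : ℕ} {C : Set V} (hC : Cone Δ o R C) {v : V} :
    v ∈ core Δ C ↔ v ∈ C ∧ ∀ D, Cone Δ o (R + 1) D → v ∉ D := by
  obtain ⟨T, hT⟩ := fb_bounds H
  have hfin : {v | v ∈ C ∧ ∀ D, Cone Δ o (R + 1) D → v ∉ D}.Finite :=
    (hT o (R + 1)).1.subset (fun v hv => hv.2)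
  rw [core, gl5_core_set H hC, mem_fs hfin]
  rfl

omit H in
theorem gl5_iB_image (φ : Δ ≃g Δ) (C : Set V) : iB Δ (φ '' C) = φ '' iB Δ C := by
  ext v
  constructor
  · rintro ⟨⟨c, hc, rfl⟩, w, hw, hadj⟩
    refine ⟨c, ⟨hc, φ.symm w, fun hh => hw ⟨_, hh, by simp⟩, ?_⟩, rfl⟩
    rw [← φ.map_adj_iff]
    simpa using hadj
  · rintro ⟨c, ⟨hc, w, hw, hadj⟩, rfl⟩
    refine ⟨⟨c, hc, rfl⟩, φ w, ?_, φ.map_adj_iff.mpr hadj⟩
    rintro ⟨c', hc', he⟩
    exact hw (φ.injective he ▸ hc')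

omit H in
theorem gl5_comp_image (φ : Δ ≃g Δ) {K D : Set V} (hD : IsComp Δ K D) : IsComp Δ (φ '' K) (φ '' D) := by
  refine ⟨?_, ?_, ?_⟩
  · rw [Set.disjoint_left]
    rintro _ ⟨c, hc', rfl⟩ ⟨k, hk, he⟩
    have : k = c := φ.injective he
    subst this
    exact Set.disjoint_left.mp hD.disj hc' hk
  · rintro _ ⟨c, hc', rfl⟩ y hadj hy
    have h1 : Δ.Adj c (φ.symm y) := by
      rw [← φ.map_adj_iff]
      simpa using hadj
    have h2 : φ.symm y ∉ D := fun h => hy ⟨_, h, by simp⟩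
    exact ⟨φ.symm y, hD.closed c hc' _ h1 h2, by simp⟩
  · let f : Δ.induce D →g Δ.induce (φ '' D) :=
      ⟨fun x => ⟨φ x.1, Set.mem_image_of_mem _ x.2⟩, by
        intro a b hab
        have : Δ.Adj a.1 b.1 := hab
        show Δ.Adj (φ a.1) (φ b.1)
        exact φ.map_adj_iff.mpr this⟩
    apply hD.conn.map f
    rintro ⟨_, c, hc', rfl⟩
    exact ⟨⟨c, hc'⟩, rfl⟩

omit H in
theorem gl5_symm_image (φ : Δ ≃g Δ) (C : Set V) : φ.symm '' (φ '' C) = C := by
  rw [Set.image_image]; simp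

omit H in
theorem gl5_K_image (φ : Δ ≃g Δ) (C : Set V) :
    (φ '' C)ᶜ ∪ iB Δ (φ '' C) = φ '' (Cᶜ ∪ iB Δ C) := by
  rw [gl5_iB_image, Set.image_union, Set.image_compl_eq φ.bijective]

omit H in
theorem gl5_chd_set (φ : Δ ≃g Δ) (C : Set V) :
    {D | IsComp Δ ((φ '' C)ᶜ ∪ iB Δ (φ '' C)) D ∧ D.Infinite} =
      (fun D => φ '' D) '' {D | IsComp Δ (Cᶜ ∪ iB Δ C) D ∧ D.Infinite} := by
  ext D
  constructor
  · rintro ⟨h1, h2⟩
    refine ⟨φ.symm '' D, ⟨?_, ?_⟩, ?_⟩
    · rw [gl5_K_image] at h1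
      have h3 := gl5_comp_image φ.symm h1
      rw [gl5_symm_image] at h3
      exact h3
    · exact h2.image φ.symm.injective.injOn
    · show φ '' (φ.symm '' D) = D
      have := gl5_symm_image φ.symm D
      simpa using this
  · rintro ⟨D', ⟨h1, h2⟩, rfl⟩
    refine ⟨?_, h2.image φ.injective.injOn⟩
    rw [gl5_K_image]
    exact gl5_comp_image φ h1

omit H in
theorem chd_inv (φ : Δ ≃g Δ) (C D : Set V) : φ '' D ∈ chd Δ (φ '' C) ↔ D ∈ chd Δ C := by
  have hinj : Function.Injective (fun D : Set V => φ '' D) := φ.injective.image_injective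
  unfold chd
  rw [gl5_chd_set]
  by_cases hf : {D | IsComp Δ (Cᶜ ∪ iB Δ C) D ∧ D.Infinite}.Finite
  · rw [mem_fs hf, mem_fs (hf.image _)]
    exact hinj.mem_set_image
  · have hf' : ¬ ((fun D => φ '' D) '' {D | IsComp Δ (Cᶜ ∪ iB Δ C) D ∧ D.Infinite}).Finite := by
      intro h
      exact hf (h.of_finite_image hinj.injOn)
    simp [fs, hf, hf']

theorem cone_dec {o : V} {R : ℕ} {C : Set V} (hC : Cone Δ o R C) :
    Dec Δ (core Δ C) (chd Δ C) ∧ reg (core Δ C) (chd Δ C) = C ∧ iB Δ C ⊆ ↑(core Δ C) := by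
  obtain ⟨b, -, -, hb⟩ := exists_bound H
  have hib : iB Δ C ⊆ ↑(core Δ C) := by
    intro v hv
    rw [gl5_iB H hC] at hv
    rw [Finset.mem_coe, mem_core H hC]
    refine ⟨hv.1, fun D hD hvD => ?_⟩
    exact Set.disjoint_left.mp hD.comp.disj hvD (show Δ.dist o v ≤ R + 1 from hv.2.le)
  refine ⟨⟨?_, ?_, ?_, ?_, ?_⟩, ?_, hib⟩
  · intro D hD v hv
    rw [mem_chd H hC] at hD
    rw [mem_core H hC] at hv
    exact hv.2 D hD.1
  · intro D hD D' hD' hne
    rw [mem_chd H hC] at hD hD'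
    exact cone_disj H hD.1 hD'.1 hne
  · intro D hD
    rw [mem_chd H hC] at hD
    exact (hb o (R + 1) D hD.1.comp).2.1
  · intro D hD
    rw [mem_chd H hC] at hD
    exact (hb o (R + 1) D hD.1.comp).1
  · intro D hD
    rw [mem_chd H hC] at hD
    exact (oB_child H hC hD.1 hD.2).trans hib
  · ext v
    simp only [reg, Set.mem_union, Finset.mem_coe, Set.mem_iUnion, exists_prop]
    constructor
    · rintro (h1 | ⟨D, hD, hv⟩)
      · exact ((mem_core H hC).mp h1).1
      · exact ((mem_chd H hC).mp hD).2 hv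
    · intro hv
      by_cases h1 : ∀ D, Cone Δ o (R + 1) D → v ∉ D
      · left; exact (mem_core H hC).mpr ⟨hv, h1⟩
      · right
        push Not at h1
        obtain ⟨D, hD, hvD⟩ := h1
        refine ⟨D, (mem_chd H hC).mpr ⟨hD, ?_⟩, hvD⟩
        rcases cone_nested H (Nat.le_succ R) hC hD with h2 | h2
        · exact h2
        · exact absurd hvD (Set.disjoint_left.mp h2 hv)

theorem gl5_pred {o v : V} {n : ℕ} (hv : Δ.dist o v = n + 1) : ∃ w, Δ.Adj v w ∧ Δ.dist o w = n := by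
  obtain ⟨p, hp⟩ := H.conn.exists_walk_length_eq_dist v o
  rw [SimpleGraph.dist_comm, hv] at hp
  cases p with
  | nil => simp at hp
  | @cons _ w _ hadj q =>
    have hq : q.length = n := by simpa using hp
    refine ⟨w, hadj, ?_⟩
    have h1 : Δ.dist o w ≤ n := by
      have := Δ.dist_le q
      rw [SimpleGraph.dist_comm]; omega
    have h2 : Δ.dist o v ≤ Δ.dist o w + Δ.dist w v := H.conn.dist_triangle
    have h3 : Δ.dist w v = 1 := SimpleGraph.dist_eq_one_iff_adj.mpr hadj.symm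
    omega

theorem gl5_cb (o : V) (R : ℕ) : (cb Δ o R).Finite ∧ (fs (cb Δ o R)).card ≤ (r + 1) ^ R := by
  induction R with
  | zero =>
    have h1 : cb Δ o 0 = {o} := by
      ext v
      simp only [cb, Set.mem_ofPred_eq, Nat.le_zero, Set.mem_singleton_iff]
      rw [H.conn.dist_eq_zero_iff]
      exact eq_comm
    have hf : (cb Δ o 0).Finite := by rw [h1]; exact Set.finite_singleton o
    refine ⟨hf, ?_⟩
    have h2 : fs (cb Δ o 0) = {o} := by
      ext v
      rw [mem_fs hf, h1]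
      simp
    rw [h2]; simp
  | succ R ih =>
    obtain ⟨h1, h2⟩ := ih
    have h3 : cb Δ o (R + 1) ⊆ ↑((fs (cb Δ o R)).biUnion
        (fun w => insert w (Δ.neighborFinset w))) := by
      intro v hv
      simp only [Finset.coe_biUnion, Set.mem_iUnion, Finset.mem_coe, mem_fs h1]
      by_cases hR : Δ.dist o v ≤ R
      · exact ⟨v, hR, by simp⟩
      · have hv' : Δ.dist o v ≤ R + 1 := hv
        obtain ⟨w, hw1, hw2⟩ := gl5_pred H (o := o) (v := v) (n := R) (by omega)
        refine ⟨w, hw2.le, ?_⟩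
        simp only [Finset.mem_insert, SimpleGraph.mem_neighborFinset]
        exact Or.inr hw1.symm
    have hf : (cb Δ o (R + 1)).Finite := (Finset.finite_toSet _).subset h3
    refine ⟨hf, ?_⟩
    have h4 : fs (cb Δ o (R + 1)) ⊆ (fs (cb Δ o R)).biUnion
        (fun w => insert w (Δ.neighborFinset w)) := by
      intro v hv
      exact h3 ((mem_fs hf).mp hv)
    calc (fs (cb Δ o (R + 1))).card ≤ ((fs (cb Δ o R)).biUnion
          (fun w => insert w (Δ.neighborFinset w))).card := Finset.card_le_card h4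
      _ ≤ ∑ w ∈ fs (cb Δ o R), (insert w (Δ.neighborFinset w)).card := Finset.card_biUnion_le
      _ ≤ ∑ w ∈ fs (cb Δ o R), (r + 1) := by
          refine Finset.sum_le_sum (fun w _ => ?_)
          have := H.reg w
          rw [SimpleGraph.degree] at this
          exact (Finset.card_insert_le _ _).trans (by omega)
      _ = (fs (cb Δ o R)).card * (r + 1) := by simp
      _ ≤ (r + 1) ^ R * (r + 1) := Nat.mul_le_mul_right _ h2
      _ = (r + 1) ^ (R + 1) := by ring

theorem gl5_reach {o : V} {R : ℕ} {C : Set V} (hC : Cone Δ o R C) (t : ℕ) :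
    ∀ v ∈ C, Δ.dist o v = R + 1 + t → ∃ w ∈ iB Δ C, Δ.dist w v ≤ t := by
  induction t with
  | zero =>
    intro v hv hd
    exact ⟨v, (gl5_iB H hC).mpr ⟨hv, hd⟩, by simp⟩
  | succ t ih =>
    intro v hv hd
    obtain ⟨u, hu1, hu2⟩ := gl5_pred H (o := o) (v := v) (n := R + 1 + t) (by omega)
    have huC : u ∈ C := by
      by_contra hcon
      have : Δ.dist o u ≤ R := hC.comp.closed v hv u hu1 hcon
      omega
    obtain ⟨w, hw1, hw2⟩ := ih u huC hu2
    refine ⟨w, hw1, ?_⟩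
    have h1 : Δ.dist w v ≤ Δ.dist w u + Δ.dist u v := H.conn.dist_triangle
    have h2 : Δ.dist u v = 1 := SimpleGraph.dist_eq_one_iff_adj.mpr hu1.symm
    omega

theorem core_card : ∃ b : ℕ, 1 ≤ b ∧ ∀ (o : V) (R : ℕ) (C : Set V), Cone Δ o R C →
    (core Δ C).card ≤ b ∧ (chd Δ C).card ≤ b := by
  obtain ⟨T, hT⟩ := fb_bounds H
  obtain ⟨b, hb1, hb2, hb⟩ := exists_bound H
  refine ⟨b * (r + 1) ^ T + b * r + 1, by omega, ?_⟩
  intro o R C hC
  obtain ⟨hfi, -, hci, -, -, -, -⟩ := hb o R C hC.comp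
  constructor
  · have hsub : core Δ C ⊆ (fs (iB Δ C)).biUnion fun w => fs (cb Δ w T) := by
      intro v hv
      rw [mem_core H hC] at hv
      have h1 : v ∈ fb Δ o (R + 1) := hv.2
      have h2 : Δ.dist o v ≤ R + 1 + T := (hT o (R + 1)).2.2 h1
      have h3 := gl5_far H hC hv.1
      obtain ⟨w, hw1, hw2⟩ := gl5_reach H hC (Δ.dist o v - (R + 1)) v hv.1 (by omega)
      rw [Finset.mem_biUnion]
      refine ⟨w, (mem_fs hfi).mpr hw1, (mem_fs (gl5_cb H w T).1).mpr ?_⟩
      show Δ.dist w v ≤ T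
      omega
    have h4 : (core Δ C).card ≤ b * (r + 1) ^ T := by
      calc (core Δ C).card ≤ ((fs (iB Δ C)).biUnion fun w => fs (cb Δ w T)).card :=
            Finset.card_le_card hsub
        _ ≤ ∑ w ∈ fs (iB Δ C), (fs (cb Δ w T)).card := Finset.card_biUnion_le
        _ ≤ ∑ w ∈ fs (iB Δ C), (r + 1) ^ T := Finset.sum_le_sum fun w _ => (gl5_cb H w T).2
        _ = (fs (iB Δ C)).card * (r + 1) ^ T := by simp
        _ ≤ b * (r + 1) ^ T := Nat.mul_le_mul_right _ hci
    omega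
  · -- every child contains a neighbour of an inner boundary vertex of `C`
    have hex : ∀ D ∈ chd Δ C, ∃ v ∈ (fs (iB Δ C)).biUnion fun w => Δ.neighborFinset w, v ∈ D := by
      intro D hD
      rw [mem_chd H hC] at hD
      obtain ⟨-, -, -, -, -, ⟨w, hw⟩, -⟩ := hb o (R + 1) D hD.1.comp
      have hw2 := oB_child H hC hD.1 hD.2 hw
      obtain ⟨-, v, hv, hadj⟩ := hw
      refine ⟨v, ?_, hv⟩
      rw [Finset.mem_biUnion]
      exact ⟨w, (mem_fs hfi).mpr hw2, by simpa using hadj.symm⟩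
    haveI : Nonempty V := ⟨o⟩
    choose! f hf1 hf2 using hex
    have h5 : (chd Δ C).card ≤ ((fs (iB Δ C)).biUnion fun w => Δ.neighborFinset w).card := by
      apply Finset.card_le_card_of_injOn f
      · intro D hD
        exact hf1 D hD
      · intro D hD D' hD' he
        by_contra hne
        have h6 := cone_disj H ((mem_chd H hC).mp hD).1 ((mem_chd H hC).mp hD').1 hne
        apply Set.disjoint_left.mp h6 (hf2 D hD)
        have := hf2 D' hD'
        rw [he]
        exact this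
    have h7 : ((fs (iB Δ C)).biUnion fun w => Δ.neighborFinset w).card ≤ b * r := by
      calc _ ≤ ∑ w ∈ fs (iB Δ C), (Δ.neighborFinset w).card := Finset.card_biUnion_le
        _ = ∑ w ∈ fs (iB Δ C), r := Finset.sum_congr rfl fun w _ => H.reg w
        _ = (fs (iB Δ C)).card * r := by simp
        _ ≤ b * r := Nat.mul_le_mul_right _ hci
    omega

theorem mem_cns {o : V} {R : ℕ} {D : Set V} : D ∈ cns Δ o R ↔ Cone Δ o R D := by
  rw [cns, mem_fs (cones_finite H o R)]
  rfl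

theorem top_dec (o : V) (R : ℕ) : Dec Δ (fs (fb Δ o R)) (cns Δ o R) ∧
    reg (fs (fb Δ o R)) (cns Δ o R) = Set.univ := by
  obtain ⟨T, hT⟩ := fb_bounds H
  obtain ⟨b, -, -, hb⟩ := exists_bound H
  have hfb := (hT o R).1
  refine ⟨⟨?_, ?_, ?_, ?_, ?_⟩, ?_⟩
  · intro D hD v hv
    rw [mem_cns H] at hD
    rw [mem_fs hfb] at hv
    exact hv D hD
  · intro D hD D' hD' hne
    rw [mem_cns H] at hD hD'
    exact cone_disj H hD hD' hne
  · intro D hD
    rw [mem_cns H] at hD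
    exact (hb o R D hD.comp).2.1
  · intro D hD
    rw [mem_cns H] at hD
    exact (hb o R D hD.comp).1
  · intro D hD w hw
    rw [mem_cns H] at hD
    rw [Finset.mem_coe, mem_fs hfb]
    apply (hT o R).2.1
    have h1 : Δ.dist o w = R := oB_sub H hD.comp hw
    exact h1.le
  · ext v
    simp only [reg, Set.mem_union, Finset.mem_coe, Set.mem_iUnion, exists_prop, Set.mem_univ, iff_true]
    by_cases h1 : v ∈ fb Δ o R
    · left; exact (mem_fs hfb).mpr h1
    · right
      simp only [fb, Set.mem_ofPred_eq] at h1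
      push Not at h1
      obtain ⟨D, hD, hvD⟩ := h1
      exact ⟨D, (mem_cns H).mpr hD, hvD⟩

theorem mem_gen {o : V} {R : ℕ} {C : Set V} (hC : Cone Δ o R C) {k : ℕ} {D : Set V} :
    D ∈ gen Δ k C ↔ Cone Δ o (R + k) D ∧ D ⊆ C := by
  induction k generalizing R C with
  | zero =>
    simp only [gen, Finset.mem_singleton, Nat.add_zero]
    constructor
    · rintro rfl
      exact ⟨hC, subset_rfl⟩
    · rintro ⟨hD, hsub⟩
      rcases comp_eq_or_disj H hD.comp hC.comp with h1 | h1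
      · exact h1
      · exfalso
        obtain ⟨v, hv⟩ := hD.inf.nonempty
        exact Set.disjoint_left.mp h1 hv (hsub hv)
  | succ k ih =>
    simp only [gen, Finset.mem_biUnion]
    constructor
    · rintro ⟨E, hE, hD⟩
      rw [mem_chd H hC] at hE
      rw [ih hE.1] at hD
      refine ⟨?_, hD.2.trans hE.2⟩
      have : R + (k + 1) = R + 1 + k := by ring
      rw [this]
      exact hD.1
    · rintro ⟨hD, hsub⟩
      obtain ⟨E, hE, hDE⟩ := cone_parent H (show R + 1 ≤ R + (k + 1) by omega) hD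
      have hEC : E ⊆ C := by
        rcases cone_nested H (Nat.le_succ R) hC hE with h1 | h1
        · exact h1
        · exfalso
          obtain ⟨v, hv⟩ := hD.inf.nonempty
          exact Set.disjoint_left.mp h1 (hsub hv) (hDE hv)
      refine ⟨E, (mem_chd H hC).mpr ⟨hE, hEC⟩, (ih hE).mpr ⟨?_, hDE⟩⟩
      have : R + (k + 1) = R + 1 + k := by ring
      rw [← this]
      exact hD

end D

end Pool.Agent.Sand
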