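import Pool.Agent.SandFin.SpDefs

/-! Limits of local statistics, states of cones: definitions. -/

set_option autoImplicit false
open scoped Classical
open Filter Topology

namespace Pool.Agent.Sand

variable {V : Type} (Δ : SimpleGraph V) [Δ.LocallyFinite]

/-- part of a finite set in a region -/
noncomputable def cut (C : Set V) (G : Finset V) : Finset V := G.filter (· ∈ C)

/-- transport of configurations -/
def mvc (φ : Δ ≃g Δ) (χ : V → ℕ) : V → ℕ := fun v => χ (φ.symm v)

/-- transport of finite sets -/
def mvf (φ : Δ ≃g Δ) (S : Finset V) : Finset V := S.map φ.toEquiv.toEmbedding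

/-- interface data: unburnt sets and capped responses -/
abbrev St (V : Type) := (Finset V → Finset V) × ((V → ℕ) → (V → ℕ))

/-- firing numbers of the outer boundary of `D`, capped at `q` -/
noncomputable def cap (q : ℕ) (D : Set V) (n : V → ℕ) : V → ℕ :=
  fun w => if w ∈ fs (oB Δ D) then min (n w) q else 0

/-- the state of a configuration on `S ⊆ D` -/
noncomputable def st (r q : ℕ) (D : Set V) (S : Finset V) (χ : V → ℕ) : St V :=
  (fun U => LL Δ S χ (U ∩ fs (oB Δ D)) ∩ fs (iB Δ D),
   fun n => rs (fs (iB Δ D)) (odo Δ r S χ (cap Δ q D n)))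

/-- number of vertices of `S` which topple when the outside topples `n` times -/
noncomputable def sz (r : ℕ) (S : Finset V) (χ n : V → ℕ) : ℕ :=
  (S.filter fun v => odo Δ r S χ n v ≠ 0).card

/-- all possible states -/
def stS (r q : ℕ) (D : Set V) : Set (St V) :=
  {σ | ∃ S : Finset V, ↑S ⊆ D ∧ ∃ χ ∈ rcr Δ r S, st Δ r q D S χ = σ}

noncomputable def stF (r q : ℕ) (D : Set V) : Finset (St V) :=
  if hf : (stS Δ r q D).Finite then hf.toFinset else ∅

/-- transport of states -/
def mvs (φ : Δ ≃g Δ) (σ : St V) : St V :=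
  (fun U => mvf Δ φ (σ.1 (mvf Δ φ.symm U)), fun n => mvc Δ φ (σ.2 (mvc Δ φ.symm n)))

/-- limiting probability of a state -/
noncomputable def al0 (r q : ℕ) (D : Set V) (σ : St V) : ℝ :=
  limUnder atTop (fun G : Finset V => pr Δ r (cut D G) (fun χ => st Δ r q D (cut D G) χ = σ))

/-- limiting probability of a state and a size -/
noncomputable def al (r q : ℕ) (D : Set V) (σ : St V) (n : V → ℕ) (m : ℕ) : ℝ :=
  limUnder atTop (fun G : Finset V => pr Δ r (cut D G)
    (fun χ => st Δ r q D (cut D G) χ = σ ∧ sz Δ r (cut D G) χ n = m))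

end Pool.Agent.Sand
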