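import Pool.Agent.SandFin.All3
import Pool.Agent.SandFin.LmDefs

/-! Limits of ratios of numbers of recurrent configurations (task LM1). -/

set_option autoImplicit false
open scoped Classical
open Filter Topology

namespace Pool.Agent.Sand

variable {V : Type} (Δ : SimpleGraph V) [Δ.LocallyFinite]

theorem LM1_NN_congr {S : Finset V} {d d' : V → ℕ} (hd : ∀ v ∈ S, d v = d' v) :
    NN Δ S d = NN Δ S d' := by
  have h : rc Δ S d = rc Δ S d' := by
    ext χ
    simp only [rc, Finset.mem_filter, mem_stab]
    constructor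
    · rintro ⟨⟨h1, h2⟩, h3⟩
      exact ⟨⟨fun v hv => ⟨(h1 v hv).1, (hd v hv) ▸ (h1 v hv).2⟩, h2⟩, h3⟩
    · rintro ⟨⟨h1, h2⟩, h3⟩
      exact ⟨⟨fun v hv => ⟨(h1 v hv).1, (hd v hv) ▸ (h1 v hv).2⟩, h2⟩, h3⟩
  unfold NN
  rw [h]

section L
variable {Δ} {r : ℕ} {h : ℝ} {D0 : ℕ} (H : Hyp Δ r h D0)
include H

/-! ### LM1 : ratios -/

theorem lm_ratio (C : Set V) (Z : Finset V) (hZ : ↑Z ⊆ C) : ∃ ℓ : ℝ, 0 < ℓ ∧
    Tendsto (fun G : Finset V => (NNr Δ r (cut C G \ Z) : ℝ) / (NNr Δ r (cut C G) : ℝ)) atTop (𝓝 ℓ) := by
  have hpos : ∀ S : Finset V, (0 : ℝ) < (NNr Δ r S : ℝ) := fun S => by exact_mod_cast NN_pos H S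
  induction Z using Finset.induction_on with
  | empty =>
    refine ⟨1, one_pos, ?_⟩
    refine tendsto_const_nhds.congr fun G => ?_
    rw [Finset.sdiff_empty, div_self (hpos _).ne']
  | insert v Z hv ih =>
    have hZ' : (↑Z : Set V) ⊆ C := fun x hx => hZ (by simp [Finset.mem_coe.1 hx])
    have hvC : v ∈ C := hZ (by simp)
    obtain ⟨ℓ, hℓ, hlim⟩ := ih hZ'
    -- the Green function factor
    obtain ⟨C0, ρ, hC0, hρ, hρ1, hdec⟩ := gr_decay H
    have hmono : Monotone (fun G : Finset V => gr Δ r (↑(cut C G \ Z) : Set V) v v) := by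
      intro G G' hG
      refine gr_mono H ?_ v v
      intro x hx
      simp only [cut, Finset.coe_sdiff, Set.mem_sdiff, Finset.mem_coe, Finset.mem_filter] at hx ⊢
      exact ⟨⟨hG hx.1.1, hx.1.2⟩, hx.2⟩
    have hbdd : BddAbove (Set.range (fun G : Finset V => gr Δ r (↑(cut C G \ Z) : Set V) v v)) := by
      refine ⟨C0, ?_⟩
      rintro _ ⟨G, rfl⟩
      have := hdec (↑(cut C G \ Z) : Set V) v v
      simpa using this
    have hlim2 := tendsto_atTop_ciSup hmono hbdd
    set L := ⨆ G : Finset V, gr Δ r (↑(cut C G \ Z) : Set V) v v with hL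
    have hLpos : 0 < L := by
      have h1 : gr Δ r (↑(cut C {v} \ Z) : Set V) v v ≤ L := le_ciSup hbdd {v}
      have h2 : cut C {v} \ Z = {v} := by
        ext x
        simp only [cut, Finset.mem_sdiff, Finset.mem_filter, Finset.mem_singleton]
        constructor
        · rintro ⟨⟨h1, _⟩, _⟩; exact h1
        · rintro rfl; exact ⟨⟨rfl, hvC⟩, hv⟩
      rw [h2] at h1
      refine lt_of_lt_of_le ?_ h1
      have h3 := NN_ratio H ({v} : Finset V) (Finset.mem_singleton_self v)
      have h4 := hpos (({v} : Finset V).erase v)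
      rw [h3] at h4
      exact (pos_iff_pos_of_mul_pos h4).2 (hpos _)
    refine ⟨L * ℓ, mul_pos hLpos hℓ, ?_⟩
    refine (hlim2.mul hlim).congr' ?_
    filter_upwards [eventually_ge_atTop ({v} : Finset V)] with G hG
    have hvG : v ∈ cut C G \ Z := by
      simp only [cut, Finset.mem_sdiff, Finset.mem_filter]
      exact ⟨⟨hG (Finset.mem_singleton_self v), hvC⟩, hv⟩
    have h5 : cut C G \ insert v Z = (cut C G \ Z).erase v := by
      ext x
      simp only [Finset.mem_sdiff, Finset.mem_insert, Finset.mem_erase]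
      tauto
    rw [h5]
    have h6 := NN_ratio H (cut C G \ Z) hvG
    rw [h6, mul_div_assoc]

theorem lm_ratio' (C : Set V) (Z : Finset V) (hZ : ↑Z ⊆ C) (k : V → ℕ) (hk : ∀ v, k v ≤ nb Δ v Z) :
    ∃ ℓ : ℝ, Tendsto (fun G : Finset V => (NN Δ (cut C G \ Z) (fun v => r - k v) : ℝ) /
      (NNr Δ r (cut C G) : ℝ)) atTop (𝓝 ℓ) := by
  -- induction on the sum of `k`
  have key : ∀ (n : ℕ) (Z : Finset V) (k : V → ℕ) (F : Finset V), ↑Z ⊆ C → (∀ v, k v ≤ nb Δ v Z) →
      (∀ v, v ∉ F → k v = 0) → ∑ v ∈ F, k v = n →
      ∃ ℓ : ℝ, Tendsto (fun G : Finset V => (NN Δ (cut C G \ Z) (fun v => r - k v) : ℝ) /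
        (NNr Δ r (cut C G) : ℝ)) atTop (𝓝 ℓ) := by
    intro n
    induction n with
    | zero =>
      intro Z k F hZ hk hF hn
      have hk0 : k = fun _ => 0 := by
        funext v
        by_cases hv : v ∈ F
        · exact (Finset.sum_eq_zero_iff.1 hn) v hv
        · exact hF v hv
      obtain ⟨ℓ, -, hℓ⟩ := lm_ratio H C Z hZ
      refine ⟨ℓ, ?_⟩
      subst hk0
      simpa using hℓ
    | succ n ih =>
      intro Z k F hZ hk hF hn
      obtain ⟨v, hvF, hv0⟩ : ∃ v ∈ F, k v ≠ 0 := by
        by_contra hcon
        push Not at hcon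
        rw [Finset.sum_eq_zero hcon] at hn
        omega
      set k' : V → ℕ := Function.update k v (k v - 1) with hk'
      have hk'le : ∀ w, k' w ≤ k w := by
        intro w
        by_cases hw : w = v
        · subst hw; simp [hk']
        · simp [hk', hw]
      have hk'F : ∀ w, w ∉ F → k' w = 0 := fun w hw => by
        have := hk'le w
        have := hF w hw
        omega
      have hk'n : ∑ w ∈ F, k' w = n := by
        have h1 : ∑ w ∈ F, k w = k v + ∑ w ∈ F.erase v, k w := (Finset.add_sum_erase F k hvF).symm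
        have h2 : ∑ w ∈ F, k' w = k' v + ∑ w ∈ F.erase v, k' w := (Finset.add_sum_erase F k' hvF).symm
        have h3 : ∑ w ∈ F.erase v, k' w = ∑ w ∈ F.erase v, k w := by
          refine Finset.sum_congr rfl fun w hw => ?_
          simp [hk', Finset.ne_of_mem_erase hw]
        have h4 : k' v = k v - 1 := by simp [hk']
        rw [h3, h4] at h2
        omega
      have hk'Z : ∀ w, k' w ≤ nb Δ w Z := fun w => (hk'le w).trans (hk w)
      obtain ⟨ℓ1, hℓ1⟩ := ih Z k' F hZ hk'Z hk'F hk'n
      by_cases hvC : v ∈ C ∧ v ∉ Z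
      · -- the main case
        have hZv : (↑(insert v Z) : Set V) ⊆ C := by
          intro x hx
          rcases Finset.mem_insert.1 (Finset.mem_coe.1 hx) with rfl | hx
          · exact hvC.1
          · exact hZ hx
        have hk'Zv : ∀ w, k' w ≤ nb Δ w (insert v Z) := fun w =>
          (hk'Z w).trans (Finset.card_le_card
            (Finset.inter_subset_inter_left (Finset.subset_insert v Z)))
        obtain ⟨ℓ2, hℓ2⟩ := ih (insert v Z) k' F hZv hk'Zv hk'F hk'n
        refine ⟨ℓ1 - ℓ2, (hℓ1.sub hℓ2).congr' ?_⟩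
        filter_upwards [eventually_ge_atTop ({v} : Finset V)] with G hG
        have hvG : v ∈ cut C G \ Z := by
          simp only [cut, Finset.mem_sdiff, Finset.mem_filter]
          exact ⟨⟨hG (Finset.mem_singleton_self v), hvC.1⟩, hvC.2⟩
        have h5 : cut C G \ insert v Z = (cut C G \ Z).erase v := by
          ext x
          simp only [Finset.mem_sdiff, Finset.mem_insert, Finset.mem_erase]
          tauto
        have hsum : nb Δ v (cut C G \ Z) + nb Δ v Z ≤ r := by
          have hd : Disjoint (Δ.neighborFinset v ∩ (cut C G \ Z)) (Δ.neighborFinset v ∩ Z) := by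
            rw [Finset.disjoint_left]
            intro x hx hx'
            simp only [Finset.mem_inter, Finset.mem_sdiff] at hx hx'
            exact hx.2.2 hx'.2
          have := Finset.card_union_of_disjoint hd
          have h6 : (Δ.neighborFinset v ∩ (cut C G \ Z)) ∪ (Δ.neighborFinset v ∩ Z) ⊆
              Δ.neighborFinset v := by
            intro x hx
            simp only [Finset.mem_union, Finset.mem_inter] at hx
            tauto
          have h7 := Finset.card_le_card h6
          have h8 := H.reg v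
          rw [← SimpleGraph.card_neighborFinset_eq_degree] at h8
          unfold nb
          omega
        have hkv := hk v
        have hk'v : k' v = k v - 1 := by simp [hk']
        have hdel := NN_del Δ (cut C G \ Z) (fun w => r - k' w) hvG (by
          show nb Δ v (cut C G \ Z) < r - k' v
          rw [hk'v]
          omega)
        have hupd : Function.update (fun w => r - k' w) v ((fun w => r - k' w) v - 1) =
            fun w => r - k w := by
          funext w
          by_cases hw : w = v
          · subst hw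
            simp only [Function.update_self, hk'v]
            omega
          · simp [hw, hk']
        rw [hupd] at hdel
        rw [h5, ← sub_div, hdel]
        push_cast
        ring
      · -- nothing changes
        refine ⟨ℓ1, hℓ1.congr fun G => ?_⟩
        congr 2
        refine LM1_NN_congr Δ fun w hw => ?_
        have hwv : w ≠ v := by
          rintro rfl
          simp only [cut, Finset.mem_sdiff, Finset.mem_filter] at hw
          exact hvC ⟨hw.1.2, hw.2⟩
        simp [hk', hwv]
  refine key _ Z k (Z.biUnion fun z => Δ.neighborFinset z) hZ hk ?_ rfl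
  intro v hv
  have h1 := hk v
  have h2 : nb Δ v Z = 0 := by
    unfold nb
    rw [Finset.card_eq_zero, Finset.eq_empty_iff_forall_notMem]
    intro x hx
    simp only [Finset.mem_inter, SimpleGraph.mem_neighborFinset] at hx
    apply hv
    simp only [Finset.mem_biUnion, SimpleGraph.mem_neighborFinset]
    exact ⟨x, hx.2, hx.1.symm⟩
  omega

end L

end Pool.Agent.Sand
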