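import Pool.Agent.SandFin.LM1

/-! LM2: limits of probabilities of cylinder events and of local events. -/

set_option autoImplicit false
open scoped Classical
open Filter Topology

namespace Pool.Agent.Sand

variable {V : Type} (Δ : SimpleGraph V) [Δ.LocallyFinite]

/-! PLACEHOLDER START (cut, lm_ratio, lm_ratio' are those of Lm.lean; remove when merging) -/

section L
variable {Δ} {r : ℕ} {h : ℝ} {D0 : ℕ} (H : Hyp Δ r h D0)
include H

/-! PLACEHOLDER END -/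

/-! ### LM2 : cylinder events and local events -/

omit H in
theorem lm2_approx {α : Type} {F : Filter α} [F.NeBot] (f : α → ℝ)
    (hf : ∀ ε : ℝ, 0 < ε → ∃ g : α → ℝ, (∃ ℓ : ℝ, Tendsto g F (𝓝 ℓ)) ∧ ∀ᶠ a in F, |f a - g a| ≤ ε) :
    ∃ ℓ : ℝ, Tendsto f F (𝓝 ℓ) := by
  rw [← cauchy_map_iff_exists_tendsto, Metric.cauchy_iff]
  refine ⟨inferInstance, fun ε hε => ?_⟩
  obtain ⟨g, ⟨ℓ, hg⟩, hfg⟩ := hf (ε / 5) (by positivity)
  refine ⟨Metric.closedBall ℓ (2 * (ε / 5)), ?_, fun x hx y hy => ?_⟩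
  · rw [Filter.mem_map]
    filter_upwards [hfg, Metric.tendsto_nhds.1 hg (ε / 5) (by positivity)] with a h1 h2
    rw [Set.mem_preimage, Metric.mem_closedBall, Real.dist_eq]
    rw [Real.dist_eq] at h2
    calc |f a - ℓ| ≤ |f a - g a| + |g a - ℓ| := abs_sub_le _ _ _
      _ ≤ 2 * (ε / 5) := by linarith
  · rw [Metric.mem_closedBall] at hx hy
    calc dist x y ≤ dist x ℓ + dist y ℓ := dist_triangle_right _ _ _
      _ ≤ 2 * (ε / 5) + 2 * (ε / 5) := add_le_add hx hy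
      _ < ε := by linarith

omit H in
theorem lm2_pr_card (S : Finset V) (P : (V → ℕ) → Prop) [DecidablePred P] :
    pr Δ r S P = (((rcr Δ r S).filter P).card : ℝ) / (NNr Δ r S : ℝ) := by
  unfold pr
  congr!

omit H in
theorem lm2_pr_le (S : Finset V) (P Q : (V → ℕ) → Prop) :
    pr Δ r S P ≤ pr Δ r S Q + pr Δ r S (fun χ => ¬ (P χ ↔ Q χ)) := by
  rw [lm2_pr_card, lm2_pr_card, lm2_pr_card, ← add_div]
  refine div_le_div_of_nonneg_right ?_ (Nat.cast_nonneg _)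
  have h1 : (rcr Δ r S).filter P ⊆ (rcr Δ r S).filter Q ∪ (rcr Δ r S).filter (fun χ => ¬ (P χ ↔ Q χ)) := by
    intro χ hχ
    rw [Finset.mem_filter] at hχ
    rw [Finset.mem_union, Finset.mem_filter, Finset.mem_filter]
    by_cases hQ : Q χ
    · exact Or.inl ⟨hχ.1, hQ⟩
    · exact Or.inr ⟨hχ.1, fun hh => hQ (hh.1 hχ.2)⟩
  have h2 := (Finset.card_le_card h1).trans (Finset.card_union_le _ _)
  exact_mod_cast h2

omit H in
theorem lm2_pr_abs (S : Finset V) (P Q : (V → ℕ) → Prop) :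
    |pr Δ r S P - pr Δ r S Q| ≤ pr Δ r S (fun χ => ¬ (P χ ↔ Q χ)) := by
  have h1 := lm2_pr_le (Δ := Δ) (r := r) S P Q
  have h2 := lm2_pr_le (Δ := Δ) (r := r) S Q P
  have h3 : (fun χ : V → ℕ => ¬ (Q χ ↔ P χ)) = (fun χ => ¬ (P χ ↔ Q χ)) := by
    funext χ
    rw [iff_comm]
  rw [h3] at h2
  rw [abs_le]
  constructor <;> linarith

omit H in
theorem lm2_pr_congr (S : Finset V) {P Q : (V → ℕ) → Prop} (hPQ : ∀ χ ∈ rcr Δ r S, P χ ↔ Q χ) :
    pr Δ r S P = pr Δ r S Q := by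
  rw [lm2_pr_card, lm2_pr_card, Finset.filter_congr hPQ]

omit H in
/-- probability of an event as a sum over the values of a function -/
theorem lm2_pr_fib {β : Type} (S : Finset V) (P : (V → ℕ) → Prop) (F : (V → ℕ) → β) (T : Finset β)
    (hT : ∀ χ ∈ rcr Δ r S, P χ → F χ ∈ T) :
    pr Δ r S P = ∑ b ∈ T, pr Δ r S (fun χ => P χ ∧ F χ = b) := by
  have h1 : ∀ b ∈ T, pr Δ r S (fun χ => P χ ∧ F χ = b) =
      ((((rcr Δ r S).filter P).filter (fun χ => F χ = b)).card : ℝ) / (NNr Δ r S : ℝ) := by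
    intro b _
    rw [lm2_pr_card, Finset.filter_filter]
  rw [Finset.sum_congr rfl h1, ← Finset.sum_div, lm2_pr_card]
  congr 1
  rw [Finset.card_eq_sum_card_fiberwise (f := F) (t := T), Nat.cast_sum]
  · intro χ hχ
    have hχ' := Finset.mem_filter.1 (Finset.mem_coe.1 hχ)
    exact Finset.mem_coe.2 (hT χ hχ'.1 hχ'.2)

omit H in
theorem lm2_sub_cut {C : Set V} {Λ G : Finset V} (hΛ : ↑Λ ⊆ C) (hG : Λ ⊆ G) : Λ ⊆ cut C G := by
  intro v hv
  exact Finset.mem_filter.2 ⟨hG hv, hΛ (Finset.mem_coe.2 hv)⟩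

theorem lm2_one (C : Set V) (Λ : Finset V) (hΛ : ↑Λ ⊆ C) (ζ : V → ℕ) :
    ∃ ℓ : ℝ, Tendsto (fun G : Finset V => pr Δ r (cut C G) (fun χ => rs Λ χ = ζ)) atTop (𝓝 ℓ) := by
  refine lm2_approx _ fun ε hε => ?_
  obtain ⟨X, hX⟩ := tw_LL' H Λ hε
  have hC : ∀ L ∈ ((X.filter (· ∈ C)) \ Λ).powerset, (↑(Λ ∪ L) : Set V) ⊆ C := by
    intro L hL v hv
    rw [Finset.mem_powerset] at hL
    rcases Finset.mem_union.1 (Finset.mem_coe.1 hv) with h1 | h1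
    · exact hΛ (Finset.mem_coe.2 h1)
    · exact (Finset.mem_filter.1 (Finset.mem_sdiff.1 (hL h1)).1).2
  refine ⟨fun G => ∑ L ∈ ((X.filter (· ∈ C)) \ Λ).powerset,
    (((rcr Δ r (Λ ∪ L)).filter fun χ => rs Λ χ = ζ ∧ ∀ v ∈ L, χ v ≤ nb Δ v (L ∪ Λ)).card : ℝ) *
      ((NN Δ (cut C G \ (Λ ∪ L)) (fun v => r - nb Δ v (Λ ∪ L)) : ℝ) / (NNr Δ r (cut C G) : ℝ)), ?_, ?_⟩
  · have h1 : ∀ L : Finset V, ∃ ℓ : ℝ, L ∈ ((X.filter (· ∈ C)) \ Λ).powerset →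
        Tendsto (fun G : Finset V =>
          (((rcr Δ r (Λ ∪ L)).filter fun χ => rs Λ χ = ζ ∧ ∀ v ∈ L, χ v ≤ nb Δ v (L ∪ Λ)).card : ℝ) *
      ((NN Δ (cut C G \ (Λ ∪ L)) (fun v => r - nb Δ v (Λ ∪ L)) : ℝ) / (NNr Δ r (cut C G) : ℝ)))
          atTop (𝓝 ℓ) := by
      intro L
      by_cases hL : L ∈ ((X.filter (· ∈ C)) \ Λ).powerset
      · obtain ⟨ℓ, hℓ⟩ := lm_ratio' H C (Λ ∪ L) (hC L hL) (fun v => nb Δ v (Λ ∪ L)) (fun v => le_rfl)
        exact ⟨_, fun _ => hℓ.const_mul _⟩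
      · exact ⟨0, fun hh => absurd hh hL⟩
    choose ℓ hℓ using h1
    exact ⟨∑ L ∈ ((X.filter (· ∈ C)) \ Λ).powerset, ℓ L, tendsto_finsetSum _ fun L hL => hℓ L hL⟩
  · filter_upwards [eventually_ge_atTop (Λ ∪ X)] with G hG
    have hΛG : Λ ⊆ cut C G := lm2_sub_cut hΛ (Finset.subset_union_left.trans hG)
    have hXG : X ⊆ G := Finset.subset_union_right.trans hG
    have h1 : (∑ L ∈ ((X.filter (· ∈ C)) \ Λ).powerset,
        (((rcr Δ r (Λ ∪ L)).filter fun χ => rs Λ χ = ζ ∧ ∀ v ∈ L, χ v ≤ nb Δ v (L ∪ Λ)).card : ℝ) *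
        ((NN Δ (cut C G \ (Λ ∪ L)) (fun v => r - nb Δ v (Λ ∪ L)) : ℝ) / (NNr Δ r (cut C G) : ℝ))) =
        pr Δ r (cut C G) (fun χ => rs Λ χ = ζ ∧ LL Δ (cut C G \ Λ) χ Λ ⊆ X) := by
      rw [lm2_pr_fib (cut C G) (fun χ => rs Λ χ = ζ ∧ LL Δ (cut C G \ Λ) χ Λ ⊆ X)
        (fun χ => LL Δ (cut C G \ Λ) χ Λ) (((X.filter (· ∈ C)) \ Λ).powerset) ?_]
      · refine Finset.sum_congr rfl fun L hL => ?_
        rw [Finset.mem_powerset] at hL
        have hLS : L ⊆ cut C G \ Λ := by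
          intro v hv
          have hv' := Finset.mem_sdiff.1 (hL hv)
          have hv'' := Finset.mem_filter.1 hv'.1
          exact Finset.mem_sdiff.2 ⟨Finset.mem_filter.2 ⟨hXG hv''.1, hv''.2⟩, hv'.2⟩
        have hc := count_local (Δ := Δ) (r := r) H.reg hΛG hLS ζ
        have he : pr Δ r (cut C G) (fun χ => (rs Λ χ = ζ ∧ LL Δ (cut C G \ Λ) χ Λ ⊆ X) ∧
            LL Δ (cut C G \ Λ) χ Λ = L) =
            pr Δ r (cut C G) (fun χ => rs Λ χ = ζ ∧ LL Δ (cut C G \ Λ) χ Λ = L) := by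
          refine lm2_pr_congr _ fun χ _ => ?_
          constructor
          · rintro ⟨⟨h1, _⟩, h3⟩
            exact ⟨h1, h3⟩
          · rintro ⟨h1, h3⟩
            refine ⟨⟨h1, ?_⟩, h3⟩
            rw [h3]
            exact fun v hv => (Finset.mem_filter.1 (Finset.mem_sdiff.1 (hL hv)).1).1
        rw [he, lm2_pr_card, hc]
        push_cast
        rw [mul_div_assoc]
      · rintro χ _ ⟨_, h2⟩
        rw [Finset.mem_powerset]
        intro v hv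
        have hv1 : v ∈ cut C G \ Λ := (Finset.mem_filter.1 hv).1
        have hv2 := Finset.mem_sdiff.1 hv1
        exact Finset.mem_sdiff.2 ⟨Finset.mem_filter.2 ⟨h2 hv, (Finset.mem_filter.1 hv2.1).2⟩, hv2.2⟩
    rw [h1]
    refine (lm2_pr_abs _ _ _).trans ((pr_mono H _ ?_).trans (hX _ hΛG))
    intro χ _ h2 h3
    exact h2 ⟨fun h4 => ⟨h4, h3⟩, fun h4 => h4.1⟩

theorem lm_cyl (C : Set V) (Λ : Finset V) (hΛ : ↑Λ ⊆ C) (P : (V → ℕ) → Prop) :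
    ∃ ℓ : ℝ, Tendsto (fun G : Finset V => pr Δ r (cut C G) (fun χ => P (rs Λ χ))) atTop (𝓝 ℓ) := by
  choose ℓ hℓ using lm2_one H C Λ hΛ
  have ht := tendsto_finsetSum ((stab Λ (fun _ => r)).filter P) (fun ζ _ => hℓ ζ)
  refine ⟨_, ht.congr' ?_⟩
  filter_upwards [eventually_ge_atTop Λ] with G hG
  have hΛG : Λ ⊆ cut C G := lm2_sub_cut hΛ hG
  rw [lm2_pr_fib (cut C G) (fun χ => P (rs Λ χ)) (fun χ => rs Λ χ) ((stab Λ (fun _ => r)).filter P) ?_]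
  · refine Finset.sum_congr rfl fun ζ hζ => ?_
    have hP : P ζ := (Finset.mem_filter.1 hζ).2
    refine lm2_pr_congr _ fun χ _ => ?_
    constructor
    · intro h1
      exact ⟨by rw [h1]; exact hP, h1⟩
    · exact fun h1 => h1.2
  · intro χ hχ hP
    refine Finset.mem_filter.2 ⟨?_, hP⟩
    have h1 := mem_stab.1 (Finset.mem_filter.1 hχ).1
    refine mem_stab.2 ⟨fun v hv => ?_, fun v hv => ?_⟩
    · have h2 := h1.1 v (hΛG hv)
      simpa [rs, hv] using h2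
    · simp [rs, hv]

theorem lm_local (C : Set V) (E : Finset V → (V → ℕ) → Prop)
    (hE : ∀ ε : ℝ, 0 < ε → ∃ (Λ : Finset V) (P : (V → ℕ) → Prop), ↑Λ ⊆ C ∧
      ∀ᶠ G in (atTop : Filter (Finset V)),
        pr Δ r (cut C G) (fun χ => ¬ (E (cut C G) χ ↔ P (rs Λ χ))) ≤ ε) :
    ∃ ℓ : ℝ, Tendsto (fun G : Finset V => pr Δ r (cut C G) (E (cut C G))) atTop (𝓝 ℓ) := by
  refine lm2_approx _ fun ε hε => ?_
  obtain ⟨Λ, P, hΛ, hev⟩ := hE ε hε
  refine ⟨fun G => pr Δ r (cut C G) (fun χ => P (rs Λ χ)), lm_cyl H C Λ hΛ P, ?_⟩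
  filter_upwards [hev] with G hG
  exact (lm2_pr_abs _ _ _).trans hG

end L

end Pool.Agent.Sand
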