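import Pool.Agent.SandFin.ST1

set_option autoImplicit false

namespace Pool.Agent.Sand
export ST1 (stS_finite mem_stF al0_tendsto al_tendsto al0_nonneg al_nonneg al0_sum al0_zero al_sum al_dead)
end Pool.Agent.Sand
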