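import Pool.Agent.SandFin.ST1X
import Pool.Agent.SandFin.EQ

/-! Task ST2: invariance of the limits under automorphisms. -/

set_option autoImplicit false
set_option linter.unusedSectionVars false
open scoped Classical
open Filter Topology

namespace Pool.Agent.Sand

variable {V : Type} (Δ : SimpleGraph V) [Δ.LocallyFinite]

section S2
variable {Δ} {r : ℕ}

theorem ST2_mem_mvf (φ : Δ ≃g Δ) (S : Finset V) (v : V) : v ∈ mvf Δ φ S ↔ φ.symm v ∈ S := by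
  unfold mvf
  rw [Finset.mem_map]
  constructor
  · rintro ⟨w, hw, rfl⟩
    change φ.symm (φ w) ∈ S
    rwa [RelIso.symm_apply_apply]
  · intro hv
    exact ⟨φ.symm v, hv, φ.apply_symm_apply v⟩

theorem ST2_mvf_symm (φ : Δ ≃g Δ) (S : Finset V) : mvf Δ φ (mvf Δ φ.symm S) = S := by
  ext v
  rw [ST2_mem_mvf, ST2_mem_mvf]
  change φ (φ.symm v) ∈ S ↔ _
  rw [RelIso.apply_symm_apply]

theorem ST2_symm_mvf (φ : Δ ≃g Δ) (S : Finset V) : mvf Δ φ.symm (mvf Δ φ S) = S := by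
  ext v
  rw [ST2_mem_mvf, ST2_mem_mvf]
  change φ.symm (φ v) ∈ S ↔ _
  rw [RelIso.symm_apply_apply]

theorem ST2_mvf_inter (φ : Δ ≃g Δ) (S T : Finset V) :
    mvf Δ φ (S ∩ T) = mvf Δ φ S ∩ mvf Δ φ T := by
  ext v
  rw [Finset.mem_inter, ST2_mem_mvf, ST2_mem_mvf, ST2_mem_mvf, Finset.mem_inter]

theorem ST2_mvc_symm (φ : Δ ≃g Δ) (x : V → ℕ) : mvc Δ φ (mvc Δ φ.symm x) = x := by
  funext v
  change x (φ (φ.symm v)) = x v
  rw [RelIso.apply_symm_apply]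

theorem ST2_symm_mvc (φ : Δ ≃g Δ) (x : V → ℕ) : mvc Δ φ.symm (mvc Δ φ x) = x := by
  funext v
  change x (φ.symm (φ v)) = x v
  rw [RelIso.symm_apply_apply]

theorem ST2_rs (φ : Δ ≃g Δ) (S : Finset V) (x : V → ℕ) :
    rs (mvf Δ φ S) (mvc Δ φ x) = mvc Δ φ (rs S x) := by
  funext v
  by_cases hv : φ.symm v ∈ S
  · have h1 := (ST2_mem_mvf φ S v).2 hv
    simp [rs, mvc, hv, h1]
  · have h1 : v ∉ mvf Δ φ S := fun h => hv ((ST2_mem_mvf φ S v).1 h)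
    simp [rs, mvc, hv, h1]

theorem ST2_cap (φ : Δ ≃g Δ) (q : ℕ) (D : Set V) (n : V → ℕ) :
    cap Δ q (φ '' D) n = mvc Δ φ (cap Δ q D (mvc Δ φ.symm n)) := by
  funext w
  unfold cap
  rw [mvf_oB, mvf_fs]
  by_cases hv : φ.symm w ∈ fs (oB Δ D)
  · have h1 := (ST2_mem_mvf φ _ w).2 hv
    rw [if_pos h1]
    change _ = if φ.symm w ∈ fs (oB Δ D) then min (n (φ (φ.symm w))) q else 0
    rw [if_pos hv, RelIso.apply_symm_apply]
  · have h1 : w ∉ mvf Δ φ (fs (oB Δ D)) := fun h => hv ((ST2_mem_mvf φ _ w).1 h)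
    rw [if_neg h1]
    change _ = if φ.symm w ∈ fs (oB Δ D) then min (n (φ (φ.symm w))) q else 0
    rw [if_neg hv]

theorem ST2_st (φ : Δ ≃g Δ) (q : ℕ) (D : Set V) (S : Finset V) (χ : V → ℕ) :
    st Δ r q (φ '' D) (mvf Δ φ S) (mvc Δ φ χ) = mvs Δ φ (st Δ r q D S χ) := by
  unfold st mvs
  refine Prod.ext ?_ ?_
  · funext U
    change LL Δ (mvf Δ φ S) (mvc Δ φ χ) (U ∩ fs (oB Δ (φ '' D))) ∩ fs (iB Δ (φ '' D)) =
      mvf Δ φ (LL Δ S χ (mvf Δ φ.symm U ∩ fs (oB Δ D)) ∩ fs (iB Δ D))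
    rw [mvf_oB, mvf_iB, mvf_fs, mvf_fs, ST2_mvf_inter, ← mvf_LL, ST2_mvf_inter, ST2_mvf_symm]
  · funext n
    change rs (fs (iB Δ (φ '' D))) (odo Δ r (mvf Δ φ S) (mvc Δ φ χ) (cap Δ q (φ '' D) n)) =
      mvc Δ φ (rs (fs (iB Δ D)) (odo Δ r S χ (cap Δ q D (mvc Δ φ.symm n))))
    rw [ST2_cap, mvf_odo, mvf_iB, mvf_fs, ST2_rs]

theorem ST2_sz (φ : Δ ≃g Δ) (S : Finset V) (χ n : V → ℕ) :
    sz Δ r (mvf Δ φ S) (mvc Δ φ χ) (mvc Δ φ n) = sz Δ r S χ n := by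
  unfold sz
  rw [mvf_odo]
  refine Finset.card_bij' (fun v _ => φ.symm v) (fun v _ => φ v) ?_ ?_ ?_ ?_
  · intro v hv
    rw [Finset.mem_filter, ST2_mem_mvf] at hv
    rw [Finset.mem_filter]
    exact hv
  · intro v hv
    rw [Finset.mem_filter] at hv
    rw [Finset.mem_filter, ST2_mem_mvf]
    change φ.symm (φ v) ∈ S ∧ odo Δ r S χ n (φ.symm (φ v)) ≠ 0
    rwa [RelIso.symm_apply_apply]
  · intro v _
    exact φ.apply_symm_apply v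
  · intro v _
    exact φ.symm_apply_apply v

theorem ST2_mvs_inj (φ : Δ ≃g Δ) {σ τ : St V} (h : mvs Δ φ σ = mvs Δ φ τ) : σ = τ := by
  have key : ∀ ρ : St V, mvs Δ φ.symm (mvs Δ φ ρ) = ρ := by
    intro ρ
    refine Prod.ext ?_ ?_
    · funext U
      change mvf Δ φ.symm (mvf Δ φ (ρ.1 (mvf Δ φ.symm (mvf Δ φ U)))) = ρ.1 U
      rw [ST2_symm_mvf, ST2_symm_mvf]
    · funext n
      change mvc Δ φ.symm (mvc Δ φ (ρ.2 (mvc Δ φ.symm (mvc Δ φ n)))) = ρ.2 n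
      rw [ST2_symm_mvc, ST2_symm_mvc]
  rw [← key σ, h, key]

end S2

section S
variable {Δ} {r : ℕ} {h : ℝ} {D0 : ℕ} (H : Hyp Δ r h D0)
include H

/-! ### ST2 : invariance -/

theorem al0_inv {o : V} {R : ℕ} {D : Set V} (hD : Cone Δ o R D) (q : ℕ) (σ : St V) (φ : Δ ≃g Δ) :
    al0 Δ r q (φ '' D) (mvs Δ φ σ) = al0 Δ r q D σ := by
  have hD' : Cone Δ (φ o) R (φ '' D) := mvf_cone φ hD
  have h1 := mvf_tendsto φ _ _ (al0_tendsto H hD' q (mvs Δ φ σ))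
  have h2 := al0_tendsto H hD q σ
  refine tendsto_nhds_unique h1 (h2.congr fun G => ?_)
  rw [mvf_cut, mvf_pr]
  congr 1
  funext χ
  rw [ST2_st]
  exact propext ⟨fun e => by rw [e], fun e => ST2_mvs_inj φ e⟩

theorem al_inv {o : V} {R : ℕ} {D : Set V} (hD : Cone Δ o R D) (q : ℕ) (σ : St V) {n : V → ℕ}
    (hn : ∀ v, v ∉ oB Δ D → n v = 0) (m : ℕ) (φ : Δ ≃g Δ) :
    al Δ r q (φ '' D) (mvs Δ φ σ) (mvc Δ φ n) m = al Δ r q D σ n m := by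
  have hD' : Cone Δ (φ o) R (φ '' D) := mvf_cone φ hD
  have hn' : ∀ v, v ∉ oB Δ (φ '' D) → mvc Δ φ n v = 0 := by
    intro v hv
    refine hn _ fun h' => hv ?_
    rw [mvf_oB]
    exact ⟨φ.symm v, h', φ.apply_symm_apply v⟩
  have h1 := mvf_tendsto φ _ _ (al_tendsto H hD' q (mvs Δ φ σ) hn' m)
  have h2 := al_tendsto H hD q σ hn m
  refine tendsto_nhds_unique h1 (h2.congr fun G => ?_)
  rw [mvf_cut, mvf_pr]
  congr 1
  funext χ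
  rw [ST2_st, ST2_sz]
  exact propext ⟨fun e => ⟨by rw [e.1], e.2⟩, fun e => ⟨ST2_mvs_inj φ e.1, e.2⟩⟩

end S

end Pool.Agent.Sand
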