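import Pool.Agent.SandFin.All3
import Pool.Agent.SandFin.LM1
import Pool.Agent.SandFin.LM2
import Pool.Agent.SandFin.EQ
import Pool.Agent.SandFin.ST1X
import Pool.Agent.SandFin.ST2
import Pool.Agent.SandFin.GL5
import Pool.Agent.SandFin.GL12X
import Pool.Agent.SandFin.GL3
import Pool.Agent.SandFin.GL4
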