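import Pool.Agent.SandFin.REC2

set_option autoImplicit false

namespace Pool.Agent.Sand
export REC2 (st_glue odo_glue)
end Pool.Agent.Sand
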