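import Pool.Agent.SandFin.REC1
import Pool.Agent.SandFin.REC2X

/-! REC4: limiting probabilities that descendants are reached. -/

set_option autoImplicit false
set_option linter.unusedSectionVars false
open scoped Classical
open Filter Topology

namespace Pool.Agent.Sand.REC4

open Pool.Agent.Sand

variable {V : Type} {Δ : SimpleGraph V} [Δ.LocallyFinite]

/-! ### auxiliary lemmas (copies from ST1, ST2) -/

theorem nb_mono {v : V} {W W' : Finset V} (h : W ⊆ W') : nb Δ v W ≤ nb Δ v W' :=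
  Finset.card_le_card (Finset.inter_subset_inter_left h)

theorem stz_congr {r : ℕ} {S : Finset V} {χ χ' n u : V → ℕ} (h : ∀ v ∈ S, χ v = χ' v) :
    Stz Δ r S χ n u ↔ Stz Δ r S χ' n u := by
  unfold Stz
  apply and_congr_right'
  constructor
  · intro h' v hv
    rw [← h v hv]; exact h' v hv
  · intro h' v hv
    rw [h v hv]; exact h' v hv

theorem odo_congr {r : ℕ} {S : Finset V} {χ χ' n : V → ℕ} (h : ∀ v ∈ S, χ v = χ' v) :
    odo Δ r S χ n = odo Δ r S χ' n := by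
  funext v
  unfold odo
  congr 1
  ext k
  simp only [Set.mem_ofPred_eq, stz_congr h]

theorem mem_LL {S U : Finset V} {χ : V → ℕ} {v : V} :
    v ∈ LL Δ S χ U ↔ v ∈ S ∧ ∃ W ⊆ S, v ∈ W ∧ ∀ w ∈ W, χ w ≤ nb Δ w (W ∪ U) := by
  unfold LL
  rw [Finset.mem_filter]

theorem LL_congr {S U : Finset V} {χ χ' : V → ℕ} (h : ∀ v ∈ S, χ v = χ' v) :
    LL Δ S χ U = LL Δ S χ' U := by
  ext v
  rw [mem_LL, mem_LL]
  constructor
  · rintro ⟨hv, W, hW, hvW, hc⟩
    exact ⟨hv, W, hW, hvW, fun w hw => by rw [← h w (hW hw)]; exact hc w hw⟩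
  · rintro ⟨hv, W, hW, hvW, hc⟩
    exact ⟨hv, W, hW, hvW, fun w hw => by rw [h w (hW hw)]; exact hc w hw⟩

theorem LL_mono {S U U' : Finset V} {χ : V → ℕ} (h : U ⊆ U') : LL Δ S χ U ⊆ LL Δ S χ U' := by
  intro v
  rw [mem_LL, mem_LL]
  rintro ⟨hv, W, hW, hvW, hc⟩
  exact ⟨hv, W, hW, hvW, fun w hw => (hc w hw).trans (nb_mono (Finset.union_subset_union_right h))⟩

theorem LL_restrict {S T U : Finset V} {χ : V → ℕ} (hT : T ⊆ S) (h : LL Δ S χ U ⊆ T) :
    LL Δ S χ U = LL Δ T χ U := by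
  ext v
  constructor
  · intro hv
    have hvT := h hv
    rw [mem_LL] at hv
    obtain ⟨hvS, W, hW, hvW, hc⟩ := hv
    rw [mem_LL]
    refine ⟨hvT, W, fun w hw => h ?_, hvW, hc⟩
    rw [mem_LL]
    exact ⟨hW hw, W, hW, hw, hc⟩
  · intro hv
    rw [mem_LL] at hv ⊢
    obtain ⟨hvT, W, hW, hvW, hc⟩ := hv
    exact ⟨hT hvT, W, hW.trans hT, hvW, hc⟩

theorem rcr_le {r : ℕ} {S : Finset V} {χ : V → ℕ} (h : χ ∈ rcr Δ r S) : ∀ v ∈ S, χ v ≤ r := by
  intro v hv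
  unfold rcr rc at h
  rw [Finset.mem_filter, mem_stab] at h
  exact (h.1.1 v hv).2

theorem cut_sub {D : Set V} {G : Finset V} : (↑(cut D G) : Set V) ⊆ D := by
  intro v hv
  exact (Finset.mem_filter.1 (Finset.mem_coe.1 hv)).2

theorem cut_mono {D : Set V} {X G : Finset V} (h : X ⊆ G) : cut D X ⊆ cut D G :=
  Finset.filter_subset_filter _ h

section T
variable {r : ℕ} {h : ℝ} {D0 : ℕ} (H : Hyp Δ r h D0)
include H

theorem fin_oB {o : V} {R : ℕ} {D : Set V} (hD : Cone Δ o R D) : (oB Δ D).Finite := by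
  obtain ⟨b, -, -, hb⟩ := exists_bound H
  exact (hb o R D hD.comp).2.1

theorem fin_iB {o : V} {R : ℕ} {D : Set V} (hD : Cone Δ o R D) : (iB Δ D).Finite := by
  obtain ⟨b, -, -, hb⟩ := exists_bound H
  exact (hb o R D hD.comp).1

theorem F_not {o : V} {R : ℕ} {D : Set V} (hD : Cone Δ o R D) {v : V} (hv : v ∈ fs (oB Δ D)) :
    v ∉ D := ((mem_fs (fin_oB H hD)).1 hv).1

theorem F_disj {o : V} {R : ℕ} {D : Set V} (hD : Cone Δ o R D) {S : Finset V}
    (hS : (↑S : Set V) ⊆ D) : Disjoint S (fs (oB Δ D)) := by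
  rw [Finset.disjoint_left]
  intro v h1 h2
  exact F_not H hD h2 (hS h1)

theorem odo_off {S : Finset V} {χ n : V → ℕ} {q : ℕ} (hχ : ∀ v ∈ S, χ v ≤ r)
    (hn : ∀ v, n v ≤ q) (hn0 : ∀ v ∈ S, n v = 0) {v : V} (hv : v ∉ S) : odo Δ r S χ n v = 0 :=
  (odo_stz (stz_const H.reg hχ hn hn0)).1 v hv

/-- locality of odometers -/
theorem odo_loc {S T F : Finset V} (hT : T ⊆ S) (hSF : Disjoint S F) {χ : V → ℕ} {q : ℕ}
    (hχ : ∀ v ∈ S, χ v ≤ r)
    (hg : ∀ v, v ∉ T → odo Δ r S χ (fun w => if w ∈ F then q else 0) v = 0)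
    {n : V → ℕ} (hn : ∀ v, v ∉ F → n v = 0) (hq : ∀ v, n v ≤ q) :
    odo Δ r S χ n = odo Δ r T (rs T χ) n := by
  have hn0 : ∀ v ∈ S, n v = 0 := fun v hv => hn v (Finset.disjoint_left.1 hSF hv)
  have hle : odo Δ r S χ n ≤ odo Δ r S χ (fun w => if w ∈ F then q else 0) := by
    apply odo_mono H.reg hχ _ le_rfl
    · intro v
      by_cases hv : v ∈ F
      · simpa [hv] using hq v
      · simp [hv, hn v hv]
    · exact ⟨q, fun v => by split_ifs <;> simp⟩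
    · intro v hv
      simp [Finset.disjoint_left.1 hSF hv]
  have hoff : ∀ v, v ∉ T → odo Δ r S χ n v = 0 := fun v hv =>
    Nat.le_zero.1 ((hle v).trans (hg v hv).le)
  have hχT : ∀ v ∈ T, rs T χ v ≤ r := fun v hv => by
    simp only [rs, hv, if_true]; exact hχ v (hT hv)
  have hstz := stz_const H.reg hχ hq hn0
  funext v
  by_cases hv : v ∈ T
  · rw [odo_restrict hT (fun w hw => hn0 w (hT hw)) hstz v hv]
    have e1 : (fun w => if w ∈ T then 0 else n w + odo Δ r S χ n w) = n := by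
      funext w
      by_cases hw : w ∈ T
      · simp [hw, hn0 w (hT hw)]
      · simp [hw, hoff w hw]
    rw [e1]
    exact congrFun (odo_congr (fun w hw => by simp [rs, hw])) v
  · rw [hoff v hv, odo_off H hχT hq (fun w hw => hn0 w (hT hw)) hv]

theorem pr_or (S : Finset V) (P Q : (V → ℕ) → Prop) :
    pr Δ r S (fun χ => P χ ∨ Q χ) ≤ pr Δ r S P + pr Δ r S Q := by
  have h1 := pr_union H S (Finset.univ : Finset Bool) (fun b => if b then P else Q)
  rw [Fintype.sum_bool] at h1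
  refine le_trans (pr_mono H S ?_) h1
  intro χ _ hχ
  rcases hχ with hχ | hχ
  · exact ⟨true, Finset.mem_univ _, by simpa using hχ⟩
  · exact ⟨false, Finset.mem_univ _, by simpa using hχ⟩

/-- the good set -/
theorem good {o : V} {R : ℕ} {D : Set V} (hD : Cone Δ o R D) (q : ℕ) {ε : ℝ} (hε : 0 < ε) :
    ∃ X : Finset V, ∀ S : Finset V, (↑S : Set V) ⊆ D → cut D X ⊆ S →
      pr Δ r S (fun χ => ¬ ((∀ n : V → ℕ, (∀ v, v ∉ fs (oB Δ D) → n v = 0) → (∀ v, n v ≤ q) →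
          odo Δ r S χ n = odo Δ r (cut D X) (rs (cut D X) χ) n ∧
            ∀ v, v ∉ cut D X → odo Δ r S χ n v = 0) ∧
        ∀ U ⊆ fs (oB Δ D), LL Δ S χ U = LL Δ (cut D X) (rs (cut D X) χ) U)) ≤ ε := by
  obtain ⟨X1, hX1⟩ := tw_odo H (fs (oB Δ D)) q (half_pos hε)
  obtain ⟨J, hJ⟩ := tw_LL H (fs (oB Δ D)).card (half_pos hε)
  obtain ⟨T, hT⟩ := fb_bounds H
  have hFfb : (↑(fs (oB Δ D)) : Set V) ⊆ fb Δ o R := by
    intro v hv
    have h1 : v ∈ oB Δ D := (mem_fs (fin_oB H hD)).1 (Finset.mem_coe.1 hv)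
    have h2 : v ∈ sph Δ o R := oB_sub H hD.comp h1
    refine (hT o R).2.1 ?_
    have h3 : Δ.dist o v = R := h2
    show Δ.dist o v ≤ R
    exact h3.le
  refine ⟨X1 ∪ fs (fb Δ o (R + J)), ?_⟩
  intro S hSD hXS
  set X := X1 ∪ fs (fb Δ o (R + J)) with hX
  have hSF := F_disj H hD hSD
  have b1 := hX1 S hSF (fun w => if w ∈ fs (oB Δ D) then q else 0)
    (fun v hv => by simp [hv]) (fun v => by split_ifs <;> simp)
  have b2 := hJ o R S (fs (oB Δ D)) hSF hFfb le_rfl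
  refine le_trans (pr_mono H S ?_) ((pr_or H S _ _).trans
    ((add_le_add b1 b2).trans (by linarith : ε / 2 + ε / 2 ≤ ε)))
  intro χ hχ hbad
  by_contra hcon
  rw [not_or] at hcon
  obtain ⟨hc1, hc2⟩ := hcon
  rw [not_not] at hc2
  push Not at hc1
  apply hbad
  have hχr := rcr_le hχ
  have hoffT : ∀ n : V → ℕ, (∀ v, v ∉ fs (oB Δ D) → n v = 0) → (∀ v, n v ≤ q) →
      (∀ v, v ∉ X1 → odo Δ r S χ n v = 0) → ∀ v, v ∉ cut D X → odo Δ r S χ n v = 0 := by
    intro n hn hq hz v hv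
    by_cases hvS : v ∈ S
    · apply hz v
      intro hvX
      apply hv
      exact Finset.mem_filter.2 ⟨Finset.mem_union_left _ hvX, hSD hvS⟩
    · exact odo_off H hχr hq (fun w hw => hn w (Finset.disjoint_left.1 hSF hw)) hvS
  have hg := hoffT (fun w => if w ∈ fs (oB Δ D) then q else 0)
    (fun v hv => by simp [hv]) (fun v => by split_ifs <;> simp) hc1
  refine ⟨fun n hn hq => ?_, fun U hU => ?_⟩
  · have hL := odo_loc H hXS hSF hχr hg hn hq
    refine ⟨hL, fun v hv => ?_⟩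
    rw [hL]
    refine odo_off H (fun w hw => ?_) hq (fun w hw => ?_) hv
    · simp only [rs, hw, if_true]; exact hχr w (hXS hw)
    · exact hn w (Finset.disjoint_left.1 hSF (hXS hw))
  · have hsub : LL Δ S χ U ⊆ cut D X := by
      intro v hv
      have h1 := LL_mono hU hv
      have h2 : v ∈ fb Δ o (R + J) := hc2 (Finset.mem_coe.2 h1)
      have h3 : v ∈ S := (mem_LL.1 h1).1
      exact Finset.mem_filter.2 ⟨Finset.mem_union_right _ ((mem_fs (hT o (R + J)).1).2 h2), hSD h3⟩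
    rw [LL_restrict hXS hsub]
    exact LL_congr (fun w hw => by simp [rs, hw])

omit [Δ.LocallyFinite] H in
theorem cap_zero {o : V} {R : ℕ} {D : Set V} (_hD : Cone Δ o R D) (q : ℕ) (n : V → ℕ) {v : V}
    (hv : v ∉ fs (oB Δ D)) : cap Δ q D n v = 0 := by
  simp [cap, hv]

omit [Δ.LocallyFinite] H in
theorem cap_le {o : V} {R : ℕ} {D : Set V} (_hD : Cone Δ o R D) (q : ℕ) (n : V → ℕ) (v : V) :
    cap Δ q D n v ≤ q := by
  unfold cap
  split_ifs
  · exact min_le_right _ _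
  · exact Nat.zero_le _

/-- on the good event the state and the size are local -/
theorem good_st {o : V} {R : ℕ} {D : Set V} (hD : Cone Δ o R D) {q q' : ℕ} (hq : q ≤ q')
    {S X : Finset V} {χ : V → ℕ}
    (hg : (∀ n : V → ℕ, (∀ v, v ∉ fs (oB Δ D) → n v = 0) → (∀ v, n v ≤ q') →
          odo Δ r S χ n = odo Δ r (cut D X) (rs (cut D X) χ) n ∧
            ∀ v, v ∉ cut D X → odo Δ r S χ n v = 0) ∧
        ∀ U ⊆ fs (oB Δ D), LL Δ S χ U = LL Δ (cut D X) (rs (cut D X) χ) U) :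
    st Δ r q D S χ = st Δ r q D (cut D X) (rs (cut D X) χ) := by
  unfold st
  refine Prod.ext ?_ ?_
  · funext U
    simp only
    rw [hg.2 (U ∩ fs (oB Δ D)) Finset.inter_subset_right]
  · funext n
    simp only
    rw [(hg.1 (cap Δ q D n) (fun v hv => cap_zero hD q n hv)
      (fun v => (cap_le hD q n v).trans hq)).1]

theorem good_sz {D : Set V} {q' : ℕ}
    {S X : Finset V} (hXS : cut D X ⊆ S) {χ : V → ℕ}
    (hg : (∀ n : V → ℕ, (∀ v, v ∉ fs (oB Δ D) → n v = 0) → (∀ v, n v ≤ q') →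
          odo Δ r S χ n = odo Δ r (cut D X) (rs (cut D X) χ) n ∧
            ∀ v, v ∉ cut D X → odo Δ r S χ n v = 0) ∧
        ∀ U ⊆ fs (oB Δ D), LL Δ S χ U = LL Δ (cut D X) (rs (cut D X) χ) U)
    {n : V → ℕ} (hn : ∀ v, v ∉ fs (oB Δ D) → n v = 0) (hq : ∀ v, n v ≤ q') :
    sz Δ r S χ n = sz Δ r (cut D X) (rs (cut D X) χ) n ∧ sz Δ r S χ n ≤ (cut D X).card := by
  obtain ⟨h1, h2⟩ := hg.1 n hn hq
  have h3 : sz Δ r S χ n = sz Δ r (cut D X) (rs (cut D X) χ) n := by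
    unfold sz
    congr 1
    ext v
    rw [Finset.mem_filter, Finset.mem_filter, ← h1]
    constructor
    · rintro ⟨hv, hne⟩
      exact ⟨by_contra fun hc => hne (h2 v hc), hne⟩
    · rintro ⟨hv, hne⟩
      exact ⟨hXS hv, hne⟩
  refine ⟨h3, ?_⟩
  rw [h3]
  exact Finset.card_filter_le _ _

theorem bdd {o : V} {R : ℕ} {D : Set V} (hD : Cone Δ o R D) {n : V → ℕ}
    (hn : ∀ v, v ∉ oB Δ D → n v = 0) (q : ℕ) : ∃ q', q ≤ q' ∧ ∀ v, n v ≤ q' := by
  refine ⟨q + ∑ v ∈ fs (oB Δ D), n v, Nat.le_add_right _ _, fun v => ?_⟩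
  by_cases hv : v ∈ fs (oB Δ D)
  · exact (Finset.single_le_sum (fun _ _ => Nat.zero_le _) hv).trans (Nat.le_add_left _ _)
  · rw [hn v (fun hc => hv ((mem_fs (fin_oB H hD)).2 hc))]
    exact Nat.zero_le _

theorem pr_true (S : Finset V) {P : (V → ℕ) → Prop} (hP : ∀ χ ∈ rcr Δ r S, P χ) :
    pr Δ r S P = 1 := by
  unfold pr
  rw [Finset.filter_true_of_mem hP]
  have := NN_pos H S
  unfold NNr NN at this ⊢
  exact div_self (by exact_mod_cast this.ne')

theorem pr_false (S : Finset V) {P : (V → ℕ) → Prop} (hP : ∀ χ ∈ rcr Δ r S, ¬ P χ) :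
    pr Δ r S P = 0 := by
  unfold pr
  rw [Finset.filter_false_of_mem hP]
  simp

theorem pr_congr (S : Finset V) {P Q : (V → ℕ) → Prop} (hP : ∀ χ ∈ rcr Δ r S, P χ ↔ Q χ) :
    pr Δ r S P = pr Δ r S Q :=
  le_antisymm (pr_mono H S fun χ hχ => (hP χ hχ).1) (pr_mono H S fun χ hχ => (hP χ hχ).2)

/-- additivity over the values of a function -/
theorem pr_sum (S : Finset V) {β : Type} (f : (V → ℕ) → β) (B : Finset β) (P : (V → ℕ) → Prop) :
    ∑ b ∈ B, pr Δ r S (fun χ => P χ ∧ f χ = b) = pr Δ r S (fun χ => P χ ∧ f χ ∈ B) := by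
  unfold pr
  rw [← Finset.sum_div]
  congr 1
  have h1 : ((rcr Δ r S).filter fun χ => P χ ∧ f χ ∈ B).card =
      ∑ b ∈ B, ((rcr Δ r S).filter fun χ => P χ ∧ f χ = b).card := by
    rw [Finset.card_eq_sum_card_fiberwise (f := f) (t := B)]
    · apply Finset.sum_congr rfl
      intro b hb
      congr 1
      ext χ
      simp only [Finset.mem_filter]
      constructor
      · rintro ⟨⟨h1, h2, -⟩, h4⟩
        exact ⟨h1, h2, h4⟩
      · rintro ⟨h1, h2, h3⟩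
        exact ⟨⟨h1, h2, h3 ▸ hb⟩, h3⟩
    · intro χ hχ
      exact (Finset.mem_filter.1 (Finset.mem_coe.1 hχ)).2.2
  have h2 : (((rcr Δ r S).filter fun χ => P χ ∧ f χ ∈ B).card : ℝ) =
      ∑ b ∈ B, (((rcr Δ r S).filter fun χ => P χ ∧ f χ = b).card : ℝ) := by
    rw [h1]; push_cast; rfl
  convert h2.symm using 3
  · congr 1
    ext χ
    simp only [Finset.mem_filter]
  · ext χ
    simp only [Finset.mem_filter]


end T

section S2
variable {r : ℕ}

theorem ST2_mem_mvf (φ : Δ ≃g Δ) (S : Finset V) (v : V) : v ∈ mvf Δ φ S ↔ φ.symm v ∈ S := by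
  unfold mvf
  rw [Finset.mem_map]
  constructor
  · rintro ⟨w, hw, rfl⟩
    change φ.symm (φ w) ∈ S
    rwa [RelIso.symm_apply_apply]
  · intro hv
    exact ⟨φ.symm v, hv, φ.apply_symm_apply v⟩

theorem ST2_mvf_symm (φ : Δ ≃g Δ) (S : Finset V) : mvf Δ φ (mvf Δ φ.symm S) = S := by
  ext v
  rw [ST2_mem_mvf, ST2_mem_mvf]
  change φ (φ.symm v) ∈ S ↔ _
  rw [RelIso.apply_symm_apply]

theorem ST2_symm_mvf (φ : Δ ≃g Δ) (S : Finset V) : mvf Δ φ.symm (mvf Δ φ S) = S := by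
  ext v
  rw [ST2_mem_mvf, ST2_mem_mvf]
  change φ.symm (φ v) ∈ S ↔ _
  rw [RelIso.symm_apply_apply]

theorem ST2_mvf_inter (φ : Δ ≃g Δ) (S T : Finset V) :
    mvf Δ φ (S ∩ T) = mvf Δ φ S ∩ mvf Δ φ T := by
  ext v
  rw [Finset.mem_inter, ST2_mem_mvf, ST2_mem_mvf, ST2_mem_mvf, Finset.mem_inter]

theorem ST2_mvc_symm (φ : Δ ≃g Δ) (x : V → ℕ) : mvc Δ φ (mvc Δ φ.symm x) = x := by
  funext v
  change x (φ (φ.symm v)) = x v
  rw [RelIso.apply_symm_apply]

theorem ST2_symm_mvc (φ : Δ ≃g Δ) (x : V → ℕ) : mvc Δ φ.symm (mvc Δ φ x) = x := by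
  funext v
  change x (φ.symm (φ v)) = x v
  rw [RelIso.symm_apply_apply]

theorem ST2_rs (φ : Δ ≃g Δ) (S : Finset V) (x : V → ℕ) :
    rs (mvf Δ φ S) (mvc Δ φ x) = mvc Δ φ (rs S x) := by
  funext v
  by_cases hv : φ.symm v ∈ S
  · have h1 := (ST2_mem_mvf φ S v).2 hv
    simp [rs, mvc, hv, h1]
  · have h1 : v ∉ mvf Δ φ S := fun h => hv ((ST2_mem_mvf φ S v).1 h)
    simp [rs, mvc, hv, h1]

theorem ST2_cap (φ : Δ ≃g Δ) (q : ℕ) (D : Set V) (n : V → ℕ) :
    cap Δ q (φ '' D) n = mvc Δ φ (cap Δ q D (mvc Δ φ.symm n)) := by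
  funext w
  unfold cap
  rw [mvf_oB, mvf_fs]
  by_cases hv : φ.symm w ∈ fs (oB Δ D)
  · have h1 := (ST2_mem_mvf φ _ w).2 hv
    rw [if_pos h1]
    change _ = if φ.symm w ∈ fs (oB Δ D) then min (n (φ (φ.symm w))) q else 0
    rw [if_pos hv, RelIso.apply_symm_apply]
  · have h1 : w ∉ mvf Δ φ (fs (oB Δ D)) := fun h => hv ((ST2_mem_mvf φ _ w).1 h)
    rw [if_neg h1]
    change _ = if φ.symm w ∈ fs (oB Δ D) then min (n (φ (φ.symm w))) q else 0
    rw [if_neg hv]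

theorem ST2_st (φ : Δ ≃g Δ) (q : ℕ) (D : Set V) (S : Finset V) (χ : V → ℕ) :
    st Δ r q (φ '' D) (mvf Δ φ S) (mvc Δ φ χ) = mvs Δ φ (st Δ r q D S χ) := by
  unfold st mvs
  refine Prod.ext ?_ ?_
  · funext U
    change LL Δ (mvf Δ φ S) (mvc Δ φ χ) (U ∩ fs (oB Δ (φ '' D))) ∩ fs (iB Δ (φ '' D)) =
      mvf Δ φ (LL Δ S χ (mvf Δ φ.symm U ∩ fs (oB Δ D)) ∩ fs (iB Δ D))
    rw [mvf_oB, mvf_iB, mvf_fs, mvf_fs, ST2_mvf_inter, ← mvf_LL, ST2_mvf_inter, ST2_mvf_symm]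
  · funext n
    change rs (fs (iB Δ (φ '' D))) (odo Δ r (mvf Δ φ S) (mvc Δ φ χ) (cap Δ q (φ '' D) n)) =
      mvc Δ φ (rs (fs (iB Δ D)) (odo Δ r S χ (cap Δ q D (mvc Δ φ.symm n))))
    rw [ST2_cap, mvf_odo, mvf_iB, mvf_fs, ST2_rs]

theorem ST2_mvs_inj (φ : Δ ≃g Δ) {σ τ : St V} (h : mvs Δ φ σ = mvs Δ φ τ) : σ = τ := by
  have key : ∀ ρ : St V, mvs Δ φ.symm (mvs Δ φ ρ) = ρ := by
    intro ρ
    refine Prod.ext ?_ ?_
    · funext U
      change mvf Δ φ.symm (mvf Δ φ (ρ.1 (mvf Δ φ.symm (mvf Δ φ U)))) = ρ.1 U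
      rw [ST2_symm_mvf, ST2_symm_mvf]
    · funext n
      change mvc Δ φ.symm (mvc Δ φ (ρ.2 (mvc Δ φ.symm (mvc Δ φ n)))) = ρ.2 n
      rw [ST2_symm_mvc, ST2_symm_mvc]
  rw [← key σ, h, key]


end S2

section R
variable {r : ℕ} {h : ℝ} {D0 : ℕ} (H : Hyp Δ r h D0)
include H

/-! ### REC4 -/

theorem gen_sub {o : V} {R : ℕ} {D : Set V} (hD : Cone Δ o R D) {k : ℕ} {E : Set V}
    (hE : E ∈ gen Δ k D) : Cone Δ o (R + k) E ∧ E ⊆ D := (mem_gen H hD).1 hE

theorem be_tendsto {o : V} {R : ℕ} {D : Set V} (hD : Cone Δ o R D) (q : ℕ) (σ : St V) {n : V → ℕ}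
    (hn : ∀ v, v ∉ oB Δ D → n v = 0) {k : ℕ} {E : Set V} (_hE : E ∈ gen Δ k D) :
    Tendsto (fun G : Finset V => pr Δ r (cut D G)
      (fun χ => st Δ r q D (cut D G) χ = σ ∧ ∃ v ∈ iB Δ E, odo Δ r (cut D G) χ n v ≠ 0)) atTop
      (𝓝 (be Δ r q D σ n E)) := by
  obtain ⟨q', hqq, hq'⟩ := bdd H hD hn q
  have hn' : ∀ v, v ∉ fs (oB Δ D) → n v = 0 := fun v hv =>
    hn v (fun hc => hv ((mem_fs (fin_oB H hD)).2 hc))
  obtain ⟨ℓ, hℓ⟩ := lm_local H D (fun S χ => st Δ r q D S χ = σ ∧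
      ∃ v ∈ iB Δ E, odo Δ r S χ n v ≠ 0) (by
    intro ε hε
    obtain ⟨X, hX⟩ := good H hD q' hε
    refine ⟨cut D X, fun η => st Δ r q D (cut D X) η = σ ∧
      ∃ v ∈ iB Δ E, odo Δ r (cut D X) η n v ≠ 0, cut_sub, ?_⟩
    filter_upwards [eventually_ge_atTop X] with G hG
    have hXG : cut D X ⊆ cut D G := cut_mono hG
    refine le_trans (pr_mono H _ ?_) (hX (cut D G) cut_sub hXG)
    intro χ _ hbad hg
    apply hbad
    rw [good_st H hD hqq hg, (hg.1 n hn' hq').1])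
  have h1 : be Δ r q D σ n E = ℓ := by
    unfold be
    exact hℓ.limUnder_eq
  rw [h1]
  exact hℓ

/-- additivity over the values of a function -/
theorem pr_sum' (S : Finset V) {β : Type} (f : (V → ℕ) → β) (B : Finset β) (P : (V → ℕ) → Prop)
    (hf : ∀ χ ∈ rcr Δ r S, P χ → f χ ∈ B) :
    pr Δ r S P = ∑ b ∈ B, pr Δ r S (fun χ => P χ ∧ f χ = b) := by
  rw [pr_sum H S f B P]
  exact pr_congr H S fun χ hχ => ⟨fun hp => ⟨hp, hf χ hχ hp⟩, fun hp => hp.1⟩

theorem gwn_congr (C : Set V) (ξ n : V → ℕ) {s s' : Set V → St V}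
    (hs : ∀ D ∈ chd Δ C, s D = s' D) : gwn Δ r C ξ n s = gwn Δ r C ξ n s' := by
  have hR : ∀ w, rsp (chd Δ C) s w = rsp (chd Δ C) s' w := fun w => by
    funext v
    exact Finset.sum_congr rfl fun D hD => by rw [hs D hD]
  funext v
  change sInf _ = sInf _
  simp only [gStz, hR]

theorem gst_congr (q : ℕ) (C : Set V) (ξ : V → ℕ) {s s' : Set V → St V}
    (hs : ∀ D ∈ chd Δ C, s D = s' D) : gst Δ r q C ξ s = gst Δ r q C ξ s' := by
  have hL : ∀ W, rsL (chd Δ C) s W = rsL (chd Δ C) s' W := fun W =>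
    Finset.biUnion_congr rfl fun D hD => by rw [hs D hD]
  unfold gst
  refine Prod.ext ?_ ?_
  · simp only [gL, hL]
  · funext n
    change rs _ (gwn Δ r C ξ _ s) = rs _ (gwn Δ r C ξ _ s')
    rw [gwn_congr H C ξ _ hs]

theorem rs_mem_stab {S B : Finset V} (hB : B ⊆ S) {χ : V → ℕ} (hχ : χ ∈ rcr Δ r S) :
    rs B χ ∈ stab B (fun _ => r) := by
  unfold rcr rc at hχ
  rw [Finset.mem_filter, mem_stab] at hχ
  rw [mem_stab]
  refine ⟨fun v hv => ?_, fun v hv => ?_⟩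
  · simp only [rs, hv, if_true]
    exact hχ.1.1 v (hB hv)
  · simp [rs, hv]

end R
section R2
variable {r : ℕ} {h : ℝ} {D0 : ℕ} (H : Hyp Δ r h D0)
include H

theorem rec_be {o : V} {R : ℕ} {C : Set V} (hC : Cone Δ o R C) (q : ℕ) (σ : St V) {n : V → ℕ}
    (hn : ∀ v, v ∉ oB Δ C → n v = 0) (hq : ∀ v, n v ≤ q) {D : Set V} (hD : D ∈ chd Δ C) {k : ℕ}
    {E : Set V} (hE : E ∈ gen Δ k D) :
    be Δ r q C σ n E = cst Δ r (core Δ C) C * ∑ ξ ∈ stab (core Δ C) (fun _ => r),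
      ∑ s ∈ fst Δ r q (chd Δ C), if gC Δ (core Δ C) (chd Δ C) ξ s ∧ gst Δ r q C ξ s = σ then
        be Δ r q D (s D) (rs (fs (oB Δ D)) (gwn Δ r C ξ n s)) E *
          ∏ D' ∈ (chd Δ C).erase D, al0 Δ r q D' (s D')
        else 0 := by
  have hDc : Cone Δ o (R + 1) D ∧ D ⊆ C := (mem_chd H hC).1 hD
  have hEc := gen_sub H hDc.1 hE
  have hEC : E ∈ gen Δ (k + 1) C := Finset.mem_biUnion.2 ⟨D, hD, hE⟩
  obtain ⟨hdec, hreg, hiB⟩ := cone_dec H hC
  have hcone : ∀ D' ∈ chd Δ C, Cone Δ o (R + 1) D' := fun D' hD' => ((mem_chd H hC).1 hD').1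
  -- the events
  set ev : (V → ℕ) → (Set V → St V) → Finset V → (V → ℕ) → Prop := fun ξ s G χ =>
    rs (core Δ C) χ = ξ ∧ ∀ D' ∈ chd Δ C, st Δ r q D' (cut D' G) χ = s D' ∧
      (D' = D → ∃ v ∈ iB Δ E, odo Δ r (cut D' G) (rs (cut D' G) χ)
        (rs (fs (oB Δ D)) (gwn Δ r C ξ n s)) v ≠ 0) with hev
  have hlim : ∀ ξ ∈ stab (core Δ C) (fun _ => r), ∀ s : Set V → St V,
      Tendsto (fun G : Finset V => pr Δ r (cut C G) (ev ξ s G)) atTop
      (𝓝 (cst Δ r (core Δ C) C * if gC Δ (core Δ C) (chd Δ C) ξ s then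
        be Δ r q D (s D) (rs (fs (oB Δ D)) (gwn Δ r C ξ n s)) E *
          ∏ D' ∈ (chd Δ C).erase D, al0 Δ r q D' (s D') else 0)) := by
    intro ξ hξ s
    have h1 := rec_gen H hdec q hξ s
      (fun D' S η => D' = D → ∃ v ∈ iB Δ E, odo Δ r S η
        (rs (fs (oB Δ D)) (gwn Δ r C ξ n s)) v ≠ 0)
      (fun D' => if D' = D then be Δ r q D (s D) (rs (fs (oB Δ D)) (gwn Δ r C ξ n s)) E
        else al0 Δ r q D' (s D')) (by
      intro D' hD'
      by_cases hDD : D' = D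
      · subst hDD
        rw [if_pos rfl]
        have h2 := be_tendsto H (hcone D' hD') q (s D')
          (n := rs (fs (oB Δ D')) (gwn Δ r C ξ n s)) (by
            intro v hv
            have : v ∉ fs (oB Δ D') := fun hc => hv ((mem_fs (fin_oB H (hcone D' hD'))).1 hc)
            simp [rs, this]) hE
        refine h2.congr fun G => ?_
        exact pr_congr H _ fun χ _ => ⟨fun hx => ⟨hx.1, fun _ => hx.2⟩, fun hx => ⟨hx.1, hx.2 rfl⟩⟩
      · rw [if_neg hDD]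
        refine (al0_tendsto H (hcone D' hD') q (s D')).congr fun G => ?_
        exact pr_congr H _ fun χ _ => ⟨fun hx => ⟨hx, fun hc => absurd hc hDD⟩, fun hx => hx.1⟩)
    rw [hreg] at h1
    have h3 : ∏ D' ∈ chd Δ C, (if D' = D then be Δ r q D (s D) (rs (fs (oB Δ D)) (gwn Δ r C ξ n s)) E
        else al0 Δ r q D' (s D')) = be Δ r q D (s D) (rs (fs (oB Δ D)) (gwn Δ r C ξ n s)) E *
          ∏ D' ∈ (chd Δ C).erase D, al0 Δ r q D' (s D') := by
      rw [← Finset.mul_prod_erase _ _ hD, if_pos rfl]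
      congr 1
      exact Finset.prod_congr rfl fun D' hD' => if_neg (Finset.ne_of_mem_erase hD')
    rw [h3] at h1
    exact h1
  have hsum : Tendsto (fun G : Finset V => ∑ ξ ∈ stab (core Δ C) (fun _ => r),
      ∑ s ∈ fst Δ r q (chd Δ C), if gst Δ r q C ξ s = σ then pr Δ r (cut C G) (ev ξ s G) else 0) atTop
      (𝓝 (cst Δ r (core Δ C) C * ∑ ξ ∈ stab (core Δ C) (fun _ => r),
      ∑ s ∈ fst Δ r q (chd Δ C), if gC Δ (core Δ C) (chd Δ C) ξ s ∧ gst Δ r q C ξ s = σ then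
        be Δ r q D (s D) (rs (fs (oB Δ D)) (gwn Δ r C ξ n s)) E *
          ∏ D' ∈ (chd Δ C).erase D, al0 Δ r q D' (s D')
        else 0)) := by
    rw [Finset.mul_sum]
    refine tendsto_finsetSum _ fun ξ hξ => ?_
    rw [Finset.mul_sum]
    refine tendsto_finsetSum _ fun s _ => ?_
    by_cases hg : gst Δ r q C ξ s = σ
    · simp only [hg, if_true, and_true]
      exact hlim ξ hξ s
    · simp only [hg, if_false, and_false, mul_zero]
      exact tendsto_const_nhds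
  refine tendsto_nhds_unique (be_tendsto H hC q σ hn hEC) (hsum.congr' ?_)
  filter_upwards [eventually_ge_atTop (core Δ C)] with G hG
  have hcG : core Δ C ⊆ cut C G := fun v hv =>
    Finset.mem_filter.2 ⟨hG hv, ((mem_core H hC).1 hv).1⟩
  symm
  -- the default state
  set dflt : St V := (fun _ => ∅, fun _ => 0) with hdflt
  set F : (V → ℕ) → (Set V → St V) := fun χ D' =>
    if D' ∈ chd Δ C then st Δ r q D' (cut D' (cut C G)) χ else dflt with hF
  have hcutcut : ∀ D' ∈ chd Δ C, cut D' (cut C G) = cut D' G := by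
    intro D' hD'
    ext v
    simp only [cut, Finset.mem_filter]
    constructor
    · rintro ⟨⟨h1, -⟩, h3⟩
      exact ⟨h1, h3⟩
    · rintro ⟨h1, h3⟩
      exact ⟨⟨h1, ((mem_chd H hC).1 hD').2 h3⟩, h3⟩
  have hFs : ∀ χ, ∀ D' ∈ chd Δ C, sts Δ r q (cut C G) χ D' = F χ D' := by
    intro χ D' hD'
    simp only [hF, if_pos hD']
    rfl
  have hFs' : ∀ χ, ∀ D' ∈ chd Δ C, st Δ r q D' (cut D' G) χ = F χ D' := by
    intro χ D' hD'
    simp only [hF, if_pos hD', hcutcut D' hD']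
  have hrc : ∀ χ ∈ rcr Δ r (cut C G), ∀ D' ∈ chd Δ C,
      rs (cut D' G) χ ∈ rcr Δ r (cut D' G) := by
    intro χ hχ D' hD'
    have hχ0 : ∀ v, v ∉ cut C G → χ v = 0 := by
      unfold rcr rc at hχ
      rw [Finset.mem_filter, mem_stab] at hχ
      exact hχ.1.2
    have h1 := (glue_rc H.reg hdec q hcG (by rw [hreg]; exact cut_sub) hχ0).1 hχ
    have h2 := h1.2.1 D' hD'
    rwa [hcutcut D' hD'] at h2
  have hFmem : ∀ χ ∈ rcr Δ r (cut C G), F χ ∈ fst Δ r q (chd Δ C) := by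
    intro χ hχ
    unfold fst
    rw [mem_fpi]
    refine ⟨fun D' hD' => ?_, fun D' hD' => ?_⟩
    · simp only [hF, if_pos hD']
      rw [hcutcut D' hD']
      have h2 := mem_stF H (hcone D' hD') q G (hrc χ hχ D' hD')
      have h3 : st Δ r q D' (cut D' G) (rs (cut D' G) χ) = st Δ r q D' (cut D' G) χ := by
        unfold st
        refine Prod.ext ?_ ?_
        · funext U
          simp only
          rw [LL_congr (χ := rs (cut D' G) χ) (χ' := χ) (fun w hw => by simp [rs, hw])]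
        · funext m
          simp only
          rw [odo_congr (χ := rs (cut D' G) χ) (χ' := χ) (fun w hw => by simp [rs, hw])]
      rwa [h3] at h2
    · simp only [hF, if_neg hD', hdflt]
  have e1 : pr Δ r (cut C G) (fun χ => st Δ r q C (cut C G) χ = σ ∧
      ∃ v ∈ iB Δ E, odo Δ r (cut C G) χ n v ≠ 0) =
      ∑ ξ ∈ stab (core Δ C) (fun _ => r), ∑ s ∈ fst Δ r q (chd Δ C),
        pr Δ r (cut C G) (fun χ => ((st Δ r q C (cut C G) χ = σ ∧
          ∃ v ∈ iB Δ E, odo Δ r (cut C G) χ n v ≠ 0) ∧ rs (core Δ C) χ = ξ) ∧ F χ = s) := by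
    rw [pr_sum' H (cut C G) (fun χ => rs (core Δ C) χ) (stab (core Δ C) (fun _ => r)) _
      (fun χ hχ _ => rs_mem_stab H hcG hχ)]
    refine Finset.sum_congr rfl fun ξ _ => ?_
    rw [pr_sum' H (cut C G) F (fst Δ r q (chd Δ C)) _ (fun χ hχ _ => hFmem χ hχ)]
  rw [e1]
  refine Finset.sum_congr rfl fun ξ hξ => Finset.sum_congr rfl fun s hs => ?_
  have hs' := mem_fpi.1 hs
  -- the key equivalences
  have hst : ∀ χ ∈ rcr Δ r (cut C G), rs (core Δ C) χ = ξ → F χ = s →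
      st Δ r q C (cut C G) χ = gst Δ r q C ξ s := by
    intro χ hχ h1 h2
    rw [st_glue H hC q hG hχ, h1]
    exact gst_congr H q C ξ fun D' hD' => by rw [hFs χ D' hD', h2]
  have hodo : ∀ χ ∈ rcr Δ r (cut C G), rs (core Δ C) χ = ξ → F χ = s → ∀ v ∈ D,
      odo Δ r (cut C G) χ n v = odo Δ r (cut D G) (rs (cut D G) χ)
        (rs (fs (oB Δ D)) (gwn Δ r C ξ n s)) v := by
    intro χ hχ h1 h2 v hv
    rw [(odo_glue H hC hG hχ hn hq).2.1 D hD v hv, h1,
      gwn_congr H C ξ n (s := sts Δ r q (cut C G) χ) (s' := s)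
        (fun D' hD' => by rw [hFs χ D' hD', h2])]
    exact congrFun (odo_congr (fun w hw => by simp [rs, hw])) v
  by_cases hg : gst Δ r q C ξ s = σ
  · rw [if_pos hg]
    apply pr_congr H
    intro χ hχ
    constructor
    · rintro ⟨⟨⟨h1, v, hv, hne⟩, h2⟩, h3⟩
      refine ⟨h2, fun D' hD' => ⟨by rw [hFs' χ D' hD', h3], ?_⟩⟩
      rintro rfl
      refine ⟨v, hv, ?_⟩
      rw [← hodo χ hχ h2 h3 v (hEc.2 hv.1)]
      exact hne
    · rintro ⟨h2, h4⟩
      have h3 : F χ = s := by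
        funext D'
        by_cases hD' : D' ∈ chd Δ C
        · rw [← hFs' χ D' hD']
          exact (h4 D' hD').1
        · rw [hs'.2 D' hD']
          simp only [hF, if_neg hD', hdflt]
      obtain ⟨v, hv, hne⟩ := (h4 D hD).2 rfl
      refine ⟨⟨⟨by rw [hst χ hχ h2 h3, hg], v, hv, ?_⟩, h2⟩, h3⟩
      rw [hodo χ hχ h2 h3 v (hEc.2 hv.1)]
      exact hne
  · rw [if_neg hg]
    apply pr_false H
    rintro χ hχ ⟨⟨⟨h1, -⟩, h2⟩, h3⟩
    exact hg (by rw [← hst χ hχ h2 h3, h1])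

end R2
section R3
variable {r : ℕ} {h : ℝ} {D0 : ℕ} (H : Hyp Δ r h D0)
include H

theorem cap_eq {o : V} {R : ℕ} {D : Set V} (hD : Cone Δ o R D) {q : ℕ} {n : V → ℕ}
    (hn : ∀ v, v ∉ oB Δ D → n v = 0) (hq : ∀ v, n v ≤ q) : cap Δ q D n = n := by
  funext v
  unfold cap
  by_cases hv : v ∈ fs (oB Δ D)
  · rw [if_pos hv, min_eq_left (hq v)]
  · rw [if_neg hv, hn v (fun hc => hv ((mem_fs (fin_oB H hD)).2 hc))]

/-- the response vanishes iff nothing topples on the inner boundary -/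
theorem resp_zero {o : V} {R : ℕ} {D : Set V} (hD : Cone Δ o R D) {q : ℕ} {n : V → ℕ}
    (hn : ∀ v, v ∉ oB Δ D → n v = 0) (hq : ∀ v, n v ≤ q) (S : Finset V) (χ : V → ℕ) :
    (st Δ r q D S χ).2 n = 0 ↔ ∀ v ∈ iB Δ D, odo Δ r S χ n v = 0 := by
  have h1 : (st Δ r q D S χ).2 n = rs (fs (iB Δ D)) (odo Δ r S χ n) := by
    unfold st
    simp only
    rw [cap_eq H hD hn hq]
  rw [h1]
  constructor
  · intro h2 v hv
    have h3 := congrFun h2 v
    simpa [rs, (mem_fs (fin_iB H hD)).2 hv] using h3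
  · intro h2
    funext v
    by_cases hv : v ∈ fs (iB Δ D)
    · have := h2 v ((mem_fs (fin_iB H hD)).1 hv)
      simp [rs, this]
    · simp [rs, hv]

theorem be_self {o : V} {R : ℕ} {C : Set V} (hC : Cone Δ o R C) (q : ℕ) (σ : St V) {n : V → ℕ}
    (hn : ∀ v, v ∉ oB Δ C → n v = 0) (hq : ∀ v, n v ≤ q) :
    be Δ r q C σ n C = if σ.2 n = 0 then 0 else al0 Δ r q C σ := by
  have hT := be_tendsto H hC q σ hn (k := 0) (E := C) (by simp [gen])
  by_cases h0 : σ.2 n = 0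
  · rw [if_pos h0]
    have h2 : ∀ G : Finset V, pr Δ r (cut C G) (fun χ => st Δ r q C (cut C G) χ = σ ∧
        ∃ v ∈ iB Δ C, odo Δ r (cut C G) χ n v ≠ 0) = 0 := by
      intro G
      apply pr_false H
      rintro χ _ ⟨h1, v, hv, hne⟩
      rw [← h1, resp_zero H hC hn hq] at h0
      exact hne (h0 v hv)
    simp only [h2] at hT
    exact tendsto_nhds_unique hT tendsto_const_nhds
  · rw [if_neg h0]
    refine tendsto_nhds_unique hT ((al0_tendsto H hC q σ).congr fun G => ?_)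
    apply pr_congr H
    intro χ _
    constructor
    · intro h1
      refine ⟨h1, ?_⟩
      by_contra hcon
      push Not at hcon
      apply h0
      rw [← h1, resp_zero H hC hn hq]
      exact hcon
    · exact fun h1 => h1.1

/-- if the response vanishes, nothing topples -/
theorem dead {o : V} {R : ℕ} {D : Set V} (hD : Cone Δ o R D) (q : ℕ) {n : V → ℕ}
    (hn : ∀ v, v ∉ oB Δ D → n v = 0) (hq : ∀ v, n v ≤ q) (G : Finset V) {χ : V → ℕ}
    (hχ : χ ∈ rcr Δ r (cut D G)) (h0 : (st Δ r q D (cut D G) χ).2 n = 0) (v : V) :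
    odo Δ r (cut D G) χ n v = 0 := by
  have hχr := rcr_le hχ
  have hn0 : ∀ v ∈ cut D G, n v = 0 := fun v hv => hn v (fun hc =>
    hc.1 (cut_sub hv))
  have hst := odo_stz (stz_const H.reg hχr hq hn0)
  have hI := (resp_zero H hD hn hq (cut D G) χ).1 h0
  have hz : Stz Δ r (cut D G) χ n (fun _ => 0) := by
    refine ⟨fun _ _ => rfl, fun v hv => ?_⟩
    have e0 : inc Δ v (fun _ => 0) = 0 := by simp [inc]
    rw [e0]
    by_cases hvI : v ∈ iB Δ D
    · have h1 := hst.2 v hv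
      rw [hI v hvI] at h1
      simp only [mul_zero, add_zero] at h1 ⊢
      omega
    · have e1 : inc Δ v n = 0 := by
        unfold inc
        apply Finset.sum_eq_zero
        intro w hw
        apply hn w
        intro hwB
        apply hvI
        refine ⟨cut_sub hv, w, hwB.1, ?_⟩
        simpa using hw
      rw [e1]
      have := hχr v hv
      simp only [mul_zero, add_zero]
      exact this
  exact Nat.le_zero.1 (odo_le hz v)

theorem be_dead {o : V} {R : ℕ} {C : Set V} (hC : Cone Δ o R C) (q : ℕ) (σ : St V) {n : V → ℕ}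
    (hn : ∀ v, v ∉ oB Δ C → n v = 0) (hq : ∀ v, n v ≤ q) (h0 : σ.2 n = 0) {k : ℕ} {E : Set V}
    (hE : E ∈ gen Δ k C) : be Δ r q C σ n E = 0 := by
  have hT := be_tendsto H hC q σ hn hE
  have h2 : ∀ G : Finset V, pr Δ r (cut C G) (fun χ => st Δ r q C (cut C G) χ = σ ∧
      ∃ v ∈ iB Δ E, odo Δ r (cut C G) χ n v ≠ 0) = 0 := by
    intro G
    apply pr_false H
    rintro χ hχ ⟨h1, v, hv, hne⟩
    rw [← h1] at h0
    exact hne (dead H hC q hn hq G hχ h0 v)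
  simp only [h2] at hT
  exact tendsto_nhds_unique hT tendsto_const_nhds

theorem be_bound (q : ℕ) : ∃ K : ℝ, ∀ (o : V) (R : ℕ) (C : Set V), Cone Δ o R C → ∀ (σ : St V) (n : V → ℕ),
    (∀ v, v ∉ oB Δ C → n v = 0) → (∀ v, n v ≤ q) → ∀ k : ℕ, ∑ E ∈ gen Δ k C, be Δ r q C σ n E ≤ K := by
  obtain ⟨b, hb1, hrb, hb⟩ := exists_bound H
  obtain ⟨K, hK⟩ := gr_sphere Δ H
  refine ⟨b * ((r * q : ℕ) * max K 0), ?_⟩
  intro o R C hC σ n hn hq k
  have hcard : (fs (iB Δ C)).card ≤ b := (hb o R C hC.comp).2.2.1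
  have hsfin : ∀ j, (sph Δ o j).Finite := fun j =>
    (cb_finite (Δ := Δ) H o j).subset (fun v hv => le_of_eq (show Δ.dist o v = j from hv))
  have hlim : Tendsto (fun G : Finset V => ∑ E ∈ gen Δ k C, pr Δ r (cut C G)
      (fun χ => st Δ r q C (cut C G) χ = σ ∧ ∃ v ∈ iB Δ E, odo Δ r (cut C G) χ n v ≠ 0)) atTop
      (𝓝 (∑ E ∈ gen Δ k C, be Δ r q C σ n E)) :=
    tendsto_finsetSum _ fun E hE => be_tendsto H hC q σ hn hE
  refine le_of_tendsto' hlim fun G => ?_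
  have hcone : ∀ E ∈ gen Δ k C, Cone Δ o (R + k) E ∧ E ⊆ C := fun E hE => (mem_gen H hC).1 hE
  have hfin : ∀ E ∈ gen Δ k C, (iB Δ E).Finite := fun E hE => fin_iB H (hcone E hE).1
  have hn0 : ∀ v ∈ cut C G, n v = 0 := fun v hv => hn v (fun hc => hc.1 (cut_sub hv))
  -- Markov
  have h1 : ∀ v : V, pr Δ r (cut C G) (fun χ => odo Δ r (cut C G) χ n v ≠ 0) ≤
      ex Δ r (cut C G) (fun χ => (odo Δ r (cut C G) χ n v : ℝ)) := by
    intro v
    have h2 := markov H (cut C G) (fun χ => (odo Δ r (cut C G) χ n v : ℝ))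
      (fun χ _ => Nat.cast_nonneg _) one_pos
    rw [div_one] at h2
    refine le_trans (pr_mono H _ fun χ _ hne => ?_) h2
    have : 1 ≤ odo Δ r (cut C G) χ n v := Nat.one_le_iff_ne_zero.2 hne
    exact_mod_cast this
  have h2 : ∀ E ∈ gen Δ k C, pr Δ r (cut C G)
      (fun χ => st Δ r q C (cut C G) χ = σ ∧ ∃ v ∈ iB Δ E, odo Δ r (cut C G) χ n v ≠ 0) ≤
      ∑ v ∈ fs (iB Δ E), ex Δ r (cut C G) (fun χ => (odo Δ r (cut C G) χ n v : ℝ)) := by
    intro E hE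
    have h3 := pr_union H (cut C G) (fs (iB Δ E)) (fun v χ => odo Δ r (cut C G) χ n v ≠ 0)
    refine le_trans (pr_mono H _ ?_) (h3.trans (Finset.sum_le_sum fun v _ => h1 v))
    rintro χ _ ⟨-, v, hv, hne⟩
    exact ⟨v, (mem_fs (hfin E hE)).2 hv, hne⟩
  have hex0 : ∀ v : V, 0 ≤ ex Δ r (cut C G) (fun χ => (odo Δ r (cut C G) χ n v : ℝ)) := fun v =>
    (pr_nonneg H _ _).trans (h1 v)
  -- the boundaries are disjoint subsets of a sphere
  have h3 : ∑ E ∈ gen Δ k C, ∑ v ∈ fs (iB Δ E),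
      ex Δ r (cut C G) (fun χ => (odo Δ r (cut C G) χ n v : ℝ)) ≤
      ∑ v ∈ fs (sph Δ o (R + k + 1)),
        ex Δ r (cut C G) (fun χ => (odo Δ r (cut C G) χ n v : ℝ)) := by
    rw [← Finset.sum_biUnion]
    · refine Finset.sum_le_sum_of_subset_of_nonneg ?_ fun v _ _ => hex0 v
      intro v hv
      obtain ⟨E, hE, hvE⟩ := Finset.mem_biUnion.1 hv
      have h4 := (mem_fs (hfin E hE)).1 hvE
      rw [iB_sub H (hcone E hE).1.comp] at h4
      exact (mem_fs (hsfin _)).2 h4.2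
    · intro E hE E' hE' hne
      have h5 := cone_disj H (hcone E hE).1 (hcone E' hE').1 hne
      rw [Function.onFun, Finset.disjoint_left]
      intro v hv hv'
      exact Set.disjoint_left.1 h5 ((mem_fs (hfin E hE)).1 hv).1 ((mem_fs (hfin E' hE')).1 hv').1
  -- Green function
  have h4 : ∑ v ∈ fs (sph Δ o (R + k + 1)),
        ex Δ r (cut C G) (fun χ => (odo Δ r (cut C G) χ n v : ℝ)) ≤
        b * ((r * q : ℕ) * max K 0) := by
    have h5 : ∀ v, ex Δ r (cut C G) (fun χ => (odo Δ r (cut C G) χ n v : ℝ)) =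
        ∑ y ∈ cut C G, gr Δ r ↑(cut C G) v y * (inc Δ y n : ℝ) := fun v =>
      ex_odo H hn0 ⟨q, hq⟩ v
    simp only [h5]
    rw [Finset.sum_comm]
    have h6 : ∀ y ∈ cut C G, ∑ v ∈ fs (sph Δ o (R + k + 1)), gr Δ r ↑(cut C G) v y * (inc Δ y n : ℝ) ≤
        if y ∈ fs (iB Δ C) then (r * q : ℕ) * max K 0 else 0 := by
      intro y hy
      by_cases hyI : y ∈ fs (iB Δ C)
      · rw [if_pos hyI, ← Finset.sum_mul, mul_comm]
        have h7 : (inc Δ y n : ℝ) ≤ ((r * q : ℕ) : ℝ) := by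
          have : inc Δ y n ≤ r * q := by
            unfold inc
            refine (Finset.sum_le_card_nsmul _ _ q fun w _ => hq w).trans ?_
            rw [smul_eq_mul, SimpleGraph.card_neighborFinset_eq_degree, H.reg]
          exact_mod_cast this
        have h8 : ∑ v ∈ fs (sph Δ o (R + k + 1)), gr Δ r ↑(cut C G) v y ≤ max K 0 := by
          refine le_trans ?_ (le_max_left K 0)
          have := hK (cut C G) o y (R + k + 1)
          refine le_trans (le_of_eq ?_) this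
          exact Finset.sum_congr rfl fun v _ => gr_symm H _ _ _
        exact mul_le_mul h7 h8 (Finset.sum_nonneg fun v _ => gr_nonneg H _ _ _) (Nat.cast_nonneg _)
      · rw [if_neg hyI]
        have e1 : inc Δ y n = 0 := by
          unfold inc
          apply Finset.sum_eq_zero
          intro w hw
          apply hn w
          intro hwB
          apply hyI
          rw [mem_fs (fin_iB H hC)]
          refine ⟨cut_sub hy, w, hwB.1, ?_⟩
          simpa using hw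
        simp [e1]
    refine (Finset.sum_le_sum h6).trans ?_
    rw [← Finset.sum_filter, Finset.sum_const, nsmul_eq_mul]
    refine mul_le_mul_of_nonneg_right ?_ (mul_nonneg (Nat.cast_nonneg _) (le_max_right _ _))
    have : ((cut C G).filter (· ∈ fs (iB Δ C))).card ≤ b := by
      refine le_trans (Finset.card_le_card ?_) hcard
      intro y hy
      exact (Finset.mem_filter.1 hy).2
    exact_mod_cast this
  exact (Finset.sum_le_sum h2).trans (h3.trans h4)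

theorem be_inv {o : V} {R : ℕ} {C : Set V} (hC : Cone Δ o R C) (q : ℕ) (σ : St V) {n : V → ℕ}
    (hn : ∀ v, v ∉ oB Δ C → n v = 0) {k : ℕ} {E : Set V} (hE : E ∈ gen Δ k C) (φ : Δ ≃g Δ) :
    be Δ r q (φ '' C) (mvs Δ φ σ) (mvc Δ φ n) (φ '' E) = be Δ r q C σ n E := by
  have hC' : Cone Δ (φ o) R (φ '' C) := mvf_cone φ hC
  have hEc := (mem_gen H hC).1 hE
  have hE' : φ '' E ∈ gen Δ k (φ '' C) :=
    (mem_gen H hC').2 ⟨mvf_cone φ hEc.1, Set.image_mono hEc.2⟩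
  have hn' : ∀ v, v ∉ oB Δ (φ '' C) → mvc Δ φ n v = 0 := by
    intro v hv
    refine hn _ fun h' => hv ?_
    rw [mvf_oB]
    exact ⟨φ.symm v, h', φ.apply_symm_apply v⟩
  have h1 := mvf_tendsto φ _ _ (be_tendsto H hC' q (mvs Δ φ σ) hn' hE')
  have h2 := be_tendsto H hC q σ hn hE
  refine tendsto_nhds_unique h1 (h2.congr fun G => ?_)
  rw [mvf_cut, mvf_pr]
  congr 1
  funext χ
  rw [ST2_st, mvf_odo, mvf_iB]
  refine propext ⟨?_, ?_⟩
  · rintro ⟨e1, v, hv, hne⟩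
    refine ⟨by rw [e1], φ v, ⟨v, hv, rfl⟩, ?_⟩
    change odo Δ r (cut C G) χ n (φ.symm (φ v)) ≠ 0
    rwa [RelIso.symm_apply_apply]
  · rintro ⟨e1, w, ⟨v, hv, rfl⟩, hne⟩
    refine ⟨ST2_mvs_inj φ e1, v, hv, ?_⟩
    change odo Δ r (cut C G) χ n (φ.symm (φ v)) ≠ 0 at hne
    rwa [RelIso.symm_apply_apply] at hne

end R3
end Pool.Agent.Sand.REC4
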