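import Pool.Agent.SandFin.REC3
import Pool.Agent.SandFin.REC4

set_option autoImplicit false

namespace Pool.Agent.Sand
export REC3 (rec_al0 rec_al)
export REC4 (be_tendsto rec_be be_self be_dead be_bound be_inv)
end Pool.Agent.Sand
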