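import Pool.Agent.SandFin.BrMain

/-! Branching systems with infinitely many types and finitely many laws (task BINF). -/

set_option autoImplicit false
open scoped Classical
open Filter Topology

namespace Pool.Agent.Sand

open Pool.Agent.SandBr

export Pool.Agent.SandBr (convL)

/-- a branching system on a possibly infinite set of types -/
structure InfSys (P Ω : Type) where
  Out : P → Finset Ω
  p : P → Ω → ℝ
  p_nonneg : ∀ x, ∀ ω ∈ Out x, 0 ≤ p x ω
  p_sum : ∀ x, ∑ ω ∈ Out x, p x ω = 1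
  s : P → Ω → ℕ
  s_pos : ∀ x, ∀ ω ∈ Out x, 1 ≤ s x ω
  ch : P → Ω → List P
  a : P → ℕ → ℝ
  a_nonneg : ∀ x m, 0 ≤ a x m
  a_sum : ∀ x, HasSum (a x) 1
  a_rec : ∀ x m, a x m = ∑ ω ∈ Out x, p x ω * (if s x ω ≤ m then convL a (ch x ω) (m - s x ω) else 0)
  Z : ℕ → P → ℝ
  Z_zero : ∀ x, Z 0 x = 1
  Z_succ : ∀ k x, Z (k + 1) x = ∑ ω ∈ Out x, p x ω * ((ch x ω).map (Z k)).sum
  Z_bdd : ∃ C : ℝ, ∀ k x, Z k x ≤ C
  rep : P → P
  rep_fin : (Set.range rep).Finite
  rep_a : ∀ x m, a (rep x) m = a x m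
  rep_Z : ∀ k x, Z k (rep x) = Z k x

namespace BINF

variable {P Ω : Type} (S : InfSys P Ω)

/-- finitely many representatives -/
abbrev T : Type := ↥(Set.range S.rep)

noncomputable instance : Fintype (T S) := S.rep_fin.fintype

/-- outcomes -/
abbrev O : Type := Σ θ : T S, ↥(S.Out θ.1)

/-- representative of a type -/
def rp (x : P) : T S := ⟨S.rep x, ⟨x, rfl⟩⟩

theorem convL_map {A B : Type} (f : A → B) (a : A → ℕ → ℝ) (b : B → ℕ → ℝ)
    (hab : ∀ x m, b (f x) m = a x m) (l : List A) (m : ℕ) : convL b (l.map f) m = convL a l m := by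
  induction l generalizing m with
  | nil => simp [convL]
  | cons x l ih =>
    simp only [List.map_cons, convL]
    exact Finset.sum_congr rfl fun i _ => by rw [hab, ih]

theorem sum_O (θ : T S) (f : P → Ω → ℝ) :
    ∑ ω : O S, (if ω.1 = θ then f ω.1.1 ω.2.1 else 0) = ∑ ω ∈ S.Out θ.1, f θ.1 ω := by
  rw [Fintype.sum_sigma]
  rw [Finset.sum_eq_single θ]
  · simp only [if_true]
    exact Finset.sum_coe_sort (S.Out θ.1) (fun ω => f θ.1 ω)
  · intro θ' _ hne
    exact Finset.sum_eq_zero fun ω _ => if_neg hne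
  · intro h
    exact absurd (Finset.mem_univ _) h

/-- the finite system -/
noncomputable def B : BrSys (T S) (O S) where
  p θ ω := if ω.1 = θ then S.p ω.1.1 ω.2.1 else 0
  p_nonneg θ ω := by
    split_ifs
    · exact S.p_nonneg _ _ ω.2.2
    · exact le_rfl
  p_sum θ := by
    rw [sum_O S θ S.p]
    exact S.p_sum θ.1
  s _ ω := S.s ω.1.1 ω.2.1
  s_pos _ ω := S.s_pos _ _ ω.2.2
  ch _ ω := (S.ch ω.1.1 ω.2.1).map (rp S)

/-- the laws of the finite system -/
def a (θ : T S) (m : ℕ) : ℝ := S.a θ.1 m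

theorem a_rp (x : P) (m : ℕ) : a S (rp S x) m = S.a x m := S.rep_a x m

theorem isTotal : (B S).IsTotal (a S) where
  nonneg θ m := S.a_nonneg θ.1 m
  hasSum θ := S.a_sum θ.1
  rec_eq θ m := by
    have h1 : ∀ ω : O S, (B S).p θ ω * (if (B S).s θ ω ≤ m then
        convL (a S) ((B S).ch θ ω) (m - (B S).s θ ω) else 0) =
        if ω.1 = θ then S.p ω.1.1 ω.2.1 * (if S.s ω.1.1 ω.2.1 ≤ m then
          convL S.a (S.ch ω.1.1 ω.2.1) (m - S.s ω.1.1 ω.2.1) else 0) else 0 := by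
      intro ω
      have h2 : convL (a S) ((B S).ch θ ω) (m - (B S).s θ ω) =
          convL S.a (S.ch ω.1.1 ω.2.1) (m - S.s ω.1.1 ω.2.1) :=
        convL_map (rp S) S.a (a S) (a_rp S) _ _
      rw [h2]
      change (if ω.1 = θ then S.p ω.1.1 ω.2.1 else 0) * (if S.s ω.1.1 ω.2.1 ≤ m then _ else _) = _
      split_ifs <;> simp
    rw [Finset.sum_congr rfl fun ω _ => h1 ω]
    rw [sum_O S θ (fun x ω => S.p x ω * (if S.s x ω ≤ m then
          convL S.a (S.ch x ω) (m - S.s x ω) else 0))]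
    exact S.a_rec θ.1 m

theorem z_eq (k : ℕ) (x : P) : (B S).z k (rp S x) = S.Z k x := by
  induction k generalizing x with
  | zero => rw [S.Z_zero]; rfl
  | succ k ih =>
    have h1 : ∀ ω : O S, (B S).p (rp S x) ω * (((B S).ch (rp S x) ω).map ((B S).z k)).sum =
        if ω.1 = rp S x then S.p ω.1.1 ω.2.1 * ((S.ch ω.1.1 ω.2.1).map (S.Z k)).sum else 0 := by
      intro ω
      have h2 : (((B S).ch (rp S x) ω).map ((B S).z k)).sum = ((S.ch ω.1.1 ω.2.1).map (S.Z k)).sum := by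
        change (((S.ch ω.1.1 ω.2.1).map (rp S)).map ((B S).z k)).sum = _
        rw [List.map_map]
        congr 1
        exact List.map_congr_left fun y _ => ih y
      rw [h2]
      change (if ω.1 = rp S x then S.p ω.1.1 ω.2.1 else 0) * _ = _
      split_ifs <;> simp
    change ∑ ω : O S, (B S).p (rp S x) ω * (((B S).ch (rp S x) ω).map ((B S).z k)).sum = _
    rw [Finset.sum_congr rfl fun ω _ => h1 ω]
    rw [sum_O S (rp S x) (fun x ω => S.p x ω * ((S.ch x ω).map (S.Z k)).sum)]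
    rw [← S.rep_Z (k + 1) x]
    exact (S.Z_succ k _).symm

theorem z_bdd : ∃ C : ℝ, ∀ k θ, (B S).z k θ ≤ C := by
  obtain ⟨C, hC⟩ := S.Z_bdd
  refine ⟨C, fun k θ => ?_⟩
  obtain ⟨_, x, rfl⟩ := θ
  have := z_eq S k x
  exact this.le.trans (hC k x)

end BINF

theorem binf_upper {P Ω : Type} (S : InfSys P Ω) :
    ∃ C : ℝ, 0 < C ∧ ∀ x m, 1 ≤ m → S.a x m ≤ C * (m : ℝ) ^ (-(3 / 2 : ℝ)) := by
  obtain ⟨C, hC, h⟩ := br_upper (BINF.B S) (BINF.a S) (BINF.isTotal S) (BINF.z_bdd S)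
  refine ⟨C, hC, fun x m hm => ?_⟩
  have := h (BINF.rp S x) m hm
  rwa [BINF.a_rp] at this

theorem binf_lower {P Ω : Type} (S : InfSys P Ω) (x : P) (hx : ¬ Summable (fun m : ℕ => (m : ℝ) * S.a x m)) :
    ∃ (g ρ : ℕ) (c : ℝ) (m₀ : ℕ), 1 ≤ g ∧ 0 < c ∧
      ∀ m, m₀ ≤ m → m ≡ ρ [MOD g] → c * (m : ℝ) ^ (-(3 / 2 : ℝ)) ≤ S.a x m := by
  have h := br_lower (BINF.B S) (BINF.a S) (BINF.isTotal S) (BINF.z_bdd S) (BINF.rp S x) (by
    simpa only [BINF.a_rp] using hx)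
  simpa only [BINF.a_rp] using h

end Pool.Agent.Sand
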