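import Pool.Agent.SandFin.REC34X
import Pool.Agent.SandFin.BINF

/-! Task TYP: the branching system of cones. -/

set_option autoImplicit false
open scoped Classical
open Filter Topology

namespace Pool.Agent.Sand.TYP

open Pool.Agent.Sand

/-! ### power series and lists -/

theorem convL_coeff {Θ : Type} (a : Θ → ℕ → ℝ) (l : List Θ) (m : ℕ) :
    convL a l m = PowerSeries.coeff m (l.map fun θ => PowerSeries.mk (a θ)).prod := by
  induction l generalizing m with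
  | nil => simp [convL, PowerSeries.coeff_one]
  | cons θ l ih =>
    rw [convL, List.map_cons, List.prod_cons, PowerSeries.coeff_mul,
      Finset.Nat.sum_antidiagonal_eq_sum_range_succ_mk]
    refine Finset.sum_congr rfl fun i hi => ?_
    rw [ih, PowerSeries.coeff_mk]

theorem fpi_coeff {α : Type} (𝒟 : Finset α) (f : α → ℕ → ℝ) (M j : ℕ) (hj : j ≤ M) :
    (∑ μ ∈ fpi 𝒟 (fun _ => Finset.range (M + 1)) 0,
      if ∑ D ∈ 𝒟, μ D = j then ∏ D ∈ 𝒟, f D (μ D) else 0) =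
      PowerSeries.coeff j (∏ D ∈ 𝒟, PowerSeries.mk (f D)) := by
  rw [PowerSeries.coeff_prod, ← Finset.sum_filter]
  symm
  refine Finset.sum_nbij (fun g : α →₀ ℕ => (g : α → ℕ)) ?_ ?_ ?_ ?_
  · intro g hg
    rw [Finset.mem_finsuppAntidiag] at hg
    rw [Finset.mem_filter, mem_fpi]
    refine ⟨⟨fun a ha => ?_, fun a ha => ?_⟩, hg.1⟩
    · rw [Finset.mem_range]
      have : g a ≤ ∑ D ∈ 𝒟, g D := Finset.single_le_sum (f := fun D => g D) (fun _ _ => Nat.zero_le _) ha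
      have h1 : ∑ D ∈ 𝒟, g D = j := hg.1
      omega
    · by_contra h0
      exact ha (hg.2 (Finsupp.mem_support_iff.2 h0))
  · intro g _ g' _ hgg
    exact DFunLike.coe_injective hgg
  · intro μ hμ
    rw [Finset.mem_coe, Finset.mem_filter, mem_fpi] at hμ
    have hsup : ∀ a, μ a ≠ 0 → a ∈ 𝒟 := fun a ha => by
      by_contra h0
      exact ha (hμ.1.2 a h0)
    refine ⟨Finsupp.onFinset 𝒟 μ hsup, ?_, ?_⟩
    · rw [Finset.mem_coe, Finset.mem_finsuppAntidiag]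
      exact ⟨hμ.2, Finsupp.support_onFinset_subset⟩
    · rfl
  · intro g hg
    refine Finset.prod_congr rfl fun D _ => ?_
    rw [PowerSeries.coeff_mk]

theorem fpi_conv {α : Type} (𝒟 : Finset α) (f : α → ℕ → ℝ) (k m : ℕ) :
    (∑ μ ∈ fpi 𝒟 (fun _ => Finset.range (m + 1)) 0,
      if k + ∑ D ∈ 𝒟, μ D = m then ∏ D ∈ 𝒟, f D (μ D) else 0) =
      if k ≤ m then PowerSeries.coeff (m - k) (∏ D ∈ 𝒟, PowerSeries.mk (f D)) else 0 := by
  by_cases hk : k ≤ m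
  · rw [if_pos hk, ← fpi_coeff 𝒟 f m (m - k) (Nat.sub_le _ _)]
    refine Finset.sum_congr rfl fun μ _ => ?_
    by_cases h1 : k + ∑ D ∈ 𝒟, μ D = m
    · rw [if_pos h1, if_pos (by omega)]
    · rw [if_neg h1, if_neg (by omega)]
  · rw [if_neg hk]
    refine Finset.sum_eq_zero fun μ _ => ?_
    rw [if_neg (by omega)]

theorem prod_filterMap {β P R : Type} [CommMonoid R] (l : List β) (g : β → Option P) (F : P → R) :
    ((l.filterMap g).map F).prod = (l.map fun D => (g D).elim 1 F).prod := by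
  induction l with
  | nil => simp
  | cons D l ih =>
    rw [List.filterMap_cons]
    cases hD : g D with
    | none => simp [hD, ih]
    | some y => simp [hD, ih]

theorem sum_filterMap {β P R : Type} [AddCommMonoid R] (l : List β) (g : β → Option P) (F : P → R) :
    ((l.filterMap g).map F).sum = (l.map fun D => (g D).elim 0 F).sum := by
  induction l with
  | nil => simp
  | cons D l ih =>
    rw [List.filterMap_cons]
    cases hD : g D with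
    | none => simp [hD, ih]
    | some y => simp [hD, ih]

theorem pos_of_div_pos {a b : ℕ} (hab : (0 : ℝ) < (a : ℝ) / (b : ℝ)) : 0 < a := by
  by_contra hc
  have hc' := Nat.eq_zero_of_not_pos hc
  subst hc'
  simp at hab

theorem exists_lower {T : Set ℝ} (hT : T.Finite) (hpos : ∀ t ∈ T, 0 < t) :
    ∃ δ : ℝ, 0 < δ ∧ ∀ t ∈ T, δ ≤ t := by
  rcases T.eq_empty_or_nonempty with rfl | hne
  · exact ⟨1, one_pos, fun t ht => absurd ht (Set.notMem_empty t)⟩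
  · obtain ⟨δ, hδ, hmin⟩ := Set.exists_min_image T id hT hne
    exact ⟨δ, hpos δ hδ, hmin⟩

/-! ### triples -/

variable {V : Type}

/-- cone, state, boundary firing -/
abbrev Tr (V : Type) := Set V × St V × (V → ℕ)

/-- admissible triples -/
structure Gd (Δ : SimpleGraph V) [Δ.LocallyFinite] (r q : ℕ) (x : Tr V) : Prop where
  cone : ∃ o R, Cone Δ o R x.1
  supp : ∀ v, v ∉ oB Δ x.1 → x.2.2 v = 0
  le : ∀ v, x.2.2 v ≤ q
  pos : 0 < al0 Δ r q x.1 x.2.1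
  act : x.2.1.2 x.2.2 ≠ 0

/-- normalised size law -/
noncomputable def aT (Δ : SimpleGraph V) [Δ.LocallyFinite] (r q : ℕ) (x : Tr V) (m : ℕ) : ℝ :=
  al Δ r q x.1 x.2.1 x.2.2 m / al0 Δ r q x.1 x.2.1

/-- expected number of reached descendants of generation `k` -/
noncomputable def zT (Δ : SimpleGraph V) [Δ.LocallyFinite] (r q : ℕ) (k : ℕ) (x : Tr V) : ℝ :=
  (∑ E ∈ gen Δ k x.1, be Δ r q x.1 x.2.1 x.2.2 E) / al0 Δ r q x.1 x.2.1

/-- outcomes -/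
abbrev Om (V : Type) := (V → ℕ) × (Set V → St V)

/-- child triple -/
noncomputable def cT (Δ : SimpleGraph V) [Δ.LocallyFinite] (r : ℕ) (x : Tr V) (ω : Om V) (D : Set V) : Tr V :=
  (D, ω.2 D, rs (fs (oB Δ D)) (gwn Δ r x.1 ω.1 x.2.2 ω.2))

noncomputable def OutT (Δ : SimpleGraph V) [Δ.LocallyFinite] (r q : ℕ) (x : Tr V) : Finset (Om V) :=
  ((stab (core Δ x.1) fun _ => r) ×ˢ fst Δ r q (chd Δ x.1)).filter fun ω =>
    (gC Δ (core Δ x.1) (chd Δ x.1) ω.1 ω.2 ∧ gst Δ r q x.1 ω.1 ω.2 = x.2.1) ∧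
      ∀ D ∈ chd Δ x.1, 0 < al0 Δ r q D (ω.2 D)

noncomputable def pT (Δ : SimpleGraph V) [Δ.LocallyFinite] (r q : ℕ) (x : Tr V) (ω : Om V) : ℝ :=
  cst Δ r (core Δ x.1) x.1 * (∏ D ∈ chd Δ x.1, al0 Δ r q D (ω.2 D)) / al0 Δ r q x.1 x.2.1

noncomputable def sT (Δ : SimpleGraph V) [Δ.LocallyFinite] (r : ℕ) (x : Tr V) (ω : Om V) : ℕ :=
  ((core Δ x.1).filter fun v => gwn Δ r x.1 ω.1 x.2.2 ω.2 v ≠ 0).card

noncomputable def chT (Δ : SimpleGraph V) [Δ.LocallyFinite] (r q : ℕ) (x : Tr V) (ω : Om V) :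
    List {x : Tr V // Gd Δ r q x} :=
  (chd Δ x.1).toList.filterMap fun D => if hg : Gd Δ r q (cT Δ r x ω D) then some ⟨_, hg⟩ else none

theorem fs_sub (S : Set V) {v : V} (hv : v ∈ fs S) : v ∈ S := by
  unfold fs at hv
  split_ifs at hv with h
  · exact h.mem_toFinset.1 hv
  · simp at hv

variable {Δ : SimpleGraph V} [Δ.LocallyFinite] {r : ℕ} {h : ℝ} {D0 : ℕ}

theorem gwn_congr {C : Set V} {ξ n : V → ℕ} {s s' : Set V → St V} (hs : ∀ D ∈ chd Δ C, s D = s' D) :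
    gwn Δ r C ξ n s = gwn Δ r C ξ n s' := by
  have h1 : ∀ w, rsp (chd Δ C) s w = rsp (chd Δ C) s' w := by
    intro w
    funext v
    unfold rsp
    exact Finset.sum_congr rfl fun D hD => by rw [hs D hD]
  unfold gwn gw gStz
  simp only [h1]

theorem cut_cut {C D : Set V} (hDC : D ⊆ C) (G : Finset V) : cut D (cut C G) = cut D G := by
  ext v
  simp only [cut, Finset.mem_filter]
  constructor
  · rintro ⟨⟨h1, _⟩, h3⟩
    exact ⟨h1, h3⟩
  · rintro ⟨h1, h3⟩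
    exact ⟨⟨h1, hDC h3⟩, h3⟩

variable (H : Hyp Δ r h D0)
include H

theorem al_zero {o : V} {R : ℕ} {D : Set V} (hD : Cone Δ o R D) (q : ℕ) (σ : St V) {n : V → ℕ}
    (hn : ∀ v, v ∉ oB Δ D → n v = 0) (h0 : al0 Δ r q D σ = 0) (m : ℕ) : al Δ r q D σ n m = 0 := by
  have h1 := al_sum H hD q σ hn
  rw [h0] at h1
  have h2 := (hasSum_zero_iff_of_nonneg (fun m => al_nonneg H hD q σ hn m)).1 h1
  exact congrFun h2 m

theorem be_nonneg {o : V} {R : ℕ} {D : Set V} (hD : Cone Δ o R D) (q : ℕ) (σ : St V) {n : V → ℕ}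
    (hn : ∀ v, v ∉ oB Δ D → n v = 0) {k : ℕ} {E : Set V} (hE : E ∈ gen Δ k D) : 0 ≤ be Δ r q D σ n E :=
  ge_of_tendsto' (be_tendsto H hD q σ hn hE) fun _ => pr_nonneg H _ _

theorem be_le {o : V} {R : ℕ} {D : Set V} (hD : Cone Δ o R D) (q : ℕ) (σ : St V) {n : V → ℕ}
    (hn : ∀ v, v ∉ oB Δ D → n v = 0) {k : ℕ} {E : Set V} (hE : E ∈ gen Δ k D) :
    be Δ r q D σ n E ≤ al0 Δ r q D σ :=
  le_of_tendsto_of_tendsto' (be_tendsto H hD q σ hn hE) (al0_tendsto H hD q σ) fun _ =>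
    pr_mono H _ fun _ _ hχ => hχ.1

omit H in
theorem exists_of_pr_pos {S : Finset V} {P : (V → ℕ) → Prop} (hp : 0 < pr Δ r S P) :
    ∃ χ ∈ rcr Δ r S, P χ := by
  unfold pr at hp
  obtain ⟨χ, hχ⟩ := Finset.card_pos.1 (pos_of_div_pos hp)
  exact ⟨χ, (Finset.mem_filter.1 hχ)⟩

theorem gwn_le {q : ℕ} {x : Tr V} (hx : Gd Δ r q x) {ω : Om V} (hω : ω ∈ OutT Δ r q x) (v : V) :
    gwn Δ r x.1 ω.1 x.2.2 ω.2 v ≤ q := by
  obtain ⟨C, σ, n⟩ := x
  obtain ⟨ξ, s⟩ := ω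
  obtain ⟨⟨o, R, hC⟩, hn, hq, hpos, hact⟩ := hx
  simp only at hC hn hq hpos hact ⊢
  unfold OutT at hω
  simp only [Finset.mem_filter, Finset.mem_product] at hω
  obtain ⟨⟨hξ, hs⟩, ⟨hgC, hgst⟩, hal⟩ := hω
  obtain ⟨hdec, hreg, hiB⟩ := cone_dec H hC
  have hsub : (↑(core Δ C) : Set V) ⊆ C := fun v hv => ((mem_core H hC).1 hv).1
  have hcst := (cst_tendsto H hsub).1
  have hlim := rec_gen H hdec q hξ s (fun _ _ _ => True) (fun D => al0 Δ r q D (s D)) (by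
    intro D hD
    have hD' := ((mem_chd H hC).1 hD).1
    simpa using al0_tendsto H hD' q (s D))
  rw [if_pos hgC, hreg] at hlim
  have hlpos : 0 < cst Δ r (core Δ C) C * ∏ D ∈ chd Δ C, al0 Δ r q D (s D) :=
    mul_pos hcst (Finset.prod_pos hal)
  have hev := hlim.eventually (lt_mem_nhds hlpos)
  obtain ⟨G, hG1, hG2⟩ := (hev.and (Filter.eventually_ge_atTop (core Δ C))).exists
  obtain ⟨χ, hχ, hχξ, hχs⟩ := exists_of_pr_pos hG1
  have hodo := (odo_glue H hC (q := q) hG2 hχ hn hq).1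
  have hcongr : gwn Δ r C ξ n (sts Δ r q (cut C G) χ) = gwn Δ r C ξ n s := by
    refine gwn_congr fun D hD => ?_
    unfold sts
    rw [cut_cut ((mem_chd H hC).1 hD).2]
    exact (hχs D hD).1
  rw [hχξ, hcongr] at hodo
  rw [← hodo]
  have hχr : ∀ v ∈ cut C G, χ v ≤ r := by
    intro v hv
    have := (mem_stab.1 (Finset.mem_filter.1 hχ).1).1 v hv
    exact this.2
  have h1 := odo_le_const H.reg hχr hq (fun v hv => hn v fun hv' => hv'.1 (Finset.mem_filter.1 hv).2) v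
  unfold rs
  split_ifs
  · exact h1
  · exact Nat.zero_le _

theorem cap_eq {o : V} {R : ℕ} {C : Set V} (hC : Cone Δ o R C) {q : ℕ} {n : V → ℕ}
    (hn : ∀ v, v ∉ oB Δ C → n v = 0) (hq : ∀ v, n v ≤ q) : cap Δ q C n = n := by
  obtain ⟨b, _, _, hb⟩ := exists_bound H
  have hf := (hb o R C hC.comp).2.1
  funext v
  unfold cap
  by_cases hv : v ∈ oB Δ C
  · rw [if_pos ((mem_fs hf).2 hv)]
    exact min_eq_left (hq v)
  · rw [if_neg (fun h' => hv ((mem_fs hf).1 h')), hn v hv]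

theorem sT_pos {q : ℕ} {x : Tr V} (hx : Gd Δ r q x) {ω : Om V} (hω : ω ∈ OutT Δ r q x) :
    1 ≤ sT Δ r x ω := by
  obtain ⟨C, σ, n⟩ := x
  obtain ⟨ξ, s⟩ := ω
  obtain ⟨⟨o, R, hC⟩, hn, hq, hpos, hact⟩ := hx
  simp only at hC hn hq hpos hact ⊢
  unfold OutT at hω
  simp only [Finset.mem_filter, Finset.mem_product] at hω
  obtain ⟨⟨hξ, hs⟩, ⟨hgC, hgst⟩, hal⟩ := hω
  obtain ⟨hdec, hreg, hiB⟩ := cone_dec H hC
  obtain ⟨b, _, _, hb⟩ := exists_bound H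
  have hf := (hb o R C hC.comp).1
  unfold sT
  rw [Nat.one_le_iff_ne_zero, Finset.card_ne_zero]
  have h1 : σ.2 n = rs (fs (iB Δ C)) (gwn Δ r C ξ n s) := by
    rw [← hgst]
    unfold gst
    simp only
    rw [cap_eq H hC hn hq]
  rw [h1] at hact
  obtain ⟨v, hv⟩ := Function.ne_iff.1 hact
  refine ⟨v, ?_⟩
  simp only [rs, Pi.zero_apply] at hv
  rw [Finset.mem_filter]
  by_cases hv' : v ∈ fs (iB Δ C)
  · rw [if_pos hv'] at hv
    exact ⟨Finset.mem_coe.1 (hiB ((mem_fs hf).1 hv')), hv⟩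
  · rw [if_neg hv'] at hv
    exact absurd rfl hv

theorem dead_of_not {q : ℕ} {x : Tr V} (hx : Gd Δ r q x) {ω : Om V} (hω : ω ∈ OutT Δ r q x)
    {D : Set V} (hD : D ∈ chd Δ x.1) :
    (∃ o R, Cone Δ o R D) ∧ (∀ v, v ∉ oB Δ D → (cT Δ r x ω D).2.2 v = 0) ∧
    (∀ v, (cT Δ r x ω D).2.2 v ≤ q) ∧ 0 < al0 Δ r q D (ω.2 D) ∧
    (¬ Gd Δ r q (cT Δ r x ω D) → (ω.2 D).2 (cT Δ r x ω D).2.2 = 0) := by
  have hle := gwn_le H hx hω
  have hω' := hω
  unfold OutT at hω'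
  simp only [Finset.mem_filter, Finset.mem_product] at hω'
  obtain ⟨⟨hξ, hs⟩, ⟨hgC, hgst⟩, hal⟩ := hω'
  obtain ⟨o, R, hC⟩ := hx.cone
  have h1 : ∃ o R, Cone Δ o R D := ⟨o, R + 1, ((mem_chd H hC).1 hD).1⟩
  have h2 : ∀ v, v ∉ oB Δ D → (cT Δ r x ω D).2.2 v = 0 := by
    intro v hv
    simp only [cT, rs]
    rw [if_neg fun h' => hv (fs_sub _ h')]
  have h3 : ∀ v, (cT Δ r x ω D).2.2 v ≤ q := by
    intro v
    simp only [cT, rs]
    split_ifs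
    · exact hle v
    · exact Nat.zero_le _
  refine ⟨h1, h2, h3, hal D hD, fun hng => ?_⟩
  by_contra hne
  exact hng ⟨h1, h2, h3, hal D hD, hne⟩

theorem aT_dead {q : ℕ} {x : Tr V} (hx : Gd Δ r q x) {ω : Om V} (hω : ω ∈ OutT Δ r q x)
    {D : Set V} (hD : D ∈ chd Δ x.1) (hng : ¬ Gd Δ r q (cT Δ r x ω D)) (m : ℕ) :
    aT Δ r q (cT Δ r x ω D) m = if m = 0 then 1 else 0 := by
  obtain ⟨⟨o, R, hC⟩, h2, h3, h4, h5⟩ := dead_of_not H hx hω hD
  unfold aT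
  have := al_dead H hC q (ω.2 D) h2 h3 (h5 hng) m
  change al Δ r q D (ω.2 D) (cT Δ r x ω D).2.2 m / al0 Δ r q D (ω.2 D) = _
  rw [this]
  split_ifs
  · exact div_self h4.ne'
  · simp

theorem zT_dead {q : ℕ} {x : Tr V} (hx : Gd Δ r q x) {ω : Om V} (hω : ω ∈ OutT Δ r q x)
    {D : Set V} (hD : D ∈ chd Δ x.1) (hng : ¬ Gd Δ r q (cT Δ r x ω D)) (k : ℕ) :
    zT Δ r q k (cT Δ r x ω D) = 0 := by
  obtain ⟨⟨o, R, hC⟩, h2, h3, h4, h5⟩ := dead_of_not H hx hω hD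
  unfold zT
  rw [Finset.sum_eq_zero, zero_div]
  intro E hE
  exact be_dead H hC q (ω.2 D) h2 h3 (h5 hng) hE

theorem convL_chT {q : ℕ} {x : Tr V} (hx : Gd Δ r q x) {ω : Om V} (hω : ω ∈ OutT Δ r q x) (m : ℕ) :
    convL (fun y : {x : Tr V // Gd Δ r q x} => aT Δ r q y.1) (chT Δ r q x ω) m =
      PowerSeries.coeff m (∏ D ∈ chd Δ x.1, PowerSeries.mk (aT Δ r q (cT Δ r x ω D))) := by
  rw [convL_coeff]
  unfold chT
  rw [prod_filterMap, Finset.prod_map_toList]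
  congr 1
  refine Finset.prod_congr rfl fun D hD => ?_
  by_cases hg : Gd Δ r q (cT Δ r x ω D)
  · rw [dif_pos hg]
    rfl
  · rw [dif_neg hg]
    simp only [Option.elim]
    ext j
    rw [PowerSeries.coeff_mk, aT_dead H hx hω hD hg, PowerSeries.coeff_one]

theorem sum_chT {q : ℕ} {x : Tr V} (hx : Gd Δ r q x) {ω : Om V} (hω : ω ∈ OutT Δ r q x) (k : ℕ) :
    ((chT Δ r q x ω).map (fun y : {x : Tr V // Gd Δ r q x} => zT Δ r q k y.1)).sum =
      ∑ D ∈ chd Δ x.1, zT Δ r q k (cT Δ r x ω D) := by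
  unfold chT
  rw [sum_filterMap, Finset.sum_map_toList]
  refine Finset.sum_congr rfl fun D hD => ?_
  by_cases hg : Gd Δ r q (cT Δ r x ω D)
  · rw [dif_pos hg]
    rfl
  · rw [dif_neg hg, zT_dead H hx hω hD hg]
    rfl

omit H in
/-- restricting the sum over outcomes -/
theorem sum_out (q : ℕ) (x : Tr V) (T : Om V → ℝ)
    (hT : ∀ ω ∈ (stab (core Δ x.1) fun _ => r) ×ˢ fst Δ r q (chd Δ x.1),
      gC Δ (core Δ x.1) (chd Δ x.1) ω.1 ω.2 ∧ gst Δ r q x.1 ω.1 ω.2 = x.2.1 →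
      ¬ (∀ D ∈ chd Δ x.1, 0 < al0 Δ r q D (ω.2 D)) → T ω = 0) :
    (∑ ξ ∈ stab (core Δ x.1) (fun _ => r), ∑ s ∈ fst Δ r q (chd Δ x.1),
      if gC Δ (core Δ x.1) (chd Δ x.1) ξ s ∧ gst Δ r q x.1 ξ s = x.2.1 then T (ξ, s) else 0) =
      ∑ ω ∈ OutT Δ r q x, T ω := by
  unfold OutT
  rw [Finset.sum_filter, ← Finset.sum_product']
  refine Finset.sum_congr rfl fun ω hω => ?_
  obtain ⟨ξ, s⟩ := ω
  simp only
  by_cases h1 : gC Δ (core Δ x.1) (chd Δ x.1) ξ s ∧ gst Δ r q x.1 ξ s = x.2.1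
  · rw [if_pos h1]
    by_cases h2 : ∀ D ∈ chd Δ x.1, 0 < al0 Δ r q D (s D)
    · rw [if_pos ⟨h1, h2⟩]
    · rw [if_neg fun h' => h2 h'.2]
      exact hT (ξ, s) hω h1 h2
  · rw [if_neg h1, if_neg fun h' => h1 h'.1]

theorem al0_eq_zero {o : V} {R : ℕ} {C : Set V} (hC : Cone Δ o R C) {q : ℕ} {s : Set V → St V}
    (h0 : ¬ (∀ D ∈ chd Δ C, 0 < al0 Δ r q D (s D))) : ∃ D ∈ chd Δ C, al0 Δ r q D (s D) = 0 := by
  push Not at h0
  obtain ⟨D, hD, hD0⟩ := h0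
  exact ⟨D, hD, le_antisymm hD0 (al0_nonneg H ((mem_chd H hC).1 hD).1 q (s D))⟩

theorem pT_sum {q : ℕ} {x : Tr V} (hx : Gd Δ r q x) : ∑ ω ∈ OutT Δ r q x, pT Δ r q x ω = 1 := by
  obtain ⟨o, R, hC⟩ := hx.cone
  have h1 := rec_al0 H hC q x.2.1
  rw [sum_out q x (fun ω => ∏ D ∈ chd Δ x.1, al0 Δ r q D (ω.2 D)) (by
    intro ω _ _ h0
    obtain ⟨D, hD, hD0⟩ := al0_eq_zero H hC h0
    exact Finset.prod_eq_zero hD hD0)] at h1
  unfold pT
  rw [← Finset.sum_div, ← Finset.mul_sum, ← h1]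
  exact div_self hx.pos.ne'

theorem aT_rec {q : ℕ} {x : Tr V} (hx : Gd Δ r q x) (m : ℕ) :
    aT Δ r q x m = ∑ ω ∈ OutT Δ r q x, pT Δ r q x ω * (if sT Δ r x ω ≤ m then
      convL (fun y : {x : Tr V // Gd Δ r q x} => aT Δ r q y.1) (chT Δ r q x ω) (m - sT Δ r x ω) else 0) := by
  obtain ⟨o, R, hC⟩ := hx.cone
  have h1 := rec_al H hC q x.2.1 hx.supp hx.le m
  rw [sum_out q x (fun ω => ∑ μ ∈ fpi (chd Δ x.1) (fun _ => Finset.range (m + 1)) 0,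
      if ((core Δ x.1).filter fun v => gwn Δ r x.1 ω.1 x.2.2 ω.2 v ≠ 0).card + ∑ D ∈ chd Δ x.1, μ D = m then
        ∏ D ∈ chd Δ x.1, al Δ r q D (ω.2 D) (rs (fs (oB Δ D)) (gwn Δ r x.1 ω.1 x.2.2 ω.2)) (μ D)
      else 0) (by
    intro ω _ _ h0
    obtain ⟨D, hD, hD0⟩ := al0_eq_zero H hC h0
    refine Finset.sum_eq_zero fun μ _ => ?_
    split_ifs
    · refine Finset.prod_eq_zero hD ?_
      refine al_zero H ((mem_chd H hC).1 hD).1 q (ω.2 D) (fun v hv => ?_) hD0 _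
      simp only [rs]
      rw [if_neg fun h' => hv (fs_sub _ h')]
    · rfl)] at h1
  unfold aT
  rw [h1, Finset.mul_sum, Finset.sum_div]
  refine Finset.sum_congr rfl fun ω hω => ?_
  have h2 : (if sT Δ r x ω ≤ m then
      convL (fun y : {x : Tr V // Gd Δ r q x} => aT Δ r q y.1) (chT Δ r q x ω) (m - sT Δ r x ω) else 0) =
      ∑ μ ∈ fpi (chd Δ x.1) (fun _ => Finset.range (m + 1)) 0,
        if sT Δ r x ω + ∑ D ∈ chd Δ x.1, μ D = m then
          ∏ D ∈ chd Δ x.1, aT Δ r q (cT Δ r x ω D) (μ D) else 0 := by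
    rw [fpi_conv (chd Δ x.1) (fun D => aT Δ r q (cT Δ r x ω D)) (sT Δ r x ω) m]
    rw [convL_chT H hx hω]
  unfold aT at h2
  rw [h2]
  unfold pT
  rw [mul_div_assoc, mul_div_assoc, mul_assoc]
  congr 1
  rw [div_mul_eq_mul_div]
  congr 1
  rw [Finset.mul_sum]
  refine Finset.sum_congr rfl fun μ _ => ?_
  unfold sT
  split_ifs with h3
  · rw [← Finset.prod_mul_distrib]
    refine Finset.prod_congr rfl fun D hD => ?_
    have h4 := (dead_of_not H hx hω hD).2.2.2.1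
    change _ = al0 Δ r q D (ω.2 D) * (al Δ r q D (ω.2 D) (rs (fs (oB Δ D)) (gwn Δ r x.1 ω.1 x.2.2 ω.2)) (μ D) /
      al0 Δ r q D (ω.2 D))
    rw [mul_div_cancel₀ _ h4.ne']
  · rw [mul_zero]

theorem gen_nonempty {o : V} {R : ℕ} {C : Set V} (hC : Cone Δ o R C) {k : ℕ} {E : Set V}
    (hE : E ∈ gen Δ k C) : E.Nonempty ∧ E ⊆ C :=
  ⟨((mem_gen H hC).1 hE).1.inf.nonempty, ((mem_gen H hC).1 hE).2⟩

theorem zT_succ {q : ℕ} {x : Tr V} (hx : Gd Δ r q x) (k : ℕ) :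
    zT Δ r q (k + 1) x = ∑ ω ∈ OutT Δ r q x, pT Δ r q x ω *
      ((chT Δ r q x ω).map (fun y : {x : Tr V // Gd Δ r q x} => zT Δ r q k y.1)).sum := by
  obtain ⟨o, R, hC⟩ := hx.cone
  obtain ⟨hdec, hreg, hiB⟩ := cone_dec H hC
  have hdisj : ∀ D ∈ chd Δ x.1, ∀ D' ∈ chd Δ x.1, D ≠ D' → Disjoint (gen Δ k D) (gen Δ k D') := by
    intro D hD D' hD' hne
    rw [Finset.disjoint_left]
    intro E hE hE'
    obtain ⟨⟨v, hv⟩, h1⟩ := gen_nonempty H ((mem_chd H hC).1 hD).1 hE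
    obtain ⟨_, h2⟩ := gen_nonempty H ((mem_chd H hC).1 hD').1 hE'
    exact Set.disjoint_left.1 (hdec.pw D hD D' hD' hne) (h1 hv) (h2 hv)
  have hbe : ∀ D ∈ chd Δ x.1, ∀ E ∈ gen Δ k D, be Δ r q x.1 x.2.1 x.2.2 E =
      cst Δ r (core Δ x.1) x.1 * ∑ ω ∈ OutT Δ r q x, be Δ r q D (ω.2 D) (cT Δ r x ω D).2.2 E *
          ∏ D' ∈ (chd Δ x.1).erase D, al0 Δ r q D' (ω.2 D') := by
    intro D hD E hE
    have h1 := rec_be H hC q x.2.1 hx.supp hx.le hD hE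
    rw [sum_out q x (fun ω => be Δ r q D (ω.2 D) (rs (fs (oB Δ D)) (gwn Δ r x.1 ω.1 x.2.2 ω.2)) E *
          ∏ D' ∈ (chd Δ x.1).erase D, al0 Δ r q D' (ω.2 D')) (by
      intro ω _ _ h0
      obtain ⟨D', hD', hD0⟩ := al0_eq_zero H hC h0
      by_cases hDD : D' = D
      · subst hDD
        have hcone := ((mem_chd H hC).1 hD').1
        have hsupp : ∀ v, v ∉ oB Δ D' → rs (fs (oB Δ D')) (gwn Δ r x.1 ω.1 x.2.2 ω.2) v = 0 := by
          intro v hv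
          simp only [rs]
          rw [if_neg fun h' => hv (fs_sub _ h')]
        have h3 := be_le H hcone q (ω.2 D') hsupp hE
        have h4 := be_nonneg H hcone q (ω.2 D') hsupp hE
        rw [hD0] at h3
        rw [le_antisymm h3 h4, zero_mul]
      · rw [Finset.prod_eq_zero (Finset.mem_erase.2 ⟨hDD, hD'⟩) hD0, mul_zero])] at h1
    exact h1
  have hmain : ∑ E ∈ gen Δ (k + 1) x.1, be Δ r q x.1 x.2.1 x.2.2 E =
      ∑ ω ∈ OutT Δ r q x, cst Δ r (core Δ x.1) x.1 * (∏ D ∈ chd Δ x.1, al0 Δ r q D (ω.2 D)) *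
        ∑ D ∈ chd Δ x.1, zT Δ r q k (cT Δ r x ω D) := by
    change ∑ E ∈ (chd Δ x.1).biUnion (gen Δ k), be Δ r q x.1 x.2.1 x.2.2 E = _
    rw [Finset.sum_biUnion hdisj]
    have h5 : ∀ D ∈ chd Δ x.1, ∑ E ∈ gen Δ k D, be Δ r q x.1 x.2.1 x.2.2 E =
        ∑ ω ∈ OutT Δ r q x, cst Δ r (core Δ x.1) x.1 * (∏ D ∈ chd Δ x.1, al0 Δ r q D (ω.2 D)) *
          zT Δ r q k (cT Δ r x ω D) := by
      intro D hD
      rw [Finset.sum_congr rfl (hbe D hD), ← Finset.mul_sum, Finset.sum_comm, Finset.mul_sum]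
      refine Finset.sum_congr rfl fun ω hω => ?_
      have h4 := (dead_of_not H hx hω hD).2.2.2.1
      rw [← Finset.sum_mul]
      rw [← Finset.mul_prod_erase _ (fun D => al0 Δ r q D (ω.2 D)) hD]
      unfold zT
      change _ = cst Δ r (core Δ x.1) x.1 * (al0 Δ r q D (ω.2 D) * _) *
        ((∑ E ∈ gen Δ k D, be Δ r q D (ω.2 D) (cT Δ r x ω D).2.2 E) / al0 Δ r q D (ω.2 D))
      field_simp
    rw [Finset.sum_congr rfl h5, Finset.sum_comm]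
    refine Finset.sum_congr rfl fun ω _ => ?_
    rw [Finset.mul_sum]
  conv_lhs => unfold zT
  rw [hmain, Finset.sum_div]
  refine Finset.sum_congr rfl fun ω hω => ?_
  rw [sum_chT H hx hω]
  unfold pT
  ring

omit [Δ.LocallyFinite] H in
theorem symm_image (φ : Δ ≃g Δ) (C : Set V) : φ.symm '' (φ '' C) = C := by
  rw [Set.image_image]
  simp

omit [Δ.LocallyFinite] H in
theorem image_symm (φ : Δ ≃g Δ) (C : Set V) : φ '' (φ.symm '' C) = C := by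
  rw [Set.image_image]
  simp

theorem gen_inv {o : V} {R : ℕ} {C : Set V} (hC : Cone Δ o R C) (φ : Δ ≃g Δ) {k : ℕ} {E : Set V}
    (hE : E ∈ gen Δ k C) : φ '' E ∈ gen Δ k (φ '' C) := by
  rw [mem_gen H (mvf_cone φ hC)]
  obtain ⟨h1, h2⟩ := (mem_gen H hC).1 hE
  exact ⟨mvf_cone φ h1, Set.image_mono h2⟩

/-- transport of a triple -/
noncomputable def mvT (Δ : SimpleGraph V) [Δ.LocallyFinite] (ψ : Δ ≃g Δ) (x : Tr V) : Tr V :=
  (ψ '' x.1, mvs Δ ψ x.2.1, mvc Δ ψ x.2.2)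

theorem mvT_spec {q : ℕ} {x : Tr V} (hx : Gd Δ r q x) (ψ : Δ ≃g Δ) :
    Gd Δ r q (mvT Δ ψ x) ∧ (∀ m, aT Δ r q (mvT Δ ψ x) m = aT Δ r q x m) ∧
    (∀ k, zT Δ r q k (mvT Δ ψ x) = zT Δ r q k x) ∧
    al0 Δ r q (mvT Δ ψ x).1 (mvT Δ ψ x).2.1 = al0 Δ r q x.1 x.2.1 := by
  obtain ⟨C, σ, n⟩ := x
  obtain ⟨⟨o, R, hC⟩, hn, hq, hpos, hact⟩ := hx
  simp only at hC hn hq hpos hact
  have hal0 : al0 Δ r q (ψ '' C) (mvs Δ ψ σ) = al0 Δ r q C σ := al0_inv H hC q σ ψ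
  refine ⟨⟨⟨ψ o, R, mvf_cone ψ hC⟩, ?_, ?_, ?_, ?_⟩, ?_, ?_, hal0⟩
  · intro v hv
    simp only [mvT, mvc] at hv ⊢
    refine hn _ fun h' => hv ?_
    rw [mvf_oB]
    exact ⟨ψ.symm v, h', ψ.apply_symm_apply v⟩
  · intro v
    exact hq _
  · change 0 < al0 Δ r q (ψ '' C) (mvs Δ ψ σ)
    rw [hal0]
    exact hpos
  · intro h0
    apply hact
    have h1 : mvc Δ ψ.symm (mvc Δ ψ n) = n := by
      funext v
      simp only [mvc]
      congr 1
      exact ψ.symm_apply_apply v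
    have h2 : mvc Δ ψ (σ.2 (mvc Δ ψ.symm (mvc Δ ψ n))) = 0 := h0
    rw [h1] at h2
    funext v
    have h3 := congrFun h2 (ψ v)
    simp only [mvc] at h3
    rw [ψ.symm_apply_apply] at h3
    exact h3
  · intro m
    unfold aT
    have h1 := al_inv H hC q σ hn m ψ
    change al Δ r q (ψ '' C) (mvs Δ ψ σ) (mvc Δ ψ n) m / al0 Δ r q (ψ '' C) (mvs Δ ψ σ) = _
    rw [hal0, h1]
  · intro k
    unfold zT
    change (∑ E ∈ gen Δ k (ψ '' C), be Δ r q (ψ '' C) (mvs Δ ψ σ) (mvc Δ ψ n) E) /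
      al0 Δ r q (ψ '' C) (mvs Δ ψ σ) = (∑ E ∈ gen Δ k C, be Δ r q C σ n E) / al0 Δ r q C σ
    rw [hal0]
    refine congrArg (fun t => t / al0 Δ r q C σ) ?_
    symm
    refine Finset.sum_nbij (fun E => ψ '' E) ?_ ?_ ?_ ?_
    · intro E hE
      exact gen_inv H hC ψ hE
    · intro E _ E' _ hEE
      simp only at hEE
      rw [← symm_image ψ E, hEE, symm_image]
    · intro E hE
      refine ⟨ψ.symm '' E, ?_, image_symm ψ E⟩
      have h1 := gen_inv H (mvf_cone ψ hC) ψ.symm (Finset.mem_coe.1 hE)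
      rw [symm_image] at h1
      exact Finset.mem_coe.2 h1
    · intro E hE
      exact (be_inv H hC q σ hn hE ψ).symm

theorem fin_types (q : ℕ) {C : Set V} : {x : Tr V | x.1 = C ∧ Gd Δ r q x}.Finite := by
  by_cases hc : ∃ o R, Cone Δ o R C
  · obtain ⟨o, R, hC⟩ := hc
    obtain ⟨b, _, _, hb⟩ := exists_bound H
    have hf := (hb o R C hC.comp).2.1
    have h1 : (({C} : Set (Set V)) ×ˢ ((↑(stF Δ r q C) : Set (St V)) ×ˢ
        (↑(fpi (fs (oB Δ C)) (fun _ => Finset.range (q + 1)) 0) : Set (V → ℕ)))).Finite :=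
      (Set.finite_singleton C).prod ((Finset.finite_toSet _).prod (Finset.finite_toSet _))
    refine h1.subset ?_
    rintro ⟨C', σ, n⟩ ⟨h2, h3⟩
    simp only at h2
    subst h2
    obtain ⟨_, hn, hq, hpos, hact⟩ := h3
    simp only at hn hq hpos hact
    refine ⟨rfl, ?_, ?_⟩
    · simp only [Finset.mem_coe]
      by_contra h4
      rw [al0_zero H hC q h4] at hpos
      exact lt_irrefl _ hpos
    · simp only [Finset.mem_coe]
      rw [mem_fpi]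
      refine ⟨fun v _ => Finset.mem_range.2 (Nat.lt_succ_of_le (hq v)), fun v hv => ?_⟩
      exact hn v fun h' => hv ((mem_fs hf).2 h')
  · refine Set.Finite.subset Set.finite_empty ?_
    rintro ⟨C', σ, n⟩ ⟨h2, h3⟩
    simp only at h2
    subst h2
    exact absurd h3.cone hc

theorem exists_rep (q : ℕ) : ∃ rep : {x : Tr V // Gd Δ r q x} → {x : Tr V // Gd Δ r q x},
    (Set.range rep).Finite ∧ (∀ x m, aT Δ r q (rep x).1 m = aT Δ r q x.1 m) ∧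
    (∀ k x, zT Δ r q k (rep x).1 = zT Δ r q k x.1) ∧
    ∀ x, al0 Δ r q (rep x).1.1 (rep x).1.2.1 = al0 Δ r q x.1.1 x.1.2.1 := by
  obtain ⟨𝓣, h𝓣, hT⟩ := cone_types Δ H
  have h1 : ∀ x : {x : Tr V // Gd Δ r q x}, ∃ y : {x : Tr V // Gd Δ r q x}, y.1.1 ∈ 𝓣 ∧
      (∀ m, aT Δ r q y.1 m = aT Δ r q x.1 m) ∧ (∀ k, zT Δ r q k y.1 = zT Δ r q k x.1) ∧
      al0 Δ r q y.1.1 y.1.2.1 = al0 Δ r q x.1.1 x.1.2.1 := by
    rintro ⟨x, hx⟩
    obtain ⟨o, R, hC⟩ := hx.cone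
    obtain ⟨C', hC', φ, hφ, _⟩ := hT o R x.1 hC
    obtain ⟨g1, g2, g3, g4⟩ := mvT_spec H hx φ.symm
    refine ⟨⟨mvT Δ φ.symm x, g1⟩, ?_, g2, g3, g4⟩
    change φ.symm '' x.1 ∈ 𝓣
    rw [← hφ, symm_image]
    exact hC'
  choose rep hr1 hr2 hr3 hr4 using h1
  refine ⟨rep, ?_, fun x m => hr2 x m, fun k x => hr3 x k, hr4⟩
  have h2 : {x : Tr V | x.1 ∈ 𝓣 ∧ Gd Δ r q x}.Finite := by
    refine (h𝓣.biUnion fun C _ => fin_types H q (C := C)).subset ?_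
    rintro x ⟨hx1, hx2⟩
    exact Set.mem_biUnion hx1 ⟨rfl, hx2⟩
  refine (h2.preimage (Subtype.val_injective.injOn)).subset ?_
  rintro _ ⟨x, rfl⟩
  exact ⟨hr1 x, (rep x).2⟩

theorem zT_bdd (q : ℕ) : ∃ C : ℝ, ∀ k (x : {x : Tr V // Gd Δ r q x}), zT Δ r q k x.1 ≤ C := by
  obtain ⟨rep, hfin, _, _, hal⟩ := exists_rep H (Δ := Δ) (r := r) q
  obtain ⟨K, hK⟩ := be_bound H q
  have h1 : ((fun x : {x : Tr V // Gd Δ r q x} => al0 Δ r q x.1.1 x.1.2.1) '' Set.range rep).Finite :=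
    hfin.image _
  obtain ⟨δ, hδ, hmin⟩ := exists_lower h1 (by
    rintro _ ⟨x, _, rfl⟩
    exact x.2.pos)
  refine ⟨max K 0 / δ, fun k x => ?_⟩
  obtain ⟨o, R, hC⟩ := x.2.cone
  have h2 : δ ≤ al0 Δ r q x.1.1 x.1.2.1 := by
    rw [← hal x]
    exact hmin _ ⟨rep x, ⟨x, rfl⟩, rfl⟩
  have h3 := hK o R x.1.1 hC x.1.2.1 x.1.2.2 x.2.supp x.2.le k
  unfold zT
  exact div_le_div₀ (le_max_right _ _) (h3.trans (le_max_left _ _)) hδ h2

/-- the branching system of the cones -/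
noncomputable def sys (q : ℕ) : InfSys {x : Tr V // Gd Δ r q x} (Om V) where
  Out x := OutT Δ r q x.1
  p x ω := pT Δ r q x.1 ω
  p_nonneg := by
    rintro ⟨x, hx⟩ ω hω
    obtain ⟨o, R, hC⟩ := hx.cone
    have hsub : (↑(core Δ x.1) : Set V) ⊆ x.1 := fun v hv => ((mem_core H hC).1 hv).1
    have hcst := (cst_tendsto H hsub).1
    refine div_nonneg (mul_nonneg hcst.le (Finset.prod_nonneg fun D hD => ?_)) hx.pos.le
    exact (dead_of_not H hx hω hD).2.2.2.1.le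
  p_sum := fun x => pT_sum H x.2
  s x ω := sT Δ r x.1 ω
  s_pos := fun x ω hω => sT_pos H x.2 hω
  ch x ω := chT Δ r q x.1 ω
  a x := aT Δ r q x.1
  a_nonneg := by
    rintro ⟨x, hx⟩ m
    obtain ⟨o, R, hC⟩ := hx.cone
    exact div_nonneg (al_nonneg H hC q _ hx.supp m) hx.pos.le
  a_sum := by
    rintro ⟨x, hx⟩
    obtain ⟨o, R, hC⟩ := hx.cone
    have h1 := (al_sum H hC q x.2.1 hx.supp).div_const (al0 Δ r q x.1 x.2.1)
    rwa [div_self hx.pos.ne'] at h1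
  a_rec := fun x m => aT_rec H x.2 m
  Z k x := zT Δ r q k x.1
  Z_zero := by
    rintro ⟨x, hx⟩
    obtain ⟨o, R, hC⟩ := hx.cone
    unfold zT
    simp only [gen, Finset.sum_singleton]
    rw [be_self H hC q x.2.1 hx.supp hx.le, if_neg hx.act]
    exact div_self hx.pos.ne'
  Z_succ := fun k x => zT_succ H x.2 k
  Z_bdd := zT_bdd H q
  rep := (exists_rep H q).choose
  rep_fin := (exists_rep H q).choose_spec.1
  rep_a := (exists_rep H q).choose_spec.2.1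
  rep_Z := (exists_rep H q).choose_spec.2.2.1

theorem typ_upper (q : ℕ) : ∃ K : ℝ, 0 < K ∧ ∀ (o : V) (R : ℕ) (C : Set V), Cone Δ o R C →
    ∀ (σ : St V) (n : V → ℕ), (∀ v, v ∉ oB Δ C → n v = 0) → (∀ v, n v ≤ q) → ∀ m : ℕ, 1 ≤ m →
    al Δ r q C σ n m ≤ K * (m : ℝ) ^ (-(3 / 2 : ℝ)) * al0 Δ r q C σ := by
  obtain ⟨K, hK, hb⟩ := binf_upper (sys H (Δ := Δ) (r := r) q)
  refine ⟨K, hK, fun o R C hC σ n hn hq m hm => ?_⟩
  have hnn := al0_nonneg H hC q σ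
  rcases hnn.eq_or_lt with h0 | hpos
  · rw [al_zero H hC q σ hn h0.symm, ← h0, mul_zero]
  · by_cases hact : σ.2 n = 0
    · rw [al_dead H hC q σ hn hq hact, if_neg (by omega)]
      positivity
    · have h1 := hb ⟨(C, σ, n), ⟨⟨o, R, hC⟩, hn, hq, hpos, hact⟩⟩ m hm
      change al Δ r q C σ n m / al0 Δ r q C σ ≤ _ at h1
      rwa [div_le_iff₀ hpos] at h1

theorem typ_lower {o : V} {R : ℕ} {C : Set V} (hC : Cone Δ o R C) (q : ℕ) (σ : St V) {n : V → ℕ}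
    (hn : ∀ v, v ∉ oB Δ C → n v = 0) (hq : ∀ v, n v ≤ q)
    (hs : ¬ Summable (fun m : ℕ => (m : ℝ) * al Δ r q C σ n m)) :
    ∃ (g ρ : ℕ) (c : ℝ) (m₀ : ℕ), 1 ≤ g ∧ 0 < c ∧
      ∀ m, m₀ ≤ m → m ≡ ρ [MOD g] → c * (m : ℝ) ^ (-(3 / 2 : ℝ)) ≤ al Δ r q C σ n m := by
  have hnn := al0_nonneg H hC q σ
  rcases hnn.eq_or_lt with h0 | hpos
  · exfalso
    apply hs
    have h1 : (fun m : ℕ => (m : ℝ) * al Δ r q C σ n m) = fun _ => 0 := by
      funext m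
      rw [al_zero H hC q σ hn h0.symm, mul_zero]
    rw [h1]
    exact summable_zero
  · by_cases hact : σ.2 n = 0
    · exfalso
      apply hs
      have h1 : (fun m : ℕ => (m : ℝ) * al Δ r q C σ n m) = fun _ => 0 := by
        funext m
        rw [al_dead H hC q σ hn hq hact]
        split_ifs with h2
        · rw [h2]; simp
        · simp
      rw [h1]
      exact summable_zero
    · obtain ⟨g, ρ, c, m₀, hg, hc, hb⟩ := binf_lower (sys H (Δ := Δ) (r := r) q)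
        ⟨(C, σ, n), ⟨⟨o, R, hC⟩, hn, hq, hpos, hact⟩⟩ (by
          intro h1
          apply hs
          have h2 := h1.mul_right (al0 Δ r q C σ)
          refine h2.congr fun m => ?_
          change (m : ℝ) * (al Δ r q C σ n m / al0 Δ r q C σ) * al0 Δ r q C σ = (m : ℝ) * al Δ r q C σ n m
          rw [mul_assoc, div_mul_cancel₀ _ hpos.ne'])
      refine ⟨g, ρ, c * al0 Δ r q C σ, m₀, hg, mul_pos hc hpos, fun m hm hmod => ?_⟩
      have h1 := hb m hm hmod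
      change c * (m : ℝ) ^ (-(3 / 2 : ℝ)) ≤ al Δ r q C σ n m / al0 Δ r q C σ at h1
      rw [le_div_iff₀ hpos] at h1
      calc c * al0 Δ r q C σ * (m : ℝ) ^ (-(3 / 2 : ℝ)) = c * (m : ℝ) ^ (-(3 / 2 : ℝ)) * al0 Δ r q C σ := by ring
        _ ≤ _ := h1

end Pool.Agent.Sand.TYP
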