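import Mathlib

/-!
# MP_4555f0_mp: basic definitions (graph part)

Everything is about an infinite connected locally finite `r`-regular vertex-transitive graph `Δ` satisfying an
isoperimetric inequality with constant `h` and the bottleneck property with constant `D0` (`Hyp Δ r h D0`).
-/

set_option autoImplicit false
open scoped Classical

namespace Pool.Agent.Sand

variable {V : Type} (Δ : SimpleGraph V) [Δ.LocallyFinite]

/-- number of neighbours of `v` in `W` -/
noncomputable def nb (v : V) (W : Finset V) : ℕ := (Δ.neighborFinset v ∩ W).card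

/-- number of edges leaving the finite set `S` -/
noncomputable def bdE (S : Finset V) : ℕ := ∑ v ∈ S, (Δ.neighborFinset v \ S).card

/-- number of edges from `S` to `Y \ S` -/
noncomputable def bdY (Y : Set V) (S : Finset V) : ℕ :=
  ∑ v ∈ S, ((Δ.neighborFinset v \ S).filter (· ∈ Y)).card

/-- `C` is a connected component of the complement of `K` -/
structure IsComp (Δ : SimpleGraph V) (K C : Set V) : Prop where
  disj : Disjoint C K
  closed : ∀ x ∈ C, ∀ y, Δ.Adj x y → y ∉ C → y ∈ K
  conn : (Δ.induce C).Connected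

/-- closed ball -/
def cb (o : V) (R : ℕ) : Set V := {v | Δ.dist o v ≤ R}

/-- `C` is a cone of rank `R`: an infinite component of the complement of the ball of radius `R` -/
structure Cone (o : V) (R : ℕ) (C : Set V) : Prop where
  comp : IsComp Δ (cb Δ o R) C
  inf : C.Infinite

/-- outer boundary -/
def oB (C : Set V) : Set V := {w | w ∉ C ∧ ∃ v ∈ C, Δ.Adj v w}

/-- inner boundary -/
def iB (C : Set V) : Set V := {v | v ∈ C ∧ ∃ w, w ∉ C ∧ Δ.Adj v w}

/-- filled ball: complement of the union of the cones of rank `R` -/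
def fb (o : V) (R : ℕ) : Set V := {v | ∀ C, Cone Δ o R C → v ∉ C}

/-- sphere -/
def sph (o : V) (R : ℕ) : Set V := {v | Δ.dist o v = R}

/-- a set as a finset (empty if the set is infinite) -/
noncomputable def fs (S : Set V) : Finset V := if h : S.Finite then h.toFinset else ∅

theorem mem_fs {S : Set V} (h : S.Finite) {v : V} : v ∈ fs S ↔ v ∈ S := by
  simp [fs, h]

/-- standing hypotheses -/
structure Hyp (Δ : SimpleGraph V) [Δ.LocallyFinite] (r : ℕ) (h : ℝ) (D0 : ℕ) : Prop where
  reg : ∀ v, Δ.degree v = r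
  conn : Δ.Connected
  inf : Infinite V
  trans : ∀ x y, ∃ φ : Δ ≃g Δ, φ x = y
  hpos : 0 < h
  iso : ∀ S : Finset V, h * (S.card : ℝ) ≤ (bdE Δ S : ℝ)
  bott : ∀ o R C, IsComp Δ (cb Δ o R) C → ∀ x ∈ C, ∀ y ∈ C, Δ.dist o x = R + 1 → Δ.dist o y = R + 1 →
    Δ.dist x y ≤ D0

/-- quasi-isometry of graphs -/
def QI {W : Type} (Δ : SimpleGraph V) (T : SimpleGraph W) : Prop :=
  ∃ (f : V → W) (L K : ℕ), (∀ x y, T.dist (f x) (f y) ≤ L * Δ.dist x y + K) ∧
    (∀ x y, Δ.dist x y ≤ L * T.dist (f x) (f y) + K) ∧ ∀ w, ∃ x, T.dist (f x) w ≤ K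

/-- degree inside `Y` -/
noncomputable def degY (Y : Set V) (v : V) : ℕ := ((Δ.neighborFinset v).filter (· ∈ Y)).card

/-- `k`-step transition probabilities of simple random walk killed outside `S` -/
noncomputable def pk (r : ℕ) (S : Set V) : ℕ → V → V → ℝ
  | 0, x, y => if x = y ∧ x ∈ S then 1 else 0
  | k + 1, x, y => if x ∈ S then (1 / (r : ℝ)) * ∑ w ∈ Δ.neighborFinset x, pk r S k w y else 0

/-- Green function (inverse of `r - A` on `S`) -/
noncomputable def gr (r : ℕ) (S : Set V) (x y : V) : ℝ := (1 / (r : ℝ)) * ∑' k, pk Δ r S k x y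

end Pool.Agent.Sand
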