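import Pool.Agent.SandFin.BrBase

set_option autoImplicit false

namespace Pool.Agent.SandBr

variable {Θ : Type} [Fintype Θ]

open Classical in
/-- `M` with the columns in `R` deleted, applied to `v` -/
noncomputable def brA1_mr (M : Matrix Θ Θ ℝ) (R : Finset Θ) (v : Θ → ℝ) : Θ → ℝ :=
  fun θ => ∑ θ', (if θ' ∈ R then 0 else M θ θ' * v θ')

theorem brA1_add (M : Matrix Θ Θ ℝ) (R : Finset Θ) (v w : Θ → ℝ) (θ : Θ) :
    brA1_mr M R (fun i => v i + w i) θ = brA1_mr M R v θ + brA1_mr M R w θ := by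
  unfold brA1_mr
  rw [← Finset.sum_add_distrib]
  refine Finset.sum_congr rfl fun i _ => ?_
  split_ifs <;> ring

theorem brA1_smul (M : Matrix Θ Θ ℝ) (R : Finset Θ) (c : ℝ) (v : Θ → ℝ) (θ : Θ) :
    brA1_mr M R (fun i => c * v i) θ = c * brA1_mr M R v θ := by
  unfold brA1_mr
  rw [Finset.mul_sum]
  refine Finset.sum_congr rfl fun i _ => ?_
  split_ifs <;> ring

theorem brA1_mono (M : Matrix Θ Θ ℝ) (hM : ∀ i j, 0 ≤ M i j) (R : Finset Θ) (v w : Θ → ℝ)
    (h : ∀ i, v i ≤ w i) (θ : Θ) : brA1_mr M R v θ ≤ brA1_mr M R w θ := by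
  unfold brA1_mr
  refine Finset.sum_le_sum fun i _ => ?_
  split_ifs
  · exact le_rfl
  · exact mul_le_mul_of_nonneg_left (h i) (hM _ _)

theorem brA1_nonneg (M : Matrix Θ Θ ℝ) (hM : ∀ i j, 0 ≤ M i j) (R : Finset Θ) (v : Θ → ℝ)
    (h : ∀ i, 0 ≤ v i) (θ : Θ) : 0 ≤ brA1_mr M R v θ := by
  unfold brA1_mr
  refine Finset.sum_nonneg fun i _ => ?_
  split_ifs
  · exact le_rfl
  · exact mul_nonneg (hM _ _) (h i)

theorem brA1_sub_zero (M : Matrix Θ Θ ℝ) (hM : ∀ i j, 0 ≤ M i j) (R : Finset Θ) (h : Θ → ℝ)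
    (hR : Cert M R h) (y : Θ → ℝ) (hy : ∀ i, 0 ≤ y i) (hy2 : ∀ i, y i ≤ brA1_mr M R y i) :
    ∀ i, y i = 0 := by
  intro i
  have : Nonempty Θ := ⟨i⟩
  obtain ⟨θ0, h0⟩ := Finite.exists_max (fun θ => y θ / h θ)
  have hpos : ∀ θ, 0 < h θ := fun θ => lt_of_lt_of_le one_pos (hR.1 θ)
  have hle : ∀ θ, y θ ≤ y θ0 / h θ0 * h θ := by
    intro θ
    have := h0 θ
    rwa [div_le_iff₀ (hpos θ)] at this
  have hc : 0 ≤ y θ0 / h θ0 := div_nonneg (hy _) (hpos _).le
  have h1 : y θ0 ≤ y θ0 / h θ0 * (h θ0 - 1) := by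
    calc y θ0 ≤ brA1_mr M R y θ0 := hy2 θ0
      _ ≤ brA1_mr M R (fun i => y θ0 / h θ0 * h i) θ0 := brA1_mono M hM R _ _ hle θ0
      _ = y θ0 / h θ0 * brA1_mr M R h θ0 := brA1_smul M R _ h θ0
      _ ≤ y θ0 / h θ0 * (h θ0 - 1) := by
          refine mul_le_mul_of_nonneg_left ?_ hc
          have := hR.2 θ0
          unfold brA1_mr
          linarith
  have h2 : y θ0 / h θ0 * h θ0 = y θ0 := div_mul_cancel₀ _ (hpos θ0).ne'
  have h3 : y θ0 / h θ0 ≤ 0 := by nlinarith
  have h4 : y θ0 / h θ0 = 0 := le_antisymm h3 hc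
  have := hle i
  rw [h4, zero_mul] at this
  exact le_antisymm this (hy i)

/-- solutions of `y = v + M_R y` -/
theorem brA1_solve (M : Matrix Θ Θ ℝ) (hM : ∀ i j, 0 ≤ M i j) (R : Finset Θ) (h : Θ → ℝ)
    (hR : Cert M R h) (v : Θ → ℝ) (hv : ∀ i, 0 ≤ v i) :
    ∃ y : Θ → ℝ, (∀ i, 0 ≤ y i) ∧ ∀ i, y i = v i + brA1_mr M R y i := by
  let Lm : (Θ → ℝ) →ₗ[ℝ] (Θ → ℝ) :=
    { toFun := fun y i => y i - brA1_mr M R y i
      map_add' := by
        intro y z
        funext i
        have := brA1_add M R y z i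
        simp only [Pi.add_apply]
        have h2 : brA1_mr M R (y + z) i = brA1_mr M R y i + brA1_mr M R z i := this
        rw [h2]; ring
      map_smul' := by
        intro c y
        funext i
        have h2 : brA1_mr M R (c • y) i = c * brA1_mr M R y i := brA1_smul M R c y i
        simp only [Pi.smul_apply, smul_eq_mul, RingHom.id_apply]
        rw [h2]; ring }
  have hinj : Function.Injective Lm := by
    rw [injective_iff_map_eq_zero]
    intro y hy
    have h1 : ∀ i, y i = brA1_mr M R y i := by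
      intro i
      have : (Lm y) i = 0 := by rw [hy]; rfl
      have h2 : y i - brA1_mr M R y i = 0 := this
      linarith
    have h2 := brA1_sub_zero M hM R h hR (fun i => |y i|) (fun i => abs_nonneg _) (by
      intro i
      rw [h1 i]
      unfold brA1_mr
      refine (Finset.abs_sum_le_sum_abs _ _).trans ?_
      refine Finset.sum_le_sum fun j _ => ?_
      split_ifs
      · simp
      · rw [abs_mul, abs_of_nonneg (hM _ _)])
    funext i
    simpa using h2 i
  have hsurj : Function.Surjective Lm := LinearMap.injective_iff_surjective.mp hinj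
  obtain ⟨y, hy⟩ := hsurj v
  have hyeq : ∀ i, y i = v i + brA1_mr M R y i := by
    intro i
    have : (Lm y) i = v i := by rw [hy]
    have h2 : y i - brA1_mr M R y i = v i := this
    linarith
  refine ⟨y, ?_, hyeq⟩
  have h2 := brA1_sub_zero M hM R h hR (fun i => max (-y i) 0) (fun i => le_max_right _ _) (by
    intro i
    refine max_le ?_ (brA1_nonneg M hM R _ (fun i => le_max_right _ _) i)
    have h3 : -y i ≤ brA1_mr M R (fun j => (-1 : ℝ) * y j) i := by
      rw [brA1_smul]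
      have := hyeq i
      have := hv i
      linarith
    refine h3.trans (brA1_mono M hM R _ _ (fun j => ?_) i)
    simp)
  intro i
  have := h2 i
  have h3 : -y i ≤ 0 := by
    rw [← this]; exact le_max_left _ _
  linarith

/-- iteration of a sub-solution -/
theorem brA1_iter [DecidableEq Θ] (M : Matrix Θ Θ ℝ) (hM : ∀ i j, 0 ≤ M i j) (C : ℝ)
    (hC : ∀ (k : ℕ) i j, (M ^ k) i j ≤ C) (x : ℝ) (hx0 : 0 < x) (hx1 : x < 1) (χ v : Θ → ℝ)
    (hv : ∀ i, 0 ≤ v i) (h : ∀ i, χ i ≤ v i + x * ∑ j, M i j * χ j) (i : Θ) :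
    χ i ≤ C * (∑ j, v j) / (1 - x) := by
  have hMk : ∀ (k : ℕ) i j, 0 ≤ (M ^ k) i j := by
    intro k
    induction k with
    | zero =>
      intro i j
      rw [pow_zero, Matrix.one_apply]
      split_ifs <;> norm_num
    | succ k ih =>
      intro i j
      rw [pow_succ, Matrix.mul_apply]
      exact Finset.sum_nonneg fun l _ => mul_nonneg (ih _ _) (hM _ _)
  have hstep : ∀ n : ℕ, ∀ i, χ i ≤ ∑ k ∈ Finset.range n, x ^ k * ∑ j, (M ^ k) i j * v j
      + x ^ n * ∑ j, (M ^ n) i j * χ j := by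
    intro n
    induction n with
    | zero =>
      intro i
      simp [Matrix.one_apply]
    | succ n ih =>
      intro i
      refine (ih i).trans ?_
      rw [Finset.sum_range_succ, add_assoc]
      refine add_le_add_right ?_ _
      have h1 : ∑ j, (M ^ n) i j * χ j ≤ ∑ j, (M ^ n) i j * (v j + x * ∑ l, M j l * χ l) :=
        Finset.sum_le_sum fun j _ => mul_le_mul_of_nonneg_left (h j) (hMk n i j)
      have h2 : ∑ j, (M ^ n) i j * (v j + x * ∑ l, M j l * χ l)
          = ∑ j, (M ^ n) i j * v j + x * ∑ j, (M ^ (n + 1)) i j * χ j := by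
        have h3 : ∑ j, (M ^ (n + 1)) i j * χ j = ∑ j, (M ^ n) i j * ∑ l, M j l * χ l := by
          simp only [pow_succ, Matrix.mul_apply, Finset.sum_mul, Finset.mul_sum]
          rw [Finset.sum_comm]
          refine Finset.sum_congr rfl fun j _ => Finset.sum_congr rfl fun l _ => ?_
          ring
        rw [h3, Finset.mul_sum, ← Finset.sum_add_distrib]
        refine Finset.sum_congr rfl fun j _ => ?_
        ring
      calc x ^ n * ∑ j, (M ^ n) i j * χ j ≤ x ^ n * (∑ j, (M ^ n) i j * v j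
              + x * ∑ j, (M ^ (n + 1)) i j * χ j) := by
            refine mul_le_mul_of_nonneg_left ?_ (pow_nonneg hx0.le _)
            rw [← h2]; exact h1
        _ = x ^ n * ∑ j, (M ^ n) i j * v j + x ^ (n + 1) * ∑ j, (M ^ (n + 1)) i j * χ j := by
            ring
  have hC0 : 0 ≤ C := (hMk 0 i i).trans (hC 0 i i)
  have hV : 0 ≤ ∑ j, v j := Finset.sum_nonneg fun j _ => hv j
  have hbd : ∀ n : ℕ, χ i ≤ C * (∑ j, v j) / (1 - x) + x ^ n * (C * ∑ j, |χ j|) := by
    intro n
    refine (hstep n i).trans ?_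
    refine add_le_add ?_ ?_
    · have h1 : ∀ k ∈ Finset.range n, x ^ k * ∑ j, (M ^ k) i j * v j ≤ x ^ k * (C * ∑ j, v j) := by
        intro k _
        refine mul_le_mul_of_nonneg_left ?_ (pow_nonneg hx0.le _)
        rw [Finset.mul_sum]
        exact Finset.sum_le_sum fun j _ => mul_le_mul_of_nonneg_right (hC k i j) (hv j)
      refine (Finset.sum_le_sum h1).trans ?_
      rw [← Finset.sum_mul]
      have h2 : ∑ k ∈ Finset.range n, x ^ k ≤ (1 - x)⁻¹ := by
        rw [← tsum_geometric_of_lt_one hx0.le hx1]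
        exact (summable_geometric_of_lt_one hx0.le hx1).sum_le_tsum _ (fun _ _ => pow_nonneg hx0.le _)
      calc (∑ k ∈ Finset.range n, x ^ k) * (C * ∑ j, v j) ≤ (1 - x)⁻¹ * (C * ∑ j, v j) :=
            mul_le_mul_of_nonneg_right h2 (mul_nonneg hC0 hV)
        _ = C * (∑ j, v j) / (1 - x) := by rw [div_eq_mul_inv]; ring
    · refine mul_le_mul_of_nonneg_left ?_ (pow_nonneg hx0.le _)
      rw [Finset.mul_sum]
      refine Finset.sum_le_sum fun j _ => ?_
      calc (M ^ n) i j * χ j ≤ (M ^ n) i j * |χ j| :=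
            mul_le_mul_of_nonneg_left (le_abs_self _) (hMk n i j)
        _ ≤ C * |χ j| := mul_le_mul_of_nonneg_right (hC n i j) (abs_nonneg _)
  have ht : Filter.Tendsto (fun n : ℕ => C * (∑ j, v j) / (1 - x) + x ^ n * (C * ∑ j, |χ j|))
      Filter.atTop (nhds (C * (∑ j, v j) / (1 - x) + 0 * (C * ∑ j, |χ j|))) :=
    tendsto_const_nhds.add ((tendsto_pow_atTop_nhds_zero_of_lt_one hx0.le hx1).mul_const _)
  have := ge_of_tendsto' ht hbd
  simpa using this

open Classical in
/-- test vector -/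
noncomputable def brA1_chi (R : Finset Θ) (t : Θ) (x : ℝ) (ψ κ : Θ → ℝ) : Θ → ℝ :=
  fun i => if i ∈ R then (if i = t then 1 else 0) else max (ψ i - (1 - x) * κ i) 0

theorem brA1_test (M : Matrix Θ Θ ℝ) (hM : ∀ i j, 0 ≤ M i j) (R : Finset Θ) (t : Θ) (ht : t ∈ R)
    (x : ℝ) (hx0 : 0 < x) (hx1 : x < 1) (ψ κ : Θ → ℝ)
    (hψ : ∀ i, ψ i = M i t + brA1_mr M R ψ i) (hκ : ∀ i, κ i = ψ i + brA1_mr M R κ i)
    (hκ0 : ∀ i, 0 ≤ κ i) (i : Θ) :
    max (ψ i - (1 - x) * κ i) 0 ≤ x * ∑ j, M i j * brA1_chi R t x ψ κ j := by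
  classical
  have h1 : ∑ j, M i j * brA1_chi R t x ψ κ j
      = M i t + brA1_mr M R (fun j => max (ψ j - (1 - x) * κ j) 0) i := by
    have h2 : ∀ j, M i j * brA1_chi R t x ψ κ j = (if j = t then M i t else 0)
        + (if j ∈ R then 0 else M i j * max (ψ j - (1 - x) * κ j) 0) := by
      intro j
      unfold brA1_chi
      by_cases hj : j ∈ R
      · by_cases hjt : j = t
        · subst hjt; simp [hj]
        · simp [hj, hjt]
      · have : j ≠ t := fun h => hj (h ▸ ht)
        simp [hj, this]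
    rw [Finset.sum_congr rfl fun j _ => h2 j, Finset.sum_add_distrib]
    congr 1
    simp
  rw [h1]
  refine max_le ?_ (mul_nonneg hx0.le (add_nonneg (hM _ _)
    (brA1_nonneg M hM R _ (fun j => le_max_right _ _) i)))
  have h3 : brA1_mr M R (fun j => ψ j + (-(1 - x)) * κ j) i
      ≤ brA1_mr M R (fun j => max (ψ j - (1 - x) * κ j) 0) i := by
    refine brA1_mono M hM R _ _ (fun j => ?_) i
    refine le_trans (le_of_eq ?_) (le_max_left _ _)
    ring
  rw [brA1_add M R ψ (fun j => (-(1 - x)) * κ j) i, brA1_smul] at h3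
  have h4 : ψ i ≤ κ i := by
    rw [hκ i]
    have := brA1_nonneg M hM R κ hκ0 i
    linarith
  have h5 : x * (M i t + (brA1_mr M R ψ i + -(1 - x) * brA1_mr M R κ i)) ≤
      x * (M i t + brA1_mr M R (fun j => max (ψ j - (1 - x) * κ j) 0) i) :=
    mul_le_mul_of_nonneg_left (by linarith) hx0.le
  refine le_trans ?_ h5
  have h6 : brA1_mr M R ψ i = ψ i - M i t := by have := hψ i; linarith
  have h7 : brA1_mr M R κ i = κ i - ψ i := by have := hκ i; linarith
  rw [h6, h7]
  nlinarith [mul_nonneg (sq_nonneg (1 - x)) (sub_nonneg.2 h4)]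

omit [Fintype Θ] in
theorem brA1_chi_self (R : Finset Θ) (t : Θ) (ht : t ∈ R) (x : ℝ) (ψ κ : Θ → ℝ) :
    brA1_chi R t x ψ κ t = 1 := by
  classical
  simp [brA1_chi, ht]

omit [Fintype Θ] in
theorem brA1_chi_other (R : Finset Θ) (t r : Θ) (hr : r ∈ R) (hrt : r ≠ t) (x : ℝ) (ψ κ : Θ → ℝ) :
    brA1_chi R t x ψ κ r = 0 := by
  classical
  simp [brA1_chi, hr, hrt]

omit [Fintype Θ] in
theorem brA1_chi_out (R : Finset Θ) (t r : Θ) (hr : r ∉ R) (x : ℝ) (ψ κ : Θ → ℝ) :
    brA1_chi R t x ψ κ r = max (ψ r - (1 - x) * κ r) 0 := by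
  classical
  simp [brA1_chi, hr]

/-- `ψ_t(t) ≤ 1` -/
theorem brA1_le_one [DecidableEq Θ] (M : Matrix Θ Θ ℝ) (hM : ∀ i j, 0 ≤ M i j) (C : ℝ)
    (hC : ∀ (k : ℕ) i j, (M ^ k) i j ≤ C) (R : Finset Θ) (t : Θ) (ht : t ∈ R) (ψ κ : Θ → ℝ)
    (hψ : ∀ i, ψ i = M i t + brA1_mr M R ψ i) (hκ : ∀ i, κ i = ψ i + brA1_mr M R κ i)
    (hκ0 : ∀ i, 0 ≤ κ i) : ψ t ≤ 1 := by
  by_contra hcon
  push Not at hcon
  -- choose x
  set x : ℝ := max (1 / 2) (1 - (ψ t - 1) / (κ t + 1)) with hx
  have hk1 : 0 < κ t + 1 := by have := hκ0 t; linarith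
  have hx0 : 0 < x := lt_of_lt_of_le (by norm_num) (le_max_left _ _)
  have hx1 : x < 1 := by
    refine max_lt (by norm_num) ?_
    have : 0 < (ψ t - 1) / (κ t + 1) := div_pos (by linarith) hk1
    linarith
  have hu : 1 ≤ ψ t - (1 - x) * κ t := by
    have h1 : 1 - (ψ t - 1) / (κ t + 1) ≤ x := le_max_right _ _
    have h2 : (1 - x) * κ t ≤ (ψ t - 1) / (κ t + 1) * κ t :=
      mul_le_mul_of_nonneg_right (by linarith) (hκ0 t)
    have h3 : (ψ t - 1) / (κ t + 1) * κ t ≤ ψ t - 1 := by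
      rw [div_mul_eq_mul_div, div_le_iff₀ hk1]
      nlinarith [hκ0 t]
    linarith
  have h1 := brA1_iter M hM C hC x hx0 hx1 (brA1_chi R t x ψ κ) (fun _ => 0) (fun _ => le_rfl) (by
    intro i
    have htest := brA1_test M hM R t ht x hx0 hx1 ψ κ hψ hκ hκ0 i
    rw [zero_add]
    refine le_trans ?_ htest
    by_cases hi : i ∈ R
    · by_cases hit : i = t
      · subst hit
        rw [brA1_chi_self R i hi]
        exact le_max_of_le_left hu
      · rw [brA1_chi_other R t i hi hit]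
        exact le_max_right _ _
    · rw [brA1_chi_out R t i hi]) t
  rw [brA1_chi_self R t ht] at h1
  simp at h1
  linarith

/-- off-diagonal vanishing -/
theorem brA1_off [DecidableEq Θ] (M : Matrix Θ Θ ℝ) (hM : ∀ i j, 0 ≤ M i j) (C : ℝ)
    (hC : ∀ (k : ℕ) i j, (M ^ k) i j ≤ C) (R : Finset Θ) (t t' : Θ) (ht : t ∈ R) (ht' : t' ∈ R)
    (htt : t ≠ t') (ψ κ ψ' κ' : Θ → ℝ)
    (hψ : ∀ i, ψ i = M i t + brA1_mr M R ψ i) (hκ : ∀ i, κ i = ψ i + brA1_mr M R κ i)
    (hκ0 : ∀ i, 0 ≤ κ i)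
    (hψ' : ∀ i, ψ' i = M i t' + brA1_mr M R ψ' i) (hκ' : ∀ i, κ' i = ψ' i + brA1_mr M R κ' i)
    (hκ0' : ∀ i, 0 ≤ κ' i) (h1 : ψ t = 1) (h1' : ψ' t' = 1) : ψ' t ≤ 0 := by
  have hk1 : 1 ≤ κ t := by
    rw [hκ t, h1]
    have := brA1_nonneg M hM R κ hκ0 t
    linarith
  have hk2 : 1 ≤ κ' t' := by
    rw [hκ' t', h1']
    have := brA1_nonneg M hM R κ' hκ0' t'
    linarith
  have hk3 : 0 ≤ κ' t := hκ0' t
  by_contra hcon
  push Not at hcon
  have hC0 : 0 ≤ C := by
    have := hC 0 t t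
    rw [pow_zero, Matrix.one_apply_eq] at this
    linarith
  -- main inequality for x close to 1
  have hmain : ∀ x : ℝ, 0 < x → x < 1 → 0 < ψ' t - (1 - x) * κ' t →
      ψ' t - (1 - x) * κ' t ≤ C * κ t * κ' t' * (1 - x) := by
    intro x hx0 hx1 hg
    have hy : 0 < 1 - x := by linarith
    set B : ℝ := 1 / ((1 - x) * κ' t') with hB
    set A : ℝ := B * (ψ' t - (1 - x) * κ' t) / ((1 - x) * κ t) with hA
    have hBpos : 0 < B := by rw [hB]; positivity
    have hApos : 0 < A := by rw [hA]; positivity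
    have hiter := brA1_iter M hM C hC x hx0 hx1
      (fun i => A * brA1_chi R t x ψ κ i + B * brA1_chi R t' x ψ' κ' i)
      (fun i => if i = t' then 1 else 0) (fun i => by split_ifs <;> norm_num) (by
      intro i
      have hT := brA1_test M hM R t ht x hx0 hx1 ψ κ hψ hκ hκ0 i
      have hT' := brA1_test M hM R t' ht' x hx0 hx1 ψ' κ' hψ' hκ' hκ0' i
      have hsum : x * ∑ j, M i j * (A * brA1_chi R t x ψ κ j + B * brA1_chi R t' x ψ' κ' j)
          = A * (x * ∑ j, M i j * brA1_chi R t x ψ κ j)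
            + B * (x * ∑ j, M i j * brA1_chi R t' x ψ' κ' j) := by
        have : ∀ j, M i j * (A * brA1_chi R t x ψ κ j + B * brA1_chi R t' x ψ' κ' j)
            = A * (M i j * brA1_chi R t x ψ κ j) + B * (M i j * brA1_chi R t' x ψ' κ' j) := by
          intro j; ring
        rw [Finset.sum_congr rfl fun j _ => this j, Finset.sum_add_distrib, ← Finset.mul_sum,
          ← Finset.mul_sum]
        ring
      rw [hsum]
      have hT2 := mul_le_mul_of_nonneg_left hT hApos.le
      have hT2' := mul_le_mul_of_nonneg_left hT' hBpos.le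
      by_cases hi : i ∈ R
      · by_cases hit : i = t
        · subst hit
          rw [brA1_chi_self R i hi, brA1_chi_other R t' i hi htt, if_neg htt]
          have e1 : ψ i - (1 - x) * κ i ≤ max (ψ i - (1 - x) * κ i) 0 := le_max_left _ _
          have e2 : ψ' i - (1 - x) * κ' i ≤ max (ψ' i - (1 - x) * κ' i) 0 := le_max_left _ _
          have e3 := mul_le_mul_of_nonneg_left e1 hApos.le
          have e4 := mul_le_mul_of_nonneg_left e2 hBpos.le
          have e5 : A * ((1 - x) * κ i) = B * (ψ' i - (1 - x) * κ' i) := by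
            rw [hA]; field_simp
          rw [h1] at e3 hT2
          nlinarith
        · by_cases hit' : i = t'
          · subst hit'
            rw [brA1_chi_self R i hi, brA1_chi_other R t i hi hit, if_pos rfl]
            have e2 : ψ' i - (1 - x) * κ' i ≤ max (ψ' i - (1 - x) * κ' i) 0 := le_max_left _ _
            have e3 : (0:ℝ) ≤ max (ψ i - (1 - x) * κ i) 0 := le_max_right _ _
            have e4 := mul_le_mul_of_nonneg_left e2 hBpos.le
            have e6 := mul_nonneg hApos.le e3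
            have e5 : B * ((1 - x) * κ' i) = 1 := by
              rw [hB]; field_simp
            rw [h1'] at e4 hT2'
            nlinarith
          · rw [brA1_chi_other R t i hi hit, brA1_chi_other R t' i hi hit', if_neg hit']
            have e3 : (0:ℝ) ≤ max (ψ i - (1 - x) * κ i) 0 := le_max_right _ _
            have e4 : (0:ℝ) ≤ max (ψ' i - (1 - x) * κ' i) 0 := le_max_right _ _
            have e6 := mul_nonneg hApos.le e3
            have e7 := mul_nonneg hBpos.le e4
            linarith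
      · have hit' : i ≠ t' := fun h => hi (h ▸ ht')
        rw [brA1_chi_out R t i hi, brA1_chi_out R t' i hi, if_neg hit']
        linarith) t
    have hval : A * brA1_chi R t x ψ κ t + B * brA1_chi R t' x ψ' κ' t = A := by
      rw [brA1_chi_self R t ht, brA1_chi_other R t' t ht htt]
      ring
    rw [hval] at hiter
    simp at hiter
    rw [le_div_iff₀ hy] at hiter
    have e1 : A * (1 - x) = (ψ' t - (1 - x) * κ' t) / ((1 - x) * κ' t' * κ t) := by
      rw [hA, hB]; field_simp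
    rw [e1, div_le_iff₀ (by positivity)] at hiter
    nlinarith
  -- let x tend to 1
  set D : ℝ := κ' t + C * κ t * κ' t' with hD
  have hD0 : 0 ≤ D := by rw [hD]; positivity
  set y : ℝ := min (1 / 2) (ψ' t / (2 * (D + 1))) with hy
  have hy0 : 0 < y := by
    rw [hy]; exact lt_min (by norm_num) (by positivity)
  have hy1 : y ≤ 1 / 2 := min_le_left _ _
  have hy2 : y ≤ ψ' t / (2 * (D + 1)) := min_le_right _ _
  have hy3 : y * (D + 1) ≤ ψ' t / 2 := by
    calc y * (D + 1) ≤ ψ' t / (2 * (D + 1)) * (D + 1) :=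
          mul_le_mul_of_nonneg_right hy2 (by linarith)
      _ = ψ' t / 2 := by field_simp
  have hyk : y * κ' t ≤ y * D := by
    refine mul_le_mul_of_nonneg_left ?_ hy0.le
    rw [hD]
    have : 0 ≤ C * κ t * κ' t' := by positivity
    linarith
  have h := hmain (1 - y) (by linarith) (by linarith) (by
    have : 1 - (1 - y) = y := by ring
    rw [this]
    nlinarith)
  have e : 1 - (1 - y) = y := by ring
  rw [e] at h
  have : y * D = y * κ' t + y * (C * κ t * κ' t') := by rw [hD]; ring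
  nlinarith

/-- T-A1 -/
theorem br_cert [DecidableEq Θ] (M : Matrix Θ Θ ℝ) (hM : ∀ i j, 0 ≤ M i j) (C : ℝ)
    (hC : ∀ (k : ℕ) i j, (M ^ k) i j ≤ C) :
    ∃ (R : Finset Θ) (h : Θ → ℝ), Cert M R h ∧ ∀ t ∈ R, ∃ (E : Finset Θ) (ψ : Θ → ℝ), Blk M R t E ψ := by
  obtain ⟨R, ⟨h, hR⟩, hmin⟩ := (Set.toFinite {R : Finset Θ | ∃ h, Cert M R h}).exists_minimal
    ⟨Finset.univ, fun _ => 1, fun _ => le_rfl, fun θ => by simp⟩
  refine ⟨R, h, hR, ?_⟩
  have hpos : ∀ θ, 0 < h θ := fun θ => lt_of_lt_of_le one_pos (hR.1 θ)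
  choose ψ hψ0 hψ using fun t => brA1_solve M hM R h hR (fun i => M i t) (fun i => hM i t)
  choose κ hκ0 hκ using fun t => brA1_solve M hM R h hR (ψ t) (hψ0 t)
  have hle : ∀ t ∈ R, ψ t t ≤ 1 := fun t ht =>
    brA1_le_one M hM C hC R t ht (ψ t) (κ t) (hψ t) (hκ t) (hκ0 t)
  have hge : ∀ t ∈ R, 1 ≤ ψ t t := by
    intro t ht
    by_contra hcon
    push Not at hcon
    have hα : 0 < h t / (1 - ψ t t) := div_pos (hpos t) (by linarith)
    have hc : Cert M (R.erase t) (fun i => h i + h t / (1 - ψ t t) * ψ t i) := by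
      refine ⟨fun θ => ?_, fun θ => ?_⟩
      · have := hR.1 θ
        have h2 := mul_nonneg hα.le (hψ0 t θ)
        linarith
      · have h1 : 1 + ∑ θ', (if θ' ∈ R then 0 else M θ θ' * h θ') ≤ h θ := by
          convert hR.2 θ
        have h2 : ψ t θ = M θ t + ∑ θ', (if θ' ∈ R then 0 else M θ θ' * ψ t θ') := by
          have h0 := hψ t θ
          unfold brA1_mr at h0
          convert h0
        have h3 : ∑ θ', (if θ' ∈ R.erase t then 0 else M θ θ' * (h θ' + h t / (1 - ψ t t) * ψ t θ'))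
            = ∑ θ', (if θ' ∈ R then 0 else M θ θ' * h θ')
              + h t / (1 - ψ t t) * ∑ θ', (if θ' ∈ R then 0 else M θ θ' * ψ t θ')
              + M θ t * (h t + h t / (1 - ψ t t) * ψ t t) := by
          rw [Finset.mul_sum, ← Finset.sum_add_distrib]
          have h4 : M θ t * (h t + h t / (1 - ψ t t) * ψ t t)
              = ∑ θ', (if θ' = t then M θ t * (h t + h t / (1 - ψ t t) * ψ t t) else 0) := by
            simp
          rw [h4, ← Finset.sum_add_distrib]
          refine Finset.sum_congr rfl fun j _ => ?_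
          by_cases hj : j ∈ R
          · by_cases hjt : j = t
            · subst hjt; simp [hj]
            · have : j ∈ R.erase t := Finset.mem_erase.2 ⟨hjt, hj⟩
              simp [hj, hjt]
          · have hjt : j ≠ t := fun hh => hj (hh ▸ ht)
            have : j ∉ R.erase t := fun hh => hj (Finset.mem_of_mem_erase hh)
            simp [hj, hjt]
            ring
        have h5 : h t + h t / (1 - ψ t t) * ψ t t = h t / (1 - ψ t t) := by
          have : (1 - ψ t t) ≠ 0 := by linarith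
          field_simp
          ring
        have h6 : ∑ θ', (if θ' ∈ R then 0 else M θ θ' * ψ t θ') = ψ t θ - M θ t := by
          linarith
        have h7 : (∑ θ', (if θ' ∈ R.erase t then 0
            else M θ θ' * (h θ' + h t / (1 - ψ t t) * ψ t θ'))) ≤ h θ - 1
              + h t / (1 - ψ t t) * (ψ t θ - M θ t) + M θ t * (h t / (1 - ψ t t)) := by
          rw [h3, h5, h6]
          linarith
        have h8 : h θ - 1 + h t / (1 - ψ t t) * (ψ t θ - M θ t) + M θ t * (h t / (1 - ψ t t))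
            = h θ - 1 + h t / (1 - ψ t t) * ψ t θ := by ring
        calc _ ≤ 1 + (h θ - 1 + h t / (1 - ψ t t) * (ψ t θ - M θ t)
              + M θ t * (h t / (1 - ψ t t))) := by
              refine add_le_add le_rfl (le_trans (le_of_eq ?_) h7)
              refine Finset.sum_congr rfl fun j _ => ?_
              split_ifs <;> rfl
          _ = h θ + h t / (1 - ψ t t) * ψ t θ := by rw [h8]; ring
    have := hmin (y := R.erase t) ⟨_, hc⟩ (Finset.erase_subset _ _)
    exact Finset.notMem_erase t R (this ht)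
  have h1 : ∀ t ∈ R, ψ t t = 1 := fun t ht => le_antisymm (hle t ht) (hge t ht)
  have hoff : ∀ t ∈ R, ∀ t' ∈ R, t' ≠ t → ψ t' t = 0 := by
    intro t ht t' ht' hne
    refine le_antisymm ?_ (hψ0 t' t)
    exact brA1_off M hM C hC R t t' ht ht' hne.symm (ψ t) (κ t) (ψ t') (κ t') (hψ t) (hκ t) (hκ0 t)
      (hψ t') (hκ t') (hκ0 t') (h1 t ht) (h1 t' ht')
  intro t ht
  -- the closed set
  let E : Finset Θ := Finset.univ.filter fun θ => θ ∉ R ∧ ∀ t' ∈ R, t' ≠ t → ψ t' θ = 0
  have hEmem : ∀ θ, θ ∈ E ↔ (θ ∉ R ∧ ∀ t' ∈ R, t' ≠ t → ψ t' θ = 0) := by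
    intro θ; simp [E]
  have hzero : ∀ θ, (θ = t ∨ θ ∈ E) → ∀ t' ∈ R, t' ≠ t → ψ t' θ = 0 := by
    rintro θ (rfl | hθ) t' ht' hne
    · exact hoff θ ht t' ht' hne
    · exact ((hEmem θ).1 hθ).2 t' ht' hne
  have hcl : ∀ θ, (θ = t ∨ θ ∈ E) → ∀ θ', M θ θ' ≠ 0 → (θ' = t ∨ θ' ∈ E) := by
    intro θ hθ θ' hne
    by_cases h2 : θ' = t
    · exact Or.inl h2
    right
    rw [hEmem]
    have key : ∀ t' ∈ R, t' ≠ t → M θ t' = 0 ∧ ∀ j, j ∉ R → M θ j * ψ t' j = 0 := by
      intro t' ht' hne'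
      have e1 := hψ t' θ
      rw [hzero θ hθ t' ht' hne'] at e1
      have e2 := brA1_nonneg M hM R (ψ t') (hψ0 t') θ
      have e3 := hM θ t'
      have e4 : brA1_mr M R (ψ t') θ = 0 := by linarith
      refine ⟨by linarith, fun j hj => ?_⟩
      unfold brA1_mr at e4
      rw [Finset.sum_eq_zero_iff_of_nonneg] at e4
      · have := e4 j (Finset.mem_univ _)
        simpa [hj] using this
      · intro k _
        split_ifs
        · exact le_rfl
        · exact mul_nonneg (hM _ _) (hψ0 _ _)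
    refine ⟨fun hmem => hne (key θ' hmem h2).1, fun t' ht' hne' => ?_⟩
    by_cases hθ'R : θ' ∈ R
    · exact absurd (key θ' hθ'R h2).1 hne
    · have := (key t' ht' hne').2 θ' hθ'R
      exact (mul_eq_zero.1 this).resolve_left hne
  refine ⟨E, ψ t, ⟨ht, fun θ hθ => ((hEmem θ).1 hθ).1, hψ0 t, hcl, ?_, h1 t ht⟩⟩
  intro θ hθ
  have e1 := hψ t θ
  rw [e1]
  congr 1
  unfold brA1_mr
  have : ∀ j, (if j ∈ R then 0 else M θ j * ψ t j) = if j ∈ E then M θ j * ψ t j else 0 := by
    intro j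
    by_cases hj : j ∈ R
    · have : j ∉ E := fun hh => ((hEmem j).1 hh).1 hj
      simp [hj, this]
    · by_cases hjE : j ∈ E
      · simp [hj, hjE]
      · have hM0 : M θ j = 0 := by
          by_contra hne
          rcases hcl θ hθ j hne with h2 | h2
          · exact hj (h2 ▸ ht)
          · exact hjE h2
        simp [hM0]
  calc _ = ∑ j, (if j ∈ E then M θ j * ψ t j else 0) := by
        refine Finset.sum_congr rfl fun j _ => ?_
        rw [← this j]
        split_ifs <;> rfl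
    _ = ∑ θ' ∈ E, M θ θ' * ψ t θ' := by
        rw [Finset.sum_ite_mem, Finset.univ_inter]

end Pool.Agent.SandBr
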