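import Pool.Agent.SandFin.BrBase

set_option autoImplicit false

namespace Pool.Agent.SandBr

variable {Θ Ω : Type} [Fintype Θ] [Fintype Ω]

open Classical in
private lemma brA2_count (l : List Θ) (f : Θ → ℝ) :
    (l.map f).sum = ∑ θ, (l.count θ : ℝ) * f θ := by
  induction l with
  | nil => simp
  | cons c l ih =>
    rw [List.map_cons, List.sum_cons, ih]
    have : ∀ θ, (((c :: l).count θ : ℕ) : ℝ) * f θ
        = (l.count θ : ℝ) * f θ + (if c = θ then f θ else 0) := by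
      intro θ
      rw [List.count_cons]
      by_cases h : c = θ
      · simp [h]; ring
      · simp [h]
    simp_rw [this]
    rw [Finset.sum_add_distrib, Finset.sum_ite_eq]
    simp [add_comm]

private lemma brA2_mm_nonneg (B : BrSys Θ Ω) (i j : Θ) : 0 ≤ B.mm i j :=
  Finset.sum_nonneg fun ω _ => mul_nonneg (B.p_nonneg i ω) (Nat.cast_nonneg _)

private lemma brA2_z_succ (B : BrSys Θ Ω) (k : ℕ) (θ : Θ) :
    B.z (k + 1) θ = ∑ j, B.mm θ j * B.z k j := by
  classical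
  show ∑ ω, B.p θ ω * ((B.ch θ ω).map (B.z k)).sum = _
  simp_rw [brA2_count, BrSys.mm, Finset.mul_sum, Finset.sum_mul]
  rw [Finset.sum_comm]
  refine Finset.sum_congr rfl fun j _ => Finset.sum_congr rfl fun ω _ => ?_
  ring

private lemma brA2_z_eq [DecidableEq Θ] (B : BrSys Θ Ω) (k : ℕ) :
    ∀ θ, B.z k θ = ∑ θ', (B.mm ^ k) θ θ' := by
  induction k with
  | zero =>
    intro θ
    rw [pow_zero]
    show (1 : ℝ) = _
    simp [Matrix.one_apply]
  | succ k ih =>
    intro θ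
    rw [brA2_z_succ, pow_succ']
    simp_rw [Matrix.mul_apply]
    rw [Finset.sum_comm]
    refine Finset.sum_congr rfl fun j _ => ?_
    rw [ih j, Finset.mul_sum]

private lemma brA2_pow_nonneg [DecidableEq Θ] (B : BrSys Θ Ω) (k : ℕ) :
    ∀ i j, 0 ≤ (B.mm ^ k) i j := by
  induction k with
  | zero =>
    intro i j
    rw [pow_zero, Matrix.one_apply]
    split_ifs <;> norm_num
  | succ k ih =>
    intro i j
    rw [pow_succ', Matrix.mul_apply]
    exact Finset.sum_nonneg fun l _ => mul_nonneg (brA2_mm_nonneg B i l) (ih l j)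

/-- T-A2 -/
theorem mm_pow_le [DecidableEq Θ] (B : BrSys Θ Ω) (hz : ∃ C : ℝ, ∀ k θ, B.z k θ ≤ C) :
    (∀ i j, 0 ≤ B.mm i j) ∧ ∃ C : ℝ, ∀ (k : ℕ) i j, (B.mm ^ k) i j ≤ C := by
  obtain ⟨C, hC⟩ := hz
  refine ⟨brA2_mm_nonneg B, C, fun k i j => ?_⟩
  calc (B.mm ^ k) i j ≤ ∑ θ', (B.mm ^ k) i θ' :=
        Finset.single_le_sum (fun θ' _ => brA2_pow_nonneg B k i θ') (Finset.mem_univ j)
    _ = B.z k i := (brA2_z_eq B k i).symm
    _ ≤ C := hC k i

end Pool.Agent.SandBr
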