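import Pool.Agent.SandFin.BrB1

set_option autoImplicit false

namespace Pool.Agent.SandBr

variable {Θ Ω : Type} [Fintype Θ] [Fintype Ω]

/-- the evaluation homomorphism: outer variable to `X`, inner variable to the series `A` -/
noncomputable def brB2_phi (A : PowerSeries ℝ) :
    Polynomial (Polynomial ℝ) →+* PowerSeries ℝ :=
  Polynomial.eval₂RingHom (Polynomial.aeval A : Polynomial ℝ →ₐ[ℝ] PowerSeries ℝ).toRingHom
    PowerSeries.X

lemma brB2_phi_CC (A : PowerSeries ℝ) (r : ℝ) :
    brB2_phi A (Polynomial.C (Polynomial.C r)) = PowerSeries.C r := by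
  simp [brB2_phi]

lemma brB2_phi_X (A : PowerSeries ℝ) : brB2_phi A Polynomial.X = PowerSeries.X := by
  simp [brB2_phi]

lemma brB2_phi_CX (A : PowerSeries ℝ) : brB2_phi A (Polynomial.C Polynomial.X) = A := by
  simp [brB2_phi]

omit [Fintype Θ] in
lemma brB2_convL (a : Θ → ℕ → ℝ) (l : List Θ) (m : ℕ) :
    convL a l m = PowerSeries.coeff m ((l.map fun c => PowerSeries.mk (a c)).prod) := by
  induction l generalizing m with
  | nil =>
    rw [List.map_nil, List.prod_nil, PowerSeries.coeff_one]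
    rfl
  | cons c l ih =>
    rw [List.map_cons, List.prod_cons, PowerSeries.coeff_mul,
      Finset.Nat.sum_antidiagonal_eq_sum_range_succ_mk]
    show ∑ i ∈ Finset.range (m + 1), a c i * convL a l (m - i) = _
    refine Finset.sum_congr rfl fun i _ => ?_
    rw [ih, PowerSeries.coeff_mk]

lemma brB2_dvd_prod {R ι : Type*} [CommRing R] (x : R) (f g : ι → R) (l : List ι)
    (h : ∀ c ∈ l, x ∣ f c - g c) : x ∣ (l.map f).prod - (l.map g).prod := by
  induction l with
  | nil => simp
  | cons c l ih =>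
    rw [List.map_cons, List.map_cons, List.prod_cons, List.prod_cons]
    have h1 : x ∣ f c - g c := h c (by simp)
    have h2 : x ∣ (l.map f).prod - (l.map g).prod :=
      ih fun d hd => h d (by simp [hd])
    have h3 : f c * (l.map f).prod - g c * (l.map g).prod =
        (f c - g c) * (l.map f).prod + g c * ((l.map f).prod - (l.map g).prod) := by ring
    rw [h3]
    exact dvd_add (h1.mul_right _) (h2.mul_left _)

lemma brB2_total (B : BrSys Θ Ω) (a : Θ → ℕ → ℝ) (ha : B.IsTotal a) (θ : Θ) :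
    PowerSeries.mk (a θ) = ∑ ω, PowerSeries.C (B.p θ ω) * PowerSeries.X ^ (B.s θ ω) *
      ((B.ch θ ω).map fun c => PowerSeries.mk (a c)).prod := by
  ext m
  rw [PowerSeries.coeff_mk, ha.rec_eq, map_sum]
  refine Finset.sum_congr rfl fun ω _ => ?_
  rw [mul_assoc, PowerSeries.coeff_C_mul, PowerSeries.coeff_X_pow_mul']
  congr 1
  split_ifs with h
  · exact brB2_convL a _ _
  · rfl

open Classical in
lemma brB2_phi_bk (B : BrSys Θ Ω) (A : PowerSeries ℝ) (t θ : Θ) (n : ℕ) :
    brB2_phi A (B.bk t (n + 1) θ) = ∑ ω, PowerSeries.C (B.p θ ω) * PowerSeries.X ^ (B.s θ ω) *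
      ((B.ch θ ω).map fun c => if c = t then A else brB2_phi A (B.bk t n c)).prod := by
  rw [BrSys.bk, map_sum]
  refine Finset.sum_congr rfl fun ω _ => ?_
  rw [map_mul, map_mul, map_pow, brB2_phi_CC, brB2_phi_X, map_list_prod, List.map_map]
  congr 2
  refine List.map_congr_left fun c _ => ?_
  simp only [Function.comp_apply]
  split_ifs with h
  · exact brB2_phi_CX A
  · rfl

lemma brB2_main (B : BrSys Θ Ω) (a : Θ → ℕ → ℝ) (ha : B.IsTotal a) (t : Θ) (n : ℕ) (θ : Θ) :
    (PowerSeries.X : PowerSeries ℝ) ^ n ∣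
      PowerSeries.mk (a θ) - brB2_phi (PowerSeries.mk (a t)) (B.bk t n θ) := by
  classical
  induction n generalizing θ with
  | zero => simp
  | succ n ih =>
    rw [brB2_phi_bk, brB2_total B a ha θ, ← Finset.sum_sub_distrib]
    refine Finset.dvd_sum fun ω _ => ?_
    rw [← mul_sub, mul_assoc]
    refine Dvd.dvd.mul_left ?_ _
    rw [pow_succ']
    refine mul_dvd_mul ?_ ?_
    · exact dvd_pow_self _ (by have := B.s_pos θ ω; omega)
    · refine brB2_dvd_prod _ _ _ _ fun c _ => ?_
      split_ifs with h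
      · rw [h, sub_self]
        exact dvd_zero _
      · exact ih c

/-- T-B2: decomposition of the total size at the nodes of type `t` -/
theorem bl_rec (B : BrSys Θ Ω) (a : Θ → ℕ → ℝ) (ha : B.IsTotal a) (t θ : Θ) (m : ℕ) :
    a θ m = ∑ w ∈ Finset.range (m + 1),
      PowerSeries.coeff (m - w) (Polynomial.aeval (PowerSeries.mk (a t)) (B.bl t θ w)) := by
  have h1 := (PowerSeries.X_pow_dvd_iff.1 (brB2_main B a ha t (m + 1) θ)) m (Nat.lt_succ_self m)
  rw [map_sub, PowerSeries.coeff_mk, sub_eq_zero] at h1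
  rw [h1]
  have h2 : brB2_phi (PowerSeries.mk (a t)) (B.bk t (m + 1) θ) =
      ∑ w ∈ Finset.range (max ((B.bk t (m + 1) θ).natDegree + 1) (m + 1)),
        Polynomial.aeval (PowerSeries.mk (a t)) ((B.bk t (m + 1) θ).coeff w) *
          PowerSeries.X ^ w := by
    show Polynomial.eval₂ _ _ _ = _
    rw [Polynomial.eval₂_eq_sum_range' _ (lt_of_lt_of_le (Nat.lt_succ_self _)
      (le_max_left _ (m + 1)))]
    rfl
  rw [h2, map_sum]
  rw [← Finset.sum_subset (Finset.range_subset_range.2
    (le_max_right ((B.bk t (m + 1) θ).natDegree + 1) (m + 1)))]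
  · refine Finset.sum_congr rfl fun w hw => ?_
    rw [Finset.mem_range] at hw
    rw [PowerSeries.coeff_mul_X_pow', if_pos (by omega), bk_coeff B t θ (m + 1) w hw]
  · intro w _ hw
    rw [Finset.mem_range] at hw
    rw [PowerSeries.coeff_mul_X_pow', if_neg (by omega)]

end Pool.Agent.SandBr
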