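import Pool.Agent.SandFin.BrB1
import Pool.Agent.SandFin.BrB2

set_option autoImplicit false

namespace Pool.Agent.SandBr

variable {Θ Ω : Type} [Fintype Θ] [Fintype Ω]

/-- evaluation at `(1, 1)` -/
noncomputable def brB3_ev : Polynomial (Polynomial ℝ) →+* ℝ :=
  (Polynomial.evalRingHom (1 : ℝ)).comp (Polynomial.evalRingHom (1 : Polynomial ℝ))

theorem brB3_ev_C (r : ℝ) : brB3_ev (Polynomial.C (Polynomial.C r)) = r := by
  simp [brB3_ev]

theorem brB3_ev_X : brB3_ev Polynomial.X = 1 := by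
  simp [brB3_ev]

theorem brB3_ev_CX : brB3_ev (Polynomial.C Polynomial.X) = 1 := by
  simp [brB3_ev]

theorem brB3_prod_mem (l : List ℝ) (h : ∀ x ∈ l, 0 ≤ x ∧ x ≤ 1) : 0 ≤ l.prod ∧ l.prod ≤ 1 := by
  induction l with
  | nil => simp
  | cons x l ih =>
    have h1 := h x (List.mem_cons_self)
    have h2 := ih (fun y hy => h y (List.mem_cons_of_mem _ hy))
    rw [List.prod_cons]
    exact ⟨mul_nonneg h1.1 h2.1, mul_le_one₀ h1.2 h2.1 h2.2⟩

theorem brB3_bk_ev (B : BrSys Θ Ω) (t : Θ) (n : ℕ) (θ : Θ) :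
    0 ≤ brB3_ev (B.bk t n θ) ∧ brB3_ev (B.bk t n θ) ≤ 1 := by
  classical
  induction n generalizing θ with
  | zero => simp [BrSys.bk]
  | succ n ih =>
    have key : ∀ ω, 0 ≤ brB3_ev (((B.ch θ ω).map
        (fun c => if c = t then Polynomial.C Polynomial.X else B.bk t n c)).prod) ∧
        brB3_ev (((B.ch θ ω).map
        (fun c => if c = t then Polynomial.C Polynomial.X else B.bk t n c)).prod) ≤ 1 := by
      intro ω
      rw [map_list_prod, List.map_map]
      apply brB3_prod_mem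
      intro x hx
      obtain ⟨c, -, rfl⟩ := List.mem_map.1 hx
      simp only [Function.comp]
      by_cases hc : c = t
      · simp only [if_pos hc, brB3_ev_CX]
        exact ⟨zero_le_one, le_rfl⟩
      · simp only [if_neg hc]
        exact ih c
    have e : brB3_ev (B.bk t (n + 1) θ) = ∑ ω, B.p θ ω * brB3_ev (((B.ch θ ω).map
        (fun c => if c = t then Polynomial.C Polynomial.X else B.bk t n c)).prod) := by
      rw [BrSys.bk, map_sum]
      refine Finset.sum_congr rfl (fun ω _ => ?_)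
      rw [map_mul, map_mul, map_pow, brB3_ev_C, brB3_ev_X, one_pow, mul_one]
    rw [e]
    refine ⟨Finset.sum_nonneg (fun ω _ => mul_nonneg (B.p_nonneg θ ω) (key ω).1), ?_⟩
    rw [← B.p_sum θ]
    refine Finset.sum_le_sum (fun ω _ => ?_)
    exact mul_le_of_le_one_right (B.p_nonneg θ ω) (key ω).2

theorem brB3_eval_nonneg (P : Polynomial ℝ) (h : ∀ ν, 0 ≤ P.coeff ν) : 0 ≤ P.eval 1 := by
  rw [Polynomial.eval_eq_sum_range]
  exact Finset.sum_nonneg (fun i _ => by simpa using h i)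

theorem brB3_le (B : BrSys Θ Ω) (t θ : Θ) (N : ℕ) :
    ∑ w ∈ Finset.range N, (B.bl t θ w).eval 1 ≤ 1 := by
  have h1 : ∑ w ∈ Finset.range N, (B.bl t θ w).eval 1 =
      ∑ w ∈ Finset.range N, ((B.bk t N θ).coeff w).eval 1 := by
    refine Finset.sum_congr rfl (fun w hw => ?_)
    rw [bk_coeff B t θ N w (Finset.mem_range.1 hw)]
  have h2 : brB3_ev (B.bk t N θ) =
      ∑ w ∈ Finset.range (max N ((B.bk t N θ).natDegree + 1)), ((B.bk t N θ).coeff w).eval 1 := by
    have e0 : brB3_ev (B.bk t N θ) =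
        (Polynomial.evalRingHom (1 : ℝ)) ((B.bk t N θ).eval (1 : Polynomial ℝ)) := rfl
    rw [e0,
      Polynomial.eval_eq_sum_range' (lt_of_lt_of_le (Nat.lt_succ_self _) (le_max_right N _)),
      map_sum]
    refine Finset.sum_congr rfl (fun w _ => ?_)
    rw [one_pow, mul_one]
    rfl
  rw [h1]
  refine le_trans ?_ (h2 ▸ (brB3_bk_ev B t N θ).2)
  refine Finset.sum_le_sum_of_subset_of_nonneg ?_ (fun w _ _ => ?_)
  · exact Finset.range_subset_range.2 (le_max_left _ _)
  · exact brB3_eval_nonneg _ (bk_nonneg B t θ N w)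

/-- partial sums of a product of nonnegative series of total mass at most one -/
theorem brB3_mul (F G : PowerSeries ℝ) (hF : ∀ m, 0 ≤ PowerSeries.coeff m F)
    (hG : ∀ m, 0 ≤ PowerSeries.coeff m G)
    (hF1 : ∀ N, ∑ m ∈ Finset.range N, PowerSeries.coeff m F ≤ 1)
    (hG1 : ∀ N, ∑ m ∈ Finset.range N, PowerSeries.coeff m G ≤ 1) :
    (∀ m, 0 ≤ PowerSeries.coeff m (F * G)) ∧
      ∀ N, ∑ m ∈ Finset.range N, PowerSeries.coeff m (F * G) ≤ 1 := by
  constructor
  · intro m
    rw [PowerSeries.coeff_mul]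
    exact Finset.sum_nonneg (fun p _ => mul_nonneg (hF _) (hG _))
  · intro N
    have h1 : ∑ m ∈ Finset.range N, PowerSeries.coeff m (F * G) =
        ∑ w ∈ Finset.range N, ∑ j ∈ Finset.range (N - w),
          PowerSeries.coeff w F * PowerSeries.coeff j G := by
      have h2 : ∀ m, PowerSeries.coeff m (F * G) = ∑ w ∈ Finset.range (m + 1),
          PowerSeries.coeff w F * PowerSeries.coeff (m - w) G := by
        intro m
        rw [PowerSeries.coeff_mul, Finset.Nat.sum_antidiagonal_eq_sum_range_succ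
          (fun i j => PowerSeries.coeff i F * PowerSeries.coeff j G)]
      simp only [h2]
      rw [Finset.sum_comm' (t' := Finset.range N) (s' := fun w => Finset.Ico w N)]
      · refine Finset.sum_congr rfl (fun w _ => ?_)
        rw [Finset.sum_Ico_eq_sum_range]
        refine Finset.sum_congr rfl (fun j _ => ?_)
        rw [Nat.add_sub_cancel_left]
      · intro m w
        simp only [Finset.mem_range, Finset.mem_Ico]
        omega
    rw [h1]
    calc ∑ w ∈ Finset.range N, ∑ j ∈ Finset.range (N - w),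
          PowerSeries.coeff w F * PowerSeries.coeff j G
        ≤ ∑ w ∈ Finset.range N, PowerSeries.coeff w F := by
          refine Finset.sum_le_sum (fun w _ => ?_)
          rw [← Finset.mul_sum]
          exact mul_le_of_le_one_right (hF w) (hG1 _)
      _ ≤ 1 := hF1 N

theorem brB3_pow (F : PowerSeries ℝ) (hF : ∀ m, 0 ≤ PowerSeries.coeff m F)
    (hF1 : ∀ N, ∑ m ∈ Finset.range N, PowerSeries.coeff m F ≤ 1) (ν : ℕ) :
    (∀ m, 0 ≤ PowerSeries.coeff m (F ^ ν)) ∧
      ∀ N, ∑ m ∈ Finset.range N, PowerSeries.coeff m (F ^ ν) ≤ 1 := by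
  induction ν with
  | zero =>
    constructor
    · intro m
      rw [pow_zero, PowerSeries.coeff_one]
      split_ifs <;> norm_num
    · intro N
      simp only [pow_zero, PowerSeries.coeff_one, Finset.sum_ite_eq']
      split_ifs <;> norm_num
  | succ ν ih =>
    rw [pow_succ]
    exact brB3_mul _ _ ih.1 hF ih.2 hF1

theorem brB3_aeval (F : PowerSeries ℝ) (hF : ∀ m, 0 ≤ PowerSeries.coeff m F)
    (hF1 : ∀ N, ∑ m ∈ Finset.range N, PowerSeries.coeff m F ≤ 1) (P : Polynomial ℝ)
    (hP : ∀ ν, 0 ≤ P.coeff ν) (N : ℕ) :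
    ∑ m ∈ Finset.range N, PowerSeries.coeff m (Polynomial.aeval F P) ≤ P.eval 1 := by
  rw [Polynomial.aeval_eq_sum_range, Polynomial.eval_eq_sum_range]
  simp only [map_sum, one_pow, mul_one]
  rw [Finset.sum_comm]
  refine Finset.sum_le_sum (fun ν _ => ?_)
  have : ∀ m, PowerSeries.coeff m (P.coeff ν • F ^ ν) =
      P.coeff ν * PowerSeries.coeff m (F ^ ν) := by
    intro m
    rw [PowerSeries.coeff_smul, smul_eq_mul]
  simp only [this]
  rw [← Finset.mul_sum]
  exact mul_le_of_le_one_right (hP ν) ((brB3_pow F hF hF1 ν).2 N)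

theorem brB3_ge (B : BrSys Θ Ω) (a : Θ → ℕ → ℝ) (ha : B.IsTotal a) (t θ : Θ) (N : ℕ) :
    ∑ m ∈ Finset.range N, a θ m ≤ ∑ w ∈ Finset.range N, (B.bl t θ w).eval 1 := by
  have hA0 : ∀ m, 0 ≤ PowerSeries.coeff m (PowerSeries.mk (a t)) := by
    intro m
    rw [PowerSeries.coeff_mk]
    exact ha.nonneg t m
  have hA1 : ∀ N, ∑ m ∈ Finset.range N, PowerSeries.coeff m (PowerSeries.mk (a t)) ≤ 1 := by
    intro N
    simp only [PowerSeries.coeff_mk]
    exact sum_le_hasSum _ (fun i _ => ha.nonneg t i) (ha.hasSum t)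
  have h1 : ∑ m ∈ Finset.range N, a θ m =
      ∑ w ∈ Finset.range N, ∑ j ∈ Finset.range (N - w),
        PowerSeries.coeff j (Polynomial.aeval (PowerSeries.mk (a t)) (B.bl t θ w)) := by
    rw [Finset.sum_congr rfl (fun m _ => bl_rec B a ha t θ m)]
    rw [Finset.sum_comm' (t' := Finset.range N) (s' := fun w => Finset.Ico w N)]
    · refine Finset.sum_congr rfl (fun w _ => ?_)
      rw [Finset.sum_Ico_eq_sum_range]
      refine Finset.sum_congr rfl (fun j _ => ?_)
      rw [Nat.add_sub_cancel_left]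
    · intro m w
      simp only [Finset.mem_range, Finset.mem_Ico]
      omega
  rw [h1]
  refine Finset.sum_le_sum (fun w _ => ?_)
  exact brB3_aeval _ hA0 hA1 _ (bl_nonneg B t θ w) _

/-- T-B3: total mass one -/
theorem bl_mass (B : BrSys Θ Ω) (a : Θ → ℕ → ℝ) (ha : B.IsTotal a) (t θ : Θ) :
    HasSum (fun w : ℕ => (B.bl t θ w).eval 1) 1 := by
  rw [hasSum_iff_tendsto_nat_of_nonneg (fun w => brB3_eval_nonneg _ (bl_nonneg B t θ w))]
  exact tendsto_of_tendsto_of_tendsto_of_le_of_le (ha.hasSum θ).tendsto_sum_nat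
    tendsto_const_nhds (brB3_ge B a ha t θ) (brB3_le B t θ)

end Pool.Agent.SandBr
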