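import Pool.Agent.SandFin.BrB1

set_option autoImplicit false

namespace Pool.Agent.SandBr

variable {Θ Ω : Type} [Fintype Θ] [Fintype Ω]

open Classical in
theorem brB4_sum_map (l : List Θ) (g : Θ → ℝ) :
    (l.map g).sum = ∑ c, ((l.count c : ℕ) : ℝ) * g c := by
  induction l with
  | nil => simp
  | cons a l ih =>
    rw [List.map_cons, List.sum_cons, ih]
    have h1 : ∀ c, (((a :: l).count c : ℕ) : ℝ) * g c =
        (if c = a then g a else 0) + ((l.count c : ℕ) : ℝ) * g c := by
      intro c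
      rw [List.count_cons]
      by_cases h : c = a
      · subst h
        simp
        ring
      · have h' : ¬ a = c := fun e => h e.symm
        simp [h, h']
    rw [Finset.sum_congr rfl fun c _ => h1 c, Finset.sum_add_distrib, Finset.sum_ite_eq',
      if_pos (Finset.mem_univ a)]

/-- evaluation at `(ρ, 1)` -/
noncomputable def brB4_e (ρ : ℝ) : Polynomial (Polynomial ℝ) →+* ℝ :=
  Polynomial.eval₂RingHom (Polynomial.evalRingHom 1) ρ

theorem brB4_e_le (B : BrSys Θ Ω) (t θ : Θ) (ρ : ℝ) (hρ : 0 ≤ ρ) (N : ℕ) :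
    ∑ w ∈ Finset.range N, (B.bl t θ w).eval 1 * ρ ^ w ≤ brB4_e ρ (B.bk t N θ) := by
  have h1 : brB4_e ρ (B.bk t N θ) =
      ∑ w ∈ Finset.range (max N ((B.bk t N θ).natDegree + 1)),
        ((B.bk t N θ).coeff w).eval 1 * ρ ^ w := by
    unfold brB4_e
    rw [Polynomial.coe_eval₂RingHom, Polynomial.eval₂_eq_sum_range' _
      (lt_of_lt_of_le (Nat.lt_succ_self _) (le_max_right N _))]
    rfl
  rw [h1]
  have h2 : ∑ w ∈ Finset.range N, (B.bl t θ w).eval 1 * ρ ^ w =
      ∑ w ∈ Finset.range N, ((B.bk t N θ).coeff w).eval 1 * ρ ^ w :=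
    Finset.sum_congr rfl fun w hw => by rw [bk_coeff B t θ N w (Finset.mem_range.1 hw)]
  rw [h2]
  apply Finset.sum_le_sum_of_subset_of_nonneg
  · intro w hw
    rw [Finset.mem_range] at hw ⊢
    exact lt_of_lt_of_le hw (le_max_left _ _)
  · intro w _ _
    apply mul_nonneg _ (pow_nonneg hρ w)
    rw [Polynomial.eval_eq_sum_range]
    exact Finset.sum_nonneg fun i _ => by
      rw [one_pow, mul_one]
      exact bk_nonneg B t θ N w i

open Classical in
theorem brB4_rec (B : BrSys Θ Ω) (t θ : Θ) (ρ : ℝ) (n : ℕ) :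
    brB4_e ρ (B.bk t (n + 1) θ) = ∑ ω, B.p θ ω * ρ ^ (B.s θ ω) *
      ((B.ch θ ω).map (fun c => if c = t then 1 else brB4_e ρ (B.bk t n c))).prod := by
  have h0 : B.bk t (n + 1) θ =
      ∑ ω, Polynomial.C (Polynomial.C (B.p θ ω)) * Polynomial.X ^ (B.s θ ω) *
      ((B.ch θ ω).map (fun c => if c = t then Polynomial.C Polynomial.X else B.bk t n c)).prod := rfl
  rw [h0, map_sum]
  refine Finset.sum_congr rfl fun ω _ => ?_
  rw [map_mul, map_mul, map_pow, map_list_prod, List.map_map]
  congr 1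
  · congr 1
    · simp [brB4_e]
    · simp [brB4_e]
  · congr 1
    apply List.map_congr_left
    intro c _
    simp only [Function.comp_apply]
    split_ifs
    · simp [brB4_e]
    · rfl

/-- T-B4: exponential moments -/
theorem bl_expm (B : BrSys Θ Ω) (R : Finset Θ) (h : Θ → ℝ) (hR : Cert B.mm R h) (t : Θ) (E : Finset Θ)
    (ψ : Θ → ℝ) (hE : Blk B.mm R t E ψ) : ∃ ρ : ℝ, 1 < ρ ∧
      ∀ θ, (θ = t ∨ θ ∈ E) → Summable (fun w : ℕ => (B.bl t θ w).eval 1 * ρ ^ w) := by
  classical
  have hh : ∀ θ, 0 ≤ h θ := fun θ => zero_le_one.trans (hR.1 θ)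
  set g : Θ → ℝ := fun c => if c = t then 0 else h c with hg
  have hg0 : ∀ c, 0 ≤ g c := by
    intro c
    rw [hg]
    dsimp only
    split_ifs
    · exact le_rfl
    · exact hh c
  set H : Θ → Ω → ℝ := fun θ ω => ((B.ch θ ω).map g).sum with hH
  have hH0 : ∀ θ ω, 0 ≤ H θ ω := by
    intro θ ω
    apply List.sum_nonneg
    intro x hx
    obtain ⟨c, -, rfl⟩ := List.mem_map.1 hx
    exact hg0 c
  set K : ℝ := 1 + ∑ θ, ∑ ω, ((B.s θ ω : ℝ) + H θ ω) with hK
  have hsH0 : ∀ θ ω, 0 ≤ (B.s θ ω : ℝ) + H θ ω := fun θ ω =>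
    add_nonneg (Nat.cast_nonneg _) (hH0 θ ω)
  have hK1 : 1 ≤ K := by
    rw [hK]
    have : 0 ≤ ∑ θ, ∑ ω, ((B.s θ ω : ℝ) + H θ ω) :=
      Finset.sum_nonneg fun θ _ => Finset.sum_nonneg fun ω _ => hsH0 θ ω
    linarith
  have hKle : ∀ θ ω, (B.s θ ω : ℝ) + H θ ω ≤ K := by
    intro θ ω
    have h1 : (B.s θ ω : ℝ) + H θ ω ≤ ∑ ω, ((B.s θ ω : ℝ) + H θ ω) :=
      Finset.single_le_sum (f := fun ω => (B.s θ ω : ℝ) + H θ ω) (fun ω _ => hsH0 θ ω)
        (Finset.mem_univ ω)
    have h2 : ∑ ω, ((B.s θ ω : ℝ) + H θ ω) ≤ ∑ θ, ∑ ω, ((B.s θ ω : ℝ) + H θ ω) :=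
      Finset.single_le_sum (f := fun θ => ∑ ω, ((B.s θ ω : ℝ) + H θ ω))
        (fun θ _ => Finset.sum_nonneg fun ω _ => hsH0 θ ω) (Finset.mem_univ θ)
    rw [hK]
    linarith
  set ε : ℝ := 1 / (K ^ 2 + K + 1) with hε
  have hden : 0 < K ^ 2 + K + 1 := by positivity
  have hε0 : 0 < ε := by positivity
  have hε1 : ε * (K ^ 2 + K + 1) = 1 := by
    rw [hε]
    field_simp
  have hεK : ε * (K + K ^ 2) ≤ 1 := by nlinarith
  have hεK1 : ε * K ≤ 1 := by nlinarith [sq_nonneg K]
  have hεle : ε ≤ 1 := by nlinarith [sq_nonneg K]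
  -- one step
  have step : ∀ θ, (θ = t ∨ θ ∈ E) →
      ∑ ω, B.p θ ω * Real.exp (ε ^ 2 * B.s θ ω + ε * H θ ω) ≤ Real.exp (ε * h θ) := by
    intro θ hθ
    have hexp : ∀ ω, Real.exp (ε ^ 2 * B.s θ ω + ε * H θ ω) ≤
        1 + (ε ^ 2 * K + ε * H θ ω) + ε ^ 2 * K ^ 2 := by
      intro ω
      have hs0 : (0 : ℝ) ≤ B.s θ ω := Nat.cast_nonneg _
      have hx0 : 0 ≤ ε ^ 2 * B.s θ ω + ε * H θ ω :=
        add_nonneg (mul_nonneg (sq_nonneg _) hs0) (mul_nonneg hε0.le (hH0 θ ω))
      have hx1 : ε ^ 2 * B.s θ ω + ε * H θ ω ≤ ε * K := by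
        have h1 : ε ^ 2 * B.s θ ω ≤ ε * B.s θ ω := by
          apply mul_le_mul_of_nonneg_right _ hs0
          nlinarith
        have h2 : ε * ((B.s θ ω : ℝ) + H θ ω) ≤ ε * K :=
          mul_le_mul_of_nonneg_left (hKle θ ω) hε0.le
        linarith
      have hb := Real.abs_exp_sub_one_sub_id_le (x := ε ^ 2 * B.s θ ω + ε * H θ ω)
        (by rw [abs_of_nonneg hx0]; linarith)
      have hb2 := (abs_le.1 hb).2
      have hsq : (ε ^ 2 * B.s θ ω + ε * H θ ω) ^ 2 ≤ (ε * K) ^ 2 :=
        pow_le_pow_left₀ hx0 hx1 2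
      have hsK : (B.s θ ω : ℝ) ≤ K := by
        have := hKle θ ω
        have := hH0 θ ω
        linarith
      have h3 : ε ^ 2 * B.s θ ω ≤ ε ^ 2 * K := mul_le_mul_of_nonneg_left hsK (sq_nonneg _)
      rw [mul_pow] at hsq
      linarith
    have hsumH : ∑ ω, B.p θ ω * H θ ω ≤ h θ - 1 := by
      have e1 : ∑ ω, B.p θ ω * H θ ω = ∑ c, B.mm θ c * g c := by
        have e2 : ∀ ω, B.p θ ω * H θ ω =
            ∑ c, B.p θ ω * (((B.ch θ ω).count c : ℕ) : ℝ) * g c := by
          intro ω
          rw [hH]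
          dsimp only
          rw [brB4_sum_map, Finset.mul_sum]
          exact Finset.sum_congr rfl fun c _ => by ring
        rw [Finset.sum_congr rfl fun ω _ => e2 ω, Finset.sum_comm]
        refine Finset.sum_congr rfl fun c _ => ?_
        rw [BrSys.mm, Finset.sum_mul]
      rw [e1]
      have h2 := hR.2 θ
      have h3 : ∑ c, B.mm θ c * g c ≤
          ∑ θ', (if θ' ∈ R then 0 else B.mm θ θ' * h θ') := by
        apply Finset.sum_le_sum
        intro c _
        rw [hg]
        dsimp only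
        by_cases hct : c = t
        · rw [if_pos hct, hct, if_pos hE.mem, mul_zero]
        · rw [if_neg hct]
          by_cases hM : B.mm θ c = 0
          · rw [hM, zero_mul]
            split_ifs <;> simp
          · rcases hE.closed θ hθ c hM with h4 | h4
            · exact absurd h4 hct
            · rw [if_neg (hE.disj c h4)]
      linarith
    have hp := B.p_sum θ
    calc ∑ ω, B.p θ ω * Real.exp (ε ^ 2 * B.s θ ω + ε * H θ ω)
        ≤ ∑ ω, B.p θ ω * (1 + (ε ^ 2 * K + ε * H θ ω) + ε ^ 2 * K ^ 2) :=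
          Finset.sum_le_sum fun ω _ => mul_le_mul_of_nonneg_left (hexp ω) (B.p_nonneg θ ω)
      _ = (1 + ε ^ 2 * K + ε ^ 2 * K ^ 2) * (∑ ω, B.p θ ω) + ε * ∑ ω, B.p θ ω * H θ ω := by
          rw [Finset.mul_sum, Finset.mul_sum, ← Finset.sum_add_distrib]
          exact Finset.sum_congr rfl fun ω _ => by ring
      _ ≤ (1 + ε ^ 2 * K + ε ^ 2 * K ^ 2) * 1 + ε * (h θ - 1) := by
          rw [hp]
          have := mul_le_mul_of_nonneg_left hsumH hε0.le
          linarith
      _ = 1 + ε * h θ + ε * (ε * (K + K ^ 2) - 1) := by ring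
      _ ≤ 1 + ε * h θ := by
          have : ε * (ε * (K + K ^ 2) - 1) ≤ 0 :=
            mul_nonpos_of_nonneg_of_nonpos hε0.le (by linarith)
          linarith
      _ ≤ Real.exp (ε * h θ) := by
          have := Real.add_one_le_exp (ε * h θ)
          linarith
  set ρ : ℝ := Real.exp (ε ^ 2) with hρ
  have hρ1 : 1 < ρ := by
    rw [hρ]
    exact Real.one_lt_exp_iff.2 (by positivity)
  have hbk : ∀ n θ, (θ = t ∨ θ ∈ E) → brB4_e ρ (B.bk t n θ) ≤ Real.exp (ε * h θ) := by
    have hnn : ∀ n θ, 0 ≤ brB4_e ρ (B.bk t n θ) := by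
      intro n θ
      refine le_trans (Finset.sum_nonneg fun w _ => ?_) (brB4_e_le B t θ ρ (by linarith) n)
      apply mul_nonneg _ (pow_nonneg (by linarith) w)
      rw [Polynomial.eval_eq_sum_range]
      exact Finset.sum_nonneg fun i _ => by
        rw [one_pow, mul_one]
        exact bl_nonneg B t θ w i
    intro n
    induction n with
    | zero =>
      intro θ _
      have : B.bk t 0 θ = 0 := rfl
      rw [this, map_zero]
      exact (Real.exp_pos _).le
    | succ n ih =>
      intro θ hθ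
      rw [brB4_rec]
      refine le_trans (Finset.sum_le_sum fun ω _ => ?_) (step θ hθ)
      rcases (B.p_nonneg θ ω).eq_or_lt with hp | hp
      · rw [← hp, zero_mul, zero_mul, zero_mul]
      · rw [mul_assoc]
        apply mul_le_mul_of_nonneg_left _ hp.le
        have hchild : ∀ c ∈ B.ch θ ω, c = t ∨ c ∈ E := by
          intro c hc
          apply hE.closed θ hθ c
          have h1 : 0 < B.p θ ω * (((B.ch θ ω).count c : ℕ) : ℝ) := by
            apply mul_pos hp
            exact_mod_cast List.count_pos_iff.2 hc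
          have h2 : B.p θ ω * (((B.ch θ ω).count c : ℕ) : ℝ) ≤ B.mm θ c :=
            Finset.single_le_sum (f := fun ω => B.p θ ω * (((B.ch θ ω).count c : ℕ) : ℝ))
              (fun ω _ => mul_nonneg (B.p_nonneg θ ω) (Nat.cast_nonneg _)) (Finset.mem_univ ω)
          exact (lt_of_lt_of_le h1 h2).ne'
        have hprod : ∀ l : List Θ, (∀ c ∈ l, c = t ∨ c ∈ E) →
            (l.map (fun c => if c = t then 1 else brB4_e ρ (B.bk t n c))).prod ≤
              Real.exp (ε * (l.map g).sum) := by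
          intro l
          induction l with
          | nil => intro _; simp
          | cons c l ihl =>
            intro hl
            rw [List.map_cons, List.prod_cons, List.map_cons, List.sum_cons, mul_add,
              Real.exp_add]
            have h1 := ihl fun c hc => hl c (List.mem_cons_of_mem _ hc)
            have h2 : (if c = t then (1 : ℝ) else brB4_e ρ (B.bk t n c)) ≤
                Real.exp (ε * g c) := by
              rw [hg]
              dsimp only
              split_ifs with hc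
              · simp
              · exact ih c (hl c List.mem_cons_self)
            have h3 : 0 ≤ (l.map (fun c => if c = t then 1 else brB4_e ρ (B.bk t n c))).prod := by
              apply List.prod_nonneg
              intro x hx
              obtain ⟨c, -, rfl⟩ := List.mem_map.1 hx
              split_ifs
              · exact zero_le_one
              · exact hnn n c
            exact mul_le_mul h2 h1 h3 (Real.exp_pos _).le
        have h1 := hprod _ hchild
        rw [Real.exp_add]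
        have h2 : ρ ^ (B.s θ ω) = Real.exp (ε ^ 2 * B.s θ ω) := by
          rw [hρ, ← Real.exp_nat_mul, mul_comm]
        rw [h2]
        exact mul_le_mul_of_nonneg_left h1 (Real.exp_pos _).le
  refine ⟨ρ, hρ1, fun θ hθ => ?_⟩
  apply summable_of_sum_range_le (c := Real.exp (ε * h θ))
  · intro w
    apply mul_nonneg _ (pow_nonneg (by linarith) w)
    rw [Polynomial.eval_eq_sum_range]
    exact Finset.sum_nonneg fun i _ => by
      rw [one_pow, mul_one]
      exact bl_nonneg B t θ w i
  · intro N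
    exact (brB4_e_le B t θ ρ (by linarith) N).trans (hbk N θ hθ)

end Pool.Agent.SandBr
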