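import Pool.Agent.SandFin.BrB1
import Pool.Agent.SandFin.BrB3

set_option autoImplicit false

namespace Pool.Agent.SandBr

open Filter Topology

variable {Θ Ω : Type} [Fintype Θ] [Fintype Ω]

/-- value at `(1,1)` -/
noncomputable def brB5_V (P : Polynomial (Polynomial ℝ)) : ℝ := (P.eval 1).eval 1

/-- derivative in the inner variable at `(1,1)` -/
noncomputable def brB5_D (P : Polynomial (Polynomial ℝ)) : ℝ :=
  (Polynomial.derivative (P.eval 1)).eval 1

theorem brB5_V_mul (P Q : Polynomial (Polynomial ℝ)) :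
    brB5_V (P * Q) = brB5_V P * brB5_V Q := by
  simp [brB5_V]

theorem brB5_V_one : brB5_V 1 = 1 := by
  simp [brB5_V]

theorem brB5_D_one : brB5_D 1 = 0 := by
  simp [brB5_D]

theorem brB5_D_mul (P Q : Polynomial (Polynomial ℝ)) :
    brB5_D (P * Q) = brB5_D P * brB5_V Q + brB5_V P * brB5_D Q := by
  simp [brB5_V, brB5_D]

theorem brB5_D_sum {ι : Type} (s : Finset ι) (F : ι → Polynomial (Polynomial ℝ)) :
    brB5_D (∑ i ∈ s, F i) = ∑ i ∈ s, brB5_D (F i) := by
  simp [brB5_D, Polynomial.eval_finsetSum]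

theorem brB5_D_step (c : ℝ) (s : ℕ) (Q : Polynomial (Polynomial ℝ)) :
    brB5_D (Polynomial.C (Polynomial.C c) * Polynomial.X ^ s * Q) = c * brB5_D Q := by
  simp [brB5_D]

theorem brB5_V_range (P : Polynomial (Polynomial ℝ)) (N : ℕ) (hN : P.natDegree < N) :
    brB5_V P = ∑ w ∈ Finset.range N, (P.coeff w).eval 1 := by
  rw [brB5_V, Polynomial.eval_eq_sum_range' hN, Polynomial.eval_finsetSum]
  simp

theorem brB5_D_range (P : Polynomial (Polynomial ℝ)) (N : ℕ) (hN : P.natDegree < N) :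
    brB5_D P = ∑ w ∈ Finset.range N, (Polynomial.derivative (P.coeff w)).eval 1 := by
  rw [brB5_D, Polynomial.eval_eq_sum_range' hN]
  simp [Polynomial.eval_finsetSum]

theorem brB5_eval_le (P Q : Polynomial ℝ) (h : ∀ ν, P.coeff ν ≤ Q.coeff ν) :
    P.eval 1 ≤ Q.eval 1 := by
  have h1 : P.natDegree < max P.natDegree Q.natDegree + 1 := by omega
  have h2 : Q.natDegree < max P.natDegree Q.natDegree + 1 := by omega
  rw [Polynomial.eval_eq_sum_range' h1, Polynomial.eval_eq_sum_range' h2]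
  refine Finset.sum_le_sum fun i _ => ?_
  simpa using h i

theorem brB5_der_le (P Q : Polynomial ℝ) (h : ∀ ν, P.coeff ν ≤ Q.coeff ν) :
    (Polynomial.derivative P).eval 1 ≤ (Polynomial.derivative Q).eval 1 := by
  apply brB5_eval_le
  intro ν
  rw [Polynomial.coeff_derivative, Polynomial.coeff_derivative]
  exact mul_le_mul_of_nonneg_right (h _) (by positivity)

theorem brB5_eval_nonneg (Q : Polynomial ℝ) (h : ∀ ν, 0 ≤ Q.coeff ν) : 0 ≤ Q.eval 1 := by
  have := brB5_eval_le 0 Q (by simpa using h)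
  simpa using this

theorem brB5_der_nonneg (Q : Polynomial ℝ) (h : ∀ ν, 0 ≤ Q.coeff ν) :
    0 ≤ (Polynomial.derivative Q).eval 1 := by
  have := brB5_der_le 0 Q (by simpa using h)
  simpa using this

/-- list products: bounds -/
theorem brB5_list_le (F : Θ → Polynomial (Polynomial ℝ)) (Dd : Θ → ℝ) (l : List Θ)
    (h0 : ∀ c ∈ l, 0 ≤ brB5_V (F c)) (h1 : ∀ c ∈ l, brB5_V (F c) ≤ 1)
    (h2 : ∀ c ∈ l, 0 ≤ brB5_D (F c)) (h3 : ∀ c ∈ l, brB5_D (F c) ≤ Dd c) :
    (0 ≤ brB5_V ((l.map F).prod) ∧ brB5_V ((l.map F).prod) ≤ 1) ∧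
    (0 ≤ brB5_D ((l.map F).prod) ∧ brB5_D ((l.map F).prod) ≤ (l.map Dd).sum) := by
  induction l with
  | nil => simp [brB5_V_one, brB5_D_one]
  | cons c l ih =>
    have ih' := ih (fun c hc => h0 c (List.mem_cons_of_mem _ hc))
      (fun c hc => h1 c (List.mem_cons_of_mem _ hc)) (fun c hc => h2 c (List.mem_cons_of_mem _ hc))
      (fun c hc => h3 c (List.mem_cons_of_mem _ hc))
    obtain ⟨⟨i1, i2⟩, i3, i4⟩ := ih'
    have hc : c ∈ c :: l := List.mem_cons_self
    have a0 := h0 c hc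
    have a1 := h1 c hc
    have a2 := h2 c hc
    have a3 := h3 c hc
    simp only [List.map_cons, List.prod_cons, List.sum_cons, brB5_V_mul, brB5_D_mul]
    refine ⟨⟨mul_nonneg a0 i1, mul_le_one₀ a1 i1 i2⟩, by positivity, ?_⟩
    have e1 : brB5_D (F c) * brB5_V ((l.map F).prod) ≤ Dd c :=
      (mul_le_of_le_one_right a2 i2).trans a3
    have e2 : brB5_V (F c) * brB5_D ((l.map F).prod) ≤ (l.map Dd).sum :=
      (mul_le_of_le_one_left i3 a1).trans i4
    linarith

/-- list products: limits -/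
theorem brB5_list_lim (F : ℕ → Θ → Polynomial (Polynomial ℝ)) (Dd : Θ → ℝ) (l : List Θ)
    (h1 : ∀ c ∈ l, Tendsto (fun n => brB5_V (F n c)) atTop (𝓝 1))
    (h2 : ∀ c ∈ l, Tendsto (fun n => brB5_D (F n c)) atTop (𝓝 (Dd c))) :
    Tendsto (fun n => brB5_V ((l.map (F n)).prod)) atTop (𝓝 1) ∧
    Tendsto (fun n => brB5_D ((l.map (F n)).prod)) atTop (𝓝 ((l.map Dd).sum)) := by
  induction l with
  | nil => simp [brB5_V_one, brB5_D_one]
  | cons c l ih =>
    obtain ⟨i1, i2⟩ := ih (fun c hc => h1 c (List.mem_cons_of_mem _ hc))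
      (fun c hc => h2 c (List.mem_cons_of_mem _ hc))
    have hc : c ∈ c :: l := List.mem_cons_self
    have a1 := h1 c hc
    have a2 := h2 c hc
    simp only [List.map_cons, List.prod_cons, List.sum_cons, brB5_V_mul, brB5_D_mul]
    refine ⟨by simpa using a1.mul i1, ?_⟩
    simpa using (a2.mul i1).add (a1.mul i2)

open Classical in
/-- sums over lists and counts -/
theorem brB5_list_count (l : List Θ) (f : Θ → ℝ) :
    (l.map f).sum = ∑ θ', (l.count θ' : ℝ) * f θ' := by
  induction l with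
  | nil => simp
  | cons c l ih =>
    simp only [List.map_cons, List.sum_cons, ih, List.count_cons]
    push_cast
    simp only [add_mul, Finset.sum_add_distrib]
    rw [add_comm]
    congr 1
    rw [Finset.sum_eq_single c]
    · simp
    · intro b _ hb
      have : ¬ (c = b) := fun h => hb h.symm
      simp [this]
    · simp

theorem brB5_mm_sum (B : BrSys Θ Ω) (θ : Θ) (f : Θ → ℝ) :
    ∑ ω, B.p θ ω * ((B.ch θ ω).map f).sum = ∑ θ', B.mm θ θ' * f θ' := by
  classical
  simp only [brB5_list_count, BrSys.mm, Finset.sum_mul, Finset.mul_sum]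
  rw [Finset.sum_comm]
  refine Finset.sum_congr rfl fun θ' _ => Finset.sum_congr rfl fun ω _ => ?_
  ring

theorem brB5_mm_nonneg (B : BrSys Θ Ω) (θ θ' : Θ) : 0 ≤ B.mm θ θ' := by
  unfold BrSys.mm
  exact Finset.sum_nonneg fun ω _ => mul_nonneg (B.p_nonneg _ _) (by positivity)

theorem brB5_mm_pos (B : BrSys Θ Ω) (θ θ' : Θ) (ω : Ω) (hω : B.p θ ω ≠ 0)
    (hc : θ' ∈ B.ch θ ω) : B.mm θ θ' ≠ 0 := by
  classical
  unfold BrSys.mm
  apply ne_of_gt
  refine Finset.sum_pos' (fun ω _ => mul_nonneg (B.p_nonneg _ _) (by positivity))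
    ⟨ω, Finset.mem_univ _, ?_⟩
  refine mul_pos (lt_of_le_of_ne (B.p_nonneg _ _) (Ne.symm hω)) ?_
  have := List.count_pos_iff.mpr hc
  exact_mod_cast this

theorem brB5_sum_S (B : BrSys Θ Ω) (R : Finset Θ) (t : Θ) (E : Finset Θ)
    (ψ : Θ → ℝ) (hE : Blk B.mm R t E ψ) (θ : Θ) (hθ : θ = t ∨ θ ∈ E) (f : Θ → ℝ)
    (ft : f t = 1) :
    ∑ θ', B.mm θ θ' * f θ' = B.mm θ t + ∑ θ' ∈ E, B.mm θ θ' * f θ' := by
  classical
  have htE : t ∉ E := fun h => hE.disj t h hE.mem
  have : ∑ θ' ∈ insert t E, B.mm θ θ' * f θ' = ∑ θ', B.mm θ θ' * f θ' := by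
    apply Finset.sum_subset (Finset.subset_univ _)
    intro x _ hx
    have : B.mm θ x = 0 := by
      by_contra hne
      apply hx
      rcases hE.closed θ hθ x hne with h | h
      · simp [h]
      · simp [h]
    rw [this, zero_mul]
  rw [← this, Finset.sum_insert htE, ft, mul_one]

/-- T-B5: mean one -/
theorem bl_mean (B : BrSys Θ Ω) (a : Θ → ℕ → ℝ) (ha : B.IsTotal a) (R : Finset Θ) (h : Θ → ℝ)
    (hR : Cert B.mm R h) (t : Θ) (E : Finset Θ) (ψ : Θ → ℝ) (hE : Blk B.mm R t E ψ) :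
    HasSum (fun w : ℕ => (Polynomial.derivative (B.bl t t w)).eval 1) 1 := by
  classical
  -- values
  have hV0 : ∀ n θ, 0 ≤ brB5_V (B.bk t n θ) := by
    intro n θ
    rw [brB5_V_range _ _ (Nat.lt_succ_self _)]
    exact Finset.sum_nonneg fun w _ => brB5_eval_nonneg _ (fun ν => bk_nonneg B t θ n w ν)
  have hD0 : ∀ n θ, 0 ≤ brB5_D (B.bk t n θ) := by
    intro n θ
    rw [brB5_D_range _ _ (Nat.lt_succ_self _)]
    exact Finset.sum_nonneg fun w _ => brB5_der_nonneg _ (fun ν => bk_nonneg B t θ n w ν)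
  have hblV : ∀ θ w, 0 ≤ (B.bl t θ w).eval 1 := fun θ w =>
    brB5_eval_nonneg _ (bl_nonneg B t θ w)
  have hblD : ∀ θ w, 0 ≤ (Polynomial.derivative (B.bl t θ w)).eval 1 := fun θ w =>
    brB5_der_nonneg _ (bl_nonneg B t θ w)
  have hV1 : ∀ n θ, brB5_V (B.bk t n θ) ≤ 1 := by
    intro n θ
    rw [brB5_V_range _ _ (Nat.lt_succ_self _)]
    refine le_trans (Finset.sum_le_sum fun w _ => brB5_eval_le _ _ (fun ν => bk_mono B t θ n w ν)) ?_
    exact sum_le_hasSum _ (fun i _ => hblV θ i) (bl_mass B a ha t θ)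
  have hVlow : ∀ n θ, ∑ w ∈ Finset.range n, (B.bl t θ w).eval 1 ≤ brB5_V (B.bk t n θ) := by
    intro n θ
    rw [brB5_V_range _ (max n ((B.bk t n θ).natDegree + 1)) (by omega)]
    refine le_trans (le_of_eq ?_) (Finset.sum_le_sum_of_subset_of_nonneg
      (Finset.range_mono (le_max_left _ _)) (fun w _ _ =>
        brB5_eval_nonneg _ (fun ν => bk_nonneg B t θ n w ν)))
    refine Finset.sum_congr rfl fun w hw => ?_
    rw [bk_coeff B t θ n w (Finset.mem_range.mp hw)]
  have hDlow : ∀ n θ, ∑ w ∈ Finset.range n, (Polynomial.derivative (B.bl t θ w)).eval 1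
      ≤ brB5_D (B.bk t n θ) := by
    intro n θ
    rw [brB5_D_range _ (max n ((B.bk t n θ).natDegree + 1)) (by omega)]
    refine le_trans (le_of_eq ?_) (Finset.sum_le_sum_of_subset_of_nonneg
      (Finset.range_mono (le_max_left _ _)) (fun w _ _ =>
        brB5_der_nonneg _ (fun ν => bk_nonneg B t θ n w ν)))
    refine Finset.sum_congr rfl fun w hw => ?_
    rw [bk_coeff B t θ n w (Finset.mem_range.mp hw)]
  have hVlim : ∀ θ, Tendsto (fun n => brB5_V (B.bk t n θ)) atTop (𝓝 1) := by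
    intro θ
    exact tendsto_of_tendsto_of_tendsto_of_le_of_le (bl_mass B a ha t θ).tendsto_sum_nat
      tendsto_const_nhds (fun n => hVlow n θ) (fun n => hV1 n θ)
  -- the factors
  have hrec : ∀ n θ, brB5_D (B.bk t (n + 1) θ) = ∑ ω, B.p θ ω * brB5_D (((B.ch θ ω).map
      (fun c => if c = t then Polynomial.C Polynomial.X else B.bk t n c)).prod) := by
    intro n θ
    rw [BrSys.bk, brB5_D_sum]
    exact Finset.sum_congr rfl fun ω _ => brB5_D_step _ _ _
  have hVt : brB5_V (Polynomial.C Polynomial.X) = 1 := by simp [brB5_V]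
  have hDt : brB5_D (Polynomial.C Polynomial.X) = 1 := by simp [brB5_D]
  have htS : ∀ θ, (θ = t ∨ θ ∈ E) → ∀ ω, B.p θ ω ≠ 0 → ∀ c ∈ B.ch θ ω, c = t ∨ c ∈ E :=
    fun θ hθ ω hω c hc => hE.closed θ hθ c (brB5_mm_pos B θ c ω hω hc)
  have htE : t ∉ E := fun h => hE.disj t h hE.mem
  -- upper bound by ψ
  have hDψ : ∀ n θ, (θ = t ∨ θ ∈ E) → brB5_D (B.bk t n θ) ≤ ψ θ := by
    intro n
    induction n with
    | zero =>
      intro θ _
      simp only [BrSys.bk, brB5_D]
      simpa using hE.psi_nonneg θ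
    | succ n ih =>
      intro θ hθ
      rw [hrec]
      have key : ∑ ω, B.p θ ω * brB5_D (((B.ch θ ω).map
          (fun c => if c = t then Polynomial.C Polynomial.X else B.bk t n c)).prod) ≤
          ∑ ω, B.p θ ω * ((B.ch θ ω).map (fun c => if c = t then 1 else ψ c)).sum := by
        refine Finset.sum_le_sum fun ω _ => ?_
        by_cases hω : B.p θ ω = 0
        · simp [hω]
        · refine mul_le_mul_of_nonneg_left ?_ (B.p_nonneg _ _)
          refine (brB5_list_le _ _ _ ?_ ?_ ?_ ?_).2.2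
          · intro c _
            by_cases hc : c = t
            · simp [hc, hVt]
            · simp [hc, hV0]
          · intro c _
            by_cases hc : c = t
            · simp [hc, hVt]
            · simp [hc, hV1]
          · intro c _
            by_cases hc : c = t
            · simp [hc, hDt]
            · simp [hc, hD0]
          · intro c hcm
            by_cases hc : c = t
            · simp [hc, hDt]
            · simp only [hc, if_false]
              exact ih c (htS θ hθ ω hω c hcm)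
      refine key.trans (le_of_eq ?_)
      rw [brB5_mm_sum, brB5_sum_S B R t E ψ hE θ hθ _ (by simp), hE.psi_eq θ hθ]
      congr 1
      refine Finset.sum_congr rfl fun θ' hθ' => ?_
      have : θ' ≠ t := fun h => htE (h ▸ hθ')
      simp [this]
  -- summability
  have hsum : ∀ θ, (θ = t ∨ θ ∈ E) →
      Summable (fun w => (Polynomial.derivative (B.bl t θ w)).eval 1) := by
    intro θ hθ
    exact summable_of_sum_range_le (hblD θ) (fun n => (hDlow n θ).trans (hDψ n θ hθ))
  set Dd : Θ → ℝ := fun θ => ∑' w, (Polynomial.derivative (B.bl t θ w)).eval 1 with hDd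
  have hDup : ∀ n θ, (θ = t ∨ θ ∈ E) → brB5_D (B.bk t n θ) ≤ Dd θ := by
    intro n θ hθ
    rw [brB5_D_range _ _ (Nat.lt_succ_self _)]
    refine le_trans (Finset.sum_le_sum fun w _ => brB5_der_le _ _ (fun ν => bk_mono B t θ n w ν)) ?_
    exact (hsum θ hθ).sum_le_tsum _ (fun i _ => hblD θ i)
  have hDlim : ∀ θ, (θ = t ∨ θ ∈ E) →
      Tendsto (fun n => brB5_D (B.bk t n θ)) atTop (𝓝 (Dd θ)) := by
    intro θ hθ
    exact tendsto_of_tendsto_of_tendsto_of_le_of_le (hsum θ hθ).hasSum.tendsto_sum_nat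
      tendsto_const_nhds (fun n => hDlow n θ) (fun n => hDup n θ hθ)
  -- limit of the recursion
  have hDrec : ∀ θ, (θ = t ∨ θ ∈ E) → Dd θ = B.mm θ t + ∑ θ' ∈ E, B.mm θ θ' * Dd θ' := by
    intro θ hθ
    have l1 : Tendsto (fun n => brB5_D (B.bk t (n + 1) θ)) atTop (𝓝 (Dd θ)) :=
      (tendsto_add_atTop_iff_nat 1).mpr (hDlim θ hθ)
    have l2 : Tendsto (fun n => brB5_D (B.bk t (n + 1) θ)) atTop
        (𝓝 (∑ ω, B.p θ ω * ((B.ch θ ω).map (fun c => if c = t then 1 else Dd c)).sum)) := by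
      simp only [hrec]
      refine tendsto_finsetSum _ fun ω _ => ?_
      by_cases hω : B.p θ ω = 0
      · simp [hω]
      · refine Tendsto.const_mul _ ?_
        refine (brB5_list_lim (fun n c => if c = t then Polynomial.C Polynomial.X
          else B.bk t n c) (fun c => if c = t then 1 else Dd c) _ ?_ ?_).2
        · intro c _
          by_cases hc : c = t
          · simp [hc, hVt]
          · simpa [hc] using hVlim c
        · intro c hcm
          by_cases hc : c = t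
          · simp [hc, hDt]
          · simpa [hc] using hDlim c (htS θ hθ ω hω c hcm)
    have := tendsto_nhds_unique l1 l2
    rw [this, brB5_mm_sum, brB5_sum_S B R t E ψ hE θ hθ _ (by simp)]
    congr 1
    refine Finset.sum_congr rfl fun θ' hθ' => ?_
    have : θ' ≠ t := fun h => htE (h ▸ hθ')
    simp [this]
  -- uniqueness
  have huniq : ∀ θ ∈ E, Dd θ = ψ θ := by
    by_contra hcon
    push Not at hcon
    obtain ⟨θ1, hθ1, hne⟩ := hcon
    obtain ⟨θ0, hθ0, hmax⟩ := Finset.exists_max_image E (fun θ => |Dd θ - ψ θ| / h θ) ⟨θ1, hθ1⟩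
    set c := |Dd θ0 - ψ θ0| / h θ0 with hc
    have hh : ∀ θ, 0 < h θ := fun θ => lt_of_lt_of_le one_pos (hR.1 θ)
    have hcpos : 0 < c := by
      refine lt_of_lt_of_le ?_ (hmax θ1 hθ1)
      exact div_pos (abs_pos.mpr (sub_ne_zero.mpr hne)) (hh _)
    have hle : ∀ θ ∈ E, |Dd θ - ψ θ| ≤ c * h θ := by
      intro θ hθ
      exact (div_le_iff₀ (hh θ)).mp (hmax θ hθ)
    have e0 : |Dd θ0 - ψ θ0| = c * h θ0 := by
      rw [hc]; field_simp [(hh θ0).ne']
    have e1 : |Dd θ0 - ψ θ0| ≤ ∑ θ' ∈ E, B.mm θ0 θ' * (c * h θ') := by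
      rw [hDrec θ0 (Or.inr hθ0), hE.psi_eq θ0 (Or.inr hθ0), add_sub_add_left_eq_sub,
        ← Finset.sum_sub_distrib]
      refine (Finset.abs_sum_le_sum_abs _ _).trans (Finset.sum_le_sum fun θ' hθ' => ?_)
      rw [← mul_sub, abs_mul, abs_of_nonneg (brB5_mm_nonneg B _ _)]
      exact mul_le_mul_of_nonneg_left (hle θ' hθ') (brB5_mm_nonneg B _ _)
    have e2 : ∑ θ' ∈ E, B.mm θ0 θ' * h θ' ≤ h θ0 - 1 := by
      have := hR.2 θ0
      have e3 : ∑ θ' ∈ E, B.mm θ0 θ' * h θ' ≤
          ∑ θ' , (if θ' ∈ R then 0 else B.mm θ0 θ' * h θ') := by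
        have : ∑ θ' ∈ E, B.mm θ0 θ' * h θ' =
            ∑ θ' ∈ E, (if θ' ∈ R then 0 else B.mm θ0 θ' * h θ') := by
          refine Finset.sum_congr rfl fun θ' hθ' => ?_
          simp [hE.disj θ' hθ']
        rw [this]
        refine Finset.sum_le_sum_of_subset_of_nonneg (Finset.subset_univ _) (fun x _ _ => ?_)
        split_ifs
        · exact le_rfl
        · exact mul_nonneg (brB5_mm_nonneg B _ _) (hh x).le
      linarith
    have e4 : ∑ θ' ∈ E, B.mm θ0 θ' * (c * h θ') = c * ∑ θ' ∈ E, B.mm θ0 θ' * h θ' := by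
      rw [Finset.mul_sum]
      exact Finset.sum_congr rfl fun θ' _ => by ring
    rw [e4, e0] at e1
    have := le_of_mul_le_mul_left e1 hcpos
    linarith
  have hfin : Dd t = 1 := by
    rw [← hE.psi_t, hDrec t (Or.inl rfl), hE.psi_eq t (Or.inl rfl)]
    congr 1
    exact Finset.sum_congr rfl fun θ' hθ' => by rw [huniq θ' hθ']
  have hlast := (hsum t (Or.inl rfl)).hasSum
  have : (∑' w, (Polynomial.derivative (B.bl t t w)).eval 1) = 1 := hfin
  rwa [this] at hlast

end Pool.Agent.SandBr
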