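import Pool.Agent.SandFin.BrB1
import Pool.Agent.SandFin.BrB2
import Pool.Agent.SandFin.BrB3
import Pool.Agent.SandFin.BrB4
import Pool.Agent.SandFin.BrB5

set_option autoImplicit false

namespace Pool.Agent.SandBr

variable {Θ Ω : Type} [Fintype Θ] [Fintype Ω]

/-- assembly -/
theorem sty_block (B : BrSys Θ Ω) (a : Θ → ℕ → ℝ) (ha : B.IsTotal a) (R : Finset Θ) (h : Θ → ℝ)
    (hR : Cert B.mm R h) (t : Θ) (E : Finset Θ) (ψ : Θ → ℝ) (hE : Blk B.mm R t E ψ) :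
    ∃ (β : ℕ → Polynomial ℝ) (b : ℕ) (ρ : ℝ), STy β b ρ (a t) := by
  obtain ⟨b, hb⟩ := bl_deg B t
  obtain ⟨ρ, hρ, hs⟩ := bl_expm B R h hR t E ψ hE
  exact ⟨B.bl t t, b, ρ, bl_nonneg B t t, bl_zero B t t, hb t, bl_mass B a ha t t,
    bl_mean B a ha R h hR t E ψ hE, hρ, hs t (Or.inl rfl), ha.nonneg t, ha.hasSum t,
    bl_rec B a ha t t⟩

end Pool.Agent.SandBr
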