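import Pool.Agent.SandFin.BrBase

set_option autoImplicit false

namespace Pool.Agent.SandBr

variable {Θ Ω : Type} [Fintype Θ] [Fintype Ω]

/-! ### nonnegative coefficients -/

/-- all coefficients are nonnegative -/
def brB1_Nn (F : Polynomial (Polynomial ℝ)) : Prop := ∀ w ν, 0 ≤ (F.coeff w).coeff ν

theorem brB1_Nn_zero : brB1_Nn 0 := fun w ν => by simp

theorem brB1_Nn_one : brB1_Nn 1 := fun w ν => by
  rw [Polynomial.coeff_one]
  split_ifs
  · rw [Polynomial.coeff_one]
    split_ifs <;> norm_num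
  · simp

theorem brB1_Nn_add {F G : Polynomial (Polynomial ℝ)} (hF : brB1_Nn F) (hG : brB1_Nn G) :
    brB1_Nn (F + G) := fun w ν => by
  rw [Polynomial.coeff_add, Polynomial.coeff_add]
  exact add_nonneg (hF w ν) (hG w ν)

theorem brB1_Nn_mul {F G : Polynomial (Polynomial ℝ)} (hF : brB1_Nn F) (hG : brB1_Nn G) :
    brB1_Nn (F * G) := fun w ν => by
  rw [Polynomial.coeff_mul, Polynomial.finsetSum_coeff]
  refine Finset.sum_nonneg fun x _ => ?_
  rw [Polynomial.coeff_mul]
  exact Finset.sum_nonneg fun y _ => mul_nonneg (hF _ _) (hG _ _)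

theorem brB1_Nn_sum {ι : Type} (s : Finset ι) (F : ι → Polynomial (Polynomial ℝ))
    (h : ∀ i ∈ s, brB1_Nn (F i)) : brB1_Nn (∑ i ∈ s, F i) := by
  classical
  induction s using Finset.induction_on with
  | empty => simpa using brB1_Nn_zero
  | insert a s ha ih =>
    rw [Finset.sum_insert ha]
    exact brB1_Nn_add (h a (Finset.mem_insert_self a s))
      (ih fun i hi => h i (Finset.mem_insert_of_mem hi))

theorem brB1_Nn_CC {r : ℝ} (hr : 0 ≤ r) : brB1_Nn (Polynomial.C (Polynomial.C r)) := fun w ν => by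
  rw [Polynomial.coeff_C]
  split_ifs
  · rw [Polynomial.coeff_C]
    split_ifs
    · exact hr
    · exact le_refl _
  · simp

theorem brB1_Nn_CX : brB1_Nn (Polynomial.C Polynomial.X) := fun w ν => by
  rw [Polynomial.coeff_C]
  split_ifs
  · rw [Polynomial.coeff_X]
    split_ifs <;> norm_num
  · simp

theorem brB1_Nn_Xpow (k : ℕ) : brB1_Nn (Polynomial.X ^ k) := fun w ν => by
  rw [Polynomial.coeff_X_pow]
  split_ifs
  · rw [Polynomial.coeff_one]
    split_ifs <;> norm_num
  · simp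

theorem brB1_Nn_prod {ι : Type} (l : List ι) (f : ι → Polynomial (Polynomial ℝ))
    (h : ∀ c, brB1_Nn (f c)) : brB1_Nn (l.map f).prod := by
  induction l with
  | nil => simpa using brB1_Nn_one
  | cons c l ih =>
    rw [List.map_cons, List.prod_cons]
    exact brB1_Nn_mul (h c) ih

theorem brB1_Nn_prod_sub {ι : Type} (l : List ι) (f g : ι → Polynomial (Polynomial ℝ))
    (hf : ∀ c, brB1_Nn (f c)) (hg : ∀ c, brB1_Nn (g c)) (h : ∀ c, brB1_Nn (f c - g c)) :
    brB1_Nn ((l.map f).prod - (l.map g).prod) := by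
  induction l with
  | nil => simpa using brB1_Nn_zero
  | cons c l ih =>
    rw [List.map_cons, List.prod_cons, List.map_cons, List.prod_cons]
    have h1 : f c * (l.map f).prod - g c * (l.map g).prod =
        f c * ((l.map f).prod - (l.map g).prod) + (f c - g c) * (l.map g).prod := by ring
    rw [h1]
    exact brB1_Nn_add (brB1_Nn_mul (hf c) ih) (brB1_Nn_mul (h c) (brB1_Nn_prod l g hg))

theorem brB1_dvd_prod_sub {ι : Type} (l : List ι) (d : Polynomial (Polynomial ℝ))
    (f g : ι → Polynomial (Polynomial ℝ)) (h : ∀ c, d ∣ f c - g c) :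
    d ∣ (l.map f).prod - (l.map g).prod := by
  induction l with
  | nil => simp
  | cons c l ih =>
    rw [List.map_cons, List.prod_cons, List.map_cons, List.prod_cons]
    have h1 : f c * (l.map f).prod - g c * (l.map g).prod =
        f c * ((l.map f).prod - (l.map g).prod) + (f c - g c) * (l.map g).prod := by ring
    rw [h1]
    exact dvd_add (Dvd.dvd.mul_left ih _) (Dvd.dvd.mul_right (h c) _)

/-! ### degrees -/

/-- the coefficient of index `w` has degree at most `b * w + k` -/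
def brB1_Dg (b k : ℕ) (F : Polynomial (Polynomial ℝ)) : Prop :=
  ∀ w, (F.coeff w).natDegree ≤ b * w + k

theorem brB1_Dg_mul {b k l : ℕ} {F G : Polynomial (Polynomial ℝ)} (hF : brB1_Dg b k F)
    (hG : brB1_Dg b l G) : brB1_Dg b (k + l) (F * G) := fun w => by
  rw [Polynomial.coeff_mul]
  refine Polynomial.natDegree_sum_le_of_forall_le _ _ fun x hx => ?_
  refine Polynomial.natDegree_mul_le.trans ?_
  have h1 := hF x.1
  have h2 := hG x.2
  have h3 : x.1 + x.2 = w := Finset.HasAntidiagonal.mem_antidiagonal.1 hx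
  calc _ ≤ (b * x.1 + k) + (b * x.2 + l) := add_le_add h1 h2
    _ = b * w + (k + l) := by rw [← h3]; ring

theorem brB1_Dg_prod {ι : Type} (b : ℕ) (l : List ι) (f : ι → Polynomial (Polynomial ℝ))
    (h : ∀ c, brB1_Dg b 1 (f c)) : brB1_Dg b l.length (l.map f).prod := by
  induction l with
  | nil =>
    intro w
    simp only [List.map_nil, List.prod_nil]
    rw [Polynomial.coeff_one]
    split_ifs <;> simp
  | cons c l ih =>
    rw [List.map_cons, List.prod_cons, List.length_cons, add_comm]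
    exact brB1_Dg_mul (h c) ih

/-! ### the factors -/

open Classical in
/-- a factor of the recursion of `bk` -/
noncomputable def brB1_f (B : BrSys Θ Ω) (t : Θ) (n : ℕ) (c : Θ) : Polynomial (Polynomial ℝ) :=
  if c = t then Polynomial.C Polynomial.X else B.bk t n c

theorem brB1_bk_succ (B : BrSys Θ Ω) (t θ : Θ) (n : ℕ) : B.bk t (n + 1) θ =
    ∑ ω, Polynomial.C (Polynomial.C (B.p θ ω)) * Polynomial.X ^ (B.s θ ω) *
      ((B.ch θ ω).map (brB1_f B t n)).prod := by
  rfl

theorem brB1_bk_nn (B : BrSys Θ Ω) (t : Θ) (n : ℕ) : ∀ θ, brB1_Nn (B.bk t n θ) := by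
  induction n with
  | zero => exact fun θ => brB1_Nn_zero
  | succ n ih =>
    intro θ
    rw [brB1_bk_succ]
    refine brB1_Nn_sum _ _ fun ω _ => brB1_Nn_mul (brB1_Nn_mul (brB1_Nn_CC (B.p_nonneg θ ω))
      (brB1_Nn_Xpow _)) (brB1_Nn_prod _ _ fun c => ?_)
    unfold brB1_f
    split_ifs
    · exact brB1_Nn_CX
    · exact ih c

theorem brB1_f_nn (B : BrSys Θ Ω) (t : Θ) (n : ℕ) (c : Θ) : brB1_Nn (brB1_f B t n c) := by
  unfold brB1_f
  split_ifs
  · exact brB1_Nn_CX
  · exact brB1_bk_nn B t n c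

theorem brB1_bk_step (B : BrSys Θ Ω) (t : Θ) (n : ℕ) :
    ∀ θ, brB1_Nn (B.bk t (n + 1) θ - B.bk t n θ) := by
  induction n with
  | zero =>
    intro θ
    have h : B.bk t 0 θ = 0 := rfl
    rw [h, sub_zero]
    exact brB1_bk_nn B t _ θ
  | succ n ih =>
    intro θ
    rw [brB1_bk_succ B t θ (n + 1), brB1_bk_succ B t θ n, ← Finset.sum_sub_distrib]
    refine brB1_Nn_sum _ _ fun ω _ => ?_
    rw [← mul_sub]
    refine brB1_Nn_mul (brB1_Nn_mul (brB1_Nn_CC (B.p_nonneg θ ω)) (brB1_Nn_Xpow _))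
      (brB1_Nn_prod_sub _ _ _ (brB1_f_nn B t (n + 1)) (brB1_f_nn B t n) fun c => ?_)
    unfold brB1_f
    split_ifs
    · rw [sub_self]
      exact brB1_Nn_zero
    · exact ih c

theorem brB1_bk_dvd (B : BrSys Θ Ω) (t : Θ) (n : ℕ) :
    ∀ θ, (Polynomial.X : Polynomial (Polynomial ℝ)) ^ n ∣ B.bk t (n + 1) θ - B.bk t n θ := by
  induction n with
  | zero =>
    intro θ
    rw [pow_zero]
    exact one_dvd _
  | succ n ih =>
    intro θ
    rw [brB1_bk_succ B t θ (n + 1), brB1_bk_succ B t θ n, ← Finset.sum_sub_distrib]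
    refine Finset.dvd_sum fun ω _ => ?_
    rw [← mul_sub, pow_succ']
    refine mul_dvd_mul ?_ (brB1_dvd_prod_sub _ _ _ _ fun c => ?_)
    · exact Dvd.dvd.mul_left (dvd_pow_self _ (Nat.one_le_iff_ne_zero.1 (B.s_pos θ ω))) _
    · unfold brB1_f
      split_ifs
      · rw [sub_self]
        exact dvd_zero _
      · exact ih c

/-- T-B1: stability -/
theorem bk_coeff (B : BrSys Θ Ω) (t θ : Θ) (n w : ℕ) (h : w < n) : (B.bk t n θ).coeff w = B.bl t θ w := by
  unfold BrSys.bl
  have h' : w + 1 ≤ n := h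
  induction n, h' using Nat.le_induction with
  | base => rfl
  | succ m hm ih =>
    have h1 := Polynomial.X_pow_dvd_iff.1 (brB1_bk_dvd B t m θ) w hm
    rw [Polynomial.coeff_sub, sub_eq_zero] at h1
    rw [h1]
    exact ih hm

theorem bk_nonneg (B : BrSys Θ Ω) (t θ : Θ) (n w ν : ℕ) : 0 ≤ ((B.bk t n θ).coeff w).coeff ν :=
  brB1_bk_nn B t n θ w ν

theorem bl_nonneg (B : BrSys Θ Ω) (t θ : Θ) (w ν : ℕ) : 0 ≤ (B.bl t θ w).coeff ν :=
  brB1_bk_nn B t (w + 1) θ w ν

theorem bl_zero (B : BrSys Θ Ω) (t θ : Θ) : B.bl t θ 0 = 0 := by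
  unfold BrSys.bl
  rw [zero_add, brB1_bk_succ B t θ 0, Polynomial.finsetSum_coeff]
  refine Finset.sum_eq_zero fun ω _ => ?_
  rw [Polynomial.mul_coeff_zero, Polynomial.mul_coeff_zero, Polynomial.coeff_X_pow,
    if_neg (by have := B.s_pos θ ω; omega), mul_zero, zero_mul]

theorem brB1_bk_dg (B : BrSys Θ Ω) (t : Θ) (b : ℕ) (hb : ∀ θ ω, (B.ch θ ω).length ≤ b) (n : ℕ) :
    ∀ θ, brB1_Dg b 0 (B.bk t n θ) := by
  induction n with
  | zero =>
    intro θ w
    have h : B.bk t 0 θ = 0 := rfl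
    rw [h]
    simp
  | succ n ih =>
    intro θ w
    rw [brB1_bk_succ, Polynomial.finsetSum_coeff]
    refine Polynomial.natDegree_sum_le_of_forall_le _ _ fun ω _ => ?_
    have hf : ∀ c, brB1_Dg b 1 (brB1_f B t n c) := by
      intro c w
      unfold brB1_f
      split_ifs
      · rw [Polynomial.coeff_C]
        split_ifs
        · rw [Polynomial.natDegree_X]
          omega
        · simp
      · exact (ih c w).trans (by omega)
    have hP := brB1_Dg_prod b (B.ch θ ω) (brB1_f B t n) hf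
    rw [mul_assoc, Polynomial.coeff_C_mul]
    refine (Polynomial.natDegree_C_mul_le _ _).trans ?_
    rw [Polynomial.coeff_X_pow_mul']
    split_ifs with hs
    · refine (hP (w - B.s θ ω)).trans ?_
      have h1 := B.s_pos θ ω
      have h2 := hb θ ω
      have h3 : b * (w - B.s θ ω) + b ≤ b * w := by
        calc b * (w - B.s θ ω) + b = b * (w - B.s θ ω + 1) := by ring
          _ ≤ b * w := Nat.mul_le_mul_left _ (by omega)
      omega
    · simp

theorem bl_deg (B : BrSys Θ Ω) (t : Θ) : ∃ b : ℕ, ∀ θ w, (B.bl t θ w).natDegree ≤ b * w := by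
  refine ⟨∑ θ, ∑ ω, (B.ch θ ω).length, fun θ w => ?_⟩
  refine brB1_bk_dg B t _ (fun θ ω => ?_) (w + 1) θ w
  calc (B.ch θ ω).length ≤ ∑ ω, (B.ch θ ω).length :=
        Finset.single_le_sum (f := fun ω => (B.ch θ ω).length) (fun _ _ => Nat.zero_le _)
          (Finset.mem_univ ω)
    _ ≤ ∑ θ, ∑ ω, (B.ch θ ω).length :=
        Finset.single_le_sum (f := fun θ => ∑ ω, (B.ch θ ω).length) (fun _ _ => Nat.zero_le _)
          (Finset.mem_univ θ)

theorem bk_mono (B : BrSys Θ Ω) (t θ : Θ) (n w ν : ℕ) :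
    ((B.bk t n θ).coeff w).coeff ν ≤ (B.bl t θ w).coeff ν := by
  rcases lt_or_ge w n with h | h
  · rw [bk_coeff B t θ n w h]
  · have key : ∀ m, n ≤ m → ((B.bk t n θ).coeff w).coeff ν ≤ ((B.bk t m θ).coeff w).coeff ν := by
      intro m hm
      induction m, hm using Nat.le_induction with
      | base => exact le_refl _
      | succ m _ ih =>
        have h1 := brB1_bk_step B t m θ w ν
        rw [Polynomial.coeff_sub, Polynomial.coeff_sub, sub_nonneg] at h1
        exact ih.trans h1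
    exact key (w + 1) (by omega)

end Pool.Agent.SandBr
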