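import Pool.Agent.SandFin.BrDefs

/-!
# Basic definitions for the branching theorem (MP_4555f0_mp, part T)

`PP` = power series in `X` (total size) with coefficients polynomials in `T`.
Walk coordinates: a step has size `w ≥ 1` and displacement `s ∈ ℤ`, `s ≥ -w`; it is encoded by the monomial
`X^w T^(w+s)`.  So after total size `n` the position `s` is encoded by the exponent `n + s` of `T`.
-/

set_option autoImplicit false

namespace Pool.Agent.SandBr

/-- power series with polynomial coefficients -/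
abbrev PP : Type := PowerSeries (Polynomial ℝ)

/-- nonnegative coefficients -/
def Nn (F : PP) : Prop := ∀ w e, 0 ≤ (PowerSeries.coeff w F).coeff e

/-- evaluation `T = 1` -/
noncomputable def ev (F : PP) : PowerSeries ℝ := PowerSeries.map (Polynomial.evalRingHom (1 : ℝ)) F

/-- Green function `(1 - f)⁻¹` (for `f` with zero constant coefficient) -/
noncomputable def gr {A : Type} [CommRing A] (f : PowerSeries A) : PowerSeries A :=
  PowerSeries.invOfUnit (1 - f) 1

/-- mass of a residue class of exponents -/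
noncomputable def rs (d : ℕ) (x : ZMod d) (P : Polynomial ℝ) : ℝ :=
  P.sum (fun E c => if (E : ZMod d) = x then c else 0)

/-- second moment around `y` -/
noncomputable def m2 (y : ℝ) (P : Polynomial ℝ) : ℝ := P.sum (fun E c => ((E : ℝ) - y) ^ 2 * c)

/-- step law of a centered walk with increasing size coordinate -/
structure Wlk (f : PP) (b : ℕ) (ρ : ℝ) : Prop where
  nonneg : Nn f
  zero : PowerSeries.coeff 0 f = 0
  deg : ∀ w, (PowerSeries.coeff w f).natDegree ≤ b * w
  mass : HasSum (fun w : ℕ => (PowerSeries.coeff w f).eval 1) 1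
  mean : HasSum (fun w : ℕ => (Polynomial.derivative (PowerSeries.coeff w f)).eval 1
    - (w : ℝ) * (PowerSeries.coeff w f).eval 1) 0
  one_lt : 1 < ρ
  expm : Summable (fun w : ℕ => (PowerSeries.coeff w f).eval 1 * ρ ^ w)

/-- `f = ε X^L T^e (1 + T^d) + q`: a fair coin -/
structure Coin (f q : PP) (ε : ℝ) (L e d : ℕ) : Prop where
  eps : 0 < ε
  hL : 1 ≤ L
  hd : 1 ≤ d
  qn : Nn q
  eq : f = PowerSeries.monomial L (Polynomial.C ε * Polynomial.X ^ e * (1 + Polynomial.X ^ d)) + q

/-- single-type system: `β w` is the generating polynomial (in the number of children) of blocks of size `w`;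
`a` is the law of the total size. -/
structure STy (β : ℕ → Polynomial ℝ) (b : ℕ) (ρ : ℝ) (a : ℕ → ℝ) : Prop where
  nonneg : ∀ w ν, 0 ≤ (β w).coeff ν
  zero : β 0 = 0
  deg : ∀ w, (β w).natDegree ≤ b * w
  mass : HasSum (fun w : ℕ => (β w).eval 1) 1
  mean : HasSum (fun w : ℕ => (Polynomial.derivative (β w)).eval 1) 1
  one_lt : 1 < ρ
  expm : Summable (fun w : ℕ => (β w).eval 1 * ρ ^ w)
  a_nonneg : ∀ m, 0 ≤ a m
  a_sum : HasSum a 1
  rec_eq : ∀ m, a m = ∑ w ∈ Finset.range (m + 1),
    PowerSeries.coeff (m - w) (Polynomial.aeval (PowerSeries.mk a) (β w))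

/-- step series of the walk `(w, ν - 1)` -/
noncomputable def stp (β : ℕ → Polynomial ℝ) : PP :=
  PowerSeries.mk fun w => Polynomial.X ^ (w - 1) * β w

variable {Θ Ω : Type} [Fintype Θ] [Fintype Ω]

open Classical in
/-- mean matrix of a branching system -/
noncomputable def BrSys.mm (B : BrSys Θ Ω) : Matrix Θ Θ ℝ :=
  fun θ θ' => ∑ ω, B.p θ ω * ((B.ch θ ω).count θ' : ℝ)

open Classical in
/-- block series with fuel `n`: stop at type `t`; `Polynomial.X` (outer) marks size, inner `X` marks the number of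
stopped nodes -/
noncomputable def BrSys.bk (B : BrSys Θ Ω) (t : Θ) : ℕ → Θ → Polynomial (Polynomial ℝ)
  | 0, _ => 0
  | n + 1, θ => ∑ ω, Polynomial.C (Polynomial.C (B.p θ ω)) * Polynomial.X ^ (B.s θ ω) *
      ((B.ch θ ω).map (fun c => if c = t then Polynomial.C Polynomial.X else B.bk t n c)).prod

/-- block law from `θ`, stopping at type `t` -/
noncomputable def BrSys.bl (B : BrSys Θ Ω) (t θ : Θ) (w : ℕ) : Polynomial ℝ :=
  (B.bk t (w + 1) θ).coeff w

open Classical in
/-- certificate that the chain outside `R` is transient -/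
def Cert (M : Matrix Θ Θ ℝ) (R : Finset Θ) (h : Θ → ℝ) : Prop :=
  (∀ θ, 1 ≤ h θ) ∧ ∀ θ, 1 + ∑ θ' , (if θ' ∈ R then 0 else M θ θ' * h θ') ≤ h θ

/-- `E` (disjoint from `R`) is closed from `t`, and `ψ` is the expected number of stopped `t`'s, with `ψ t = 1` -/
structure Blk (M : Matrix Θ Θ ℝ) (R : Finset Θ) (t : Θ) (E : Finset Θ) (ψ : Θ → ℝ) : Prop where
  mem : t ∈ R
  disj : ∀ θ ∈ E, θ ∉ R
  psi_nonneg : ∀ θ, 0 ≤ ψ θ
  closed : ∀ θ, (θ = t ∨ θ ∈ E) → ∀ θ', M θ θ' ≠ 0 → (θ' = t ∨ θ' ∈ E)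
  psi_eq : ∀ θ, (θ = t ∨ θ ∈ E) → ψ θ = M θ t + ∑ θ' ∈ E, M θ θ' * ψ θ'
  psi_t : ψ t = 1

end Pool.Agent.SandBr
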