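import Pool.Agent.SandFin.BrBase

set_option autoImplicit false

namespace Pool.Agent.SandBr

/-- T-C0 -/
theorem gr_mul {A : Type} [CommRing A] (f : PowerSeries A) (h : PowerSeries.coeff 0 f = 0) :
    (1 - f) * gr f = 1 := by
  unfold gr
  apply PowerSeries.mul_invOfUnit
  rw [map_sub, map_one, ← PowerSeries.coeff_zero_eq_constantCoeff_apply, h]
  simp

theorem gr_unique {A : Type} [CommRing A] (f g : PowerSeries A) (h : PowerSeries.coeff 0 f = 0)
    (hg : (1 - f) * g = 1) : g = gr f := by
  have h1 := gr_mul f h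
  calc g = ((1 - f) * gr f) * g := by rw [h1, one_mul]
    _ = ((1 - f) * g) * gr f := by ring
    _ = gr f := by rw [hg, one_mul]

theorem gr_coeff_zero {A : Type} [CommRing A] (f : PowerSeries A) (h : PowerSeries.coeff 0 f = 0) :
    PowerSeries.coeff 0 (gr f) = 1 := by
  have h1 := congrArg PowerSeries.constantCoeff (gr_mul f h)
  have h2 : PowerSeries.constantCoeff f = 0 := by
    rw [← PowerSeries.coeff_zero_eq_constantCoeff_apply, h]
  rw [map_mul, map_sub, h2, map_one, sub_zero, one_mul] at h1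
  rw [PowerSeries.coeff_zero_eq_constantCoeff_apply, h1]

theorem brC0a_rec {A : Type} [CommRing A] (f : PowerSeries A) (h : PowerSeries.coeff 0 f = 0) :
    gr f = 1 + f * gr f := by
  have h1 := gr_mul f h
  linear_combination h1

/-- recursion -/
theorem gr_coeff {A : Type} [CommRing A] (f : PowerSeries A) (h : PowerSeries.coeff 0 f = 0) (n : ℕ)
    (hn : 1 ≤ n) : PowerSeries.coeff n (gr f) =
      ∑ w ∈ Finset.range (n + 1), PowerSeries.coeff w f * PowerSeries.coeff (n - w) (gr f) := by
  conv_lhs => rw [brC0a_rec f h]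
  rw [map_add, PowerSeries.coeff_mul, PowerSeries.coeff_one, if_neg (by omega), zero_add]
  rw [Finset.Nat.sum_antidiagonal_eq_sum_range_succ_mk]

theorem brC0a_pow_lt {A : Type} [CommRing A] (f : PowerSeries A) (h : PowerSeries.coeff 0 f = 0)
    (n M : ℕ) (hM : n < M) : PowerSeries.coeff n (f ^ M) = 0 := by
  have h1 : PowerSeries.X ∣ f := by
    rw [PowerSeries.X_dvd_iff, ← PowerSeries.coeff_zero_eq_constantCoeff_apply, h]
  have h2 : PowerSeries.X ^ M ∣ f ^ M := pow_dvd_pow_of_dvd h1 M
  exact PowerSeries.X_pow_dvd_iff.1 h2 n hM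

/-- expansion as geometric series -/
theorem gr_geom {A : Type} [CommRing A] (f : PowerSeries A) (h : PowerSeries.coeff 0 f = 0) (n N : ℕ)
    (hN : n ≤ N) : PowerSeries.coeff n (gr f) = ∑ M ∈ Finset.range (N + 1), PowerSeries.coeff n (f ^ M) := by
  have h1 : ∀ N : ℕ, gr f = ∑ M ∈ Finset.range N, f ^ M + f ^ N * gr f := by
    intro N
    induction N with
    | zero => simp
    | succ N ih =>
      rw [Finset.sum_range_succ, add_assoc]
      conv_lhs => rw [ih]
      congr 1
      conv_lhs => rw [brC0a_rec f h]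
      ring
  conv_lhs => rw [h1 (N + 1)]
  rw [map_add, map_sum]
  have h2 : PowerSeries.coeff n (f ^ (N + 1) * gr f) = 0 := by
    have h3 : PowerSeries.X ∣ f := by
      rw [PowerSeries.X_dvd_iff, ← PowerSeries.coeff_zero_eq_constantCoeff_apply, h]
    have h4 : PowerSeries.X ^ (N + 1) ∣ f ^ (N + 1) * gr f :=
      Dvd.dvd.mul_right (pow_dvd_pow_of_dvd h3 _) _
    exact PowerSeries.X_pow_dvd_iff.1 h4 n (by omega)
  rw [h2, add_zero]

theorem ev_coeff (F : PP) (n : ℕ) : PowerSeries.coeff n (ev F) = (PowerSeries.coeff n F).eval 1 := by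
  unfold ev
  rw [PowerSeries.coeff_map]
  rfl

theorem ev_mul (F G : PP) : ev (F * G) = ev F * ev G := by
  unfold ev
  rw [map_mul]

theorem ev_pow (F : PP) (n : ℕ) : ev (F ^ n) = ev F ^ n := by
  unfold ev
  rw [map_pow]

theorem ev_add (F G : PP) : ev (F + G) = ev F + ev G := by
  unfold ev
  rw [map_add]

theorem ev_sub (F G : PP) : ev (F - G) = ev F - ev G := by
  unfold ev
  rw [map_sub]

theorem ev_one : ev 1 = 1 := by
  unfold ev
  rw [map_one]

theorem ev_gr (F : PP) (h : PowerSeries.coeff 0 F = 0) : ev (gr F) = gr (ev F) := by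
  apply gr_unique
  · rw [ev_coeff, h]; simp
  · rw [← ev_one, ← ev_sub, ← ev_mul, gr_mul F h]

theorem Nn.add {F G : PP} (hF : Nn F) (hG : Nn G) : Nn (F + G) := by
  intro w e
  rw [map_add, Polynomial.coeff_add]
  exact add_nonneg (hF w e) (hG w e)

/-- products of polynomials with nonnegative coefficients -/
theorem brC0a_pmul {P Q : Polynomial ℝ} (hP : ∀ e, 0 ≤ P.coeff e) (hQ : ∀ e, 0 ≤ Q.coeff e) (e : ℕ) :
    0 ≤ (P * Q).coeff e := by
  rw [Polynomial.coeff_mul]
  exact Finset.sum_nonneg fun x _ => mul_nonneg (hP _) (hQ _)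

theorem brC0a_pmul_le {P P' Q Q' : Polynomial ℝ} (hP : ∀ e, 0 ≤ P.coeff e) (hPP : ∀ e, P.coeff e ≤ P'.coeff e)
    (hQ : ∀ e, 0 ≤ Q.coeff e) (hQQ : ∀ e, Q.coeff e ≤ Q'.coeff e) (e : ℕ) :
    (P * Q).coeff e ≤ (P' * Q').coeff e := by
  rw [Polynomial.coeff_mul, Polynomial.coeff_mul]
  exact Finset.sum_le_sum fun x _ => mul_le_mul (hPP _) (hQQ _) (hQ _) ((hP _).trans (hPP _))

theorem Nn.mul {F G : PP} (hF : Nn F) (hG : Nn G) : Nn (F * G) := by
  intro w e
  rw [PowerSeries.coeff_mul, Polynomial.finsetSum_coeff]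
  exact Finset.sum_nonneg fun x _ => brC0a_pmul (hF _) (hG _) e

theorem Nn.one : Nn 1 := by
  intro w e
  rw [PowerSeries.coeff_one]
  split_ifs
  · rw [Polynomial.coeff_one]
    split_ifs <;> norm_num
  · simp

theorem Nn.pow {F : PP} (hF : Nn F) (n : ℕ) : Nn (F ^ n) := by
  induction n with
  | zero => rw [pow_zero]; exact Nn.one
  | succ n ih => rw [pow_succ]; exact ih.mul hF

theorem Nn.gr {F : PP} (hF : Nn F) (h : PowerSeries.coeff 0 F = 0) : Nn (gr F) := by
  intro w e
  rw [gr_geom F h w w le_rfl, Polynomial.finsetSum_coeff]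
  exact Finset.sum_nonneg fun M _ => (hF.pow M) w e

/-- a product of polynomials with nonnegative coefficients, coefficientwise lower bound -/
theorem gr_super {F : PP} (hF : Nn F) (h : PowerSeries.coeff 0 F = 0) (n m e : ℕ) :
    (PowerSeries.coeff n (gr F) * PowerSeries.coeff m (gr F)).coeff e ≤
      (PowerSeries.coeff (n + m) (gr F)).coeff e := by
  have hG := hF.gr h
  revert e
  induction n using Nat.strong_induction_on with
  | _ n ih =>
    intro e
    rcases Nat.eq_zero_or_pos n with hn | hn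
    · subst hn
      rw [gr_coeff_zero F h, one_mul, zero_add]
    · rw [gr_coeff F h n hn, gr_coeff F h (n + m) (by omega), Finset.sum_mul,
        Polynomial.finsetSum_coeff, Polynomial.finsetSum_coeff]
      have hsub : Finset.range (n + 1) ⊆ Finset.range (n + m + 1) :=
        Finset.range_mono (by omega)
      refine le_trans (Finset.sum_le_sum fun w hw => ?_)
        (Finset.sum_le_sum_of_subset_of_nonneg hsub fun w _ _ => brC0a_pmul (hF _) (hG _) e)
      rw [Finset.mem_range] at hw
      rcases Nat.eq_zero_or_pos w with hw0 | hw0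
      · subst hw0
        rw [h]; simp
      · rw [mul_assoc]
        have h1 : n + m - w = (n - w) + m := by omega
        rw [h1]
        exact brC0a_pmul_le (hF w) (fun _ => le_rfl) (brC0a_pmul (hG _) (hG _))
          (ih (n - w) (by omega)) e

end Pool.Agent.SandBr
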