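import Pool.Agent.SandFin.BrC0a

set_option autoImplicit false

namespace Pool.Agent.SandBr

/-- renewal probabilities are at most one -/
theorem ren_le_one (f : PowerSeries ℝ) (h0 : PowerSeries.coeff 0 f = 0)
    (hn : ∀ n, 0 ≤ PowerSeries.coeff n f) (hs : HasSum (fun n : ℕ => PowerSeries.coeff n f) 1) (n : ℕ) :
    0 ≤ PowerSeries.coeff n (gr f) ∧ PowerSeries.coeff n (gr f) ≤ 1 := by
  induction n using Nat.strong_induction_on with
  | _ n ih =>
    rcases Nat.eq_zero_or_pos n with rfl | hpos
    · rw [gr_coeff_zero f h0]; exact ⟨zero_le_one, le_refl _⟩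
    · rw [gr_coeff f h0 n hpos]
      have hterm : ∀ w ∈ Finset.range (n + 1),
          0 ≤ PowerSeries.coeff w f * PowerSeries.coeff (n - w) (gr f) ∧
          PowerSeries.coeff w f * PowerSeries.coeff (n - w) (gr f) ≤ PowerSeries.coeff w f := by
        intro w hw
        rcases Nat.eq_zero_or_pos w with rfl | hw'
        · rw [h0]; simp
        · have := ih (n - w) (by omega)
          exact ⟨mul_nonneg (hn w) this.1, mul_le_of_le_one_right (hn w) this.2⟩
      refine ⟨Finset.sum_nonneg fun w hw => (hterm w hw).1, ?_⟩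
      refine (Finset.sum_le_sum fun w hw => (hterm w hw).2).trans ?_
      exact sum_le_hasSum _ (fun w _ => hn w) hs

/-- the tail of `f` -/
noncomputable def brC0b_tail (f : PowerSeries ℝ) (k : ℕ) : ℝ :=
  1 - ∑ w ∈ Finset.range (k + 1), PowerSeries.coeff w f

lemma brC0b_tail_nonneg (f : PowerSeries ℝ) (hn : ∀ n, 0 ≤ PowerSeries.coeff n f)
    (hs : HasSum (fun n : ℕ => PowerSeries.coeff n f) 1) (k : ℕ) : 0 ≤ brC0b_tail f k := by
  have := sum_le_hasSum (Finset.range (k + 1)) (fun w _ => hn w) hs
  rw [brC0b_tail]; linarith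

lemma brC0b_tail_le (f : PowerSeries ℝ) (hn : ∀ n, 0 ≤ PowerSeries.coeff n f) (k : ℕ) :
    brC0b_tail f k ≤ 1 := by
  have : 0 ≤ ∑ w ∈ Finset.range (k + 1), PowerSeries.coeff w f :=
    Finset.sum_nonneg fun w _ => hn w
  rw [brC0b_tail]; linarith

lemma brC0b_conv (f : PowerSeries ℝ) (h0 : PowerSeries.coeff 0 f = 0) (n : ℕ) :
    ∑ k ∈ Finset.range (n + 1), brC0b_tail f k * PowerSeries.coeff (n - k) (gr f) = 1 := by
  set Fs : PowerSeries ℝ := PowerSeries.mk (brC0b_tail f) with hFs
  have h1 : (1 - PowerSeries.X) * Fs = 1 - f := by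
    ext k
    rw [sub_mul, one_mul, map_sub, map_sub]
    rcases k with _ | k
    · rw [PowerSeries.coeff_zero_X_mul, hFs, PowerSeries.coeff_mk, h0]
      simp [brC0b_tail, h0]
    · rw [PowerSeries.coeff_succ_X_mul, hFs, PowerSeries.coeff_mk, PowerSeries.coeff_mk,
        brC0b_tail, brC0b_tail, Finset.sum_range_succ _ (k + 1), PowerSeries.coeff_one,
        if_neg (Nat.succ_ne_zero k)]
      ring
  have h2 : (PowerSeries.mk 1 : PowerSeries ℝ) * (1 - PowerSeries.X) = 1 :=
    PowerSeries.mk_one_mul_one_sub_eq_one ℝ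
  have h3 : Fs * gr f = PowerSeries.mk 1 := by
    calc Fs * gr f = (PowerSeries.mk 1 * (1 - PowerSeries.X)) * (Fs * gr f) := by
          rw [h2, one_mul]
      _ = PowerSeries.mk 1 * (((1 - PowerSeries.X) * Fs) * gr f) := by ring
      _ = PowerSeries.mk 1 := by rw [h1, gr_mul f h0, mul_one]
  have h4 := congrArg (PowerSeries.coeff n) h3
  rw [PowerSeries.coeff_mul, Finset.Nat.sum_antidiagonal_eq_sum_range_succ
    (fun i j => PowerSeries.coeff i Fs * PowerSeries.coeff j (gr f))] at h4
  simp only [hFs, PowerSeries.coeff_mk, Pi.one_apply] at h4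
  exact h4

lemma brC0b_summable (f : PowerSeries ℝ)
    (hn : ∀ n, 0 ≤ PowerSeries.coeff n f) (hs : HasSum (fun n : ℕ => PowerSeries.coeff n f) 1)
    (hm : Summable (fun n : ℕ => (n : ℝ) * PowerSeries.coeff n f)) :
    Summable (brC0b_tail f) := by
  have key : ∀ N, ∑ k ∈ Finset.range N, brC0b_tail f k ≤
      ∑' n : ℕ, (n : ℝ) * PowerSeries.coeff n f := by
    intro N
    have e : ∀ k, brC0b_tail f k = ∑' w, if k < w then PowerSeries.coeff w f else 0 := by
      intro k
      have h1 : HasSum (fun w => if w ∈ Finset.range (k + 1) then PowerSeries.coeff w f else 0)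
          (∑ w ∈ Finset.range (k + 1), PowerSeries.coeff w f) := by
        have h := hasSum_sum_of_ne_finset_zero (L := SummationFilter.unconditional ℕ)
          (f := fun w => if w ∈ Finset.range (k + 1) then
          PowerSeries.coeff w f else 0) (s := Finset.range (k + 1)) (by
            intro b hb; exact if_neg hb)
        have e : ∑ b ∈ Finset.range (k + 1), (if b ∈ Finset.range (k + 1) then
            PowerSeries.coeff b f else 0) = ∑ w ∈ Finset.range (k + 1), PowerSeries.coeff w f :=
          Finset.sum_congr rfl fun w hw => if_pos hw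
        rw [e] at h
        exact h
      have h2 := hs.sub h1
      have h3 : (fun w => PowerSeries.coeff w f -
          (if w ∈ Finset.range (k + 1) then PowerSeries.coeff w f else 0)) =
          fun w => if k < w then PowerSeries.coeff w f else 0 := by
        funext w
        by_cases h : k < w
        · rw [if_neg (by rw [Finset.mem_range]; omega), if_pos h, sub_zero]
        · rw [if_pos (by rw [Finset.mem_range]; omega), if_neg h, sub_self]
      rw [h3] at h2
      exact h2.tsum_eq.symm
    have hsum : ∀ k, Summable fun w => if k < w then PowerSeries.coeff w f else 0 := by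
      intro k
      refine Summable.of_nonneg_of_le (fun w => ?_) (fun w => ?_) hs.summable
      · split_ifs
        · exact hn w
        · exact le_refl _
      · split_ifs
        · exact le_refl _
        · exact hn w
    simp only [e]
    rw [← Summable.tsum_finsetSum fun k _ => hsum k]
    refine Summable.tsum_le_tsum (fun w => ?_) (summable_sum fun k _ => hsum k) hm
    calc ∑ k ∈ Finset.range N, (if k < w then PowerSeries.coeff w f else 0)
        = ∑ k ∈ (Finset.range N).filter (· < w), PowerSeries.coeff w f := by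
          rw [Finset.sum_filter]
      _ ≤ ∑ k ∈ Finset.range w, PowerSeries.coeff w f := by
          refine Finset.sum_le_sum_of_subset_of_nonneg ?_ fun _ _ _ => hn w
          intro k hk
          rw [Finset.mem_filter] at hk
          exact Finset.mem_range.2 hk.2
      _ = (w : ℝ) * PowerSeries.coeff w f := by simp
  exact summable_of_sum_range_le (brC0b_tail_nonneg f hn hs) key

/-- windows of renewal probabilities -/
theorem ren_window (f : PowerSeries ℝ) (h0 : PowerSeries.coeff 0 f = 0)
    (hn : ∀ n, 0 ≤ PowerSeries.coeff n f) (hs : HasSum (fun n : ℕ => PowerSeries.coeff n f) 1)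
    (hm : Summable (fun n : ℕ => (n : ℝ) * PowerSeries.coeff n f)) :
    ∃ K : ℕ, ∀ n, K ≤ n → 1 / 2 ≤ ∑ i ∈ Finset.range K, PowerSeries.coeff (n - i) (gr f) := by
  have hS := brC0b_summable f hn hs hm
  have ht := hS.hasSum.tendsto_sum_nat
  have hev := (ht.eventually_const_lt
    (show (∑' k, brC0b_tail f k) - 1 / 2 < ∑' k, brC0b_tail f k by linarith))
  obtain ⟨K, hK⟩ := Filter.eventually_atTop.1 hev
  refine ⟨K, fun n hn' => ?_⟩
  have hKK := hK K le_rfl
  have h1 := brC0b_conv f h0 n
  have h2 : ∑ k ∈ Finset.range (n + 1), brC0b_tail f k ≤ ∑' k, brC0b_tail f k :=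
    hS.sum_le_tsum _ fun k _ => brC0b_tail_nonneg f hn hs k
  have h3 : ∑ k ∈ Finset.range (n + 1), brC0b_tail f k * PowerSeries.coeff (n - k) (gr f) =
      ∑ k ∈ Finset.range K, brC0b_tail f k * PowerSeries.coeff (n - k) (gr f) +
      ∑ k ∈ Finset.Ico K (n + 1), brC0b_tail f k * PowerSeries.coeff (n - k) (gr f) :=
    (Finset.sum_range_add_sum_Ico _ (by omega)).symm
  have h4 : ∑ k ∈ Finset.range (n + 1), brC0b_tail f k =
      ∑ k ∈ Finset.range K, brC0b_tail f k + ∑ k ∈ Finset.Ico K (n + 1), brC0b_tail f k :=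
    (Finset.sum_range_add_sum_Ico _ (by omega)).symm
  have h5 : ∑ k ∈ Finset.range K, brC0b_tail f k * PowerSeries.coeff (n - k) (gr f) ≤
      ∑ k ∈ Finset.range K, PowerSeries.coeff (n - k) (gr f) :=
    Finset.sum_le_sum fun k _ => mul_le_of_le_one_left (ren_le_one f h0 hn hs _).1
      (brC0b_tail_le f hn k)
  have h6 : ∑ k ∈ Finset.Ico K (n + 1), brC0b_tail f k * PowerSeries.coeff (n - k) (gr f) ≤
      ∑ k ∈ Finset.Ico K (n + 1), brC0b_tail f k :=
    Finset.sum_le_sum fun k _ => mul_le_of_le_one_right (brC0b_tail_nonneg f hn hs k)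
      (ren_le_one f h0 hn hs _).2
  linarith

end Pool.Agent.SandBr
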