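import Pool.Agent.SandFin.BrC0a

set_option autoImplicit false

namespace Pool.Agent.SandBr

/-- good series: nonnegative, degree bound, mass `m`, mean displacement `μ`, exponential moment -/
structure Gd (f : PP) (b : ℕ) (ρ m μ : ℝ) : Prop where
  nonneg : Nn f
  deg : ∀ w, (PowerSeries.coeff w f).natDegree ≤ b * w
  mass : HasSum (fun w : ℕ => (PowerSeries.coeff w f).eval 1) m
  mean : HasSum (fun w : ℕ => (Polynomial.derivative (PowerSeries.coeff w f)).eval 1
    - (w : ℝ) * (PowerSeries.coeff w f).eval 1) μ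
  expm : Summable (fun w : ℕ => (PowerSeries.coeff w f).eval 1 * ρ ^ w)

lemma brC1a_cauchy {a b : ℕ → ℝ} {A B : ℝ} (ha : HasSum a A) (hb : HasSum b B) :
    HasSum (fun w => ∑ p ∈ Finset.HasAntidiagonal.antidiagonal w, a p.1 * b p.2) (A * B) := by
  have ha' : Summable fun n => ‖a n‖ := ha.summable.norm
  have hb' : Summable fun n => ‖b n‖ := hb.summable.norm
  have h1 := (summable_norm_sum_mul_antidiagonal_of_summable_norm ha' hb').of_norm
  have h2 := tsum_mul_tsum_eq_tsum_sum_antidiagonal_of_summable_norm ha' hb'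
  rw [ha.tsum_eq, hb.tsum_eq] at h2
  rw [h2]
  exact h1.hasSum

theorem Gd.mul {f g : PP} {b : ℕ} {ρ m μ m' μ' : ℝ} (hρ : 1 < ρ) (hf : Gd f b ρ m μ) (hg : Gd g b ρ m' μ') :
    Gd (f * g) b ρ (m * m') (μ * m' + m * μ') := by
  refine ⟨hf.nonneg.mul hg.nonneg, ?_, ?_, ?_, ?_⟩
  · intro w
    rw [PowerSeries.coeff_mul]
    refine Polynomial.natDegree_sum_le_of_forall_le _ _ fun p hp => ?_
    rw [Finset.HasAntidiagonal.mem_antidiagonal] at hp
    refine Polynomial.natDegree_mul_le.trans ?_
    have h1 := hf.deg p.1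
    have h2 := hg.deg p.2
    calc (PowerSeries.coeff p.1 f).natDegree + (PowerSeries.coeff p.2 g).natDegree
        ≤ b * p.1 + b * p.2 := Nat.add_le_add h1 h2
      _ = b * w := by rw [← hp]; ring
  · have h := brC1a_cauchy hf.mass hg.mass
    convert h using 2 with w
    rw [PowerSeries.coeff_mul, Polynomial.eval_finsetSum]
    exact Finset.sum_congr rfl fun p _ => Polynomial.eval_mul
  · have h1 := brC1a_cauchy hf.mean hg.mass
    have h2 := brC1a_cauchy hf.mass hg.mean
    have h := h1.add h2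
    convert h using 2 with w
    rw [PowerSeries.coeff_mul, Polynomial.derivative_sum, Polynomial.eval_finsetSum,
      Polynomial.eval_finsetSum, Finset.mul_sum, ← Finset.sum_sub_distrib,
      ← Finset.sum_add_distrib]
    refine Finset.sum_congr rfl fun p hp => ?_
    rw [Finset.HasAntidiagonal.mem_antidiagonal] at hp
    rw [Polynomial.derivative_mul, Polynomial.eval_add, Polynomial.eval_mul, Polynomial.eval_mul,
      Polynomial.eval_mul, ← hp]
    push_cast
    ring
  · obtain ⟨A, hA⟩ := hf.expm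
    obtain ⟨B, hB⟩ := hg.expm
    have h := (brC1a_cauchy hA hB).summable
    convert h using 2 with w
    rw [PowerSeries.coeff_mul, Polynomial.eval_finsetSum, Finset.sum_mul]
    refine Finset.sum_congr rfl fun p hp => ?_
    rw [Finset.HasAntidiagonal.mem_antidiagonal] at hp
    rw [Polynomial.eval_mul, ← hp, pow_add]
    ring

lemma brC1a_one (b : ℕ) (ρ : ℝ) : Gd 1 b ρ 1 0 := by
  have hc : ∀ w : ℕ, PowerSeries.coeff w (1 : PP) = if w = 0 then 1 else 0 := fun w =>
    PowerSeries.coeff_one w
  refine ⟨Nn.one, ?_, ?_, ?_, ?_⟩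
  · intro w
    rw [hc]
    split_ifs <;> simp
  · have : (fun w : ℕ => (PowerSeries.coeff w (1 : PP)).eval 1) = fun w => if w = 0 then (1 : ℝ) else 0 := by
      funext w; rw [hc]; split_ifs <;> simp
    rw [this]
    exact hasSum_ite_eq 0 1
  · have : (fun w : ℕ => (Polynomial.derivative (PowerSeries.coeff w (1 : PP))).eval 1
        - (w : ℝ) * (PowerSeries.coeff w (1 : PP)).eval 1) = fun _ => (0 : ℝ) := by
      funext w; rw [hc]; split_ifs with h
      · rw [h]; simp
      · simp
    rw [this]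
    exact hasSum_zero
  · refine summable_of_ne_finset_zero (s := {0}) fun w hw => ?_
    rw [Finset.mem_singleton] at hw
    rw [hc, if_neg hw]; simp

theorem Gd.pow {f : PP} {b : ℕ} {ρ : ℝ} (hρ : 1 < ρ) (hf : Gd f b ρ 1 0) (n : ℕ) :
    Gd (f ^ n) b ρ 1 0 := by
  induction n with
  | zero => rw [pow_zero]; exact brC1a_one b ρ
  | succ n ih =>
    rw [pow_succ]
    have := ih.mul hρ hf
    simpa using this

end Pool.Agent.SandBr
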