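import Pool.Agent.SandFin.BrC0a

set_option autoImplicit false

namespace Pool.Agent.SandBr

lemma brC1b_zero : Nn 0 := fun w e => by simp

lemma brC1b_sum {ι : Type} (s : Finset ι) (F : ι → PP) (h : ∀ i ∈ s, Nn (F i)) :
    Nn (∑ i ∈ s, F i) := by
  classical
  induction s using Finset.induction_on with
  | empty => simpa using brC1b_zero
  | insert a s ha ih =>
    rw [Finset.sum_insert ha]
    exact (h a (Finset.mem_insert_self a s)).add
      (ih fun i hi => h i (Finset.mem_insert_of_mem hi))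

lemma brC1b_pow2 (x y r : PP) (hr : Nn r) (hx : Nn x) (hy : Nn y) (K : ℕ) :
    ∃ r' : PP, Nn r' ∧ (x + y + r) ^ (K + 1) = x ^ (K + 1) + y ^ (K + 1) + r' := by
  induction K with
  | zero => exact ⟨r, hr, by ring⟩
  | succ K ih =>
    obtain ⟨r', hr', h⟩ := ih
    refine ⟨x * y ^ (K + 1) + y * x ^ (K + 1) + r * x ^ (K + 1) + r * y ^ (K + 1) +
      (x + y + r) * r', ?_, ?_⟩
    · exact ((((hx.mul (hy.pow _)).add (hy.mul (hx.pow _))).add (hr.mul (hx.pow _))).add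
        (hr.mul (hy.pow _))).add (((hx.add hy).add hr).mul hr')
    · rw [pow_succ (x + y + r) (K + 1), h]; ring

lemma brC1b_pow1 (x y r : PP) (hr : Nn r) (hx : Nn x) (hy : Nn y) (K : ℕ) :
    ∃ r' : PP, Nn r' ∧ (x + y + r) ^ K = y ^ K + r' := by
  rcases K with _ | K
  · exact ⟨0, brC1b_zero, by simp⟩
  · obtain ⟨r', hr', h⟩ := brC1b_pow2 x y r hr hx hy K
    exact ⟨x ^ (K + 1) + r', (hx.pow _).add hr', by rw [h]; ring⟩

/-- algebra of the macro step: `x, y` distinct monomials of `f`; `K₁ ≤ K₂`; `F = f^K₂ + x^K₁ (1 - f^(K₂-K₁))` -/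
theorem macro_alg (f x y r : PP) (hr : Nn r) (hx : Nn x) (hy : Nn y) (hf : f = x + y + r)
    (h0 : PowerSeries.coeff 0 f = 0) (K₁ K₂ : ℕ) (h1 : 1 ≤ K₁) (h12 : K₁ ≤ K₂) :
    ∃ P q : PP, Nn P ∧ Nn q ∧ PowerSeries.coeff 0 P = 1 ∧
      P = ∑ i ∈ Finset.range K₁, f ^ i + ∑ i ∈ Finset.range (K₂ - K₁), (f ^ K₁ - x ^ K₁) * f ^ i ∧
      (1 - f) * P = 1 - (x ^ K₁ + y ^ K₂ + q) ∧
      x ^ K₁ + y ^ K₂ + q = f ^ K₂ + x ^ K₁ * (1 - f ^ (K₂ - K₁)) := by
  obtain ⟨K, rfl⟩ := Nat.exists_eq_add_of_le' h1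
  obtain ⟨k, rfl⟩ := Nat.exists_eq_add_of_le h12
  have hk : K + 1 + k - (K + 1) = k := by omega
  rw [hk]
  obtain ⟨r₁, hr₁, e₁⟩ := brC1b_pow2 x y r hr hx hy K
  obtain ⟨r₂, hr₂, e₂⟩ := brC1b_pow1 x y r hr hx hy k
  rw [← hf] at e₁ e₂
  have hfN : Nn f := by rw [hf]; exact (hx.add hy).add hr
  have hd : f ^ (K + 1) - x ^ (K + 1) = y ^ (K + 1) + r₁ := by rw [e₁]; ring
  have hx0 : PowerSeries.coeff 0 x = 0 := by
    ext e
    have h2 := congrArg (fun p : Polynomial ℝ => p.coeff e) h0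
    rw [hf] at h2
    simp only [map_add, Polynomial.coeff_add, Polynomial.coeff_zero] at h2
    have := hx 0 e
    have := hy 0 e
    have := hr 0 e
    rw [Polynomial.coeff_zero]
    linarith
  have hpow0 : ∀ (g : PP), PowerSeries.coeff 0 g = 0 → ∀ n, PowerSeries.coeff 0 (g ^ n) =
      (0 : Polynomial ℝ) ^ n := by
    intro g hg n
    rw [PowerSeries.coeff_zero_eq_constantCoeff] at hg ⊢
    rw [map_pow, hg]
  refine ⟨_, y ^ (K + 1) * r₂ + r₁ * f ^ k, ?_, ((hy.pow _).mul hr₂).add (hr₁.mul (hfN.pow _)),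
    ?_, rfl, ?_, ?_⟩
  · refine Nn.add (brC1b_sum _ _ fun i _ => hfN.pow i) (brC1b_sum _ _ fun i _ => ?_)
    rw [hd]
    exact ((hy.pow _).add hr₁).mul (hfN.pow i)
  · rw [map_add, map_sum, map_sum]
    have a1 : ∑ i ∈ Finset.range (K + 1), PowerSeries.coeff 0 (f ^ i) = (1 : Polynomial ℝ) := by
      rw [Finset.sum_range_succ']
      simp only [hpow0 f h0]
      simp
    have a2 : ∑ i ∈ Finset.range k, PowerSeries.coeff 0 ((f ^ (K + 1) - x ^ (K + 1)) * f ^ i) =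
        (0 : Polynomial ℝ) := by
      refine Finset.sum_eq_zero fun i _ => ?_
      have e1 : PowerSeries.coeff 0 (f ^ (K + 1) - x ^ (K + 1)) = (0 : Polynomial ℝ) := by
        rw [map_sub, hpow0 f h0, hpow0 x hx0]; simp
      rw [PowerSeries.coeff_zero_eq_constantCoeff] at e1 ⊢
      rw [map_mul, e1, zero_mul]
    rw [a1, a2, add_zero]
  · rw [mul_add, mul_neg_geom_sum, ← Finset.mul_sum, mul_left_comm, mul_neg_geom_sum]
    have : y ^ (K + 1 + k) = y ^ (K + 1) * y ^ k := pow_add y _ _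
    rw [hd, this]
    have hr2 : f ^ k = y ^ k + r₂ := e₂
    rw [e₁]
    have hr2' : y ^ (K + 1) * y ^ k = y ^ (K + 1) * (f ^ k - r₂) := by rw [hr2]; ring
    rw [hr2']
    ring
  · have : y ^ (K + 1 + k) = y ^ (K + 1) * y ^ k := pow_add y _ _
    have h3 : f ^ (K + 1 + k) = f ^ (K + 1) * f ^ k := pow_add f _ _
    rw [this, h3, e₁]
    have hr2' : y ^ (K + 1) * y ^ k = y ^ (K + 1) * (f ^ k - r₂) := by rw [e₂]; ring
    rw [hr2']
    ring

end Pool.Agent.SandBr
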