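import Pool.Agent.SandFin.BrC1a
import Pool.Agent.SandFin.BrC1b

set_option autoImplicit false

namespace Pool.Agent.SandBr

/-- summability with exponential weight -/
def brC1c_Sm (ρ : ℝ) (g : PP) : Prop :=
  Summable (fun w : ℕ => (PowerSeries.coeff w g).eval 1 * ρ ^ w)

theorem brC1c_sm_add {ρ : ℝ} {g h : PP} (hg : brC1c_Sm ρ g) (hh : brC1c_Sm ρ h) :
    brC1c_Sm ρ (g + h) := by
  have h1 : (fun w : ℕ => (PowerSeries.coeff w (g + h)).eval 1 * ρ ^ w) =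
      fun w => (PowerSeries.coeff w g).eval 1 * ρ ^ w + (PowerSeries.coeff w h).eval 1 * ρ ^ w := by
    funext w
    rw [map_add, Polynomial.eval_add, add_mul]
  unfold brC1c_Sm
  rw [h1]
  exact Summable.add hg hh

theorem brC1c_sm_sub {ρ : ℝ} {g h : PP} (hg : brC1c_Sm ρ g) (hh : brC1c_Sm ρ h) :
    brC1c_Sm ρ (g - h) := by
  have h1 : (fun w : ℕ => (PowerSeries.coeff w (g - h)).eval 1 * ρ ^ w) =
      fun w => (PowerSeries.coeff w g).eval 1 * ρ ^ w - (PowerSeries.coeff w h).eval 1 * ρ ^ w := by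
    funext w
    rw [map_sub, Polynomial.eval_sub, sub_mul]
  unfold brC1c_Sm
  rw [h1]
  exact Summable.sub hg hh

theorem brC1c_sm_sum {ρ : ℝ} {ι : Type} (s : Finset ι) (g : ι → PP) (hg : ∀ i ∈ s, brC1c_Sm ρ (g i)) :
    brC1c_Sm ρ (∑ i ∈ s, g i) := by
  classical
  induction s using Finset.induction_on with
  | empty =>
    unfold brC1c_Sm
    simp only [Finset.sum_empty, map_zero, Polynomial.eval_zero, zero_mul]
    exact summable_zero
  | insert a s ha ih =>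
    rw [Finset.sum_insert ha]
    exact brC1c_sm_add (hg a (Finset.mem_insert_self a s))
      (ih fun i hi => hg i (Finset.mem_insert_of_mem hi))

/-- monomials -/
noncomputable def brC1c_mo (w e : ℕ) (a : ℝ) : PP :=
  PowerSeries.monomial w (Polynomial.C a * Polynomial.X ^ e)

theorem brC1c_mo_pow (w e k : ℕ) (a : ℝ) : brC1c_mo w e a ^ k = brC1c_mo (w * k) (e * k) (a ^ k) := by
  unfold brC1c_mo
  rw [PowerSeries.monomial_pow, mul_pow, ← pow_mul, ← Polynomial.C_pow, mul_comm k w]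

theorem brC1c_mo_nn (w e : ℕ) {a : ℝ} (ha : 0 ≤ a) : Nn (brC1c_mo w e a) := by
  intro w' e'
  unfold brC1c_mo
  rw [PowerSeries.coeff_monomial]
  split_ifs
  · rw [Polynomial.coeff_C_mul, Polynomial.coeff_X_pow]
    split_ifs <;> simp [ha]
  · simp

theorem brC1c_mo_gd (w e b : ℕ) {a : ℝ} (ρ : ℝ) (ha : 0 ≤ a) (hb : e ≤ b * w) :
    Gd (brC1c_mo w e a) b ρ a (a * e - w * a) := by
  have hc : ∀ w', w' ≠ w → PowerSeries.coeff w' (brC1c_mo w e a) = 0 := by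
    intro w' hw
    unfold brC1c_mo
    rw [PowerSeries.coeff_monomial, if_neg hw]
  have hc' : PowerSeries.coeff w (brC1c_mo w e a) = Polynomial.C a * Polynomial.X ^ e := by
    unfold brC1c_mo
    rw [PowerSeries.coeff_monomial_same]
  refine ⟨brC1c_mo_nn w e ha, fun w' => ?_, ?_, ?_, ?_⟩
  · by_cases hw : w' = w
    · subst hw
      rw [hc']
      exact (Polynomial.natDegree_C_mul_X_pow_le a e).trans hb
    · rw [hc w' hw]
      simp
  · have h1 := hasSum_single (f := fun w' : ℕ => (PowerSeries.coeff w' (brC1c_mo w e a)).eval 1) w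
      (fun w' hw => by simp only [hc w' hw, Polynomial.eval_zero])
    have h2 : (PowerSeries.coeff w (brC1c_mo w e a)).eval 1 = a := by
      rw [hc']
      simp
    simp only [h2] at h1
    exact h1
  · have h1 := hasSum_single (f := fun w' : ℕ => (Polynomial.derivative
      (PowerSeries.coeff w' (brC1c_mo w e a))).eval 1
      - (w' : ℝ) * (PowerSeries.coeff w' (brC1c_mo w e a)).eval 1) w
      (fun w' hw => by simp only [hc w' hw, Polynomial.eval_zero, Polynomial.derivative_zero, mul_zero,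
        sub_zero])
    have h2 : (Polynomial.derivative (PowerSeries.coeff w (brC1c_mo w e a))).eval 1
        - (w : ℝ) * (PowerSeries.coeff w (brC1c_mo w e a)).eval 1 = a * e - w * a := by
      rw [hc']
      simp [Polynomial.derivative_X_pow]
    simp only [h2] at h1
    exact h1
  · refine summable_of_ne_finset_zero (s := {w}) fun w' hw => ?_
    rw [hc w' (by simpa using hw)]
    simp

theorem brC1c_gd {f : PP} {b : ℕ} {ρ : ℝ} (hf : Wlk f b ρ) : Gd f b ρ 1 0 :=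
  ⟨hf.nonneg, hf.deg, hf.mass, hf.mean, hf.expm⟩

theorem brC1c_core (f : PP) (b : ℕ) (ρ : ℝ) (hf : Wlk f b ρ) (wx ex wy ey : ℕ) (ax ay : ℝ)
    (hax : 0 ≤ ax) (hay : 0 ≤ ay) (hwx : 1 ≤ wx) (hwy : 1 ≤ wy) (hle : wy ≤ wx) (hex : ex ≤ b * wx)
    (r : PP) (hr : Nn r) (hfr : f = brC1c_mo wx ex ax + brC1c_mo wy ey ay + r) :
    ∃ P q : PP, Nn P ∧ Nn q ∧ PowerSeries.coeff 0 P = 1 ∧
      (1 - f) * P = 1 - (brC1c_mo wx ex ax ^ wy + brC1c_mo wy ey ay ^ wx + q) ∧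
      Wlk (brC1c_mo wx ex ax ^ wy + brC1c_mo wy ey ay ^ wx + q) b ρ ∧ brC1c_Sm ρ P := by
  obtain ⟨P, q, hP, hq, hP0, hPe, hFe, hF⟩ := macro_alg f (brC1c_mo wx ex ax) (brC1c_mo wy ey ay) r hr
    (brC1c_mo_nn wx ex hax) (brC1c_mo_nn wy ey hay) hfr hf.zero wy wx hwy hle
  have hfg := brC1c_gd hf
  have hx := brC1c_mo_gd (wx * wy) (ex * wy) b (a := ax ^ wy) ρ (pow_nonneg hax _)
    (by rw [← mul_assoc]; exact Nat.mul_le_mul_right _ hex)
  rw [← brC1c_mo_pow] at hx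
  have hxf : ∀ k, Gd (brC1c_mo wx ex ax ^ wy * f ^ k) b ρ (ax ^ wy * 1)
      ((ax ^ wy * ((ex * wy : ℕ) : ℝ) - ((wx * wy : ℕ) : ℝ) * ax ^ wy) * 1 + ax ^ wy * 0) :=
    fun k => Gd.mul hf.one_lt hx (Gd.pow hf.one_lt hfg k)
  have hfk : ∀ k, Gd (f ^ k) b ρ 1 0 := fun k => Gd.pow hf.one_lt hfg k
  refine ⟨P, q, hP, hq, hP0, hFe, ?_, ?_⟩
  · have hFn : Nn (brC1c_mo wx ex ax ^ wy + brC1c_mo wy ey ay ^ wx + q) :=
      Nn.add (Nn.add (Nn.pow (brC1c_mo_nn wx ex hax) _) (Nn.pow (brC1c_mo_nn wy ey hay) _)) hq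
    have hFe' : brC1c_mo wx ex ax ^ wy + brC1c_mo wy ey ay ^ wx + q =
        f ^ wx + brC1c_mo wx ex ax ^ wy - brC1c_mo wx ex ax ^ wy * f ^ (wx - wy) := by
      rw [hF]; ring
    refine ⟨hFn, ?_, fun w => ?_, ?_, ?_, hf.one_lt, ?_⟩
    · rw [hFe']
      have h1 : PowerSeries.coeff 0 (brC1c_mo wx ex ax) = 0 := by
        unfold brC1c_mo
        rw [PowerSeries.coeff_monomial, if_neg (by omega)]
      have h2 := hf.zero
      simp only [PowerSeries.coeff_zero_eq_constantCoeff] at h1 h2 ⊢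
      rw [map_sub, map_add, map_mul, map_pow, map_pow, h1, h2, zero_pow (by omega),
        zero_pow (by omega)]
      ring
    · rw [hFe', map_sub, map_add]
      refine (Polynomial.natDegree_sub_le _ _).trans (max_le ?_ ((hxf _).deg w))
      exact (Polynomial.natDegree_add_le _ _).trans (max_le ((hfk _).deg w) (hx.deg w))
    · have h1 := ((hfk wx).mass.add hx.mass).sub (hxf (wx - wy)).mass
      rw [mul_one, add_sub_cancel_right] at h1
      have h2 : (fun w : ℕ => (PowerSeries.coeff w (brC1c_mo wx ex ax ^ wy +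
          brC1c_mo wy ey ay ^ wx + q)).eval 1) = fun w : ℕ =>
          (PowerSeries.coeff w (f ^ wx)).eval 1 + (PowerSeries.coeff w (brC1c_mo wx ex ax ^ wy)).eval 1
            - (PowerSeries.coeff w (brC1c_mo wx ex ax ^ wy * f ^ (wx - wy))).eval 1 := by
        funext w
        rw [hFe', map_sub, map_add, Polynomial.eval_sub, Polynomial.eval_add]
      rw [h2]
      exact h1
    · have h1 := ((hfk wx).mean.add hx.mean).sub (hxf (wx - wy)).mean
      have h3 : (0 : ℝ) + (ax ^ wy * ((ex * wy : ℕ) : ℝ) - ((wx * wy : ℕ) : ℝ) * ax ^ wy) -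
          ((ax ^ wy * ((ex * wy : ℕ) : ℝ) - ((wx * wy : ℕ) : ℝ) * ax ^ wy) * 1 + ax ^ wy * 0) = 0 := by
        ring
      rw [h3] at h1
      have h2 : (fun w : ℕ => (Polynomial.derivative (PowerSeries.coeff w (brC1c_mo wx ex ax ^ wy +
          brC1c_mo wy ey ay ^ wx + q))).eval 1 - (w : ℝ) * (PowerSeries.coeff w (brC1c_mo wx ex ax ^ wy +
          brC1c_mo wy ey ay ^ wx + q)).eval 1) = fun w : ℕ =>
          ((Polynomial.derivative (PowerSeries.coeff w (f ^ wx))).eval 1 -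
            (w : ℝ) * (PowerSeries.coeff w (f ^ wx)).eval 1) +
          ((Polynomial.derivative (PowerSeries.coeff w (brC1c_mo wx ex ax ^ wy))).eval 1 -
            (w : ℝ) * (PowerSeries.coeff w (brC1c_mo wx ex ax ^ wy)).eval 1) -
          ((Polynomial.derivative (PowerSeries.coeff w (brC1c_mo wx ex ax ^ wy * f ^ (wx - wy)))).eval 1 -
            (w : ℝ) * (PowerSeries.coeff w (brC1c_mo wx ex ax ^ wy * f ^ (wx - wy))).eval 1) := by
        funext w
        rw [hFe', map_sub, map_add, Polynomial.derivative_sub, Polynomial.derivative_add,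
          Polynomial.eval_sub, Polynomial.eval_add, Polynomial.eval_sub, Polynomial.eval_add]
        ring
      rw [h2]
      exact h1
    · rw [hFe']
      exact brC1c_sm_sub (brC1c_sm_add (hfk wx).expm hx.expm) (hxf (wx - wy)).expm
  · rw [hPe]
    refine brC1c_sm_add (brC1c_sm_sum _ _ fun i _ => (hfk i).expm) (brC1c_sm_sum _ _ fun i _ => ?_)
    rw [sub_mul, ← pow_add]
    exact brC1c_sm_sub (hfk _).expm (hxf i).expm

/-- the fair coin -/
theorem brC1c_coin (L e d : ℕ) (A B : ℝ) (hA : 0 < A) (hB : 0 < B) (hL : 1 ≤ L) (hd : 1 ≤ d)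
    (q : PP) (hq : Nn q) :
    ∃ (q' : PP) (ε : ℝ), Coin (brC1c_mo L e A + brC1c_mo L (e + d) B + q) q' ε L e d := by
  refine ⟨brC1c_mo L e (A - min A B) + brC1c_mo L (e + d) (B - min A B) + q, min A B,
    ⟨lt_min hA hB, hL, hd, ?_, ?_⟩⟩
  · exact Nn.add (Nn.add (brC1c_mo_nn _ _ (sub_nonneg.2 (min_le_left _ _)))
      (brC1c_mo_nn _ _ (sub_nonneg.2 (min_le_right _ _)))) hq
  · have h1 : PowerSeries.monomial L (Polynomial.C (min A B) * Polynomial.X ^ e *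
        (1 + Polynomial.X ^ d)) = brC1c_mo L e (min A B) + brC1c_mo L (e + d) (min A B) := by
      unfold brC1c_mo
      rw [← map_add]
      congr 1
      rw [pow_add]
      ring
    have h2 : ∀ (e : ℕ) (A C : ℝ), brC1c_mo L e A = brC1c_mo L e (A - C) + brC1c_mo L e C := by
      intro e A C
      unfold brC1c_mo
      rw [← map_add]
      congr 1
      rw [← add_mul, ← Polynomial.C_add, sub_add_cancel]
    rw [h1, h2 e A (min A B), h2 (e + d) B (min A B)]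
    ring

/-- T-C1 -/
theorem macro_exists (f : PP) (b : ℕ) (ρ : ℝ) (hf : Wlk f b ρ) (w₁ e₁ w₂ e₂ : ℕ)
    (h1 : 0 < (PowerSeries.coeff w₁ f).coeff e₁) (h2 : 0 < (PowerSeries.coeff w₂ f).coeff e₂)
    (hne : w₂ * e₁ < w₁ * e₂) :
    ∃ (F q P : PP) (ε : ℝ) (L e d : ℕ), Wlk F b ρ ∧ Coin F q ε L e d ∧ Nn P ∧
      PowerSeries.coeff 0 P = 1 ∧ (1 - f) * P = 1 - F ∧
      Summable (fun w : ℕ => (PowerSeries.coeff w P).eval 1 * ρ ^ w) := by
  obtain ⟨a₁, ha₁⟩ : ∃ a, a = (PowerSeries.coeff w₁ f).coeff e₁ := ⟨_, rfl⟩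
  obtain ⟨a₂, ha₂⟩ : ∃ a, a = (PowerSeries.coeff w₂ f).coeff e₂ := ⟨_, rfl⟩
  have hp1 : 0 < a₁ := ha₁ ▸ h1
  have hp2 : 0 < a₂ := ha₂ ▸ h2
  have hw1 : 1 ≤ w₁ := by
    rcases Nat.eq_zero_or_pos w₁ with h | h
    · rw [h, zero_mul] at hne
      omega
    · exact h
  have hw2 : 1 ≤ w₂ := by
    rcases Nat.eq_zero_or_pos w₂ with h | h
    · rw [h, hf.zero, Polynomial.coeff_zero] at h2
      exact absurd h2 (lt_irrefl _)
    · exact h
  have he1 : e₁ ≤ b * w₁ := (Polynomial.le_natDegree_of_ne_zero h1.ne').trans (hf.deg w₁)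
  have he2 : e₂ ≤ b * w₂ := (Polynomial.le_natDegree_of_ne_zero h2.ne').trans (hf.deg w₂)
  have hdist : ¬ (w₁ = w₂ ∧ e₁ = e₂) := by
    rintro ⟨rfl, rfl⟩
    exact lt_irrefl _ hne
  have hr : Nn (f - (brC1c_mo w₁ e₁ a₁ + brC1c_mo w₂ e₂ a₂)) := by
    intro w e
    unfold brC1c_mo
    rw [map_sub, map_add, PowerSeries.coeff_monomial, PowerSeries.coeff_monomial,
      Polynomial.coeff_sub, Polynomial.coeff_add]
    have hn := hf.nonneg w e
    by_cases c1 : w = w₁ ∧ e = e₁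
    · obtain ⟨rfl, rfl⟩ := c1
      by_cases c2 : w = w₂
      · have c3 : e ≠ e₂ := fun h => hdist ⟨c2, h⟩
        rw [if_pos rfl, if_pos c2, Polynomial.coeff_C_mul, Polynomial.coeff_C_mul,
          Polynomial.coeff_X_pow, Polynomial.coeff_X_pow, if_pos rfl, if_neg c3, ← ha₁]
        simp
      · rw [if_pos rfl, if_neg c2, Polynomial.coeff_C_mul, Polynomial.coeff_X_pow, if_pos rfl, ← ha₁]
        simp
    · have d1 : (if w = w₁ then (Polynomial.C a₁ * Polynomial.X ^ e₁ : Polynomial ℝ) else 0).coeff e = 0 := by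
        by_cases c2 : w = w₁
        · rw [if_pos c2, Polynomial.coeff_C_mul, Polynomial.coeff_X_pow,
            if_neg (fun h => c1 ⟨c2, h⟩), mul_zero]
        · rw [if_neg c2, Polynomial.coeff_zero]
      rw [d1, zero_add]
      by_cases c2 : w = w₂ ∧ e = e₂
      · obtain ⟨rfl, rfl⟩ := c2
        rw [if_pos rfl, Polynomial.coeff_C_mul, Polynomial.coeff_X_pow, if_pos rfl, ← ha₂]
        simp
      · have d2 : (if w = w₂ then (Polynomial.C a₂ * Polynomial.X ^ e₂ : Polynomial ℝ) else 0).coeff e = 0 := by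
          by_cases c3 : w = w₂
          · rw [if_pos c3, Polynomial.coeff_C_mul, Polynomial.coeff_X_pow,
              if_neg (fun h => c2 ⟨c3, h⟩), mul_zero]
          · rw [if_neg c3, Polynomial.coeff_zero]
        rw [d2, sub_zero]
        exact hn
  have hd : 1 ≤ w₁ * e₂ - w₂ * e₁ := by omega
  rcases le_or_gt w₁ w₂ with hle | hlt
  · obtain ⟨P, q, hP, hq, hP0, hPF, hF, hS⟩ := brC1c_core f b ρ hf w₂ e₂ w₁ e₁ a₂ a₁ hp2.le hp1.le
      hw2 hw1 hle he2 _ hr (by ring)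
    obtain ⟨q', ε, hc⟩ := brC1c_coin (w₁ * w₂) (w₂ * e₁) (w₁ * e₂ - w₂ * e₁) (a₁ ^ w₂) (a₂ ^ w₁)
      (pow_pos hp1 _) (pow_pos hp2 _) (Nat.mul_pos hw1 hw2) hd q hq
    have heq : brC1c_mo w₂ e₂ a₂ ^ w₁ + brC1c_mo w₁ e₁ a₁ ^ w₂ + q =
        brC1c_mo (w₁ * w₂) (w₂ * e₁) (a₁ ^ w₂) +
          brC1c_mo (w₁ * w₂) (w₂ * e₁ + (w₁ * e₂ - w₂ * e₁)) (a₂ ^ w₁) + q := by
      rw [brC1c_mo_pow, brC1c_mo_pow, Nat.add_sub_cancel' hne.le, mul_comm w₂ w₁, mul_comm e₁ w₂,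
        mul_comm e₂ w₁]
      ring
    rw [heq] at hPF hF
    exact ⟨_, q', P, ε, _, _, _, hF, hc, hP, hP0, hPF, hS⟩
  · obtain ⟨P, q, hP, hq, hP0, hPF, hF, hS⟩ := brC1c_core f b ρ hf w₁ e₁ w₂ e₂ a₁ a₂ hp1.le hp2.le
      hw1 hw2 hlt.le he1 _ hr (by ring)
    obtain ⟨q', ε, hc⟩ := brC1c_coin (w₁ * w₂) (w₂ * e₁) (w₁ * e₂ - w₂ * e₁) (a₁ ^ w₂) (a₂ ^ w₁)
      (pow_pos hp1 _) (pow_pos hp2 _) (Nat.mul_pos hw1 hw2) hd q hq
    have heq : brC1c_mo w₁ e₁ a₁ ^ w₂ + brC1c_mo w₂ e₂ a₂ ^ w₁ + q =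
        brC1c_mo (w₁ * w₂) (w₂ * e₁) (a₁ ^ w₂) +
          brC1c_mo (w₁ * w₂) (w₂ * e₁ + (w₁ * e₂ - w₂ * e₁)) (a₂ ^ w₁) + q := by
      rw [brC1c_mo_pow, brC1c_mo_pow, Nat.add_sub_cancel' hne.le, mul_comm w₂ w₁, mul_comm e₁ w₂,
        mul_comm e₂ w₁]
    rw [heq] at hPF hF
    exact ⟨_, q', P, ε, _, _, _, hF, hc, hP, hP0, hPF, hS⟩

end Pool.Agent.SandBr
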