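import Pool.Agent.SandFin.BrBase

set_option autoImplicit false

namespace Pool.Agent.SandBr

lemma brC2a_central_upper (m : ℕ) : m.centralBinom ^ 2 * (2 * m + 1) ≤ 16 ^ m := by
  induction m with
  | zero => simp
  | succ m ih =>
    have h := Nat.succ_mul_centralBinom_succ m
    have h2 : (m + 1) ^ 2 * ((m + 1).centralBinom ^ 2 * (2 * (m + 1) + 1)) ≤
        (m + 1) ^ 2 * 16 ^ (m + 1) := by
      have e : (m + 1) ^ 2 * ((m + 1).centralBinom ^ 2 * (2 * (m + 1) + 1)) =
          (2 * (2 * m + 1) * m.centralBinom) ^ 2 * (2 * (m + 1) + 1) := by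
        rw [← h]; ring
      rw [e]
      calc (2 * (2 * m + 1) * m.centralBinom) ^ 2 * (2 * (m + 1) + 1)
          = (m.centralBinom ^ 2 * (2 * m + 1)) * (4 * (2 * m + 1) * (2 * m + 3)) := by ring
        _ ≤ 16 ^ m * (4 * (2 * m + 1) * (2 * m + 3)) := Nat.mul_le_mul_right _ ih
        _ ≤ 16 ^ m * (16 * (m + 1) ^ 2) := Nat.mul_le_mul_left _ (by nlinarith)
        _ = (m + 1) ^ 2 * 16 ^ (m + 1) := by ring
    exact Nat.le_of_mul_le_mul_left h2 (by positivity)

lemma brC2a_central_lower (m : ℕ) : 16 ^ (m + 1) ≤ (m + 1).centralBinom ^ 2 * (4 * (m + 1)) := by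
  induction m with
  | zero => decide
  | succ m ih =>
    have h := Nat.succ_mul_centralBinom_succ (m + 1)
    have h2 : (m + 2) ^ 2 * 16 ^ (m + 2) ≤
        (m + 2) ^ 2 * ((m + 2).centralBinom ^ 2 * (4 * (m + 2))) := by
      have e : (m + 2) ^ 2 * ((m + 2).centralBinom ^ 2 * (4 * (m + 2))) =
          (2 * (2 * (m + 1) + 1) * (m + 1).centralBinom) ^ 2 * (4 * (m + 2)) := by
        rw [← h]; ring
      rw [e]
      have h3 : (m + 1) * ((m + 2) ^ 2 * 16 ^ (m + 2)) ≤
          (m + 1) * ((2 * (2 * (m + 1) + 1) * (m + 1).centralBinom) ^ 2 * (4 * (m + 2))) := by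
        calc (m + 1) * ((m + 2) ^ 2 * 16 ^ (m + 2))
            = 16 ^ (m + 1) * ((m + 2) * (16 * (m + 1) * (m + 2))) := by ring
          _ ≤ 16 ^ (m + 1) * ((m + 2) * (4 * (2 * m + 3) ^ 2)) :=
              Nat.mul_le_mul_left _ (Nat.mul_le_mul_left _ (by nlinarith))
          _ ≤ ((m + 1).centralBinom ^ 2 * (4 * (m + 1))) * ((m + 2) * (4 * (2 * m + 3) ^ 2)) :=
              Nat.mul_le_mul_right _ ih
          _ = _ := by ring
      exact Nat.le_of_mul_le_mul_left h3 (by positivity)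
    exact Nat.le_of_mul_le_mul_left h2 (by positivity)

/-- the central binomial coefficients, even and odd -/
lemma brC2a_mid (j : ℕ) : (∃ m, j = 2 * m ∧ j.choose (j / 2) = m.centralBinom ∧
    (j.choose (j / 2) : ℝ) / 2 ^ j = (m.centralBinom : ℝ) / 4 ^ m) ∨
    (∃ m, j = 2 * m + 1 ∧
    (j.choose (j / 2) : ℝ) / 2 ^ j = ((m + 1).centralBinom : ℝ) / 4 ^ (m + 1)) := by
  rcases Nat.even_or_odd' j with ⟨m, rfl | rfl⟩
  · left
    refine ⟨m, rfl, ?_, ?_⟩
    · rw [Nat.mul_div_cancel_left m (by norm_num), Nat.centralBinom]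
    · rw [Nat.mul_div_cancel_left m (by norm_num), Nat.centralBinom, pow_mul]
      norm_num
  · right
    refine ⟨m, rfl, ?_⟩
    have h1 : (2 * m + 1) / 2 = m := by omega
    rw [h1]
    have h2 : (m + 1).centralBinom = 2 * (2 * m + 1).choose m := by
      rw [Nat.centralBinom, show 2 * (m + 1) = (2 * m + 1) + 1 by ring, Nat.choose_succ_succ,
        ← Nat.choose_symm_half m]
      ring
    rw [h2]
    push_cast
    rw [pow_succ 4 m, pow_succ 2 (2 * m), pow_mul]
    norm_num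
    field_simp
    norm_num

lemma brC2a_mid_upper (j : ℕ) : (j.choose (j / 2) : ℝ) / 2 ^ j ≤ 1 / Real.sqrt (j + 1) := by
  have key : ∀ m : ℕ, (m.centralBinom : ℝ) / 4 ^ m ≤ 1 / Real.sqrt (2 * m + 1) := by
    intro m
    rw [div_le_div_iff₀ (by positivity) (by positivity), one_mul]
    have h : ((m.centralBinom : ℝ)) ^ 2 * (2 * m + 1) ≤ 16 ^ m := by
      exact_mod_cast brC2a_central_upper m
    apply le_of_sq_le_sq _ (by positivity)
    rw [mul_pow, Real.sq_sqrt (by positivity), ← pow_mul, mul_comm m 2, pow_mul]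
    norm_num
    exact h
  rcases brC2a_mid j with ⟨m, hj, _, h⟩ | ⟨m, hj, h⟩
  · rw [h, hj]
    push_cast
    exact key m
  · rw [h, hj]
    refine (key (m + 1)).trans ?_
    push_cast
    apply one_div_le_one_div_of_le (by positivity)
    apply Real.sqrt_le_sqrt
    linarith

theorem binom_upper : ∃ C : ℝ, 0 < C ∧ ∀ j i : ℕ, (j.choose i : ℝ) / 2 ^ j ≤ C / Real.sqrt (j + 1) := by
  refine ⟨1, one_pos, fun j i => ?_⟩
  refine le_trans ?_ (brC2a_mid_upper j)
  have : (j.choose i : ℝ) ≤ j.choose (j / 2) := by exact_mod_cast Nat.choose_le_middle i j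
  gcongr

lemma brC2a_mid_lower (j : ℕ) (hj : 1 ≤ j) :
    1 / (2 * Real.sqrt j) ≤ (j.choose (j / 2) : ℝ) / 2 ^ j := by
  have key : ∀ m : ℕ, 1 ≤ m → 1 / (2 * Real.sqrt m) ≤ (m.centralBinom : ℝ) / 4 ^ m := by
    intro m hm
    obtain ⟨n, rfl⟩ := Nat.exists_eq_add_of_le' hm
    have hm' : (0 : ℝ) < ((n + 1 : ℕ) : ℝ) := by positivity
    rw [div_le_div_iff₀ (by positivity) (by positivity), one_mul]
    have h : (16 : ℝ) ^ (n + 1) ≤ ((n + 1).centralBinom : ℝ) ^ 2 * (4 * ((n + 1 : ℕ) : ℝ)) := by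
      exact_mod_cast brC2a_central_lower n
    apply le_of_sq_le_sq _ (by positivity)
    rw [mul_pow, mul_pow, Real.sq_sqrt hm'.le, ← pow_mul, mul_comm (n + 1) 2, pow_mul]
    norm_num at h ⊢
    linarith
  rcases brC2a_mid j with ⟨m, hj', _, h⟩ | ⟨m, hj', h⟩
  · have hm : 1 ≤ m := by omega
    rw [h]
    refine le_trans ?_ (key m hm)
    have hm' : (0 : ℝ) < m := by exact_mod_cast hm
    apply one_div_le_one_div_of_le (by positivity)
    have : Real.sqrt m ≤ Real.sqrt j := by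
      apply Real.sqrt_le_sqrt
      rw [hj']; push_cast; linarith
    linarith
  · rw [h]
    refine le_trans ?_ (key (m + 1) (by omega))
    apply one_div_le_one_div_of_le (by positivity)
    have : Real.sqrt ((m + 1 : ℕ) : ℝ) ≤ Real.sqrt j := by
      apply Real.sqrt_le_sqrt
      rw [hj']; push_cast; linarith [(Nat.cast_nonneg m : (0 : ℝ) ≤ m)]
    linarith

lemma brC2a_step (j : ℕ) (K : ℝ) (hj : 1 ≤ j) (hq : 0 ≤ 1 - 4 * K / Real.sqrt j) (hK : 0 < K) :
    ∀ k i : ℕ, i + k = j / 2 → (j : ℝ) / 2 - K * Real.sqrt j ≤ i →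
      (j.choose (j / 2) : ℝ) * (1 - 4 * K / Real.sqrt j) ^ k ≤ j.choose i := by
  intro k
  induction k with
  | zero => intro i hi _; simp only [add_zero] at hi; rw [hi]; simp
  | succ k ih =>
    intro i hi hle
    have h1 := ih (i + 1) (by omega) (by push_cast; linarith)
    have hs : (0 : ℝ) < Real.sqrt j := Real.sqrt_pos.2 (by exact_mod_cast hj)
    have hss : Real.sqrt j * Real.sqrt j = j := Real.mul_self_sqrt (Nat.cast_nonneg j)
    have hij : i < j := by omega
    have e : (j.choose (i + 1) : ℝ) * (i + 1) = j.choose i * (j - i) := by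
      have := Nat.choose_succ_right_eq j i
      have h2 : ((j.choose (i + 1) * (i + 1) : ℕ) : ℝ) = ((j.choose i * (j - i) : ℕ) : ℝ) := by
        rw [this]
      push_cast [Nat.cast_sub hij.le] at h2
      exact h2
    have hji : (0 : ℝ) < (j : ℝ) - i := by
      have : (i : ℝ) < j := by exact_mod_cast hij
      linarith
    have hq2 : (1 - 4 * K / Real.sqrt j) * ((j : ℝ) - i) ≤ i + 1 := by
      calc (1 - 4 * K / Real.sqrt j) * ((j : ℝ) - i)
          ≤ (1 - 4 * K / Real.sqrt j) * (j / 2 + K * Real.sqrt j) := by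
            apply mul_le_mul_of_nonneg_left _ hq
            linarith
        _ = j / 2 + K * Real.sqrt j - 4 * K / Real.sqrt j * (Real.sqrt j * Real.sqrt j) / 2
            - 4 * K / Real.sqrt j * (K * Real.sqrt j) := by rw [hss]; ring
        _ = j / 2 - K * Real.sqrt j - 4 * K ^ 2 := by field_simp; ring
        _ ≤ i + 1 := by nlinarith [sq_nonneg K]
    have h3 : (1 - 4 * K / Real.sqrt j) * j.choose (i + 1) ≤ j.choose i := by
      have h4 : (1 - 4 * K / Real.sqrt j) * j.choose (i + 1) * ((j : ℝ) - i) ≤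
          j.choose i * ((j : ℝ) - i) := by
        calc (1 - 4 * K / Real.sqrt j) * j.choose (i + 1) * ((j : ℝ) - i)
            = ((1 - 4 * K / Real.sqrt j) * ((j : ℝ) - i)) * j.choose (i + 1) := by ring
          _ ≤ (i + 1) * j.choose (i + 1) := by gcongr
          _ = j.choose i * ((j : ℝ) - i) := by rw [← e]; ring
      exact le_of_mul_le_mul_right h4 hji
    calc (j.choose (j / 2) : ℝ) * (1 - 4 * K / Real.sqrt j) ^ (k + 1)
        = (1 - 4 * K / Real.sqrt j) * (j.choose (j / 2) * (1 - 4 * K / Real.sqrt j) ^ k) := by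
          ring
      _ ≤ (1 - 4 * K / Real.sqrt j) * j.choose (i + 1) := by gcongr
      _ ≤ j.choose i := h3

theorem binom_lower (K : ℝ) (hK : 0 < K) : ∃ c : ℝ, 0 < c ∧ ∃ j₀ : ℕ, ∀ j : ℕ, j₀ ≤ j → ∀ i : ℕ, i ≤ j →
    |(i : ℝ) - j / 2| ≤ K * Real.sqrt j → c / Real.sqrt j ≤ (j.choose i : ℝ) / 2 ^ j := by
  refine ⟨Real.exp (-(8 * K ^ 2)) / 2, by positivity, ⌈64 * K ^ 2⌉₊ + 1, ?_⟩
  intro j hj i hij habs
  have hj1 : 1 ≤ j := by omega
  have hs : (0 : ℝ) < Real.sqrt j := Real.sqrt_pos.2 (by exact_mod_cast hj1)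
  have hjK : 64 * K ^ 2 ≤ j := by
    have h1 := Nat.le_ceil (64 * K ^ 2)
    have h2 : ((⌈64 * K ^ 2⌉₊ + 1 : ℕ) : ℝ) ≤ j := by exact_mod_cast hj
    push_cast at h2
    linarith
  have h8 : 8 * K ≤ Real.sqrt j := by
    apply Real.le_sqrt_of_sq_le
    nlinarith
  have hx : 4 * K / Real.sqrt j ≤ 1 / 2 := by
    rw [div_le_iff₀ hs]; linarith
  have hx0 : 0 ≤ 4 * K / Real.sqrt j := by positivity
  have hq : 0 ≤ 1 - 4 * K / Real.sqrt j := by linarith
  have main : ∀ i' : ℕ, i' ≤ j / 2 → (j : ℝ) / 2 - K * Real.sqrt j ≤ i' →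
      Real.exp (-(8 * K ^ 2)) / 2 / Real.sqrt j ≤ (j.choose i' : ℝ) / 2 ^ j := by
    intro i' hi' hle
    have h1 := brC2a_step j K hj1 hq hK (j / 2 - i') i' (by omega) hle
    have hk : (((j / 2 - i' : ℕ) : ℕ) : ℝ) ≤ K * Real.sqrt j := by
      have h2 : ((j / 2 : ℕ) : ℝ) ≤ j / 2 := Nat.cast_div_le
      rw [Nat.cast_sub hi']
      linarith
    have h2 : Real.exp (-(8 * K ^ 2)) ≤ (1 - 4 * K / Real.sqrt j) ^ (j / 2 - i') := by
      have h3 : Real.exp (-(2 * (4 * K / Real.sqrt j))) ≤ 1 - 4 * K / Real.sqrt j := by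
        have h4 : 1 + 2 * (4 * K / Real.sqrt j) ≤ Real.exp (2 * (4 * K / Real.sqrt j)) := by
          have := Real.add_one_le_exp (2 * (4 * K / Real.sqrt j)); linarith
        rw [Real.exp_neg]
        have h5 : 0 < 1 + 2 * (4 * K / Real.sqrt j) := by positivity
        calc (Real.exp (2 * (4 * K / Real.sqrt j)))⁻¹ ≤ (1 + 2 * (4 * K / Real.sqrt j))⁻¹ :=
              inv_anti₀ h5 h4
          _ ≤ 1 - 4 * K / Real.sqrt j := by
              rw [inv_le_iff_one_le_mul₀ h5]
              nlinarith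
      calc Real.exp (-(8 * K ^ 2))
          ≤ Real.exp (-(2 * (4 * K / Real.sqrt j))) ^ (j / 2 - i') := by
            rw [← Real.exp_nat_mul]
            apply Real.exp_le_exp.2
            have h6 : ((j / 2 - i' : ℕ) : ℝ) * (2 * (4 * K / Real.sqrt j)) ≤
                (K * Real.sqrt j) * (2 * (4 * K / Real.sqrt j)) := by gcongr
            have h7 : (K * Real.sqrt j) * (2 * (4 * K / Real.sqrt j)) = 8 * K ^ 2 := by
              field_simp
              ring
            linarith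
        _ ≤ _ := pow_le_pow_left₀ (Real.exp_pos _).le h3 _
    have h3 := brC2a_mid_lower j hj1
    calc Real.exp (-(8 * K ^ 2)) / 2 / Real.sqrt j
        = (1 / (2 * Real.sqrt j)) * Real.exp (-(8 * K ^ 2)) := by field_simp
      _ ≤ ((j.choose (j / 2) : ℝ) / 2 ^ j) * (1 - 4 * K / Real.sqrt j) ^ (j / 2 - i') := by
          gcongr
      _ = (j.choose (j / 2) * (1 - 4 * K / Real.sqrt j) ^ (j / 2 - i')) / 2 ^ j := by ring
      _ ≤ (j.choose i' : ℝ) / 2 ^ j := by gcongr
  rw [abs_le] at habs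
  rcases Nat.lt_or_ge (j / 2) i with h | h
  · have h1 : j - i ≤ j / 2 := by omega
    have h2 := main (j - i) h1 (by rw [Nat.cast_sub hij]; linarith [habs.2])
    rwa [Nat.choose_symm hij] at h2
  · exact main i h (by linarith [habs.1])

end Pool.Agent.SandBr
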