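import Pool.Agent.SandFin.BrC2a

set_option autoImplicit false

namespace Pool.Agent.SandBr

/-- mixture of coins -/
noncomputable def mixt (d n : ℕ) (G : ℕ → Polynomial ℝ) : Polynomial ℝ :=
  ∑ j ∈ Finset.range (n + 1), (Polynomial.C (1 / 2 : ℝ) * (1 + Polynomial.X ^ d)) ^ j * G j

/-- linear functional on polynomials given by weights on the exponents -/
noncomputable def brC2b_L (φ : ℕ → ℝ) : Polynomial ℝ →ₗ[ℝ] ℝ :=
  Polynomial.lsum (fun e => φ e • (LinearMap.id : ℝ →ₗ[ℝ] ℝ))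

theorem brC2b_L_apply (φ : ℕ → ℝ) (P : Polynomial ℝ) :
    brC2b_L φ P = P.sum (fun e c => φ e * c) := by
  simp [brC2b_L, Polynomial.lsum_apply]

theorem brC2b_L_monomial (φ : ℕ → ℝ) (k : ℕ) (a : ℝ) :
    brC2b_L φ (Polynomial.monomial k a) = φ k * a := by
  rw [brC2b_L_apply, Polynomial.sum_monomial_index]
  simp

theorem brC2b_L_X_pow_mul (φ : ℕ → ℝ) (k : ℕ) (P : Polynomial ℝ) :
    brC2b_L φ (Polynomial.X ^ k * P) = brC2b_L (fun e => φ (e + k)) P := by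
  induction P using Polynomial.induction_on' with
  | add p q hp hq => rw [mul_add, map_add, map_add, hp, hq]
  | monomial m a =>
    have h : (Polynomial.X : Polynomial ℝ) ^ k * Polynomial.monomial m a
        = Polynomial.monomial (m + k) a := by
      rw [mul_comm, Polynomial.monomial_mul_X_pow]
    rw [h, brC2b_L_monomial, brC2b_L_monomial]

theorem brC2b_L_mono {φ ψ : ℕ → ℝ} (h : ∀ e, φ e ≤ ψ e) {P : Polynomial ℝ}
    (hP : ∀ e, 0 ≤ P.coeff e) : brC2b_L φ P ≤ brC2b_L ψ P := by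
  rw [brC2b_L_apply, brC2b_L_apply, Polynomial.sum_def, Polynomial.sum_def]
  exact Finset.sum_le_sum (fun e _ => mul_le_mul_of_nonneg_right (h e) (hP e))

theorem brC2b_L_coeff (E : ℕ) (P : Polynomial ℝ) :
    P.coeff E = brC2b_L (fun e => if e = E then 1 else 0) P := by
  induction P using Polynomial.induction_on' with
  | add p q hp hq => rw [Polynomial.coeff_add, map_add, hp, hq]
  | monomial m a =>
    rw [brC2b_L_monomial, Polynomial.coeff_monomial]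
    by_cases h : m = E <;> simp [h]

theorem brC2b_L_eval (P : Polynomial ℝ) :
    P.eval 1 = brC2b_L (fun _ => 1) P := by
  induction P using Polynomial.induction_on' with
  | add p q hp hq => rw [Polynomial.eval_add, map_add, hp, hq]
  | monomial m a =>
    rw [brC2b_L_monomial, Polynomial.eval_monomial]
    simp

theorem brC2b_L_rs (d : ℕ) (x : ZMod d) (P : Polynomial ℝ) :
    rs d x P = brC2b_L (fun e => if (e : ZMod d) = x then 1 else 0) P := by
  rw [brC2b_L_apply, rs]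
  congr 1
  funext e c
  by_cases h : (e : ZMod d) = x <;> simp [h]

theorem brC2b_L_m2 (y : ℝ) (P : Polynomial ℝ) :
    m2 y P = brC2b_L (fun e => ((e : ℝ) - y) ^ 2) P := by
  rw [brC2b_L_apply, m2]

theorem brC2b_L_smul (φ : ℕ → ℝ) (a : ℝ) (P : Polynomial ℝ) :
    brC2b_L (fun e => a * φ e) P = a * brC2b_L φ P := by
  rw [brC2b_L_apply, brC2b_L_apply, Polynomial.sum_def, Polynomial.sum_def, Finset.mul_sum]
  exact Finset.sum_congr rfl (fun e _ => by ring)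

theorem brC2b_L_sub (φ ψ : ℕ → ℝ) (P : Polynomial ℝ) :
    brC2b_L (fun e => φ e - ψ e) P = brC2b_L φ P - brC2b_L ψ P := by
  rw [brC2b_L_apply, brC2b_L_apply, brC2b_L_apply, Polynomial.sum_def, Polynomial.sum_def,
    Polynomial.sum_def, ← Finset.sum_sub_distrib]
  exact Finset.sum_congr rfl (fun e _ => by ring)

theorem brC2b_L_sum {ι : Type} (s : Finset ι) (a : ι → ℝ) (φ : ι → ℕ → ℝ) (P : Polynomial ℝ) :
    brC2b_L (fun e => ∑ i ∈ s, a i * φ i e) P = ∑ i ∈ s, a i * brC2b_L (φ i) P := by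
  simp only [brC2b_L_apply, Polynomial.sum_def, Finset.mul_sum, Finset.sum_mul]
  rw [Finset.sum_comm]
  refine Finset.sum_congr rfl (fun i _ => Finset.sum_congr rfl (fun e _ => by ring))

theorem brC2b_coin (d j : ℕ) :
    (Polynomial.C (1 / 2 : ℝ) * (1 + Polynomial.X ^ d)) ^ j
      = ∑ i ∈ Finset.range (j + 1),
          Polynomial.C ((j.choose i : ℝ) / 2 ^ j) * Polynomial.X ^ (d * i) := by
  rw [mul_pow, add_comm (1 : Polynomial ℝ), add_pow, Finset.mul_sum]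
  refine Finset.sum_congr rfl (fun i _ => ?_)
  have h1 : ((j.choose i : ℕ) : Polynomial ℝ) = Polynomial.C (j.choose i : ℝ) :=
    (Polynomial.C_eq_natCast _).symm
  have h2 : Polynomial.C ((j.choose i : ℝ) / 2 ^ j)
      = Polynomial.C ((1 / 2 : ℝ) ^ j) * Polynomial.C (j.choose i : ℝ) := by
    rw [← Polynomial.C_mul]
    congr 1
    rw [one_div, inv_pow]
    ring
  rw [one_pow, mul_one, ← pow_mul, ← Polynomial.C_pow, h1, h2]
  ring

theorem brC2b_L_coin (φ : ℕ → ℝ) (d j : ℕ) (P : Polynomial ℝ) :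
    brC2b_L φ ((Polynomial.C (1 / 2 : ℝ) * (1 + Polynomial.X ^ d)) ^ j * P)
      = brC2b_L (fun e => ∑ i ∈ Finset.range (j + 1),
          ((j.choose i : ℝ) / 2 ^ j) * φ (e + d * i)) P := by
  rw [brC2b_coin, Finset.sum_mul, map_sum, brC2b_L_sum]
  refine Finset.sum_congr rfl (fun i _ => ?_)
  rw [mul_assoc, ← Polynomial.smul_eq_C_mul, map_smul, smul_eq_mul, brC2b_L_X_pow_mul]

theorem brC2b_L_mixt (φ : ℕ → ℝ) (d n : ℕ) (G : ℕ → Polynomial ℝ) :
    brC2b_L φ (mixt d n G) = ∑ j ∈ Finset.range (n + 1),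
      brC2b_L (fun e => ∑ i ∈ Finset.range (j + 1),
          ((j.choose i : ℝ) / 2 ^ j) * φ (e + d * i)) (G j) := by
  rw [mixt, map_sum]
  exact Finset.sum_congr rfl (fun j _ => brC2b_L_coin φ d j (G j))

theorem brC2b_b_nonneg (j i : ℕ) : 0 ≤ (j.choose i : ℝ) / 2 ^ j := by positivity

theorem brC2b_b_sum (j : ℕ) : ∑ i ∈ Finset.range (j + 1), (j.choose i : ℝ) / 2 ^ j = 1 := by
  rw [← Finset.sum_div]
  have h := Nat.sum_range_choose j
  have h2 : ∑ i ∈ Finset.range (j + 1), (j.choose i : ℝ) = 2 ^ j := by exact_mod_cast h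
  rw [h2]
  exact div_self (by positivity)

theorem brC2b_b_mean (j : ℕ) :
    ∑ i ∈ Finset.range (j + 1), (j.choose i : ℝ) / 2 ^ j * ((i : ℝ) - j / 2) = 0 := by
  have h := Finset.sum_range_reflect
    (fun i : ℕ => (j.choose i : ℝ) / 2 ^ j * ((i : ℝ) - j / 2)) (j + 1)
  have h2 : ∑ i ∈ Finset.range (j + 1),
      (j.choose (j + 1 - 1 - i) : ℝ) / 2 ^ j * (((j + 1 - 1 - i : ℕ) : ℝ) - j / 2)
      = - ∑ i ∈ Finset.range (j + 1), (j.choose i : ℝ) / 2 ^ j * ((i : ℝ) - j / 2) := by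
    rw [← Finset.sum_neg_distrib]
    refine Finset.sum_congr rfl (fun i hi => ?_)
    have hi' : i ≤ j := Nat.lt_succ_iff.mp (Finset.mem_range.mp hi)
    rw [Nat.add_sub_cancel, Nat.choose_symm hi', Nat.cast_sub hi']
    ring
  linarith

theorem brC2b_second (j : ℕ) (u d : ℝ) :
    (u + d * (j / 2)) ^ 2 ≤ ∑ i ∈ Finset.range (j + 1),
      (j.choose i : ℝ) / 2 ^ j * (u + d * i) ^ 2 := by
  have h1 := brC2b_b_sum j
  have h2 := brC2b_b_mean j
  have h3 : ∑ i ∈ Finset.range (j + 1), (j.choose i : ℝ) / 2 ^ j * (u + d * i) ^ 2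
      = (u + d * (j / 2)) ^ 2 * ∑ i ∈ Finset.range (j + 1), (j.choose i : ℝ) / 2 ^ j
        + 2 * (u + d * (j / 2)) * d *
          ∑ i ∈ Finset.range (j + 1), (j.choose i : ℝ) / 2 ^ j * ((i : ℝ) - j / 2)
        + ∑ i ∈ Finset.range (j + 1),
            (j.choose i : ℝ) / 2 ^ j * (d * ((i : ℝ) - j / 2)) ^ 2 := by
    rw [Finset.mul_sum, Finset.mul_sum, ← Finset.sum_add_distrib, ← Finset.sum_add_distrib]
    refine Finset.sum_congr rfl (fun i _ => ?_)
    ring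
  have h4 : 0 ≤ ∑ i ∈ Finset.range (j + 1),
      (j.choose i : ℝ) / 2 ^ j * (d * ((i : ℝ) - j / 2)) ^ 2 :=
    Finset.sum_nonneg (fun i _ => mul_nonneg (brC2b_b_nonneg j i) (sq_nonneg _))
  rw [h3, h1, h2]
  linarith

theorem mix_upper : ∃ C : ℝ, 0 < C ∧ ∀ (d n : ℕ), 1 ≤ d → ∀ (G : ℕ → Polynomial ℝ),
    (∀ j e, 0 ≤ (G j).coeff e) → ∀ E : ℕ, (mixt d n G).coeff E ≤
      ∑ j ∈ Finset.range (n + 1), C / Real.sqrt (j + 1) * (G j).eval 1 := by
  obtain ⟨C, hC, hb⟩ := binom_upper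
  refine ⟨C, hC, fun d n hd G hG E => ?_⟩
  rw [brC2b_L_coeff, brC2b_L_mixt]
  refine Finset.sum_le_sum (fun j _ => ?_)
  rw [brC2b_L_eval, ← brC2b_L_smul]
  refine brC2b_L_mono (fun e => ?_) (hG j)
  have hCj : 0 ≤ C / Real.sqrt (j + 1) := by positivity
  by_cases hex : ∃ i ∈ Finset.range (j + 1), e + d * i = E
  · obtain ⟨i, hi, hie⟩ := hex
    rw [Finset.sum_eq_single_of_mem i hi]
    · rw [if_pos hie, mul_one, mul_one]
      exact hb j i
    · intro k _ hk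
      rw [if_neg, mul_zero]
      intro hke
      apply hk
      have h1 : d * k = d * i := by omega
      exact Nat.eq_of_mul_eq_mul_left hd h1
  · rw [Finset.sum_eq_zero]
    · rw [mul_one]; exact hCj
    · intro i hi
      rw [if_neg, mul_zero]
      exact fun h => hex ⟨i, hi, h⟩

theorem brC2b_pointwise (d : ℕ) (hd : 1 ≤ d) (K δ c : ℝ) (hK : 0 < K) (hδ : 0 < δ) (hc : 0 < c)
    (j₀ : ℕ) (hb : ∀ j : ℕ, j₀ ≤ j → ∀ i : ℕ, i ≤ j →
      |(i : ℝ) - j / 2| ≤ K * Real.sqrt j → c / Real.sqrt j ≤ (j.choose i : ℝ) / 2 ^ j)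
    (n : ℕ) (hn : 1 ≤ n) (hn1 : (j₀ : ℝ) ≤ δ * n) (hn2 : 4 * K ^ 2 < δ * n)
    (E₀ j e : ℕ) (hj : j ≤ n) :
    c / Real.sqrt n * ((∑ i ∈ Finset.range (j + 1),
          ((j.choose i : ℝ) / 2 ^ j) * (if ((e + d * i : ℕ) : ZMod d) = (E₀ : ZMod d) then 1 else 0))
        - (if (j : ℝ) < δ * n then 1 else 0)
        - (∑ i ∈ Finset.range (j + 1),
          ((j.choose i : ℝ) / 2 ^ j) * (((e + d * i : ℕ) : ℝ) - E₀) ^ 2)
            / ((d : ℝ) ^ 2 * K ^ 2 * δ * n))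
      ≤ ∑ i ∈ Finset.range (j + 1),
          ((j.choose i : ℝ) / 2 ^ j) * (if e + d * i = E₀ then 1 else 0) := by
  have hn' : (0 : ℝ) < n := by exact_mod_cast hn
  have hd' : (0 : ℝ) < d := by exact_mod_cast hd
  have hcn : 0 ≤ c / Real.sqrt n := by positivity
  have hden : 0 < (d : ℝ) ^ 2 * K ^ 2 * δ * n := by positivity
  have hR : 0 ≤ ∑ i ∈ Finset.range (j + 1),
      ((j.choose i : ℝ) / 2 ^ j) * (if e + d * i = E₀ then (1 : ℝ) else 0) := by
    refine Finset.sum_nonneg (fun i _ => mul_nonneg (brC2b_b_nonneg j i) ?_)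
    split_ifs <;> norm_num
  have hcast : ∀ i : ℕ, ((e + d * i : ℕ) : ZMod d) = (e : ZMod d) := by
    intro i
    push_cast
    rw [ZMod.natCast_self]
    ring
  have hS : (∑ i ∈ Finset.range (j + 1),
          ((j.choose i : ℝ) / 2 ^ j) *
            (if ((e + d * i : ℕ) : ZMod d) = (E₀ : ZMod d) then (1 : ℝ) else 0))
      = if (e : ZMod d) = (E₀ : ZMod d) then 1 else 0 := by
    simp only [hcast]
    rw [← Finset.sum_mul, brC2b_b_sum, one_mul]
  rw [hS]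
  set u : ℝ := (e : ℝ) - E₀ with hu
  have hV : (u + d * ((j : ℝ) / 2)) ^ 2 ≤ ∑ i ∈ Finset.range (j + 1),
      ((j.choose i : ℝ) / 2 ^ j) * (((e + d * i : ℕ) : ℝ) - E₀) ^ 2 := by
    refine (brC2b_second j u d).trans (le_of_eq ?_)
    refine Finset.sum_congr rfl (fun i _ => ?_)
    congr 2
    rw [hu]
    push_cast
    ring
  have hV0 : 0 ≤ (∑ i ∈ Finset.range (j + 1),
      ((j.choose i : ℝ) / 2 ^ j) * (((e + d * i : ℕ) : ℝ) - E₀) ^ 2)
        / ((d : ℝ) ^ 2 * K ^ 2 * δ * n) :=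
    div_nonneg ((sq_nonneg _).trans hV) hden.le
  by_cases hjn : (j : ℝ) < δ * n
  · rw [if_pos hjn]
    refine le_trans ?_ hR
    apply mul_nonpos_of_nonneg_of_nonpos hcn
    split_ifs <;> linarith
  rw [if_neg hjn]
  push Not at hjn
  by_cases heE : (e : ZMod d) = (E₀ : ZMod d)
  swap
  · rw [if_neg heE]
    refine le_trans ?_ hR
    apply mul_nonpos_of_nonneg_of_nonpos hcn
    linarith
  rw [if_pos heE]
  have hjpos : (0 : ℝ) < j := lt_of_lt_of_le (by positivity) hjn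
  have hsj : 0 < Real.sqrt j := Real.sqrt_pos.mpr hjpos
  by_cases hfar : d * (K * Real.sqrt j) < |u + d * ((j : ℝ) / 2)|
  · refine le_trans ?_ hR
    apply mul_nonpos_of_nonneg_of_nonpos hcn
    have h1 : (d : ℝ) ^ 2 * K ^ 2 * δ * n ≤ (u + d * ((j : ℝ) / 2)) ^ 2 := by
      have h2 : (d * (K * Real.sqrt j)) ^ 2 ≤ |u + d * ((j : ℝ) / 2)| ^ 2 := by
        apply pow_le_pow_left₀ (by positivity) hfar.le
      rw [sq_abs] at h2
      have h3 : (d * (K * Real.sqrt j)) ^ 2 = (d : ℝ) ^ 2 * K ^ 2 * j := by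
        rw [mul_pow, mul_pow, Real.sq_sqrt hjpos.le]
        ring
      rw [h3] at h2
      refine le_trans ?_ h2
      have h4 : (d : ℝ) ^ 2 * K ^ 2 * δ * n = (d : ℝ) ^ 2 * K ^ 2 * (δ * n) := by ring
      rw [h4]
      exact mul_le_mul_of_nonneg_left hjn (by positivity)
    have h5 : 1 ≤ (∑ i ∈ Finset.range (j + 1),
      ((j.choose i : ℝ) / 2 ^ j) * (((e + d * i : ℕ) : ℝ) - E₀) ^ 2)
        / ((d : ℝ) ^ 2 * K ^ 2 * δ * n) := by
      rw [one_le_div hden]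
      exact h1.trans hV
    linarith
  push Not at hfar
  -- find the index
  have h4j : 2 * K < Real.sqrt j := by
    have : (2 * K) ^ 2 < Real.sqrt j ^ 2 := by
      rw [Real.sq_sqrt hjpos.le]
      nlinarith
    exact lt_of_pow_lt_pow_left₀ 2 hsj.le this
  have hKj : K * Real.sqrt j < j / 2 := by
    have h6 : (j : ℝ) = Real.sqrt j * Real.sqrt j := (Real.mul_self_sqrt hjpos.le).symm
    nlinarith
  have habs := abs_le.mp hfar
  have hle : (e : ℝ) ≤ E₀ := by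
    have : u ≤ 0 := by nlinarith [habs.2]
    rw [hu] at this
    linarith
  have hleN : e ≤ E₀ := by exact_mod_cast hle
  have hdvd : d ∣ E₀ - e := by
    have h7 : ((E₀ - e : ℕ) : ZMod d) = 0 := by
      rw [Nat.cast_sub hleN, heE, sub_self]
    exact (ZMod.natCast_eq_zero_iff _ _).mp h7
  obtain ⟨i, hi⟩ := hdvd
  have hiE : e + d * i = E₀ := by omega
  have hui : u = -(d * i) := by
    rw [hu, ← hiE]
    push_cast
    ring
  have hdev : |(i : ℝ) - j / 2| ≤ K * Real.sqrt j := by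
    have h8 : u + d * ((j : ℝ) / 2) = -(d * ((i : ℝ) - j / 2)) := by
      rw [hui]; ring
    rw [h8, abs_neg, abs_mul, abs_of_pos hd'] at hfar
    exact le_of_mul_le_mul_left hfar hd'
  have hij : i ≤ j := by
    have h9 := (abs_le.mp hdev).2
    have : (i : ℝ) < j := by linarith
    exact_mod_cast this.le
  have hj0 : j₀ ≤ j := by
    have : (j₀ : ℝ) ≤ j := hn1.trans hjn
    exact_mod_cast this
  have hmain := hb j hj0 i hij hdev
  have hterm : ((j.choose i : ℝ) / 2 ^ j) ≤ ∑ i ∈ Finset.range (j + 1),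
      ((j.choose i : ℝ) / 2 ^ j) * (if e + d * i = E₀ then (1 : ℝ) else 0) := by
    have hmem : i ∈ Finset.range (j + 1) := Finset.mem_range.mpr (by omega)
    have h10 := Finset.single_le_sum (f := fun i : ℕ =>
      ((j.choose i : ℝ) / 2 ^ j) * (if e + d * i = E₀ then (1 : ℝ) else 0))
      (fun k _ => mul_nonneg (brC2b_b_nonneg j k) (by split_ifs <;> norm_num)) hmem
    simpa [hiE] using h10
  have hjn2 : c / Real.sqrt n ≤ c / Real.sqrt j := by
    apply div_le_div_of_nonneg_left hc.le hsj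
    exact Real.sqrt_le_sqrt (by exact_mod_cast hj)
  calc c / Real.sqrt n * (1 - 0 - _) ≤ c / Real.sqrt n * 1 := by
        apply mul_le_mul_of_nonneg_left _ hcn
        linarith
    _ = c / Real.sqrt n := mul_one _
    _ ≤ c / Real.sqrt j := hjn2
    _ ≤ _ := hmain
    _ ≤ _ := hterm

theorem mix_lower (d : ℕ) (hd : 1 ≤ d) (K δ : ℝ) (hK : 0 < K) (hδ : 0 < δ) :
    ∃ c : ℝ, 0 < c ∧ ∃ n₀ : ℕ, 1 ≤ n₀ ∧ ∀ n : ℕ, n₀ ≤ n → ∀ (G : ℕ → Polynomial ℝ),
      (∀ j e, 0 ≤ (G j).coeff e) → ∀ E₀ : ℕ,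
      c / Real.sqrt n * (rs d (E₀ : ZMod d) (mixt d n G)
        - ∑ j ∈ (Finset.range (n + 1)).filter (fun j : ℕ => (j : ℝ) < δ * n), (G j).eval 1
        - m2 E₀ (mixt d n G) / ((d : ℝ) ^ 2 * K ^ 2 * δ * n)) ≤ (mixt d n G).coeff E₀ := by
  obtain ⟨c, hc, j₀, hb⟩ := binom_lower K hK
  obtain ⟨n₁, hn₁⟩ := exists_nat_gt (((j₀ : ℝ) + 4 * K ^ 2) / δ)
  refine ⟨c, hc, n₁ + 1, by omega, fun n hn G hG E₀ => ?_⟩
  have hn1 : 1 ≤ n := by omega
  have hδn : (j₀ : ℝ) + 4 * K ^ 2 < δ * n := by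
    have h1 : ((j₀ : ℝ) + 4 * K ^ 2) / δ < n := by
      refine hn₁.trans_le ?_
      exact_mod_cast (by omega : n₁ ≤ n)
    rw [div_lt_iff₀ hδ] at h1
    linarith
  have hj0 : (0 : ℝ) ≤ j₀ := Nat.cast_nonneg _
  have hK2 : 0 < 4 * K ^ 2 := by positivity
  rw [brC2b_L_rs, brC2b_L_m2, brC2b_L_coeff, brC2b_L_mixt, brC2b_L_mixt, brC2b_L_mixt,
    Finset.sum_filter, Finset.sum_div, ← Finset.sum_sub_distrib, ← Finset.sum_sub_distrib,
    Finset.mul_sum]
  refine Finset.sum_le_sum (fun j hj => ?_)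
  have hjn : j ≤ n := Nat.lt_succ_iff.mp (Finset.mem_range.mp hj)
  have hpt := brC2b_pointwise d hd K δ c hK hδ hc j₀ hb n hn1 (by linarith) (by linarith) E₀ j
  have h2 : (if (j : ℝ) < δ * n then (G j).eval 1 else 0)
      = brC2b_L (fun _ => if (j : ℝ) < δ * n then 1 else 0) (G j) := by
    split_ifs
    · exact brC2b_L_eval _
    · rw [brC2b_L_apply]
      simp [Polynomial.sum_def]
  rw [h2, div_eq_inv_mul (brC2b_L _ (G j)), ← brC2b_L_smul, ← brC2b_L_sub, ← brC2b_L_sub,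
    ← brC2b_L_smul]
  refine brC2b_L_mono (fun e => ?_) (hG j)
  refine le_trans (le_of_eq ?_) (hpt e hjn)
  rw [div_eq_inv_mul (∑ i ∈ Finset.range (j + 1),
    ((j.choose i : ℝ) / 2 ^ j) * (((e + d * i : ℕ) : ℝ) - E₀) ^ 2)]

end Pool.Agent.SandBr
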