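import Pool.Agent.SandFin.BrC0a
import Pool.Agent.SandFin.BrC0b

set_option autoImplicit false

namespace Pool.Agent.SandBr

/-- weighted sum of coefficients -/
noncomputable def brC3_S (φ : ℕ → ℝ) (P : Polynomial ℝ) : ℝ := P.sum (fun e c => φ e * c)

theorem brC3_add (φ : ℕ → ℝ) (P Q : Polynomial ℝ) :
    brC3_S φ (P + Q) = brC3_S φ P + brC3_S φ Q := by
  unfold brC3_S
  exact Polynomial.sum_add_index P Q _ (fun i => mul_zero _) (fun i a b => mul_add _ _ _)

theorem brC3_zero (φ : ℕ → ℝ) : brC3_S φ 0 = 0 := by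
  unfold brC3_S
  exact Polynomial.sum_zero_index _

theorem brC3_sum {ι : Type} (φ : ℕ → ℝ) (s : Finset ι) (P : ι → Polynomial ℝ) :
    brC3_S φ (∑ i ∈ s, P i) = ∑ i ∈ s, brC3_S φ (P i) := by
  classical
  induction s using Finset.induction_on with
  | empty => simp [brC3_zero]
  | insert a s ha ih => rw [Finset.sum_insert ha, Finset.sum_insert ha, brC3_add, ih]

theorem brC3_monomial (φ : ℕ → ℝ) (e : ℕ) (c : ℝ) :
    brC3_S φ (Polynomial.monomial e c) = φ e * c := by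
  unfold brC3_S
  exact Polynomial.sum_monomial_index c _ (mul_zero _)

theorem brC3_le {φ ψ : ℕ → ℝ} {P : Polynomial ℝ} (hP : ∀ e, 0 ≤ P.coeff e)
    (h : ∀ e, e ≤ P.natDegree → φ e ≤ ψ e) : brC3_S φ P ≤ brC3_S ψ P := by
  unfold brC3_S
  rw [Polynomial.sum_def, Polynomial.sum_def]
  exact Finset.sum_le_sum (fun e he =>
    mul_le_mul_of_nonneg_right (h e (Polynomial.le_natDegree_of_mem_supp e he)) (hP e))

theorem brC3_nonneg {φ : ℕ → ℝ} {P : Polynomial ℝ} (hP : ∀ e, 0 ≤ P.coeff e)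
    (h : ∀ e, 0 ≤ φ e) : 0 ≤ brC3_S φ P := by
  unfold brC3_S
  rw [Polynomial.sum_def]
  exact Finset.sum_nonneg (fun e _ => mul_nonneg (h e) (hP e))

theorem brC3_add_fun (φ ψ : ℕ → ℝ) (P : Polynomial ℝ) :
    brC3_S (fun e => φ e + ψ e) P = brC3_S φ P + brC3_S ψ P := by
  unfold brC3_S
  simp only [Polynomial.sum_def, add_mul, Finset.sum_add_distrib]

theorem brC3_mul_fun (k : ℝ) (φ : ℕ → ℝ) (P : Polynomial ℝ) :
    brC3_S (fun e => k * φ e) P = k * brC3_S φ P := by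
  unfold brC3_S
  simp only [Polynomial.sum_def, Finset.mul_sum, mul_assoc]

theorem brC3_const (k : ℝ) (P : Polynomial ℝ) : brC3_S (fun _ => k) P = k * P.eval 1 := by
  unfold brC3_S
  rw [Polynomial.eval_eq_sum]
  simp only [Polynomial.sum_def, one_pow, mul_one, Finset.mul_sum]

theorem brC3_deriv (P : Polynomial ℝ) :
    brC3_S (fun e => (e : ℝ)) P = (Polynomial.derivative P).eval 1 := by
  unfold brC3_S
  rw [Polynomial.derivative_eval]
  simp only [Polynomial.sum_def, one_pow, mul_one]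
  exact Finset.sum_congr rfl (fun e _ => mul_comm _ _)

theorem brC3_m2 (y : ℝ) (P : Polynomial ℝ) : m2 y P = brC3_S (fun E => ((E : ℝ) - y) ^ 2) P := rfl

theorem brC3_m2_mono (y : ℝ) (e : ℕ) (c : ℝ) (Q : Polynomial ℝ) :
    m2 y (Polynomial.monomial e c * Q) = m2 (y - e) Q * c := by
  induction Q using Polynomial.induction_on' with
  | add p q hp hq =>
    rw [mul_add, brC3_m2, brC3_add, ← brC3_m2, ← brC3_m2, hp, hq, brC3_m2 _ (p + q), brC3_add,
      ← brC3_m2, ← brC3_m2]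
    ring
  | monomial k d =>
    rw [Polynomial.monomial_mul_monomial, brC3_m2, brC3_m2, brC3_monomial, brC3_monomial]
    push_cast
    ring

theorem brC3_m2_mul (y : ℝ) (P Q : Polynomial ℝ) :
    m2 y (P * Q) = brC3_S (fun e => m2 (y - e) Q) P := by
  induction P using Polynomial.induction_on' with
  | add p q hp hq =>
    rw [add_mul, brC3_m2, brC3_add, ← brC3_m2, ← brC3_m2, hp, hq, brC3_add]
  | monomial e c =>
    rw [brC3_m2_mono, brC3_monomial]

theorem brC3_sq (x : ℝ) (w : ℕ) (P : Polynomial ℝ) :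
    brC3_S (fun e => (x + e - w) ^ 2) P = x ^ 2 * P.eval 1 +
      2 * x * ((Polynomial.derivative P).eval 1 - (w : ℝ) * P.eval 1) +
      brC3_S (fun e => ((e : ℝ) - w) ^ 2) P := by
  have h : (fun e : ℕ => (x + e - w) ^ 2) = fun e : ℕ => (((x ^ 2 - 2 * x * w) +
      (2 * x) * (e : ℝ)) + ((e : ℝ) - w) ^ 2) := by
    funext e
    ring
  rw [h, brC3_add_fun (fun e : ℕ => (x ^ 2 - 2 * x * w) + (2 * x) * (e : ℝ)),
    brC3_add_fun (fun _ : ℕ => (x ^ 2 - 2 * x * w)), brC3_const, brC3_mul_fun, brC3_deriv]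
  ring

theorem brC3_sq_le_exp (ρ : ℝ) (hρ : 1 < ρ) : ∃ C : ℝ, 0 ≤ C ∧ ∀ w : ℕ, (w : ℝ) ^ 2 ≤ C * ρ ^ w := by
  have hρ0 : 0 < ρ := lt_trans one_pos hρ
  have hr : ‖ρ⁻¹‖ < 1 := by
    rw [Real.norm_eq_abs, abs_of_pos (inv_pos.2 hρ0)]
    exact inv_lt_one_of_one_lt₀ hρ
  have hs : Summable (fun n : ℕ => (n : ℝ) ^ 2 * ρ⁻¹ ^ n) :=
    summable_pow_mul_geometric_of_norm_lt_one 2 hr
  have hnn : ∀ n : ℕ, 0 ≤ (n : ℝ) ^ 2 * ρ⁻¹ ^ n := fun n => by positivity
  refine ⟨∑' n : ℕ, (n : ℝ) ^ 2 * ρ⁻¹ ^ n, tsum_nonneg hnn, fun w => ?_⟩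
  have h1 : (w : ℝ) ^ 2 * ρ⁻¹ ^ w ≤ ∑' n : ℕ, (n : ℝ) ^ 2 * ρ⁻¹ ^ n :=
    hs.le_tsum w (fun n _ => hnn n)
  have h2 : (w : ℝ) ^ 2 = ((w : ℝ) ^ 2 * ρ⁻¹ ^ w) * ρ ^ w := by
    rw [mul_assoc, ← mul_pow, inv_mul_cancel₀ hρ0.ne', one_pow, mul_one]
  calc (w : ℝ) ^ 2 = ((w : ℝ) ^ 2 * ρ⁻¹ ^ w) * ρ ^ w := h2
    _ ≤ _ := mul_le_mul_of_nonneg_right h1 (by positivity)

/-- T-C3 -/
theorem walk_m2 (f : PP) (b : ℕ) (ρ : ℝ) (hf : Wlk f b ρ) :
    ∃ σ : ℝ, 0 < σ ∧ ∀ n : ℕ, m2 n (PowerSeries.coeff n (gr f)) ≤ σ * n := by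
  have hρ0 : 0 < ρ := lt_trans one_pos hf.one_lt
  have hev : ∀ w, 0 ≤ (PowerSeries.coeff w f).eval 1 := by
    intro w
    have := brC3_nonneg (φ := fun _ => (1 : ℝ)) (hf.nonneg w) (fun _ => zero_le_one)
    rwa [brC3_const, one_mul] at this
  have hVn : ∀ w : ℕ, 0 ≤ brC3_S (fun e => ((e : ℝ) - w) ^ 2) (PowerSeries.coeff w f) := fun w =>
    brC3_nonneg (hf.nonneg w) (fun e => sq_nonneg _)
  have hVs : Summable (fun w : ℕ =>
      brC3_S (fun e => ((e : ℝ) - w) ^ 2) (PowerSeries.coeff w f)) := by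
    obtain ⟨C, hC0, hC⟩ := brC3_sq_le_exp ρ hf.one_lt
    refine Summable.of_nonneg_of_le hVn (fun w => ?_)
      (hf.expm.mul_left (((b : ℝ) + 1) ^ 2 * C))
    have h1 : brC3_S (fun e => ((e : ℝ) - w) ^ 2) (PowerSeries.coeff w f) ≤
        brC3_S (fun _ => (((b : ℝ) + 1) * w) ^ 2) (PowerSeries.coeff w f) := by
      refine brC3_le (hf.nonneg w) (fun e he => ?_)
      have h2 : (e : ℝ) ≤ b * w := by exact_mod_cast he.trans (hf.deg w)
      have h3 : (0 : ℝ) ≤ e := Nat.cast_nonneg e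
      have h4 : (0 : ℝ) ≤ w := Nat.cast_nonneg w
      have h5 : (0 : ℝ) ≤ b := Nat.cast_nonneg b
      apply sq_le_sq'
      · nlinarith [mul_nonneg h5 h4]
      · nlinarith [mul_nonneg h5 h4]
    rw [brC3_const] at h1
    refine h1.trans ?_
    calc (((b : ℝ) + 1) * w) ^ 2 * (PowerSeries.coeff w f).eval 1
        = ((b : ℝ) + 1) ^ 2 * (w : ℝ) ^ 2 * (PowerSeries.coeff w f).eval 1 := by ring
      _ ≤ ((b : ℝ) + 1) ^ 2 * (C * ρ ^ w) * (PowerSeries.coeff w f).eval 1 :=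
          mul_le_mul_of_nonneg_right (mul_le_mul_of_nonneg_left (hC w) (by positivity)) (hev w)
      _ = ((b : ℝ) + 1) ^ 2 * C * ((PowerSeries.coeff w f).eval 1 * ρ ^ w) := by ring
  obtain ⟨V, hV⟩ := hVs
  have hV0 : 0 ≤ V := hV.nonneg hVn
  refine ⟨V + 1, by linarith, ?_⟩
  have key : ∀ n : ℕ, ∀ x : ℝ, m2 ((n : ℝ) - x) (PowerSeries.coeff n (gr f)) ≤
      x ^ 2 + (V + 1) * n := by
    intro n
    induction n using Nat.strong_induction_on with
    | _ n ih =>
      intro x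
      rcases Nat.eq_zero_or_pos n with rfl | hn
      · rw [gr_coeff_zero f hf.zero, brC3_m2]
        have : (1 : Polynomial ℝ) = Polynomial.monomial 0 1 := by
          rw [Polynomial.monomial_zero_left, Polynomial.C_1]
        rw [this, brC3_monomial]
        simp
      · rw [gr_coeff f hf.zero n hn, brC3_m2, brC3_sum]
        have hn1 : (0 : ℝ) ≤ (n : ℝ) - 1 := by
          have : (1 : ℝ) ≤ n := by exact_mod_cast hn
          linarith
        have hc0 : 0 ≤ (V + 1) * ((n : ℝ) - 1) := mul_nonneg (by linarith) hn1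
        have hstep : ∀ w ∈ Finset.range (n + 1),
            brC3_S (fun E => ((E : ℝ) - ((n : ℝ) - x)) ^ 2)
              (PowerSeries.coeff w f * PowerSeries.coeff (n - w) (gr f)) ≤
            brC3_S (fun e => (x + e - w) ^ 2) (PowerSeries.coeff w f) +
              (V + 1) * ((n : ℝ) - 1) * (PowerSeries.coeff w f).eval 1 := by
          intro w hw
          rcases Nat.eq_zero_or_pos w with rfl | hw0
          · rw [hf.zero, zero_mul, brC3_zero, brC3_zero, Polynomial.eval_zero, mul_zero, add_zero]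
          · have hwn : w ≤ n := Nat.lt_succ_iff.1 (Finset.mem_range.1 hw)
            rw [← brC3_m2, brC3_m2_mul, ← brC3_const ((V + 1) * ((n : ℝ) - 1)), ← brC3_add_fun]
            refine brC3_le (hf.nonneg w) (fun e _ => ?_)
            have h1 := ih (n - w) (by omega) (x + e - w)
            have h2 : ((n - w : ℕ) : ℝ) = (n : ℝ) - w := by push_cast [hwn]; ring
            rw [h2] at h1
            have h3 : (n : ℝ) - w - (x + e - w) = (n : ℝ) - x - e := by ring
            rw [h3] at h1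
            refine h1.trans ?_
            have h4 : (1 : ℝ) ≤ w := by exact_mod_cast hw0
            have h5 : (V + 1) * ((n : ℝ) - w) ≤ (V + 1) * ((n : ℝ) - 1) :=
              mul_le_mul_of_nonneg_left (by linarith) (by linarith)
            linarith
        refine (Finset.sum_le_sum hstep).trans ?_
        have hsum : HasSum (fun w : ℕ =>
            brC3_S (fun e => (x + e - w) ^ 2) (PowerSeries.coeff w f) +
              (V + 1) * ((n : ℝ) - 1) * (PowerSeries.coeff w f).eval 1)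
            (x ^ 2 * 1 + 2 * x * 0 + V + (V + 1) * ((n : ℝ) - 1) * 1) := by
          simp only [brC3_sq]
          exact (((hf.mass.mul_left (x ^ 2)).add (hf.mean.mul_left (2 * x))).add hV).add
            (hf.mass.mul_left ((V + 1) * ((n : ℝ) - 1)))
        have hle := sum_le_hasSum (Finset.range (n + 1)) (fun w _ =>
          add_nonneg (brC3_nonneg (hf.nonneg w) (fun e => sq_nonneg _))
            (mul_nonneg hc0 (hev w))) hsum
        refine hle.trans ?_
        linarith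
  intro n
  have h := key n 0
  simpa using h

end Pool.Agent.SandBr
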