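import Pool.Agent.SandFin.BrBase

set_option autoImplicit false

namespace Pool.Agent.SandBr

theorem brC4a_min {ι : Type} (s : Finset ι) (f : ι → ℝ) :
    ∃ c : ℝ, 0 < c ∧ ∀ i ∈ s, 0 < f i → c ≤ f i := by
  classical
  induction s using Finset.induction_on with
  | empty => exact ⟨1, one_pos, by simp⟩
  | insert a s ha ih =>
    obtain ⟨c, hc, h⟩ := ih
    by_cases hfa : 0 < f a
    · refine ⟨min c (f a), lt_min hc hfa, ?_⟩
      intro i hi hfi
      rcases Finset.mem_insert.1 hi with rfl | hi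
      · exact min_le_right _ _
      · exact (min_le_left _ _).trans (h i hi hfi)
    · refine ⟨c, hc, ?_⟩
      intro i hi hfi
      rcases Finset.mem_insert.1 hi with rfl | hi
      · exact absurd hfi hfa
      · exact h i hi hfi

/-- T-C4a (independent) -/
theorem res_pos (d : ℕ) [NeZero d] (u : ℕ → ZMod d → ℝ) (hn : ∀ n x, 0 ≤ u n x) (h0 : u 0 0 = 1)
    (hs : ∀ n m x y, u n x * u m y ≤ u (n + m) (x + y)) (K : ℕ)
    (hK : ∀ n, K ≤ n → 1 / 2 ≤ ∑ i ∈ Finset.range K, ∑ x, u (n - i) x) :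
    ∃ (g : ℕ) (c : ℝ) (n₀ : ℕ), 1 ≤ g ∧ 0 < c ∧ ∀ n, n₀ ≤ n → g ∣ n → c ≤ u n 0 := by
  classical
  have hd : 0 < d := Nat.pos_of_ne_zero (NeZero.ne d)
  have hK0 : 0 < K := by
    rcases Nat.eq_zero_or_pos K with h | h
    · have := hK 0 (by omega)
      rw [h] at this
      norm_num at this
    · exact h
  -- addition
  have hadd : ∀ n m x y, 0 < u n x → 0 < u m y → 0 < u (n + m) (x + y) := fun n m x y h1 h2 =>
    lt_of_lt_of_le (mul_pos h1 h2) (hs n m x y)
  have hmul : ∀ (k n : ℕ) (x : ZMod d), 0 < u n x → 0 < u (k * n) (k * x) := by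
    intro k n x h
    induction k with
    | zero => simp [h0]
    | succ k ih =>
      have := hadd _ _ _ _ ih h
      have e1 : k * n + n = (k + 1) * n := by ring
      have e2 : (k : ZMod d) * x + x = ((k + 1 : ℕ) : ZMod d) * x := by push_cast; ring
      rwa [e1, e2] at this
  -- pigeonhole
  set c0 : ℝ := 1 / (2 * K * d) with hc0
  have hKd : (0 : ℝ) < 2 * K * d := by positivity
  have hc0pos : 0 < c0 := by positivity
  have hpig : ∀ n, K ≤ n → ∃ i, i < K ∧ ∃ x, c0 ≤ u (n - i) x := by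
    intro n hn'
    by_contra hcon
    push Not at hcon
    have h1 : ∑ i ∈ Finset.range K, ∑ x, u (n - i) x < ∑ i ∈ Finset.range K, ∑ _x : ZMod d, c0 := by
      apply Finset.sum_lt_sum_of_nonempty ⟨0, Finset.mem_range.2 hK0⟩
      intro i hi
      apply Finset.sum_lt_sum_of_nonempty Finset.univ_nonempty
      intro x _
      exact hcon i (Finset.mem_range.1 hi) x
    have h2 : ∑ i ∈ Finset.range K, ∑ _x : ZMod d, c0 = 1 / 2 := by
      simp only [Finset.sum_const, Finset.card_univ, ZMod.card, Finset.card_range, nsmul_eq_mul]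
      rw [hc0]
      field_simp
    have h3 := hK n hn'
    linarith
  -- the semigroup `H`
  let H : AddSubmonoid ℕ :=
    { carrier := {n | 0 < u n 0}
      add_mem' := by
        intro a b ha hb
        have := hadd a b 0 0 ha hb
        simpa using this
      zero_mem' := by
        change 0 < u 0 0
        rw [h0]; exact one_pos }
  have hHmem : ∀ n, n ∈ H ↔ 0 < u n 0 := fun n => Iff.rfl
  set g : ℕ := Nat.setGcd (H : Set ℕ) with hg
  have hgdvd : ∀ n, 0 < u n 0 → g ∣ n := fun n hn' => Nat.setGcd_dvd_of_mem (s := (H : Set ℕ)) hn'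
  -- `d * k` lies in `H` if `(k, x)` lies in the support
  have hdk : ∀ k x, 0 < u k x → 0 < u (d * k) 0 := by
    intro k x h
    have := hmul d k x h
    simpa using this
  have hgpos : 1 ≤ g := by
    obtain ⟨i, hi, x, hx⟩ := hpig (2 * K) (by omega)
    have h1 : 0 < u (2 * K - i) x := lt_of_lt_of_le hc0pos hx
    have h2 := hgdvd _ (hdk _ _ h1)
    rcases Nat.eq_zero_or_pos g with h | h
    · rw [h] at h2
      have h3 := Nat.eq_zero_of_zero_dvd h2
      rcases Nat.mul_eq_zero.1 h3 with h4 | h4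
      · omega
      · omega
    · exact h
  have : NeZero g := ⟨by omega⟩
  obtain ⟨h1, hh1⟩ := Nat.exists_mem_closure_of_ge (H : Set ℕ)
  have hH : ∀ m, h1 ≤ m → g ∣ m → 0 < u m 0 := by
    intro m hm hgm
    have := hh1 m hm hgm
    rw [AddSubmonoid.closure_eq] at this
    exact this
  -- representatives
  have hrep : ∀ r : ZMod g, ∀ y : ZMod d, ∃ M : ℕ, ∀ k : ℕ, (k : ZMod g) = r → 0 < u k y →
      ∀ m, M ≤ m → (m : ZMod g) = r → 0 < u m y := by
    intro r y
    by_cases hex : ∃ k : ℕ, (k : ZMod g) = r ∧ 0 < u k y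
    · obtain ⟨k0, hk0, hk0'⟩ := hex
      refine ⟨k0 + h1, ?_⟩
      intro k _ _ m hm hmr
      have h2 : g ∣ m - k0 := by
        have h3 : ((m : ZMod g)) = (k0 : ZMod g) := by rw [hmr, hk0]
        have h4 := (ZMod.natCast_eq_natCast_iff _ _ _).1 h3
        exact (Nat.modEq_iff_dvd' (by omega)).1 h4.symm
      have h5 := hH (m - k0) (by omega) h2
      have h6 := hadd _ _ _ _ h5 hk0'
      have e1 : m - k0 + k0 = m := by omega
      rw [e1, zero_add] at h6
      exact h6
    · refine ⟨0, ?_⟩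
      intro k hk hk'
      exact absurd ⟨k, hk, hk'⟩ hex
  choose M hM using hrep
  set N0 : ℕ := ∑ r, ∑ y, M r y with hN0
  have hMle : ∀ r y, M r y ≤ N0 := by
    intro r y
    calc M r y ≤ ∑ y, M r y := Finset.single_le_sum (f := fun y => M r y) (fun _ _ => Nat.zero_le _) (Finset.mem_univ y)
      _ ≤ N0 := Finset.single_le_sum (f := fun r => ∑ y, M r y) (fun _ _ => Nat.zero_le _) (Finset.mem_univ r)
  have hrep2 : ∀ (k : ℕ) (y : ZMod d), 0 < u k y → ∀ m, N0 ≤ m → (m : ZMod g) = (k : ZMod g) → 0 < u m y := by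
    intro k y hk m hm hmk
    exact hM (k : ZMod g) y k rfl hk m ((hMle _ _).trans hm) hmk
  obtain ⟨c1, hc1, hc1'⟩ := brC4a_min ((Finset.range K) ×ˢ (Finset.univ : Finset (ZMod d)))
    (fun p => u (N0 + p.1) p.2)
  refine ⟨g, c0 * c1, N0 + 2 * K, hgpos, mul_pos hc0pos hc1, ?_⟩
  intro n hn0 hgn
  obtain ⟨i, hi, x, hx⟩ := hpig (n - N0) (by omega)
  set k : ℕ := n - N0 - i with hk
  have hkx : 0 < u k x := lt_of_lt_of_le hc0pos hx
  have hkn : k + (N0 + i) = n := by omega
  -- `(d-1)`-th multiple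
  have h2 : 0 < u ((d - 1) * k) (-x) := by
    have h3 := hmul (d - 1) k x hkx
    have e : (((d - 1 : ℕ)) : ZMod d) * x = -x := by
      rw [Nat.cast_sub (by omega)]
      simp
    rwa [e] at h3
  have h4 : ((N0 + i : ℕ) : ZMod g) = (((d - 1) * k : ℕ) : ZMod g) := by
    have h5 : ((d * k : ℕ) : ZMod g) = 0 := (ZMod.natCast_eq_zero_iff _ _).2 (hgdvd _ (hdk _ _ hkx))
    have h6 : ((n : ℕ) : ZMod g) = 0 := (ZMod.natCast_eq_zero_iff _ _).2 hgn
    have h7 : ((k : ℕ) : ZMod g) + ((N0 + i : ℕ) : ZMod g) = 0 := by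
      rw [← Nat.cast_add, hkn, h6]
    have h8 : (((d - 1) * k : ℕ) : ZMod g) + (k : ZMod g) = 0 := by
      rw [← Nat.cast_add, ← h5]
      congr 1
      have : (d - 1) * k + k = (d - 1 + 1) * k := by ring
      rw [this]
      congr 1
      omega
    have h9 : ((N0 + i : ℕ) : ZMod g) = -(k : ZMod g) := by
      rw [eq_neg_iff_add_eq_zero, add_comm]; exact h7
    have h10 : (((d - 1) * k : ℕ) : ZMod g) = -(k : ZMod g) := by
      rw [eq_neg_iff_add_eq_zero]; exact h8
    rw [h9, h10]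
  have h11 : 0 < u (N0 + i) (-x) := hrep2 _ _ h2 (N0 + i) (by omega) h4
  have h12 : c1 ≤ u (N0 + i) (-x) :=
    hc1' (i, -x) (by simp [hi]) h11
  have h13 := hs k (N0 + i) x (-x)
  rw [hkn, add_neg_cancel] at h13
  refine le_trans ?_ h13
  exact mul_le_mul hx h12 hc1.le (hn _ _)

end Pool.Agent.SandBr
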