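import Pool.Agent.SandFin.BrC0b
import Pool.Agent.SandFin.BrC4a

set_option autoImplicit false

namespace Pool.Agent.SandBr

/-- `rs` as a linear map -/
noncomputable def brC4b_L (d : ℕ) (x : ZMod d) : Polynomial ℝ →ₗ[ℝ] ℝ :=
  Polynomial.lsum (fun E => if (E : ZMod d) = x then LinearMap.id else 0)

theorem brC4b_rs (d : ℕ) (x : ZMod d) (P : Polynomial ℝ) : rs d x P = brC4b_L d x P := by
  unfold rs brC4b_L
  rw [Polynomial.lsum_apply]
  congr 1
  funext E c
  split_ifs <;> simp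

theorem brC4b_monomial (d : ℕ) (x : ZMod d) (E : ℕ) (c : ℝ) :
    brC4b_L d x (Polynomial.monomial E c) = if (E : ZMod d) = x then c else 0 := by
  unfold brC4b_L
  rw [Polynomial.lsum_apply, Polynomial.sum_monomial_index]
  · split_ifs <;> simp
  · simp

theorem brC4b_nonneg (d : ℕ) (x : ZMod d) (P : Polynomial ℝ) (hP : ∀ e, 0 ≤ P.coeff e) :
    0 ≤ rs d x P := by
  unfold rs
  rw [Polynomial.sum_def]
  refine Finset.sum_nonneg fun E _ => ?_
  split_ifs
  · exact hP E
  · exact le_rfl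

theorem brC4b_mono (d : ℕ) (x : ZMod d) (P Q : Polynomial ℝ) (h : ∀ e, P.coeff e ≤ Q.coeff e) :
    rs d x P ≤ rs d x Q := by
  have h1 := brC4b_nonneg d x (Q - P) (fun e => by
    rw [Polynomial.coeff_sub]; exact sub_nonneg.2 (h e))
  rw [brC4b_rs, map_sub] at h1
  rw [brC4b_rs, brC4b_rs]
  linarith

theorem brC4b_mul (d : ℕ) (x y : ZMod d) (P Q : Polynomial ℝ) (hP : ∀ e, 0 ≤ P.coeff e)
    (hQ : ∀ e, 0 ≤ Q.coeff e) : rs d x P * rs d y Q ≤ rs d (x + y) (P * Q) := by
  rw [brC4b_rs d (x + y), Polynomial.mul_eq_sum_sum, map_sum]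
  unfold rs
  rw [Polynomial.sum_def, Polynomial.sum_def, Finset.sum_mul]
  refine Finset.sum_le_sum fun i _ => ?_
  rw [Polynomial.sum_def, map_sum, Finset.mul_sum]
  refine Finset.sum_le_sum fun j _ => ?_
  rw [brC4b_monomial]
  by_cases h1 : (i : ZMod d) = x
  · by_cases h2 : (j : ZMod d) = y
    · rw [if_pos h1, if_pos h2, if_pos (by push_cast; rw [h1, h2])]
    · rw [if_neg h2, mul_zero]
      split_ifs
      · exact mul_nonneg (hP _) (hQ _)
      · exact le_rfl
  · rw [if_neg h1, zero_mul]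
    split_ifs
    · exact mul_nonneg (hP _) (hQ _)
    · exact le_rfl

theorem brC4b_sum (d : ℕ) [NeZero d] (P : Polynomial ℝ) : ∑ x, rs d x P = P.eval 1 := by
  unfold rs
  simp only [Polynomial.sum_def]
  rw [Finset.sum_comm, Polynomial.eval_eq_sum, Polynomial.sum_def]
  refine Finset.sum_congr rfl fun E _ => ?_
  simp

theorem brC4b_sum' (d : ℕ) [NeZero d] (n : ZMod d) (P : Polynomial ℝ) :
    ∑ x, rs d (x + n) P = P.eval 1 := by
  rw [← brC4b_sum d P]
  exact Equiv.sum_comp (Equiv.addRight n) (fun x => rs d x P)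

/-- T-C4b -/
theorem walk_res (f : PP) (b : ℕ) (ρ : ℝ) (hf : Wlk f b ρ) (d : ℕ) (hd : 1 ≤ d) :
    ∃ (g : ℕ) (c : ℝ) (n₀ : ℕ), 1 ≤ g ∧ 0 < c ∧ ∀ n : ℕ, n₀ ≤ n → g ∣ n →
      c ≤ rs d (n : ZMod d) (PowerSeries.coeff n (gr f)) := by
  have : NeZero d := ⟨by omega⟩
  have hev0 : PowerSeries.coeff 0 (ev f) = 0 := by rw [ev_coeff, hf.zero]; simp
  have hevn : ∀ n, 0 ≤ PowerSeries.coeff n (ev f) := by
    intro n
    rw [ev_coeff, Polynomial.eval_eq_sum, Polynomial.sum_def]
    exact Finset.sum_nonneg fun e _ => by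
      have := hf.nonneg n e
      simpa using this
  have hevs : HasSum (fun n : ℕ => PowerSeries.coeff n (ev f)) 1 := by
    simp only [ev_coeff]
    exact hf.mass
  have hρ : 0 < ρ - 1 := by linarith [hf.one_lt]
  have hevm : Summable (fun n : ℕ => (n : ℝ) * PowerSeries.coeff n (ev f)) := by
    refine Summable.of_nonneg_of_le (fun n => mul_nonneg (Nat.cast_nonneg _) (hevn n)) ?_
      (hf.expm.mul_left (1 / (ρ - 1)))
    intro n
    have h1 : 1 + (n : ℝ) * (ρ - 1) ≤ (1 + (ρ - 1)) ^ n :=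
      one_add_mul_le_pow (by linarith) n
    have h2 : (1 + (ρ - 1)) ^ n = ρ ^ n := by congr 1; ring
    rw [h2] at h1
    have h3 : (n : ℝ) ≤ 1 / (ρ - 1) * ρ ^ n := by
      rw [div_mul_eq_mul_div, le_div_iff₀ hρ]
      linarith
    rw [ev_coeff]
    have h4 : 0 ≤ (PowerSeries.coeff n f).eval 1 := by
      have := hevn n
      rwa [ev_coeff] at this
    calc (n : ℝ) * (PowerSeries.coeff n f).eval 1
        ≤ (1 / (ρ - 1) * ρ ^ n) * (PowerSeries.coeff n f).eval 1 :=
          mul_le_mul_of_nonneg_right h3 h4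
      _ = 1 / (ρ - 1) * ((PowerSeries.coeff n f).eval 1 * ρ ^ n) := by ring
  obtain ⟨K, hK⟩ := ren_window (ev f) hev0 hevn hevs hevm
  have hG := hf.nonneg.gr hf.zero
  obtain ⟨g, c, n₀, hg, hc, h⟩ := res_pos d
    (fun n x => rs d (x + (n : ZMod d)) (PowerSeries.coeff n (gr f)))
    (fun n x => brC4b_nonneg d _ _ (hG n)) (by
      rw [gr_coeff_zero f hf.zero, brC4b_rs, ← Polynomial.C_1, ← Polynomial.monomial_zero_left,
        brC4b_monomial]
      simp) (by
      intro n m x y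
      refine (brC4b_mul d _ _ _ _ (hG n) (hG m)).trans ?_
      have e : x + (n : ZMod d) + (y + (m : ZMod d)) = x + y + ((n + m : ℕ) : ZMod d) := by
        push_cast; ring
      rw [e]
      exact brC4b_mono d _ _ _ (gr_super hf.nonneg hf.zero n m)) K (by
      intro n hn
      refine (hK n hn).trans (le_of_eq ?_)
      refine Finset.sum_congr rfl fun i _ => ?_
      rw [brC4b_sum', ← ev_gr f hf.zero, ev_coeff])
  refine ⟨g, c, n₀, hg, hc, ?_⟩
  intro n hn hgn
  have := h n hn hgn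
  simpa using this

end Pool.Agent.SandBr
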