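import Pool.Agent.SandFin.BrC0b

set_option autoImplicit false

namespace Pool.Agent.SandBr

theorem brC5a_ps_mul (F G : PowerSeries ℝ) (hF : ∀ n, 0 ≤ PowerSeries.coeff n F)
    (hG : ∀ n, 0 ≤ PowerSeries.coeff n G) (r : ℝ) (hr : 0 ≤ r) (N : ℕ) :
    ∑ m ∈ Finset.range (N + 1), PowerSeries.coeff m (F * G) * r ^ m ≤
      (∑ m ∈ Finset.range (N + 1), PowerSeries.coeff m F * r ^ m) *
      (∑ m ∈ Finset.range (N + 1), PowerSeries.coeff m G * r ^ m) := by
  classical
  have h1 : ∀ m ∈ Finset.range (N + 1), PowerSeries.coeff m (F * G) * r ^ m =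
      ∑ p ∈ (Finset.range (N + 1) ×ˢ Finset.range (N + 1)).filter (fun p => p.1 + p.2 = m),
        (PowerSeries.coeff p.1 F * r ^ p.1) * (PowerSeries.coeff p.2 G * r ^ p.2) := by
    intro m hm
    rw [Finset.mem_range] at hm
    rw [PowerSeries.coeff_mul, Finset.sum_mul]
    have hset : Finset.HasAntidiagonal.antidiagonal m =
        (Finset.range (N + 1) ×ˢ Finset.range (N + 1)).filter (fun p => p.1 + p.2 = m) := by
      ext ⟨i, j⟩
      simp only [Finset.HasAntidiagonal.mem_antidiagonal, Finset.mem_filter, Finset.mem_product, Finset.mem_range]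
      constructor
      · intro h
        exact ⟨⟨by omega, by omega⟩, h⟩
      · intro h
        exact h.2
    rw [← hset]
    apply Finset.sum_congr rfl
    rintro ⟨i, j⟩ hij
    rw [Finset.HasAntidiagonal.mem_antidiagonal] at hij
    simp only at hij ⊢
    rw [← hij, pow_add]
    ring
  rw [Finset.sum_congr rfl h1, Finset.sum_mul_sum, ← Finset.sum_product']
  set S := Finset.range (N + 1) ×ˢ Finset.range (N + 1) with hS
  set f : ℕ × ℕ → ℝ := fun p =>
    (PowerSeries.coeff p.1 F * r ^ p.1) * (PowerSeries.coeff p.2 G * r ^ p.2) with hf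
  have hf0 : ∀ p, 0 ≤ f p := fun p =>
    mul_nonneg (mul_nonneg (hF _) (pow_nonneg hr _)) (mul_nonneg (hG _) (pow_nonneg hr _))
  have h2 : ∑ m ∈ Finset.range (N + 1), ∑ p ∈ S.filter (fun p => p.1 + p.2 = m), f p =
      ∑ p ∈ S.filter (fun p => p.1 + p.2 ∈ Finset.range (N + 1)), f p := by
    rw [← Finset.sum_fiberwise_of_maps_to (s := S.filter (fun p => p.1 + p.2 ∈ Finset.range (N + 1)))
      (t := Finset.range (N + 1)) (g := fun p => p.1 + p.2)
      (fun p hp => (Finset.mem_filter.1 hp).2)]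
    apply Finset.sum_congr rfl
    intro m hm
    apply Finset.sum_congr _ (fun _ _ => rfl)
    ext p
    simp only [Finset.mem_filter]
    constructor
    · rintro ⟨h, h'⟩
      exact ⟨⟨h, by rw [h']; exact hm⟩, h'⟩
    · rintro ⟨⟨h, _⟩, h'⟩
      exact ⟨h, h'⟩
  rw [h2]
  exact Finset.sum_le_sum_of_subset_of_nonneg (Finset.filter_subset _ _) (fun p _ _ => hf0 p)

theorem brC5a_nn_mul (F G : PowerSeries ℝ) (hF : ∀ n, 0 ≤ PowerSeries.coeff n F)
    (hG : ∀ n, 0 ≤ PowerSeries.coeff n G) (n : ℕ) : 0 ≤ PowerSeries.coeff n (F * G) := by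
  rw [PowerSeries.coeff_mul]
  exact Finset.sum_nonneg (fun p _ => mul_nonneg (hF _) (hG _))

theorem brC5a_nn_pow (F : PowerSeries ℝ) (hF : ∀ n, 0 ≤ PowerSeries.coeff n F) (k n : ℕ) :
    0 ≤ PowerSeries.coeff n (F ^ k) := by
  induction k generalizing n with
  | zero =>
    rw [pow_zero, PowerSeries.coeff_one]
    split_ifs <;> norm_num
  | succ k ih =>
    rw [pow_succ]
    exact brC5a_nn_mul _ _ ih hF n

theorem brC5a_ps_one (r : ℝ) (N : ℕ) :
    ∑ m ∈ Finset.range (N + 1), PowerSeries.coeff m (1 : PowerSeries ℝ) * r ^ m = 1 := by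
  rw [Finset.sum_eq_single 0]
  · simp
  · intro b _ hb
    rw [PowerSeries.coeff_one, if_neg hb, zero_mul]
  · intro h
    exact absurd (Finset.mem_range.2 (Nat.succ_pos N)) h

theorem brC5a_ps_pow (F : PowerSeries ℝ) (hF : ∀ n, 0 ≤ PowerSeries.coeff n F) (r A : ℝ)
    (hr : 0 ≤ r) (hA : 0 ≤ A) (N : ℕ)
    (h : ∑ m ∈ Finset.range (N + 1), PowerSeries.coeff m F * r ^ m ≤ A) (k : ℕ) :
    ∑ m ∈ Finset.range (N + 1), PowerSeries.coeff m (F ^ k) * r ^ m ≤ A ^ k := by
  induction k with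
  | zero => rw [pow_zero, pow_zero, brC5a_ps_one]
  | succ k ih =>
    rw [pow_succ, pow_succ]
    refine (brC5a_ps_mul (F ^ k) F (brC5a_nn_pow F hF k) hF r hr N).trans ?_
    exact mul_le_mul ih h (Finset.sum_nonneg fun m _ => mul_nonneg (hF m) (pow_nonneg hr m))
      (pow_nonneg hA k)

theorem brC5a_gr_nn (q : PowerSeries ℝ) (hn : ∀ n, 0 ≤ PowerSeries.coeff n q)
    (h0 : PowerSeries.coeff 0 q = 0) (n : ℕ) : 0 ≤ PowerSeries.coeff n (gr q) := by
  induction n using Nat.strong_induction_on with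
  | _ n ih =>
    rcases Nat.eq_zero_or_pos n with h | h
    · rw [h, gr_coeff_zero q h0]
      norm_num
    · rw [gr_coeff q h0 n h]
      apply Finset.sum_nonneg
      intro w hw
      rcases Nat.eq_zero_or_pos w with hw0 | hw0
      · rw [hw0, h0, zero_mul]
      · exact mul_nonneg (hn w) (ih (n - w) (by omega))

theorem brC5a_gr_ps (q : PowerSeries ℝ) (hn : ∀ n, 0 ≤ PowerSeries.coeff n q)
    (h0 : PowerSeries.coeff 0 q = 0) (r Q : ℝ) (hr : 0 ≤ r) (hQ : Q < 1) (N : ℕ)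
    (h : ∑ m ∈ Finset.range (N + 1), PowerSeries.coeff m q * r ^ m ≤ Q) :
    ∑ m ∈ Finset.range (N + 1), PowerSeries.coeff m (gr q) * r ^ m ≤ 1 / (1 - Q) := by
  have hg : gr q = 1 + q * gr q := by
    have := gr_mul q h0
    linear_combination this
  set S := ∑ m ∈ Finset.range (N + 1), PowerSeries.coeff m (gr q) * r ^ m with hS
  have hS0 : 0 ≤ S := Finset.sum_nonneg fun m _ =>
    mul_nonneg (brC5a_gr_nn q hn h0 m) (pow_nonneg hr m)
  have h1 : S = 1 + ∑ m ∈ Finset.range (N + 1), PowerSeries.coeff m (q * gr q) * r ^ m := by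
    rw [hS]
    conv_lhs => rw [hg]
    simp only [map_add, add_mul, Finset.sum_add_distrib]
    rw [brC5a_ps_one]
  have h2 := brC5a_ps_mul q (gr q) hn (brC5a_gr_nn q hn h0) r hr N
  rw [← hS] at h2
  have h3 : S ≤ 1 + Q * S := by
    rw [h1]
    have := mul_le_mul_of_nonneg_right h hS0
    rw [← h1]
    linarith
  rw [le_div_iff₀ (by linarith)]
  nlinarith

/-- choice of the radius -/
theorem brC5a_radius (q : PowerSeries ℝ) (hn : ∀ n, 0 ≤ PowerSeries.coeff n q)
    (ε : ℝ) (hε : 0 < ε) (hs : HasSum (fun n : ℕ => PowerSeries.coeff n q) (1 - 2 * ε)) (ρ : ℝ) (hρ : 1 < ρ)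
    (he : Summable (fun n : ℕ => PowerSeries.coeff n q * ρ ^ n)) (L : ℕ) :
    ∃ r : ℝ, 1 < r ∧ ∀ N : ℕ,
      ∑ m ∈ Finset.range (N + 1), PowerSeries.coeff m q * r ^ m ≤ 1 - ε * r ^ L := by
  set M := ∑' n : ℕ, PowerSeries.coeff n q * ρ ^ n with hM
  have hM0 : 0 ≤ M := tsum_nonneg fun n => mul_nonneg (hn n) (pow_nonneg (by linarith) n)
  have hρL : 0 < ρ ^ L := pow_pos (by linarith) L
  set B := M + ε * ρ ^ L with hB
  have hB0 : 0 < B := by positivity
  set θ := ε / (B + ε) with hθ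
  have hθ0 : 0 < θ := by positivity
  have hθ1 : θ ≤ 1 := by
    rw [hθ, div_le_one (by linarith)]
    linarith
  have hθB : θ * B ≤ ε := by
    rw [hθ, div_mul_eq_mul_div, div_le_iff₀ (by linarith)]
    nlinarith
  have hpow : ∀ m : ℕ, (1 + θ * (ρ - 1)) ^ m ≤ (1 - θ) + θ * ρ ^ m := by
    intro m
    have m1 : (1 : ℝ) ∈ Set.Ici (0 : ℝ) := Set.mem_Ici.2 (by norm_num)
    have m2 : ρ ∈ Set.Ici (0 : ℝ) := Set.mem_Ici.2 (by linarith)
    have hc := (convexOn_pow (𝕜 := ℝ) m).2 m1 m2 (by linarith : (0 : ℝ) ≤ 1 - θ) hθ0.le (by ring)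
    simp only [smul_eq_mul, one_pow, mul_one] at hc
    have : 1 - θ + θ * ρ = 1 + θ * (ρ - 1) := by ring
    rw [this] at hc
    exact hc
  refine ⟨1 + θ * (ρ - 1), by nlinarith, ?_⟩
  intro N
  have h1 : ∑ m ∈ Finset.range (N + 1), PowerSeries.coeff m q * (1 + θ * (ρ - 1)) ^ m ≤
      (1 - θ) * (1 - 2 * ε) + θ * M := by
    calc ∑ m ∈ Finset.range (N + 1), PowerSeries.coeff m q * (1 + θ * (ρ - 1)) ^ m
        ≤ ∑ m ∈ Finset.range (N + 1), ((1 - θ) * PowerSeries.coeff m q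
            + θ * (PowerSeries.coeff m q * ρ ^ m)) := by
          apply Finset.sum_le_sum
          intro m _
          have := mul_le_mul_of_nonneg_left (hpow m) (hn m)
          linarith
      _ = (1 - θ) * ∑ m ∈ Finset.range (N + 1), PowerSeries.coeff m q
            + θ * ∑ m ∈ Finset.range (N + 1), PowerSeries.coeff m q * ρ ^ m := by
          rw [Finset.sum_add_distrib, Finset.mul_sum, Finset.mul_sum]
      _ ≤ (1 - θ) * (1 - 2 * ε) + θ * M := by
          have ha : ∑ m ∈ Finset.range (N + 1), PowerSeries.coeff m q ≤ 1 - 2 * ε :=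
            sum_le_hasSum _ (fun m _ => hn m) hs
          have hb : ∑ m ∈ Finset.range (N + 1), PowerSeries.coeff m q * ρ ^ m ≤ M :=
            he.sum_le_tsum _ (fun m _ => mul_nonneg (hn m) (pow_nonneg (by linarith) m))
          have hc := mul_le_mul_of_nonneg_left ha (by linarith : 0 ≤ 1 - θ)
          have hd := mul_le_mul_of_nonneg_left hb hθ0.le
          linarith
  have h2 := mul_le_mul_of_nonneg_left (hpow L) hε.le
  have hq0 : 0 ≤ 1 - 2 * ε := hs.nonneg hn
  nlinarith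

/-- T-C5a (independent): few coins are exponentially unlikely -/
theorem few_coins (q : PowerSeries ℝ) (hn : ∀ n, 0 ≤ PowerSeries.coeff n q) (h0 : PowerSeries.coeff 0 q = 0)
    (ε : ℝ) (hε : 0 < ε) (hs : HasSum (fun n : ℕ => PowerSeries.coeff n q) (1 - 2 * ε)) (ρ : ℝ) (hρ : 1 < ρ)
    (he : Summable (fun n : ℕ => PowerSeries.coeff n q * ρ ^ n)) (L : ℕ) (hL : 1 ≤ L) :
    ∃ δ C r : ℝ, 0 < δ ∧ 0 < C ∧ 1 < r ∧ ∀ n : ℕ,
      ∑ j ∈ (Finset.range (n + 1)).filter (fun j : ℕ => (j : ℝ) < δ * n),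
        (if j * L ≤ n then (2 * ε) ^ j * PowerSeries.coeff (n - j * L) ((gr q) ^ (j + 1)) else 0)
        ≤ C / r ^ n := by
  obtain ⟨r1, hr1, hN⟩ := brC5a_radius q hn ε hε hs ρ hρ he L
  have hr0 : 0 < r1 := by linarith
  have hεL : 0 < ε * r1 ^ L := by positivity
  set A := 1 / (ε * r1 ^ L) with hA
  have hA0 : 0 < A := by positivity
  have hps : ∀ N : ℕ, ∑ m ∈ Finset.range (N + 1), PowerSeries.coeff m (gr q) * r1 ^ m ≤ A := by
    intro N
    have := brC5a_gr_ps q hn h0 r1 (1 - ε * r1 ^ L) hr0.le (by linarith) N (hN N)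
    rw [sub_sub_cancel] at this
    exact this
  have hcoef : ∀ k m : ℕ, PowerSeries.coeff m ((gr q) ^ k) * r1 ^ m ≤ A ^ k := by
    intro k m
    refine le_trans ?_ (brC5a_ps_pow (gr q) (brC5a_gr_nn q hn h0) r1 A hr0.le hA0.le m (hps m) k)
    exact Finset.single_le_sum
      (f := fun m => PowerSeries.coeff m ((gr q) ^ k) * r1 ^ m)
      (fun i _ => mul_nonneg (brC5a_nn_pow _ (brC5a_gr_nn q hn h0) k i) (pow_nonneg hr0.le i))
      (Finset.mem_range.2 (Nat.lt_succ_self m))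
  set s : ℝ := r1 ^ ((4 : ℕ) : ℝ)⁻¹ with hs4
  have hs1 : 1 < s := Real.one_lt_rpow hr1 (by norm_num)
  have hs0 : 0 < s := by linarith
  have hspow : s ^ 4 = r1 := Real.rpow_inv_natCast_pow hr0.le (by norm_num)
  set δ := Real.log s / Real.log 2 with hδ
  have hlog2 : 0 < Real.log 2 := Real.log_pos (by norm_num)
  have hδ0 : 0 < δ := div_pos (Real.log_pos hs1) hlog2
  have h2j : ∀ (j n : ℕ), (j : ℝ) < δ * n → (2 : ℝ) ^ j ≤ s ^ n := by
    intro j n hj
    have h1 : Real.log ((2 : ℝ) ^ j) ≤ Real.log (s ^ n) := by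
      rw [Real.log_pow, Real.log_pow]
      have : (j : ℝ) * Real.log 2 ≤ δ * n * Real.log 2 :=
        mul_le_mul_of_nonneg_right hj.le hlog2.le
      calc (j : ℝ) * Real.log 2 ≤ δ * n * Real.log 2 := this
        _ = n * Real.log s := by
          rw [hδ]
          field_simp
    exact (Real.log_le_log_iff (by positivity) (by positivity)).1 h1
  have hbern : ∀ n : ℕ, ((n : ℝ) + 1) ≤ (1 + 1 / (s - 1)) * s ^ n := by
    intro n
    have h1 := one_add_mul_le_pow (by linarith : (-2 : ℝ) ≤ s - 1) n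
    rw [add_sub_cancel] at h1
    have h2 : 0 < s - 1 := by linarith
    have h3 : (1 : ℝ) ≤ s ^ n := one_le_pow₀ hs1.le
    have h4 : (n : ℝ) ≤ 1 / (s - 1) * s ^ n := by
      rw [div_mul_eq_mul_div, le_div_iff₀ h2, one_mul]
      linarith
    linarith
  refine ⟨δ, (1 + 1 / (s - 1)) * A, s ^ 2, hδ0, ?_, one_lt_pow₀ hs1 (by norm_num), ?_⟩
  · have : 0 < s - 1 := by linarith
    positivity
  intro n
  have hterm : ∀ j ∈ (Finset.range (n + 1)).filter (fun j : ℕ => (j : ℝ) < δ * n),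
      (if j * L ≤ n then (2 * ε) ^ j * PowerSeries.coeff (n - j * L) ((gr q) ^ (j + 1)) else 0)
        ≤ s ^ n * A / r1 ^ n := by
    intro j hj
    rw [Finset.mem_filter] at hj
    split_ifs with hjL
    · have h1 := hcoef (j + 1) (n - j * L)
      have h2 : PowerSeries.coeff (n - j * L) ((gr q) ^ (j + 1)) ≤ A ^ (j + 1) / r1 ^ (n - j * L) := by
        rw [le_div_iff₀ (pow_pos hr0 _)]
        exact h1
      have h3 : r1 ^ n = r1 ^ (n - j * L) * r1 ^ (j * L) := by
        rw [← pow_add]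
        congr 1
        omega
      calc (2 * ε) ^ j * PowerSeries.coeff (n - j * L) ((gr q) ^ (j + 1))
          ≤ (2 * ε) ^ j * (A ^ (j + 1) / r1 ^ (n - j * L)) :=
            mul_le_mul_of_nonneg_left h2 (by positivity)
        _ = 2 ^ j * A / r1 ^ n := by
            rw [h3, hA]
            have e1 : r1 ^ (j * L) = (r1 ^ L) ^ j := by rw [mul_comm, pow_mul]
            rw [e1, mul_pow, pow_succ, div_pow, mul_pow]
            have : r1 ^ L ≠ 0 := (pow_pos hr0 L).ne'
            have : r1 ^ (n - j * L) ≠ 0 := (pow_pos hr0 _).ne'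
            field_simp
            rw [one_pow]
        _ ≤ s ^ n * A / r1 ^ n := by
            apply div_le_div_of_nonneg_right _ (pow_pos hr0 n).le
            exact mul_le_mul_of_nonneg_right (h2j j n hj.2) hA0.le
    · positivity
  calc ∑ j ∈ (Finset.range (n + 1)).filter (fun j : ℕ => (j : ℝ) < δ * n),
        (if j * L ≤ n then (2 * ε) ^ j * PowerSeries.coeff (n - j * L) ((gr q) ^ (j + 1)) else 0)
      ≤ ∑ j ∈ (Finset.range (n + 1)).filter (fun j : ℕ => (j : ℝ) < δ * n), s ^ n * A / r1 ^ n :=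
        Finset.sum_le_sum hterm
    _ = ((Finset.range (n + 1)).filter (fun j : ℕ => (j : ℝ) < δ * n)).card * (s ^ n * A / r1 ^ n) := by
        rw [Finset.sum_const, nsmul_eq_mul]
    _ ≤ ((n : ℝ) + 1) * (s ^ n * A / r1 ^ n) := by
        apply mul_le_mul_of_nonneg_right _ (by positivity)
        have := Finset.card_filter_le (Finset.range (n + 1)) (fun j : ℕ => (j : ℝ) < δ * n)
        rw [Finset.card_range] at this
        exact_mod_cast this
    _ ≤ ((1 + 1 / (s - 1)) * s ^ n) * (s ^ n * A / r1 ^ n) :=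
        mul_le_mul_of_nonneg_right (hbern n) (by positivity)
    _ = (1 + 1 / (s - 1)) * A / (s ^ 2) ^ n := by
        have h2 : s - 1 ≠ 0 := by linarith
        rw [← hspow, ← pow_mul, ← pow_mul]
        have e2 : s ^ (4 * n) = s ^ n * s ^ n * s ^ (2 * n) := by
          rw [← pow_add, ← pow_add]
          congr 1
          ring
        rw [e2]
        have : s ^ n ≠ 0 := (pow_pos hs0 n).ne'
        have : s ^ (2 * n) ≠ 0 := (pow_pos hs0 _).ne'
        field_simp

end Pool.Agent.SandBr
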