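import Pool.Agent.SandFin.BrC0a
import Pool.Agent.SandFin.BrC2b

set_option autoImplicit false

namespace Pool.Agent.SandBr

/-- weights of the coin decomposition -/
noncomputable def cw (q : PP) (ε : ℝ) (L e n j : ℕ) : Polynomial ℝ :=
  if j * L ≤ n then
    Polynomial.C ((2 * ε) ^ j) * Polynomial.X ^ (j * e) * PowerSeries.coeff (n - j * L) ((gr q) ^ (j + 1))
  else 0

theorem brC5b_monomial (L : ℕ) (a : Polynomial ℝ) :
    PowerSeries.monomial L a = PowerSeries.X ^ L * PowerSeries.C a := by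
  ext1 n
  rw [PowerSeries.coeff_monomial, PowerSeries.coeff_X_pow_mul', PowerSeries.coeff_C]
  by_cases h : n = L
  · rw [if_pos h, if_pos (by omega), if_pos (by omega)]
  · rw [if_neg h]
    by_cases h2 : L ≤ n
    · rw [if_pos h2, if_neg (by omega)]
    · rw [if_neg h2]

theorem brC5b_coeff (L j n : ℕ) (a : Polynomial ℝ) (W : PP) :
    PowerSeries.coeff n ((PowerSeries.monomial L a) ^ j * W) =
      if j * L ≤ n then a ^ j * PowerSeries.coeff (n - j * L) W else 0 := by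
  rw [brC5b_monomial, mul_pow, ← map_pow, ← pow_mul, mul_assoc, PowerSeries.coeff_X_pow_mul',
    mul_comm L j]
  split_ifs with h
  · rw [PowerSeries.coeff_C_mul]
  · rfl

/-- T-C5b -/
theorem coin_decomp (f q : PP) (ε : ℝ) (L e d : ℕ) (h : Coin f q ε L e d) (h0 : PowerSeries.coeff 0 f = 0)
    (n : ℕ) : PowerSeries.coeff n (gr f) = mixt d n (cw q ε L e n) := by
  set a : Polynomial ℝ := Polynomial.C ε * Polynomial.X ^ e * (1 + Polynomial.X ^ d) with ha
  set c : PP := PowerSeries.monomial L a with hc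
  have hL := h.hL
  have hf : f = c + q := h.eq
  have hc0 : PowerSeries.coeff 0 c = 0 := by
    rw [hc, PowerSeries.coeff_monomial, if_neg (by omega)]
  have hq0 : PowerSeries.coeff 0 q = 0 := by
    rw [hf, map_add, hc0, zero_add] at h0
    exact h0
  have hV := gr_mul q hq0
  have hG := gr_mul f h0
  set V := gr q with hVdef
  set G := gr f with hGdef
  have hS : (1 - f) * (∑ j ∈ Finset.range (n + 1), c ^ j * V ^ (j + 1)) = 1 - (c * V) ^ (n + 1) := by
    have key : ∀ j : ℕ, (1 - f) * (c ^ j * V ^ (j + 1)) = (c * V) ^ j - (c * V) ^ (j + 1) := by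
      intro j
      have e1 : (1 - f) * (c ^ j * V ^ (j + 1)) = ((1 - q) * V) * (c * V) ^ j - (c * V) ^ (j + 1) := by
        rw [hf]
        ring
      rw [e1, hV, one_mul]
    rw [Finset.mul_sum, Finset.sum_congr rfl (fun j _ => key j), Finset.sum_range_sub']
    rw [pow_zero]
  have hS2 : (∑ j ∈ Finset.range (n + 1), c ^ j * V ^ (j + 1)) = G - G * (c * V) ^ (n + 1) := by
    have : G * ((1 - f) * (∑ j ∈ Finset.range (n + 1), c ^ j * V ^ (j + 1))) =
        ∑ j ∈ Finset.range (n + 1), c ^ j * V ^ (j + 1) := by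
      rw [← mul_assoc, mul_comm G, hG, one_mul]
    rw [← this, hS]
    ring
  have hzero : PowerSeries.coeff n (G * (c * V) ^ (n + 1)) = 0 := by
    have e1 : G * (c * V) ^ (n + 1) = c ^ (n + 1) * (V ^ (n + 1) * G) := by ring
    rw [e1, hc, brC5b_coeff, if_neg]
    intro hle
    have : (n + 1) * 1 ≤ (n + 1) * L := Nat.mul_le_mul_left _ hL
    omega
  have hcoef : PowerSeries.coeff n (∑ j ∈ Finset.range (n + 1), c ^ j * V ^ (j + 1)) =
      PowerSeries.coeff n G := by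
    rw [hS2, map_sub, hzero, sub_zero]
  rw [← hcoef, map_sum, mixt]
  apply Finset.sum_congr rfl
  intro j _
  rw [hc, brC5b_coeff, cw]
  split_ifs with hj
  · rw [ha]
    have e2 : (Polynomial.C ε : Polynomial ℝ) = Polynomial.C (1 / 2 : ℝ) * Polynomial.C (2 * ε) := by
      rw [← Polynomial.C_mul]
      congr 1
      ring
    rw [e2, Polynomial.C_pow]
    simp only [mul_pow, pow_mul']
    ring
  · rw [mul_zero]

/-- convolution with exponentially small tails preserves power decay -/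
theorem conv_decay (x : ℕ → ℝ) (hx : ∀ n, 0 ≤ x n) (ρ : ℝ) (hρ : 1 < ρ)
    (hs : Summable (fun n : ℕ => x n * ρ ^ n)) :
    ∃ C : ℝ, 0 < C ∧ ∀ n : ℕ, ∑ w ∈ Finset.range (n + 1), x w / Real.sqrt ((n - w : ℕ) + 1) ≤
      C / Real.sqrt (n + 1) := by
  have hρ0 : 0 < ρ - 1 := by linarith
  set B := 1 + 1 / (ρ - 1) with hB
  have hB0 : 0 < B := by positivity
  have hbern : ∀ n : ℕ, ((n : ℝ) + 1) ≤ B * ρ ^ n := by
    intro n
    have h1 := one_add_mul_le_pow (by linarith : (-2 : ℝ) ≤ ρ - 1) n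
    rw [add_sub_cancel] at h1
    have h3 : (1 : ℝ) ≤ ρ ^ n := one_le_pow₀ hρ.le
    have h4 : (n : ℝ) ≤ 1 / (ρ - 1) * ρ ^ n := by
      rw [div_mul_eq_mul_div, le_div_iff₀ hρ0, one_mul]
      linarith
    rw [hB]
    linarith
  set M := ∑' n : ℕ, x n * ρ ^ n with hM
  have hM0 : 0 ≤ M := tsum_nonneg fun n => mul_nonneg (hx n) (pow_nonneg (by linarith) n)
  refine ⟨B * M + 1, by positivity, ?_⟩
  intro n
  have hn0 : (0 : ℝ) < (n : ℝ) + 1 := by positivity
  have hsn : 0 < Real.sqrt ((n : ℝ) + 1) := Real.sqrt_pos.2 hn0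
  have hterm : ∀ w ∈ Finset.range (n + 1), x w / Real.sqrt ((n - w : ℕ) + 1) ≤
      B * (x w * ρ ^ w) / Real.sqrt (n + 1) := by
    intro w hw
    have hwn : w ≤ n := Nat.lt_succ_iff.1 (Finset.mem_range.1 hw)
    have hm0 : (0 : ℝ) < ((n - w : ℕ) : ℝ) + 1 := by positivity
    have hsm : 0 < Real.sqrt (((n - w : ℕ) : ℝ) + 1) := Real.sqrt_pos.2 hm0
    have h1 : Real.sqrt ((n : ℝ) + 1) ≤ ((w : ℝ) + 1) * Real.sqrt (((n - w : ℕ) : ℝ) + 1) := by
      have hw1 : (1 : ℝ) ≤ (w : ℝ) + 1 := by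
        have : (0 : ℝ) ≤ (w : ℝ) := Nat.cast_nonneg w
        linarith
      have hprod : (n : ℝ) + 1 ≤ ((w : ℝ) + 1) ^ 2 * (((n - w : ℕ) : ℝ) + 1) := by
        have hcast : ((n - w : ℕ) : ℝ) = (n : ℝ) - w := Nat.cast_sub hwn
        have ha : (n : ℝ) + 1 ≤ ((w : ℝ) + 1) * (((n - w : ℕ) : ℝ) + 1) := by
          have h5 : (0 : ℝ) ≤ ((n - w : ℕ) : ℝ) := Nat.cast_nonneg _
          have h6 : (0 : ℝ) ≤ (w : ℝ) := Nat.cast_nonneg w
          nlinarith
        have hb : ((w : ℝ) + 1) * (((n - w : ℕ) : ℝ) + 1) ≤ ((w : ℝ) + 1) ^ 2 * (((n - w : ℕ) : ℝ) + 1) := by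
          apply mul_le_mul_of_nonneg_right _ hm0.le
          nlinarith
        linarith
      calc Real.sqrt ((n : ℝ) + 1) ≤ Real.sqrt (((w : ℝ) + 1) ^ 2 * (((n - w : ℕ) : ℝ) + 1)) :=
            Real.sqrt_le_sqrt hprod
        _ = ((w : ℝ) + 1) * Real.sqrt (((n - w : ℕ) : ℝ) + 1) := by
            rw [Real.sqrt_mul (by positivity), Real.sqrt_sq (by positivity)]
    rw [div_le_div_iff₀ hsm hsn]
    have h2 := hbern w
    have h3 : x w * Real.sqrt ((n : ℝ) + 1) ≤ x w * (((w : ℝ) + 1) * Real.sqrt (((n - w : ℕ) : ℝ) + 1)) :=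
      mul_le_mul_of_nonneg_left h1 (hx w)
    have h4 : x w * (((w : ℝ) + 1) * Real.sqrt (((n - w : ℕ) : ℝ) + 1)) ≤
        x w * ((B * ρ ^ w) * Real.sqrt (((n - w : ℕ) : ℝ) + 1)) :=
      mul_le_mul_of_nonneg_left (mul_le_mul_of_nonneg_right h2 hsm.le) (hx w)
    calc x w * Real.sqrt ((n : ℝ) + 1) ≤ _ := h3.trans h4
      _ = B * (x w * ρ ^ w) * Real.sqrt (((n - w : ℕ) : ℝ) + 1) := by ring
  calc ∑ w ∈ Finset.range (n + 1), x w / Real.sqrt ((n - w : ℕ) + 1)
      ≤ ∑ w ∈ Finset.range (n + 1), B * (x w * ρ ^ w) / Real.sqrt (n + 1) := Finset.sum_le_sum hterm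
    _ = B * (∑ w ∈ Finset.range (n + 1), x w * ρ ^ w) / Real.sqrt (n + 1) := by
        rw [Finset.mul_sum, Finset.sum_div]
    _ ≤ (B * M + 1) / Real.sqrt (n + 1) := by
        apply div_le_div_of_nonneg_right _ hsn.le
        have hb : ∑ w ∈ Finset.range (n + 1), x w * ρ ^ w ≤ M :=
          hs.sum_le_tsum _ (fun m _ => mul_nonneg (hx m) (pow_nonneg (by linarith) m))
        have := mul_le_mul_of_nonneg_left hb hB0.le
        linarith

end Pool.Agent.SandBr
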