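import Pool.Agent.SandFin.BrC5a
import Pool.Agent.SandFin.BrC5b
import Pool.Agent.SandFin.BrC4b
import Pool.Agent.SandFin.BrC3

set_option autoImplicit false

namespace Pool.Agent.SandBr

theorem brC5c_eval_nonneg (P : Polynomial ℝ) (hP : ∀ e, 0 ≤ P.coeff e) : 0 ≤ P.eval 1 := by
  rw [Polynomial.eval_eq_sum, Polynomial.sum]
  exact Finset.sum_nonneg fun i _ => by simpa using hP i

theorem brC5c_q0 (f q : PP) (b : ℕ) (ρ ε : ℝ) (L e d : ℕ) (hf : Wlk f b ρ) (h : Coin f q ε L e d) :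
    PowerSeries.coeff 0 q = 0 := by
  have h1 := hf.zero
  rw [h.eq, map_add, PowerSeries.coeff_monomial, if_neg (by have := h.hL; omega), zero_add] at h1
  exact h1

theorem brC5c_eval (f q : PP) (ε : ℝ) (L e d : ℕ) (h : Coin f q ε L e d) (n : ℕ) :
    (PowerSeries.coeff n q).eval 1 = (PowerSeries.coeff n f).eval 1 - (if n = L then 2 * ε else 0) := by
  rw [h.eq, map_add, PowerSeries.coeff_monomial, Polynomial.eval_add]
  split_ifs
  · simp
    ring
  · simp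

/-- the input of `few_coins` -/
theorem brC5c_few (f q : PP) (b : ℕ) (ρ ε : ℝ) (L e d : ℕ) (hf : Wlk f b ρ) (h : Coin f q ε L e d) :
    ∃ δ C r : ℝ, 0 < δ ∧ 0 < C ∧ 1 < r ∧ ∀ n : ℕ,
      ∑ j ∈ (Finset.range (n + 1)).filter (fun j : ℕ => (j : ℝ) < δ * n), (cw q ε L e n j).eval 1
        ≤ C / r ^ n := by
  have hq0 := brC5c_q0 f q b ρ ε L e d hf h
  have hqn : ∀ n, 0 ≤ PowerSeries.coeff n (ev q) := fun n => by
    rw [ev_coeff]; exact brC5c_eval_nonneg _ (h.qn n)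
  have hqf : ∀ n, PowerSeries.coeff n (ev q) ≤ (PowerSeries.coeff n f).eval 1 := fun n => by
    rw [ev_coeff, brC5c_eval f q ε L e d h n]
    have := h.eps
    split_ifs <;> linarith
  have hsum : HasSum (fun n : ℕ => PowerSeries.coeff n (ev q)) (1 - 2 * ε) := by
    have h1 := hf.mass.sub (hasSum_ite_eq L (2 * ε))
    have h2 : (fun n : ℕ => PowerSeries.coeff n (ev q)) = fun n : ℕ =>
        (PowerSeries.coeff n f).eval 1 - (if n = L then 2 * ε else 0) := by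
      funext n
      rw [ev_coeff, brC5c_eval f q ε L e d h n]
    rw [h2]
    exact h1
  have hs : Summable (fun n : ℕ => PowerSeries.coeff n (ev q) * ρ ^ n) := by
    have hρ := hf.one_lt
    refine Summable.of_nonneg_of_le (fun n => mul_nonneg (hqn n) (by positivity)) (fun n => ?_) hf.expm
    exact mul_le_mul_of_nonneg_right (hqf n) (by positivity)
  obtain ⟨δ, C, r, hδ, hC, hr, hb⟩ := few_coins (ev q) hqn (by rw [ev_coeff, hq0]; simp) ε h.eps hsum ρ
    hf.one_lt hs L h.hL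
  refine ⟨δ, C, r, hδ, hC, hr, fun n => ?_⟩
  refine le_trans (le_of_eq ?_) (hb n)
  refine Finset.sum_congr rfl fun j _ => ?_
  rw [cw]
  split_ifs with hj
  · rw [Polynomial.eval_mul, ← ev_coeff, ev_pow, ev_gr _ hq0]
    simp
  · simp

theorem brC5c_cw_nonneg (f q : PP) (b : ℕ) (ρ ε : ℝ) (L e d : ℕ) (hf : Wlk f b ρ)
    (h : Coin f q ε L e d) (n j k : ℕ) : 0 ≤ (cw q ε L e n j).coeff k := by
  have hq0 := brC5c_q0 f q b ρ ε L e d hf h
  rw [cw]
  split_ifs with hj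
  · rw [mul_assoc, Polynomial.coeff_C_mul, Polynomial.coeff_X_pow_mul']
    have := h.eps
    refine mul_nonneg (by positivity) ?_
    split_ifs
    · exact (Nn.pow (Nn.gr h.qn hq0) (j + 1)) _ _
    · exact le_rfl
  · simp

theorem brC5c_mixt_eval (d n : ℕ) (G : ℕ → Polynomial ℝ) :
    (mixt d n G).eval 1 = ∑ j ∈ Finset.range (n + 1), (G j).eval 1 := by
  rw [mixt, Polynomial.eval_finsetSum]
  refine Finset.sum_congr rfl fun j _ => ?_
  have : (1 / 2 : ℝ) * (1 + 1) = 1 := by norm_num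
  simp only [Polynomial.eval_mul, Polynomial.eval_pow, Polynomial.eval_C, Polynomial.eval_add,
    Polynomial.eval_one, Polynomial.eval_X, one_pow, this, one_mul]

theorem brC5c_mass_le (f : PP) (b : ℕ) (ρ : ℝ) (hf : Wlk f b ρ) (n : ℕ) :
    (PowerSeries.coeff n (gr f)).eval 1 ≤ 1 := by
  rw [← ev_coeff, ev_gr _ hf.zero]
  refine (ren_le_one (ev f) (by rw [ev_coeff, hf.zero]; simp) (fun m => ?_) ?_ n).2
  · rw [ev_coeff]; exact brC5c_eval_nonneg _ (hf.nonneg m)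
  · have := hf.mass
    simp only [ev_coeff]
    exact this

theorem brC5c_geom (r : ℝ) (hr : 1 < r) : ∃ K : ℝ, 0 < K ∧ ∀ n : ℕ, (n : ℝ) + 1 ≤ K * r ^ n := by
  refine ⟨1 + 1 / (r - 1), by have : 0 < r - 1 := by linarith
                              positivity, fun n => ?_⟩
  have h1 : 1 + (n : ℝ) * (r - 1) ≤ r ^ n := by
    have := one_add_mul_le_pow (a := r - 1) (by linarith) n
    simpa using this
  have h2 : (1 : ℝ) ≤ r ^ n := one_le_pow₀ hr.le
  have h3 : 0 < r - 1 := by linarith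
  have h4 : (n : ℝ) ≤ 1 / (r - 1) * r ^ n := by
    rw [one_div, inv_mul_eq_div, le_div_iff₀ h3]
    linarith
  linarith [add_mul 1 (1 / (r - 1)) (r ^ n)]

/-- T-C5c -/
theorem coin_upper (f q : PP) (b : ℕ) (ρ ε : ℝ) (L e d : ℕ) (hf : Wlk f b ρ) (h : Coin f q ε L e d) :
    ∃ C : ℝ, 0 < C ∧ ∀ n E : ℕ, (PowerSeries.coeff n (gr f)).coeff E ≤ C / Real.sqrt (n + 1) := by
  obtain ⟨δ, C₁, r, hδ, hC₁, hr, hfew⟩ := brC5c_few f q b ρ ε L e d hf h
  obtain ⟨C₂, hC₂, hmix⟩ := mix_upper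
  obtain ⟨K, hK, hgeom⟩ := brC5c_geom r hr
  set μ : ℝ := min δ 1 with hμ
  have hμ0 : 0 < μ := lt_min hδ one_pos
  refine ⟨C₂ * C₁ * K + C₂ / Real.sqrt μ, by positivity, fun n E => ?_⟩
  have hnn := fun j k => brC5c_cw_nonneg f q b ρ ε L e d hf h n j k
  have hev : ∀ j, 0 ≤ (cw q ε L e n j).eval 1 := fun j => brC5c_eval_nonneg _ (hnn j)
  rw [coin_decomp f q ε L e d h hf.zero n]
  refine (hmix d n h.hd _ hnn E).trans ?_
  rw [← Finset.sum_filter_add_sum_filter_not (Finset.range (n + 1)) (fun j : ℕ => (j : ℝ) < δ * n)]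
  have hn1 : (0 : ℝ) < (n : ℝ) + 1 := by positivity
  have hsq : 0 < Real.sqrt ((n : ℝ) + 1) := Real.sqrt_pos.mpr hn1
  rw [add_div]
  refine add_le_add ?_ ?_
  · have h1 : ∑ j ∈ (Finset.range (n + 1)).filter (fun j : ℕ => (j : ℝ) < δ * n),
        C₂ / Real.sqrt (j + 1) * (cw q ε L e n j).eval 1 ≤ C₂ * (C₁ / r ^ n) := by
      refine le_trans ?_ (mul_le_mul_of_nonneg_left (hfew n) hC₂.le)
      rw [Finset.mul_sum]
      refine Finset.sum_le_sum fun j _ => mul_le_mul_of_nonneg_right ?_ (hev j)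
      refine div_le_self hC₂.le ?_
      rw [Real.one_le_sqrt]
      have : (0 : ℝ) ≤ j := Nat.cast_nonneg j
      linarith
    refine h1.trans ?_
    have hrn : 0 < r ^ n := by positivity
    rw [le_div_iff₀ hsq, mul_div_assoc']
    rw [div_mul_eq_mul_div, div_le_iff₀ hrn]
    have h2 : Real.sqrt ((n : ℝ) + 1) ≤ K * r ^ n := by
      refine le_trans ?_ (hgeom n)
      rw [Real.sqrt_le_left (by linarith)]
      nlinarith
    calc C₂ * C₁ * Real.sqrt ((n : ℝ) + 1) ≤ C₂ * C₁ * (K * r ^ n) :=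
          mul_le_mul_of_nonneg_left h2 (by positivity)
      _ = C₂ * C₁ * K * r ^ n := by ring
  · have h3 : ∀ j ∈ (Finset.range (n + 1)).filter (fun j : ℕ => ¬ (j : ℝ) < δ * n),
        C₂ / Real.sqrt (j + 1) * (cw q ε L e n j).eval 1 ≤
          C₂ / Real.sqrt μ / Real.sqrt ((n : ℝ) + 1) * (cw q ε L e n j).eval 1 := by
      intro j hj
      refine mul_le_mul_of_nonneg_right ?_ (hev j)
      rw [div_div, ← Real.sqrt_mul hμ0.le]
      refine div_le_div_of_nonneg_left hC₂.le (Real.sqrt_pos.mpr (by positivity)) ?_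
      refine Real.sqrt_le_sqrt ?_
      have hj2 : δ * n ≤ j := by
        have := (Finset.mem_filter.mp hj).2
        linarith
      have h4 : μ * n ≤ δ * n := mul_le_mul_of_nonneg_right (min_le_left _ _) (Nat.cast_nonneg n)
      have h5 : μ ≤ 1 := min_le_right _ _
      linarith
    refine (Finset.sum_le_sum h3).trans ?_
    rw [← Finset.mul_sum]
    have h6 : ∑ j ∈ (Finset.range (n + 1)).filter (fun j : ℕ => ¬ (j : ℝ) < δ * n),
        (cw q ε L e n j).eval 1 ≤ 1 := by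
      refine le_trans ?_ (brC5c_mass_le f b ρ hf n)
      rw [coin_decomp f q ε L e d h hf.zero n, brC5c_mixt_eval]
      exact Finset.sum_le_sum_of_subset_of_nonneg (Finset.filter_subset _ _) fun j _ _ => hev j
    calc C₂ / Real.sqrt μ / Real.sqrt ((n : ℝ) + 1) *
          ∑ j ∈ (Finset.range (n + 1)).filter (fun j : ℕ => ¬ (j : ℝ) < δ * n), (cw q ε L e n j).eval 1
        ≤ C₂ / Real.sqrt μ / Real.sqrt ((n : ℝ) + 1) * 1 :=
          mul_le_mul_of_nonneg_left h6 (by positivity)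
      _ = C₂ / Real.sqrt μ / Real.sqrt ((n : ℝ) + 1) := mul_one _

/-- T-C5d -/
theorem coin_lower (f q : PP) (b : ℕ) (ρ ε : ℝ) (L e d : ℕ) (hf : Wlk f b ρ) (h : Coin f q ε L e d) :
    ∃ (g : ℕ) (c : ℝ) (n₀ : ℕ), 1 ≤ g ∧ 0 < c ∧ ∀ n : ℕ, n₀ ≤ n → g ∣ n →
      c / Real.sqrt n ≤ (PowerSeries.coeff n (gr f)).coeff n := by
  obtain ⟨δ, C₁, r, hδ, hC₁, hr, hfew⟩ := brC5c_few f q b ρ ε L e d hf h
  obtain ⟨g, c₁, n₁, hg, hc₁, hres⟩ := walk_res f b ρ hf d h.hd
  obtain ⟨σ, hσ, hm2⟩ := walk_m2 f b ρ hf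
  obtain ⟨K', hK', hgeom⟩ := brC5c_geom r hr
  set K : ℝ := 1 + 4 * σ / (c₁ * δ) with hKdef
  have hK1 : 1 ≤ K := by
    have : 0 < 4 * σ / (c₁ * δ) := by positivity
    linarith
  have hK0 : 0 < K := by linarith
  obtain ⟨c, hc, n₂, hn₂, hlow⟩ := mix_lower d h.hd K δ hK0 hδ
  obtain ⟨n₃, hn₃⟩ := exists_nat_gt (4 * C₁ * K' / c₁)
  refine ⟨g, c * c₁ / 2, max n₁ (max n₂ n₃), hg, by positivity, fun n hn hgn => ?_⟩
  have hnn1 : n₁ ≤ n := le_trans (le_max_left _ _) hn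
  have hnn2 : n₂ ≤ n := le_trans (le_trans (le_max_left _ _) (le_max_right _ _)) hn
  have hnn3 : n₃ ≤ n := le_trans (le_trans (le_max_right _ _) (le_max_right _ _)) hn
  have hnpos : (0 : ℝ) < n := by
    have : 1 ≤ n := le_trans hn₂ hnn2
    exact_mod_cast this
  have hnn := fun j k => brC5c_cw_nonneg f q b ρ ε L e d hf h n j k
  have h1 := hlow n hnn2 (cw q ε L e n) hnn n
  rw [← coin_decomp f q ε L e d h hf.zero n] at h1
  have h2 := hres n hnn1 hgn
  have h3 : ∑ j ∈ (Finset.range (n + 1)).filter (fun j : ℕ => (j : ℝ) < δ * n),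
      (cw q ε L e n j).eval 1 ≤ c₁ / 4 := by
    refine (hfew n).trans ?_
    have hrn : 0 < r ^ n := by have : 0 < r := by linarith
                               positivity
    rw [div_le_iff₀ hrn]
    have h4 : 4 * C₁ * K' / c₁ ≤ n := by
      have : (n₃ : ℝ) ≤ n := by exact_mod_cast hnn3
      linarith
    rw [div_le_iff₀ hc₁] at h4
    have h5 := hgeom n
    have h6 : 4 * C₁ * K' ≤ c₁ * (K' * r ^ n) := by
      calc 4 * C₁ * K' ≤ n * c₁ := h4
        _ ≤ (K' * r ^ n) * c₁ := mul_le_mul_of_nonneg_right (by linarith) hc₁.le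
        _ = c₁ * (K' * r ^ n) := by ring
    have h7 : K' * (4 * C₁) ≤ K' * (c₁ * r ^ n) := by linarith
    have h8 := le_of_mul_le_mul_left h7 hK'
    linarith
  have h4 : m2 n (PowerSeries.coeff n (gr f)) / ((d : ℝ) ^ 2 * K ^ 2 * δ * n) ≤ c₁ / 4 := by
    have hd1 : (1 : ℝ) ≤ d := by exact_mod_cast h.hd
    have hden : 0 < (d : ℝ) ^ 2 * K ^ 2 * δ * n := by positivity
    rw [div_le_iff₀ hden]
    refine (hm2 n).trans ?_
    have h5 : 4 * σ ≤ K * (c₁ * δ) := by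
      rw [hKdef, add_mul, div_mul_cancel₀ _ (by positivity)]
      nlinarith [mul_pos hc₁ hδ]
    have h6 : K ≤ (d : ℝ) ^ 2 * K ^ 2 := by
      have h7 : (1 : ℝ) ≤ (d : ℝ) ^ 2 := one_le_pow₀ hd1
      nlinarith
    have h8 : K * (c₁ * δ) ≤ ((d : ℝ) ^ 2 * K ^ 2) * (c₁ * δ) :=
      mul_le_mul_of_nonneg_right h6 (by positivity)
    calc σ * n ≤ (((d : ℝ) ^ 2 * K ^ 2) * (c₁ * δ) / 4) * n :=
          mul_le_mul_of_nonneg_right (by linarith) hnpos.le
      _ = c₁ / 4 * ((d : ℝ) ^ 2 * K ^ 2 * δ * n) := by ring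
  refine le_trans ?_ h1
  have h5 : c * c₁ / 2 / Real.sqrt n = c / Real.sqrt n * (c₁ / 2) := by ring
  rw [h5]
  refine mul_le_mul_of_nonneg_left ?_ (by positivity)
  linarith

end Pool.Agent.SandBr
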