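import Pool.Agent.SandFin.BrC5c
import Pool.Agent.SandFin.BrC1c

set_option autoImplicit false

namespace Pool.Agent.SandBr

theorem brC6_sum_le (P : Polynomial ℝ) (hP : ∀ e, 0 ≤ P.coeff e) (N : ℕ) :
    ∑ i ∈ Finset.range N, P.coeff i ≤ P.eval 1 := by
  have h1 : P.eval 1 = ∑ i ∈ Finset.range (max N (P.natDegree + 1)), P.coeff i := by
    rw [Polynomial.eval_eq_sum_range' (n := max N (P.natDegree + 1)) (by
      exact lt_of_lt_of_le (Nat.lt_succ_self _) (le_max_right _ _))]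
    simp
  rw [h1]
  exact Finset.sum_le_sum_of_subset_of_nonneg (Finset.range_mono (le_max_left _ _))
    fun i _ _ => hP i

theorem brC6_eval_nonneg (P : Polynomial ℝ) (hP : ∀ e, 0 ≤ P.coeff e) : 0 ≤ P.eval 1 := by
  have := brC6_sum_le P hP 0
  simpa using this

theorem brC6_mul_le (P Q : Polynomial ℝ) (hP : ∀ e, 0 ≤ P.coeff e) (B : ℝ) (hB : 0 ≤ B)
    (hQ : ∀ e, Q.coeff e ≤ B) (E : ℕ) : (P * Q).coeff E ≤ P.eval 1 * B := by
  rw [Polynomial.coeff_mul, Finset.Nat.sum_antidiagonal_eq_sum_range_succ_mk]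
  calc ∑ k ∈ Finset.range E.succ, P.coeff k * Q.coeff (E - k)
      ≤ ∑ k ∈ Finset.range E.succ, P.coeff k * B :=
        Finset.sum_le_sum fun k _ => mul_le_mul_of_nonneg_left (hQ _) (hP _)
    _ = (∑ k ∈ Finset.range E.succ, P.coeff k) * B := by rw [Finset.sum_mul]
    _ ≤ P.eval 1 * B := mul_le_mul_of_nonneg_right (brC6_sum_le P hP _) hB

/-- T-C6 -/
theorem walk_upper (f : PP) (b : ℕ) (ρ : ℝ) (hf : Wlk f b ρ) (w₁ e₁ w₂ e₂ : ℕ)
    (h1 : 0 < (PowerSeries.coeff w₁ f).coeff e₁) (h2 : 0 < (PowerSeries.coeff w₂ f).coeff e₂)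
    (hne : w₂ * e₁ < w₁ * e₂) :
    ∃ C : ℝ, 0 < C ∧ ∀ n E : ℕ, (PowerSeries.coeff n (gr f)).coeff E ≤ C / Real.sqrt (n + 1) := by
  obtain ⟨F, q, P, ε, L, e, d, hF, hc, hP, hP0, hPF, hPs⟩ :=
    macro_exists f b ρ hf w₁ e₁ w₂ e₂ h1 h2 hne
  obtain ⟨C, hC, hup⟩ := coin_upper F q b ρ ε L e d hF hc
  obtain ⟨C', hC', hconv⟩ := conv_decay (fun w => (PowerSeries.coeff w P).eval 1)
    (fun w => brC6_eval_nonneg _ (hP w)) ρ hf.one_lt hPs
  have hgr : gr f = P * gr F := by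
    symm
    apply gr_unique f _ hf.zero
    rw [← mul_assoc, hPF, gr_mul F hF.zero]
  refine ⟨C' * C, mul_pos hC' hC, fun n E => ?_⟩
  rw [hgr, PowerSeries.coeff_mul, Finset.Nat.sum_antidiagonal_eq_sum_range_succ_mk,
    Polynomial.finsetSum_coeff]
  calc ∑ w ∈ Finset.range n.succ, (PowerSeries.coeff w P * PowerSeries.coeff (n - w) (gr F)).coeff E
      ≤ ∑ w ∈ Finset.range n.succ, (PowerSeries.coeff w P).eval 1 * (C / Real.sqrt ((n - w : ℕ) + 1)) := by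
        refine Finset.sum_le_sum fun w _ => ?_
        exact brC6_mul_le _ _ (hP w) _ (by positivity) (hup (n - w)) E
    _ = (∑ w ∈ Finset.range (n + 1),
          (PowerSeries.coeff w P).eval 1 / Real.sqrt ((n - w : ℕ) + 1)) * C := by
        rw [Finset.sum_mul]
        refine Finset.sum_congr rfl fun w _ => ?_
        ring
    _ ≤ C' / Real.sqrt (n + 1) * C := mul_le_mul_of_nonneg_right (hconv n) hC.le
    _ = C' * C / Real.sqrt (n + 1) := by ring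

theorem walk_lower (f : PP) (b : ℕ) (ρ : ℝ) (hf : Wlk f b ρ) (w₁ e₁ w₂ e₂ : ℕ)
    (h1 : 0 < (PowerSeries.coeff w₁ f).coeff e₁) (h2 : 0 < (PowerSeries.coeff w₂ f).coeff e₂)
    (hne : w₂ * e₁ < w₁ * e₂) :
    ∃ (g : ℕ) (c : ℝ) (n₀ : ℕ), 1 ≤ g ∧ 0 < c ∧ ∀ n : ℕ, n₀ ≤ n → g ∣ n →
      c / Real.sqrt n ≤ (PowerSeries.coeff n (gr f)).coeff n := by
  obtain ⟨F, q, P, ε, L, e, d, hF, hc, hP, hP0, hPF, hPs⟩ :=
    macro_exists f b ρ hf w₁ e₁ w₂ e₂ h1 h2 hne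
  obtain ⟨g, c, n₀, hg, hc0, hlow⟩ := coin_lower F q b ρ ε L e d hF hc
  have hgr : gr f = P * gr F := by
    symm
    apply gr_unique f _ hf.zero
    rw [← mul_assoc, hPF, gr_mul F hF.zero]
  refine ⟨g, c, n₀, hg, hc0, fun n hn hgn => (hlow n hn hgn).trans ?_⟩
  rw [hgr, PowerSeries.coeff_mul, Finset.Nat.sum_antidiagonal_eq_sum_range_succ_mk,
    Polynomial.finsetSum_coeff]
  have hG := hF.nonneg.gr hF.zero
  have h3 := Finset.single_le_sum (f := fun w => (PowerSeries.coeff w P *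
    PowerSeries.coeff (n - w) (gr F)).coeff n) (s := Finset.range n.succ)
    (fun w _ => brC0a_pmul (hP w) (hG (n - w)) n) (Finset.mem_range.2 (Nat.succ_pos n))
  simp only [hP0, one_mul, Nat.sub_zero] at h3
  exact h3

end Pool.Agent.SandBr
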