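import Pool.Agent.SandFin.BrC0a

set_option autoImplicit false

namespace Pool.Agent.SandBr

/-- `T ∂/∂T`, coefficientwise -/
noncomputable def brD1_D (G : PP) : PP :=
  PowerSeries.mk fun w => Polynomial.X * Polynomial.derivative (PowerSeries.coeff w G)

theorem brD1_D_mul (G H : PP) : brD1_D (G * H) = brD1_D G * H + G * brD1_D H := by
  apply PowerSeries.ext
  intro n
  simp only [brD1_D, PowerSeries.coeff_mk, PowerSeries.coeff_mul, map_add, Polynomial.derivative_sum,
    Polynomial.derivative_mul, Finset.mul_sum, ← Finset.sum_add_distrib]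
  refine Finset.sum_congr rfl fun p _ => by ring

theorem brD1_D_pow (G : PP) (M : ℕ) :
    brD1_D (G ^ (M + 1)) = ((M : PP) + 1) * (G ^ M * brD1_D G) := by
  induction M with
  | zero => simp
  | succ M ih =>
    rw [pow_succ, brD1_D_mul, ih]
    push_cast
    ring

theorem brD1_coeff_D (G : PP) (n M : ℕ) :
    (PowerSeries.coeff n (brD1_D G)).coeff M = (M : ℝ) * (PowerSeries.coeff n G).coeff M := by
  rw [brD1_D, PowerSeries.coeff_mk]
  cases M with
  | zero => simp
  | succ M =>
    rw [Polynomial.coeff_X_mul, Polynomial.coeff_derivative]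
    push_cast
    ring

/-- the `M`-th Lagrange functional -/
noncomputable def brD1_x (F : PP) (M n : ℕ) (G : PP) : ℝ :=
  if M = 0 then (PowerSeries.coeff n G).coeff 0
  else 1 / (M : ℝ) * (PowerSeries.coeff n (brD1_D G * F ^ M)).coeff M

theorem brD1_coeff_natCast_mul (G : PP) (k n M : ℕ) :
    (PowerSeries.coeff n (((k : ℕ) : PP) * G)).coeff M = (k : ℝ) * (PowerSeries.coeff n G).coeff M := by
  have : ((k : ℕ) : PP) * G = k • G := by simp
  rw [this, map_nsmul]
  simp

theorem brD1_coeff_T_mul (G : PP) (n M : ℕ) :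
    (PowerSeries.coeff n (PowerSeries.C (Polynomial.X : Polynomial ℝ) * G)).coeff (M + 1)
      = (PowerSeries.coeff n G).coeff M := by
  rw [PowerSeries.coeff_C_mul, Polynomial.coeff_X_mul]

theorem brD1_D_T : brD1_D (PowerSeries.C (Polynomial.X : Polynomial ℝ)) =
    PowerSeries.C (Polynomial.X : Polynomial ℝ) := by
  apply PowerSeries.ext
  intro n
  rw [brD1_D, PowerSeries.coeff_mk, PowerSeries.coeff_C]
  split_ifs <;> simp

theorem brD1_key (F G : PP) (M n : ℕ) :
    brD1_x F M n (F * G) = brD1_x F (M + 1) n (PowerSeries.C (Polynomial.X : Polynomial ℝ) * G) := by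
  have hR : brD1_x F (M + 1) n (PowerSeries.C (Polynomial.X : Polynomial ℝ) * G) =
      1 / ((M : ℝ) + 1) * ((PowerSeries.coeff n (G * F ^ (M + 1))).coeff M +
        (PowerSeries.coeff n (brD1_D G * F ^ (M + 1))).coeff M) := by
    rw [brD1_x, if_neg (Nat.succ_ne_zero M), brD1_D_mul, brD1_D_T]
    have : (PowerSeries.C (Polynomial.X : Polynomial ℝ) * G +
        PowerSeries.C (Polynomial.X : Polynomial ℝ) * brD1_D G) * F ^ (M + 1) =
        PowerSeries.C (Polynomial.X : Polynomial ℝ) * (G * F ^ (M + 1) + brD1_D G * F ^ (M + 1)) := by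
      ring
    rw [this, brD1_coeff_T_mul, map_add, Polynomial.coeff_add]
    push_cast
    rfl
  rw [hR]
  rcases Nat.eq_zero_or_pos M with hM | hM
  · subst hM
    have h1 : (PowerSeries.coeff n (brD1_D G * F ^ (0 + 1))).coeff 0 = 0 := by
      rw [PowerSeries.coeff_mul, Polynomial.finsetSum_coeff]
      refine Finset.sum_eq_zero fun p _ => ?_
      rw [Polynomial.mul_coeff_zero, brD1_coeff_D]
      simp
    rw [h1, brD1_x, if_pos rfl]
    simp [mul_comm]
  · have h1 : ((M + 1 : ℕ) : PP) * (brD1_D (F * G) * F ^ M) =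
        brD1_D (F ^ (M + 1) * G) + ((M : ℕ) : PP) * (brD1_D G * F ^ (M + 1)) := by
      rw [brD1_D_mul, brD1_D_mul, brD1_D_pow]
      push_cast
      ring
    have h2 := congrArg (fun H : PP => (PowerSeries.coeff n H).coeff M) h1
    simp only [map_add, Polynomial.coeff_add] at h2
    rw [brD1_coeff_natCast_mul, brD1_coeff_natCast_mul, brD1_coeff_D] at h2
    rw [brD1_x, if_neg (by omega)]
    have hM' : (M : ℝ) ≠ 0 := by positivity
    have hM1 : ((M : ℝ) + 1) ≠ 0 := by positivity
    have h3 : F ^ (M + 1) * G = G * F ^ (M + 1) := mul_comm _ _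
    rw [h3] at h2
    push_cast at h2
    field_simp
    linarith

/-- the functional on polynomials -/
noncomputable def brD1_phi (F : PP) (M v : ℕ) (P : Polynomial ℝ) : ℝ :=
  brD1_x F M v (PowerSeries.C P)

theorem brD1_D_coeff (G : PP) (n : ℕ) :
    PowerSeries.coeff n (brD1_D G) = Polynomial.X * Polynomial.derivative (PowerSeries.coeff n G) := by
  rw [brD1_D, PowerSeries.coeff_mk]

theorem brD1_phi_pos (F : PP) (M v : ℕ) (P : Polynomial ℝ) (hM : M ≠ 0) :
    brD1_phi F M v P = 1 / (M : ℝ) *
      ((Polynomial.X * Polynomial.derivative P) * PowerSeries.coeff v (F ^ M)).coeff M := by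
  have h : brD1_D (PowerSeries.C P) = PowerSeries.C (Polynomial.X * Polynomial.derivative P) := by
    apply PowerSeries.ext
    intro n
    rw [brD1_D_coeff, PowerSeries.coeff_C, PowerSeries.coeff_C]
    split_ifs <;> simp
  rw [brD1_phi, brD1_x, if_neg hM, h, PowerSeries.coeff_C_mul]

theorem brD1_phi_zero (F : PP) (v : ℕ) (P : Polynomial ℝ) :
    brD1_phi F 0 v P = if v = 0 then P.coeff 0 else 0 := by
  rw [brD1_phi, brD1_x, if_pos rfl, PowerSeries.coeff_C]
  split_ifs <;> simp

theorem brD1_vanish (F : PP) (hF : PowerSeries.coeff 0 F = 0) (M v : ℕ) (hv : v < M)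
    (P : Polynomial ℝ) : brD1_phi F M v P = 0 := by
  have h1 : (PowerSeries.X : PP) ∣ F := by
    rw [PowerSeries.X_dvd_iff, ← PowerSeries.coeff_zero_eq_constantCoeff_apply, hF]
  have h2 : PowerSeries.coeff v (F ^ M) = 0 := by
    have h3 : (PowerSeries.X : PP) ^ M ∣ F ^ M := pow_dvd_pow_of_dvd h1 M
    exact (PowerSeries.X_pow_dvd_iff.mp h3) v hv
  rw [brD1_phi_pos F M v P (by omega), h2]
  simp

theorem brD1_x_expand (F : PP) (M n : ℕ) (G : PP) :
    brD1_x F M n G = ∑ w ∈ Finset.range (n + 1), brD1_phi F M (n - w) (PowerSeries.coeff w G) := by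
  rcases Nat.eq_zero_or_pos M with hM | hM
  · subst hM
    rw [brD1_x, if_pos rfl, Finset.sum_eq_single n]
    · rw [brD1_phi_zero]; simp
    · intro w hw hne
      rw [brD1_phi_zero, if_neg]
      have := Finset.mem_range.mp hw
      omega
    · intro h; exact absurd (Finset.mem_range.mpr (Nat.lt_succ_self n)) h
  · rw [brD1_x, if_neg (by omega), PowerSeries.coeff_mul, Polynomial.finsetSum_coeff,
      Finset.Nat.sum_antidiagonal_eq_sum_range_succ_mk, Finset.mul_sum]
    refine Finset.sum_congr rfl fun w _ => ?_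
    rw [brD1_phi_pos F M _ _ (by omega), brD1_D_coeff]

/-- the total functional -/
noncomputable def brD1_Phi (F : PP) (v : ℕ) (P : Polynomial ℝ) : ℝ :=
  ∑ M ∈ Finset.range (v + 1), brD1_phi F M v P

theorem brD1_Phi_eq (F : PP) (hF : PowerSeries.coeff 0 F = 0) (v N : ℕ) (hN : v + 1 ≤ N)
    (P : Polynomial ℝ) : ∑ M ∈ Finset.range N, brD1_phi F M v P = brD1_Phi F v P := by
  rw [brD1_Phi]
  symm
  apply Finset.sum_subset
  · intro x hx
    rw [Finset.mem_range] at *
    omega
  · intro M _ hM
    rw [Finset.mem_range] at hM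
    exact brD1_vanish F hF M v (by omega) P

theorem brD1_Phi_rec (F : PP) (hF : PowerSeries.coeff 0 F = 0) (n : ℕ) (Q : Polynomial ℝ) :
    brD1_Phi F n (Polynomial.X * Q) =
      ∑ w ∈ Finset.range (n + 1), brD1_Phi F (n - w) (PowerSeries.coeff w F * Q) := by
  have h1 : ∀ w ∈ Finset.range (n + 1), brD1_Phi F (n - w) (PowerSeries.coeff w F * Q) =
      ∑ M ∈ Finset.range (n + 1), brD1_phi F M (n - w) (PowerSeries.coeff w F * Q) := by
    intro w hw
    rw [brD1_Phi_eq F hF (n - w) (n + 1) (by omega)]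
  rw [Finset.sum_congr rfl h1, Finset.sum_comm]
  have h2 : ∀ M ∈ Finset.range (n + 1),
      ∑ w ∈ Finset.range (n + 1), brD1_phi F M (n - w) (PowerSeries.coeff w F * Q) =
        brD1_phi F (M + 1) n (Polynomial.X * Q) := by
    intro M _
    have h3 := brD1_key F (PowerSeries.C Q) M n
    rw [brD1_x_expand, ← map_mul] at h3
    rw [brD1_phi, ← h3]
    refine Finset.sum_congr rfl fun w _ => ?_
    rw [PowerSeries.coeff_mul_C]
  rw [Finset.sum_congr rfl h2]
  have h4 : brD1_Phi F n (Polynomial.X * Q) =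
      ∑ M ∈ Finset.range (n + 1 + 1), brD1_phi F M n (Polynomial.X * Q) :=
    (brD1_Phi_eq F hF n (n + 2) (by omega) _).symm
  rw [h4, Finset.sum_range_succ']
  rw [brD1_phi_zero]
  simp

theorem brD1_Phi_add (F : PP) (n : ℕ) (P Q : Polynomial ℝ) :
    brD1_Phi F n (P + Q) = brD1_Phi F n P + brD1_Phi F n Q := by
  rw [brD1_Phi, brD1_Phi, brD1_Phi, ← Finset.sum_add_distrib]
  refine Finset.sum_congr rfl fun M _ => ?_
  rcases Nat.eq_zero_or_pos M with hM | hM
  · subst hM
    rw [brD1_phi_zero, brD1_phi_zero, brD1_phi_zero]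
    split_ifs <;> simp
  · rw [brD1_phi_pos _ _ _ _ (by omega), brD1_phi_pos _ _ _ _ (by omega),
      brD1_phi_pos _ _ _ _ (by omega), map_add, mul_add, add_mul, Polynomial.coeff_add, mul_add]

theorem brD1_Phi_C (F : PP) (n : ℕ) (c : ℝ) :
    brD1_Phi F n (Polynomial.C c) = if n = 0 then c else 0 := by
  rw [brD1_Phi, Finset.sum_range_succ', brD1_phi_zero, Finset.sum_eq_zero]
  · simp
  · intro M _
    rw [brD1_phi_pos _ _ _ _ (by omega)]
    simp

/-- uniqueness: the total functional is evaluation at the solution -/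
theorem brD1_main (β : ℕ → Polynomial ℝ) (h0 : β 0 = 0) (a : ℕ → ℝ)
    (ha : ∀ m, a m = ∑ w ∈ Finset.range (m + 1),
      PowerSeries.coeff (m - w) (Polynomial.aeval (PowerSeries.mk a) (β w))) (n : ℕ) :
    ∀ P : Polynomial ℝ, PowerSeries.coeff n (Polynomial.aeval (PowerSeries.mk a) P) =
      brD1_Phi (PowerSeries.mk β) n P := by
  have hF : PowerSeries.coeff 0 (PowerSeries.mk β : PP) = 0 := by rw [PowerSeries.coeff_mk, h0]
  induction n using Nat.strong_induction_on with
  | _ n ih =>
    -- multiplication by A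
    have hA : ∀ H : PowerSeries ℝ, PowerSeries.coeff n (PowerSeries.mk a * H) =
        ∑ w ∈ Finset.range (n + 1), PowerSeries.coeff (n - w)
          (Polynomial.aeval (PowerSeries.mk a) (β w) * H) := by
      intro H
      have h1 : PowerSeries.coeff n (PowerSeries.mk a * H) = PowerSeries.coeff n
          ((∑ w ∈ Finset.range (n + 1), PowerSeries.X ^ w *
            Polynomial.aeval (PowerSeries.mk a) (β w)) * H) := by
        rw [PowerSeries.coeff_mul, PowerSeries.coeff_mul]
        refine Finset.sum_congr rfl fun p hp => ?_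
        have hp1 : p.1 ≤ n := by have := Finset.HasAntidiagonal.mem_antidiagonal.mp hp; omega
        congr 1
        rw [PowerSeries.coeff_mk, ha, map_sum]
        have : ∀ w ∈ Finset.range (n + 1), PowerSeries.coeff p.1 (PowerSeries.X ^ w *
            Polynomial.aeval (PowerSeries.mk a) (β w)) =
            if w ≤ p.1 then PowerSeries.coeff (p.1 - w)
              (Polynomial.aeval (PowerSeries.mk a) (β w)) else 0 := by
          intro w _
          rw [PowerSeries.coeff_X_pow_mul']
        rw [Finset.sum_congr rfl this, ← Finset.sum_filter]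
        refine Finset.sum_congr ?_ fun _ _ => rfl
        ext w
        simp only [Finset.mem_range, Finset.mem_filter]
        omega
      rw [h1, Finset.sum_mul, map_sum]
      refine Finset.sum_congr rfl fun w hw => ?_
      rw [mul_assoc, PowerSeries.coeff_X_pow_mul', if_pos]
      have := Finset.mem_range.mp hw
      omega
    have hX : ∀ Q : Polynomial ℝ,
        PowerSeries.coeff n (Polynomial.aeval (PowerSeries.mk a) (Polynomial.X * Q)) =
        brD1_Phi (PowerSeries.mk β) n (Polynomial.X * Q) := by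
      intro Q
      rw [map_mul, Polynomial.aeval_X, hA, brD1_Phi_rec _ hF]
      refine Finset.sum_congr rfl fun w hw => ?_
      rw [PowerSeries.coeff_mk, ← map_mul]
      rcases Nat.eq_zero_or_pos w with hw0 | hw0
      · subst hw0
        rw [h0, zero_mul, map_zero, map_zero]
        have := brD1_Phi_C (PowerSeries.mk β) (n - 0) 0
        rw [map_zero] at this
        rw [this]
        simp
      · exact ih (n - w) (by have := Finset.mem_range.mp hw; omega) _
    intro P
    have hP : P = Polynomial.X * P.divX + Polynomial.C (P.coeff 0) := (Polynomial.X_mul_divX_add P).symm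
    rw [hP, map_add, map_add, hX, brD1_Phi_add, brD1_Phi_C, Polynomial.aeval_C]
    congr 1
    rw [PowerSeries.algebraMap_apply, PowerSeries.coeff_C]
    simp

/-- the total size law is unique and given by the hitting time theorem -/
theorem hit_lagrange (β : ℕ → Polynomial ℝ) (h0 : β 0 = 0) (a : ℕ → ℝ)
    (ha : ∀ m, a m = ∑ w ∈ Finset.range (m + 1),
      PowerSeries.coeff (m - w) (Polynomial.aeval (PowerSeries.mk a) (β w))) (n : ℕ) :
    a n = ∑ M ∈ Finset.range n, 1 / ((M : ℝ) + 1) *
      (PowerSeries.coeff n ((PowerSeries.mk β : PP) ^ (M + 1))).coeff M := by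
  have h1 := brD1_main β h0 a ha n Polynomial.X
  rw [Polynomial.aeval_X, PowerSeries.coeff_mk] at h1
  rw [h1, brD1_Phi, Finset.sum_range_succ', brD1_phi_zero]
  have h2 : (if n = 0 then (Polynomial.X : Polynomial ℝ).coeff 0 else 0) = 0 := by
    split_ifs <;> simp
  rw [h2, add_zero]
  refine Finset.sum_congr rfl fun M _ => ?_
  rw [brD1_phi_pos _ _ _ _ (by omega), Polynomial.derivative_X, mul_one, Polynomial.coeff_X_mul]
  push_cast
  rfl

end Pool.Agent.SandBr
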