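import Pool.Agent.SandFin.BrD1

set_option autoImplicit false

namespace Pool.Agent.SandBr

theorem brD2_mk_zero (β : ℕ → Polynomial ℝ) (h0 : β 0 = 0) :
    PowerSeries.coeff 0 (PowerSeries.mk β : PP) = 0 := by
  rw [PowerSeries.coeff_mk, h0]

theorem brD2_stp_zero (β : ℕ → Polynomial ℝ) (h0 : β 0 = 0) :
    PowerSeries.coeff 0 (stp β) = 0 := by
  unfold stp
  rw [PowerSeries.coeff_mk, h0, mul_zero]

/-- powers of the step series -/
theorem stp_pow_coeff (β : ℕ → Polynomial ℝ) (h0 : β 0 = 0) (n M : ℕ) :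
    PowerSeries.coeff n ((stp β) ^ M) =
      if M ≤ n then Polynomial.X ^ (n - M) * PowerSeries.coeff n ((PowerSeries.mk β : PP) ^ M) else 0 := by
  induction M generalizing n with
  | zero =>
    rw [if_pos (Nat.zero_le _), pow_zero, pow_zero, PowerSeries.coeff_one]
    split_ifs with h
    · subst h; simp
    · simp
  | succ M ih =>
    split_ifs with hM
    · rw [pow_succ', pow_succ', PowerSeries.coeff_mul, PowerSeries.coeff_mul,
        Finset.Nat.sum_antidiagonal_eq_sum_range_succ_mk,
        Finset.Nat.sum_antidiagonal_eq_sum_range_succ_mk, Finset.mul_sum]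
      refine Finset.sum_congr rfl fun w hw => ?_
      rw [Finset.mem_range] at hw
      simp only
      rw [ih (n - w), PowerSeries.coeff_mk]
      unfold stp
      rw [PowerSeries.coeff_mk]
      rcases Nat.eq_zero_or_pos w with hw0 | hw0
      · subst hw0
        rw [h0]; simp
      · split_ifs with h1
        · have h2 : n - (M + 1) = (w - 1) + (n - w - M) := by omega
          rw [h2, pow_add]
          ring
        · rw [brC0a_pow_lt (PowerSeries.mk β : PP) (brD2_mk_zero β h0) (n - w) M (by omega)]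
          ring
    · exact brC0a_pow_lt _ (brD2_stp_zero β h0) n (M + 1) (by omega)

theorem brD2_deriv {A : Type} [CommRing A] (F : PowerSeries A) (n M : ℕ) :
    (n : A) * PowerSeries.coeff n (F ^ (M + 1)) =
      ((M : A) + 1) * ∑ w ∈ Finset.range (n + 1),
        (w : A) * (PowerSeries.coeff w F * PowerSeries.coeff (n - w) (F ^ M)) := by
  rcases n with _ | n
  · simp
  · have h1 : PowerSeries.derivative A (F ^ (M + 1))
        = ((M : PowerSeries A) + 1) * (PowerSeries.derivative A F * F ^ M) := by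
      rw [Derivation.leibniz_pow]
      simp only [Nat.add_sub_cancel, smul_eq_mul, nsmul_eq_mul]
      push_cast
      ring
    have h2 := congrArg (PowerSeries.coeff n) h1
    rw [PowerSeries.coeff_derivative] at h2
    have h3 : ((M : PowerSeries A) + 1) = PowerSeries.C ((M : A) + 1) := by
      rw [map_add, map_natCast, map_one]
    rw [h3, PowerSeries.coeff_C_mul, PowerSeries.coeff_mul,
      Finset.Nat.sum_antidiagonal_eq_sum_range_succ_mk] at h2
    rw [Finset.sum_range_succ']
    simp only [PowerSeries.coeff_derivative] at h2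
    push_cast
    rw [mul_comm, h2]
    congr 1
    simp only [zero_mul, add_zero]
    refine Finset.sum_congr rfl fun w hw => ?_
    ring

theorem brD2_shift (Q : Polynomial ℝ) (N M : ℕ) (h : M ≤ N) :
    (Polynomial.X ^ (N - M) * Q).coeff N = Q.coeff M := by
  obtain ⟨k, rfl⟩ := Nat.exists_eq_add_of_le h
  rw [Nat.add_sub_cancel_left, Polynomial.coeff_X_pow_mul]

/-- T-D -/
theorem hit_green (β : ℕ → Polynomial ℝ) (h0 : β 0 = 0) (a : ℕ → ℝ)
    (ha : ∀ m, a m = ∑ w ∈ Finset.range (m + 1),
      PowerSeries.coeff (m - w) (Polynomial.aeval (PowerSeries.mk a) (β w))) (n : ℕ) :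
    (n : ℝ) * a n = ∑ w ∈ Finset.range (n + 1),
      (w : ℝ) * (β w * PowerSeries.coeff (n - w) (gr (stp β))).coeff (n - w) := by
  rw [hit_lagrange β h0 a ha n, Finset.mul_sum]
  have h1 : ∀ M : ℕ, (n : ℝ) * (1 / ((M : ℝ) + 1) *
      (PowerSeries.coeff n ((PowerSeries.mk β : PP) ^ (M + 1))).coeff M)
      = ∑ w ∈ Finset.range (n + 1), (w : ℝ) *
        (β w * PowerSeries.coeff (n - w) ((PowerSeries.mk β : PP) ^ M)).coeff M := by
    intro M
    have h2 := congrArg (fun P : Polynomial ℝ => P.coeff M) (brD2_deriv (PowerSeries.mk β : PP) n M)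
    have h3 : ∀ (k : ℕ) (P : Polynomial ℝ), ((k : Polynomial ℝ) * P).coeff M = (k : ℝ) * P.coeff M := by
      intro k P
      rw [← Polynomial.C_eq_natCast, Polynomial.coeff_C_mul]
    have h4 : (((M : Polynomial ℝ) + 1) * ∑ w ∈ Finset.range (n + 1), (w : Polynomial ℝ) *
        (PowerSeries.coeff w (PowerSeries.mk β : PP) * PowerSeries.coeff (n - w)
          ((PowerSeries.mk β : PP) ^ M))).coeff M = ((M : ℝ) + 1) *
        ∑ w ∈ Finset.range (n + 1), (w : ℝ) *
          (β w * PowerSeries.coeff (n - w) ((PowerSeries.mk β : PP) ^ M)).coeff M := by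
      have h5 : ((M : Polynomial ℝ) + 1) = ((M + 1 : ℕ) : Polynomial ℝ) := by push_cast; ring
      rw [h5, h3, Polynomial.finsetSum_coeff]
      push_cast
      congr 1
      refine Finset.sum_congr rfl fun w _ => ?_
      rw [h3, PowerSeries.coeff_mk]
    rw [h3, h4] at h2
    have h6 : ((M : ℝ) + 1) ≠ 0 := by positivity
    calc (n : ℝ) * (1 / ((M : ℝ) + 1) *
      (PowerSeries.coeff n ((PowerSeries.mk β : PP) ^ (M + 1))).coeff M)
        = ((n : ℝ) * (PowerSeries.coeff n ((PowerSeries.mk β : PP) ^ (M + 1))).coeff M)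
          / ((M : ℝ) + 1) := by ring
      _ = _ := by rw [h2, mul_div_cancel_left₀ _ h6]
  rw [Finset.sum_congr rfl fun M _ => h1 M, Finset.sum_comm]
  refine Finset.sum_congr rfl fun w hw => ?_
  rw [Finset.mem_range] at hw
  rw [← Finset.mul_sum]
  rcases Nat.eq_zero_or_pos w with hw0 | hw0
  · subst hw0; simp
  congr 1
  rw [gr_geom (stp β) (brD2_stp_zero β h0) (n - w) (n - w) le_rfl, Finset.mul_sum,
    Polynomial.finsetSum_coeff]
  have hsub : Finset.range (n - w + 1) ⊆ Finset.range n := Finset.range_mono (by omega)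
  rw [← Finset.sum_subset hsub]
  · refine Finset.sum_congr rfl fun M hM => ?_
    rw [Finset.mem_range] at hM
    rw [stp_pow_coeff β h0, if_pos (by omega)]
    have h7 : β w * (Polynomial.X ^ (n - w - M) * PowerSeries.coeff (n - w) ((PowerSeries.mk β : PP) ^ M))
        = Polynomial.X ^ (n - w - M) * (β w * PowerSeries.coeff (n - w) ((PowerSeries.mk β : PP) ^ M)) := by
      ring
    rw [h7]
    rw [brD2_shift _ _ _ (by omega)]
  · intro M _ hM
    rw [Finset.mem_range, not_lt] at hM
    rw [brC0a_pow_lt (PowerSeries.mk β : PP) (brD2_mk_zero β h0) (n - w) M (by omega), mul_zero,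
      Polynomial.coeff_zero]

end Pool.Agent.SandBr
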