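import Mathlib

/-!
# Finite multitype branching systems with sizes (MP_4555f0_mp, abstract part)

A type `θ` expands into an outcome `ω` with probability `p θ ω`; the outcome has a size `s θ ω ≥ 1` and a list
`ch θ ω` of children types, which expand independently.  `a θ m` is the probability that the total size of the
whole tree is `m`.
-/

set_option autoImplicit false

namespace Pool.Agent.SandBr

/-- convolution of the laws `a θ` over a list of types -/
noncomputable def convL {Θ : Type} (a : Θ → ℕ → ℝ) : List Θ → ℕ → ℝ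
  | [], m => if m = 0 then 1 else 0
  | θ :: l, m => ∑ i ∈ Finset.range (m + 1), a θ i * convL a l (m - i)

/-- a finite branching system -/
structure BrSys (Θ Ω : Type) [Fintype Θ] [Fintype Ω] where
  p : Θ → Ω → ℝ
  p_nonneg : ∀ θ ω, 0 ≤ p θ ω
  p_sum : ∀ θ, ∑ ω, p θ ω = 1
  s : Θ → Ω → ℕ
  s_pos : ∀ θ ω, 1 ≤ s θ ω
  ch : Θ → Ω → List Θ

variable {Θ Ω : Type} [Fintype Θ] [Fintype Ω]

/-- `a` is the family of laws of the total size -/
structure BrSys.IsTotal (B : BrSys Θ Ω) (a : Θ → ℕ → ℝ) : Prop where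
  nonneg : ∀ θ m, 0 ≤ a θ m
  hasSum : ∀ θ, HasSum (a θ) 1
  rec_eq : ∀ θ m, a θ m =
    ∑ ω, B.p θ ω * (if B.s θ ω ≤ m then convL a (B.ch θ ω) (m - B.s θ ω) else 0)

/-- expected number of nodes of generation `k` -/
noncomputable def BrSys.z (B : BrSys Θ Ω) : ℕ → Θ → ℝ
  | 0, _ => 1
  | k + 1, θ => ∑ ω, B.p θ ω * ((B.ch θ ω).map (B.z k)).sum

end Pool.Agent.SandBr
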