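import Pool.Agent.SandFin.BrC0a

set_option autoImplicit false

namespace Pool.Agent.SandBr

lemma brE1_dvd (P : Polynomial ℝ) (hP : P.coeff 0 = 0) (A : PowerSeries ℝ) (m : ℕ)
    (hA : (PowerSeries.X : PowerSeries ℝ) ^ m ∣ A) :
    (PowerSeries.X : PowerSeries ℝ) ^ m ∣ Polynomial.aeval A P := by
  obtain ⟨Q, hQ⟩ := Polynomial.X_dvd_iff.2 hP
  rw [hQ, map_mul, Polynomial.aeval_X]
  exact hA.mul_right _

theorem sty_zero (β : ℕ → Polynomial ℝ) (b : ℕ) (ρ : ℝ) (a : ℕ → ℝ) (h : STy β b ρ a) :
    ∃ w : ℕ, 1 ≤ w ∧ 0 < (β w).coeff 0 := by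
  by_contra hcon
  push Not at hcon
  have h0 : ∀ w, (β w).coeff 0 = 0 := by
    intro w
    rcases Nat.eq_zero_or_pos w with rfl | hw
    · rw [h.zero, Polynomial.coeff_zero]
    · exact le_antisymm (hcon w hw) (h.nonneg w 0)
  have ha : ∀ m, a m = 0 := by
    intro m
    induction m using Nat.strong_induction_on with
    | _ m ih =>
      rw [h.rec_eq m]
      refine Finset.sum_eq_zero fun w hw => ?_
      rw [Finset.mem_range] at hw
      rcases Nat.eq_zero_or_pos w with rfl | hw0
      · rw [h.zero, map_zero, map_zero]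
      · have hA : (PowerSeries.X : PowerSeries ℝ) ^ m ∣ PowerSeries.mk a := by
          rw [PowerSeries.X_pow_dvd_iff]
          intro k hk
          rw [PowerSeries.coeff_mk]
          exact ih k hk
        exact PowerSeries.X_pow_dvd_iff.1 (brE1_dvd (β w) (h0 w) _ m hA) (m - w) (by omega)
  have h1 : HasSum a 0 := by
    have : a = fun _ => 0 := funext ha
    rw [this]
    exact hasSum_zero
  exact one_ne_zero (h.a_sum.unique h1)

theorem sty_two (β : ℕ → Polynomial ℝ) (b : ℕ) (ρ : ℝ) (a : ℕ → ℝ) (h : STy β b ρ a) :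
    ∃ w ν : ℕ, 1 ≤ w ∧ 2 ≤ ν ∧ 0 < (β w).coeff ν := by
  by_contra hcon
  push Not at hcon
  have h0 : ∀ w ν, 2 ≤ ν → (β w).coeff ν = 0 := by
    intro w ν hν
    rcases Nat.eq_zero_or_pos w with rfl | hw
    · rw [h.zero, Polynomial.coeff_zero]
    · exact le_antisymm (hcon w ν hw hν) (h.nonneg w ν)
  have h1 : ∀ w, (β w).eval 1 - (Polynomial.derivative (β w)).eval 1 = (β w).coeff 0 := by
    intro w
    have hd : (β w).natDegree ≤ 1 :=
      Polynomial.natDegree_le_iff_coeff_eq_zero.2 fun N hN => h0 w N hN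
    have he := Polynomial.eq_X_add_C_of_natDegree_le_one hd
    generalize (β w).coeff 0 = c at *
    generalize (β w).coeff 1 = d at *
    rw [he]
    simp
  have h2 := h.mass.sub h.mean
  simp only [h1, sub_self] at h2
  have h3 := (hasSum_zero_iff_of_nonneg fun w => h.nonneg w 0).1 h2
  obtain ⟨w, -, hw⟩ := sty_zero β b ρ a h
  have h4 := congrFun h3 w
  simp only [Pi.zero_apply] at h4
  exact absurd h4 (ne_of_gt hw)

theorem sty_wlk (β : ℕ → Polynomial ℝ) (b : ℕ) (ρ : ℝ) (a : ℕ → ℝ) (h : STy β b ρ a) :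
    Wlk (stp β) (b + 1) ρ := by
  have hc : ∀ w, PowerSeries.coeff w (stp β) = Polynomial.X ^ (w - 1) * β w := by
    intro w
    rw [stp, PowerSeries.coeff_mk]
  have he : ∀ w, (PowerSeries.coeff w (stp β)).eval 1 = (β w).eval 1 := by
    intro w
    rw [hc]
    simp
  constructor
  · intro w e
    rw [hc, Polynomial.coeff_X_pow_mul']
    split_ifs
    · exact h.nonneg _ _
    · exact le_rfl
  · rw [hc, h.zero, mul_zero]
  · intro w
    rw [hc]
    refine Polynomial.natDegree_mul_le.trans ?_
    rw [Polynomial.natDegree_X_pow]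
    have := h.deg w
    have h2 : (b + 1) * w = b * w + w := by ring
    rw [h2]
    omega
  · simp only [he]
    exact h.mass
  · have h1 : ∀ w, (Polynomial.derivative (PowerSeries.coeff w (stp β))).eval 1
        - (w : ℝ) * (PowerSeries.coeff w (stp β)).eval 1 =
        (Polynomial.derivative (β w)).eval 1 - (β w).eval 1 := by
      intro w
      rw [he, hc]
      rcases Nat.eq_zero_or_pos w with rfl | hw
      · simp [h.zero]
      · rw [Polynomial.derivative_mul, Polynomial.derivative_X_pow]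
        simp only [Polynomial.eval_add, Polynomial.eval_mul, Polynomial.eval_pow,
          Polynomial.eval_X, one_pow, mul_one, one_mul, Polynomial.eval_C]
        have h3 : ((w - 1 : ℕ) : ℝ) = (w : ℝ) - 1 := by
          rw [Nat.cast_sub hw, Nat.cast_one]
        rw [h3]
        ring
    simp only [h1]
    have := h.mean.sub h.mass
    rwa [sub_self] at this
  · exact h.one_lt
  · simp only [he]
    exact h.expm

end Pool.Agent.SandBr
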