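import Pool.Agent.SandFin.BrE1
import Pool.Agent.SandFin.BrC6
import Pool.Agent.SandFin.BrD2

set_option autoImplicit false

namespace Pool.Agent.SandBr

/-- the data needed to apply the walk theorems -/
theorem brE2_data (β : ℕ → Polynomial ℝ) (b : ℕ) (ρ : ℝ) (a : ℕ → ℝ) (h : STy β b ρ a) :
    ∃ w₀ w₂ e₂ : ℕ, 1 ≤ w₀ ∧ 0 < (β w₀).coeff 0 ∧
      0 < (PowerSeries.coeff w₀ (stp β)).coeff (w₀ - 1) ∧
      0 < (PowerSeries.coeff w₂ (stp β)).coeff e₂ ∧ w₂ * (w₀ - 1) < w₀ * e₂ := by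
  obtain ⟨w₀, hw₀, h0⟩ := sty_zero β b ρ a h
  obtain ⟨w₂, ν, hw₂, hν, h2⟩ := sty_two β b ρ a h
  refine ⟨w₀, w₂, w₂ - 1 + ν, hw₀, h0, ?_, ?_, ?_⟩
  · rw [stp, PowerSeries.coeff_mk, Polynomial.coeff_X_pow_mul']
    simp [h0]
  · rw [stp, PowerSeries.coeff_mk, Polynomial.coeff_X_pow_mul', if_pos (by omega)]
    rwa [show w₂ - 1 + ν - (w₂ - 1) = ν by omega]
  · obtain ⟨u, rfl⟩ : ∃ u, w₀ = u + 1 := ⟨w₀ - 1, by omega⟩
    obtain ⟨v, rfl⟩ : ∃ v, w₂ = v + 1 := ⟨w₂ - 1, by omega⟩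
    simp only [Nat.add_sub_cancel]
    nlinarith

theorem brE2_mul_le (P Q : Polynomial ℝ) (hP : ∀ i, 0 ≤ P.coeff i) (B : ℝ) (hB : ∀ j, Q.coeff j ≤ B)
    (hB0 : 0 ≤ B) (n : ℕ) : (P * Q).coeff n ≤ P.eval 1 * B := by
  rw [Polynomial.coeff_mul,
    Finset.Nat.sum_antidiagonal_eq_sum_range_succ (fun i j => P.coeff i * Q.coeff j)]
  have h1 : P.eval 1 = ∑ i ∈ Finset.range (max (n + 1) (P.natDegree + 1)), P.coeff i := by
    have hlt : P.natDegree < max (n + 1) (P.natDegree + 1) :=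
      lt_of_lt_of_le (Nat.lt_succ_self _) (le_max_right _ _)
    rw [Polynomial.eval_eq_sum_range' hlt]
    simp only [one_pow, mul_one]
  calc ∑ i ∈ Finset.range (n + 1), P.coeff i * Q.coeff (n - i)
      ≤ ∑ i ∈ Finset.range (n + 1), P.coeff i * B :=
        Finset.sum_le_sum fun i _ => mul_le_mul_of_nonneg_left (hB _) (hP i)
    _ = (∑ i ∈ Finset.range (n + 1), P.coeff i) * B := by rw [Finset.sum_mul]
    _ ≤ P.eval 1 * B := by
        apply mul_le_mul_of_nonneg_right _ hB0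
        rw [h1]
        apply Finset.sum_le_sum_of_subset_of_nonneg
        · exact Finset.range_mono (le_max_left _ _)
        · intro i _ _; exact hP i

theorem brE2_le_mul (P Q : Polynomial ℝ) (hP : ∀ i, 0 ≤ P.coeff i) (hQ : ∀ i, 0 ≤ Q.coeff i)
    (n : ℕ) : P.coeff 0 * Q.coeff n ≤ (P * Q).coeff n := by
  rw [Polynomial.coeff_mul,
    Finset.Nat.sum_antidiagonal_eq_sum_range_succ (fun i j => P.coeff i * Q.coeff j)]
  have := Finset.single_le_sum (s := Finset.range (n + 1)) (f := fun i => P.coeff i * Q.coeff (n - i))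
    (fun i _ => mul_nonneg (hP i) (hQ _)) (Finset.mem_range.2 (Nat.succ_pos n))
  simpa using this

theorem brE2_rpow (m : ℕ) (hm : 1 ≤ m) :
    (m : ℝ) ^ (-(3 / 2 : ℝ)) = 1 / ((m : ℝ) * Real.sqrt m) := by
  have hm0 : (0 : ℝ) < m := by exact_mod_cast hm
  rw [Real.rpow_neg hm0.le, show (3 / 2 : ℝ) = 1 + 1 / 2 by norm_num, Real.rpow_add hm0,
    Real.rpow_one, ← Real.sqrt_eq_rpow, one_div]

theorem brE2_summable (β : ℕ → Polynomial ℝ) (ρ : ℝ) (hβ : ∀ w ν, 0 ≤ (β w).coeff ν) (hρ : 1 < ρ)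
    (hs : Summable (fun w : ℕ => (β w).eval 1 * ρ ^ w)) :
    1 < Real.sqrt ρ ∧ (∀ n : ℕ, 0 ≤ (n : ℝ) * (β n).eval 1) ∧
      Summable (fun n : ℕ => (n : ℝ) * (β n).eval 1 * Real.sqrt ρ ^ n) := by
  have hr : 1 < Real.sqrt ρ := by
    rw [show (1 : ℝ) = Real.sqrt 1 by simp]
    exact Real.sqrt_lt_sqrt zero_le_one hρ
  have he : ∀ n, 0 ≤ (β n).eval 1 := by
    intro n
    rw [Polynomial.eval_eq_sum_range]
    apply Finset.sum_nonneg
    intro i _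
    simpa using hβ n i
  refine ⟨hr, fun n => mul_nonneg (Nat.cast_nonneg n) (he n), ?_⟩
  set r := Real.sqrt ρ with hrdef
  have hrr : r * r = ρ := Real.mul_self_sqrt (by linarith)
  refine Summable.of_nonneg_of_le (fun n => ?_) (fun n => ?_) (hs.mul_left (1 / (r - 1)))
  · exact mul_nonneg (mul_nonneg (Nat.cast_nonneg n) (he n)) (pow_nonneg (by linarith) n)
  · have hb : 1 + (n : ℝ) * (r - 1) ≤ (1 + (r - 1)) ^ n := one_add_mul_le_pow (by linarith) n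
    have hb2 : (n : ℝ) ≤ 1 / (r - 1) * r ^ n := by
      rw [one_div, ← div_eq_inv_mul, le_div_iff₀ (by linarith)]
      have : (1 + (r - 1)) ^ n = r ^ n := by congr 1; ring
      rw [this] at hb
      linarith
    have hrn : 0 ≤ r ^ n := pow_nonneg (by linarith) n
    calc (n : ℝ) * (β n).eval 1 * r ^ n
        ≤ (1 / (r - 1) * r ^ n) * (β n).eval 1 * r ^ n := by
          apply mul_le_mul_of_nonneg_right _ hrn
          exact mul_le_mul_of_nonneg_right hb2 (he n)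
      _ = 1 / (r - 1) * ((β n).eval 1 * ρ ^ n) := by
          rw [← hrr, mul_pow]; ring

theorem sty_upper (β : ℕ → Polynomial ℝ) (b : ℕ) (ρ : ℝ) (a : ℕ → ℝ) (h : STy β b ρ a) :
    ∃ C : ℝ, 0 < C ∧ ∀ m : ℕ, 1 ≤ m → a m ≤ C * (m : ℝ) ^ (-(3 / 2 : ℝ)) := by
  obtain ⟨w₀, w₂, e₂, hw₀, h0, h1, h2, hne⟩ := brE2_data β b ρ a h
  obtain ⟨C, hC, hCu⟩ := walk_upper (stp β) (b + 1) ρ (sty_wlk β b ρ a h) w₀ (w₀ - 1) w₂ e₂ h1 h2 hne
  obtain ⟨hr, hx, hs⟩ := brE2_summable β ρ h.nonneg h.one_lt h.expm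
  obtain ⟨C2, hC2, hC2u⟩ := conv_decay (fun n : ℕ => (n : ℝ) * (β n).eval 1) hx _ hr hs
  refine ⟨C * C2, mul_pos hC hC2, fun m hm => ?_⟩
  have hm0 : (0 : ℝ) < m := by exact_mod_cast hm
  have hg := hit_green β h.zero a h.rec_eq m
  have hup : (m : ℝ) * a m ≤ C * (C2 / Real.sqrt (m + 1)) := by
    rw [hg]
    calc ∑ w ∈ Finset.range (m + 1),
          (w : ℝ) * (β w * PowerSeries.coeff (m - w) (gr (stp β))).coeff (m - w)
        ≤ ∑ w ∈ Finset.range (m + 1),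
          C * ((w : ℝ) * (β w).eval 1 / Real.sqrt ((m - w : ℕ) + 1)) := by
          apply Finset.sum_le_sum
          intro w _
          have := brE2_mul_le (β w) (PowerSeries.coeff (m - w) (gr (stp β))) (h.nonneg w)
            (C / Real.sqrt ((m - w : ℕ) + 1)) (fun j => hCu (m - w) j) (by positivity) (m - w)
          calc (w : ℝ) * (β w * PowerSeries.coeff (m - w) (gr (stp β))).coeff (m - w)
              ≤ (w : ℝ) * ((β w).eval 1 * (C / Real.sqrt ((m - w : ℕ) + 1))) :=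
                mul_le_mul_of_nonneg_left this (Nat.cast_nonneg w)
            _ = C * ((w : ℝ) * (β w).eval 1 / Real.sqrt ((m - w : ℕ) + 1)) := by ring
      _ = C * ∑ w ∈ Finset.range (m + 1),
          (w : ℝ) * (β w).eval 1 / Real.sqrt ((m - w : ℕ) + 1) := by rw [Finset.mul_sum]
      _ ≤ C * (C2 / Real.sqrt (m + 1)) := mul_le_mul_of_nonneg_left (hC2u m) hC.le
  have hsq : 0 < Real.sqrt m := Real.sqrt_pos.2 hm0
  have hle : Real.sqrt m ≤ Real.sqrt (m + 1) := Real.sqrt_le_sqrt (by linarith)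
  rw [brE2_rpow m hm, mul_one_div, le_div_iff₀ (by positivity)]
  have h3 : (m : ℝ) * a m * Real.sqrt m ≤ C * (C2 / Real.sqrt (m + 1)) * Real.sqrt m :=
    mul_le_mul_of_nonneg_right hup hsq.le
  have h4 : C * (C2 / Real.sqrt (m + 1)) * Real.sqrt m ≤ C * C2 := by
    have h5 : Real.sqrt m / Real.sqrt (m + 1) ≤ 1 := by
      rw [div_le_one (by linarith)]; exact hle
    calc C * (C2 / Real.sqrt (m + 1)) * Real.sqrt m
        = C * C2 * (Real.sqrt m / Real.sqrt (m + 1)) := by ring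
      _ ≤ C * C2 * 1 := mul_le_mul_of_nonneg_left h5 (by positivity)
      _ = C * C2 := by ring
  calc a m * ((m : ℝ) * Real.sqrt m) = (m : ℝ) * a m * Real.sqrt m := by ring
    _ ≤ C * C2 := h3.trans h4

theorem sty_lower (β : ℕ → Polynomial ℝ) (b : ℕ) (ρ : ℝ) (a : ℕ → ℝ) (h : STy β b ρ a) :
    ∃ (g r : ℕ) (c : ℝ) (m₀ : ℕ), 1 ≤ g ∧ 0 < c ∧
      ∀ m, m₀ ≤ m → m ≡ r [MOD g] → c * (m : ℝ) ^ (-(3 / 2 : ℝ)) ≤ a m := by
  obtain ⟨w₀, w₂, e₂, hw₀, h0, h1, h2, hne⟩ := brE2_data β b ρ a h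
  have hW := sty_wlk β b ρ a h
  obtain ⟨g, c, n₀, hg, hc, hlow⟩ := walk_lower (stp β) (b + 1) ρ hW w₀ (w₀ - 1) w₂ e₂ h1 h2 hne
  have hN : Nn (gr (stp β)) := Nn.gr hW.nonneg hW.zero
  have hw0' : (0 : ℝ) < w₀ := by exact_mod_cast hw₀
  refine ⟨g, w₀, (w₀ : ℝ) * (β w₀).coeff 0 * c, n₀ + w₀ + 1, hg, by positivity, fun m hm hmod => ?_⟩
  have hm0 : (0 : ℝ) < m := by exact_mod_cast (by omega : 0 < m)
  have hgr := hit_green β h.zero a h.rec_eq m
  have hd : g ∣ m - w₀ := (Nat.modEq_iff_dvd' (by omega)).1 hmod.symm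
  have h3 := hlow (m - w₀) (by omega) hd
  have hterm : (w₀ : ℝ) * (β w₀ * PowerSeries.coeff (m - w₀) (gr (stp β))).coeff (m - w₀) ≤
      (m : ℝ) * a m := by
    rw [hgr]
    have := Finset.single_le_sum (s := Finset.range (m + 1))
      (f := fun w : ℕ => (w : ℝ) * (β w * PowerSeries.coeff (m - w) (gr (stp β))).coeff (m - w))
      (fun w _ => mul_nonneg (Nat.cast_nonneg w)
        (by
          rw [Polynomial.coeff_mul]
          exact Finset.sum_nonneg fun p _ => mul_nonneg (h.nonneg w p.1) (hN (m - w) p.2)))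
      (Finset.mem_range.2 (by omega : w₀ < m + 1))
    exact this
  have h4 : (β w₀).coeff 0 * (PowerSeries.coeff (m - w₀) (gr (stp β))).coeff (m - w₀) ≤
      (β w₀ * PowerSeries.coeff (m - w₀) (gr (stp β))).coeff (m - w₀) :=
    brE2_le_mul _ _ (h.nonneg w₀) (hN (m - w₀)) (m - w₀)
  have hpos : (0 : ℝ) < ((m - w₀ : ℕ) : ℝ) := by exact_mod_cast (by omega : 0 < m - w₀)
  have hsq0 : 0 < Real.sqrt ((m - w₀ : ℕ) : ℝ) := Real.sqrt_pos.2 hpos
  have hsq : Real.sqrt ((m - w₀ : ℕ) : ℝ) ≤ Real.sqrt m :=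
    Real.sqrt_le_sqrt (by exact_mod_cast Nat.sub_le m w₀)
  have h5 : c / Real.sqrt m ≤ c / Real.sqrt ((m - w₀ : ℕ) : ℝ) :=
    div_le_div_of_nonneg_left hc.le hsq0 hsq
  have h6 : (w₀ : ℝ) * (β w₀).coeff 0 * (c / Real.sqrt m) ≤ (m : ℝ) * a m := by
    calc (w₀ : ℝ) * (β w₀).coeff 0 * (c / Real.sqrt m)
        ≤ (w₀ : ℝ) * (β w₀).coeff 0 *
          (PowerSeries.coeff (m - w₀) (gr (stp β))).coeff (m - w₀) :=
          mul_le_mul_of_nonneg_left (h5.trans h3) (by positivity)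
      _ = (w₀ : ℝ) * ((β w₀).coeff 0 *
          (PowerSeries.coeff (m - w₀) (gr (stp β))).coeff (m - w₀)) := by ring
      _ ≤ (w₀ : ℝ) * (β w₀ * PowerSeries.coeff (m - w₀) (gr (stp β))).coeff (m - w₀) :=
          mul_le_mul_of_nonneg_left h4 hw0'.le
      _ ≤ (m : ℝ) * a m := hterm
  rw [brE2_rpow m (by omega), mul_one_div, div_le_iff₀ (by
    have := Real.sqrt_pos.2 hm0
    positivity)]
  have hsm : 0 < Real.sqrt m := Real.sqrt_pos.2 hm0
  have h7 : (w₀ : ℝ) * (β w₀).coeff 0 * (c / Real.sqrt m) * Real.sqrt m ≤ (m : ℝ) * a m * Real.sqrt m :=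
    mul_le_mul_of_nonneg_right h6 hsm.le
  have h8 : (w₀ : ℝ) * (β w₀).coeff 0 * (c / Real.sqrt m) * Real.sqrt m =
      (w₀ : ℝ) * (β w₀).coeff 0 * c := by
    field_simp
  rw [h8] at h7
  calc (w₀ : ℝ) * (β w₀).coeff 0 * c ≤ (m : ℝ) * a m * Real.sqrt m := h7
    _ = a m * ((m : ℝ) * Real.sqrt m) := by ring

end Pool.Agent.SandBr
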