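import Pool.Agent.SandFin.BrBase

set_option autoImplicit false

namespace Pool.Agent.SandBr

variable {Θ Ω : Type} [Fintype Θ] [Fintype Ω]

theorem brF1_rp (t m n : ℝ) (ht : 1 ≤ t) (hm : 0 < m) (hn : 0 < n) (h : n ≤ t * m) :
    m ^ (-(3 / 2 : ℝ)) ≤ t ^ 2 * n ^ (-(3 / 2 : ℝ)) := by
  have ht0 : 0 < t := by linarith
  have h1 : (t * m) ^ (-(3 / 2 : ℝ)) ≤ n ^ (-(3 / 2 : ℝ)) :=
    Real.rpow_le_rpow_of_nonpos hn h (by norm_num)
  rw [Real.mul_rpow ht0.le hm.le] at h1
  have h2 : 1 ≤ t ^ 2 * t ^ (-(3 / 2 : ℝ)) := by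
    rw [← Real.rpow_natCast, ← Real.rpow_add ht0]
    apply Real.one_le_rpow ht
    norm_num
  have h3 : 0 ≤ m ^ (-(3 / 2 : ℝ)) := Real.rpow_nonneg hm.le _
  calc m ^ (-(3 / 2 : ℝ)) = 1 * m ^ (-(3 / 2 : ℝ)) := by ring
    _ ≤ (t ^ 2 * t ^ (-(3 / 2 : ℝ))) * m ^ (-(3 / 2 : ℝ)) := by gcongr
    _ = t ^ 2 * (t ^ (-(3 / 2 : ℝ)) * m ^ (-(3 / 2 : ℝ))) := by ring
    _ ≤ _ := by gcongr

theorem brF1_half (x : ℕ → ℝ) (hx0 : ∀ i, 0 ≤ x i) (hx1 : HasSum x 1) (ε : ℝ) (hε : 0 < ε)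
    (n1 : ℕ) : ∃ n₀ : ℕ, 1 ≤ n₀ ∧ ∀ (D : ℝ), 0 ≤ D → ∀ y : ℕ → ℝ, ∀ n : ℕ, n₀ ≤ n →
      (∀ j, n1 ≤ j → 1 ≤ j → j ≤ n → y j ≤ D * (j : ℝ) ^ (-(3 / 2 : ℝ))) →
      ∑ i ∈ (Finset.range (n + 1)).filter (fun i => 2 * i ≤ n), x i * y (n - i) ≤
        (1 + ε) * D * (n : ℝ) ^ (-(3 / 2 : ℝ)) := by
  obtain ⟨K, hK⟩ : ∃ K : ℕ, 1 - ε / 8 ≤ ∑ i ∈ Finset.range K, x i := by
    have := hx1.tendsto_sum_nat
    have h2 : ∀ᶠ K in Filter.atTop, 1 - ε / 8 < ∑ i ∈ Finset.range K, x i :=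
      this.eventually (lt_mem_nhds (by linarith))
    obtain ⟨K, hK⟩ := h2.exists
    exact ⟨K, hK.le⟩
  set δ : ℝ := min 1 (ε / 6) with hδ
  have hδ0 : 0 < δ := by rw [hδ]; exact lt_min one_pos (by linarith)
  have hδ1 : δ ≤ 1 := min_le_left _ _
  have hδ2 : δ ≤ ε / 6 := min_le_right _ _
  obtain ⟨N, hN⟩ := exists_nat_ge (2 * (K : ℝ) / δ)
  refine ⟨max (max (2 * n1) 2) (max N (2 * K + 1)), ?_, ?_⟩
  · exact le_trans (by norm_num) (le_max_of_le_left (le_max_right _ _))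
  intro D hD y n hn hy
  have hn1 : 2 * n1 ≤ n := by omega
  have hn2 : 2 ≤ n := by omega
  have hn3 : N ≤ n := by omega
  have hn4 : 2 * K + 1 ≤ n := by omega
  have hnpos : (0 : ℝ) < n := by exact_mod_cast (by omega : 0 < n)
  set P : ℝ := (n : ℝ) ^ (-(3 / 2 : ℝ)) with hP
  have hP0 : 0 ≤ P := Real.rpow_nonneg hnpos.le _
  have hKn : (K : ℝ) * (1 + δ) ≤ δ * n := by
    have h1 : 2 * (K : ℝ) / δ ≤ n := hN.trans (by exact_mod_cast hn3)
    rw [div_le_iff₀ hδ0] at h1
    have hK0 : (0 : ℝ) ≤ K := Nat.cast_nonneg K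
    nlinarith
  have hterm : ∀ i ∈ (Finset.range (n + 1)).filter (fun i => 2 * i ≤ n),
      x i * y (n - i) ≤ D * P * ((1 + ε / 2) * x i + 4 * (if K ≤ i then x i else 0)) := by
    intro i hi
    rw [Finset.mem_filter, Finset.mem_range] at hi
    obtain ⟨hi1, hi2⟩ := hi
    have hj := hy (n - i) (by omega) (by omega) (by omega)
    have hcast : ((n - i : ℕ) : ℝ) = n - i := by
      rw [Nat.cast_sub (by omega)]
    rw [hcast] at hj
    have hi2' : 2 * (i : ℝ) ≤ n := by exact_mod_cast hi2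
    have hmpos : (0 : ℝ) < (n : ℝ) - i := by linarith
    have hx := hx0 i
    split_ifs with hKi
    · have h4 := brF1_rp 2 ((n : ℝ) - i) n (by norm_num) hmpos hnpos (by linarith)
      have h5 : y (n - i) ≤ D * (4 * P) := by
        refine hj.trans ?_
        rw [← hP] at h4
        have : D * ((n : ℝ) - i) ^ (-(3 / 2 : ℝ)) ≤ D * (2 ^ 2 * P) := by gcongr
        linarith
      have h6 : x i * y (n - i) ≤ x i * (D * (4 * P)) := by gcongr
      have h7 : 0 ≤ D * P * ((1 + ε / 2) * x i) := by positivity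
      nlinarith
    · push_neg at hKi
      have hiK : (i : ℝ) ≤ K := by exact_mod_cast hKi.le
      have h4 := brF1_rp (1 + δ) ((n : ℝ) - i) n (by linarith) hmpos hnpos (by nlinarith)
      have h8 : (1 + δ) ^ 2 ≤ 1 + ε / 2 := by nlinarith
      have h5 : y (n - i) ≤ D * ((1 + ε / 2) * P) := by
        refine hj.trans ?_
        rw [← hP] at h4
        have : D * ((n : ℝ) - i) ^ (-(3 / 2 : ℝ)) ≤ D * ((1 + δ) ^ 2 * P) := by gcongr
        refine this.trans ?_
        gcongr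
      have h6 : x i * y (n - i) ≤ x i * (D * ((1 + ε / 2) * P)) := by gcongr
      linarith
  have hs1 : ∀ s : Finset ℕ, ∑ i ∈ s, x i ≤ 1 := fun s => sum_le_hasSum s (fun i _ => hx0 i) hx1
  have hs2 : ∑ i ∈ (Finset.range (n + 1)).filter (fun i => 2 * i ≤ n), (if K ≤ i then x i else 0) ≤
      ε / 8 := by
    rw [← Finset.sum_filter]
    have hdisj : Disjoint (Finset.range K) (((Finset.range (n + 1)).filter (fun i => 2 * i ≤ n)).filter
        (fun i => K ≤ i)) := by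
      rw [Finset.disjoint_left]
      intro a ha hb
      rw [Finset.mem_range] at ha
      rw [Finset.mem_filter] at hb
      omega
    have h1 := hs1 (Finset.range K ∪ (((Finset.range (n + 1)).filter (fun i => 2 * i ≤ n)).filter
        (fun i => K ≤ i)))
    rw [Finset.sum_union hdisj] at h1
    linarith
  calc _ ≤ ∑ i ∈ (Finset.range (n + 1)).filter (fun i => 2 * i ≤ n),
        D * P * ((1 + ε / 2) * x i + 4 * (if K ≤ i then x i else 0)) := Finset.sum_le_sum hterm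
    _ = D * P * ((1 + ε / 2) * ∑ i ∈ (Finset.range (n + 1)).filter (fun i => 2 * i ≤ n), x i +
          4 * ∑ i ∈ (Finset.range (n + 1)).filter (fun i => 2 * i ≤ n), (if K ≤ i then x i else 0)) := by
        rw [← Finset.mul_sum, Finset.sum_add_distrib, ← Finset.mul_sum, ← Finset.mul_sum]
    _ ≤ D * P * ((1 + ε / 2) * 1 + 4 * (ε / 8)) := by
        gcongr
        exact hs1 _
    _ = _ := by ring

theorem brF1_nonneg (a : Θ → ℕ → ℝ) (h0 : ∀ θ m, 0 ≤ a θ m) (l : List Θ) (m : ℕ) :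
    0 ≤ convL a l m := by
  induction l generalizing m with
  | nil => rw [convL]; split_ifs <;> norm_num
  | cons θ l ih =>
    rw [convL]
    exact Finset.sum_nonneg fun i _ => mul_nonneg (h0 θ i) (ih _)

theorem brF1_law (a : Θ → ℕ → ℝ) (h0 : ∀ θ m, 0 ≤ a θ m) (h1 : ∀ θ, HasSum (a θ) 1) (l : List Θ) :
    HasSum (convL a l) 1 := by
  induction l with
  | nil =>
    have : convL a ([] : List Θ) = fun m => if m = 0 then 1 else 0 := rfl
    rw [this]
    exact hasSum_ite_eq 0 1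
  | cons θ l ih =>
    have hx : Summable (fun n => ‖a θ n‖) := by
      simpa [Real.norm_eq_abs, abs_of_nonneg (h0 θ _)] using (h1 θ).summable
    have hy : Summable (fun n => ‖convL a l n‖) := by
      simpa [Real.norm_eq_abs, abs_of_nonneg (brF1_nonneg a h0 l _)] using ih.summable
    have h2 := tsum_mul_tsum_eq_tsum_sum_range_of_summable_norm hx hy
    have h3 := (summable_norm_sum_mul_range_of_summable_norm hx hy).of_norm
    rw [(h1 θ).tsum_eq, ih.tsum_eq, one_mul] at h2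
    have : convL a (θ :: l) = fun n => ∑ k ∈ Finset.range (n + 1), a θ k * convL a l (n - k) := rfl
    rw [this, h2]
    exact h3.hasSum

/-- T-F1: subexponential convolution estimate, constants `c` uniform -/
theorem convL_upper (a : Θ → ℕ → ℝ) (h0 : ∀ θ m, 0 ≤ a θ m) (h1 : ∀ θ, HasSum (a θ) 1) (l : List Θ) (ε : ℝ)
    (hε : 0 < ε) : ∃ n₀ : ℕ, 1 ≤ n₀ ∧ ∀ (c : Θ → ℝ), (∀ θ, 0 ≤ c θ) → ∀ n : ℕ, n₀ ≤ n →
      (∀ θ j, 1 ≤ j → j ≤ n → a θ j ≤ c θ * (j : ℝ) ^ (-(3 / 2 : ℝ))) →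
      convL a l n ≤ (1 + ε) * (l.map c).sum * (n : ℝ) ^ (-(3 / 2 : ℝ)) := by
  induction l generalizing ε with
  | nil =>
    refine ⟨1, le_rfl, fun c _ n hn _ => ?_⟩
    rw [convL, if_neg (by omega)]
    simp
  | cons θ l ih =>
    set δ : ℝ := min 1 (ε / 3) with hδ
    have hδ0 : 0 < δ := by rw [hδ]; exact lt_min one_pos (by linarith)
    have hδ1 : δ ≤ 1 := min_le_left _ _
    have hδ2 : δ ≤ ε / 3 := min_le_right _ _
    obtain ⟨n1, hn1, H1⟩ := ih δ hδ0
    obtain ⟨n2, hn2, H2⟩ := brF1_half (a θ) (h0 θ) (h1 θ) δ hδ0 n1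
    obtain ⟨n3, hn3, H3⟩ := brF1_half (convL a l) (brF1_nonneg a h0 l) (brF1_law a h0 h1 l) δ hδ0 1
    refine ⟨max n2 n3, le_max_of_le_left hn2, fun c hc n hn hb => ?_⟩
    have hC : 0 ≤ (l.map c).sum := List.sum_nonneg (by
      intro x hx
      obtain ⟨t, _, rfl⟩ := List.mem_map.1 hx
      exact hc t)
    have A2 := H2 ((1 + δ) * (l.map c).sum) (by positivity) (convL a l) n
      (le_trans (le_max_left _ _) hn) (fun j hj1 _ hj2 => H1 c hc j hj1
        (fun θ i hi1 hi2 => hb θ i hi1 (hi2.trans hj2)))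
    have A3 := H3 (c θ) (hc θ) (a θ) n (le_trans (le_max_right _ _) hn)
      (fun j _ hj1 hj2 => hb θ j hj1 hj2)
    have hnpos : (0 : ℝ) < n := by
      have : 1 ≤ n := (hn2.trans (le_max_left _ _)).trans hn
      exact_mod_cast this
    set P : ℝ := (n : ℝ) ^ (-(3 / 2 : ℝ)) with hP
    have hP0 : 0 ≤ P := Real.rpow_nonneg hnpos.le _
    have hsplit : convL a (θ :: l) n ≤
        ∑ i ∈ (Finset.range (n + 1)).filter (fun i => 2 * i ≤ n), a θ i * convL a l (n - i) +
        ∑ i ∈ (Finset.range (n + 1)).filter (fun i => 2 * i ≤ n), convL a l i * a θ (n - i) := by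
      rw [convL, ← Finset.sum_filter_add_sum_filter_not (Finset.range (n + 1)) (fun i => 2 * i ≤ n)]
      refine add_le_add le_rfl ?_
      have h5 : ∑ i ∈ (Finset.range (n + 1)).filter (fun i => ¬ 2 * i ≤ n),
          a θ i * convL a l (n - i) =
          ∑ i ∈ (Finset.range (n + 1)).filter (fun i => 2 * i < n), convL a l i * a θ (n - i) := by
        refine Finset.sum_bij' (fun i _ => n - i) (fun i _ => n - i) ?_ ?_ ?_ ?_ ?_
        · intro i hi
          simp only [Finset.mem_filter, Finset.mem_range] at hi ⊢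
          omega
        · intro i hi
          simp only [Finset.mem_filter, Finset.mem_range] at hi ⊢
          omega
        · intro i hi
          simp only [Finset.mem_filter, Finset.mem_range] at hi
          omega
        · intro i hi
          simp only [Finset.mem_filter, Finset.mem_range] at hi
          omega
        · intro i hi
          simp only [Finset.mem_filter, Finset.mem_range] at hi
          have : n - (n - i) = i := by omega
          rw [this, mul_comm]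
      rw [h5]
      refine Finset.sum_le_sum_of_subset_of_nonneg ?_ ?_
      · intro i hi
        simp only [Finset.mem_filter, Finset.mem_range] at hi ⊢
        omega
      · intro i _ _
        exact mul_nonneg (brF1_nonneg a h0 l _) (h0 θ _)
    have h8 : (1 + δ) ^ 2 ≤ 1 + ε := by nlinarith
    have hcθ := hc θ
    calc convL a (θ :: l) n ≤ _ := hsplit
      _ ≤ (1 + δ) * ((1 + δ) * (l.map c).sum) * P + (1 + δ) * c θ * P := add_le_add A2 A3
      _ ≤ (1 + δ) ^ 2 * (l.map c).sum * P + (1 + δ) ^ 2 * c θ * P := by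
        have : (1 + δ) * c θ * P ≤ (1 + δ) ^ 2 * c θ * P := by
          gcongr
          nlinarith
        linarith
      _ = (1 + δ) ^ 2 * (c θ + (l.map c).sum) * P := by ring
      _ ≤ (1 + ε) * (c θ + (l.map c).sum) * P := by gcongr
      _ = _ := by rw [List.map_cons, List.sum_cons]

end Pool.Agent.SandBr
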