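import Pool.Agent.SandFin.BrF1

set_option autoImplicit false

namespace Pool.Agent.SandBr

variable {Θ Ω : Type} [Fintype Θ] [Fintype Ω]

theorem brF2_shift (S : ℕ) (ε : ℝ) (hε : 0 < ε) (hε1 : ε ≤ 1) :
    ∃ n₁ : ℕ, ∀ m : ℕ, n₁ ≤ m → ∀ s ≤ S, s < m ∧
      ((m - s : ℕ) : ℝ) ^ (-(3 / 2 : ℝ)) ≤ (1 + ε) * (m : ℝ) ^ (-(3 / 2 : ℝ)) := by
  refine ⟨S + 1 + ⌈3 * (S : ℝ) / ε⌉₊, fun m hm s hs => ?_⟩
  have hsm : s < m := by omega
  refine ⟨hsm, ?_⟩
  have hx1 : ((m - s : ℕ) : ℝ) = (m : ℝ) - s := by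
    rw [Nat.cast_sub hsm.le]
  set x : ℝ := ((m - s : ℕ) : ℝ) with hx
  have hxpos : 0 < x := by
    rw [hx]; exact_mod_cast Nat.sub_pos_of_lt hsm
  have hceil : 3 * (S : ℝ) / ε ≤ (⌈3 * (S : ℝ) / ε⌉₊ : ℝ) := Nat.le_ceil _
  have hnat : ⌈3 * (S : ℝ) / ε⌉₊ ≤ m - s := by omega
  have h3 : 3 * (S : ℝ) / ε ≤ x := hceil.trans (by rw [hx]; exact_mod_cast hnat)
  have h4 : 3 * (S : ℝ) ≤ x * ε := by
    rwa [div_le_iff₀ hε] at h3
  have hsS : (s : ℝ) ≤ S := by exact_mod_cast hs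
  have hm_le : (m : ℝ) ≤ x * (1 + ε / 3) := by nlinarith
  have hmpos : 0 < (m : ℝ) := by
    have : 0 < m := by omega
    exact_mod_cast this
  have h1 : (m : ℝ) ^ (3 / 2 : ℝ) ≤ x ^ (3 / 2 : ℝ) * (1 + ε) := by
    calc (m : ℝ) ^ (3 / 2 : ℝ) ≤ (x * (1 + ε / 3)) ^ (3 / 2 : ℝ) :=
          Real.rpow_le_rpow hmpos.le hm_le (by norm_num)
      _ = x ^ (3 / 2 : ℝ) * (1 + ε / 3) ^ (3 / 2 : ℝ) := by
          rw [Real.mul_rpow hxpos.le (by positivity)]
      _ ≤ x ^ (3 / 2 : ℝ) * (1 + ε) := by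
          have h5 : (1 + ε / 3) ^ (3 / 2 : ℝ) ≤ (1 + ε / 3) ^ (2 : ℝ) :=
            Real.rpow_le_rpow_of_exponent_le (by linarith) (by norm_num)
          have h6 : (1 + ε / 3) ^ (2 : ℝ) ≤ 1 + ε := by
            rw [Real.rpow_two]
            nlinarith
          exact mul_le_mul_of_nonneg_left (h5.trans h6) (Real.rpow_nonneg hxpos.le _)
  rw [Real.rpow_neg hxpos.le, Real.rpow_neg hmpos.le]
  have hA : 0 < x ^ (3 / 2 : ℝ) := Real.rpow_pos_of_pos hxpos _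
  have hB : 0 < (m : ℝ) ^ (3 / 2 : ℝ) := Real.rpow_pos_of_pos hmpos _
  rw [← div_eq_mul_inv, inv_eq_one_div, div_le_div_iff₀ hA hB]
  linarith

theorem brF2_sum (B : BrSys Θ Ω) (θ : Θ) (c : Θ → ℝ) :
    ∑ ω, B.p θ ω * ((B.ch θ ω).map c).sum = ∑ θ', B.mm θ θ' * c θ' := by
  classical
  have h1 : ∀ ω, ((B.ch θ ω).map c).sum = ∑ θ', ((B.ch θ ω).count θ' : ℝ) * c θ' := by
    intro ω
    rw [Finset.sum_list_map_count]
    rw [Finset.sum_subset (Finset.subset_univ _)]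
    · refine Finset.sum_congr rfl fun x _ => ?_
      rw [nsmul_eq_mul]
    · intro x _ hx
      have : (B.ch θ ω).count x = 0 := by
        apply List.count_eq_zero_of_not_mem
        intro h
        exact hx (List.mem_toFinset.mpr h)
      rw [this]; simp
  simp_rw [h1]
  unfold BrSys.mm
  simp_rw [Finset.sum_mul, Finset.mul_sum]
  rw [Finset.sum_comm]
  refine Finset.sum_congr rfl fun x _ => Finset.sum_congr rfl fun ω _ => ?_
  have hc : ∀ (l : List Θ), (@List.count Θ instBEqOfDecidableEq x l : ℝ)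
      = ((@List.count Θ (@instBEqOfDecidableEq Θ (fun a b => Classical.propDecidable (a = b))) x l : ℕ) : ℝ) := by
    intro l
    congr!
  try rw [hc]
  ring

theorem brF2_mm_nonneg (B : BrSys Θ Ω) (θ θ' : Θ) : 0 ≤ B.mm θ θ' := by
  unfold BrSys.mm
  exact Finset.sum_nonneg fun ω _ => mul_nonneg (B.p_nonneg θ ω) (Nat.cast_nonneg _)

/-- T-F2: upper bound for all types -/
theorem upper_all (B : BrSys Θ Ω) (a : Θ → ℕ → ℝ) (ha : B.IsTotal a) (R : Finset Θ) (h : Θ → ℝ)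
    (hR : Cert B.mm R h)
    (hu : ∀ t ∈ R, ∃ C : ℝ, 0 < C ∧ ∀ m : ℕ, 1 ≤ m → a t m ≤ C * (m : ℝ) ^ (-(3 / 2 : ℝ))) :
    ∃ C : ℝ, 0 < C ∧ ∀ θ m, 1 ≤ m → a θ m ≤ C * (m : ℝ) ^ (-(3 / 2 : ℝ)) := by
  classical
  obtain ⟨hh1, hh2⟩ := hR
  -- constants
  have hu' : ∀ t : Θ, ∃ C : ℝ, 0 ≤ C ∧ (t ∈ R → ∀ m : ℕ, 1 ≤ m → a t m ≤ C * (m : ℝ) ^ (-(3 / 2 : ℝ))) := by
    intro t
    by_cases ht : t ∈ R
    · obtain ⟨C, hC, h⟩ := hu t ht
      exact ⟨C, hC.le, fun _ => h⟩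
    · exact ⟨0, le_refl _, fun h => absurd h ht⟩
  choose Ct hCt0 hCt using hu'
  set C0 : ℝ := 1 + ∑ t, Ct t with hC0
  have hC0pos : 0 < C0 := by
    have : 0 ≤ ∑ t, Ct t := Finset.sum_nonneg fun t _ => hCt0 t
    linarith
  have hC0t : ∀ t, Ct t ≤ C0 := by
    intro t
    have : Ct t ≤ ∑ t, Ct t := Finset.single_le_sum (fun t _ => hCt0 t) (Finset.mem_univ t)
    linarith
  set H : ℝ := 1 + ∑ θ, h θ with hH
  have hhpos : ∀ θ, 0 ≤ h θ := fun θ => by linarith [hh1 θ]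
  have hHh : ∀ θ, h θ ≤ H := by
    intro t
    have : h t ≤ ∑ t, h t := Finset.single_le_sum (fun t _ => hhpos t) (Finset.mem_univ t)
    linarith
  have hH1 : 1 ≤ H := by
    have : 0 ≤ ∑ t, h t := Finset.sum_nonneg fun t _ => hhpos t
    linarith
  set Mtot : ℝ := 1 + ∑ θ, ∑ θ', B.mm θ θ' with hMtot
  have hMrow : ∀ θ, ∑ θ', B.mm θ θ' ≤ Mtot := by
    intro θ
    have h1 : ∑ θ', B.mm θ θ' ≤ ∑ θ, ∑ θ', B.mm θ θ' :=
      Finset.single_le_sum (f := fun θ => ∑ θ', B.mm θ θ')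
        (fun θ _ => Finset.sum_nonneg fun θ' _ => brF2_mm_nonneg B θ θ') (Finset.mem_univ θ)
    linarith
  have hMtot0 : 0 < Mtot := by
    have : 0 ≤ ∑ θ, ∑ θ', B.mm θ θ' :=
      Finset.sum_nonneg fun θ _ => Finset.sum_nonneg fun θ' _ => brF2_mm_nonneg B θ θ'
    linarith
  set ε : ℝ := 1 / (8 * H) with hε
  have hεpos : 0 < ε := by rw [hε]; positivity
  have hεH : ε * H = 1 / 8 := by
    rw [hε]; field_simp
  have hε1 : ε ≤ 1 := by nlinarith
  -- thresholds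
  have hconv := fun (θ : Θ) (ω : Ω) =>
    convL_upper a ha.nonneg ha.hasSum (B.ch θ ω) ε hεpos
  choose n₀ hn₀1 hn₀ using hconv
  set S : ℕ := ∑ θ, ∑ ω, B.s θ ω with hS
  have hsS : ∀ θ ω, B.s θ ω ≤ S := by
    intro θ ω
    calc B.s θ ω ≤ ∑ ω, B.s θ ω :=
          Finset.single_le_sum (f := fun ω => B.s θ ω) (fun _ _ => Nat.zero_le _) (Finset.mem_univ ω)
      _ ≤ S := Finset.single_le_sum (f := fun θ => ∑ ω, B.s θ ω) (fun _ _ => Nat.zero_le _)
          (Finset.mem_univ θ)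
  obtain ⟨n₁, hn₁⟩ := brF2_shift S ε hεpos hε1
  set N₀ : ℕ := ∑ θ, ∑ ω, n₀ θ ω with hN₀
  have hnN : ∀ θ ω, n₀ θ ω ≤ N₀ := by
    intro θ ω
    calc n₀ θ ω ≤ ∑ ω, n₀ θ ω :=
          Finset.single_le_sum (f := fun ω => n₀ θ ω) (fun _ _ => Nat.zero_le _) (Finset.mem_univ ω)
      _ ≤ N₀ := Finset.single_le_sum (f := fun θ => ∑ ω, n₀ θ ω) (fun _ _ => Nat.zero_le _)
          (Finset.mem_univ θ)
  set N : ℕ := n₁ + N₀ + S + 1 with hN
  set C : ℝ := 2 * C0 * Mtot + (N : ℝ) ^ (3 / 2 : ℝ) with hC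
  have hNpos : (0 : ℝ) < N := by
    have : 0 < N := by omega
    exact_mod_cast this
  have hCN : (N : ℝ) ^ (3 / 2 : ℝ) ≤ C := by
    have : 0 ≤ 2 * C0 * Mtot := by positivity
    linarith
  have hCM : 2 * C0 * Mtot ≤ C := by
    have : 0 ≤ (N : ℝ) ^ (3 / 2 : ℝ) := Real.rpow_nonneg hNpos.le _
    linarith
  have hCpos : 0 < C := lt_of_lt_of_le (by positivity) hCM
  -- the comparison constants
  set c : Θ → ℝ := fun θ => if θ ∈ R then C0 else C * h θ with hc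
  have hc0 : ∀ θ, 0 ≤ c θ := by
    intro θ
    simp only [hc]
    split_ifs
    · exact hC0pos.le
    · exact mul_nonneg hCpos.le (hhpos θ)
  have hle1 : ∀ θ m, a θ m ≤ 1 := by
    intro θ m
    exact le_hasSum (ha.hasSum θ) m (fun b _ => ha.nonneg θ b)
  have hrowsum : ∀ θ, ∑ θ', B.mm θ θ' * c θ' ≤ C * (h θ - 1 / 2) := by
    intro θ
    have h1 : ∀ θ', B.mm θ θ' * c θ' ≤ C * (if θ' ∈ R then 0 else B.mm θ θ' * h θ') + C0 * B.mm θ θ' := by
      intro θ'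
      simp only [hc]
      split_ifs
      · linarith
      · have := mul_nonneg hC0pos.le (brF2_mm_nonneg B θ θ')
        nlinarith
    have h2 : ∑ θ', B.mm θ θ' * c θ' ≤
        C * ∑ θ', (if θ' ∈ R then 0 else B.mm θ θ' * h θ') + C0 * ∑ θ', B.mm θ θ' := by
      rw [Finset.mul_sum, Finset.mul_sum, ← Finset.sum_add_distrib]
      exact Finset.sum_le_sum fun θ' _ => h1 θ'
    have h3 : ∑ θ', (if θ' ∈ R then 0 else B.mm θ θ' * h θ') ≤ h θ - 1 := by
      have := hh2 θ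
      have h4 : ∑ θ', (if θ' ∈ R then (0:ℝ) else B.mm θ θ' * h θ') =
        ∑ θ', (@ite ℝ (θ' ∈ R) (Classical.propDecidable _) 0 (B.mm θ θ' * h θ')) := by
        refine Finset.sum_congr rfl fun x _ => ?_
        congr!
      linarith
    have h5 : C0 * ∑ θ', B.mm θ θ' ≤ C / 2 := by
      have := mul_le_mul_of_nonneg_left (hMrow θ) hC0pos.le
      linarith
    have h6 : C * ∑ θ', (if θ' ∈ R then 0 else B.mm θ θ' * h θ') ≤ C * (h θ - 1) :=
      mul_le_mul_of_nonneg_left h3 hCpos.le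
    calc ∑ θ', B.mm θ θ' * c θ' ≤ _ := h2
      _ ≤ C * (h θ - 1) + C / 2 := add_le_add h6 h5
      _ = C * (h θ - 1 / 2) := by ring
  -- main induction
  have main : ∀ m : ℕ, 1 ≤ m → ∀ θ, a θ m ≤ c θ * (m : ℝ) ^ (-(3 / 2 : ℝ)) := by
    intro m
    induction m using Nat.strong_induction_on with
    | _ m ih =>
      intro hm θ
      have hmpos : (0 : ℝ) < m := by exact_mod_cast hm
      have hmp : 0 < (m : ℝ) ^ (-(3 / 2 : ℝ)) := Real.rpow_pos_of_pos hmpos _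
      by_cases hθ : θ ∈ R
      · have h1 := hCt θ hθ m hm
        have h2 : c θ = C0 := by simp only [hc]; rw [if_pos hθ]
        rw [h2]
        exact h1.trans (mul_le_mul_of_nonneg_right (hC0t θ) hmp.le)
      have hcθ : c θ = C * h θ := by simp only [hc]; rw [if_neg hθ]
      rw [hcθ]
      by_cases hmN : m < N
      · -- small m
        have h1 : (m : ℝ) ^ (3 / 2 : ℝ) ≤ C :=
          (Real.rpow_le_rpow hmpos.le (by exact_mod_cast hmN.le) (by norm_num)).trans hCN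
        have h2 : 1 ≤ C * (m : ℝ) ^ (-(3 / 2 : ℝ)) := by
          rw [Real.rpow_neg hmpos.le, ← div_eq_mul_inv, le_div_iff₀ (Real.rpow_pos_of_pos hmpos _)]
          linarith
        calc a θ m ≤ 1 := hle1 θ m
          _ ≤ C * (m : ℝ) ^ (-(3 / 2 : ℝ)) := h2
          _ ≤ C * h θ * (m : ℝ) ^ (-(3 / 2 : ℝ)) := by
            have := hh1 θ
            have h3 : C * 1 ≤ C * h θ := mul_le_mul_of_nonneg_left this hCpos.le
            rw [mul_one] at h3
            exact mul_le_mul_of_nonneg_right h3 hmp.le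
      push Not at hmN
      have hterm : ∀ ω, (if B.s θ ω ≤ m then convL a (B.ch θ ω) (m - B.s θ ω) else 0) ≤
          (1 + ε) * ((B.ch θ ω).map c).sum * ((1 + ε) * (m : ℝ) ^ (-(3 / 2 : ℝ))) := by
        intro ω
        have hsm := hsS θ ω
        have hs1 := B.s_pos θ ω
        rw [if_pos (by omega)]
        have hn := hnN θ ω
        have h1 := hn₀ θ ω c hc0 (m - B.s θ ω) (by omega) (by
          intro θ' j hj1 hj2
          exact ih j (by omega) hj1 θ')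
        have h2 := (hn₁ m (by omega) (B.s θ ω) hsm).2
        refine h1.trans ?_
        refine mul_le_mul_of_nonneg_left h2 ?_
        refine mul_nonneg (by linarith) ?_
        refine List.sum_nonneg ?_
        intro x hx
        rw [List.mem_map] at hx
        obtain ⟨y, _, rfl⟩ := hx
        exact hc0 y
      rw [ha.rec_eq θ m]
      calc ∑ ω, B.p θ ω * (if B.s θ ω ≤ m then convL a (B.ch θ ω) (m - B.s θ ω) else 0)
          ≤ ∑ ω, B.p θ ω * ((1 + ε) * ((B.ch θ ω).map c).sum * ((1 + ε) * (m : ℝ) ^ (-(3 / 2 : ℝ)))) :=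
            Finset.sum_le_sum fun ω _ => mul_le_mul_of_nonneg_left (hterm ω) (B.p_nonneg θ ω)
        _ = (1 + ε) ^ 2 * (∑ ω, B.p θ ω * ((B.ch θ ω).map c).sum) * (m : ℝ) ^ (-(3 / 2 : ℝ)) := by
            rw [Finset.mul_sum, Finset.sum_mul]
            refine Finset.sum_congr rfl fun ω _ => ?_
            ring
        _ = (1 + ε) ^ 2 * (∑ θ', B.mm θ θ' * c θ') * (m : ℝ) ^ (-(3 / 2 : ℝ)) := by
            rw [brF2_sum]
        _ ≤ (1 + ε) ^ 2 * (C * (h θ - 1 / 2)) * (m : ℝ) ^ (-(3 / 2 : ℝ)) := by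
            refine mul_le_mul_of_nonneg_right ?_ hmp.le
            exact mul_le_mul_of_nonneg_left (hrowsum θ) (by positivity)
        _ ≤ C * h θ * (m : ℝ) ^ (-(3 / 2 : ℝ)) := by
            refine mul_le_mul_of_nonneg_right ?_ hmp.le
            have h7 : (1 + ε) ^ 2 * (h θ - 1 / 2) ≤ h θ := by
              have h8 := hHh θ
              have h9 := hh1 θ
              have h10 : ε * h θ ≤ 1 / 8 := by
                rw [← hεH]; exact mul_le_mul_of_nonneg_left h8 hεpos.le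
              nlinarith [mul_nonneg hεpos.le (sub_nonneg.mpr hε1)]
            calc (1 + ε) ^ 2 * (C * (h θ - 1 / 2)) = C * ((1 + ε) ^ 2 * (h θ - 1 / 2)) := by ring
              _ ≤ C * h θ := mul_le_mul_of_nonneg_left h7 hCpos.le
  refine ⟨C0 + C * H, by positivity, fun θ m hm => ?_⟩
  have hmpos : (0 : ℝ) < m := by exact_mod_cast hm
  refine (main m hm θ).trans (mul_le_mul_of_nonneg_right ?_ (Real.rpow_nonneg hmpos.le _))
  simp only [hc]
  split_ifs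
  · have : 0 ≤ C * H := by positivity
    linarith
  · have := mul_le_mul_of_nonneg_left (hHh θ) hCpos.le
    linarith

end Pool.Agent.SandBr
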