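import Pool.Agent.SandFin.BrBase

set_option autoImplicit false

namespace Pool.Agent.SandBr

variable {Θ Ω : Type} [Fintype Θ] [Fintype Ω]

theorem brF3_conv (f : ℕ → ℕ → ℝ) (hf : ∀ i j, 0 ≤ f i j) (N : ℕ) :
    ∑ m ∈ Finset.range (N + 1), ∑ i ∈ Finset.range (m + 1), f i (m - i) ≤
      ∑ i ∈ Finset.range (N + 1), ∑ j ∈ Finset.range (N + 1), f i j := by
  rw [Finset.sum_range_diag_flip]
  refine Finset.sum_le_sum fun i _ => ?_
  exact Finset.sum_le_sum_of_subset_of_nonneg (Finset.range_mono (by omega))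
    (fun j _ _ => hf i j)

theorem brF3_convL_nonneg {Θ : Type} (a : Θ → ℕ → ℝ) (h0 : ∀ θ m, 0 ≤ a θ m) (l : List Θ) (m : ℕ) :
    0 ≤ convL a l m := by
  induction l generalizing m with
  | nil => simp only [convL]; split_ifs <;> norm_num
  | cons c l ih =>
    simp only [convL]
    exact Finset.sum_nonneg fun i _ => mul_nonneg (h0 c i) (ih _)

theorem brF3_convL_sum_le {Θ : Type} (a : Θ → ℕ → ℝ) (h0 : ∀ θ m, 0 ≤ a θ m)
    (h1 : ∀ θ, HasSum (a θ) 1) (l : List Θ) (N : ℕ) :
    ∑ m ∈ Finset.range (N + 1), convL a l m ≤ 1 := by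
  induction l generalizing N with
  | nil => simp [convL]
  | cons c l ih =>
    simp only [convL]
    refine (brF3_conv (fun i j => a c i * convL a l j)
      (fun i j => mul_nonneg (h0 c i) (brF3_convL_nonneg a h0 l j)) N).trans ?_
    have e1 : ∑ i ∈ Finset.range (N + 1), ∑ j ∈ Finset.range (N + 1), a c i * convL a l j =
        (∑ i ∈ Finset.range (N + 1), a c i) * ∑ j ∈ Finset.range (N + 1), convL a l j := by
      rw [Finset.sum_mul_sum]
    rw [e1]
    have e2 : ∑ i ∈ Finset.range (N + 1), a c i ≤ 1 :=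
      sum_le_hasSum _ (fun i _ => h0 c i) (h1 c)
    have e3 := ih N
    have e4 : 0 ≤ ∑ j ∈ Finset.range (N + 1), convL a l j :=
      Finset.sum_nonneg fun j _ => brF3_convL_nonneg a h0 l j
    exact mul_le_one₀ e2 e4 e3

theorem brF3_convL_mean {Θ : Type} (a : Θ → ℕ → ℝ) (h0 : ∀ θ m, 0 ≤ a θ m)
    (h1 : ∀ θ, HasSum (a θ) 1) (l : List Θ) (N : ℕ) :
    ∑ m ∈ Finset.range (N + 1), (m : ℝ) * convL a l m ≤
      (l.map (fun c => ∑ m ∈ Finset.range (N + 1), (m : ℝ) * a c m)).sum := by
  induction l with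
  | nil =>
    simp only [convL, List.map_nil, List.sum_nil]
    apply le_of_eq
    apply Finset.sum_eq_zero
    intro m _
    split_ifs with h
    · simp [h]
    · simp
  | cons c l ih =>
    simp only [convL, List.map_cons, List.sum_cons]
    have e0 : ∑ m ∈ Finset.range (N + 1), (m : ℝ) *
        ∑ i ∈ Finset.range (m + 1), a c i * convL a l (m - i) =
        ∑ m ∈ Finset.range (N + 1), ∑ i ∈ Finset.range (m + 1),
          (fun i j : ℕ => ((i : ℝ) + j) * (a c i * convL a l j)) i (m - i) := by
      refine Finset.sum_congr rfl fun m _ => ?_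
      rw [Finset.mul_sum]
      refine Finset.sum_congr rfl fun i hi => ?_
      have : i ≤ m := Nat.lt_succ_iff.mp (Finset.mem_range.mp hi)
      have h2 : ((i : ℝ) + ((m - i : ℕ) : ℝ)) = m := by
        rw [Nat.cast_sub this]; ring
      simp only [h2]
    rw [e0]
    refine (brF3_conv (fun i j : ℕ => ((i : ℝ) + j) * (a c i * convL a l j))
      (fun i j => mul_nonneg (by positivity)
      (mul_nonneg (h0 c i) (brF3_convL_nonneg a h0 l j))) N).trans ?_
    have e1 : ∑ i ∈ Finset.range (N + 1), ∑ j ∈ Finset.range (N + 1),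
        ((i : ℝ) + j) * (a c i * convL a l j) =
        (∑ i ∈ Finset.range (N + 1), (i : ℝ) * a c i) * (∑ j ∈ Finset.range (N + 1), convL a l j)
        + (∑ i ∈ Finset.range (N + 1), a c i) *
          (∑ j ∈ Finset.range (N + 1), (j : ℝ) * convL a l j) := by
      rw [Finset.sum_mul_sum, Finset.sum_mul_sum, ← Finset.sum_add_distrib]
      refine Finset.sum_congr rfl fun i _ => ?_
      rw [← Finset.sum_add_distrib]
      refine Finset.sum_congr rfl fun j _ => ?_
      ring
    rw [e1]
    have e2 : ∑ i ∈ Finset.range (N + 1), a c i ≤ 1 :=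
      sum_le_hasSum _ (fun i _ => h0 c i) (h1 c)
    have e3 := brF3_convL_sum_le a h0 h1 l N
    have e4 : 0 ≤ ∑ j ∈ Finset.range (N + 1), (j : ℝ) * convL a l j :=
      Finset.sum_nonneg fun j _ => mul_nonneg (by positivity) (brF3_convL_nonneg a h0 l j)
    have e5 : 0 ≤ ∑ i ∈ Finset.range (N + 1), (i : ℝ) * a c i :=
      Finset.sum_nonneg fun j _ => mul_nonneg (by positivity) (h0 c j)
    have f1 := mul_le_of_le_one_right e5 e3
    have f2 := mul_le_of_le_one_left e4 e2
    linarith

open Classical in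
/-- sums over lists and counts -/
theorem brF3_list_count (l : List Θ) (f : Θ → ℝ) :
    (l.map f).sum = ∑ θ', (l.count θ' : ℝ) * f θ' := by
  induction l with
  | nil => simp
  | cons c l ih =>
    simp only [List.map_cons, List.sum_cons, ih, List.count_cons]
    push_cast
    simp only [add_mul, Finset.sum_add_distrib]
    rw [add_comm]
    congr 1
    rw [Finset.sum_eq_single c]
    · simp
    · intro b _ hb
      have : ¬ (c = b) := fun h => hb h.symm
      simp [this]
    · simp

theorem brF3_mm_sum (B : BrSys Θ Ω) (θ : Θ) (f : Θ → ℝ) :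
    ∑ ω, B.p θ ω * ((B.ch θ ω).map f).sum = ∑ θ', B.mm θ θ' * f θ' := by
  classical
  simp only [brF3_list_count, BrSys.mm, Finset.sum_mul, Finset.mul_sum]
  rw [Finset.sum_comm]
  refine Finset.sum_congr rfl fun θ' _ => Finset.sum_congr rfl fun ω _ => ?_
  ring

/-- T-F3: finite mean if no recurrent type can be reached -/
theorem finite_mean (B : BrSys Θ Ω) (a : Θ → ℕ → ℝ) (ha : B.IsTotal a) (R : Finset Θ) (h : Θ → ℝ)
    (hR : Cert B.mm R h) (S : Finset Θ) (hS : ∀ θ ∈ S, θ ∉ R)
    (hcl : ∀ θ ∈ S, ∀ ω, 0 < B.p θ ω → ∀ c ∈ B.ch θ ω, c ∈ S) (θ : Θ) (hθ : θ ∈ S) :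
    Summable (fun m : ℕ => (m : ℝ) * a θ m) := by
  classical
  -- maximal size
  obtain ⟨s0, hs0⟩ : ∃ s0 : ℝ, 0 ≤ s0 ∧ ∀ θ ω, (B.s θ ω : ℝ) ≤ s0 := by
    refine ⟨∑ θ, ∑ ω, (B.s θ ω : ℝ), by positivity, fun θ ω => ?_⟩
    refine le_trans ?_ (Finset.single_le_sum (f := fun θ => ∑ ω, (B.s θ ω : ℝ))
      (fun i _ => by positivity) (Finset.mem_univ θ))
    exact Finset.single_le_sum (f := fun ω => (B.s θ ω : ℝ))
      (fun i _ => by positivity) (Finset.mem_univ ω)
  have hzero : ∀ θ ∈ S, ∀ θ' ∈ R, B.mm θ θ' = 0 := by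
    intro θ hθ θ' hθ'
    unfold BrSys.mm
    refine Finset.sum_eq_zero fun ω _ => ?_
    rcases (B.p_nonneg θ ω).lt_or_eq with hp | hp
    · have : List.count θ' (B.ch θ ω) = 0 := by
        rw [List.count_eq_zero]
        intro hc
        exact hS θ' (hcl θ hθ ω hp θ' hc) hθ'
      simp [this]
    · simp [← hp]
  have key : ∀ N : ℕ, ∀ θ ∈ S, ∑ m ∈ Finset.range (N + 1), (m : ℝ) * a θ m ≤ s0 * h θ := by
    intro N
    induction N with
    | zero =>
      intro θ _
      simp only [zero_add, Finset.range_one, Finset.sum_singleton, Nat.cast_zero, zero_mul]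
      exact mul_nonneg hs0.1 (le_trans zero_le_one (hR.1 θ))
    | succ N ih =>
      intro θ hθ
      have e1 : ∑ m ∈ Finset.range (N + 1 + 1), (m : ℝ) * a θ m =
          ∑ ω, B.p θ ω * ∑ m ∈ Finset.range (N + 1 + 1), (m : ℝ) *
            (if B.s θ ω ≤ m then convL a (B.ch θ ω) (m - B.s θ ω) else 0) := by
        simp only [ha.rec_eq θ, Finset.mul_sum]
        rw [Finset.sum_comm]
        refine Finset.sum_congr rfl fun ω _ => Finset.sum_congr rfl fun m _ => ?_
        ring
      rw [e1]
      have e2 : ∀ ω, ∑ m ∈ Finset.range (N + 1 + 1), (m : ℝ) *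
            (if B.s θ ω ≤ m then convL a (B.ch θ ω) (m - B.s θ ω) else 0) ≤
          s0 + ((B.ch θ ω).map (fun c => ∑ m ∈ Finset.range (N + 1), (m : ℝ) * a c m)).sum := by
        intro ω
        have hs1 := B.s_pos θ ω
        have f1 : ∑ m ∈ Finset.range (N + 1 + 1), (m : ℝ) *
            (if B.s θ ω ≤ m then convL a (B.ch θ ω) (m - B.s θ ω) else 0) ≤
            ∑ j ∈ Finset.range (N + 1), ((B.s θ ω : ℝ) + j) * convL a (B.ch θ ω) j := by
          have g1 : ∑ m ∈ Finset.range (N + 1 + 1), (m : ℝ) *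
              (if B.s θ ω ≤ m then convL a (B.ch θ ω) (m - B.s θ ω) else 0) =
              ∑ m ∈ (Finset.range (N + 1 + 1)).filter (fun m => B.s θ ω ≤ m), (m : ℝ) *
                convL a (B.ch θ ω) (m - B.s θ ω) := by
            rw [Finset.sum_filter]
            refine Finset.sum_congr rfl fun m _ => ?_
            split_ifs <;> simp
          rw [g1]
          have g2 : ∑ m ∈ (Finset.range (N + 1 + 1)).filter (fun m => B.s θ ω ≤ m), (m : ℝ) *
                convL a (B.ch θ ω) (m - B.s θ ω) =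
              ∑ j ∈ ((Finset.range (N + 1 + 1)).filter (fun m => B.s θ ω ≤ m)).image
                (fun m => m - B.s θ ω), ((B.s θ ω : ℝ) + j) * convL a (B.ch θ ω) j := by
            rw [Finset.sum_image]
            · refine Finset.sum_congr rfl fun m hm => ?_
              have hm' := (Finset.mem_filter.mp hm).2
              rw [Nat.cast_sub hm']
              ring
            · intro x hx y hy hxy
              have hx' := (Finset.mem_filter.mp hx).2
              have hy' := (Finset.mem_filter.mp hy).2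
              simp only at hxy
              omega
          rw [g2]
          refine Finset.sum_le_sum_of_subset_of_nonneg ?_ (fun j _ _ =>
            mul_nonneg (by positivity) (brF3_convL_nonneg a ha.nonneg _ _))
          intro j hj
          obtain ⟨m, hm, rfl⟩ := Finset.mem_image.mp hj
          have hm' := Finset.mem_filter.mp hm
          have := Finset.mem_range.mp hm'.1
          have h3 := hm'.2
          simp only [Finset.mem_range]
          omega
        refine f1.trans ?_
        simp only [add_mul, Finset.sum_add_distrib, ← Finset.mul_sum]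
        have f2 := brF3_convL_sum_le a ha.nonneg ha.hasSum (B.ch θ ω) N
        have f3 := brF3_convL_mean a ha.nonneg ha.hasSum (B.ch θ ω) N
        have f4 : (B.s θ ω : ℝ) * ∑ m ∈ Finset.range (N + 1), convL a (B.ch θ ω) m ≤ s0 :=
          (mul_le_of_le_one_right (by positivity) f2).trans (hs0.2 θ ω)
        exact add_le_add f4 f3
      have e3 : ∑ ω, B.p θ ω * ∑ m ∈ Finset.range (N + 1 + 1), (m : ℝ) *
            (if B.s θ ω ≤ m then convL a (B.ch θ ω) (m - B.s θ ω) else 0) ≤
          ∑ ω, B.p θ ω * (s0 + s0 * ((B.ch θ ω).map h).sum) := by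
        refine Finset.sum_le_sum fun ω _ => ?_
        rcases (B.p_nonneg θ ω).lt_or_eq with hp | hp
        · refine mul_le_mul_of_nonneg_left ((e2 ω).trans ?_) hp.le
          refine add_le_add le_rfl ?_
          rw [← List.sum_map_mul_left]
          refine List.sum_le_sum ?_
          intro c hc
          exact ih c (hcl θ hθ ω hp c hc)
        · simp [← hp]
      refine e3.trans ?_
      have e4 : ∑ ω, B.p θ ω * (s0 + s0 * ((B.ch θ ω).map h).sum) =
          s0 * (1 + ∑ ω, B.p θ ω * ((B.ch θ ω).map h).sum) := by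
        rw [mul_add, Finset.mul_sum, ← B.p_sum θ, Finset.mul_sum, ← Finset.sum_add_distrib]
        exact Finset.sum_congr rfl fun ω _ => by ring
      rw [e4, brF3_mm_sum]
      refine mul_le_mul_of_nonneg_left ?_ hs0.1
      have e5 : ∑ θ', B.mm θ θ' * h θ' = ∑ θ' , (if θ' ∈ R then 0 else B.mm θ θ' * h θ') := by
        refine Finset.sum_congr rfl fun θ' _ => ?_
        split_ifs with hc
        · rw [hzero θ hθ θ' hc, zero_mul]
        · rfl
      rw [e5]
      exact hR.2 θ
  refine summable_of_sum_range_le (c := s0 * h θ)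
    (fun m => mul_nonneg (by positivity) (ha.nonneg θ m)) (fun n => ?_)
  refine le_trans ?_ (key n θ hθ)
  exact Finset.sum_le_sum_of_subset_of_nonneg (Finset.range_mono (by omega))
    (fun m _ _ => mul_nonneg (by positivity) (ha.nonneg θ m))

end Pool.Agent.SandBr
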