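import Pool.Agent.SandFin.BrF3

set_option autoImplicit false

namespace Pool.Agent.SandBr

variable {Θ Ω : Type} [Fintype Θ] [Fintype Ω]

theorem brF4_pos {Θ : Type} (a : Θ → ℕ → ℝ) (h0 : ∀ θ m, 0 ≤ a θ m) (h1 : ∀ θ, HasSum (a θ) 1)
    (c : Θ) : ∃ i, 0 < a c i := by
  by_contra hcon
  push Not at hcon
  have : a c = fun _ => 0 := by
    funext i
    exact le_antisymm (hcon i) (h0 c i)
  have h2 := h1 c
  rw [this] at h2
  have := h2.unique hasSum_zero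
  norm_num at this

theorem brF4_ge {Θ : Type} (a : Θ → ℕ → ℝ) (h0 : ∀ θ m, 0 ≤ a θ m) (c : Θ) (l : List Θ) (i j : ℕ) :
    a c i * convL a l j ≤ convL a (c :: l) (i + j) := by
  simp only [convL]
  have h := Finset.single_le_sum (f := fun i' => a c i' * convL a l (i + j - i'))
    (s := Finset.range (i + j + 1))
    (fun i' _ => mul_nonneg (h0 c i') (brF3_convL_nonneg a h0 l _))
    (Finset.mem_range.mpr (show i < i + j + 1 by omega))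
  simpa using h

theorem brF4_convL_pos {Θ : Type} (a : Θ → ℕ → ℝ) (h0 : ∀ θ m, 0 ≤ a θ m)
    (h1 : ∀ θ, HasSum (a θ) 1) (l : List Θ) : ∃ k, 0 < convL a l k := by
  induction l with
  | nil => exact ⟨0, by simp [convL]⟩
  | cons c l ih =>
    obtain ⟨k, hk⟩ := ih
    obtain ⟨i, hi⟩ := brF4_pos a h0 h1 c
    exact ⟨i + k, lt_of_lt_of_le (mul_pos hi hk) (brF4_ge a h0 c l i k)⟩

theorem brF4_list {Θ : Type} (a : Θ → ℕ → ℝ) (h0 : ∀ θ m, 0 ≤ a θ m)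
    (h1 : ∀ θ, HasSum (a θ) 1) (c : Θ) (l : List Θ) (hc : c ∈ l) :
    ∃ (k : ℕ) (κ : ℝ), 0 < κ ∧ ∀ m, κ * a c m ≤ convL a l (m + k) := by
  induction l with
  | nil => simp at hc
  | cons d l ih =>
    rcases List.mem_cons.mp hc with rfl | hc'
    · obtain ⟨k, hk⟩ := brF4_convL_pos a h0 h1 l
      refine ⟨k, convL a l k, hk, fun m => ?_⟩
      rw [mul_comm]
      exact brF4_ge a h0 c l m k
    · obtain ⟨k, κ, hκ, hm⟩ := ih hc'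
      obtain ⟨i, hi⟩ := brF4_pos a h0 h1 d
      refine ⟨k + i, a d i * κ, mul_pos hi hκ, fun m => ?_⟩
      have h2 := brF4_ge a h0 d l i (m + k)
      have h3 : i + (m + k) = m + (k + i) := by omega
      rw [h3] at h2
      refine le_trans ?_ h2
      rw [mul_assoc]
      exact mul_le_mul_of_nonneg_left (hm m) hi.le

/-- T-F4: lower bounds pass to a parent -/
theorem lower_step (B : BrSys Θ Ω) (a : Θ → ℕ → ℝ) (ha : B.IsTotal a) (θ c : Θ) (ω : Ω)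
    (hp : 0 < B.p θ ω) (hc : c ∈ B.ch θ ω) :
    ∃ (k : ℕ) (κ : ℝ), 0 < κ ∧ ∀ m, κ * a c m ≤ a θ (m + k) := by
  obtain ⟨k, κ, hκ, hm⟩ := brF4_list a ha.nonneg ha.hasSum c (B.ch θ ω) hc
  refine ⟨k + B.s θ ω, B.p θ ω * κ, mul_pos hp hκ, fun m => ?_⟩
  rw [ha.rec_eq θ]
  refine le_trans ?_ (Finset.single_le_sum (f := fun ω' => B.p θ ω' *
      (if B.s θ ω' ≤ m + (k + B.s θ ω) then
        convL a (B.ch θ ω') (m + (k + B.s θ ω) - B.s θ ω') else 0)) (s := Finset.univ)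
      (fun ω' _ => ?_) (Finset.mem_univ ω))
  · have h1 : B.s θ ω ≤ m + (k + B.s θ ω) := by omega
    have h2 : m + (k + B.s θ ω) - B.s θ ω = m + k := by omega
    simp only [h1, if_true, h2]
    rw [mul_assoc]
    exact mul_le_mul_of_nonneg_left (hm m) hp.le
  · refine mul_nonneg (B.p_nonneg _ _) ?_
    split_ifs
    · exact brF3_convL_nonneg a ha.nonneg _ _
    · exact le_rfl

/-- shifting a lower bound -/
theorem lower_shift (x y : ℕ → ℝ) (k : ℕ) (κ : ℝ) (hκ : 0 < κ) (h : ∀ m, κ * x m ≤ y (m + k))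
    (hx : ∃ (g r : ℕ) (c : ℝ) (m₀ : ℕ), 1 ≤ g ∧ 0 < c ∧
      ∀ m, m₀ ≤ m → m ≡ r [MOD g] → c * (m : ℝ) ^ (-(3 / 2 : ℝ)) ≤ x m) :
    ∃ (g r : ℕ) (c : ℝ) (m₀ : ℕ), 1 ≤ g ∧ 0 < c ∧
      ∀ m, m₀ ≤ m → m ≡ r [MOD g] → c * (m : ℝ) ^ (-(3 / 2 : ℝ)) ≤ y m := by
  obtain ⟨g, r, c, m₀, hg, hc, hm⟩ := hx
  refine ⟨g, r + k, κ * c, m₀ + k + 1, hg, mul_pos hκ hc, fun m h1 h2 => ?_⟩
  obtain ⟨m', rfl⟩ : ∃ m', m = m' + k := ⟨m - k, by omega⟩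
  have h3 : m' ≡ r [MOD g] := Nat.ModEq.add_right_cancel' k h2
  have h4 := hm m' (by omega) h3
  have hpos : (0 : ℝ) < m' := by
    have : 0 < m' := by omega
    exact_mod_cast this
  have h5 : (((m' + k : ℕ) : ℝ)) ^ (-(3 / 2 : ℝ)) ≤ (m' : ℝ) ^ (-(3 / 2 : ℝ)) := by
    apply Real.rpow_le_rpow_of_nonpos hpos
    · push_cast
      linarith [Nat.cast_nonneg (α := ℝ) k]
    · norm_num
  calc κ * c * (((m' + k : ℕ) : ℝ)) ^ (-(3 / 2 : ℝ)) ≤ κ * c * (m' : ℝ) ^ (-(3 / 2 : ℝ)) :=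
        mul_le_mul_of_nonneg_left h5 (mul_pos hκ hc).le
    _ = κ * (c * (m' : ℝ) ^ (-(3 / 2 : ℝ))) := by ring
    _ ≤ κ * x m' := mul_le_mul_of_nonneg_left h4 hκ.le
    _ ≤ y (m' + k) := h m'

/-- T-F5: lower bound for all types with infinite mean -/
theorem lower_all (B : BrSys Θ Ω) (a : Θ → ℕ → ℝ) (ha : B.IsTotal a) (R : Finset Θ) (h : Θ → ℝ)
    (hR : Cert B.mm R h)
    (hl : ∀ t ∈ R, ∃ (g r : ℕ) (c : ℝ) (m₀ : ℕ), 1 ≤ g ∧ 0 < c ∧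
      ∀ m, m₀ ≤ m → m ≡ r [MOD g] → c * (m : ℝ) ^ (-(3 / 2 : ℝ)) ≤ a t m)
    (θ : Θ) (hθ : ¬ Summable (fun m : ℕ => (m : ℝ) * a θ m)) :
    ∃ (g r : ℕ) (c : ℝ) (m₀ : ℕ), 1 ≤ g ∧ 0 < c ∧
      ∀ m, m₀ ≤ m → m ≡ r [MOD g] → c * (m : ℝ) ^ (-(3 / 2 : ℝ)) ≤ a θ m := by
  classical
  by_contra hcon
  apply hθ
  refine finite_mean B a ha R h hR (Finset.univ.filter fun θ => ¬ ∃ (g r : ℕ) (c : ℝ) (m₀ : ℕ),
      1 ≤ g ∧ 0 < c ∧
      ∀ m, m₀ ≤ m → m ≡ r [MOD g] → c * (m : ℝ) ^ (-(3 / 2 : ℝ)) ≤ a θ m) ?_ ?_ θ ?_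
  · intro θ' hθ' hR'
    exact (Finset.mem_filter.mp hθ').2 (hl θ' hR')
  · intro θ' hθ' ω hp c hc
    rw [Finset.mem_filter]
    refine ⟨Finset.mem_univ _, fun hD => ?_⟩
    apply (Finset.mem_filter.mp hθ').2
    obtain ⟨k, κ, hκ, hm⟩ := lower_step B a ha θ' c ω hp hc
    exact lower_shift (a c) (a θ') k κ hκ hm hD
  · rw [Finset.mem_filter]
    exact ⟨Finset.mem_univ _, hcon⟩

end Pool.Agent.SandBr
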