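import Pool.Agent.SandFin.BrA1
import Pool.Agent.SandFin.BrA2
import Pool.Agent.SandFin.BrB
import Pool.Agent.SandFin.BrE2
import Pool.Agent.SandFin.BrF2
import Pool.Agent.SandFin.BrF4

set_option autoImplicit false

namespace Pool.Agent.SandBr

variable {Θ Ω : Type} [Fintype Θ] [Fintype Ω]

/-- upper bound: pointwise `m^(-3/2)` -/
theorem br_upper (B : BrSys Θ Ω) (a : Θ → ℕ → ℝ) (ha : B.IsTotal a)
    (hz : ∃ C : ℝ, ∀ k θ, B.z k θ ≤ C) :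
    ∃ C : ℝ, 0 < C ∧ ∀ θ m, 1 ≤ m → a θ m ≤ C * (m : ℝ) ^ (-(3 / 2 : ℝ)) := by
  classical
  obtain ⟨h0, C, hC⟩ := mm_pow_le B hz
  obtain ⟨R, h, hR, hb⟩ := br_cert B.mm h0 C hC
  refine upper_all B a ha R h hR ?_
  intro t ht
  obtain ⟨E, ψ, hE⟩ := hb t ht
  obtain ⟨β, b, ρ, hs⟩ := sty_block B a ha R h hR t E ψ hE
  exact sty_upper β b ρ (a t) hs

/-- lower bound on a residue class, for types with infinite mean total size -/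
theorem br_lower (B : BrSys Θ Ω) (a : Θ → ℕ → ℝ) (ha : B.IsTotal a)
    (hz : ∃ C : ℝ, ∀ k θ, B.z k θ ≤ C) (θ : Θ) (hθ : ¬ Summable (fun m : ℕ => (m : ℝ) * a θ m)) :
    ∃ (g ρ : ℕ) (c : ℝ) (m₀ : ℕ), 1 ≤ g ∧ 0 < c ∧
      ∀ m, m₀ ≤ m → m ≡ ρ [MOD g] → c * (m : ℝ) ^ (-(3 / 2 : ℝ)) ≤ a θ m := by
  classical
  obtain ⟨h0, C, hC⟩ := mm_pow_le B hz
  obtain ⟨R, h, hR, hb⟩ := br_cert B.mm h0 C hC
  refine lower_all B a ha R h hR ?_ θ hθ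
  intro t ht
  obtain ⟨E, ψ, hE⟩ := hb t ht
  obtain ⟨β, b, ρ, hs⟩ := sty_block B a ha R h hR t E ψ hE
  exact sty_lower β b ρ (a t) hs

end Pool.Agent.SandBr
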