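import Pool.Agent.SandFin.PR
import Pool.Agent.SandFin.TW3
import Pool.Agent.SandFin.DOM

/-! DL: decoupling lemma. -/

set_option autoImplicit false
open scoped Classical

namespace Pool.Agent.Sand.DL

open Pool.Agent.Sand

variable {V : Type} {Δ : SimpleGraph V} [Δ.LocallyFinite]

theorem nb_mono {v : V} {W W' : Finset V} (h : W ⊆ W') : nb Δ v W ≤ nb Δ v W' :=
  Finset.card_le_card (Finset.inter_subset_inter_left h)

theorem stz_congr {r : ℕ} {S : Finset V} {χ χ' n u : V → ℕ} (h : ∀ v ∈ S, χ v = χ' v) :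
    Stz Δ r S χ n u ↔ Stz Δ r S χ' n u := by
  unfold Stz
  apply and_congr_right'
  constructor
  · intro h' v hv
    rw [← h v hv]; exact h' v hv
  · intro h' v hv
    rw [h v hv]; exact h' v hv

theorem odo_congr {r : ℕ} {S : Finset V} {χ χ' n : V → ℕ} (h : ∀ v ∈ S, χ v = χ' v) :
    odo Δ r S χ n = odo Δ r S χ' n := by
  funext v
  unfold odo
  congr 1
  ext k
  simp only [Set.mem_ofPred_eq, stz_congr h]

theorem KK_congr {r : ℕ} {S U : Finset V} {χ χ' : V → ℕ} (h : ∀ v ∈ S, χ v = χ' v) :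
    KK Δ r S χ U = KK Δ r S χ' U := by
  unfold KK
  rw [odo_congr h]

theorem KK_sub {r : ℕ} {S U : Finset V} {χ : V → ℕ} : KK Δ r S χ U ⊆ S := Finset.filter_subset _ _

theorem rcr_le {r : ℕ} {S : Finset V} {χ : V → ℕ} (h : χ ∈ rcr Δ r S) : ∀ v ∈ S, χ v ≤ r := by
  intro v hv
  unfold rcr rc at h
  rw [Finset.mem_filter, mem_stab] at h
  exact (h.1.1 v hv).2

theorem rcr_off {r : ℕ} {S : Finset V} {χ : V → ℕ} (h : χ ∈ rcr Δ r S) : ∀ v, v ∉ S → χ v = 0 := by
  intro v hv
  unfold rcr rc at h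
  rw [Finset.mem_filter, mem_stab] at h
  exact h.1.2 v hv

theorem rs_rcr {r : ℕ} {S T : Finset V} (hT : T ⊆ S) {χ : V → ℕ} (h : χ ∈ rcr Δ r S) :
    rs T χ ∈ rcr Δ r T := by
  unfold rcr rc at h ⊢
  rw [Finset.mem_filter, mem_stab] at h ⊢
  refine ⟨⟨fun v hv => ?_, fun v hv => ?_⟩, fun W hW hne => ?_⟩
  · simp only [rs, hv, if_true]; exact h.1.1 v (hT hv)
  · simp [rs, hv]
  · obtain ⟨v, hv, hlt⟩ := h.2 W (hW.trans hT) hne
    exact ⟨v, hv, by simpa [rs, hW hv] using hlt⟩

/-- a wave of a subset started by a part of the big wave is contained in the big wave -/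
theorem KK_sub_KK {r : ℕ} (hreg : ∀ v, Δ.degree v = r) {S T U U' : Finset V} {χ χ' : V → ℕ}
    (hχ : ∀ v ∈ S, χ v ≤ r) (hU : Disjoint S U) (hT : T ⊆ S) (hU' : Disjoint T U')
    (hc : ∀ v ∈ T, χ' v = χ v) (hsub : U' ⊆ U ∪ KK Δ r S χ U) :
    KK Δ r T χ' U' ⊆ KK Δ r S χ U := by
  have h1 : KK Δ r T χ' U' ⊆ T ∩ KK Δ r S χ U := by
    apply KK_least hreg (fun v hv => by rw [hc v hv]; exact hχ v (hT hv)) hU'
      Finset.inter_subset_left
    intro v hv hv'
    have hvK : v ∉ KK Δ r S χ U := fun h => hv' (Finset.mem_inter.2 ⟨hv, h⟩)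
    have h2 := KK_closed hreg hχ hU (hT hv) hvK
    rw [hc v hv]
    refine le_trans (Nat.add_le_add_left (nb_mono ?_) _) h2
    intro w hw
    rcases Finset.mem_union.1 hw with hw | hw
    · exact hsub hw
    · exact Finset.mem_union_right _ (Finset.mem_inter.1 hw).2
  exact h1.trans Finset.inter_subset_right

section T
variable {r : ℕ} {h : ℝ} {D0 : ℕ} (H : Hyp Δ r h D0)
include H

/-- decoupling lemma: `B` is an increasing event of the wave outside the cone `E`, `P` an arbitrary event inside -/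
theorem dl : ∃ (C : ℝ) (T : ℕ), 0 < C ∧ ∀ (o : V) (R : ℕ) (E : Set V), Cone Δ o R E →
    ∀ (S U : Finset V), Disjoint S U → (∀ v ∈ E, Δ.dist o v ≤ R + T → v ∈ S) → (∀ v ∈ E, v ∉ U) →
    ∀ (B : Finset V → Prop), (∀ K K' : Finset V, K ⊆ K' → B K → B K') → ∀ P : (V → ℕ) → Prop,
    pr Δ r S (fun χ => B ((KK Δ r S χ U).filter (· ∉ E)) ∧
        (∃ f ∈ fs (oB Δ E), f ∈ KK Δ r S χ U ∪ U) ∧ P (rs (S.filter (· ∈ E)) χ)) ≤
      C * pr Δ r S (fun χ => B ((KK Δ r S χ U).filter (· ∉ E)) ∧ fs (iB Δ E) ⊆ KK Δ r S χ U) *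
        pr Δ r (S.filter (· ∈ E)) P := by
  obtain ⟨c1, T1, hc1, hgood⟩ := dom_good H
  obtain ⟨c2, T2, hc2, hunion⟩ := dom_union H
  obtain ⟨b, -, -, hb⟩ := exists_bound H
  have hreg := H.reg
  refine ⟨1 / (c1 * c2), max 1 (max T1 T2), by positivity, ?_⟩
  intro o R E hE S U hSU hT hUE B hB P
  have hT1 : ∀ v ∈ E, Δ.dist o v ≤ R + T1 → v ∈ S := fun v hv hd =>
    hT v hv (hd.trans (by have := le_max_left T1 T2; have := le_max_right 1 (max T1 T2); omega))
  have hT2 : ∀ v ∈ E, Δ.dist o v ≤ R + T2 → v ∈ S := fun v hv hd =>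
    hT v hv (hd.trans (by have := le_max_right T1 T2; have := le_max_right 1 (max T1 T2); omega))
  have hT0 : ∀ v ∈ E, Δ.dist o v ≤ R + 1 → v ∈ S := fun v hv hd =>
    hT v hv (hd.trans (by have := le_max_left 1 (max T1 T2); omega))
  obtain ⟨hiBf, hoBf, -, -, -, -, -⟩ := hb o R E hE.comp
  set S1 := S.filter (· ∉ E) with hS1
  set S2 := S.filter (· ∈ E) with hS2
  set I := fs (iB Δ E) with hI
  set F := fs (oB Δ E) with hF
  have memI : ∀ {v}, v ∈ I ↔ v ∈ iB Δ E := fun {v} => mem_fs hiBf
  have memF : ∀ {v}, v ∈ F ↔ v ∈ oB Δ E := fun {v} => mem_fs hoBf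
  have hIE : ∀ v ∈ I, v ∈ E := fun v hv => (memI.1 hv).1
  have hFE : ∀ v ∈ F, v ∉ E := fun v hv => (memF.1 hv).1
  have hS1S : S1 ⊆ S := Finset.filter_subset _ _
  have hS2S : S2 ⊆ S := Finset.filter_subset _ _
  have hS12 : Disjoint S1 S2 := by
    rw [Finset.disjoint_left]
    intro v h1 h2
    exact (Finset.mem_filter.1 h1).2 (Finset.mem_filter.1 h2).2
  have hSun : ∀ v ∈ S, v ∈ S1 ∨ v ∈ S2 := by
    intro v hv
    by_cases hvE : v ∈ E
    · exact Or.inr (Finset.mem_filter.2 ⟨hv, hvE⟩)
    · exact Or.inl (Finset.mem_filter.2 ⟨hv, hvE⟩)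
  have hS1U : Disjoint S1 U := Finset.disjoint_of_subset_left hS1S hSU
  have hS1UI : Disjoint S1 (U ∪ I) := by
    rw [Finset.disjoint_union_right]
    refine ⟨hS1U, ?_⟩
    rw [Finset.disjoint_left]
    intro v h1 h2
    exact (Finset.mem_filter.1 h1).2 (hIE v h2)
  have hS2f : ∀ f ∈ F, Disjoint S2 {f} := by
    intro f hf
    rw [Finset.disjoint_singleton_right]
    intro h1
    exact hFE f hf (Finset.mem_filter.1 h1).2
  have hIS2 : I ⊆ S2 := by
    intro v hv
    have h1 := memI.1 hv
    rw [iB_sub H hE.comp] at h1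
    exact Finset.mem_filter.2 ⟨hT0 v h1.1 (le_of_eq h1.2), h1.1⟩
  -- the event outside
  let A : (V → ℕ) → Prop := fun χ1 => B (KK Δ r S1 χ1 (U ∪ I)) ∧ ∃ f ∈ F, f ∈ KK Δ r S1 χ1 U ∪ U
  let NA : ℝ := (((rcr Δ r S1).filter A).card : ℝ)
  let NP : ℝ := (((rcr Δ r S2).filter P).card : ℝ)
  let NG : ℝ := (((rcr Δ r S2).filter (Good Δ r E S2)).card : ℝ)
  let EV1 : (V → ℕ) → Prop := fun χ => B ((KK Δ r S χ U).filter (· ∉ E)) ∧
        (∃ f ∈ F, f ∈ KK Δ r S χ U ∪ U) ∧ P (rs S2 χ)
  let EV2 : (V → ℕ) → Prop := fun χ => B ((KK Δ r S χ U).filter (· ∉ E)) ∧ I ⊆ KK Δ r S χ U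
  have hpS : (0 : ℝ) < NNr Δ r S := by exact_mod_cast NN_pos H S
  have hpS1 : (0 : ℝ) < NNr Δ r S1 := by exact_mod_cast NN_pos H S1
  have hpS2 : (0 : ℝ) < NNr Δ r S2 := by exact_mod_cast NN_pos H S2
  -- key facts on one configuration
  have key1 : ∀ χ ∈ rcr Δ r S, B ((KK Δ r S χ U).filter (· ∉ E)) →
      (∃ f ∈ F, f ∈ KK Δ r S χ U ∪ U) → A (rs S1 χ) := by
    intro χ hχ hBK hf
    have hle := rcr_le hχ
    have hcongr : ∀ v ∈ S1, rs S1 χ v = χ v := fun v hv => by simp [rs, hv]
    have e1 : KK Δ r S1 (rs S1 χ) (U ∪ I) = KK Δ r S1 χ (U ∪ I) := KK_congr hcongr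
    have e2 : KK Δ r S1 (rs S1 χ) U = KK Δ r S1 χ U := KK_congr hcongr
    have hle1 : ∀ v ∈ S1, χ v ≤ r := fun v hv => hle v (hS1S hv)
    constructor
    · rw [e1]
      refine hB _ _ ?_ hBK
      have h1 : KK Δ r S χ U ⊆ KK Δ r S1 χ (U ∪ I) ∪ S2 := by
        apply KK_least hreg hle hSU
        · exact Finset.union_subset (KK_sub.trans hS1S) hS2S
        · intro v hv hvX
          have hv1 : v ∈ S1 := by
            rcases hSun v hv with h1 | h1
            · exact h1
            · exact absurd (Finset.mem_union_right _ h1) hvX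
          have hvK : v ∉ KK Δ r S1 χ (U ∪ I) := fun h1 => hvX (Finset.mem_union_left _ h1)
          have h2 := KK_closed hreg hle1 hS1UI hv1 hvK
          refine le_trans (Nat.add_le_add_left ?_ _) h2
          unfold nb
          apply Finset.card_le_card
          intro w hw
          obtain ⟨hw1, hw2⟩ := Finset.mem_inter.1 hw
          refine Finset.mem_inter.2 ⟨hw1, ?_⟩
          rcases Finset.mem_union.1 hw2 with hw2 | hw2
          · exact Finset.mem_union_left _ (Finset.mem_union_left _ hw2)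
          · rcases Finset.mem_union.1 hw2 with hw2 | hw2
            · exact Finset.mem_union_right _ hw2
            · apply Finset.mem_union_left
              apply Finset.mem_union_right
              rw [memI]
              refine ⟨(Finset.mem_filter.1 hw2).2, v, (Finset.mem_filter.1 hv1).2, ?_⟩
              rw [SimpleGraph.mem_neighborFinset] at hw1
              exact hw1.symm
      intro v hv
      obtain ⟨hv1, hv2⟩ := Finset.mem_filter.1 hv
      rcases Finset.mem_union.1 (h1 hv1) with h3 | h3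
      · exact h3
      · exact absurd (Finset.mem_filter.1 h3).2 hv2
    · rw [e2]
      by_contra hno
      push Not at hno
      have h1 : KK Δ r S χ U ⊆ KK Δ r S1 χ U := by
        apply KK_least hreg hle hSU (KK_sub.trans hS1S)
        intro v hv hvK
        rcases hSun v hv with h1 | h1
        · exact KK_closed hreg hle1 hS1U h1 hvK
        · have h0 : nb Δ v (U ∪ KK Δ r S1 χ U) = 0 := by
            unfold nb
            rw [Finset.card_eq_zero, Finset.eq_empty_iff_forall_notMem]
            intro w hw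
            obtain ⟨hw1, hw2⟩ := Finset.mem_inter.1 hw
            rw [SimpleGraph.mem_neighborFinset] at hw1
            have hwE : w ∉ E := by
              rcases Finset.mem_union.1 hw2 with hw2 | hw2
              · exact fun h => hUE w h hw2
              · exact (Finset.mem_filter.1 (KK_sub hw2)).2
            have hwF : w ∈ F := memF.2 ⟨hwE, v, (Finset.mem_filter.1 h1).2, hw1⟩
            apply hno w hwF
            rw [Finset.union_comm]; exact hw2
          rw [h0]; simpa using hle v hv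
      obtain ⟨f, hfF, hfK⟩ := hf
      apply hno f hfF
      rcases Finset.mem_union.1 hfK with h2 | h2
      · exact Finset.mem_union_left _ (h1 h2)
      · exact Finset.mem_union_right _ h2
  -- upper bound for the left side
  have hleft : (((rcr Δ r S).filter EV1).card : ℝ) ≤ NA * NP := by
    have h1 : ((rcr Δ r S).filter EV1).card ≤
        (((rcr Δ r S1).filter A) ×ˢ ((rcr Δ r S2).filter P)).card := by
      apply Finset.card_le_card_of_injOn (fun χ => (rs S1 χ, rs S2 χ))
      · intro χ hχ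
        obtain ⟨hχ1, hBK, hf, hP⟩ := Finset.mem_filter.1 (Finset.mem_coe.1 hχ)
        simp only [Finset.coe_product, Set.mem_prod, Finset.mem_coe, Finset.mem_filter]
        exact ⟨⟨rs_rcr hS1S hχ1, key1 χ hχ1 hBK hf⟩, ⟨rs_rcr hS2S hχ1, hP⟩⟩
      · intro χ hχ χ' hχ' heq
        have hχ1 := (Finset.mem_filter.1 (Finset.mem_coe.1 hχ)).1
        have hχ1' := (Finset.mem_filter.1 (Finset.mem_coe.1 hχ')).1
        simp only [Prod.mk.injEq] at heq
        funext v
        by_cases hv : v ∈ S
        · rcases hSun v hv with h1 | h1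
          · have := congrFun heq.1 v
            simpa [rs, h1] using this
          · have := congrFun heq.2 v
            simpa [rs, h1] using this
        · rw [rcr_off hχ1 v hv, rcr_off hχ1' v hv]
    rw [Finset.card_product] at h1
    have h2 := (Nat.cast_le (α := ℝ)).2 h1
    rw [Nat.cast_mul] at h2
    exact h2
  -- lower bound for the right side
  have hright : NA * NG ≤ (((rcr Δ r S).filter EV2).card : ℝ) := by
    have h1 : (((rcr Δ r S1).filter A) ×ˢ ((rcr Δ r S2).filter (Good Δ r E S2))).card ≤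
        ((rcr Δ r S).filter EV2).card := by
      apply Finset.card_le_card_of_injOn (fun p : (V → ℕ) × (V → ℕ) => fun v => p.1 v + p.2 v)
      · rintro ⟨χ1, χ2⟩ hp
        simp only [Finset.coe_product, Set.mem_prod, Finset.mem_coe, Finset.mem_filter] at hp
        obtain ⟨⟨hχ1, hA⟩, ⟨hχ2, hG⟩⟩ := hp
        have hc1' : ∀ v ∈ S1, χ1 v = χ1 v + χ2 v := by
          intro v hv
          have : v ∉ S2 := Finset.disjoint_left.1 hS12 hv
          rw [rcr_off hχ2 v this, add_zero]
        have hc2' : ∀ v ∈ S2, χ2 v = χ1 v + χ2 v := by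
          intro v hv
          have : v ∉ S1 := Finset.disjoint_right.1 hS12 hv
          rw [rcr_off hχ1 v this, zero_add]
        have hr1 : rs S1 (fun v => χ1 v + χ2 v) = χ1 := by
          funext v
          by_cases hv : v ∈ S1
          · simp only [rs, hv, if_true]; exact (hc1' v hv).symm
          · simp only [rs, hv, if_false]; exact (rcr_off hχ1 v hv).symm
        have hr2 : rs S2 (fun v => χ1 v + χ2 v) = χ2 := by
          funext v
          by_cases hv : v ∈ S2
          · simp only [rs, hv, if_true]; exact (hc2' v hv).symm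
          · simp only [rs, hv, if_false]; exact (rcr_off hχ2 v hv).symm
        have hLL : LL Δ S2 (fun v => χ1 v + χ2 v) F = ∅ := by
          rw [← hG.1]
          unfold LL
          apply Finset.filter_congr
          intro v hv
          constructor
          · rintro ⟨W, hW, hvW, hw⟩
            refine ⟨W, hW, hvW, fun w hwW => ?_⟩
            rw [hc2' w (hW hwW)]
            exact hw w hwW
          · rintro ⟨W, hW, hvW, hw⟩
            refine ⟨W, hW, hvW, fun w hwW => ?_⟩
            have := hw w hwW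
            rw [hc2' w (hW hwW)] at this
            exact this
        have hχ : (fun v => χ1 v + χ2 v) ∈ rcr Δ r S := by
          apply good_glue H hE S
          · intro v hv
            have h1 : v ∉ S1 := fun h => hv (hS1S h)
            have h2 : v ∉ S2 := fun h => hv (hS2S h)
            simp only [rcr_off hχ1 v h1, rcr_off hχ2 v h2]
          · change rs S1 _ ∈ rcr Δ r S1
            rw [hr1]; exact hχ1
          · change rs S2 _ ∈ rcr Δ r S2
            rw [hr2]; exact hχ2
          · exact hLL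
        have hle := rcr_le hχ
        have hK0 : KK Δ r S1 χ1 U ⊆ KK Δ r S (fun v => χ1 v + χ2 v) U :=
          KK_sub_KK hreg hle hSU hS1S hS1U hc1' Finset.subset_union_left
        obtain ⟨hBK, f, hfF, hfK⟩ := hA
        have hf' : f ∈ U ∪ KK Δ r S (fun v => χ1 v + χ2 v) U := by
          rcases Finset.mem_union.1 hfK with h2 | h2
          · exact Finset.mem_union_right _ (hK0 h2)
          · exact Finset.mem_union_left _ h2
        have hI' : I ⊆ KK Δ r S (fun v => χ1 v + χ2 v) U := by
          refine (hG.2 f hfF).trans ?_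
          apply KK_sub_KK hreg hle hSU hS2S (hS2f f hfF) hc2'
          intro w hw
          rw [Finset.mem_singleton] at hw
          rw [hw]; exact hf'
        have hmax : KK Δ r S1 χ1 (U ∪ I) ⊆ KK Δ r S (fun v => χ1 v + χ2 v) U := by
          apply KK_sub_KK hreg hle hSU hS1S hS1UI hc1'
          exact Finset.union_subset Finset.subset_union_left
            (hI'.trans Finset.subset_union_right)
        rw [Finset.mem_coe, Finset.mem_filter]
        refine ⟨hχ, ?_, hI'⟩
        refine hB _ _ ?_ hBK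
        intro v hv
        exact Finset.mem_filter.2 ⟨hmax hv, (Finset.mem_filter.1 (KK_sub hv)).2⟩
      · rintro ⟨χ1, χ2⟩ hp ⟨χ1', χ2'⟩ hp' heq
        simp only [Finset.coe_product, Set.mem_prod, Finset.mem_coe, Finset.mem_filter] at hp hp'
        have hχ1 := hp.1.1
        have hχ2 := hp.2.1
        have hχ1' := hp'.1.1
        have hχ2' := hp'.2.1
        have hv0 : ∀ v, χ1 v + χ2 v = χ1' v + χ2' v := fun v => congrFun heq v
        refine Prod.ext ?_ ?_
        · funext v
          by_cases hv : v ∈ S1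
          · have h2 : v ∉ S2 := Finset.disjoint_left.1 hS12 hv
            have := hv0 v
            rw [rcr_off hχ2 v h2, rcr_off hχ2' v h2] at this
            simpa using this
          · simp only
            rw [rcr_off hχ1 v hv, rcr_off hχ1' v hv]
        · funext v
          by_cases hv : v ∈ S2
          · have h2 : v ∉ S1 := Finset.disjoint_right.1 hS12 hv
            have := hv0 v
            rw [rcr_off hχ1 v h2, rcr_off hχ1' v h2] at this
            simpa using this
          · simp only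
            rw [rcr_off hχ2 v hv, rcr_off hχ2' v hv]
    rw [Finset.card_product] at h1
    have h2 := (Nat.cast_le (α := ℝ)).2 h1
    rw [Nat.cast_mul] at h2
    exact h2
  have hgoodS : c1 * (NNr Δ r S2 : ℝ) ≤ NG := by
    apply hgood o R E hE S2
    · intro v hv
      exact (Finset.mem_filter.1 (Finset.mem_coe.1 hv)).2
    · intro v hv hd
      exact Finset.mem_filter.2 ⟨hT1 v hv hd, hv⟩
  have hunionS : c2 * ((NNr Δ r S1 : ℝ) * (NNr Δ r S2 : ℝ)) ≤ (NNr Δ r S : ℝ) := hunion o R E hE S hT2
  have hle2 : (NNr Δ r S : ℝ) ≤ (NNr Δ r S1 : ℝ) * (NNr Δ r S2 : ℝ) := by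
    have h1 := NN_union_le H S1 S2 hS12
    have h2 : S1 ∪ S2 = S := by
      ext v
      constructor
      · intro hv
        rcases Finset.mem_union.1 hv with h | h
        · exact hS1S h
        · exact hS2S h
      · intro hv
        exact Finset.mem_union.2 (hSun v hv)
    rw [h2] at h1
    exact_mod_cast h1
  have hNA : 0 ≤ NA := Nat.cast_nonneg _
  have hNP : 0 ≤ NP := Nat.cast_nonneg _
  -- conclusion
  have hleft' : ((@Finset.filter _ EV1 (fun a => Classical.propDecidable (EV1 a))
      (rcr Δ r S)).card : ℝ) ≤ NA * NP := by convert hleft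
  have hright' : NA * NG ≤ ((@Finset.filter _ EV2 (fun a => Classical.propDecidable (EV2 a))
      (rcr Δ r S)).card : ℝ) := by convert hright
  have hL : pr Δ r S EV1 ≤
      NA * NP / (c2 * ((NNr Δ r S1 : ℝ) * (NNr Δ r S2 : ℝ))) := by
    unfold pr
    rw [div_le_div_iff₀ hpS (by positivity)]
    exact mul_le_mul hleft' hunionS (by positivity) (by positivity)
  have hR : NA * c1 / (NNr Δ r S1 : ℝ) ≤ pr Δ r S EV2 := by
    unfold pr
    rw [div_le_div_iff₀ hpS1 hpS]
    calc NA * c1 * (NNr Δ r S : ℝ) ≤ NA * c1 * ((NNr Δ r S1 : ℝ) * (NNr Δ r S2 : ℝ)) := by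
          apply mul_le_mul_of_nonneg_left hle2 (by positivity)
      _ = NA * (c1 * (NNr Δ r S2 : ℝ)) * (NNr Δ r S1 : ℝ) := by ring
      _ ≤ NA * NG * (NNr Δ r S1 : ℝ) := by
          apply mul_le_mul_of_nonneg_right _ hpS1.le
          exact mul_le_mul_of_nonneg_left hgoodS hNA
      _ ≤ _ := mul_le_mul_of_nonneg_right hright' hpS1.le
  refine hL.trans ?_
  have hPeq : pr Δ r S2 P = NP / (NNr Δ r S2 : ℝ) := rfl
  rw [hPeq]
  calc NA * NP / (c2 * ((NNr Δ r S1 : ℝ) * (NNr Δ r S2 : ℝ)))
      = 1 / (c1 * c2) * (NA * c1 / (NNr Δ r S1 : ℝ)) * (NP / (NNr Δ r S2 : ℝ)) := by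
        field_simp
    _ ≤ _ := by
        apply mul_le_mul_of_nonneg_right _ (by positivity)
        apply mul_le_mul_of_nonneg_left hR (by positivity)

end T

end Pool.Agent.Sand.DL
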