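import Pool.Agent.SandFin.Basic

set_option autoImplicit false
open scoped Classical

namespace Pool.Agent.Sand

variable {V : Type} (Δ : SimpleGraph V) [Δ.LocallyFinite]

/-- in a tree, the neighbour of `w` that is closer to `o` is unique -/
theorem parent_unique {W : Type} {T : SimpleGraph W} (hT : T.IsTree) {o w u1 u2 : W}
    (a1 : T.Adj w u1) (a2 : T.Adj w u2) (d1 : T.dist o w = T.dist o u1 + 1)
    (d2 : T.dist o w = T.dist o u2 + 1) : u1 = u2 := by
  obtain ⟨q, hq, hql⟩ := hT.connected.exists_path_of_dist o w
  have key : ∀ u, T.Adj w u → T.dist o w = T.dist o u + 1 → u = q.penultimate := by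
    intro u a d
    obtain ⟨p, hp, hpl⟩ := hT.connected.exists_path_of_dist o u
    have hc : (p.concat a.symm).IsPath := by
      apply SimpleGraph.Walk.isPath_of_length_eq_dist
      rw [SimpleGraph.Walk.length_concat, hpl, d]
    have heq : q = p.concat a.symm :=
      Subtype.mk.inj (hT.isAcyclic.subsingleton_path o w |>.elim ⟨q, hq⟩ ⟨_, hc⟩)
    have hs : u ∈ q.support := by
      rw [heq]
      exact p.support_subset_support_concat _ p.end_mem_support
    exact hT.isAcyclic.eq_penultimate_of_adj_end hq a hs
  rw [key u1 a1 d1, key u2 a2 d2]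

/-- isoperimetry of the `d`-regular tree -/
theorem tree_iso {W : Type} (T : SimpleGraph W) [T.LocallyFinite] (d : ℕ) (hd : 3 ≤ d)
    (hT : T.IsTree) (hTd : ∀ w, T.degree w = d) (X : Finset W) :
    X.card ≤ ∑ v ∈ X, (T.neighborFinset v \ X).card := by
  obtain ⟨o⟩ := hT.connected.nonempty
  -- children of `v`
  set ch : W → Finset W := fun v => (T.neighborFinset v).filter (fun u => T.dist o u = T.dist o v + 1)
    with hch
  have hch1 : ∀ v, d ≤ (ch v).card + 1 := by
    intro v
    have h1 : (T.neighborFinset v).card = d := by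
      rw [SimpleGraph.card_neighborFinset_eq_degree, hTd]
    have h2 : ((T.neighborFinset v).filter (fun u => ¬ T.dist o u = T.dist o v + 1)).card ≤ 1 := by
      rw [Finset.card_le_one]
      intro a ha b hb
      rw [Finset.mem_filter, SimpleGraph.mem_neighborFinset] at ha hb
      have ha' := hT.dist_eq_dist_add_one_of_adj o ha.1
      have hb' := hT.dist_eq_dist_add_one_of_adj o hb.1
      rcases ha' with ha' | ha'
      · rcases hb' with hb' | hb'
        · exact parent_unique hT ha.1 hb.1 ha' hb'
        · exact absurd hb' hb.2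
      · exact absurd ha' ha.2
    have h3 := Finset.card_filter_add_card_filter_not (s := T.neighborFinset v)
      (fun u => T.dist o u = T.dist o v + 1)
    simp only [hch]
    omega
  -- children inside `X` are distinct for distinct parents
  have hin : ∑ v ∈ X, ((ch v) ∩ X).card ≤ X.card := by
    rw [← Finset.card_biUnion]
    · apply Finset.card_le_card
      intro u hu
      rw [Finset.mem_biUnion] at hu
      obtain ⟨v, _, hu⟩ := hu
      exact (Finset.mem_inter.1 hu).2
    · intro a _ b _ hab
      rw [Function.onFun, Finset.disjoint_left]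
      intro u hu hu'
      rw [Finset.mem_inter] at hu hu'
      simp only [hch, Finset.mem_filter, SimpleGraph.mem_neighborFinset] at hu hu'
      exact hab (parent_unique hT hu.1.1.symm hu'.1.1.symm hu.1.2 hu'.1.2)
  have hsum : ∑ v ∈ X, (d - 1) ≤ ∑ v ∈ X, (((ch v) ∩ X).card + (T.neighborFinset v \ X).card) := by
    apply Finset.sum_le_sum
    intro v _
    have h1 : (ch v).card = ((ch v) ∩ X).card + ((ch v) \ X).card := by
      rw [Finset.card_inter_add_card_sdiff]
    have h2 : ((ch v) \ X).card ≤ (T.neighborFinset v \ X).card := by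
      apply Finset.card_le_card
      apply Finset.sdiff_subset_sdiff _ (le_refl _)
      exact Finset.filter_subset _ _
    have h3 := hch1 v
    omega
  rw [Finset.sum_add_distrib, Finset.sum_const, smul_eq_mul] at hsum
  have h5 : X.card * 2 ≤ X.card * (d - 1) := Nat.mul_le_mul_left _ (by omega)
  omega

/-- ball as a finset -/
noncomputable def bF {W : Type} (T : SimpleGraph W) [T.LocallyFinite] (o : W) : ℕ → Finset W
  | 0 => {o}
  | n + 1 => bF T o n ∪ (bF T o n).biUnion (fun v => T.neighborFinset v)

theorem bF_card {W : Type} (T : SimpleGraph W) [T.LocallyFinite] (d : ℕ)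
    (hTd : ∀ w, T.degree w = d) (o : W) (n : ℕ) : (bF T o n).card ≤ (d + 1) ^ n := by
  induction n with
  | zero => simp [bF]
  | succ n ih =>
    rw [bF]
    calc _ ≤ (bF T o n).card + ((bF T o n).biUnion (fun v => T.neighborFinset v)).card :=
          Finset.card_union_le _ _
      _ ≤ (bF T o n).card + (bF T o n).card * d := by
          apply Nat.add_le_add_left
          apply Finset.card_biUnion_le_card_mul
          intro v _
          rw [SimpleGraph.card_neighborFinset_eq_degree, hTd]
      _ = (bF T o n).card * (d + 1) := by ring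
      _ ≤ (d + 1) ^ n * (d + 1) := Nat.mul_le_mul_right _ ih
      _ = _ := by rw [pow_succ]

theorem mem_bF_of_walk {W : Type} (T : SimpleGraph W) [T.LocallyFinite] (o : W) (n : ℕ) :
    ∀ {v : W} (p : T.Walk v o), p.length ≤ n → v ∈ bF T o n := by
  induction n with
  | zero =>
    intro v p hp
    have := SimpleGraph.Walk.eq_of_length_eq_zero (Nat.le_zero.1 hp)
    simp [bF, this]
  | succ n ih =>
    intro v p hp
    rw [bF, Finset.mem_union, Finset.mem_biUnion]
    cases p with
    | nil => exact Or.inl (ih SimpleGraph.Walk.nil (by simp))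
    | cons h q =>
      right
      refine ⟨_, ih q ?_, ?_⟩
      · simpa using hp
      · rw [SimpleGraph.mem_neighborFinset]; exact h.symm

theorem mem_bF {W : Type} {T : SimpleGraph W} [T.LocallyFinite] (hc : T.Connected) {o v : W} {n : ℕ}
    (h : T.dist o v ≤ n) : v ∈ bF T o n := by
  obtain ⟨p, hp⟩ := hc.exists_walk_length_eq_dist v o
  apply mem_bF_of_walk T o n p
  rw [hp, SimpleGraph.dist_comm]; exact h

theorem crossing {V : Type} {Δ : SimpleGraph V} (S : Finset V) :
    ∀ {s z : V} (p : Δ.Walk s z), s ∈ S → z ∉ S →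
      ∃ a b, a ∈ S ∧ b ∉ S ∧ Δ.Adj a b ∧ Δ.dist s a ≤ p.length := by
  intro s z p
  suffices h : s ∈ S → z ∉ S → ∃ a b, a ∈ S ∧ b ∉ S ∧ Δ.Adj a b ∧ ∃ q : Δ.Walk s a,
      q.length ≤ p.length by
    intro h1 h2
    obtain ⟨a, b, ha, hb, hab, q, hq⟩ := h h1 h2
    exact ⟨a, b, ha, hb, hab, (SimpleGraph.dist_le q).trans hq⟩
  induction p with
  | nil => intro h1 h2; exact absurd h1 h2
  | cons h q ih =>
    rename_i u v w
    intro h1 h2
    by_cases hv : v ∈ S
    · obtain ⟨a, b, ha, hb, hab, q', hq'⟩ := ih hv h2
      exact ⟨a, b, ha, hb, hab, SimpleGraph.Walk.cons h q', by simpa using hq'⟩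
    · exact ⟨u, v, h1, hv, h, SimpleGraph.Walk.nil, by simp⟩

theorem iso_of_qi {W : Type} (T : SimpleGraph W) [T.LocallyFinite] (d r : ℕ) (hd : 3 ≤ d)
    (hT : T.IsTree) (hTd : ∀ w, T.degree w = d) (hreg : ∀ v, Δ.degree v = r) (hc : Δ.Connected)
    (hinf : Infinite V) (hqi : QI Δ T) :
    ∃ h : ℝ, 0 < h ∧ ∀ S : Finset V, h * (S.card : ℝ) ≤ (bdE Δ S : ℝ) := by
  obtain ⟨f, L, K, h1, h2, h3⟩ := hqi
  set K2 : ℕ := L * (K + 1 + K) + K with hK2
  set K1 : ℕ := (r + 1) ^ K with hK1
  set M : ℕ := (r + 1) ^ K2 * (d + 1) ^ K with hM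
  have hK1pos : 0 < K1 := by positivity
  have hMpos : 0 < M := by positivity
  have hdpos : 0 < d := by omega
  -- main inequality in ℕ
  have main : ∀ S : Finset V, S.card ≤ K1 * (d * (M * bdE Δ S)) := by
    intro S
    -- inner boundary of S
    set dS : Finset V := S.filter (fun a => (Δ.neighborFinset a \ S).Nonempty) with hdS
    have hdS1 : dS.card ≤ bdE Δ S := by
      unfold bdE
      rw [hdS, Finset.card_filter]
      apply Finset.sum_le_sum
      intro a _
      split_ifs with hne
      · exact hne.card_pos
      · exact Nat.zero_le _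
    -- X
    set X : Finset W := S.biUnion (fun s => bF T (f s) K |>.filter (fun w => T.dist (f s) w ≤ K))
      with hX
    have hXmem : ∀ w, w ∈ X ↔ ∃ s ∈ S, T.dist (f s) w ≤ K := by
      intro w
      rw [hX, Finset.mem_biUnion]
      constructor
      · rintro ⟨s, hs, hw⟩
        exact ⟨s, hs, (Finset.mem_filter.1 hw).2⟩
      · rintro ⟨s, hs, hw⟩
        exact ⟨s, hs, Finset.mem_filter.2 ⟨mem_bF hT.connected hw, hw⟩⟩
    set dX : Finset W := X.filter (fun v => (T.neighborFinset v \ X).Nonempty) with hdX
    have hX1 : X.card ≤ d * dX.card := by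
      refine (tree_iso T d hd hT hTd X).trans ?_
      rw [← Finset.sum_filter_add_sum_filter_not X (fun v => (T.neighborFinset v \ X).Nonempty)]
      have hz : ∑ v ∈ X.filter (fun v => ¬ (T.neighborFinset v \ X).Nonempty),
          (T.neighborFinset v \ X).card = 0 := by
        apply Finset.sum_eq_zero
        intro v hv
        rw [Finset.card_eq_zero, ← Finset.not_nonempty_iff_eq_empty]
        exact (Finset.mem_filter.1 hv).2
      rw [hz, add_zero, mul_comm, ← smul_eq_mul, ← Finset.sum_const]
      apply Finset.sum_le_sum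
      intro v _
      calc (T.neighborFinset v \ X).card ≤ (T.neighborFinset v).card :=
            Finset.card_le_card Finset.sdiff_subset
        _ = d := by rw [SimpleGraph.card_neighborFinset_eq_degree, hTd]
    -- cover dX
    have hX2 : dX.card ≤ dS.card * M := by
      have hsub : dX ⊆ dS.biUnion (fun a => (bF Δ a K2).biUnion (fun s => bF T (f s) K)) := by
        intro v hv
        rw [hdX, Finset.mem_filter] at hv
        obtain ⟨hvX, w, hw⟩ := hv
        rw [Finset.mem_sdiff, SimpleGraph.mem_neighborFinset] at hw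
        obtain ⟨s, hs, hsv⟩ := (hXmem v).1 hvX
        obtain ⟨z, hz⟩ := h3 w
        have hzS : z ∉ S := by
          intro hz'
          exact hw.2 ((hXmem w).2 ⟨z, hz', hz⟩)
        have hvw : T.dist v w ≤ 1 := by
          rw [SimpleGraph.dist_eq_one_iff_adj.2 hw.1]
        have hd1 : T.dist (f s) (f z) ≤ K + 1 + K := by
          have t1 := hT.connected.dist_triangle (u := f s) (v := v) (w := w)
          have t2 := hT.connected.dist_triangle (u := f s) (v := w) (w := f z)
          have t3 : T.dist w (f z) ≤ K := by rw [SimpleGraph.dist_comm]; exact hz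
          omega
        have hd2 : Δ.dist s z ≤ K2 := by
          refine (h2 s z).trans ?_
          rw [hK2]
          exact Nat.add_le_add_right (Nat.mul_le_mul_left _ hd1) _
        obtain ⟨p, hp⟩ := hc.exists_walk_length_eq_dist s z
        obtain ⟨a, b, ha, hb, hab, hsa⟩ := crossing S p hs hzS
        rw [Finset.mem_biUnion]
        refine ⟨a, ?_, ?_⟩
        · rw [hdS, Finset.mem_filter]
          refine ⟨ha, b, ?_⟩
          rw [Finset.mem_sdiff, SimpleGraph.mem_neighborFinset]
          exact ⟨hab, hb⟩
        · rw [Finset.mem_biUnion]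
          refine ⟨s, mem_bF hc ?_, mem_bF hT.connected hsv⟩
          rw [SimpleGraph.dist_comm]
          omega
      refine (Finset.card_le_card hsub).trans ?_
      apply Finset.card_biUnion_le_card_mul
      intro a _
      rw [hM]
      refine (Finset.card_biUnion_le_card_mul _ _ ((d + 1) ^ K) ?_).trans ?_
      · intro s _
        exact bF_card T d hTd _ _
      · exact Nat.mul_le_mul_right _ (bF_card Δ r hreg _ _)
    -- fibres
    have hX3 : S.card ≤ K1 * (S.image f).card := by
      apply Finset.card_le_mul_card_image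
      intro w hw
      obtain ⟨s0, hs0, hs0w⟩ := Finset.mem_image.1 hw
      calc _ ≤ (bF Δ s0 K).card := by
            apply Finset.card_le_card
            intro x hx
            rw [Finset.mem_filter] at hx
            apply mem_bF hc
            have := h2 s0 x
            rw [hs0w, hx.2, SimpleGraph.dist_self] at this
            simpa using this
        _ ≤ K1 := bF_card Δ r hreg _ _
    have hX4 : (S.image f).card ≤ X.card := by
      apply Finset.card_le_card
      intro w hw
      obtain ⟨s, hs, hsw⟩ := Finset.mem_image.1 hw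
      rw [hXmem]
      exact ⟨s, hs, by rw [hsw, SimpleGraph.dist_self]; exact Nat.zero_le _⟩
    calc S.card ≤ K1 * (S.image f).card := hX3
      _ ≤ K1 * X.card := Nat.mul_le_mul_left _ hX4
      _ ≤ K1 * (d * dX.card) := Nat.mul_le_mul_left _ hX1
      _ ≤ K1 * (d * (dS.card * M)) := by gcongr
      _ ≤ K1 * (d * (M * bdE Δ S)) := by
          rw [mul_comm dS.card M]
          gcongr
  refine ⟨1 / ((K1 * (d * M) : ℕ) : ℝ), by positivity, ?_⟩
  intro S
  have hm := main S
  have hm' : (S.card : ℝ) ≤ ((K1 * (d * M) : ℕ) : ℝ) * (bdE Δ S : ℝ) := by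
    have : S.card ≤ (K1 * (d * M)) * bdE Δ S := by
      calc S.card ≤ K1 * (d * (M * bdE Δ S)) := hm
        _ = _ := by ring
    exact_mod_cast this
  rw [div_mul_eq_mul_div, one_mul, div_le_iff₀ (by positivity)]
  rw [mul_comm]
  exact hm'

end Pool.Agent.Sand
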