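import Pool.Agent.SandFin.ST2
import Pool.Agent.SandFin.GlueDefs
import Pool.Agent.SandFin.GL5

/-! GL12: product sums over families, recurrence and unburnt sets of a glued region. -/

set_option autoImplicit false
open scoped Classical
open Filter Topology

namespace Pool.Agent.Sand.GL12

open Pool.Agent.Sand

variable {V : Type} {Δ : SimpleGraph V} [Δ.LocallyFinite]

theorem mem_fpi {α β : Type} {𝒟 : Finset α} {F : α → Finset β} {d : β} {f : α → β} :
    f ∈ fpi 𝒟 F d ↔ (∀ a ∈ 𝒟, f a ∈ F a) ∧ ∀ a, a ∉ 𝒟 → f a = d := by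
  unfold fpi
  simp only [Finset.mem_image, Finset.mem_pi]
  constructor
  · rintro ⟨g, hg, rfl⟩
    refine ⟨fun v hv => ?_, fun v hv => ?_⟩
    · simpa [hv] using hg v hv
    · simp [hv]
  · rintro ⟨h1, h2⟩
    refine ⟨fun v _ => f v, fun v hv => h1 v hv, ?_⟩
    funext v
    by_cases hv : v ∈ 𝒟
    · simp [hv]
    · simp [hv, h2 v hv]

theorem sum_fpi_prod {α β : Type} (𝒟 : Finset α) (F : α → Finset β) (d : β) (g : α → β → ℝ) :
    ∑ f ∈ fpi 𝒟 F d, ∏ a ∈ 𝒟, g a (f a) = ∏ a ∈ 𝒟, ∑ b ∈ F a, g a b := by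
  unfold fpi
  rw [Finset.sum_image, Finset.prod_sum]
  · refine Finset.sum_congr rfl fun p _ => ?_
    rw [← Finset.prod_attach]
    refine Finset.prod_congr rfl fun x _ => ?_
    simp only [x.2, dif_pos]
  · intro p _ p' _ hpp
    funext a ha
    have := congrFun hpp a
    simpa only [ha, dif_pos] using this

variable {r : ℕ}

theorem nb_mono {v : V} {W W' : Finset V} (h : ∀ w, Δ.Adj v w → w ∈ W → w ∈ W') :
    nb Δ v W ≤ nb Δ v W' := by
  unfold nb
  refine Finset.card_le_card fun w hw => ?_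
  rw [Finset.mem_inter, SimpleGraph.mem_neighborFinset] at hw ⊢
  exact ⟨hw.1, h w hw.1 hw.2⟩

theorem mem_LL {S U : Finset V} {χ : V → ℕ} {v : V} :
    v ∈ LL Δ S χ U ↔ ∃ W ⊆ S, v ∈ W ∧ ∀ w ∈ W, χ w ≤ nb Δ w (W ∪ U) := by
  unfold LL
  rw [Finset.mem_filter]
  constructor
  · exact fun h => h.2
  · rintro ⟨W, hW, hv, h⟩
    exact ⟨hW hv, W, hW, hv, h⟩

theorem LL_sub {S U : Finset V} {χ : V → ℕ} : LL Δ S χ U ⊆ S := Finset.filter_subset _ _

theorem LL_self {S U : Finset V} {χ : V → ℕ} {v : V} (hv : v ∈ LL Δ S χ U) :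
    χ v ≤ nb Δ v (LL Δ S χ U ∪ U) := by
  obtain ⟨W, hW, hvW, h⟩ := mem_LL.1 hv
  refine le_trans (h v hvW) (nb_mono fun w _ hw => ?_)
  rcases Finset.mem_union.1 hw with hw | hw
  · exact Finset.mem_union_left _ (mem_LL.2 ⟨W, hW, hw, h⟩)
  · exact Finset.mem_union_right _ hw

theorem mem_reg {B : Finset V} {𝒟 : Finset (Set V)} {v : V} :
    v ∈ reg B 𝒟 ↔ v ∈ B ∨ ∃ D ∈ 𝒟, v ∈ D := by
  simp [reg]

theorem mem_cut {C : Set V} {G : Finset V} {v : V} : v ∈ cut C G ↔ v ∈ G ∧ v ∈ C := by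
  simp [cut]

/-- the unburnt set of the regions -/
noncomputable def LU (Δ : SimpleGraph V) [Δ.LocallyFinite] (𝒟 : Finset (Set V)) (S : Finset V) (χ : V → ℕ)
    (W : Finset V) : Finset V :=
  𝒟.biUnion fun D => LL Δ (cut D S) χ (W ∩ fs (oB Δ D))

theorem LU_sub {𝒟 : Finset (Set V)} {S : Finset V} {χ : V → ℕ} {W : Finset V} :
    LU Δ 𝒟 S χ W ⊆ S := by
  intro v hv
  obtain ⟨D, _, hv⟩ := Finset.mem_biUnion.1 hv
  exact (mem_cut.1 (LL_sub hv)).1

theorem LU_self {𝒟 : Finset (Set V)} {S : Finset V} {χ : V → ℕ} {W : Finset V} {v : V}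
    (hv : v ∈ LU Δ 𝒟 S χ W) : χ v ≤ nb Δ v (W ∪ LU Δ 𝒟 S χ W) := by
  obtain ⟨D, hD, hv'⟩ := Finset.mem_biUnion.1 hv
  refine le_trans (LL_self hv') (nb_mono fun w _ hw => ?_)
  rcases Finset.mem_union.1 hw with hw | hw
  · exact Finset.mem_union_right _ (Finset.mem_biUnion.2 ⟨D, hD, hw⟩)
  · exact Finset.mem_union_left _ (Finset.mem_inter.1 hw).1

theorem rsL_sub (q : ℕ) {𝒟 : Finset (Set V)} {S : Finset V} {χ : V → ℕ} {W : Finset V} :
    rsL 𝒟 (sts Δ r q S χ) W ⊆ LU Δ 𝒟 S χ W := by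
  intro v hv
  obtain ⟨D, hD, hv⟩ := Finset.mem_biUnion.1 hv
  exact Finset.mem_biUnion.2 ⟨D, hD, (Finset.mem_inter.1 hv).1⟩

/-- the trace of a self-supporting set on a region is unburnt -/
theorem trace_sub {B : Finset V} {𝒟 : Finset (Set V)} (hD : Dec Δ B 𝒟) {S U W : Finset V}
    (hW : W ⊆ S) (hU : ∀ v ∈ U, v ∉ reg B 𝒟) {χ : V → ℕ} (h : ∀ w ∈ W, χ w ≤ nb Δ w (W ∪ U))
    {D : Set V} (hDD : D ∈ 𝒟) {v : V} (hv : v ∈ W) (hvD : v ∈ D) :
    v ∈ LL Δ (cut D S) χ ((W ∩ B) ∩ fs (oB Δ D)) := by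
  refine mem_LL.2 ⟨cut D W, ?_, mem_cut.2 ⟨hv, hvD⟩, ?_⟩
  · intro w hw
    rw [mem_cut] at hw ⊢
    exact ⟨hW hw.1, hw.2⟩
  · intro w hw
    rw [mem_cut] at hw
    refine le_trans (h w hw.1) (nb_mono fun x hx hxx => ?_)
    by_cases hxD : x ∈ D
    · rcases Finset.mem_union.1 hxx with hx' | hx'
      · exact Finset.mem_union_left _ (mem_cut.2 ⟨hx', hxD⟩)
      · exact absurd (mem_reg.2 (Or.inr ⟨D, hDD, hxD⟩)) (hU x hx')
    · have hxo : x ∈ oB Δ D := ⟨hxD, w, hw.2, hx⟩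
      have hxB : x ∈ B := hD.sub D hDD hxo
      rcases Finset.mem_union.1 hxx with hx' | hx'
      · exact Finset.mem_union_right _ (Finset.mem_inter.2
          ⟨Finset.mem_inter.2 ⟨hx', hxB⟩, (mem_fs (hD.finO D hDD)).2 hxo⟩)
      · exact absurd (mem_reg.2 (Or.inl hxB)) (hU x hx')

/-- a neighbour in a region of a vertex of the core, belonging to a self-supporting set, is seen by
the responses -/
theorem trace_rsL {B : Finset V} {𝒟 : Finset (Set V)} (hD : Dec Δ B 𝒟) (q : ℕ) {S U W : Finset V}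
    (hS : ↑S ⊆ reg B 𝒟)
    (hW : W ⊆ S) (hU : ∀ v ∈ U, v ∉ reg B 𝒟) {χ : V → ℕ} (h : ∀ w ∈ W, χ w ≤ nb Δ w (W ∪ U))
    {v : V} (hv : v ∈ B) {x : V} (hx : Δ.Adj v x) (hxW : x ∈ W ∪ U) :
    x ∈ (W ∩ B) ∪ U ∪ rsL 𝒟 (sts Δ r q S χ) (W ∩ B) := by
  rcases Finset.mem_union.1 hxW with hxW | hxU
  · rcases mem_reg.1 (hS (Finset.mem_coe.2 (hW hxW))) with hxB | ⟨D, hDD, hxD⟩
    · exact Finset.mem_union_left _ (Finset.mem_union_left _ (Finset.mem_inter.2 ⟨hxW, hxB⟩))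
    · refine Finset.mem_union_right _ (Finset.mem_biUnion.2 ⟨D, hDD, ?_⟩)
      refine Finset.mem_inter.2 ⟨trace_sub hD hW hU h hDD hxW hxD, ?_⟩
      exact (mem_fs (hD.finI D hDD)).2 ⟨hxD, v, hD.disj D hDD v hv, hx.symm⟩
  · exact Finset.mem_union_left _ (Finset.mem_union_right _ hxU)

/-! ### GL2 : recurrence and unburnt sets -/

variable (hreg : ∀ v, Δ.degree v = r) {B : Finset V} {𝒟 : Finset (Set V)} (hD : Dec Δ B 𝒟) (q : ℕ)
include hreg hD

/-- the responses only see the configuration on the core -/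
theorem gC_rs (χ : V → ℕ) (s : Set V → St V) : gC Δ B 𝒟 (rs B χ) s ↔ gC Δ B 𝒟 χ s := by
  have key : ∀ W ⊆ B, ∀ v ∈ W, rs B χ v = χ v := by
    intro W hW v hv
    simp [rs, hW hv]
  unfold gC
  constructor
  · intro h W hW hne
    obtain ⟨v, hv, h'⟩ := h W hW hne
    exact ⟨v, hv, by rwa [key W hW v hv] at h'⟩
  · intro h W hW hne
    obtain ⟨v, hv, h'⟩ := h W hW hne
    exact ⟨v, hv, by rwa [key W hW v hv]⟩

theorem glue_rc {S : Finset V} (hB : B ⊆ S) (hS : ↑S ⊆ reg B 𝒟) {χ : V → ℕ} (hχ : ∀ v, v ∉ S → χ v = 0) :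
    χ ∈ rcr Δ r S ↔ (∀ v ∈ B, 1 ≤ χ v ∧ χ v ≤ r) ∧ (∀ D ∈ 𝒟, rs (cut D S) χ ∈ rcr Δ r (cut D S)) ∧
      gC Δ B 𝒟 χ (sts Δ r q S χ) := by
  unfold rcr rc
  simp only [Finset.mem_filter, mem_stab]
  constructor
  · rintro ⟨⟨h1, -⟩, h2⟩
    refine ⟨fun v hv => h1 v (hB hv), fun D hDD => ⟨⟨?_, ?_⟩, ?_⟩, ?_⟩
    · intro v hv
      rw [rs, if_pos hv]
      exact h1 v (mem_cut.1 hv).1
    · intro v hv
      rw [rs, if_neg hv]
    · intro W hW hne
      obtain ⟨v, hv, h⟩ := h2 W (fun w hw => (mem_cut.1 (hW hw)).1) hne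
      refine ⟨v, hv, ?_⟩
      rwa [rs, if_pos (hW hv)]
    · intro W hW hne
      obtain ⟨v, hv, h⟩ := h2 (W ∪ LU Δ 𝒟 S χ W)
        (Finset.union_subset (hW.trans hB) LU_sub) (hne.mono Finset.subset_union_left)
      rcases Finset.mem_union.1 hv with hv | hv
      · refine ⟨v, hv, lt_of_le_of_lt (nb_mono fun w _ hw => ?_) h⟩
        rcases Finset.mem_union.1 hw with hw | hw
        · exact Finset.mem_union_left _ hw
        · exact Finset.mem_union_right _ (rsL_sub q hw)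
      · exact absurd (LU_self hv) (not_le.2 h)
  · rintro ⟨h1, h2, h3⟩
    refine ⟨⟨?_, hχ⟩, ?_⟩
    · intro v hv
      rcases mem_reg.1 (hS (Finset.mem_coe.2 hv)) with hvB | ⟨D, hDD, hvD⟩
      · exact h1 v hvB
      · have hv' : v ∈ cut D S := mem_cut.2 ⟨hv, hvD⟩
        have := (h2 D hDD).1.1 v hv'
        rwa [rs, if_pos hv'] at this
    · intro W hW hne
      by_contra hcon
      push Not at hcon
      have hcon' : ∀ w ∈ W, χ w ≤ nb Δ w (W ∪ ∅) := by simpa using hcon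
      have hU : ∀ v ∈ (∅ : Finset V), v ∉ reg B 𝒟 := by simp
      rcases (W ∩ B).eq_empty_or_nonempty with he | hne'
      · obtain ⟨x, hx⟩ := hne
        rcases mem_reg.1 (hS (Finset.mem_coe.2 (hW hx))) with hxB | ⟨D, hDD, hxD⟩
        · have : x ∈ W ∩ B := Finset.mem_inter.2 ⟨hx, hxB⟩
          rw [he] at this
          simp at this
        · have hsub : cut D W ⊆ cut D S := by
            intro w hw
            rw [mem_cut] at hw ⊢
            exact ⟨hW hw.1, hw.2⟩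
          obtain ⟨v, hv, h⟩ := (h2 D hDD).2 (cut D W) hsub ⟨x, mem_cut.2 ⟨hx, hxD⟩⟩
          rw [rs, if_pos (hsub hv)] at h
          rw [mem_cut] at hv
          refine absurd (hcon v hv.1) (not_le.2 (lt_of_le_of_lt (nb_mono fun w hw hwW => ?_) h))
          rw [mem_cut]
          refine ⟨hwW, ?_⟩
          by_contra hwD
          have hwB : w ∈ B := hD.sub D hDD ⟨hwD, v, hv.2, hw⟩
          have : w ∈ W ∩ B := Finset.mem_inter.2 ⟨hwW, hwB⟩
          rw [he] at this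
          simp at this
      · obtain ⟨v, hv, h⟩ := h3 (W ∩ B) Finset.inter_subset_right hne'
        rw [Finset.mem_inter] at hv
        refine absurd (hcon v hv.1) (not_le.2 (lt_of_le_of_lt (nb_mono fun w hw hwW => ?_) h))
        have := trace_rsL (r := r) hD q hS hW hU hcon' hv.2 hw (by simpa using hwW)
        simpa using this

theorem glue_LL {S U : Finset V} (hB : B ⊆ S) (hS : ↑S ⊆ reg B 𝒟) (hU : ∀ v ∈ U, v ∉ reg B 𝒟) (χ : V → ℕ) :
    LL Δ S χ U ∩ B = gL Δ B 𝒟 χ (sts Δ r q S χ) U := by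
  ext v
  rw [Finset.mem_inter, gL, Finset.mem_filter, mem_LL]
  constructor
  · rintro ⟨⟨W, hW, hvW, h⟩, hvB⟩
    refine ⟨hvB, W ∩ B, Finset.inter_subset_right, Finset.mem_inter.2 ⟨hvW, hvB⟩, ?_⟩
    intro w hw
    rw [Finset.mem_inter] at hw
    exact le_trans (h w hw.1) (nb_mono fun x hx hxx => trace_rsL hD q hS hW hU h hw.2 hx hxx)
  · rintro ⟨hvB, W, hW, hvW, h⟩
    refine ⟨⟨W ∪ LU Δ 𝒟 S χ W, Finset.union_subset (hW.trans hB) LU_sub,
      Finset.mem_union_left _ hvW, ?_⟩, hvB⟩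
    intro w hw
    rcases Finset.mem_union.1 hw with hw | hw
    · refine le_trans (h w hw) (nb_mono fun x _ hx => ?_)
      rcases Finset.mem_union.1 hx with hx | hx
      · rcases Finset.mem_union.1 hx with hx | hx
        · exact Finset.mem_union_left _ (Finset.mem_union_left _ hx)
        · exact Finset.mem_union_right _ hx
      · exact Finset.mem_union_left _ (Finset.mem_union_right _ (rsL_sub q hx))
    · refine le_trans (LU_self hw) (nb_mono fun x _ hx => Finset.mem_union_left _ hx)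

end Pool.Agent.Sand.GL12
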