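import Pool.Agent.SandFin.All5
import Pool.Agent.SandFin.UpDefs

/-! Task LO1a: waves of a prescribed size have positive probability. -/

set_option autoImplicit false
open scoped Classical
open Filter Topology

namespace Pool.Agent.Sand.LO1a

open Pool.Agent.Sand

variable {V : Type} {Δ : SimpleGraph V} [Δ.LocallyFinite]

theorem NN_mono {S : Finset V} {d d' : V → ℕ} (h : ∀ v ∈ S, d v ≤ d' v) : NN Δ S d ≤ NN Δ S d' := by
  unfold NN rc
  refine Finset.card_le_card fun χ hχ => ?_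
  rw [Finset.mem_filter, mem_stab] at hχ ⊢
  exact ⟨⟨fun v hv => ⟨(hχ.1.1 v hv).1, (hχ.1.1 v hv).2.trans (h v hv)⟩, hχ.1.2⟩, hχ.2⟩

theorem nb_le_degree (v : V) (W : Finset V) : nb Δ v W ≤ Δ.degree v := by
  unfold nb
  rw [← SimpleGraph.card_neighborFinset_eq_degree]
  exact Finset.card_le_card Finset.inter_subset_left

theorem TT_pos {r : ℕ} (hreg : ∀ v, Δ.degree v = r) {Z U : Finset V}
    (hb : ∀ W ⊆ Z, W.Nonempty → ∃ v ∈ W, 1 ≤ nb Δ v (U ∪ (Z \ W))) : 1 ≤ TT Δ r Z U := by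
  unfold TT
  rw [Nat.one_le_iff_ne_zero, ← Nat.pos_iff_ne_zero, Finset.card_pos]
  refine ⟨fun v => if v ∈ Z then r else 0, ?_⟩
  rw [Finset.mem_filter, mem_stab]
  refine ⟨⟨?_, ?_⟩, ?_⟩
  · intro v hv
    simp only [if_pos hv, le_refl, and_true]
    obtain ⟨w, _, hw⟩ := hb Z (Finset.Subset.refl _) ⟨v, hv⟩
    have := nb_le_degree (Δ := Δ) w (U ∪ (Z \ Z))
    rw [hreg] at this
    omega
  · intro v hv
    simp only [if_neg hv]
  · intro W hW hne
    obtain ⟨v, hv, h⟩ := hb W hW hne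
    refine ⟨v, hv, ?_⟩
    simp only [if_pos (hW hv)]
    omega

theorem degY_nb {r : ℕ} (hreg : ∀ v, Δ.degree v = r) {Y : Set V} {Q : Finset V}
    (hYQ : ∀ v ∈ Q, v ∉ Y) (v : V) : degY Δ Y v ≤ r - nb Δ v Q := by
  have h1 : degY Δ Y v + nb Δ v Q ≤ r := by
    rw [← hreg v, ← SimpleGraph.card_neighborFinset_eq_degree]
    unfold degY nb
    rw [← Finset.card_union_of_disjoint]
    · refine Finset.card_le_card (Finset.union_subset (Finset.filter_subset _ _)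
        Finset.inter_subset_left)
    · rw [Finset.disjoint_left]
      intro w hw hw'
      rw [Finset.mem_filter] at hw
      rw [Finset.mem_inter] at hw'
      exact hYQ w hw'.2 hw.2
  omega

variable {r : ℕ} {h : ℝ} {D0 : ℕ} (H : Hyp Δ r h D0)
include H

theorem lo_size {o : V} {R : ℕ} {E : Set V} (hE : Cone Δ o R E) (s : ℕ) : ∃ c : ℝ, 0 < c ∧
    ∀ᶠ G in (atTop : Filter (Finset V)),
      c ≤ pr Δ r (cut E G) (fun χ => (KK Δ r (cut E G) χ (fs (oB Δ E))).card = s) := by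
  obtain ⟨Z, hZE, hZs, hfree, hburn⟩ := exists_Z Δ H hE s
  have hfin : (oB Δ E).Finite := by
    obtain ⟨b, _, _, hb⟩ := exists_bound H
    exact (hb o R E hE.comp).2.1
  obtain ⟨c, hc, hNN⟩ := NN_free H (Z ∪ fs (oB Δ E)).card
  refine ⟨c, hc, ?_⟩
  filter_upwards [eventually_ge_atTop Z] with G hG
  have hQ : ∀ v ∈ Z ∪ fs (oB Δ E), v ∉ E \ (↑Z : Set V) := by
    intro v hv hv'
    rcases Finset.mem_union.1 hv with hv | hv
    · exact hv'.2 (Finset.mem_coe.2 hv)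
    · exact ((mem_fs hfin).1 hv).1 hv'.1
  have hexit : ∀ v ∈ E \ (↑Z : Set V), ∀ w, Δ.Adj v w → w ∉ E \ (↑Z : Set V) →
      w ∈ Z ∪ fs (oB Δ E) := by
    intro v hv w hw hwE
    by_cases hwZ : w ∈ Z
    · exact Finset.mem_union_left _ hwZ
    · refine Finset.mem_union_right _ ((mem_fs hfin).2 ⟨?_, v, hv.1, hw⟩)
      intro hw'
      exact hwE ⟨hw', fun h' => hwZ (Finset.mem_coe.1 h')⟩
  have hS : (↑(cut E G) : Set V) ⊆ (E \ (↑Z : Set V)) ∪ ↑(Z ∪ fs (oB Δ E)) := by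
    intro v hv
    have hv' : v ∈ G ∧ v ∈ E := by simpa [cut] using hv
    by_cases hvZ : v ∈ Z
    · exact Or.inr (Finset.mem_coe.2 (Finset.mem_union_left _ hvZ))
    · exact Or.inl ⟨hv'.2, fun h' => hvZ (Finset.mem_coe.1 h')⟩
  have h1 := hNN (E \ (↑Z : Set V)) (Z ∪ fs (oB Δ E)) le_rfl hfree hexit (cut E G) hS
  have h1' : c * (NNr Δ r (cut E G) : ℝ) ≤
      (NN Δ (cut E G \ Z) (degY Δ (E \ (↑Z : Set V))) : ℝ) := by
    refine h1.trans (le_of_eq ?_)
    congr 2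
    ext v
    simp only [cut, Finset.mem_filter, Finset.mem_sdiff, Set.mem_sdiff, Finset.mem_coe]
    tauto
  have hdisj : Disjoint (cut E G) (fs (oB Δ E)) := by
    rw [Finset.disjoint_left]
    intro v hv hv'
    have hv1 : v ∈ G ∧ v ∈ E := by simpa [cut] using hv
    exact ((mem_fs hfin).1 hv').1 hv1.2
  have hZS : Z ⊆ cut E G := by
    intro v hv
    rw [cut, Finset.mem_filter]
    exact ⟨hG hv, hZE (Finset.mem_coe.2 hv)⟩
  have hcount := count_wave H.reg hdisj (Finset.Subset.refl (cut E G)) hZS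
  have h2 : NN Δ (cut E G \ Z) (degY Δ (E \ (↑Z : Set V))) ≤
      NN Δ (cut E G \ Z) (fun v => if v ∈ cut E G then r - nb Δ v (Z ∪ fs (oB Δ E)) else r) := by
    refine NN_mono fun v hv => ?_
    rw [if_pos (Finset.mem_sdiff.1 hv).1]
    exact degY_nb H.reg hQ v
  have h3 : NN Δ (cut E G \ Z) (degY Δ (E \ (↑Z : Set V))) ≤
      ((rcr Δ r (cut E G)).filter fun χ => KK Δ r (cut E G) χ (fs (oB Δ E)) = Z).card := by
    rw [hcount]
    exact h2.trans (Nat.le_mul_of_pos_left _ (TT_pos H.reg hburn))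
  have h4 : ((rcr Δ r (cut E G)).filter fun χ => KK Δ r (cut E G) χ (fs (oB Δ E)) = Z).card ≤
      ((rcr Δ r (cut E G)).filter fun χ => (KK Δ r (cut E G) χ (fs (oB Δ E))).card = s).card := by
    refine Finset.card_le_card fun χ hχ => ?_
    rw [Finset.mem_filter] at hχ ⊢
    exact ⟨hχ.1, by rw [hχ.2, hZs]⟩
  have hpos : (0 : ℝ) < (NNr Δ r (cut E G) : ℝ) := by exact_mod_cast NN_pos H (cut E G)
  unfold pr
  rw [le_div_iff₀ hpos]
  refine h1'.trans ?_
  have h5 : (NN Δ (cut E G \ Z) (degY Δ (E \ (↑Z : Set V))) : ℝ) ≤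
      (((rcr Δ r (cut E G)).filter fun χ =>
        (KK Δ r (cut E G) χ (fs (oB Δ E))).card = s).card : ℝ) := by
    exact_mod_cast h3.trans h4
  refine h5.trans (le_of_eq ?_)
  congr 2
  ext χ
  simp only [Finset.mem_filter]

end Pool.Agent.Sand.LO1a
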