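import Pool.Agent.SandFin.GlueDefs

/-! Recursion for cones: definitions. -/

set_option autoImplicit false
open scoped Classical
open Filter Topology

namespace Pool.Agent.Sand

variable {V : Type} (Δ : SimpleGraph V) [Δ.LocallyFinite]

/-- limiting density of the core -/
noncomputable def cst (r : ℕ) (B : Finset V) (C : Set V) : ℝ :=
  limUnder atTop (fun G : Finset V => (NNr Δ r (cut C G \ B) : ℝ) / (NNr Δ r (cut C G) : ℝ))

/-- glued odometer of a cone -/
noncomputable def gwn (r : ℕ) (C : Set V) (ξ n : V → ℕ) (s : Set V → St V) : V → ℕ :=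
  gw Δ r (core Δ C) (chd Δ C) ξ (rs (core Δ C) (fun v => inc Δ v n)) s

/-- glued state of a cone -/
noncomputable def gst (r q : ℕ) (C : Set V) (ξ : V → ℕ) (s : Set V → St V) : St V :=
  (fun U => gL Δ (core Δ C) (chd Δ C) ξ s (U ∩ fs (oB Δ C)) ∩ fs (iB Δ C),
   fun n => rs (fs (iB Δ C)) (gwn Δ r C ξ (cap Δ q C n) s))

/-- families of states -/
noncomputable def fst (r q : ℕ) (𝒟 : Finset (Set V)) : Finset (Set V → St V) :=
  fpi 𝒟 (stF Δ r q) (fun _ => ∅, fun _ => 0)

/-- limiting probability of a state together with the event that the descendant `E` is reached -/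
noncomputable def be (r q : ℕ) (D : Set V) (σ : St V) (n : V → ℕ) (E : Set V) : ℝ :=
  limUnder atTop (fun G : Finset V => pr Δ r (cut D G)
    (fun χ => st Δ r q D (cut D G) χ = σ ∧ ∃ v ∈ iB Δ E, odo Δ r (cut D G) χ n v ≠ 0))

end Pool.Agent.Sand
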