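import Pool.Agent.SandFin.All4
import Pool.Agent.SandFin.TypDefs

/-! REC1: general product limit. -/

set_option autoImplicit false
open scoped Classical
open Filter Topology

namespace Pool.Agent.Sand

variable {V : Type} (Δ : SimpleGraph V) [Δ.LocallyFinite]

/-! PLACEHOLDER START (cst is that of Typ.lean; remove when merging) -/

/-! PLACEHOLDER END -/

section R
variable {Δ} {r : ℕ} {h : ℝ} {D0 : ℕ} (H : Hyp Δ r h D0)
include H

theorem cst_tendsto {B : Finset V} {C : Set V} (hB : ↑B ⊆ C) : 0 < cst Δ r B C ∧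
    Tendsto (fun G : Finset V => (NNr Δ r (cut C G \ B) : ℝ) / (NNr Δ r (cut C G) : ℝ)) atTop
      (𝓝 (cst Δ r B C)) := by
  obtain ⟨ℓ, h0, hℓ⟩ := lm_ratio H C B hB
  have h1 : cst Δ r B C = ℓ := hℓ.limUnder_eq
  rw [h1]
  exact ⟨h0, hℓ⟩

omit H in
theorem rec1_pr_card (S : Finset V) (P : (V → ℕ) → Prop) [DecidablePred P] :
    pr Δ r S P = (((rcr Δ r S).filter P).card : ℝ) / (NNr Δ r S : ℝ) := by
  unfold pr
  congr!

omit [Δ.LocallyFinite] H in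
theorem rec1_cut {B : Finset V} {𝒟 : Finset (Set V)} {D : Set V} (hD : D ∈ 𝒟) (G : Finset V) :
    cut D (cut (reg B 𝒟) G) = cut D G := by
  unfold cut
  ext v
  simp only [Finset.mem_filter]
  constructor
  · rintro ⟨⟨h1, _⟩, h2⟩
    exact ⟨h1, h2⟩
  · rintro ⟨h1, h2⟩
    exact ⟨⟨h1, Or.inr (Set.mem_biUnion hD h2)⟩, h2⟩

/-- general product limit -/
theorem rec_gen {B : Finset V} {𝒟 : Finset (Set V)} (hD : Dec Δ B 𝒟) (q : ℕ) {ξ : V → ℕ}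
    (hξ : ξ ∈ stab B (fun _ => r)) (s : Set V → St V) (Q : Set V → Finset V → (V → ℕ) → Prop)
    (ℓ : Set V → ℝ)
    (hℓ : ∀ D ∈ 𝒟, Tendsto (fun G : Finset V => pr Δ r (cut D G)
      (fun η => st Δ r q D (cut D G) η = s D ∧ Q D (cut D G) η)) atTop (𝓝 (ℓ D))) :
    Tendsto (fun G : Finset V => pr Δ r (cut (reg B 𝒟) G) (fun χ => rs B χ = ξ ∧
      ∀ D ∈ 𝒟, st Δ r q D (cut D G) χ = s D ∧ Q D (cut D G) (rs (cut D G) χ))) atTop
      (𝓝 (cst Δ r B (reg B 𝒟) * if gC Δ B 𝒟 ξ s then ∏ D ∈ 𝒟, ℓ D else 0)) := by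
  have hB : (↑B : Set V) ⊆ reg B 𝒟 := fun v hv => Or.inl hv
  have h1 : Tendsto (fun G : Finset V => (NNr Δ r (cut (reg B 𝒟) G \ B) : ℝ) /
      (NNr Δ r (cut (reg B 𝒟) G) : ℝ) * if gC Δ B 𝒟 ξ s then ∏ D ∈ 𝒟, pr Δ r (cut D G)
      (fun η => st Δ r q D (cut D G) η = s D ∧ Q D (cut D G) η) else 0) atTop
      (𝓝 (cst Δ r B (reg B 𝒟) * if gC Δ B 𝒟 ξ s then ∏ D ∈ 𝒟, ℓ D else 0)) := by
    refine (cst_tendsto H hB).2.mul ?_
    by_cases hc : gC Δ B 𝒟 ξ s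
    · simp only [hc, if_true]
      exact tendsto_finsetProd _ hℓ
    · simp only [hc, if_false]
      exact tendsto_const_nhds
  refine h1.congr' ?_
  filter_upwards [eventually_ge_atTop B] with G hG
  have hBG : B ⊆ cut (reg B 𝒟) G := fun v hv => Finset.mem_filter.2 ⟨hG hv, hB hv⟩
  have hSG : (↑(cut (reg B 𝒟) G) : Set V) ⊆ reg B 𝒟 := fun v hv => (Finset.mem_filter.1 hv).2
  have h2 := glue_count H.reg hD q hBG hSG hξ s (fun D η => Q D (cut D G) η)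
  have h3 := glue_NN H.reg hD hSG
  have h4 : ((rcr Δ r (cut (reg B 𝒟) G)).filter fun χ => rs B χ = ξ ∧
      ∀ D ∈ 𝒟, st Δ r q D (cut D (cut (reg B 𝒟) G)) χ = s D ∧
        Q D (cut D G) (rs (cut D (cut (reg B 𝒟) G)) χ)) =
      ((rcr Δ r (cut (reg B 𝒟) G)).filter fun χ => rs B χ = ξ ∧
      ∀ D ∈ 𝒟, st Δ r q D (cut D G) χ = s D ∧ Q D (cut D G) (rs (cut D G) χ)) := by
    refine Finset.filter_congr fun χ _ => and_congr_right fun _ => forall₂_congr fun D hDD => ?_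
    rw [rec1_cut hDD]
  rw [h4] at h2
  rw [rec1_pr_card, h2, h3]
  by_cases hc : gC Δ B 𝒟 ξ s
  · rw [if_pos hc, if_pos hc]
    have h5 : ∏ D ∈ 𝒟, pr Δ r (cut D G) (fun η => st Δ r q D (cut D G) η = s D ∧ Q D (cut D G) η) =
        (∏ D ∈ 𝒟, (((rcr Δ r (cut D (cut (reg B 𝒟) G))).filter fun η =>
          st Δ r q D (cut D (cut (reg B 𝒟) G)) η = s D ∧ Q D (cut D G) η).card : ℝ)) /
          ∏ D ∈ 𝒟, (NNr Δ r (cut D (cut (reg B 𝒟) G)) : ℝ) := by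
      rw [← Finset.prod_div_distrib]
      refine Finset.prod_congr rfl fun D hDD => ?_
      rw [rec1_pr_card, rec1_cut hDD]
    rw [h5]
    have h6 : (∏ D ∈ 𝒟, (NNr Δ r (cut D (cut (reg B 𝒟) G)) : ℝ)) ≠ 0 :=
      Finset.prod_ne_zero_iff.2 fun D _ => Nat.cast_ne_zero.2 (NN_pos H _).ne'
    push_cast
    rw [div_mul_div_comm, mul_comm (NNr Δ r (cut (reg B 𝒟) G) : ℝ), mul_div_mul_left _ _ h6]
  · rw [if_neg hc, if_neg hc, mul_zero, zero_div]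

end R

end Pool.Agent.Sand
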