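import Pool.Agent.SandFin.REC1

/-! REC2: gluing of states and odometers for cones. -/

set_option autoImplicit false
open scoped Classical
open Filter Topology

namespace Pool.Agent.Sand.REC2

open Pool.Agent.Sand

variable {V : Type} {Δ : SimpleGraph V} [Δ.LocallyFinite]

section R2

omit [Δ.LocallyFinite] in
theorem rec2_rs_of_mem {B : Finset V} {χ : V → ℕ} {v : V} (hv : v ∈ B) : rs B χ v = χ v := by
  simp [rs, hv]

theorem rec2_gStz_rs {r : ℕ} {B : Finset V} {𝒟 : Finset (Set V)} {χ e : V → ℕ} {s : Set V → St V}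
    {w : V → ℕ} : gStz Δ r B 𝒟 (rs B χ) e s w ↔ gStz Δ r B 𝒟 χ e s w := by
  unfold gStz
  refine and_congr_right fun _ => forall₂_congr fun v hv => ?_
  rw [rec2_rs_of_mem hv]

theorem rec2_gw_rs (r : ℕ) (B : Finset V) (𝒟 : Finset (Set V)) (χ e : V → ℕ) (s : Set V → St V) :
    gw Δ r B 𝒟 (rs B χ) e s = gw Δ r B 𝒟 χ e s := by
  unfold gw
  simp only [rec2_gStz_rs]

theorem rec2_gL_rs (B : Finset V) (𝒟 : Finset (Set V)) (χ : V → ℕ) (s : Set V → St V)
    (U : Finset V) : gL Δ B 𝒟 (rs B χ) s U = gL Δ B 𝒟 χ s U := by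
  unfold gL
  refine Finset.filter_congr fun v _ => ?_
  refine exists_congr fun W => and_congr_right fun hW => and_congr_right fun _ => ?_
  refine forall₂_congr fun w hw => ?_
  rw [rec2_rs_of_mem (hW hw)]

theorem rec2_inc_zero (v : V) : inc Δ v 0 = 0 := by simp [inc]

variable {r : ℕ} {h : ℝ} {D0 : ℕ} (H : Hyp Δ r h D0)
include H

theorem rec2_core_sub {o : V} {R : ℕ} {C : Set V} (hC : Cone Δ o R C) {G : Finset V}
    (hG : core Δ C ⊆ G) : core Δ C ⊆ cut C G := by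
  intro v hv
  rw [cut, Finset.mem_filter]
  exact ⟨hG hv, ((mem_core H hC).1 hv).1⟩

omit H in
theorem rec2_cut_reg {C : Set V} {G : Finset V} {B : Finset V} {𝒟 : Finset (Set V)}
    (hr : reg B 𝒟 = C) : (↑(cut C G) : Set V) ⊆ reg B 𝒟 := by
  intro v hv
  rw [hr]
  exact (Finset.mem_filter.1 (Finset.mem_coe.1 hv)).2

theorem rec2_cut_cut {o : V} {R : ℕ} {C : Set V} (hC : Cone Δ o R C) {D : Set V}
    (hD : D ∈ chd Δ C) (G : Finset V) : cut D (cut C G) = cut D G := by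
  have h1 : D ⊆ C := ((mem_chd H hC).1 hD).2
  ext v
  simp only [cut, Finset.mem_filter]
  exact ⟨fun h => ⟨h.1.1, h.2⟩, fun h => ⟨⟨h.1, h1 h.2⟩, h.2⟩⟩

theorem rec2_stz {o : V} {R : ℕ} {C : Set V} (hC : Cone Δ o R C) {G : Finset V} {χ n u : V → ℕ}
    (hn : ∀ v, v ∉ oB Δ C → n v = 0) :
    Stz Δ r (cut C G) χ n u ↔
      Stz Δ r (cut C G) (χ + rs (core Δ C) (fun v => inc Δ v n)) 0 u := by
  unfold Stz
  refine and_congr_right fun _ => forall₂_congr fun v hv => ?_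
  have hvC : v ∈ C := (Finset.mem_filter.1 hv).2
  have h1 : rs (core Δ C) (fun v => inc Δ v n) v = inc Δ v n := by
    by_cases hc : v ∈ core Δ C
    · exact rec2_rs_of_mem hc
    · have h2 : inc Δ v n = 0 := by
        unfold inc
        refine Finset.sum_eq_zero fun w hw => hn w fun hw' => hc ?_
        have h3 : v ∈ iB Δ C := ⟨hvC, w, hw'.1, by simpa using hw⟩
        exact (cone_dec H hC).2.2 h3
      rw [h2]
      simp [rs, hc]
  rw [rec2_inc_zero, Pi.add_apply, h1]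
  constructor
  · intro h; omega
  · intro h; omega

theorem rec2_odo {o : V} {R : ℕ} {C : Set V} (hC : Cone Δ o R C) {G : Finset V} {χ n : V → ℕ}
    (hn : ∀ v, v ∉ oB Δ C → n v = 0) :
    odo Δ r (cut C G) χ n =
      odo Δ r (cut C G) (χ + rs (core Δ C) (fun v => inc Δ v n)) 0 := by
  unfold odo
  simp only [rec2_stz H hC hn]

omit H in
theorem rec2_le {S : Finset V} {χ : V → ℕ} (hχ : χ ∈ rcr Δ r S) : ∀ v ∈ S, χ v ≤ r := by
  intro v hv
  have h1 := (Finset.mem_filter.1 hχ).1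
  exact ((mem_stab.1 h1).1 v hv).2

theorem odo_glue {o : V} {R : ℕ} {C : Set V} (hC : Cone Δ o R C) {q : ℕ} {G : Finset V}
    (hG : core Δ C ⊆ G) {χ n : V → ℕ} (hχ : χ ∈ rcr Δ r (cut C G)) (hn : ∀ v, v ∉ oB Δ C → n v = 0)
    (hq : ∀ v, n v ≤ q) :
    rs (core Δ C) (odo Δ r (cut C G) χ n) = gwn Δ r C (rs (core Δ C) χ) n (sts Δ r q (cut C G) χ) ∧
    (∀ D ∈ chd Δ C, ∀ v ∈ D, odo Δ r (cut C G) χ n v = odo Δ r (cut D G) χ
      (rs (fs (oB Δ D)) (gwn Δ r C (rs (core Δ C) χ) n (sts Δ r q (cut C G) χ))) v) ∧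
    sz Δ r (cut C G) χ n =
      ((core Δ C).filter fun v => gwn Δ r C (rs (core Δ C) χ) n (sts Δ r q (cut C G) χ) v ≠ 0).card +
      ∑ D ∈ chd Δ C, sz Δ r (cut D G) χ
        (rs (fs (oB Δ D)) (gwn Δ r C (rs (core Δ C) χ) n (sts Δ r q (cut C G) χ))) := by
  obtain ⟨hDec, hreg, -⟩ := cone_dec H hC
  have hB : core Δ C ⊆ cut C G := rec2_core_sub H hC hG
  have hS : (↑(cut C G) : Set V) ⊆ reg (core Δ C) (chd Δ C) := rec2_cut_reg hreg
  have hχr := rec2_le hχ
  have hn0 : ∀ v ∈ cut C G, n v = 0 := fun v hv =>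
    hn v fun h => h.1 (Finset.mem_filter.1 hv).2
  have hu0 := stz_const (S := cut C G) H.reg hχr hq hn0
  have hu := (rec2_stz H hC hn).1 hu0
  have he : ∀ v, v ∉ core Δ C → rs (core Δ C) (fun v => inc Δ v n) v = 0 := by
    intro v hv; simp [rs, hv]
  have hodo := rec2_odo (G := G) (χ := χ) H hC hn
  have hoq : ∀ v, odo Δ r (cut C G) (χ + rs (core Δ C) (fun v => inc Δ v n)) 0 v ≤ q := by
    intro v
    rw [← hodo]
    exact odo_le_const H.reg hχr hq hn0 v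
  have h1 := glue_odo H.reg hDec q hB hS hχr he hu (fun D _ v _ => hoq v)
  have hg : gwn Δ r C (rs (core Δ C) χ) n (sts Δ r q (cut C G) χ) =
      rs (core Δ C) (odo Δ r (cut C G) χ n) := by
    rw [gwn, rec2_gw_rs, h1, hodo]
  have hrs : ∀ D ∈ chd Δ C, rs (fs (oB Δ D)) (rs (core Δ C) (odo Δ r (cut C G) χ n)) =
      rs (fs (oB Δ D)) (odo Δ r (cut C G) χ n) := by
    intro D hD
    funext v
    by_cases hv : v ∈ fs (oB Δ D)
    · rw [rec2_rs_of_mem hv, rec2_rs_of_mem hv, rec2_rs_of_mem]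
      exact hDec.sub D hD ((mem_fs (hDec.finO D hD)).1 hv)
    · simp [rs, hv]
  refine ⟨hg.symm, fun D hD v hv => ?_, ?_⟩
  · rw [hg, hrs D hD]
    have h2 := glue_in hDec hB hS he hu hD hv
    rw [← hodo, rec2_cut_cut H hC hD] at h2
    exact h2
  · have h3 := glue_sz hDec hB hS he hu
    rw [← hodo] at h3
    rw [sz, h3, hg]
    congr 1
    · congr 1
      refine Finset.filter_congr fun v hv => ?_
      rw [rec2_rs_of_mem hv]
    · refine Finset.sum_congr rfl fun D hD => ?_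
      rw [hrs D hD, rec2_cut_cut H hC hD]

theorem st_glue {o : V} {R : ℕ} {C : Set V} (hC : Cone Δ o R C) (q : ℕ) {G : Finset V}
    (hG : core Δ C ⊆ G) {χ : V → ℕ} (hχ : χ ∈ rcr Δ r (cut C G)) :
    st Δ r q C (cut C G) χ = gst Δ r q C (rs (core Δ C) χ) (sts Δ r q (cut C G) χ) := by
  obtain ⟨hDec, hreg, hiB⟩ := cone_dec H hC
  have hB : core Δ C ⊆ cut C G := rec2_core_sub H hC hG
  have hS : (↑(cut C G) : Set V) ⊆ reg (core Δ C) (chd Δ C) := rec2_cut_reg hreg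
  obtain ⟨b, -, -, hb⟩ := exists_bound H
  obtain ⟨hfi, hfo, -⟩ := hb o R C hC.comp
  have hib : ∀ v ∈ fs (iB Δ C), v ∈ core Δ C := fun v hv => hiB ((mem_fs hfi).1 hv)
  unfold st gst
  refine Prod.ext ?_ ?_
  · funext U
    have hU : ∀ v ∈ U ∩ fs (oB Δ C), v ∉ reg (core Δ C) (chd Δ C) := by
      intro v hv
      rw [hreg]
      exact ((mem_fs hfo).1 (Finset.mem_inter.1 hv).2).1
    have h1 := glue_LL H.reg hDec q hB hS hU χ
    simp only
    rw [rec2_gL_rs, ← h1]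
    ext v
    simp only [Finset.mem_inter]
    exact ⟨fun h => ⟨⟨h.1, hib v h.2⟩, h.2⟩, fun h => ⟨h.1.1, h.2⟩⟩
  · funext n
    simp only
    have hn : ∀ v, v ∉ oB Δ C → cap Δ q C n v = 0 := by
      intro v hv
      rw [cap, if_neg]
      rwa [mem_fs hfo]
    have hq : ∀ v, cap Δ q C n v ≤ q := by
      intro v
      rw [cap]
      split_ifs
      · exact min_le_right _ _
      · exact Nat.zero_le _
    rw [← (REC2.odo_glue H hC hG hχ hn hq).1]
    funext v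
    by_cases hv : v ∈ fs (iB Δ C)
    · rw [rec2_rs_of_mem hv, rec2_rs_of_mem hv, rec2_rs_of_mem (hib v hv)]
    · simp [rs, hv]

end R2

end Pool.Agent.Sand.REC2
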