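import Pool.Agent.SandFin.REC1
import Pool.Agent.SandFin.REC2X

/-! REC3: recursions for the limiting probabilities of the states of a cone. -/

set_option autoImplicit false
open scoped Classical
open Filter Topology

namespace Pool.Agent.Sand.REC3

open Pool.Agent.Sand

variable {V : Type} {Δ : SimpleGraph V} [Δ.LocallyFinite]

theorem stz_rs {r : ℕ} {S : Finset V} {χ n u : V → ℕ} :
    Stz Δ r S (rs S χ) n u ↔ Stz Δ r S χ n u := by
  unfold Stz
  refine and_congr_right fun _ => forall₂_congr fun v hv => ?_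
  simp [rs, hv]

theorem odo_rs {r : ℕ} {S : Finset V} {χ n : V → ℕ} : odo Δ r S (rs S χ) n = odo Δ r S χ n := by
  funext v
  unfold odo
  simp only [stz_rs]

theorem LL_rs {S U : Finset V} {χ : V → ℕ} : LL Δ S (rs S χ) U = LL Δ S χ U := by
  unfold LL
  ext v
  simp only [Finset.mem_filter]
  refine and_congr_right fun _ => exists_congr fun W => and_congr_right fun hW =>
    and_congr_right fun _ => forall₂_congr fun w hw => ?_
  simp [rs, hW hw]

theorem st_rs {r q : ℕ} {D : Set V} {S : Finset V} {χ : V → ℕ} :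
    st Δ r q D S (rs S χ) = st Δ r q D S χ := by
  unfold st
  simp only [odo_rs, LL_rs]

theorem sz_rs {r : ℕ} {S : Finset V} {χ n : V → ℕ} : sz Δ r S (rs S χ) n = sz Δ r S χ n := by
  unfold sz
  simp only [odo_rs]

omit [Δ.LocallyFinite] in
theorem cut_cut {C D : Set V} (hD : D ⊆ C) (G : Finset V) : cut D (cut C G) = cut D G := by
  ext v
  simp only [cut, Finset.mem_filter]
  exact ⟨fun h => ⟨h.1.1, h.2⟩, fun h => ⟨⟨h.1, hD h.2⟩, h.2⟩⟩

theorem rcr_mem {r : ℕ} {S : Finset V} {χ : V → ℕ} (h : χ ∈ rcr Δ r S) :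
    (∀ v ∈ S, 1 ≤ χ v ∧ χ v ≤ r) ∧ ∀ W ⊆ S, W.Nonempty → ∃ v ∈ W, nb Δ v W < χ v := by
  rw [rcr, rc, Finset.mem_filter, mem_stab] at h
  exact ⟨h.1.1, h.2⟩

theorem rs_rcr {r : ℕ} {S T : Finset V} (hT : T ⊆ S) {χ : V → ℕ} (h : χ ∈ rcr Δ r S) :
    rs T χ ∈ rcr Δ r T := by
  obtain ⟨h1, h2⟩ := rcr_mem h
  rw [rcr, rc, Finset.mem_filter, mem_stab]
  refine ⟨⟨fun v hv => ?_, fun v hv => ?_⟩, fun W hW hne => ?_⟩
  · simpa [rs, hv] using h1 v (hT hv)
  · simp [rs, hv]
  · obtain ⟨v, hv, hlt⟩ := h2 W (hW.trans hT) hne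
    exact ⟨v, hv, by simpa [rs, hW hv] using hlt⟩

theorem rs_stab {r : ℕ} {S T : Finset V} (hT : T ⊆ S) {χ : V → ℕ} (h : χ ∈ rcr Δ r S) :
    rs T χ ∈ stab T (fun _ => r) := by
  have := rs_rcr hT h
  rw [rcr, rc, Finset.mem_filter] at this
  exact this.1

theorem rsp_congr {𝒟 : Finset (Set V)} {s s' : Set V → St V} (h : ∀ D ∈ 𝒟, s D = s' D) :
    rsp 𝒟 s = rsp 𝒟 s' := by
  funext w v
  exact Finset.sum_congr rfl fun D hD => by rw [h D hD]

theorem rsL_congr {𝒟 : Finset (Set V)} {s s' : Set V → St V} (h : ∀ D ∈ 𝒟, s D = s' D) :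
    rsL 𝒟 s = rsL 𝒟 s' := by
  funext W
  exact Finset.biUnion_congr rfl fun D hD => by rw [h D hD]

theorem gwn_congr {r : ℕ} {C : Set V} {ξ n : V → ℕ} {s s' : Set V → St V}
    (h : ∀ D ∈ chd Δ C, s D = s' D) : gwn Δ r C ξ n s = gwn Δ r C ξ n s' := by
  unfold gwn gw gStz
  rw [rsp_congr h]

theorem gst_congr {r q : ℕ} {C : Set V} {ξ : V → ℕ} {s s' : Set V → St V}
    (h : ∀ D ∈ chd Δ C, s D = s' D) : gst Δ r q C ξ s = gst Δ r q C ξ s' := by
  unfold gst gL
  rw [rsL_congr h]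
  simp only [gwn_congr h]

section R
variable {r : ℕ} {h : ℝ} {D0 : ℕ} (H : Hyp Δ r h D0)
include H

/-- general recursion: sum over the configurations on the core, the states of the children and
further labels `t ∈ M` -/
theorem part {o : V} {R : ℕ} {C : Set V} (hC : Cone Δ o R C) (q : ℕ) {T : Type} (M : Finset T)
    (E : Finset V → (V → ℕ) → Prop)
    (cond : (V → ℕ) → (Set V → St V) → T → Prop)
    (Q : (V → ℕ) → (Set V → St V) → T → Set V → Finset V → (V → ℕ) → Prop)
    (ℓ : (V → ℕ) → (Set V → St V) → T → Set V → ℝ)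
    (hℓ : ∀ ξ s, ∀ t ∈ M, ∀ D ∈ chd Δ C, Tendsto (fun G : Finset V => pr Δ r (cut D G)
      (fun η => st Δ r q D (cut D G) η = s D ∧ Q ξ s t D (cut D G) η)) atTop (𝓝 (ℓ ξ s t D)))
    (hE : ∀ G : Finset V, core Δ C ⊆ G → ∀ χ ∈ rcr Δ r (cut C G), ∀ ξ s, rs (core Δ C) χ = ξ →
      (∀ D ∈ chd Δ C, st Δ r q D (cut D G) χ = s D) →
      (E (cut C G) χ ↔ ∃ t ∈ M, cond ξ s t ∧
        ∀ D ∈ chd Δ C, Q ξ s t D (cut D G) (rs (cut D G) χ)))
    (hU : ∀ G : Finset V, core Δ C ⊆ G → ∀ χ ∈ rcr Δ r (cut C G), ∀ ξ s, ∀ t ∈ M, ∀ t' ∈ M,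
      (∀ D ∈ chd Δ C, Q ξ s t D (cut D G) (rs (cut D G) χ)) →
      (∀ D ∈ chd Δ C, Q ξ s t' D (cut D G) (rs (cut D G) χ)) → t = t') :
    Tendsto (fun G : Finset V => pr Δ r (cut C G) (E (cut C G))) atTop
      (𝓝 (cst Δ r (core Δ C) C * ∑ ξ ∈ stab (core Δ C) (fun _ => r),
        ∑ s ∈ fst Δ r q (chd Δ C), if gC Δ (core Δ C) (chd Δ C) ξ s then
          ∑ t ∈ M, if cond ξ s t then ∏ D ∈ chd Δ C, ℓ ξ s t D else 0 else 0)) := by
  obtain ⟨hD, hreg, -⟩ := cone_dec H hC
  have hsub : ∀ D ∈ chd Δ C, D ⊆ C := fun D hDD => ((mem_chd H hC).1 hDD).2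
  have hcone : ∀ D ∈ chd Δ C, Cone Δ o (R + 1) D := fun D hDD => ((mem_chd H hC).1 hDD).1
  have key : ∀ G : Finset V, core Δ C ⊆ G → pr Δ r (cut C G) (E (cut C G)) =
      ∑ ξ ∈ stab (core Δ C) (fun _ => r), ∑ s ∈ fst Δ r q (chd Δ C), ∑ t ∈ M,
        if cond ξ s t then pr Δ r (cut C G) (fun χ => rs (core Δ C) χ = ξ ∧ ∀ D ∈ chd Δ C,
          st Δ r q D (cut D G) χ = s D ∧ Q ξ s t D (cut D G) (rs (cut D G) χ)) else 0 := by
    intro G hG
    have hcore : core Δ C ⊆ cut C G := by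
      intro v hv
      rw [cut, Finset.mem_filter]
      exact ⟨hG hv, ((mem_core H hC).1 hv).1⟩
    have point : ∀ χ ∈ rcr Δ r (cut C G), (if E (cut C G) χ then (1 : ℝ) else 0) =
        ∑ ξ ∈ stab (core Δ C) (fun _ => r), ∑ s ∈ fst Δ r q (chd Δ C), ∑ t ∈ M,
          if cond ξ s t then (if (rs (core Δ C) χ = ξ ∧ ∀ D ∈ chd Δ C,
            st Δ r q D (cut D G) χ = s D ∧ Q ξ s t D (cut D G) (rs (cut D G) χ)) then (1 : ℝ) else 0)
            else 0 := by
      intro χ hχ
      have hξ0 : rs (core Δ C) χ ∈ stab (core Δ C) (fun _ => r) := rs_stab hcore hχ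
      let s0 : Set V → St V := fun D => if D ∈ chd Δ C then st Δ r q D (cut D G) χ
        else (fun _ => ∅, fun _ => 0)
      have hs0D : ∀ D ∈ chd Δ C, s0 D = st Δ r q D (cut D G) χ := fun D hDD => if_pos hDD
      have hs0 : s0 ∈ fst Δ r q (chd Δ C) := by
        rw [fst, mem_fpi]
        refine ⟨fun D hDD => ?_, fun D hDD => if_neg hDD⟩
        rw [hs0D D hDD, ← st_rs]
        apply mem_stF H (hcone D hDD) q G
        have := rs_rcr (T := cut D G) (by
          rw [← cut_cut (hsub D hDD) G]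
          exact Finset.filter_subset _ _) hχ
        exact this
      rw [Finset.sum_eq_single (rs (core Δ C) χ)]
      · rw [Finset.sum_eq_single s0]
        · by_cases hEχ : E (cut C G) χ
          · rw [if_pos hEχ]
            obtain ⟨t, ht, hc, hQ⟩ := (hE G hG χ hχ (rs (core Δ C) χ) s0 rfl
              (fun D hDD => (hs0D D hDD).symm)).1 hEχ
            rw [Finset.sum_eq_single t]
            · rw [if_pos hc, if_pos ⟨rfl, fun D hDD => ⟨(hs0D D hDD).symm, hQ D hDD⟩⟩]
            · intro t' ht' hne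
              by_cases hc' : cond (rs (core Δ C) χ) s0 t'
              · rw [if_pos hc', if_neg]
                rintro ⟨-, hall⟩
                exact hne (hU G hG χ hχ _ _ t' ht' t ht (fun D hDD => (hall D hDD).2) hQ)
              · rw [if_neg hc']
            · intro hnot
              exact absurd ht hnot
          · rw [if_neg hEχ]
            symm
            apply Finset.sum_eq_zero
            intro t ht
            by_cases hc : cond (rs (core Δ C) χ) s0 t
            · rw [if_pos hc, if_neg]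
              rintro ⟨-, hall⟩
              exact hEχ ((hE G hG χ hχ (rs (core Δ C) χ) s0 rfl
                (fun D hDD => (hs0D D hDD).symm)).2 ⟨t, ht, hc, fun D hDD => (hall D hDD).2⟩)
            · rw [if_neg hc]
        · intro s hs hne
          apply Finset.sum_eq_zero
          intro t ht
          by_cases hc : cond (rs (core Δ C) χ) s t
          · rw [if_pos hc, if_neg]
            rintro ⟨-, hall⟩
            apply hne
            rw [fst, mem_fpi] at hs
            funext D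
            by_cases hDD : D ∈ chd Δ C
            · rw [hs0D D hDD, (hall D hDD).1]
            · rw [hs.2 D hDD]
              exact (if_neg hDD).symm
          · rw [if_neg hc]
        · intro hnot
          exact absurd hs0 hnot
      · intro ξ _ hne
        apply Finset.sum_eq_zero
        intro s _
        apply Finset.sum_eq_zero
        intro t _
        by_cases hc : cond ξ s t
        · rw [if_pos hc, if_neg]
          rintro ⟨h1, -⟩
          exact hne h1.symm
        · rw [if_neg hc]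
      · intro hnot
        exact absurd hξ0 hnot
    have hpr : ∀ P : (V → ℕ) → Prop, pr Δ r (cut C G) P =
        (∑ χ ∈ rcr Δ r (cut C G), if P χ then (1 : ℝ) else 0) / (NNr Δ r (cut C G) : ℝ) := by
      intro P
      rw [pr, Finset.sum_boole]
    rw [hpr, Finset.sum_congr rfl point]
    simp only [hpr]
    rw [Finset.sum_comm, Finset.sum_div]
    refine Finset.sum_congr rfl fun ξ _ => ?_
    rw [Finset.sum_comm, Finset.sum_div]
    refine Finset.sum_congr rfl fun s _ => ?_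
    rw [Finset.sum_comm, Finset.sum_div]
    refine Finset.sum_congr rfl fun t _ => ?_
    by_cases hc : cond ξ s t
    · simp only [if_pos hc]
      congr 1
      refine Finset.sum_congr rfl fun χ _ => ?_
      congr
    · simp only [if_neg hc, Finset.sum_const_zero, zero_div]
  have hlim : Tendsto (fun G : Finset V => ∑ ξ ∈ stab (core Δ C) (fun _ => r),
      ∑ s ∈ fst Δ r q (chd Δ C), ∑ t ∈ M,
        if cond ξ s t then pr Δ r (cut C G) (fun χ => rs (core Δ C) χ = ξ ∧ ∀ D ∈ chd Δ C,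
          st Δ r q D (cut D G) χ = s D ∧ Q ξ s t D (cut D G) (rs (cut D G) χ)) else 0) atTop
      (𝓝 (∑ ξ ∈ stab (core Δ C) (fun _ => r), ∑ s ∈ fst Δ r q (chd Δ C), ∑ t ∈ M,
        if cond ξ s t then cst Δ r (core Δ C) C * (if gC Δ (core Δ C) (chd Δ C) ξ s then
          ∏ D ∈ chd Δ C, ℓ ξ s t D else 0) else 0)) := by
    refine tendsto_finsetSum _ fun ξ hξ => tendsto_finsetSum _ fun s _ =>
      tendsto_finsetSum _ fun t ht => ?_
    by_cases hc : cond ξ s t
    · simp only [if_pos hc]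
      have := rec_gen H hD q hξ s (Q ξ s t) (ℓ ξ s t) (hℓ ξ s t ht)
      rw [hreg] at this
      exact this
    · simp only [if_neg hc]
      exact tendsto_const_nhds
  have heq : (cst Δ r (core Δ C) C * ∑ ξ ∈ stab (core Δ C) (fun _ => r),
        ∑ s ∈ fst Δ r q (chd Δ C), if gC Δ (core Δ C) (chd Δ C) ξ s then
          ∑ t ∈ M, if cond ξ s t then ∏ D ∈ chd Δ C, ℓ ξ s t D else 0 else 0) =
      ∑ ξ ∈ stab (core Δ C) (fun _ => r), ∑ s ∈ fst Δ r q (chd Δ C), ∑ t ∈ M,
        if cond ξ s t then cst Δ r (core Δ C) C * (if gC Δ (core Δ C) (chd Δ C) ξ s then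
          ∏ D ∈ chd Δ C, ℓ ξ s t D else 0) else 0 := by
    rw [Finset.mul_sum]
    refine Finset.sum_congr rfl fun ξ _ => ?_
    rw [Finset.mul_sum]
    refine Finset.sum_congr rfl fun s _ => ?_
    by_cases hg : gC Δ (core Δ C) (chd Δ C) ξ s
    · simp only [if_pos hg]
      rw [Finset.mul_sum]
      refine Finset.sum_congr rfl fun t _ => ?_
      by_cases hc : cond ξ s t
      · simp only [if_pos hc]
      · simp only [if_neg hc, mul_zero]
    · simp only [if_neg hg, mul_zero, ite_self, Finset.sum_const_zero]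
  rw [heq]
  refine hlim.congr' ?_
  filter_upwards [eventually_ge_atTop (core Δ C)] with G hG
  exact (key G hG).symm

theorem rec_al0 {o : V} {R : ℕ} {C : Set V} (hC : Cone Δ o R C) (q : ℕ) (σ : St V) :
    al0 Δ r q C σ = cst Δ r (core Δ C) C * ∑ ξ ∈ stab (core Δ C) (fun _ => r),
      ∑ s ∈ fst Δ r q (chd Δ C), if gC Δ (core Δ C) (chd Δ C) ξ s ∧ gst Δ r q C ξ s = σ then
        ∏ D ∈ chd Δ C, al0 Δ r q D (s D) else 0 := by
  have hsub : ∀ D ∈ chd Δ C, D ⊆ C := fun D hDD => ((mem_chd H hC).1 hDD).2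
  have hcone : ∀ D ∈ chd Δ C, Cone Δ o (R + 1) D := fun D hDD => ((mem_chd H hC).1 hDD).1
  have hp := part H hC q (T := Unit) {()} (fun S χ => st Δ r q C S χ = σ)
    (fun ξ s _ => gst Δ r q C ξ s = σ) (fun _ _ _ _ _ _ => True)
    (fun _ s _ D => al0 Δ r q D (s D))
    (by
      intro ξ s t _ D hDD
      simp only [and_true]
      exact al0_tendsto H (hcone D hDD) q (s D))
    (by
      intro G hG χ hχ ξ s hξ hs
      have h1 := st_glue H hC q hG hχ
      have h2 : gst Δ r q C (rs (core Δ C) χ) (sts Δ r q (cut C G) χ) = gst Δ r q C ξ s := by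
        rw [hξ]
        apply gst_congr
        intro D hDD
        rw [← hs D hDD, sts, cut_cut (hsub D hDD)]
      rw [h1, h2]
      simp)
    (by
      intros
      rfl)
  have hu := tendsto_nhds_unique (al0_tendsto H hC q σ) hp
  rw [hu]
  congr 1
  refine Finset.sum_congr rfl fun ξ _ => Finset.sum_congr rfl fun s _ => ?_
  simp only [Finset.sum_singleton]
  by_cases h1 : gC Δ (core Δ C) (chd Δ C) ξ s <;> by_cases h2 : gst Δ r q C ξ s = σ <;>
    simp [h1, h2]

theorem rec_al {o : V} {R : ℕ} {C : Set V} (hC : Cone Δ o R C) (q : ℕ) (σ : St V) {n : V → ℕ}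
    (hn : ∀ v, v ∉ oB Δ C → n v = 0) (hq : ∀ v, n v ≤ q) (m : ℕ) :
    al Δ r q C σ n m = cst Δ r (core Δ C) C * ∑ ξ ∈ stab (core Δ C) (fun _ => r),
      ∑ s ∈ fst Δ r q (chd Δ C), if gC Δ (core Δ C) (chd Δ C) ξ s ∧ gst Δ r q C ξ s = σ then
        ∑ μ ∈ fpi (chd Δ C) (fun _ => Finset.range (m + 1)) 0,
          if ((core Δ C).filter fun v => gwn Δ r C ξ n s v ≠ 0).card + ∑ D ∈ chd Δ C, μ D = m then
            ∏ D ∈ chd Δ C, al Δ r q D (s D) (rs (fs (oB Δ D)) (gwn Δ r C ξ n s)) (μ D)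
          else 0
        else 0 := by
  obtain ⟨hDec, -, -⟩ := cone_dec H hC
  have hsub : ∀ D ∈ chd Δ C, D ⊆ C := fun D hDD => ((mem_chd H hC).1 hDD).2
  have hcone : ∀ D ∈ chd Δ C, Cone Δ o (R + 1) D := fun D hDD => ((mem_chd H hC).1 hDD).1
  have hp := part H hC q (T := Set V → ℕ) (fpi (chd Δ C) (fun _ => Finset.range (m + 1)) 0)
    (fun S χ => st Δ r q C S χ = σ ∧ sz Δ r S χ n = m)
    (fun ξ s μ => gst Δ r q C ξ s = σ ∧
      ((core Δ C).filter fun v => gwn Δ r C ξ n s v ≠ 0).card + ∑ D ∈ chd Δ C, μ D = m)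
    (fun ξ s μ D S η => sz Δ r S η (rs (fs (oB Δ D)) (gwn Δ r C ξ n s)) = μ D)
    (fun ξ s μ D => al Δ r q D (s D) (rs (fs (oB Δ D)) (gwn Δ r C ξ n s)) (μ D))
    (by
      intro ξ s μ _ D hDD
      refine al_tendsto H (hcone D hDD) q (s D) (fun v hv => ?_) (μ D)
      have : v ∉ fs (oB Δ D) := fun h => hv ((mem_fs (hDec.finO D hDD)).1 h)
      simp [rs, this])
    (by
      intro G hG χ hχ ξ s hξ hs
      have h1 := st_glue H hC q hG hχ
      have hsts : ∀ D ∈ chd Δ C, sts Δ r q (cut C G) χ D = s D := by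
        intro D hDD
        rw [← hs D hDD, sts, cut_cut (hsub D hDD)]
      have h2 : gst Δ r q C (rs (core Δ C) χ) (sts Δ r q (cut C G) χ) = gst Δ r q C ξ s := by
        rw [hξ]
        exact gst_congr hsts
      obtain ⟨-, -, h3⟩ := odo_glue H hC hG hχ hn hq
      rw [gwn_congr hsts, hξ] at h3
      simp only [sz_rs]
      rw [h1, h2]
      constructor
      · rintro ⟨h4, h5⟩
        rw [h5] at h3
        refine ⟨fun D => if D ∈ chd Δ C then
          sz Δ r (cut D G) χ (rs (fs (oB Δ D)) (gwn Δ r C ξ n s)) else 0, ?_, ⟨h4, ?_⟩, ?_⟩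
        · rw [mem_fpi]
          refine ⟨fun D hDD => ?_, fun D hDD => if_neg hDD⟩
          rw [if_pos hDD, Finset.mem_range]
          have := Finset.single_le_sum (f := fun D => sz Δ r (cut D G) χ
            (rs (fs (oB Δ D)) (gwn Δ r C ξ n s))) (fun _ _ => Nat.zero_le _) hDD
          omega
        · rw [Finset.sum_congr rfl (fun D hDD => if_pos hDD)]
          exact h3.symm
        · intro D hDD
          simp only [if_pos hDD]
      · rintro ⟨μ, -, ⟨h4, h5⟩, h6⟩
        refine ⟨h4, ?_⟩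
        rw [h3, Finset.sum_congr rfl h6]
        exact h5)
    (by
      intro G hG χ hχ ξ s μ hμ μ' hμ' h1 h2
      rw [mem_fpi] at hμ hμ'
      funext D
      by_cases hDD : D ∈ chd Δ C
      · rw [← h1 D hDD, ← h2 D hDD]
      · rw [hμ.2 D hDD, hμ'.2 D hDD])
  have hu := tendsto_nhds_unique (al_tendsto H hC q σ hn m) hp
  rw [hu]
  congr 1
  refine Finset.sum_congr rfl fun ξ _ => Finset.sum_congr rfl fun s _ => ?_
  by_cases h1 : gC Δ (core Δ C) (chd Δ C) ξ s <;> by_cases h2 : gst Δ r q C ξ s = σ <;>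
    simp [h1, h2]

end R

end Pool.Agent.Sand.REC3
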