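import Pool.Agent.SandFin.SpDefs

/-! SP-A1: recurrent configurations are counted by a determinant. -/

set_option autoImplicit false
open scoped Classical

namespace Pool.Agent.Sand

variable {V : Type} (Δ : SimpleGraph V) [Δ.LocallyFinite]

theorem nb_mono_A1 (v : V) {W S : Finset V} (h : W ⊆ S) : nb Δ v W ≤ nb Δ v S :=
  Finset.card_le_card (Finset.inter_subset_inter_left h)

theorem mem_rc_A1 {S : Finset V} {d χ : V → ℕ} : χ ∈ rc Δ S d ↔
    ((∀ v ∈ S, 1 ≤ χ v ∧ χ v ≤ d v) ∧ ∀ v, v ∉ S → χ v = 0) ∧
      ∀ W ⊆ S, W.Nonempty → ∃ v ∈ W, nb Δ v W < χ v := by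
  unfold rc
  rw [Finset.mem_filter, mem_stab]

theorem NN_del (S : Finset V) (d : V → ℕ) {v : V} (hv : v ∈ S) (hd : nb Δ v S < d v) :
    NN Δ S d = NN Δ S (Function.update d v (d v - 1)) + NN Δ (S.erase v) d := by
  unfold NN
  have h1 : (rc Δ S d).filter (fun χ => χ v ≤ d v - 1) =
      rc Δ S (Function.update d v (d v - 1)) := by
    ext χ
    rw [Finset.mem_filter, mem_rc_A1, mem_rc_A1]
    constructor
    · rintro ⟨⟨⟨h1, h2⟩, h3⟩, h4⟩
      refine ⟨⟨fun w hw => ⟨(h1 w hw).1, ?_⟩, h2⟩, h3⟩
      by_cases hwv : w = v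
      · subst hwv
        simpa using h4
      · rw [Function.update_of_ne hwv]
        exact (h1 w hw).2
    · rintro ⟨⟨h1, h2⟩, h3⟩
      have h4 := (h1 v hv).2
      rw [Function.update_self] at h4
      refine ⟨⟨⟨fun w hw => ⟨(h1 w hw).1, ?_⟩, h2⟩, h3⟩, h4⟩
      by_cases hwv : w = v
      · subst hwv
        omega
      · have := (h1 w hw).2
        rwa [Function.update_of_ne hwv] at this
  have h2 : ((rc Δ S d).filter (fun χ => ¬ χ v ≤ d v - 1)).card = (rc Δ (S.erase v) d).card := by
    refine Finset.card_bij' (fun χ _ => Function.update χ v 0)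
      (fun χ _ => Function.update χ v (d v)) ?_ ?_ ?_ ?_
    · intro χ hχ
      rw [Finset.mem_filter, mem_rc_A1] at hχ
      obtain ⟨⟨⟨h1, h2⟩, h3⟩, h4⟩ := hχ
      rw [mem_rc_A1]
      refine ⟨⟨fun w hw => ?_, fun w hw => ?_⟩, fun W hW hne => ?_⟩
      · have hwv := Finset.ne_of_mem_erase hw
        rw [Function.update_of_ne hwv]
        exact h1 w (Finset.mem_of_mem_erase hw)
      · by_cases hwv : w = v
        · subst hwv
          simp
        · rw [Function.update_of_ne hwv]
          exact h2 w (fun h => hw (Finset.mem_erase.2 ⟨hwv, h⟩))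
      · obtain ⟨w, hw, hw'⟩ := h3 W (hW.trans (Finset.erase_subset _ _)) hne
        refine ⟨w, hw, ?_⟩
        rwa [Function.update_of_ne (Finset.ne_of_mem_erase (hW hw))]
    · intro χ hχ
      rw [mem_rc_A1] at hχ
      obtain ⟨⟨h1, h2⟩, h3⟩ := hχ
      rw [Finset.mem_filter, mem_rc_A1]
      refine ⟨⟨⟨fun w hw => ?_, fun w hw => ?_⟩, fun W hW hne => ?_⟩, ?_⟩
      · by_cases hwv : w = v
        · subst hwv
          rw [Function.update_self]
          omega
        · rw [Function.update_of_ne hwv]
          exact h1 w (Finset.mem_erase.2 ⟨hwv, hw⟩)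
      · have hwv : w ≠ v := fun h => hw (h ▸ hv)
        rw [Function.update_of_ne hwv]
        exact h2 w (fun h => hw (Finset.mem_of_mem_erase h))
      · by_cases hvW : v ∈ W
        · refine ⟨v, hvW, ?_⟩
          rw [Function.update_self]
          exact lt_of_le_of_lt (nb_mono_A1 Δ v hW) hd
        · obtain ⟨w, hw, hw'⟩ := h3 W
            (fun x hx => Finset.mem_erase.2 ⟨fun h => hvW (h ▸ hx), hW hx⟩) hne
          refine ⟨w, hw, ?_⟩
          have hwv : w ≠ v := by
            rintro rfl
            exact hvW hw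
          rwa [Function.update_of_ne hwv]
      · rw [Function.update_self]
        omega
    · intro χ hχ
      rw [Finset.mem_filter, mem_rc_A1] at hχ
      obtain ⟨⟨⟨h1, h2⟩, h3⟩, h4⟩ := hχ
      have h5 := (h1 v hv).2
      have h6 : χ v = d v := by omega
      funext w
      by_cases hwv : w = v
      · subst hwv
        simp [h6]
      · simp [Function.update_of_ne hwv]
    · intro χ hχ
      rw [mem_rc_A1] at hχ
      obtain ⟨⟨h1, h2⟩, h3⟩ := hχ
      have h6 : χ v = 0 := h2 v (Finset.notMem_erase v S)
      funext w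
      by_cases hwv : w = v
      · subst hwv
        simp [h6]
      · simp [Function.update_of_ne hwv]
  rw [← h1, ← h2, Finset.card_filter_add_card_filter_not]

theorem NN_zero (S : Finset V) (d : V → ℕ) (hS : S.Nonempty) (hd : ∀ v ∈ S, d v ≤ nb Δ v S) :
    NN Δ S d = 0 := by
  unfold NN
  rw [Finset.card_eq_zero, Finset.eq_empty_iff_forall_notMem]
  intro χ hχ
  rw [mem_rc_A1] at hχ
  obtain ⟨v, hv, hv'⟩ := hχ.2 S (Finset.Subset.refl _) hS
  have h1 := (hχ.1.1 v hv).2
  have h2 := hd v hv
  omega

theorem NN_empty_A1 (d : V → ℕ) : NN Δ ∅ d = 1 := by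
  unfold NN
  rw [Finset.card_eq_one]
  refine ⟨0, ?_⟩
  ext χ
  rw [mem_rc_A1, Finset.mem_singleton]
  constructor
  · rintro ⟨⟨-, h⟩, -⟩
    funext v
    exact h v (Finset.notMem_empty v)
  · rintro rfl
    refine ⟨⟨by simp, by simp⟩, fun W hW hne => ?_⟩
    rw [Finset.subset_empty.1 hW] at hne
    exact absurd hne Finset.not_nonempty_empty

/-- expansion of the determinant in one diagonal entry -/
theorem det_del_A1 (S : Finset V) (d : V → ℕ) {v : V} (hv : v ∈ S) (hd : 1 ≤ d v) :
    (lapM Δ S d).det = (lapM Δ S (Function.update d v (d v - 1))).det +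
      (lapM Δ (S.erase v) d).det := by
  set M := lapM Δ S (Function.update d v (d v - 1)) with hM
  set i₀ : S := ⟨v, hv⟩ with hi₀
  have h1 : lapM Δ S d = M.updateRow i₀ (M i₀ + Pi.single i₀ 1) := by
    ext i j
    by_cases hi : i = i₀
    · rw [hi, Matrix.updateRow_self]
      by_cases hj : j = i₀
      · rw [hj, Pi.add_apply, Pi.single_eq_same]
        simp only [hM, lapM, if_true, hi₀, Function.update_self]
        rw [Nat.cast_sub hd]
        push_cast
        ring
      · have hj' : ¬ i₀ = j := fun h => hj h.symm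
        rw [Pi.add_apply, Pi.single_eq_of_ne hj]
        simp only [hM, lapM]
        rw [if_neg hj', if_neg hj', add_zero]
    · rw [Matrix.updateRow_ne hi]
      have hiv : (i : V) ≠ v := fun h => hi (Subtype.ext h)
      simp only [hM, lapM]
      rw [Function.update_of_ne hiv]
  rw [h1, Matrix.det_updateRow_add, Matrix.updateRow_eq_self]
  congr 1
  set A := M.updateRow i₀ (Pi.single i₀ 1) with hA
  rw [Matrix.twoBlockTriangular_det A (fun i => i ≠ i₀)]
  · have hone : (A.toSquareBlockProp fun i => ¬ (i ≠ i₀)).det = 1 := by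
      letI : Unique {i : S // ¬ (i ≠ i₀)} :=
        ⟨⟨⟨i₀, by simp⟩⟩, fun x => Subtype.ext (not_not.1 x.2)⟩
      rw [Matrix.det_unique]
      have : ((default : {i : S // ¬ (i ≠ i₀)}) : S) = i₀ := not_not.1 (default : {i : S // ¬ (i ≠ i₀)}).2
      change A ((default : {i : S // ¬ (i ≠ i₀)}) : S) ((default : {i : S // ¬ (i ≠ i₀)}) : S) = 1
      rw [this, hA, Matrix.updateRow_self, Pi.single_eq_same]
    rw [hone, mul_one]
    let e : {i : S // i ≠ i₀} ≃ (S.erase v : Finset V) :=
      { toFun := fun i => ⟨i.1.1, Finset.mem_erase.2 ⟨fun h => i.2 (Subtype.ext h), i.1.2⟩⟩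
        invFun := fun j => ⟨⟨j.1, Finset.mem_of_mem_erase j.2⟩, fun h =>
          Finset.ne_of_mem_erase j.2 (congrArg Subtype.val h)⟩
        left_inv := fun i => rfl
        right_inv := fun j => rfl }
    rw [← Matrix.det_submatrix_equiv_self e (lapM Δ (S.erase v) d)]
    congr 1
    ext i j
    have hi : i.1 ≠ i₀ := i.2
    have hiv : (i.1 : V) ≠ v := fun h => hi (Subtype.ext h)
    rw [Matrix.submatrix_apply]
    change A (i : S) (j : S) = _
    rw [hA, Matrix.updateRow_ne hi]
    simp only [hM, lapM, e, Equiv.coe_fn_mk, Function.update_of_ne hiv, Subtype.mk.injEq,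
      Subtype.ext_iff]
  · intro i hi j hj
    have : i = i₀ := not_not.1 hi
    rw [this, hA, Matrix.updateRow_self, Pi.single_eq_of_ne hj]

theorem NN_det (S : Finset V) (d : V → ℕ) (hd : ∀ v ∈ S, nb Δ v S ≤ d v) :
    (NN Δ S d : ℝ) = (lapM Δ S d).det := by
  induction hn : ∑ v ∈ S, d v using Nat.strong_induction_on generalizing S d with
  | _ n ih =>
    by_cases hex : ∃ v ∈ S, nb Δ v S < d v
    · obtain ⟨v, hv, hlt⟩ := hex
      have hd1 : 1 ≤ d v := by omega
      rw [NN_del Δ S d hv hlt, det_del_A1 Δ S d hv hd1]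
      push_cast
      have hsum : ∑ w ∈ S, d w = ∑ w ∈ S.erase v, d w + d v := (Finset.sum_erase_add _ _ hv).symm
      have e1 : ∑ w ∈ S, Function.update d v (d v - 1) w = ∑ w ∈ S.erase v, d w + (d v - 1) := by
        rw [← Finset.sum_erase_add _ _ hv, Function.update_self]
        congr 1
        refine Finset.sum_congr rfl fun w hw => ?_
        rw [Function.update_of_ne (Finset.ne_of_mem_erase hw)]
      congr 1
      · refine ih _ ?_ S _ ?_ rfl
        · rw [e1]
          omega
        · intro w hw
          by_cases hwv : w = v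
          · subst hwv
            rw [Function.update_self]
            omega
          · rw [Function.update_of_ne hwv]
            exact hd w hw
      · refine ih _ ?_ (S.erase v) d ?_ rfl
        · omega
        · intro w hw
          exact le_trans (nb_mono_A1 Δ w (Finset.erase_subset _ _))
            (hd w (Finset.mem_of_mem_erase hw))
    · push Not at hex
      rcases S.eq_empty_or_nonempty with rfl | hne
      · rw [NN_empty_A1]
        have : IsEmpty (∅ : Finset V) := by
          constructor
          rintro ⟨x, hx⟩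
          exact absurd hx (Finset.notMem_empty x)
        rw [Matrix.det_isEmpty]
        simp
      · rw [NN_zero Δ S d hne hex]
        symm
        push_cast
        rw [← Matrix.exists_mulVec_eq_zero_iff]
        obtain ⟨v₀, hv₀⟩ := hne
        refine ⟨fun _ => 1, fun h => one_ne_zero (congrFun h ⟨v₀, hv₀⟩), ?_⟩
        funext i
        have hdi : d i = nb Δ i S := le_antisymm (hex i i.2) (hd i i.2)
        simp only [Matrix.mulVec, dotProduct, mul_one, Pi.zero_apply]
        have e2 : ∀ j : S, lapM Δ S d i j =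
            (if i = j then (d i : ℝ) else 0) - (if Δ.Adj i j then 1 else 0) := by
          intro j
          simp only [lapM]
          by_cases hij : i = j
          · subst hij
            simp
          · by_cases ha : Δ.Adj i j <;> simp [hij, ha]
        rw [Finset.sum_congr rfl (fun j _ => e2 j), Finset.sum_sub_distrib,
          Finset.sum_ite_eq Finset.univ i]
        simp only [Finset.mem_univ, if_true]
        have e3 : (∑ j : S, if Δ.Adj (i : V) (j : V) then (1 : ℝ) else 0) = nb Δ i S := by
          rw [Finset.sum_coe_sort S (fun j => if Δ.Adj (i : V) j then (1 : ℝ) else 0),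
            Finset.sum_boole]
          unfold nb
          congr 2
          ext w
          simp [and_comm]
        rw [e3, hdi, sub_self]

end Pool.Agent.Sand
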