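import Pool.Agent.SandFin.SpDefs

/-! SP-B1: odometers. -/

set_option autoImplicit false
open scoped Classical

namespace Pool.Agent.Sand

variable {V : Type} (Δ : SimpleGraph V) [Δ.LocallyFinite]

section B
variable {Δ} {r : ℕ}

theorem spb1_inc_mono {u u' : V → ℕ} (h : u ≤ u') (x : V) : inc Δ x u ≤ inc Δ x u' :=
  Finset.sum_le_sum fun w _ => h w

theorem spb1_inc_add (u u' : V → ℕ) (v : V) : inc Δ v (u + u') = inc Δ v u + inc Δ v u' := by
  simp [inc, Finset.sum_add_distrib]

theorem odo_le {S : Finset V} {χ n u : V → ℕ} (hu : Stz Δ r S χ n u) : odo Δ r S χ n ≤ u :=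
  fun v => Nat.sInf_le ⟨u, hu, rfl⟩

theorem odo_stz {S : Finset V} {χ n u : V → ℕ} (hu : Stz Δ r S χ n u) :
    Stz Δ r S χ n (odo Δ r S χ n) := by
  refine ⟨fun v hv => ?_, fun v hv => ?_⟩
  · have h1 := odo_le hu v
    rw [hu.1 v hv] at h1
    exact Nat.le_zero.1 h1
  · have hne : ({k | ∃ u, Stz Δ r S χ n u ∧ u v = k} : Set ℕ).Nonempty := ⟨u v, u, hu, rfl⟩
    obtain ⟨u', hu', hv'⟩ := Nat.sInf_mem hne
    have h2 : odo Δ r S χ n v = u' v := hv'.symm
    have h3 := spb1_inc_mono (Δ := Δ) (odo_le hu') v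
    have h4 := hu'.2 v hv
    rw [h2]
    omega

variable (hreg : ∀ v, Δ.degree v = r)
include hreg

theorem stz_const {S : Finset V} {χ n : V → ℕ} {q : ℕ} (hχ : ∀ v ∈ S, χ v ≤ r)
    (hn : ∀ v, n v ≤ q) (hn0 : ∀ v ∈ S, n v = 0) : Stz Δ r S χ n (fun v => if v ∈ S then q else 0) := by
  refine ⟨fun v hv => by simp [hv], fun v hv => ?_⟩
  have h1 : inc Δ v (fun v => if v ∈ S then q else 0) + inc Δ v n ≤ r * q := by
    unfold inc
    rw [← Finset.sum_add_distrib]
    calc ∑ w ∈ Δ.neighborFinset v, ((if w ∈ S then q else 0) + n w)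
        ≤ ∑ _w ∈ Δ.neighborFinset v, q := by
          refine Finset.sum_le_sum fun w _ => ?_
          by_cases hw : w ∈ S
          · simp [hw, hn0 w hw]
          · simp [hw, hn w]
      _ = r * q := by
          rw [Finset.sum_const, smul_eq_mul, SimpleGraph.card_neighborFinset_eq_degree, hreg v]
  have h2 := hχ v hv
  simp only [hv, if_true]
  omega

theorem odo_le_const {S : Finset V} {χ n : V → ℕ} {q : ℕ} (hχ : ∀ v ∈ S, χ v ≤ r)
    (hn : ∀ v, n v ≤ q) (hn0 : ∀ v ∈ S, n v = 0) (v : V) : odo Δ r S χ n v ≤ q := by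
  refine (odo_le (stz_const hreg hχ hn hn0) v).trans ?_
  by_cases hv : v ∈ S
  · simp [hv]
  · simp [hv]

theorem odo_mono {S : Finset V} {χ χ' n n' : V → ℕ} (hχ' : ∀ v ∈ S, χ' v ≤ r)
    (hn0 : ∀ v ∈ S, n' v = 0) (h1 : χ ≤ χ') (h2 : n ≤ n') (hfin : ∃ q, ∀ v, n' v ≤ q) :
    odo Δ r S χ n ≤ odo Δ r S χ' n' := by
  obtain ⟨q, hq⟩ := hfin
  have h3 := odo_stz (stz_const hreg hχ' hq hn0)
  refine odo_le ⟨h3.1, fun v hv => ?_⟩
  have h4 := h3.2 v hv
  have h5 : χ v ≤ χ' v := h1 v
  have h6 := spb1_inc_mono (Δ := Δ) h2 v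
  omega

theorem fire_stable {S : Finset V} {χ n : V → ℕ} (hχ : ∀ v ∈ S, χ v ≤ r)
    (hn0 : ∀ v ∈ S, n v = 0) (hfin : ∃ q, ∀ v, n v ≤ q) (v : V) : fire Δ r S χ n v ≤ r := by
  obtain ⟨q, hq⟩ := hfin
  have h3 := odo_stz (stz_const hreg hχ hq hn0)
  unfold fire
  split_ifs with hv
  · have h4 := h3.2 v hv
    omega
  · exact Nat.zero_le _

omit hreg in
/-- The subtraction in `fire` is a true one. -/
theorem spb1_true_sub {S : Finset V} {χ n u : V → ℕ} (hu : Stz Δ r S χ n u) {v : V} (hv : v ∈ S) :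
    r * odo Δ r S χ n v ≤ χ v + inc Δ v (odo Δ r S χ n) + inc Δ v n := by
  by_contra hcon
  push Not at hcon
  have hs := odo_stz hu
  have hpos : odo Δ r S χ n v ≠ 0 := by
    intro h0
    rw [h0, mul_zero] at hcon
    exact absurd hcon (Nat.not_lt_zero _)
  set u1 := odo Δ r S χ n with hu1
  have hle : Function.update u1 v (u1 v - 1) ≤ u1 := by
    intro w
    by_cases hw : w = v
    · subst hw
      simp
    · simp [Function.update_of_ne hw]
  have hst : Stz Δ r S χ n (Function.update u1 v (u1 v - 1)) := by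
    refine ⟨fun w hw => ?_, fun w hw => ?_⟩
    · have : w ≠ v := fun h => hw (h ▸ hv)
      rw [Function.update_of_ne this]
      exact hs.1 w hw
    · have h1 := spb1_inc_mono (Δ := Δ) hle w
      by_cases hwv : w = v
      · subst hwv
        rw [Function.update_self]
        obtain ⟨k, hk⟩ := Nat.exists_eq_succ_of_ne_zero hpos
        rw [hk] at hcon ⊢
        have h2 : r + r * (k.succ - 1) = r * k.succ := by
          rw [Nat.succ_sub_one, Nat.mul_succ]
          ring
        rw [hk] at h1
        rw [h2]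
        omega
      · rw [Function.update_of_ne hwv]
        have h2 := hs.2 w hw
        omega
  have h3 : u1 v ≤ Function.update u1 v (u1 v - 1) v := odo_le hst v
  rw [Function.update_self] at h3
  omega

theorem odo_add {S : Finset V} {χ n n' : V → ℕ} (hχ : ∀ v ∈ S, 1 ≤ χ v ∧ χ v ≤ r)
    (hn0 : ∀ v ∈ S, n v = 0) (hn0' : ∀ v ∈ S, n' v = 0) (hfin : ∃ q, ∀ v, n v ≤ q ∧ n' v ≤ q) :
    odo Δ r S χ (n + n') = odo Δ r S χ n + odo Δ r S (fire Δ r S χ n) n' := by
  obtain ⟨q, hq⟩ := hfin
  have e1 := stz_const hreg (fun v hv => (hχ v hv).2) (fun v => (hq v).1) hn0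
  have e2 := stz_const hreg (S := S) (χ := fire Δ r S χ n) (n := n') (q := q)
    (fun v _ => fire_stable hreg (fun v hv => (hχ v hv).2) hn0 ⟨q, fun v => (hq v).1⟩ v)
    (fun v => (hq v).2) hn0'
  have e3 := stz_const hreg (S := S) (χ := χ) (n := n + n') (q := q + q)
    (fun v hv => (hχ v hv).2) (fun v => Nat.add_le_add (hq v).1 (hq v).2)
    (fun v hv => by simp [hn0 v hv, hn0' v hv])
  have s1 := odo_stz e1
  have s2 := odo_stz e2
  have s3 := odo_stz e3
  have hts : ∀ v ∈ S, r * odo Δ r S χ n v ≤ χ v + inc Δ v (odo Δ r S χ n) + inc Δ v n :=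
    fun v hv => spb1_true_sub e1 hv
  have hf : ∀ v ∈ S, fire Δ r S χ n v =
      χ v + inc Δ v (odo Δ r S χ n) + inc Δ v n - r * odo Δ r S χ n v := by
    intro v hv
    simp [fire, hv]
  apply le_antisymm
  · apply odo_le
    refine ⟨fun v hv => ?_, fun v hv => ?_⟩
    · rw [Pi.add_apply, s1.1 v hv, s2.1 v hv]
    · have h1 := s2.2 v hv
      have h2 := hts v hv
      rw [hf v hv] at h1
      rw [spb1_inc_add, spb1_inc_add, Pi.add_apply, Nat.mul_add]
      omega
  · have hle1 : odo Δ r S χ n ≤ odo Δ r S χ (n + n') := by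
      apply odo_le
      refine ⟨s3.1, fun v hv => ?_⟩
      have h1 := s3.2 v hv
      rw [spb1_inc_add] at h1
      omega
    have hle2 : odo Δ r S (fire Δ r S χ n) n' ≤ odo Δ r S χ (n + n') - odo Δ r S χ n := by
      apply odo_le
      refine ⟨fun v hv => ?_, fun v hv => ?_⟩
      · rw [Pi.sub_apply, s3.1 v hv, Nat.zero_sub]
      · have h1 := s3.2 v hv
        have h2 := hts v hv
        have h3 := hle1 v
        have h4 : inc Δ v (odo Δ r S χ (n + n')) =
            inc Δ v (odo Δ r S χ n) + inc Δ v (odo Δ r S χ (n + n') - odo Δ r S χ n) := by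
          rw [← spb1_inc_add]
          congr 1
          funext w
          have h7 : odo Δ r S χ n w ≤ odo Δ r S χ (n + n') w := hle1 w
          simp only [Pi.add_apply, Pi.sub_apply]
          omega
        rw [spb1_inc_add, h4] at h1
        rw [hf v hv, Pi.sub_apply, Nat.mul_sub]
        have h5 : r * odo Δ r S χ n v ≤ r * odo Δ r S χ (n + n') v := Nat.mul_le_mul_left r h3
        omega
    intro v
    have h1 : odo Δ r S χ n v ≤ odo Δ r S χ (n + n') v := hle1 v
    have h2 : odo Δ r S (fire Δ r S χ n) n' v ≤ odo Δ r S χ (n + n') v - odo Δ r S χ n v := hle2 v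
    simp only [Pi.add_apply]
    omega

theorem fire_add {S : Finset V} {χ n n' : V → ℕ} (hχ : ∀ v ∈ S, 1 ≤ χ v ∧ χ v ≤ r)
    (hn0 : ∀ v ∈ S, n v = 0) (hn0' : ∀ v ∈ S, n' v = 0) (hfin : ∃ q, ∀ v, n v ≤ q ∧ n' v ≤ q) :
    fire Δ r S χ (n + n') = fire Δ r S (fire Δ r S χ n) n' := by
  have hodo := odo_add hreg hχ hn0 hn0' hfin
  obtain ⟨q, hq⟩ := hfin
  have e1 := stz_const hreg (fun v hv => (hχ v hv).2) (fun v => (hq v).1) hn0
  funext v
  by_cases hv : v ∈ S
  · have h2 := spb1_true_sub e1 hv
    have h3 : fire Δ r S χ (n + n') v = χ v + inc Δ v (odo Δ r S χ (n + n')) + inc Δ v (n + n') -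
        r * odo Δ r S χ (n + n') v := by
      simp [fire, hv]
    have h4 : fire Δ r S (fire Δ r S χ n) n' v =
        fire Δ r S χ n v + inc Δ v (odo Δ r S (fire Δ r S χ n) n') + inc Δ v n' -
          r * odo Δ r S (fire Δ r S χ n) n' v := by
      conv_lhs => unfold fire
      rw [if_pos hv]
      rfl
    have h5 : fire Δ r S χ n v =
        χ v + inc Δ v (odo Δ r S χ n) + inc Δ v n - r * odo Δ r S χ n v := by
      simp [fire, hv]
    rw [h3, hodo, h4, spb1_inc_add, spb1_inc_add, Pi.add_apply, Nat.mul_add, h5]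
    omega
  · simp [fire, hv]

omit hreg in
/-- restriction: on a subset the odometer is the odometer of the subset fired by the outside -/
theorem odo_restrict {S T : Finset V} (hT : T ⊆ S) {χ n u : V → ℕ} (hn0 : ∀ w ∈ T, n w = 0)
    (hu : Stz Δ r S χ n u) (v : V) (hv : v ∈ T) : odo Δ r S χ n v =
      odo Δ r T χ (fun w => if w ∈ T then 0 else n w + odo Δ r S χ n w) v := by
  have hs := odo_stz hu
  set U := odo Δ r S χ n with hU
  set nT : V → ℕ := fun w => if w ∈ T then 0 else n w + U w with hnT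
  have hUT : Stz Δ r T χ nT (fun w => if w ∈ T then U w else 0) := by
    refine ⟨fun w hw => by simp [hw], fun w hw => ?_⟩
    have h1 : inc Δ w (fun w => if w ∈ T then U w else 0) + inc Δ w nT = inc Δ w U + inc Δ w n := by
      rw [← spb1_inc_add, ← spb1_inc_add]
      congr 1
      funext x
      simp only [Pi.add_apply, hnT]
      by_cases hx : x ∈ T
      · simp [hx, hn0 x hx]
      · simp only [hx, if_false]
        omega
    have h2 := hs.2 w (hT hw)
    simp only [hw, if_true]
    omega
  have hsT := odo_stz hUT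
  have hleT := odo_le hUT
  apply le_antisymm
  · have hst : Stz Δ r S χ n (fun w => if w ∈ T then odo Δ r T χ nT w else U w) := by
      refine ⟨fun w hw => ?_, fun w hw => ?_⟩
      · have : w ∉ T := fun h => hw (hT h)
        simp only [this, if_false]
        exact hs.1 w hw
      · by_cases hwT : w ∈ T
        · have h1 : inc Δ w (fun w => if w ∈ T then odo Δ r T χ nT w else U w) + inc Δ w n =
              inc Δ w (odo Δ r T χ nT) + inc Δ w nT := by
            rw [← spb1_inc_add, ← spb1_inc_add]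
            congr 1
            funext x
            simp only [Pi.add_apply, hnT]
            by_cases hx : x ∈ T
            · simp [hx, hn0 x hx]
            · have h0 := hsT.1 x hx
              simp only [hx, if_false]
              rw [h0]
              omega
          have h2 := hsT.2 w hwT
          simp only [hwT, if_true]
          omega
        · have hle : (fun w => if w ∈ T then odo Δ r T χ nT w else U w) ≤ U := by
            intro x
            by_cases hx : x ∈ T
            · have := hleT x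
              simp only [hx, if_true] at this ⊢
              exact this
            · simp [hx]
          have h1 := spb1_inc_mono (Δ := Δ) hle w
          have h2 := hs.2 w hw
          simp only [hwT, if_false]
          omega
    have h3 := odo_le hst v
    simp only [hv, if_true] at h3
    exact h3
  · have h3 := hleT v
    simp only [hv, if_true] at h3
    exact h3

end B

end Pool.Agent.Sand
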