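import Pool.Agent.SandFin.SPD

/-! SP-C: waves of an avalanche. -/

set_option autoImplicit false
open scoped Classical

namespace Pool.Agent.Sand.SPC

open Pool.Agent.Sand Pool.Agent.Sand.SPD

variable {V : Type} {Δ : SimpleGraph V} [Δ.LocallyFinite]

theorem inc_zero (v : V) : inc Δ v 0 = 0 := by
  simp [inc]

theorem inc_congr {v : V} {u u' : V → ℕ} (h : ∀ w, Δ.Adj v w → u w = u' w) :
    inc Δ v u = inc Δ v u' := by
  unfold inc
  apply Finset.sum_congr rfl
  intro w hw
  exact h w (by simpa using hw)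

theorem stz_congr {r : ℕ} {S : Finset V} {χ χ' n n' u : V → ℕ} (h : ∀ v ∈ S, χ v = χ' v)
    (hn : n = n') : Stz Δ r S χ n u ↔ Stz Δ r S χ' n' u := by
  subst hn
  unfold Stz
  apply and_congr_right'
  constructor
  · intro h' v hv
    rw [← h v hv]; exact h' v hv
  · intro h' v hv
    rw [h v hv]; exact h' v hv

theorem odo_congr {r : ℕ} {S : Finset V} {χ χ' n n' : V → ℕ} (h : ∀ v ∈ S, χ v = χ' v)
    (hn : n = n') : odo Δ r S χ n = odo Δ r S χ' n' := by
  funext v
  unfold odo
  congr 1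
  ext k
  simp only [Set.mem_ofPred_eq]
  constructor
  · rintro ⟨u, hu, rfl⟩
    exact ⟨u, (stz_congr h hn).1 hu, rfl⟩
  · rintro ⟨u, hu, rfl⟩
    exact ⟨u, (stz_congr h hn).2 hu, rfl⟩

theorem odo_off {r : ℕ} {S : Finset V} {χ n : V → ℕ} {v : V} (hv : v ∉ S) :
    odo Δ r S χ n v = 0 := by
  unfold odo
  by_cases h : ∃ u, Stz Δ r S χ n u
  · obtain ⟨u, hu⟩ := h
    have : (0 : ℕ) ∈ {k | ∃ u, Stz Δ r S χ n u ∧ u v = k} := ⟨u, hu, hu.1 v hv⟩
    exact Nat.le_zero.1 (Nat.sInf_le this)
  · have : {k | ∃ u, Stz Δ r S χ n u ∧ u v = k} = ∅ := by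
      ext k
      simp only [Set.mem_ofPred_eq, Set.mem_empty_iff_false, iff_false]
      rintro ⟨u, hu, -⟩
      exact h ⟨u, hu⟩
    rw [this]
    exact Nat.sInf_empty

theorem ind_apply {U : Finset V} {v : V} : ind U v = if v ∈ U then 1 else 0 := rfl

theorem inc_ind {U : Finset V} {v : V} : inc Δ v (ind U) = nb Δ v U := by
  unfold inc nb
  simp only [ind_apply]
  rw [Finset.sum_ite_mem, Finset.sum_const, smul_eq_mul, mul_one]

section C
variable {r : ℕ} {h : ℝ} {D0 : ℕ} (H : Hyp Δ r h D0)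
include H

theorem avo_stz {G : Finset V} {o : V} (ho : o ∈ G) {χ : V → ℕ} (hχ : χ ∈ rcr Δ r G) :
    Stz Δ r G (χ + ind {o}) 0 (avo Δ r G χ o) := by
  obtain ⟨h1, h2, h3⟩ := mem_rc.1 hχ
  set g : V → ℝ := fun x => ∑ y ∈ G, gr Δ r ↑G x y with hg
  have hg0 : ∀ x, 0 ≤ g x := fun x => Finset.sum_nonneg fun y _ => gr_nonneg H _ x y
  have hgo : ∀ x, x ∉ G → g x = 0 := by
    intro x hx
    apply Finset.sum_eq_zero
    intro y _
    exact gr_zero H _ (Or.inl (by simpa using hx))
  have hgeq : ∀ x ∈ G, (r : ℝ) * g x - ∑ w ∈ Δ.neighborFinset x, g w = 1 := by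
    intro x hx
    simp only [hg]
    rw [Finset.sum_comm, Finset.mul_sum, ← Finset.sum_sub_distrib]
    rw [Finset.sum_congr rfl (fun y hy => gr_eq H (↑G : Set V) (x := x) (y := y)
      (by simpa using hx) (by simpa using hy))]
    rw [Finset.sum_ite_eq]
    simp [hx]
  have hst : Stz Δ r G (χ + ind {o}) 0 (fun x => ⌈((r : ℝ) + 1) * g x⌉₊) := by
    refine ⟨?_, ?_⟩
    · intro v hv
      simp [hgo v hv]
    · intro v hv
      rw [inc_zero, add_zero]
      have e1 : (inc Δ v (fun x => ⌈((r : ℝ) + 1) * g x⌉₊) : ℝ) ≤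
          ((r : ℝ) + 1) * ∑ w ∈ Δ.neighborFinset v, g w + r := by
        unfold inc
        push_cast
        have : ∑ w ∈ Δ.neighborFinset v, ((⌈((r : ℝ) + 1) * g w⌉₊ : ℕ) : ℝ) ≤
            ∑ w ∈ Δ.neighborFinset v, (((r : ℝ) + 1) * g w + 1) := by
          apply Finset.sum_le_sum
          intro w _
          exact (Nat.ceil_lt_add_one (mul_nonneg (by positivity) (hg0 w))).le
        refine this.trans ?_
        rw [Finset.sum_add_distrib, Finset.mul_sum, Finset.sum_const,
          SimpleGraph.card_neighborFinset_eq_degree, H.reg v]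
        simp
      have e2 : ((r : ℝ) + 1) * g v ≤ ((⌈((r : ℝ) + 1) * g v⌉₊ : ℕ) : ℝ) := Nat.le_ceil _
      have e3 := hgeq v hv
      have e4 : ((χ + ind {o}) v : ℝ) ≤ (r : ℝ) + 1 := by
        have a := (h1 v hv).2
        have b : ind ({o} : Finset V) v ≤ 1 := by
          rw [ind_apply]; split_ifs <;> omega
        have : (χ + ind {o}) v ≤ r + 1 := by
          simp only [Pi.add_apply]; omega
        exact_mod_cast this
      have e5 : (((χ + ind {o}) v + inc Δ v (fun x => ⌈((r : ℝ) + 1) * g x⌉₊) : ℕ) : ℝ) ≤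
          ((r + r * ⌈((r : ℝ) + 1) * g v⌉₊ : ℕ) : ℝ) := by
        push_cast
        have e6 : (r : ℝ) * (((r : ℝ) + 1) * g v) ≤ r * ((⌈((r : ℝ) + 1) * g v⌉₊ : ℕ) : ℝ) :=
          mul_le_mul_of_nonneg_left e2 (by positivity)
        have e7 : ∑ w ∈ Δ.neighborFinset v, g w = r * g v - 1 := by linarith
        rw [e7] at e1
        nlinarith
      exact_mod_cast e5
  exact odo_stz hst

theorem avo_zero {G : Finset V} {o : V} (ho : o ∈ G) {χ : V → ℕ} (hχ : χ ∈ rcr Δ r G)
    (h1 : χ o < r) : avo Δ r G χ o = 0 := by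
  obtain ⟨g1, g2, g3⟩ := mem_rc.1 hχ
  have : Stz Δ r G (χ + ind {o}) 0 0 := by
    refine ⟨fun _ _ => rfl, ?_⟩
    intro v hv
    rw [inc_zero]
    simp only [Pi.add_apply, Pi.zero_apply, ind_apply, Finset.mem_singleton]
    by_cases hvo : v = o
    · subst hvo; simp; omega
    · have := (g1 v hv).2
      simp only [hvo, if_false]
      omega
  have h2 := odo_le this
  funext v
  exact Nat.le_zero.1 (h2 v)

theorem rs_erase_rc {G : Finset V} {o : V} {χ : V → ℕ} (hχ : χ ∈ rcr Δ r G) :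
    rs (G.erase o) χ ∈ rcr Δ r (G.erase o) := by
  obtain ⟨g1, g2, g3⟩ := mem_rc.1 hχ
  refine mem_rc.2 ⟨?_, ?_, ?_⟩
  · intro v hv
    simp only [rs, hv, if_true]
    exact g1 v (Finset.mem_of_mem_erase hv)
  · intro v hv
    simp only [rs, hv, if_false]
  · intro W hW hne
    obtain ⟨v, hv, hlt⟩ := g3 W (hW.trans (Finset.erase_subset _ _)) hne
    refine ⟨v, hv, ?_⟩
    simp only [rs, hW hv, if_true]
    exact hlt

/-- away from `o` the avalanche is the response to `avo o` firings of `o` -/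
theorem avo_off {G : Finset V} {o : V} (ho : o ∈ G) {χ : V → ℕ} (hχ : χ ∈ rcr Δ r G) {v : V}
    (hv : v ≠ o) : avo Δ r G χ o v =
      odo Δ r (G.erase o) (rs (G.erase o) χ) (fun w => if w = o then avo Δ r G χ o o else 0) v := by
  have hst := avo_stz H ho hχ
  by_cases hvG : v ∈ G
  · have hvT : v ∈ G.erase o := Finset.mem_erase.2 ⟨hv, hvG⟩
    have := odo_restrict (Finset.erase_subset o G) (n := 0) (fun w _ => rfl) hst v hvT
    unfold avo at hst ⊢
    rw [this]
    refine congrFun (odo_congr ?_ ?_) v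
    · intro w hw
      have hwo : w ≠ o := (Finset.mem_erase.1 hw).1
      simp [rs, hw, ind_apply, hwo]
    · funext w
      by_cases hw : w ∈ G.erase o
      · have hwo : w ≠ o := (Finset.mem_erase.1 hw).1
        simp [hw, hwo]
      · simp only [hw, if_false, Pi.zero_apply, zero_add]
        by_cases hwo : w = o
        · subst hwo; simp
        · simp only [hwo, if_false]
          apply odo_off
          intro hwG
          exact hw (Finset.mem_erase.2 ⟨hwo, hwG⟩)
  · have h1 : avo Δ r G χ o v = 0 := hst.1 v hvG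
    rw [h1, odo_off]
    intro h2
    exact hvG (Finset.mem_of_mem_erase h2)

theorem avo_le {G : Finset V} {o : V} (ho : o ∈ G) {χ : V → ℕ} (hχ : χ ∈ rcr Δ r G) (v : V) :
    avo Δ r G χ o v ≤ avo Δ r G χ o o := by
  by_cases hv : v = o
  · rw [hv]
  · rw [avo_off H ho hχ hv]
    apply odo_le_const H.reg
    · intro w hw
      exact ((mem_rc.1 (rs_erase_rc H hχ)).1 w hw).2
    · intro w
      split_ifs
      · exact le_refl _
      · exact Nat.zero_le _
    · intro w hw
      simp [(Finset.mem_erase.1 hw).1]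

/-- general wave decomposition -/
theorem odo_waves {S : Finset V} {o : V} (ho : o ∉ S) {η : V → ℕ}
    (hη : ∀ v ∈ S, 1 ≤ η v ∧ η v ≤ r) (q : ℕ) (v : V) :
    odo Δ r S η (q • ind {o}) v =
      ∑ i ∈ Finset.range q, ind (KK Δ r S (fire Δ r S η (i • ind {o})) {o}) v := by
  have hn0 : ∀ k : ℕ, ∀ v ∈ S, (k • ind ({o} : Finset V)) v = 0 := by
    intro k v hv
    have : v ≠ o := fun h => ho (h ▸ hv)
    simp [ind_apply, this]
  have hb : ∀ k : ℕ, ∀ v, (k • ind ({o} : Finset V)) v ≤ k := by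
    intro k v
    simp only [Pi.smul_apply, ind_apply, smul_eq_mul]
    split_ifs <;> simp
  induction q with
  | zero =>
    have : Stz Δ r S η ((0 : ℕ) • ind {o}) 0 := by
      refine ⟨fun _ _ => rfl, ?_⟩
      intro w hw
      have := (hη w hw).2
      rw [zero_smul, inc_zero]
      simpa using this
    simpa using Nat.le_zero.1 (odo_le this v)
  | succ q ih =>
    have e : ((q + 1) • ind ({o} : Finset V)) = q • ind {o} + 1 • ind {o} := by
      rw [add_smul]
    rw [Finset.sum_range_succ, ← ih, e]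
    rw [odo_add H.reg hη (hn0 q) (hn0 1) ⟨q + 1, fun w => ⟨(hb q w).trans (by omega),
      (hb 1 w).trans (by omega)⟩⟩]
    rw [one_smul, odo_ind H.reg]
    · rfl
    · intro w hw
      exact fire_stable H.reg (fun x hx => (hη x hx).2) (hn0 q) ⟨q, hb q⟩ w
    · simpa using ho

/-- decomposition of the odometer into waves -/
theorem avo_waves {G : Finset V} {o : V} (ho : o ∈ G) {χ : V → ℕ} (hχ : χ ∈ rcr Δ r G) {v : V}
    (hv : v ≠ o) : avo Δ r G χ o v = ∑ i ∈ Finset.range (avo Δ r G χ o o),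
      ind (KK Δ r (G.erase o) (fire Δ r (G.erase o) (rs (G.erase o) χ) (i • ind {o})) {o}) v := by
  rw [avo_off H ho hχ hv, ← odo_waves H (Finset.notMem_erase o G)
    (mem_rc.1 (rs_erase_rc H hχ)).1]
  refine congrFun (odo_congr (fun _ _ => rfl) ?_) v
  funext w
  simp only [Pi.smul_apply, ind_apply, smul_eq_mul, Finset.mem_singleton]
  split_ifs <;> simp

theorem fire_zero {S : Finset V} {η : V → ℕ} (hη : η ∈ rcr Δ r S) : fire Δ r S η 0 = η := by
  obtain ⟨g1, g2, g3⟩ := mem_rc.1 hη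
  have : Stz Δ r S η 0 0 := by
    refine ⟨fun _ _ => rfl, ?_⟩
    intro w hw
    have := (g1 w hw).2
    rw [inc_zero]
    simpa using this
  have h0 : odo Δ r S η 0 = 0 := by
    funext v
    exact Nat.le_zero.1 (odo_le this v)
  funext v
  unfold fire
  rw [h0, inc_zero]
  by_cases hv : v ∈ S
  · simp [hv]
  · simp [hv, g2 v hv]

theorem fire_succ {S : Finset V} {o : V} (ho : o ∉ S) {η : V → ℕ} (hη : η ∈ rcr Δ r S) (q : ℕ) :
    fire Δ r S η ((q + 1) • ind {o}) = fire Δ r S (fire Δ r S η (q • ind {o})) (ind {o}) := by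
  have hn0 : ∀ k : ℕ, ∀ v ∈ S, (k • ind ({o} : Finset V)) v = 0 := by
    intro k v hv
    have : v ≠ o := fun h => ho (h ▸ hv)
    simp [ind_apply, this]
  have hb : ∀ k : ℕ, ∀ v, (k • ind ({o} : Finset V)) v ≤ k := by
    intro k v
    simp only [Pi.smul_apply, ind_apply, smul_eq_mul]
    split_ifs <;> simp
  have e : ((q + 1) • ind ({o} : Finset V)) = q • ind {o} + 1 • ind {o} := by
    rw [add_smul]
  rw [e, fire_add H.reg (mem_rc.1 hη).1 (hn0 q) (hn0 1) ⟨q + 1, fun w => ⟨(hb q w).trans (by omega),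
      (hb 1 w).trans (by omega)⟩⟩, one_smul]

theorem fire_mem {S : Finset V} {o : V} (ho : o ∉ S) {η : V → ℕ} (hη : η ∈ rcr Δ r S) (q : ℕ) :
    fire Δ r S η (q • ind {o}) ∈ rcr Δ r S := by
  induction q with
  | zero => rw [zero_smul, fire_zero H hη]; exact hη
  | succ q ih =>
    rw [fire_succ H ho hη]
    exact fire_rc H.reg ih (by simpa using ho)

theorem fire_cancel {S : Finset V} {o : V} (ho : o ∉ S) {η η' : V → ℕ} (hη : η ∈ rcr Δ r S)
    (hη' : η' ∈ rcr Δ r S) (i k : ℕ)
    (e : fire Δ r S η (i • ind {o}) = fire Δ r S η' ((i + k) • ind {o})) :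
    η = fire Δ r S η' (k • ind {o}) := by
  induction i with
  | zero => rw [zero_smul, fire_zero H hη, zero_add] at e; exact e
  | succ i ih =>
    apply ih
    rw [show i + 1 + k = (i + k) + 1 by ring, fire_succ H ho hη, fire_succ H ho hη'] at e
    exact fire_injOn H.reg (by simpa using ho) (Finset.mem_coe.2 (fire_mem H ho hη i))
      (Finset.mem_coe.2 (fire_mem H ho hη' (i + k))) e

/-- all waves but the last one contain the neighbours of `o` -/
theorem wave_full {G : Finset V} {o : V} (ho : o ∈ G) {χ : V → ℕ} (hχ : χ ∈ rcr Δ r G)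
    {i : ℕ} (hi : i + 1 < avo Δ r G χ o o) :
    nb Δ o (KK Δ r (G.erase o) (fire Δ r (G.erase o) (rs (G.erase o) χ) (i • ind {o})) {o}) = r := by
  obtain ⟨g1, g2, g3⟩ := mem_rc.1 hχ
  set q := avo Δ r G χ o o with hq
  have hoS : o ∉ G.erase o := Finset.notMem_erase o G
  set K : ℕ → Finset V := fun i =>
    KK Δ r (G.erase o) (fire Δ r (G.erase o) (rs (G.erase o) χ) (i • ind {o})) {o} with hK
  have hrs := rs_erase_rc H (o := o) hχ
  set w : V → ℕ := odo Δ r (G.erase o) (rs (G.erase o) χ) ((q - 1) • ind {o}) with hw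
  have hn0 : ∀ k : ℕ, ∀ v ∈ G.erase o, (k • ind ({o} : Finset V)) v = 0 := by
    intro k v hv
    have : v ≠ o := fun h => hoS (h ▸ hv)
    simp [ind_apply, this]
  have hb : ∀ k : ℕ, ∀ v, (k • ind ({o} : Finset V)) v ≤ k := by
    intro k v
    simp only [Pi.smul_apply, ind_apply, smul_eq_mul]
    split_ifs <;> simp
  have hwst : Stz Δ r (G.erase o) (rs (G.erase o) χ) ((q - 1) • ind {o}) w :=
    odo_stz (stz_const H.reg (fun v hv => ((mem_rc.1 hrs).1 v hv).2) (hb (q - 1)) (hn0 (q - 1)))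
  have hwsum : ∀ v, w v = ∑ i ∈ Finset.range (q - 1), ind (K i) v :=
    fun v => odo_waves H hoS (mem_rc.1 hrs).1 (q - 1) v
  -- the candidate
  set u : V → ℕ := w + (q - 1) • ind {o} with hu
  have hwo : w o = 0 := odo_off hoS
  have hinc : ∀ v, inc Δ v u = inc Δ v w + inc Δ v ((q - 1) • ind {o}) := by
    intro v
    unfold inc
    rw [← Finset.sum_add_distrib]
    rfl
  have hno : inc Δ o ((q - 1) • ind {o}) = 0 := by
    unfold inc
    apply Finset.sum_eq_zero
    intro x hx
    have : x ≠ o := by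
      rintro rfl
      simp at hx
    simp [ind_apply, this]
  have hnot : ¬ Stz Δ r G (χ + ind {o}) 0 u := by
    intro hst
    have h5 := odo_le hst o
    have h6 : u o = q - 1 := by
      simp [hu, hwo, ind_apply]
    rw [h6] at h5
    change q ≤ q - 1 at h5
    omega
  have hfail : r + r * (q - 1) < χ o + 1 + inc Δ o w := by
    by_contra hcon
    push Not at hcon
    apply hnot
    refine ⟨?_, ?_⟩
    · intro v hv
      have h7 : v ≠ o := fun h => hv (h ▸ ho)
      have h8 : w v = 0 := odo_off (fun h => hv (Finset.mem_of_mem_erase h))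
      simp [hu, h8, ind_apply, h7]
    · intro v hv
      rw [hinc, inc_zero, add_zero]
      by_cases hvo : v = o
      · subst hvo
        rw [hno]
        simp only [hu, Pi.add_apply, Pi.smul_apply, ind_apply, Finset.mem_singleton, if_true, hwo,
          smul_eq_mul, mul_one, zero_add, add_zero]
        omega
      · have hvS : v ∈ G.erase o := Finset.mem_erase.2 ⟨hvo, hv⟩
        have := hwst.2 v hvS
        simp only [rs, hvS, if_true] at this
        simp only [hu, Pi.add_apply, Pi.smul_apply, ind_apply, Finset.mem_singleton, hvo, if_false,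
          smul_eq_mul, mul_zero, add_zero]
        omega
  have hincw : inc Δ o w = ∑ i ∈ Finset.range (q - 1), nb Δ o (K i) := by
    unfold inc
    rw [Finset.sum_congr rfl (fun x _ => hwsum x), Finset.sum_comm]
    apply Finset.sum_congr rfl
    intro j _
    rw [← inc_ind]
    rfl
  have hle : ∀ j, nb Δ o (K j) ≤ r := fun j => nb_le H.reg o _
  have hchi := (g1 o ho).2
  have hsum : r * (q - 1) ≤ ∑ i ∈ Finset.range (q - 1), nb Δ o (K i) := by
    rw [← hincw]; omega
  by_contra hne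
  have hlt : nb Δ o (K i) < r := lt_of_le_of_ne (hle i) hne
  have hi' : i ∈ Finset.range (q - 1) := Finset.mem_range.2 (by omega)
  have : ∑ j ∈ Finset.range (q - 1), nb Δ o (K j) < ∑ j ∈ Finset.range (q - 1), r :=
    Finset.sum_lt_sum (fun j _ => hle j) ⟨i, hi', hlt⟩
  rw [Finset.sum_const, Finset.card_range, smul_eq_mul, mul_comm] at this
  omega

theorem avo_pos_eq {G : Finset V} {o : V} (ho : o ∈ G) {χ : V → ℕ} (hχ : χ ∈ rcr Δ r G)
    (hp : 0 < avo Δ r G χ o o) : χ o = r := by
  have h1 := ((mem_rc.1 hχ).1 o ho).2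
  by_contra hne
  have := avo_zero H ho hχ (lt_of_le_of_ne h1 hne)
  rw [this] at hp
  simp at hp

theorem wave_inj {G : Finset V} {o : V} (ho : o ∈ G) {χ χ' : V → ℕ} (hχ : χ ∈ rcr Δ r G)
    (hχ' : χ' ∈ rcr Δ r G) {i j : ℕ} (hi : i < avo Δ r G χ o o) (hj : j < avo Δ r G χ' o o)
    (hij : i ≤ j)
    (e : fire Δ r (G.erase o) (rs (G.erase o) χ) (i • ind {o}) =
      fire Δ r (G.erase o) (rs (G.erase o) χ') (j • ind {o})) : χ = χ' ∧ i = j := by
  have hoS : o ∉ G.erase o := Finset.notMem_erase o G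
  obtain ⟨k, rfl⟩ := Nat.exists_eq_add_of_le hij
  have hrs := rs_erase_rc H (o := o) hχ
  have hrs' := rs_erase_rc H (o := o) hχ'
  have e' := fire_cancel H hoS hrs hrs' i k e
  have hχo : χ o = r := avo_pos_eq H ho hχ (by omega)
  have hχ'o : χ' o = r := avo_pos_eq H ho hχ' (by omega)
  rcases Nat.eq_zero_or_pos k with rfl | hk
  · refine ⟨?_, by simp⟩
    rw [zero_smul, fire_zero H hrs'] at e'
    funext v
    by_cases hvo : v = o
    · rw [hvo, hχo, hχ'o]
    · by_cases hv : v ∈ G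
      · have hvS : v ∈ G.erase o := Finset.mem_erase.2 ⟨hvo, hv⟩
        have := congrFun e' v
        simpa [rs, hvS] using this
      · rw [(mem_rc.1 hχ).2.1 v hv, (mem_rc.1 hχ').2.1 v hv]
  · exfalso
    obtain ⟨m, rfl⟩ : ∃ m, k = m + 1 := ⟨k - 1, by omega⟩
    have hfull := wave_full H ho hχ' (i := m) (by omega)
    set K := KK Δ r (G.erase o) (fire Δ r (G.erase o) (rs (G.erase o) χ') (m • ind {o})) {o} with hK
    have hm := fire_mem H hoS hrs' m
    have hdis : Disjoint (G.erase o) ({o} : Finset V) := by simp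
    have hLL := LL_fire H.reg hm hdis
    rw [← fire_succ H hoS hrs' m, ← e', ← hK] at hLL
    have hKS : K ⊆ G.erase o := Finset.filter_subset _ _
    have hiff := (LL_iff hKS hdis (rs (G.erase o) χ)).1 hLL
    obtain ⟨v, hv, hlt⟩ := (mem_rc.1 hχ).2.2 (K ∪ {o})
      (Finset.union_subset (hKS.trans (Finset.erase_subset _ _)) (by simpa using ho))
      ⟨o, by simp⟩
    rcases Finset.mem_union.1 hv with hv | hv
    · have := hiff.1 v hv
      simp only [rs, hKS hv, if_true] at this
      omega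
    · rw [Finset.mem_singleton] at hv
      subst hv
      have := nb_mono (Δ := Δ) (v := v) (Finset.subset_union_left (s₁ := K) (s₂ := {v}))
      omega

/-- all configurations seen by the waves of all avalanches are distinct -/
theorem wave_sum {G : Finset V} {o : V} (ho : o ∈ G) (f : (V → ℕ) → ℝ) (hf : ∀ η, 0 ≤ f η) :
    ∑ χ ∈ rcr Δ r G, ∑ i ∈ Finset.range (avo Δ r G χ o o),
      f (fire Δ r (G.erase o) (rs (G.erase o) χ) (i • ind {o})) ≤
      ∑ η ∈ rcr Δ r (G.erase o), f η := by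
  have hoS : o ∉ G.erase o := Finset.notMem_erase o G
  rw [Finset.sum_sigma']
  set F : ((_ : V → ℕ) × ℕ) → (V → ℕ) := fun p =>
    fire Δ r (G.erase o) (rs (G.erase o) p.1) (p.2 • ind {o}) with hF
  set P := (rcr Δ r G).sigma fun χ => Finset.range (avo Δ r G χ o o) with hP
  have hinj : Set.InjOn F (P : Set ((_ : V → ℕ) × ℕ)) := by
    rintro ⟨χ, i⟩ hp ⟨χ', j⟩ hp' e
    rw [Finset.mem_coe, hP, Finset.mem_sigma] at hp hp'
    obtain ⟨a, b⟩ := hp
    obtain ⟨a', b'⟩ := hp'
    rw [Finset.mem_range] at b b'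
    dsimp only at a b a' b'
    rcases le_total i j with hij | hij
    · obtain ⟨c, d⟩ := wave_inj H ho a a' b b' hij e
      subst c; subst d; rfl
    · obtain ⟨c, d⟩ := wave_inj H ho a' a b' b hij e.symm
      subst c; subst d; rfl
  have h1 : ∑ p ∈ P, f (F p) = ∑ η ∈ P.image F, f η := by
    rw [Finset.sum_image]
    intro x hx y hy e
    exact hinj hx hy e
  change ∑ p ∈ P, f (F p) ≤ _
  rw [h1]
  apply Finset.sum_le_sum_of_subset_of_nonneg
  · intro η hη
    obtain ⟨p, hp, rfl⟩ := Finset.mem_image.1 hη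
    rw [hP, Finset.mem_sigma] at hp
    exact fire_mem H hoS (rs_erase_rc H hp.1) p.2
  · intro η _ _
    exact hf η

theorem gr_first {G : Finset V} {o : V} (ho : o ∈ G) {x : V} (hx : x ≠ o) :
    gr Δ r ↑G x o = ∑ y ∈ G.erase o, gr Δ r ↑(G.erase o) x y * ((nb Δ y {o} : ℝ) * gr Δ r ↑G o o) := by
  have key := gr_solve H (G.erase o) (fun v => if v = o then 0 else gr Δ r ↑G v o)
    (fun y => (nb Δ y {o} : ℝ) * gr Δ r ↑G o o) ?_ ?_ x
  · simp only [hx, if_false] at key
    exact key
  · intro v hv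
    by_cases hvo : v = o
    · simp [hvo]
    · simp only [hvo, if_false]
      apply gr_zero H
      left
      intro h'
      exact hv (Finset.mem_erase.2 ⟨hvo, by simpa using h'⟩)
  · intro y hy
    have hyo := (Finset.mem_erase.1 hy).1
    have hyG := (Finset.mem_erase.1 hy).2
    have h1 := gr_eq H (↑G : Set V) (x := y) (y := o) (by simpa using hyG) (by simpa using ho)
    simp only [hyo, if_false] at h1 ⊢
    have h2 : ∑ w ∈ Δ.neighborFinset y, gr Δ r ↑G w o =
        ∑ w ∈ Δ.neighborFinset y, (if w = o then 0 else gr Δ r ↑G w o) +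
          (nb Δ y {o} : ℝ) * gr Δ r ↑G o o := by
      have h3 : ∀ w, gr Δ r ↑G w o = (if w = o then 0 else gr Δ r ↑G w o) +
          (if w = o then 1 else 0) * gr Δ r ↑G o o := by
        intro w
        by_cases hw : w = o
        · subst hw; simp
        · simp [hw]
      rw [Finset.sum_congr rfl (fun w _ => h3 w), Finset.sum_add_distrib, ← Finset.sum_mul]
      congr 2
      rw [← inc_ind]
      unfold inc
      push_cast
      apply Finset.sum_congr rfl
      intro w _
      simp [ind_apply]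
    rw [h2] at h1
    linarith

theorem ex_avo {G : Finset V} {o : V} (ho : o ∈ G) (x : V) :
    ex Δ r G (fun χ => (avo Δ r G χ o x : ℝ)) ≤ gr Δ r ↑G x o := by
  have hN := NN_pos H G
  have hN' : (0 : ℝ) < (NNr Δ r G : ℝ) := by exact_mod_cast hN
  have hR := NN_ratio H G ho
  unfold ex
  rw [div_le_iff₀ hN']
  by_cases hx : x = o
  · subst hx
    have h1 := wave_sum H ho (fun _ => (1 : ℝ)) (fun _ => zero_le_one)
    simp only [Finset.sum_const, Finset.card_range, nsmul_eq_mul, mul_one] at h1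
    refine h1.trans ?_
    rw [← hR]
    exact le_refl _
  · have h1 := wave_sum H ho
      (fun η => ((ind (KK Δ r (G.erase o) η {o}) x : ℕ) : ℝ)) (fun _ => Nat.cast_nonneg _)
    have h2 : ∑ χ ∈ rcr Δ r G, (avo Δ r G χ o x : ℝ) =
        ∑ χ ∈ rcr Δ r G, ∑ i ∈ Finset.range (avo Δ r G χ o o),
          ((ind (KK Δ r (G.erase o)
            (fire Δ r (G.erase o) (rs (G.erase o) χ) (i • ind {o})) {o}) x : ℕ) : ℝ) := by
      apply Finset.sum_congr rfl
      intro χ hχ
      rw [avo_waves H ho hχ hx]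
      push_cast
      rfl
    rw [h2]
    refine h1.trans ?_
    have hdis : Disjoint (G.erase o) ({o} : Finset V) := by simp
    have h3 := pr_KK H hdis x
    unfold pr at h3
    have hNe : (0 : ℝ) < (NNr Δ r (G.erase o) : ℝ) := by exact_mod_cast NN_pos H (G.erase o)
    rw [div_eq_iff hNe.ne'] at h3
    have h4 : ∑ η ∈ rcr Δ r (G.erase o), ((ind (KK Δ r (G.erase o) η {o}) x : ℕ) : ℝ) =
        (∑ y ∈ G.erase o, gr Δ r ↑(G.erase o) x y * (nb Δ y {o} : ℝ)) *
          (NNr Δ r (G.erase o) : ℝ) := by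
      rw [← h3, Finset.card_filter]
      push_cast
      apply Finset.sum_congr rfl
      intro η _
      simp [ind_apply]
    rw [h4, hR, gr_first H ho hx]
    apply le_of_eq
    rw [← mul_assoc]
    congr 1
    rw [Finset.sum_mul]
    apply Finset.sum_congr rfl
    intro y _
    ring

end C

end Pool.Agent.Sand.SPC
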