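import Pool.Agent.SandFin.SPB2

/-! SP-D: counting formulas for waves and unburnt sets. -/

set_option autoImplicit false
open scoped Classical

namespace Pool.Agent.Sand.SPD

variable {V : Type} {Δ : SimpleGraph V} [Δ.LocallyFinite]

theorem nb_mono {v : V} {A B : Finset V} (h : A ⊆ B) : nb Δ v A ≤ nb Δ v B :=
  Finset.card_le_card (Finset.inter_subset_inter_left h)

theorem nb_union {v : V} {A B : Finset V} (h : Disjoint A B) :
    nb Δ v (A ∪ B) = nb Δ v A + nb Δ v B := by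
  unfold nb
  rw [Finset.inter_union_distrib_left, Finset.card_union_of_disjoint]
  exact (h.mono Finset.inter_subset_right Finset.inter_subset_right)

theorem nb_union_le {v : V} {A B : Finset V} :
    nb Δ v (A ∪ B) ≤ nb Δ v A + nb Δ v B := by
  unfold nb
  rw [Finset.inter_union_distrib_left]
  exact Finset.card_union_le _ _

theorem nb_le {r : ℕ} (hreg : ∀ v, Δ.degree v = r) (v : V) (A : Finset V) : nb Δ v A ≤ r := by
  rw [← hreg v, ← SimpleGraph.card_neighborFinset_eq_degree]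
  exact Finset.card_le_card Finset.inter_subset_left

/-- gluing of configurations -/
noncomputable def glue (M S : Finset V) (s : V → ℕ) (ζ ξ : V → ℕ) : V → ℕ :=
  fun v => if v ∈ M then ζ v else if v ∈ S then ξ v + s v else 0

theorem card_glue {M S : Finset V} (s : V → ℕ) (F A B : Finset (V → ℕ))
    (hF0 : ∀ χ ∈ F, ∀ v, v ∉ S → χ v = 0) (hA0 : ∀ χ ∈ A, ∀ v, v ∉ M → χ v = 0)
    (hB0 : ∀ χ ∈ B, ∀ v, v ∉ S \ M → χ v = 0)
    (hFs : ∀ χ ∈ F, ∀ v ∈ S \ M, s v ≤ χ v)
    (hFA : ∀ χ ∈ F, rs M χ ∈ A)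
    (hFB : ∀ χ ∈ F, (fun v => if v ∈ S \ M then χ v - s v else 0) ∈ B)
    (hAB : ∀ ζ ∈ A, ∀ ξ ∈ B, glue M S s ζ ξ ∈ F) : F.card = A.card * B.card := by
  rw [← Finset.card_product]
  refine Finset.card_bij' (fun χ _ => (rs M χ, fun v => if v ∈ S \ M then χ v - s v else 0))
    (fun p _ => glue M S s p.1 p.2) ?_ ?_ ?_ ?_
  · intro χ hχ
    exact Finset.mem_product.2 ⟨hFA χ hχ, hFB χ hχ⟩
  · intro p hp
    exact hAB _ (Finset.mem_product.1 hp).1 _ (Finset.mem_product.1 hp).2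
  · intro χ hχ
    funext v
    simp only [glue, rs]
    by_cases h1 : v ∈ M
    · simp [h1]
    · by_cases h2 : v ∈ S
      · have h3 : v ∈ S \ M := Finset.mem_sdiff.2 ⟨h2, h1⟩
        simp only [h1, h2, h3, if_true, if_false]
        have := hFs χ hχ v h3
        omega
      · simp only [h1, h2, if_false]
        exact (hF0 χ hχ v h2).symm
  · rintro ⟨ζ, ξ⟩ hp
    have hζ := (Finset.mem_product.1 hp).1
    have hξ := (Finset.mem_product.1 hp).2
    refine Prod.ext ?_ ?_
    · funext v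
      simp only [rs, glue]
      by_cases h1 : v ∈ M
      · simp [h1]
      · simp only [h1, if_false]
        exact (hA0 ζ hζ v h1).symm
    · funext v
      simp only [glue]
      by_cases h3 : v ∈ S \ M
      · have h1 := (Finset.mem_sdiff.1 h3).1
        have h2 := (Finset.mem_sdiff.1 h3).2
        simp [h1, h2]
      · simp only [h3, if_false]
        exact (hB0 ξ hξ v h3).symm

theorem mem_rc {S : Finset V} {d χ : V → ℕ} : χ ∈ rc Δ S d ↔
    (∀ v ∈ S, 1 ≤ χ v ∧ χ v ≤ d v) ∧ (∀ v, v ∉ S → χ v = 0) ∧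
      ∀ W ⊆ S, W.Nonempty → ∃ v ∈ W, nb Δ v W < χ v := by
  unfold rc
  rw [Finset.mem_filter, mem_stab, and_assoc]

/-- general counting lemma -/
theorem count_gen {r : ℕ} (hreg : ∀ v, Δ.degree v = r) {S M : Finset V} (U : Finset V)
    (hM : M ⊆ S) (P : (V → ℕ) → Prop) :
    ((rcr Δ r S).filter fun χ => P (rs M χ) ∧
      ∀ W ⊆ S \ M, W.Nonempty → ∃ v ∈ W, nb Δ v W + nb Δ v (M ∪ U) < χ v).card =
      ((rcr Δ r M).filter P).card * NN Δ (S \ M) (fun v => r - nb Δ v (M ∪ U)) := by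
  have key : ∀ χ : V → ℕ, (∀ W ⊆ S \ M, W.Nonempty → ∃ v ∈ W, nb Δ v W + nb Δ v (M ∪ U) < χ v) →
      ∀ v ∈ S \ M, nb Δ v (M ∪ U) < χ v := by
    intro χ h v hv
    obtain ⟨w, hw, hlt⟩ := h {v} (by simpa using hv) ⟨v, by simp⟩
    rw [Finset.mem_singleton] at hw
    subst hw
    omega
  refine card_glue (M := M) (S := S) (fun v => nb Δ v (M ∪ U)) _ _ (rc Δ (S \ M) (fun v => r - nb Δ v (M ∪ U)))
    ?_ ?_ ?_ ?_ ?_ ?_ ?_
  · intro χ hχ v hv
    exact (mem_rc.1 (Finset.mem_filter.1 hχ).1).2.1 v hv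
  · intro χ hχ v hv
    exact (mem_rc.1 (Finset.mem_filter.1 hχ).1).2.1 v hv
  · intro χ hχ v hv
    exact (mem_rc.1 hχ).2.1 v hv
  · intro χ hχ v hv
    exact (key χ (Finset.mem_filter.1 hχ).2.2 v hv).le
  · intro χ hχ
    obtain ⟨hχ, hP, -⟩ := Finset.mem_filter.1 hχ
    obtain ⟨h1, h2, h3⟩ := mem_rc.1 hχ
    refine Finset.mem_filter.2 ⟨mem_rc.2 ⟨?_, ?_, ?_⟩, hP⟩
    · intro v hv
      simp only [rs, hv, if_true]
      exact h1 v (hM hv)
    · intro v hv
      simp [rs, hv]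
    · intro W hW hne
      obtain ⟨v, hv, hlt⟩ := h3 W (hW.trans hM) hne
      exact ⟨v, hv, by simpa [rs, hW hv] using hlt⟩
  · intro χ hχ
    obtain ⟨hχ, -, hW⟩ := Finset.mem_filter.1 hχ
    obtain ⟨h1, h2, h3⟩ := mem_rc.1 hχ
    refine mem_rc.2 ⟨?_, ?_, ?_⟩
    · intro v hv
      have := key χ hW v hv
      have h4 := (h1 v (Finset.mem_sdiff.1 hv).1).2
      simp only [hv, if_true]
      omega
    · intro v hv
      simp [hv]
    · intro W hWs hne
      obtain ⟨v, hv, hlt⟩ := hW W hWs hne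
      refine ⟨v, hv, ?_⟩
      simp only [hWs hv, if_true]
      omega
  · intro ζ hζ ξ hξ
    obtain ⟨hζ, hP⟩ := Finset.mem_filter.1 hζ
    obtain ⟨h1, h2, h3⟩ := mem_rc.1 hζ
    obtain ⟨g1, g2, g3⟩ := mem_rc.1 hξ
    have hgM : ∀ v ∈ M, glue M S (fun v => nb Δ v (M ∪ U)) ζ ξ v = ζ v := by
      intro v hv; simp [glue, hv]
    have hgS : ∀ v ∈ S \ M, glue M S (fun v => nb Δ v (M ∪ U)) ζ ξ v =
        ξ v + nb Δ v (M ∪ U) := by
      intro v hv
      have a := (Finset.mem_sdiff.1 hv).1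
      have b := (Finset.mem_sdiff.1 hv).2
      simp [glue, a, b]
    refine Finset.mem_filter.2 ⟨mem_rc.2 ⟨?_, ?_, ?_⟩, ?_, ?_⟩
    · intro v hv
      by_cases hvM : v ∈ M
      · rw [hgM v hvM]; exact h1 v hvM
      · have hv' : v ∈ S \ M := Finset.mem_sdiff.2 ⟨hv, hvM⟩
        rw [hgS v hv']
        have := g1 v hv'
        have h5 := nb_le hreg v (M ∪ U)
        omega
    · intro v hv
      have : v ∉ M := fun h => hv (hM h)
      simp [glue, this, hv]
    · intro W hW hne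
      by_cases hWM : (W \ M).Nonempty
      · obtain ⟨v, hv, hlt⟩ := g3 (W \ M) (Finset.sdiff_subset_sdiff hW (le_refl _)) hWM
        refine ⟨v, (Finset.mem_sdiff.1 hv).1, ?_⟩
        rw [hgS v (Finset.sdiff_subset_sdiff hW (le_refl _) hv)]
        have h6 : nb Δ v W ≤ nb Δ v (W \ M) + nb Δ v (M ∪ U) := by
          refine le_trans (nb_mono ?_) nb_union_le
          intro w hw
          by_cases hwM : w ∈ M
          · exact Finset.mem_union_right _ (Finset.mem_union_left _ hwM)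
          · exact Finset.mem_union_left _ (Finset.mem_sdiff.2 ⟨hw, hwM⟩)
        omega
      · rw [Finset.not_nonempty_iff_eq_empty, Finset.sdiff_eq_empty_iff_subset] at hWM
        obtain ⟨v, hv, hlt⟩ := h3 W hWM hne
        exact ⟨v, hv, by rw [hgM v (hWM hv)]; exact hlt⟩
    · have : rs M (glue M S (fun v => nb Δ v (M ∪ U)) ζ ξ) = ζ := by
        funext v
        by_cases hv : v ∈ M
        · simp [rs, glue, hv]
        · simp [rs, hv, h2 v hv]
      rw [this]; exact hP
    · intro W hW hne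
      obtain ⟨v, hv, hlt⟩ := g3 W hW hne
      refine ⟨v, hv, ?_⟩
      rw [hgS v (hW hv)]
      omega

/-- characterisation of the unburnt set -/
theorem LL_iff {S U L : Finset V} (hL : L ⊆ S) (hU : Disjoint S U) (χ : V → ℕ) :
    LL Δ S χ U = L ↔ (∀ v ∈ L, χ v ≤ nb Δ v (L ∪ U)) ∧
      ∀ W ⊆ S \ L, W.Nonempty → ∃ v ∈ W, nb Δ v W + nb Δ v (L ∪ U) < χ v := by
  constructor
  · intro h
    have h1 : ∀ v ∈ L, χ v ≤ nb Δ v (L ∪ U) := by
      intro v hv
      rw [← h] at hv
      obtain ⟨hvS, W, hWS, hvW, hW⟩ := Finset.mem_filter.1 hv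
      have hWL : W ⊆ L := by
        rw [← h]
        intro w hw
        exact Finset.mem_filter.2 ⟨hWS hw, W, hWS, hw, hW⟩
      exact (hW v hvW).trans (nb_mono (Finset.union_subset_union_left hWL))
    refine ⟨h1, ?_⟩
    intro W hW hne
    by_contra hcon
    push Not at hcon
    obtain ⟨w, hw⟩ := hne
    have : w ∈ LL Δ S χ U := by
      refine Finset.mem_filter.2 ⟨(Finset.mem_sdiff.1 (hW hw)).1, W ∪ L, ?_,
        Finset.mem_union_left _ hw, ?_⟩
      · exact Finset.union_subset (hW.trans Finset.sdiff_subset) hL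
      · intro x hx
        rcases Finset.mem_union.1 hx with hx | hx
        · refine (hcon x hx).trans ?_
          rw [← nb_union]
          · exact nb_mono (by rw [Finset.union_assoc])
          · rw [Finset.disjoint_union_right]
            refine ⟨?_, ?_⟩
            · exact Finset.disjoint_of_subset_left hW Finset.sdiff_disjoint
            · exact Finset.disjoint_of_subset_left (hW.trans Finset.sdiff_subset) hU
        · refine (h1 x hx).trans (nb_mono ?_)
          exact Finset.union_subset_union_left Finset.subset_union_right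
    rw [h] at this
    exact (Finset.mem_sdiff.1 (hW hw)).2 this
  · rintro ⟨h1, h2⟩
    apply Finset.Subset.antisymm
    · intro v hv
      obtain ⟨hvS, W, hWS, hvW, hW⟩ := Finset.mem_filter.1 hv
      by_contra hvL
      obtain ⟨x, hx, hlt⟩ := h2 (W \ L) (Finset.sdiff_subset_sdiff hWS (le_refl _))
        ⟨v, Finset.mem_sdiff.2 ⟨hvW, hvL⟩⟩
      have h3 := hW x (Finset.mem_sdiff.1 hx).1
      have h4 : nb Δ x (W ∪ U) ≤ nb Δ x (W \ L) + nb Δ x (L ∪ U) := by
        refine le_trans (nb_mono ?_) nb_union_le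
        intro w hw
        rcases Finset.mem_union.1 hw with hw | hw
        · by_cases hwM : w ∈ L
          · exact Finset.mem_union_right _ (Finset.mem_union_left _ hwM)
          · exact Finset.mem_union_left _ (Finset.mem_sdiff.2 ⟨hw, hwM⟩)
        · exact Finset.mem_union_right _ (Finset.mem_union_right _ hw)
      omega
    · intro v hv
      exact Finset.mem_filter.2 ⟨hL hv, L, hL, hv, h1⟩

theorem KK_iff {r : ℕ} (hreg : ∀ v, Δ.degree v = r) {Y U Z : Finset V} (hZ : Z ⊆ Y)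
    (hU : Disjoint Y U) {χ : V → ℕ} (hχ : ∀ v ∈ Y, χ v ≤ r) :
    KK Δ r Y χ U = Z ↔ (∀ W ⊆ Z, W.Nonempty → ∃ v ∈ W, r < χ v + nb Δ v (U ∪ (Z \ W))) ∧
      ∀ v ∈ Y \ Z, χ v + nb Δ v (Z ∪ U) ≤ r := by
  constructor
  · rintro h
    refine ⟨?_, ?_⟩
    · intro W hW hne
      rw [← h] at hW
      obtain ⟨v, hv, hlt⟩ := KK_burn hreg hχ hU hW hne
      rw [h] at hlt
      exact ⟨v, hv, hlt⟩
    · intro v hv
      have := KK_closed hreg hχ hU (v := v) (Finset.mem_sdiff.1 hv).1
        (by rw [h]; exact (Finset.mem_sdiff.1 hv).2)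
      rw [h, Finset.union_comm] at this
      exact this
  · rintro ⟨h1, h2⟩
    have hKZ : KK Δ r Y χ U ⊆ Z := by
      refine KK_least hreg hχ hU hZ ?_
      intro v hv hvZ
      have := h2 v (Finset.mem_sdiff.2 ⟨hv, hvZ⟩)
      rwa [Finset.union_comm] at this
    apply Finset.Subset.antisymm hKZ
    by_contra hcon
    rw [← Finset.sdiff_eq_empty_iff_subset, ← Finset.not_nonempty_iff_eq_empty, not_not] at hcon
    obtain ⟨v, hv, hlt⟩ := h1 _ Finset.sdiff_subset hcon
    have h3 := KK_closed hreg hχ hU (v := v) (hZ (Finset.mem_sdiff.1 hv).1)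
      (Finset.mem_sdiff.1 hv).2
    have h4 : nb Δ v (U ∪ (Z \ (Z \ KK Δ r Y χ U))) ≤ nb Δ v (U ∪ KK Δ r Y χ U) := by
      apply nb_mono
      apply Finset.union_subset_union_right
      intro w hw
      rw [Finset.mem_sdiff, Finset.mem_sdiff] at hw
      by_contra hwK
      exact hw.2 ⟨hw.1, hwK⟩
    omega

section D
variable {r : ℕ} (hreg : ∀ v, Δ.degree v = r)
include hreg

theorem count_wave {S U Y Z : Finset V} (hU : Disjoint S U) (hY : Y ⊆ S) (hZ : Z ⊆ Y) :
    ((rcr Δ r S).filter fun χ => KK Δ r Y χ U = Z).card =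
      TT Δ r Z U * NN Δ (S \ Z) (fun v => if v ∈ Y then r - nb Δ v (Z ∪ U) else r) := by
  have hYU : Disjoint Y U := Finset.disjoint_of_subset_left hY hU
  have hZS : Z ⊆ S := hZ.trans hY
  unfold TT NN
  refine card_glue (M := Z) (S := S) (fun _ => 0) _ _ _ ?_ ?_ ?_ ?_ ?_ ?_ ?_
  · intro χ hχ v hv
    exact (mem_rc.1 (Finset.mem_filter.1 hχ).1).2.1 v hv
  · intro χ hχ v hv
    exact (mem_stab.1 (Finset.mem_filter.1 hχ).1).2 v hv
  · intro χ hχ v hv
    exact (mem_rc.1 hχ).2.1 v hv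
  · intro χ hχ v hv
    exact Nat.zero_le _
  · intro χ hχ
    obtain ⟨hχ, hK⟩ := Finset.mem_filter.1 hχ
    obtain ⟨h1, h2, h3⟩ := mem_rc.1 hχ
    rw [KK_iff hreg hZ hYU (fun v hv => (h1 v (hY hv)).2)] at hK
    refine Finset.mem_filter.2 ⟨mem_stab.2 ⟨?_, ?_⟩, ?_⟩
    · intro v hv
      simp only [rs, hv, if_true]
      exact h1 v (hZS hv)
    · intro v hv
      simp [rs, hv]
    · intro W hW hne
      obtain ⟨v, hv, hlt⟩ := hK.1 W hW hne
      refine ⟨v, hv, ?_⟩
      simp only [rs, hW hv, if_true]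
      exact hlt
  · intro χ hχ
    obtain ⟨hχ, hK⟩ := Finset.mem_filter.1 hχ
    obtain ⟨h1, h2, h3⟩ := mem_rc.1 hχ
    rw [KK_iff hreg hZ hYU (fun v hv => (h1 v (hY hv)).2)] at hK
    refine mem_rc.2 ⟨?_, ?_, ?_⟩
    · intro v hv
      have hvS := (Finset.mem_sdiff.1 hv).1
      simp only [hv, if_true, Nat.sub_zero]
      refine ⟨(h1 v hvS).1, ?_⟩
      by_cases hvY : v ∈ Y
      · simp only [hvY, if_true]
        have := hK.2 v (Finset.mem_sdiff.2 ⟨hvY, (Finset.mem_sdiff.1 hv).2⟩)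
        omega
      · simp only [hvY, if_false]
        exact (h1 v hvS).2
    · intro v hv
      simp only [hv, if_false]
    · intro W hW hne
      obtain ⟨v, hv, hlt⟩ := h3 W (hW.trans Finset.sdiff_subset) hne
      refine ⟨v, hv, ?_⟩
      simp only [hW hv, if_true, Nat.sub_zero]
      exact hlt
  · intro ζ hζ ξ hξ
    obtain ⟨hζ, hT⟩ := Finset.mem_filter.1 hζ
    obtain ⟨h1, h2⟩ := mem_stab.1 hζ
    obtain ⟨g1, g2, g3⟩ := mem_rc.1 hξ
    have hgM : ∀ v ∈ Z, glue Z S (fun _ => 0) ζ ξ v = ζ v := by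
      intro v hv; simp [glue, hv]
    have hgS : ∀ v ∈ S \ Z, glue Z S (fun _ => 0) ζ ξ v = ξ v := by
      intro v hv
      have a := (Finset.mem_sdiff.1 hv).1
      have b := (Finset.mem_sdiff.1 hv).2
      simp [glue, a, b]
    have hb : ∀ v ∈ S, 1 ≤ glue Z S (fun _ => 0) ζ ξ v ∧ glue Z S (fun _ => 0) ζ ξ v ≤ r := by
      intro v hv
      by_cases hvZ : v ∈ Z
      · rw [hgM v hvZ]; exact h1 v hvZ
      · have hv' : v ∈ S \ Z := Finset.mem_sdiff.2 ⟨hv, hvZ⟩
        rw [hgS v hv']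
        obtain ⟨a, b⟩ := g1 v hv'
        refine ⟨a, b.trans ?_⟩
        split_ifs
        · exact Nat.sub_le _ _
        · exact le_refl _
    refine Finset.mem_filter.2 ⟨mem_rc.2 ⟨hb, ?_, ?_⟩, ?_⟩
    · intro v hv
      have : v ∉ Z := fun h => hv (hZS h)
      simp [glue, this, hv]
    · intro W hW hne
      by_cases hWZ : (W ∩ Z).Nonempty
      · obtain ⟨v, hv, hlt⟩ := hT (W ∩ Z) Finset.inter_subset_right hWZ
        have hvW := (Finset.mem_inter.1 hv).1
        have hvZ := (Finset.mem_inter.1 hv).2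
        refine ⟨v, hvW, ?_⟩
        rw [hgM v hvZ]
        have h5 : nb Δ v W + nb Δ v (U ∪ (Z \ (W ∩ Z))) ≤ r := by
          rw [← nb_union]
          · exact nb_le hreg v _
          · rw [Finset.disjoint_union_right]
            refine ⟨Finset.disjoint_of_subset_left hW hU, ?_⟩
            rw [Finset.disjoint_left]
            intro w hw hw'
            rw [Finset.mem_sdiff, Finset.mem_inter] at hw'
            exact hw'.2 ⟨hw, hw'.1⟩
        omega
      · rw [Finset.not_nonempty_iff_eq_empty] at hWZ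
        have hWs : W ⊆ S \ Z := by
          intro w hw
          refine Finset.mem_sdiff.2 ⟨hW hw, fun h => ?_⟩
          have : w ∈ W ∩ Z := Finset.mem_inter.2 ⟨hw, h⟩
          rw [hWZ] at this
          simp at this
        obtain ⟨v, hv, hlt⟩ := g3 W hWs hne
        exact ⟨v, hv, by rw [hgS v (hWs hv)]; exact hlt⟩
    · rw [KK_iff hreg hZ hYU (fun v hv => (hb v (hY hv)).2)]
      refine ⟨?_, ?_⟩
      · intro W hW hne
        obtain ⟨v, hv, hlt⟩ := hT W hW hne
        exact ⟨v, hv, by rw [hgM v (hW hv)]; exact hlt⟩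
      · intro v hv
        have hvY := (Finset.mem_sdiff.1 hv).1
        have hv' : v ∈ S \ Z := Finset.mem_sdiff.2 ⟨hY hvY, (Finset.mem_sdiff.1 hv).2⟩
        rw [hgS v hv']
        obtain ⟨a, b⟩ := g1 v hv'
        simp only [hvY, if_true] at b
        omega

theorem count_L {S U L : Finset V} (hU : Disjoint S U) (hL : L ⊆ S) :
    ((rcr Δ r S).filter fun χ => LL Δ S χ U = L).card =
      TL Δ r L U * NN Δ (S \ L) (fun v => r - nb Δ v (L ∪ U)) := by
  have hgen := count_gen hreg U hL (fun ζ => ∀ v ∈ L, ζ v ≤ nb Δ v (L ∪ U))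
  have hT : TL Δ r L U = ((rcr Δ r L).filter (fun ζ => ∀ v ∈ L, ζ v ≤ nb Δ v (L ∪ U))).card := by
    unfold TL
    congr 1
  refine Eq.trans ?_ (hgen.trans (by rw [hT]; congr!))
  congr 1
  ext χ
  simp only [Finset.mem_filter]
  apply and_congr_right
  intro hχ
  rw [LL_iff hL hU]
  apply and_congr_left'
  constructor
  · intro h v hv
    simp only [rs, hv, if_true]
    exact h v hv
  · intro h v hv
    have := h v hv
    simpa only [rs, hv, if_true] using this

/-- joint law of the configuration on `Λ` and of the unburnt set outside `Λ` -/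
theorem count_local {S Λ L : Finset V} (hΛ : Λ ⊆ S) (hL : L ⊆ S \ Λ) (ζ : V → ℕ) :
    ((rcr Δ r S).filter fun χ => rs Λ χ = ζ ∧ LL Δ (S \ Λ) χ Λ = L).card =
      ((rcr Δ r (Λ ∪ L)).filter fun χ => rs Λ χ = ζ ∧ ∀ v ∈ L, χ v ≤ nb Δ v (L ∪ Λ)).card *
        NN Δ (S \ (Λ ∪ L)) (fun v => r - nb Δ v (Λ ∪ L)) := by
  have hM : Λ ∪ L ⊆ S := Finset.union_subset hΛ (hL.trans Finset.sdiff_subset)
  have hgen := count_gen hreg ∅ hM
    (fun χ => rs Λ χ = ζ ∧ ∀ v ∈ L, χ v ≤ nb Δ v (L ∪ Λ))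
  rw [Finset.union_empty] at hgen
  refine Eq.trans ?_ (hgen.trans (by congr!))
  congr 1
  ext χ
  simp only [Finset.mem_filter]
  apply and_congr_right
  intro hχ
  rw [LL_iff hL Finset.sdiff_disjoint]
  have e1 : rs Λ (rs (Λ ∪ L) χ) = rs Λ χ := by
    funext v
    by_cases hv : v ∈ Λ
    · simp [rs, hv]
    · simp [rs, hv]
  have e2 : (S \ Λ) \ L = S \ (Λ ∪ L) := by
    rw [sdiff_sdiff_left]; rfl
  rw [e1, e2, Finset.union_comm L Λ, and_assoc]
  apply and_congr_right'
  apply and_congr_left'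
  constructor
  · intro h v hv
    simp only [rs, Finset.mem_union, hv, or_true, if_true]
    exact h v hv
  · intro h v hv
    have := h v hv
    simpa only [rs, Finset.mem_union, hv, or_true, if_true] using this

end D

end Pool.Agent.Sand.SPD
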