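import Pool.Agent.SandFin.LM2
import Pool.Agent.SandFin.EQ
import Pool.Agent.SandFin.All3

/-! ST1: states of cones. -/

set_option autoImplicit false
open scoped Classical
open Filter Topology

namespace Pool.Agent.Sand.ST1

open Pool.Agent.Sand

variable {V : Type} {Δ : SimpleGraph V} [Δ.LocallyFinite]

theorem nb_mono {v : V} {W W' : Finset V} (h : W ⊆ W') : nb Δ v W ≤ nb Δ v W' :=
  Finset.card_le_card (Finset.inter_subset_inter_left h)

theorem stz_congr {r : ℕ} {S : Finset V} {χ χ' n u : V → ℕ} (h : ∀ v ∈ S, χ v = χ' v) :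
    Stz Δ r S χ n u ↔ Stz Δ r S χ' n u := by
  unfold Stz
  apply and_congr_right'
  constructor
  · intro h' v hv
    rw [← h v hv]; exact h' v hv
  · intro h' v hv
    rw [h v hv]; exact h' v hv

theorem odo_congr {r : ℕ} {S : Finset V} {χ χ' n : V → ℕ} (h : ∀ v ∈ S, χ v = χ' v) :
    odo Δ r S χ n = odo Δ r S χ' n := by
  funext v
  unfold odo
  congr 1
  ext k
  simp only [Set.mem_ofPred_eq, stz_congr h]

theorem mem_LL {S U : Finset V} {χ : V → ℕ} {v : V} :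
    v ∈ LL Δ S χ U ↔ v ∈ S ∧ ∃ W ⊆ S, v ∈ W ∧ ∀ w ∈ W, χ w ≤ nb Δ w (W ∪ U) := by
  unfold LL
  rw [Finset.mem_filter]

theorem LL_congr {S U : Finset V} {χ χ' : V → ℕ} (h : ∀ v ∈ S, χ v = χ' v) :
    LL Δ S χ U = LL Δ S χ' U := by
  ext v
  rw [mem_LL, mem_LL]
  constructor
  · rintro ⟨hv, W, hW, hvW, hc⟩
    exact ⟨hv, W, hW, hvW, fun w hw => by rw [← h w (hW hw)]; exact hc w hw⟩
  · rintro ⟨hv, W, hW, hvW, hc⟩
    exact ⟨hv, W, hW, hvW, fun w hw => by rw [h w (hW hw)]; exact hc w hw⟩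

theorem LL_mono {S U U' : Finset V} {χ : V → ℕ} (h : U ⊆ U') : LL Δ S χ U ⊆ LL Δ S χ U' := by
  intro v
  rw [mem_LL, mem_LL]
  rintro ⟨hv, W, hW, hvW, hc⟩
  exact ⟨hv, W, hW, hvW, fun w hw => (hc w hw).trans (nb_mono (Finset.union_subset_union_right h))⟩

theorem LL_restrict {S T U : Finset V} {χ : V → ℕ} (hT : T ⊆ S) (h : LL Δ S χ U ⊆ T) :
    LL Δ S χ U = LL Δ T χ U := by
  ext v
  constructor
  · intro hv
    have hvT := h hv
    rw [mem_LL] at hv
    obtain ⟨hvS, W, hW, hvW, hc⟩ := hv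
    rw [mem_LL]
    refine ⟨hvT, W, fun w hw => h ?_, hvW, hc⟩
    rw [mem_LL]
    exact ⟨hW hw, W, hW, hw, hc⟩
  · intro hv
    rw [mem_LL] at hv ⊢
    obtain ⟨hvT, W, hW, hvW, hc⟩ := hv
    exact ⟨hT hvT, W, hW.trans hT, hvW, hc⟩

theorem rcr_le {r : ℕ} {S : Finset V} {χ : V → ℕ} (h : χ ∈ rcr Δ r S) : ∀ v ∈ S, χ v ≤ r := by
  intro v hv
  unfold rcr rc at h
  rw [Finset.mem_filter, mem_stab] at h
  exact (h.1.1 v hv).2

theorem cut_sub {D : Set V} {G : Finset V} : (↑(cut D G) : Set V) ⊆ D := by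
  intro v hv
  exact (Finset.mem_filter.1 (Finset.mem_coe.1 hv)).2

theorem cut_mono {D : Set V} {X G : Finset V} (h : X ⊆ G) : cut D X ⊆ cut D G :=
  Finset.filter_subset_filter _ h

section T
variable {r : ℕ} {h : ℝ} {D0 : ℕ} (H : Hyp Δ r h D0)
include H

theorem fin_oB {o : V} {R : ℕ} {D : Set V} (hD : Cone Δ o R D) : (oB Δ D).Finite := by
  obtain ⟨b, -, -, hb⟩ := exists_bound H
  exact (hb o R D hD.comp).2.1

theorem fin_iB {o : V} {R : ℕ} {D : Set V} (hD : Cone Δ o R D) : (iB Δ D).Finite := by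
  obtain ⟨b, -, -, hb⟩ := exists_bound H
  exact (hb o R D hD.comp).1

theorem F_not {o : V} {R : ℕ} {D : Set V} (hD : Cone Δ o R D) {v : V} (hv : v ∈ fs (oB Δ D)) :
    v ∉ D := ((mem_fs (fin_oB H hD)).1 hv).1

theorem F_disj {o : V} {R : ℕ} {D : Set V} (hD : Cone Δ o R D) {S : Finset V}
    (hS : (↑S : Set V) ⊆ D) : Disjoint S (fs (oB Δ D)) := by
  rw [Finset.disjoint_left]
  intro v h1 h2
  exact F_not H hD h2 (hS h1)

theorem odo_off {S : Finset V} {χ n : V → ℕ} {q : ℕ} (hχ : ∀ v ∈ S, χ v ≤ r)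
    (hn : ∀ v, n v ≤ q) (hn0 : ∀ v ∈ S, n v = 0) {v : V} (hv : v ∉ S) : odo Δ r S χ n v = 0 :=
  (odo_stz (stz_const H.reg hχ hn hn0)).1 v hv

/-- locality of odometers -/
theorem odo_loc {S T F : Finset V} (hT : T ⊆ S) (hSF : Disjoint S F) {χ : V → ℕ} {q : ℕ}
    (hχ : ∀ v ∈ S, χ v ≤ r)
    (hg : ∀ v, v ∉ T → odo Δ r S χ (fun w => if w ∈ F then q else 0) v = 0)
    {n : V → ℕ} (hn : ∀ v, v ∉ F → n v = 0) (hq : ∀ v, n v ≤ q) :
    odo Δ r S χ n = odo Δ r T (rs T χ) n := by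
  have hn0 : ∀ v ∈ S, n v = 0 := fun v hv => hn v (Finset.disjoint_left.1 hSF hv)
  have hle : odo Δ r S χ n ≤ odo Δ r S χ (fun w => if w ∈ F then q else 0) := by
    apply odo_mono H.reg hχ _ le_rfl
    · intro v
      by_cases hv : v ∈ F
      · simpa [hv] using hq v
      · simp [hv, hn v hv]
    · exact ⟨q, fun v => by split_ifs <;> simp⟩
    · intro v hv
      simp [Finset.disjoint_left.1 hSF hv]
  have hoff : ∀ v, v ∉ T → odo Δ r S χ n v = 0 := fun v hv =>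
    Nat.le_zero.1 ((hle v).trans (hg v hv).le)
  have hχT : ∀ v ∈ T, rs T χ v ≤ r := fun v hv => by
    simp only [rs, hv, if_true]; exact hχ v (hT hv)
  have hstz := stz_const H.reg hχ hq hn0
  funext v
  by_cases hv : v ∈ T
  · rw [odo_restrict hT (fun w hw => hn0 w (hT hw)) hstz v hv]
    have e1 : (fun w => if w ∈ T then 0 else n w + odo Δ r S χ n w) = n := by
      funext w
      by_cases hw : w ∈ T
      · simp [hw, hn0 w (hT hw)]
      · simp [hw, hoff w hw]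
    rw [e1]
    exact congrFun (odo_congr (fun w hw => by simp [rs, hw])) v
  · rw [hoff v hv, odo_off H hχT hq (fun w hw => hn0 w (hT hw)) hv]

theorem pr_or (S : Finset V) (P Q : (V → ℕ) → Prop) :
    pr Δ r S (fun χ => P χ ∨ Q χ) ≤ pr Δ r S P + pr Δ r S Q := by
  have h1 := pr_union H S (Finset.univ : Finset Bool) (fun b => if b then P else Q)
  rw [Fintype.sum_bool] at h1
  refine le_trans (pr_mono H S ?_) h1
  intro χ _ hχ
  rcases hχ with hχ | hχ
  · exact ⟨true, Finset.mem_univ _, by simpa using hχ⟩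
  · exact ⟨false, Finset.mem_univ _, by simpa using hχ⟩

/-- the good set -/
theorem good {o : V} {R : ℕ} {D : Set V} (hD : Cone Δ o R D) (q : ℕ) {ε : ℝ} (hε : 0 < ε) :
    ∃ X : Finset V, ∀ S : Finset V, (↑S : Set V) ⊆ D → cut D X ⊆ S →
      pr Δ r S (fun χ => ¬ ((∀ n : V → ℕ, (∀ v, v ∉ fs (oB Δ D) → n v = 0) → (∀ v, n v ≤ q) →
          odo Δ r S χ n = odo Δ r (cut D X) (rs (cut D X) χ) n ∧
            ∀ v, v ∉ cut D X → odo Δ r S χ n v = 0) ∧
        ∀ U ⊆ fs (oB Δ D), LL Δ S χ U = LL Δ (cut D X) (rs (cut D X) χ) U)) ≤ ε := by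
  obtain ⟨X1, hX1⟩ := tw_odo H (fs (oB Δ D)) q (half_pos hε)
  obtain ⟨J, hJ⟩ := tw_LL H (fs (oB Δ D)).card (half_pos hε)
  obtain ⟨T, hT⟩ := fb_bounds H
  have hFfb : (↑(fs (oB Δ D)) : Set V) ⊆ fb Δ o R := by
    intro v hv
    have h1 : v ∈ oB Δ D := (mem_fs (fin_oB H hD)).1 (Finset.mem_coe.1 hv)
    have h2 : v ∈ sph Δ o R := oB_sub H hD.comp h1
    refine (hT o R).2.1 ?_
    have h3 : Δ.dist o v = R := h2
    show Δ.dist o v ≤ R
    exact h3.le
  refine ⟨X1 ∪ fs (fb Δ o (R + J)), ?_⟩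
  intro S hSD hXS
  set X := X1 ∪ fs (fb Δ o (R + J)) with hX
  have hSF := F_disj H hD hSD
  have b1 := hX1 S hSF (fun w => if w ∈ fs (oB Δ D) then q else 0)
    (fun v hv => by simp [hv]) (fun v => by split_ifs <;> simp)
  have b2 := hJ o R S (fs (oB Δ D)) hSF hFfb le_rfl
  refine le_trans (pr_mono H S ?_) ((pr_or H S _ _).trans
    ((add_le_add b1 b2).trans (by linarith : ε / 2 + ε / 2 ≤ ε)))
  intro χ hχ hbad
  by_contra hcon
  rw [not_or] at hcon
  obtain ⟨hc1, hc2⟩ := hcon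
  rw [not_not] at hc2
  push Not at hc1
  apply hbad
  have hχr := rcr_le hχ
  have hoffT : ∀ n : V → ℕ, (∀ v, v ∉ fs (oB Δ D) → n v = 0) → (∀ v, n v ≤ q) →
      (∀ v, v ∉ X1 → odo Δ r S χ n v = 0) → ∀ v, v ∉ cut D X → odo Δ r S χ n v = 0 := by
    intro n hn hq hz v hv
    by_cases hvS : v ∈ S
    · apply hz v
      intro hvX
      apply hv
      exact Finset.mem_filter.2 ⟨Finset.mem_union_left _ hvX, hSD hvS⟩
    · exact odo_off H hχr hq (fun w hw => hn w (Finset.disjoint_left.1 hSF hw)) hvS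
  have hg := hoffT (fun w => if w ∈ fs (oB Δ D) then q else 0)
    (fun v hv => by simp [hv]) (fun v => by split_ifs <;> simp) hc1
  refine ⟨fun n hn hq => ?_, fun U hU => ?_⟩
  · have hL := odo_loc H hXS hSF hχr hg hn hq
    refine ⟨hL, fun v hv => ?_⟩
    rw [hL]
    refine odo_off H (fun w hw => ?_) hq (fun w hw => ?_) hv
    · simp only [rs, hw, if_true]; exact hχr w (hXS hw)
    · exact hn w (Finset.disjoint_left.1 hSF (hXS hw))
  · have hsub : LL Δ S χ U ⊆ cut D X := by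
      intro v hv
      have h1 := LL_mono hU hv
      have h2 : v ∈ fb Δ o (R + J) := hc2 (Finset.mem_coe.2 h1)
      have h3 : v ∈ S := (mem_LL.1 h1).1
      exact Finset.mem_filter.2 ⟨Finset.mem_union_right _ ((mem_fs (hT o (R + J)).1).2 h2), hSD h3⟩
    rw [LL_restrict hXS hsub]
    exact LL_congr (fun w hw => by simp [rs, hw])

omit [Δ.LocallyFinite] H in
theorem cap_zero {o : V} {R : ℕ} {D : Set V} (_hD : Cone Δ o R D) (q : ℕ) (n : V → ℕ) {v : V}
    (hv : v ∉ fs (oB Δ D)) : cap Δ q D n v = 0 := by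
  simp [cap, hv]

omit [Δ.LocallyFinite] H in
theorem cap_le {o : V} {R : ℕ} {D : Set V} (_hD : Cone Δ o R D) (q : ℕ) (n : V → ℕ) (v : V) :
    cap Δ q D n v ≤ q := by
  unfold cap
  split_ifs
  · exact min_le_right _ _
  · exact Nat.zero_le _

/-- on the good event the state and the size are local -/
theorem good_st {o : V} {R : ℕ} {D : Set V} (hD : Cone Δ o R D) {q q' : ℕ} (hq : q ≤ q')
    {S X : Finset V} {χ : V → ℕ}
    (hg : (∀ n : V → ℕ, (∀ v, v ∉ fs (oB Δ D) → n v = 0) → (∀ v, n v ≤ q') →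
          odo Δ r S χ n = odo Δ r (cut D X) (rs (cut D X) χ) n ∧
            ∀ v, v ∉ cut D X → odo Δ r S χ n v = 0) ∧
        ∀ U ⊆ fs (oB Δ D), LL Δ S χ U = LL Δ (cut D X) (rs (cut D X) χ) U) :
    st Δ r q D S χ = st Δ r q D (cut D X) (rs (cut D X) χ) := by
  unfold st
  refine Prod.ext ?_ ?_
  · funext U
    simp only
    rw [hg.2 (U ∩ fs (oB Δ D)) Finset.inter_subset_right]
  · funext n
    simp only
    rw [(hg.1 (cap Δ q D n) (fun v hv => cap_zero hD q n hv)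
      (fun v => (cap_le hD q n v).trans hq)).1]

theorem good_sz {D : Set V} {q' : ℕ}
    {S X : Finset V} (hXS : cut D X ⊆ S) {χ : V → ℕ}
    (hg : (∀ n : V → ℕ, (∀ v, v ∉ fs (oB Δ D) → n v = 0) → (∀ v, n v ≤ q') →
          odo Δ r S χ n = odo Δ r (cut D X) (rs (cut D X) χ) n ∧
            ∀ v, v ∉ cut D X → odo Δ r S χ n v = 0) ∧
        ∀ U ⊆ fs (oB Δ D), LL Δ S χ U = LL Δ (cut D X) (rs (cut D X) χ) U)
    {n : V → ℕ} (hn : ∀ v, v ∉ fs (oB Δ D) → n v = 0) (hq : ∀ v, n v ≤ q') :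
    sz Δ r S χ n = sz Δ r (cut D X) (rs (cut D X) χ) n ∧ sz Δ r S χ n ≤ (cut D X).card := by
  obtain ⟨h1, h2⟩ := hg.1 n hn hq
  have h3 : sz Δ r S χ n = sz Δ r (cut D X) (rs (cut D X) χ) n := by
    unfold sz
    congr 1
    ext v
    rw [Finset.mem_filter, Finset.mem_filter, ← h1]
    constructor
    · rintro ⟨hv, hne⟩
      exact ⟨by_contra fun hc => hne (h2 v hc), hne⟩
    · rintro ⟨hv, hne⟩
      exact ⟨hXS hv, hne⟩
  refine ⟨h3, ?_⟩
  rw [h3]
  exact Finset.card_filter_le _ _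

/-! ### ST1 : states -/

theorem stS_finite {o : V} {R : ℕ} {D : Set V} (hD : Cone Δ o R D) (q : ℕ) : (stS Δ r q D).Finite := by
  set F := fs (oB Δ D) with hF
  set I := fs (iB Δ D) with hI
  let Φ : ((↥F.powerset → ↥I.powerset) × ((↥F → Fin (q + 1)) → (↥I → Fin (q + 1)))) → St V :=
    fun p => (fun U => (p.1 ⟨U ∩ F, Finset.mem_powerset.2 Finset.inter_subset_right⟩ : Finset V),
      fun n v => if hv : v ∈ I then
        (p.2 (fun w => ⟨min (n w) q, Nat.lt_succ_of_le (min_le_right _ _)⟩) ⟨v, hv⟩ : ℕ) else 0)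
  refine (Set.finite_range Φ).subset ?_
  rintro σ ⟨S, hSD, χ, hχ, rfl⟩
  have hχr := rcr_le hχ
  have hSF := F_disj H hD hSD
  have hm : ∀ m : ↥F → Fin (q + 1), ∀ v : V,
      odo Δ r S χ (fun w => if hw : w ∈ F then (m ⟨w, hw⟩ : ℕ) else 0) v < q + 1 := by
    intro m v
    apply Nat.lt_succ_of_le
    apply odo_le_const H.reg hχr
    · intro w
      split_ifs
      · exact Nat.le_of_lt_succ (Fin.is_lt _)
      · exact Nat.zero_le _
    · intro w hw
      exact dif_neg (Finset.disjoint_left.1 hSF hw)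
  refine ⟨(fun U => ⟨LL Δ S χ (U : Finset V) ∩ I, Finset.mem_powerset.2 Finset.inter_subset_right⟩,
    fun m v => ⟨_, hm m v⟩), ?_⟩
  refine Prod.ext ?_ ?_
  · funext U
    rfl
  · funext n v
    simp only [Φ, st, rs]
    by_cases hv : v ∈ I
    · rw [dif_pos hv, if_pos hv]
      congr 1
    · rw [dif_neg hv, if_neg hv]

theorem mem_stF {o : V} {R : ℕ} {D : Set V} (hD : Cone Δ o R D) (q : ℕ) (G : Finset V) {χ : V → ℕ}
    (hχ : χ ∈ rcr Δ r (cut D G)) : st Δ r q D (cut D G) χ ∈ stF Δ r q D := by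
  unfold stF
  rw [dif_pos (stS_finite H hD q), Set.Finite.mem_toFinset]
  exact ⟨cut D G, cut_sub, χ, hχ, rfl⟩

theorem al0_tendsto {o : V} {R : ℕ} {D : Set V} (hD : Cone Δ o R D) (q : ℕ) (σ : St V) :
    Tendsto (fun G : Finset V => pr Δ r (cut D G) (fun χ => st Δ r q D (cut D G) χ = σ)) atTop
      (𝓝 (al0 Δ r q D σ)) := by
  obtain ⟨ℓ, hℓ⟩ := lm_local H D (fun S χ => st Δ r q D S χ = σ) (by
    intro ε hε
    obtain ⟨X, hX⟩ := good H hD q hε
    refine ⟨cut D X, fun η => st Δ r q D (cut D X) η = σ, cut_sub, ?_⟩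
    filter_upwards [eventually_ge_atTop X] with G hG
    have hXG : cut D X ⊆ cut D G := cut_mono hG
    refine le_trans (pr_mono H _ ?_) (hX (cut D G) cut_sub hXG)
    intro χ _ hbad hg
    apply hbad
    rw [good_st H hD le_rfl hg])
  have h1 : al0 Δ r q D σ = ℓ := by
    unfold al0
    exact hℓ.limUnder_eq
  rw [h1]
  exact hℓ

theorem bdd {o : V} {R : ℕ} {D : Set V} (hD : Cone Δ o R D) {n : V → ℕ}
    (hn : ∀ v, v ∉ oB Δ D → n v = 0) (q : ℕ) : ∃ q', q ≤ q' ∧ ∀ v, n v ≤ q' := by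
  refine ⟨q + ∑ v ∈ fs (oB Δ D), n v, Nat.le_add_right _ _, fun v => ?_⟩
  by_cases hv : v ∈ fs (oB Δ D)
  · exact (Finset.single_le_sum (fun _ _ => Nat.zero_le _) hv).trans (Nat.le_add_left _ _)
  · rw [hn v (fun hc => hv ((mem_fs (fin_oB H hD)).2 hc))]
    exact Nat.zero_le _

theorem al_tendsto {o : V} {R : ℕ} {D : Set V} (hD : Cone Δ o R D) (q : ℕ) (σ : St V) {n : V → ℕ}
    (hn : ∀ v, v ∉ oB Δ D → n v = 0) (m : ℕ) :
    Tendsto (fun G : Finset V => pr Δ r (cut D G)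
      (fun χ => st Δ r q D (cut D G) χ = σ ∧ sz Δ r (cut D G) χ n = m)) atTop
      (𝓝 (al Δ r q D σ n m)) := by
  obtain ⟨q', hqq, hq'⟩ := bdd H hD hn q
  have hn' : ∀ v, v ∉ fs (oB Δ D) → n v = 0 := fun v hv =>
    hn v (fun hc => hv ((mem_fs (fin_oB H hD)).2 hc))
  obtain ⟨ℓ, hℓ⟩ := lm_local H D (fun S χ => st Δ r q D S χ = σ ∧ sz Δ r S χ n = m) (by
    intro ε hε
    obtain ⟨X, hX⟩ := good H hD q' hε
    refine ⟨cut D X, fun η => st Δ r q D (cut D X) η = σ ∧ sz Δ r (cut D X) η n = m, cut_sub, ?_⟩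
    filter_upwards [eventually_ge_atTop X] with G hG
    have hXG : cut D X ⊆ cut D G := cut_mono hG
    refine le_trans (pr_mono H _ ?_) (hX (cut D G) cut_sub hXG)
    intro χ _ hbad hg
    apply hbad
    rw [good_st H hD hqq hg, (good_sz H hXG hg hn' hq').1])
  have h1 : al Δ r q D σ n m = ℓ := by
    unfold al
    exact hℓ.limUnder_eq
  rw [h1]
  exact hℓ

theorem al0_nonneg {o : V} {R : ℕ} {D : Set V} (hD : Cone Δ o R D) (q : ℕ) (σ : St V) :
    0 ≤ al0 Δ r q D σ :=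
  ge_of_tendsto' (al0_tendsto H hD q σ) (fun _ => pr_nonneg H _ _)

theorem al_nonneg {o : V} {R : ℕ} {D : Set V} (hD : Cone Δ o R D) (q : ℕ) (σ : St V) {n : V → ℕ}
    (hn : ∀ v, v ∉ oB Δ D → n v = 0) (m : ℕ) : 0 ≤ al Δ r q D σ n m :=
  ge_of_tendsto' (al_tendsto H hD q σ hn m) (fun _ => pr_nonneg H _ _)

theorem pr_true (S : Finset V) {P : (V → ℕ) → Prop} (hP : ∀ χ ∈ rcr Δ r S, P χ) :
    pr Δ r S P = 1 := by
  unfold pr
  rw [Finset.filter_true_of_mem hP]
  have := NN_pos H S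
  unfold NNr NN at this ⊢
  exact div_self (by exact_mod_cast this.ne')

theorem pr_false (S : Finset V) {P : (V → ℕ) → Prop} (hP : ∀ χ ∈ rcr Δ r S, ¬ P χ) :
    pr Δ r S P = 0 := by
  unfold pr
  rw [Finset.filter_false_of_mem hP]
  simp

theorem pr_congr (S : Finset V) {P Q : (V → ℕ) → Prop} (hP : ∀ χ ∈ rcr Δ r S, P χ ↔ Q χ) :
    pr Δ r S P = pr Δ r S Q :=
  le_antisymm (pr_mono H S fun χ hχ => (hP χ hχ).1) (pr_mono H S fun χ hχ => (hP χ hχ).2)

/-- additivity over the values of a function -/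
theorem pr_sum (S : Finset V) {β : Type} (f : (V → ℕ) → β) (B : Finset β) (P : (V → ℕ) → Prop) :
    ∑ b ∈ B, pr Δ r S (fun χ => P χ ∧ f χ = b) = pr Δ r S (fun χ => P χ ∧ f χ ∈ B) := by
  unfold pr
  rw [← Finset.sum_div]
  congr 1
  have h1 : ((rcr Δ r S).filter fun χ => P χ ∧ f χ ∈ B).card =
      ∑ b ∈ B, ((rcr Δ r S).filter fun χ => P χ ∧ f χ = b).card := by
    rw [Finset.card_eq_sum_card_fiberwise (f := f) (t := B)]
    · apply Finset.sum_congr rfl
      intro b hb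
      congr 1
      ext χ
      simp only [Finset.mem_filter]
      constructor
      · rintro ⟨⟨h1, h2, -⟩, h4⟩
        exact ⟨h1, h2, h4⟩
      · rintro ⟨h1, h2, h3⟩
        exact ⟨⟨h1, h2, h3 ▸ hb⟩, h3⟩
    · intro χ hχ
      exact (Finset.mem_filter.1 (Finset.mem_coe.1 hχ)).2.2
  have h2 : (((rcr Δ r S).filter fun χ => P χ ∧ f χ ∈ B).card : ℝ) =
      ∑ b ∈ B, (((rcr Δ r S).filter fun χ => P χ ∧ f χ = b).card : ℝ) := by
    rw [h1]; push_cast; rfl
  convert h2.symm using 3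
  · congr 1
    ext χ
    simp only [Finset.mem_filter]
  · ext χ
    simp only [Finset.mem_filter]

theorem al0_sum {o : V} {R : ℕ} {D : Set V} (hD : Cone Δ o R D) (q : ℕ) :
    ∑ σ ∈ stF Δ r q D, al0 Δ r q D σ = 1 := by
  have h1 : Tendsto (fun G : Finset V => ∑ σ ∈ stF Δ r q D,
      pr Δ r (cut D G) (fun χ => st Δ r q D (cut D G) χ = σ)) atTop
      (𝓝 (∑ σ ∈ stF Δ r q D, al0 Δ r q D σ)) :=
    tendsto_finsetSum _ (fun σ _ => al0_tendsto H hD q σ)
  have h2 : ∀ G : Finset V, ∑ σ ∈ stF Δ r q D,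
      pr Δ r (cut D G) (fun χ => st Δ r q D (cut D G) χ = σ) = 1 := by
    intro G
    have h3 := pr_sum H (cut D G) (fun χ => st Δ r q D (cut D G) χ) (stF Δ r q D) (fun _ => True)
    rw [pr_true H (cut D G) (P := fun χ => True ∧ st Δ r q D (cut D G) χ ∈ stF Δ r q D)
      (fun χ hχ => ⟨trivial, mem_stF H hD q G hχ⟩)] at h3
    rw [← h3]
    apply Finset.sum_congr rfl
    intro σ _
    exact pr_congr H _ (fun χ _ => by simp)
  simp only [h2] at h1
  exact tendsto_nhds_unique h1 tendsto_const_nhds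

theorem al0_zero {o : V} {R : ℕ} {D : Set V} (hD : Cone Δ o R D) (q : ℕ) {σ : St V}
    (hσ : σ ∉ stF Δ r q D) : al0 Δ r q D σ = 0 := by
  have h1 := al0_tendsto H hD q σ
  have h2 : ∀ G : Finset V, pr Δ r (cut D G) (fun χ => st Δ r q D (cut D G) χ = σ) = 0 := by
    intro G
    apply pr_false H
    intro χ hχ hc
    exact hσ (hc ▸ mem_stF H hD q G hχ)
  simp only [h2] at h1
  exact tendsto_nhds_unique h1 tendsto_const_nhds

theorem al_sum {o : V} {R : ℕ} {D : Set V} (hD : Cone Δ o R D) (q : ℕ) (σ : St V) {n : V → ℕ}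
    (hn : ∀ v, v ∉ oB Δ D → n v = 0) : HasSum (al Δ r q D σ n) (al0 Δ r q D σ) := by
  obtain ⟨q', hqq, hq'⟩ := bdd H hD hn q
  have hn' : ∀ v, v ∉ fs (oB Δ D) → n v = 0 := fun v hv =>
    hn v (fun hc => hv ((mem_fs (fin_oB H hD)).2 hc))
  rw [hasSum_iff_tendsto_nat_of_nonneg (fun m => al_nonneg H hD q σ hn m)]
  have hlim : ∀ M : ℕ, Tendsto (fun G : Finset V => pr Δ r (cut D G)
      (fun χ => st Δ r q D (cut D G) χ = σ ∧ sz Δ r (cut D G) χ n ∈ Finset.range M)) atTop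
      (𝓝 (∑ m ∈ Finset.range M, al Δ r q D σ n m)) := by
    intro M
    have h1 : Tendsto (fun G : Finset V => ∑ m ∈ Finset.range M, pr Δ r (cut D G)
      (fun χ => st Δ r q D (cut D G) χ = σ ∧ sz Δ r (cut D G) χ n = m)) atTop
      (𝓝 (∑ m ∈ Finset.range M, al Δ r q D σ n m)) :=
      tendsto_finsetSum _ (fun m _ => al_tendsto H hD q σ hn m)
    refine h1.congr (fun G => ?_)
    exact pr_sum H (cut D G) (fun χ => sz Δ r (cut D G) χ n) (Finset.range M)
      (fun χ => st Δ r q D (cut D G) χ = σ)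
  rw [Metric.tendsto_atTop]
  intro ε hε
  obtain ⟨X, hX⟩ := good H hD q' (half_pos hε)
  refine ⟨(cut D X).card + 1, fun M hM => ?_⟩
  have hup : ∑ m ∈ Finset.range M, al Δ r q D σ n m ≤ al0 Δ r q D σ :=
    le_of_tendsto_of_tendsto' (hlim M) (al0_tendsto H hD q σ)
      (fun G => pr_mono H _ (fun χ _ hc => hc.1))
  have hlo : al0 Δ r q D σ ≤ ∑ m ∈ Finset.range M, al Δ r q D σ n m + ε / 2 := by
    refine le_of_tendsto_of_tendsto (al0_tendsto H hD q σ) ((hlim M).add_const (ε / 2)) ?_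
    filter_upwards [eventually_ge_atTop X] with G hG
    have hXG : cut D X ⊆ cut D G := cut_mono hG
    refine le_trans (pr_mono H _ ?_) ((pr_or H (cut D G) _ _).trans
      (add_le_add le_rfl (hX (cut D G) cut_sub hXG)))
    intro χ _ hχσ
    by_contra hcon
    rw [not_or, not_not] at hcon
    obtain ⟨h1, hg⟩ := hcon
    apply h1
    refine ⟨hχσ, ?_⟩
    rw [Finset.mem_range]
    exact lt_of_le_of_lt (good_sz H hXG hg hn' hq').2 (by omega)
  rw [Real.dist_eq, abs_lt]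
  constructor <;> linarith

/-- if nothing adjacent topples, nothing topples -/
theorem al_dead {o : V} {R : ℕ} {D : Set V} (hD : Cone Δ o R D) (q : ℕ) (σ : St V) {n : V → ℕ}
    (hn : ∀ v, v ∉ oB Δ D → n v = 0) (hq : ∀ v, n v ≤ q) (h0 : σ.2 n = 0) (m : ℕ) :
    al Δ r q D σ n m = if m = 0 then al0 Δ r q D σ else 0 := by
  have hcap : cap Δ q D n = n := by
    funext v
    unfold cap
    by_cases hv : v ∈ fs (oB Δ D)
    · rw [if_pos hv, min_eq_left (hq v)]
    · rw [if_neg hv, hn v (fun hc => hv ((mem_fs (fin_oB H hD)).2 hc))]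
  have key : ∀ G : Finset V, ∀ χ ∈ rcr Δ r (cut D G), st Δ r q D (cut D G) χ = σ →
      sz Δ r (cut D G) χ n = 0 := by
    intro G χ hχ hσ
    have hχr := rcr_le hχ
    have hSF := F_disj H hD (cut_sub (D := D) (G := G))
    have hn0 : ∀ v ∈ cut D G, n v = 0 := fun v hv => hn v (fun hc =>
      hc.1 (cut_sub hv))
    have hst := odo_stz (stz_const H.reg hχr hq hn0)
    have hI : ∀ v ∈ fs (iB Δ D), odo Δ r (cut D G) χ n v = 0 := by
      intro v hv
      have h1 : σ.2 n v = 0 := by rw [h0]; rfl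
      rw [← hσ] at h1
      simpa [st, rs, hv, hcap] using h1
    have hz : Stz Δ r (cut D G) χ n (fun _ => 0) := by
      refine ⟨fun _ _ => rfl, fun v hv => ?_⟩
      have e0 : inc Δ v (fun _ => 0) = 0 := by simp [inc]
      rw [e0]
      by_cases hvI : v ∈ fs (iB Δ D)
      · have h1 := hst.2 v hv
        rw [hI v hvI] at h1
        simp only [mul_zero, add_zero] at h1 ⊢
        omega
      · have e1 : inc Δ v n = 0 := by
          unfold inc
          apply Finset.sum_eq_zero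
          intro w hw
          apply hn w
          intro hwB
          apply hvI
          rw [mem_fs (fin_iB H hD)]
          refine ⟨cut_sub hv, w, hwB.1, ?_⟩
          simpa using hw
        rw [e1]
        have := hχr v hv
        simp only [mul_zero, add_zero]
        exact this
    have h2 := odo_le hz
    unfold sz
    rw [Finset.card_eq_zero, Finset.filter_eq_empty_iff]
    intro v _
    rw [not_not]
    exact Nat.le_zero.1 (h2 v)
  have hT := al_tendsto H hD q σ hn m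
  by_cases hm : m = 0
  · rw [if_pos hm]
    refine tendsto_nhds_unique hT ((al0_tendsto H hD q σ).congr (fun G => ?_))
    apply pr_congr H
    intro χ hχ
    constructor
    · intro hc
      exact ⟨hc, by rw [key G χ hχ hc, hm]⟩
    · exact fun hc => hc.1
  · rw [if_neg hm]
    have h2 : ∀ G : Finset V, pr Δ r (cut D G)
        (fun χ => st Δ r q D (cut D G) χ = σ ∧ sz Δ r (cut D G) χ n = m) = 0 := by
      intro G
      apply pr_false H
      rintro χ hχ ⟨hc1, hc2⟩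
      exact hm (hc2 ▸ key G χ hχ hc1)
    simp only [h2] at hT
    exact tendsto_nhds_unique hT tendsto_const_nhds

end T

end Pool.Agent.Sand.ST1
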