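import Pool.Agent.SandFin.Basic

/-! Finite sandpiles on finite subsets `S` of the vertex set: definitions. -/

set_option autoImplicit false
open scoped Classical

namespace Pool.Agent.Sand

variable {V : Type} (Δ : SimpleGraph V) [Δ.LocallyFinite]

/-- configurations on `S` with heights `1 ≤ χ v ≤ d v` (zero outside `S`) -/
noncomputable def stab (S : Finset V) (d : V → ℕ) : Finset (V → ℕ) :=
  (S.pi fun v => Finset.Icc 1 (d v)).image (fun f v => if h : v ∈ S then f v h else 0)

theorem mem_stab {S : Finset V} {d χ : V → ℕ} :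
    χ ∈ stab S d ↔ (∀ v ∈ S, 1 ≤ χ v ∧ χ v ≤ d v) ∧ ∀ v, v ∉ S → χ v = 0 := by
  unfold stab
  simp only [Finset.mem_image, Finset.mem_pi, Finset.mem_Icc]
  constructor
  · rintro ⟨f, hf, rfl⟩
    refine ⟨fun v hv => ?_, fun v hv => ?_⟩
    · simpa [hv] using hf v hv
    · simp [hv]
  · rintro ⟨h1, h2⟩
    refine ⟨fun v _ => χ v, fun v hv => h1 v hv, ?_⟩
    funext v
    by_cases hv : v ∈ S
    · simp [hv]
    · simp [hv, h2 v hv]

/-- recurrent configurations on `S` with degree function `d` -/
noncomputable def rc (S : Finset V) (d : V → ℕ) : Finset (V → ℕ) :=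
  (stab S d).filter fun χ => ∀ W ⊆ S, W.Nonempty → ∃ v ∈ W, nb Δ v W < χ v

/-- number of recurrent configurations -/
noncomputable def NN (S : Finset V) (d : V → ℕ) : ℕ := (rc Δ S d).card

/-- `rc` with constant degree function `r` -/
noncomputable abbrev rcr (r : ℕ) (S : Finset V) : Finset (V → ℕ) := rc Δ S (fun _ => r)

/-- `NN` with constant degree function `r` -/
noncomputable abbrev NNr (r : ℕ) (S : Finset V) : ℕ := NN Δ S (fun _ => r)

/-- probability of an event under the uniform measure on recurrent configurations -/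
noncomputable def pr (r : ℕ) (S : Finset V) (P : (V → ℕ) → Prop) : ℝ :=
  (((rcr Δ r S).filter P).card : ℝ) / (NNr Δ r S : ℝ)

/-- expectation under the uniform measure on recurrent configurations -/
noncomputable def ex (r : ℕ) (S : Finset V) (f : (V → ℕ) → ℝ) : ℝ :=
  (∑ χ ∈ rcr Δ r S, f χ) / (NNr Δ r S : ℝ)

/-- inflow into `v` when every `w` topples `u w` times -/
noncomputable def inc (v : V) (u : V → ℕ) : ℕ := ∑ w ∈ Δ.neighborFinset v, u w

/-- `u` stabilises `χ` on `S` when the outside vertices topple `n` times -/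
def Stz (r : ℕ) (S : Finset V) (χ n u : V → ℕ) : Prop :=
  (∀ v, v ∉ S → u v = 0) ∧ ∀ v ∈ S, χ v + inc Δ v u + inc Δ v n ≤ r + r * u v

/-- the odometer: least stabilising function -/
noncomputable def odo (r : ℕ) (S : Finset V) (χ n : V → ℕ) : V → ℕ :=
  fun v => sInf {k | ∃ u, Stz Δ r S χ n u ∧ u v = k}

/-- indicator function -/
noncomputable def ind (U : Finset V) : V → ℕ := fun v => if v ∈ U then 1 else 0

/-- restriction of a configuration -/
noncomputable def rs (S : Finset V) (χ : V → ℕ) : V → ℕ := fun v => if v ∈ S then χ v else 0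

/-- the configuration on `S` after the outside has toppled `n` times -/
noncomputable def fire (r : ℕ) (S : Finset V) (χ n : V → ℕ) : V → ℕ :=
  fun v => if v ∈ S then χ v + inc Δ v (odo Δ r S χ n) + inc Δ v n - r * odo Δ r S χ n v else 0

/-- the wave: vertices of `S` that topple when every vertex of `U` topples once -/
noncomputable def KK (r : ℕ) (S : Finset V) (χ : V → ℕ) (U : Finset V) : Finset V :=
  S.filter fun v => odo Δ r S χ (ind U) v ≠ 0

/-- the unburnt set: largest `W ⊆ S` with `χ w ≤ #neighbours in W ∪ U` on `W` -/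
noncomputable def LL (S : Finset V) (χ : V → ℕ) (U : Finset V) : Finset V :=
  S.filter fun v => ∃ W ⊆ S, v ∈ W ∧ ∀ w ∈ W, χ w ≤ nb Δ w (W ∪ U)

/-- odometer of the avalanche started by adding a grain at `o` -/
noncomputable def avo (r : ℕ) (G : Finset V) (χ : V → ℕ) (o : V) : V → ℕ :=
  odo Δ r G (χ + ind {o}) 0

/-- Laplacian matrix of `S` with degree function `d` -/
noncomputable def lapM (S : Finset V) (d : V → ℕ) : Matrix S S ℝ :=
  fun x y => if x = y then (d x : ℝ) else if Δ.Adj x y then -1 else 0

/-- number of configurations on `Z` which topple completely, starting from `U` -/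
noncomputable def TT (Δ : SimpleGraph V) [Δ.LocallyFinite] (r : ℕ) (Z U : Finset V) : ℕ :=
  ((stab Z (fun _ => r)).filter fun ζ =>
    ∀ W ⊆ Z, W.Nonempty → ∃ v ∈ W, r < ζ v + nb Δ v (U ∪ (Z \ W))).card

/-- number of recurrent configurations on `L` which stay unburnt as long as `U` is -/
noncomputable def TL (Δ : SimpleGraph V) [Δ.LocallyFinite] (r : ℕ) (L U : Finset V) : ℕ :=
  ((rcr Δ r L).filter fun ζ => ∀ v ∈ L, ζ v ≤ nb Δ v (L ∪ U)).card

end Pool.Agent.Sand
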