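import Pool.Agent.SandFin.All5
import Pool.Agent.SandFin.UpDefs

/-! Task UA: growth inequality and tail of the number of waves (helper52). -/

set_option autoImplicit false
set_option linter.unusedSectionVars false
open scoped Classical

namespace Pool.Agent.Sand.UA

open Pool.Agent.Sand

variable {V : Type} {Δ : SimpleGraph V} [Δ.LocallyFinite]

section U
variable {r : ℕ} {h : ℝ} {D0 : ℕ} (H : Hyp Δ r h D0)
include H

theorem avo_growth {G : Finset V} {o : V} (ho : o ∈ G) {χ : V → ℕ} (hχ : χ ∈ rcr Δ r G) (x : V) :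
    r * avo Δ r G χ o x ≤ inc Δ x (avo Δ r G χ o) + r := by
  by_contra hcon
  push Not at hcon
  have hst := avo_stz H ho hχ
  set u := avo Δ r G χ o with hu
  have hux : u x ≠ 0 := by
    intro h0
    rw [h0] at hcon
    simp at hcon
  have hxG : x ∈ G := by
    by_contra hx
    exact hux (hst.1 x hx)
  have hχx : χ x ≤ r := by
    have h1 := (Finset.mem_filter.mp hχ).1
    exact ((mem_stab.mp h1).1 x hxG).2
  -- the lowered function
  set u' : V → ℕ := Function.update u x (u x - 1) with hu'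
  have hle : u' ≤ u := by
    intro v
    by_cases hv : v = x
    · subst hv
      rw [hu', Function.update_self]
      exact Nat.sub_le _ _
    · rw [hu', Function.update_of_ne hv]
  have hinc : ∀ v, inc Δ v u' ≤ inc Δ v u := fun v => Finset.sum_le_sum fun w _ => hle w
  have hs : Stz Δ r G (χ + ind {o}) 0 u' := by
    refine ⟨fun v hv => ?_, fun v hv => ?_⟩
    · have h1 := hst.1 v hv
      have h2 : u' v ≤ u v := hle v
      omega
    · have h2 := hst.2 v hv
      by_cases hvx : v = x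
      · subst hvx
        have h3 := hinc v
        have h4 : (χ + ind {o}) v ≤ r + 1 := by
          have : ind ({o} : Finset V) v ≤ 1 := by
            unfold ind; split_ifs <;> omega
          simp only [Pi.add_apply]
          omega
        have h5 : inc Δ v (0 : V → ℕ) = 0 := by simp [inc]
        have h6 : u' v = u v - 1 := by rw [hu', Function.update_self]
        rw [h6, h5]
        obtain ⟨k, hk⟩ := Nat.exists_eq_succ_of_ne_zero hux
        rw [hk]
        rw [hk] at hcon
        simp only [Nat.succ_eq_add_one] at *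
        have h7 : r * (k + 1) = r * k + r := by ring
        have h8 : k + 1 - 1 = k := by omega
        rw [h8]
        omega
      · have h3 := hinc v
        have h6 : u' v = u v := by rw [hu', Function.update_of_ne hvx]
        rw [h6]
        omega
  have hfin := odo_le hs
  have h9 : odo Δ r G (χ + ind {o}) 0 x ≤ u' x := hfin x
  have h10 : u' x = u x - 1 := by rw [hu', Function.update_self]
  have h11 : odo Δ r G (χ + ind {o}) 0 x = u x := rfl
  rw [h11, h10] at h9
  omega

theorem u_tail : ∃ C ρ : ℝ, 0 < C ∧ 0 < ρ ∧ ρ < 1 ∧ ∀ (G : Finset V) (o : V), o ∈ G → ∀ q : ℕ,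
    pr Δ r G (fun χ => q ≤ avo Δ r G χ o o) ≤ C * ρ ^ q := by
  obtain ⟨C, ρ, hC, hρ, hρ1, hpg⟩ := pk_gr_sum H
  have hs : 0 < Real.sqrt ρ := Real.sqrt_pos.mpr hρ
  have hs1 : Real.sqrt ρ < 1 := by
    rw [show (1 : ℝ) = Real.sqrt 1 by simp]
    exact Real.sqrt_lt_sqrt hρ.le hρ1
  have hss : Real.sqrt ρ * Real.sqrt ρ = ρ := Real.mul_self_sqrt hρ.le
  refine ⟨max 1 (2 * C) / Real.sqrt ρ, Real.sqrt ρ, by positivity, hs, hs1, ?_⟩
  intro G o ho q
  set M := max 1 (2 * C) with hM
  have hM1 : 1 ≤ M := le_max_left _ _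
  have hM2 : 2 * C ≤ M := le_max_right _ _
  have hkey : M * ρ ^ (q / 2) ≤ M / Real.sqrt ρ * Real.sqrt ρ ^ q := by
    have h1 : Real.sqrt ρ ^ (2 * (q / 2) + 1) ≤ Real.sqrt ρ ^ q :=
      pow_le_pow_of_le_one hs.le hs1.le (by omega)
    have h2 : ρ ^ (q / 2) = Real.sqrt ρ ^ (2 * (q / 2) + 1) / Real.sqrt ρ := by
      rw [pow_succ, pow_mul, pow_two, hss]
      field_simp
    rw [h2, mul_div_assoc', div_mul_eq_mul_div]
    gcongr
  refine le_trans ?_ hkey
  rcases Nat.eq_zero_or_pos q with hq0 | hq0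
  · subst hq0
    have := pr_le_one H G (fun χ => 0 ≤ avo Δ r G χ o o)
    simpa using this.trans hM1
  set t := q / 2 with ht
  -- the coverage functional
  set F : (V → ℕ) → ℝ := fun χ =>
    ∑ y ∈ fs (cb Δ o t), pk Δ r Set.univ t o y * (avo Δ r G χ o y : ℝ) with hF
  have hF0 : ∀ χ ∈ rcr Δ r G, 0 ≤ F χ := fun χ _ =>
    Finset.sum_nonneg fun y _ => mul_nonneg (pk_nonneg H _ _ _ _) (Nat.cast_nonneg _)
  have hlow : ∀ χ ∈ rcr Δ r G, q ≤ avo Δ r G χ o o → (q : ℝ) / 2 ≤ F χ := by
    intro χ hχ hq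
    have hg := pk_growth H Set.univ (fun v => (avo Δ r G χ o o : ℝ) - (avo Δ r G χ o v : ℝ))
      (fun v => by
        have := avo_le H ho hχ v
        have : (avo Δ r G χ o v : ℝ) ≤ (avo Δ r G χ o o : ℝ) := by exact_mod_cast this
        linarith)
      (fun x _ => by
        have h1 := avo_growth H ho hχ x
        have h2 : (r : ℝ) * (avo Δ r G χ o x : ℝ) ≤ (inc Δ x (avo Δ r G χ o) : ℝ) + r := by exact_mod_cast h1
        have h3 : ∑ w ∈ Δ.neighborFinset x, ((avo Δ r G χ o o : ℝ) - (avo Δ r G χ o w : ℝ)) =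
            r * (avo Δ r G χ o o : ℝ) - (inc Δ x (avo Δ r G χ o) : ℝ) := by
          rw [Finset.sum_sub_distrib, Finset.sum_const, Δ.card_neighborFinset_eq_degree, H.reg x]
          simp [inc]
        rw [h3]
        nlinarith)
      t o
    have h1 := pk_sum_eq H Set.univ t o (Set.subset_univ _)
    have h2 : ∑ y ∈ fs (cb Δ o t), pk Δ r Set.univ t o y *
        ((avo Δ r G χ o o : ℝ) - (avo Δ r G χ o y : ℝ)) = (avo Δ r G χ o o : ℝ) - F χ := by
      simp only [mul_sub, Finset.sum_sub_distrib]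
      rw [← Finset.sum_mul, h1, one_mul]
    rw [h2] at hg
    have h3 : (q : ℝ) ≤ (avo Δ r G χ o o : ℝ) := by exact_mod_cast hq
    have h4 : (t : ℝ) ≤ (q : ℝ) / 2 := by
      rw [ht]
      exact Nat.cast_div_le
    simp only [sub_self, zero_add] at hg
    linarith
  have hexp : ex Δ r G F ≤ C * ρ ^ t := by
    have h1 : ex Δ r G F = ∑ y ∈ fs (cb Δ o t), pk Δ r Set.univ t o y *
        ex Δ r G (fun χ => (avo Δ r G χ o y : ℝ)) := by
      rw [hF, ex_sum H G (fs (cb Δ o t)) (fun y χ => pk Δ r Set.univ t o y * (avo Δ r G χ o y : ℝ))]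
      exact Finset.sum_congr rfl fun y _ => ex_mul H G _ _
    rw [h1]
    refine le_trans (Finset.sum_le_sum fun y _ => ?_) (hpg Set.univ t o)
    refine mul_le_mul_of_nonneg_left ?_ (pk_nonneg H _ _ _ _)
    exact (ex_avo H ho y).trans (gr_mono H (Set.subset_univ _) y o)
  have hqpos : (0 : ℝ) < (q : ℝ) / 2 := by positivity
  have hmk := markov H G F hF0 hqpos
  have h1 : pr Δ r G (fun χ => q ≤ avo Δ r G χ o o) ≤ pr Δ r G (fun χ => (q : ℝ) / 2 ≤ F χ) :=
    pr_mono H G fun χ hχ hq => hlow χ hχ hq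
  refine h1.trans (hmk.trans ?_)
  rw [div_le_iff₀ hqpos]
  have hq1 : (1 : ℝ) ≤ (q : ℝ) := by exact_mod_cast hq0
  have hρt : 0 < ρ ^ t := pow_pos hρ t
  calc ex Δ r G F ≤ C * ρ ^ t := hexp
    _ ≤ M / 2 * ρ ^ t := by
        apply mul_le_mul_of_nonneg_right _ hρt.le
        linarith
    _ = M * ρ ^ t * (1 / 2) := by ring
    _ ≤ M * ρ ^ t * ((q : ℝ) / 2) := by
        apply mul_le_mul_of_nonneg_left _ (by positivity)
        linarith

end U

end Pool.Agent.Sand.UA
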