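import Pool.Agent.SandFin.UA

set_option autoImplicit false

namespace Pool.Agent.Sand
export UA (avo_growth u_tail)
end Pool.Agent.Sand
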