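import Pool.Agent.SandFin.UB0

/-! UB: moments for one wave.  (`UpStub1` = the part of `Up.lean` before UB.) -/

set_option autoImplicit false
open scoped Classical
open Filter Topology

namespace Pool.Agent.Sand

variable {V : Type} (Δ : SimpleGraph V) [Δ.LocallyFinite]

section U
variable {Δ} {r : ℕ} {h : ℝ} {D0 : ℕ} (H : Hyp Δ r h D0)

theorem UB_stz_rs {S : Finset V} {χ n u : V → ℕ} :
    Stz Δ r S (rs S χ) n u ↔ Stz Δ r S χ n u := by
  unfold Stz
  refine and_congr Iff.rfl (forall₂_congr fun v hv => ?_)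
  unfold rs
  rw [if_pos hv]

theorem UB_odo_rs (S : Finset V) (χ n : V → ℕ) : odo Δ r S (rs S χ) n = odo Δ r S χ n := by
  unfold odo
  simp only [UB_stz_rs]

theorem UB_KK_rs (S : Finset V) (χ : V → ℕ) (U : Finset V) :
    KK Δ r S (rs S χ) U = KK Δ r S χ U := by
  unfold KK
  rw [UB_odo_rs]

theorem UB_KK_sub (S : Finset V) (χ : V → ℕ) (U : Finset V) : KK Δ r S χ U ⊆ S :=
  Finset.filter_subset _ _

theorem UB_rcr {S : Finset V} {χ : V → ℕ} (hχ : χ ∈ rcr Δ r S) : ∀ v ∈ S, χ v ≤ r :=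
  fun v hv => ((mem_stab.mp (Finset.mem_filter.mp hχ).1).1 v hv).2

theorem UB_nb_sum (hreg : ∀ v, Δ.degree v = r) (S U : Finset V) :
    ∑ y ∈ S, nb Δ y U ≤ r * U.card := by
  have h1 : ∑ y ∈ S, nb Δ y U = ∑ y ∈ S, ∑ u ∈ U, (if Δ.Adj y u then 1 else 0) := by
    refine Finset.sum_congr rfl fun y _ => ?_
    unfold nb
    rw [← Finset.card_filter]
    congr 1
    ext u
    simp only [Finset.mem_inter, SimpleGraph.mem_neighborFinset, Finset.mem_filter]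
    exact And.comm
  rw [h1, Finset.sum_comm]
  have h2 : ∀ u ∈ U, ∑ y ∈ S, (if Δ.Adj y u then 1 else 0) ≤ r := by
    intro u _
    rw [← Finset.card_filter, ← hreg u, ← SimpleGraph.card_neighborFinset_eq_degree]
    refine Finset.card_le_card fun y hy => ?_
    rw [Finset.mem_filter] at hy
    rw [SimpleGraph.mem_neighborFinset]
    exact hy.2.symm
  refine (Finset.sum_le_sum h2).trans ?_
  rw [Finset.sum_const, smul_eq_mul, mul_comm]

include H

theorem UB_sph_fin (o : V) (R : ℕ) : (sph Δ o R).Finite :=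
  (cb_finite H o R).subset fun _ hv => le_of_eq hv

theorem UB_iB_sph {o : V} {R : ℕ} {D : Set V} (hD : Cone Δ o R D) {v : V} (hv : v ∈ iB Δ D) :
    v ∈ D ∧ v ∈ sph Δ o (R + 1) := by
  rw [iB_sub H hD.comp] at hv
  exact hv

theorem UB_Zc_le (o : V) (R : ℕ) (K : Finset V) :
    (Zc Δ o R K : ℝ) ≤ ∑ v ∈ fs (sph Δ o (R + 1)), if v ∈ K then (1 : ℝ) else 0 := by
  rw [Finset.sum_boole]
  unfold Zc
  have : ((cns Δ o R).filter (hits Δ K)).card ≤
      ((fs (sph Δ o (R + 1))).filter (· ∈ K)).card := by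
    refine Finset.card_le_card_of_injOn (fun D => if h : hits Δ K D then h.choose else o) ?_ ?_
    · intro D hD
      rw [Finset.mem_coe, Finset.mem_filter, mem_cns H] at hD
      have h1 := hD.2.choose_spec
      simp only [hD.2, dif_pos]
      rw [Finset.mem_coe, Finset.mem_filter, mem_fs (UB_sph_fin H o (R + 1))]
      exact ⟨(UB_iB_sph H hD.1 h1.1).2, h1.2⟩
    · intro D hD D' hD' heq
      rw [Finset.mem_coe, Finset.mem_filter, mem_cns H] at hD hD'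
      have h1 := hD.2.choose_spec
      have h2 := hD'.2.choose_spec
      simp only [hD.2, hD'.2, dif_pos] at heq
      by_contra hne
      have h3 := cone_disj H hD.1 hD'.1 hne
      refine Set.disjoint_left.mp h3 (UB_iB_sph H hD.1 h1.1).1 ?_
      rw [heq]
      exact (UB_iB_sph H hD'.1 h2.1).1
  exact_mod_cast this

omit [Δ.LocallyFinite] H in
theorem UB_cone_nonempty {o : V} {R : ℕ} {D : Set V} (hD : Cone Δ o R D) : D.Nonempty :=
  hD.inf.nonempty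

omit H in
theorem UB_pr_zero (S : Finset V) (P : (V → ℕ) → Prop) (hP : ∀ χ ∈ rcr Δ r S, ¬ P χ) :
    pr Δ r S P = 0 := by
  unfold pr
  rw [Finset.filter_false_of_mem hP]
  simp

theorem UB_ex_ind (S : Finset V) (P : (V → ℕ) → Prop) (f : (V → ℕ) → ℝ)
    (h1 : ∀ χ, P χ → f χ = 1) (h0 : ∀ χ, ¬ P χ → f χ = 0) :
    ex Δ r S f = pr Δ r S P := by
  rw [← ex_ind H S P]
  congr 1
  funext χ
  by_cases hP : P χ
  · rw [h1 χ hP, if_pos hP]
  · rw [h0 χ hP, if_neg hP]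

/-- mean number of reached cones, without restriction on the position of `U` -/
theorem UB_zc_mean (m : ℕ) : ∃ C : ℝ, 0 < C ∧ ∀ (o : V) (R : ℕ) (S U : Finset V), Disjoint S U →
    U.card ≤ m →
    ex Δ r S (fun χ => (Zc Δ o R (KK Δ r S χ U) : ℝ)) ≤ C := by
  obtain ⟨C0, hC0⟩ := gr_sphere Δ H
  refine ⟨(r * m : ℝ) * |C0| + 1, by positivity, fun o R S U hd hm => ?_⟩
  have h1 : ex Δ r S (fun χ => (Zc Δ o R (KK Δ r S χ U) : ℝ)) ≤
      ex Δ r S (fun χ => ∑ v ∈ fs (sph Δ o (R + 1)), if v ∈ KK Δ r S χ U then (1 : ℝ) else 0) :=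
    ex_mono H S fun χ _ => UB_Zc_le H o R _
  refine h1.trans ?_
  rw [ex_sum H]
  have h2 : ∀ v ∈ fs (sph Δ o (R + 1)),
      ex Δ r S (fun χ => if v ∈ KK Δ r S χ U then (1 : ℝ) else 0) =
        ∑ y ∈ S, gr Δ r ↑S v y * (nb Δ y U : ℝ) := by
    intro v _
    rw [← pr_KK H hd]
    exact UB_ex_ind H S _ _ (fun χ hh => if_pos hh) (fun χ hh => if_neg hh)
  rw [Finset.sum_congr rfl h2, Finset.sum_comm]
  have h3 : ∀ y ∈ S, ∑ v ∈ fs (sph Δ o (R + 1)), gr Δ r ↑S v y * (nb Δ y U : ℝ) ≤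
      |C0| * (nb Δ y U : ℝ) := by
    intro y _
    rw [← Finset.sum_mul]
    refine mul_le_mul_of_nonneg_right ?_ (Nat.cast_nonneg _)
    refine le_trans ?_ (le_abs_self C0)
    refine le_trans (le_of_eq ?_) (hC0 S o y (R + 1))
    exact Finset.sum_congr rfl fun v _ => gr_symm H _ _ _
  refine (Finset.sum_le_sum h3).trans ?_
  rw [← Finset.mul_sum]
  have h4 : (∑ y ∈ S, (nb Δ y U : ℝ)) ≤ (r : ℝ) * m := by
    have h5 : ∑ y ∈ S, nb Δ y U ≤ r * m :=
      (UB_nb_sum H.reg S U).trans (Nat.mul_le_mul_left _ hm)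
    exact_mod_cast h5
  calc |C0| * ∑ y ∈ S, (nb Δ y U : ℝ) ≤ |C0| * ((r : ℝ) * m) :=
        mul_le_mul_of_nonneg_left h4 (abs_nonneg _)
    _ ≤ (r * m : ℝ) * |C0| + 1 := by linarith

/-! ### UB : moments for one wave -/

theorem zc_mean (m : ℕ) : ∃ C : ℝ, 0 < C ∧ ∀ (o : V) (R : ℕ) (S U : Finset V), Disjoint S U → U.card ≤ m →
    (∀ v ∈ U, Δ.dist o v ≤ R) →
    ex Δ r S (fun χ => (Zc Δ o R (KK Δ r S χ U) : ℝ)) ≤ C := by
  obtain ⟨C, hC, h1⟩ := UB_zc_mean H m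
  exact ⟨C, hC, fun o R S U hd hm _ => h1 o R S U hd hm⟩

/-- the sum over the cones of rank `R` in the cone `E` -/
theorem UB_dl (T : ℕ) {C1 C0 : ℝ} (hC1 : 0 < C1) {b : ℕ}
    (hdl : ∀ (o : V) (R : ℕ) (E : Set V), Cone Δ o R E →
    ∀ (S U : Finset V), Disjoint S U → (∀ v ∈ E, Δ.dist o v ≤ R + T → v ∈ S) → (∀ v ∈ E, v ∉ U) →
    ∀ (B : Finset V → Prop), (∀ K K' : Finset V, K ⊆ K' → B K → B K') → ∀ P : (V → ℕ) → Prop,
    pr Δ r S (fun χ => B ((KK Δ r S χ U).filter (· ∉ E)) ∧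
        (∃ f ∈ fs (oB Δ E), f ∈ KK Δ r S χ U ∪ U) ∧ P (rs (S.filter (· ∈ E)) χ)) ≤
      C1 * pr Δ r S (fun χ => B ((KK Δ r S χ U).filter (· ∉ E)) ∧ fs (iB Δ E) ⊆ KK Δ r S χ U) *
        pr Δ r (S.filter (· ∈ E)) P)
    (hb : ∀ (o : V) (R : ℕ) (C : Set V), IsComp Δ (cb Δ o R) C → (oB Δ C).Finite ∧
      (fs (oB Δ C)).card ≤ b)
    (hC0 : ∀ (o : V) (R : ℕ) (S U : Finset V), Disjoint S U → U.card ≤ b →
      ex Δ r S (fun χ => (Zc Δ o R (KK Δ r S χ U) : ℝ)) ≤ C0)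
    {m : ℕ} {o : V} {j0 j1 R : ℕ} {S U : Finset V} (hA : Adm Δ T m o j0 R S U)
    (h01 : j0 ≤ j1) (h1R : j1 ≤ R) {E : Set V} (hE : Cone Δ o j1 E) (F : Finset (Set V))
    (hF : ∀ D ∈ F, Cone Δ o R D) (hFE : ∀ D ∈ F, ¬ D ⊆ E) :
    ∑ D ∈ cns Δ o R, (if D ⊆ E then
      pr Δ r S (fun χ => (∀ D' ∈ F, hits Δ (KK Δ r S χ U) D') ∧ hits Δ (KK Δ r S χ U) D) else 0) ≤
    C1 * C0 * pr Δ r S (fun χ => ∀ D' ∈ F, hits Δ (KK Δ r S χ U) D') := by
  have hpos : 0 ≤ pr Δ r S (fun χ => ∀ D' ∈ F, hits Δ (KK Δ r S χ U) D') := pr_nonneg H _ _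
  have hUE : ∀ v ∈ E, v ∉ U := by
    intro v hv hvU
    obtain ⟨C, hC, hCs⟩ := cone_parent H h01 hE
    exact hA.sub hvU C hC (hCs hv)
  have hUE' : ∀ v ∈ U, v ∉ E := fun v hv hvE => hUE v hvE hv
  have hdE : Disjoint (S.filter (· ∈ E)) (fs (oB Δ E)) := by
    rw [Finset.disjoint_left]
    intro v hv hv2
    rw [mem_fs (hb o j1 E hE.comp).1] at hv2
    exact hv2.1 (Finset.mem_filter.mp hv).2
  have hZ0 := hC0 o R (S.filter (· ∈ E)) (fs (oB Δ E)) hdE (hb o j1 E hE.comp).2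
  have hZ : ∑ D ∈ cns Δ o R, pr Δ r (S.filter (· ∈ E))
      (fun η => hits Δ (KK Δ r (S.filter (· ∈ E)) η (fs (oB Δ E))) D) ≤ C0 := by
    refine le_trans (le_of_eq ?_) hZ0
    have h1 : (fun χ => (Zc Δ o R (KK Δ r (S.filter (· ∈ E)) χ (fs (oB Δ E))) : ℝ)) =
        fun χ => ∑ D ∈ cns Δ o R,
          (if hits Δ (KK Δ r (S.filter (· ∈ E)) χ (fs (oB Δ E))) D then (1 : ℝ) else 0) := by
      funext χ
      rw [Finset.sum_boole]
      rfl
    rw [h1, ex_sum H]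
    exact Finset.sum_congr rfl fun D _ => (UB_ex_ind H _ _ _ (fun χ hh => if_pos hh) (fun χ hh => if_neg hh)).symm
  rcases hA.full j1 h01 h1R E hE with hno | hfull
  · -- the cone does not meet `S`
    have h0 : ∀ D ∈ cns Δ o R, (if D ⊆ E then
        pr Δ r S (fun χ => (∀ D' ∈ F, hits Δ (KK Δ r S χ U) D') ∧ hits Δ (KK Δ r S χ U) D) else 0) ≤
        0 := by
      intro D hD
      split_ifs with hDE
      · refine le_of_eq (UB_pr_zero S _ ?_)
        rintro χ _ ⟨_, v, hv, hvK⟩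
        exact hno v (hDE hv.1) (UB_KK_sub _ _ _ hvK)
      · exact le_rfl
    refine (Finset.sum_le_sum h0).trans ?_
    rw [Finset.sum_const_zero]
    have hC0' : 0 ≤ C0 := le_trans (Finset.sum_nonneg fun D _ => pr_nonneg H _ _) hZ
    positivity
  · have h2 : ∀ D ∈ cns Δ o R, (if D ⊆ E then
        pr Δ r S (fun χ => (∀ D' ∈ F, hits Δ (KK Δ r S χ U) D') ∧ hits Δ (KK Δ r S χ U) D) else 0) ≤
        C1 * pr Δ r S (fun χ => ∀ D' ∈ F, hits Δ (KK Δ r S χ U) D') *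
          pr Δ r (S.filter (· ∈ E))
            (fun η => hits Δ (KK Δ r (S.filter (· ∈ E)) η (fs (oB Δ E))) D) := by
      intro D hD
      rw [mem_cns H] at hD
      split_ifs with hDE
      · have h3 := hdl o j1 E hE S U hA.disj hfull hUE (fun K => ∀ D' ∈ F, hits Δ K D')
          (fun K K' hKK hB D' hD' => by
            obtain ⟨v, hv, hvK⟩ := hB D' hD'
            exact ⟨v, hv, hKK hvK⟩)
          (fun η => hits Δ (KK Δ r (S.filter (· ∈ E)) η (fs (oB Δ E))) D)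
        refine le_trans ?_ (h3.trans ?_)
        · refine pr_mono H S fun χ hχ => ?_
          rintro ⟨hF', v, hv, hvK⟩
          have hχr := UB_rcr hχ
          refine ⟨?_, ?_, ?_⟩
          · intro D' hD'
            obtain ⟨w, hw, hwK⟩ := hF' D' hD'
            refine ⟨w, hw, Finset.mem_filter.mpr ⟨hwK, fun hwE => ?_⟩⟩
            rcases cone_nested H h1R hE (hF D' hD') with h4 | h4
            · exact hFE D' hD' h4
            · exact Set.disjoint_left.mp h4 hwE hw.1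
          · exact hits_out H hE hχr hA.disj hUE'
              ((hits_iff H hE hχr hA.disj hUE').mp ⟨v, hDE hv.1, hvK⟩)
          · show hits Δ (KK Δ r (S.filter (· ∈ E)) (rs (S.filter (· ∈ E)) χ) (fs (oB Δ E))) D
            rw [UB_KK_rs]
            exact ⟨v, hv, wave_in H hE hχr hA.disj hUE' (hDE hv.1) hvK⟩
        · refine mul_le_mul_of_nonneg_right ?_ (pr_nonneg H _ _)
          refine mul_le_mul_of_nonneg_left ?_ hC1.le
          refine pr_mono H S fun χ hχ => ?_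
          rintro ⟨hB, _⟩ D' hD'
          obtain ⟨w, hw, hwK⟩ := hB D' hD'
          exact ⟨w, hw, (Finset.mem_filter.mp hwK).1⟩
      · have := pr_nonneg H (S.filter (· ∈ E))
          (fun η => hits Δ (KK Δ r (S.filter (· ∈ E)) η (fs (oB Δ E))) D)
        positivity
    refine (Finset.sum_le_sum h2).trans ?_
    rw [← Finset.mul_sum]
    calc C1 * pr Δ r S (fun χ => ∀ D' ∈ F, hits Δ (KK Δ r S χ U) D') * _
        ≤ C1 * pr Δ r S (fun χ => ∀ D' ∈ F, hits Δ (KK Δ r S χ U) D') * C0 :=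
          mul_le_mul_of_nonneg_left hZ (by positivity)
      _ = _ := by ring

/-- every cone of rank `R` not in `F` is in a cone without elements of `F` which is either of rank `j0` or a child
of an ancestor of an element of `F` -/
theorem UB_find {o : V} {j0 R : ℕ} (hj : j0 ≤ R) (F : Finset (Set V))
    (hF : ∀ D ∈ F, Cone Δ o R D) {D : Set V} (hD : Cone Δ o R D) (hDF : D ∉ F) :
    (∃ E, Cone Δ o j0 E ∧ D ⊆ E ∧ ∀ D' ∈ F, ¬ D' ⊆ E) ∨
    ∃ j, j0 ≤ j ∧ j < R ∧ ∃ D' ∈ F, ∃ E ∈ chd Δ (anc Δ o j D'), D ⊆ E ∧ Cone Δ o (j + 1) E ∧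
      ∀ D' ∈ F, ¬ D' ⊆ E := by
  by_cases h0 : ∀ D' ∈ F, ¬ D' ⊆ anc Δ o j0 D
  · obtain ⟨h1, h2⟩ := anc_cone H hj hD
    exact Or.inl ⟨_, h1, h2, h0⟩
  · right
    have hR : ∀ D' ∈ F, ¬ D' ⊆ anc Δ o R D := by
      intro D' hD' hs
      rw [anc_eq H le_rfl hD hD Set.Subset.rfl] at hs
      by_cases he : D' = D
      · exact hDF (he ▸ hD')
      · have h3 := cone_disj H (hF D' hD') hD he
        obtain ⟨v, hv⟩ := UB_cone_nonempty (hF D' hD')
        exact Set.disjoint_left.mp h3 hv (hs hv)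
    -- first rank at which the condition holds
    have hex : ∃ j, j0 ≤ j ∧ j ≤ R ∧ ∀ D' ∈ F, ¬ D' ⊆ anc Δ o j D := ⟨R, hj, le_rfl, hR⟩
    have hs := Nat.find_spec hex
    set j1 := Nat.find hex with hj1
    have hne : j0 ≠ j1 := by
      intro he
      apply h0
      rw [he]
      exact hs.2.2
    have hlt : j0 < j1 := lt_of_le_of_ne hs.1 hne
    obtain ⟨j, hjj⟩ : ∃ j, j1 = j + 1 := ⟨j1 - 1, by omega⟩
    have hmin := Nat.find_min hex (m := j) (by omega)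
    have hjn : ¬ ∀ D' ∈ F, ¬ D' ⊆ anc Δ o j D := by
      intro hc
      exact hmin ⟨by omega, by omega, hc⟩
    push Not at hjn
    obtain ⟨D', hD', hDs⟩ := hjn
    have hjR : j < R := by omega
    obtain ⟨hA1, hA2⟩ := anc_cone H (le_of_lt hjR) hD
    obtain ⟨hE1, hE2⟩ := anc_cone H (j := j + 1) (by omega) hD
    have hanc : anc Δ o j D' = anc Δ o j D := anc_eq H (le_of_lt hjR) (hF D' hD') hA1 hDs
    refine ⟨j, by omega, hjR, D', hD', anc Δ o (j + 1) D, ?_, hE2, hE1, ?_⟩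
    · rw [hanc, mem_chd H hA1]
      refine ⟨hE1, ?_⟩
      rcases cone_nested H (Nat.le_succ j) hA1 hE1 with h5 | h5
      · exact h5
      · exfalso
        obtain ⟨v, hv⟩ := UB_cone_nonempty hD
        exact Set.disjoint_left.mp h5 (hA2 hv) (hE2 hv)
    · rw [← hjj]
      exact hs.2.2

/-- the key estimate: adding one more cone to a finite family of reached cones -/
theorem UB_key : ∃ (A : ℝ) (T : ℕ), 0 < A ∧ ∀ (m : ℕ) (o : V) (j0 R : ℕ) (S U : Finset V), j0 ≤ R →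
    Adm Δ T m o j0 R S U → ∀ (q : ℕ) (F : Finset (Set V)), (∀ D ∈ F, Cone Δ o R D) → F.card ≤ q →
    ∑ D ∈ cns Δ o R,
      pr Δ r S (fun χ => (∀ D' ∈ F, hits Δ (KK Δ r S χ U) D') ∧ hits Δ (KK Δ r S χ U) D) ≤
    (q + (m + q * ((R : ℝ) - j0)) * A) *
      pr Δ r S (fun χ => ∀ D' ∈ F, hits Δ (KK Δ r S χ U) D') := by
  obtain ⟨C1, T, hC1, hdl⟩ := dl H
  obtain ⟨b, hb1, hrb, hb⟩ := exists_bound H
  obtain ⟨C0, hC0p, hC0⟩ := UB_zc_mean H b
  obtain ⟨b', hb'1, hb'⟩ := core_card H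
  have hb'1r : (1 : ℝ) ≤ b' := by exact_mod_cast hb'1
  refine ⟨b' * (C1 * C0), T, by positivity, fun m o j0 R S U hjR hA q F hF hq => ?_⟩
  set G : Set V → ℝ := fun D =>
    pr Δ r S (fun χ => (∀ D' ∈ F, hits Δ (KK Δ r S χ U) D') ∧ hits Δ (KK Δ r S χ U) D) with hG
  set pF : ℝ := pr Δ r S (fun χ => ∀ D' ∈ F, hits Δ (KK Δ r S χ U) D') with hpF
  have hpF0 : 0 ≤ pF := pr_nonneg H _ _
  have hG0 : ∀ D, 0 ≤ G D := fun D => pr_nonneg H _ _
  have hGle : ∀ D, G D ≤ pF := fun D => pr_mono H S fun χ _ hh => hh.1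
  -- candidates
  set 𝓔1 : Finset (Set V) := ((cns Δ o j0).filter fun D => ∃ v ∈ D, v ∈ S).filter
    (fun E => ∀ D' ∈ F, ¬ D' ⊆ E) with h𝓔1
  set 𝓔2 : Finset (Set V) := ((F ×ˢ Finset.Ico j0 R).biUnion
    fun x => (chd Δ (anc Δ o x.2 x.1))).filter (fun E => ∀ D' ∈ F, ¬ D' ⊆ E) with h𝓔2
  have hc1 : 𝓔1.card ≤ m := (Finset.card_filter_le _ _).trans hA.few
  have hc2 : 𝓔2.card ≤ q * (R - j0) * b' := by
    refine (Finset.card_filter_le _ _).trans (Finset.card_biUnion_le.trans ?_)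
    have h1 : ∀ x ∈ F ×ˢ Finset.Ico j0 R, (chd Δ (anc Δ o x.2 x.1)).card ≤ b' := by
      intro x hx
      rw [Finset.mem_product, Finset.mem_Ico] at hx
      exact (hb' o x.2 _ (anc_cone H (le_of_lt hx.2.2) (hF _ hx.1)).1).2
    refine (Finset.sum_le_sum h1).trans ?_
    rw [Finset.sum_const, smul_eq_mul, Finset.card_product, Nat.card_Ico]
    exact Nat.mul_le_mul_right _ (Nat.mul_le_mul_right _ hq)
  -- each candidate is fine
  have hE : ∀ E ∈ 𝓔1 ∪ 𝓔2, ∑ D ∈ cns Δ o R, (if D ⊆ E then G D else 0) ≤ C1 * C0 * pF := by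
    intro E hE
    have hbb : ∀ (o : V) (R : ℕ) (C : Set V), IsComp Δ (cb Δ o R) C → (oB Δ C).Finite ∧
        (fs (oB Δ C)).card ≤ b := fun o R C hC => ⟨(hb o R C hC).2.1, (hb o R C hC).2.2.2.1⟩
    rw [Finset.mem_union] at hE
    rcases hE with hE | hE
    · rw [h𝓔1, Finset.mem_filter, Finset.mem_filter, mem_cns H] at hE
      exact UB_dl H T hC1 hdl hbb hC0 hA le_rfl hjR hE.1.1 F hF hE.2
    · rw [h𝓔2, Finset.mem_filter, Finset.mem_biUnion] at hE
      obtain ⟨⟨x, hx, hEx⟩, hE2⟩ := hE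
      rw [Finset.mem_product, Finset.mem_Ico] at hx
      have hEc : Cone Δ o (x.2 + 1) E :=
        ((mem_chd H (anc_cone H (le_of_lt hx.2.2) (hF _ hx.1)).1).mp hEx).1
      exact UB_dl H T hC1 hdl hbb hC0 hA (by omega) (by omega) hEc F hF hE2
  -- every cone is covered
  have hcov : ∀ D ∈ cns Δ o R, G D ≤ (if D ∈ F then pF else 0) +
      ∑ E ∈ 𝓔1 ∪ 𝓔2, (if D ⊆ E then G D else 0) := by
    intro D hD
    rw [mem_cns H] at hD
    have hsum0 : 0 ≤ ∑ E ∈ 𝓔1 ∪ 𝓔2, (if D ⊆ E then G D else 0) := by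
      refine Finset.sum_nonneg fun E _ => ?_
      split_ifs
      · exact hG0 D
      · exact le_rfl
    by_cases hDF : D ∈ F
    · rw [if_pos hDF]
      have := hGle D
      linarith
    · rw [if_neg hDF, zero_add]
      have hone : ∀ E ∈ 𝓔1 ∪ 𝓔2, D ⊆ E → G D ≤ ∑ E ∈ 𝓔1 ∪ 𝓔2, (if D ⊆ E then G D else 0) := by
        intro E hE hDE
        have h2 := Finset.single_le_sum (f := fun E => if D ⊆ E then G D else 0)
          (fun E _ => by
            show 0 ≤ (if D ⊆ E then G D else 0)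
            split_ifs
            · exact hG0 D
            · exact le_rfl) hE
        have h3 : (if D ⊆ E then G D else 0) = G D := if_pos hDE
        exact h3.symm.le.trans h2
      rcases UB_find H hjR F hF hD hDF with ⟨E, hEc, hDE, hEF⟩ | ⟨j, hj1, hj2, D', hD', E, hE1, hDE, hEc, hEF⟩
      · by_cases hES : ∃ v ∈ E, v ∈ S
        · refine hone E (Finset.mem_union_left _ ?_) hDE
          rw [h𝓔1, Finset.mem_filter, Finset.mem_filter, mem_cns H]
          exact ⟨⟨hEc, hES⟩, hEF⟩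
        · refine le_trans (le_of_eq ?_) hsum0
          refine UB_pr_zero S _ ?_
          rintro χ _ ⟨_, v, hv, hvK⟩
          exact hES ⟨v, hDE hv.1, UB_KK_sub _ _ _ hvK⟩
      · refine hone E (Finset.mem_union_right _ ?_) hDE
        rw [h𝓔2, Finset.mem_filter, Finset.mem_biUnion]
        exact ⟨⟨(D', j), Finset.mem_product.mpr ⟨hD', Finset.mem_Ico.mpr ⟨hj1, hj2⟩⟩, hE1⟩, hEF⟩
  refine (Finset.sum_le_sum hcov).trans ?_
  rw [Finset.sum_add_distrib, Finset.sum_comm]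
  have hp1 : ∑ D ∈ cns Δ o R, (if D ∈ F then pF else 0) ≤ q * pF := by
    rw [← Finset.sum_filter, Finset.sum_const, nsmul_eq_mul]
    refine mul_le_mul_of_nonneg_right ?_ hpF0
    have : ((cns Δ o R).filter (· ∈ F)).card ≤ q :=
      (Finset.card_le_card fun D hD => (Finset.mem_filter.mp hD).2).trans hq
    exact_mod_cast this
  have hp2 : ∑ E ∈ 𝓔1 ∪ 𝓔2, ∑ D ∈ cns Δ o R, (if D ⊆ E then G D else 0) ≤
      (m + q * ((R : ℝ) - j0) * b') * (C1 * C0 * pF) := by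
    refine (Finset.sum_le_sum hE).trans ?_
    rw [Finset.sum_const, nsmul_eq_mul]
    refine mul_le_mul_of_nonneg_right ?_ (by positivity)
    have h1 : (𝓔1 ∪ 𝓔2).card ≤ m + q * (R - j0) * b' :=
      (Finset.card_union_le _ _).trans (Nat.add_le_add hc1 hc2)
    have h2 : (((𝓔1 ∪ 𝓔2).card : ℕ) : ℝ) ≤ ((m + q * (R - j0) * b' : ℕ) : ℝ) := by exact_mod_cast h1
    refine h2.trans (le_of_eq ?_)
    push_cast [Nat.cast_sub hjR]
    ring
  have hRj : (0 : ℝ) ≤ (R : ℝ) - j0 := by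
    have : (j0 : ℝ) ≤ R := by exact_mod_cast hjR
    linarith
  have hfin : (m + q * ((R : ℝ) - j0) * b') * (C1 * C0 * pF) ≤
      (m + q * ((R : ℝ) - j0)) * (b' * (C1 * C0)) * pF := by
    have h5 : (m : ℝ) + q * ((R : ℝ) - j0) * b' ≤ (m + q * ((R : ℝ) - j0)) * b' := by
      have : (0 : ℝ) ≤ (m : ℝ) := Nat.cast_nonneg m
      nlinarith
    calc (m + q * ((R : ℝ) - j0) * b') * (C1 * C0 * pF)
        ≤ ((m + q * ((R : ℝ) - j0)) * b') * (C1 * C0 * pF) :=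
          mul_le_mul_of_nonneg_right h5 (by positivity)
      _ = _ := by ring
  calc _ ≤ (q : ℝ) * pF + (m + q * ((R : ℝ) - j0)) * (b' * (C1 * C0)) * pF :=
        add_le_add hp1 (hp2.trans hfin)
    _ = _ := by ring

/-- powers of the number of reached cones -/
theorem UB_pow (o : V) (R q : ℕ) (S U : Finset V) :
    ex Δ r S (fun χ => (Zc Δ o R (KK Δ r S χ U) : ℝ) ^ q) =
      ∑ f ∈ Fintype.piFinset (fun _ : Fin q => cns Δ o R),
        pr Δ r S (fun χ => ∀ D' ∈ Finset.univ.image f, hits Δ (KK Δ r S χ U) D') := by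
  have h1 : (fun χ => (Zc Δ o R (KK Δ r S χ U) : ℝ) ^ q) = fun χ =>
      ∑ f ∈ Fintype.piFinset (fun _ : Fin q => cns Δ o R),
        (if ∀ D' ∈ Finset.univ.image f, hits Δ (KK Δ r S χ U) D' then (1 : ℝ) else 0) := by
    funext χ
    have h2 : (Zc Δ o R (KK Δ r S χ U) : ℝ) = ∑ D ∈ cns Δ o R,
        (if hits Δ (KK Δ r S χ U) D then (1 : ℝ) else 0) := by
      rw [Finset.sum_boole]
      rfl
    have h3 : (Zc Δ o R (KK Δ r S χ U) : ℝ) ^ q = ∏ _i : Fin q, ∑ D ∈ cns Δ o R,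
        (if hits Δ (KK Δ r S χ U) D then (1 : ℝ) else 0) := by
      rw [Finset.prod_const, Finset.card_univ, Fintype.card_fin, h2]
    rw [h3, Finset.prod_univ_sum]
    refine Finset.sum_congr rfl fun f _ => ?_
    rw [Finset.prod_ite_zero, Finset.prod_const_one]
    congr 1
    simp
  rw [h1, ex_sum H]
  exact Finset.sum_congr rfl fun f _ => UB_ex_ind H _ _ _ (fun χ hh => if_pos hh) (fun χ hh => if_neg hh)

theorem UB_pow_succ (o : V) (R q : ℕ) (S U : Finset V) :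
    ex Δ r S (fun χ => (Zc Δ o R (KK Δ r S χ U) : ℝ) ^ (q + 1)) =
      ∑ f ∈ Fintype.piFinset (fun _ : Fin q => cns Δ o R), ∑ D ∈ cns Δ o R,
        pr Δ r S (fun χ => (∀ D' ∈ Finset.univ.image f, hits Δ (KK Δ r S χ U) D') ∧
          hits Δ (KK Δ r S χ U) D) := by
  have h1 : (fun χ => (Zc Δ o R (KK Δ r S χ U) : ℝ) ^ (q + 1)) = fun χ =>
      ∑ f ∈ Fintype.piFinset (fun _ : Fin q => cns Δ o R), ∑ D ∈ cns Δ o R,
        (if (∀ D' ∈ Finset.univ.image f, hits Δ (KK Δ r S χ U) D') ∧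
          hits Δ (KK Δ r S χ U) D then (1 : ℝ) else 0) := by
    funext χ
    have h2 : (Zc Δ o R (KK Δ r S χ U) : ℝ) = ∑ D ∈ cns Δ o R,
        (if hits Δ (KK Δ r S χ U) D then (1 : ℝ) else 0) := by
      rw [Finset.sum_boole]
      rfl
    have h3 : (Zc Δ o R (KK Δ r S χ U) : ℝ) ^ q = ∏ _i : Fin q, ∑ D ∈ cns Δ o R,
        (if hits Δ (KK Δ r S χ U) D then (1 : ℝ) else 0) := by
      rw [Finset.prod_const, Finset.card_univ, Fintype.card_fin, h2]
    rw [pow_succ, h3, Finset.prod_univ_sum, h2, Finset.sum_mul]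
    refine Finset.sum_congr rfl fun f _ => ?_
    rw [Finset.mul_sum]
    refine Finset.sum_congr rfl fun D _ => ?_
    rw [Finset.prod_ite_zero, Finset.prod_const_one]
    by_cases ha : ∀ D' ∈ Finset.univ.image f, hits Δ (KK Δ r S χ U) D'
    · have ha' : ∀ i ∈ (Finset.univ : Finset (Fin q)), hits Δ (KK Δ r S χ U) (f i) := fun i hi =>
        ha _ (Finset.mem_image_of_mem f hi)
      rw [if_pos ha', one_mul]
      by_cases hb : hits Δ (KK Δ r S χ U) D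
      · rw [if_pos hb, if_pos ⟨ha, hb⟩]
      · rw [if_neg hb, if_neg (fun hh => hb hh.2)]
    · have ha' : ¬ ∀ i ∈ (Finset.univ : Finset (Fin q)), hits Δ (KK Δ r S χ U) (f i) := by
        intro hh
        apply ha
        intro D' hD'
        obtain ⟨i, hi, rfl⟩ := Finset.mem_image.mp hD'
        exact hh i hi
      rw [if_neg ha', zero_mul, if_neg (fun hh => ha hh.1)]
  rw [h1, ex_sum H]
  refine Finset.sum_congr rfl fun f _ => ?_
  rw [ex_sum H]
  exact Finset.sum_congr rfl fun D _ => UB_ex_ind H _ _ _ (fun χ hh => if_pos hh) (fun χ hh => if_neg hh)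

theorem um_wave (m p : ℕ) : ∃ (C : ℝ) (T : ℕ), 0 < C ∧ ∀ (o : V) (j0 R : ℕ) (S U : Finset V), j0 ≤ R →
    Adm Δ T m o j0 R S U →
    ex Δ r S (fun χ => (Zc Δ o R (KK Δ r S χ U) : ℝ) ^ (p + 1)) ≤ C * ((R : ℝ) - j0 + 1) ^ p := by
  obtain ⟨A, T, hA0, hkey⟩ := UB_key H
  suffices hs : ∃ C : ℝ, 0 < C ∧ ∀ (o : V) (j0 R : ℕ) (S U : Finset V), j0 ≤ R →
      Adm Δ T m o j0 R S U →
      ex Δ r S (fun χ => (Zc Δ o R (KK Δ r S χ U) : ℝ) ^ (p + 1)) ≤ C * ((R : ℝ) - j0 + 1) ^ p by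
    obtain ⟨C, hC, hC'⟩ := hs
    exact ⟨C, T, hC, hC'⟩
  induction p with
  | zero =>
    obtain ⟨C, hC, hC'⟩ := UB_zc_mean H m
    refine ⟨C, hC, fun o j0 R S U hj hA => ?_⟩
    simp only [zero_add, pow_one, pow_zero, mul_one]
    exact hC' o R S U hA.disj hA.card
  | succ p ih =>
    obtain ⟨C, hC, hC'⟩ := ih
    refine ⟨((p + 1 : ℕ) + (m + (p + 1 : ℕ)) * A) * C, by positivity, fun o j0 R S U hj hA => ?_⟩
    have hRj : (0 : ℝ) ≤ (R : ℝ) - j0 := by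
      have : (j0 : ℝ) ≤ R := by exact_mod_cast hj
      linarith
    rw [UB_pow_succ H]
    have h1 : ∀ f ∈ Fintype.piFinset (fun _ : Fin (p + 1) => cns Δ o R), ∑ D ∈ cns Δ o R,
        pr Δ r S (fun χ => (∀ D' ∈ Finset.univ.image f, hits Δ (KK Δ r S χ U) D') ∧
          hits Δ (KK Δ r S χ U) D) ≤ ((p + 1 : ℕ) + (m + (p + 1 : ℕ) * ((R : ℝ) - j0)) * A) *
        pr Δ r S (fun χ => ∀ D' ∈ Finset.univ.image f, hits Δ (KK Δ r S χ U) D') := by
      intro f hf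
      refine hkey m o j0 R S U hj hA (p + 1) (Finset.univ.image f) ?_ ?_
      · intro D hD
        obtain ⟨i, _, rfl⟩ := Finset.mem_image.mp hD
        exact (mem_cns H).mp (Fintype.mem_piFinset.mp hf i)
      · refine Finset.card_image_le.trans ?_
        rw [Finset.card_univ, Fintype.card_fin]
    refine (Finset.sum_le_sum h1).trans ?_
    rw [← Finset.mul_sum, ← UB_pow H]
    have h2 := hC' o j0 R S U hj hA
    have h3 : ((p + 1 : ℕ) : ℝ) + (m + (p + 1 : ℕ) * ((R : ℝ) - j0)) * A ≤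
        ((p + 1 : ℕ) + (m + (p + 1 : ℕ)) * A) * ((R : ℝ) - j0 + 1) := by
      have hp : (0 : ℝ) ≤ ((p + 1 : ℕ) : ℝ) := Nat.cast_nonneg _
      have hm : (0 : ℝ) ≤ (m : ℝ) := Nat.cast_nonneg _
      have e1 : 0 ≤ ((p + 1 : ℕ) : ℝ) * ((R : ℝ) - j0) := mul_nonneg hp hRj
      have e2 : 0 ≤ (m : ℝ) * A * ((R : ℝ) - j0) := by positivity
      have e3 : 0 ≤ ((p + 1 : ℕ) : ℝ) * A := by positivity
      nlinarith
    have h4 : 0 ≤ ex Δ r S (fun χ => (Zc Δ o R (KK Δ r S χ U) : ℝ) ^ (p + 1)) := by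
      rw [UB_pow H]
      exact Finset.sum_nonneg fun f _ => pr_nonneg H _ _
    calc _ ≤ (((p + 1 : ℕ) + (m + (p + 1 : ℕ)) * A) * ((R : ℝ) - j0 + 1)) *
          (C * ((R : ℝ) - j0 + 1) ^ p) :=
          mul_le_mul h3 h2 h4 (by positivity)
      _ = _ := by
          rw [pow_succ ((R : ℝ) - j0 + 1) p]
          ring

end U

end Pool.Agent.Sand
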