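import Pool.Agent.SandFin.UAX

/-! UB0: elementary facts on waves and cones.  (`UpStub` = the part of `Up.lean` before UB0.) -/

set_option autoImplicit false
set_option linter.unusedSectionVars false
set_option linter.unusedVariables false
open scoped Classical
open Filter Topology

namespace Pool.Agent.Sand

variable {V : Type} (Δ : SimpleGraph V) [Δ.LocallyFinite]

section U
variable {Δ} {r : ℕ} {h : ℝ} {D0 : ℕ} (H : Hyp Δ r h D0)
include H

theorem UB0_oB_fin {o : V} {R : ℕ} {D : Set V} (hD : Cone Δ o R D) : (oB Δ D).Finite := by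
  obtain ⟨b, _, _, hb⟩ := exists_bound H
  exact (hb o R D hD.comp).2.1

theorem UB0_disj_oB {D : Set V} {S : Finset V} (hfin : (oB Δ D).Finite) :
    Disjoint (S.filter (· ∈ D)) (fs (oB Δ D)) := by
  rw [Finset.disjoint_left]
  intro v hv hv'
  rw [mem_fs hfin] at hv'
  exact hv'.1 (Finset.mem_filter.1 hv).2

/-- a wave meeting a cone crosses its boundary -/
theorem UB0_cross {D : Set V} {S U : Finset V} {χ : V → ℕ}
    (hχ : ∀ v ∈ S, χ v ≤ r) (hSU : Disjoint S U) (hU : ∀ v ∈ U, v ∉ D)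
    (hv : ∃ v ∈ D, v ∈ KK Δ r S χ U) :
    ∃ v ∈ D, v ∈ KK Δ r S χ U ∧ ∃ w, w ∉ D ∧ Δ.Adj v w ∧ w ∈ KK Δ r S χ U ∪ U := by
  obtain ⟨v0, hv0, hv0K⟩ := hv
  obtain ⟨W, hW⟩ : ∃ W, W = (KK Δ r S χ U).filter (· ∈ D) := ⟨_, rfl⟩
  have hne : W.Nonempty := ⟨v0, hW ▸ Finset.mem_filter.2 ⟨hv0K, hv0⟩⟩
  obtain ⟨v, hvW, hv⟩ := KK_burn H.reg hχ hSU (hW ▸ Finset.filter_subset _ _ : W ⊆ _) hne
  have hW' : ∀ x, x ∈ W ↔ x ∈ KK Δ r S χ U ∧ x ∈ D := fun x => by rw [hW, Finset.mem_filter]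
  obtain ⟨hvK, hvD⟩ := (hW' v).1 hvW
  have hvS : v ∈ S := (Finset.mem_filter.1 hvK).1
  have hpos : 0 < nb Δ v (U ∪ (KK Δ r S χ U \ W)) := by
    have := hχ v hvS
    omega
  obtain ⟨w, hw⟩ := Finset.card_pos.1 hpos
  obtain ⟨hw1, hw2⟩ := Finset.mem_inter.1 hw
  rw [SimpleGraph.mem_neighborFinset] at hw1
  refine ⟨v, hvD, hvK, w, ?_, hw1, ?_⟩
  · rcases Finset.mem_union.1 hw2 with h1 | h1
    · exact hU w h1
    · intro hwD
      obtain ⟨h2, h3⟩ := Finset.mem_sdiff.1 h1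
      exact h3 ((hW' w).2 ⟨h2, hwD⟩)
  · rcases Finset.mem_union.1 hw2 with h1 | h1
    · exact Finset.mem_union_right _ h1
    · exact Finset.mem_union_left _ (Finset.mem_sdiff.1 h1).1

/-- a wave meeting a cone reaches it through its boundary -/
theorem hits_iff {o : V} {R : ℕ} {D : Set V} (hD : Cone Δ o R D) {S U : Finset V} {χ : V → ℕ}
    (hχ : ∀ v ∈ S, χ v ≤ r) (hSU : Disjoint S U) (hU : ∀ v ∈ U, v ∉ D) :
    (∃ v ∈ D, v ∈ KK Δ r S χ U) ↔ hits Δ (KK Δ r S χ U) D := by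
  constructor
  · intro hv
    obtain ⟨v, hvD, hvK, w, hw, hadj, _⟩ := UB0_cross H hχ hSU hU hv
    exact ⟨v, ⟨hvD, w, hw, hadj⟩, hvK⟩
  · rintro ⟨v, hv, hvK⟩
    exact ⟨v, hv.1, hvK⟩

theorem hits_out {o : V} {R : ℕ} {D : Set V} (hD : Cone Δ o R D) {S U : Finset V} {χ : V → ℕ}
    (hχ : ∀ v ∈ S, χ v ≤ r) (hSU : Disjoint S U) (hU : ∀ v ∈ U, v ∉ D) (hh : hits Δ (KK Δ r S χ U) D) :
    ∃ f ∈ fs (oB Δ D), f ∈ KK Δ r S χ U ∪ U := by
  obtain ⟨v, hvD, hvK, w, hw, hadj, hwK⟩ :=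
    UB0_cross H hχ hSU hU ((hits_iff H hD hχ hSU hU).2 hh)
  exact ⟨w, (mem_fs (UB0_oB_fin H hD)).2 ⟨hw, v, hvD, hadj⟩, hwK⟩

theorem UB0_nb_mono {v : V} {W W' : Finset V} (hW : ∀ w ∈ W, Δ.Adj v w → w ∈ W') :
    nb Δ v W ≤ nb Δ v W' := by
  refine Finset.card_le_card fun w hw => ?_
  obtain ⟨h1, h2⟩ := Finset.mem_inter.1 hw
  exact Finset.mem_inter.2 ⟨h1, hW w h2 ((Δ.mem_neighborFinset v w).1 h1)⟩

/-- the part of a wave in a cone is dominated by the wave of the full boundary -/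
theorem wave_in {o : V} {R : ℕ} {D : Set V} (hD : Cone Δ o R D) {S U : Finset V} {χ : V → ℕ}
    (hχ : ∀ v ∈ S, χ v ≤ r) (hSU : Disjoint S U) (hU : ∀ v ∈ U, v ∉ D) {v : V} (hv : v ∈ D)
    (hK : v ∈ KK Δ r S χ U) : v ∈ KK Δ r (S.filter (· ∈ D)) χ (fs (oB Δ D)) := by
  have hfin := UB0_oB_fin H hD
  have hdis : Disjoint (S.filter (· ∈ D)) (fs (oB Δ D)) := UB0_disj_oB H hfin
  have hχT : ∀ v ∈ S.filter (· ∈ D), χ v ≤ r := fun v hv => hχ v (Finset.mem_filter.1 hv).1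
  set KT := KK Δ r (S.filter (· ∈ D)) χ (fs (oB Δ D)) with hKT
  set X := (KK Δ r S χ U).filter (fun v => v ∈ D → v ∈ KT) with hX
  have hsub : KK Δ r S χ U ⊆ X := by
    refine KK_least H.reg hχ hSU ((Finset.filter_subset _ _).trans (Finset.filter_subset _ _)) ?_
    intro x hxS hxX
    by_cases hxK : x ∈ KK Δ r S χ U
    · have h1 : x ∈ D ∧ x ∉ KT := by
        by_contra hcon
        exact hxX (Finset.mem_filter.2 ⟨hxK, fun hxD => by_contra fun h2 => hcon ⟨hxD, h2⟩⟩)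
      have h2 := KK_closed H.reg hχT hdis (Finset.mem_filter.2 ⟨hxS, h1.1⟩) h1.2
      refine le_trans (Nat.add_le_add_left (UB0_nb_mono H ?_) _) h2
      intro w hw hadj
      by_cases hwD : w ∈ D
      · rcases Finset.mem_union.1 hw with h3 | h3
        · exact absurd hwD (hU w h3)
        · exact Finset.mem_union_right _ ((Finset.mem_filter.1 h3).2 hwD)
      · exact Finset.mem_union_left _ ((mem_fs hfin).2 ⟨hwD, x, h1.1, hadj⟩)
    · have h2 := KK_closed H.reg hχ hSU hxS hxK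
      refine le_trans (Nat.add_le_add_left (UB0_nb_mono H ?_) _) h2
      intro w hw _
      rcases Finset.mem_union.1 hw with h3 | h3
      · exact Finset.mem_union_left _ h3
      · exact Finset.mem_union_right _ (Finset.mem_filter.1 h3).1
  exact (Finset.mem_filter.1 (hsub hK)).2 hv

theorem anc_eq {o : V} {j R : ℕ} (hj : j ≤ R) {D : Set V} (hD : Cone Δ o R D) {C : Set V}
    (hC : Cone Δ o j C) (hs : D ⊆ C) : anc Δ o j D = C := by
  have : {C' | Cone Δ o j C' ∧ D ⊆ C'} = {C} := by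
    ext C'
    rw [Set.mem_singleton_iff]
    constructor
    · rintro ⟨h1, h2⟩
      by_contra hne
      obtain ⟨x, hx⟩ := hD.inf.nonempty
      exact Set.disjoint_left.1 (cone_disj H h1 hC hne) (h2 hx) (hs hx)
    · rintro rfl
      exact ⟨hC, hs⟩
  unfold anc
  rw [this, Set.sUnion_singleton]

theorem anc_cone {o : V} {j R : ℕ} (hj : j ≤ R) {D : Set V} (hD : Cone Δ o R D) :
    Cone Δ o j (anc Δ o j D) ∧ D ⊆ anc Δ o j D := by
  obtain ⟨C, hC, hs⟩ := cone_parent H hj hD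
  rw [anc_eq H hj hD hC hs]
  exact ⟨hC, hs⟩

theorem UB0_cb_fb {o : V} {R : ℕ} : cb Δ o R ⊆ fb Δ o R := by
  intro v hv C hC hvC
  exact Set.disjoint_left.1 hC.comp.disj hvC hv

theorem adm_cone {T m : ℕ} (hm : ∀ (o : V) (R : ℕ) (C : Set V), Cone Δ o R C → (fs (oB Δ C)).card ≤ m)
    (hm1 : 1 ≤ m) {o : V} {j0 j1 R : ℕ} (h1 : j0 ≤ j1) (h2 : j1 ≤ R) {S U : Finset V}
    (hA : Adm Δ T m o j0 R S U) {E : Set V} (hE : Cone Δ o j1 E) :
    Adm Δ T m o j1 R (S.filter (· ∈ E)) (fs (oB Δ E)) := by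
  have hfin := UB0_oB_fin H hE
  refine ⟨UB0_disj_oB H hfin, ?_, hm o j1 E hE, ?_, ?_⟩
  · intro v hv
    have hv' : v ∈ oB Δ E := (mem_fs hfin).1 (Finset.mem_coe.1 hv)
    refine UB0_cb_fb H ?_
    have := oB_sub H hE.comp hv'
    exact le_of_eq this
  · intro j hj1 hjR D hD
    rcases cone_nested H hj1 hE hD with h3 | h3
    · rcases hA.full j (h1.trans hj1) hjR D hD with h4 | h4
      · left
        intro v hv hvS
        exact h4 v hv (Finset.mem_filter.1 hvS).1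
      · right
        intro v hv hdist
        exact Finset.mem_filter.2 ⟨h4 v hv hdist, h3 hv⟩
    · left
      intro v hv hvS
      exact Set.disjoint_left.1 h3 (Finset.mem_filter.1 hvS).2 hv
  · refine le_trans (Finset.card_le_card (t := {E}) ?_) (by simpa using hm1)
    intro D hD
    obtain ⟨hD1, v, hvD, hvS⟩ := Finset.mem_filter.1 hD
    rw [mem_cns H] at hD1
    rw [Finset.mem_singleton]
    by_contra hne
    exact Set.disjoint_left.1 (cone_disj H hD1 hE hne) hvD (Finset.mem_filter.1 hvS).2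

theorem adm_top {T m : ℕ} (hm : r ≤ m) (hm1 : 1 ≤ m) {o : V} {R : ℕ} {G : Finset V}
    (hG : ∀ v, Δ.dist o v ≤ R + T → v ∈ G) : Adm Δ T m o 0 R (G.erase o) {o} := by
  have ho : ∀ (j : ℕ) (D : Set V), Cone Δ o j D → o ∉ D := by
    intro j D hD hoD
    refine Set.disjoint_left.1 hD.comp.disj hoD ?_
    show Δ.dist o o ≤ j
    simp
  refine ⟨?_, ?_, by simpa using hm1, ?_, ?_⟩
  · rw [Finset.disjoint_singleton_right]
    exact Finset.notMem_erase _ _
  · intro v hv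
    rw [Finset.coe_singleton, Set.mem_singleton_iff] at hv
    subst hv
    exact fun C hC => ho 0 C hC
  · intro j _ hjR D hD
    right
    intro v hv hdist
    refine Finset.mem_erase.2 ⟨?_, hG v (hdist.trans (by omega))⟩
    rintro rfl
    exact ho j D hD hv
  · refine le_trans ?_ hm
    obtain ⟨b, _, _, hb⟩ := exists_bound H
    have hne : ∀ D : Set V, Cone Δ o 0 D → ∃ v ∈ D, v ∈ Δ.neighborFinset o := by
      intro D hD
      obtain ⟨v, hv⟩ := (hb o 0 D hD.comp).2.2.2.2.1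
      rw [iB_sub H hD.comp] at hv
      refine ⟨v, hv.1, ?_⟩
      rw [SimpleGraph.mem_neighborFinset, ← SimpleGraph.dist_eq_one_iff_adj]
      exact hv.2
    haveI : Nonempty V := ⟨o⟩
    choose! g hg1 hg2 using hne
    have hdeg : (Δ.neighborFinset o).card = r := by
      rw [SimpleGraph.card_neighborFinset_eq_degree]
      exact H.reg o
    rw [← hdeg]
    refine Finset.card_le_card_of_injOn g ?_ ?_
    · intro D hD
      have hD' : D ∈ cns Δ o 0 := (Finset.mem_filter.1 (Finset.mem_coe.1 hD)).1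
      exact Finset.mem_coe.2 (hg2 D ((mem_cns H).1 hD'))
    · intro D hD D' hD' heq
      have h1 := (mem_cns H).1 (Finset.mem_filter.1 (Finset.mem_coe.1 hD)).1
      have h2 := (mem_cns H).1 (Finset.mem_filter.1 (Finset.mem_coe.1 hD')).1
      by_contra hne
      have h3 := hg1 D h1
      have h4 := hg1 D' h2
      rw [heq] at h3
      exact Set.disjoint_left.1 (cone_disj H h1 h2 hne) h3 h4

end U

end Pool.Agent.Sand
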