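import Pool.Agent.SandFin.UB

/-! UC: third moment for avalanches. -/

set_option autoImplicit false
set_option linter.unusedSectionVars false
open scoped Classical
open Filter Topology

namespace Pool.Agent.Sand

variable {V : Type} {Δ : SimpleGraph V} [Δ.LocallyFinite]

section U
variable {r : ℕ} {h : ℝ} {D0 : ℕ} (H : Hyp Δ r h D0)

theorem uc_pow3 {a b : ℝ} (ha : 0 ≤ a) (hb : 0 ≤ b) : (a + b) ^ 3 ≤ 4 * (a ^ 3 + b ^ 3) := by
  nlinarith [mul_nonneg (add_nonneg ha hb) (sq_nonneg (a - b))]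

theorem uc_pow4 {a b : ℝ} : (a + b) ^ 4 ≤ 8 * (a ^ 4 + b ^ 4) := by
  have h1 : (a + b) ^ 2 ≤ 2 * (a ^ 2 + b ^ 2) := by nlinarith [sq_nonneg (a - b)]
  have h2 : (a ^ 2 + b ^ 2) ^ 2 ≤ 2 * (a ^ 4 + b ^ 4) := by nlinarith [sq_nonneg (a ^ 2 - b ^ 2)]
  have h3 : ((a + b) ^ 2) ^ 2 ≤ (2 * (a ^ 2 + b ^ 2)) ^ 2 := by
    gcongr
  nlinarith

theorem uc_young {t y : ℝ} (hy : 0 ≤ y) : t ^ 2 * y ^ 3 ≤ t ^ 8 + y ^ 4 := by
  rcases le_total y (t ^ 2) with hle | hle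
  · have h1 : y ^ 3 ≤ (t ^ 2) ^ 3 := by gcongr
    have h2 : t ^ 2 * y ^ 3 ≤ t ^ 2 * (t ^ 2) ^ 3 := by gcongr
    have h3 : 0 ≤ y ^ 4 := by positivity
    nlinarith
  · have h1 : t ^ 2 * y ^ 3 ≤ y * y ^ 3 := by gcongr
    have h3 : 0 ≤ t ^ 8 := by positivity
    nlinarith

theorem uc_sum {τ : ℕ} {Y : ℕ → ℝ} (hY : ∀ i, 0 ≤ Y i) :
    (2 + ∑ i ∈ Finset.range τ, Y i) ^ 3 ≤
      32 + 4 * ((τ : ℝ) ^ 9 + ∑ i ∈ Finset.range τ, Y i ^ 4) := by
  have hS : 0 ≤ ∑ i ∈ Finset.range τ, Y i := Finset.sum_nonneg fun i _ => hY i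
  have h1 := uc_pow3 (a := 2) (by norm_num) hS
  have h2 : (∑ i ∈ Finset.range τ, Y i) ^ 3 ≤ (τ : ℝ) ^ 2 * ∑ i ∈ Finset.range τ, Y i ^ 3 := by
    rcases Nat.eq_zero_or_pos τ with h0 | h0
    · subst h0; simp
    · have := pow_sum_div_card_le_sum_pow (s := Finset.range τ) (f := Y) (fun i _ => hY i) 2
      rw [Finset.card_range, div_le_iff₀ (by positivity)] at this
      simpa [mul_comm] using this
  have h3 : (τ : ℝ) ^ 2 * ∑ i ∈ Finset.range τ, Y i ^ 3 ≤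
      (τ : ℝ) ^ 9 + ∑ i ∈ Finset.range τ, Y i ^ 4 := by
    rw [Finset.mul_sum]
    calc ∑ i ∈ Finset.range τ, (τ : ℝ) ^ 2 * Y i ^ 3
        ≤ ∑ i ∈ Finset.range τ, ((τ : ℝ) ^ 8 + Y i ^ 4) :=
          Finset.sum_le_sum fun i _ => uc_young (hY i)
      _ = (τ : ℝ) ^ 9 + ∑ i ∈ Finset.range τ, Y i ^ 4 := by
          rw [Finset.sum_add_distrib, Finset.sum_const, Finset.card_range, nsmul_eq_mul]; ring
  nlinarith

include H

theorem uc_const (S : Finset V) (c : ℝ) : ex Δ r S (fun _ => c) = c := by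
  unfold ex
  have h0 : (NNr Δ r S : ℝ) ≠ 0 := by
    have := NN_pos H S
    positivity
  rw [Finset.sum_const, nsmul_eq_mul, div_eq_iff h0, mul_comm]
  rfl

/-- the filled balls of radius 0 have bounded size -/
theorem uc_fb0 : ∃ N : ℕ, ∀ o, (fs (fb Δ o 0)).card ≤ N := by
  have := H.inf
  obtain ⟨o₀⟩ : Nonempty V := inferInstance
  obtain ⟨T, hT⟩ := fb_bounds H
  refine ⟨(fs (fb Δ o₀ 0)).card, fun o => ?_⟩
  obtain ⟨φ, rfl⟩ := H.trans o₀ o
  have h1 : fb Δ (φ o₀) 0 ⊆ φ '' (fb Δ o₀ 0) := by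
    intro v hv
    refine ⟨φ.symm v, ?_, by simp⟩
    intro C hC hvC
    exact hv _ (mvf_cone φ hC) ⟨_, hvC, by simp⟩
  calc (fs (fb Δ (φ o₀) 0)).card ≤ ((fs (fb Δ o₀ 0)).image φ).card := by
        apply Finset.card_le_card
        intro v hv
        rw [mem_fs (hT _ _).1] at hv
        obtain ⟨w, hw, rfl⟩ := h1 hv
        exact Finset.mem_image_of_mem _ ((mem_fs (hT _ _).1).2 hw)
    _ ≤ _ := Finset.card_image_le

/-- the base point is in no cone -/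
theorem uc_o {o : V} {R : ℕ} {D : Set V} (hD : Cone Δ o R D) : o ∉ D := by
  intro hoD
  refine Set.disjoint_left.1 hD.comp.disj hoD ?_
  show Δ.dist o o ≤ R
  simp

/-- the part of a wave in a filled ball -/
theorem uc_fb {b : ℕ} (hb : ∀ (o : V) (R : ℕ) (C : Set V), Cone Δ o R C → (core Δ C).card ≤ b)
    {o : V} {S : Finset V} (ho : o ∉ S) {η : V → ℕ} (hη : ∀ v ∈ S, η v ≤ r) (R : ℕ) :
    ((KK Δ r S η {o}).filter (· ∈ fb Δ o R)).card ≤
      (fs (fb Δ o 0)).card + b * ∑ j ∈ Finset.range R, Zc Δ o j (KK Δ r S η {o}) := by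
  obtain ⟨T, hT⟩ := fb_bounds H
  induction R with
  | zero =>
    simp only [Finset.range_zero, Finset.sum_empty, mul_zero, add_zero]
    apply Finset.card_le_card
    intro v hv
    rw [mem_fs (hT _ _).1]
    exact (Finset.mem_filter.1 hv).2
  | succ R ih =>
    rw [Finset.sum_range_succ, mul_add, ← add_assoc]
    have h1 : (KK Δ r S η {o}).filter (· ∈ fb Δ o (R + 1)) ⊆
        (KK Δ r S η {o}).filter (· ∈ fb Δ o R) ∪
          ((cns Δ o R).filter (hits Δ (KK Δ r S η {o}))).biUnion (core Δ) := by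
      intro v hv
      rw [Finset.mem_filter] at hv
      by_cases hvR : v ∈ fb Δ o R
      · exact Finset.mem_union_left _ (Finset.mem_filter.2 ⟨hv.1, hvR⟩)
      · have hex : ∃ C, Cone Δ o R C ∧ v ∈ C := by
          by_contra hcon
          push Not at hcon
          exact hvR hcon
        obtain ⟨C, hC, hvC⟩ := hex
        refine Finset.mem_union_right _ (Finset.mem_biUnion.2 ⟨C, ?_, ?_⟩)
        · rw [Finset.mem_filter]
          refine ⟨(mem_cns H).2 hC, ?_⟩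
          exact (hits_iff H hC hη (Finset.disjoint_singleton_right.2 ho)
            (fun w hw => by rw [Finset.mem_singleton] at hw; rw [hw]; exact uc_o H hC)).1 ⟨v, hvC, hv.1⟩
        · exact (mem_core H hC).2 ⟨hvC, fun D hD => hv.2 D hD⟩
    refine (Finset.card_le_card h1).trans ((Finset.card_union_le _ _).trans ?_)
    refine add_le_add ih ?_
    rw [mul_comm]
    refine Finset.card_biUnion_le_card_mul _ _ _ ?_
    intro C hC
    exact hb o R C ((mem_cns H).1 (Finset.mem_filter.1 hC).1)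

/-- the configurations seen by the waves have heights at most `r` -/
theorem uc_le {G : Finset V} {o : V} {χ : V → ℕ} (hχ : χ ∈ rcr Δ r G) (i : ℕ) (v : V) :
    fire Δ r (G.erase o) (rs (G.erase o) χ) (i • ind {o}) v ≤ r := by
  have h1 := rs_erase_rc H (o := o) hχ
  have h2 := (Finset.mem_filter.1 h1).1
  rw [mem_stab] at h2
  refine fire_stable H.reg (fun v hv => (h2.1 v hv).2) ?_ ?_ v
  · intro v hv
    have : v ≠ o := Finset.ne_of_mem_erase hv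
    simp [ind, this]
  · refine ⟨i, fun v => ?_⟩
    by_cases hv : v = o <;> simp [ind, hv]

/-- the summand -/
noncomputable def ucY (Δ : SimpleGraph V) [Δ.LocallyFinite] (r N b : ℕ) (o : V) (R : ℕ) (S : Finset V)
    (η : V → ℕ) : ℝ :=
  (N : ℝ) + b * ∑ j ∈ Finset.range (R + 1), (Zc Δ o j (KK Δ r S η {o}) : ℝ)

omit H in
theorem ucY_nonneg (N b : ℕ) (o : V) (R : ℕ) (S : Finset V) (η : V → ℕ) :
    0 ≤ ucY Δ r N b o R S η := by
  unfold ucY; positivity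

theorem uc_point {N b : ℕ} (hb1 : 1 ≤ b)
    (hb : ∀ (o : V) (R : ℕ) (C : Set V), Cone Δ o R C → (core Δ C).card ≤ b)
    (hN : ∀ o, (fs (fb Δ o 0)).card ≤ N) {G : Finset V} {o : V} (ho : o ∈ G) {χ : V → ℕ}
    (hχ : χ ∈ rcr Δ r G) (R : ℕ) :
    1 + (((avs Δ r G χ o).filter (· ∈ fb Δ o R)).card : ℝ) + (Zc Δ o R (avs Δ r G χ o) : ℝ) ≤
      2 + ∑ i ∈ Finset.range (avo Δ r G χ o o), ucY Δ r N b o R (G.erase o)
        (fire Δ r (G.erase o) (rs (G.erase o) χ) (i • ind {o})) := by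
  set τ := avo Δ r G χ o o with hτ
  set K : ℕ → Finset V := fun i => KK Δ r (G.erase o)
    (fire Δ r (G.erase o) (rs (G.erase o) χ) (i • ind {o})) {o} with hK
  have hcov : ∀ v ∈ avs Δ r G χ o, v ≠ o → ∃ i ∈ Finset.range τ, v ∈ K i := by
    intro v hv hvo
    have h1 := (Finset.mem_filter.1 hv).2
    rw [avo_waves H ho hχ hvo] at h1
    obtain ⟨i, hi, hne⟩ := Finset.exists_ne_zero_of_sum_ne_zero h1
    refine ⟨i, hi, ?_⟩
    by_contra hcon
    exact hne (by simp only [ind]; exact if_neg hcon)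
  have hA : (((avs Δ r G χ o).filter (· ∈ fb Δ o R)).card : ℝ) ≤
      1 + ∑ i ∈ Finset.range τ, (((K i).filter (· ∈ fb Δ o R)).card : ℝ) := by
    have h1 : (avs Δ r G χ o).filter (· ∈ fb Δ o R) ⊆
        {o} ∪ (Finset.range τ).biUnion fun i => (K i).filter (· ∈ fb Δ o R) := by
      intro v hv
      rw [Finset.mem_filter] at hv
      by_cases hvo : v = o
      · simp [hvo]
      · obtain ⟨i, hi, hvi⟩ := hcov v hv.1 hvo
        exact Finset.mem_union_right _ (Finset.mem_biUnion.2 ⟨i, hi, Finset.mem_filter.2 ⟨hvi, hv.2⟩⟩)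
    have h2 := (Finset.card_le_card h1).trans (Finset.card_union_le _ _)
    have h3 : ((Finset.range τ).biUnion fun i => (K i).filter (· ∈ fb Δ o R)).card ≤
      ∑ i ∈ Finset.range τ, ((K i).filter (· ∈ fb Δ o R)).card := Finset.card_biUnion_le
    rw [Finset.card_singleton] at h2
    have h4 := h2.trans (Nat.add_le_add_left h3 1)
    exact_mod_cast h4
  have hZ : (Zc Δ o R (avs Δ r G χ o) : ℝ) ≤ ∑ i ∈ Finset.range τ, (Zc Δ o R (K i) : ℝ) := by
    have h1 : (cns Δ o R).filter (hits Δ (avs Δ r G χ o)) ⊆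
        (Finset.range τ).biUnion fun i => (cns Δ o R).filter (hits Δ (K i)) := by
      intro D hD
      rw [Finset.mem_filter] at hD
      obtain ⟨v, hv, hvA⟩ := hD.2
      have hvo : v ≠ o := by
        rintro rfl
        exact uc_o H ((mem_cns H).1 hD.1) hv.1
      obtain ⟨i, hi, hvi⟩ := hcov v hvA hvo
      exact Finset.mem_biUnion.2 ⟨i, hi, Finset.mem_filter.2 ⟨hD.1, v, hv, hvi⟩⟩
    have h2 := (Finset.card_le_card h1).trans Finset.card_biUnion_le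
    have h3 : Zc Δ o R (avs Δ r G χ o) ≤ ∑ i ∈ Finset.range τ, Zc Δ o R (K i) := h2
    exact_mod_cast h3
  have hY : ∀ i ∈ Finset.range τ, (((K i).filter (· ∈ fb Δ o R)).card : ℝ) + (Zc Δ o R (K i) : ℝ) ≤
      ucY Δ r N b o R (G.erase o) (fire Δ r (G.erase o) (rs (G.erase o) χ) (i • ind {o})) := by
    intro i _
    have h1 := uc_fb H hb (Finset.notMem_erase o G) (fun v _ => uc_le H (o := o) hχ i v) R
    have h2 : (((K i).filter (· ∈ fb Δ o R)).card : ℝ) ≤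
      N + b * ∑ j ∈ Finset.range R, (Zc Δ o j (K i) : ℝ) := by
      have h3 : ((K i).filter (· ∈ fb Δ o R)).card ≤ N + b * ∑ j ∈ Finset.range R, Zc Δ o j (K i) :=
        h1.trans (Nat.add_le_add_right (hN o) _)
      exact_mod_cast h3
    unfold ucY
    rw [Finset.sum_range_succ, mul_add]
    have h4 : (Zc Δ o R (K i) : ℝ) ≤ b * (Zc Δ o R (K i) : ℝ) := by
      have : (1 : ℝ) ≤ b := by exact_mod_cast hb1
      nlinarith [Nat.cast_nonneg (α := ℝ) (Zc Δ o R (K i))]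
    linarith
  have hsum := Finset.sum_le_sum hY
  rw [Finset.sum_add_distrib] at hsum
  linarith

/-- ninth moment of the number of waves -/
theorem uc_tau : ∃ C : ℝ, 0 < C ∧ ∀ (G : Finset V) (o : V), o ∈ G →
    ex Δ r G (fun χ => (avo Δ r G χ o o : ℝ) ^ 9) ≤ C := by
  obtain ⟨C, ρ, hC, hρ0, hρ1, htail⟩ := u_tail H
  have hs : Summable (fun q : ℕ => (q : ℝ) ^ 9 * ρ ^ q) :=
    summable_pow_mul_geometric_of_norm_lt_one 9 (by rw [Real.norm_of_nonneg hρ0.le]; exact hρ1)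
  refine ⟨C * ∑' q : ℕ, (q : ℝ) ^ 9 * ρ ^ q + 1, ?_, fun G o ho => ?_⟩
  · have : 0 ≤ ∑' q : ℕ, (q : ℝ) ^ 9 * ρ ^ q := tsum_nonneg fun q => by positivity
    positivity
  · set M := (rcr Δ r G).sup (fun χ => avo Δ r G χ o o) with hM
    have h1 : ex Δ r G (fun χ => (avo Δ r G χ o o : ℝ) ^ 9) ≤
        ex Δ r G (fun χ => ∑ q ∈ Finset.range (M + 1),
          (q : ℝ) ^ 9 * (if q ≤ avo Δ r G χ o o then 1 else 0)) := by
      refine ex_mono H G fun χ hχ => ?_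
      have hle : avo Δ r G χ o o ≤ M := Finset.le_sup (f := fun χ => avo Δ r G χ o o) hχ
      have h2 := Finset.single_le_sum (s := Finset.range (M + 1))
        (f := fun q : ℕ => (q : ℝ) ^ 9 * (if q ≤ avo Δ r G χ o o then (1 : ℝ) else 0))
        (fun q _ => by positivity) (Finset.mem_range.2 (Nat.lt_succ_of_le hle))
      simpa using h2
    refine h1.trans ?_
    rw [ex_sum H]
    have h3 : ∀ q ∈ Finset.range (M + 1), ex Δ r G (fun χ =>
        (q : ℝ) ^ 9 * (if q ≤ avo Δ r G χ o o then 1 else 0)) ≤ C * ((q : ℝ) ^ 9 * ρ ^ q) := by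
      intro q _
      have h3' : ex Δ r G (fun χ => if q ≤ avo Δ r G χ o o then (1 : ℝ) else 0) =
          pr Δ r G (fun χ => q ≤ avo Δ r G χ o o) := by
        convert ex_ind H G (fun χ => q ≤ avo Δ r G χ o o)
      rw [ex_mul H, h3']
      have h4 := mul_le_mul_of_nonneg_left (htail G o ho q) (by positivity : (0 : ℝ) ≤ (q : ℝ) ^ 9)
      linarith
    refine (Finset.sum_le_sum h3).trans ?_
    rw [← Finset.mul_sum]
    have h5 := mul_le_mul_of_nonneg_left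
      (Summable.sum_le_tsum (Finset.range (M + 1)) (fun q _ => by positivity) hs) hC.le
    linarith

/-- fourth moment for one wave -/
theorem uc_wave4 (N b : ℕ) : ∃ (C : ℝ) (T : ℕ), 0 < C ∧ ∀ (o : V) (R : ℕ) (G : Finset V),
    (∀ v, Δ.dist o v ≤ R + T → v ∈ G) →
    ex Δ r (G.erase o) (fun η => ucY Δ r N b o R (G.erase o) η ^ 4) ≤ C * ((R : ℝ) + 1) ^ 7 := by
  obtain ⟨C, T, hC, hw⟩ := um_wave H (max r 1) 3
  refine ⟨8 * (N : ℝ) ^ 4 + 8 * (b : ℝ) ^ 4 * C + 1, T, by positivity, fun o R G hG => ?_⟩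
  have h1 : ex Δ r (G.erase o) (fun η => ucY Δ r N b o R (G.erase o) η ^ 4) ≤
      ex Δ r (G.erase o) (fun η => 8 * (N : ℝ) ^ 4 + 8 * (b : ℝ) ^ 4 * ((R : ℝ) + 1) ^ 3 *
        ∑ j ∈ Finset.range (R + 1), (Zc Δ o j (KK Δ r (G.erase o) η {o}) : ℝ) ^ 4) := by
    refine ex_mono H _ fun η _ => ?_
    unfold ucY
    have h2 := uc_pow4 (a := (N : ℝ))
      (b := (b : ℝ) * ∑ j ∈ Finset.range (R + 1), (Zc Δ o j (KK Δ r (G.erase o) η {o}) : ℝ))
    have h3 : (∑ j ∈ Finset.range (R + 1), (Zc Δ o j (KK Δ r (G.erase o) η {o}) : ℝ)) ^ 4 ≤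
        ((R : ℝ) + 1) ^ 3 * ∑ j ∈ Finset.range (R + 1), (Zc Δ o j (KK Δ r (G.erase o) η {o}) : ℝ) ^ 4 := by
      have := pow_sum_div_card_le_sum_pow (s := Finset.range (R + 1))
        (f := fun j => (Zc Δ o j (KK Δ r (G.erase o) η {o}) : ℝ)) (fun i _ => by positivity) 3
      rw [Finset.card_range, div_le_iff₀ (by positivity)] at this
      push_cast at this
      linarith
    have h4 := mul_le_mul_of_nonneg_left h3 (by positivity : (0 : ℝ) ≤ 8 * (b : ℝ) ^ 4)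
    rw [mul_pow] at h2
    nlinarith
  refine h1.trans ?_
  rw [ex_add H, uc_const H, ex_mul H, ex_sum H]
  have h5 : ∀ j ∈ Finset.range (R + 1),
      ex Δ r (G.erase o) (fun η => (Zc Δ o j (KK Δ r (G.erase o) η {o}) : ℝ) ^ 4) ≤
        C * ((R : ℝ) + 1) ^ 3 := by
    intro j hj
    have hj' : j ≤ R := Nat.lt_succ_iff.1 (Finset.mem_range.1 hj)
    have h6 := hw o 0 j (G.erase o) {o} (Nat.zero_le _)
      (adm_top H (le_max_left _ _) (le_max_right _ _) (fun v hv => hG v (by omega)))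
    refine h6.trans ?_
    have : (j : ℝ) ≤ R := by exact_mod_cast hj'
    have h7 : (j : ℝ) - ((0 : ℕ) : ℝ) + 1 ≤ (R : ℝ) + 1 := by simp; exact hj'
    have h8 : (0 : ℝ) ≤ (j : ℝ) - ((0 : ℕ) : ℝ) + 1 := by simp; positivity
    gcongr
  have h9 := Finset.sum_le_sum h5
  rw [Finset.sum_const, Finset.card_range, nsmul_eq_mul] at h9
  push_cast at h9
  have h10 := mul_le_mul_of_nonneg_left h9
    (by positivity : (0 : ℝ) ≤ 8 * (b : ℝ) ^ 4 * ((R : ℝ) + 1) ^ 3)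
  have h11 : (1 : ℝ) ≤ ((R : ℝ) + 1) ^ 7 := one_le_pow₀ (by linarith [Nat.cast_nonneg (α := ℝ) R])
  have h12 : 8 * (N : ℝ) ^ 4 * 1 ≤ 8 * (N : ℝ) ^ 4 * ((R : ℝ) + 1) ^ 7 := by gcongr
  have h13 : 8 * (b : ℝ) ^ 4 * ((R : ℝ) + 1) ^ 3 * (((R : ℝ) + 1) * (C * ((R : ℝ) + 1) ^ 3)) =
      8 * (b : ℝ) ^ 4 * C * ((R : ℝ) + 1) ^ 7 := by ring
  rw [h13] at h10
  nlinarith

theorem um_av : ∃ (C : ℝ) (a : ℕ), 0 < C ∧ ∀ (o : V) (R : ℕ), ∀ᶠ G in (atTop : Filter (Finset V)),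
    ex Δ r G (fun χ => (1 + (((avs Δ r G χ o).filter (· ∈ fb Δ o R)).card : ℝ) +
      (Zc Δ o R (avs Δ r G χ o) : ℝ)) ^ 3) ≤ C * ((R : ℝ) + 1) ^ a := by
  obtain ⟨b, hb1, hb⟩ := core_card H
  obtain ⟨N, hN⟩ := uc_fb0 H
  obtain ⟨C9, hC9, h9⟩ := uc_tau H
  obtain ⟨C4, T, hC4, h4⟩ := uc_wave4 H N b
  obtain ⟨Cg, ρ, hCg, hρ0, hρ1, hg⟩ := gr_decay H
  refine ⟨32 + 4 * (C9 + Cg * C4), 7, by positivity, fun o R => ?_⟩
  filter_upwards [Filter.eventually_ge_atTop (fs (cb Δ o (R + T)))] with G hG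
  have hGT : ∀ v, Δ.dist o v ≤ R + T → v ∈ G := fun v hv =>
    hG ((mem_fs (cb_finite H o (R + T))).2 hv)
  have ho : o ∈ G := hGT o (by simp)
  have h1 : ex Δ r G (fun χ => (1 + (((avs Δ r G χ o).filter (· ∈ fb Δ o R)).card : ℝ) +
      (Zc Δ o R (avs Δ r G χ o) : ℝ)) ^ 3) ≤
      ex Δ r G (fun χ => 32 + 4 * ((avo Δ r G χ o o : ℝ) ^ 9 +
        ∑ i ∈ Finset.range (avo Δ r G χ o o), ucY Δ r N b o R (G.erase o)
          (fire Δ r (G.erase o) (rs (G.erase o) χ) (i • ind {o})) ^ 4)) := by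
    refine ex_mono H G fun χ hχ => ?_
    refine le_trans ?_ (uc_sum (τ := avo Δ r G χ o o)
      (Y := fun i => ucY Δ r N b o R (G.erase o) (fire Δ r (G.erase o) (rs (G.erase o) χ) (i • ind {o})))
      (fun i => ucY_nonneg N b o R _ _))
    have h2 := uc_point H hb1 (fun o R C hC => (hb o R C hC).1) hN ho hχ R
    have h3 : 0 ≤ 1 + (((avs Δ r G χ o).filter (· ∈ fb Δ o R)).card : ℝ) +
      (Zc Δ o R (avs Δ r G χ o) : ℝ) := by positivity
    gcongr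
  refine h1.trans ?_
  rw [ex_add H, uc_const H, ex_mul H, ex_add H]
  have h5 : ex Δ r G (fun χ => ∑ i ∈ Finset.range (avo Δ r G χ o o), ucY Δ r N b o R (G.erase o)
      (fire Δ r (G.erase o) (rs (G.erase o) χ) (i • ind {o})) ^ 4) ≤ Cg * C4 * ((R : ℝ) + 1) ^ 7 := by
    have hNG : (0 : ℝ) < NNr Δ r G := by exact_mod_cast NN_pos H G
    have hNE : (0 : ℝ) < NNr Δ r (G.erase o) := by exact_mod_cast NN_pos H (G.erase o)
    have h6 := wave_sum H ho (fun η => ucY Δ r N b o R (G.erase o) η ^ 4)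
      (fun η => pow_nonneg (ucY_nonneg N b o R _ _) 4)
    have h7 : ex Δ r G (fun χ => ∑ i ∈ Finset.range (avo Δ r G χ o o), ucY Δ r N b o R (G.erase o)
      (fire Δ r (G.erase o) (rs (G.erase o) χ) (i • ind {o})) ^ 4) ≤
      gr Δ r ↑G o o * ex Δ r (G.erase o) (fun η => ucY Δ r N b o R (G.erase o) η ^ 4) := by
      have h8 : gr Δ r ↑G o o = (NNr Δ r (G.erase o) : ℝ) / NNr Δ r G := by
        rw [NN_ratio H G ho]; field_simp
      rw [h8]
      unfold ex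
      rw [div_mul_div_comm, mul_comm (NNr Δ r G : ℝ), mul_div_mul_left _ _ hNE.ne']
      gcongr
    have h8 : gr Δ r ↑G o o ≤ Cg := by simpa using hg ↑G o o
    have h10 : ex Δ r (G.erase o) (fun η => ucY Δ r N b o R (G.erase o) η ^ 4) ≤ C4 * ((R : ℝ) + 1) ^ 7 :=
      h4 o R G hGT
    have h11 : 0 ≤ gr Δ r ↑G o o := gr_nonneg H _ _ _
    have h12 : (0 : ℝ) ≤ C4 * ((R : ℝ) + 1) ^ 7 := by positivity
    calc _ ≤ _ := h7
      _ ≤ gr Δ r ↑G o o * (C4 * ((R : ℝ) + 1) ^ 7) := by gcongr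
      _ ≤ Cg * (C4 * ((R : ℝ) + 1) ^ 7) := by gcongr
      _ = _ := by ring
  have h6 := h9 G o ho
  have h11 : (1 : ℝ) ≤ ((R : ℝ) + 1) ^ 7 := one_le_pow₀ (by linarith [Nat.cast_nonneg (α := ℝ) R])
  have h12 : (32 + 4 * C9) * 1 ≤ (32 + 4 * C9) * ((R : ℝ) + 1) ^ 7 := by gcongr
  nlinarith

end U

end Pool.Agent.Sand
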