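import Pool.Agent.SandFin.UB

/-! Task UD1: coverage. -/

set_option autoImplicit false
set_option linter.unusedSectionVars false
open scoped Classical
open Filter Topology

namespace Pool.Agent.Sand.UD1

open Pool.Agent.Sand

variable {V : Type} {Δ : SimpleGraph V} [Δ.LocallyFinite]

theorem rcr_bd {r : ℕ} {G : Finset V} {χ : V → ℕ} (hχ : χ ∈ rcr Δ r G) {v : V} (hv : v ∈ G) :
    1 ≤ χ v ∧ χ v ≤ r := by
  have h1 := (Finset.mem_filter.1 hχ).1
  exact (mem_stab.1 h1).1 v hv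

theorem rcr_zero {r : ℕ} {G : Finset V} {χ : V → ℕ} (hχ : χ ∈ rcr Δ r G) {v : V} (hv : v ∉ G) :
    χ v = 0 := by
  have h1 := (Finset.mem_filter.1 hχ).1
  exact (mem_stab.1 h1).2 v hv

theorem o_not_mem {o : V} {j : ℕ} {D : Set V} (hD : Cone Δ o j D) : o ∉ D := by
  intro h
  have h1 : o ∈ cb Δ o j := by
    show Δ.dist o o ≤ j
    simp
  exact Set.disjoint_left.1 hD.comp.disj h h1

section U
variable {r : ℕ} {h : ℝ} {D0 : ℕ} (H : Hyp Δ r h D0)
include H

theorem avo_max {o : V} {G : Finset V} (ho : o ∈ G) {χ : V → ℕ} (hχ : χ ∈ rcr Δ r G) {j : ℕ} {D : Set V}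
    (hD : Cone Δ o j D) {ν : ℕ} (hν : ∀ v ∈ oB Δ D, avo Δ r G χ o v ≤ ν) {v : V} (hv : v ∈ D) :
    avo Δ r G χ o v ≤ ν := by
  have hst := avo_stz H ho hχ
  by_cases hvG : v ∈ G
  swap
  · rw [hst.1 v hvG]; exact Nat.zero_le _
  have hoD := o_not_mem hD
  set T := G.filter (· ∈ D) with hT
  have hvT : v ∈ T := Finset.mem_filter.2 ⟨hvG, hv⟩
  have h1 := odo_restrict (Finset.filter_subset (· ∈ D) G) (n := 0) (fun w _ => rfl) hst v hvT
  rw [show avo Δ r G χ o v = odo Δ r G (χ + ind {o}) 0 v from rfl, h1]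
  have h2 : Stz Δ r T (χ + ind {o})
      (fun w => if w ∈ T then 0 else (0 : V → ℕ) w + odo Δ r G (χ + ind {o}) 0 w)
      (fun w => if w ∈ T then ν else 0) := by
    refine ⟨fun w hw => by simp [hw], fun w hw => ?_⟩
    have hwG := (Finset.mem_filter.1 hw).1
    have hwD := (Finset.mem_filter.1 hw).2
    have hwo : w ≠ o := fun h => hoD (h ▸ hwD)
    have h3 : (χ + ind {o}) w ≤ r := by
      simp only [Pi.add_apply, ind, Finset.mem_singleton, hwo, if_false, add_zero]
      exact (rcr_bd hχ hwG).2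
    have h4 : inc Δ w (fun w => if w ∈ T then ν else 0) +
        inc Δ w (fun w => if w ∈ T then 0 else (0 : V → ℕ) w + odo Δ r G (χ + ind {o}) 0 w) ≤ r * ν := by
      unfold inc
      rw [← Finset.sum_add_distrib]
      calc _ ≤ ∑ _x ∈ Δ.neighborFinset w, ν := by
            refine Finset.sum_le_sum fun x hx => ?_
            by_cases hxT : x ∈ T
            · simp [hxT]
            · simp only [hxT, if_false, Pi.zero_apply, zero_add]
              by_cases hxD : x ∈ D
              · have hxG : x ∉ G := fun h => hxT (Finset.mem_filter.2 ⟨h, hxD⟩)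
                have := hst.1 x hxG
                rw [show odo Δ r G (χ + ind {o}) 0 x = avo Δ r G χ o x from rfl, this]
                exact Nat.zero_le _
              · refine hν x ⟨hxD, w, hwD, ?_⟩
                rw [SimpleGraph.mem_neighborFinset] at hx
                exact hx
        _ = r * ν := by
            rw [Finset.sum_const, smul_eq_mul, SimpleGraph.card_neighborFinset_eq_degree, H.reg w]
    have h5 : (fun w => if w ∈ T then ν else 0) w = ν := if_pos hw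
    rw [h5]
    omega
  have h6 := odo_le h2 v
  refine h6.trans ?_
  simp [hvT]

theorem wv_rc {o : V} {G : Finset V} {χ : V → ℕ} (hχ : χ ∈ rcr Δ r G) (i : ℕ) :
    ∀ v ∈ G.erase o, fire Δ r (G.erase o) (rs (G.erase o) χ) (i • ind {o}) v ≤ r := by
  intro v _
  have h1 := rs_erase_rc H (o := o) hχ
  refine fire_stable H.reg (fun w hw => (rcr_bd h1 hw).2) (fun w hw => ?_) ⟨i, fun w => ?_⟩ v
  · have : w ≠ o := (Finset.mem_erase.1 hw).1
    simp [ind, this]
  · simp only [Pi.smul_apply, ind, Finset.mem_singleton, smul_eq_mul]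
    split_ifs <;> simp

theorem dsj (G : Finset V) (o : V) : Disjoint (G.erase o) {o} := by
  rw [Finset.disjoint_singleton_right]
  exact Finset.notMem_erase o G

omit H in
theorem wv_sub (G : Finset V) (χ : V → ℕ) (o : V) (i : ℕ) : wv Δ r G χ o i ⊆ G.erase o :=
  Finset.filter_subset _ _

theorem avo_sum {o : V} {G : Finset V} (ho : o ∈ G) {χ : V → ℕ} (hχ : χ ∈ rcr Δ r G) {v : V}
    (hv : v ≠ o) : avo Δ r G χ o v =
      ∑ i ∈ Finset.range (avo Δ r G χ o o), if v ∈ wv Δ r G χ o i then 1 else 0 :=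
  avo_waves H ho hχ hv

/-- number of waves meeting a cone -/
theorem wave_count {o : V} {G : Finset V} (ho : o ∈ G) {χ : V → ℕ} (hχ : χ ∈ rcr Δ r G) {j : ℕ} {D : Set V}
    (hD : Cone Δ o j D) :
    ((Finset.range (avo Δ r G χ o o)).filter fun i => ∃ v ∈ D, v ∈ wv Δ r G χ o i).card ≤
      ∑ f ∈ fs (oB Δ D), avo Δ r G χ o f := by
  have hoD := o_not_mem hD
  have key : ∀ i, (∃ v ∈ D, v ∈ wv Δ r G χ o i) →
      1 ≤ ∑ f ∈ fs (oB Δ D), if f ∈ wv Δ r G χ o i ∪ {o} then 1 else 0 := by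
    intro i hi
    have h1 := (hits_iff H hD (wv_rc H hχ i) (dsj H G o)
      (fun v hv => by rw [Finset.mem_singleton] at hv; rw [hv]; exact hoD)).1 hi
    obtain ⟨f, hf, hf'⟩ := hits_out H hD (wv_rc H hχ i) (dsj H G o)
      (fun v hv => by rw [Finset.mem_singleton] at hv; rw [hv]; exact hoD) h1
    calc 1 = if f ∈ wv Δ r G χ o i ∪ {o} then 1 else 0 := (if_pos hf').symm
      _ ≤ _ := Finset.single_le_sum (f := fun f => if f ∈ wv Δ r G χ o i ∪ {o} then 1 else 0)
        (fun _ _ => Nat.zero_le _) hf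
  calc _ = ∑ i ∈ (Finset.range (avo Δ r G χ o o)).filter (fun i => ∃ v ∈ D, v ∈ wv Δ r G χ o i), 1 := by
        rw [Finset.card_eq_sum_ones]
    _ ≤ ∑ i ∈ (Finset.range (avo Δ r G χ o o)).filter (fun i => ∃ v ∈ D, v ∈ wv Δ r G χ o i),
          ∑ f ∈ fs (oB Δ D), (if f ∈ wv Δ r G χ o i ∪ {o} then 1 else 0) :=
        Finset.sum_le_sum fun i hi => key i (Finset.mem_filter.1 hi).2
    _ ≤ ∑ i ∈ Finset.range (avo Δ r G χ o o),
          ∑ f ∈ fs (oB Δ D), (if f ∈ wv Δ r G χ o i ∪ {o} then 1 else 0) :=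
        Finset.sum_le_sum_of_subset (Finset.filter_subset _ _)
    _ = ∑ f ∈ fs (oB Δ D), ∑ i ∈ Finset.range (avo Δ r G χ o o),
          (if f ∈ wv Δ r G χ o i ∪ {o} then 1 else 0) := Finset.sum_comm
    _ ≤ ∑ f ∈ fs (oB Δ D), avo Δ r G χ o f := by
        refine Finset.sum_le_sum fun f _ => ?_
        by_cases hfo : f = o
        · subst hfo
          simp
        · rw [avo_sum H ho hχ hfo]
          refine Finset.sum_le_sum fun i _ => ?_
          simp only [Finset.mem_union, Finset.mem_singleton, hfo, or_false]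
          exact le_refl _

/-- if the maximal firing number does not drop from `D` to its child `E`, the waves cover a lot near `D` -/
theorem cover : ∃ c0 : ℝ, 0 < c0 ∧ ∀ (o : V) (G : Finset V), o ∈ G → ∀ χ ∈ rcr Δ r G,
    ∀ (j : ℕ) (D E : Set V), Cone Δ o j D → E ∈ chd Δ D → ∀ (ν t : ℕ),
    (∀ v ∈ oB Δ D, avo Δ r G χ o v ≤ ν) → (∃ v ∈ oB Δ E, avo Δ r G χ o v = ν) →
    c0 * ν - t ≤ ∑ i ∈ Finset.range (avo Δ r G χ o o), Yb Δ r t D (wv Δ r G χ o i) := by
  obtain ⟨c0, hc0, hesc⟩ := escape Δ H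
  refine ⟨c0, hc0, ?_⟩
  intro o G ho χ hχ j D E hD hE ν t hν ⟨v, hvE, hv⟩
  obtain ⟨hE1, hE2⟩ := (mem_chd H hD).1 hE
  have hvD : v ∈ iB Δ D := oB_child H hD hE1 hE2 hvE
  have hoD := o_not_mem hD
  set u := avo Δ r G χ o with hu
  set f : V → ℝ := fun w => (ν : ℝ) - (min (u w) ν : ℕ) with hf
  have hf0 : ∀ w, 0 ≤ f w := by
    intro w
    simp only [hf, sub_nonneg, Nat.cast_le]
    exact min_le_right _ _
  have huD : ∀ w ∈ D, u w ≤ ν := fun w hw => avo_max H ho hχ hD hν hw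
  have hfD : ∀ w, u w ≤ ν → f w = ν - u w := by
    intro w hw
    simp only [hf, min_eq_left hw]
  have hgr : ∀ x ∈ D, ∑ w ∈ Δ.neighborFinset x, f w ≤ r * (f x + 1) := by
    intro x hx
    have h1 := avo_growth H ho hχ x
    have h2 : ∀ w ∈ Δ.neighborFinset x, f w = ν - u w := by
      intro w hw
      apply hfD
      by_cases hwD : w ∈ D
      · exact huD w hwD
      · refine hν w ⟨hwD, x, hx, ?_⟩
        rw [SimpleGraph.mem_neighborFinset] at hw
        exact hw
    rw [Finset.sum_congr rfl h2, Finset.sum_sub_distrib, Finset.sum_const,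
      SimpleGraph.card_neighborFinset_eq_degree, H.reg x, hfD x (huD x hx), nsmul_eq_mul]
    have h3 : ((r * u x : ℕ) : ℝ) ≤ ((inc Δ x u + r : ℕ) : ℝ) := by exact_mod_cast h1
    unfold inc at h3
    push_cast at h3
    linarith
  have hpg := pk_growth H D f hf0 hgr t v
  have hfv : f v = 0 := by
    rw [hfD v (le_of_eq hv), hv, sub_self]
  rw [hfv, zero_add] at hpg
  have hes := hesc o j D hD v hvD t
  have hmain : c0 * ν - t ≤ ∑ y ∈ fs (cb Δ v t), pk Δ r D t v y * (u y : ℝ) := by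
    have h1 : ∑ y ∈ fs (cb Δ v t), pk Δ r D t v y * (u y : ℝ) =
        (∑ y ∈ fs (cb Δ v t), pk Δ r D t v y) * ν - ∑ y ∈ fs (cb Δ v t), pk Δ r D t v y * f y := by
      rw [Finset.sum_mul, ← Finset.sum_sub_distrib]
      refine Finset.sum_congr rfl fun y _ => ?_
      by_cases hyD : y ∈ D
      · rw [hfD y (huD y hyD)]; ring
      · rw [pk_zero_of_not_mem H D t (Or.inr hyD)]; ring
    rw [h1]
    have h2 : c0 * ν ≤ (∑ y ∈ fs (cb Δ v t), pk Δ r D t v y) * ν :=
      mul_le_mul_of_nonneg_right hes (Nat.cast_nonneg _)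
    linarith
  refine hmain.trans ?_
  have h1 : ∑ y ∈ fs (cb Δ v t), pk Δ r D t v y * (u y : ℝ) =
      ∑ i ∈ Finset.range (u o), ∑ y ∈ fs (cb Δ v t),
        pk Δ r D t v y * (if y ∈ wv Δ r G χ o i then 1 else 0) := by
    rw [Finset.sum_comm]
    refine Finset.sum_congr rfl fun y _ => ?_
    rw [← Finset.mul_sum]
    by_cases hyD : y ∈ D
    · have hyo : y ≠ o := fun h => hoD (h ▸ hyD)
      congr 1
      rw [hu, avo_sum H ho hχ hyo]
      push_cast
      rfl
    · rw [pk_zero_of_not_mem H D t (Or.inr hyD)]; simp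
  rw [h1]
  refine Finset.sum_le_sum fun i _ => ?_
  unfold Yb
  obtain ⟨b, _, _, hb⟩ := exists_bound H
  have hfin := (hb o j D hD.comp).1
  refine Finset.single_le_sum (f := fun v => ∑ y ∈ fs (cb Δ v t),
    pk Δ r D t v y * (if y ∈ wv Δ r G χ o i then 1 else 0)) ?_ ((mem_fs hfin).2 hvD)
  intro w _
  refine Finset.sum_nonneg fun y _ => mul_nonneg (pk_nonneg H D t w y) ?_
  split_ifs <;> norm_num

end U

end Pool.Agent.Sand.UD1
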