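import Pool.Agent.SandFin.UD1X

/-! Task UD2: pigeonhole along a path of cones (helper52). -/

set_option autoImplicit false
set_option linter.unusedSectionVars false
open scoped Classical
open Filter Topology

namespace Pool.Agent.Sand.UD2

open Pool.Agent.Sand

variable {V : Type} {Δ : SimpleGraph V} [Δ.LocallyFinite]

section U
variable {r : ℕ} {h : ℝ} {D0 : ℕ} (H : Hyp Δ r h D0)
include H

theorem yb_nonneg (t : ℕ) (D : Set V) (K : Finset V) : 0 ≤ Yb Δ r t D K := by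
  unfold Yb
  refine Finset.sum_nonneg fun v _ => Finset.sum_nonneg fun y _ => mul_nonneg (pk_nonneg H _ _ _ _) ?_
  split_ifs <;> norm_num

theorem yb_zero {t : ℕ} {D : Set V} {K : Finset V} (hK : ∀ v ∈ D, v ∉ K) : Yb Δ r t D K = 0 := by
  unfold Yb
  refine Finset.sum_eq_zero fun v _ => Finset.sum_eq_zero fun y _ => ?_
  split_ifs with hy
  · rw [pk_zero_of_not_mem H D t (Or.inr fun hyD => hK y hyD hy), zero_mul]
  · rw [mul_zero]

omit H in
/-- pigeonhole for a non increasing sequence -/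
theorem pigeon {ν : ℕ → ℕ} {R Q L : ℕ} (hRQ : (Q + 1) * (L + 1) ≤ R)
    (hanti : ∀ i j, i ≤ j → j ≤ R → ν j ≤ ν i) (h0 : ν 0 ≤ Q) : ∃ a, a + L ≤ R ∧ ν (a + L) = ν a := by
  by_contra hcon
  push Not at hcon
  have hlt : ∀ a, a + L ≤ R → ν (a + L) < ν a := fun a ha =>
    lt_of_le_of_ne (hanti a (a + L) (Nat.le_add_right _ _) ha) (hcon a ha)
  have hk : ∀ k, k * L ≤ R → ν (k * L) + k ≤ ν 0 := by
    intro k
    induction k with
    | zero => intro _; simp
    | succ k ih =>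
      intro hk
      have h1 : (k + 1) * L = k * L + L := by ring
      rw [h1] at hk ⊢
      have h2 := ih (by omega)
      have h3 := hlt (k * L) hk
      omega
  have h1 : (Q + 1) * L ≤ R := le_trans (Nat.mul_le_mul_left _ (Nat.le_succ L)) hRQ
  have h2 := hk (Q + 1) h1
  omega

theorem path_bad : ∃ c2 : ℝ, 0 < c2 ∧ ∀ t : ℕ, ∃ q0 : ℕ, ∀ (o : V) (G : Finset V), o ∈ G →
    ∀ χ ∈ rcr Δ r G, ∀ (R Q L : ℕ), 1 ≤ L → (Q + 1) * (L + 1) ≤ R → avo Δ r G χ o o ≤ Q →
    ¬ Qev Δ q0 o R (avo Δ r G χ o) →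
    ∃ a ρ' : ℕ, a ≤ ρ' ∧ ρ' < a + L ∧ ρ' ≤ R ∧ ∃ i < avo Δ r G χ o o, ∃ D' ∈ cns Δ o ρ',
      hits Δ (wv Δ r G χ o i) D' ∧
      c2 * L ≤ ∑ j ∈ Finset.Icc a ρ', Yb Δ r t (anc Δ o j D') (wv Δ r G χ o i) := by
  obtain ⟨b, hb1, -, hb⟩ := exists_bound H
  obtain ⟨c0, hc0, hcov⟩ := cover H
  have hbr : (0 : ℝ) < (b : ℝ) := by exact_mod_cast hb1
  refine ⟨c0 / (2 * b), by positivity, fun t => ⟨⌈2 * (t : ℝ) / c0⌉₊ + 1, ?_⟩⟩
  intro o G ho χ hχ R Q L hL hRQ hQ hnq
  set u := avo Δ r G χ o with hu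
  unfold Qev at hnq
  push Not at hnq
  obtain ⟨DR, hDR, v0, hv0, hq0⟩ := hnq
  have hDRc : Cone Δ o R DR := (mem_cns H).mp hDR
  set Dj : ℕ → Set V := fun j => anc Δ o j DR with hDj
  have hcone : ∀ j, j ≤ R → Cone Δ o j (Dj j) := fun j hj => (anc_cone H hj hDRc).1
  have hsub : ∀ j, j ≤ R → DR ⊆ Dj j := fun j hj => (anc_cone H hj hDRc).2
  have hDRne : DR.Nonempty := hDRc.inf.nonempty
  have hnest : ∀ i j, i ≤ j → j ≤ R → Dj j ⊆ Dj i := by
    intro i j hij hj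
    rcases cone_nested H hij (hcone i (hij.trans hj)) (hcone j hj) with h1 | h1
    · exact h1
    · exfalso
      obtain ⟨x, hx⟩ := hDRne
      exact Set.disjoint_left.mp h1 (hsub i (hij.trans hj) hx) (hsub j hj hx)
  have hDR' : Dj R = DR := anc_eq H le_rfl hDRc hDRc (le_refl _)
  have hfin : ∀ j, j ≤ R → (oB Δ (Dj j)).Finite := fun j hj => (hb o j _ (hcone j hj).comp).2.1
  have hcard : ∀ j, j ≤ R → (fs (oB Δ (Dj j))).card ≤ b := fun j hj => (hb o j _ (hcone j hj).comp).2.2.2.1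
  have hne : ∀ j, j ≤ R → (fs (oB Δ (Dj j))).Nonempty := by
    intro j hj
    obtain ⟨x, hx⟩ := (hb o j _ (hcone j hj).comp).2.2.2.2.2.1
    exact ⟨x, (mem_fs (hfin j hj)).mpr hx⟩
  set ν : ℕ → ℕ := fun j => (fs (oB Δ (Dj j))).sup u with hν
  have ha : ∀ j, j ≤ R → ∀ v ∈ oB Δ (Dj j), u v ≤ ν j := by
    intro j hj v hv
    exact Finset.le_sup (f := u) ((mem_fs (hfin j hj)).mpr hv)
  have hbm : ∀ j, j ≤ R → ∃ v ∈ oB Δ (Dj j), u v = ν j := by
    intro j hj
    obtain ⟨v, hv, he⟩ := Finset.exists_mem_eq_sup (fs (oB Δ (Dj j))) (hne j hj) u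
    exact ⟨v, (mem_fs (hfin j hj)).mp hv, he.symm⟩
  have hstep : ∀ j, j + 1 ≤ R → ν (j + 1) ≤ ν j := by
    intro j hj
    obtain ⟨v, hv, he⟩ := hbm (j + 1) hj
    rw [← he]
    have h1 : v ∈ Dj j := (oB_child H (hcone j (by omega)) (hcone (j + 1) hj)
      (hnest j (j + 1) (by omega) hj) hv).1
    exact avo_max H ho hχ (hcone j (by omega)) (ha j (by omega)) h1
  have hanti : ∀ i j, i ≤ j → j ≤ R → ν j ≤ ν i := by
    intro i j hij
    induction j, hij using Nat.le_induction with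
    | base => intro _; exact le_rfl
    | succ j hij ih => intro hj; exact (hstep j hj).trans (ih (by omega))
  have h0Q : ν 0 ≤ Q := by
    obtain ⟨v, hv, he⟩ := hbm 0 (Nat.zero_le _)
    rw [← he]
    exact (avo_le H ho hχ v).trans hQ
  obtain ⟨a, haR, haν⟩ := pigeon hRQ hanti h0Q
  have hνeq : ∀ j, a ≤ j → j ≤ a + L → ν j = ν a := by
    intro j h1 h2
    have h3 := hanti a j h1 (h2.trans haR)
    have h4 := hanti j (a + L) h2 haR
    omega
  have hνR : ⌈2 * (t : ℝ) / c0⌉₊ + 1 < ν a := by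
    have h1 : u v0 ≤ ν R := ha R le_rfl v0 (by rw [hDR']; exact hv0)
    have h2 := hanti a R (by omega) le_rfl
    omega
  have hνt : 2 * (t : ℝ) / c0 < (ν a : ℝ) := by
    have h1 : 2 * (t : ℝ) / c0 ≤ (⌈2 * (t : ℝ) / c0⌉₊ : ℝ) := Nat.le_ceil _
    have h2 : ((⌈2 * (t : ℝ) / c0⌉₊ : ℕ) : ℝ) + 1 < (ν a : ℝ) := by exact_mod_cast hνR
    linarith
  have hνt' : (t : ℝ) < c0 * (ν a : ℝ) / 2 := by
    rw [div_lt_iff₀ hc0] at hνt
    linarith
  -- coverage near each cone of the block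
  have hcv : ∀ j ∈ Finset.Ico a (a + L), c0 * (ν a : ℝ) - t ≤
      ∑ i ∈ Finset.range (u o), Yb Δ r t (Dj j) (wv Δ r G χ o i) := by
    intro j hj
    rw [Finset.mem_Ico] at hj
    have hjR : j + 1 ≤ R := by omega
    refine hcov o G ho χ hχ j (Dj j) (Dj (j + 1)) (hcone j (by omega)) ?_ (ν a) t ?_ ?_
    · exact (mem_chd H (hcone j (by omega))).mpr ⟨hcone (j + 1) hjR, hnest j (j + 1) (by omega) hjR⟩
    · intro v hv
      rw [← hνeq j hj.1 (by omega)]
      exact ha j (by omega) v hv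
    · obtain ⟨v, hv, he⟩ := hbm (j + 1) hjR
      exact ⟨v, hv, by rw [← hνeq (j + 1) (by omega) (by omega)]; exact he⟩
  have hLr : (0 : ℝ) < (L : ℝ) := by exact_mod_cast hL
  have htot : (L : ℝ) * (c0 * (ν a : ℝ) - t) ≤
      ∑ i ∈ Finset.range (u o), ∑ j ∈ Finset.Ico a (a + L), Yb Δ r t (Dj j) (wv Δ r G χ o i) := by
    rw [Finset.sum_comm]
    refine le_trans ?_ (Finset.sum_le_sum hcv)
    rw [Finset.sum_const, Nat.card_Ico, nsmul_eq_mul]
    have : a + L - a = L := by omega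
    rw [this]
  set I := (Finset.range (u o)).filter (fun i => ∃ v ∈ Dj a, v ∈ wv Δ r G χ o i) with hI
  have hIsum : ∑ i ∈ Finset.range (u o), ∑ j ∈ Finset.Ico a (a + L), Yb Δ r t (Dj j) (wv Δ r G χ o i) =
      ∑ i ∈ I, ∑ j ∈ Finset.Ico a (a + L), Yb Δ r t (Dj j) (wv Δ r G χ o i) := by
    symm
    refine Finset.sum_subset (Finset.filter_subset _ _) fun i hi hiI => ?_
    refine Finset.sum_eq_zero fun j hj => yb_zero H fun v hv hvK => hiI ?_
    rw [Finset.mem_Ico] at hj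
    rw [hI, Finset.mem_filter]
    exact ⟨hi, v, hnest a j hj.1 (by omega) hv, hvK⟩
  have hIcard : (I.card : ℝ) ≤ b * (ν a : ℝ) := by
    have h1 := wave_count H ho hχ (hcone a (by omega))
    have h2 : ∑ f ∈ fs (oB Δ (Dj a)), u f ≤ b * ν a := by
      calc ∑ f ∈ fs (oB Δ (Dj a)), u f ≤ ∑ f ∈ fs (oB Δ (Dj a)), ν a :=
            Finset.sum_le_sum fun f hf => ha a (by omega) f ((mem_fs (hfin a (by omega))).mp hf)
        _ = (fs (oB Δ (Dj a))).card * ν a := by simp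
        _ ≤ b * ν a := Nat.mul_le_mul_right _ (hcard a (by omega))
    have h3 : I.card ≤ b * ν a := h1.trans h2
    exact_mod_cast h3
  have hex : ∃ i ∈ I, c0 / (2 * b) * L ≤ ∑ j ∈ Finset.Ico a (a + L), Yb Δ r t (Dj j) (wv Δ r G χ o i) := by
    by_contra hcon
    push Not at hcon
    have h1 : ∑ i ∈ I, ∑ j ∈ Finset.Ico a (a + L), Yb Δ r t (Dj j) (wv Δ r G χ o i) ≤
        ∑ i ∈ I, c0 / (2 * b) * L := Finset.sum_le_sum fun i hi => (hcon i hi).le
    rw [Finset.sum_const, nsmul_eq_mul] at h1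
    have h2 : (I.card : ℝ) * (c0 / (2 * b) * L) ≤ (b * (ν a : ℝ)) * (c0 / (2 * b) * L) :=
      mul_le_mul_of_nonneg_right hIcard (by positivity)
    have h3 : (b * (ν a : ℝ)) * (c0 / (2 * b) * L) = L * (c0 * (ν a : ℝ) / 2) := by
      field_simp
    rw [hIsum] at htot
    have h4 : (L : ℝ) * (c0 * (ν a : ℝ) / 2) < L * (c0 * (ν a : ℝ) - t) := by
      apply mul_lt_mul_of_pos_left _ hLr
      linarith
    linarith
  obtain ⟨i, hiI, hi⟩ := hex
  have hi' := Finset.mem_filter.mp hiI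
  have hiu : i < u o := Finset.mem_range.mp hi'.1
  set P := (Finset.Ico a (a + L)).filter (fun j => ∃ v ∈ Dj j, v ∈ wv Δ r G χ o i) with hP
  have hPne : P.Nonempty := by
    by_contra hcon
    rw [Finset.not_nonempty_iff_eq_empty] at hcon
    have h1 : ∑ j ∈ Finset.Ico a (a + L), Yb Δ r t (Dj j) (wv Δ r G χ o i) = 0 := by
      refine Finset.sum_eq_zero fun j hj => yb_zero H fun v hv hvK => ?_
      have : j ∈ P := Finset.mem_filter.mpr ⟨hj, v, hv, hvK⟩
      rw [hcon] at this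
      exact absurd this (Finset.notMem_empty j)
    rw [h1] at hi
    have : 0 < c0 / (2 * b) * (L : ℝ) := by positivity
    linarith
  set ρ' := P.max' hPne with hρ'
  have hρP := Finset.mem_filter.mp (P.max'_mem hPne)
  rw [← hρ'] at hρP
  have hρI := Finset.mem_Ico.mp hρP.1
  have hρR : ρ' ≤ R := by omega
  have hD'c := hcone ρ' hρR
  refine ⟨a, ρ', hρI.1, hρI.2, hρR, i, hiu, Dj ρ', (mem_cns H).mpr hD'c, ?_, ?_⟩
  · unfold wv
    have hoD : o ∉ Dj ρ' := fun hoD =>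
      Set.disjoint_left.mp hD'c.comp.disj hoD (by simp [cb])
    have hn0 : ∀ v ∈ G.erase o, (i • ind {o} : V → ℕ) v = 0 := by
      intro v hv
      have := Finset.ne_of_mem_erase hv
      simp [ind, this]
    refine (hits_iff H hD'c (U := {o}) ?_ ?_ ?_).mp ?_
    · intro v _
      refine fire_stable H.reg ?_ hn0 ⟨i, ?_⟩ v
      · intro w hw
        have h1 := (Finset.mem_filter.mp hχ).1
        have h2 := ((mem_stab.mp h1).1 w (Finset.mem_of_mem_erase hw)).2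
        unfold rs
        split_ifs <;> omega
      · intro w
        have : ind ({o} : Finset V) w ≤ 1 := by
          unfold ind; split_ifs <;> omega
        simp only [Pi.smul_apply, smul_eq_mul]
        nlinarith
    · exact Finset.disjoint_singleton_right.mpr (Finset.notMem_erase o G)
    · intro v hv
      rw [Finset.mem_singleton] at hv
      rw [hv]
      exact hoD
    · exact hρP.2
  · have hanc : ∀ j ∈ Finset.Icc a ρ', anc Δ o j (Dj ρ') = Dj j := by
      intro j hj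
      have hj' := (Finset.mem_Icc.mp hj).2
      exact anc_eq H hj' hD'c (hcone j (hj'.trans hρR)) (hnest j ρ' hj' hρR)
    have h1 : ∑ j ∈ Finset.Icc a ρ', Yb Δ r t (anc Δ o j (Dj ρ')) (wv Δ r G χ o i) =
        ∑ j ∈ Finset.Icc a ρ', Yb Δ r t (Dj j) (wv Δ r G χ o i) :=
      Finset.sum_congr rfl fun j hj => by rw [hanc j hj]
    rw [h1]
    refine hi.trans (le_of_eq ?_)
    symm
    refine Finset.sum_subset ?_ ?_
    · intro j hj
      rw [Finset.mem_Icc] at hj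
      rw [Finset.mem_Ico]
      omega
    · intro j hj hjn
      refine yb_zero H fun v hv hvK => hjn ?_
      have hjP : j ∈ P := Finset.mem_filter.mpr ⟨hj, v, hv, hvK⟩
      rw [Finset.mem_Icc]
      exact ⟨(Finset.mem_Ico.mp hj).1, P.le_max' j hjP⟩

end U

end Pool.Agent.Sand.UD2
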