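import Pool.Agent.SandFin.UD2

set_option autoImplicit false

namespace Pool.Agent.Sand
export UD2 (path_bad)
end Pool.Agent.Sand
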