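import Pool.Agent.SandFin.UB

/-! Task UE1: coverage of one wave, mean. -/

set_option autoImplicit false
set_option linter.unusedSectionVars false
open scoped Classical
open Filter Topology

namespace Pool.Agent.Sand.UE1

open Pool.Agent.Sand

variable {V : Type} {Δ : SimpleGraph V} [Δ.LocallyFinite]

section U
variable {r : ℕ} {h : ℝ} {D0 : ℕ} (H : Hyp Δ r h D0)
include H

theorem pk_gr_sum' : ∃ (C ρ : ℝ), 0 < C ∧ 0 < ρ ∧ ρ < 1 ∧ ∀ (S : Set V) (t : ℕ) (v z : V),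
    ∑ x ∈ fs (cb Δ v t), pk Δ r S t v x * gr Δ r S x z ≤ C * ρ ^ t := by
  obtain ⟨ρ, h0, h1, hρ⟩ := exists_rho H
  have hr : 0 ≤ 1 / (r : ℝ) := by positivity
  have h1' : 0 < 1 - ρ := by linarith
  refine ⟨(1 / (r : ℝ)) * (1 - ρ)⁻¹ + 1, ρ, by positivity, h0, h1, ?_⟩
  intro S t v z
  have hs : ∀ x, Summable (fun k => pk Δ r S k x z) := fun x =>
    Summable.of_nonneg_of_le (fun k => pk_nonneg H S k x z) (fun k => hρ S k x z)
      (summable_geometric_of_lt_one h0.le h1)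
  have e1 : ∑ x ∈ fs (cb Δ v t), pk Δ r S t v x * gr Δ r S x z =
      (1 / (r : ℝ)) * ∑' k, pk Δ r S (t + k) v z := by
    have e2 : ∀ x ∈ fs (cb Δ v t), pk Δ r S t v x * gr Δ r S x z =
        (1 / (r : ℝ)) * ∑' k, pk Δ r S t v x * pk Δ r S k x z := by
      intro x _
      unfold gr
      rw [tsum_mul_left]
      ring
    rw [Finset.sum_congr rfl e2, ← Finset.mul_sum]
    congr 1
    rw [← Summable.tsum_finsetSum (fun x _ => (hs x).mul_left _)]
    refine tsum_congr fun k => ?_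
    rw [pk_add H S t k v z]
  rw [e1]
  have e3 : ∑' k, pk Δ r S (t + k) v z ≤ ρ ^ t * (1 - ρ)⁻¹ := by
    have hg : Summable (fun k : ℕ => ρ ^ t * ρ ^ k) :=
      (summable_geometric_of_lt_one h0.le h1).mul_left _
    have hle : ∀ k, pk Δ r S (t + k) v z ≤ ρ ^ t * ρ ^ k := fun k => by
      rw [← pow_add]; exact hρ S (t + k) v z
    have hs' : Summable (fun k => pk Δ r S (t + k) v z) :=
      Summable.of_nonneg_of_le (fun k => pk_nonneg H S _ v z) hle hg
    calc _ ≤ ∑' k : ℕ, ρ ^ t * ρ ^ k := hs'.tsum_le_tsum hle hg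
      _ = ρ ^ t * (1 - ρ)⁻¹ := by rw [tsum_mul_left, tsum_geometric_of_lt_one h0.le h1]
  calc (1 / (r : ℝ)) * ∑' k, pk Δ r S (t + k) v z ≤ (1 / (r : ℝ)) * (ρ ^ t * (1 - ρ)⁻¹) :=
        mul_le_mul_of_nonneg_left e3 hr
    _ = (1 / (r : ℝ)) * (1 - ρ)⁻¹ * ρ ^ t := by ring
    _ ≤ ((1 / (r : ℝ)) * (1 - ρ)⁻¹ + 1) * ρ ^ t := by
        have : 0 ≤ ρ ^ t := by positivity
        nlinarith

theorem yb_mean : ∃ (C ρ : ℝ), 0 < C ∧ 0 < ρ ∧ ρ < 1 ∧ ∀ (o : V) (j : ℕ) (E : Set V), Cone Δ o j E →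
    ∀ S : Finset V, ↑S ⊆ E → ∀ t : ℕ,
    ex Δ r S (fun χ => Yb Δ r t E (KK Δ r S χ (fs (oB Δ E)))) ≤ C * ρ ^ t := by
  obtain ⟨C, ρ, hC, h0, h1, hρ⟩ := pk_gr_sum' H
  obtain ⟨b, hb1, _, hb⟩ := exists_bound H
  refine ⟨(r : ℝ) * b * b * C + 1, ρ, by positivity, h0, h1, ?_⟩
  intro o j E hE S hS t
  obtain ⟨hfi, hfo, hbi, hbo, _, _, _⟩ := hb o j E hE.comp
  have hdis : Disjoint S (fs (oB Δ E)) := by
    rw [Finset.disjoint_left]
    intro x hx hx'
    exact ((mem_fs hfo).1 hx').1 (hS hx)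
  have hpr : ∀ y, pr Δ r S (fun χ => y ∈ KK Δ r S χ (fs (oB Δ E))) ≤
      r * ∑ z ∈ fs (iB Δ E), gr Δ r E y z := by
    intro y
    rw [pr_KK H hdis y, Finset.mul_sum]
    have e1 : ∀ z ∈ S, gr Δ r ↑S y z * (nb Δ z (fs (oB Δ E)) : ℝ) ≤
        if z ∈ fs (iB Δ E) then (r : ℝ) * gr Δ r E y z else 0 := by
      intro z hz
      have hg0 := gr_nonneg H (↑S : Set V) y z
      have hg1 := gr_mono H hS y z
      split_ifs with hzi
      · have hn : (nb Δ z (fs (oB Δ E)) : ℝ) ≤ r := by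
          have h2 : nb Δ z (fs (oB Δ E)) ≤ (Δ.neighborFinset z).card :=
            Finset.card_le_card Finset.inter_subset_left
          rw [SimpleGraph.card_neighborFinset_eq_degree, H.reg z] at h2
          exact_mod_cast h2
        have hr0 : (0 : ℝ) ≤ r := Nat.cast_nonneg _
        calc gr Δ r ↑S y z * (nb Δ z (fs (oB Δ E)) : ℝ) ≤ gr Δ r ↑S y z * r :=
              mul_le_mul_of_nonneg_left hn hg0
          _ ≤ gr Δ r E y z * r := mul_le_mul_of_nonneg_right hg1 hr0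
          _ = r * gr Δ r E y z := mul_comm _ _
      · have hn : nb Δ z (fs (oB Δ E)) = 0 := by
          unfold nb
          rw [Finset.card_eq_zero, Finset.eq_empty_iff_forall_notMem]
          intro w hw
          rw [Finset.mem_inter, SimpleGraph.mem_neighborFinset, mem_fs hfo] at hw
          exact hzi ((mem_fs hfi).2 ⟨hS hz, w, hw.2.1, hw.1⟩)
        rw [hn]
        simp
    refine (Finset.sum_le_sum e1).trans ?_
    rw [← Finset.sum_filter]
    refine Finset.sum_le_sum_of_subset_of_nonneg ?_ ?_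
    · intro z hz
      exact (Finset.mem_filter.1 hz).2
    · intro z _ _
      exact mul_nonneg (Nat.cast_nonneg _) (gr_nonneg H E y z)
  have hex : ex Δ r S (fun χ => Yb Δ r t E (KK Δ r S χ (fs (oB Δ E)))) =
      ∑ v ∈ fs (iB Δ E), ∑ y ∈ fs (cb Δ v t), pk Δ r E t v y *
        pr Δ r S (fun χ => y ∈ KK Δ r S χ (fs (oB Δ E))) := by
    unfold Yb
    rw [ex_sum H]
    refine Finset.sum_congr rfl fun v _ => ?_
    rw [ex_sum H]
    refine Finset.sum_congr rfl fun y _ => ?_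
    rw [ex_mul H, ← ex_ind H]
    congr 2
    funext χ
    by_cases hy : y ∈ KK Δ r S χ (fs (oB Δ E)) <;> simp [hy]
  rw [hex]
  have hr0 : (0 : ℝ) ≤ r := Nat.cast_nonneg _
  calc _ ≤ ∑ v ∈ fs (iB Δ E), ∑ y ∈ fs (cb Δ v t), pk Δ r E t v y *
        (r * ∑ z ∈ fs (iB Δ E), gr Δ r E y z) :=
        Finset.sum_le_sum fun v _ => Finset.sum_le_sum fun y _ =>
          mul_le_mul_of_nonneg_left (hpr y) (pk_nonneg H E t v y)
    _ = ∑ v ∈ fs (iB Δ E), ∑ z ∈ fs (iB Δ E), r * ∑ y ∈ fs (cb Δ v t),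
          pk Δ r E t v y * gr Δ r E y z := by
        refine Finset.sum_congr rfl fun v _ => ?_
        simp_rw [Finset.mul_sum]
        rw [Finset.sum_comm]
        refine Finset.sum_congr rfl fun z _ => Finset.sum_congr rfl fun y _ => ?_
        ring
    _ ≤ ∑ v ∈ fs (iB Δ E), ∑ z ∈ fs (iB Δ E), r * (C * ρ ^ t) :=
        Finset.sum_le_sum fun v _ => Finset.sum_le_sum fun z _ =>
          mul_le_mul_of_nonneg_left (hρ E t v z) hr0
    _ = ((fs (iB Δ E)).card : ℝ) * (((fs (iB Δ E)).card : ℝ) * (r * (C * ρ ^ t))) := by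
        rw [Finset.sum_const, Finset.sum_const, nsmul_eq_mul, nsmul_eq_mul]
    _ ≤ b * (b * (r * (C * ρ ^ t))) := by
        have hbi' : ((fs (iB Δ E)).card : ℝ) ≤ b := by exact_mod_cast hbi
        have : 0 ≤ (r : ℝ) * (C * ρ ^ t) := by positivity
        have hb0 : (0 : ℝ) ≤ b := Nat.cast_nonneg _
        have hc0 : (0 : ℝ) ≤ ((fs (iB Δ E)).card : ℝ) := Nat.cast_nonneg _
        exact mul_le_mul hbi' (mul_le_mul_of_nonneg_right hbi' this) (by positivity) hb0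
    _ ≤ ((r : ℝ) * b * b * C + 1) * ρ ^ t := by
        have : 0 ≤ ρ ^ t := by positivity
        nlinarith

end U

end Pool.Agent.Sand.UE1
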