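import Pool.Agent.SandFin.UE1X

/-! UE2: iterated decoupling (`chain`).  (`UpStubUE2` = the part of `Up.lean` before `chain`.) -/

set_option autoImplicit false
open scoped Classical
open Filter Topology

namespace Pool.Agent.Sand

variable {V : Type} (Δ : SimpleGraph V) [Δ.LocallyFinite]

theorem UE2_of_mem_fs {S : Set V} {v : V} (h : v ∈ fs S) : v ∈ S := by
  unfold fs at h
  split_ifs at h with hf
  · simpa using h
  · simp at h

theorem UE2_stz_rs {r : ℕ} {S : Finset V} {χ n u : V → ℕ} :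
    Stz Δ r S (rs S χ) n u ↔ Stz Δ r S χ n u := by
  unfold Stz
  refine and_congr_right fun _ => forall₂_congr fun v hv => ?_
  simp [rs, hv]

theorem UE2_odo_rs {r : ℕ} {S : Finset V} {χ n : V → ℕ} :
    odo Δ r S (rs S χ) n = odo Δ r S χ n := by
  funext v
  unfold odo
  simp only [UE2_stz_rs]

theorem UE2_KK_rs {r : ℕ} {S U : Finset V} {χ : V → ℕ} :
    KK Δ r S (rs S χ) U = KK Δ r S χ U := by
  unfold KK
  rw [UE2_odo_rs]

theorem UE2_KK_sub {r : ℕ} {S U : Finset V} {χ : V → ℕ} : KK Δ r S χ U ⊆ S :=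
  Finset.filter_subset _ _

theorem UE2_rc_le {r : ℕ} {S : Finset V} {χ : V → ℕ} (hχ : χ ∈ rcr Δ r S) :
    ∀ v ∈ S, χ v ≤ r := by
  intro v hv
  have h1 : χ ∈ stab S (fun _ => r) := (Finset.mem_filter.1 hχ).1
  exact ((mem_stab.1 h1).1 v hv).2

theorem UE2_adm_mono {T T' m m' : ℕ} {o : V} {j0 R R' : ℕ} {S U : Finset V} (hT : T' ≤ T)
    (hm : m ≤ m') (hR : R' ≤ R) (h : Adm Δ T m o j0 R S U) : Adm Δ T' m' o j0 R' S U := by
  refine ⟨h.disj, h.sub, h.card.trans hm, ?_, h.few.trans hm⟩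
  intro j h1 h2 D hD
  rcases h.full j h1 (h2.trans hR) D hD with h3 | h3
  · exact Or.inl h3
  · exact Or.inr fun v hv hd => h3 v hv (by omega)

section U
variable {Δ} {r : ℕ} {h : ℝ} {D0 : ℕ} (H : Hyp Δ r h D0)
include H

theorem UE2_Yb_mono {t : ℕ} {D : Set V} {K K' : Finset V} (hK : ∀ y ∈ D, y ∈ K → y ∈ K') :
    Yb Δ r t D K ≤ Yb Δ r t D K' := by
  unfold Yb
  refine Finset.sum_le_sum fun v _ => Finset.sum_le_sum fun y _ => ?_
  by_cases hy : y ∈ D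
  · refine mul_le_mul_of_nonneg_left ?_ (pk_nonneg H _ _ _ _)
    by_cases h1 : y ∈ K
    · rw [if_pos h1, if_pos (hK y hy h1)]
    · rw [if_neg h1]
      split_ifs <;> norm_num
  · rw [pk_zero_of_not_mem H D t (Or.inr hy)]
    simp

theorem UE2_Yb_nonneg {t : ℕ} {D : Set V} {K : Finset V} : 0 ≤ Yb Δ r t D K := by
  unfold Yb
  refine Finset.sum_nonneg fun v _ => Finset.sum_nonneg fun y _ => ?_
  refine mul_nonneg (pk_nonneg H _ _ _ _) ?_
  split_ifs <;> norm_num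

/-- `Yb` only sees vertices close to the inner boundary -/
theorem UE2_Yb_local {o : V} {j t : ℕ} {D E : Set V} (hD : Cone Δ o j D)
    (hE : Cone Δ o (j + t + 1) E) (K : Finset V) :
    Yb Δ r t D K ≤ Yb Δ r t D (K.filter (· ∉ E)) := by
  unfold Yb
  refine Finset.sum_le_sum fun v hv => Finset.sum_le_sum fun y hy => ?_
  refine mul_le_mul_of_nonneg_left ?_ (pk_nonneg H _ _ _ _)
  have hv' := UE2_of_mem_fs hv
  rw [iB_sub H hD.comp] at hv'
  have hy0 : y ∈ cb Δ v t := UE2_of_mem_fs hy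
  have hy' : Δ.dist v y ≤ t := hy0
  have h1 : Δ.dist o y ≤ j + t + 1 := by
    have := H.conn.dist_triangle (u := o) (v := v) (w := y)
    have := hv'.2
    omega
  have h2 : y ∉ E := by
    intro hyE
    exact Set.disjoint_left.1 hE.comp.disj hyE h1
  by_cases h3 : y ∈ K
  · rw [if_pos h3, if_pos (Finset.mem_filter.2 ⟨h3, h2⟩)]
  · rw [if_neg h3]
    split_ifs <;> norm_num

theorem UE2_U_out {T m : ℕ} {o : V} {j0 j R : ℕ} {S U : Finset V} (hA : Adm Δ T m o j0 R S U)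
    (hj : j0 ≤ j) {E : Set V} (hE : Cone Δ o j E) : ∀ v ∈ U, v ∉ E := by
  intro v hv hvE
  obtain ⟨C, hC, hs⟩ := cone_parent H hj hE
  exact hA.sub hv C hC (hs hvE)

theorem UE2_cone_ne {o : V} {j : ℕ} {E : Set V} (hE : Cone Δ o j E) : (iB Δ E).Nonempty := by
  obtain ⟨b, _, _, hb⟩ := exists_bound H
  exact (hb o j E hE.comp).2.2.2.2.1

theorem UE2_sub_of_mem {o : V} {j R : ℕ} (hj : j ≤ R) {C D : Set V} (hC : Cone Δ o j C)
    (hD : Cone Δ o R D) {v : V} (h1 : v ∈ C) (h2 : v ∈ D) : D ⊆ C := by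
  rcases cone_nested H hj hC hD with h | h
  · exact h
  · exact absurd h2 (Set.disjoint_left.1 h h1)

theorem UE2_anc_sub {o : V} {j j' R : ℕ} (hj : j ≤ j') (hj' : j' ≤ R) {D : Set V}
    (hD : Cone Δ o R D) : anc Δ o j' D ⊆ anc Δ o j D := by
  obtain ⟨h1, h2⟩ := anc_cone H hj' hD
  obtain ⟨h3, h4⟩ := anc_cone H (hj.trans hj') hD
  obtain ⟨v, hv⟩ := hD.inf.nonempty
  exact UE2_sub_of_mem H hj h3 h1 (h4 hv) (h2 hv)

/-- one decoupling step -/
theorem UE2_step : ∃ (C : ℝ) (T : ℕ), 0 < C ∧ ∀ (m : ℕ) (o : V) (j0 j R : ℕ) (S U : Finset V),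
    Adm Δ T m o j0 R S U → j0 ≤ j → j ≤ R → ∀ E : Set V, Cone Δ o j E →
    ∀ (B : Finset V → Prop), (∀ K K' : Finset V, K ⊆ K' → B K → B K') →
    ∀ P Q : (V → ℕ) → Prop,
    (∀ χ ∈ rcr Δ r S, Q χ → (∃ v ∈ E, v ∈ KK Δ r S χ U) ∧
      B ((KK Δ r S χ U).filter (· ∉ E)) ∧ P (rs (S.filter (· ∈ E)) χ)) →
    pr Δ r S Q ≤ C * pr Δ r S (fun χ => B (KK Δ r S χ U) ∧ fs (iB Δ E) ⊆ KK Δ r S χ U) *
      pr Δ r (S.filter (· ∈ E)) P := by
  obtain ⟨C, T, hC, hdl⟩ := dl H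
  refine ⟨C, T, hC, ?_⟩
  intro m o j0 j R S U hA h1 h2 E hE B hB P Q hQ
  rcases hA.full j h1 h2 E hE with h3 | h3
  · have h4 : pr Δ r S Q ≤ 0 := by
      have : pr Δ r S Q ≤ pr Δ r S (fun _ => False) := by
        refine pr_mono H S fun χ hχ hq => ?_
        obtain ⟨⟨v, hv, hvK⟩, _⟩ := hQ χ hχ hq
        exact h3 v hv (UE2_KK_sub Δ hvK)
      refine this.trans ?_
      unfold pr
      simp
    refine h4.trans ?_
    exact mul_nonneg (mul_nonneg hC.le (pr_nonneg H _ _)) (pr_nonneg H _ _)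
  · have hUE := UE2_U_out H hA h1 hE
    have h5 := hdl o j E hE S U hA.disj h3 (fun v hv hvU => hUE v hvU hv) B hB P
    refine le_trans ?_ (h5.trans ?_)
    · refine pr_mono H S fun χ hχ hq => ?_
      obtain ⟨hv, hB', hP⟩ := hQ χ hχ hq
      refine ⟨hB', ?_, hP⟩
      have hle := UE2_rc_le Δ hχ
      exact hits_out H hE hle hA.disj hUE ((hits_iff H hE hle hA.disj hUE).1 hv)
    · refine mul_le_mul_of_nonneg_right ?_ (pr_nonneg H _ _)
      refine mul_le_mul_of_nonneg_left ?_ hC.le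
      refine pr_mono H S fun χ _ hq => ⟨?_, hq.2⟩
      exact hB _ _ (Finset.filter_subset _ _) hq.1

/-- sum over cones of probabilities of being reached -/
theorem UE2_sum_hits (o : V) (j : ℕ) (S : Finset V) (F : (V → ℕ) → Prop) (K : (V → ℕ) → Finset V) :
    ∑ D ∈ cns Δ o j, pr Δ r S (fun χ => F χ ∧ hits Δ (K χ) D) =
      ex Δ r S (fun χ => (if F χ then 1 else 0) * (Zc Δ o j (K χ) : ℝ)) := by
  have h1 : ∀ D, pr Δ r S (fun χ => F χ ∧ hits Δ (K χ) D) =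
      ex Δ r S (fun χ => (if F χ then 1 else 0) * (if hits Δ (K χ) D then 1 else 0)) := by
    intro D
    rw [← ex_ind H]
    congr 1
    funext χ
    by_cases h1 : F χ <;> by_cases h2 : hits Δ (K χ) D <;> simp [h1, h2]
  rw [Finset.sum_congr rfl fun D _ => h1 D, ← ex_sum H]
  congr 1
  funext χ
  rw [← Finset.mul_sum]
  congr 1
  unfold Zc
  rw [Finset.sum_boole]

theorem UE2_fiber (o : V) {j R : ℕ} (hj : j ≤ R) (f : Set V → ℝ) :
    ∑ D ∈ cns Δ o R, f D =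
      ∑ E ∈ cns Δ o j, ∑ D ∈ (cns Δ o R).filter (fun D => anc Δ o j D = E), f D := by
  refine (Finset.sum_fiberwise_of_maps_to ?_ f).symm
  intro D hD
  rw [mem_cns H] at hD ⊢
  exact (anc_cone H hj hD).1

/-- second step: the first coverage event -/
theorem UE2_first (m : ℕ) {c : ℝ} (hc : 0 < c) : ∃ (A ρ : ℝ) (T : ℕ), 0 < A ∧ 0 < ρ ∧ ρ < 1 ∧
    ∀ t : ℕ, 1 ≤ t → ∀ (o : V) (j0 j R : ℕ) (S U : Finset V), Adm Δ T m o j0 R S U →
    j0 ≤ j → j + t + 1 ≤ R →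
    ∑ E ∈ cns Δ o (j + t + 1), pr Δ r S (fun χ => c ≤ Yb Δ r t (anc Δ o j E) (KK Δ r S χ U) ∧
      fs (iB Δ E) ⊆ KK Δ r S χ U) ≤ A * (t + 1) * ρ ^ t := by
  obtain ⟨b, hb1, hrb, hb⟩ := exists_bound H
  obtain ⟨C1, T1, hC1, hstep⟩ := UE2_step H
  obtain ⟨Z0, T2, hZ0, hum0⟩ := um_wave H (max m b) 0
  obtain ⟨Z1, T3, hZ1, hum1⟩ := um_wave H (max m b) 1
  obtain ⟨Y, ρ, hY, hρ, hρ1, hyb⟩ := yb_mean H
  refine ⟨C1 * Z0 * (2 * Z1 + Y / c), Real.sqrt ρ, max T1 (max T2 T3), by positivity,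
    Real.sqrt_pos.2 hρ, ?_, ?_⟩
  · rw [Real.sqrt_lt' one_pos]; simpa using hρ1
  intro t ht o j0 j R S U hA0 h1 h2
  have hA : Adm Δ (max T1 (max T2 T3)) (max m b) o j0 R S U :=
    UE2_adm_mono Δ le_rfl (le_max_left _ _) le_rfl hA0
  have hbm : ∀ (o : V) (R : ℕ) (C : Set V), Cone Δ o R C → (fs (oB Δ C)).card ≤ max m b :=
    fun o R C hC => (hb o R C hC.comp).2.2.2.1.trans (le_max_right _ _)
  have hm1 : 1 ≤ max m b := hb1.trans (le_max_right _ _)
  set K : (V → ℕ) → Finset V := fun χ => KK Δ r S χ U with hK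
  rw [UE2_fiber H o (show j ≤ j + t + 1 by omega)]
  -- bound for one parent
  have hone : ∀ E1 ∈ cns Δ o j, ∑ E ∈ (cns Δ o (j + t + 1)).filter (fun D => anc Δ o j D = E1),
      pr Δ r S (fun χ => c ≤ Yb Δ r t (anc Δ o j E) (KK Δ r S χ U) ∧
        fs (iB Δ E) ⊆ KK Δ r S χ U) ≤
      C1 * pr Δ r S (fun χ => True ∧ fs (iB Δ E1) ⊆ KK Δ r S χ U) *
        ((2 * Z1 + Y / c) * (t + 1) * Real.sqrt ρ ^ t) := by
    intro E1 hE1
    rw [mem_cns H] at hE1
    set S1 := S.filter (· ∈ E1) with hS1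
    set K1 : (V → ℕ) → Finset V := fun η => KK Δ r S1 η (fs (oB Δ E1)) with hK1
    have hterm : ∀ E ∈ (cns Δ o (j + t + 1)).filter (fun D => anc Δ o j D = E1),
        pr Δ r S (fun χ => c ≤ Yb Δ r t (anc Δ o j E) (KK Δ r S χ U) ∧
          fs (iB Δ E) ⊆ KK Δ r S χ U) ≤
        C1 * pr Δ r S (fun χ => True ∧ fs (iB Δ E1) ⊆ KK Δ r S χ U) *
          pr Δ r S1 (fun η => c ≤ Yb Δ r t E1 (K1 η) ∧ hits Δ (K1 η) E) := by
      intro E hE
      rw [Finset.mem_filter, mem_cns H] at hE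
      obtain ⟨hE, hanc⟩ := hE
      have hEsub : E ⊆ E1 := by
        rw [← hanc]; exact (anc_cone H (by omega) hE).2
      rw [hanc]
      refine hstep (max m b) o j0 j R S U
        (UE2_adm_mono Δ (le_max_left _ _) le_rfl le_rfl hA) h1 (by omega) E1 hE1
        (fun _ => True) (fun _ _ _ _ => trivial) _ _ ?_
      rintro χ hχ ⟨hc1, hi⟩
      have hle := UE2_rc_le Δ hχ
      have hUE := UE2_U_out H hA h1 hE1
      obtain ⟨x, hx⟩ := UE2_cone_ne H hE
      have hxfs : x ∈ fs (iB Δ E) := (mem_fs (hb o _ E hE.comp).1).2 hx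
      have hxK := hi hxfs
      have hxE1 : x ∈ E1 := hEsub hx.1
      refine ⟨⟨x, hxE1, hxK⟩, trivial, ?_, ?_⟩
      · refine hc1.trans (UE2_Yb_mono H fun y hy hyK => ?_)
        simp only [hK1]
        rw [UE2_KK_rs]
        exact wave_in H hE1 hle hA.disj hUE hy hyK
      · refine ⟨x, hx, ?_⟩
        simp only [hK1]
        rw [UE2_KK_rs]
        exact wave_in H hE1 hle hA.disj hUE hxE1 hxK
    refine (Finset.sum_le_sum hterm).trans ?_
    rw [← Finset.mul_sum]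
    refine mul_le_mul_of_nonneg_left ?_ (mul_nonneg hC1.le (pr_nonneg H _ _))
    have h3 : ∑ E ∈ (cns Δ o (j + t + 1)).filter (fun D => anc Δ o j D = E1),
        pr Δ r S1 (fun η => c ≤ Yb Δ r t E1 (K1 η) ∧ hits Δ (K1 η) E) ≤
        ∑ E ∈ cns Δ o (j + t + 1),
          pr Δ r S1 (fun η => c ≤ Yb Δ r t E1 (K1 η) ∧ hits Δ (K1 η) E) :=
      Finset.sum_le_sum_of_subset_of_nonneg (Finset.filter_subset _ _)
        fun _ _ _ => pr_nonneg H _ _
    refine h3.trans ?_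
    rw [UE2_sum_hits H]
    have hA1 : Adm Δ T3 (max m b) o j (j + t + 1) S1 (fs (oB Δ E1)) :=
      UE2_adm_mono Δ ((le_max_right _ _).trans (le_max_right _ _)) le_rfl h2
        (adm_cone H hbm hm1 h1 (by omega) hA hE1)
    have h4 := hum1 o j (j + t + 1) S1 (fs (oB Δ E1)) (by omega) hA1
    have h5 := hyb o j E1 hE1 S1 (by
      intro x hx
      exact (Finset.mem_filter.1 (Finset.mem_coe.1 hx)).2) t
    have h6 := markov H S1 (fun η => Yb Δ r t E1 (K1 η)) (fun η _ => UE2_Yb_nonneg H) hc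
    set s := Real.sqrt ρ with hs
    have hs0 : 0 < s := Real.sqrt_pos.2 hρ
    have hs2 : s * s = ρ := Real.mul_self_sqrt hρ.le
    have hst : 0 < s ^ t := pow_pos hs0 t
    have h7 : ex Δ r S1 (fun χ => (if c ≤ Yb Δ r t E1 (K1 χ) then 1 else 0) *
        (Zc Δ o (j + t + 1) (K1 χ) : ℝ)) ≤
        ex Δ r S1 (fun χ => s ^ t * (Zc Δ o (j + t + 1) (K1 χ) : ℝ) ^ (1 + 1) +
          (s ^ t)⁻¹ * (if c ≤ Yb Δ r t E1 (K1 χ) then 1 else 0)) := by
      refine ex_mono H _ fun χ _ => ?_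
      set z := (Zc Δ o (j + t + 1) (K1 χ) : ℝ) with hz
      have hz0 : 0 ≤ z := Nat.cast_nonneg _
      split_ifs with hcc
      · have e1 : (s ^ t)⁻¹ * (s ^ t) = 1 := inv_mul_cancel₀ hst.ne'
        have e2 : 0 < (s ^ t)⁻¹ := inv_pos.2 hst
        have e3 : s ^ t * z ^ (1 + 1) + (s ^ t)⁻¹ * 1 - 1 * z =
            (s ^ t)⁻¹ * ((s ^ t * z - 1 / 2) ^ 2 + 3 / 4) := by
          have e4 : (s ^ t)⁻¹ * ((s ^ t * z - 1 / 2) ^ 2 + 3 / 4) =
            ((s ^ t)⁻¹ * s ^ t) * (s ^ t * z ^ 2) - ((s ^ t)⁻¹ * s ^ t) * z + (s ^ t)⁻¹ := by ring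
          rw [e4, e1]; ring
        have e5 : 0 ≤ (s ^ t)⁻¹ * ((s ^ t * z - 1 / 2) ^ 2 + 3 / 4) := by positivity
        linarith
      · have : 0 ≤ s ^ t * z ^ (1 + 1) := by positivity
        simpa using this
    refine h7.trans ?_
    rw [ex_add H, ex_mul H, ex_mul H, ex_ind H]
    have h8 : pr Δ r S1 (fun χ => c ≤ Yb Δ r t E1 (K1 χ)) ≤ Y * ρ ^ t / c :=
      h6.trans (div_le_div_of_nonneg_right h5 hc.le)
    have h9 : (s ^ t)⁻¹ * pr Δ r S1 (fun χ => c ≤ Yb Δ r t E1 (K1 χ)) ≤ Y / c * s ^ t := by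
      refine (mul_le_mul_of_nonneg_left h8 (inv_pos.2 hst).le).trans (le_of_eq ?_)
      rw [← hs2, mul_pow]
      field_simp
    have h10 : s ^ t * ex Δ r S1 (fun χ => (Zc Δ o (j + t + 1) (K1 χ) : ℝ) ^ (1 + 1)) ≤
        s ^ t * (Z1 * (2 * (t + 1))) := by
      refine mul_le_mul_of_nonneg_left (h4.trans ?_) hst.le
      refine mul_le_mul_of_nonneg_left ?_ hZ1.le
      push_cast
      rw [pow_one]
      have : (0 : ℝ) ≤ t := Nat.cast_nonneg t
      linarith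
    have h11 : Y / c * s ^ t ≤ Y / c * (t + 1) * s ^ t := by
      refine mul_le_mul_of_nonneg_right ?_ hst.le
      have h0 : 0 ≤ Y / c := (div_pos hY hc).le
      have : (0 : ℝ) ≤ t := Nat.cast_nonneg t
      nlinarith
    calc _ ≤ s ^ t * (Z1 * (2 * (t + 1))) + Y / c * (t + 1) * s ^ t := by linarith
      _ = _ := by ring
  refine (Finset.sum_le_sum hone).trans ?_
  rw [← Finset.sum_mul, ← Finset.mul_sum]
  have hA2 : Adm Δ T2 (max m b) o j0 j S U :=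
    UE2_adm_mono Δ ((le_max_left _ _).trans (le_max_right _ _)) le_rfl (by omega) hA
  have h12 : ∑ E1 ∈ cns Δ o j, pr Δ r S (fun χ => True ∧ fs (iB Δ E1) ⊆ KK Δ r S χ U) ≤ Z0 := by
    have h13 : ∑ E1 ∈ cns Δ o j, pr Δ r S (fun χ => True ∧ fs (iB Δ E1) ⊆ KK Δ r S χ U) ≤
        ∑ E1 ∈ cns Δ o j, pr Δ r S (fun χ => True ∧ hits Δ (KK Δ r S χ U) E1) := by
      refine Finset.sum_le_sum fun E hE => ?_
      rw [mem_cns H] at hE
      refine pr_mono H S fun χ _ hq => ⟨trivial, ?_⟩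
      obtain ⟨x, hx⟩ := UE2_cone_ne H hE
      exact ⟨x, hx, hq.2 ((mem_fs (hb o _ E hE.comp).1).2 hx)⟩
    refine h13.trans ?_
    rw [UE2_sum_hits H]
    have h14 := hum0 o j0 j S U h1 hA2
    simp only [pow_zero, mul_one, zero_add, pow_one] at h14
    refine le_trans (le_of_eq ?_) h14
    congr 1
    funext χ
    simp
  have h15 : 0 ≤ (2 * Z1 + Y / c) * (t + 1) * Real.sqrt ρ ^ t := by positivity
  calc _ ≤ C1 * Z0 * ((2 * Z1 + Y / c) * (t + 1) * Real.sqrt ρ ^ t) :=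
        mul_le_mul_of_nonneg_right (mul_le_mul_of_nonneg_left h12 hC1.le) h15
    _ = _ := by ring

theorem chain (m : ℕ) {c : ℝ} (hc : 0 < c) : ∃ (A ρ : ℝ) (T : ℕ), 1 ≤ A ∧ 0 < ρ ∧ ρ < 1 ∧ ∀ t : ℕ, 1 ≤ t →
    ∀ (o : V) (j0 R : ℕ) (S U : Finset V), Adm Δ T m o j0 R S U → ∀ J : Finset ℕ,
    (∀ j ∈ J, j0 ≤ j ∧ j + t + 1 ≤ R) → (∀ j ∈ J, ∀ j' ∈ J, j < j' → j + t + 1 ≤ j') → j0 ≤ R →
    ∑ D ∈ cns Δ o R, pr Δ r S (fun χ => hits Δ (KK Δ r S χ U) D ∧
      ∀ j ∈ J, c ≤ Yb Δ r t (anc Δ o j D) (KK Δ r S χ U)) ≤ A * (A * (t + 1) * ρ ^ t) ^ J.card := by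
  obtain ⟨b, hb1, hrb, hb⟩ := exists_bound H
  obtain ⟨C1, T1, hC1, hstep⟩ := UE2_step H
  obtain ⟨Z0, T2, hZ0, hum0⟩ := um_wave H (max m b) 0
  obtain ⟨A3, ρ, T3, hA3, hρ, hρ1, hfirst⟩ := UE2_first H (max m b) hc
  refine ⟨max (max 1 Z0) (C1 * A3), ρ, max T1 (max T2 T3),
    (le_max_left _ _).trans (le_max_left _ _), hρ, hρ1, ?_⟩
  intro t ht o j0 R S U hA0 J hJ1 hJ2 hR
  set A := max (max 1 Z0) (C1 * A3) with hAdef
  have hA1 : 1 ≤ A := (le_max_left _ _).trans (le_max_left _ _)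
  have hAZ : Z0 ≤ A := (le_max_right _ _).trans (le_max_left _ _)
  have hAC : C1 * A3 ≤ A := le_max_right _ _
  have hApos : 0 < A := one_pos.trans_le hA1
  have hA : Adm Δ (max T1 (max T2 T3)) (max m b) o j0 R S U :=
    UE2_adm_mono Δ le_rfl (le_max_left _ _) le_rfl hA0
  have hbm : ∀ (o : V) (R : ℕ) (C : Set V), Cone Δ o R C → (fs (oB Δ C)).card ≤ max m b :=
    fun o R C hC => (hb o R C hC.comp).2.2.2.1.trans (le_max_right _ _)
  have hm1 : 1 ≤ max m b := hb1.trans (le_max_right _ _)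
  have hκ : 0 < A * (t + 1) * ρ ^ t := by positivity
  clear hA0
  induction hn : J.card generalizing J j0 S U with
  | zero =>
    have hJ : J = ∅ := Finset.card_eq_zero.1 hn
    subst hJ
    have h1 : ∑ D ∈ cns Δ o R, pr Δ r S (fun χ => hits Δ (KK Δ r S χ U) D ∧
        ∀ j ∈ (∅ : Finset ℕ), c ≤ Yb Δ r t (anc Δ o j D) (KK Δ r S χ U)) =
        ∑ D ∈ cns Δ o R, pr Δ r S (fun χ => True ∧ hits Δ (KK Δ r S χ U) D) := by
      refine Finset.sum_congr rfl fun D _ => ?_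
      congr 1
      funext χ
      simp
    rw [h1, UE2_sum_hits H]
    have h14 := hum0 o j0 R S U hR
      (UE2_adm_mono Δ ((le_max_left _ _).trans (le_max_right _ _)) le_rfl le_rfl hA)
    simp only [pow_zero, mul_one, zero_add, pow_one] at h14 ⊢
    refine le_trans (le_of_eq ?_) (h14.trans hAZ)
    congr 1
    funext χ
    simp
  | succ n ih =>
    have hne : J.Nonempty := by
      rw [← Finset.card_pos]; omega
    set j1 := J.min' hne with hj1
    have hj1J : j1 ∈ J := Finset.min'_mem _ _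
    set J' := J.erase j1 with hJ'
    have hJ'c : J'.card = n := by
      rw [hJ', Finset.card_erase_of_mem hj1J, hn]; rfl
    obtain ⟨h1, h2⟩ := hJ1 j1 hj1J
    have hJ'lt : ∀ j ∈ J', j1 + t + 1 ≤ j := by
      intro j hj
      have hjJ := Finset.mem_of_mem_erase hj
      have : j1 ≤ j := Finset.min'_le _ _ hjJ
      have hne' : j ≠ j1 := Finset.ne_of_mem_erase hj
      exact hJ2 j1 hj1J j hjJ (by omega)
    rw [UE2_fiber H o h2]
    have hone : ∀ E ∈ cns Δ o (j1 + t + 1),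
        ∑ D ∈ (cns Δ o R).filter (fun D => anc Δ o (j1 + t + 1) D = E),
          pr Δ r S (fun χ => hits Δ (KK Δ r S χ U) D ∧
            ∀ j ∈ J, c ≤ Yb Δ r t (anc Δ o j D) (KK Δ r S χ U)) ≤
        C1 * pr Δ r S (fun χ => c ≤ Yb Δ r t (anc Δ o j1 E) (KK Δ r S χ U) ∧
          fs (iB Δ E) ⊆ KK Δ r S χ U) * (A * (A * (t + 1) * ρ ^ t) ^ n) := by
      intro E hE
      rw [mem_cns H] at hE
      set S1 := S.filter (· ∈ E) with hS1
      set K1 : (V → ℕ) → Finset V := fun η => KK Δ r S1 η (fs (oB Δ E)) with hK1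
      have hE1 := anc_cone H (show j1 ≤ j1 + t + 1 by omega) hE
      have hterm : ∀ D ∈ (cns Δ o R).filter (fun D => anc Δ o (j1 + t + 1) D = E),
          pr Δ r S (fun χ => hits Δ (KK Δ r S χ U) D ∧
            ∀ j ∈ J, c ≤ Yb Δ r t (anc Δ o j D) (KK Δ r S χ U)) ≤
          C1 * pr Δ r S (fun χ => c ≤ Yb Δ r t (anc Δ o j1 E) (KK Δ r S χ U) ∧
            fs (iB Δ E) ⊆ KK Δ r S χ U) *
          pr Δ r S1 (fun η => hits Δ (K1 η) D ∧
            ∀ j ∈ J', c ≤ Yb Δ r t (anc Δ o j D) (K1 η)) := by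
        intro D hD
        rw [Finset.mem_filter, mem_cns H] at hD
        obtain ⟨hD, hanc⟩ := hD
        have hDsub : D ⊆ E := by
          rw [← hanc]; exact (anc_cone H h2 hD).2
        have hanc1 : anc Δ o j1 D = anc Δ o j1 E :=
          anc_eq H (by omega) hD hE1.1 (hDsub.trans hE1.2)
        refine hstep (max m b) o j0 (j1 + t + 1) R S U
          (UE2_adm_mono Δ (le_max_left _ _) le_rfl le_rfl hA) (by omega) h2 E hE
          (fun X => c ≤ Yb Δ r t (anc Δ o j1 E) X)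
          (fun K K' hKK hc1 => hc1.trans (UE2_Yb_mono H fun y _ hy => hKK hy)) _ _ ?_
        rintro χ hχ ⟨hh, hall⟩
        have hle := UE2_rc_le Δ hχ
        have hUE := UE2_U_out H hA (show j0 ≤ j1 + t + 1 by omega) hE
        obtain ⟨x, hx, hxK⟩ := hh
        have hxE : x ∈ E := hDsub hx.1
        refine ⟨⟨x, hxE, hxK⟩, ?_, ⟨x, hx, ?_⟩, ?_⟩
        · have h3 := hall j1 hj1J
          rw [hanc1] at h3
          exact h3.trans (UE2_Yb_local H hE1.1 hE _)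
        · simp only [hK1]
          rw [UE2_KK_rs]
          exact wave_in H hE hle hA.disj hUE hxE hxK
        · intro j hj
          have hjJ := Finset.mem_of_mem_erase hj
          have hjR : j ≤ R := by have := (hJ1 j hjJ).2; omega
          refine (hall j hjJ).trans (UE2_Yb_mono H fun y hy hyK => ?_)
          simp only [hK1]
          rw [UE2_KK_rs]
          refine wave_in H hE hle hA.disj hUE ?_ hyK
          have := UE2_anc_sub H (hJ'lt j hj) hjR hD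
          rw [hanc] at this
          exact this hy
      refine (Finset.sum_le_sum hterm).trans ?_
      rw [← Finset.mul_sum]
      refine mul_le_mul_of_nonneg_left ?_ (mul_nonneg hC1.le (pr_nonneg H _ _))
      have h3 : ∑ D ∈ (cns Δ o R).filter (fun D => anc Δ o (j1 + t + 1) D = E),
          pr Δ r S1 (fun η => hits Δ (K1 η) D ∧
            ∀ j ∈ J', c ≤ Yb Δ r t (anc Δ o j D) (K1 η)) ≤
          ∑ D ∈ cns Δ o R, pr Δ r S1 (fun η => hits Δ (K1 η) D ∧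
            ∀ j ∈ J', c ≤ Yb Δ r t (anc Δ o j D) (K1 η)) :=
        Finset.sum_le_sum_of_subset_of_nonneg (Finset.filter_subset _ _)
          fun _ _ _ => pr_nonneg H _ _
      refine h3.trans ?_
      exact ih (j1 + t + 1) S1 (fs (oB Δ E)) J'
        (fun j hj => ⟨hJ'lt j hj, (hJ1 j (Finset.mem_of_mem_erase hj)).2⟩)
        (fun j hj j' hj' => hJ2 j (Finset.mem_of_mem_erase hj) j' (Finset.mem_of_mem_erase hj'))
        h2 (adm_cone H hbm hm1 (by omega) h2 hA hE) hJ'c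
    refine (Finset.sum_le_sum hone).trans ?_
    rw [← Finset.sum_mul, ← Finset.mul_sum]
    have h4 := hfirst t ht o j0 j1 R S U
      (UE2_adm_mono Δ ((le_max_right _ _).trans (le_max_right _ _)) le_rfl le_rfl hA) h1 h2
    have h5 : 0 ≤ A * (A * (t + 1) * ρ ^ t) ^ n := by positivity
    have h6 : C1 * (A3 * (t + 1) * ρ ^ t) ≤ A * (t + 1) * ρ ^ t := by
      have : 0 ≤ ((t : ℝ) + 1) * ρ ^ t := by positivity
      nlinarith
    calc _ ≤ C1 * (A3 * (t + 1) * ρ ^ t) * (A * (A * (t + 1) * ρ ^ t) ^ n) :=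
          mul_le_mul_of_nonneg_right (mul_le_mul_of_nonneg_left h4 hC1.le) h5
      _ ≤ (A * (t + 1) * ρ ^ t) * (A * (A * (t + 1) * ρ ^ t) ^ n) :=
          mul_le_mul_of_nonneg_right h6 h5
      _ = _ := by ring

end U

end Pool.Agent.Sand
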