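import Pool.Agent.SandFin.UE2

/-! Task UE3: block union bound (helper52). -/

set_option autoImplicit false
set_option linter.unusedSectionVars false
open scoped Classical
open Filter Topology

namespace Pool.Agent.Sand.UE3

open Pool.Agent.Sand

variable {V : Type} {Δ : SimpleGraph V} [Δ.LocallyFinite]

section U
variable {r : ℕ} {h : ℝ} {D0 : ℕ} (H : Hyp Δ r h D0)
include H

theorem yb_nonneg (t : ℕ) (D : Set V) (K : Finset V) : 0 ≤ Yb Δ r t D K := by
  unfold Yb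
  refine Finset.sum_nonneg fun v _ => Finset.sum_nonneg fun y _ => mul_nonneg (pk_nonneg H _ _ _ _) ?_
  split_ifs <;> norm_num

theorem yb_le : ∃ b : ℕ, 1 ≤ b ∧ ∀ (o : V) (R : ℕ) (D : Set V), Cone Δ o R D → ∀ (t : ℕ) (K : Finset V),
    Yb Δ r t D K ≤ b := by
  obtain ⟨b, hb1, -, hb⟩ := exists_bound H
  refine ⟨b, hb1, fun o R D hD t K => ?_⟩
  obtain ⟨-, -, hc, -⟩ := hb o R D hD.comp
  unfold Yb
  calc ∑ v ∈ fs (iB Δ D), ∑ y ∈ fs (cb Δ v t), pk Δ r D t v y * (if y ∈ K then 1 else 0)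
      ≤ ∑ v ∈ fs (iB Δ D), (1 : ℝ) := by
        refine Finset.sum_le_sum fun v _ => ?_
        refine le_trans (Finset.sum_le_sum fun y _ => ?_) (pk_sum_le H D t v)
        have := pk_nonneg H D t v y
        split_ifs <;> simp [this]
    _ = ((fs (iB Δ D)).card : ℝ) := by simp
    _ ≤ b := by exact_mod_cast hc

/-- residue classes in an interval -/
theorem cls_card {s : ℕ} (hs : 0 < s) (a ρ' k : ℕ) :
    ((Finset.Icc a ρ').filter fun j => j % s = k).card ≤ (ρ' - a) / s + 1 := by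
  have h1 : ((Finset.Icc a ρ').filter fun j => j % s = k).card ≤ (Finset.range ((ρ' - a) / s + 1)).card := by
    refine Finset.card_le_card_of_injOn (fun j => (j - a) / s) ?_ ?_
    · intro j hj
      simp only [Finset.coe_filter, Finset.mem_Icc, Set.mem_ofPred_eq] at hj
      simp only [Finset.coe_range, Set.mem_Iio]
      have : (j - a) / s ≤ (ρ' - a) / s := Nat.div_le_div_right (by omega)
      omega
    · intro j hj j' hj' he
      simp only [Finset.coe_filter, Finset.mem_Icc, Set.mem_ofPred_eq] at hj hj'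
      simp only at he
      have h2 : j % s = j' % s := by rw [hj.2, hj'.2]
      have h3 := Nat.div_add_mod (j - a) s
      have h4 := Nat.div_add_mod (j' - a) s
      have h5 := Nat.mod_lt (j - a) hs
      have h6 := Nat.mod_lt (j' - a) hs
      rw [he] at h3
      by_contra hne
      rcases Nat.lt_or_gt_of_ne hne with hlt | hlt
      · have h7 : (j' - j) % s = 0 := (Nat.sub_mod_eq_zero_of_mod_eq h2.symm)
        have h8 : j' - j < s := by omega
        rw [Nat.mod_eq_of_lt h8] at h7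
        omega
      · have h7 : (j - j') % s = 0 := (Nat.sub_mod_eq_zero_of_mod_eq h2)
        have h8 : j - j' < s := by omega
        rw [Nat.mod_eq_of_lt h8] at h7
        omega
  simpa using h1

omit H in
/-- at most one element of a residue class in a window of length `s` -/
theorem cls_last {s : ℕ} (ρ' k : ℕ) (J : Finset ℕ) (hJ : ∀ j ∈ J, j % s = k ∧ j ≤ ρ' ∧ ρ' < j + s) :
    J.card ≤ 1 := by
  rw [Finset.card_le_one]
  intro j hj j' hj'
  have h1 := hJ j hj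
  have h2 := hJ j' hj'
  by_contra hne
  rcases Nat.lt_or_gt_of_ne hne with hlt | hlt
  · have h7 : (j' - j) % s = 0 := Nat.sub_mod_eq_zero_of_mod_eq (by rw [h1.1, h2.1])
    rw [Nat.mod_eq_of_lt (by omega)] at h7
    omega
  · have h7 : (j - j') % s = 0 := Nat.sub_mod_eq_zero_of_mod_eq (by rw [h1.1, h2.1])
    rw [Nat.mod_eq_of_lt (by omega)] at h7
    omega

omit H in
/-- the combinatorial core: many good indices in one residue class -/
theorem pick {s : ℕ} (hs : 0 < s) {a ρ' L : ℕ} (haρ : a ≤ ρ') (hρ : ρ' < a + L) {b c : ℝ} (hb : 0 < b)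
    (hc : 0 < c) (Y : ℕ → ℝ) (hY : ∀ j ∈ Finset.Icc a ρ', Y j ≤ b)
    (hcard : ∀ k, (((Finset.Icc a ρ').filter fun j => j % s = k).card : ℝ) ≤ (L : ℝ) / s + 1)
    (hsum : c * L ≤ ∑ j ∈ Finset.Icc a ρ', Y j) :
    ∃ k ∈ Finset.range s, ∃ J ⊆ ((Finset.Icc a ρ').filter fun j => j % s = k).filter (fun j => j + s ≤ ρ'),
      c / (2 * b) * ((L : ℝ) / s) + (-(c / (2 * b)) - 1) ≤ (J.card : ℝ) ∧ ∀ j ∈ J, c / 2 ≤ Y j := by
  have hsr : (0 : ℝ) < (s : ℝ) := by exact_mod_cast hs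
  have hex : ∃ k ∈ Finset.range s, c * ((L : ℝ) / s) ≤
      ∑ j ∈ (Finset.Icc a ρ').filter (fun j => j % s = k), Y j := by
    by_contra hcon
    push Not at hcon
    have h1 : ∑ k ∈ Finset.range s, ∑ j ∈ (Finset.Icc a ρ').filter (fun j => j % s = k), Y j =
        ∑ j ∈ Finset.Icc a ρ', Y j :=
      Finset.sum_fiberwise_of_maps_to (fun j _ => Finset.mem_range.mpr (Nat.mod_lt j hs)) _
    have h2 : ∑ k ∈ Finset.range s, ∑ j ∈ (Finset.Icc a ρ').filter (fun j => j % s = k), Y j <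
        ∑ k ∈ Finset.range s, c * ((L : ℝ) / s) :=
      Finset.sum_lt_sum_of_nonempty ⟨0, Finset.mem_range.mpr hs⟩ hcon
    rw [h1, Finset.sum_const, Finset.card_range, nsmul_eq_mul] at h2
    have h3 : (s : ℝ) * (c * ((L : ℝ) / s)) = c * L := by field_simp
    linarith
  obtain ⟨k, hk, hkY⟩ := hex
  set cl := (Finset.Icc a ρ').filter (fun j => j % s = k) with hcl
  set J := (cl.filter (fun j => j + s ≤ ρ')).filter (fun j => c / 2 ≤ Y j) with hJ
  set J0 := cl.filter (fun j => c / 2 ≤ Y j) with hJ0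
  refine ⟨k, hk, J, Finset.filter_subset _ _, ?_, fun j hj => (Finset.mem_filter.mp hj).2⟩
  have h1 : ∑ j ∈ cl, Y j ≤ ∑ j ∈ cl, (c / 2 + b * (if c / 2 ≤ Y j then 1 else 0)) := by
    refine Finset.sum_le_sum fun j hj => ?_
    have hjb := hY j (Finset.mem_filter.mp hj).1
    split_ifs with hh
    · linarith
    · push Not at hh
      linarith
  have h2 : ∑ j ∈ cl, (c / 2 + b * (if c / 2 ≤ Y j then (1 : ℝ) else 0)) = (cl.card : ℝ) * (c / 2) +
      b * (J0.card : ℝ) := by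
    rw [Finset.sum_add_distrib, Finset.sum_const, nsmul_eq_mul, ← Finset.mul_sum, Finset.sum_boole]
  have h3 : J0.card ≤ J.card + 1 := by
    have h4 : J0 \ J ⊆ cl.filter (fun j => ρ' < j + s) := by
      intro j hj
      have hj1 := Finset.mem_filter.mp (Finset.mem_sdiff.mp hj).1
      have hj2 := (Finset.mem_sdiff.mp hj).2
      refine Finset.mem_filter.mpr ⟨hj1.1, ?_⟩
      by_contra hcon
      push Not at hcon
      exact hj2 (Finset.mem_filter.mpr ⟨Finset.mem_filter.mpr ⟨hj1.1, hcon⟩, hj1.2⟩)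
    have h5 : (cl.filter (fun j => ρ' < j + s)).card ≤ 1 := by
      refine cls_last (s := s) ρ' k _ fun j hj => ?_
      have h7 := Finset.mem_filter.mp hj
      have h8 := Finset.mem_filter.mp h7.1
      exact ⟨h8.2, (Finset.mem_Icc.mp h8.1).2, h7.2⟩
    have h6 : J ⊆ J0 := by
      intro j hj
      have h7 := Finset.mem_filter.mp hj
      exact Finset.mem_filter.mpr ⟨(Finset.mem_filter.mp h7.1).1, h7.2⟩
    have h7 := Finset.card_le_card h4
    have h8 := Finset.card_sdiff_add_card_eq_card h6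
    omega
  have h3' : (J0.card : ℝ) ≤ (J.card : ℝ) + 1 := by exact_mod_cast h3
  have h9 := hcard k
  rw [h2] at h1
  have h10 : c * ((L : ℝ) / s) ≤ ((L : ℝ) / s + 1) * (c / 2) + b * ((J.card : ℝ) + 1) := by
    refine hkY.trans (h1.trans (add_le_add ?_ ?_))
    · exact mul_le_mul_of_nonneg_right h9 (by linarith)
    · exact mul_le_mul_of_nonneg_left h3' hb.le
  have h11 : c / (2 * b) * ((L : ℝ) / s) + (-(c / (2 * b)) - 1) =
      (c * ((L : ℝ) / s) - ((L : ℝ) / s + 1) * (c / 2) - b) / b := by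
    field_simp
    ring
  rw [h11, div_le_iff₀ hb]
  linarith

theorem blk (m : ℕ) {c : ℝ} (hc : 0 < c) : ∃ (t T : ℕ) (C θ : ℝ), 1 ≤ t ∧ 0 < C ∧ 0 < θ ∧ θ < 1 ∧
    ∀ (o : V) (R : ℕ) (S U : Finset V), Adm Δ T m o 0 R S U → ∀ (a L ρ' : ℕ), a ≤ ρ' → ρ' ≤ R → ρ' < a + L →
    ∑ D ∈ cns Δ o ρ', pr Δ r S (fun χ => hits Δ (KK Δ r S χ U) D ∧
      c * L ≤ ∑ j ∈ Finset.Icc a ρ', Yb Δ r t (anc Δ o j D) (KK Δ r S χ U)) ≤ C * θ ^ L := by
  obtain ⟨b, hb1, hb⟩ := yb_le (Δ := Δ) (r := r) H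
  have hbr : (0 : ℝ) < (b : ℝ) := by exact_mod_cast hb1
  obtain ⟨A, ρ, T, hA, hρ, hρ1, hch⟩ := chain (Δ := Δ) (r := r) H m (c := c / 2) (by linarith)
  -- choice of t
  have hδ : (0 : ℝ) < (1 / 4 : ℝ) ^ (2 * b / c : ℝ) := by positivity
  have hlim : Tendsto (fun t : ℕ => A * ((t : ℝ) + 1) * ρ ^ t) atTop (𝓝 0) := by
    have h1 : Tendsto (fun t : ℕ => (t : ℝ) * ρ ^ t) atTop (𝓝 0) :=
      tendsto_self_mul_const_pow_of_lt_one hρ.le hρ1
    have h2 : Tendsto (fun t : ℕ => ρ ^ t) atTop (𝓝 0) := tendsto_pow_atTop_nhds_zero_of_lt_one hρ.le hρ1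
    have h3 := (h1.add h2).const_mul A
    simp only [add_zero, mul_zero] at h3
    refine h3.congr fun t => ?_
    ring
  obtain ⟨t, ht1, ht⟩ : ∃ t : ℕ, 1 ≤ t ∧ A * ((t : ℝ) + 1) * ρ ^ t < (1 / 4 : ℝ) ^ (2 * b / c : ℝ) := by
    obtain ⟨t, ht⟩ := ((hlim.eventually (gt_mem_nhds hδ)).and (eventually_ge_atTop 1)).exists
    exact ⟨t, ht.2, ht.1⟩
  set κ : ℝ := A * ((t : ℝ) + 1) * ρ ^ t with hκ
  have hκ0 : 0 < κ := by
    have : (0 : ℝ) < (t : ℝ) + 1 := by positivity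
    have hA0 : 0 < A := by linarith
    positivity
  have hκ1 : κ ≤ 1 := by
    refine ht.le.trans ?_
    exact Real.rpow_le_one (by norm_num) (by norm_num) (by positivity)
  have hκ2 : κ ^ (c / (2 * b)) ≤ 1 / 4 := by
    have h1 : κ ^ (c / (2 * b)) ≤ ((1 / 4 : ℝ) ^ (2 * b / c : ℝ)) ^ (c / (2 * b)) :=
      Real.rpow_le_rpow hκ0.le ht.le (by positivity)
    rw [← Real.rpow_mul (by norm_num)] at h1
    have h2 : (2 * b / c : ℝ) * (c / (2 * b)) = 1 := by field_simp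
    rwa [h2, Real.rpow_one] at h1
  clear_value κ
  set s : ℕ := t + 1 with hs
  have hs0 : 0 < s := by omega
  have hsr : (0 : ℝ) < (s : ℝ) := by exact_mod_cast hs0
  set e1 : ℝ := c / (2 * b) with he1
  set e0 : ℝ := -e1 - 1 with he0
  have hA0 : 0 < A := by linarith
  refine ⟨t, T, s * 2 * A * κ ^ e0, (1 / 2 : ℝ) ^ (1 / (s : ℝ)), ht1, by positivity, by positivity, ?_, ?_⟩
  · exact Real.rpow_lt_one (by norm_num) (by norm_num) (by positivity)
  intro o R S U hAdm a L ρ' haρ hρR hρL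
  have hAdm' : Adm Δ T m o 0 ρ' S U :=
    ⟨hAdm.disj, hAdm.sub, hAdm.card, fun j h0 hj => hAdm.full j h0 (hj.trans hρR), hAdm.few⟩
  set x : ℝ := (L : ℝ) / s with hx
  have hx0 : 0 ≤ x := by positivity
  have hcard : ∀ k, (((Finset.Icc a ρ').filter fun j => j % s = k).card : ℝ) ≤ x + 1 := by
    intro k
    have h1 := cls_card H hs0 a ρ' k
    have h2 : (((Finset.Icc a ρ').filter fun j => j % s = k).card : ℝ) ≤ (((ρ' - a) / s : ℕ) : ℝ) + 1 := by
      exact_mod_cast h1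
    have h3 : (((ρ' - a) / s : ℕ) : ℝ) ≤ ((ρ' - a : ℕ) : ℝ) / s := Nat.cast_div_le
    have h4 : ((ρ' - a : ℕ) : ℝ) ≤ (L : ℝ) := by
      exact_mod_cast (by omega : ρ' - a ≤ L)
    have h5 : ((ρ' - a : ℕ) : ℝ) / s ≤ x := by
      rw [hx]
      exact div_le_div_of_nonneg_right h4 hsr.le
    linarith
  -- index set
  set cl' : ℕ → Finset ℕ := fun k =>
    ((Finset.Icc a ρ').filter fun j => j % s = k).filter (fun j => j + s ≤ ρ') with hcl'
  set 𝒥 : Finset (Finset ℕ) := (Finset.range s).biUnion fun k =>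
    (cl' k).powerset.filter (fun J => e1 * x + e0 ≤ (J.card : ℝ)) with h𝒥
  have h𝒥card : (𝒥.card : ℝ) ≤ s * (2 : ℝ) ^ (x + 1) := by
    have h1 : 𝒥.card ≤ ∑ k ∈ Finset.range s, ((cl' k).powerset.filter
        (fun J => e1 * x + e0 ≤ (J.card : ℝ))).card := Finset.card_biUnion_le
    have h2 : (𝒥.card : ℝ) ≤ ∑ k ∈ Finset.range s, (((cl' k).powerset.filter
        (fun J => e1 * x + e0 ≤ (J.card : ℝ))).card : ℝ) := by exact_mod_cast h1
    refine h2.trans ?_
    calc ∑ k ∈ Finset.range s, (((cl' k).powerset.filter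
        (fun J => e1 * x + e0 ≤ (J.card : ℝ))).card : ℝ) ≤ ∑ k ∈ Finset.range s, (2 : ℝ) ^ (x + 1) := by
          refine Finset.sum_le_sum fun k _ => ?_
          have h3 : (((cl' k).powerset.filter (fun J => e1 * x + e0 ≤ (J.card : ℝ))).card : ℝ) ≤
              (2 : ℝ) ^ ((cl' k).card) := by
            have h4 := Finset.card_filter_le (cl' k).powerset (fun J => e1 * x + e0 ≤ (J.card : ℝ))
            rw [Finset.card_powerset] at h4
            exact_mod_cast h4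
          refine h3.trans ?_
          rw [← Real.rpow_natCast]
          refine Real.rpow_le_rpow_of_exponent_le (by norm_num) ?_
          refine le_trans ?_ (hcard k)
          exact_mod_cast Finset.card_filter_le _ _
      _ = s * (2 : ℝ) ^ (x + 1) := by simp
  have hmem : ∀ J ∈ 𝒥, (e1 * x + e0 ≤ (J.card : ℝ)) ∧ (∀ j ∈ J, 0 ≤ j ∧ j + t + 1 ≤ ρ') ∧
      ∀ j ∈ J, ∀ j' ∈ J, j < j' → j + t + 1 ≤ j' := by
    intro J hJ
    rw [h𝒥, Finset.mem_biUnion] at hJ
    obtain ⟨k, -, hJ⟩ := hJ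
    rw [Finset.mem_filter, Finset.mem_powerset] at hJ
    refine ⟨hJ.2, fun j hj => ?_, fun j hj j' hj' hlt => ?_⟩
    · have h1 := hJ.1 hj
      rw [hcl', Finset.mem_filter] at h1
      refine ⟨Nat.zero_le _, ?_⟩
      have := h1.2
      omega
    · have h1 := hJ.1 hj
      have h2 := hJ.1 hj'
      rw [hcl', Finset.mem_filter, Finset.mem_filter] at h1 h2
      have h7 : (j' - j) % s = 0 := Nat.sub_mod_eq_zero_of_mod_eq (by rw [h1.1.2, h2.1.2])
      by_contra hcon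
      rw [Nat.mod_eq_of_lt (by omega)] at h7
      omega
  -- pointwise union bound
  have hD : ∀ D ∈ cns Δ o ρ', pr Δ r S (fun χ => hits Δ (KK Δ r S χ U) D ∧
      c * L ≤ ∑ j ∈ Finset.Icc a ρ', Yb Δ r t (anc Δ o j D) (KK Δ r S χ U)) ≤
      ∑ J ∈ 𝒥, pr Δ r S (fun χ => hits Δ (KK Δ r S χ U) D ∧
        ∀ j ∈ J, c / 2 ≤ Yb Δ r t (anc Δ o j D) (KK Δ r S χ U)) := by
    intro D hD
    have hDc : Cone Δ o ρ' D := (mem_cns H).mp hD
    refine le_trans (pr_mono H S ?_) (pr_union H S 𝒥 _)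
    intro χ _ hev
    obtain ⟨k, hk, J, hJ, hJc, hJY⟩ := pick hs0 haρ hρL hbr hc
      (fun j => Yb Δ r t (anc Δ o j D) (KK Δ r S χ U))
      (fun j hj => by
        have hj' := (Finset.mem_Icc.mp hj).2
        exact hb o j _ (anc_cone H hj' hDc).1 t _)
      hcard hev.2
    refine ⟨J, ?_, hev.1, hJY⟩
    rw [h𝒥, Finset.mem_biUnion]
    refine ⟨k, hk, ?_⟩
    rw [Finset.mem_filter, Finset.mem_powerset]
    exact ⟨hJ, hJc⟩
  calc ∑ D ∈ cns Δ o ρ', pr Δ r S (fun χ => hits Δ (KK Δ r S χ U) D ∧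
      c * L ≤ ∑ j ∈ Finset.Icc a ρ', Yb Δ r t (anc Δ o j D) (KK Δ r S χ U))
      ≤ ∑ D ∈ cns Δ o ρ', ∑ J ∈ 𝒥, pr Δ r S (fun χ => hits Δ (KK Δ r S χ U) D ∧
        ∀ j ∈ J, c / 2 ≤ Yb Δ r t (anc Δ o j D) (KK Δ r S χ U)) := Finset.sum_le_sum hD
    _ = ∑ J ∈ 𝒥, ∑ D ∈ cns Δ o ρ', pr Δ r S (fun χ => hits Δ (KK Δ r S χ U) D ∧
        ∀ j ∈ J, c / 2 ≤ Yb Δ r t (anc Δ o j D) (KK Δ r S χ U)) := Finset.sum_comm
    _ ≤ ∑ J ∈ 𝒥, A * κ ^ (e1 * x + e0) := by
        refine Finset.sum_le_sum fun J hJ => ?_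
        obtain ⟨h1, h2, h3⟩ := hmem J hJ
        refine (hch t ht1 o 0 ρ' S U hAdm' J h2 h3 (Nat.zero_le _)).trans ?_
        refine mul_le_mul_of_nonneg_left ?_ hA0.le
        rw [← hκ, ← Real.rpow_natCast]
        exact Real.rpow_le_rpow_of_exponent_ge hκ0 hκ1 h1
    _ = (𝒥.card : ℝ) * (A * κ ^ (e1 * x + e0)) := by simp
    _ ≤ (s * (2 : ℝ) ^ (x + 1)) * (A * κ ^ (e1 * x + e0)) := by
        refine mul_le_mul_of_nonneg_right h𝒥card (by positivity)
    _ = s * 2 * A * κ ^ e0 * (2 * κ ^ e1) ^ x := by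
        rw [Real.rpow_add (by norm_num : (0 : ℝ) < 2), Real.rpow_one, Real.rpow_add hκ0, Real.rpow_mul hκ0.le,
          Real.mul_rpow (by norm_num) (by positivity)]
        ring
    _ ≤ s * 2 * A * κ ^ e0 * (1 / 2 : ℝ) ^ x := by
        refine mul_le_mul_of_nonneg_left ?_ (by positivity)
        refine Real.rpow_le_rpow (by positivity) ?_ hx0
        linarith
    _ = s * 2 * A * κ ^ e0 * ((1 / 2 : ℝ) ^ (1 / (s : ℝ))) ^ L := by
        congr 1
        rw [← Real.rpow_natCast, ← Real.rpow_mul (by norm_num), hx]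
        congr 1
        ring

end U

end Pool.Agent.Sand.UE3
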