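import Pool.Agent.SandFin.UE3X
import Pool.Agent.SandFin.UD2X
import Pool.Agent.SandFin.UC

/-! UF : large firing numbers do not go far. -/

set_option autoImplicit false
open scoped Classical
open Filter Topology

namespace Pool.Agent.Sand.UF

open Pool.Agent.Sand

variable {V : Type} {Δ : SimpleGraph V} [Δ.LocallyFinite]

variable {r : ℕ} {h : ℝ} {D0 : ℕ} (H : Hyp Δ r h D0)
include H

theorem qev_mono {o : V} {G : Finset V} (ho : o ∈ G) {χ : V → ℕ} (hχ : χ ∈ rcr Δ r G) {q0 j : ℕ}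
    (hq : Qev Δ q0 o j (avo Δ r G χ o)) : Qev Δ q0 o (j + 1) (avo Δ r G χ o) := by
  intro E hE v hv
  have hE' : Cone Δ o (j + 1) E := (mem_cns H).1 hE
  obtain ⟨D, hD, hDE⟩ := cone_parent H (Nat.le_succ j) hE'
  have h1 : v ∈ iB Δ D := oB_child H hD hE' hDE hv
  exact avo_max H ho hχ hD (hq D ((mem_cns H).2 hD)) h1.1

/-- one bad wave is unlikely -/
theorem one_wave {m : ℕ} (hm : r ≤ m) (hm1 : 1 ≤ m) {c : ℝ} {t T : ℕ} {C θ : ℝ}
    (hblk : ∀ (o : V) (R : ℕ) (S U : Finset V), Adm Δ T m o 0 R S U →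
      ∀ (a L ρ' : ℕ), a ≤ ρ' → ρ' ≤ R → ρ' < a + L →
      ∑ D ∈ cns Δ o ρ', pr Δ r S (fun χ => hits Δ (KK Δ r S χ U) D ∧
        c * L ≤ ∑ j ∈ Finset.Icc a ρ', Yb Δ r t (anc Δ o j D) (KK Δ r S χ U)) ≤ C * θ ^ L)
    {K : ℝ} (hK0 : 0 ≤ K) (hK : ∀ (S : Set V) (x : V), gr Δ r S x x ≤ K)
    {o : V} {R : ℕ} {G : Finset V} (hG : ∀ v, Δ.dist o v ≤ R + T → v ∈ G)
    {a L ρ' : ℕ} (h1 : a ≤ ρ') (h2 : ρ' ≤ R) (h3 : ρ' < a + L) (hCθ : 0 ≤ C * θ ^ L) :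
    pr Δ r G (fun χ => ∃ i < avo Δ r G χ o o, ∃ D' ∈ cns Δ o ρ', hits Δ (wv Δ r G χ o i) D' ∧
      c * L ≤ ∑ j ∈ Finset.Icc a ρ', Yb Δ r t (anc Δ o j D') (wv Δ r G χ o i)) ≤
      K * (C * θ ^ L) := by
  have hoG : o ∈ G := hG o (by simp)
  set F : (V → ℕ) → ℝ := fun η => ∑ D ∈ cns Δ o ρ', if (hits Δ (KK Δ r (G.erase o) η {o}) D ∧
        c * L ≤ ∑ j ∈ Finset.Icc a ρ', Yb Δ r t (anc Δ o j D) (KK Δ r (G.erase o) η {o})) then 1 else 0
    with hF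
  have hF0 : ∀ η, 0 ≤ F η := fun η => Finset.sum_nonneg fun D _ => by
    split_ifs
    · exact zero_le_one
    · exact le_rfl
  have hN : (0 : ℝ) < NNr Δ r G := by exact_mod_cast NN_pos H G
  have hN' : (0 : ℝ) < NNr Δ r (G.erase o) := by exact_mod_cast NN_pos H (G.erase o)
  -- first step
  have s1 : pr Δ r G (fun χ => ∃ i < avo Δ r G χ o o, ∃ D' ∈ cns Δ o ρ', hits Δ (wv Δ r G χ o i) D' ∧
      c * L ≤ ∑ j ∈ Finset.Icc a ρ', Yb Δ r t (anc Δ o j D') (wv Δ r G χ o i)) ≤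
      ex Δ r G (fun χ => ∑ i ∈ Finset.range (avo Δ r G χ o o),
        F (fire Δ r (G.erase o) (rs (G.erase o) χ) (i • ind {o}))) := by
    rw [← ex_ind H]
    refine ex_mono H _ fun χ _ => ?_
    split_ifs with hc
    · obtain ⟨i, hi, D', hD', hh⟩ := hc
      have hFi : 1 ≤ F (fire Δ r (G.erase o) (rs (G.erase o) χ) (i • ind {o})) := by
        rw [hF]
        dsimp only
        refine le_trans ?_ (Finset.single_le_sum (fun D _ => ?_) hD')
        · rw [if_pos]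
          exact hh
        · split_ifs
          · exact zero_le_one
          · exact le_rfl
      refine hFi.trans ?_
      exact Finset.single_le_sum
        (f := fun i => F (fire Δ r (G.erase o) (rs (G.erase o) χ) (i • ind {o})))
        (fun i _ => hF0 _) (Finset.mem_range.2 hi)
    · exact Finset.sum_nonneg fun i _ => hF0 _
  have s2 : ex Δ r G (fun χ => ∑ i ∈ Finset.range (avo Δ r G χ o o),
        F (fire Δ r (G.erase o) (rs (G.erase o) χ) (i • ind {o}))) ≤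
      (∑ η ∈ rcr Δ r (G.erase o), F η) / NNr Δ r G := by
    unfold ex
    exact div_le_div_of_nonneg_right (wave_sum H hoG F hF0) hN.le
  have s3 : (∑ η ∈ rcr Δ r (G.erase o), F η) / NNr Δ r G =
      gr Δ r ↑G o o * ex Δ r (G.erase o) F := by
    unfold ex
    rw [NN_ratio H G hoG]
    have hg : gr Δ r ↑G o o ≠ 0 := by
      intro h0
      have := NN_ratio H G hoG
      rw [h0, zero_mul] at this
      exact hN'.ne' this
    field_simp
  have s4 : ex Δ r (G.erase o) F ≤ C * θ ^ L := by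
    rw [hF, ex_sum H]
    refine le_trans (le_of_eq ?_) (hblk o R (G.erase o) {o} (adm_top H hm hm1 hG) a L ρ' h1 h2 h3)
    exact Finset.sum_congr rfl fun D _ => by rw [← ex_ind H]; congr!
  refine s1.trans (s2.trans ?_)
  rw [s3]
  calc gr Δ r ↑G o o * ex Δ r (G.erase o) F ≤ gr Δ r ↑G o o * (C * θ ^ L) :=
        mul_le_mul_of_nonneg_left s4 (gr_nonneg H _ _ _)
    _ ≤ K * (C * θ ^ L) := mul_le_mul_of_nonneg_right (hK _ _) hCθ

omit H in
theorem pow_bdd (k : ℕ) {θ : ℝ} (h0 : 0 < θ) (h1 : θ < 1) : ∃ M : ℝ, 0 < M ∧ ∀ n : ℕ,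
    (n : ℝ) ^ k * θ ^ n ≤ M := by
  have ht := tendsto_pow_const_mul_const_pow_of_abs_lt_one k (r := θ) (by rw [abs_of_pos h0]; exact h1)
  obtain ⟨M, hM⟩ := ht.bddAbove_range
  refine ⟨|M| + 1, by positivity, fun n => ?_⟩
  have : (n : ℝ) ^ k * θ ^ n ≤ M := hM ⟨n, rfl⟩
  linarith [le_abs_self M]

theorem q_tail : ∃ q0 : ℕ, ∀ A : ℕ, ∃ C : ℝ, 0 < C ∧ ∀ (o : V) (R : ℕ), ∀ᶠ G in (atTop : Filter (Finset V)),
    pr Δ r G (fun χ => ¬ Qev Δ q0 o R (avo Δ r G χ o)) ≤ C / ((R : ℝ) + 1) ^ A := by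
  obtain ⟨c2, hc2, hpb⟩ := path_bad H
  obtain ⟨t, T, C1, θ, ht, hC1, hθ0, hθ1, hblk⟩ := blk H (max r 1) hc2
  obtain ⟨q0, hq0⟩ := hpb t
  obtain ⟨C2, ρ, hC2, hρ0, hρ1, hut⟩ := u_tail H
  obtain ⟨C3, ρ3, hC3, hρ30, hρ31, hgr⟩ := gr_decay H
  refine ⟨q0, fun A => ?_⟩
  obtain ⟨M1, hM1, hM1'⟩ := pow_bdd (2 * A) hρ0 hρ1
  obtain ⟨M2, hM2, hM2'⟩ := pow_bdd (2 * (A + 2)) hθ0 hθ1
  have hC : 0 < (4 : ℝ) ^ A + C2 * (M1 / ρ) + C3 * (C1 * (M2 / θ ^ 2)) := by positivity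
  refine ⟨_, hC, fun o R => ?_⟩
  filter_upwards [eventually_ge_atTop (fs (cb Δ o (R + T)))] with G hG
  have hG' : ∀ v, Δ.dist o v ≤ R + T → v ∈ G := fun v hv =>
    hG ((mem_fs (cb_finite H o (R + T))).2 hv)
  have hoG : o ∈ G := hG' o (by simp)
  have hR0 : (0 : ℝ) < ((R : ℝ) + 1) ^ A := by positivity
  rw [le_div_iff₀ hR0]
  by_cases hR : R < 4
  · have h1 : pr Δ r G (fun χ => ¬ Qev Δ q0 o R (avo Δ r G χ o)) ≤ 1 := pr_le_one H _ _
    have h2 : ((R : ℝ) + 1) ^ A ≤ 4 ^ A := by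
      refine pow_le_pow_left₀ (by positivity) ?_ A
      have : (R : ℝ) ≤ 3 := by exact_mod_cast (by omega : R ≤ 3)
      linarith
    calc _ ≤ 1 * ((R : ℝ) + 1) ^ A := mul_le_mul_of_nonneg_right h1 hR0.le
      _ ≤ 4 ^ A := by rw [one_mul]; exact h2
      _ ≤ _ := by
        have : 0 ≤ C2 * (M1 / ρ) + C3 * (C1 * (M2 / θ ^ 2)) := by positivity
        linarith
  · push Not at hR
    set s := Nat.sqrt R with hs
    have hs2 : 2 ≤ s := by rw [hs, Nat.le_sqrt]; omega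
    have hsR : s * s ≤ R := Nat.sqrt_le R
    have hRs : R < (s + 1) * (s + 1) := Nat.lt_succ_sqrt R
    obtain ⟨L, hL⟩ : ∃ L, s = L + 1 := ⟨s - 1, by omega⟩
    have hL1 : 1 ≤ L := by omega
    have hmul : (L + 1) * (L + 1) ≤ R := by rw [← hL]; exact hsR
    -- decomposition
    have hdec : pr Δ r G (fun χ => ¬ Qev Δ q0 o R (avo Δ r G χ o)) ≤
        pr Δ r G (fun χ => L + 1 ≤ avo Δ r G χ o o) +
        ∑ p ∈ ((Finset.range (R + 1)) ×ˢ (Finset.range (R + 1))).filter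
            (fun p : ℕ × ℕ => p.1 ≤ p.2 ∧ p.2 < p.1 + L),
          pr Δ r G (fun χ => ∃ i < avo Δ r G χ o o, ∃ D' ∈ cns Δ o p.2, hits Δ (wv Δ r G χ o i) D' ∧
            c2 * L ≤ ∑ j ∈ Finset.Icc p.1 p.2, Yb Δ r t (anc Δ o j D') (wv Δ r G χ o i)) := by
      refine le_trans ?_ (add_le_add_right (pr_union H G _ _) _)
      rw [← ex_ind H, ← ex_ind H, ← ex_ind H, ← ex_add H]
      refine ex_mono H _ fun χ hχ => ?_
      split_ifs with h1 h2 h3 h3 h2 h3 h3 <;> try norm_num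
      exfalso
      push Not at h2
      obtain ⟨a, ρ', ha, haL, haR, i, hi, D', hD', hh, hsum⟩ :=
        hq0 o G hoG χ hχ R L L hL1 hmul (by omega) h1
      refine h3 ⟨(a, ρ'), ?_, i, hi, D', hD', hh, hsum⟩
      simp only [Finset.mem_filter, Finset.mem_product, Finset.mem_range]
      refine ⟨⟨?_, ?_⟩, ha, haL⟩ <;> omega
    have hb1 : pr Δ r G (fun χ => L + 1 ≤ avo Δ r G χ o o) ≤ C2 * ρ ^ (L + 1) := hut G o hoG (L + 1)
    have hCθ : 0 ≤ C1 * θ ^ L := by positivity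
    have hb2 : ∑ p ∈ ((Finset.range (R + 1)) ×ˢ (Finset.range (R + 1))).filter
            (fun p : ℕ × ℕ => p.1 ≤ p.2 ∧ p.2 < p.1 + L),
          pr Δ r G (fun χ => ∃ i < avo Δ r G χ o o, ∃ D' ∈ cns Δ o p.2, hits Δ (wv Δ r G χ o i) D' ∧
            c2 * L ≤ ∑ j ∈ Finset.Icc p.1 p.2, Yb Δ r t (anc Δ o j D') (wv Δ r G χ o i)) ≤
        ((R : ℝ) + 1) ^ 2 * (C3 * (C1 * θ ^ L)) := by
      refine (Finset.sum_le_card_nsmul _ _ (C3 * (C1 * θ ^ L)) ?_).trans ?_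
      · rintro ⟨a, ρ'⟩ hp
        simp only [Finset.mem_filter, Finset.mem_product, Finset.mem_range] at hp
        refine one_wave H (le_max_left r 1) (le_max_right r 1) hblk hC3.le (fun S x => ?_) hG'
          hp.2.1 (by omega) hp.2.2 hCθ
        have := hgr S x x
        simpa using this
      · rw [nsmul_eq_mul]
        refine mul_le_mul_of_nonneg_right ?_ (by positivity)
        have hcard : (((Finset.range (R + 1)) ×ˢ (Finset.range (R + 1))).filter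
            (fun p : ℕ × ℕ => p.1 ≤ p.2 ∧ p.2 < p.1 + L)).card ≤ (R + 1) ^ 2 := by
          refine (Finset.card_filter_le _ _).trans ?_
          rw [Finset.card_product, Finset.card_range, sq]
        exact_mod_cast hcard
    have hRs' : (R : ℝ) + 1 ≤ ((s : ℝ) + 1) ^ 2 := by
      have : R + 1 ≤ (s + 1) ^ 2 := by rw [sq]; omega
      exact_mod_cast this
    have hkey : ∀ k : ℕ, ((R : ℝ) + 1) ^ k ≤ ((s : ℝ) + 1) ^ (2 * k) := fun k => by
      rw [pow_mul]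
      exact pow_le_pow_left₀ (by positivity) hRs' k
    have hsc : ((s : ℝ) + 1) = ((s + 1 : ℕ) : ℝ) := by push_cast; ring
    have e1 : ρ ^ (L + 1) * ((R : ℝ) + 1) ^ A ≤ M1 / ρ := by
      rw [le_div_iff₀ hρ0]
      calc ρ ^ (L + 1) * ((R : ℝ) + 1) ^ A * ρ = ((R : ℝ) + 1) ^ A * ρ ^ (s + 1) := by
            rw [hL]; ring
        _ ≤ ((s : ℝ) + 1) ^ (2 * A) * ρ ^ (s + 1) :=
            mul_le_mul_of_nonneg_right (hkey A) (by positivity)
        _ ≤ M1 := by rw [hsc]; exact hM1' (s + 1)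
    have e2 : ((R : ℝ) + 1) ^ 2 * θ ^ L * ((R : ℝ) + 1) ^ A ≤ M2 / θ ^ 2 := by
      rw [le_div_iff₀ (by positivity)]
      calc ((R : ℝ) + 1) ^ 2 * θ ^ L * ((R : ℝ) + 1) ^ A * θ ^ 2 =
          ((R : ℝ) + 1) ^ (A + 2) * θ ^ (s + 1) := by
            rw [hL]; ring
        _ ≤ ((s : ℝ) + 1) ^ (2 * (A + 2)) * θ ^ (s + 1) :=
            mul_le_mul_of_nonneg_right (hkey (A + 2)) (by positivity)
        _ ≤ M2 := by rw [hsc]; exact hM2' (s + 1)
    calc _ ≤ (C2 * ρ ^ (L + 1) + ((R : ℝ) + 1) ^ 2 * (C3 * (C1 * θ ^ L))) * ((R : ℝ) + 1) ^ A := by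
          refine mul_le_mul_of_nonneg_right ?_ hR0.le
          linarith
      _ = C2 * (ρ ^ (L + 1) * ((R : ℝ) + 1) ^ A) +
          C3 * (C1 * (((R : ℝ) + 1) ^ 2 * θ ^ L * ((R : ℝ) + 1) ^ A)) := by ring
      _ ≤ C2 * (M1 / ρ) + C3 * (C1 * (M2 / θ ^ 2)) := by
          refine add_le_add (mul_le_mul_of_nonneg_left e1 hC2.le) ?_
          exact mul_le_mul_of_nonneg_left (mul_le_mul_of_nonneg_left e2 hC1.le) hC3.le
      _ ≤ _ := by
          have : (0 : ℝ) ≤ 4 ^ A := by positivity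
          linarith

end Pool.Agent.Sand.UF
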