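import Pool.Agent.SandFin.UFX

/-! Task UG: decomposition at rank `j`. -/

set_option autoImplicit false
open scoped Classical
open Filter Topology

namespace Pool.Agent.Sand.UG

open Pool.Agent.Sand

/-! ### abstract convolution bound -/

theorem prod_sum_le {α : Type} (𝒟 : Finset α) (f : α → ℕ → ℝ) (A : α → ℝ)
    (hf0 : ∀ D ∈ 𝒟, ∀ m, 0 ≤ f D m) (hsum : ∀ D ∈ 𝒟, HasSum (f D) (A D)) (n : ℕ) :
    ∑ μ ∈ fpi 𝒟 (fun _ => Finset.range (n + 1)) 0, ∏ D ∈ 𝒟, f D (μ D) ≤ ∏ D ∈ 𝒟, A D := by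
  rw [sum_fpi_prod]
  refine Finset.prod_le_prod (fun D hD => Finset.sum_nonneg fun m _ => hf0 D hD m) fun D hD => ?_
  exact sum_le_hasSum _ (fun m _ => hf0 D hD m) (hsum D hD)

theorem erase_sum_le {α : Type} (𝒟 : Finset α) (f : α → ℕ → ℝ) (A : α → ℝ)
    (hf0 : ∀ D ∈ 𝒟, ∀ m, 0 ≤ f D m) (hsum : ∀ D ∈ 𝒟, HasSum (f D) (A D)) (n mB : ℕ) {D0 : α}
    (hD0 : D0 ∈ 𝒟) :
    ∑ μ ∈ fpi 𝒟 (fun _ => Finset.range (n + 1)) 0,
      (if mB + ∑ D ∈ 𝒟, μ D = n then ∏ D ∈ 𝒟.erase D0, f D (μ D) else 0) ≤ ∏ D ∈ 𝒟.erase D0, A D := by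
  refine le_trans ?_ (prod_sum_le (𝒟.erase D0) f A (fun D hD => hf0 D (Finset.mem_of_mem_erase hD))
    (fun D hD => hsum D (Finset.mem_of_mem_erase hD)) n)
  rw [← Finset.sum_filter]
  have hinj : Set.InjOn (fun μ : α → ℕ => Function.update μ D0 0)
      (((fpi 𝒟 (fun _ => Finset.range (n + 1)) 0).filter fun μ => mB + ∑ D ∈ 𝒟, μ D = n : Finset (α → ℕ)) :
        Set (α → ℕ)) := by
    intro μ hμ μ' hμ' hEq
    rw [Finset.mem_coe, Finset.mem_filter] at hμ hμ'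
    have h1 : ∀ a, a ≠ D0 → μ a = μ' a := by
      intro a ha
      have := congrFun hEq a
      simp only [Function.update_of_ne ha] at this
      exact this
    have h2 : ∑ D ∈ 𝒟.erase D0, μ D = ∑ D ∈ 𝒟.erase D0, μ' D :=
      Finset.sum_congr rfl fun D hD => h1 D (Finset.ne_of_mem_erase hD)
    have h3 := Finset.add_sum_erase 𝒟 μ hD0
    have h4 := Finset.add_sum_erase 𝒟 μ' hD0
    have h5 := hμ.2
    have h6 := hμ'.2
    funext a
    by_cases ha : a = D0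
    · subst ha
      omega
    · exact h1 a ha
  have h1 : ∑ μ ∈ (fpi 𝒟 (fun _ => Finset.range (n + 1)) 0).filter (fun μ => mB + ∑ D ∈ 𝒟, μ D = n),
      ∏ D ∈ 𝒟.erase D0, f D (μ D) =
      ∑ ν ∈ ((fpi 𝒟 (fun _ => Finset.range (n + 1)) 0).filter (fun μ => mB + ∑ D ∈ 𝒟, μ D = n)).image
        (fun μ : α → ℕ => Function.update μ D0 0), ∏ D ∈ 𝒟.erase D0, f D (ν D) := by
    rw [Finset.sum_image hinj]
    refine Finset.sum_congr rfl fun μ _ => Finset.prod_congr rfl fun D hD => ?_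
    rw [Function.update_of_ne (Finset.ne_of_mem_erase hD)]
  rw [h1]
  refine Finset.sum_le_sum_of_subset_of_nonneg ?_ ?_
  · intro ν hν
    obtain ⟨μ, hμ, rfl⟩ := Finset.mem_image.1 hν
    rw [Finset.mem_filter, mem_fpi] at hμ
    rw [mem_fpi]
    refine ⟨fun a ha => ?_, fun a ha => ?_⟩
    · rw [Function.update_of_ne (Finset.ne_of_mem_erase ha)]
      exact hμ.1.1 a (Finset.mem_of_mem_erase ha)
    · by_cases haD : a = D0
      · subst haD
        simp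
      · rw [Function.update_of_ne haD]
        exact hμ.1.2 a fun h' => ha (Finset.mem_erase.2 ⟨haD, h'⟩)
  · intro ν _ _
    exact Finset.prod_nonneg fun D hD => hf0 D (Finset.mem_of_mem_erase hD) _

theorem conv_bound {α : Type} (𝒟 : Finset α) (f : α → ℕ → ℝ) (A : α → ℝ) {K1 : ℝ} (hK1 : 0 ≤ K1)
    (alive : α → Prop) (hf0 : ∀ D ∈ 𝒟, ∀ m, 0 ≤ f D m) (hsum : ∀ D ∈ 𝒟, HasSum (f D) (A D))
    (hdead : ∀ D ∈ 𝒟, ¬ alive D → ∀ m, m ≠ 0 → f D m = 0)
    (hup : ∀ D ∈ 𝒟, ∀ m : ℕ, 1 ≤ m → f D m ≤ K1 * (m : ℝ) ^ (-(3 / 2 : ℝ)) * A D) {n mB : ℕ} (hn : 1 ≤ n) :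
    ∑ μ ∈ fpi 𝒟 (fun _ => Finset.range (n + 1)) 0,
      (if mB + ∑ D ∈ 𝒟, μ D = n then ∏ D ∈ 𝒟, f D (μ D) else 0) ≤
      (K1 * (2 : ℝ) ^ (3 / 2 : ℝ) * ((𝒟.filter alive).card : ℝ) ^ (5 / 2 : ℝ) * (n : ℝ) ^ (-(3 / 2 : ℝ)) +
        (if n < 2 * mB then 1 else 0)) * ∏ D ∈ 𝒟, A D := by
  have hA : ∀ D ∈ 𝒟, 0 ≤ A D := fun D hD => (hsum D hD).nonneg (hf0 D hD)
  have hP : 0 ≤ ∏ D ∈ 𝒟, A D := Finset.prod_nonneg hA
  have hn0 : (0 : ℝ) < n := by exact_mod_cast hn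
  have hZ0 : (0 : ℝ) ≤ ((𝒟.filter alive).card : ℝ) := Nat.cast_nonneg _
  have hterm : 0 ≤ K1 * (2 : ℝ) ^ (3 / 2 : ℝ) * ((𝒟.filter alive).card : ℝ) ^ (5 / 2 : ℝ) *
      (n : ℝ) ^ (-(3 / 2 : ℝ)) := by positivity
  by_cases hc : n < 2 * mB
  · rw [if_pos hc]
    have h1 : ∑ μ ∈ fpi 𝒟 (fun _ => Finset.range (n + 1)) 0,
      (if mB + ∑ D ∈ 𝒟, μ D = n then ∏ D ∈ 𝒟, f D (μ D) else 0) ≤
      ∑ μ ∈ fpi 𝒟 (fun _ => Finset.range (n + 1)) 0, ∏ D ∈ 𝒟, f D (μ D) := by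
      refine Finset.sum_le_sum fun μ _ => ?_
      split_ifs
      · exact le_rfl
      · exact Finset.prod_nonneg fun D hD => hf0 D hD _
    refine h1.trans ((prod_sum_le 𝒟 f A hf0 hsum n).trans ?_)
    nlinarith
  · rw [if_neg hc, add_zero]
    set Z := (𝒟.filter alive).card with hZdef
    set c : ℝ := K1 * ((n : ℝ) / (2 * Z)) ^ (-(3 / 2 : ℝ)) with hcdef
    have hc0 : 0 ≤ c := by positivity
    have hpt : ∀ μ ∈ fpi 𝒟 (fun _ => Finset.range (n + 1)) 0,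
        (if mB + ∑ D ∈ 𝒟, μ D = n then ∏ D ∈ 𝒟, f D (μ D) else 0) ≤
        ∑ D0 ∈ 𝒟.filter alive, (c * A D0) *
          (if mB + ∑ D ∈ 𝒟, μ D = n then ∏ D ∈ 𝒟.erase D0, f D (μ D) else 0) := by
      intro μ _
      have hnn : ∀ D0 ∈ 𝒟.filter alive, 0 ≤ (c * A D0) *
          (if mB + ∑ D ∈ 𝒟, μ D = n then ∏ D ∈ 𝒟.erase D0, f D (μ D) else 0) := by
        intro D0 hD0
        refine mul_nonneg (mul_nonneg hc0 (hA D0 (Finset.mem_filter.1 hD0).1)) ?_
        split_ifs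
        · exact Finset.prod_nonneg fun D hD => hf0 D (Finset.mem_of_mem_erase hD) _
        · exact le_rfl
      by_cases heq : mB + ∑ D ∈ 𝒟, μ D = n
      · by_cases hz : ∏ D ∈ 𝒟, f D (μ D) = 0
        · rw [if_pos heq, hz]
          exact Finset.sum_nonneg hnn
        · have hz' := Finset.prod_ne_zero_iff.1 hz
          have hd : ∀ D ∈ 𝒟, ¬ alive D → μ D = 0 := by
            intro D hD hal
            by_contra hne
            exact hz' D hD (hdead D hD hal _ hne)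
          have hs1 : ∑ D ∈ 𝒟.filter alive, μ D = ∑ D ∈ 𝒟, μ D := by
            rw [Finset.sum_filter]
            refine Finset.sum_congr rfl fun D hD => ?_
            split_ifs with h'
            · rfl
            · exact (hd D hD h').symm
          have hpos : 0 < ∑ D ∈ 𝒟.filter alive, μ D := by omega
          have hne : (𝒟.filter alive).Nonempty := by
            rw [Finset.nonempty_iff_ne_empty]
            intro h0
            rw [h0] at hpos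
            simp at hpos
          have hZpos : (0 : ℝ) < Z := by
            have := Finset.card_pos.2 hne
            exact_mod_cast this
          have hex : ∃ D0 ∈ 𝒟.filter alive, (n : ℝ) / (2 * Z) ≤ (μ D0 : ℝ) := by
            by_contra hcon
            push Not at hcon
            have h2 : ∑ D ∈ 𝒟.filter alive, (μ D : ℝ) < ∑ D ∈ 𝒟.filter alive, (n : ℝ) / (2 * Z) :=
              Finset.sum_lt_sum_of_nonempty hne hcon
            rw [Finset.sum_const, nsmul_eq_mul, ← hZdef] at h2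
            have h3 : (Z : ℝ) * ((n : ℝ) / (2 * Z)) = n / 2 := by field_simp
            rw [h3] at h2
            have h4 : (∑ D ∈ 𝒟.filter alive, (μ D : ℝ)) = ((∑ D ∈ 𝒟, μ D : ℕ) : ℝ) := by
              rw [← hs1]
              push_cast
              rfl
            rw [h4] at h2
            have h5 : (n : ℝ) ≤ 2 * ((∑ D ∈ 𝒟, μ D : ℕ) : ℝ) := by
              have : n ≤ 2 * ∑ D ∈ 𝒟, μ D := by omega
              exact_mod_cast this
            linarith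
          obtain ⟨D0, hD0, hle⟩ := hex
          have hD0' := (Finset.mem_filter.1 hD0).1
          have hx : 0 < (n : ℝ) / (2 * Z) := by positivity
          have hμpos : (0 : ℝ) < (μ D0 : ℝ) := lt_of_lt_of_le hx hle
          have hμ1 : 1 ≤ μ D0 := by exact_mod_cast hμpos
          have hb := hup D0 hD0' (μ D0) hμ1
          have hb2 : (μ D0 : ℝ) ^ (-(3 / 2 : ℝ)) ≤ ((n : ℝ) / (2 * Z)) ^ (-(3 / 2 : ℝ)) :=
            Real.rpow_le_rpow_of_nonpos hx hle (by norm_num)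
          have hb3 : f D0 (μ D0) ≤ c * A D0 := by
            refine hb.trans ?_
            rw [hcdef]
            exact mul_le_mul_of_nonneg_right (mul_le_mul_of_nonneg_left hb2 hK1) (hA D0 hD0')
          refine le_trans ?_ (Finset.single_le_sum hnn hD0)
          rw [if_pos heq, if_pos heq, ← Finset.mul_prod_erase 𝒟 (fun D => f D (μ D)) hD0']
          exact mul_le_mul_of_nonneg_right hb3
            (Finset.prod_nonneg fun D hD => hf0 D (Finset.mem_of_mem_erase hD) _)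
      · rw [if_neg heq]
        exact Finset.sum_nonneg hnn
    refine (Finset.sum_le_sum hpt).trans ?_
    rw [Finset.sum_comm]
    have h2 : ∀ D0 ∈ 𝒟.filter alive, ∑ μ ∈ fpi 𝒟 (fun _ => Finset.range (n + 1)) 0, (c * A D0) *
          (if mB + ∑ D ∈ 𝒟, μ D = n then ∏ D ∈ 𝒟.erase D0, f D (μ D) else 0) ≤ c * ∏ D ∈ 𝒟, A D := by
      intro D0 hD0
      have hD0' := (Finset.mem_filter.1 hD0).1
      rw [← Finset.mul_sum, ← Finset.mul_prod_erase 𝒟 A hD0', ← mul_assoc]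
      exact mul_le_mul_of_nonneg_left (erase_sum_le 𝒟 f A hf0 hsum n mB hD0')
        (mul_nonneg hc0 (hA D0 hD0'))
    refine (Finset.sum_le_sum h2).trans ?_
    rw [Finset.sum_const, nsmul_eq_mul, ← hZdef, ← mul_assoc]
    refine mul_le_mul_of_nonneg_right ?_ hP
    rcases Nat.eq_zero_or_pos Z with hZ | hZ
    · rw [hZ]
      simp only [Nat.cast_zero, zero_mul]
      positivity
    · have hZr : (0 : ℝ) < Z := by exact_mod_cast hZ
      rw [hcdef]
      have e1 : ((n : ℝ) / (2 * Z)) ^ (-(3 / 2 : ℝ)) =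
          (n : ℝ) ^ (-(3 / 2 : ℝ)) * ((2 : ℝ) ^ (3 / 2 : ℝ) * (Z : ℝ) ^ (3 / 2 : ℝ)) := by
        rw [Real.div_rpow hn0.le (by positivity), Real.rpow_neg (by positivity : (0 : ℝ) ≤ 2 * Z),
          div_inv_eq_mul, Real.mul_rpow (by norm_num) hZr.le]
      have e2 : (Z : ℝ) ^ (5 / 2 : ℝ) = Z * (Z : ℝ) ^ (3 / 2 : ℝ) := by
        rw [show (5 / 2 : ℝ) = 1 + 3 / 2 by norm_num, Real.rpow_add hZr, Real.rpow_one]
      rw [e1, e2]
      apply le_of_eq
      ring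

/-! ### congruence -/

variable {V : Type} {Δ : SimpleGraph V} [Δ.LocallyFinite] {r : ℕ}

theorem stz_congr {S : Finset V} {χ χ' n u : V → ℕ} (h : ∀ v ∈ S, χ v = χ' v) :
    Stz Δ r S χ n u ↔ Stz Δ r S χ' n u := by
  unfold Stz
  apply and_congr_right'
  constructor
  · intro h' v hv
    rw [← h v hv]; exact h' v hv
  · intro h' v hv
    rw [h v hv]; exact h' v hv

theorem odo_congr {S : Finset V} {χ χ' n : V → ℕ} (h : ∀ v ∈ S, χ v = χ' v) :
    odo Δ r S χ n = odo Δ r S χ' n := by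
  funext v
  unfold odo
  simp only [stz_congr h]

theorem LL_congr {S U : Finset V} {χ χ' : V → ℕ} (h : ∀ v ∈ S, χ v = χ' v) :
    LL Δ S χ U = LL Δ S χ' U := by
  unfold LL
  refine Finset.filter_congr fun v _ => ?_
  constructor
  · rintro ⟨W, hW, hv, hw⟩
    exact ⟨W, hW, hv, fun w hw' => by rw [← h w (hW hw')]; exact hw w hw'⟩
  · rintro ⟨W, hW, hv, hw⟩
    exact ⟨W, hW, hv, fun w hw' => by rw [h w (hW hw')]; exact hw w hw'⟩

theorem rs_eq {S : Finset V} (χ : V → ℕ) : ∀ v ∈ S, rs S χ v = χ v := fun v hv => by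
  unfold rs
  rw [if_pos hv]

theorem st_congr {q : ℕ} {D : Set V} {S : Finset V} {χ χ' : V → ℕ} (h : ∀ v ∈ S, χ v = χ' v) :
    st Δ r q D S χ = st Δ r q D S χ' := by
  unfold st
  refine Prod.ext ?_ ?_
  · funext U
    simp only [LL_congr h]
  · funext n
    simp only [odo_congr h]

theorem sz_congr {S : Finset V} {χ χ' n : V → ℕ} (h : ∀ v ∈ S, χ v = χ' v) :
    sz Δ r S χ n = sz Δ r S χ' n := by
  unfold sz
  rw [odo_congr h]

theorem gw_congr {B : Finset V} {𝒟 : Finset (Set V)} {ξ ξ' e : V → ℕ} {s s' : Set V → St V}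
    (hξ : ∀ v ∈ B, ξ v = ξ' v) (hs : ∀ D ∈ 𝒟, s D = s' D) :
    gw Δ r B 𝒟 ξ e s = gw Δ r B 𝒟 ξ' e s' := by
  have h1 : ∀ w, rsp 𝒟 s w = rsp 𝒟 s' w := by
    intro w
    funext v
    unfold rsp
    exact Finset.sum_congr rfl fun D hD => by rw [hs D hD]
  have h2 : ∀ w, gStz Δ r B 𝒟 ξ e s w ↔ gStz Δ r B 𝒟 ξ' e s' w := by
    intro w
    unfold gStz
    apply and_congr_right'
    rw [h1 w]
    constructor
    · intro h' v hv
      rw [← hξ v hv]; exact h' v hv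
    · intro h' v hv
      rw [hξ v hv]; exact h' v hv
  unfold gw
  simp only [h2]

/-! ### partitions -/

theorem pr_part {ι : Type} (S : Finset V) (I : Finset ι) (P : (V → ℕ) → Prop)
    (Q : ι → (V → ℕ) → Prop) (g : (V → ℕ) → ι) (hg : ∀ χ ∈ rcr Δ r S, P χ → g χ ∈ I)
    (hQ : ∀ χ ∈ rcr Δ r S, ∀ i ∈ I, Q i χ ↔ P χ ∧ g χ = i) :
    pr Δ r S P = ∑ i ∈ I, pr Δ r S (Q i) := by
  unfold pr
  rw [← Finset.sum_div]
  congr 1
  rw [Finset.card_eq_sum_card_fiberwise (f := g) (t := I)]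
  · push_cast
    refine Finset.sum_congr rfl fun i hi => ?_
    rw [Finset.filter_filter]
    congr 2
    refine Finset.filter_congr fun χ hχ => ?_
    exact (hQ χ hχ i hi).symm
  · intro χ hχ
    rw [Finset.mem_coe, Finset.mem_filter] at hχ
    exact hg χ hχ.1 hχ.2

theorem ex_part {ι : Type} (S : Finset V) (I : Finset ι) (f : (V → ℕ) → ℝ) (F : ι → ℝ)
    (Q : ι → (V → ℕ) → Prop) (g : (V → ℕ) → ι) (hg : ∀ χ ∈ rcr Δ r S, g χ ∈ I)
    (hf : ∀ χ ∈ rcr Δ r S, f χ = F (g χ))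
    (hQ : ∀ χ ∈ rcr Δ r S, ∀ i ∈ I, Q i χ ↔ g χ = i) :
    ex Δ r S f = ∑ i ∈ I, F i * pr Δ r S (Q i) := by
  unfold ex pr
  have h1 : ∀ i ∈ I, F i * ((((rcr Δ r S).filter (Q i)).card : ℝ) / (NNr Δ r S : ℝ)) =
      (F i * (((rcr Δ r S).filter (Q i)).card : ℝ)) / (NNr Δ r S : ℝ) := by
    intro i _
    rw [mul_div_assoc]
  rw [Finset.sum_congr rfl h1, ← Finset.sum_div]
  congr 1
  rw [← Finset.sum_fiberwise_of_maps_to hg]
  refine Finset.sum_congr rfl fun i hi => ?_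
  have h2 : (rcr Δ r S).filter (Q i) = (rcr Δ r S).filter (fun χ => g χ = i) :=
    Finset.filter_congr fun χ hχ => hQ χ hχ i hi
  rw [h2]
  have h3 : ∀ χ ∈ (rcr Δ r S).filter (fun χ => g χ = i), f χ = F i := by
    intro χ hχ
    rw [Finset.mem_filter] at hχ
    rw [hf χ hχ.1, hχ.2]
  rw [Finset.sum_congr rfl h3, Finset.sum_const, nsmul_eq_mul, mul_comm]

/-! ### outcomes -/

theorem fs_sub (S : Set V) {v : V} (hv : v ∈ fs S) : v ∈ S := by
  unfold fs at hv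
  split_ifs at hv with h
  · exact h.mem_toFinset.1 hv
  · simp at hv

/-- configuration on the core, states -/
abbrev Om (V : Type) := (V → ℕ) × (Set V → St V)

noncomputable def wO (Δ : SimpleGraph V) [Δ.LocallyFinite] (r : ℕ) (o : V) (j : ℕ) (ω : Om V) : V → ℕ :=
  gw Δ r (fs (fb Δ o j)) (cns Δ o j) ω.1 (ind {o}) ω.2

noncomputable def nO (Δ : SimpleGraph V) [Δ.LocallyFinite] (r : ℕ) (o : V) (j : ℕ) (ω : Om V) (D : Set V) :
    V → ℕ := rs (fs (oB Δ D)) (wO Δ r o j ω)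

def QO (Δ : SimpleGraph V) [Δ.LocallyFinite] (r q0 : ℕ) (o : V) (j : ℕ) (Φ : (V → ℕ) → Prop) (ω : Om V) : Prop :=
  (∀ D ∈ cns Δ o j, ∀ v ∈ oB Δ D, wO Δ r o j ω v ≤ q0) ∧ Φ (wO Δ r o j ω)

noncomputable def mO (Δ : SimpleGraph V) [Δ.LocallyFinite] (r : ℕ) (o : V) (j : ℕ) (ω : Om V) : ℕ :=
  ((fs (fb Δ o j)).filter fun v => wO Δ r o j ω v ≠ 0).card

def aO (Δ : SimpleGraph V) [Δ.LocallyFinite] (r : ℕ) (o : V) (j : ℕ) (ω : Om V) (D : Set V) : Prop :=
  (ω.2 D).2 (nO Δ r o j ω D) ≠ 0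

/-- the outcome of a configuration -/
noncomputable def gO (Δ : SimpleGraph V) [Δ.LocallyFinite] (r q0 : ℕ) (o : V) (j : ℕ) (G : Finset V)
    (χ : V → ℕ) : Om V :=
  (rs (fs (fb Δ o j)) χ,
    fun D => if D ∈ cns Δ o j then st Δ r q0 D (cut D G) χ else (fun _ => ∅, fun _ => 0))

variable {h : ℝ} {D0 : ℕ} (H : Hyp Δ r h D0)
include H

theorem o_mem (o : V) (j : ℕ) : o ∈ fs (fb Δ o j) := by
  obtain ⟨T, hT⟩ := fb_bounds H
  rw [mem_fs (hT o j).1]
  refine (hT o j).2.1 ?_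
  change Δ.dist o o ≤ j
  simp

theorem gO_mem {q0 : ℕ} {o : V} {j : ℕ} {G : Finset V} (hG : fs (fb Δ o j) ⊆ G) {χ : V → ℕ}
    (hχ : χ ∈ rcr Δ r G) :
    gO Δ r q0 o j G χ ∈ (stab (fs (fb Δ o j)) fun _ => r) ×ˢ fst Δ r q0 (cns Δ o j) := by
  obtain ⟨hdec, hreg⟩ := top_dec H o j
  have hχ0 := (mem_stab.1 (Finset.mem_filter.1 hχ).1)
  have hrc := (glue_rc H.reg hdec q0 hG (by rw [hreg]; exact Set.subset_univ _) hχ0.2).1 hχ
  rw [Finset.mem_product]
  constructor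
  · change rs (fs (fb Δ o j)) χ ∈ _
    rw [mem_stab]
    refine ⟨fun v hv => ?_, fun v hv => ?_⟩
    · rw [rs_eq χ v hv]
      exact hrc.1 v hv
    · unfold rs
      rw [if_neg hv]
  · unfold fst
    rw [mem_fpi]
    refine ⟨fun D hD => ?_, fun D hD => ?_⟩
    · simp only [gO, if_pos hD]
      have h1 := mem_stF H ((mem_cns H).1 hD) q0 G (hrc.2.1 D hD)
      rwa [st_congr (rs_eq χ)] at h1
    · simp only [gO, if_neg hD]

omit H in
theorem gO_iff {q0 : ℕ} {o : V} {j : ℕ} {G : Finset V} {χ : V → ℕ} {ω : Om V}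
    (hω : ω ∈ (stab (fs (fb Δ o j)) fun _ => r) ×ˢ fst Δ r q0 (cns Δ o j)) :
    gO Δ r q0 o j G χ = ω ↔ rs (fs (fb Δ o j)) χ = ω.1 ∧
      ∀ D ∈ cns Δ o j, st Δ r q0 D (cut D G) χ = ω.2 D := by
  constructor
  · rintro rfl
    refine ⟨rfl, fun D hD => ?_⟩
    simp only [gO, if_pos hD]
  · rintro ⟨h1, h2⟩
    refine Prod.ext h1 ?_
    funext D
    rw [Finset.mem_product] at hω
    by_cases hD : D ∈ cns Δ o j
    · simp only [gO, if_pos hD]
      exact h2 D hD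
    · simp only [gO, if_neg hD]
      exact ((mem_fpi.1 hω.2).2 D hD).symm

theorem facts {q0 : ℕ} {o : V} {j : ℕ} {G : Finset V} (hG : fs (fb Δ o j) ⊆ G) {χ : V → ℕ}
    (hχ : χ ∈ rcr Δ r G) :
    (Qev Δ q0 o j (avo Δ r G χ o) ↔
      ∀ D ∈ cns Δ o j, ∀ v ∈ oB Δ D, wO Δ r o j (gO Δ r q0 o j G χ) v ≤ q0) ∧
    (Qev Δ q0 o j (avo Δ r G χ o) →
      wO Δ r o j (gO Δ r q0 o j G χ) = rs (fs (fb Δ o j)) (avo Δ r G χ o) ∧
      (∀ D ∈ cns Δ o j, hits Δ (avs Δ r G χ o) D ↔ aO Δ r o j (gO Δ r q0 o j G χ) D) ∧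
      (avs Δ r G χ o).card = mO Δ r o j (gO Δ r q0 o j G χ) +
        ∑ D ∈ cns Δ o j, sz Δ r (cut D G) χ (nO Δ r o j (gO Δ r q0 o j G χ) D) ∧
      ((avs Δ r G χ o).filter (· ∈ fb Δ o j)).card = mO Δ r o j (gO Δ r q0 o j G χ)) := by
  obtain ⟨hdec, hreg⟩ := top_dec H o j
  have hS : (↑G : Set V) ⊆ reg (fs (fb Δ o j)) (cns Δ o j) := by
    rw [hreg]
    exact Set.subset_univ _
  have hoG : o ∈ G := hG (o_mem H o j)
  have hfb : ∀ v, v ∈ fs (fb Δ o j) ↔ v ∈ fb Δ o j := by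
    obtain ⟨T, hT⟩ := fb_bounds H
    exact fun v => mem_fs (hT o j).1
  have hχ0 := (mem_stab.1 (Finset.mem_filter.1 hχ).1)
  have hχr : ∀ v ∈ G, χ v ≤ r := fun v hv => (hχ0.1 v hv).2
  have he : ∀ v, v ∉ fs (fb Δ o j) → ind ({o} : Finset V) v = 0 := by
    intro v hv
    unfold ind
    rw [if_neg]
    intro h'
    rw [Finset.mem_singleton] at h'
    subst h'
    exact hv (o_mem H v j)
  have hu : Stz Δ r G (χ + ind {o}) 0 (avo Δ r G χ o) := avo_stz H hoG hχ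
  have hwO : wO Δ r o j (gO Δ r q0 o j G χ) =
      gw Δ r (fs (fb Δ o j)) (cns Δ o j) χ (ind {o}) (sts Δ r q0 G χ) := by
    unfold wO
    refine gw_congr (fun v hv => rs_eq χ v hv) fun D hD => ?_
    simp only [gO, if_pos hD]
    rfl
  have hB : ∀ D ∈ cns Δ o j, ∀ v ∈ oB Δ D, v ∈ fs (fb Δ o j) := fun D hD v hv =>
    Finset.mem_coe.1 (hdec.sub D hD hv)
  have hQ1 : Qev Δ q0 o j (avo Δ r G χ o) →
      wO Δ r o j (gO Δ r q0 o j G χ) = rs (fs (fb Δ o j)) (avo Δ r G χ o) := by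
    intro hq
    rw [hwO]
    exact glue_odo H.reg hdec q0 hG hS hχr he hu (fun D hD v hv => hq D hD v hv)
  refine ⟨⟨fun hq D hD v hv => ?_, fun hq => ?_⟩, fun hq => ⟨hQ1 hq, ?_, ?_, ?_⟩⟩
  · rw [hQ1 hq, rs_eq _ v (hB D hD v hv)]
    exact hq D hD v hv
  · rw [hwO] at hq
    have h1 := glue_odo' H.reg hdec q0 hG hS hχr he hu hq
    intro D hD v hv
    have h2 := hq D hD v hv
    rw [h1, rs_eq _ v (hB D hD v hv)] at h2
    exact h2
  · intro D hD
    have hn : nO Δ r o j (gO Δ r q0 o j G χ) D = rs (fs (oB Δ D)) (avo Δ r G χ o) := by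
      unfold nO
      rw [hQ1 hq]
      funext v
      unfold rs
      split_ifs with h1 h2
      · rfl
      · exact absurd (hB D hD v (fs_sub _ h1)) h2
      · rfl
    have hcap : cap Δ q0 D (nO Δ r o j (gO Δ r q0 o j G χ) D) = nO Δ r o j (gO Δ r q0 o j G χ) D := by
      rw [hn]
      funext v
      unfold cap rs
      split_ifs with h1
      · exact min_eq_left (hq D hD v (fs_sub _ h1))
      · rfl
    have hval : ∀ v ∈ D, avo Δ r G χ o v = odo Δ r (cut D G) χ (nO Δ r o j (gO Δ r q0 o j G χ) D) v := by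
      intro v hv
      rw [hn]
      exact glue_in hdec hG hS he hu hD hv
    have hst : ((gO Δ r q0 o j G χ).2 D).2 (nO Δ r o j (gO Δ r q0 o j G χ) D) =
        rs (fs (iB Δ D)) (odo Δ r (cut D G) χ (nO Δ r o j (gO Δ r q0 o j G χ) D)) := by
      have hg2 : (gO Δ r q0 o j G χ).2 D = st Δ r q0 D (cut D G) χ := by
        simp only [gO, if_pos hD]
      rw [hg2]
      change rs (fs (iB Δ D)) (odo Δ r (cut D G) χ (cap Δ q0 D (nO Δ r o j (gO Δ r q0 o j G χ) D))) = _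
      rw [hcap]
    unfold aO
    rw [hst]
    have hfin := hdec.finI D hD
    constructor
    · rintro ⟨v, hv, hvA⟩ h0
      have h1 := congrFun h0 v
      rw [rs_eq _ v ((mem_fs hfin).2 hv), ← hval v hv.1] at h1
      exact (Finset.mem_filter.1 hvA).2 h1
    · intro h0
      obtain ⟨v, hv⟩ := Function.ne_iff.1 h0
      by_cases hvi : v ∈ fs (iB Δ D)
      · rw [rs_eq _ v hvi] at hv
        have hvi' := (mem_fs hfin).1 hvi
        rw [← hval v hvi'.1] at hv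
        refine ⟨v, hvi', Finset.mem_filter.2 ⟨?_, hv⟩⟩
        by_contra hvG
        exact hv (hu.1 v hvG)
      · unfold rs at hv
        rw [if_neg hvi] at hv
        exact absurd rfl hv
  · have h1 := glue_sz hdec hG hS he hu
    unfold avs
    change (G.filter fun v => odo Δ r G (χ + ind {o}) 0 v ≠ 0).card = _
    rw [h1]
    congr 1
    · unfold mO
      congr 1
      refine Finset.filter_congr fun v hv => ?_
      rw [hQ1 hq, rs_eq _ v hv]
      rfl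
    · refine Finset.sum_congr rfl fun D hD => ?_
      congr 1
      unfold nO
      rw [hQ1 hq]
      funext v
      unfold rs
      split_ifs with h1 h2
      · rfl
      · exact absurd (hB D hD v (fs_sub _ h1)) h2
      · rfl
  · unfold mO avs
    congr 1
    ext v
    simp only [Finset.mem_filter]
    constructor
    · rintro ⟨⟨_, h2⟩, h3⟩
      have h4 := (hfb v).2 h3
      refine ⟨h4, ?_⟩
      rw [hQ1 hq, rs_eq _ v h4]
      exact h2
    · rintro ⟨h4, h5⟩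
      rw [hQ1 hq, rs_eq _ v h4] at h5
      exact ⟨⟨hG h4, h5⟩, (hfb v).1 h4⟩

theorem QO_iff {q0 : ℕ} {o : V} {j : ℕ} {G : Finset V} (hG : fs (fb Δ o j) ⊆ G) {χ : V → ℕ}
    (hχ : χ ∈ rcr Δ r G) (Φ : (V → ℕ) → Prop) :
    QO Δ r q0 o j Φ (gO Δ r q0 o j G χ) ↔
      Qev Δ q0 o j (avo Δ r G χ o) ∧ Φ (rs (fs (fb Δ o j)) (avo Δ r G χ o)) := by
  obtain ⟨h1, h2⟩ := facts H (q0 := q0) hG hχ
  unfold QO
  constructor
  · rintro ⟨h3, h4⟩
    have h5 := h1.2 h3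
    refine ⟨h5, ?_⟩
    rw [← (h2 h5).1]
    exact h4
  · rintro ⟨h3, h4⟩
    refine ⟨h1.1 h3, ?_⟩
    rw [(h2 h3).1]
    exact h4

omit H in
theorem cut_univ (G : Finset V) : cut (Set.univ : Set V) G = G := by
  ext v
  simp [cut]

omit H in
theorem nO_supp (o : V) (j : ℕ) (ω : Om V) (D : Set V) : ∀ v, v ∉ oB Δ D → nO Δ r o j ω D v = 0 := by
  intro v hv
  unfold nO rs
  rw [if_neg fun h' => hv (fs_sub _ h')]

theorem topb (q0 : ℕ) : ∃ K : ℝ, 0 < K ∧ ∀ (o : V) (j n : ℕ), 1 ≤ n → ∀ (Φ : (V → ℕ) → Prop) (ε : ℝ), 0 < ε →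
    ∀ᶠ G in (atTop : Filter (Finset V)),
    pr Δ r G (fun χ => (avs Δ r G χ o).card = n ∧ Qev Δ q0 o j (avo Δ r G χ o) ∧
        Φ (rs (fs (fb Δ o j)) (avo Δ r G χ o))) ≤
      ε + ex Δ r G (fun χ => if Qev Δ q0 o j (avo Δ r G χ o) ∧ Φ (rs (fs (fb Δ o j)) (avo Δ r G χ o)) then
        K * (Zc Δ o j (avs Δ r G χ o) : ℝ) ^ (5 / 2 : ℝ) * (n : ℝ) ^ (-(3 / 2 : ℝ)) +
          (if n < 2 * ((avs Δ r G χ o).filter (· ∈ fb Δ o j)).card then 1 else 0) else 0) := by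
  obtain ⟨K1, hK1, hup⟩ := typ_upper H (Δ := Δ) (r := r) q0
  refine ⟨K1 * (2 : ℝ) ^ (3 / 2 : ℝ), by positivity, ?_⟩
  intro o j n hn Φ ε hε
  obtain ⟨hdec, hreg⟩ := top_dec H o j
  set 𝒟 := cns Δ o j with h𝒟
  set B := fs (fb Δ o j) with hBdef
  set Ω := (stab B fun _ => r) ×ˢ fst Δ r q0 𝒟 with hΩ
  set M := fpi 𝒟 (fun _ => Finset.range (n + 1)) 0 with hM
  set J := (Ω ×ˢ M).filter (fun p => QO Δ r q0 o j Φ p.1 ∧ mO Δ r o j p.1 + ∑ D ∈ 𝒟, p.2 D = n) with hJ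
  have hcone : ∀ D ∈ 𝒟, Cone Δ o j D := fun D hD => (mem_cns H).1 hD
  have hcst : 0 < cst Δ r B Set.univ := (cst_tendsto H (Set.subset_univ _)).1
  -- limits
  have hlim1 : ∀ p ∈ J, Tendsto (fun G : Finset V => pr Δ r G (fun χ => rs B χ = p.1.1 ∧
      ∀ D ∈ 𝒟, st Δ r q0 D (cut D G) χ = p.1.2 D ∧
        sz Δ r (cut D G) (rs (cut D G) χ) (nO Δ r o j p.1 D) = p.2 D)) atTop
      (𝓝 (cst Δ r B Set.univ * if gC Δ B 𝒟 p.1.1 p.1.2 then
        ∏ D ∈ 𝒟, al Δ r q0 D (p.1.2 D) (nO Δ r o j p.1 D) (p.2 D) else 0)) := by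
    intro p hp
    have hξ : p.1.1 ∈ stab B fun _ => r :=
      (Finset.mem_product.1 (Finset.mem_product.1 (Finset.mem_filter.1 hp).1).1).1
    have h1 := rec_gen H hdec q0 hξ p.1.2
      (fun D S η => sz Δ r S η (nO Δ r o j p.1 D) = p.2 D)
      (fun D => al Δ r q0 D (p.1.2 D) (nO Δ r o j p.1 D) (p.2 D)) (by
        intro D hD
        exact al_tendsto H (hcone D hD) q0 (p.1.2 D) (nO_supp o j p.1 D) (p.2 D))
    rw [hreg] at h1
    simp only [cut_univ] at h1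
    exact h1
  have hlim0 : ∀ ω ∈ Ω, Tendsto (fun G : Finset V => pr Δ r G (fun χ => rs B χ = ω.1 ∧
      ∀ D ∈ 𝒟, st Δ r q0 D (cut D G) χ = ω.2 D)) atTop
      (𝓝 (cst Δ r B Set.univ * if gC Δ B 𝒟 ω.1 ω.2 then ∏ D ∈ 𝒟, al0 Δ r q0 D (ω.2 D) else 0)) := by
    intro ω hω
    have hξ : ω.1 ∈ stab B fun _ => r := (Finset.mem_product.1 hω).1
    have h1 := rec_gen H hdec q0 hξ ω.2 (fun _ _ _ => True)
      (fun D => al0 Δ r q0 D (ω.2 D)) (by
        intro D hD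
        simpa using al0_tendsto H (hcone D hD) q0 (ω.2 D))
    rw [hreg] at h1
    simp only [cut_univ, and_true] at h1
    exact h1
  set F : Om V → ℝ := fun ω => if QO Δ r q0 o j Φ ω then
    K1 * (2 : ℝ) ^ (3 / 2 : ℝ) * ((𝒟.filter (aO Δ r o j ω)).card : ℝ) ^ (5 / 2 : ℝ) * (n : ℝ) ^ (-(3 / 2 : ℝ)) +
      (if n < 2 * mO Δ r o j ω then 1 else 0) else 0 with hF
  -- comparison of the limits
  have hle : ∑ p ∈ J, (cst Δ r B Set.univ * if gC Δ B 𝒟 p.1.1 p.1.2 then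
        ∏ D ∈ 𝒟, al Δ r q0 D (p.1.2 D) (nO Δ r o j p.1 D) (p.2 D) else 0) ≤
      ∑ ω ∈ Ω, F ω * (cst Δ r B Set.univ * if gC Δ B 𝒟 ω.1 ω.2 then ∏ D ∈ 𝒟, al0 Δ r q0 D (ω.2 D) else 0) := by
    rw [hJ, Finset.sum_filter, Finset.sum_product]
    refine Finset.sum_le_sum fun ω hω => ?_
    simp only
    by_cases hQ : QO Δ r q0 o j Φ ω
    · by_cases hg : gC Δ B 𝒟 ω.1 ω.2
      · have hnq : ∀ D ∈ 𝒟, ∀ v, nO Δ r o j ω D v ≤ q0 := by
          intro D hD v
          unfold nO rs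
          split_ifs with h1
          · exact hQ.1 D hD v (fs_sub _ h1)
          · exact Nat.zero_le _
        have h1 := conv_bound 𝒟 (fun D m => al Δ r q0 D (ω.2 D) (nO Δ r o j ω D) m)
          (fun D => al0 Δ r q0 D (ω.2 D)) hK1.le (aO Δ r o j ω)
          (fun D hD m => al_nonneg H (hcone D hD) q0 _ (nO_supp o j ω D) m)
          (fun D hD => al_sum H (hcone D hD) q0 _ (nO_supp o j ω D))
          (fun D hD hal m hm => by
            have h2 : (ω.2 D).2 (nO Δ r o j ω D) = 0 := by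
              by_contra h3
              exact hal h3
            have h4 := al_dead H (hcone D hD) q0 (ω.2 D) (nO_supp o j ω D) (hnq D hD) h2 m
            rw [if_neg hm] at h4
            exact h4)
          (fun D hD m hm => hup o j D (hcone D hD) (ω.2 D) _ (nO_supp o j ω D) (hnq D hD) m hm)
          (n := n) (mB := mO Δ r o j ω) hn
        have h2 : F ω = K1 * (2 : ℝ) ^ (3 / 2 : ℝ) * ((𝒟.filter (aO Δ r o j ω)).card : ℝ) ^ (5 / 2 : ℝ) *
          (n : ℝ) ^ (-(3 / 2 : ℝ)) + (if n < 2 * mO Δ r o j ω then 1 else 0) := by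
          rw [hF]
          simp only
          rw [if_pos hQ]
        rw [if_pos hg, h2]
        have h3 : ∀ μ ∈ M, (if QO Δ r q0 o j Φ ω ∧ mO Δ r o j ω + ∑ D ∈ 𝒟, μ D = n then
            cst Δ r B Set.univ * (if gC Δ B 𝒟 ω.1 ω.2 then
              ∏ D ∈ 𝒟, al Δ r q0 D (ω.2 D) (nO Δ r o j ω D) (μ D) else 0) else 0) =
            cst Δ r B Set.univ * (if mO Δ r o j ω + ∑ D ∈ 𝒟, μ D = n then
              ∏ D ∈ 𝒟, al Δ r q0 D (ω.2 D) (nO Δ r o j ω D) (μ D) else 0) := by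
          intro μ _
          rw [if_pos hg]
          by_cases h4 : mO Δ r o j ω + ∑ D ∈ 𝒟, μ D = n
          · rw [if_pos ⟨hQ, h4⟩, if_pos h4]
          · rw [if_neg fun h5 => h4 h5.2, if_neg h4, mul_zero]
        rw [Finset.sum_congr rfl h3, ← Finset.mul_sum]
        calc _ ≤ cst Δ r B Set.univ * _ := mul_le_mul_of_nonneg_left h1 hcst.le
          _ = _ := by ring
      · simp only [if_neg hg, mul_zero]
        refine le_of_eq (Finset.sum_eq_zero fun μ _ => ?_)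
        split_ifs <;> rfl
    · have h2 : F ω = 0 := by
        rw [hF]
        simp only
        rw [if_neg hQ]
      rw [h2, zero_mul]
      refine le_of_eq (Finset.sum_eq_zero fun μ _ => ?_)
      rw [if_neg fun h5 => hQ h5.1]
  have hL := tendsto_finsetSum J hlim1
  have hR := tendsto_finsetSum Ω (fun ω hω => (hlim0 ω hω).const_mul (F ω))
  have hsub := hR.sub hL
  have hev := hsub.eventually (lt_mem_nhds (show -ε < _ by
    have := sub_nonneg.2 hle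
    exact lt_of_lt_of_le (neg_lt_zero.2 hε) this))
  filter_upwards [hev, Filter.eventually_ge_atTop B] with G hG1 hGB
  have hGB' : B ⊆ G := hGB
  have e1 : pr Δ r G (fun χ => (avs Δ r G χ o).card = n ∧ Qev Δ q0 o j (avo Δ r G χ o) ∧
        Φ (rs B (avo Δ r G χ o))) = ∑ p ∈ J, pr Δ r G (fun χ => rs B χ = p.1.1 ∧
      ∀ D ∈ 𝒟, st Δ r q0 D (cut D G) χ = p.1.2 D ∧
        sz Δ r (cut D G) (rs (cut D G) χ) (nO Δ r o j p.1 D) = p.2 D) := by
    refine pr_part G J _ _ (fun χ => (gO Δ r q0 o j G χ, fun D => if D ∈ 𝒟 then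
      sz Δ r (cut D G) χ (nO Δ r o j (gO Δ r q0 o j G χ) D) else 0)) ?_ ?_
    · rintro χ hχ ⟨hcard, hq, hΦ⟩
      have hQ := (QO_iff H hGB' hχ Φ).2 ⟨hq, hΦ⟩
      obtain ⟨f1, f2, f3, f4⟩ := (facts H (q0 := q0) hGB' hχ).2 hq
      have hsum : mO Δ r o j (gO Δ r q0 o j G χ) +
          ∑ D ∈ 𝒟, (if D ∈ 𝒟 then sz Δ r (cut D G) χ (nO Δ r o j (gO Δ r q0 o j G χ) D) else 0) = n := by
        rw [← hcard, f3]
        congr 1
        refine Finset.sum_congr rfl fun D hD => ?_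
        rw [if_pos hD]
      rw [hJ, Finset.mem_filter, Finset.mem_product]
      refine ⟨⟨gO_mem H hGB' hχ, ?_⟩, hQ, hsum⟩
      rw [hM, mem_fpi]
      refine ⟨fun D hD => ?_, fun D hD => ?_⟩
      · rw [Finset.mem_range]
        have := Finset.single_le_sum (f := fun D => (if D ∈ 𝒟 then
          sz Δ r (cut D G) χ (nO Δ r o j (gO Δ r q0 o j G χ) D) else 0)) (fun _ _ => Nat.zero_le _) hD
        simp only at this ⊢
        omega
      · simp only
        rw [if_neg hD]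
    · intro χ hχ p hp
      rw [hJ, Finset.mem_filter, Finset.mem_product] at hp
      obtain ⟨⟨hp1, hp2⟩, hpQ, hps⟩ := hp
      have hszc : ∀ D, sz Δ r (cut D G) (rs (cut D G) χ) (nO Δ r o j p.1 D) =
          sz Δ r (cut D G) χ (nO Δ r o j p.1 D) := fun D => sz_congr (rs_eq χ)
      constructor
      · rintro ⟨g1, g2⟩
        have g3 : gO Δ r q0 o j G χ = p.1 := (gO_iff hp1).2 ⟨g1, fun D hD => (g2 D hD).1⟩
        have hQ : QO Δ r q0 o j Φ (gO Δ r q0 o j G χ) := by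
          rw [g3]
          exact hpQ
        obtain ⟨hq, hΦ⟩ := (QO_iff H hGB' hχ Φ).1 hQ
        obtain ⟨f1, f2, f3, f4⟩ := (facts H (q0 := q0) hGB' hχ).2 hq
        refine ⟨⟨?_, hq, hΦ⟩, ?_⟩
        · rw [f3, g3, ← hps]
          congr 1
          refine Finset.sum_congr rfl fun D hD => ?_
          rw [← hszc D]
          exact (g2 D hD).2
        · refine Prod.ext g3 ?_
          funext D
          simp only
          by_cases hD : D ∈ 𝒟
          · rw [if_pos hD, g3, ← hszc D]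
            exact (g2 D hD).2
          · rw [if_neg hD]
            exact ((mem_fpi.1 hp2).2 D hD).symm
      · rintro ⟨_, g1⟩
        have g2 : gO Δ r q0 o j G χ = p.1 := congrArg Prod.fst g1
        have g3 := congrArg Prod.snd g1
        simp only at g3
        obtain ⟨g4, g5⟩ := (gO_iff hp1).1 g2
        refine ⟨g4, fun D hD => ⟨g5 D hD, ?_⟩⟩
        rw [hszc D]
        have g6 := congrFun g3 D
        simp only [if_pos hD] at g6
        rw [g2] at g6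
        exact g6
  have e2 : ex Δ r G (fun χ => if Qev Δ q0 o j (avo Δ r G χ o) ∧ Φ (rs B (avo Δ r G χ o)) then
        K1 * (2 : ℝ) ^ (3 / 2 : ℝ) * (Zc Δ o j (avs Δ r G χ o) : ℝ) ^ (5 / 2 : ℝ) * (n : ℝ) ^ (-(3 / 2 : ℝ)) +
          (if n < 2 * ((avs Δ r G χ o).filter (· ∈ fb Δ o j)).card then 1 else 0) else 0) =
      ∑ ω ∈ Ω, F ω * pr Δ r G (fun χ => rs B χ = ω.1 ∧ ∀ D ∈ 𝒟, st Δ r q0 D (cut D G) χ = ω.2 D) := by
    refine ex_part G Ω _ F _ (fun χ => gO Δ r q0 o j G χ) (fun χ hχ => gO_mem H hGB' hχ) ?_ ?_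
    · intro χ hχ
      rw [hF]
      simp only
      by_cases hq : Qev Δ q0 o j (avo Δ r G χ o) ∧ Φ (rs B (avo Δ r G χ o))
      · rw [if_pos hq, if_pos ((QO_iff H hGB' hχ Φ).2 hq)]
        obtain ⟨f1, f2, f3, f4⟩ := (facts H (q0 := q0) hGB' hχ).2 hq.1
        rw [f4]
        have f5 : Zc Δ o j (avs Δ r G χ o) = (𝒟.filter (aO Δ r o j (gO Δ r q0 o j G χ))).card := by
          unfold Zc
          congr 1
          exact Finset.filter_congr fun D hD => f2 D hD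
        rw [f5]
      · rw [if_neg hq, if_neg fun h' => hq ((QO_iff H hGB' hχ Φ).1 h')]
    · intro χ hχ ω hω
      exact (gO_iff hω).symm
  rw [e1, e2]
  linarith

end Pool.Agent.Sand.UG
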