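import Pool.Agent.SandFin.UGX
import Pool.Agent.SandFin.UC

/-! Task UH: upper bound `p_upper`.  (`UpStubUH` = the part of `Up.lean` before UH.) -/

set_option autoImplicit false
set_option linter.unusedSectionVars false
open scoped Classical
open Filter Topology

namespace Pool.Agent.Sand

variable {V : Type} (Δ : SimpleGraph V) [Δ.LocallyFinite]

theorem UH_pow {X η : ℝ} (hX : 1 ≤ X) (hη : 0 < η) :
    X ^ (5 / 2 : ℝ) ≤ η * X ^ 3 + (η⁻¹) ^ 5 := by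
  have hX0 : 0 ≤ X := by linarith
  obtain ⟨s, hs0, hs⟩ : ∃ s : ℝ, 0 ≤ s ∧ s ^ 2 = X := ⟨Real.sqrt X, Real.sqrt_nonneg _, Real.sq_sqrt hX0⟩
  have h1 : X ^ (5 / 2 : ℝ) = s ^ 5 := by
    rw [← hs, ← Real.rpow_natCast s 2, ← Real.rpow_mul hs0, ← Real.rpow_natCast s 5]
    norm_num
  have h2 : X ^ 3 = s ^ 6 := by rw [← hs]; ring
  rw [h1, h2]
  by_cases hc : 1 ≤ η * s
  · have : s ^ 5 ≤ η * s ^ 6 := by
      have h5 : 0 ≤ s ^ 5 := by positivity
      nlinarith [mul_le_mul_of_nonneg_right hc h5]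
    have h6 : 0 ≤ (η⁻¹) ^ 5 := by positivity
    linarith
  · push Not at hc
    have hs' : s ≤ η⁻¹ := by
      rw [← one_div, le_div_iff₀ hη]
      linarith [mul_comm η s]
    have : s ^ 5 ≤ (η⁻¹) ^ 5 := pow_le_pow_left₀ hs0 hs' 5
    have h6 : 0 ≤ η * s ^ 6 := by positivity
    linarith

/-- the pointwise bound -/
theorem UH_point {K x z η : ℝ} {n : ℕ} (hK : 0 < K) (hx : 0 ≤ x) (hz : 0 ≤ z) (hn : 1 ≤ n) (hη : 0 < η)
    (F F' : Prop) [Decidable F] [Decidable F'] (hFF : F ↔ F') (Q : Prop) [Decidable Q]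
    (hQ : Q → (n : ℝ) < 2 * x) :
    (if F then K * z ^ (5 / 2 : ℝ) * (n : ℝ) ^ (-(3 / 2 : ℝ)) + (if Q then 1 else 0) else 0) ≤
      ((K + 4) * (n : ℝ) ^ (-(3 / 2 : ℝ)) * η) * (1 + x + z) ^ 3 +
        ((K + 4) * (n : ℝ) ^ (-(3 / 2 : ℝ)) * (η⁻¹) ^ 5) * (if F' then 1 else 0) := by
  have hn' : (1 : ℝ) ≤ n := by exact_mod_cast hn
  have hn0 : (0 : ℝ) < n := by linarith
  have hN : 0 < (n : ℝ) ^ (-(3 / 2 : ℝ)) := Real.rpow_pos_of_pos hn0 _
  have hX : 1 ≤ 1 + x + z := by linarith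
  have hX0 : 0 < 1 + x + z := by linarith
  by_cases hF : F
  · rw [if_pos hF, if_pos (hFF.1 hF)]
    have h1 := UH_pow hX hη
    have h2 : z ^ (5 / 2 : ℝ) ≤ (1 + x + z) ^ (5 / 2 : ℝ) :=
      Real.rpow_le_rpow hz (by linarith) (by norm_num)
    have h3 : (if Q then (1 : ℝ) else 0) ≤ 4 * (n : ℝ) ^ (-(3 / 2 : ℝ)) * (1 + x + z) ^ (5 / 2 : ℝ) := by
      by_cases hQ' : Q
      · rw [if_pos hQ']
        have h4 := hQ hQ'
        -- `X^{5/2} ≥ X^2`, `n^{-3/2} ≥ n^{-2}`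
        have h5 : (1 + x + z) ^ 2 ≤ (1 + x + z) ^ (5 / 2 : ℝ) := by
          rw [← Real.rpow_natCast (1 + x + z) 2]
          exact Real.rpow_le_rpow_of_exponent_le hX (by norm_num)
        have h6 : ((n : ℝ) ^ 2)⁻¹ ≤ (n : ℝ) ^ (-(3 / 2 : ℝ)) := by
          rw [← Real.rpow_natCast (n : ℝ) 2, ← Real.rpow_neg hn0.le]
          exact Real.rpow_le_rpow_of_exponent_le hn' (by norm_num)
        have h7 : 1 ≤ 4 * ((n : ℝ) ^ 2)⁻¹ * (1 + x + z) ^ 2 := by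
          rw [mul_comm, ← mul_assoc, ← div_eq_mul_inv, le_div_iff₀ (by positivity)]
          nlinarith
        calc (1 : ℝ) ≤ 4 * ((n : ℝ) ^ 2)⁻¹ * (1 + x + z) ^ 2 := h7
          _ ≤ 4 * (n : ℝ) ^ (-(3 / 2 : ℝ)) * (1 + x + z) ^ (5 / 2 : ℝ) := by
            gcongr
      · rw [if_neg hQ']
        positivity
    calc K * z ^ (5 / 2 : ℝ) * (n : ℝ) ^ (-(3 / 2 : ℝ)) + (if Q then (1 : ℝ) else 0)
        ≤ K * (1 + x + z) ^ (5 / 2 : ℝ) * (n : ℝ) ^ (-(3 / 2 : ℝ)) +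
          4 * (n : ℝ) ^ (-(3 / 2 : ℝ)) * (1 + x + z) ^ (5 / 2 : ℝ) := by
          gcongr
      _ = (K + 4) * (n : ℝ) ^ (-(3 / 2 : ℝ)) * (1 + x + z) ^ (5 / 2 : ℝ) := by ring
      _ ≤ (K + 4) * (n : ℝ) ^ (-(3 / 2 : ℝ)) * (η * (1 + x + z) ^ 3 + (η⁻¹) ^ 5) := by
          gcongr
      _ = _ := by ring
  · rw [if_neg hF, if_neg (fun h => hF (hFF.2 h))]
    positivity

/-- `∑ 1/(j+1)^2 ≤ 2` -/
theorem UH_sum (n : ℕ) : ∑ j ∈ Finset.range (n + 1), (1 / ((j : ℝ) + 1) ^ 2) ≤ 2 - 1 / ((n : ℝ) + 1) := by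
  induction n with
  | zero => norm_num
  | succ n ih =>
    rw [Finset.sum_range_succ]
    have h1 : (0 : ℝ) < (n : ℝ) + 1 := by positivity
    have h3 : (1 : ℝ) / (((n + 1 : ℕ) : ℝ) + 1) ^ 2 ≤ 1 / ((n : ℝ) + 1) - 1 / (((n + 1 : ℕ) : ℝ) + 1) := by
      push_cast
      rw [div_sub_div _ _ (by positivity) (by positivity), div_le_div_iff₀ (by positivity) (by positivity)]
      nlinarith
    linarith

section U
variable {Δ} {r : ℕ} {h : ℝ} {D0 : ℕ} (H : Hyp Δ r h D0)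
include H

/-- the event `Qev (j - 1)` only depends on the filled ball of radius `j` -/
theorem UH_Qev {q0 : ℕ} {o : V} {j : ℕ} (u : V → ℕ) :
    Qev Δ q0 o j (rs (fs (fb Δ o (j + 1))) u) ↔ Qev Δ q0 o j u := by
  obtain ⟨T, hT⟩ := fb_bounds H
  have key : ∀ D ∈ cns Δ o j, ∀ v ∈ oB Δ D, rs (fs (fb Δ o (j + 1))) u v = u v := by
    intro D hD v hv
    have hD' : Cone Δ o j D := by
      have := (mem_fs (cones_finite H o j)).1 hD
      exact this
    have h1 : v ∈ sph Δ o j := oB_sub H hD'.comp hv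
    have h2 : v ∈ fb Δ o (j + 1) := by
      refine (hT o (j + 1)).2.1 ?_
      show Δ.dist o v ≤ j + 1
      have : Δ.dist o v = j := h1
      omega
    unfold rs
    rw [if_pos ((mem_fs (hT o (j + 1)).1).2 h2)]
  constructor
  · intro hq D hD v hv
    have := hq D hD v hv
    rwa [key D hD v hv] at this
  · intro hq D hD v hv
    rw [key D hD v hv]
    exact hq D hD v hv

theorem p_upper : ∃ K : ℝ, 0 < K ∧ ∀ (o : V) (n : ℕ), 1 ≤ n → ∀ᶠ G in (atTop : Filter (Finset V)),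
    pr Δ r G (fun χ => (avs Δ r G χ o).card = n) ≤ K * (n : ℝ) ^ (-(3 / 2 : ℝ)) := by
  obtain ⟨q0, hq⟩ := q_tail H
  obtain ⟨K, hK, htop⟩ := topb H q0
  obtain ⟨C, a, hC, hum⟩ := um_av H
  obtain ⟨C1, hC1, hq1⟩ := hq (5 * a + 12)
  obtain ⟨C2, hC2, hq2⟩ := hq 2
  set B : ℝ := C + 2 ^ (5 * a + 12) * (C1 + 1) with hB
  have hBpos : 0 < B := by positivity
  refine ⟨1 + (K + 4) * B * 2 + C2, by positivity, fun o n hn => ?_⟩
  have hn' : (1 : ℝ) ≤ n := by exact_mod_cast hn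
  have hn0 : (0 : ℝ) < n := by linarith
  set N : ℝ := (n : ℝ) ^ (-(3 / 2 : ℝ)) with hN
  have hNpos : 0 < N := Real.rpow_pos_of_pos hn0 _
  obtain ⟨Φ, hΦ⟩ : ∃ Φ : ℕ → (V → ℕ) → Prop, ∀ j w, Φ j w ↔ (j = 0 ∨ ¬ Qev Δ q0 o (j - 1) w) :=
    ⟨_, fun _ _ => Iff.rfl⟩
  set ε : ℝ := N / ((n : ℝ) + 1) with hε
  have hεpos : 0 < ε := by positivity
  have e1 : ∀ᶠ G in (atTop : Filter (Finset V)), ∀ j ∈ Finset.range (n + 1), _ :=
    (Filter.eventually_all_finset _).2 fun j _ => htop o j n hn (Φ j) ε hεpos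
  have e2 : ∀ᶠ G in (atTop : Filter (Finset V)), ∀ j ∈ Finset.range (n + 1), _ :=
    (Filter.eventually_all_finset _).2 fun j _ => hum o j
  have e3 : ∀ᶠ G in (atTop : Filter (Finset V)), ∀ j ∈ Finset.range (n + 1), _ :=
    (Filter.eventually_all_finset _).2 fun j _ => hq1 o (j - 1)
  filter_upwards [e1, e2, e3, hq2 o n] with G g1 g2 g3 g4
  -- the decomposition
  have hdec : pr Δ r G (fun χ => (avs Δ r G χ o).card = n) ≤
      ∑ j ∈ Finset.range (n + 1), pr Δ r G (fun χ => (avs Δ r G χ o).card = n ∧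
        Qev Δ q0 o j (avo Δ r G χ o) ∧ Φ j (rs (fs (fb Δ o j)) (avo Δ r G χ o))) +
      pr Δ r G (fun χ => ¬ Qev Δ q0 o n (avo Δ r G χ o)) := by
    have hu := pr_union H G (Finset.range (n + 2)) (fun j χ => if j = n + 1 then
      ¬ Qev Δ q0 o n (avo Δ r G χ o) else ((avs Δ r G χ o).card = n ∧
        Qev Δ q0 o j (avo Δ r G χ o) ∧ Φ j (rs (fs (fb Δ o j)) (avo Δ r G χ o))))
    rw [Finset.sum_range_succ] at hu
    simp only [if_true] at hu
    refine (pr_mono H G ?_).trans (hu.trans ?_)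
    · intro χ _ hχ
      by_cases hex : ∃ j, j ≤ n ∧ Qev Δ q0 o j (avo Δ r G χ o)
      · have hm := Nat.find_spec hex
        refine ⟨Nat.find hex, Finset.mem_range.2 (by omega), ?_⟩
        rw [if_neg (by omega)]
        refine ⟨hχ, hm.2, (hΦ _ _).2 ?_⟩
        rcases Nat.eq_zero_or_pos (Nat.find hex) with h0 | h0
        · left; exact h0
        · right
          obtain ⟨i, hi⟩ : ∃ i, Nat.find hex = i + 1 := ⟨Nat.find hex - 1, by omega⟩
          have hmin := Nat.find_min hex (m := i) (by omega)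
          rw [hi, Nat.add_sub_cancel, UH_Qev H]
          intro hqv
          exact hmin ⟨by omega, hqv⟩
      · push Not at hex
        refine ⟨n + 1, Finset.mem_range.2 (by omega), ?_⟩
        rw [if_pos rfl]
        exact hex n le_rfl
    · refine add_le_add_left ?_ _
      refine Finset.sum_le_sum fun j hj => ?_
      rw [Finset.mem_range] at hj
      refine pr_mono H G ?_
      intro χ _ hχ
      rwa [if_neg (by omega)] at hχ
  -- each term
  have hterm : ∀ j ∈ Finset.range (n + 1), pr Δ r G (fun χ => (avs Δ r G χ o).card = n ∧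
        Qev Δ q0 o j (avo Δ r G χ o) ∧ Φ j (rs (fs (fb Δ o j)) (avo Δ r G χ o))) ≤
      ε + (K + 4) * N * (B * (1 / ((j : ℝ) + 1) ^ 2)) := by
    intro j hj
    refine (g1 j hj).trans ?_
    refine add_le_add_right ?_ ε
    have hj1 : (0 : ℝ) < (j : ℝ) + 1 := by positivity
    set η : ℝ := (((j : ℝ) + 1) ^ (a + 2))⁻¹ with hη
    have hηpos : 0 < η := by positivity
    obtain ⟨F, hF⟩ : ∃ F : (V → ℕ) → Prop, ∀ χ, (Qev Δ q0 o j (avo Δ r G χ o) ∧
      Φ j (rs (fs (fb Δ o j)) (avo Δ r G χ o))) ↔ F χ := ⟨_, fun _ => Iff.rfl⟩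
    have h1 := ex_mono H G (f := fun χ => if Qev Δ q0 o j (avo Δ r G χ o) ∧
        Φ j (rs (fs (fb Δ o j)) (avo Δ r G χ o)) then
        K * (Zc Δ o j (avs Δ r G χ o) : ℝ) ^ (5 / 2 : ℝ) * (n : ℝ) ^ (-(3 / 2 : ℝ)) +
          (if n < 2 * ((avs Δ r G χ o).filter (· ∈ fb Δ o j)).card then 1 else 0) else 0)
      (g := fun χ => ((K + 4) * (n : ℝ) ^ (-(3 / 2 : ℝ)) * η) *
        (1 + (((avs Δ r G χ o).filter (· ∈ fb Δ o j)).card : ℝ) + (Zc Δ o j (avs Δ r G χ o) : ℝ)) ^ 3 +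
        ((K + 4) * (n : ℝ) ^ (-(3 / 2 : ℝ)) * (η⁻¹) ^ 5) * (if F χ then 1 else 0)) (by
        intro χ _
        refine UH_point hK (Nat.cast_nonneg _) (Nat.cast_nonneg _) hn hηpos _ _ (hF χ) _ ?_
        intro hlt
        exact_mod_cast hlt)
    refine h1.trans ?_
    rw [ex_add H, ex_mul H, ex_mul H, ex_ind H]
    have h2 := g2 j hj
    have h3 : pr Δ r G F ≤ 2 ^ (5 * a + 12) * (C1 + 1) / ((j : ℝ) + 1) ^ (5 * a + 12) := by
      rcases Nat.eq_zero_or_pos j with h0 | h0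
      · refine (pr_le_one H G F).trans ?_
        rw [h0]
        simp only [Nat.cast_zero, zero_add, one_pow, div_one]
        have : (1 : ℝ) ≤ 2 ^ (5 * a + 12) := one_le_pow₀ (by norm_num)
        nlinarith
      · obtain ⟨i, rfl⟩ : ∃ i, j = i + 1 := ⟨j - 1, by omega⟩
        have h4 := g3 (i + 1) hj
        rw [Nat.add_sub_cancel] at h4
        have h5 : pr Δ r G F ≤ pr Δ r G (fun χ => ¬ Qev Δ q0 o i (avo Δ r G χ o)) := by
          refine pr_mono H G ?_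
          intro χ _ hχ
          have := (hΦ _ _).1 ((hF χ).2 hχ).2
          rw [Nat.add_sub_cancel, UH_Qev H] at this
          rcases this with h | h
          · omega
          · exact h
        refine (h5.trans h4).trans ?_
        have hi : (0 : ℝ) < (i : ℝ) + 1 := by positivity
        rw [div_le_div_iff₀ (by positivity) (by positivity)]
        push_cast
        have h6 : ((i : ℝ) + 1 + 1) ^ (5 * a + 12) ≤ (2 * ((i : ℝ) + 1)) ^ (5 * a + 12) :=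
          pow_le_pow_left₀ (by positivity) (by linarith [Nat.cast_nonneg (α := ℝ) i]) _
        rw [mul_pow] at h6
        have h7 : C1 * ((i : ℝ) + 1 + 1) ^ (5 * a + 12) ≤
            C1 * (2 ^ (5 * a + 12) * ((i : ℝ) + 1) ^ (5 * a + 12)) :=
          mul_le_mul_of_nonneg_left h6 hC1.le
        have h8 : (0 : ℝ) ≤ 2 ^ (5 * a + 12) * ((i : ℝ) + 1) ^ (5 * a + 12) := by positivity
        nlinarith
    have hKN : 0 < (K + 4) * (n : ℝ) ^ (-(3 / 2 : ℝ)) := by positivity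
    have h4 : η * ex Δ r G (fun χ => (1 + (((avs Δ r G χ o).filter (· ∈ fb Δ o j)).card : ℝ) +
        (Zc Δ o j (avs Δ r G χ o) : ℝ)) ^ 3) ≤ C * (1 / ((j : ℝ) + 1) ^ 2) := by
      refine (mul_le_mul_of_nonneg_left h2 hηpos.le).trans (le_of_eq ?_)
      rw [hη, pow_add]
      field_simp
    have h5 : (η⁻¹) ^ 5 * pr Δ r G F ≤ 2 ^ (5 * a + 12) * (C1 + 1) * (1 / ((j : ℝ) + 1) ^ 2) := by
      refine (mul_le_mul_of_nonneg_left h3 (by positivity)).trans (le_of_eq ?_)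
      have e : ((j : ℝ) + 1) ^ (5 * a + 12) = ((j : ℝ) + 1) ^ ((a + 2) * 5) * ((j : ℝ) + 1) ^ 2 := by
        rw [← pow_add]
        congr 1
        ring
      rw [hη, inv_inv, ← pow_mul, e]
      field_simp
    calc (K + 4) * (n : ℝ) ^ (-(3 / 2 : ℝ)) * η * ex Δ r G (fun χ =>
          (1 + (((avs Δ r G χ o).filter (· ∈ fb Δ o j)).card : ℝ) +
            (Zc Δ o j (avs Δ r G χ o) : ℝ)) ^ 3) +
          (K + 4) * (n : ℝ) ^ (-(3 / 2 : ℝ)) * (η⁻¹) ^ 5 * pr Δ r G F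
        = (K + 4) * (n : ℝ) ^ (-(3 / 2 : ℝ)) * (η * ex Δ r G (fun χ =>
          (1 + (((avs Δ r G χ o).filter (· ∈ fb Δ o j)).card : ℝ) +
            (Zc Δ o j (avs Δ r G χ o) : ℝ)) ^ 3) + (η⁻¹) ^ 5 * pr Δ r G F) := by ring
      _ ≤ (K + 4) * (n : ℝ) ^ (-(3 / 2 : ℝ)) * (C * (1 / ((j : ℝ) + 1) ^ 2) +
            2 ^ (5 * a + 12) * (C1 + 1) * (1 / ((j : ℝ) + 1) ^ 2)) := by
          gcongr
      _ = (K + 4) * N * (B * (1 / ((j : ℝ) + 1) ^ 2)) := by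
          rw [hN, hB]
          ring
  -- the sum
  refine hdec.trans ?_
  have s1 := Finset.sum_le_sum hterm
  rw [Finset.sum_add_distrib, Finset.sum_const, Finset.card_range, nsmul_eq_mul, ← Finset.mul_sum,
    ← Finset.mul_sum] at s1
  have s2 : ((n + 1 : ℕ) : ℝ) * ε = N := by
    rw [hε]
    push_cast
    field_simp
  have s3 : ∑ j ∈ Finset.range (n + 1), (1 / ((j : ℝ) + 1) ^ 2) ≤ 2 := by
    have := UH_sum n
    have h0 : (0 : ℝ) ≤ 1 / ((n : ℝ) + 1) := by positivity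
    linarith
  have s4 : (K + 4) * N * (B * ∑ j ∈ Finset.range (n + 1), (1 / ((j : ℝ) + 1) ^ 2)) ≤
      (K + 4) * N * (B * 2) := by
    gcongr
  have s5 : C2 / ((n : ℝ) + 1) ^ 2 ≤ C2 * N := by
    rw [div_eq_mul_inv]
    refine mul_le_mul_of_nonneg_left ?_ hC2.le
    have h6 : ((n : ℝ) ^ 2)⁻¹ ≤ (n : ℝ) ^ (-(3 / 2 : ℝ)) := by
      rw [← Real.rpow_natCast (n : ℝ) 2, ← Real.rpow_neg hn0.le]
      exact Real.rpow_le_rpow_of_exponent_le hn' (by norm_num)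
    refine le_trans ?_ h6
    gcongr
    linarith
  rw [s2] at s1
  calc _ ≤ N + (K + 4) * N * (B * 2) + C2 * N := by
        refine add_le_add (s1.trans ?_) (g4.trans s5)
        linarith
    _ = (1 + (K + 4) * B * 2 + C2) * N := by ring

end U

end Pool.Agent.Sand
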